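import Pool.Agent.H212AN.Main
import Pool.Agent.W594.AN.Spectral
import Pool.Agent.W108.GP.PB
import Pool.Agent.W973.GP.PG

set_option autoImplicit false

/-!
# Project H212AN: domains all but finitely many of whose eigenvalues agree
-/

namespace Pool.Agent.H212AN

open MeasureTheory Set Filter Topology Metric
open Pool.Agent.W594.AN (ClosedCurve SmoothDomain heatTrace dirichletEigenvalue HeatExpansion)
open scoped Real ENNReal ComplexConjugate

/-- an analytic function which is small to infinite order at zero vanishes -/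
theorem almost_flat {D : ℝ → ℝ} (hD : AnalyticOnNhd ℝ D univ)
    (h : ∀ j : ℕ, ∃ C : ℝ, ∀ t : ℝ, 0 < t → t < 1 → |D t| ≤ C * t ^ j) (t : ℝ) : D t = 0 := by
  have h0 : ∀ᶠ z in 𝓝 (0 : ℝ), D z = 0 := by
    by_contra hne
    obtain ⟨n, g, hg, hg0, hgD⟩ :=
      ((hD 0 (mem_univ _)).exists_eventuallyEq_pow_smul_nonzero_iff).2 hne
    obtain ⟨C, hC⟩ := h (n + 1)
    have h1 : ∀ᶠ t in 𝓝[>] (0 : ℝ), |g t| ≤ C * t := by
      filter_upwards [hgD.filter_mono nhdsWithin_le_nhds, Ioo_mem_nhdsGT (zero_lt_one' ℝ)] with t h2 h3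
      have h4 := hC t h3.1 h3.2
      rw [h2, sub_zero, smul_eq_mul, abs_mul, abs_of_pos (pow_pos h3.1 n), pow_succ] at h4
      have h5 : t ^ n * |g t| ≤ t ^ n * (C * t) := by linarith
      exact le_of_mul_le_mul_left h5 (pow_pos h3.1 n)
    have h2 : Tendsto (fun t => |g t|) (𝓝[>] (0 : ℝ)) (𝓝 |g 0|) :=
      (hg.continuousAt.abs.tendsto).mono_left nhdsWithin_le_nhds
    have h3 : Tendsto (fun t : ℝ => C * t) (𝓝[>] (0 : ℝ)) (𝓝 (C * 0)) :=
      ((continuous_const.mul continuous_id).tendsto 0).mono_left nhdsWithin_le_nhds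
    have h4 := le_of_tendsto_of_tendsto h2 h3 h1
    rw [mul_zero] at h4
    exact hg0 (abs_eq_zero.1 (le_antisymm h4 (abs_nonneg _)))
  have h1 := hD.eq_of_eventuallyEq (z₀ := 0) (g := fun _ => (0 : ℝ)) analyticOnNhd_const h0
  exact congrFun h1 t

/-- the heat trace converges -/
theorem almost_sum {Ω : Set ℂ} (hO : IsOpen Ω) (hb : Bornology.IsBounded Ω) (hn : Ω.Nonempty)
    {t : ℝ} (ht : 0 < t) :
    Summable (fun k : ℕ => Real.exp (-(t * Pool.Agent.W703.GP.ev Ω (k + 1)))) := by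
  have hPB := Pool.Agent.W108.GP.t_PB Pool.Agent.W973.GP.t_PG
  obtain ⟨-, h2⟩ := hPB Ω hO hb hn 1 le_rfl
  have h3 := h2 2 le_rfl
  refine Summable.of_nonneg_of_le (fun k => (Real.exp_pos _).le) (fun k => ?_)
    (h3.mul_left (2 / t ^ 2))
  have h4 : 0 < Pool.Agent.W703.GP.ev Ω (k + 1) := (hPB Ω hO hb hn (k + 1) (by omega)).1.2.2.2.2.1
  have h5 : 0 ≤ t * Pool.Agent.W703.GP.ev Ω (k + 1) := by positivity
  have h6 := Real.quadratic_le_exp_of_nonneg h5
  have h7 : (t * Pool.Agent.W703.GP.ev Ω (k + 1)) ^ 2 / 2 ≤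
      Real.exp (t * Pool.Agent.W703.GP.ev Ω (k + 1)) := by nlinarith
  rw [Real.exp_neg]
  have h8 : 0 < (t * Pool.Agent.W703.GP.ev Ω (k + 1)) ^ 2 / 2 := by positivity
  calc (Real.exp (t * Pool.Agent.W703.GP.ev Ω (k + 1)))⁻¹ ≤
      ((t * Pool.Agent.W703.GP.ev Ω (k + 1)) ^ 2 / 2)⁻¹ := inv_anti₀ h8 h7
    _ = 2 / t ^ 2 * (Pool.Agent.W703.GP.ev Ω (k + 1))⁻¹ ^ 2 := by
        field_simp

/-- the invariants are determined by the heat trace up to `o(√t)` -/
theorem invariants_almost (D D' : SmoothDomain)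
    (h : Tendsto (fun t : ℝ => (heatTrace D'.Ω t - heatTrace D.Ω t) / √t) (𝓝[>] 0) (𝓝 0)) :
    D'.holes = D.holes ∧ D'.area = D.area ∧
      D'.perimeter = D.perimeter ∧ D'.bending = D.bending := by
  obtain ⟨c₀, c₁, c₂, c₃, h0, h1, h2, h3, H⟩ := heatExpansion
  have hD := H D
  have hD' := (H D').sub h
  rw [sub_zero] at hD'
  have hD'' : Tendsto (fun t : ℝ => (heatTrace D.Ω t -
        (c₀ * D'.area / t + c₁ * D'.perimeter / √t + c₂ * (1 - D'.holes))) / √t)
      (𝓝[>] 0) (𝓝 (c₃ * D'.bending)) := by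
    refine hD'.congr' ?_
    filter_upwards with t
    ring
  have hsub := hD''.sub hD
  set a := D.area - D'.area
  set p := D.perimeter - D'.perimeter
  set q : ℝ := (D'.holes : ℝ) - D.holes
  set l := c₃ * D'.bending - c₃ * D.bending
  have hlim : Tendsto (fun t : ℝ => (c₀ * a / t + c₁ * p / √t + c₂ * q) / √t)
      (𝓝[>] 0) (𝓝 l) := by
    refine hsub.congr' ?_
    filter_upwards with t
    simp only [a, p, q]
    ring
  have hs : Tendsto (fun t : ℝ => √t) (𝓝[>] 0) (𝓝 0) := by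
    have : Tendsto (fun t : ℝ => √t) (𝓝 0) (𝓝 (√0)) := Real.continuous_sqrt.tendsto 0
    rw [Real.sqrt_zero] at this
    exact this.mono_left nhdsWithin_le_nhds
  have hpos : ∀ᶠ t : ℝ in 𝓝[>] 0, 0 < t := self_mem_nhdsWithin
  -- area
  have ha : a = 0 := by
    have e1 : Tendsto (fun t : ℝ => (c₀ * a / t + c₁ * p / √t + c₂ * q) / √t * (√t) ^ 3)
        (𝓝[>] 0) (𝓝 (l * 0 ^ 3)) := hlim.mul (hs.pow 3)
    have e2 : Tendsto (fun t : ℝ => c₀ * a + c₁ * p * √t + c₂ * q * (√t) ^ 2)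
        (𝓝[>] 0) (𝓝 (c₀ * a + c₁ * p * 0 + c₂ * q * 0 ^ 2)) :=
      (tendsto_const_nhds.add (hs.const_mul _)).add ((hs.pow 2).const_mul _)
    have e3 := e1.congr' (f₂ := fun t : ℝ => c₀ * a + c₁ * p * √t + c₂ * q * (√t) ^ 2) (by
      filter_upwards [hpos] with t ht
      have h4 : 0 < √t := Real.sqrt_pos.2 ht
      have h5 : (√t) ^ 2 = t := Real.sq_sqrt ht.le
      nth_rewrite 1 [← h5]
      field_simp)
    have e4 := tendsto_nhds_unique e2 e3
    have e5 : c₀ * a = 0 := by linarith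
    rcases mul_eq_zero.1 e5 with h | h
    · exact absurd h h0
    · exact h
  rw [ha] at hlim
  have hp : p = 0 := by
    have e1 : Tendsto (fun t : ℝ => (c₀ * 0 / t + c₁ * p / √t + c₂ * q) / √t * (√t) ^ 2)
        (𝓝[>] 0) (𝓝 (l * 0 ^ 2)) := hlim.mul (hs.pow 2)
    have e2 : Tendsto (fun t : ℝ => c₁ * p + c₂ * q * √t)
        (𝓝[>] 0) (𝓝 (c₁ * p + c₂ * q * 0)) :=
      tendsto_const_nhds.add (hs.const_mul _)
    have e3 := e1.congr' (f₂ := fun t : ℝ => c₁ * p + c₂ * q * √t) (by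
      filter_upwards [hpos] with t ht
      have h4 : 0 < √t := Real.sqrt_pos.2 ht
      field_simp
      ring)
    have e4 := tendsto_nhds_unique e2 e3
    have e5 : c₁ * p = 0 := by linarith
    rcases mul_eq_zero.1 e5 with h | h
    · exact absurd h h1
    · exact h
  rw [hp] at hlim
  have hq : q = 0 := by
    have e1 : Tendsto (fun t : ℝ => (c₀ * 0 / t + c₁ * 0 / √t + c₂ * q) / √t * √t)
        (𝓝[>] 0) (𝓝 (l * 0)) := hlim.mul hs
    have e3 := e1.congr' (f₂ := fun _ : ℝ => c₂ * q) (by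
      filter_upwards [hpos] with t ht
      have h4 : 0 < √t := Real.sqrt_pos.2 ht
      field_simp
      ring)
    have e4 := tendsto_nhds_unique (tendsto_const_nhds (x := c₂ * q)) e3
    have e5 : c₂ * q = 0 := by linarith
    rcases mul_eq_zero.1 e5 with h | h
    · exact absurd h h2
    · exact h
  rw [hq] at hlim
  have hl : l = 0 := by
    have e3 := hlim.congr' (f₂ := fun _ : ℝ => (0 : ℝ)) (by
      filter_upwards with t
      ring)
    exact tendsto_nhds_unique e3 tendsto_const_nhds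
  refine ⟨?_, ?_, ?_, ?_⟩
  · have : (D'.holes : ℝ) = D.holes := by linarith
    exact_mod_cast this
  · linarith
  · linarith
  · have e5 : c₃ * (D'.bending - D.bending) = 0 := by
      have : l = c₃ * (D'.bending - D.bending) := by ring
      rw [← this, hl]
    rcases mul_eq_zero.1 e5 with h | h
    · exact absurd h h3
    · linarith

/-- the difference of the heat traces is a finite sum of exponentials -/
theorem heat_diff {Ω Ω' : Set ℂ} (hO : IsOpen Ω) (hb : Bornology.IsBounded Ω) (hn : Ω.Nonempty)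
    (hO' : IsOpen Ω') (hb' : Bornology.IsBounded Ω') (hn' : Ω'.Nonempty)
    (h : ∀ᶠ k in atTop, dirichletEigenvalue Ω k = dirichletEigenvalue Ω' k) :
    ∃ (K : ℕ) (a b : ℕ → ℝ), ∀ t : ℝ, 0 < t → heatTrace Ω' t - heatTrace Ω t =
      ∑ k ∈ Finset.range K, Real.exp (-(t * b k)) - ∑ k ∈ Finset.range K, Real.exp (-(t * a k)) := by
  obtain ⟨K, hK⟩ := eventually_atTop.1 h
  refine ⟨K, fun k => dirichletEigenvalue Ω (k + 1), fun k => dirichletEigenvalue Ω' (k + 1),
    fun t ht => ?_⟩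
  have h1 := (almost_sum hO hb hn ht).sum_add_tsum_nat_add K
  have h2 := (almost_sum hO' hb' hn' ht).sum_add_tsum_nat_add K
  have h3 : ∑' i, Real.exp (-(t * dirichletEigenvalue Ω (i + K + 1))) =
      ∑' i, Real.exp (-(t * dirichletEigenvalue Ω' (i + K + 1))) :=
    tsum_congr fun i => by rw [hK (i + K + 1) (by omega)]
  have h4 : heatTrace Ω t = ∑ k ∈ Finset.range K, Real.exp (-(t * dirichletEigenvalue Ω (k + 1))) +
      ∑' i, Real.exp (-(t * dirichletEigenvalue Ω (i + K + 1))) := by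
    rw [link_heat]
    exact h1.symm
  have h5 : heatTrace Ω' t =
      ∑ k ∈ Finset.range K, Real.exp (-(t * dirichletEigenvalue Ω' (k + 1))) +
      ∑' i, Real.exp (-(t * dirichletEigenvalue Ω' (i + K + 1))) := by
    rw [link_heat]
    exact h2.symm
  rw [h4, h5, h3]
  ring

/-- the difference is small -/
theorem diff_small (K : ℕ) (a b : ℕ → ℝ) :
    Tendsto (fun t : ℝ => (∑ k ∈ Finset.range K, Real.exp (-(t * b k)) -
      ∑ k ∈ Finset.range K, Real.exp (-(t * a k))) / √t) (𝓝[>] 0) (𝓝 0) := by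
  set F : ℝ → ℝ := fun t => ∑ k ∈ Finset.range K, Real.exp (-(t * b k)) -
      ∑ k ∈ Finset.range K, Real.exp (-(t * a k)) with hF
  have hd : DifferentiableAt ℝ F 0 := by
    rw [hF]
    fun_prop
  have h0 : F 0 = 0 := by simp [hF]
  obtain ⟨F', hF'⟩ : ∃ F', HasDerivAt F F' 0 := ⟨_, hd.hasDerivAt⟩
  have h1 : Tendsto (fun t : ℝ => F t / t) (𝓝[>] 0) (𝓝 F') := by
    have h2 := hF'.tendsto_slope_zero_right
    refine h2.congr' ?_
    filter_upwards with t
    rw [zero_add, h0, sub_zero, smul_eq_mul]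
    field_simp
  have hs : Tendsto (fun t : ℝ => √t) (𝓝[>] 0) (𝓝 0) := by
    have : Tendsto (fun t : ℝ => √t) (𝓝 0) (𝓝 (√0)) := Real.continuous_sqrt.tendsto 0
    rw [Real.sqrt_zero] at this
    exact this.mono_left nhdsWithin_le_nhds
  have h3 := h1.mul hs
  rw [mul_zero] at h3
  refine h3.congr' ?_
  filter_upwards [self_mem_nhdsWithin] with t ht
  have ht' : (0:ℝ) < t := ht
  have h4 : 0 < √t := Real.sqrt_pos.2 ht'
  have h5 : √t * √t = t := Real.mul_self_sqrt ht'.le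
  rw [div_mul_eq_mul_div, div_eq_div_iff ht'.ne' h4.ne', mul_assoc, h5]

/-- a flat finite sum of exponentials vanishes -/
theorem diff_zero {K : ℕ} {a b : ℕ → ℝ}
    (h : ∀ j : ℕ, ∃ C : ℝ, ∀ t : ℝ, 0 < t → t < 1 →
      |∑ k ∈ Finset.range K, Real.exp (-(t * b k)) -
        ∑ k ∈ Finset.range K, Real.exp (-(t * a k))| ≤ C * t ^ j) (t : ℝ) :
    ∑ k ∈ Finset.range K, Real.exp (-(t * b k)) -
      ∑ k ∈ Finset.range K, Real.exp (-(t * a k)) = 0 := by
  have han : ∀ c : ℕ → ℝ, AnalyticOnNhd ℝ (fun t => ∑ k ∈ Finset.range K, Real.exp (-(t * c k))) univ := by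
    intro c
    refine Finset.analyticOnNhd_fun_sum _ fun k _ => ?_
    refine AnalyticOnNhd.rexp ?_
    exact (analyticOnNhd_id.mul analyticOnNhd_const).neg
  exact almost_flat (D := fun t => ∑ k ∈ Finset.range K, Real.exp (-(t * b k)) -
    ∑ k ∈ Finset.range K, Real.exp (-(t * a k))) ((han b).sub (han a)) h t

end Pool.Agent.H212AN
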