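import Pool.Agent.H212AN.Main
import Pool.Agent.W440.GP.PI

set_option autoImplicit false

/-!
# Project H212AN: circular annuli
-/

namespace Pool.Agent.H212AN

open MeasureTheory Set Filter Topology Metric
open Pool.Agent.W594.AN (ClosedCurve SmoothDomain heatTrace dirichletEigenvalue Isospectral
  IsPerforatedDisc annuli_congruent perforated_of_isospectral)
open scoped Real ENNReal ComplexConjugate

theorem ev_congr (φ : ℂ ≃ᵢ ℂ) (Ω : Set ℂ) (k : ℕ) :
    dirichletEigenvalue (φ '' Ω) k = dirichletEigenvalue Ω k :=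
  Pool.Agent.W440.GP.t_PI.1 φ Ω k

theorem heat_congr (φ : ℂ ≃ᵢ ℂ) (Ω : Set ℂ) (t : ℝ) : heatTrace (φ '' Ω) t = heatTrace Ω t := by
  unfold heatTrace
  simp only [ev_congr]

/-- the heat trace of a disc with one hole distinguishes the positions of the hole -/
theorem heat_lt {R r : ℝ} {z w z' w' : ℂ} (hr : 0 < r) (h : dist z w < dist z' w')
    (h' : dist z' w' + r < R) : ∃ t : ℝ, 0 < t ∧
      heatTrace (ball z R \ closedBall w r) t < heatTrace (ball z' R \ closedBall w' r) t := by
  have h0 : 0 ≤ dist z w := dist_nonneg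
  set d := dist z w with hd
  set d' := dist z' w' with hd'
  obtain ⟨t, ht, hlt⟩ := q_obs _ link_up link_lo link_nonneg R r ((d + d') / 2) ((d' - d) / 2) hr
    (by linarith) (by linarith) (by linarith)
  refine ⟨t, ht, ?_⟩
  have e1 : dist z w = dist ((((d + d') / 2 : ℝ) : ℂ) * Complex.I)
      ((((d' - d) / 2 : ℝ) : ℂ) * Complex.I) := by
    rw [← hd, dist_eq_norm, ← sub_mul, norm_mul, Complex.norm_I, mul_one, ← Complex.ofReal_sub,
      Complex.norm_real, Real.norm_eq_abs]
    rw [show (d + d') / 2 - (d' - d) / 2 = d by ring, abs_of_nonneg h0]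
  have e2 : dist z' w' = dist ((((d + d') / 2 : ℝ) : ℂ) * Complex.I)
      (-((((d' - d) / 2 : ℝ) : ℂ) * Complex.I)) := by
    rw [← hd', dist_eq_norm, sub_neg_eq_add, ← add_mul, norm_mul, Complex.norm_I, mul_one,
      ← Complex.ofReal_add, Complex.norm_real, Real.norm_eq_abs]
    rw [show (d + d') / 2 + (d' - d) / 2 = d' by ring, abs_of_nonneg (by linarith)]
  obtain ⟨φ, hφ⟩ := annuli_congruent (R := R) (r := r) e1
  obtain ⟨ψ, hψ⟩ := annuli_congruent (R := R) (r := r) e2
  rw [← heat_congr φ (ball z R \ closedBall w r), hφ,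
    ← heat_congr ψ (ball z' R \ closedBall w' r), hψ, link_heat, link_heat]
  exact hlt

/-- **Spectral theorem**, discs with equal circular holes. -/
theorem perforated_main {Ω Ω' : Set ℂ} {n m : ℕ} {R r : ℝ} {c : Fin m → ClosedCurve}
    (hr : 0 < r) (hR : 0 < R) (hΩ : IsPerforatedDisc Ω n R r) (h : SD Ω' m c)
    (hiso : Isospectral Ω Ω') : IsPerforatedDisc Ω' n R r := by
  obtain ⟨D, rfl⟩ := exists_SmoothDomain h
  exact perforated_of_isospectral heatExpansion hr hR hΩ D hiso

/-- **Spectral theorem**, circular annuli. -/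
theorem annulus_main {Ω' : Set ℂ} {m : ℕ} {c : Fin m → ClosedCurve} {z w : ℂ} {R r : ℝ}
    (hr : 0 < r) (hd : dist z w + r < R) (h : SD Ω' m c)
    (hiso : Isospectral (ball z R \ closedBall w r) Ω') :
    ∃ φ : ℂ ≃ᵢ ℂ, φ '' (ball z R \ closedBall w r) = Ω' := by
  have hu : ∀ v : Fin 1 → ℂ, (⋃ i, closedBall (v i) r) = closedBall (v 0) r := by
    intro v
    ext p
    rw [mem_iUnion]
    constructor
    · rintro ⟨i, hi⟩
      rwa [Subsingleton.elim i 0] at hi
    · intro h
      exact ⟨0, h⟩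
  have hR : 0 < R := by
    have := dist_nonneg (x := z) (y := w)
    linarith
  have hΩ : IsPerforatedDisc (ball z R \ closedBall w r) 1 R r := by
    refine ⟨z, fun _ => w, fun _ => ?_, fun i j hij => absurd (Subsingleton.elim i j) hij, ?_⟩
    · apply closedBall_subset_ball'
      rw [dist_comm]
      linarith
    · rw [hu]
  obtain ⟨z', w', h1', -, hΩ'⟩ := perforated_main hr hR hΩ h hiso
  rw [hu] at hΩ'
  have hd' := Pool.Agent.W594.AN.dist_add_lt hr (sphere_subset_closedBall.trans (h1' 0))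
  rw [dist_comm] at hd'
  have hZ : ∀ t, heatTrace (ball z R \ closedBall w r) t =
      heatTrace (ball z' R \ closedBall (w' 0) r) t := by
    intro t
    unfold heatTrace
    rw [← hΩ']
    simp only [hiso _]
  rw [hΩ']
  apply annuli_congruent
  rcases lt_trichotomy (dist z w) (dist z' (w' 0)) with h | h | h
  · obtain ⟨t, -, ht⟩ := heat_lt hr h hd'
    rw [hZ t] at ht
    exact absurd ht (lt_irrefl _)
  · exact h
  · obtain ⟨t, -, ht⟩ := heat_lt hr h hd
    rw [hZ t] at ht
    exact absurd ht (lt_irrefl _)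

end Pool.Agent.H212AN
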