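import Pool.Agent.H212AN.E4

set_option autoImplicit false

namespace Pool.Agent.H212AN

open MeasureTheory Set Filter Topology Metric
open Pool.Agent.W594.AN (ClosedCurve)
open scoped Real ENNReal ComplexConjugate

theorem pf_bc_hasDerivAt (z : ℂ) {ρ : ℝ} (hρ : 0 < ρ) (s : ℝ) :
    HasDerivAt (fun s : ℝ => circleMap z ρ (s / ρ)) (circleMap 0 1 (s / ρ) * Complex.I) s := by
  have h1 : HasDerivAt (fun s : ℝ => s / ρ) (1 / ρ) s := (hasDerivAt_id s).div_const ρ
  have h2 := (hasDerivAt_circleMap z ρ (s / ρ)).scomp s h1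
  refine h2.congr_deriv ?_
  have hc : (ρ : ℂ) ≠ 0 := by exact_mod_cast hρ.ne'
  simp only [circleMap, zero_add, Complex.real_smul, Complex.ofReal_one, one_mul]
  push_cast
  field_simp

/-- The circle as a closed curve. -/
noncomputable def pf_bc_circle (z : ℂ) {ρ : ℝ} (hρ : 0 < ρ) : ClosedCurve where
  L := 2 * π * ρ
  L_pos := by have := Real.pi_pos; positivity
  γ := fun s => circleMap z ρ (s / ρ)
  smooth := (contDiff_circleMap z ρ).comp (contDiff_id.div_const ρ)
  periodic := by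
    intro s
    have : (s + 2 * π * ρ) / ρ = s / ρ + 2 * π := by field_simp
    simp only [this]
    exact periodic_circleMap z ρ (s / ρ)
  unit_speed := by
    intro s
    rw [(pf_bc_hasDerivAt z hρ s).deriv]
    simp
  injOn := by
    intro s hs t ht hst
    have h1 := injOn_circleMap_of_abs_sub_le' (a := 0) (b := 2 * π) (R := ρ) (c := z) hρ.ne'
      (by simp)
    have hs' : s / ρ ∈ Ico 0 (2 * π) := ⟨div_nonneg hs.1 hρ.le, by
      rw [div_lt_iff₀ hρ]; exact hs.2⟩
    have ht' : t / ρ ∈ Ico 0 (2 * π) := ⟨div_nonneg ht.1 hρ.le, by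
      rw [div_lt_iff₀ hρ]; exact ht.2⟩
    have h2 := h1 hs' ht' hst
    field_simp at h2
    exact h2

theorem pf_bc : S_bc := by
  intro x ρ p hρ hp
  have hr := range_circleMap x ρ
  rw [abs_of_pos hρ] at hr
  obtain ⟨θ, hθ⟩ : p ∈ range (circleMap x ρ) := hr ▸ hp
  have hc : (ρ : ℂ) ≠ 0 := by exact_mod_cast hρ.ne'
  have hθρ : θ * ρ / ρ = θ := by field_simp
  refine ⟨pf_bc_circle x hρ, θ * ρ, ?_, ?_, ?_⟩
  · rw [← hr]
    ext q
    constructor
    · rintro ⟨s, rfl⟩
      exact ⟨s / ρ, rfl⟩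
    · rintro ⟨t, rfl⟩
      refine ⟨t * ρ, ?_⟩
      show circleMap x ρ (t * ρ / ρ) = circleMap x ρ t
      congr 1
      field_simp
  · show circleMap x ρ (θ * ρ / ρ) = p
    rw [hθρ, hθ]
  · have h1 : deriv (pf_bc_circle x hρ).γ (θ * ρ) =
        circleMap 0 1 (θ * ρ / ρ) * Complex.I := (pf_bc_hasDerivAt x hρ (θ * ρ)).deriv
    rw [h1, hθρ, ← hθ]
    simp only [circleMap, zero_add, Complex.ofReal_one, one_mul, add_sub_cancel_left]
    field_simp

end Pool.Agent.H212AN
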