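import Pool.Agent.H212AN.E4

set_option autoImplicit false

namespace Pool.Agent.H212AN

open MeasureTheory Set Filter Topology Metric
open Pool.Agent.W594.AN (ClosedCurve)
open scoped Real ENNReal ComplexConjugate

/- PLAIN PROOF.
R > r > 0 (n >= 2, ‖w 0‖ + r < R). Let g be the least of all the numbers hgap r w k, ogap R r w i (finite, nonempty, all positive by OKn), g' the same for w'. For a configuration with least gap g: 2g ∈ LS by S_ls1 (x = g < 2g), and for ℓ ∈ LS either ℓ >= 3g or (S_ls2) ℓ = 2x with x a gap, so ℓ >= 2g: IsLeast (LS) (2g). More generally for 0 < s < 3g: s ∈ LS iff s/2 is a gap value (S_ls2; S_ls1 with s/2 < 2g). For s <= 0: not in LS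
(all lengths are >= 2g > 0). Let LH x = Lc x (1/r) (1/r) > 0 for x > 0 and LO x = Lc x (1/r) (-(1/R)) > 0 for 0 < x < R - r. (Lc x α β = 2√(πx)/√(α+β+xαβ); 1/r - 1/R - x/(rR) = (R-r-x)/(rR).) Note 3g/2 <= R - 2r < R - r: g <= R - r - ‖w 0‖, g <= R - r - ‖w 1‖, g <= dist (w 0)(w 1) - 2r <= ‖w 0‖ + ‖w 1‖ - 2r <= 2(R-r-g) - 2r. Same for w', g'.
Claim g = g'. By symmetry (the hypothesis on Z is symmetric) suppose g' < g. S_gaps for (w,w') with g at x = g' (< 3g/2): for y < g' all mu' are 0 on both sides (no gap below g'), so mu' (hgap w) g'·LH + mu' (ogap w) g'·LO = ..' ; the left side is 0 as g' < g, the right side is positive (one of the multiplicities of w' is positive; LH, LO > 0 since g' < R - r): contradiction.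
So both LS have the least element ℓ = 2g. Let s < 3ℓ/2 = 3g with the irrationality hypothesis. If s <= 0 neither contains s. Let x = s/2 < 3g/2, x > 0. Claim: for all 0 < y < x: mu' (hgap w) y = mu' (hgap w') y and mu' (ogap w) y = mu' (ogap w') y. Otherwise let y be the least counterexample (it is one of finitely many values of the four functions). S_gaps at y: (c_h - c'_h) LH y + (c_o - c'_o) LO y = 0. As it is a
counterexample one of the four multiplicities is positive; by positivity of LH, LO then the sum for w is positive too, so y is a gap value of w, 2y ∈ LS (NH w), 2y < s, so rq R r (2y) is irrational; rq R r (2y) = √(R(2r+y)/(r(R-r-y))) = LO y/LH y. So (c_h - c'_h) + (c_o - c'_o) rq = 0 with integers gives c_o = c'_o, c_h = c'_h: contradiction. Now S_gaps at x: the weighted sums agree, so (positivity) x is a gap value of w iff x is a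
gap value of w', i.e. s ∈ LS (NH w) iff s ∈ LS (NH w') (same g for both).
-/
theorem pf_bil_LH (r x : ℝ) (hr : 0 < r) (hx : 0 < x) : 0 < Lc x (1 / r) (1 / r) := by
  unfold Lc
  have hpi := Real.pi_pos
  positivity

theorem pf_bil_den (R r x : ℝ) (hr : 0 < r) (hR : 0 < R) :
    1 / r + (-(1 / R)) + x * (1 / r) * (-(1 / R)) = (R - r - x) / (r * R) := by
  field_simp
  ring

theorem pf_bil_LO (R r x : ℝ) (hr : 0 < r) (hR : 0 < R) (hx : 0 < x) (hx' : x < R - r) :
    0 < Lc x (1 / r) (-(1 / R)) := by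
  unfold Lc
  rw [pf_bil_den R r x hr hR]
  have hpi := Real.pi_pos
  have h1 : 0 < R - r - x := by linarith
  positivity

theorem pf_bil_rq (R r x : ℝ) (hr : 0 < r) (hR : 0 < R) (hx : 0 < x) (hx' : x < R - r) :
    Lc x (1 / r) (-(1 / R)) = Lc x (1 / r) (1 / r) * rq R r (2 * x) := by
  unfold Lc rq
  rw [pf_bil_den R r x hr hR]
  have h1 : 0 < R - r - x := by linarith
  have e1 : 1 / r + 1 / r + x * (1 / r) * (1 / r) = (2 * r + x) / r ^ 2 := by
    field_simp
    ring
  have e2 : R * (4 * r + 2 * x) / (r * (2 * (R - r) - 2 * x)) =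
      ((2 * r + x) / r ^ 2) / ((R - r - x) / (r * R)) := by
    have : 2 * (R - r) - 2 * x = 2 * (R - r - x) := by ring
    rw [this]
    field_simp
    ring
  rw [e1, e2]
  have h2 : 0 < (2 * r + x) / r ^ 2 := by positivity
  have h3 : 0 < (R - r - x) / (r * R) := by positivity
  rw [Real.sqrt_div h2.le]
  have h4 : 0 < √((2 * r + x) / r ^ 2) := Real.sqrt_pos.2 h2
  have h5 : 0 < √((R - r - x) / (r * R)) := Real.sqrt_pos.2 h3
  field_simp

theorem pf_bil_mu0 {ι : Type} [Fintype ι] (f : ι → ℝ) (x : ℝ) : mu' f x = 0 ↔ ∀ k, f k ≠ x := by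
  unfold mu'
  rw [Finset.card_eq_zero, Finset.filter_eq_empty_iff]
  simp

theorem pf_bil_mupos {ι : Type} [Fintype ι] (f : ι → ℝ) (x : ℝ) : 0 < mu' f x ↔ ∃ k, f k = x := by
  rw [Nat.pos_iff_ne_zero, Ne, pf_bil_mu0]
  push Not
  rfl

theorem pf_bil_sum {ι κ : Type} [Fintype ι] [Fintype κ] (f : ι → ℝ) (h : κ → ℝ) (x a b : ℝ)
    (ha : 0 < a) (hb : 0 < b) :
    0 < (mu' f x : ℝ) * a + (mu' h x : ℝ) * b ↔ (∃ k, f k = x) ∨ ∃ i, h i = x := by
  rw [← pf_bil_mupos, ← pf_bil_mupos]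
  constructor
  · intro hh
    by_contra hc
    push Not at hc
    have h1 : mu' f x = 0 := by omega
    have h2 : mu' h x = 0 := by omega
    rw [h1, h2] at hh
    simp at hh
  · rintro (hh | hh)
    · have h1 : (0:ℝ) < (mu' f x : ℝ) := by exact_mod_cast hh
      have h2 : (0:ℝ) ≤ (mu' h x : ℝ) := by positivity
      have := mul_pos h1 ha
      have := mul_nonneg h2 hb.le
      linarith
    · have h1 : (0:ℝ) < (mu' h x : ℝ) := by exact_mod_cast hh
      have h2 : (0:ℝ) ≤ (mu' f x : ℝ) := by positivity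
      have := mul_pos h1 hb
      have := mul_nonneg h2 ha.le
      linarith

/-- `g` is the least gap -/
def pf_bil_LG (n : ℕ) (R r : ℝ) (w : Fin n → ℂ) (g : ℝ) : Prop :=
  0 < g ∧ (∀ k, g ≤ hgap r w k) ∧ (∀ i, g ≤ ogap R r w i) ∧
    ((∃ k, hgap r w k = g) ∨ ∃ i, ogap R r w i = g) ∧ 3 / 2 * g < R - r

theorem pf_bil_least (n : ℕ) (R r : ℝ) (w : Fin n → ℂ) (hn : 2 ≤ n) (ho : OKn n R r w) :
    ∃ g, pf_bil_LG n R r w g := by
  obtain ⟨hr, h1, h2⟩ := ho
  let F : {p : Fin n × Fin n // p.1 < p.2} ⊕ Fin n → ℝ := Sum.elim (hgap r w) (ogap R r w)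
  have : Nonempty (Fin n) := ⟨⟨0, by omega⟩⟩
  have : Nonempty ({p : Fin n × Fin n // p.1 < p.2} ⊕ Fin n) := ⟨Sum.inr ⟨0, by omega⟩⟩
  obtain ⟨q, hq⟩ := Finite.exists_min F
  have hk : ∀ k, F q ≤ hgap r w k := fun k => hq (Sum.inl k)
  have hi : ∀ i, F q ≤ ogap R r w i := fun i => hq (Sum.inr i)
  refine ⟨F q, ?_, hk, hi, ?_, ?_⟩
  · rcases q with k | i
    · change 0 < dist (w k.1.1) (w k.1.2) - 2 * r
      have := h2 k.1.1 k.1.2 (ne_of_lt k.2)
      linarith
    · change 0 < R - r - ‖w i‖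
      have := h1 i
      linarith
  · rcases q with k | i
    · exact Or.inl ⟨k, rfl⟩
    · exact Or.inr ⟨i, rfl⟩
  · have a0 := hi ⟨0, by omega⟩
    have a1 := hi ⟨1, by omega⟩
    have a2 := hk ⟨(⟨0, by omega⟩, ⟨1, by omega⟩), by simp [Fin.lt_def]⟩
    simp only [ogap, hgap] at a0 a1 a2
    have a3 := dist_le_norm_add_norm (w ⟨0, by omega⟩) (w ⟨1, by omega⟩)
    linarith

theorem pf_bil_ls (h2 : S_ls1) (h3 : S_ls2) (n : ℕ) (R r g : ℝ) (w : Fin n → ℂ) (hn : 2 ≤ n)
    (ho : OKn n R r w) (hR : 0 < R) (hg : pf_bil_LG n R r w g) (s : ℝ) (hs : s < 3 * g) :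
    s ∈ LS (NH n R r 0 w) ↔ (∃ k, hgap r w k = s / 2) ∨ ∃ i, ogap R r w i = s / 2 := by
  obtain ⟨g0, gk, gi, _, _⟩ := hg
  constructor
  · intro h
    obtain ⟨x, hx, hP⟩ := h3 n R r g w hn ho hR g0 gk gi s h hs
    have : s / 2 = x := by linarith
    rw [this]
    exact hP
  · intro h
    have := h2 n R r g w ho hR g0 gk gi (s / 2) (by linarith) h
    have e : 2 * (s / 2) = s := by ring
    rwa [e] at this

theorem pf_bil_isl (h2 : S_ls1) (h3 : S_ls2) (n : ℕ) (R r g : ℝ) (w : Fin n → ℂ) (hn : 2 ≤ n)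
    (ho : OKn n R r w) (hR : 0 < R) (hg : pf_bil_LG n R r w g) :
    IsLeast (LS (NH n R r 0 w)) (2 * g) := by
  have hg' := hg
  obtain ⟨g0, gk, gi, gP, _⟩ := hg'
  constructor
  · rw [pf_bil_ls h2 h3 n R r g w hn ho hR hg (2 * g) (by linarith)]
    have e : 2 * g / 2 = g := by ring
    rw [e]
    exact gP
  · intro l hl
    by_contra hc
    push Not at hc
    rw [pf_bil_ls h2 h3 n R r g w hn ho hR hg l (by linarith)] at hl
    rcases hl with ⟨k, hk⟩ | ⟨i, hi⟩
    · have := gk k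
      linarith
    · have := gi i
      linarith

theorem pf_bil_le (h1 : S_gaps) (Z : Set ℂ → ℝ → ℝ) (z1 : ZUp Z) (z2 : ZLo Z)
    (z3 : ∀ Q t, 0 ≤ Z Q t) (z4 : ZSq Z) (n : ℕ) (R r g g' : ℝ) (w w' : Fin n → ℂ)
    (ho : OKn n R r w) (ho' : OKn n R r w') (hR : 0 < R)
    (hZ : ∀ t : ℝ, 0 < t → Z (NH n R r 0 w) t = Z (NH n R r 0 w') t)
    (hg : pf_bil_LG n R r w g) (hg' : pf_bil_LG n R r w' g') : g ≤ g' := by
  by_contra hc
  push Not at hc
  obtain ⟨g0, gk, gi, gP, gm⟩ := hg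
  obtain ⟨g0', gk', gi', gP', gm'⟩ := hg'
  have key := h1 Z z1 z2 z3 z4 n R r w w' ho ho' hZ g gk gi g' g0' (by linarith) (by
    intro y hy hy'
    have e1 : mu' (hgap r w) y = 0 := by
      rw [pf_bil_mu0]
      intro k hk
      have := gk k
      linarith
    have e2 : mu' (ogap R r w) y = 0 := by
      rw [pf_bil_mu0]
      intro k hk
      have := gi k
      linarith
    have e3 : mu' (hgap r w') y = 0 := by
      rw [pf_bil_mu0]
      intro k hk
      have := gk' k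
      linarith
    have e4 : mu' (ogap R r w') y = 0 := by
      rw [pf_bil_mu0]
      intro k hk
      have := gi' k
      linarith
    rw [e1, e2, e3, e4]
    exact ⟨rfl, rfl⟩)
  have hr : 0 < r := ho.1
  have p1 := pf_bil_LH r g' hr g0'
  have p2 := pf_bil_LO R r g' hr hR g0' (by linarith)
  have p3 := (pf_bil_sum (hgap r w') (ogap R r w') g' _ _ p1 p2).2 gP'
  rw [← key] at p3
  rcases (pf_bil_sum (hgap r w) (ogap R r w) g' _ _ p1 p2).1 p3 with ⟨k, hk⟩ | ⟨i, hi⟩
  · have := gk k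
    linarith
  · have := gi i
    linarith

/-- comparison of integral combinations with an irrational ratio -/
theorem pf_bil_irr (a b c d : ℕ) (L q : ℝ) (hL : 0 < L) (hq : Irrational q)
    (h : (a : ℝ) * L + (b : ℝ) * (L * q) = (c : ℝ) * L + (d : ℝ) * (L * q)) : a = c ∧ b = d := by
  have h1 : L * ((a : ℝ) + b * q) = L * ((c : ℝ) + d * q) := by linarith
  have h2 : (a : ℝ) + b * q = (c : ℝ) + d * q := mul_left_cancel₀ hL.ne' h1
  have h3 : b = d := by
    by_contra hbd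
    apply hq
    have hbd' : ((b : ℝ) - d) ≠ 0 := by
      intro h0
      apply hbd
      have : (b : ℝ) = d := by linarith
      exact_mod_cast this
    refine ⟨((c : ℚ) - a) / ((b : ℚ) - d), ?_⟩
    push_cast
    rw [div_eq_iff hbd']
    linarith
  refine ⟨?_, h3⟩
  rw [h3] at h2
  have : (a : ℝ) = c := by linarith
  exact_mod_cast this

theorem pf_bil_eq (h1 : S_gaps) (h2 : S_ls1) (h3 : S_ls2) (Z : Set ℂ → ℝ → ℝ) (z1 : ZUp Z)
    (z2 : ZLo Z) (z3 : ∀ Q t, 0 ≤ Z Q t) (z4 : ZSq Z) (n : ℕ) (R r g : ℝ) (w w' : Fin n → ℂ)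
    (hn : 2 ≤ n) (ho : OKn n R r w) (ho' : OKn n R r w') (hR : 0 < R)
    (hZ : ∀ t : ℝ, 0 < t → Z (NH n R r 0 w) t = Z (NH n R r 0 w') t)
    (hg : pf_bil_LG n R r w g) (s : ℝ) (hs : s < 3 * g)
    (hirr : ∀ y ∈ LS (NH n R r 0 w), y < s → Irrational (rq R r y)) :
    ∀ y : ℝ, 0 < y → y < s / 2 → mu' (hgap r w) y = mu' (hgap r w') y ∧
      mu' (ogap R r w) y = mu' (ogap R r w') y := by
  have hr : 0 < r := ho.1
  by_contra hc
  push Not at hc
  set B : Set ℝ := {y | 0 < y ∧ y < s / 2 ∧ ¬ (mu' (hgap r w) y = mu' (hgap r w') y ∧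
      mu' (ogap R r w) y = mu' (ogap R r w') y)} with hB
  have hBne : B.Nonempty := by
    obtain ⟨y, y0, y1, y2⟩ := hc
    exact ⟨y, y0, y1, fun h => y2 h.1 h.2⟩
  have hBfin : B.Finite := by
    apply Set.Finite.subset (s := range (hgap r w) ∪ range (hgap r w') ∪
      (range (ogap R r w) ∪ range (ogap R r w')))
    · exact ((Set.finite_range _).union (Set.finite_range _)).union
        ((Set.finite_range _).union (Set.finite_range _))
    · intro y hy
      by_contra hyn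
      simp only [Set.mem_union, Set.mem_range, not_or, not_exists] at hyn
      obtain ⟨⟨m1, m2⟩, m3, m4⟩ := hyn
      apply hy.2.2
      rw [(pf_bil_mu0 _ _).2 m1, (pf_bil_mu0 _ _).2 m2, (pf_bil_mu0 _ _).2 m3,
        (pf_bil_mu0 _ _).2 m4]
      exact ⟨rfl, rfl⟩
  obtain ⟨y, hy, hmin⟩ := Set.exists_min_image B id hBfin hBne
  have hy0 := hy.1
  have hy1 := hy.2.1
  have hg' := hg
  obtain ⟨g0, gk, gi, gP, gm⟩ := hg'
  have key := h1 Z z1 z2 z3 z4 n R r w w' ho ho' hZ g gk gi y hy0 (by linarith) (by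
    intro z hz0 hz1
    by_contra hzc
    have hzB : z ∈ B := ⟨hz0, by linarith, hzc⟩
    have := hmin z hzB
    simp only [id] at this
    linarith)
  have hyR : y < R - r := by linarith
  have p1 := pf_bil_LH r y hr hy0
  have p2 := pf_bil_LO R r y hr hR hy0 hyR
  by_cases hP : (∃ k, hgap r w k = y) ∨ ∃ i, ogap R r w i = y
  · have hls : 2 * y ∈ LS (NH n R r 0 w) := by
      rw [pf_bil_ls h2 h3 n R r g w hn ho hR hg (2 * y) (by linarith)]
      have e : 2 * y / 2 = y := by ring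
      rw [e]
      exact hP
    have hq := hirr (2 * y) hls (by linarith)
    rw [pf_bil_rq R r y hr hR hy0 hyR] at key
    exact hy.2.2 (pf_bil_irr _ _ _ _ _ _ p1 hq key)
  · have hP' : ¬ ((∃ k, hgap r w' k = y) ∨ ∃ i, ogap R r w' i = y) := by
      rw [← pf_bil_sum (hgap r w') (ogap R r w') y _ _ p1 p2, ← key,
        pf_bil_sum (hgap r w) (ogap R r w) y _ _ p1 p2]
      exact hP
    simp only [not_or, not_exists] at hP hP'
    apply hy.2.2
    rw [(pf_bil_mu0 _ _).2 hP.1, (pf_bil_mu0 _ _).2 hP.2, (pf_bil_mu0 _ _).2 hP'.1,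
        (pf_bil_mu0 _ _).2 hP'.2]
    exact ⟨rfl, rfl⟩

theorem pf_bil (h1 : S_gaps) (h2 : S_ls1) (h3 : S_ls2) : S_bil := by
  intro Z z1 z2 z3 z4 n R r w w' hn ho ho' hZ
  have hr : 0 < r := ho.1
  have hR : 0 < R := by
    have := ho.2.1 ⟨0, by omega⟩
    have := norm_nonneg (w ⟨0, by omega⟩)
    linarith
  obtain ⟨g, hg⟩ := pf_bil_least n R r w hn ho
  obtain ⟨g', hg'⟩ := pf_bil_least n R r w' hn ho'
  have hgg : g = g' := by
    apply le_antisymm
    · exact pf_bil_le h1 Z z1 z2 z3 z4 n R r g g' w w' ho ho' hR hZ hg hg'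
    · exact pf_bil_le h1 Z z1 z2 z3 z4 n R r g' g w' w ho' ho hR
        (fun t ht => (hZ t ht).symm) hg' hg
  subst hgg
  have l1 := pf_bil_isl h2 h3 n R r g w hn ho hR hg
  have l2 := pf_bil_isl h2 h3 n R r g w' hn ho' hR hg'
  have g0 := hg.1
  refine ⟨2 * g, by linarith, l1, l2, ?_⟩
  intro s hs hirr
  have hs3 : s < 3 * g := by linarith
  rcases le_or_gt s 0 with hs0 | hs0
  · constructor
    · intro h
      have := l1.2 h
      linarith
    · intro h
      have := l2.2 h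
      linarith
  · rw [pf_bil_ls h2 h3 n R r g w hn ho hR hg s hs3,
      pf_bil_ls h2 h3 n R r g w' hn ho' hR hg' s hs3]
    have key := h1 Z z1 z2 z3 z4 n R r w w' ho ho' hZ g hg.2.1 hg.2.2.1 (s / 2) (by linarith)
      (by linarith)
      (pf_bil_eq h1 h2 h3 Z z1 z2 z3 z4 n R r g w w' hn ho ho' hR hZ hg s hs3 hirr)
    have hyR : s / 2 < R - r := by
      have := hg.2.2.2.2
      linarith
    have p1 := pf_bil_LH r (s / 2) hr (by linarith)
    have p2 := pf_bil_LO R r (s / 2) hr hR (by linarith) hyR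
    rw [← pf_bil_sum (hgap r w) (ogap R r w) (s / 2) _ _ p1 p2,
      ← pf_bil_sum (hgap r w') (ogap R r w') (s / 2) _ _ p1 p2, key]

end Pool.Agent.H212AN
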