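import Pool.Agent.H212AN.E4

set_option autoImplicit false

namespace Pool.Agent.H212AN

open MeasureTheory Set Filter Topology Metric
open Pool.Agent.W594.AN (ClosedCurve)
open scoped Real ENNReal ComplexConjugate

theorem pf_fr_open (n : ℕ) (R r : ℝ) (w : Fin n → ℂ) : IsOpen (NH n R r 0 w) := by
  unfold NH
  exact isOpen_ball.sdiff (isClosed_iUnion_of_finite fun i => isClosed_closedBall)

theorem pf_fr_closure (n : ℕ) (R r : ℝ) (w : Fin n → ℂ) (h : OKn n R r w) (hR : 0 < R) :
    closure (NH n R r 0 w) = closedBall 0 R \ ⋃ i, ball (w i) r := by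
  obtain ⟨hr, h1, h2⟩ := h
  apply Subset.antisymm
  · apply closure_minimal
    · rintro z ⟨hz1, hz2⟩
      refine ⟨ball_subset_closedBall hz1, fun hz => hz2 ?_⟩
      obtain ⟨i, hi⟩ := mem_iUnion.1 hz
      exact mem_iUnion.2 ⟨i, ball_subset_closedBall hi⟩
    · exact isClosed_closedBall.sdiff (isOpen_iUnion fun i => isOpen_ball)
  · rintro p ⟨hp1, hp2⟩
    by_cases hc : p ∈ ⋃ i, closedBall (w i) r
    · obtain ⟨i, hi⟩ := mem_iUnion.1 hc
      have hpi : p ∉ ball (w i) r := fun hb => hp2 (mem_iUnion.2 ⟨i, hb⟩)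
      have hcl : p ∈ closure ((closedBall (w i) r)ᶜ) := by
        rw [closure_compl, interior_closedBall _ hr.ne']
        exact hpi
      have hdi : dist p (w i) ≤ r := mem_closedBall.1 hi
      have hO : IsOpen (ball (0:ℂ) R \ ⋃ j : {j : Fin n // j ≠ i}, closedBall (w j) r) :=
        isOpen_ball.sdiff (isClosed_iUnion_of_finite fun j => isClosed_closedBall)
      have hpO : p ∈ ball (0:ℂ) R \ ⋃ j : {j : Fin n // j ≠ i}, closedBall (w j) r := by
        refine ⟨?_, ?_⟩
        · rw [mem_ball]
          have h3 := dist_triangle p (w i) 0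
          have h4 := h1 i
          rw [dist_zero_right] at h3
          rw [dist_zero_right]
          linarith [dist_zero_right p, h3, h4, (dist_zero_right (w i))]
        · intro hj
          obtain ⟨⟨j, hji⟩, hj⟩ := mem_iUnion.1 hj
          have hdj : dist p (w j) ≤ r := mem_closedBall.1 hj
          have h5 := h2 j i hji
          have h6 := dist_triangle_left (w j) (w i) p
          linarith
      have h7 := hO.inter_closure ⟨hpO, hcl⟩
      refine closure_mono ?_ h7
      rintro z ⟨⟨hz1, hz2⟩, hz3⟩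
      refine ⟨hz1, fun hz => ?_⟩
      obtain ⟨j, hj⟩ := mem_iUnion.1 hz
      by_cases hji : j = i
      · subst hji; exact hz3 hj
      · exact hz2 (mem_iUnion.2 ⟨⟨j, hji⟩, hj⟩)
    · have hO : IsOpen ((⋃ i, closedBall (w i) r)ᶜ) :=
        (isClosed_iUnion_of_finite fun i => isClosed_closedBall).isOpen_compl
      have hcl : p ∈ closure (ball (0:ℂ) R) := by
        rw [closure_ball _ hR.ne']; exact hp1
      have h7 := hO.inter_closure ⟨hc, hcl⟩
      refine closure_mono ?_ h7
      rintro z ⟨hz1, hz2⟩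
      exact ⟨hz2, hz1⟩

theorem pf_fr : S_fr := by
  intro n R r w h hR
  have hop := pf_fr_open n R r w
  refine ⟨hop, ?_⟩
  rw [hop.frontier_eq, pf_fr_closure n R r w h hR]
  obtain ⟨hr, h1, h2⟩ := h
  ext p
  constructor
  · rintro ⟨⟨hp1, hp2⟩, hp3⟩
    by_cases hb : p ∈ ball (0:ℂ) R
    · right
      have hc : p ∈ ⋃ i, closedBall (w i) r := by
        by_contra hc
        exact hp3 ⟨hb, hc⟩
      obtain ⟨i, hi⟩ := mem_iUnion.1 hc
      refine mem_iUnion.2 ⟨i, ?_⟩
      rw [mem_sphere]
      refine le_antisymm (mem_closedBall.1 hi) ?_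
      by_contra hlt
      exact hp2 (mem_iUnion.2 ⟨i, mem_ball.2 (not_le.1 hlt)⟩)
    · left
      rw [mem_sphere]
      exact le_antisymm (mem_closedBall.1 hp1) (not_lt.1 fun hlt => hb (mem_ball.2 hlt))
  · rintro (hp | hp)
    · have hpR : dist p 0 = R := mem_sphere.1 hp
      refine ⟨⟨mem_closedBall.2 hpR.le, ?_⟩, ?_⟩
      · intro hU
        obtain ⟨i, hi⟩ := mem_iUnion.1 hU
        have hd : dist p (w i) < r := mem_ball.1 hi
        have h3 := dist_triangle p (w i) 0
        have h4 := h1 i
        rw [dist_zero_right (w i)] at h3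
        linarith
      · rintro ⟨hb, -⟩
        have := mem_ball.1 hb
        linarith
    · obtain ⟨i, hi⟩ := mem_iUnion.1 hp
      have hd : dist p (w i) = r := mem_sphere.1 hi
      have h3 := dist_triangle p (w i) 0
      have h4 := h1 i
      rw [dist_zero_right (w i)] at h3
      refine ⟨⟨mem_closedBall.2 (by linarith), ?_⟩, ?_⟩
      · intro hU
        obtain ⟨j, hj⟩ := mem_iUnion.1 hU
        have hdj : dist p (w j) < r := mem_ball.1 hj
        by_cases hji : j = i
        · subst hji; linarith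
        · have h5 := h2 j i hji
          have h6 := dist_triangle_left (w j) (w i) p
          linarith
      · rintro ⟨-, hn⟩
        exact hn (mem_iUnion.2 ⟨i, mem_closedBall.2 hd.le⟩)

end Pool.Agent.H212AN
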