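import Pool.Agent.H212AN.E4

set_option autoImplicit false

namespace Pool.Agent.H212AN

open MeasureTheory Set Filter Topology Metric
open Pool.Agent.W594.AN (ClosedCurve)
open scoped Real ENNReal ComplexConjugate

theorem pf_ls1_refl (e τ : ℂ) (he : ‖e‖ = 1) (h : τ = Complex.I * e ∨ τ = Complex.I * (-e)) :
    Refl (-e) e τ ∧ Refl e (-e) τ := by
  have h1 : conj e * e = 1 := by
    rw [mul_comm, Complex.mul_conj, Complex.normSq_eq_norm_sq, he]
    simp
  have h2 : conj τ * e = -Complex.I ∨ conj τ * e = Complex.I := by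
    rcases h with rfl | rfl
    · left
      rw [map_mul, Complex.conj_I, mul_assoc, h1, mul_one]
    · right
      rw [map_mul, Complex.conj_I, map_neg, neg_mul_neg, mul_assoc, h1, mul_one]
  unfold Refl
  rw [mul_neg]
  rcases h2 with h2 | h2 <;> rw [h2] <;> simp

theorem pf_ls1_core (Ω : Set ℂ) (a b e : ℂ) (x : ℝ) (he : ‖e‖ = 1) (hx : 0 < x)
    (hab : b - a = (x : ℂ) * e) (ha : a ∈ frontier Ω) (hb : b ∈ frontier Ω)
    (hseg : ∀ t : ℝ, 0 < t → t < 1 → a + ((t * x : ℝ) : ℂ) * e ∈ Ω)
    (hca : ∃ (c : ClosedCurve) (s : ℝ), range c.γ ⊆ frontier Ω ∧ c.γ s = a ∧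
      (deriv c.γ s = Complex.I * e ∨ deriv c.γ s = Complex.I * (-e)))
    (hcb : ∃ (c : ClosedCurve) (s : ℝ), range c.γ ⊆ frontier Ω ∧ c.γ s = b ∧
      (deriv c.γ s = Complex.I * e ∨ deriv c.γ s = Complex.I * (-e))) :
    2 * x ∈ LS Ω := by
  have hn : ‖b - a‖ = x := by
    rw [hab, norm_mul, he, mul_one, Complex.norm_real, Real.norm_eq_abs, abs_of_pos hx]
  have hxc : (x : ℂ) ≠ 0 := by exact_mod_cast hx.ne'
  have hd1 : dr a b = e := by
    unfold dr
    rw [hn, hab]
    field_simp
  have hd2 : dr b a = -e := by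
    unfold dr
    rw [norm_sub_rev, hn, ← neg_sub, hab]
    field_simp
  have hsegm : openSegment ℝ a b ⊆ Ω := by
    intro q hq
    rw [openSegment_eq_image'] at hq
    obtain ⟨t, ⟨ht0, ht1⟩, rfl⟩ := hq
    have := hseg t ht0 ht1
    simp only [hab, Complex.real_smul]
    convert this using 1
    push_cast
    ring
  refine ⟨0, ![a, b], ⟨?_, ?_, ?_⟩, ?_⟩
  · intro i
    fin_cases i
    · exact ha
    · exact hb
  · intro i
    fin_cases i
    · exact hsegm
    · change openSegment ℝ b a ⊆ Ω
      rw [openSegment_symm]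
      exact hsegm
  · intro i
    fin_cases i
    · obtain ⟨c, s, h1, h2, h3⟩ := hca
      refine ⟨c, s, h1, h2, ?_⟩
      change Refl (dr b a) (dr a b) _
      rw [hd1, hd2]
      exact (pf_ls1_refl e _ he h3).1
    · obtain ⟨c, s, h1, h2, h3⟩ := hcb
      refine ⟨c, s, h1, h2, ?_⟩
      change Refl (dr a b) (dr b a) _
      rw [hd1, hd2]
      exact (pf_ls1_refl e _ he h3).2
  · rw [Fin.sum_univ_two]
    change 2 * x = dist a b + dist b a
    rw [dist_comm a b, dist_eq_norm, hn]
    ring

theorem pf_ls1_gap {n : ℕ} {r g : ℝ} {w : Fin n → ℂ} (h : ∀ k, g ≤ hgap r w k) (i l : Fin n)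
    (hil : i ≠ l) : g ≤ dist (w i) (w l) - 2 * r := by
  rcases lt_or_gt_of_ne hil with h1 | h1
  · exact h ⟨(i, l), h1⟩
  · have := h ⟨(l, i), h1⟩
    unfold hgap at this
    rwa [dist_comm] at this

theorem pf_ls1 (h1 : S_fr) (h2 : S_bc) : S_ls1 := by
  intro n R r g w hok hR hg hh ho x hx hcase
  obtain ⟨hopen, hfr⟩ := h1 n R r w hok hR
  obtain ⟨hr, hw, hww⟩ := hok
  have hsph : ∀ i, sphere (w i) r ⊆ frontier (NH n R r 0 w) := by
    intro i
    rw [hfr]
    exact subset_union_of_subset_right (subset_iUnion (fun i => sphere (w i) r) i) _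
  have hsph0 : sphere (0 : ℂ) R ⊆ frontier (NH n R r 0 w) := by
    rw [hfr]
    exact subset_union_left
  -- the curve at a point of a small circle
  have hcur : ∀ i, ∀ e : ℂ, ‖e‖ = 1 → ∃ (c : ClosedCurve) (s : ℝ),
      range c.γ ⊆ frontier (NH n R r 0 w) ∧ c.γ s = w i + (r : ℂ) * e ∧
      deriv c.γ s = Complex.I * e := by
    intro i e he
    have hp : w i + (r : ℂ) * e ∈ sphere (w i) r := by
      rw [mem_sphere, dist_eq_norm, add_sub_cancel_left, norm_mul, he, mul_one,
        Complex.norm_real, Real.norm_eq_abs, abs_of_pos hr]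
    obtain ⟨c, s, hc1, hc2, hc3⟩ := h2 (w i) r _ hr hp
    refine ⟨c, s, by rw [hc1]; exact hsph i, hc2, ?_⟩
    rw [hc3, add_sub_cancel_left]
    have : (r : ℂ) ≠ 0 := by exact_mod_cast hr.ne'
    field_simp
  -- distance to another hole
  have hdist : ∀ (i l : Fin n), i ≠ l → ∀ (e : ℂ) (y : ℝ), ‖e‖ = 1 → 0 ≤ y →
      w i + (r : ℂ) * e + (y : ℂ) * e ∈ closedBall (w l) r → g ≤ y := by
    intro i l hil e y he hy hq
    have h3 := pf_ls1_gap hh i l hil
    rw [mem_closedBall, dist_eq_norm] at hq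
    have h4 : dist (w i) (w l) ≤ ‖w i + (r : ℂ) * e + (y : ℂ) * e - w l‖ +
        ‖((r + y : ℝ) : ℂ) * e‖ := by
      rw [dist_eq_norm]
      have : w i - w l = (w i + (r : ℂ) * e + (y : ℂ) * e - w l) - ((r + y : ℝ) : ℂ) * e := by
        push_cast
        ring
      rw [this]
      exact norm_sub_le _ _
    rw [norm_mul, he, mul_one, Complex.norm_real, Real.norm_eq_abs, abs_of_pos (by linarith)] at h4
    linarith
  rcases hcase with ⟨⟨⟨i, j⟩, hij⟩, hk⟩ | ⟨i, hk⟩
  · -- two holes
    have hijne : i ≠ j := ne_of_lt hij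
    unfold hgap at hk
    simp only at hk
    have hD := hww i j hijne
    set D := dist (w i) (w j) with hDdef
    have hxp : 0 < x := by linarith
    have hDp : 0 < D := by linarith
    have hDn : ‖w j - w i‖ = D := by rw [hDdef, dist_comm, dist_eq_norm]
    have hDc : (D : ℂ) ≠ 0 := by exact_mod_cast hDp.ne'
    set e : ℂ := (w j - w i) / (D : ℂ) with hedef
    have he : ‖e‖ = 1 := by
      rw [hedef, norm_div, hDn, Complex.norm_real, Real.norm_eq_abs, abs_of_pos hDp]
      exact div_self hDp.ne'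
    have hwj : w j = w i + (D : ℂ) * e := by
      rw [hedef]
      field_simp
      ring
    have hne : ‖-e‖ = 1 := by rw [norm_neg, he]
    refine pf_ls1_core _ (w i + (r : ℂ) * e) (w j + (r : ℂ) * (-e)) e x he hxp ?_ ?_ ?_ ?_ ?_ ?_
    · rw [hwj, ← hk]
      push_cast
      ring
    · obtain ⟨c, s, hc1, hc2, hc3⟩ := hcur i e he
      exact hc1 ⟨s, hc2⟩
    · obtain ⟨c, s, hc1, hc2, hc3⟩ := hcur j (-e) hne
      exact hc1 ⟨s, hc2⟩
    · intro t ht0 ht1
      have htx : 0 < t * x := mul_pos ht0 hxp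
      have htx1 : 0 < (1 - t) * x := mul_pos (by linarith) hxp
      have hq2 : w i + (r : ℂ) * e + ((t * x : ℝ) : ℂ) * e =
          w j + (r : ℂ) * (-e) + (((1 - t) * x : ℝ) : ℂ) * (-e) := by
        rw [hwj, ← hk]
        push_cast
        ring
      refine ⟨?_, ?_⟩
      · have ha : w i + (r : ℂ) * e ∈ ball (0 : ℂ) R := by
          rw [mem_ball_zero_iff]
          calc ‖w i + (r : ℂ) * e‖ ≤ ‖w i‖ + ‖(r : ℂ) * e‖ := norm_add_le _ _
            _ = ‖w i‖ + r := by
              rw [norm_mul, he, mul_one, Complex.norm_real, Real.norm_eq_abs, abs_of_pos hr]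
            _ < R := hw i
        have hb : w j + (r : ℂ) * (-e) ∈ ball (0 : ℂ) R := by
          rw [mem_ball_zero_iff]
          calc ‖w j + (r : ℂ) * (-e)‖ ≤ ‖w j‖ + ‖(r : ℂ) * (-e)‖ := norm_add_le _ _
            _ = ‖w j‖ + r := by
              rw [norm_mul, hne, mul_one, Complex.norm_real, Real.norm_eq_abs, abs_of_pos hr]
            _ < R := hw j
        have := (convex_ball (0 : ℂ) R).add_smul_sub_mem ha hb ⟨ht0.le, ht1.le⟩
        convert this using 1
        rw [hwj, ← hk, Complex.real_smul]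
        push_cast
        ring
      · intro hmem
        rw [mem_iUnion] at hmem
        obtain ⟨l, hl⟩ := hmem
        by_cases hli : l = i
        · subst hli
          rw [mem_closedBall, dist_eq_norm] at hl
          have : w l + (r : ℂ) * e + ((t * x : ℝ) : ℂ) * e - w l = ((r + t * x : ℝ) : ℂ) * e := by
            push_cast
            ring
          rw [this, norm_mul, he, mul_one, Complex.norm_real, Real.norm_eq_abs,
            abs_of_pos (by linarith)] at hl
          linarith
        · by_cases hlj : l = j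
          · subst hlj
            rw [hq2, mem_closedBall, dist_eq_norm] at hl
            have : w l + (r : ℂ) * (-e) + (((1 - t) * x : ℝ) : ℂ) * (-e) - w l =
                ((r + (1 - t) * x : ℝ) : ℂ) * (-e) := by
              push_cast
              ring
            rw [this, norm_mul, hne, mul_one, Complex.norm_real, Real.norm_eq_abs,
              abs_of_pos (by linarith)] at hl
            linarith
          · have h3 := hdist i l (Ne.symm hli) e (t * x) he htx.le hl
            rw [hq2] at hl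
            have h4 := hdist j l (Ne.symm hlj) (-e) ((1 - t) * x) hne htx1.le hl
            linarith
    · obtain ⟨c, s, hc1, hc2, hc3⟩ := hcur i e he
      exact ⟨c, s, hc1, hc2, Or.inl hc3⟩
    · obtain ⟨c, s, hc1, hc2, hc3⟩ := hcur j (-e) hne
      exact ⟨c, s, hc1, hc2, Or.inr hc3⟩
  · -- hole and outer circle
    unfold ogap at hk
    have hwi := hw i
    have hxp : 0 < x := by linarith
    obtain ⟨e, he, hwe⟩ : ∃ e : ℂ, ‖e‖ = 1 ∧ w i = (‖w i‖ : ℂ) * e := by
      by_cases h0 : w i = 0
      · exact ⟨1, by simp, by rw [h0]; simp⟩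
      · have hn0 : ‖w i‖ ≠ 0 := norm_ne_zero_iff.2 h0
        have hn0c : (‖w i‖ : ℂ) ≠ 0 := by exact_mod_cast hn0
        refine ⟨w i / (‖w i‖ : ℂ), ?_, by field_simp⟩
        rw [norm_div, Complex.norm_real, norm_norm]
        exact div_self hn0
    have hRe : (R : ℂ) * e ∈ sphere (0 : ℂ) R := by
      rw [mem_sphere_zero_iff_norm, norm_mul, he, mul_one, Complex.norm_real, Real.norm_eq_abs,
        abs_of_pos hR]
    refine pf_ls1_core _ (w i + (r : ℂ) * e) ((R : ℂ) * e) e x he hxp ?_ ?_ ?_ ?_ ?_ ?_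
    · rw [← hk]
      conv_lhs => rw [hwe]
      push_cast
      ring
    · obtain ⟨c, s, hc1, hc2, hc3⟩ := hcur i e he
      exact hc1 ⟨s, hc2⟩
    · exact hsph0 hRe
    · intro t ht0 ht1
      have htx : 0 < t * x := mul_pos ht0 hxp
      have htx1 : 0 < (1 - t) * x := mul_pos (by linarith) hxp
      have hq : ‖w i + (r : ℂ) * e + ((t * x : ℝ) : ℂ) * e‖ = ‖w i‖ + r + t * x := by
        have : w i + (r : ℂ) * e + ((t * x : ℝ) : ℂ) * e = ((‖w i‖ + r + t * x : ℝ) : ℂ) * e := by
          conv_lhs => rw [hwe]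
          push_cast
          ring
        rw [this, norm_mul, he, mul_one, Complex.norm_real, Real.norm_eq_abs,
          abs_of_pos (by positivity)]
      refine ⟨?_, ?_⟩
      · rw [mem_ball_zero_iff, hq]
        have : (1 - t) * x = x - t * x := by ring
        linarith
      · intro hmem
        rw [mem_iUnion] at hmem
        obtain ⟨l, hl⟩ := hmem
        by_cases hli : l = i
        · subst hli
          rw [mem_closedBall, dist_eq_norm] at hl
          have : w l + (r : ℂ) * e + ((t * x : ℝ) : ℂ) * e - w l = ((r + t * x : ℝ) : ℂ) * e := by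
            push_cast
            ring
          rw [this, norm_mul, he, mul_one, Complex.norm_real, Real.norm_eq_abs,
            abs_of_pos (by linarith)] at hl
          linarith
        · have h3 := hdist i l (Ne.symm hli) e (t * x) he htx.le hl
          have h4 := ho l
          unfold ogap at h4
          rw [mem_closedBall, dist_eq_norm] at hl
          have h5 : ‖w i + (r : ℂ) * e + ((t * x : ℝ) : ℂ) * e‖ ≤
              ‖w i + (r : ℂ) * e + ((t * x : ℝ) : ℂ) * e - w l‖ + ‖w l‖ := by
            have := norm_add_le (w i + (r : ℂ) * e + ((t * x : ℝ) : ℂ) * e - w l) (w l)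
            rwa [sub_add_cancel] at this
          rw [hq] at h5
          linarith
    · obtain ⟨c, s, hc1, hc2, hc3⟩ := hcur i e he
      exact ⟨c, s, hc1, hc2, Or.inl hc3⟩
    · obtain ⟨c, s, hc1, hc2, hc3⟩ := h2 0 R _ hR hRe
      refine ⟨c, s, by rw [hc1]; exact hsph0, hc2, Or.inl ?_⟩
      rw [hc3, sub_zero]
      have : (R : ℂ) ≠ 0 := by exact_mod_cast hR.ne'
      field_simp

end Pool.Agent.H212AN
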