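import Pool.Agent.H212AN.E4

set_option autoImplicit false

namespace Pool.Agent.H212AN

open MeasureTheory Set Filter Topology Metric
open Pool.Agent.W594.AN (ClosedCurve)
open scoped Real ENNReal ComplexConjugate

/- PLAIN PROOF.
N = k + 2 vertices. First 3g <= 2R - 4r: (n >= 2; take two holes i ≠ j) g <= R - r - ‖w i‖, g <= R - r - ‖w j‖, g <= dist - 2r <= ‖w i‖ + ‖w j‖ - 2r <= 2(R - r - g) - 2r.
Every vertex is on exactly one boundary component (S_fr; they are disjoint): sphere 0 R ('outer') or sphere (w i) r. The side p i, p(i+1): (a) if on different components its length is >= g (two holes: >= dist - 2r; hole and outer: >= R - ‖w‖ - r). (b) p i ≠ p (i+1) (openSegment of equal points is {p i}, not in the open set NH as p i is in the frontier). Both on the same hole is impossible: the open segment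
between two different points of sphere (w i) r is in ball (w i) r (strict convexity; the midpoint suffices: ‖mid - w i‖ < r), which is disjoint from NH. By S_tg the tangent vector τ at a vertex (‖τ‖ = 1: unit_speed) is orthogonal to the radius of the circle.
Let T be the number of i with p i, p(i+1) on different components. If T >= 3: length >= 3g. T = 1 is impossible (cyclic). T = 0: all vertices on the same component, which must be the outer circle by (b); S_lsd gives length >= 4R > 3g. T = 2: the vertices form two blocks (cyclic intervals), on components A ≠ B; a block on a hole has only one vertex by (b). So either N = 2 (blocks of length 1), or one block is a single vertex a on a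
hole A and the other vertices b_1,...,b_{N-1}, N - 1 >= 2, are on the outer circle. (An organisation without T: if some vertex a = p i is on a hole, its neighbours p(i-1), p(i+1) are on other components: two sides of length >= g; these two sides are different sides if N >= 3. If N >= 3 and length < 3g: let i be such a vertex; the sides [p(i-1),p i] and [p i,p(i+1)] have length >= g; any other side joining
different components gives the third g. So all other sides have ends on the same component, so all the other vertices are on the same component, being N - 1 >= 2 vertices: the outer circle.) In that case, for b = p(i+1), next vertex p(i+2) on the outer circle too: for a unit vector u and a point y with ‖y‖ = R, x = y - λu with ‖x‖ <= R, λ > 0: λ <= 2 re(conj y u), with equality if ‖x‖ = R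
(‖x‖² = R² - 2λ re(conj y u) + λ²). Refl at b: |im(conj τ v)| = |im(conj τ u)| with τ = ±i b/R: |re(conj b v)| = |re(conj b u)|: so |p(i+2) - b| = 2|re(conj b v)| = 2|re(conj b u)| >= |b - a|... (signs: re(conj b u) >= 0 since ‖a‖ <= R, re(conj b v) <= 0) >= g. So the length is >= 3g, a contradiction. If no vertex is on a hole: S_lsd.
N = 2: vertices a, b on different components, u = dr b a, v = dr a b = -u; Refl at a: re(conj τ u) = re(conj τ v) = -re(conj τ u) = 0, so u is orthogonal to τ, i.e. parallel to the radius at a; the same at b. Two holes i, j: a = w i + r σ e, b = w j + r σ' e, where e = unit vector parallel to b - a, σ,σ' = ±1; so w j - w i is parallel to e: choose e = (w j - w i)/dist. The open segment avoids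
closedBall (w i) r and closedBall (w j) r: so a = w i + r e, b = w j - r e (if a = w i - re then the segment towards b (b on the line) either passes through the ball of w i, or b lies beyond; check the positions on the line: coordinates w i: 0, w j: D > 2r, a = ±r, b = D ± r, the open interval between a and b must avoid [-r,r] and [D-r,D+r]: only a = r, b = D - r). So length = 2(D - 2r) = 2 hgap (for the ordered pair
{i,j}). Hole i and outer: the normal at b passes through 0 and at a through w i: a, b, w i, 0 on a line with direction e (if w i = 0, e = b/R): b = ±R e; coordinates: w i = ω e with ω = ‖w i‖ >= 0 (e = w i/‖w i‖), a = ω ± r, b = ±R. Open interval avoids [ω-r, ω+r]: (a,b) = (ω + r, R): length R - ω - r = ogap; or (ω - r, -R): length R + ω - r, then ℓ = 2(R+ω-r) >= 2(R - r) > 3g unless ω = 0 where it is ogap too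
(and impossible anyway). So ℓ = 2 ogap.
-/
/-- centre of a boundary component -/
noncomputable def pf_ls2_c {n : ℕ} (w : Fin n → ℂ) : Option (Fin n) → ℂ
  | none => 0
  | some j => w j

/-- radius of a boundary component -/
noncomputable def pf_ls2_r {n : ℕ} (R r : ℝ) : Option (Fin n) → ℝ
  | none => R
  | some _ => r

theorem pf_ls2_gap {n : ℕ} {R r g : ℝ} {w : Fin n → ℂ} (hg : ∀ i j, i ≠ j → g ≤ dist (w i) (w j) - 2 * r)
    (ho : ∀ i, g ≤ ogap R r w i) {α β : Option (Fin n)} (hαβ : α ≠ β) {x y : ℂ}
    (hx : ‖x - pf_ls2_c w α‖ = pf_ls2_r R r α) (hy : ‖y - pf_ls2_c w β‖ = pf_ls2_r R r β) :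
    g ≤ dist x y := by
  have key : ∀ (j : Fin n) (x y : ℂ), ‖x‖ = R → ‖y - w j‖ = r → g ≤ dist x y := by
    intro j x y hx hy
    have h1 := ho j
    unfold ogap at h1
    have h2 : ‖x‖ ≤ ‖x - y‖ + ‖y - w j‖ + ‖w j‖ := by
      calc ‖x‖ = ‖(x - y) + (y - w j) + w j‖ := by congr 1; ring
        _ ≤ _ := norm_add₃_le
    rw [dist_eq_norm]
    linarith
  match α, β with
  | none, none => exact absurd rfl hαβ
  | none, some j =>
    simp only [pf_ls2_c, pf_ls2_r, sub_zero] at hx hy
    exact key j x y hx hy
  | some j, none =>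
    simp only [pf_ls2_c, pf_ls2_r, sub_zero] at hx hy
    rw [dist_comm]
    exact key j y x hy hx
  | some i, some j =>
    simp only [pf_ls2_c, pf_ls2_r] at hx hy
    have hij : i ≠ j := fun h => hαβ (by rw [h])
    have h1 := hg i j hij
    rw [dist_eq_norm] at h1 ⊢
    have h2 : ‖w i - w j‖ ≤ ‖w i - x‖ + ‖x - y‖ + ‖y - w j‖ := by
      calc ‖w i - w j‖ = ‖(w i - x) + (x - y) + (y - w j)‖ := by congr 1; ring
        _ ≤ _ := norm_add₃_le
    rw [norm_sub_rev (w i) x] at h2
    linarith

/-- the law of reflection in terms of the normal vector -/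
theorem pf_ls2_refl {u v τ m : ℂ} (hτ : ‖τ‖ = 1) (hm : (conj τ * m).re = 0) (h : Refl u v τ) :
    (conj m * v).re = -(conj m * u).re ∧ (conj m * v).im = (conj m * u).im := by
  obtain ⟨h1, h2, -⟩ := h
  have h3 : τ.re ^ 2 + τ.im ^ 2 = 1 := by
    have := Complex.sq_norm τ
    rw [hτ, Complex.normSq_apply] at this
    nlinarith
  simp only [Complex.mul_re, Complex.mul_im, Complex.conj_re, Complex.conj_im] at *
  -- m = t i τ
  have h4 : m.re = -(τ.re * m.im - τ.im * m.re) * τ.im := by
    have e1 : τ.re * m.re = - (τ.im * m.im) := by linarith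
    calc m.re = (τ.re ^ 2 + τ.im ^ 2) * m.re := by rw [h3]; ring
      _ = τ.re * (τ.re * m.re) + τ.im ^ 2 * m.re := by ring
      _ = _ := by rw [e1]; ring
  have h5 : m.im = (τ.re * m.im - τ.im * m.re) * τ.re := by
    have e1 : τ.im * m.im = - (τ.re * m.re) := by linarith
    calc m.im = (τ.re ^ 2 + τ.im ^ 2) * m.im := by rw [h3]; ring
      _ = τ.im * (τ.im * m.im) + τ.re ^ 2 * m.im := by ring
      _ = _ := by rw [e1]; ring
  generalize hT : τ.re * m.im - τ.im * m.re = t at h4 h5
  rw [h4, h5]
  constructor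
  · linear_combination (t) * h2
  · linear_combination (-t) * h1

theorem pf_ls2_dr_norm {a b : ℂ} (hab : a ≠ b) : ‖dr a b‖ = 1 := by
  have h : ‖b - a‖ ≠ 0 := norm_ne_zero_iff.2 (sub_ne_zero.2 (Ne.symm hab))
  unfold dr
  rw [norm_div, Complex.norm_real, norm_norm, div_self h]

theorem pf_ls2_dr_mul {a b : ℂ} (hab : a ≠ b) : b - a = (‖b - a‖ : ℂ) * dr a b := by
  have h : (‖b - a‖ : ℂ) ≠ 0 := by
    exact_mod_cast norm_ne_zero_iff.2 (sub_ne_zero.2 (Ne.symm hab))
  unfold dr
  rw [mul_div_cancel₀ _ h]

theorem pf_ls2_dr_neg (a b : ℂ) : dr b a = -dr a b := by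
  unfold dr
  rw [norm_sub_rev a b, ← neg_sub b a, neg_div]

/-- a side after a reflection at the outer circle -/
theorem pf_ls2_side {R : ℝ} {x b y : ℂ} (hb : ‖b‖ = R) (hx : ‖x‖ ≤ R) (hy : ‖y‖ = R) (hxb : x ≠ b)
    (hby : b ≠ y) (h : (conj b * dr b y).re = -(conj b * dr x b).re) : dist x b ≤ dist b y := by
  have hR : 0 ≤ R := hb ▸ norm_nonneg b
  have l1 : 0 < ‖b - x‖ := norm_pos_iff.2 (sub_ne_zero.2 (Ne.symm hxb))
  have l2 : 0 < ‖y - b‖ := norm_pos_iff.2 (sub_ne_zero.2 (Ne.symm hby))
  have e1 : (conj b * (b - x)).re = ‖b - x‖ * (conj b * dr x b).re := by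
    conv_lhs => rw [pf_ls2_dr_mul hxb]
    rw [mul_left_comm, Complex.re_ofReal_mul]
  have e2 : (conj b * (y - b)).re = ‖y - b‖ * (conj b * dr b y).re := by
    conv_lhs => rw [pf_ls2_dr_mul hby]
    rw [mul_left_comm, Complex.re_ofReal_mul]
  have n1 : ‖x‖ ^ 2 = ‖b‖ ^ 2 - 2 * (conj b * (b - x)).re + ‖b - x‖ ^ 2 := by
    rw [Complex.sq_norm, Complex.sq_norm, Complex.sq_norm, Complex.normSq_apply,
      Complex.normSq_apply, Complex.normSq_apply]
    simp only [Complex.mul_re, Complex.conj_re, Complex.conj_im, Complex.sub_re, Complex.sub_im]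
    ring
  have n2 : ‖y‖ ^ 2 = ‖b‖ ^ 2 + 2 * (conj b * (y - b)).re + ‖y - b‖ ^ 2 := by
    rw [Complex.sq_norm, Complex.sq_norm, Complex.sq_norm, Complex.normSq_apply,
      Complex.normSq_apply, Complex.normSq_apply]
    simp only [Complex.mul_re, Complex.conj_re, Complex.conj_im, Complex.sub_re, Complex.sub_im]
    ring
  have hx2 : ‖x‖ ^ 2 ≤ R ^ 2 := by
    have := norm_nonneg x
    nlinarith
  rw [hb, e1] at n1
  rw [hb, hy, e2, h] at n2
  have m1 : ‖b - x‖ ≤ 2 * (conj b * dr x b).re := by
    have : ‖b - x‖ * ‖b - x‖ ≤ ‖b - x‖ * (2 * (conj b * dr x b).re) := by nlinarith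
    exact le_of_mul_le_mul_left this l1
  have m2 : ‖y - b‖ = 2 * (conj b * dr x b).re := by
    have : ‖y - b‖ * ‖y - b‖ = ‖y - b‖ * (2 * (conj b * dr x b).re) := by nlinarith
    exact mul_left_cancel₀ l2.ne' this
  rw [dist_comm x b, dist_comm b y, dist_eq_norm, dist_eq_norm]
  linarith

/-- a vector parallel to a unit vector -/
theorem pf_ls2_par {m e : ℂ} (he : ‖e‖ = 1) (h : (conj m * e).im = 0) :
    m = ‖m‖ * e ∨ m = -(‖m‖ * e) := by
  have h3 : e.re ^ 2 + e.im ^ 2 = 1 := by
    have := Complex.sq_norm e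
    rw [he, Complex.normSq_apply] at this
    nlinarith
  have h4 : m = ((conj m * e).re : ℂ) * e := by
    have h5 : conj m * e = ((conj m * e).re : ℂ) := by
      apply Complex.ext
      · simp
      · rw [h]; simp
    have h6 : m * conj e = ((conj m * e).re : ℂ) := by
      have := congrArg conj h5
      rw [map_mul, Complex.conj_conj, Complex.conj_ofReal] at this
      exact this
    have h7 : conj e * e = 1 := by
      rw [← Complex.normSq_eq_conj_mul_self, Complex.normSq_apply]
      have : e.re * e.re + e.im * e.im = 1 := by nlinarith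
      rw [this]
      simp
    rw [← h6, mul_assoc, h7, mul_one]
  have h5 : ‖m‖ = |(conj m * e).re| := by
    conv_lhs => rw [h4]
    rw [norm_mul, he, mul_one, Complex.norm_real, Real.norm_eq_abs]
  rcases abs_cases (conj m * e).re with ⟨h6, -⟩ | ⟨h6, -⟩
  · left
    rw [h5, h6]
    exact h4
  · right
    rw [h5, h6, Complex.ofReal_neg, neg_mul, neg_neg]
    exact h4

/-- the ray leaves a hole in the direction of the normal -/
theorem pf_ls2_ray {a b m : ℂ} {r : ℝ} (hr : 0 < r) (hab : a ≠ b) (ham : ‖a - m‖ = r)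
    (him : (conj (a - m) * dr a b).im = 0)
    (hseg : ∀ z ∈ openSegment ℝ a b, r < ‖z - m‖) : a - m = r * dr a b := by
  have l1 : 0 < ‖b - a‖ := norm_pos_iff.2 (sub_ne_zero.2 (Ne.symm hab))
  have he := pf_ls2_dr_norm hab
  rcases pf_ls2_par he him with h | h
  · rw [ham] at h
    exact h
  · exfalso
    rw [ham] at h
    set D := ‖b - a‖ with hD
    -- the point with parameter s
    obtain ⟨s, hs0, hs1, hs2⟩ : ∃ s : ℝ, 0 < s ∧ s < D ∧ s ≤ r :=
      ⟨min (D / 2) r, lt_min (by linarith) hr, lt_of_le_of_lt (min_le_left _ _) (by linarith),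
        min_le_right _ _⟩
    have hz : a + s * dr a b ∈ openSegment ℝ a b := by
      rw [openSegment_eq_image]
      refine ⟨s / D, ⟨div_pos hs0 l1, (div_lt_one l1).2 hs1⟩, ?_⟩
      have hD0 : (D : ℂ) ≠ 0 := by exact_mod_cast l1.ne'
      have h2 := pf_ls2_dr_mul hab
      have h3 : b = a + D * dr a b := by rw [← h2]; ring
      show ((1 - s / D : ℝ)) • a + (s / D : ℝ) • b = _
      conv_lhs => rw [h3]
      rw [Complex.real_smul, Complex.real_smul]
      push_cast
      field_simp
      ring
    have h4 := hseg _ hz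
    have h5 : a + s * dr a b - m = ((s - r : ℝ) : ℂ) * dr a b := by
      have : a + s * dr a b - m = (a - m) + s * dr a b := by ring
      rw [this, h]
      push_cast
      ring
    rw [h5, norm_mul, he, mul_one, Complex.norm_real, Real.norm_eq_abs, abs_of_nonpos (by linarith)]
      at h4
    linarith

/-- three different sides -/
theorem pf_ls2_three {k : ℕ} (d : Fin (k + 1 + 2) → ℝ) (hd : ∀ i, 0 ≤ d i) (i : Fin (k + 1 + 2)) {g : ℝ}
    (h1 : g ≤ d (i - 1)) (h2 : g ≤ d i) (h3 : g ≤ d (i + 1)) : 3 * g ≤ ∑ j, d j := by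
  have e1 : (1 : Fin (k + 1 + 2)) ≠ 0 := by
    intro h
    have := congrArg Fin.val h
    simp at this
  have e2 : (1 + 1 : Fin (k + 1 + 2)) ≠ 0 := by
    intro h
    have := congrArg Fin.val h
    rw [Fin.val_add] at this
    simp only [Fin.val_one, Fin.val_zero] at this
    rw [Nat.mod_eq_of_lt (by omega)] at this
    omega
  have a1 : i - 1 ≠ i := fun h => e1 (by simp at h)
  have a2 : i ≠ i + 1 := fun h => e1 (by simpa using h.symm)
  have a3 : i - 1 ≠ i + 1 := by
    intro h
    apply e2
    have : i + (1 + 1) = i + 0 := by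
      rw [← add_assoc, ← h]; simp
    exact add_left_cancel this
  calc 3 * g ≤ ∑ j ∈ ({i - 1, i, i + 1} : Finset (Fin (k + 1 + 2))), d j := by
        rw [Finset.sum_insert (by simp [a1, a3]), Finset.sum_insert (by simp [a2]),
          Finset.sum_singleton]
        linarith
    _ ≤ _ := Finset.sum_le_sum_of_subset_of_nonneg (Finset.subset_univ _) fun j _ _ => hd j

theorem pf_ls2 (h1 : S_fr) (h2 : S_tg) (h3 : S_lsd) : S_ls2 := by
  intro n R r g w hn hOK hR hg hH hO ℓ hℓ hlt
  obtain ⟨k, p, ⟨hfr, hsg, hrf⟩, rfl⟩ := hℓ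
  obtain ⟨-, hfront⟩ := h1 n R r w hOK hR
  have hOK' := hOK
  obtain ⟨hr, hin, -⟩ := hOK'
  have hH' : ∀ i j, i ≠ j → g ≤ dist (w i) (w j) - 2 * r := by
    intro i j hij
    rcases lt_or_gt_of_ne hij with h | h
    · exact hH ⟨(i, j), h⟩
    · rw [dist_comm]
      exact hH ⟨(j, i), h⟩
  have h3g : 3 * g ≤ 2 * R - 4 * r := by
    have e1 := hH' ⟨0, by omega⟩ ⟨1, by omega⟩ (by simp [Fin.ext_iff])
    have e2 := hO ⟨0, by omega⟩
    have e3 := hO ⟨1, by omega⟩
    have e4 := dist_triangle_right (w ⟨0, by omega⟩) (w ⟨1, by omega⟩) 0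
    rw [dist_zero_right, dist_zero_right] at e4
    unfold ogap at e2 e3
    linarith
  have hNH : ∀ z ∈ NH n R r 0 w, ‖z‖ < R ∧ ∀ j, r < ‖z - w j‖ := by
    intro z hz
    refine ⟨by simpa using hz.1, fun j => ?_⟩
    by_contra hc
    apply hz.2
    rw [mem_iUnion]
    refine ⟨j, ?_⟩
    rw [mem_closedBall, dist_eq_norm]
    exact not_lt.1 hc
  have hcomp : ∀ i, ∃ α : Option (Fin n), ‖p i - pf_ls2_c w α‖ = pf_ls2_r R r α := by
    intro i
    have := hfr i
    rw [hfront] at this
    rcases this with h | h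
    · exact ⟨none, by simpa [pf_ls2_c, pf_ls2_r] using h⟩
    · rw [mem_iUnion] at h
      obtain ⟨j, hj⟩ := h
      exact ⟨some j, by simpa [pf_ls2_c, pf_ls2_r, dist_eq_norm] using hj⟩
  choose c hc using hcomp
  have hout : ∀ i, p i ∉ NH n R r 0 w := by
    intro i hi
    obtain ⟨e1, e2⟩ := hNH _ hi
    have e3 := hc i
    rcases hci : c i with _ | j
    · rw [hci] at e3
      simp only [pf_ls2_c, pf_ls2_r, sub_zero] at e3
      linarith
    · rw [hci] at e3
      simp only [pf_ls2_c, pf_ls2_r] at e3
      have := e2 j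
      linarith
  have hne : ∀ i, p i ≠ p (i + 1) := by
    intro i hi
    have := hsg i
    rw [← hi, openSegment_same] at this
    exact hout i (this rfl)
  have hsame : ∀ i j, c i = some j → c (i + 1) ≠ some j := by
    intro i j e1 e2
    have e3 := hc i
    have e4 := hc (i + 1)
    rw [e1] at e3
    rw [e2] at e4
    simp only [pf_ls2_c, pf_ls2_r] at e3 e4
    have hz : ((1 / 2 : ℝ) • p i + (1 / 2 : ℝ) • p (i + 1)) ∈ openSegment ℝ (p i) (p (i + 1)) :=
      ⟨1 / 2, 1 / 2, by norm_num, by norm_num, by norm_num, rfl⟩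
    have e5 := (hNH _ (hsg i hz)).2 j
    have e6 : ((1 / 2 : ℝ) • p i + (1 / 2 : ℝ) • p (i + 1)) - w j =
        (1 / 2 : ℝ) • (p i - w j) + (1 / 2 : ℝ) • (p (i + 1) - w j) := by
      rw [Complex.real_smul, Complex.real_smul, Complex.real_smul, Complex.real_smul]
      push_cast
      ring
    rw [e6] at e5
    have e7 := norm_add_le ((1 / 2 : ℝ) • (p i - w j)) ((1 / 2 : ℝ) • (p (i + 1) - w j))
    rw [norm_smul, norm_smul, e3, e4, Real.norm_eq_abs, abs_of_pos (by norm_num)] at e7
    linarith
  have hsame' : ∀ i j, c (i + 1) = some j → c i ≠ some j := fun i j e1 e2 => hsame i j e2 e1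
  have htau : ∀ i, ∃ τ : ℂ, ‖τ‖ = 1 ∧ (conj τ * (p i - pf_ls2_c w (c i))).re = 0 ∧
      Refl (dr (p (i - 1)) (p i)) (dr (p i) (p (i + 1))) τ := by
    intro i
    obtain ⟨γ, s, hrange, hs, hrefl⟩ := hrf i
    obtain ⟨t1, t2⟩ := h2 n R r w hOK hR γ s hrange
    refine ⟨deriv γ.γ s, γ.unit_speed s, ?_, hrefl⟩
    have e3 := hc i
    rcases hci : c i with _ | j
    · rw [hci] at e3
      simp only [pf_ls2_c, pf_ls2_r, sub_zero] at e3 ⊢
      rw [← hs]
      exact t1 (by rw [hs]; simpa using e3)
    · rw [hci] at e3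
      simp only [pf_ls2_c, pf_ls2_r] at e3 ⊢
      rw [← hs]
      exact t2 j (by rw [hs]; simpa [dist_eq_norm] using e3)
  have hN : ∀ i, (conj (p i - pf_ls2_c w (c i)) * dr (p i) (p (i + 1))).re =
      -(conj (p i - pf_ls2_c w (c i)) * dr (p (i - 1)) (p i)).re ∧
      (conj (p i - pf_ls2_c w (c i)) * dr (p i) (p (i + 1))).im =
      (conj (p i - pf_ls2_c w (c i)) * dr (p (i - 1)) (p i)).im := by
    intro i
    obtain ⟨τ, t1, t2, t3⟩ := htau i
    exact pf_ls2_refl t1 t2 t3
  by_cases hall : ∀ i, c i = none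
  · exfalso
    have := h3 R k p hR (fun i => by
        have e3 := hc i
        rw [hall i] at e3
        simpa [pf_ls2_c, pf_ls2_r] using e3) hne (fun i => by
        obtain ⟨τ, t1, t2, t3⟩ := htau i
        rw [hall i] at t2
        exact ⟨τ, t1, by simpa [pf_ls2_c] using t2, t3⟩)
    linarith
  push Not at hall
  obtain ⟨i, hi⟩ := hall
  obtain ⟨j, hj⟩ := Option.ne_none_iff_exists'.1 hi
  have hi1 : c (i + 1) ≠ c i := by
    rw [hj]
    exact hsame i j hj
  have hi2 : c (i - 1) ≠ c i := by
    rw [hj]
    exact hsame' (i - 1) j (by rw [sub_add_cancel]; exact hj)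
  rcases k with _ | k
  · -- two vertices
    have q1 : ∀ i : Fin (0 + 2), i - 1 = i + 1 := by decide
    have q2 : ∀ i : Fin (0 + 2), i + 1 + 1 = i := by decide
    have hsum : ∑ m, dist (p m) (p (m + 1)) = 2 * dist (p i) (p (i + 1)) := by
      have q3 : ∀ i : Fin (0 + 2), (Finset.univ : Finset (Fin (0 + 2))) = {i, i + 1} := by decide
      have q4 : ∀ i : Fin (0 + 2), i ≠ i + 1 := by decide
      rw [q3 i, Finset.sum_pair (q4 i), q2 i, dist_comm (p (i + 1)) (p i)]
      ring
    rw [hsum] at hlt ⊢
    refine ⟨dist (p i) (p (i + 1)), rfl, ?_⟩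
    have hab := hne i
    set a := p i with ha
    set b := p (i + 1) with hb
    have l1 : 0 < ‖b - a‖ := norm_pos_iff.2 (sub_ne_zero.2 (Ne.symm hab))
    have i1 : (conj (a - w j) * dr a b).im = 0 := by
      have := (hN i).2
      rw [q1 i, ← ha, ← hb, hj] at this
      simp only [pf_ls2_c] at this
      rw [pf_ls2_dr_neg a b, mul_neg, Complex.neg_im] at this
      linarith
    have i2 : (conj (b - pf_ls2_c w (c (i + 1))) * dr b a).im = 0 := by
      have := (hN (i + 1)).2
      rw [q1 (i + 1), q2 i, ← ha, ← hb] at this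
      rw [pf_ls2_dr_neg b a, mul_neg, Complex.neg_im] at this
      linarith
    have e3 := hc i
    rw [hj, ← ha] at e3
    simp only [pf_ls2_c, pf_ls2_r] at e3
    have ra := pf_ls2_ray hr hab e3 i1 (fun z hz => (hNH z (hsg i hz)).2 j)
    have hD := pf_ls2_dr_mul hab
    have he := pf_ls2_dr_norm hab
    have e4 := hc (i + 1)
    rw [← hb] at e4
    rw [dist_comm, dist_eq_norm]
    rcases hci : c (i + 1) with _ | j'
    · right
      refine ⟨j, ?_⟩
      rw [hci] at e4 i2
      simp only [pf_ls2_c, pf_ls2_r, sub_zero] at e4 i2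
      rw [pf_ls2_dr_neg a b, mul_neg, Complex.neg_im, neg_eq_zero] at i2
      rcases pf_ls2_par he i2 with h | h
      · rw [e4] at h
        have hw : w j = ((R - ‖b - a‖ - r : ℝ) : ℂ) * dr a b := by
          push_cast
          linear_combination h - ra - hD
        have hw2 : ‖w j‖ = |R - ‖b - a‖ - r| := by
          conv_lhs => rw [hw]
          rw [norm_mul, he, mul_one, Complex.norm_real, Real.norm_eq_abs]
        unfold ogap
        rcases abs_cases (R - ‖b - a‖ - r) with ⟨h6, -⟩ | ⟨h6, h7⟩
        · rw [hw2, h6]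
          ring
        · exfalso
          rw [dist_comm, dist_eq_norm] at hlt
          linarith
      · exfalso
        rw [e4] at h
        have hw : a = ((-(R + ‖b - a‖) : ℝ) : ℂ) * dr a b := by
          push_cast
          linear_combination h - hD
        have hw2 : ‖a‖ = R + ‖b - a‖ := by
          conv_lhs => rw [hw]
          rw [norm_mul, he, mul_one, Complex.norm_real, Real.norm_eq_abs, abs_neg,
            abs_of_pos (by linarith)]
        have e5 : ‖a‖ ≤ ‖a - w j‖ + ‖w j‖ := by
          calc ‖a‖ = ‖(a - w j) + w j‖ := by rw [sub_add_cancel]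
            _ ≤ _ := norm_add_le _ _
        have := hin j
        linarith
    · left
      rw [hci] at e4 i2
      simp only [pf_ls2_c, pf_ls2_r] at e4 i2
      have rb := pf_ls2_ray hr (Ne.symm hab) e4 i2 (fun z hz => (hNH z (hsg i (by
        rw [openSegment_symm]; exact hz))).2 j')
      rw [pf_ls2_dr_neg a b] at rb
      have hjj : j ≠ j' := by
        intro h
        apply hi1
        rw [hj, hci, h]
      have hw : w j' - w j = ((‖b - a‖ + 2 * r : ℝ) : ℂ) * dr a b := by
        push_cast
        linear_combination ra + hD - rb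
      have hw2 : ‖w j' - w j‖ = ‖b - a‖ + 2 * r := by
        conv_lhs => rw [hw]
        rw [norm_mul, he, mul_one, Complex.norm_real, Real.norm_eq_abs, abs_of_pos (by linarith)]
      rcases lt_or_gt_of_ne hjj with h | h
      · refine ⟨⟨(j, j'), h⟩, ?_⟩
        unfold hgap
        show dist (w j) (w j') - 2 * r = _
        rw [dist_comm, dist_eq_norm, hw2]
        ring
      · refine ⟨⟨(j', j), h⟩, ?_⟩
        unfold hgap
        show dist (w j') (w j) - 2 * r = _
        rw [dist_eq_norm, hw2]
        ring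
  · -- at least three vertices
    exfalso
    have s1 : g ≤ dist (p (i - 1)) (p (i - 1 + 1)) := by
      rw [sub_add_cancel]
      exact pf_ls2_gap hH' hO hi2 (hc _) (hc _)
    have s2 : g ≤ dist (p i) (p (i + 1)) := pf_ls2_gap hH' hO (Ne.symm hi1) (hc _) (hc _)
    have s3 : g ≤ dist (p (i + 1)) (p (i + 1 + 1)) := by
      by_cases hcc : c (i + 1) = c (i + 1 + 1)
      · have hnone : c (i + 1) = none := by
          by_contra hcon
          obtain ⟨j', hj'⟩ := Option.ne_none_iff_exists'.1 hcon
          exact hsame (i + 1) j' hj' (by rw [← hcc]; exact hj')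
        have b1 := hc (i + 1)
        have b2 := hc (i + 1 + 1)
        rw [← hcc] at b2
        have b3 := (hN (i + 1)).1
        rw [hnone] at b1 b2 b3
        simp only [pf_ls2_c, pf_ls2_r, sub_zero] at b1 b2 b3
        rw [add_sub_cancel_right] at b3
        have b4 := hc i
        rw [hj] at b4
        simp only [pf_ls2_c, pf_ls2_r] at b4
        have b5 : ‖p i‖ ≤ R := by
          have e5 : ‖p i‖ ≤ ‖p i - w j‖ + ‖w j‖ := by
            calc ‖p i‖ = ‖(p i - w j) + w j‖ := by rw [sub_add_cancel]
              _ ≤ _ := norm_add_le _ _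
          have := hin j
          linarith
        exact s2.trans (pf_ls2_side b1 b5 b2 (hne i) (hne (i + 1)) b3)
      · exact pf_ls2_gap hH' hO hcc (hc _) (hc _)
    have := pf_ls2_three (fun m => dist (p m) (p (m + 1))) (fun _ => dist_nonneg) i s1 s2 s3
    linarith

end Pool.Agent.H212AN
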