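import Pool.Agent.H212AN.E4

set_option autoImplicit false

namespace Pool.Agent.H212AN

open MeasureTheory Set Filter Topology Metric
open Pool.Agent.W594.AN (ClosedCurve)
open scoped Real ENNReal ComplexConjugate

/-- the next vertex of a billiard trajectory in a disc -/
theorem pf_lsd_step (R : ℝ) (a b c τ : ℂ) (hR : 0 < R) (ha : ‖a‖ = R) (hb : ‖b‖ = R) (hc : ‖c‖ = R)
    (hab : a ≠ b) (hbc : b ≠ c) (hτ : ‖τ‖ = 1) (ht : (conj τ * b).re = 0)
    (hr : Refl (dr a b) (dr b c) τ) : c * a = b * b := by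
  obtain ⟨h1, h2, -⟩ := hr
  have hττ : conj τ * τ = 1 := by
    rw [mul_comm, Complex.mul_conj, Complex.normSq_eq_norm_sq, hτ]; simp
  have haa : a * conj a = (R : ℂ) ^ 2 := by
    rw [Complex.mul_conj, Complex.normSq_eq_norm_sq, ha]; simp
  have hbb : b * conj b = (R : ℂ) ^ 2 := by
    rw [Complex.mul_conj, Complex.normSq_eq_norm_sq, hb]; simp
  have hR0 : (R : ℂ) ≠ 0 := by exact_mod_cast hR.ne'
  have ha0 : a ≠ 0 := by rw [← norm_pos_iff, ha]; exact hR
  -- the reflected direction
  have hv : conj τ * dr b c = conj (conj τ * dr a b) := by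
    apply Complex.ext
    · rw [Complex.conj_re]; exact h1
    · rw [Complex.conj_im]; exact h2
  have hv2 : dr b c = τ * τ * conj (dr a b) := by
    have := congrArg (fun z => τ * z) hv
    simp only [map_mul, Complex.conj_conj] at this
    calc dr b c = (conj τ * τ) * dr b c := by rw [hττ, one_mul]
      _ = τ * (conj τ * dr b c) := by ring
      _ = τ * (τ * conj (dr a b)) := this
      _ = _ := by ring
  -- the square of the tangent vector
  have hs : conj τ * b = ((conj τ * b).im : ℂ) * Complex.I := by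
    apply Complex.ext
    · simp [ht]
    · simp
  set s : ℝ := (conj τ * b).im with hsdef
  have hs2 : s ^ 2 = R ^ 2 := by
    have h3 : ‖conj τ * b‖ = R := by
      rw [norm_mul, Complex.norm_conj, hτ, one_mul, hb]
    rw [hs, norm_mul, Complex.norm_I, mul_one, Complex.norm_real, Real.norm_eq_abs] at h3
    rw [← h3, sq_abs]
  have hbτ : b = τ * (s * Complex.I) := by
    calc b = (conj τ * τ) * b := by rw [hττ, one_mul]
      _ = τ * (conj τ * b) := by ring
      _ = _ := by rw [hs]
  have hb2 : b * b = -(τ * τ) * (R : ℂ) ^ 2 := by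
    have h4 : ((s : ℂ)) ^ 2 = (R : ℂ) ^ 2 := by exact_mod_cast hs2
    calc b * b = (τ * (s * Complex.I)) * (τ * (s * Complex.I)) := by rw [← hbτ]
      _ = τ * τ * (s : ℂ) ^ 2 * (Complex.I * Complex.I) := by ring
      _ = _ := by rw [Complex.I_mul_I, h4]; ring
  have hτ2 : τ * τ = -(b * b) / (R : ℂ) ^ 2 := by
    rw [hb2]; field_simp
  -- the real factor
  have hna : ‖b - a‖ ≠ 0 := by rw [norm_ne_zero_iff, sub_ne_zero]; exact hab.symm
  have hnc : ‖c - b‖ ≠ 0 := by rw [norm_ne_zero_iff, sub_ne_zero]; exact hbc.symm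
  have hnaC : (‖b - a‖ : ℂ) ≠ 0 := by exact_mod_cast hna
  have hncC : (‖c - b‖ : ℂ) ≠ 0 := by exact_mod_cast hnc
  set κ : ℝ := ‖c - b‖ / ‖b - a‖ with hκ
  have hκ0 : κ ≠ 0 := div_ne_zero hnc hna
  set q : ℂ := b * b * conj a / (R : ℂ) ^ 2 with hq
  have hcb : c - b = (κ : ℂ) * (q - b) := by
    have h5 : c - b = (‖c - b‖ : ℂ) * dr b c := by
      unfold dr; field_simp
    have h6 : conj (dr a b) = (conj b - conj a) / (‖b - a‖ : ℂ) := by
      unfold dr; rw [map_div₀, map_sub, Complex.conj_ofReal]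
    have h7 : b = b * b * conj b / (R : ℂ) ^ 2 := by
      rw [mul_assoc, hbb]; field_simp
    rw [h5, hv2, h6, hτ2, hκ, hq]
    conv_rhs => rw [show b * b * conj a / (R : ℂ) ^ 2 - b
      = b * b * conj a / (R : ℂ) ^ 2 - b * b * conj b / (R : ℂ) ^ 2 by rw [← h7]]
    push_cast
    field_simp
    ring
  have hqn : ‖q‖ = R := by
    rw [hq, norm_div, norm_mul, norm_mul, Complex.norm_conj, ha, hb, norm_pow, Complex.norm_real,
      Real.norm_eq_abs, abs_of_pos hR]
    field_simp
  have hqb : q ≠ b := by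
    intro h
    have h8 : c - b = 0 := by rw [hcb, h]; simp
    exact hbc.symm (sub_eq_zero.1 h8)
  -- the line meets the circle twice
  have key : ∀ t : ℝ, ‖b + t * (q - b)‖ ^ 2 = R ^ 2 + 2 * t * (conj b * (q - b)).re
      + t ^ 2 * ‖q - b‖ ^ 2 := by
    intro t
    rw [← Complex.normSq_eq_norm_sq, Complex.normSq_add, Complex.normSq_mul,
      Complex.normSq_ofReal, Complex.normSq_eq_norm_sq b, hb, Complex.normSq_eq_norm_sq (q - b)]
    have : (b * conj (↑t * (q - b))).re = t * (conj b * (q - b)).re := by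
      simp [Complex.mul_re, Complex.mul_im]; ring
    rw [this]; ring
  have k1 := key 1
  have k2 := key κ
  rw [show b + ((1 : ℝ) : ℂ) * (q - b) = q by push_cast; ring, hqn] at k1
  rw [← hcb, show b + (c - b) = c by ring, hc] at k2
  have hw : ‖q - b‖ ^ 2 ≠ 0 := by
    apply pow_ne_zero; rw [norm_ne_zero_iff, sub_ne_zero]; exact hqb
  have hκ1 : κ = 1 := by
    have h9 : 2 * (conj b * (q - b)).re = -‖q - b‖ ^ 2 := by linarith
    have h10 : κ * (κ - 1) * ‖q - b‖ ^ 2 = 0 := by linear_combination (-1) * k2 - κ * h9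
    rcases mul_eq_zero.1 h10 with h | h
    · rcases mul_eq_zero.1 h with h | h
      · exact absurd h hκ0
      · linarith
    · exact absurd h hw
  rw [hκ1] at hcb
  have hcq : c = q := by
    have : c - b = q - b := by rw [hcb]; push_cast; ring
    exact sub_left_injective this
  rw [hcq, hq]
  calc b * b * conj a / (R : ℂ) ^ 2 * a = b * b * (a * conj a) / (R : ℂ) ^ 2 := by ring
    _ = b * b := by rw [haa]; field_simp

/-- the distance of a root of unity from `1` -/
theorem pf_lsd_root (N : ℕ) (hN : 2 ≤ N) (ζ : ℂ) (h : ζ ^ N = 1) (h1 : ζ ≠ 1) :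
    4 ≤ (N : ℝ) * ‖ζ - 1‖ := by
  have hN0 : (N : ℝ) ≠ 0 := by positivity
  have hNpos : (0 : ℝ) < N := by positivity
  have : NeZero N := ⟨by omega⟩
  obtain ⟨j, hj, hz⟩ := (Complex.isPrimitiveRoot_exp N (by omega)).eq_pow_of_pow_eq_one h
  have hj0 : j ≠ 0 := by
    rintro rfl; apply h1; rw [← hz]; simp
  have hze : ζ = Complex.exp (Complex.I * ((2 * π * j / N : ℝ) : ℂ)) := by
    rw [← hz, ← Complex.exp_nat_mul]
    congr 1
    push_cast
    ring
  have hn : ‖ζ - 1‖ = 2 * Real.sin (π * j / N) := by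
    rw [hze, Complex.norm_exp_I_mul_ofReal_sub_one]
    rw [show 2 * π * (j : ℝ) / N / 2 = π * j / N by ring, Real.norm_eq_abs, abs_of_nonneg]
    apply mul_nonneg (by norm_num)
    apply Real.sin_nonneg_of_nonneg_of_le_pi
    · positivity
    · rw [div_le_iff₀ hNpos]
      have : (j : ℝ) ≤ N := by exact_mod_cast hj.le
      nlinarith [Real.pi_pos]
  have hs : 2 / (N : ℝ) ≤ Real.sin (π * j / N) := by
    have hj1 : (1 : ℝ) ≤ j := by exact_mod_cast Nat.one_le_iff_ne_zero.2 hj0
    have hjN : (j : ℝ) + 1 ≤ N := by exact_mod_cast hj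
    rcases le_total (2 * (j : ℝ)) N with hh | hh
    · have hx : π * j / N ≤ π / 2 := by
        rw [div_le_div_iff₀ hNpos (by norm_num)]
        nlinarith [Real.pi_pos]
      have := Real.mul_le_sin (by positivity : (0:ℝ) ≤ π * j / N) hx
      refine le_trans ?_ this
      rw [show 2 / π * (π * (j : ℝ) / N) = 2 * j / N by field_simp]
      gcongr
      linarith
    · have hx : π * ((N : ℝ) - j) / N ≤ π / 2 := by
        rw [div_le_div_iff₀ hNpos (by norm_num)]
        nlinarith [Real.pi_pos]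
      have hx0 : 0 ≤ π * ((N : ℝ) - j) / N := by
        apply div_nonneg _ hNpos.le
        apply mul_nonneg Real.pi_pos.le; linarith
      have := Real.mul_le_sin hx0 hx
      have hsin : Real.sin (π * ((N : ℝ) - j) / N) = Real.sin (π * j / N) := by
        rw [← Real.sin_pi_sub (π * j / N)]
        congr 1
        field_simp
      rw [← hsin]
      refine le_trans ?_ this
      rw [show 2 / π * (π * ((N : ℝ) - j) / N) = 2 * (N - j) / N by field_simp]
      gcongr
      linarith
  rw [hn]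
  have := mul_le_mul_of_nonneg_left hs hNpos.le
  rw [mul_div_cancel₀ _ hN0] at this
  linarith

theorem pf_lsd : S_lsd := by
  intro R k p hR hp hne hrefl
  have hp0 : ∀ i, p i ≠ 0 := fun i => by rw [← norm_pos_iff, hp i]; exact hR
  have hstep : ∀ i, p (i + 1) * p (i - 1) = p i * p i := by
    intro i
    obtain ⟨τ, hτ, ht, hr⟩ := hrefl i
    have hab : p (i - 1) ≠ p i := by
      have := hne (i - 1); rwa [sub_add_cancel] at this
    exact pf_lsd_step R _ _ _ τ hR (hp _) (hp _) (hp _) hab (hne i) hτ ht hr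
  set ζ : ℂ := p 1 / p 0 with hζ
  have hstep2 : ∀ i, p (i + 1) / p i = p i / p (i - 1) := by
    intro i
    rw [div_eq_div_iff (hp0 _) (hp0 _)]; exact hstep i
  have hall : ∀ i : Fin (k + 2), p (i + 1) / p i = ζ := by
    intro i
    induction i using Fin.induction with
    | zero => rw [hζ, zero_add]
    | succ i ih =>
      rw [← ih]
      have := hstep2 (i.castSucc + 1)
      rw [add_sub_cancel_right] at this
      rw [← Fin.coeSucc_eq_succ]; exact this
  have hall' : ∀ i, p (i + 1) = ζ * p i := by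
    intro i
    rw [← hall i, div_mul_cancel₀ _ (hp0 i)]
  have hprod : ζ ^ (k + 2) = 1 := by
    have h1 : ∏ i, p (i + 1) = ∏ i, p i := Equiv.prod_comp (Equiv.addRight (1 : Fin (k + 2))) p
    have h2 : ∏ i, p (i + 1) = ζ ^ (k + 2) * ∏ i, p i := by
      rw [Finset.prod_congr rfl (fun i _ => hall' i), Finset.prod_mul_distrib, Finset.prod_const,
        Finset.card_univ, Fintype.card_fin]
    have h3 : ∏ i, p i ≠ 0 := Finset.prod_ne_zero_iff.2 (fun i _ => hp0 i)
    rw [h2] at h1
    exact (mul_eq_right₀ h3).1 h1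
  have hζ1 : ζ ≠ 1 := by
    intro h
    apply hne 0
    have := hall' 0
    rw [h, one_mul] at this
    exact this.symm
  have hdist : ∀ i, dist (p i) (p (i + 1)) = R * ‖ζ - 1‖ := by
    intro i
    rw [dist_comm, dist_eq_norm, hall' i, show ζ * p i - p i = p i * (ζ - 1) by ring, norm_mul, hp i]
  rw [Finset.sum_congr rfl (fun i _ => hdist i), Finset.sum_const, Finset.card_univ,
    Fintype.card_fin, nsmul_eq_mul]
  have := pf_lsd_root (k + 2) (by omega) ζ hprod hζ1
  nlinarith

end Pool.Agent.H212AN
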