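import Pool.Agent.H212AN.E4

set_option autoImplicit false

namespace Pool.Agent.H212AN

open MeasureTheory Set Filter Topology Metric
open Pool.Agent.W594.AN (ClosedCurve)
open scoped Real ENNReal ComplexConjugate

/-- a translated closed curve -/
noncomputable def pf_lst_curve (c : ClosedCurve) (v : ℂ) : ClosedCurve where
  L := c.L
  L_pos := c.L_pos
  γ := fun s => c.γ s + v
  smooth := c.smooth.add contDiff_const
  periodic := by
    intro s
    show c.γ (s + c.L) + v = c.γ s + v
    rw [c.periodic s]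
  unit_speed := by
    intro s
    rw [deriv_add_const]
    exact c.unit_speed s
  injOn := by
    intro a ha b hb hab
    exact c.injOn ha hb (add_right_cancel hab)

theorem pf_lst_frontier (Ω : Set ℂ) (v : ℂ) :
    frontier ((fun z => z + v) '' Ω) = (fun z => z + v) '' frontier Ω :=
  ((Homeomorph.addRight v).image_frontier Ω).symm

theorem pf_lst_dr (p q v : ℂ) : dr (p + v) (q + v) = dr p q := by
  unfold dr
  rw [add_sub_add_right_eq_sub]

theorem pf_lst_sub (Ω : Set ℂ) (v : ℂ) : LS Ω ⊆ LS ((fun z => z + v) '' Ω) := by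
  rintro ℓ ⟨k, p, ⟨h1, h2, h3⟩, rfl⟩
  refine ⟨k, fun i => p i + v, ⟨?_, ?_, ?_⟩, ?_⟩
  · intro i
    rw [pf_lst_frontier]
    exact ⟨p i, h1 i, rfl⟩
  · intro i
    have h : openSegment ℝ (p i + v) (p (i + 1) + v)
        = (fun z => z + v) '' openSegment ℝ (p i) (p (i + 1)) := by
      have := openSegment_translate_image ℝ v (p i) (p (i + 1))
      rw [show (fun z : ℂ => z + v) = (fun z => v + z) from by funext z; ring, this]
      congr 1 <;> ring
    rw [h]
    exact image_mono (h2 i)
  · intro i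
    obtain ⟨c, s, hc1, hc2, hc3⟩ := h3 i
    refine ⟨pf_lst_curve c v, s, ?_, ?_, ?_⟩
    · rw [pf_lst_frontier]
      rintro _ ⟨t, rfl⟩
      exact ⟨c.γ t, hc1 ⟨t, rfl⟩, rfl⟩
    · show c.γ s + v = p i + v
      rw [hc2]
    · have hd : deriv (pf_lst_curve c v).γ s = deriv c.γ s := deriv_add_const _
      rw [pf_lst_dr, pf_lst_dr, hd]
      exact hc3
  · refine Finset.sum_congr rfl fun i _ => ?_
    rw [dist_add_right]

theorem pf_lst : S_lst := by
  intro Ω v
  apply Subset.antisymm _ (pf_lst_sub Ω v)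
  have h := pf_lst_sub ((fun z => z + v) '' Ω) (-v)
  have e : (fun z => z + -v) '' ((fun z => z + v) '' Ω) = Ω := by
    rw [image_image]
    simp
  rwa [e] at h

end Pool.Agent.H212AN
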