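import Pool.Agent.H212AN.E4

set_option autoImplicit false

namespace Pool.Agent.H212AN

open MeasureTheory Set Filter Topology Metric
open Pool.Agent.W594.AN (ClosedCurve)
open scoped Real ENNReal ComplexConjugate

/- PLAIN PROOF.
frontier = sphere 0 R ∪ ⋃ sphere (w i) r (S_fr), these are pairwise disjoint closed sets (OKn). Let c.γ s ∈ sphere x ρ, one of them. The union of the other ones is closed and does not contain c.γ s, so by continuity c.γ s' is not in it for s' near s, hence c.γ s' ∈ sphere x ρ for s' near s. So the function s' ↦ ‖c.γ s' - x‖² (= normSq) is locally constant (= ρ²) and its derivative at s,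
2 re(conj(deriv c.γ s)(c.γ s - x)), is 0. (HasDerivAt for c.γ: c.hasDerivAt; product rule with conj: conj(γ-x)·(γ-x), or use re and im parts.)
-/
theorem pf_tg_core (c : ClosedCurve) (s : ℝ) (x : ℂ) (ρ : ℝ) (K : Set ℂ) (hK : IsClosed K)
    (hr : range c.γ ⊆ sphere x ρ ∪ K) (hs : c.γ s ∉ K) :
    (conj (deriv c.γ s) * (c.γ s - x)).re = 0 := by
  have hc : Continuous c.γ := c.smooth.continuous
  have hev : ∀ᶠ s' in 𝓝 s, c.γ s' ∉ K := by
    have : c.γ ⁻¹' Kᶜ ∈ 𝓝 s := (hK.isOpen_compl.preimage hc).mem_nhds hs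
    exact this
  have hconst : (fun s' => ‖c.γ s' - x‖ ^ 2) =ᶠ[𝓝 s] fun _ => ρ ^ 2 := by
    filter_upwards [hev] with s' hs'
    have h1 : c.γ s' ∈ sphere x ρ ∪ K := hr (mem_range_self s')
    rcases h1 with h1 | h1
    · rw [mem_sphere_iff_norm] at h1
      rw [h1]
    · exact absurd h1 hs'
  have hd : HasDerivAt (fun s' => c.γ s' - x) (deriv c.γ s) s := (c.hasDerivAt s).sub_const x
  have hd2 := hd.norm_sq
  have hd3 : HasDerivAt (fun s' => ‖c.γ s' - x‖ ^ 2) 0 s :=
    (hasDerivAt_const s (ρ ^ 2)).congr_of_eventuallyEq hconst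
  have h0 := hd2.unique hd3
  have h1 : inner ℝ (c.γ s - x) (deriv c.γ s) = 0 := by linarith
  rw [Complex.inner] at h1
  have h2 : (conj (deriv c.γ s) * (c.γ s - x)).re = (deriv c.γ s * conj (c.γ s - x)).re := by
    simp only [Complex.mul_re, Complex.conj_re, Complex.conj_im]
    ring
  rw [h2]
  exact h1

theorem pf_tg (h1 : S_fr) : S_tg := by
  intro n R r w hok hR c s hr
  obtain ⟨-, hfr⟩ := h1 n R r w hok hR
  obtain ⟨hr0, hwR, hij⟩ := hok
  rw [hfr] at hr
  constructor
  · intro hs
    have h := pf_tg_core c s 0 R (⋃ i, sphere (w i) r)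
      (isClosed_iUnion_of_finite fun i => isClosed_sphere) hr (by
        intro hm
        obtain ⟨i, hi⟩ := mem_iUnion.1 hm
        rw [mem_sphere_iff_norm] at hs hi
        have h1 : ‖c.γ s‖ ≤ ‖c.γ s - w i‖ + ‖w i‖ := by
          have := norm_add_le (c.γ s - w i) (w i)
          simpa using this
        rw [sub_zero] at hs
        have h2 := hwR i
        rw [hs, hi] at h1
        linarith)
    rwa [sub_zero] at h
  · intro i hs
    refine pf_tg_core c s (w i) r (sphere 0 R ∪ ⋃ j ∈ {j | j ≠ i}, sphere (w j) r) ?_ ?_ ?_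
    · refine isClosed_sphere.union ?_
      exact (Set.toFinite _).isClosed_biUnion fun j _ => isClosed_sphere
    · intro z hz
      rcases hr hz with h | h
      · exact Or.inr (Or.inl h)
      · obtain ⟨j, hj⟩ := mem_iUnion.1 h
        by_cases hji : j = i
        · subst hji
          exact Or.inl hj
        · refine Or.inr (Or.inr ?_)
          exact mem_biUnion (show j ∈ {j | j ≠ i} from hji) hj
    · rintro (h | h)
      · rw [mem_sphere_iff_norm] at hs h
        rw [sub_zero] at h
        have h1 : ‖c.γ s‖ ≤ ‖c.γ s - w i‖ + ‖w i‖ := by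
          have := norm_add_le (c.γ s - w i) (w i)
          simpa using this
        have h2 := hwR i
        rw [h, hs] at h1
        linarith
      · obtain ⟨j, hj, hjs⟩ := mem_iUnion₂.1 h
        have h2 := hij i j (fun h => hj h.symm)
        rw [mem_sphere] at hs hjs
        have h3 := dist_triangle_left (w i) (w j) (c.γ s)
        rw [hs, hjs] at h3
        linarith

end Pool.Agent.H212AN
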