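import Pool.Agent.H212AN.Many
import Pool.Agent.H212AN.P_fr
import Pool.Agent.H212AN.P_bc
import Pool.Agent.H212AN.P_tg
import Pool.Agent.H212AN.P_lst
import Pool.Agent.H212AN.P_ls1
import Pool.Agent.H212AN.P_lsd
import Pool.Agent.H212AN.P_ls2
import Pool.Agent.H212AN.P_bil

set_option autoImplicit false

/-!
# Project H212AN: short periodic billiard trajectories of discs with equal circular holes
-/

namespace Pool.Agent.H212AN

open MeasureTheory Set Filter Topology Metric
open Pool.Agent.W594.AN (ClosedCurve SmoothDomain heatTrace dirichletEigenvalue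
  IsPerforatedDisc annuli_congruent perforated_of_values exists_smoothDomain)
open scoped Real ENNReal ComplexConjugate

theorem q_fr : S_fr := pf_fr
theorem q_bc : S_bc := pf_bc
theorem q_tg : S_tg := pf_tg q_fr
theorem q_lst : S_lst := pf_lst
theorem q_ls1 : S_ls1 := pf_ls1 q_fr q_bc
theorem q_lsd : S_lsd := pf_lsd
theorem q_ls2 : S_ls2 := pf_ls2 q_fr q_tg q_lsd
theorem q_bil : S_bil := pf_bil q_gaps q_ls1 q_ls2

/-- translation of a disc with holes, second form -/
theorem NH_shift (n : ℕ) (R r : ℝ) (c : ℂ) (w : Fin n → ℂ) :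
    (fun z => z + c) '' NH n R r 0 (fun i => w i - c) = NH n R r c w := by
  have h : (fun z : ℂ => z + c) = IsometryEquiv.addRight c := rfl
  rw [h]
  unfold NH
  rw [Set.image_sdiff (IsometryEquiv.injective _), image_iUnion, IsometryEquiv.image_ball]
  congr 1
  · simp
  · refine iUnion_congr fun i => ?_
    rw [IsometryEquiv.image_closedBall]
    simp

/-- **Main theorem** on the length spectrum. -/
theorem bil_main {n m : ℕ} (hn : 2 ≤ n) {R r : ℝ} {z : ℂ} {w : Fin n → ℂ} {Ω' : Set ℂ}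
    {c : Fin m → ClosedCurve} (hr : 0 < r) (hR : 0 < R)
    (hw1 : ∀ i, closedBall (w i) r ⊆ ball z R)
    (hw2 : Pairwise fun i j => Disjoint (closedBall (w i) r) (closedBall (w j) r))
    (h : SD Ω' m c) (hiso : AlmostIso (NH n R r z w) Ω') :
    ∃ ℓ : ℝ, 0 < ℓ ∧ IsLeast (LS (NH n R r z w)) ℓ ∧ IsLeast (LS Ω') ℓ ∧
      ∀ s : ℝ, s < 3 / 2 * ℓ → (∀ y ∈ LS (NH n R r z w), y < s → Irrational (rq R r y)) →
        (s ∈ LS (NH n R r z w) ↔ s ∈ LS Ω') := by
  obtain ⟨hΩ', hZ⟩ := class_main hr hR ⟨z, w, hw1, hw2, rfl⟩ h hiso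
  obtain ⟨z', w', w1', w2', hw'⟩ := hΩ'
  have e1 : (fun x => x + z) '' NH n R r 0 (fun i => w i - z) = NH n R r z w := NH_shift n R r z w
  have e2 : (fun x => x + z') '' NH n R r 0 (fun i => w' i - z') = Ω' := by
    rw [hw']
    exact NH_shift n R r z' w'
  obtain ⟨ℓ, h0, h1, h2, h3⟩ := q_bil heatTrace heat_up heat_lo heat_nonneg heat_sq n R r
    (fun i => w i - z) (fun i => w' i - z') hn (OKn_of hr hw1 hw2) (OKn_of hr w1' w2') (by
      intro t ht
      have k1 : heatTrace (NH n R r z w) t = heatTrace (NH n R r 0 (fun i => w i - z)) t := by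
        rw [← e1]
        exact heat_congr (IsometryEquiv.addRight z) _ t
      have k2 : heatTrace Ω' t = heatTrace (NH n R r 0 (fun i => w' i - z')) t := by
        rw [← e2]
        exact heat_congr (IsometryEquiv.addRight z') _ t
      rw [← k1, ← k2]
      exact (hZ t ht).symm)
  have l1 : LS (NH n R r z w) = LS (NH n R r 0 (fun i => w i - z)) := by
    rw [← e1]
    exact q_lst _ z
  have l2 : LS Ω' = LS (NH n R r 0 (fun i => w' i - z')) := by
    rw [← e2]
    exact q_lst _ z'
  rw [l1, l2]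
  exact ⟨ℓ, h0, h1, h2, h3⟩

end Pool.Agent.H212AN
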