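import Pool.Agent.H212AN.D1

set_option autoImplicit false

namespace Pool.Agent.H212AN

open MeasureTheory Set Filter Topology Metric
open Pool.Agent.H212AN.G (nG PG gm)
open scoped Real ENNReal

theorem pf_G3_near (b : Lo) (t0 : unitInterval)
    (huniq : ∀ s, (∀ u, (b u).re ≤ (b s).re) → b s = b t0)
    (hmax : ∀ s, (b s).re ≤ (b t0).re) (η : ℝ) (hη : 0 < η) :
    ∃ γ > 0, ∀ t, (b t0).re - γ < (b t).re → ‖b t - b t0‖ < η := by
  have hclosed : IsClosed {t : unitInterval | η ≤ ‖b t - b t0‖} :=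
    isClosed_le continuous_const ((b.continuous.sub continuous_const).norm)
  by_cases hne : ({t : unitInterval | η ≤ ‖b t - b t0‖}).Nonempty
  · obtain ⟨s, hs, hsmax⟩ := hclosed.isCompact.exists_isMaxOn hne
      (Complex.continuous_re.comp b.continuous).continuousOn
    have hs' : η ≤ ‖b s - b t0‖ := hs
    have hlt : (b s).re < (b t0).re := by
      rcases lt_or_eq_of_le (hmax s) with h | h
      · exact h
      · exfalso
        have h2 := huniq s (fun u => by rw [h]; exact hmax u)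
        rw [h2, sub_self, norm_zero] at hs'
        linarith
    refine ⟨(b t0).re - (b s).re, by linarith, fun t ht => ?_⟩
    by_contra hcon
    rw [not_lt] at hcon
    have h3 : (b t).re ≤ (b s).re := hsmax hcon
    linarith
  · refine ⟨1, one_pos, fun t _ => ?_⟩
    by_contra hcon
    rw [not_lt] at hcon
    exact hne ⟨t, hcon⟩

theorem pf_G3_cont (h1 : S_pe) (κ c d : ℝ) : Continuous (fun b : Lo => pe κ c d b) := by
  have h : Continuous (fun b : Lo => (((κ, c, d) : ℝ × ℝ × ℝ), b)) :=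
    continuous_const.prodMk continuous_id
  exact h1.1.comp h

theorem pf_G3_im (b : Lo) (t : unitInterval) : |(b t).im| ≤ ‖b‖ :=
  (Complex.abs_im_le_norm _).trans (b.norm_coe_le_norm t)

/-- lower and upper bounds for the second difference -/
theorem pf_G3_diff (h1 : S_pe) (b : Lo) (κ c : ℝ) :
    0 ≤ pe κ c 0 b + pe κ (-c) 0 b - 2 * pe κ 0 0 b := by
  obtain ⟨-, hat, -⟩ := h1
  obtain ⟨t1, ht1⟩ := (hat κ 0 0 b).1
  have h2 := (hat κ c 0 b).2 t1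
  have h3 := (hat κ (-c) 0 b).2 t1
  rw [ht1]
  linarith

theorem pf_G3_bound (h1 : S_pe) (b : Lo) (κ c : ℝ) :
    ‖(pe κ c 0 b + pe κ (-c) 0 b - 2 * pe κ 0 0 b) / |c|‖ ≤ 2 * ‖b‖ ^ 3 := by
  have h0 := pf_G3_diff h1 b κ c
  obtain ⟨-, -, -, hlip, -⟩ := h1
  by_cases hc : c = 0
  · subst hc
    simp
  have hc' : 0 < |c| := abs_pos.2 hc
  rw [Real.norm_eq_abs, abs_div, abs_abs, div_le_iff₀ hc', abs_of_nonneg h0]
  have h2 := (abs_le.1 (hlip κ c 0 κ 0 0 b)).2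
  have h3 := (abs_le.1 (hlip κ (-c) 0 κ 0 0 b)).2
  simp only [sub_self, abs_zero, zero_mul, zero_add, sub_zero, add_zero, abs_neg] at h2 h3
  linarith

theorem pf_G3_pt (h1 : S_pe) (b : Lo)
    (hb : ∀ k ∈ face (rg b) 0, ∀ k' ∈ face (rg b) 0, k = k') :
    Tendsto (fun p : ℝ × ℝ => (pe p.1 p.2 0 b + pe p.1 (-p.2) 0 b - 2 * pe p.1 0 0 b) / |p.2|)
      (𝓝 (0, 0)) (𝓝 0) := by
  have hdiff := pf_G3_diff h1 b
  obtain ⟨-, hat, -⟩ := h1
  obtain ⟨t0, ht0⟩ := (hat 0 0 0 b).1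
  have hmax : ∀ s, (b s).re ≤ (b t0).re := by
    intro s
    have h2 := (hat 0 0 0 b).2 s
    rw [ht0] at h2
    simpa using h2
  have hface : ∀ t, (∀ s, (b s).re ≤ (b t).re) → b t ∈ face (rg b) 0 := by
    intro t ht
    refine ⟨⟨t, rfl⟩, ?_⟩
    have hg : IsGreatest (yy 0 '' rg b) (yy 0 (b t)) := by
      refine ⟨⟨b t, ⟨t, rfl⟩, rfl⟩, ?_⟩
      rintro _ ⟨_, ⟨s, rfl⟩, rfl⟩
      simpa [yy] using ht s
    exact hg.csSup_eq.symm
  have huniq : ∀ s, (∀ u, (b u).re ≤ (b s).re) → b s = b t0 := fun s hs =>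
    hb _ (hface s hs) _ (hface t0 hmax)
  rw [Metric.tendsto_nhds_nhds]
  intro ε hε
  set N := ‖b‖ with hN
  have hN0 : 0 ≤ N := norm_nonneg _
  obtain ⟨γ, hγ, hnear⟩ := pf_G3_near b t0 huniq hmax (ε / (6 * N ^ 2 + 1))
    (div_pos hε (by positivity))
  refine ⟨γ / (2 * N ^ 2 + 2 * N ^ 3 + 1), div_pos hγ (by positivity), ?_⟩
  rintro ⟨κ, c⟩ hp
  rw [Prod.dist_eq, max_lt_iff] at hp
  simp only [Real.dist_eq, sub_zero] at hp ⊢
  obtain ⟨hκ, hc⟩ := hp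
  have h0 := hdiff κ c
  by_cases hc0 : c = 0
  · subst hc0
    simpa using hε
  have hc' : 0 < |c| := abs_pos.2 hc0
  rw [abs_div, abs_abs, div_lt_iff₀ hc', abs_of_nonneg h0]
  have him : ∀ t, |(b t).im| ≤ N := pf_G3_im b
  -- a maximiser of the perturbed problem is near
  have hpert : ∀ c' : ℝ, |c'| = |c| → ∀ t, pe κ c' 0 b = (b t).re + κ / 2 * (b t).im ^ 2 +
      c' * (b t).im ^ 3 + 0 * (b t).im ^ 4 → ‖b t - b t0‖ < ε / (6 * N ^ 2 + 1) := by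
    intro c' hc'' t ht
    apply hnear
    have h2 := (hat κ c' 0 b).2 t0
    rw [ht] at h2
    have hsq : ∀ t, |κ / 2 * (b t).im ^ 2 + c' * (b t).im ^ 3| ≤
        γ / (2 * N ^ 2 + 2 * N ^ 3 + 1) * (N ^ 2 / 2 + N ^ 3) := by
      intro t
      have h3 := him t
      have h4 : |(b t).im| ^ 2 ≤ N ^ 2 := pow_le_pow_left₀ (abs_nonneg _) h3 2
      have h5 : |(b t).im| ^ 3 ≤ N ^ 3 := pow_le_pow_left₀ (abs_nonneg _) h3 3
      calc |κ / 2 * (b t).im ^ 2 + c' * (b t).im ^ 3|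
          ≤ |κ / 2 * (b t).im ^ 2| + |c' * (b t).im ^ 3| := abs_add_le _ _
        _ = |κ| / 2 * |(b t).im| ^ 2 + |c| * |(b t).im| ^ 3 := by
            rw [abs_mul, abs_mul, abs_div, abs_pow, abs_pow, hc'', abs_two]
        _ ≤ γ / (2 * N ^ 2 + 2 * N ^ 3 + 1) / 2 * N ^ 2 +
            γ / (2 * N ^ 2 + 2 * N ^ 3 + 1) * N ^ 3 := by
            gcongr
        _ = _ := by ring
    have h6 := (abs_le.1 (hsq t)).2
    have h7 := (abs_le.1 (hsq t0)).1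
    have h8 : γ / (2 * N ^ 2 + 2 * N ^ 3 + 1) * (N ^ 2 / 2 + N ^ 3) * 2 < γ := by
      rw [div_mul_eq_mul_div, div_mul_eq_mul_div, div_lt_iff₀ (by positivity)]
      have : 0 ≤ N ^ 2 := by positivity
      nlinarith
    linarith
  obtain ⟨t2, ht2⟩ := (hat κ c 0 b).1
  obtain ⟨t3, ht3⟩ := (hat κ (-c) 0 b).1
  have hn2 := hpert c rfl t2 ht2
  have hn3 := hpert (-c) (abs_neg c) t3 ht3
  have h2 := (hat κ 0 0 b).2 t2
  have h3 := (hat κ 0 0 b).2 t3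
  have hD : pe κ c 0 b + pe κ (-c) 0 b - 2 * pe κ 0 0 b ≤
      c * ((b t2).im ^ 3 - (b t3).im ^ 3) := by
    rw [ht2, ht3]
    linarith
  have hx : |(b t2).im - (b t3).im| < 2 * (ε / (6 * N ^ 2 + 1)) := by
    have e : (b t2).im - (b t3).im = ((b t2) - (b t0)).im - ((b t3) - (b t0)).im := by
      rw [Complex.sub_im, Complex.sub_im]; ring
    rw [e]
    have h4 := Complex.abs_im_le_norm ((b t2) - (b t0))
    have h5 := Complex.abs_im_le_norm ((b t3) - (b t0))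
    have h6 := abs_sub (((b t2) - (b t0)).im) (((b t3) - (b t0)).im)
    linarith
  have hq : |(b t2).im ^ 2 + (b t2).im * (b t3).im + (b t3).im ^ 2| ≤ 3 * N ^ 2 := by
    have h4 := him t2
    have h5 := him t3
    have h6 : |(b t2).im| ^ 2 ≤ N ^ 2 := pow_le_pow_left₀ (abs_nonneg _) h4 2
    have h7 : |(b t3).im| ^ 2 ≤ N ^ 2 := pow_le_pow_left₀ (abs_nonneg _) h5 2
    have h8 : |(b t2).im| * |(b t3).im| ≤ N * N := by gcongr
    have h9 := abs_add_three ((b t2).im ^ 2) ((b t2).im * (b t3).im) ((b t3).im ^ 2)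
    rw [abs_mul, abs_pow, abs_pow] at h9
    nlinarith
  calc pe κ c 0 b + pe κ (-c) 0 b - 2 * pe κ 0 0 b
      ≤ c * ((b t2).im ^ 3 - (b t3).im ^ 3) := hD
    _ ≤ |c * ((b t2).im ^ 3 - (b t3).im ^ 3)| := le_abs_self _
    _ = |c| * (|(b t2).im - (b t3).im| *
          |(b t2).im ^ 2 + (b t2).im * (b t3).im + (b t3).im ^ 2|) := by
        rw [abs_mul, ← abs_mul ((b t2).im - (b t3).im)]
        congr 2
        ring
    _ ≤ |c| * (2 * (ε / (6 * N ^ 2 + 1)) * (3 * N ^ 2)) := by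
        gcongr
    _ < ε * |c| := by
        rw [mul_comm ε]
        apply mul_lt_mul_of_pos_left _ hc'
        have : 2 * (ε / (6 * N ^ 2 + 1)) * (3 * N ^ 2) = ε * (6 * N ^ 2) / (6 * N ^ 2 + 1) := by
          ring
        rw [this, div_lt_iff₀ (by positivity)]
        nlinarith

theorem pf_G3_lim (h1 : S_pe) (h2 : S_mom) (h4 : S_sing) (μ : Measure Lo) (hμ : IsLoop μ) :
    Tendsto (fun p : ℝ × ℝ => ∫ b, (pe p.1 p.2 0 b + pe p.1 (-p.2) 0 b - 2 * pe p.1 0 0 b) / |p.2| ∂μ)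
      (𝓝 (0, 0)) (𝓝 0) := by
  have hcont : ∀ κ c d : ℝ, Continuous (fun b : Lo => pe κ c d b) := pf_G3_cont h1
  have key := tendsto_integral_filter_of_dominated_convergence (μ := μ) (l := 𝓝 ((0:ℝ), (0:ℝ)))
    (F := fun (p : ℝ × ℝ) (b : Lo) =>
      (pe p.1 p.2 0 b + pe p.1 (-p.2) 0 b - 2 * pe p.1 0 0 b) / |p.2|)
    (f := fun _ => (0:ℝ)) (fun b => 2 * ‖b‖ ^ 3) ?_ ?_ ?_ ?_
  · simpa using key
  · refine Eventually.of_forall fun p => ?_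
    have : Continuous (fun b => (pe p.1 p.2 0 b + pe p.1 (-p.2) 0 b - 2 * pe p.1 0 0 b) / |p.2|) :=
      (((hcont _ _ _).add (hcont _ _ _)).sub (continuous_const.mul (hcont _ _ _))).div_const _
    exact this.aestronglyMeasurable
  · exact Eventually.of_forall fun p => Eventually.of_forall fun b => pf_G3_bound h1 b p.1 p.2
  · exact (h2 μ hμ 3).const_mul 2
  · filter_upwards [h4 μ hμ] with b hb
    exact pf_G3_pt h1 b hb

/-- difference of the functionals -/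
theorem pf_G3_int (h1 : S_pe) (h2 : S_mom) (μ : Measure Lo) (hμ : IsLoop μ) (κ c d : ℝ) :
    Integrable (fun b => pe κ c d b) μ ∧ Integrable (fun b => pe κ c d b ^ 2) μ := by
  have hcont : Continuous (fun b : Lo => pe κ c d b) := pf_G3_cont h1 κ c d
  obtain ⟨-, -, hbd, -⟩ := h1
  have hm := h2 μ hμ
  have hm1 : Integrable (fun b : Lo => ‖b‖) μ := by simpa using hm 1
  constructor
  · refine Integrable.mono' (g := fun b => ‖b‖ + |κ| * ‖b‖ ^ 2 + |c| * ‖b‖ ^ 3 + |d| * ‖b‖ ^ 4)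
      (((hm1.add ((hm 2).const_mul _)).add ((hm 3).const_mul _)).add ((hm 4).const_mul _))
      hcont.aestronglyMeasurable (Eventually.of_forall fun b => hbd κ c d b)
  · refine Integrable.mono' (g := fun b => 4 * (‖b‖ ^ 2 + |κ| ^ 2 * ‖b‖ ^ 4 + |c| ^ 2 * ‖b‖ ^ 6 +
        |d| ^ 2 * ‖b‖ ^ 8))
      (((((hm 2).add ((hm 4).const_mul _)).add ((hm 6).const_mul _)).add
        ((hm 8).const_mul _)).const_mul 4)
      (hcont.pow 2).aestronglyMeasurable (Eventually.of_forall fun b => ?_)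
    have h3 := hbd κ c d b
    rw [Real.norm_eq_abs, abs_pow]
    have h4 : |pe κ c d b| ^ 2 ≤ (‖b‖ + |κ| * ‖b‖ ^ 2 + |c| * ‖b‖ ^ 3 + |d| * ‖b‖ ^ 4) ^ 2 :=
      pow_le_pow_left₀ (abs_nonneg _) h3 2
    refine h4.trans ?_
    have e1 : |κ| ^ 2 * ‖b‖ ^ 4 = (|κ| * ‖b‖ ^ 2) ^ 2 := by ring
    have e2 : |c| ^ 2 * ‖b‖ ^ 6 = (|c| * ‖b‖ ^ 3) ^ 2 := by ring
    have e3 : |d| ^ 2 * ‖b‖ ^ 8 = (|d| * ‖b‖ ^ 4) ^ 2 := by ring
    rw [e1, e2, e3]
    nlinarith [sq_nonneg (‖b‖ - |κ| * ‖b‖ ^ 2), sq_nonneg (‖b‖ - |c| * ‖b‖ ^ 3),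
      sq_nonneg (‖b‖ - |d| * ‖b‖ ^ 4), sq_nonneg (|κ| * ‖b‖ ^ 2 - |c| * ‖b‖ ^ 3),
      sq_nonneg (|κ| * ‖b‖ ^ 2 - |d| * ‖b‖ ^ 4), sq_nonneg (|c| * ‖b‖ ^ 3 - |d| * ‖b‖ ^ 4)]

theorem pf_G3 (h1 : S_pe) (h2 : S_mom) (h3 : S_rot) (h4 : S_sing) (h5 : S_end) : S_G3 := by
  intro μ hμ
  have _ := h5
  have := hμ.prob
  have hm := h2 μ hμ
  have hint := pf_G3_int h1 h2 μ hμ
  have hlim := pf_G3_lim h1 h2 h4 μ hμ
  have hcont : ∀ κ c d : ℝ, Continuous (fun b : Lo => pe κ c d b) := pf_G3_cont h1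
  have hbd := h1.2.2.1
  have hlip := h1.2.2.2.1
  have hstar := h1.2.2.2.2.2.1
  -- the `d`-term
  set C := ∫ b : Lo, (‖b‖ ^ 4 + (‖b‖ ^ 5 + ‖b‖ ^ 6 + ‖b‖ ^ 7 + ‖b‖ ^ 8)) ∂μ with hC
  have hCint : Integrable (fun b : Lo => ‖b‖ ^ 4 + (‖b‖ ^ 5 + ‖b‖ ^ 6 + ‖b‖ ^ 7 + ‖b‖ ^ 8)) μ :=
    (hm 4).add ((((hm 5).add (hm 6)).add (hm 7)).add (hm 8))
  set C' := ∫ b : Lo, (‖b‖ ^ 4 + ‖b‖ ^ 5 + ‖b‖ ^ 6) ∂μ with hC'
  have hC'int : Integrable (fun b : Lo => ‖b‖ ^ 4 + ‖b‖ ^ 5 + ‖b‖ ^ 6) μ :=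
    ((hm 4).add (hm 5)).add (hm 6)
  have hC'0 : 0 ≤ C' := integral_nonneg fun b => by positivity
  have hGint : ∀ κ c d : ℝ, Integrable (fun b => pe κ c d b - κ / 2 * pe κ c d b ^ 2) μ :=
    fun κ c d => (hint κ c d).1.sub ((hint κ c d).2.const_mul _)
  have hd : ∀ κ c d : ℝ, |κ| ≤ 1 → |c| ≤ 1 → |d| ≤ 1 → |Gf μ κ c d - Gf μ κ c 0| ≤ C * |d| := by
    intro κ c d hκ hc hd
    rw [Gf, Gf, ← integral_sub (hGint κ c d) (hGint κ c 0), ← Real.norm_eq_abs]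
    have e : C * |d| = ∫ b : Lo, |d| * (‖b‖ ^ 4 + (‖b‖ ^ 5 + ‖b‖ ^ 6 + ‖b‖ ^ 7 + ‖b‖ ^ 8)) ∂μ := by
      rw [integral_const_mul, mul_comm]
    rw [e]
    refine norm_integral_le_of_norm_le (hCint.const_mul _) (Eventually.of_forall fun b => ?_)
    have hb0 : 0 ≤ ‖b‖ := norm_nonneg b
    have g1 := hlip κ c d κ c 0 b
    simp only [sub_self, abs_zero, zero_mul, zero_add, sub_zero] at g1
    have g2 := hbd κ c d b
    have g3 := hbd κ c 0 b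
    have p2 : |κ| * ‖b‖ ^ 2 ≤ ‖b‖ ^ 2 := mul_le_of_le_one_left (by positivity) hκ
    have p3 : |c| * ‖b‖ ^ 3 ≤ ‖b‖ ^ 3 := mul_le_of_le_one_left (by positivity) hc
    have p4 : |d| * ‖b‖ ^ 4 ≤ ‖b‖ ^ 4 := mul_le_of_le_one_left (by positivity) hd
    have g2' : |pe κ c d b| ≤ ‖b‖ + ‖b‖ ^ 2 + ‖b‖ ^ 3 + ‖b‖ ^ 4 := by linarith
    have g3' : |pe κ c 0 b| ≤ ‖b‖ + ‖b‖ ^ 2 + ‖b‖ ^ 3 + ‖b‖ ^ 4 := by
      rw [abs_zero, zero_mul, add_zero] at g3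
      have : 0 ≤ ‖b‖ ^ 4 := by positivity
      linarith
    have e2 : pe κ c d b - κ / 2 * pe κ c d b ^ 2 - (pe κ c 0 b - κ / 2 * pe κ c 0 b ^ 2) =
        (pe κ c d b - pe κ c 0 b) - κ / 2 * ((pe κ c d b - pe κ c 0 b) *
          (pe κ c d b + pe κ c 0 b)) := by ring
    rw [Real.norm_eq_abs, e2]
    have g4 : |pe κ c d b + pe κ c 0 b| ≤ 2 * (‖b‖ + ‖b‖ ^ 2 + ‖b‖ ^ 3 + ‖b‖ ^ 4) := by
      refine (abs_add_le _ _).trans ?_
      linarith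
    calc |(pe κ c d b - pe κ c 0 b) - κ / 2 * ((pe κ c d b - pe κ c 0 b) *
          (pe κ c d b + pe κ c 0 b))|
        ≤ |pe κ c d b - pe κ c 0 b| + |κ / 2 * ((pe κ c d b - pe κ c 0 b) *
          (pe κ c d b + pe κ c 0 b))| := abs_sub _ _
      _ = |pe κ c d b - pe κ c 0 b| + |κ| / 2 * (|pe κ c d b - pe κ c 0 b| *
          |pe κ c d b + pe κ c 0 b|) := by rw [abs_mul, abs_mul, abs_div, abs_two]
      _ ≤ |d| * ‖b‖ ^ 4 + 1 / 2 * (|d| * ‖b‖ ^ 4 * (2 * (‖b‖ + ‖b‖ ^ 2 + ‖b‖ ^ 3 + ‖b‖ ^ 4))) := by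
          gcongr
      _ = _ := by ring
  -- the quadratic part of the `c`-term
  have hc : ∀ κ c : ℝ, |κ| ≤ 1 → |c| ≤ 1 →
      |∫ b, κ / 2 * (pe κ c 0 b ^ 2 - pe κ 0 0 b ^ 2) ∂μ| ≤ |κ| * |c| * C' := by
    intro κ c hκ hc
    rw [← Real.norm_eq_abs]
    have e : |κ| * |c| * C' = ∫ b : Lo, |κ| * |c| * (‖b‖ ^ 4 + ‖b‖ ^ 5 + ‖b‖ ^ 6) ∂μ := by
      rw [integral_const_mul]
    rw [e]
    refine norm_integral_le_of_norm_le (hC'int.const_mul _) (Eventually.of_forall fun b => ?_)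
    have hb0 : 0 ≤ ‖b‖ := norm_nonneg b
    have g1 := hlip κ c 0 κ 0 0 b
    simp only [sub_self, abs_zero, zero_mul, zero_add, sub_zero, add_zero] at g1
    have g2 := hbd κ c 0 b
    have g3 := hbd κ 0 0 b
    simp only [abs_zero, zero_mul, add_zero] at g2 g3
    have p2 : |κ| * ‖b‖ ^ 2 ≤ ‖b‖ ^ 2 := mul_le_of_le_one_left (by positivity) hκ
    have p3 : |c| * ‖b‖ ^ 3 ≤ ‖b‖ ^ 3 := mul_le_of_le_one_left (by positivity) hc
    have p3' : 0 ≤ ‖b‖ ^ 3 := by positivity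
    have g4 : |pe κ c 0 b + pe κ 0 0 b| ≤ 2 * (‖b‖ + ‖b‖ ^ 2 + ‖b‖ ^ 3) := by
      refine (abs_add_le _ _).trans ?_
      linarith
    have e2 : κ / 2 * (pe κ c 0 b ^ 2 - pe κ 0 0 b ^ 2) =
        κ / 2 * ((pe κ c 0 b - pe κ 0 0 b) * (pe κ c 0 b + pe κ 0 0 b)) := by ring
    rw [Real.norm_eq_abs, e2]
    calc |κ / 2 * ((pe κ c 0 b - pe κ 0 0 b) * (pe κ c 0 b + pe κ 0 0 b))|
        = |κ| / 2 * (|pe κ c 0 b - pe κ 0 0 b| * |pe κ c 0 b + pe κ 0 0 b|) := by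
          rw [abs_mul, abs_mul, abs_div, abs_two]
      _ ≤ |κ| / 2 * (|c| * ‖b‖ ^ 3 * (2 * (‖b‖ + ‖b‖ ^ 2 + ‖b‖ ^ 3))) := by
          gcongr
      _ = _ := by ring
  -- symmetry
  have hsym : ∀ κ c : ℝ, ∫ b, pe κ c 0 b ∂μ = ∫ b, pe κ (-c) 0 b ∂μ := by
    intro κ c
    have h6 := (h3 μ hμ).2
    have hsc : Continuous (fun b : Lo => star b) := continuous_star
    conv_lhs => rw [← h6]
    rw [integral_map hsc.measurable.aemeasurable (hcont κ c 0).aestronglyMeasurable]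
    refine integral_congr_ae (Eventually.of_forall fun b => ?_)
    exact hstar κ c 0 b
  have hmain : ∀ κ c : ℝ, (∫ b, pe κ c 0 b ∂μ) - ∫ b, pe κ 0 0 b ∂μ =
      |c| / 2 * ∫ b, (pe κ c 0 b + pe κ (-c) 0 b - 2 * pe κ 0 0 b) / |c| ∂μ := by
    intro κ c
    by_cases hc0 : c = 0
    · subst hc0
      simp
    have hc1 : |c| ≠ 0 := abs_ne_zero.2 hc0
    have hI : ∫ b, (pe κ c 0 b + pe κ (-c) 0 b - 2 * pe κ 0 0 b) ∂μ =
        (∫ b, pe κ c 0 b ∂μ) + (∫ b, pe κ (-c) 0 b ∂μ) - 2 * ∫ b, pe κ 0 0 b ∂μ := by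
      rw [integral_sub (f := fun b => pe κ c 0 b + pe κ (-c) 0 b)
        ((hint κ c 0).1.add (hint κ (-c) 0).1) ((hint κ 0 0).1.const_mul 2),
        integral_add (hint κ c 0).1 (hint κ (-c) 0).1, integral_const_mul]
    rw [integral_div, hI, ← hsym κ c]
    field_simp
    ring
  refine ⟨C, fun ε hε => ?_⟩
  rw [Metric.tendsto_nhds_nhds] at hlim
  obtain ⟨δ, hδ, hlim'⟩ := hlim ε hε
  refine ⟨min (min δ 1) (ε / (2 * (C' + 1))), lt_min (lt_min hδ one_pos)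
    (div_pos hε (by positivity)), ?_⟩
  intro κ c d hκ hc1 hd1
  have hκ1 : |κ| < δ := hκ.trans_le ((min_le_left _ _).trans (min_le_left _ _))
  have hκ2 : |κ| < 1 := hκ.trans_le ((min_le_left _ _).trans (min_le_right _ _))
  have hκ3 : |κ| < ε / (2 * (C' + 1)) := hκ.trans_le (min_le_right _ _)
  have hc2 : |c| < δ := hc1.trans_le ((min_le_left _ _).trans (min_le_left _ _))
  have hc3 : |c| < 1 := hc1.trans_le ((min_le_left _ _).trans (min_le_right _ _))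
  have hd2 : |d| < 1 := hd1.trans_le ((min_le_left _ _).trans (min_le_right _ _))
  have hA := hd κ c d hκ2.le hc3.le hd2.le
  have hB := hc κ c hκ2.le hc3.le
  have hL := @hlim' (κ, c) (by
    rw [Prod.dist_eq, max_lt_iff]
    simp only [Real.dist_eq, sub_zero]
    exact ⟨hκ1, hc2⟩)
  simp only [Real.dist_eq, sub_zero] at hL
  have hsplit : Gf μ κ c 0 - Gf μ κ 0 0 =
      |c| / 2 * (∫ b, (pe κ c 0 b + pe κ (-c) 0 b - 2 * pe κ 0 0 b) / |c| ∂μ) -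
        ∫ b, κ / 2 * (pe κ c 0 b ^ 2 - pe κ 0 0 b ^ 2) ∂μ := by
    rw [← hmain, Gf, Gf, integral_sub (hint κ c 0).1 ((hint κ c 0).2.const_mul _),
      integral_sub (hint κ 0 0).1 ((hint κ 0 0).2.const_mul _), integral_const_mul,
      integral_const_mul, integral_const_mul, integral_sub (hint κ c 0).2 (hint κ 0 0).2]
    ring
  have hE : |Gf μ κ c 0 - Gf μ κ 0 0| ≤ ε * |c| := by
    rw [hsplit]
    have q1 : |(|c| / 2 * (∫ b, (pe κ c 0 b + pe κ (-c) 0 b - 2 * pe κ 0 0 b) / |c| ∂μ))| ≤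
        |c| / 2 * ε := by
      rw [abs_mul, abs_div, abs_abs, abs_two]
      exact mul_le_mul_of_nonneg_left hL.le (by positivity)
    have q2 : |κ| * |c| * C' ≤ |c| * (ε / 2) := by
      have q3 : |κ| * C' ≤ ε / 2 := by
        calc |κ| * C' ≤ ε / (2 * (C' + 1)) * C' := mul_le_mul_of_nonneg_right hκ3.le hC'0
          _ ≤ ε / 2 := by
            rw [div_mul_eq_mul_div, div_le_div_iff₀ (by positivity) (by norm_num)]
            nlinarith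
      calc |κ| * |c| * C' = |c| * (|κ| * C') := by ring
        _ ≤ |c| * (ε / 2) := mul_le_mul_of_nonneg_left q3 (abs_nonneg _)
    refine (abs_sub _ _).trans ?_
    linarith
  have hF : Gf μ κ c d - Gf μ κ 0 0 = (Gf μ κ c d - Gf μ κ c 0) + (Gf μ κ c 0 - Gf μ κ 0 0) := by
    ring
  rw [hF]
  refine (abs_add_le _ _).trans ?_
  linarith

end Pool.Agent.H212AN
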