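import Pool.Agent.H212AN.D1

set_option autoImplicit false

namespace Pool.Agent.H212AN

open MeasureTheory Set Filter Topology Metric
open Pool.Agent.H212AN.G (nG PG gm)
open scoped Real ENNReal

/-- the radial function in direction `-1` -/
noncomputable def pf_Gm_e (R : ℝ) (b : Lo) : ℝ :=
  sSup ((fun k : ℂ => k.re - (R - √(R ^ 2 - k.im ^ 2))) '' rg b)

theorem pf_Gm_rg (f : ℂ → ℝ) (b : Lo) : f '' rg b = (fun t : unitInterval => f (b t)) '' univ := by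
  unfold rg
  rw [image_univ, ← range_comp]
  rfl

theorem pf_Gm_cont_en (R : ℝ) : Continuous (fun p : ℝ × Lo => en (rg p.2) R p.1) := by
  have h : (fun p : ℝ × Lo => en (rg p.2) R p.1) = fun p : ℝ × Lo =>
      sSup ((fun t : unitInterval => -yy p.1 (p.2 t) - (R - √(R ^ 2 - xx p.1 (p.2 t) ^ 2))) ''
        univ) := by
    funext p
    unfold en
    rw [pf_Gm_rg]
  rw [h]
  refine isCompact_univ.continuous_sSup (f := fun (p : ℝ × Lo) (t : unitInterval) =>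
    -yy p.1 (p.2 t) - (R - √(R ^ 2 - xx p.1 (p.2 t) ^ 2))) ?_
  unfold yy xx
  fun_prop

theorem pf_Gm_cont_e (R : ℝ) : Continuous (pf_Gm_e R) := by
  have h : pf_Gm_e R = fun b : Lo =>
      sSup ((fun t : unitInterval => (b t).re - (R - √(R ^ 2 - (b t).im ^ 2))) '' univ) := by
    funext p
    unfold pf_Gm_e
    rw [pf_Gm_rg]
  rw [h]
  refine isCompact_univ.continuous_sSup (f := fun (b : Lo) (t : unitInterval) =>
    (b t).re - (R - √(R ^ 2 - (b t).im ^ 2))) ?_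
  fun_prop

/-- the unit vector `-e^{-iθ}` -/
noncomputable def pf_Gm_c (θ : ℝ) : ℂ := ⟨-Real.cos θ, Real.sin θ⟩

theorem pf_Gm_norm_c (θ : ℝ) : ‖pf_Gm_c θ‖ = 1 := by
  have h : ‖pf_Gm_c θ‖ ^ 2 = 1 := by
    rw [← Complex.normSq_eq_norm_sq, Complex.normSq_apply, pf_Gm_c]
    have := Real.sin_sq_add_cos_sq θ
    nlinarith
  have h0 := norm_nonneg (pf_Gm_c θ)
  nlinarith

theorem pf_Gm_en_eq (R θ : ℝ) (b : Lo) : en (rg b) R θ = pf_Gm_e R (pf_Gm_c θ • b) := by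
  unfold en pf_Gm_e
  rw [pf_Gm_rg, pf_Gm_rg]
  congr 2
  funext t
  have h1 : ((pf_Gm_c θ • b) t).re = -yy θ (b t) := by
    rw [ContinuousMap.smul_apply, smul_eq_mul, Complex.mul_re, pf_Gm_c, yy]
    ring
  have h2 : ((pf_Gm_c θ • b) t).im = -xx θ (b t) := by
    rw [ContinuousMap.smul_apply, smul_eq_mul, Complex.mul_im, pf_Gm_c, xx]
    ring
  rw [h1, h2]
  congr 3
  ring

theorem pf_Gm_sqrt0 {R : ℝ} (hR : 0 < R) (x : ℝ) : 0 ≤ R - √(R ^ 2 - x ^ 2) ∧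
    R - √(R ^ 2 - x ^ 2) ≤ R := by
  constructor
  · have : √(R ^ 2 - x ^ 2) ≤ R := by
      rw [Real.sqrt_le_left hR.le]
      nlinarith [sq_nonneg x]
    linarith
  · have := Real.sqrt_nonneg (R ^ 2 - x ^ 2)
    linarith

theorem pf_Gm_sqrt {R x : ℝ} (hR : 0 < R) (hx : |x| ≤ R / 4) :
    x ^ 2 / (2 * R) ≤ R - √(R ^ 2 - x ^ 2) ∧
      R - √(R ^ 2 - x ^ 2) ≤ x ^ 2 / (2 * R) + x ^ 4 / R ^ 3 := by
  obtain ⟨y, rfl⟩ : ∃ y, x = y * R := ⟨x / R, by field_simp⟩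
  have hy : |y| ≤ 1 / 4 := by
    rw [abs_mul, abs_of_pos hR] at hx
    have : |y| * R ≤ (1 / 4) * R := by linarith
    exact le_of_mul_le_mul_right this hR
  have hy2 : y ^ 2 ≤ 1 / 16 := by
    have h := abs_nonneg y
    have : |y| ^ 2 = y ^ 2 := sq_abs y
    nlinarith
  have hy0 : 0 ≤ y ^ 2 := sq_nonneg y
  have e1 : R ^ 2 - (y * R) ^ 2 = R ^ 2 * (1 - y ^ 2) := by ring
  have e2 : √(R ^ 2 * (1 - y ^ 2)) = R * √(1 - y ^ 2) := by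
    rw [Real.sqrt_mul (by positivity), Real.sqrt_sq hR.le]
  have e3 : (y * R) ^ 2 / (2 * R) = R * (y ^ 2 / 2) := by field_simp
  have e4 : (y * R) ^ 4 / R ^ 3 = R * y ^ 4 := by field_simp
  rw [e1, e2, e3, e4]
  have h1 : √(1 - y ^ 2) ≤ 1 - y ^ 2 / 2 := by
    rw [Real.sqrt_le_left (by linarith)]
    nlinarith
  have h2 : 1 - y ^ 2 / 2 - y ^ 4 ≤ √(1 - y ^ 2) := by
    apply Real.le_sqrt_of_sq_le
    have h3 : (1 - y ^ 2 / 2 - y ^ 4) ^ 2 = 1 - y ^ 2 - y ^ 4 * (7 / 4 - y ^ 2 - y ^ 4) := by ring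
    have h4 : y ^ 4 = (y ^ 2) ^ 2 := by ring
    have h5 : 0 ≤ y ^ 4 * (7 / 4 - y ^ 2 - y ^ 4) := by
      apply mul_nonneg (by positivity)
      rw [h4]
      nlinarith
    linarith
  constructor
  · nlinarith
  · nlinarith

theorem pf_Gm_norm (b : Lo) (t : unitInterval) : ‖b t‖ ≤ ‖b‖ := b.norm_coe_le_norm t

theorem pf_Gm_e_bdd {R : ℝ} (hR : 0 < R) (b : Lo) :
    BddAbove ((fun k : ℂ => k.re - (R - √(R ^ 2 - k.im ^ 2))) '' rg b) := by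
  refine ⟨‖b‖, ?_⟩
  rintro _ ⟨_, ⟨t, rfl⟩, rfl⟩
  have h1 := pf_Gm_norm b t
  have h2 := (Complex.re_le_norm (b t))
  have h3 := (pf_Gm_sqrt0 hR (b t).im).1
  simp only
  linarith

theorem pf_Gm_e_crude {R : ℝ} (hR : 0 < R) (b : Lo) : |pf_Gm_e R b| ≤ ‖b‖ + R := by
  have hb := pf_Gm_e_bdd hR b
  rw [abs_le]
  constructor
  · have h1 : (b 0).re - (R - √(R ^ 2 - (b 0).im ^ 2)) ≤ pf_Gm_e R b :=
      le_csSup hb ⟨b 0, ⟨0, rfl⟩, rfl⟩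
    have h2 := (pf_Gm_sqrt0 hR (b 0).im).2
    have h3 := Complex.abs_re_le_norm (b 0)
    have h4 := pf_Gm_norm b 0
    have h5 := (abs_le.1 (h3.trans h4)).1
    linarith
  · refine csSup_le ⟨_, ⟨b 0, ⟨0, rfl⟩, rfl⟩⟩ ?_
    rintro _ ⟨_, ⟨t, rfl⟩, rfl⟩
    have h1 := pf_Gm_norm b t
    have h2 := (Complex.re_le_norm (b t))
    have h3 := (pf_Gm_sqrt0 hR (b t).im).1
    simp only
    linarith

/-- comparison of `e` and `pe` -/
theorem pf_Gm_cmp (hpe : S_pe) {R : ℝ} {b : Lo} (hR : 4 * (‖b‖ + 1) < R) :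
    |pf_Gm_e R b - pe (-R⁻¹) 0 0 b| ≤ ‖b‖ ^ 4 / R ^ 3 := by
  have hb0 := norm_nonneg b
  have hR0 : 0 < R := by linarith
  obtain ⟨-, h2, -⟩ := hpe
  obtain ⟨⟨t, ht⟩, h3⟩ := h2 (-R⁻¹) 0 0 b
  have him : ∀ t, |(b t).im| ≤ R / 4 := by
    intro t
    have h1 := pf_Gm_norm b t
    have h2 := Complex.abs_im_le_norm (b t)
    linarith
  have him4 : ∀ t, (b t).im ^ 4 / R ^ 3 ≤ ‖b‖ ^ 4 / R ^ 3 := by
    intro t
    apply div_le_div_of_nonneg_right _ (by positivity)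
    have h2 := (Complex.abs_im_le_norm (b t)).trans (pf_Gm_norm b t)
    have h5 : (b t).im ^ 4 = |(b t).im| ^ 4 := by
      rw [← abs_pow, abs_of_nonneg (by positivity)]
    rw [h5]
    exact pow_le_pow_left₀ (abs_nonneg _) h2 4
  have e1 : ∀ t, (b t).re + -R⁻¹ / 2 * (b t).im ^ 2 + 0 * (b t).im ^ 3 + 0 * (b t).im ^ 4 =
      (b t).re - (b t).im ^ 2 / (2 * R) := by
    intro t
    field_simp
    ring
  have hE : 0 ≤ ‖b‖ ^ 4 / R ^ 3 := by positivity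
  rw [abs_le]
  constructor
  · have h4 : (b t).re - (R - √(R ^ 2 - (b t).im ^ 2)) ≤ pf_Gm_e R b :=
      le_csSup (pf_Gm_e_bdd hR0 b) ⟨b t, ⟨t, rfl⟩, rfl⟩
    have h5 := (pf_Gm_sqrt hR0 (him t)).2
    have h6 := him4 t
    rw [ht, e1]
    linarith
  · have h4 : pf_Gm_e R b ≤ pe (-R⁻¹) 0 0 b := by
      refine csSup_le ⟨_, ⟨b 0, ⟨0, rfl⟩, rfl⟩⟩ ?_
      rintro _ ⟨_, ⟨t, rfl⟩, rfl⟩
      have h5 := (pf_Gm_sqrt hR0 (him t)).1
      have h6 := h3 t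
      rw [e1] at h6
      simp only
      linarith
    linarith

/-- the paths to which the expansion applies -/
def pf_Gm_A (R : ℝ) : Set Lo := {b | 4 * (‖b‖ + 1) < R}

theorem pf_Gm_A_meas (R : ℝ) : MeasurableSet (pf_Gm_A R) := by
  have h : IsOpen {b : Lo | 4 * (‖b‖ + 1) < R} := isOpen_lt (by fun_prop) continuous_const
  exact h.measurableSet

theorem pf_Gm_norm_smul (θ : ℝ) (b : Lo) : ‖pf_Gm_c θ • b‖ = ‖b‖ := by
  rw [norm_smul, pf_Gm_norm_c, one_mul]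

theorem pf_Gm_rot (h6 : S_rot) {μ : Measure Lo} (hμ : IsLoop μ) (R θ : ℝ) :
    ∫ b in pf_Gm_A R, (R + en (rg b) R θ) ^ 2 ∂μ =
      ∫ b in pf_Gm_A R, (R + pf_Gm_e R b) ^ 2 ∂μ := by
  have hmap := (h6 μ hμ).1 (pf_Gm_c θ) (pf_Gm_norm_c θ)
  have hT : Continuous (fun b : Lo => pf_Gm_c θ • b) := by fun_prop
  have hc : Continuous (fun b : Lo => (R + pf_Gm_e R b) ^ 2) :=
    (continuous_const.add (pf_Gm_cont_e R)).pow 2
  have h1 : ∫ b in pf_Gm_A R, (R + pf_Gm_e R b) ^ 2 ∂μ =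
      ∫ b in pf_Gm_A R, (R + pf_Gm_e R b) ^ 2 ∂(μ.map (fun b => pf_Gm_c θ • b)) := by
    rw [hmap]
  rw [h1, setIntegral_map (pf_Gm_A_meas R) hc.aestronglyMeasurable hT.measurable.aemeasurable]
  have h2 : (fun b : Lo => pf_Gm_c θ • b) ⁻¹' pf_Gm_A R = pf_Gm_A R := by
    ext b
    simp only [mem_preimage, pf_Gm_A, mem_ofPred_eq, pf_Gm_norm_smul]
  rw [h2]
  simp only [pf_Gm_en_eq]

theorem pf_Gm_mom (h5 : S_mom) {μ : Measure Lo} (hμ : IsLoop μ) (n : ℕ) :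
    Integrable (fun b : Lo => (‖b‖ + 1) ^ n) μ := by
  have hp := hμ.prob
  have h : (fun b : Lo => (‖b‖ + 1) ^ n) =
      fun b : Lo => ∑ m ∈ Finset.range (n + 1), ‖b‖ ^ m * 1 ^ (n - m) * (n.choose m : ℝ) := by
    funext b
    rw [add_pow]
  rw [h]
  refine integrable_finsetSum _ fun m _ => ?_
  exact ((h5 μ hμ m).mul_const _).mul_const _

theorem pf_Gm_sq_int (h5 : S_mom) {μ : Measure Lo} (hμ : IsLoop μ) (R : ℝ) :
    Integrable (fun b : Lo => (‖b‖ + 2 * R) ^ 2) μ := by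
  have hp := hμ.prob
  have h : (fun b : Lo => (‖b‖ + 2 * R) ^ 2) =
      fun b : Lo => ‖b‖ ^ 2 + (4 * R) * ‖b‖ ^ 1 + 4 * R ^ 2 := by
    funext b
    ring
  rw [h]
  exact ((h5 μ hμ 2).add ((h5 μ hμ 1).const_mul _)).add (integrable_const _)

theorem pf_Gm_good {b : Lo} (hb : b 0 = 0) : Good (rg b) (‖b‖ + 1) := by
  refine ⟨isCompact_range b.continuous, ⟨0, hb⟩, ?_⟩
  rintro _ ⟨t, rfl⟩
  rw [mem_closedBall_zero_iff]
  linarith [pf_Gm_norm b t]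

theorem pf_Gm_fub (h4 : S_pl) (h5 : S_mom) (h6 : S_rot) (h7 : S_end) {μ : Measure Lo}
    (hμ : IsLoop μ) {R : ℝ} (hR : 0 < R) :
    Integrable (fun b => UK (rg b) R) (μ.restrict (pf_Gm_A R)) ∧
    ∫ b in pf_Gm_A R, UK (rg b) R ∂μ = π * ∫ b in pf_Gm_A R, (R + pf_Gm_e R b) ^ 2 ∂μ := by
  have hp := hμ.prob
  have e0 : ∀ᵐ b ∂μ, b ∈ pf_Gm_A R → UK (rg b) R =
      (1 / 2) * (∫ θ in Ioc 0 (2 * π), (R + en (rg b) R θ) ^ 2) := by
    filter_upwards [h7 μ hμ] with b hb hbA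
    have h := (h4 (rg b) (‖b‖ + 1) R (pf_Gm_good hb.1) (by positivity) hbA).2
    rw [h, intervalIntegral.integral_of_le (by positivity)]
  have e1 : ∫ b in pf_Gm_A R, UK (rg b) R ∂μ =
      ∫ b in pf_Gm_A R, (1 / 2) * (∫ θ in Ioc 0 (2 * π), (R + en (rg b) R θ) ^ 2) ∂μ := by
    exact setIntegral_congr_ae (pf_Gm_A_meas R) e0
  have hint : Integrable (Function.uncurry (fun (b : Lo) (θ : ℝ) => (R + en (rg b) R θ) ^ 2))
      ((μ.restrict (pf_Gm_A R)).prod (volume.restrict (Ioc 0 (2 * π)))) := by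
    have hb : Integrable (fun p : Lo × ℝ => (‖p.1‖ + 2 * R) ^ 2)
        ((μ.restrict (pf_Gm_A R)).prod (volume.restrict (Ioc 0 (2 * π)))) :=
      Integrable.comp_fst ((pf_Gm_sq_int h5 hμ R).restrict) _
    refine hb.mono' ?_ ?_
    · have h1 : Continuous (fun p : Lo × ℝ => (R + en (rg p.1) R p.2) ^ 2) :=
        (continuous_const.add ((pf_Gm_cont_en R).comp continuous_swap)).pow 2
      exact h1.aestronglyMeasurable
    · refine Eventually.of_forall ?_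
      rintro ⟨b, θ⟩
      simp only [Function.uncurry_apply_pair]
      rw [Real.norm_eq_abs, abs_pow]
      refine pow_le_pow_left₀ (abs_nonneg _) ?_ 2
      have h2 := pf_Gm_e_crude hR (pf_Gm_c θ • b)
      rw [← pf_Gm_en_eq, pf_Gm_norm_smul] at h2
      calc |R + en (rg b) R θ| ≤ |R| + |en (rg b) R θ| := abs_add_le _ _
        _ ≤ R + (‖b‖ + R) := by rw [abs_of_pos hR]; linarith
        _ = ‖b‖ + 2 * R := by ring
  refine ⟨(hint.integral_prod_left.const_mul (1 / 2)).congr ?_, ?_⟩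
  · rw [Filter.EventuallyEq, ae_restrict_iff' (pf_Gm_A_meas R)]
    filter_upwards [e0] with b hb hbA
    exact (hb hbA).symm
  rw [e1, integral_const_mul, integral_integral_swap hint]
  simp only [pf_Gm_rot h6 hμ]
  rw [setIntegral_const, smul_eq_mul]
  have hv : (volume : Measure ℝ).real (Ioc 0 (2 * π)) = 2 * π := by
    rw [Measure.real, Real.volume_Ioc, sub_zero, ENNReal.toReal_ofReal (by positivity)]
  rw [hv]
  ring

theorem pf_Gm_e_int (h5 : S_mom) {μ : Measure Lo} (hμ : IsLoop μ) {R : ℝ} (hR : 0 < R) :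
    Integrable (pf_Gm_e R) μ ∧ Integrable (fun b => pf_Gm_e R b ^ 2) μ := by
  have hp := hμ.prob
  constructor
  · have h1 : Integrable (fun b : Lo => ‖b‖ ^ 1 + R) μ := (h5 μ hμ 1).add (integrable_const _)
    refine h1.mono' (pf_Gm_cont_e R).aestronglyMeasurable (Eventually.of_forall fun b => ?_)
    have := pf_Gm_e_crude hR b
    rw [Real.norm_eq_abs, pow_one]
    exact this
  · refine (pf_Gm_sq_int h5 hμ R).mono' ((pf_Gm_cont_e R).pow 2).aestronglyMeasurable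
      (Eventually.of_forall fun b => ?_)
    have := pf_Gm_e_crude hR b
    rw [Real.norm_eq_abs, abs_pow]
    exact pow_le_pow_left₀ (abs_nonneg _) (by linarith) 2

/-- the normalised remainder in the area of the dilated disc -/
noncomputable def pf_Gm_X (R : ℝ) (b : Lo) : ℝ :=
  R * ((π * R ^ 2 + R * per (rg b) + ar2 (rg b)) - UK (rg b) R)

theorem pf_Gm_key (h4 : S_pl) (h5 : S_mom) (h6 : S_rot) (h7 : S_end) (h8 : S_int)
    {μ : Measure Lo} (hμ : IsLoop μ) {R : ℝ} (hR : 0 < R) :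
    Integrable (pf_Gm_X R) (μ.restrict (pf_Gm_A R)) ∧
    ∫ b in pf_Gm_A R, pf_Gm_X R b ∂μ =
      R * (R * (∫ b in pf_Gm_A R, per (rg b) ∂μ) + (∫ b in pf_Gm_A R, ar2 (rg b) ∂μ) -
        π * (2 * R * (∫ b in pf_Gm_A R, pf_Gm_e R b ∂μ) +
          ∫ b in pf_Gm_A R, pf_Gm_e R b ^ 2 ∂μ)) := by
  have hp := hμ.prob
  obtain ⟨i1, e1⟩ := pf_Gm_fub h4 h5 h6 h7 hμ hR
  obtain ⟨j1, j2⟩ := pf_Gm_e_int h5 hμ hR
  obtain ⟨k1, k2, -⟩ := h8 μ hμ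
  have j1' : Integrable (pf_Gm_e R) (μ.restrict (pf_Gm_A R)) := j1.restrict
  have j2' : Integrable (fun b => pf_Gm_e R b ^ 2) (μ.restrict (pf_Gm_A R)) := j2.restrict
  have k1' : Integrable (fun b => per (rg b)) (μ.restrict (pf_Gm_A R)) := k1.restrict
  have k2' : Integrable (fun b => ar2 (rg b)) (μ.restrict (pf_Gm_A R)) := k2.restrict
  have c1 : Integrable (fun _ : Lo => π * R ^ 2) (μ.restrict (pf_Gm_A R)) := integrable_const _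
  have c2 : Integrable (fun _ : Lo => R ^ 2) (μ.restrict (pf_Gm_A R)) := integrable_const _
  have hX : Integrable (pf_Gm_X R) (μ.restrict (pf_Gm_A R)) :=
    (((c1.add (k1'.const_mul R)).add k2').sub i1).const_mul R
  refine ⟨hX, ?_⟩
  have a1 : ∫ b in pf_Gm_A R, pf_Gm_X R b ∂μ =
      R * ((∫ b in pf_Gm_A R, π * R ^ 2 ∂μ) + R * (∫ b in pf_Gm_A R, per (rg b) ∂μ) +
        (∫ b in pf_Gm_A R, ar2 (rg b) ∂μ) - ∫ b in pf_Gm_A R, UK (rg b) R ∂μ) := by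
    unfold pf_Gm_X
    have d0 : Integrable (fun b : Lo => R * per (rg b)) (μ.restrict (pf_Gm_A R)) :=
      k1'.const_mul R
    have d1 : Integrable (fun b : Lo => π * R ^ 2 + R * per (rg b)) (μ.restrict (pf_Gm_A R)) :=
      c1.add d0
    have d2 : Integrable (fun b : Lo => π * R ^ 2 + R * per (rg b) + ar2 (rg b))
      (μ.restrict (pf_Gm_A R)) := d1.add k2'
    rw [integral_const_mul, integral_sub d2 i1, integral_add d1 k2', integral_add c1 d0,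
      integral_const_mul, integral_const_mul]
  have a2 : ∫ b in pf_Gm_A R, (R + pf_Gm_e R b) ^ 2 ∂μ =
      (∫ b in pf_Gm_A R, R ^ 2 ∂μ) + 2 * R * (∫ b in pf_Gm_A R, pf_Gm_e R b ∂μ) +
        ∫ b in pf_Gm_A R, pf_Gm_e R b ^ 2 ∂μ := by
    have : (fun b : Lo => (R + pf_Gm_e R b) ^ 2) =
        fun b => R ^ 2 + 2 * R * pf_Gm_e R b + pf_Gm_e R b ^ 2 := by
      funext b
      ring
    have d0 : Integrable (fun b : Lo => 2 * R * pf_Gm_e R b) (μ.restrict (pf_Gm_A R)) :=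
      j1'.const_mul _
    have d1 : Integrable (fun b : Lo => R ^ 2 + 2 * R * pf_Gm_e R b) (μ.restrict (pf_Gm_A R)) :=
      c2.add d0
    rw [this, integral_add d1 j2', integral_add c2 d0, integral_const_mul]
  have a3 : ∫ b in pf_Gm_A R, π * R ^ 2 ∂μ = π * ∫ b in pf_Gm_A R, R ^ 2 ∂μ :=
    integral_const_mul _ _
  rw [a1, e1, a2, a3]
  ring

theorem pf_Gm_per (h1 : S_hs) (b : Lo) : |per (rg b)| ≤ 2 * π * (‖b‖ + 1) ∧
    |ar2 (rg b)| ≤ π * (‖b‖ + 1) ^ 2 := by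
  have hsub : rg b ⊆ closedBall 0 (‖b‖ + 1) := by
    rintro _ ⟨t, rfl⟩
    rw [mem_closedBall_zero_iff]
    linarith [pf_Gm_norm b t]
  obtain ⟨-, -, h2, h3, -⟩ := h1 (rg b) (‖b‖ + 1) (isCompact_range b.continuous)
    (range_nonempty _) hsub
  have hρ : 0 ≤ ‖b‖ + 1 := by positivity
  constructor
  · have h := intervalIntegral.norm_integral_le_of_norm_le_const (a := 0) (b := 2 * π)
      (f := hs (rg b)) (C := ‖b‖ + 1) (fun θ _ => h2 θ)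
    rw [Real.norm_eq_abs, sub_zero, abs_of_nonneg (by positivity : (0:ℝ) ≤ 2 * π)] at h
    unfold per
    linarith
  · have h := intervalIntegral.norm_integral_le_of_norm_le_const (a := 0) (b := 2 * π)
      (f := fun θ => hs (rg b) θ ^ 2 - deriv (hs (rg b)) θ ^ 2) (C := (‖b‖ + 1) ^ 2)
      (fun θ _ => ?_)
    · rw [Real.norm_eq_abs, sub_zero, abs_of_nonneg (by positivity : (0:ℝ) ≤ 2 * π)] at h
      unfold ar2
      rw [abs_mul, abs_of_pos (by norm_num : (0:ℝ) < 1 / 2)]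
      linarith
    · have h4 := norm_deriv_le_of_lipschitz (x₀ := θ) h3
      rw [Real.coe_toNNReal _ hρ, Real.norm_eq_abs] at h4
      have h5 : deriv (hs (rg b)) θ ^ 2 ≤ (‖b‖ + 1) ^ 2 := by
        rw [← sq_abs]
        exact pow_le_pow_left₀ (abs_nonneg _) h4 2
      have h6 : hs (rg b) θ ^ 2 ≤ (‖b‖ + 1) ^ 2 := by
        rw [← sq_abs]
        exact pow_le_pow_left₀ (abs_nonneg _) (h2 θ) 2
      rw [Real.norm_eq_abs, abs_le]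
      constructor <;> nlinarith [sq_nonneg (deriv (hs (rg b)) θ), sq_nonneg (hs (rg b) θ)]

/-- the local functional -/
noncomputable def pf_Gm_g (κ x : ℝ) : ℝ := x - κ / 2 * x ^ 2

/-- the error -/
noncomputable def pf_Gm_h (R : ℝ) (b : Lo) : ℝ :=
  pf_Gm_g (-R⁻¹) (pe (-R⁻¹) 0 0 b) - (pf_Gm_A R).indicator (fun b => pf_Gm_g (-R⁻¹) (pf_Gm_e R b)) b
    - (pf_Gm_A R)ᶜ.indicator
      (fun b => (2 * π)⁻¹ * per (rg b) - (-R⁻¹) * ((2 * π)⁻¹ * ar2 (rg b))) b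

theorem pf_Gm_h_bd (h1 : S_hs) (h9 : S_pe) {R : ℝ} (hR : 1 ≤ R) (b : Lo) :
    |pf_Gm_h R b| ≤ 384 * (‖b‖ + 1) ^ 7 / R ^ 3 := by
  have hR0 : 0 < R := by linarith
  set ρ := ‖b‖ + 1 with hρ
  have hρ1 : 1 ≤ ρ := by have := norm_nonneg b; linarith
  have hn : ‖b‖ ≤ ρ := by linarith
  have hn0 := norm_nonneg b
  have hRi : R⁻¹ ≤ 1 := inv_le_one_of_one_le₀ hR
  have hRi0 : 0 < R⁻¹ := inv_pos.2 hR0
  have hpe := h9.2.2.1 (-R⁻¹) 0 0 b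
  rw [abs_neg, abs_of_pos hRi0, abs_zero, zero_mul, zero_mul, add_zero, add_zero] at hpe
  by_cases hb : b ∈ pf_Gm_A R
  · have hb' : 4 * ρ < R := hb
    unfold pf_Gm_h
    rw [indicator_of_mem hb, indicator_of_notMem (by simpa using hb), sub_zero]
    have hcmp := pf_Gm_cmp h9 hb'
    set x := pe (-R⁻¹) 0 0 b
    set y := pf_Gm_e R b
    have hRρ : R⁻¹ * (4 * ρ) ≤ 1 := by
      rw [inv_mul_le_iff₀ hR0]
      linarith
    have hx : |x| ≤ 2 * ρ := by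
      have : R⁻¹ * ‖b‖ ^ 2 ≤ ρ := by
        have h2 : ‖b‖ ^ 2 ≤ ρ ^ 2 := pow_le_pow_left₀ hn0 hn 2
        nlinarith
      linarith
    have hE : ‖b‖ ^ 4 / R ^ 3 ≤ ρ := by
      rw [div_le_iff₀ (by positivity)]
      have h2 : ‖b‖ ^ 4 ≤ ρ ^ 4 := pow_le_pow_left₀ hn0 hn 4
      have h3 : ρ ^ 3 ≤ R ^ 3 := pow_le_pow_left₀ (by linarith) (by linarith) 3
      calc ‖b‖ ^ 4 ≤ ρ ^ 4 := h2
        _ = ρ * ρ ^ 3 := by ring
        _ ≤ ρ * R ^ 3 := by gcongr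
    have hy : |y| ≤ 3 * ρ := by
      have : |y| ≤ |y - x| + |x| := by
        have := abs_add_le (y - x) x
        rwa [sub_add_cancel] at this
      linarith
    have e1 : pf_Gm_g (-R⁻¹) x - pf_Gm_g (-R⁻¹) y = (x - y) * (1 + R⁻¹ / 2 * (x + y)) := by
      unfold pf_Gm_g
      ring
    have h2 : |1 + R⁻¹ / 2 * (x + y)| ≤ 2 := by
      have h3 : |R⁻¹ / 2 * (x + y)| ≤ 1 := by
        rw [abs_mul, abs_of_pos (by positivity)]
        have h4 : |x + y| ≤ 5 * ρ := (abs_add_le _ _).trans (by linarith)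
        have h5 : R⁻¹ / 2 * |x + y| ≤ R⁻¹ / 2 * (5 * ρ) := by gcongr
        linarith
      calc |1 + R⁻¹ / 2 * (x + y)| ≤ |1| + |R⁻¹ / 2 * (x + y)| := abs_add_le _ _
        _ ≤ 2 := by rw [abs_one]; linarith
    rw [e1, abs_mul, abs_sub_comm x y]
    have h6 : ‖b‖ ^ 4 ≤ ρ ^ 7 := by
      calc ‖b‖ ^ 4 ≤ ρ ^ 4 := pow_le_pow_left₀ hn0 hn 4
        _ ≤ ρ ^ 7 := pow_le_pow_right₀ hρ1 (by norm_num)
    calc |y - x| * |1 + R⁻¹ / 2 * (x + y)| ≤ (‖b‖ ^ 4 / R ^ 3) * 2 := by gcongr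
      _ = 2 * ‖b‖ ^ 4 / R ^ 3 := by ring
      _ ≤ 384 * ρ ^ 7 / R ^ 3 := by
        apply div_le_div_of_nonneg_right _ (by positivity)
        have : 0 ≤ ρ ^ 7 := by positivity
        linarith
  · have hb' : R ≤ 4 * ρ := not_lt.1 hb
    unfold pf_Gm_h
    rw [indicator_of_notMem hb, indicator_of_mem (by simpa using hb), sub_zero]
    set x := pe (-R⁻¹) 0 0 b
    have h2 : 1 ≤ 64 * ρ ^ 3 / R ^ 3 := by
      rw [one_le_div (by positivity)]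
      calc R ^ 3 ≤ (4 * ρ) ^ 3 := pow_le_pow_left₀ hR0.le hb' 3
        _ = 64 * ρ ^ 3 := by ring
    have hx : |x| ≤ 2 * ρ ^ 2 := by
      have h3 : R⁻¹ * ‖b‖ ^ 2 ≤ ρ ^ 2 := by
        have h4 : ‖b‖ ^ 2 ≤ ρ ^ 2 := pow_le_pow_left₀ hn0 hn 2
        calc R⁻¹ * ‖b‖ ^ 2 ≤ 1 * ρ ^ 2 := by gcongr
          _ = ρ ^ 2 := one_mul _
      nlinarith
    have hg : |pf_Gm_g (-R⁻¹) x| ≤ 4 * ρ ^ 4 := by
      have e1 : pf_Gm_g (-R⁻¹) x = x + R⁻¹ / 2 * x ^ 2 := by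
        unfold pf_Gm_g
        ring
      have h3 : |R⁻¹ / 2 * x ^ 2| ≤ 2 * ρ ^ 4 := by
        rw [abs_of_nonneg (by positivity)]
        have h4 : x ^ 2 ≤ (2 * ρ ^ 2) ^ 2 := by
          rw [← sq_abs]
          exact pow_le_pow_left₀ (abs_nonneg _) hx 2
        calc R⁻¹ / 2 * x ^ 2 ≤ 1 / 2 * (2 * ρ ^ 2) ^ 2 := by gcongr
          _ = 2 * ρ ^ 4 := by ring
      rw [e1]
      have h5 : ρ ^ 2 ≤ ρ ^ 4 := pow_le_pow_right₀ hρ1 (by norm_num)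
      calc |x + R⁻¹ / 2 * x ^ 2| ≤ |x| + |R⁻¹ / 2 * x ^ 2| := abs_add_le _ _
        _ ≤ 4 * ρ ^ 4 := by linarith
    obtain ⟨hp1, hp2⟩ := pf_Gm_per h1 b
    have hπ : 0 < (2 * π)⁻¹ := by positivity
    have hp3 : |(2 * π)⁻¹ * per (rg b)| ≤ ρ ^ 4 := by
      rw [abs_mul, abs_of_pos hπ]
      have h5 : ρ ≤ ρ ^ 4 := by
        calc ρ = ρ ^ 1 := (pow_one _).symm
          _ ≤ ρ ^ 4 := pow_le_pow_right₀ hρ1 (by norm_num)
      calc (2 * π)⁻¹ * |per (rg b)| ≤ (2 * π)⁻¹ * (2 * π * ρ) := by gcongr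
        _ = ρ := by field_simp
        _ ≤ ρ ^ 4 := h5
    have hp4 : |(-R⁻¹) * ((2 * π)⁻¹ * ar2 (rg b))| ≤ ρ ^ 4 := by
      rw [abs_mul, abs_mul, abs_neg, abs_of_pos hπ, abs_of_pos hRi0]
      have h5 : ρ ^ 2 ≤ ρ ^ 4 := pow_le_pow_right₀ hρ1 (by norm_num)
      calc R⁻¹ * ((2 * π)⁻¹ * |ar2 (rg b)|) ≤ 1 * ((2 * π)⁻¹ * (π * ρ ^ 2)) := by gcongr
        _ = ρ ^ 2 / 2 := by field_simp
        _ ≤ ρ ^ 4 := by nlinarith [sq_nonneg ρ]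
    have h7 : |pf_Gm_g (-R⁻¹) x - ((2 * π)⁻¹ * per (rg b) - (-R⁻¹) * ((2 * π)⁻¹ * ar2 (rg b)))| ≤
        6 * ρ ^ 4 := by
      rw [abs_le] at *
      constructor <;> linarith [hg.1, hg.2, hp3.1, hp3.2, hp4.1, hp4.2]
    calc |pf_Gm_g (-R⁻¹) x - ((2 * π)⁻¹ * per (rg b) - (-R⁻¹) * ((2 * π)⁻¹ * ar2 (rg b)))|
        ≤ 6 * ρ ^ 4 * 1 := by rw [mul_one]; exact h7
      _ ≤ 6 * ρ ^ 4 * (64 * ρ ^ 3 / R ^ 3) := by gcongr
      _ = 384 * ρ ^ 7 / R ^ 3 := by ring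

theorem pf_Gm_pe_cont (h9 : S_pe) (κ : ℝ) : Continuous (fun b : Lo => pe κ 0 0 b) :=
  h9.1.comp ((continuous_const (y := ((κ, 0, 0) : ℝ × ℝ × ℝ))).prodMk continuous_id)

theorem pf_Gm_g_bd (h9 : S_pe) {R : ℝ} (hR : 1 ≤ R) (b : Lo) :
    |pf_Gm_g (-R⁻¹) (pe (-R⁻¹) 0 0 b)| ≤ 4 * (‖b‖ + 1) ^ 4 := by
  have hR0 : 0 < R := by linarith
  set ρ := ‖b‖ + 1 with hρ
  have hρ1 : 1 ≤ ρ := by have := norm_nonneg b; linarith
  have hn : ‖b‖ ≤ ρ := by linarith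
  have hn0 := norm_nonneg b
  have hRi : R⁻¹ ≤ 1 := inv_le_one_of_one_le₀ hR
  have hRi0 : 0 < R⁻¹ := inv_pos.2 hR0
  have hpe := h9.2.2.1 (-R⁻¹) 0 0 b
  rw [abs_neg, abs_of_pos hRi0, abs_zero, zero_mul, zero_mul, add_zero, add_zero] at hpe
  set x := pe (-R⁻¹) 0 0 b
  have hx : |x| ≤ 2 * ρ ^ 2 := by
    have h3 : R⁻¹ * ‖b‖ ^ 2 ≤ ρ ^ 2 := by
      have h4 : ‖b‖ ^ 2 ≤ ρ ^ 2 := pow_le_pow_left₀ hn0 hn 2
      calc R⁻¹ * ‖b‖ ^ 2 ≤ 1 * ρ ^ 2 := by gcongr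
        _ = ρ ^ 2 := one_mul _
    nlinarith
  have e1 : pf_Gm_g (-R⁻¹) x = x + R⁻¹ / 2 * x ^ 2 := by
    unfold pf_Gm_g
    ring
  have h3 : |R⁻¹ / 2 * x ^ 2| ≤ 2 * ρ ^ 4 := by
    rw [abs_of_nonneg (by positivity)]
    have h4 : x ^ 2 ≤ (2 * ρ ^ 2) ^ 2 := by
      rw [← sq_abs]
      exact pow_le_pow_left₀ (abs_nonneg _) hx 2
    calc R⁻¹ / 2 * x ^ 2 ≤ 1 / 2 * (2 * ρ ^ 2) ^ 2 := by gcongr
      _ = 2 * ρ ^ 4 := by ring
  rw [e1]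
  have h5 : ρ ^ 2 ≤ ρ ^ 4 := pow_le_pow_right₀ hρ1 (by norm_num)
  calc |x + R⁻¹ / 2 * x ^ 2| ≤ |x| + |R⁻¹ / 2 * x ^ 2| := abs_add_le _ _
    _ ≤ 4 * ρ ^ 4 := by linarith

theorem pf_Gm_int_h (h4 : S_pl) (h5 : S_mom) (h6 : S_rot) (h7 : S_end) (h8 : S_int)
    (h9 : S_pe) {μ : Measure Lo} (hμ : IsLoop μ) {R : ℝ} (hR : 1 ≤ R) :
    ∫ b, pf_Gm_h R b ∂μ = Gf μ (-R⁻¹) 0 0 - m0 μ + m1 μ * (-R⁻¹) +
      (2 * π)⁻¹ * R⁻¹ ^ 2 * ∫ b in pf_Gm_A R, pf_Gm_X R b ∂μ := by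
  have hR0 : 0 < R := by linarith
  have hp := hμ.prob
  obtain ⟨-, e1⟩ := pf_Gm_key h4 h5 h6 h7 h8 hμ hR0
  obtain ⟨j1, j2⟩ := pf_Gm_e_int h5 hμ hR0
  obtain ⟨k1, k2, -⟩ := h8 μ hμ
  have hA := pf_Gm_A_meas R
  have i1 : Integrable (fun b => pf_Gm_g (-R⁻¹) (pe (-R⁻¹) 0 0 b)) μ := by
    refine ((pf_Gm_mom h5 hμ 4).const_mul 4).mono' ?_ (Eventually.of_forall fun b => ?_)
    · have hc := pf_Gm_pe_cont h9 (-R⁻¹)
      have : Continuous (fun b => pf_Gm_g (-R⁻¹) (pe (-R⁻¹) 0 0 b)) := by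
        unfold pf_Gm_g
        exact hc.sub ((hc.pow 2).const_mul _)
      exact this.aestronglyMeasurable
    · rw [Real.norm_eq_abs]
      exact pf_Gm_g_bd h9 hR b
  have i2 : Integrable (fun b => pf_Gm_g (-R⁻¹) (pf_Gm_e R b)) μ :=
    j1.sub (j2.const_mul _)
  have l1 : Integrable (fun b => (2 * π)⁻¹ * per (rg b)) μ := k1.const_mul _
  have l2 : Integrable (fun b => (-R⁻¹) * ((2 * π)⁻¹ * ar2 (rg b))) μ :=
    (k2.const_mul _).const_mul _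
  have i3 : Integrable (fun b => (2 * π)⁻¹ * per (rg b) - (-R⁻¹) * ((2 * π)⁻¹ * ar2 (rg b))) μ :=
    l1.sub l2
  have e2 : ∫ b, pf_Gm_h R b ∂μ = (∫ b, pf_Gm_g (-R⁻¹) (pe (-R⁻¹) 0 0 b) ∂μ) -
      (∫ b in pf_Gm_A R, pf_Gm_g (-R⁻¹) (pf_Gm_e R b) ∂μ) -
      ∫ b in (pf_Gm_A R)ᶜ, ((2 * π)⁻¹ * per (rg b) - (-R⁻¹) * ((2 * π)⁻¹ * ar2 (rg b))) ∂μ := by
    have i4 : Integrable (fun b => pf_Gm_g (-R⁻¹) (pe (-R⁻¹) 0 0 b) -
        (pf_Gm_A R).indicator (fun b => pf_Gm_g (-R⁻¹) (pf_Gm_e R b)) b) μ :=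
      i1.sub (i2.indicator hA)
    unfold pf_Gm_h
    rw [integral_sub i4 (i3.indicator hA.compl),
      integral_sub i1 (i2.indicator hA), integral_indicator hA, integral_indicator hA.compl]
  have e3 : ∫ b in pf_Gm_A R, pf_Gm_g (-R⁻¹) (pf_Gm_e R b) ∂μ =
      (∫ b in pf_Gm_A R, pf_Gm_e R b ∂μ) - (-R⁻¹) / 2 * ∫ b in pf_Gm_A R, pf_Gm_e R b ^ 2 ∂μ := by
    unfold pf_Gm_g
    rw [integral_sub j1.restrict (j2.restrict.const_mul _), integral_const_mul]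
  have e4 : ∫ b in (pf_Gm_A R)ᶜ, ((2 * π)⁻¹ * per (rg b) - (-R⁻¹) * ((2 * π)⁻¹ * ar2 (rg b))) ∂μ =
      (2 * π)⁻¹ * (∫ b in (pf_Gm_A R)ᶜ, per (rg b) ∂μ) -
        (-R⁻¹) * ((2 * π)⁻¹ * ∫ b in (pf_Gm_A R)ᶜ, ar2 (rg b) ∂μ) := by
    rw [integral_sub l1.restrict l2.restrict, integral_const_mul, integral_const_mul,
      integral_const_mul]
  have e5 : (∫ b in pf_Gm_A R, per (rg b) ∂μ) + (∫ b in (pf_Gm_A R)ᶜ, per (rg b) ∂μ) =
      ∫ b, per (rg b) ∂μ := integral_add_compl hA k1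
  have e6 : (∫ b in pf_Gm_A R, ar2 (rg b) ∂μ) + (∫ b in (pf_Gm_A R)ᶜ, ar2 (rg b) ∂μ) =
      ∫ b, ar2 (rg b) ∂μ := integral_add_compl hA k2
  have e7 : Gf μ (-R⁻¹) 0 0 = ∫ b, pf_Gm_g (-R⁻¹) (pe (-R⁻¹) 0 0 b) ∂μ := rfl
  rw [e2, e3, e4, e7, m0, m1, ← e5, ← e6, e1]
  have hπ : π ≠ 0 := Real.pi_ne_zero
  field_simp
  ring

theorem pf_Gm_dom (h2 : S_U) (h4 : S_pl) (h5 : S_mom) (h6 : S_rot) (h7 : S_end) (h8 : S_int)
    (h10 : S_tri) {μ : Measure Lo} (hμ : IsLoop μ) :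
    Tendsto (fun R : ℝ => ∫ b in pf_Gm_A R, pf_Gm_X R b ∂μ) atTop
      (𝓝 (∫ b, (GG (rg b)).toReal / 24 ∂μ)) := by
  obtain ⟨C, hC⟩ := h2
  have hp := hμ.prob
  have h : ∀ R : ℝ, ∫ b in pf_Gm_A R, pf_Gm_X R b ∂μ =
      ∫ b, (pf_Gm_A R).indicator (pf_Gm_X R) b ∂μ := fun R =>
    (integral_indicator (pf_Gm_A_meas R)).symm
  simp only [h]
  refine tendsto_integral_filter_of_dominated_convergence (fun b => |C| * (‖b‖ + 1) ^ 3)
    ?_ ?_ ((pf_Gm_mom h5 hμ 3).const_mul _) ?_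
  · filter_upwards [eventually_gt_atTop 0] with R hR
    have hi := (pf_Gm_key h4 h5 h6 h7 h8 hμ hR).1
    exact ((integrable_indicator_iff (pf_Gm_A_meas R)).2 hi).aestronglyMeasurable
  · filter_upwards with R
    filter_upwards [h7 μ hμ] with b hb
    by_cases hbA : b ∈ pf_Gm_A R
    · rw [indicator_of_mem hbA, Real.norm_eq_abs]
      have h3 := (hC (rg b) (‖b‖ + 1) (pf_Gm_good hb.1) (by positivity)).2 R hbA
      refine h3.trans ?_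
      gcongr
      exact le_abs_self C
    · rw [indicator_of_notMem hbA, norm_zero]
      positivity
  · filter_upwards [h7 μ hμ, h10 μ hμ] with b hb hT
    have h3 := (hC (rg b) (‖b‖ + 1) (pf_Gm_good hb.1) (by positivity)).1 hT
    refine h3.congr' ?_
    filter_upwards [eventually_gt_atTop (4 * (‖b‖ + 1))] with R hR
    rw [indicator_of_mem (show b ∈ pf_Gm_A R from hR)]
    rfl

theorem pf_Gm (h1 : S_hs) (h2 : S_U) (h3 : S_ls) (h4 : S_pl) (h5 : S_mom) (h6 : S_rot) (h7 : S_end) (h8 : S_int) (h9 : S_pe) (h10 : S_tri) : S_Gm := by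
  intro μ hμ
  have hp := hμ.prob
  have hd := pf_Gm_dom h2 h4 h5 h6 h7 h8 h10 hμ
  have key : Tendsto (fun R : ℝ => (Gf μ (-R⁻¹) 0 0 - m0 μ + m1 μ * (-R⁻¹)) / (-R⁻¹) ^ 2) atTop
      (𝓝 (-m2 μ)) := by
    have hlim : Tendsto (fun R : ℝ => -((2 * π)⁻¹ * ∫ b in pf_Gm_A R, pf_Gm_X R b ∂μ)) atTop
        (𝓝 (-m2 μ)) := by
      have e : -m2 μ = -((2 * π)⁻¹ * ∫ b, (GG (rg b)).toReal / 24 ∂μ) := by
        rw [m2, integral_div]
        field_simp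
        ring
      rw [e]
      exact (hd.const_mul _).neg
    have herr : Tendsto (fun R : ℝ => (Gf μ (-R⁻¹) 0 0 - m0 μ + m1 μ * (-R⁻¹)) / (-R⁻¹) ^ 2 -
        (-((2 * π)⁻¹ * ∫ b in pf_Gm_A R, pf_Gm_X R b ∂μ))) atTop (𝓝 0) := by
      have hM : Tendsto (fun R : ℝ => (384 * ∫ b, (‖b‖ + 1) ^ 7 ∂μ) * R⁻¹) atTop (𝓝 0) := by
        have := (tendsto_inv_atTop_zero (𝕜 := ℝ)).const_mul (384 * ∫ b, (‖b‖ + 1) ^ 7 ∂μ)
        rwa [mul_zero] at this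
      refine squeeze_zero_norm' ?_ hM
      filter_upwards [eventually_ge_atTop 1] with R hR
      have hR0 : 0 < R := by linarith
      have e1 := pf_Gm_int_h h4 h5 h6 h7 h8 h9 hμ hR
      have e2 : ‖∫ b, pf_Gm_h R b ∂μ‖ ≤ ∫ b, 384 * (‖b‖ + 1) ^ 7 / R ^ 3 ∂μ :=
        norm_integral_le_of_norm_le (((pf_Gm_mom h5 hμ 7).const_mul 384).div_const _)
          (Eventually.of_forall fun b => pf_Gm_h_bd h1 h9 hR b)
      rw [integral_div, integral_const_mul] at e2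
      have e3 : (Gf μ (-R⁻¹) 0 0 - m0 μ + m1 μ * (-R⁻¹)) / (-R⁻¹) ^ 2 -
          (-((2 * π)⁻¹ * ∫ b in pf_Gm_A R, pf_Gm_X R b ∂μ)) = (∫ b, pf_Gm_h R b ∂μ) * R ^ 2 := by
        rw [e1]
        field_simp
        ring
      rw [e3, norm_mul, Real.norm_eq_abs (R ^ 2), abs_of_pos (by positivity)]
      calc ‖∫ b, pf_Gm_h R b ∂μ‖ * R ^ 2 ≤ (384 * ∫ b, (‖b‖ + 1) ^ 7 ∂μ) / R ^ 3 * R ^ 2 := by
            gcongr
        _ = (384 * ∫ b, (‖b‖ + 1) ^ 7 ∂μ) * R⁻¹ := by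
            field_simp
    have := herr.add hlim
    rw [zero_add] at this
    refine this.congr fun R => ?_
    ring
  have hκ : Tendsto (fun κ : ℝ => -κ⁻¹) (𝓝[<] 0) atTop :=
    tendsto_neg_atBot_atTop.comp tendsto_inv_nhdsLT_zero
  refine (key.comp hκ).congr fun κ => ?_
  simp only [Function.comp_apply, inv_neg, inv_inv, neg_neg]

end Pool.Agent.H212AN
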