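import Pool.Agent.H212AN.D1

set_option autoImplicit false

namespace Pool.Agent.H212AN

open MeasureTheory Set Filter Topology Metric
open Pool.Agent.H212AN.G (nG PG gm)
open scoped Real ENNReal

/-- the integrand -/
noncomputable def pf_Gp_g (R θ : ℝ) (b : Lo) : ℝ :=
  ec (rg b) R θ - (2 * R)⁻¹ * ec (rg b) R θ ^ 2

/-- the remainder in the area of the eroded disc -/
noncomputable def pf_Gp_X (R : ℝ) (b : Lo) : ℝ :=
  R * (FK (rg b) R - (π * R ^ 2 - R * per (rg b) + ar2 (rg b)))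

/-- the event -/
def pf_Gp_A (R : ℝ) : Set Lo := {b | b 0 = 0 ∧ 4 * (‖b‖ + 1) < R}

theorem pf_Gp_ec_eq (b : Lo) (R θ : ℝ) : ec (rg b) R θ =
    sSup ((fun t : unitInterval => yy θ (b t) + (R - √(R ^ 2 - xx θ (b t) ^ 2))) '' univ) := by
  unfold ec rg
  rw [← image_univ, image_image]

theorem pf_Gp_ec_cont (R : ℝ) : Continuous (fun p : ℝ × Lo => ec (rg p.2) R p.1) := by
  simp_rw [pf_Gp_ec_eq]
  apply isCompact_univ.continuous_sSup
    (f := fun (p : ℝ × Lo) (t : unitInterval) =>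
      yy p.1 (p.2 t) + (R - √(R ^ 2 - xx p.1 (p.2 t) ^ 2)))
  unfold yy xx Function.HasUncurry.uncurry Function.hasUncurryInduction
  simp only [Function.HasUncurry.uncurry, id]
  fun_prop

theorem pf_Gp_g_cont (R : ℝ) : Continuous (fun p : ℝ × Lo => pf_Gp_g R p.1 p.2) := by
  unfold pf_Gp_g
  have := pf_Gp_ec_cont R
  fun_prop

theorem pf_Gp_A_meas (R : ℝ) : MeasurableSet (pf_Gp_A R) := by
  apply MeasurableSet.inter
  · exact (isClosed_eq (by fun_prop : Continuous fun b : Lo => b 0) continuous_const).measurableSet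
  · exact (isOpen_lt (by fun_prop : Continuous fun b : Lo => 4 * (‖b‖ + 1)) continuous_const).measurableSet

theorem pf_Gp_good (b : Lo) (hb : b 0 = 0) : Good (rg b) (‖b‖ + 1) := by
  refine ⟨isCompact_range b.continuous, ⟨0, hb⟩, ?_⟩
  rintro _ ⟨t, rfl⟩
  simp only [mem_closedBall, dist_zero_right]
  linarith [b.norm_coe_le_norm t]

/-- the rotation -/
theorem pf_Gp_rot (b : Lo) (R θ : ℝ) :
    ec (rg b) R θ = ec (rg ((⟨Real.cos θ, -Real.sin θ⟩ : ℂ) • b)) R 0 := by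
  rw [pf_Gp_ec_eq, pf_Gp_ec_eq]
  congr 2
  funext t
  have h1 : yy 0 (((⟨Real.cos θ, -Real.sin θ⟩ : ℂ) • b) t) = yy θ (b t) := by
    simp [yy]; ring
  have h2 : xx 0 (((⟨Real.cos θ, -Real.sin θ⟩ : ℂ) • b) t) = xx θ (b t) := by
    simp [xx]; ring
  rw [h1, h2]

theorem pf_Gp_cnorm (θ : ℝ) : ‖(⟨Real.cos θ, -Real.sin θ⟩ : ℂ)‖ = 1 := by
  have : ‖(⟨Real.cos θ, -Real.sin θ⟩ : ℂ)‖ ^ 2 = 1 := by
    rw [← Complex.normSq_eq_norm_sq, Complex.normSq_apply]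
    have := Real.sin_sq_add_cos_sq θ
    simp only
    linarith
  nlinarith [norm_nonneg (⟨Real.cos θ, -Real.sin θ⟩ : ℂ)]

theorem pf_Gp_A_rot (R : ℝ) (c : ℂ) (hc : ‖c‖ = 1) (b : Lo) : c • b ∈ pf_Gp_A R ↔ b ∈ pf_Gp_A R := by
  have hc0 : c ≠ 0 := by
    intro h; rw [h] at hc; simp at hc
  unfold pf_Gp_A
  simp only [mem_ofPred_eq, ContinuousMap.coe_smul, Pi.smul_apply, smul_eq_mul, mul_eq_zero, hc0,
    false_or, norm_smul, hc, one_mul]

theorem pf_Gp_yy (θ : ℝ) (k : ℂ) : |yy θ k| ≤ ‖k‖ ∧ |xx θ k| ≤ ‖k‖ := by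
  have h : yy θ k ^ 2 + xx θ k ^ 2 = ‖k‖ ^ 2 := by
    rw [← Complex.normSq_eq_norm_sq, Complex.normSq_apply]
    unfold yy xx
    have := Real.sin_sq_add_cos_sq θ
    linear_combination (k.re ^ 2 + k.im ^ 2) * this
  constructor
  · exact abs_le_of_sq_le_sq (by nlinarith [sq_nonneg (xx θ k)]) (norm_nonneg _)
  · exact abs_le_of_sq_le_sq (by nlinarith [sq_nonneg (yy θ k)]) (norm_nonneg _)

theorem pf_Gp_ec_le (R θ : ℝ) (hR : 0 < R) (b : Lo) : |ec (rg b) R θ| ≤ ‖b‖ + R := by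
  have hv : ∀ t : unitInterval, |yy θ (b t) + (R - √(R ^ 2 - xx θ (b t) ^ 2))| ≤ ‖b‖ + R := by
    intro t
    have h1 := (pf_Gp_yy θ (b t)).1
    have h2 := b.norm_coe_le_norm t
    have h3 : √(R ^ 2 - xx θ (b t) ^ 2) ≤ R := by
      rw [Real.sqrt_le_left hR.le]
      nlinarith [sq_nonneg (xx θ (b t))]
    have h4 := Real.sqrt_nonneg (R ^ 2 - xx θ (b t) ^ 2)
    rw [abs_le] at h1 ⊢
    constructor <;> linarith [h1.1, h1.2]
  have hbd : BddAbove ((fun t : unitInterval => yy θ (b t) + (R - √(R ^ 2 - xx θ (b t) ^ 2))) '' univ) := by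
    refine ⟨‖b‖ + R, ?_⟩
    rintro _ ⟨t, -, rfl⟩
    exact (abs_le.1 (hv t)).2
  rw [pf_Gp_ec_eq, abs_le]
  constructor
  · refine le_trans (abs_le.1 (hv 0)).1 (le_csSup hbd ⟨0, mem_univ _, rfl⟩)
  · apply csSup_le (Set.Nonempty.image _ univ_nonempty)
    rintro _ ⟨t, -, rfl⟩
    exact (abs_le.1 (hv t)).2

theorem pf_Gp_sqrt (R x : ℝ) (hR : 0 < R) (hx : |x| ≤ R) :
    |R - √(R ^ 2 - x ^ 2) - R⁻¹ / 2 * x ^ 2| ≤ R⁻¹ ^ 3 * x ^ 4 := by
  have hx2 : x ^ 2 ≤ R ^ 2 := by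
    rw [← sq_abs]; exact pow_le_pow_left₀ (abs_nonneg _) hx 2
  set s := √(R ^ 2 - x ^ 2) with hs
  have hs0 : 0 ≤ s := Real.sqrt_nonneg _
  have hs2 : s ^ 2 = R ^ 2 - x ^ 2 := Real.sq_sqrt (by linarith)
  have hsR : s ≤ R := by
    apply le_of_sq_le_sq _ hR.le |>.trans le_rfl
    nlinarith [sq_nonneg x]
  have e : R - s - R⁻¹ / 2 * x ^ 2 = (R - s) ^ 2 / (2 * R) := by
    field_simp
    nlinarith
  rw [e, abs_of_nonneg (by positivity)]
  have h1 : (R - s) * R ≤ x ^ 2 := by nlinarith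
  have h2 : 0 ≤ (R - s) * R := mul_nonneg (by linarith) hR.le
  have h3 : ((R - s) * R) ^ 2 ≤ (x ^ 2) ^ 2 := pow_le_pow_left₀ h2 h1 2
  rw [div_le_iff₀ (by positivity)]
  have e2 : R⁻¹ ^ 3 * x ^ 4 * (2 * R) = 2 * (x ^ 4 / R ^ 2) := by field_simp
  rw [e2]
  have h4 : (R - s) ^ 2 ≤ x ^ 4 / R ^ 2 := by
    rw [le_div_iff₀ (by positivity)]
    calc (R - s) ^ 2 * R ^ 2 = ((R - s) * R) ^ 2 := by ring
      _ ≤ (x ^ 2) ^ 2 := h3
      _ = x ^ 4 := by ring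
  have h5 : 0 ≤ x ^ 4 / R ^ 2 := by positivity
  linarith

theorem pf_Gp_g_le (R θ : ℝ) (hR : 0 < R) (b : Lo) (hb : b ∈ pf_Gp_A R) :
    ‖pf_Gp_g R θ b‖ ≤ 4 * R := by
  have h1 := pf_Gp_ec_le R θ hR b
  have h2 : ‖b‖ ≤ R := by
    have := hb.2
    linarith [norm_nonneg b]
  have h3 : |ec (rg b) R θ| ≤ 2 * R := by linarith
  have h4 : ec (rg b) R θ ^ 2 ≤ (2 * R) ^ 2 := by
    rw [← sq_abs]; exact pow_le_pow_left₀ (abs_nonneg _) h3 2
  have h5 : (2 * R)⁻¹ * ec (rg b) R θ ^ 2 ≤ 2 * R := by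
    rw [inv_mul_le_iff₀ (by positivity)]
    linarith
  have h6 : 0 ≤ (2 * R)⁻¹ * ec (rg b) R θ ^ 2 := by positivity
  rw [Real.norm_eq_abs, pf_Gp_g, abs_le]
  rw [abs_le] at h3
  constructor <;> linarith [h3.1, h3.2]

theorem pf_Gp_id (h4 : S_pl) (R : ℝ) (hR : 0 < R) (b : Lo) (hb : b ∈ pf_Gp_A R) :
    ∫ θ in (0:ℝ)..(2 * π), pf_Gp_g R θ b =
      per (rg b) - R⁻¹ * ar2 (rg b) - R⁻¹ ^ 2 * pf_Gp_X R b := by
  have h := (h4 (rg b) (‖b‖ + 1) R (pf_Gp_good b hb.1) (by positivity) hb.2).1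
  have hg : ∀ θ, (R - ec (rg b) R θ) ^ 2 = R ^ 2 - 2 * R * pf_Gp_g R θ b := by
    intro θ
    unfold pf_Gp_g
    field_simp
    ring
  have hi : IntervalIntegrable (fun θ => pf_Gp_g R θ b) volume 0 (2 * π) := by
    have h0 : Continuous fun θ : ℝ => ((θ, b) : ℝ × Lo) := by fun_prop
    have h1 := (pf_Gp_g_cont R).comp h0
    exact h1.intervalIntegrable _ _
  simp_rw [hg] at h
  rw [intervalIntegral.integral_sub (by simp) (hi.const_mul _), intervalIntegral.integral_const,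
    intervalIntegral.integral_const_mul, smul_eq_mul] at h
  unfold pf_Gp_X
  rw [h]
  field_simp
  ring

theorem pf_Gp_prodint (μ : Measure Lo) [IsProbabilityMeasure μ] (R : ℝ) (hR : 0 < R) :
    Integrable (Function.uncurry fun (b : Lo) (θ : ℝ) => pf_Gp_g R θ b)
      ((μ.restrict (pf_Gp_A R)).prod (volume.restrict (Ioc (0:ℝ) (2 * π)))) := by
  have hA := pf_Gp_A_meas R
  rw [Measure.prod_restrict]
  have hm : Continuous (Function.uncurry fun (b : Lo) (θ : ℝ) => pf_Gp_g R θ b) := by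
    have h0 := (pf_Gp_g_cont R).comp (continuous_swap : Continuous (Prod.swap : Lo × ℝ → ℝ × Lo))
    exact h0
  have hfin : IsFiniteMeasure ((μ.prod volume).restrict (pf_Gp_A R ×ˢ Ioc (0:ℝ) (2 * π))) := by
    rw [← Measure.prod_restrict]
    infer_instance
  apply Integrable.of_bound (C := 4 * R)
  · exact hm.measurable.aestronglyMeasurable
  · filter_upwards [ae_restrict_mem (hA.prod measurableSet_Ioc)] with p hp
    exact pf_Gp_g_le R p.2 hR p.1 hp.1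


theorem pf_Gp_swap (μ : Measure Lo) [IsProbabilityMeasure μ]
    (hrot : ∀ c : ℂ, ‖c‖ = 1 → μ.map (fun b => c • b) = μ) (R : ℝ) (hR : 0 < R) :
    ∫ b in pf_Gp_A R, (∫ θ in (0:ℝ)..(2 * π), pf_Gp_g R θ b) ∂μ =
      2 * π * ∫ b in pf_Gp_A R, pf_Gp_g R 0 b ∂μ := by
  have hA := pf_Gp_A_meas R
  simp_rw [intervalIntegral.integral_of_le (show (0:ℝ) ≤ 2 * π by positivity)]
  rw [integral_integral_swap]
  · have key : ∀ θ, ∫ b in pf_Gp_A R, pf_Gp_g R θ b ∂μ = ∫ b in pf_Gp_A R, pf_Gp_g R 0 b ∂μ := by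
      intro θ
      set c : ℂ := ⟨Real.cos θ, -Real.sin θ⟩ with hc
      have hcn : ‖c‖ = 1 := pf_Gp_cnorm θ
      rw [← integral_indicator hA, ← integral_indicator hA]
      conv_rhs => rw [← hrot c hcn]
      have hmc : Continuous (fun b : Lo => c • b) := by fun_prop
      have hg0 : Measurable ((pf_Gp_A R).indicator (fun b => pf_Gp_g R 0 b)) := by
        apply Measurable.indicator _ hA
        exact ((pf_Gp_g_cont R).comp (by fun_prop : Continuous fun b : Lo => (((0:ℝ), b) : ℝ × Lo))).measurable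
      rw [integral_map hmc.measurable.aemeasurable hg0.aestronglyMeasurable]
      apply integral_congr_ae
      apply Eventually.of_forall
      intro b
      simp only
      by_cases hb : b ∈ pf_Gp_A R
      · rw [indicator_of_mem hb, indicator_of_mem ((pf_Gp_A_rot R c hcn b).2 hb)]
        unfold pf_Gp_g
        rw [pf_Gp_rot b R θ]
      · rw [indicator_of_notMem hb,
          indicator_of_notMem (fun h => hb ((pf_Gp_A_rot R c hcn b).1 h))]
    simp_rw [key]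
    rw [integral_const]
    simp [Real.pi_pos.le]
  · exact pf_Gp_prodint μ R hR

/-- moments of `‖b‖ + 1` -/
theorem pf_Gp_mom (μ : Measure Lo) (hμ : ∀ n : ℕ, Integrable (fun b : Lo => ‖b‖ ^ n) μ) (n : ℕ) :
    Integrable (fun b : Lo => (‖b‖ + 1) ^ n) μ := by
  simp_rw [add_pow]
  apply integrable_finsetSum
  intro i _
  exact ((hμ i).mul_const _).mul_const _

theorem pf_Gp_per (h1 : S_hs) (b : Lo) :
    |per (rg b)| ≤ 2 * π * (‖b‖ + 1) ∧ |ar2 (rg b)| ≤ π * (‖b‖ + 1) ^ 2 := by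
  have hsub : rg b ⊆ closedBall 0 (‖b‖ + 1) := by
    rintro _ ⟨t, rfl⟩
    simp only [mem_closedBall, dist_zero_right]
    linarith [b.norm_coe_le_norm t]
  obtain ⟨-, -, hb, hL, -⟩ := h1 (rg b) (‖b‖ + 1) (isCompact_range b.continuous) ⟨b 0, 0, rfl⟩ hsub
  have hρ : 0 ≤ ‖b‖ + 1 := by positivity
  have hd : ∀ θ, |deriv (hs (rg b)) θ| ≤ ‖b‖ + 1 := by
    intro θ
    have := norm_deriv_le_of_lipschitz (x₀ := θ) hL
    rwa [Real.coe_toNNReal _ hρ] at this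
  constructor
  · unfold per
    have := intervalIntegral.norm_integral_le_of_norm_le_const (a := 0) (b := 2 * π)
      (f := hs (rg b)) (C := ‖b‖ + 1) (fun θ _ => hb θ)
    rw [sub_zero, abs_of_pos (by positivity : (0:ℝ) < 2 * π)] at this
    rw [← Real.norm_eq_abs]
    linarith
  · unfold ar2
    have := intervalIntegral.norm_integral_le_of_norm_le_const (a := 0) (b := 2 * π)
      (f := fun θ => hs (rg b) θ ^ 2 - deriv (hs (rg b)) θ ^ 2) (C := (‖b‖ + 1) ^ 2) (fun θ _ => by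
        have e1 : hs (rg b) θ ^ 2 ≤ (‖b‖ + 1) ^ 2 := by
          rw [← sq_abs]; exact pow_le_pow_left₀ (abs_nonneg _) (hb θ) 2
        have e2 : deriv (hs (rg b)) θ ^ 2 ≤ (‖b‖ + 1) ^ 2 := by
          rw [← sq_abs]; exact pow_le_pow_left₀ (abs_nonneg _) (hd θ) 2
        rw [Real.norm_eq_abs, abs_le]
        constructor <;> nlinarith [sq_nonneg (hs (rg b) θ), sq_nonneg (deriv (hs (rg b)) θ)])
    rw [sub_zero, abs_of_pos (by positivity : (0:ℝ) < 2 * π), Real.norm_eq_abs] at this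
    rw [abs_mul, abs_of_pos (by norm_num : (0:ℝ) < 1 / 2)]
    linarith

theorem pf_Gp_cmp (h9 : S_pe) (R : ℝ) (hR : 0 < R) (b : Lo) (hb : ‖b‖ ≤ R) :
    |ec (rg b) R 0 - pe R⁻¹ 0 0 b| ≤ R⁻¹ ^ 3 * ‖b‖ ^ 4 := by
  obtain ⟨-, h2, -⟩ := h9
  obtain ⟨⟨t0, ht0⟩, hle⟩ := h2 R⁻¹ 0 0 b
  have hval : ∀ t : unitInterval, |(yy 0 (b t) + (R - √(R ^ 2 - xx 0 (b t) ^ 2))) -
      ((b t).re + R⁻¹ / 2 * (b t).im ^ 2 + 0 * (b t).im ^ 3 + 0 * (b t).im ^ 4)| ≤
      R⁻¹ ^ 3 * ‖b‖ ^ 4 := by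
    intro t
    have hn := b.norm_coe_le_norm t
    have him : |(b t).im| ≤ ‖b‖ := (Complex.abs_im_le_norm _).trans hn
    have e1 : yy 0 (b t) = (b t).re := by simp [yy]
    have e2 : xx 0 (b t) = (b t).im := by simp [xx]
    rw [e1, e2]
    have h := pf_Gp_sqrt R (b t).im hR (him.trans hb)
    have e3 : ((b t).re + (R - √(R ^ 2 - (b t).im ^ 2))) -
      ((b t).re + R⁻¹ / 2 * (b t).im ^ 2 + 0 * (b t).im ^ 3 + 0 * (b t).im ^ 4) =
      R - √(R ^ 2 - (b t).im ^ 2) - R⁻¹ / 2 * (b t).im ^ 2 := by ring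
    rw [e3]
    refine h.trans (mul_le_mul_of_nonneg_left ?_ (by positivity))
    rw [← (by decide : Even 4).pow_abs]
    exact pow_le_pow_left₀ (abs_nonneg _) him 4
  have hbd : BddAbove ((fun t : unitInterval =>
      yy 0 (b t) + (R - √(R ^ 2 - xx 0 (b t) ^ 2))) '' univ) := by
    refine ⟨pe R⁻¹ 0 0 b + R⁻¹ ^ 3 * ‖b‖ ^ 4, ?_⟩
    rintro _ ⟨t, -, rfl⟩
    have := (abs_le.1 (hval t)).2
    have := hle t
    simp only
    linarith
  rw [pf_Gp_ec_eq, abs_le]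
  constructor
  · have h3 := le_csSup hbd ⟨t0, mem_univ _, rfl⟩
    have h4 := (abs_le.1 (hval t0)).1
    simp only at h3
    rw [ht0]
    linarith
  · have : sSup ((fun t : unitInterval =>
      yy 0 (b t) + (R - √(R ^ 2 - xx 0 (b t) ^ 2))) '' univ) ≤
        pe R⁻¹ 0 0 b + R⁻¹ ^ 3 * ‖b‖ ^ 4 := by
      apply csSup_le (Set.Nonempty.image _ univ_nonempty)
      rintro _ ⟨t, -, rfl⟩
      have := (abs_le.1 (hval t)).2
      have := hle t
      simp only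
      linarith
    linarith

theorem pf_Gp_pt (h9 : S_pe) (κ : ℝ) (hκ : 0 < κ) (hκ1 : κ ≤ 1) (b : Lo) (hb0 : b 0 = 0) :
    |(pe κ 0 0 b - κ / 2 * pe κ 0 0 b ^ 2) -
      (pf_Gp_A κ⁻¹).indicator (fun b => pf_Gp_g κ⁻¹ 0 b) b| ≤ 258 * κ ^ 3 * (‖b‖ + 1) ^ 7 := by
  have hpe := h9.2.2.1 κ 0 0 b
  rw [abs_zero, zero_mul, zero_mul, add_zero, add_zero, abs_of_pos hκ] at hpe
  have hn : 0 ≤ ‖b‖ := norm_nonneg b
  set n := ‖b‖ with hnd
  set p := pe κ 0 0 b with hp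
  by_cases hA : b ∈ pf_Gp_A κ⁻¹
  · rw [indicator_of_mem hA]
    have hlt : 4 * (n + 1) < κ⁻¹ := hA.2
    have hκn : κ * (n + 1) < 1 / 4 := by
      have := mul_lt_mul_of_pos_left hlt hκ
      rw [mul_inv_cancel₀ hκ.ne'] at this
      linarith
    have hκn' : κ * n ≤ 1 / 4 := by nlinarith
    have hcmp := pf_Gp_cmp h9 κ⁻¹ (by positivity) b (by rw [← hnd]; linarith)
    rw [inv_inv, ← hp, ← hnd] at hcmp
    set e := ec (rg b) κ⁻¹ 0 with he
    have hd0 : κ ^ 3 * n ^ 4 ≤ n := by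
      have e1 : κ ^ 3 * n ^ 4 = (κ * n) ^ 3 * n := by ring
      have e2 : (κ * n) ^ 3 ≤ 1 := pow_le_one₀ (by positivity) (by linarith)
      rw [e1]
      nlinarith
    have hp1 : |p| ≤ 5 / 4 * n := by
      refine hpe.trans ?_
      nlinarith
    have he1 : |e| ≤ 9 / 4 * n := by
      have : |e| ≤ |e - p| + |p| := by
        calc |e| = |(e - p) + p| := by rw [sub_add_cancel]
          _ ≤ _ := abs_add_le _ _
      linarith
    have hfac : |1 - κ / 2 * (p + e)| ≤ 2 := by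
      have h3 : |p + e| ≤ 4 * n := by
        refine (abs_add_le _ _).trans ?_
        linarith
      rw [abs_le] at h3 ⊢
      constructor <;> nlinarith [h3.1, h3.2]
    have hid : (p - κ / 2 * p ^ 2) - pf_Gp_g κ⁻¹ 0 b = -((e - p) * (1 - κ / 2 * (p + e))) := by
      unfold pf_Gp_g
      rw [← he, mul_inv, inv_inv]
      ring
    rw [hid, abs_neg, abs_mul]
    calc |e - p| * |1 - κ / 2 * (p + e)| ≤ (κ ^ 3 * n ^ 4) * 2 :=
          mul_le_mul hcmp hfac (abs_nonneg _) (by positivity)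
      _ ≤ 258 * κ ^ 3 * (n + 1) ^ 7 := by
          have h5 : n ^ 4 ≤ (n + 1) ^ 7 := by
            calc n ^ 4 ≤ (n + 1) ^ 4 := pow_le_pow_left₀ hn (by linarith) 4
              _ ≤ (n + 1) ^ 7 := pow_le_pow_right₀ (by linarith) (by norm_num)
          have h6 : 0 ≤ κ ^ 3 := by positivity
          have h7 : κ ^ 3 * n ^ 4 ≤ κ ^ 3 * (n + 1) ^ 7 := mul_le_mul_of_nonneg_left h5 h6
          nlinarith [mul_nonneg h6 (by positivity : 0 ≤ (n + 1) ^ 7)]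
  · rw [indicator_of_notMem hA, sub_zero]
    have hge : κ⁻¹ ≤ 4 * (n + 1) := by
      by_contra hc
      exact hA ⟨hb0, not_le.1 hc⟩
    have h1 : 1 ≤ 4 * (n + 1) * κ := by
      have := mul_le_mul_of_nonneg_right hge hκ.le
      rwa [inv_mul_cancel₀ hκ.ne'] at this
    have h2 : (1:ℝ) ≤ (4 * (n + 1) * κ) ^ 3 := one_le_pow₀ h1
    have hr : 1 ≤ n + 1 := by linarith
    have hp2 : |p| ≤ 2 * (n + 1) ^ 2 := by
      refine hpe.trans ?_
      have : κ * n ^ 2 ≤ 1 * n ^ 2 := mul_le_mul_of_nonneg_right hκ1 (by positivity)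
      nlinarith
    have hp3 : p ^ 2 ≤ (2 * (n + 1) ^ 2) ^ 2 := by
      rw [← sq_abs]; exact pow_le_pow_left₀ (abs_nonneg _) hp2 2
    have h3 : |p - κ / 2 * p ^ 2| ≤ 4 * (n + 1) ^ 4 := by
      have h24 : (n + 1) ^ 2 ≤ (n + 1) ^ 4 := pow_le_pow_right₀ hr (by norm_num)
      have hk : κ / 2 * p ^ 2 ≤ 1 / 2 * p ^ 2 := mul_le_mul_of_nonneg_right (by linarith) (sq_nonneg _)
      have hk0 : 0 ≤ κ / 2 * p ^ 2 := by positivity
      rw [abs_le] at hp2 ⊢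
      have e4 : (2 * (n + 1) ^ 2) ^ 2 = 4 * (n + 1) ^ 4 := by ring
      rw [e4] at hp3
      constructor <;> nlinarith [hp2.1, hp2.2]
    calc |p - κ / 2 * p ^ 2| ≤ 4 * (n + 1) ^ 4 := h3
      _ = 4 * (n + 1) ^ 4 * 1 := by ring
      _ ≤ 4 * (n + 1) ^ 4 * (4 * (n + 1) * κ) ^ 3 := mul_le_mul_of_nonneg_left h2 (by positivity)
      _ = 256 * κ ^ 3 * (n + 1) ^ 7 := by ring
      _ ≤ 258 * κ ^ 3 * (n + 1) ^ 7 := by
          have : 0 ≤ κ ^ 3 * (n + 1) ^ 7 := by positivity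
          nlinarith

theorem pf_Gp_pt2 (h1 : S_hs) (κ : ℝ) (hκ : 0 < κ) (hκ1 : κ ≤ 1) (b : Lo) (hb0 : b 0 = 0) :
    |(per (rg b) - κ * ar2 (rg b)) -
      (pf_Gp_A κ⁻¹).indicator (fun b => per (rg b) - κ * ar2 (rg b)) b| ≤
      192 * π * κ ^ 3 * (‖b‖ + 1) ^ 7 := by
  by_cases hA : b ∈ pf_Gp_A κ⁻¹
  · rw [indicator_of_mem hA, sub_self, abs_zero]
    positivity
  · rw [indicator_of_notMem hA, sub_zero]
    obtain ⟨hp, ha⟩ := pf_Gp_per h1 b
    have hn : 0 ≤ ‖b‖ := norm_nonneg b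
    set n := ‖b‖ with hnd
    have hge : κ⁻¹ ≤ 4 * (n + 1) := by
      by_contra hc
      exact hA ⟨hb0, not_le.1 hc⟩
    have h1 : 1 ≤ 4 * (n + 1) * κ := by
      have := mul_le_mul_of_nonneg_right hge hκ.le
      rwa [inv_mul_cancel₀ hκ.ne'] at this
    have h2 : (1:ℝ) ≤ (4 * (n + 1) * κ) ^ 3 := one_le_pow₀ h1
    have hr : 1 ≤ n + 1 := by linarith
    have hπ := Real.pi_pos
    have h3 : |per (rg b) - κ * ar2 (rg b)| ≤ 3 * π * (n + 1) ^ 2 := by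
      have e1 : |κ * ar2 (rg b)| ≤ π * (n + 1) ^ 2 := by
        rw [abs_mul, abs_of_pos hκ]
        have := mul_le_mul hκ1 ha (abs_nonneg _) zero_le_one
        linarith
      have e2 : |per (rg b)| ≤ 2 * π * (n + 1) ^ 2 := by
        refine hp.trans ?_
        have : n + 1 ≤ (n + 1) ^ 2 := by nlinarith
        exact mul_le_mul_of_nonneg_left this (by positivity)
      have e3 := abs_sub (per (rg b)) (κ * ar2 (rg b))
      linarith
    calc |per (rg b) - κ * ar2 (rg b)| ≤ 3 * π * (n + 1) ^ 2 := h3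
      _ = 3 * π * (n + 1) ^ 2 * 1 := by ring
      _ ≤ 3 * π * (n + 1) ^ 2 * (4 * (n + 1) * κ) ^ 3 := mul_le_mul_of_nonneg_left h2 (by positivity)
      _ = 192 * π * κ ^ 3 * (n + 1) ^ 5 := by ring
      _ ≤ 192 * π * κ ^ 3 * (n + 1) ^ 7 :=
          mul_le_mul_of_nonneg_left (pow_le_pow_right₀ hr (by norm_num)) (by positivity)

theorem pf_Gp_main (h4 : S_pl) (h8 : S_int) (μ : Measure Lo) (hμ : IsLoop μ)
    (hrot : ∀ c : ℂ, ‖c‖ = 1 → μ.map (fun b => c • b) = μ) (R : ℝ) (hR : 0 < R) :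
    IntegrableOn (pf_Gp_X R) (pf_Gp_A R) μ ∧
    2 * π * ∫ b in pf_Gp_A R, pf_Gp_g R 0 b ∂μ =
      (∫ b in pf_Gp_A R, (per (rg b) - R⁻¹ * ar2 (rg b)) ∂μ) -
        R⁻¹ ^ 2 * ∫ b in pf_Gp_A R, pf_Gp_X R b ∂μ := by
  have := hμ.prob
  obtain ⟨hi1, hi2, -⟩ := h8 μ hμ
  have hA := pf_Gp_A_meas R
  have hint := (pf_Gp_prodint μ R hR).integral_prod_left
  simp only [Function.uncurry_apply_pair] at hint
  have hq : Integrable (fun b => per (rg b) - R⁻¹ * ar2 (rg b)) (μ.restrict (pf_Gp_A R)) :=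
    (hi1.sub (hi2.const_mul _)).restrict
  have hsub := hq.sub hint
  have heq : ∀ b ∈ pf_Gp_A R, R ^ 2 * ((per (rg b) - R⁻¹ * ar2 (rg b)) -
      ∫ θ in Ioc (0:ℝ) (2 * π), pf_Gp_g R θ b) = pf_Gp_X R b := by
    intro b hb
    have h := pf_Gp_id h4 R hR b hb
    rw [intervalIntegral.integral_of_le (by positivity : (0:ℝ) ≤ 2 * π)] at h
    rw [h]
    field_simp
    ring
  have hX : IntegrableOn (pf_Gp_X R) (pf_Gp_A R) μ := by
    refine (hsub.const_mul (R ^ 2)).congr ?_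
    filter_upwards [ae_restrict_mem hA] with b hb
    exact heq b hb
  refine ⟨hX, ?_⟩
  rw [← pf_Gp_swap μ hrot R hR, ← integral_const_mul, ← integral_sub hq (hX.const_mul _)]
  apply setIntegral_congr_fun hA
  intro b hb
  exact pf_Gp_id h4 R hR b hb

theorem pf_Gp_dct (h2 : S_F) (h4 : S_pl) (h5 : S_mom) (h7 : S_end) (h8 : S_int) (μ : Measure Lo)
    (hμ : IsLoop μ) (hrot : ∀ c : ℂ, ‖c‖ = 1 → μ.map (fun b => c • b) = μ) :
    Tendsto (fun R : ℝ => ∫ b in pf_Gp_A R, pf_Gp_X R b ∂μ) atTop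
      (𝓝 (∫ b, (GG (rg b)).toReal / 24 ∂μ)) := by
  have := hμ.prob
  obtain ⟨C, hC⟩ := h2
  simp_rw [← fun R : ℝ => integral_indicator (μ := μ) (f := pf_Gp_X R) (pf_Gp_A_meas R)]
  apply tendsto_integral_filter_of_dominated_convergence (fun b => |C| * (‖b‖ + 1) ^ 3)
  · filter_upwards [eventually_gt_atTop 0] with R hR
    exact ((integrable_indicator_iff (pf_Gp_A_meas R)).2
      (pf_Gp_main h4 h8 μ hμ hrot R hR).1).aestronglyMeasurable
  · filter_upwards with R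
    filter_upwards with b
    by_cases hb : b ∈ pf_Gp_A R
    · rw [indicator_of_mem hb]
      refine ((hC (rg b) (‖b‖ + 1) (pf_Gp_good b hb.1) (by positivity)).2 R hb.2).trans ?_
      exact mul_le_mul_of_nonneg_right (le_abs_self C) (by positivity)
    · rw [indicator_of_notMem hb, norm_zero]
      positivity
  · exact (pf_Gp_mom μ (h5 μ hμ) 3).const_mul _
  · filter_upwards [h7 μ hμ] with b hb
    refine ((hC (rg b) (‖b‖ + 1) (pf_Gp_good b hb.1) (by positivity)).1).congr' ?_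
    filter_upwards [eventually_gt_atTop (4 * (‖b‖ + 1))] with R hR
    rw [indicator_of_mem (show b ∈ pf_Gp_A R from ⟨hb.1, hR⟩)]
    rfl

theorem pf_Gp (h1 : S_hs) (h2 : S_F) (h3 : S_ls) (h4 : S_pl) (h5 : S_mom) (h6 : S_rot) (h7 : S_end) (h8 : S_int) (h9 : S_pe) : S_Gp := by
  intro μ hμ
  have := hμ.prob
  have hrot := (h6 μ hμ).1
  obtain ⟨hi1, hi2, hi3⟩ := h8 μ hμ
  have hdct := (pf_Gp_dct h2 h4 h5 h7 h8 μ hμ hrot).comp (tendsto_inv_nhdsGT_zero (𝕜 := ℝ))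
  have h7i := pf_Gp_mom μ (h5 μ hμ) 7
  set M7 := ∫ b : Lo, (‖b‖ + 1) ^ 7 ∂μ with hM7
  have hM0 : 0 ≤ M7 := integral_nonneg fun b => by positivity
  -- the main estimate
  have hest : ∀ κ : ℝ, 0 < κ → κ ≤ 1 →
      |(Gf μ κ 0 0 - m0 μ + m1 μ * κ) / κ ^ 2 +
        (2 * π)⁻¹ * ∫ b in pf_Gp_A κ⁻¹, pf_Gp_X κ⁻¹ b ∂μ| ≤ 354 * M7 * κ := by
    intro κ hκ hκ1
    have hR : 0 < κ⁻¹ := by positivity
    have hA := pf_Gp_A_meas κ⁻¹
    obtain ⟨-, hid⟩ := pf_Gp_main h4 h8 μ hμ hrot κ⁻¹ hR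
    rw [inv_inv] at hid
    set IX := ∫ b in pf_Gp_A κ⁻¹, pf_Gp_X κ⁻¹ b ∂μ with hIX
    -- integrability
    have hPm : Continuous fun b : Lo => pe κ 0 0 b := by
      have hc : Continuous fun b : Lo => (((κ, 0, 0), b) : (ℝ × ℝ × ℝ) × Lo) := by fun_prop
      have h0 := h9.1.comp hc
      exact h0
    have hgc : Continuous fun b : Lo => pf_Gp_g κ⁻¹ 0 b := by
      have hc : Continuous fun b : Lo => ((0, b) : ℝ × Lo) := by fun_prop
      have h0 := (pf_Gp_g_cont κ⁻¹).comp hc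
      exact h0
    have hgi : Integrable ((pf_Gp_A κ⁻¹).indicator fun b => pf_Gp_g κ⁻¹ 0 b) μ := by
      apply Integrable.of_bound (C := 4 * κ⁻¹)
      · exact (hgc.measurable.indicator hA).aestronglyMeasurable
      · filter_upwards with b
        by_cases hb : b ∈ pf_Gp_A κ⁻¹
        · rw [indicator_of_mem hb]
          exact pf_Gp_g_le κ⁻¹ 0 hR b hb
        · rw [indicator_of_notMem hb, norm_zero]
          positivity
    have hdi : Integrable (fun b => (pe κ 0 0 b - κ / 2 * pe κ 0 0 b ^ 2) -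
        (pf_Gp_A κ⁻¹).indicator (fun b => pf_Gp_g κ⁻¹ 0 b) b) μ := by
      apply Integrable.mono' (h7i.const_mul (258 * κ ^ 3))
      · apply AEStronglyMeasurable.sub
        · exact (by fun_prop : Continuous fun b : Lo =>
            pe κ 0 0 b - κ / 2 * pe κ 0 0 b ^ 2).aestronglyMeasurable
        · exact hgi.aestronglyMeasurable
      · filter_upwards [h7 μ hμ] with b hb
        exact pf_Gp_pt h9 κ hκ hκ1 b hb.1
    have hPi : Integrable (fun b => pe κ 0 0 b - κ / 2 * pe κ 0 0 b ^ 2) μ := by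
      have := hdi.add hgi
      refine this.congr (Eventually.of_forall fun b => ?_)
      simp
    have e1 : |Gf μ κ 0 0 - ∫ b in pf_Gp_A κ⁻¹, pf_Gp_g κ⁻¹ 0 b ∂μ| ≤ 258 * κ ^ 3 * M7 := by
      unfold Gf
      rw [← integral_indicator hA, ← integral_sub hPi hgi, hM7, ← integral_const_mul]
      rw [← Real.norm_eq_abs]
      apply norm_integral_le_of_norm_le (h7i.const_mul _)
      filter_upwards [h7 μ hμ] with b hb
      exact pf_Gp_pt h9 κ hκ hκ1 b hb.1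
    have hqi : Integrable (fun b => per (rg b) - κ * ar2 (rg b)) μ := hi1.sub (hi2.const_mul _)
    have e2 : |(∫ b, (per (rg b) - κ * ar2 (rg b)) ∂μ) -
        ∫ b in pf_Gp_A κ⁻¹, (per (rg b) - κ * ar2 (rg b)) ∂μ| ≤ 192 * π * κ ^ 3 * M7 := by
      rw [← integral_indicator hA, ← integral_sub hqi (hqi.indicator hA), hM7,
        ← integral_const_mul]
      rw [← Real.norm_eq_abs]
      apply norm_integral_le_of_norm_le (h7i.const_mul _)
      filter_upwards [h7 μ hμ] with b hb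
      exact pf_Gp_pt2 h1 κ hκ hκ1 b hb.1
    rw [integral_sub hi1 (hi2.const_mul _), integral_const_mul] at e2
    set Ig := ∫ b in pf_Gp_A κ⁻¹, pf_Gp_g κ⁻¹ 0 b ∂μ with hIg
    set Iq := ∫ b in pf_Gp_A κ⁻¹, (per (rg b) - κ * ar2 (rg b)) ∂μ with hIq
    set Ip := ∫ b, per (rg b) ∂μ with hIp
    set Ia := ∫ b, ar2 (rg b) ∂μ with hIa
    have hπ := Real.pi_pos
    have hGf : (Gf μ κ 0 0 - m0 μ + m1 μ * κ) / κ ^ 2 + (2 * π)⁻¹ * IX =
        ((Gf μ κ 0 0 - Ig) - (2 * π)⁻¹ * ((Ip - κ * Ia) - Iq)) / κ ^ 2 := by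
      have hIgv : Ig = (2 * π)⁻¹ * (Iq - κ ^ 2 * IX) := by
        rw [← hid]
        field_simp
      unfold m0 m1
      rw [← hIp, ← hIa, hIgv]
      field_simp
      ring
    rw [hGf, abs_div, abs_of_pos (by positivity : 0 < κ ^ 2), div_le_iff₀ (by positivity)]
    have e3 : |(2 * π)⁻¹ * ((Ip - κ * Ia) - Iq)| ≤ 96 * κ ^ 3 * M7 := by
      rw [abs_mul, abs_of_pos (by positivity : 0 < (2 * π)⁻¹), inv_mul_le_iff₀ (by positivity)]
      linarith
    calc |(Gf μ κ 0 0 - Ig) - (2 * π)⁻¹ * ((Ip - κ * Ia) - Iq)|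
        ≤ |Gf μ κ 0 0 - Ig| + |(2 * π)⁻¹ * ((Ip - κ * Ia) - Iq)| := abs_sub _ _
      _ ≤ 258 * κ ^ 3 * M7 + 96 * κ ^ 3 * M7 := add_le_add e1 e3
      _ = 354 * M7 * κ * κ ^ 2 := by ring
  have hzero : Tendsto (fun κ : ℝ => (Gf μ κ 0 0 - m0 μ + m1 μ * κ) / κ ^ 2 +
        (2 * π)⁻¹ * ∫ b in pf_Gp_A κ⁻¹, pf_Gp_X κ⁻¹ b ∂μ) (𝓝[>] 0) (𝓝 0) := by
    apply squeeze_zero_norm' (a := fun κ => 354 * M7 * κ)
    · filter_upwards [Ioc_mem_nhdsGT (zero_lt_one' ℝ)] with κ hκ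
      exact hest κ hκ.1 hκ.2
    · have : Tendsto (fun κ : ℝ => 354 * M7 * κ) (𝓝 0) (𝓝 (354 * M7 * 0)) :=
        tendsto_id.const_mul _
      rw [mul_zero] at this
      exact this.mono_left nhdsWithin_le_nhds
  have hfin := hzero.sub (hdct.const_mul (2 * π)⁻¹)
  have hval : 0 - (2 * π)⁻¹ * ∫ b, (GG (rg b)).toReal / 24 ∂μ = -m2 μ := by
    unfold m2
    rw [integral_div]
    have hπ := Real.pi_pos
    field_simp
    ring
  rw [hval] at hfin
  refine hfin.congr fun κ => ?_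
  simp only [Function.comp_apply]
  ring

end Pool.Agent.H212AN
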