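import Pool.Agent.H212AN.D0

set_option autoImplicit false

namespace Pool.Agent.H212AN

open MeasureTheory Set Filter Topology Metric
open scoped Real ENNReal

theorem pf_U_di (K : Set ℂ) (R : ℝ) : di K R = -(thickening R K) := by
  ext z
  rw [Set.mem_neg, mem_thickening_iff]
  show (∃ k ∈ K, ‖z + k‖ < R) ↔ _
  constructor
  · rintro ⟨k, hk, h⟩
    refine ⟨k, hk, ?_⟩
    rwa [dist_eq_norm, ← norm_neg, show -(-z - k) = z + k by ring]
  · rintro ⟨k, hk, h⟩
    refine ⟨k, hk, ?_⟩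
    rwa [dist_eq_norm, ← norm_neg, show -(-z - k) = z + k by ring] at h

theorem pf_U_UK (K : Set ℂ) (R : ℝ) : UK K R = (volume (thickening R K)).toReal := by
  unfold UK
  rw [pf_U_di, Measure.measure_neg]

theorem pf_U_gap (h3 : S_st) (K : Set ℂ) (ρ : ℝ) (hK : Good K ρ) (hρ : 0 < ρ) (R : ℝ)
    (hR : 0 < R) : (π * R ^ 2 + R * per K + ar2 K) - UK K R =
      (volume (thickening R (convexHull ℝ K) \ thickening R K)).toReal := by
  have hsub : thickening R K ⊆ thickening R (convexHull ℝ K) :=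
    thickening_subset_of_subset R (subset_convexHull ℝ K)
  have hbd : Bornology.IsBounded (thickening R (convexHull ℝ K)) :=
    (isBounded_convexHull.2 hK.1.isBounded).thickening
  have hfin : volume (thickening R (convexHull ℝ K)) ≠ ∞ := hbd.measure_lt_top.ne
  have hfinK : volume (thickening R K) ≠ ∞ := ne_top_of_le_ne_top hfin (measure_mono hsub)
  rw [← ((h3 K ρ hK hρ).1 R hR), pf_U_UK,
    measure_diff hsub isOpen_thickening.measurableSet.nullMeasurableSet hfinK,
    ENNReal.toReal_sub_of_le (measure_mono hsub) hfin]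

theorem pf_U_up (h4 : S_Uu) (K : Set ℂ) (ρ : ℝ) (hK : Good K ρ) (hρ : 0 < ρ)
    (hG : GG K ≠ ∞) (R : ℝ) (hR : 4 * ρ < R) :
    R * (volume (thickening R (convexHull ℝ K) \ thickening R K)).toReal ≤
      (1 + ρ ^ 2 / R ^ 2) * ((GG K).toReal / 24) := by
  have hR0 : 0 < R := by linarith
  have h := h4 K ρ R hK hρ hR
  have hc : 0 ≤ 1 / (24 * R) * (1 + ρ ^ 2 / R ^ 2) := by positivity
  have h' := ENNReal.toReal_mono (ENNReal.mul_ne_top ENNReal.ofReal_ne_top hG) h
  rw [ENNReal.toReal_mul, ENNReal.toReal_ofReal hc] at h'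
  calc R * (volume (thickening R (convexHull ℝ K) \ thickening R K)).toReal
      ≤ R * (1 / (24 * R) * (1 + ρ ^ 2 / R ^ 2) * (GG K).toReal) :=
        mul_le_mul_of_nonneg_left h' hR0.le
    _ = (1 + ρ ^ 2 / R ^ 2) * ((GG K).toReal / 24) := by field_simp

/- PLAIN PROOF.
di K R = -(thickening R K) (‖z+k‖ = dist (-z) k), so UK K R = vol (thickening R K) (Lebesgue measure is invariant under negation).
thickening R K ⊆ thickening R (convexHull K), so with S_st (π R² + R per + ar2) - UK = vol (thickening R (convexHull K) \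
thickening R K) =: gap >= 0. S_Uu: R gap <= (1+ρ²/R²) GG/24, S_Ul: R gap >= GG/24 - ε eventually (TP). Bound: GG <= Cρ³ (S_ls).
-/
theorem pf_U (h1 : S_hs) (h2 : S_ls) (h3 : S_st) (h4 : S_Uu) (h5 : S_Ul) : S_U := by
  obtain ⟨C, hC⟩ := h2
  refine ⟨C, fun K ρ hK hρ => ?_⟩
  obtain ⟨hG, hGC, -, -⟩ := hC K ρ hK hρ
  have hG0 : 0 ≤ (GG K).toReal := ENNReal.toReal_nonneg
  refine ⟨fun hT => ?_, fun R hR => ?_⟩
  · have hlim : Tendsto (fun R : ℝ => (1 + ρ ^ 2 / R ^ 2) * ((GG K).toReal / 24)) atTop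
        (𝓝 ((1 + 0) * ((GG K).toReal / 24))) := by
      refine Tendsto.mul_const _ (Tendsto.const_add _ ?_)
      exact Tendsto.div_atTop tendsto_const_nhds (tendsto_pow_atTop (by norm_num))
    rw [add_zero, one_mul] at hlim
    refine tendsto_order.2 ⟨fun a ha => ?_, fun b hb => ?_⟩
    · have hε : 0 < ((GG K).toReal / 24 - a) / 2 := by linarith
      filter_upwards [h5 K ρ hK hρ hT hG _ hε, eventually_gt_atTop (0:ℝ)] with R h hR
      rw [pf_U_gap h3 K ρ hK hρ R hR]
      linarith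
    · filter_upwards [(tendsto_order.1 hlim).2 b hb, eventually_gt_atTop (4 * ρ)] with R h hR
      rw [pf_U_gap h3 K ρ hK hρ R (by linarith)]
      exact lt_of_le_of_lt (pf_U_up h4 K ρ hK hρ hG R hR) h
  · have hR0 : 0 < R := by linarith
    rw [pf_U_gap h3 K ρ hK hρ R hR0,
      abs_of_nonneg (mul_nonneg hR0.le ENNReal.toReal_nonneg)]
    have h1' : ρ ^ 2 / R ^ 2 ≤ 1 := by
      rw [div_le_one (by positivity)]
      exact pow_le_pow_left₀ hρ.le (by linarith) 2
    have h := pf_U_up h4 K ρ hK hρ hG R hR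
    have h' : (1 + ρ ^ 2 / R ^ 2) * ((GG K).toReal / 24) ≤ (1 + 1) * ((GG K).toReal / 24) :=
      mul_le_mul_of_nonneg_right (by linarith) (by positivity)
    linarith

end Pool.Agent.H212AN
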