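import Pool.Agent.H212AN.D0

set_option autoImplicit false

namespace Pool.Agent.H212AN

open MeasureTheory Set Filter Topology Metric
open scoped Real ENNReal

theorem pf_Ul_norm (θ : ℝ) (z : ℂ) : ‖z‖ ^ 2 = xx θ z ^ 2 + yy θ z ^ 2 := by
  rw [← Complex.normSq_eq_norm_sq, Complex.normSq_apply]
  unfold xx yy
  nlinarith [Real.sin_sq_add_cos_sq θ]

theorem pf_Ul_xx_sub (θ : ℝ) (z w : ℂ) : xx θ (z - w) = xx θ z - xx θ w := by
  unfold xx; simp only [Complex.sub_re, Complex.sub_im]; ring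

theorem pf_Ul_yy_sub (θ : ℝ) (z w : ℂ) : yy θ (z - w) = yy θ z - yy θ w := by
  unfold yy; simp only [Complex.sub_re, Complex.sub_im]; ring

theorem pf_Ul_abs_xx (θ : ℝ) (z : ℂ) : |xx θ z| ≤ ‖z‖ := by
  refine abs_le_of_sq_le_sq ?_ (norm_nonneg z)
  rw [pf_Ul_norm θ z]
  nlinarith [sq_nonneg (yy θ z)]

theorem pf_Ul_cont_xx (θ : ℝ) : Continuous (xx θ) := by
  unfold xx
  exact (Complex.continuous_im.mul continuous_const).sub
    (Complex.continuous_re.mul continuous_const)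

theorem pf_Ul_cont_yy (θ : ℝ) : Continuous (yy θ) := by
  unfold yy
  exact (Complex.continuous_re.mul continuous_const).add
    (Complex.continuous_im.mul continuous_const)

/-- The coordinates preserve the area. -/
theorem pf_Ul_mp (θ : ℝ) : MeasurePreserving (fun z : ℂ => (xx θ z, yy θ z)) volume
    ((volume : Measure ℝ).prod (volume : Measure ℝ)) := by
  have h1 : MeasurePreserving (rotation (Circle.exp (-θ))) volume volume :=
    LinearIsometryEquiv.measurePreserving _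
  have h2 := Complex.volume_preserving_equiv_real_prod
  have h3 : MeasurePreserving (Prod.swap : ℝ × ℝ → ℝ × ℝ) ((volume : Measure ℝ).prod volume)
      ((volume : Measure ℝ).prod volume) := Measure.measurePreserving_swap
  have h4 := h3.comp (h2.comp h1)
  convert h4 using 1
  funext z
  simp only [Function.comp, Complex.measurableEquivRealProd_apply, Prod.swap, rotation_apply,
    Circle.coe_exp]
  have e1 : Complex.exp (((-θ : ℝ) : ℂ) * Complex.I) =
      ((Real.cos θ : ℝ) : ℂ) - ((Real.sin θ : ℝ) : ℂ) * Complex.I := by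
    rw [Complex.exp_mul_I, ← Complex.ofReal_cos, ← Complex.ofReal_sin, Real.cos_neg,
      Real.sin_neg]
    push_cast
    ring
  rw [e1]
  unfold xx yy
  simp only [Complex.mul_re, Complex.mul_im, Complex.sub_re, Complex.sub_im, Complex.ofReal_re,
    Complex.ofReal_im, Complex.I_re, Complex.I_im]
  refine Prod.ext ?_ ?_
  · simp only; ring
  · simp only; ring

/-- The limiting width. -/
noncomputable def pf_Ul_mu (K : Set ℂ) (θ x : ℝ) : ℝ := min (x - xm K θ) (xp K θ - x) ^ 2 / 2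

theorem pf_Ul_mu_cont (K : Set ℂ) (θ : ℝ) : Continuous (pf_Ul_mu K θ) := by
  unfold pf_Ul_mu
  fun_prop

/-- The integral of the limiting width. -/
theorem pf_Ul_int (K : Set ℂ) (θ : ℝ) (hl : 0 < ell K θ) :
    ∫ x in (xm K θ)..(xp K θ), pf_Ul_mu K θ x = ell K θ ^ 3 / 24 := by
  set a := xm K θ with ha
  set b := xp K θ with hb
  have hab : a < b := by
    have : 0 < b - a := hl
    linarith
  have hc := pf_Ul_mu_cont K θ
  rw [← intervalIntegral.integral_add_adjacent_intervals (b := (a + b) / 2)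
    (hc.intervalIntegrable _ _) (hc.intervalIntegrable _ _)]
  have e1 : ∫ x in a..((a + b) / 2), pf_Ul_mu K θ x = ∫ x in a..((a + b) / 2), (x - a) ^ 2 / 2 := by
    refine intervalIntegral.integral_congr fun x hx => ?_
    rw [uIcc_of_le (by linarith)] at hx
    simp only [pf_Ul_mu]
    rw [← ha, ← hb, min_eq_left (by linarith [hx.2])]
  have e2 : ∫ x in ((a + b) / 2)..b, pf_Ul_mu K θ x = ∫ x in ((a + b) / 2)..b, (b - x) ^ 2 / 2 := by
    refine intervalIntegral.integral_congr fun x hx => ?_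
    rw [uIcc_of_le (by linarith)] at hx
    simp only [pf_Ul_mu]
    rw [← ha, ← hb, min_eq_right (by linarith [hx.1])]
  rw [e1, e2]
  have e3 : ∫ x in a..((a + b) / 2), (x - a) ^ 2 / 2 = (b - a) ^ 3 / 48 := by
    rw [intervalIntegral.integral_div, intervalIntegral.integral_comp_sub_right (fun x => x ^ 2) a,
      integral_pow]
    push_cast
    ring
  have e4 : ∫ x in ((a + b) / 2)..b, (b - x) ^ 2 / 2 = (b - a) ^ 3 / 48 := by
    rw [intervalIntegral.integral_div, intervalIntegral.integral_comp_sub_left (fun x => x ^ 2) b,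
      integral_pow]
    push_cast
    ring
  rw [e3, e4]
  have : ell K θ = b - a := rfl
  rw [this]
  ring

/-- Uniform estimate. -/
theorem pf_Ul_unif (h1 : S_hs) (K : Set ℂ) (ρ : ℝ) (hK : Good K ρ) (hTP : TP K) (θ : ℝ)
    (hl : 0 < ell K θ) (η : ℝ) (hη : 0 < η) : ∃ R₀ : ℝ, ∀ R, R₀ ≤ R → 0 ≤ R →
      ∀ x ∈ Ioo (xm K θ) (xp K θ), ∀ k ∈ K,
        pf_Ul_mu K θ x - η ≤ R * (hs K θ - yy θ k) + (x - xx θ k) ^ 2 / 2 := by
  obtain ⟨hKc, hK0, hKρ⟩ := hK
  obtain ⟨-, hle, -, -, -, -, -, -, hp, hm, -, -, -⟩ := h1 K ρ hKc ⟨0, hK0⟩ hKρ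
  obtain ⟨p, hpf, hpx⟩ := hp θ
  obtain ⟨q, hqf, hqx⟩ := hm θ
  have hl' : 0 < xp K θ - xm K θ := hl
  set ℓ := ell K θ with hℓ
  have hℓ' : ℓ = xp K θ - xm K θ := rfl
  set δ := η / ℓ with hδ
  have hδ0 : 0 < δ := by positivity
  have hδℓ : δ * ℓ = η := by rw [hδ]; field_simp
  set S : Set ℂ := K ∩ {k | δ ≤ |xx θ k - xm K θ| ∧ δ ≤ |xx θ k - xp K θ|} with hS
  have hScl : IsClosed {k : ℂ | δ ≤ |xx θ k - xm K θ| ∧ δ ≤ |xx θ k - xp K θ|} :=
    (isClosed_le continuous_const ((pf_Ul_cont_xx θ).sub continuous_const).abs).inter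
      (isClosed_le continuous_const ((pf_Ul_cont_xx θ).sub continuous_const).abs)
  have hSc : IsCompact S := hKc.inter_right hScl
  have hnear : ∀ R, 0 ≤ R → ∀ x ∈ Ioo (xm K θ) (xp K θ), ∀ k ∈ K, k ∉ S →
      pf_Ul_mu K θ x - η ≤ R * (hs K θ - yy θ k) + (x - xx θ k) ^ 2 / 2 := by
    intro R hR x hx k hk hkS
    have h2 : 0 ≤ R * (hs K θ - yy θ k) := mul_nonneg hR (by linarith [hle θ k hk])
    set t := min (x - xm K θ) (xp K θ - x) with ht
    have ht0 : 0 < t := lt_min (by linarith [hx.1]) (by linarith [hx.2])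
    have ht1 : t ≤ x - xm K θ := min_le_left _ _
    have ht2 : t ≤ xp K θ - x := min_le_right _ _
    have htℓ : t ≤ ℓ := by rw [hℓ']; linarith [hx.2]
    have hmu : pf_Ul_mu K θ x = t ^ 2 / 2 := rfl
    rw [hmu]
    have h3 : t ^ 2 / 2 - η ≤ (x - xx θ k) ^ 2 / 2 := by
      rcases le_or_gt t δ with h4 | h4
      · nlinarith [sq_nonneg (x - xx θ k)]
      · have h5 : (t - δ) ^ 2 ≤ (x - xx θ k) ^ 2 := by
          have h6 : t - δ ≤ |x - xx θ k| := by
            by_contra hcon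
            push Not at hcon
            have h7 := abs_lt.mp hcon
            apply hkS
            refine ⟨hk, ?_, ?_⟩
            · refine le_trans ?_ (le_abs_self _)
              linarith [h7.2]
            · refine le_trans ?_ (neg_le_abs _)
              linarith [h7.1]
          have h8 := sq_le_sq' (by linarith [abs_nonneg (x - xx θ k)]) h6
          rwa [sq_abs] at h8
        nlinarith
    linarith
  rcases S.eq_empty_or_nonempty with hSe | hSne
  · exact ⟨0, fun R _ hR x hx k hk => hnear R hR x hx k hk (by rw [hSe]; exact fun h => h)⟩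
  · obtain ⟨k₀, hk₀, hmin⟩ := hSc.exists_isMinOn hSne
      (continuous_const.sub (pf_Ul_cont_yy θ) : Continuous fun k => hs K θ - yy θ k).continuousOn
    have hc : 0 < hs K θ - yy θ k₀ := by
      rcases lt_or_eq_of_le (hle θ k₀ hk₀.1) with h2 | h2
      · linarith
      · exfalso
        have hk₀f : k₀ ∈ face K θ := ⟨hk₀.1, h2⟩
        have h3 : δ ≤ |xx θ k₀ - xm K θ| ∧ δ ≤ |xx θ k₀ - xp K θ| := hk₀.2
        rcases hTP θ q hqf p hpf k₀ hk₀f with h4 | h4 | h4
        · rw [h4, hpx] at hqx; linarith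
        · rw [← h4, hpx] at h3
          have := h3.2
          rw [sub_self, abs_zero] at this
          linarith
        · rw [← h4, hqx] at h3
          have := h3.1
          rw [sub_self, abs_zero] at this
          linarith
    refine ⟨ℓ ^ 2 / (hs K θ - yy θ k₀), ?_⟩
    intro R hR hR0 x hx k hk
    by_cases hkS : k ∈ S
    · have h2 : hs K θ - yy θ k₀ ≤ hs K θ - yy θ k := hmin hkS
      rw [div_le_iff₀ hc] at hR
      have h3 : R * (hs K θ - yy θ k₀) ≤ R * (hs K θ - yy θ k) :=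
        mul_le_mul_of_nonneg_left h2 hR0
      set t := min (x - xm K θ) (xp K θ - x) with ht
      have ht0 : 0 < t := lt_min (by linarith [hx.1]) (by linarith [hx.2])
      have ht1 : t ≤ x - xm K θ := min_le_left _ _
      have htℓ : t ≤ ℓ := by rw [hℓ']; linarith [hx.2]
      have hmu : pf_Ul_mu K θ x = t ^ 2 / 2 := rfl
      rw [hmu]
      nlinarith [sq_nonneg (x - xx θ k)]
    · exact hnear R hR0 x hx k hk hkS

/-- The part of the gap over one edge. -/
def pf_Ul_G (K : Set ℂ) (θ R η : ℝ) : Set ℂ :=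
  (fun z : ℂ => (xx θ z, yy θ z)) ⁻¹' regionBetween
    (fun x => hs K θ + R - max (pf_Ul_mu K θ x - η) 0 / R) (fun _ => hs K θ + R)
    (Ioo (xm K θ) (xp K θ))

theorem pf_Ul_mem_G (K : Set ℂ) (θ R η : ℝ) (z : ℂ) : z ∈ pf_Ul_G K θ R η ↔
    xx θ z ∈ Ioo (xm K θ) (xp K θ) ∧ yy θ z ∈ Ioo
      (hs K θ + R - max (pf_Ul_mu K θ (xx θ z) - η) 0 / R) (hs K θ + R) := Iff.rfl

theorem pf_Ul_meas_G (K : Set ℂ) (θ R η : ℝ) : MeasurableSet (pf_Ul_G K θ R η) := by
  refine (pf_Ul_mp θ).measurable (measurableSet_regionBetween ?_ measurable_const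
    measurableSet_Ioo)
  have := (pf_Ul_mu_cont K θ)
  exact Continuous.measurable (by fun_prop)

theorem pf_Ul_vol_G (K : Set ℂ) (θ R η : ℝ) (hR : 0 < R) (hl : 0 < ell K θ) :
    ENNReal.ofReal ((ell K θ ^ 3 / 24 - η * ell K θ) / R) ≤ volume (pf_Ul_G K θ R η) := by
  have hc := pf_Ul_mu_cont K θ
  have hab : xm K θ ≤ xp K θ := by
    have : 0 < xp K θ - xm K θ := hl
    linarith
  have hf : Continuous (fun x => hs K θ + R - max (pf_Ul_mu K θ x - η) 0 / R) := by fun_prop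
  have hg : Continuous (fun _ : ℝ => hs K θ + R) := continuous_const
  have hfi : IntegrableOn (fun x => hs K θ + R - max (pf_Ul_mu K θ x - η) 0 / R)
      (Ioo (xm K θ) (xp K θ)) volume :=
    (hf.continuousOn.integrableOn_Icc).mono_set Ioo_subset_Icc_self
  have hgi : IntegrableOn (fun _ : ℝ => hs K θ + R) (Ioo (xm K θ) (xp K θ)) volume :=
    (hg.continuousOn.integrableOn_Icc).mono_set Ioo_subset_Icc_self
  unfold pf_Ul_G
  rw [(pf_Ul_mp θ).measure_preimage (measurableSet_regionBetween hf.measurable hg.measurable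
    measurableSet_Ioo).nullMeasurableSet, volume_regionBetween_eq_integral hfi hgi
    measurableSet_Ioo (fun x _ => by
      have : 0 ≤ max (pf_Ul_mu K θ x - η) 0 / R := div_nonneg (le_max_right _ _) hR.le
      linarith)]
  refine ENNReal.ofReal_le_ofReal ?_
  rw [← integral_Ioc_eq_integral_Ioo, ← intervalIntegral.integral_of_le hab]
  have e1 : ∫ x in (xm K θ)..(xp K θ), (pf_Ul_mu K θ x - η) / R =
      (ell K θ ^ 3 / 24 - η * ell K θ) / R := by
    rw [intervalIntegral.integral_div, intervalIntegral.integral_sub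
      (hc.intervalIntegrable _ _) (intervalIntegrable_const), pf_Ul_int K θ hl,
      intervalIntegral.integral_const, smul_eq_mul]
    have : ell K θ = xp K θ - xm K θ := rfl
    rw [this]
    ring
  rw [← e1]
  refine intervalIntegral.integral_mono_on hab
    (Continuous.intervalIntegrable (by fun_prop) _ _)
    ((hg.sub hf).intervalIntegrable _ _) fun x _ => ?_
  simp only [Pi.sub_apply]
  have h2 : (pf_Ul_mu K θ x - η) / R ≤ max (pf_Ul_mu K θ x - η) 0 / R :=
    div_le_div_of_nonneg_right (le_max_left _ _) hR.le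
  linarith

/-- The foot of the perpendicular on the edge. -/
theorem pf_Ul_foot (h1 : S_hs) (K : Set ℂ) (ρ : ℝ) (hK : Good K ρ) (θ : ℝ) (z : ℂ)
    (hz : xx θ z ∈ Ioo (xm K θ) (xp K θ)) : ∃ a ∈ convexHull ℝ K, xx θ a = xx θ z ∧
      yy θ a = hs K θ ∧ ∀ θ', yy θ' a ≤ hs K θ' := by
  obtain ⟨hKc, hK0, hKρ⟩ := hK
  obtain ⟨-, hle, -, -, -, -, -, -, hp, hm, -, -, -⟩ := h1 K ρ hKc ⟨0, hK0⟩ hKρ
  obtain ⟨p, hpf, hpx⟩ := hp θ
  obtain ⟨q, hqf, hqx⟩ := hm θ
  have hl : 0 < xp K θ - xm K θ := by linarith [hz.1, hz.2]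
  set u := (xp K θ - xx θ z) / (xp K θ - xm K θ) with hu
  set v := (xx θ z - xm K θ) / (xp K θ - xm K θ) with hv
  have hu0 : 0 ≤ u := div_nonneg (by linarith [hz.2]) hl.le
  have hv0 : 0 ≤ v := div_nonneg (by linarith [hz.1]) hl.le
  have huv : u + v = 1 := by
    rw [hu, hv, ← add_div, div_eq_one_iff_eq hl.ne']; ring
  have hxx : ∀ φ, xx φ (u • q + v • p) = u * xx φ q + v * xx φ p := by
    intro φ
    unfold xx
    simp only [Complex.add_re, Complex.add_im, Complex.real_smul, Complex.mul_re,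
      Complex.mul_im, Complex.ofReal_re, Complex.ofReal_im]
    ring
  have hyy : ∀ φ, yy φ (u • q + v • p) = u * yy φ q + v * yy φ p := by
    intro φ
    unfold yy
    simp only [Complex.add_re, Complex.add_im, Complex.real_smul, Complex.mul_re,
      Complex.mul_im, Complex.ofReal_re, Complex.ofReal_im]
    ring
  refine ⟨u • q + v • p, ?_, ?_, ?_, ?_⟩
  · exact (convex_convexHull ℝ K) (subset_convexHull ℝ K hqf.1) (subset_convexHull ℝ K hpf.1)
      hu0 hv0 huv
  · rw [hxx, hqx, hpx, hu, hv]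
    field_simp
    ring
  · rw [hyy, hqf.2, hpf.2, ← add_mul, huv, one_mul]
  · intro φ
    rw [hyy]
    have e1 := mul_le_mul_of_nonneg_left (hle φ q hqf.1) hu0
    have e2 := mul_le_mul_of_nonneg_left (hle φ p hpf.1) hv0
    have e3 : u * hs K φ + v * hs K φ = hs K φ := by rw [← add_mul, huv, one_mul]
    linarith

theorem pf_Ul_disj (h1 : S_hs) (K : Set ℂ) (ρ : ℝ) (hK : Good K ρ) (θ θ' : ℝ)
    (hθ : θ ∈ Ico (0:ℝ) (2 * π)) (hθ' : θ' ∈ Ico (0:ℝ) (2 * π)) (z : ℂ)
    (hz : xx θ z ∈ Ioo (xm K θ) (xp K θ)) (hz' : xx θ' z ∈ Ioo (xm K θ') (xp K θ'))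
    (hd : hs K θ < yy θ z) (hd' : hs K θ' < yy θ' z) : θ = θ' := by
  obtain ⟨a, -, hax, hay, hal⟩ := pf_Ul_foot h1 K ρ hK θ z hz
  obtain ⟨b, -, hbx, hby, hbl⟩ := pf_Ul_foot h1 K ρ hK θ' z hz'
  have key : ∀ (φ ψ : ℝ) (c : ℂ), xx ψ c = xx ψ z → yy φ z - yy φ c =
      (yy ψ z - yy ψ c) * Real.cos (φ - ψ) := by
    intro φ ψ c hc
    rw [Real.cos_sub]
    unfold xx at hc
    unfold yy
    have hs1 := Real.sin_sq_add_cos_sq ψ
    have e1 : (z.im - c.im) * Real.cos ψ = (z.re - c.re) * Real.sin ψ := by linarith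
    have e2 : z.re - c.re = ((z.re - c.re) * Real.cos ψ + (z.im - c.im) * Real.sin ψ) *
        Real.cos ψ := by
      calc z.re - c.re = (z.re - c.re) * (Real.sin ψ ^ 2 + Real.cos ψ ^ 2) := by
            rw [hs1, mul_one]
        _ = (z.re - c.re) * Real.sin ψ * Real.sin ψ + (z.re - c.re) * Real.cos ψ ^ 2 := by ring
        _ = (z.im - c.im) * Real.cos ψ * Real.sin ψ + (z.re - c.re) * Real.cos ψ ^ 2 := by
            rw [e1]
        _ = _ := by ring
    have e3 : z.im - c.im = ((z.re - c.re) * Real.cos ψ + (z.im - c.im) * Real.sin ψ) *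
        Real.sin ψ := by
      calc z.im - c.im = (z.im - c.im) * (Real.sin ψ ^ 2 + Real.cos ψ ^ 2) := by
            rw [hs1, mul_one]
        _ = (z.im - c.im) * Real.sin ψ ^ 2 + (z.im - c.im) * Real.cos ψ * Real.cos ψ := by ring
        _ = (z.im - c.im) * Real.sin ψ ^ 2 + (z.re - c.re) * Real.sin ψ * Real.cos ψ := by
            rw [e1]
        _ = _ := by ring
    calc z.re * Real.cos φ + z.im * Real.sin φ - (c.re * Real.cos φ + c.im * Real.sin φ)
        = (z.re - c.re) * Real.cos φ + (z.im - c.im) * Real.sin φ := by ring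
      _ = (((z.re - c.re) * Real.cos ψ + (z.im - c.im) * Real.sin ψ) * Real.cos ψ) *
          Real.cos φ + (((z.re - c.re) * Real.cos ψ + (z.im - c.im) * Real.sin ψ) *
          Real.sin ψ) * Real.sin φ := by rw [← e2, ← e3]
      _ = _ := by ring
  have k1 := key θ θ' b hbx
  have k2 := key θ' θ a hax
  have l1 := hbl θ
  have l2 := hal θ'
  rw [hby] at k1
  rw [hay] at k2
  have hcc : Real.cos (θ' - θ) = Real.cos (θ - θ') := by
    rw [← Real.cos_neg]; congr 1; ring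
  rw [hcc] at k2
  have hc1 := Real.cos_le_one (θ - θ')
  have hcos : Real.cos (θ - θ') = 1 := by
    by_contra hne
    have hlt : Real.cos (θ - θ') < 1 := lt_of_le_of_ne hc1 hne
    nlinarith
  have := (Real.cos_eq_one_iff_of_lt_of_lt (by linarith [hθ.1, hθ'.2]) (by
    linarith [hθ.2, hθ'.1])).mp hcos
  linarith

/-- The sets lie in the gap. -/
theorem pf_Ul_sub (h1 : S_hs) (K : Set ℂ) (ρ : ℝ) (hK : Good K ρ) (hρ : 0 < ρ) (θ R η : ℝ)
    (hR : 4 * ρ < R) (hη : 0 < η)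
    (hu : ∀ x ∈ Ioo (xm K θ) (xp K θ), ∀ k ∈ K,
        pf_Ul_mu K θ x - η ≤ R * (hs K θ - yy θ k) + (x - xx θ k) ^ 2 / 2) (z : ℂ)
    (hz : z ∈ pf_Ul_G K θ R η) :
    hs K θ < yy θ z ∧ z ∈ thickening R (convexHull ℝ K) \ thickening R K := by
  have hK' := hK
  obtain ⟨hKc, hK0, hKρ⟩ := hK
  obtain ⟨-, hle, -, -, -, -, -, -, hp, hm, -, -, -⟩ := h1 K ρ hKc ⟨0, hK0⟩ hKρ
  obtain ⟨p, hpf, hpx⟩ := hp θ
  obtain ⟨q, hqf, hqx⟩ := hm θ
  have hR0 : 0 < R := by linarith
  rw [pf_Ul_mem_G] at hz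
  obtain ⟨hx, hy1, hy2⟩ := hz
  have hKx : ∀ k ∈ K, |xx θ k| ≤ ρ := fun k hk =>
    (pf_Ul_abs_xx θ k).trans (by simpa using hKρ hk)
  have hpρ := abs_le.mp (hKx p hpf.1)
  have hqρ := abs_le.mp (hKx q hqf.1)
  rw [hpx] at hpρ
  rw [hqx] at hqρ
  set x := xx θ z with hxdef
  set y := yy θ z with hydef
  set t := min (x - xm K θ) (xp K θ - x) with ht
  have ht0 : 0 < t := lt_min (by linarith [hx.1]) (by linarith [hx.2])
  have ht1 : t ≤ x - xm K θ := min_le_left _ _
  have ht2 : t ≤ 2 * ρ := by linarith [hx.2]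
  have hmu : pf_Ul_mu K θ x = t ^ 2 / 2 := rfl
  have hmax : max (pf_Ul_mu K θ x - η) 0 ≤ 2 * ρ ^ 2 := by
    refine max_le ?_ (by positivity)
    rw [hmu]; nlinarith
  have hmaxR : max (pf_Ul_mu K θ x - η) 0 / R < R := by
    rw [div_lt_iff₀ hR0]; nlinarith
  have hpos : 0 < max (pf_Ul_mu K θ x - η) 0 := by
    by_contra hcon
    have h0 : max (pf_Ul_mu K θ x - η) 0 = 0 := le_antisymm (not_lt.mp hcon) (le_max_right _ _)
    rw [h0, zero_div, sub_zero] at hy1
    linarith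
  have hmaxeq : max (pf_Ul_mu K θ x - η) 0 = pf_Ul_mu K θ x - η := by
    rcases max_choice (pf_Ul_mu K θ x - η) 0 with h | h
    · exact h
    · rw [h] at hpos; exact absurd hpos (lt_irrefl _)
  have hyh : hs K θ < y := by linarith
  refine ⟨hyh, ?_, ?_⟩
  · obtain ⟨a, ha, hax, hay, -⟩ := pf_Ul_foot h1 K ρ hK' θ z hx
    rw [mem_thickening_iff]
    refine ⟨a, ha, ?_⟩
    rw [dist_eq_norm]
    refine lt_of_pow_lt_pow_left₀ 2 hR0.le ?_
    rw [pf_Ul_norm θ, pf_Ul_xx_sub, pf_Ul_yy_sub, hax, hay, ← hxdef, ← hydef]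
    nlinarith
  · rw [mem_thickening_iff]
    rintro ⟨k, hk, hdist⟩
    rw [dist_eq_norm] at hdist
    have h2 : ‖z - k‖ ^ 2 < R ^ 2 := pow_lt_pow_left₀ hdist (norm_nonneg _) two_ne_zero
    rw [pf_Ul_norm θ, pf_Ul_xx_sub, pf_Ul_yy_sub, ← hxdef, ← hydef] at h2
    have h3 := hu x hx k hk
    rw [hmaxeq] at hy1
    set w := (x - xx θ k) ^ 2 / 2 with hw
    have h4 : (pf_Ul_mu K θ x - η) / R ≤ (hs K θ - yy θ k) + w / R := by
      rw [div_le_iff₀ hR0, add_mul, div_mul_cancel₀ _ hR0.ne']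
      linarith
    have h5 : R - w / R < y - yy θ k := by linarith
    have hkx := abs_le.mp (hKx k hk)
    have hw0 : 0 ≤ w := by rw [hw]; positivity
    have hw1 : w ≤ 2 * ρ ^ 2 := by
      rw [hw]
      have h6 : |x - xx θ k| ≤ 2 * ρ := by
        rw [abs_le]
        constructor <;> linarith [hx.1, hx.2]
      have h7 := sq_le_sq' (by linarith [abs_nonneg (x - xx θ k)]) h6
      rw [sq_abs] at h7
      nlinarith
    have hwR : 0 ≤ w / R := by positivity
    have hwR1 : w / R < R := by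
      rw [div_lt_iff₀ hR0]; nlinarith
    have h8 : (R - w / R) ^ 2 ≤ (y - yy θ k) ^ 2 := by
      apply sq_le_sq' <;> linarith
    have h9 : (R - w / R) ^ 2 = R ^ 2 - 2 * w + (w / R) ^ 2 := by
      have : w / R * R = w := div_mul_cancel₀ _ hR0.ne'
      nlinarith
    have h10 : (x - xx θ k) ^ 2 = 2 * w := by rw [hw]; ring
    nlinarith [sq_nonneg (w / R)]

theorem pf_Ul (h1 : S_hs) : S_Ul := by
  classical
  intro K ρ hK hρ hTP hGG ε hε
  have hK' := hK
  obtain ⟨hKc, hK0, hKρ⟩ := hK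
  obtain ⟨-, hle, -, -, -, -, -, -, hp, hm, hpm, -, -⟩ := h1 K ρ hKc ⟨0, hK0⟩ hKρ
  have hell : ∀ θ, 0 ≤ ell K θ := by
    intro θ
    obtain ⟨p, hpf, hpx⟩ := hp θ
    have := (hpm θ p hpf).1
    rw [hpx] at this
    unfold ell
    linarith
  -- a finite set of directions
  have hsum : HasSum (fun θ : Ico (0:ℝ) (2 * π) => ell K θ ^ 3) (GG K).toReal := by
    have h2 := ENNReal.hasSum_toReal (f := fun θ : Ico (0:ℝ) (2 * π) =>
      ENNReal.ofReal (ell K θ) ^ 3) hGG
    have h3 : (GG K).toReal = ∑' θ : Ico (0:ℝ) (2 * π),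
        (ENNReal.ofReal (ell K θ) ^ 3).toReal :=
      ENNReal.tsum_toReal_eq (ENNReal.ne_top_of_tsum_ne_top hGG)
    rw [h3]
    refine h2.congr_fun ?_
    intro θ
    rw [ENNReal.toReal_pow, ENNReal.toReal_ofReal (hell θ)]
  obtain ⟨F, hF⟩ := (hsum.eventually (lt_mem_nhds
    (show (GG K).toReal - 12 * ε < (GG K).toReal by linarith))).exists
  set F' : Finset (Ico (0:ℝ) (2 * π)) :=
    F.filter (fun θ : Ico (0:ℝ) (2 * π) => 0 < ell K θ) with hF'
  have hFF' : ∑ θ ∈ F', ell K θ ^ 3 = ∑ θ ∈ F, ell K θ ^ 3 := by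
    rw [hF']
    refine Finset.sum_filter_of_ne ?_
    intro θ _ hne
    rcases lt_or_eq_of_le (hell θ) with h | h
    · exact h
    · rw [← h] at hne; simp at hne
  set L := ∑ θ ∈ F', ell K θ with hL
  have hL0 : 0 ≤ L := Finset.sum_nonneg fun θ _ => hell θ
  set η := ε / (2 * (L + 1)) with hη
  have hη0 : 0 < η := by positivity
  have hηL : η * L ≤ ε / 2 := by
    rw [hη, div_mul_eq_mul_div, div_le_div_iff₀ (by positivity) (by norm_num)]
    nlinarith
  have hev : ∀ᶠ R in atTop, ∀ θ ∈ F', ∀ x ∈ Ioo (xm K θ) (xp K θ), ∀ k ∈ K,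
        pf_Ul_mu K θ x - η ≤ R * (hs K θ - yy θ k) + (x - xx θ k) ^ 2 / 2 := by
    rw [Filter.eventually_all_finset]
    intro θ hθ
    have hl := (Finset.mem_filter.mp hθ).2
    obtain ⟨R₀, hR₀⟩ := pf_Ul_unif h1 K ρ hK' hTP θ hl η hη0
    filter_upwards [eventually_ge_atTop R₀, eventually_ge_atTop 0] with R h2 h3
    exact hR₀ R h2 h3
  filter_upwards [hev, eventually_gt_atTop (4 * ρ)] with R hRu hR
  have hR0 : 0 < R := by linarith
  have hsub : ∀ θ ∈ F', ∀ z ∈ pf_Ul_G K θ R η, hs K θ < yy θ z ∧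
      z ∈ thickening R (convexHull ℝ K) \ thickening R K := fun θ hθ z hz =>
    pf_Ul_sub h1 K ρ hK' hρ θ R η hR hη0 (hRu θ hθ) z hz
  have hdisj : (F' : Set (Ico (0:ℝ) (2 * π))).PairwiseDisjoint
      (fun θ => pf_Ul_G K θ R η) := by
    intro θ hθ θ' hθ' hne
    rw [Function.onFun, Set.disjoint_left]
    intro z hz hz'
    apply hne
    exact Subtype.ext (pf_Ul_disj h1 K ρ hK' θ θ' θ.2 θ'.2 z hz.1 hz'.1
      (hsub θ hθ z hz).1 (hsub θ' hθ' z hz').1)
  have hU : (⋃ θ ∈ F', pf_Ul_G K θ R η) ⊆ thickening R (convexHull ℝ K) \ thickening R K := by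
    intro z hz
    simp only [Set.mem_iUnion] at hz
    obtain ⟨θ, hθ, hz⟩ := hz
    exact (hsub θ hθ z hz).2
  have hfin : volume (thickening R (convexHull ℝ K) \ thickening R K) ≠ ∞ := by
    have hb : Bornology.IsBounded (thickening R (convexHull ℝ K)) :=
      (isBounded_convexHull.mpr hKc.isBounded).thickening
    exact ((measure_mono sdiff_subset).trans_lt hb.measure_lt_top).ne
  have hmeas : ∑ θ ∈ F', volume (pf_Ul_G K θ R η) ≤
      volume (thickening R (convexHull ℝ K) \ thickening R K) := by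
    rw [← measure_biUnion_finset hdisj fun θ _ => pf_Ul_meas_G K θ R η]
    exact measure_mono hU
  have hsum2 : ∑ θ ∈ F', ENNReal.ofReal ((ell K θ ^ 3 / 24 - η * ell K θ) / R) ≤
      volume (thickening R (convexHull ℝ K) \ thickening R K) := by
    refine le_trans (Finset.sum_le_sum fun θ hθ => ?_) hmeas
    have hl : 0 < ell K θ := (Finset.mem_filter.mp hθ).2
    exact pf_Ul_vol_G K θ R η hR0 hl
  have hsum3 : ∑ θ ∈ F', (ell K θ ^ 3 / 24 - η * ell K θ) / R ≤
      (volume (thickening R (convexHull ℝ K) \ thickening R K)).toReal := by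
    have h2 := ENNReal.toReal_mono hfin hsum2
    rw [ENNReal.toReal_sum fun θ _ => ENNReal.ofReal_ne_top] at h2
    refine le_trans (Finset.sum_le_sum fun θ _ => ?_) h2
    rw [ENNReal.toReal_ofReal']
    exact le_max_left _ _
  rw [← Finset.sum_div, Finset.sum_sub_distrib, ← Finset.sum_div, ← Finset.mul_sum, ← hL,
    hFF', div_le_iff₀ hR0] at hsum3
  have hF2 : (GG K).toReal - 12 * ε < ∑ θ ∈ F, ell K θ ^ 3 := hF
  linarith

end Pool.Agent.H212AN
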