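import Pool.Agent.H212AN.D0

set_option autoImplicit false

namespace Pool.Agent.H212AN

open MeasureTheory Set Filter Topology Metric
open scoped Real ENNReal

lemma pf_Uu_rot (θ : ℝ) (z : ℂ) :
    (rotation (Circle.exp (-θ)) z).re = yy θ z ∧ (rotation (Circle.exp (-θ)) z).im = xx θ z := by
  have h : (rotation (Circle.exp (-θ)) z) = Complex.exp (((-θ : ℝ) : ℂ) * Complex.I) * z := by
    rw [rotation_apply, Circle.coe_exp]
  rw [h, Complex.exp_mul_I, ← Complex.ofReal_cos, ← Complex.ofReal_sin, Real.cos_neg, Real.sin_neg]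
  constructor
  · simp [yy, Complex.cos_ofReal_re, Complex.sin_ofReal_re]; ring
  · simp [xx, Complex.cos_ofReal_re, Complex.sin_ofReal_re]; ring

lemma pf_Uu_mp (θ : ℝ) : MeasurePreserving (fun z : ℂ => (yy θ z, xx θ z)) := by
  have h1 : MeasurePreserving (rotation (Circle.exp (-θ)) : ℂ → ℂ) :=
    (rotation (Circle.exp (-θ))).measurePreserving
  have h2 := Complex.volume_preserving_equiv_real_prod.comp h1
  convert h2 using 1
  funext z
  have := pf_Uu_rot θ z
  simp only [Function.comp, Complex.measurableEquivRealProd_apply]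
  rw [this.1, this.2]

lemma pf_Uu_norm (θ : ℝ) (z k : ℂ) :
    ‖z - k‖ ^ 2 = (xx θ z - xx θ k) ^ 2 + (yy θ z - yy θ k) ^ 2 := by
  rw [← Complex.normSq_eq_norm_sq, Complex.normSq_apply]
  simp only [Complex.sub_re, Complex.sub_im, xx, yy]
  have h := Real.sin_sq_add_cos_sq θ
  linear_combination (-(z.re - k.re) ^ 2 - (z.im - k.im) ^ 2) * h

lemma pf_Uu_root (R m ρ : ℝ) (hR : 0 < R) (hm : |m| ≤ ρ) (hρ : 4 * ρ < R) :
    R - √(R ^ 2 - m ^ 2) ≤ 1 / (2 * R) * (1 + ρ ^ 2 / R ^ 2) * m ^ 2 := by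
  have hm2 : m ^ 2 ≤ ρ ^ 2 := sq_le_sq' (neg_le_of_abs_le hm) (le_of_abs_le hm)
  have hρ0 : 0 ≤ ρ := (abs_nonneg m).trans hm
  have h16 : 16 * ρ ^ 2 ≤ R ^ 2 := by nlinarith
  set t := m ^ 2 / R ^ 2 with ht
  have ht0 : 0 ≤ t := by positivity
  have ht1 : t ≤ 1 / 16 := by rw [ht, div_le_iff₀ (by positivity)]; linarith
  have htm : t * R ^ 2 = m ^ 2 := by rw [ht]; field_simp
  have h1 : R * (1 - t / 2 - t ^ 2 / 2) ≤ √(R ^ 2 - m ^ 2) := by
    apply Real.le_sqrt_of_sq_le
    have h2 : (1 - t / 2 - t ^ 2 / 2) ^ 2 ≤ 1 - t := by nlinarith [sq_nonneg t, mul_nonneg ht0 ht0, mul_nonneg (mul_nonneg ht0 ht0) ht0]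
    calc (R * (1 - t / 2 - t ^ 2 / 2)) ^ 2 = R ^ 2 * (1 - t / 2 - t ^ 2 / 2) ^ 2 := by ring
      _ ≤ R ^ 2 * (1 - t) := mul_le_mul_of_nonneg_left h2 (by positivity)
      _ = R ^ 2 - m ^ 2 := by rw [← htm]; ring
  have h3 : t ≤ ρ ^ 2 / R ^ 2 := by rw [ht]; gcongr
  have h4 : 1 / (2 * R) * (1 + ρ ^ 2 / R ^ 2) * m ^ 2 = R / 2 * (1 + ρ ^ 2 / R ^ 2) * t := by
    rw [← htm]; field_simp
  rw [h4]
  have h5 : R / 2 * (1 + t) * t ≤ R / 2 * (1 + ρ ^ 2 / R ^ 2) * t := by gcongr
  nlinarith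

lemma pf_Uu_int (a l : ℝ) (hl : 0 < l) :
    ∫ x in a..(a + l), (min (x - a) (l - (x - a))) ^ 2 = l ^ 3 / 12 := by
  have hc : Continuous fun x : ℝ => (min (x - a) (l - (x - a))) ^ 2 := by fun_prop
  rw [← intervalIntegral.integral_add_adjacent_intervals (b := a + l / 2)
    (hc.intervalIntegrable _ _) (hc.intervalIntegrable _ _)]
  have e1 : ∫ x in a..(a + l / 2), (min (x - a) (l - (x - a))) ^ 2 =
      ∫ x in a..(a + l / 2), (x - a) ^ 2 := by
    apply intervalIntegral.integral_congr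
    intro x hx
    rw [uIcc_of_le (by linarith)] at hx
    simp only
    rw [min_eq_left (by linarith [hx.2])]
  have e2 : ∫ x in (a + l / 2)..(a + l), (min (x - a) (l - (x - a))) ^ 2 =
      ∫ x in (a + l / 2)..(a + l), (a + l - x) ^ 2 := by
    apply intervalIntegral.integral_congr
    intro x hx
    rw [uIcc_of_le (by linarith)] at hx
    simp only
    rw [min_eq_right (by linarith [hx.1])]
    ring
  rw [e1, e2, intervalIntegral.integral_comp_sub_right (fun x => x ^ 2) a,
    intervalIntegral.integral_comp_sub_left (fun x => x ^ 2) (a + l), integral_pow, integral_pow]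
  norm_num
  ring

lemma pf_Uu_vol (θ a l h R ρ : ℝ) (hl : 0 < l) (hlρ : l ≤ 2 * ρ) (hR : 4 * ρ < R) :
    volume {z : ℂ | 0 < xx θ z - a ∧ xx θ z - a < l ∧ 0 < yy θ z - h ∧ yy θ z - h < R ∧
      R ^ 2 ≤ (xx θ z - a) ^ 2 + (yy θ z - h) ^ 2 ∧
      R ^ 2 ≤ (l - (xx θ z - a)) ^ 2 + (yy θ z - h) ^ 2} ≤
    ENNReal.ofReal (1 / (24 * R) * (1 + ρ ^ 2 / R ^ 2)) * ENNReal.ofReal l ^ 3 := by
  have hρ0 : 0 < ρ := by linarith
  have hR0 : 0 < R := by linarith
  set S : Set (ℝ × ℝ) := {p | 0 < p.2 - a ∧ p.2 - a < l ∧ 0 < p.1 - h ∧ p.1 - h < R ∧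
      R ^ 2 ≤ (p.2 - a) ^ 2 + (p.1 - h) ^ 2 ∧
      R ^ 2 ≤ (l - (p.2 - a)) ^ 2 + (p.1 - h) ^ 2} with hS
  have hSm : MeasurableSet S := by
    rw [hS]
    simp only [Set.ofPred_and]
    exact (measurableSet_lt (by fun_prop) (by fun_prop)).inter
      ((measurableSet_lt (by fun_prop) (by fun_prop)).inter
      ((measurableSet_lt (by fun_prop) (by fun_prop)).inter
      ((measurableSet_lt (by fun_prop) (by fun_prop)).inter
      ((measurableSet_le (by fun_prop) (by fun_prop)).inter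
      (measurableSet_le (by fun_prop) (by fun_prop))))))
  have e1 : volume {z : ℂ | 0 < xx θ z - a ∧ xx θ z - a < l ∧ 0 < yy θ z - h ∧ yy θ z - h < R ∧
      R ^ 2 ≤ (xx θ z - a) ^ 2 + (yy θ z - h) ^ 2 ∧
      R ^ 2 ≤ (l - (xx θ z - a)) ^ 2 + (yy θ z - h) ^ 2} = volume S :=
    (pf_Uu_mp θ).measure_preimage hSm.nullMeasurableSet
  rw [e1, Measure.volume_eq_prod, Measure.prod_apply_symm hSm]
  set κ := 1 / (2 * R) * (1 + ρ ^ 2 / R ^ 2) with hκ
  have hκ0 : 0 ≤ κ := by positivity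
  have hsec : ∀ x : ℝ, volume ((fun y => (y, x)) ⁻¹' S) ≤
      (Ioo a (a + l)).indicator (fun x => ENNReal.ofReal
        (κ * (min (x - a) (l - (x - a))) ^ 2)) x := by
    intro x
    by_cases hx : x ∈ Ioo a (a + l)
    · rw [indicator_of_mem hx]
      set m := min (x - a) (l - (x - a)) with hm
      have hm0 : 0 < m := lt_min (by linarith [hx.1]) (by linarith [hx.2])
      have hml : m ≤ ρ := by
        have h1 := min_le_left (x - a) (l - (x - a))
        have h2 := min_le_right (x - a) (l - (x - a))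
        rw [← hm] at h1 h2
        linarith
      have hsub : ((fun y => (y, x)) ⁻¹' S) ⊆ Ico (h + √(R ^ 2 - m ^ 2)) (h + R) := by
        rintro y ⟨h1, h2, h3, h4, h5, h6⟩
        simp only at h1 h2 h3 h4 h5 h6
        refine ⟨?_, by linarith⟩
        have h7 : R ^ 2 - m ^ 2 ≤ (y - h) ^ 2 := by
          rcases min_choice (x - a) (l - (x - a)) with hc | hc <;> rw [hm, hc] <;> linarith
        have h8 : √(R ^ 2 - m ^ 2) ≤ y - h := by
          rw [Real.sqrt_le_left h3.le]; exact h7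
        linarith
      refine (measure_mono hsub).trans ?_
      rw [Real.volume_Ico]
      apply ENNReal.ofReal_le_ofReal
      have := pf_Uu_root R m ρ hR0 (by rw [abs_of_pos hm0]; exact hml) hR
      linarith
    · rw [indicator_of_notMem hx]
      have : ((fun y => (y, x)) ⁻¹' S) = ∅ := by
        ext y
        simp only [mem_preimage, mem_empty_iff_false, iff_false]
        rintro ⟨h1, h2, _⟩
        exact hx ⟨by simp only at h1; linarith, by simp only at h2; linarith⟩
      rw [this]; simp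
  refine (lintegral_mono hsec).trans ?_
  rw [lintegral_indicator measurableSet_Ioo]
  have hc : Continuous fun x : ℝ => κ * (min (x - a) (l - (x - a))) ^ 2 := by fun_prop
  rw [← ofReal_integral_eq_lintegral_ofReal]
  · rw [← integral_Ioc_eq_integral_Ioo, ← intervalIntegral.integral_of_le (by linarith),
      intervalIntegral.integral_const_mul, pf_Uu_int a l hl, ← ENNReal.ofReal_pow hl.le,
      ← ENNReal.ofReal_mul (by positivity)]
    apply ENNReal.ofReal_le_ofReal
    apply le_of_eq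
    rw [hκ]; field_simp; ring
  · exact (hc.integrableOn_Icc).mono_set Ioo_subset_Icc_self
  · exact Eventually.of_forall fun x => by positivity

lemma pf_Uu_derR (g : ℝ → ℝ) (g' θ : ℝ) (h : HasDerivWithinAt g g' (Ici θ) θ)
    (h0 : ∀ φ, 0 ≤ g φ) (h1 : g θ = 0) : 0 ≤ g' := by
  have h2 := (hasDerivWithinAt_iff_tendsto_slope' (by simp)).1 h.Ioi_of_Ici
  refine ge_of_tendsto h2 ?_
  filter_upwards [self_mem_nhdsWithin] with φ hφ
  rw [slope_def_field, h1, sub_zero]
  exact div_nonneg (h0 φ) (sub_nonneg.2 (le_of_lt hφ))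

lemma pf_Uu_derL (g : ℝ → ℝ) (g' θ : ℝ) (h : HasDerivWithinAt g g' (Iic θ) θ)
    (h0 : ∀ φ, 0 ≤ g φ) (h1 : g θ = 0) : g' ≤ 0 := by
  have h2 := (hasDerivWithinAt_iff_tendsto_slope' (by simp)).1 h.Iio_of_Iic
  refine le_of_tendsto h2 ?_
  filter_upwards [self_mem_nhdsWithin] with φ hφ
  rw [slope_def_field, h1, sub_zero]
  exact div_nonpos_of_nonneg_of_nonpos (h0 φ) (sub_nonpos.2 (le_of_lt hφ))

lemma pf_Uu_yy (θ : ℝ) (c : ℂ) : HasDerivAt (fun φ => yy φ c) (xx θ c) θ := by
  have h := ((Real.hasDerivAt_cos θ).const_mul c.re).add ((Real.hasDerivAt_sin θ).const_mul c.im)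
  have e : c.re * -Real.sin θ + c.im * Real.cos θ = xx θ c := by unfold xx; ring
  rw [e] at h
  exact h

/-- points of the convex hull on a supporting line -/
lemma pf_Uu_hull (K : Set ℂ) (θ : ℝ) (hle : ∀ φ, ∀ k ∈ K, yy φ k ≤ hs K φ)
    (hdp : HasDerivWithinAt (hs K) (xp K θ) (Ici θ) θ)
    (hdm : HasDerivWithinAt (hs K) (xm K θ) (Iic θ) θ)
    (c : ℂ) (hc : c ∈ closure (convexHull ℝ K)) :
    yy θ c ≤ hs K θ ∧ (yy θ c = hs K θ → xm K θ ≤ xx θ c ∧ xx θ c ≤ xp K θ) := by
  have hall : ∀ φ, yy φ c ≤ hs K φ := by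
    intro φ
    have hcl : IsClosed {w : ℂ | yy φ w ≤ hs K φ} := by
      refine isClosed_le ?_ continuous_const
      unfold yy; fun_prop
    have hcv : Convex ℝ {w : ℂ | yy φ w ≤ hs K φ} := by
      intro x hx y hy a b ha hb hab
      simp only [mem_ofPred_eq] at hx hy ⊢
      have : yy φ (a • x + b • y) = a * yy φ x + b * yy φ y := by
        simp only [yy, Complex.add_re, Complex.add_im, Complex.smul_re, Complex.smul_im,
          smul_eq_mul]
        ring
      rw [this]
      calc a * yy φ x + b * yy φ y ≤ a * hs K φ + b * hs K φ := by gcongr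
        _ = hs K φ := by rw [← add_mul, hab, one_mul]
    exact closure_minimal (convexHull_min (fun k hk => hle φ k hk) hcv) hcl hc
  refine ⟨hall θ, fun he => ?_⟩
  have hy := pf_Uu_yy θ c
  have h1 := pf_Uu_derR (fun φ => hs K φ - yy φ c) _ θ (hdp.sub hy.hasDerivWithinAt)
    (fun φ => sub_nonneg.2 (hall φ)) (by simp only [he, sub_self])
  have h2 := pf_Uu_derL (fun φ => hs K φ - yy φ c) _ θ (hdm.sub hy.hasDerivWithinAt)
    (fun φ => sub_nonneg.2 (hall φ)) (by simp only [he, sub_self])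
  exact ⟨by linarith, by linarith⟩

lemma pf_Uu_xx_le (θ : ℝ) (k : ℂ) : |xx θ k| ≤ ‖k‖ := by
  have h := pf_Uu_norm θ k 0
  have h0 : xx θ 0 = 0 := by simp [xx]
  have h0' : yy θ 0 = 0 := by simp [yy]
  rw [sub_zero, h0, h0', sub_zero, sub_zero] at h
  apply abs_le_of_sq_le_sq _ (norm_nonneg k)
  nlinarith [sq_nonneg (yy θ k)]

theorem pf_Uu (h1 : S_hs) : S_Uu := by
  intro K ρ R hG hρ hR
  obtain ⟨hK, h0, hKρ⟩ := hG
  have hR0 : 0 < R := by linarith
  obtain ⟨hface, hle, habs, hlip, hper, hcos, hdp, hdm, hxp, hxm, hxb, hch, hnn⟩ :=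
    h1 K ρ hK ⟨0, h0⟩ hKρ
  have hc0 : 0 < 1 / (24 * R) * (1 + ρ ^ 2 / R ^ 2) := by positivity
  by_cases hfin : GG K = ∞
  · rw [hfin, ENNReal.mul_top (by rwa [Ne, ENNReal.ofReal_eq_zero, not_le])]
    exact le_top
  have hcount : (Function.support fun θ : Ico (0:ℝ) (2 * π) =>
      ENNReal.ofReal (ell K θ) ^ 3).Countable := Summable.countable_support_ennreal hfin
  set T : Set (Ico (0:ℝ) (2 * π)) := Function.support fun θ : Ico (0:ℝ) (2 * π) =>
      ENNReal.ofReal (ell K θ) ^ 3 with hT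
  set A : Ico (0:ℝ) (2 * π) → Set ℂ := fun θ => {z : ℂ | 0 < xx θ z - xm K θ ∧
      xx θ z - xm K θ < ell K θ ∧ 0 < yy θ z - hs K θ ∧ yy θ z - hs K θ < R ∧
      R ^ 2 ≤ (xx θ z - xm K θ) ^ 2 + (yy θ z - hs K θ) ^ 2 ∧
      R ^ 2 ≤ (ell K θ - (xx θ z - xm K θ)) ^ 2 + (yy θ z - hs K θ) ^ 2} with hA
  -- the gap is covered
  have hCb : closure (convexHull ℝ K) ⊆ closedBall (0:ℂ) ρ :=
    closure_minimal (convexHull_min hKρ (convex_closedBall _ _)) isClosed_closedBall
  have hCc : IsCompact (closure (convexHull ℝ K)) :=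
    (isCompact_closedBall (0:ℂ) ρ).of_isClosed_subset isClosed_closure hCb
  have hCs : K ⊆ closure (convexHull ℝ K) := (subset_convexHull ℝ K).trans subset_closure
  have hCne : (closure (convexHull ℝ K)).Nonempty := ⟨0, hCs h0⟩
  have hCv : Convex ℝ (closure (convexHull ℝ K)) := (convex_convexHull ℝ K).closure
  have hcover : thickening R (convexHull ℝ K) \ thickening R K ⊆ ⋃ θ ∈ T, A θ := by
    rintro z ⟨hz1, hz2⟩
    have hz3 : ∀ k ∈ K, R ≤ ‖z - k‖ := by
      intro k hk
      by_contra hlt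
      push Not at hlt
      exact hz2 (mem_thickening_iff.2 ⟨k, hk, by rw [dist_eq_norm]; exact hlt⟩)
    obtain ⟨c, hc, hcd⟩ := hCc.exists_infDist_eq_dist hCne z
    have hdR : ‖z - c‖ < R := by
      rw [← dist_eq_norm, ← hcd]
      rw [mem_thickening_iff] at hz1
      obtain ⟨w, hw, hwd⟩ := hz1
      exact (infDist_le_dist_of_mem (subset_closure hw)).trans_lt hwd
    have hmin : ∀ w ∈ closure (convexHull ℝ K), ‖z - c‖ ≤ ‖z - w‖ := by
      intro w hw
      rw [← dist_eq_norm, ← dist_eq_norm, ← hcd]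
      exact infDist_le_dist_of_mem hw
    have hzc : z ≠ c := by
      rintro rfl
      have h2 : ‖z‖ ≤ ρ := by
        have : z ∈ closedBall (0:ℂ) ρ := hCb hc
        simpa using this
      have h3 := hz3 0 h0
      rw [sub_zero] at h3
      linarith
    have hd0 : 0 < ‖z - c‖ := norm_pos_iff.2 (sub_ne_zero.2 hzc)
    set d := ‖z - c‖ with hd
    -- the direction
    obtain ⟨θ, hθ, hθe⟩ : ∃ θ ∈ Ico (0:ℝ) (2 * π), z - c = d * Complex.exp (θ * Complex.I) := by
      refine ⟨toIcoMod Real.two_pi_pos 0 (Complex.arg (z - c)), ?_, ?_⟩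
      · have := toIcoMod_mem_Ico Real.two_pi_pos 0 (Complex.arg (z - c))
        simpa using this
      · have h2 : Complex.exp (((toIcoMod Real.two_pi_pos 0 (Complex.arg (z - c)) : ℝ) : ℂ) *
            Complex.I) = Complex.exp ((Complex.arg (z - c) : ℂ) * Complex.I) := by
          rw [toIcoMod]
          push_cast
          rw [Complex.exp_eq_exp_iff_exists_int]
          refine ⟨-toIcoDiv Real.two_pi_pos 0 (Complex.arg (z - c)), ?_⟩
          simp only [zsmul_eq_mul]
          push_cast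
          ring
        rw [h2, hd]
        exact (Complex.norm_mul_exp_arg_mul_I (z - c)).symm
    have hre : z.re - c.re = d * Real.cos θ := by
      have := congrArg Complex.re hθe
      rw [Complex.exp_mul_I, ← Complex.ofReal_cos, ← Complex.ofReal_sin] at this
      simpa [Complex.cos_ofReal_re] using this
    have him : z.im - c.im = d * Real.sin θ := by
      have := congrArg Complex.im hθe
      rw [Complex.exp_mul_I, ← Complex.ofReal_cos, ← Complex.ofReal_sin] at this
      simpa [Complex.sin_ofReal_re] using this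
    have hsc := Real.sin_sq_add_cos_sq θ
    have hxz : xx θ z = xx θ c := by
      simp only [xx]
      linear_combination Real.cos θ * him - Real.sin θ * hre
    have hyz : yy θ z = yy θ c + d := by
      simp only [yy]
      linear_combination Real.cos θ * hre + Real.sin θ * him + d * hsc
    -- supporting line
    have hsup : ∀ k ∈ K, yy θ k ≤ yy θ c := by
      intro k hk
      have hkC : k ∈ closure (convexHull ℝ K) := hCs hk
      by_contra hlt
      push Not at hlt
      set u := yy θ k - yy θ c with hu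
      have hu0 : 0 < u := by rw [hu]; linarith
      have hkc : 0 < ‖k - c‖ ^ 2 := by
        have h2 := pf_Uu_norm θ k c
        have : 0 < u ^ 2 := by positivity
        nlinarith [sq_nonneg (xx θ k - xx θ c)]
      -- move from `c` to `k`
      set t := min 1 (d * u / ‖k - c‖ ^ 2) with ht
      have ht0 : 0 < t := lt_min one_pos (by positivity)
      have ht1 : t ≤ 1 := min_le_left _ _
      have ht2 : t * ‖k - c‖ ^ 2 ≤ d * u := by
        have := min_le_right 1 (d * u / ‖k - c‖ ^ 2)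
        rw [← ht, le_div_iff₀ hkc] at this
        exact this
      have hw : c + (t : ℝ) • (k - c) ∈ closure (convexHull ℝ K) :=
        hCv.add_smul_sub_mem hc hkC ⟨ht0.le, ht1⟩
      have h3 := hmin _ hw
      have h4 : d ^ 2 ≤ ‖z - (c + (t : ℝ) • (k - c))‖ ^ 2 := by
        exact pow_le_pow_left₀ hd0.le h3 2
      rw [pf_Uu_norm θ z (c + (t : ℝ) • (k - c))] at h4
      have e1 : xx θ (c + (t : ℝ) • (k - c)) = xx θ c + t * (xx θ k - xx θ c) := by
        simp only [xx, Complex.add_re, Complex.add_im, Complex.smul_re, Complex.smul_im,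
          Complex.sub_re, Complex.sub_im, smul_eq_mul]
        ring
      have e2 : yy θ (c + (t : ℝ) • (k - c)) = yy θ c + t * u := by
        simp only [hu, yy, Complex.add_re, Complex.add_im, Complex.smul_re, Complex.smul_im,
          Complex.sub_re, Complex.sub_im, smul_eq_mul]
        ring
      rw [e1, e2, hxz, hyz] at h4
      have h5 := pf_Uu_norm θ k c
      rw [← hu] at h5
      have h6 : t ^ 2 * ‖k - c‖ ^ 2 ≤ t * (d * u) := by
        calc t ^ 2 * ‖k - c‖ ^ 2 = t * (t * ‖k - c‖ ^ 2) := by ring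
          _ ≤ t * (d * u) := mul_le_mul_of_nonneg_left ht2 ht0.le
      have h7 : 0 < t * (d * u) := by positivity
      rw [h5] at h6
      nlinarith
    have hcH : yy θ c = hs K θ := by
      apply le_antisymm
      · exact (pf_Uu_hull K θ hle (hdp θ) (hdm θ) c hc).1
      · obtain ⟨k, hk⟩ := hface θ
        rw [← hk.2]
        exact hsup k hk.1
    have hcx := (pf_Uu_hull K θ hle (hdp θ) (hdm θ) c hc).2 hcH
    obtain ⟨p, hp, hpx⟩ := hxp θ
    obtain ⟨q, hq, hqx⟩ := hxm θ
    have hzp : R ^ 2 ≤ (xx θ c - xp K θ) ^ 2 + d ^ 2 := by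
      have h2 := pow_le_pow_left₀ hR0.le (hz3 p hp.1) 2
      rw [pf_Uu_norm θ, hpx, hp.2, hxz, hyz, hcH] at h2
      simpa using h2
    have hzq : R ^ 2 ≤ (xx θ c - xm K θ) ^ 2 + d ^ 2 := by
      have h2 := pow_le_pow_left₀ hR0.le (hz3 q hq.1) 2
      rw [pf_Uu_norm θ, hqx, hq.2, hxz, hyz, hcH] at h2
      simpa using h2
    have hd2 : d ^ 2 < R ^ 2 := by nlinarith
    have hs1 : 0 < xx θ c - xm K θ := by
      rcases (sub_nonneg.2 hcx.1).lt_or_eq with h2 | h2
      · exact h2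
      · rw [← h2] at hzq; nlinarith
    have hs2 : 0 < xp K θ - xx θ c := by
      rcases (sub_nonneg.2 hcx.2).lt_or_eq with h2 | h2
      · exact h2
      · have h3 : xx θ c - xp K θ = 0 := by linarith
        rw [h3] at hzp; nlinarith
    have hell : 0 < ell K θ := by rw [ell]; linarith
    refine mem_iUnion₂.2 ⟨⟨θ, hθ⟩, ?_, ?_⟩
    · rw [hT, Function.mem_support]
      exact pow_ne_zero _ (by rwa [Ne, ENNReal.ofReal_eq_zero, not_le])
    · refine ⟨?_, ?_, ?_, ?_, ?_, ?_⟩
      · simp only [hxz]; exact hs1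
      · simp only [hxz, ell]; linarith
      · simp only [hyz, hcH]; linarith
      · simp only [hyz, hcH]; linarith
      · simp only [hxz, hyz, hcH]
        have : hs K θ + d - hs K θ = d := by ring
        rw [this]; exact hzq
      · simp only [hxz, hyz, hcH, ell]
        have : hs K θ + d - hs K θ = d := by ring
        rw [this]
        have : (xp K θ - xm K θ - (xx θ c - xm K θ)) ^ 2 = (xx θ c - xp K θ) ^ 2 := by ring
        rw [this]; exact hzp
  refine (measure_mono hcover).trans ((measure_biUnion_le volume hcount A).trans ?_)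
  have hterm : ∀ θ : T, volume (A θ) ≤ ENNReal.ofReal (1 / (24 * R) * (1 + ρ ^ 2 / R ^ 2)) *
      ENNReal.ofReal (ell K θ) ^ 3 := by
    rintro ⟨θ, hθ⟩
    have hell : 0 < ell K θ := by
      by_contra hneg
      push Not at hneg
      rw [hT, Function.mem_support, ENNReal.ofReal_of_nonpos hneg] at hθ
      simp at hθ
    have hl2 : ell K θ ≤ 2 * ρ := by
      obtain ⟨p, hp, hpx⟩ := hxp θ
      obtain ⟨q, hq, hqx⟩ := hxm θ
      have h2 := (pf_Uu_xx_le θ p).trans (by simpa using hKρ hp.1 : ‖p‖ ≤ ρ)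
      have h3 := (pf_Uu_xx_le θ q).trans (by simpa using hKρ hq.1 : ‖q‖ ≤ ρ)
      rw [ell, ← hpx, ← hqx]
      have h4 := (abs_le.1 h2).2
      have h5 := (abs_le.1 h3).1
      linarith
    exact pf_Uu_vol θ (xm K θ) (ell K θ) (hs K θ) R ρ hell hl2 hR
  refine (ENNReal.tsum_le_tsum hterm).trans ?_
  rw [ENNReal.tsum_mul_left]
  gcongr
  exact ENNReal.tsum_comp_le_tsum_of_injective Subtype.val_injective
    (fun θ : Ico (0:ℝ) (2 * π) => ENNReal.ofReal (ell K θ) ^ 3)

end Pool.Agent.H212AN
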