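import Pool.Agent.H212AN.D0b

set_option autoImplicit false

namespace Pool.Agent.H212AN

open MeasureTheory Set Filter Topology Metric
open scoped Real ENNReal Convolution

/-- second-order necessary condition -/
lemma pf_ap_sec (f : ℝ → ℝ) (hf : ContDiff ℝ (⊤ : ℕ∞) f) (θ : ℝ)
    (h : ∀ φ, 2 * Real.cos φ * f θ ≤ f (θ + φ) + f (θ - φ)) :
    0 ≤ f θ + deriv (deriv f) θ := by
  by_contra hneg
  push Not at hneg
  set F : ℝ → ℝ := fun φ => f (θ + φ) + f (θ - φ) - 2 * Real.cos φ * f θ with hF
  have hd : Differentiable ℝ f := hf.differentiable (by simp)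
  have hdd : Differentiable ℝ (deriv f) := by
    have h2 : ContDiff ℝ ((1:ℕ∞) + 1) f := hf.of_le (by exact_mod_cast le_top)
    exact ((contDiff_succ_iff_deriv.1 h2).2.2).differentiable (by simp)
  have hF1 : ∀ φ, HasDerivAt F (deriv f (θ + φ) - deriv f (θ - φ) + 2 * Real.sin φ * f θ) φ := by
    intro φ
    have e1 : HasDerivAt (fun φ => f (θ + φ)) (deriv f (θ + φ)) φ := by
      simpa using (hd (θ + φ)).hasDerivAt.comp_const_add θ φ
    have e2 : HasDerivAt (fun φ => f (θ - φ)) (-deriv f (θ - φ)) φ := by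
      simpa using (hd (θ - φ)).hasDerivAt.comp_const_sub θ φ
    have e3 : HasDerivAt (fun φ => 2 * Real.cos φ * f θ) (2 * (-Real.sin φ) * f θ) φ :=
      ((Real.hasDerivAt_cos φ).const_mul 2).mul_const _
    exact ((e1.add e2).sub e3).congr_deriv (by ring)
  have hF1' : deriv F = fun φ => deriv f (θ + φ) - deriv f (θ - φ) + 2 * Real.sin φ * f θ :=
    funext fun φ => (hF1 φ).deriv
  have hF2 : HasDerivAt (deriv F) (2 * (f θ + deriv (deriv f) θ)) 0 := by
    rw [hF1']
    have e1 : HasDerivAt (fun φ => deriv f (θ + φ)) (deriv (deriv f) (θ + 0)) 0 := by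
      simpa using (hdd (θ + 0)).hasDerivAt.comp_const_add θ 0
    have e2 : HasDerivAt (fun φ => deriv f (θ - φ)) (-deriv (deriv f) (θ - 0)) 0 := by
      simpa using (hdd (θ - 0)).hasDerivAt.comp_const_sub θ 0
    have e3 : HasDerivAt (fun φ => 2 * Real.sin φ * f θ) (2 * (Real.cos 0) * f θ) 0 :=
      ((Real.hasDerivAt_sin 0).const_mul 2).mul_const _
    refine ((e1.sub e2).add e3).congr_deriv ?_
    simp only [add_zero, sub_zero, Real.cos_zero]
    ring
  have hneg2 : deriv (deriv F) 0 < 0 := by
    rw [hF2.deriv]; linarith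
  have hmax : IsLocalMax F 0 := by
    refine isLocalMax_of_deriv_deriv_neg hneg2 ?_ (hF1 0).continuousAt
    rw [(hF1 0).deriv]; simp
  have hF0 : F 0 = 0 := by
    simp only [hF, add_zero, sub_zero, Real.cos_zero]; ring
  have hev : F =ᶠ[𝓝 0] fun _ => (0:ℝ) := by
    have hm : ∀ᶠ x in 𝓝 (0:ℝ), F x ≤ F 0 := hmax
    filter_upwards [hm] with x hx
    refine le_antisymm (hx.trans hF0.le) ?_
    have := h x
    simp only [hF]; linarith
  have h1 : deriv F =ᶠ[𝓝 0] deriv (fun _ => (0:ℝ)) := hev.deriv
  have h2 : deriv (deriv F) 0 = deriv (deriv (fun _ : ℝ => (0:ℝ))) 0 := h1.deriv_eq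
  rw [h2] at hneg2
  simp at hneg2

/-- derivative of the mollification of a Lipschitz function -/
lemma pf_ap_der (φ : ContDiffBump (0:ℝ)) (h : ℝ → ℝ) (C : NNReal) (hL : LipschitzWith C h)
    (x₀ : ℝ) :
    HasDerivAt ((φ.normed volume) ⋆[ContinuousLinearMap.lsmul ℝ ℝ, volume] h : ℝ → ℝ)
      (((φ.normed volume) ⋆[ContinuousLinearMap.lsmul ℝ ℝ, volume] (deriv h) : ℝ → ℝ) x₀) x₀ := by
  have hηc : Continuous (φ.normed (volume : Measure ℝ)) := φ.continuous_normed
  have hηs : HasCompactSupport (φ.normed (volume : Measure ℝ)) := φ.hasCompactSupport_normed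
  have hη0 : ∀ t, 0 ≤ φ.normed (volume : Measure ℝ) t := φ.nonneg_normed
  have hηi : Integrable (φ.normed (volume : Measure ℝ)) := hηc.integrable_of_hasCompactSupport hηs
  have key := hasDerivAt_integral_of_dominated_loc_of_lip (𝕜 := ℝ) (μ := (volume : Measure ℝ))
    (F := fun x t => φ.normed (volume : Measure ℝ) t * h (x - t))
    (F' := fun t => φ.normed (volume : Measure ℝ) t * deriv h (x₀ - t))
    (bound := fun t => (C : ℝ) * φ.normed (volume : Measure ℝ) t) (x₀ := x₀) (s := univ)
    univ_mem
    (Eventually.of_forall fun x => (hηc.mul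
      (hL.continuous.comp (continuous_const.sub continuous_id))).aestronglyMeasurable)
    ((hηc.mul (hL.continuous.comp (continuous_const.sub
      continuous_id))).integrable_of_hasCompactSupport hηs.mul_right)
    (hηc.aestronglyMeasurable.mul
      ((measurable_deriv h).comp (measurable_const.sub measurable_id)).aestronglyMeasurable)
    (Eventually.of_forall fun t => by
      refine LipschitzWith.lipschitzOnWith ?_
      refine LipschitzWith.of_dist_le_mul fun x y => ?_
      have e0 : |(C:ℝ) * φ.normed (volume : Measure ℝ) t| = C * φ.normed (volume : Measure ℝ) t :=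
        abs_of_nonneg (mul_nonneg C.2 (hη0 t))
      have e1 : ((Real.nnabs ((C:ℝ) * φ.normed (volume : Measure ℝ) t) : NNReal) : ℝ) =
          C * φ.normed (volume : Measure ℝ) t := by rw [Real.coe_nnabs]; exact e0
      have := hL.dist_le_mul (x - t) (y - t)
      rw [dist_sub_right] at this
      rw [e1, Real.dist_eq, ← mul_sub, abs_mul, abs_of_nonneg (hη0 t), ← Real.dist_eq]
      nlinarith [mul_le_mul_of_nonneg_left this (hη0 t)])
    (hηi.const_mul _)
    (by
      have hae : ∀ᵐ t : ℝ, DifferentiableAt ℝ h t := hL.ae_differentiableAt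
      have hmp : MeasurePreserving (fun t : ℝ => x₀ - t) volume volume :=
        Measure.measurePreserving_sub_left volume x₀
      have := hmp.quasiMeasurePreserving.ae hae
      filter_upwards [this] with t ht
      have e : HasDerivAt (fun x => h (x - t)) (deriv h (x₀ - t)) x₀ := by
        simpa using ht.hasDerivAt.comp_sub_const x₀ t
      exact e.const_mul _)
  have := key.2
  simpa only [convolution_def, ContinuousLinearMap.lsmul_apply, smul_eq_mul] using! this

theorem pf_ap (h1 : S_hs) : S_ap := by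
  intro C r hC hconv hr hball
  obtain ⟨ρ, hρ⟩ := hC.isBounded.subset_closedBall (0:ℂ)
  have h0C : (0:ℂ) ∈ C := hball (mem_ball_self hr)
  obtain ⟨-, -, -, hL, hper, hcos, -, -, -, -, -, -, hnn⟩ := h1 C ρ hC ⟨0, h0C⟩ hρ
  have hnn := hnn h0C
  set h := hs C with hh
  set L := Real.toNNReal ρ with hLdef
  have hcont : Continuous h := hL.continuous
  let φ : ℕ → ContDiffBump (0:ℝ) := fun n =>
    ⟨1 / (2 * ((n:ℝ) + 1)), 1 / ((n:ℝ) + 1), by positivity, by
      apply one_div_lt_one_div_of_lt <;> [positivity; nlinarith [(n.cast_nonneg : (0:ℝ) ≤ n)]]⟩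
  have hφo : ∀ n, (φ n).rOut = 1 / ((n:ℝ) + 1) := fun n => rfl
  have hφi : ∀ n, (φ n).rIn = 1 / (2 * ((n:ℝ) + 1)) := fun n => rfl
  let f : ℕ → ℝ → ℝ := fun n => ((φ n).normed volume) ⋆[ContinuousLinearMap.lsmul ℝ ℝ, volume] h
  have hfdef : ∀ n θ, f n θ = ∫ t, (φ n).normed volume t * h (θ - t) := by
    intro n θ
    simp only [f, convolution_def, ContinuousLinearMap.lsmul_apply, smul_eq_mul]
  have hη0 : ∀ n t, 0 ≤ (φ n).normed (volume : Measure ℝ) t := fun n => (φ n).nonneg_normed
  have hηc : ∀ n, Continuous ((φ n).normed (volume : Measure ℝ)) := fun n => (φ n).continuous_normed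
  have hηs : ∀ n, HasCompactSupport ((φ n).normed (volume : Measure ℝ)) :=
    fun n => (φ n).hasCompactSupport_normed
  have hηi : ∀ n, Integrable ((φ n).normed (volume : Measure ℝ)) :=
    fun n => (hηc n).integrable_of_hasCompactSupport (hηs n)
  have hint : ∀ n (u : ℝ → ℝ), Continuous u →
      Integrable (fun t => (φ n).normed (volume : Measure ℝ) t * u t) := fun n u hu =>
    ((hηc n).mul hu).integrable_of_hasCompactSupport (hηs n).mul_right
  have hfs : ∀ n, ContDiff ℝ (⊤ : ℕ∞) (f n) := fun n =>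
    (hηs n).contDiff_convolution_left _ (φ n).contDiff_normed hcont.locallyIntegrable
  have hfper : ∀ n, Function.Periodic (f n) (2 * π) := by
    intro n θ
    rw [hfdef, hfdef]
    refine integral_congr_ae (Eventually.of_forall fun t => ?_)
    have : θ + 2 * π - t = (θ - t) + 2 * π := by ring
    simp only [this, hper (θ - t)]
  have hf0 : ∀ n θ, 0 ≤ f n θ := by
    intro n θ
    rw [hfdef]
    exact integral_nonneg fun t => mul_nonneg (hη0 n t) (hnn _)
  have hfcos : ∀ n θ φ, 2 * Real.cos φ * f n θ ≤ f n (θ + φ) + f n (θ - φ) := by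
    intro n θ ψ
    rw [hfdef, hfdef, hfdef, ← integral_const_mul, ← integral_add]
    · refine integral_mono ((hint n _ (by fun_prop)).const_mul _) ((hint n _ (by fun_prop)).add
        (hint n _ (by fun_prop))) fun t => ?_
      have e := hcos (θ - t) ψ
      have e1 : θ + ψ - t = θ - t + ψ := by ring
      have e2 : θ - ψ - t = θ - t - ψ := by ring
      simp only [e1, e2]
      nlinarith [hη0 n t, mul_le_mul_of_nonneg_left e (hη0 n t)]
    · exact hint n _ (by fun_prop)
    · exact hint n _ (by fun_prop)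
  have hfsec : ∀ n θ, 0 ≤ f n θ + deriv (deriv (f n)) θ := fun n θ =>
    pf_ap_sec (f n) (hfs n) θ (hfcos n θ)
  have hfder : ∀ n θ, deriv (f n) θ =
      (((φ n).normed volume) ⋆[ContinuousLinearMap.lsmul ℝ ℝ, volume] (deriv h) : ℝ → ℝ) θ :=
    fun n θ => (pf_ap_der (φ n) h L hL θ).deriv
  have hdb : ∀ θ, |deriv h θ| ≤ L := fun θ => by
    have := norm_deriv_le_of_lipschitz hL (x₀ := θ)
    simpa using this
  have hfdb : ∀ n θ, |deriv (f n) θ| ≤ L := by
    intro n θ
    rw [hfder]
    simp only [convolution_def, ContinuousLinearMap.lsmul_apply, smul_eq_mul]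
    calc |∫ t, (φ n).normed volume t * deriv h (θ - t)|
        ≤ ∫ t, |(φ n).normed volume t * deriv h (θ - t)| := abs_integral_le_integral_abs
      _ ≤ ∫ t, (φ n).normed volume t * L := by
          refine integral_mono_of_nonneg (Eventually.of_forall fun t => abs_nonneg _)
            ((hηi n).mul_const _) (Eventually.of_forall fun t => ?_)
          simp only [abs_mul, abs_of_nonneg (hη0 n t)]
          exact mul_le_mul_of_nonneg_left (hdb _) (hη0 n t)
      _ = L := by rw [integral_mul_const, (φ n).integral_normed, one_mul]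
  have htend : Tendsto (fun n : ℕ => 1 / ((n:ℝ) + 1)) atTop (𝓝 0) :=
    tendsto_one_div_add_atTop_nhds_zero_nat
  have hae : ∀ᵐ θ : ℝ, Tendsto (fun n => deriv (f n) θ) atTop (𝓝 (deriv h θ)) := by
    have hloc : LocallyIntegrable (deriv h) (volume : Measure ℝ) := by
      intro x
      refine ⟨closedBall x 1, closedBall_mem_nhds x one_pos, ?_⟩
      refine Measure.integrableOn_of_bounded (M := L) (isCompact_closedBall x 1).measure_lt_top.ne
        (measurable_deriv h).aestronglyMeasurable (Eventually.of_forall fun t => ?_)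
      simpa using hdb t
    have := ContDiffBump.ae_convolution_tendsto_right_of_locallyIntegrable (φ := φ)
      (l := atTop) (K := 2) (μ := (volume : Measure ℝ)) (g := deriv h)
      (by simpa only [hφo] using htend)
      (Eventually.of_forall fun n => by
        rw [hφo, hφi]
        have : (0:ℝ) < (n:ℝ) + 1 := by positivity
        rw [mul_one_div, div_le_div_iff₀ this (by positivity)]
        linarith) hloc
    filter_upwards [this] with θ hθ
    simpa only [hfder] using hθ
  refine ⟨fun n θ => f n θ + 1 / ((n:ℝ) + 1), ?_, ?_, ?_, ?_, ?_, ?_⟩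
  · intro n
    exact (hfs n).add contDiff_const
  · intro n θ
    simp only [hfper n θ]
  · intro n θ
    have := hf0 n θ
    have : (0:ℝ) < 1 / ((n:ℝ) + 1) := by positivity
    linarith [hf0 n θ]
  · intro n θ
    have e1 : deriv (fun θ => f n θ + 1 / ((n:ℝ) + 1)) = deriv (f n) := by
      funext x; simp
    rw [e1]
    have : (0:ℝ) < 1 / ((n:ℝ) + 1) := by positivity
    linarith [hfsec n θ]
  · refine ⟨fun n => (L + 1) * (1 / ((n:ℝ) + 1)), ?_, ?_⟩
    · simpa using htend.const_mul ((L:ℝ) + 1)
    · intro n θ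
      have hd : dist (f n θ) (h θ) ≤ L * (1 / ((n:ℝ) + 1)) := by
        refine ContDiffBump.dist_normed_convolution_le (φ := φ n) (μ := (volume : Measure ℝ))
          hcont.aestronglyMeasurable fun x hx => ?_
        have hx' : dist x θ < 1 / ((n:ℝ) + 1) := hx
        exact (hL.dist_le_mul x θ).trans (mul_le_mul_of_nonneg_left hx'.le L.2)
      rw [Real.dist_eq] at hd
      have hp : (0:ℝ) < 1 / ((n:ℝ) + 1) := by positivity
      have e : f n θ + 1 / ((n:ℝ) + 1) - h θ = (f n θ - h θ) + 1 / ((n:ℝ) + 1) := by ring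
      rw [e]
      refine (abs_add_le _ _).trans ?_
      rw [abs_of_pos hp]
      have e3 : ((L:ℝ) + 1) * (1 / ((n:ℝ) + 1)) = L * (1 / ((n:ℝ) + 1)) + 1 / ((n:ℝ) + 1) := by
        ring
      simp only [e3]
      linarith
  · have e1 : ∀ n : ℕ, deriv (fun θ => f n θ + 1 / ((n:ℝ) + 1)) = deriv (f n) := by
      intro n; funext x; simp
    simp only [e1]
    refine intervalIntegral.tendsto_integral_filter_of_dominated_convergence (fun _ => (L:ℝ) ^ 2)
      (Eventually.of_forall fun n => ((measurable_deriv (f n)).pow_const 2).aestronglyMeasurable)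
      (Eventually.of_forall fun n => Eventually.of_forall fun θ _ => ?_)
      intervalIntegrable_const ?_
    · rw [Real.norm_eq_abs, abs_pow]
      exact pow_le_pow_left₀ (abs_nonneg _) (hfdb n θ) 2
    · filter_upwards [hae] with θ hθ _
      exact hθ.pow 2

end Pool.Agent.H212AN
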