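import Pool.Agent.H212AN.D0b

set_option autoImplicit false

namespace Pool.Agent.H212AN

open MeasureTheory Set Filter Topology Metric
open scoped Real ENNReal Pointwise

lemma pf_ar_yy_smul (θ t : ℝ) (z : ℂ) : yy θ (t • z) = t * yy θ z := by
  simp only [yy, Complex.real_smul, Complex.re_ofReal_mul, Complex.im_ofReal_mul]
  ring

/-- a compact convex set is the intersection of its supporting half planes -/
lemma pf_ar_mem (h1 : S_hs) {C : Set ℂ} (hC : IsCompact C) (hconv : Convex ℝ C)
    (hne : C.Nonempty) {z : ℂ} (hz : ∀ θ, yy θ z ≤ hs C θ) : z ∈ C := by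
  by_contra hcon
  obtain ⟨ρ, hρ⟩ := hC.isBounded.subset_closedBall 0
  obtain ⟨f, u, hf1, hf2⟩ := geometric_hahn_banach_closed_point hconv hC.isClosed hcon
  have hfw : ∀ w : ℂ, f w = f 1 * w.re + f Complex.I * w.im := by
    intro w
    have e1 : w = w.re • (1 : ℂ) + w.im • Complex.I := by
      simp [Complex.re_add_im]
    conv_lhs => rw [e1]
    rw [map_add, map_smul, map_smul, smul_eq_mul, smul_eq_mul]
    ring
  set ζ : ℂ := ⟨f 1, f Complex.I⟩ with hζ
  set θ := Complex.arg ζ with hθ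
  have e1 : ‖ζ‖ * Real.cos θ = f 1 := Complex.norm_mul_cos_arg ζ
  have e2 : ‖ζ‖ * Real.sin θ = f Complex.I := Complex.norm_mul_sin_arg ζ
  have hfy : ∀ w : ℂ, f w = ‖ζ‖ * yy θ w := by
    intro w
    rw [hfw w, ← e1, ← e2]
    unfold yy
    ring
  obtain ⟨k, hk, hkθ⟩ := (h1 C ρ hC hne hρ).1 θ
  have h2 := hf1 k hk
  rw [hfy] at h2 hf2
  have h3 : ‖ζ‖ * yy θ z ≤ ‖ζ‖ * yy θ k := by
    apply mul_le_mul_of_nonneg_left _ (norm_nonneg _)
    rw [hkθ]
    exact hz θ
  linarith

/-- the support function is at least the inradius -/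
lemma pf_ar_r (h1 : S_hs) {C : Set ℂ} (hC : IsCompact C) {r : ℝ} (hr : 0 < r)
    (hb : ball 0 r ⊆ C) (θ : ℝ) : r ≤ hs C θ := by
  obtain ⟨ρ, hρ⟩ := hC.isBounded.subset_closedBall 0
  have h0 : (0 : ℂ) ∈ C := hb (by simpa using hr)
  have h2 := (h1 C ρ hC ⟨0, h0⟩ hρ).2.1 θ
  apply le_of_forall_lt
  intro c hc
  obtain ⟨c', hc1, hc2⟩ := exists_between (max_lt hc hr)
  have hc0 : 0 < c' := lt_of_le_of_lt (le_max_right _ _) hc1
  have hcc : c < c' := lt_of_le_of_lt (le_max_left _ _) hc1
  set z : ℂ := ⟨c' * Real.cos θ, c' * Real.sin θ⟩ with hz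
  have hzn : ‖z‖ = c' := by
    have e : z = (c' : ℂ) * (Complex.cos θ + Complex.sin θ * Complex.I) := by
      apply Complex.ext
      · simp [hz, ← Complex.ofReal_cos, ← Complex.ofReal_sin]
      · simp [hz, ← Complex.ofReal_cos, ← Complex.ofReal_sin]
    rw [e, norm_mul, Complex.norm_cos_add_sin_mul_I, mul_one, Complex.norm_real,
      Real.norm_eq_abs, abs_of_pos hc0]
  have hzC : z ∈ C := hb (by rw [mem_ball_zero_iff, hzn]; exact hc2)
  have h3 := h2 z hzC
  have h4 : yy θ z = c' := by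
    simp only [yy, hz]
    have := Real.cos_sq_add_sin_sq θ
    nlinarith
  rw [h4] at h3
  linarith

theorem pf_ar (h1 : S_hs) (h2 : S_ar1) (h3 : S_ap) : S_ar := by
  intro C r hC hconv hr hb
  have h0 : (0 : ℂ) ∈ C := hb (by simpa using hr)
  have hne : C.Nonempty := ⟨0, h0⟩
  obtain ⟨ρ, hρ⟩ := hC.isBounded.subset_closedBall 0
  obtain ⟨-, hle, habs, hlip, hper, -⟩ := h1 C ρ hC hne hρ
  have hρ0 : 0 ≤ ρ := (abs_nonneg _).trans (habs 0)
  have hrh := pf_ar_r h1 hC hr hb
  obtain ⟨g, g1, g2, g3, g4, ⟨e, he0, hge⟩, g5⟩ := h3 C r hC hconv hr hb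
  have he : ∀ n, 0 ≤ e n := fun n => (abs_nonneg _).trans (hge n 0)
  have hW := fun n => h2 (g n) (g1 n) (g2 n) (g3 n) (g4 n)
  have hcont : Continuous (hs C) := hlip.continuous
  have hgc : ∀ n, Continuous (g n) := fun n => (g1 n).continuous
  have hvC : volume C ≠ ∞ := hC.measure_lt_top.ne
  have hvW : ∀ n, volume (Wf (g n)) ≠ ∞ := fun n => (hW n).1.measure_lt_top.ne
  have hsm : ∀ t : ℝ, 0 ≤ t → (volume (t • C)).toReal = t ^ 2 * (volume C).toReal := by
    intro t ht
    rw [Measure.addHaar_smul, Complex.finrank_real_complex, ENNReal.toReal_mul,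
      ENNReal.toReal_ofReal (abs_nonneg _), abs_of_nonneg (by positivity)]
  have hsmt : ∀ t : ℝ, volume (t • C) ≠ ∞ := by
    intro t
    rw [Measure.addHaar_smul]
    exact ENNReal.mul_ne_top ENNReal.ofReal_ne_top hvC
  -- inclusions
  have hin1 : ∀ n, e n < r → (1 - e n / r) • C ⊆ Wf (g n) := by
    intro n hn z hz
    obtain ⟨c, hc, rfl⟩ := hz
    intro θ
    have hl : 0 ≤ 1 - e n / r := by
      have : e n / r ≤ 1 := (div_le_one hr).mpr hn.le
      linarith
    show yy θ ((1 - e n / r) • c) ≤ g n θ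
    rw [pf_ar_yy_smul]
    have k1 := hle θ c hc
    have k2 := (abs_le.mp (hge n θ)).1
    have k3 := hrh θ
    have k4 : e n ≤ e n / r * hs C θ := by
      have : e n / r * r ≤ e n / r * hs C θ :=
        mul_le_mul_of_nonneg_left k3 (div_nonneg (he n) hr.le)
      rwa [div_mul_cancel₀ _ hr.ne'] at this
    have k5 := mul_le_mul_of_nonneg_left k1 hl
    have k6 : (1 - e n / r) * hs C θ = hs C θ - e n / r * hs C θ := by ring
    linarith
  have hin2 : ∀ n, Wf (g n) ⊆ (1 + e n / r) • C := by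
    intro n z hz
    have hl : 0 < 1 + e n / r := by
      have := div_nonneg (he n) hr.le
      linarith
    refine ⟨(1 + e n / r)⁻¹ • z, ?_, ?_⟩
    · apply pf_ar_mem h1 hC hconv hne
      intro θ
      rw [pf_ar_yy_smul, inv_mul_le_iff₀ hl]
      have k1 : yy θ z ≤ g n θ := hz θ
      have k2 := (abs_le.mp (hge n θ)).2
      have k3 := hrh θ
      have k4 : e n ≤ e n / r * hs C θ := by
        have : e n / r * r ≤ e n / r * hs C θ :=
          mul_le_mul_of_nonneg_left k3 (div_nonneg (he n) hr.le)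
        rwa [div_mul_cancel₀ _ hr.ne'] at this
      have k6 : (1 + e n / r) * hs C θ = hs C θ + e n / r * hs C θ := by ring
      linarith
    · show (1 + e n / r) • ((1 + e n / r)⁻¹ • z) = z
      rw [smul_inv_smul₀ hl.ne']
  -- convergence of the areas
  have her : Tendsto (fun n => e n / r) atTop (𝓝 0) := by
    have := he0.div_const r
    rwa [zero_div] at this
  have hvol : Tendsto (fun n => (volume (Wf (g n))).toReal) atTop (𝓝 (volume C).toReal) := by
    have l1 : Tendsto (fun n => (1 - e n / r) ^ 2 * (volume C).toReal) atTop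
        (𝓝 (volume C).toReal) := by
      have := ((tendsto_const_nhds (x := (1 : ℝ))).sub her).pow 2 |>.mul_const (volume C).toReal
      simpa using this
    have l2 : Tendsto (fun n => (1 + e n / r) ^ 2 * (volume C).toReal) atTop
        (𝓝 (volume C).toReal) := by
      have := ((tendsto_const_nhds (x := (1 : ℝ))).add her).pow 2 |>.mul_const (volume C).toReal
      simpa using this
    have hev : ∀ᶠ n in atTop, e n < r := he0.eventually (gt_mem_nhds hr)
    refine tendsto_of_tendsto_of_tendsto_of_le_of_le' l1 l2 ?_ ?_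
    · filter_upwards [hev] with n hn
      have hl : 0 ≤ 1 - e n / r := by
        have : e n / r ≤ 1 := (div_le_one hr).mpr hn.le
        linarith
      rw [← hsm _ hl]
      exact ENNReal.toReal_mono (hvW n) (measure_mono (hin1 n hn))
    · filter_upwards with n
      have hl : 0 ≤ 1 + e n / r := by
        have := div_nonneg (he n) hr.le
        linarith
      rw [← hsm _ hl]
      exact ENNReal.toReal_mono (hsmt _) (measure_mono (hin2 n))
  -- convergence of the right hand sides
  have hd2 : IntervalIntegrable (fun θ => deriv (hs C) θ ^ 2) volume 0 (2 * π) := by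
    refine (intervalIntegrable_const (c := ρ ^ 2)).mono_fun' ?_ ?_
    · exact ((measurable_deriv _).pow_const 2).aestronglyMeasurable
    · refine ae_of_all _ (fun θ => ?_)
      have k1 : ‖deriv (hs C) θ‖ ≤ ρ := by
        have := norm_deriv_le_of_lipschitz (x₀ := θ) hlip
        rwa [Real.coe_toNNReal _ hρ0] at this
      show ‖deriv (hs C) θ ^ 2‖ ≤ ρ ^ 2
      rw [norm_pow]
      exact pow_le_pow_left₀ (norm_nonneg _) k1 2
  have hi2 : IntervalIntegrable (fun θ => hs C θ ^ 2) volume 0 (2 * π) :=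
    (hcont.pow 2).intervalIntegrable _ _
  have hgi2 : ∀ n, IntervalIntegrable (fun θ => g n θ ^ 2) volume 0 (2 * π) := fun n =>
    ((hgc n).pow 2).intervalIntegrable _ _
  have hgd2 : ∀ n, IntervalIntegrable (fun θ => deriv (g n) θ ^ 2) volume 0 (2 * π) := fun n => by
    have : Continuous (deriv (g n)) := (g1 n).continuous_deriv (by simp)
    exact (this.pow 2).intervalIntegrable _ _
  have hlim1 : Tendsto (fun n => ∫ θ in (0:ℝ)..(2 * π), g n θ ^ 2) atTop
      (𝓝 (∫ θ in (0:ℝ)..(2 * π), hs C θ ^ 2)) := by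
    rw [tendsto_iff_norm_sub_tendsto_zero]
    have l1 : Tendsto (fun n => (e n * (2 * ρ + e n)) * |2 * π - 0|) atTop (𝓝 0) := by
      have := (he0.mul ((tendsto_const_nhds (x := 2 * ρ)).add he0)).mul_const |2 * π - 0|
      simpa using this
    refine squeeze_zero (fun n => norm_nonneg _) (fun n => ?_) l1
    rw [← intervalIntegral.integral_sub (hgi2 n) hi2]
    apply intervalIntegral.norm_integral_le_of_norm_le_const
    intro θ _
    have k1 := hge n θ
    have k2 := habs θ
    have k3 : g n θ ^ 2 - hs C θ ^ 2 = (g n θ - hs C θ) * ((g n θ - hs C θ) + 2 * hs C θ) := by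
      ring
    rw [k3, norm_mul, Real.norm_eq_abs, Real.norm_eq_abs]
    apply mul_le_mul k1 _ (abs_nonneg _) (he n)
    calc |g n θ - hs C θ + 2 * hs C θ| ≤ |g n θ - hs C θ| + |2 * hs C θ| := abs_add_le _ _
      _ ≤ e n + 2 * ρ := by
          rw [abs_mul, abs_of_pos (by norm_num : (0:ℝ) < 2)]
          linarith
      _ = 2 * ρ + e n := by ring
  have hrhs : Tendsto (fun n => (volume (Wf (g n))).toReal) atTop (𝓝 (ar2 C)) := by
    have k1 : ∀ n, (volume (Wf (g n))).toReal = (1 / 2) * ((∫ θ in (0:ℝ)..(2 * π), g n θ ^ 2) -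
        ∫ θ in (0:ℝ)..(2 * π), deriv (g n) θ ^ 2) := by
      intro n
      rw [(hW n).2.2, intervalIntegral.integral_sub (hgi2 n) (hgd2 n)]
    have k2 : ar2 C = (1 / 2) * ((∫ θ in (0:ℝ)..(2 * π), hs C θ ^ 2) -
        ∫ θ in (0:ℝ)..(2 * π), deriv (hs C) θ ^ 2) := by
      unfold ar2
      rw [intervalIntegral.integral_sub hi2 hd2]
    rw [k2]
    simp only [k1]
    exact (hlim1.sub g5).const_mul _
  exact tendsto_nhds_unique hvol hrhs

end Pool.Agent.H212AN
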