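import Pool.Agent.H212AN.D0b

set_option autoImplicit false

namespace Pool.Agent.H212AN

open MeasureTheory Set Filter Topology Metric
open scoped Real ENNReal

/-- coordinates of the boundary point with outer normal `e^{iθ}` -/
noncomputable def pf_ar1_cx (g : ℝ → ℝ) (θ : ℝ) : ℝ := g θ * Real.cos θ - deriv g θ * Real.sin θ

noncomputable def pf_ar1_cy (g : ℝ → ℝ) (θ : ℝ) : ℝ := g θ * Real.sin θ + deriv g θ * Real.cos θ

noncomputable def pf_ar1_c (g : ℝ → ℝ) (θ : ℝ) : ℂ := ⟨pf_ar1_cx g θ, pf_ar1_cy g θ⟩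

theorem pf_ar1_yyc (g : ℝ → ℝ) (τ θ : ℝ) : yy τ (pf_ar1_c g θ) =
    g θ * Real.cos (θ - τ) - deriv g θ * Real.sin (θ - τ) := by
  unfold yy pf_ar1_c pf_ar1_cx pf_ar1_cy
  rw [Real.cos_sub, Real.sin_sub]
  ring

theorem pf_ar1_yyself (g : ℝ → ℝ) (θ : ℝ) : yy θ (pf_ar1_c g θ) = g θ := by
  rw [pf_ar1_yyc]; simp

theorem pf_ar1_hd {g : ℝ → ℝ} (hg : ContDiff ℝ (⊤ : ℕ∞) g) (θ : ℝ) :
    HasDerivAt g (deriv g θ) θ :=
  ((contDiff_infty_iff_deriv.mp hg).1 θ).hasDerivAt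

theorem pf_ar1_hdd {g : ℝ → ℝ} (hg : ContDiff ℝ (⊤ : ℕ∞) g) (θ : ℝ) :
    HasDerivAt (deriv g) (deriv (deriv g) θ) θ :=
  pf_ar1_hd (contDiff_infty_iff_deriv.mp hg).2 θ

theorem pf_ar1_hu {g : ℝ → ℝ} (hg : ContDiff ℝ (⊤ : ℕ∞) g) (τ θ : ℝ) :
    HasDerivAt (fun θ => yy τ (pf_ar1_c g θ))
      (-(g θ + deriv (deriv g) θ) * Real.sin (θ - τ)) θ := by
  have h1 := pf_ar1_hd hg θ
  have h2 := pf_ar1_hdd hg θ
  have h3 : HasDerivAt (fun θ => Real.cos (θ - τ)) (-Real.sin (θ - τ) * 1) θ :=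
    ((hasDerivAt_id θ).sub_const τ).cos
  have h4 : HasDerivAt (fun θ => Real.sin (θ - τ)) (Real.cos (θ - τ) * 1) θ :=
    ((hasDerivAt_id θ).sub_const τ).sin
  have h5 := (h1.mul h3).sub (h2.mul h4)
  have h6 : (fun θ => yy τ (pf_ar1_c g θ)) =
      (fun θ => g θ * Real.cos (θ - τ)) - (fun θ => deriv g θ * Real.sin (θ - τ)) := by
    funext θ; rw [pf_ar1_yyc]; rfl
  rw [h6]
  exact h5.congr_deriv (by ring)

theorem pf_ar1_perd {g : ℝ → ℝ} (hp : Function.Periodic g (2 * π)) :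
    Function.Periodic (deriv g) (2 * π) := by
  intro θ
  have : (fun x => g (x + 2 * π)) = g := by funext x; exact hp x
  calc deriv g (θ + 2 * π) = deriv (fun x => g (x + 2 * π)) θ := by rw [deriv_comp_add_const]
    _ = deriv g θ := by rw [this]

theorem pf_ar1_perc {g : ℝ → ℝ} (hp : Function.Periodic g (2 * π)) :
    Function.Periodic (pf_ar1_c g) (2 * π) := by
  intro θ
  unfold pf_ar1_c pf_ar1_cx pf_ar1_cy
  rw [hp θ, pf_ar1_perd hp θ, Real.cos_add_two_pi, Real.sin_add_two_pi]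

theorem pf_ar1_lt {g : ℝ → ℝ} (hg : ContDiff ℝ (⊤ : ℕ∞) g) (hp : Function.Periodic g (2 * π))
    (h2 : ∀ θ, 0 < g θ + deriv (deriv g) θ) (τ θ : ℝ) (h : τ < θ) (h' : θ < τ + 2 * π) :
    yy τ (pf_ar1_c g θ) < g τ := by
  have hcont : ∀ s : Set ℝ, ContinuousOn (fun θ => yy τ (pf_ar1_c g θ)) s := fun s x _ =>
    (pf_ar1_hu hg τ x).continuousAt.continuousWithinAt
  rcases le_total θ (τ + π) with hle | hle
  · have hanti : StrictAntiOn (fun θ => yy τ (pf_ar1_c g θ)) (Icc τ (τ + π)) := by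
      apply strictAntiOn_of_deriv_neg (convex_Icc _ _) (hcont _)
      intro x hx
      rw [interior_Icc] at hx
      rw [(pf_ar1_hu hg τ x).deriv]
      have := Real.sin_pos_of_pos_of_lt_pi (x := x - τ) (by linarith [hx.1]) (by linarith [hx.2])
      have := mul_pos (h2 x) this
      linarith
    have := hanti (left_mem_Icc.mpr (by linarith [Real.pi_pos])) ⟨h.le, hle⟩ h
    simp only [pf_ar1_yyself] at this
    exact this
  · have hmono : StrictMonoOn (fun θ => yy τ (pf_ar1_c g θ)) (Icc (τ + π) (τ + 2 * π)) := by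
      apply strictMonoOn_of_deriv_pos (convex_Icc _ _) (hcont _)
      intro x hx
      rw [interior_Icc] at hx
      rw [(pf_ar1_hu hg τ x).deriv]
      have h3 := Real.sin_pos_of_pos_of_lt_pi (x := x - τ - π) (by linarith [hx.1])
        (by linarith [hx.2])
      rw [Real.sin_sub_pi] at h3
      have := mul_pos (h2 x) h3
      linarith
    have := hmono ⟨hle, h'.le⟩ (right_mem_Icc.mpr (by linarith [Real.pi_pos])) h'
    simp only [pf_ar1_perc hp τ] at this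
    rw [pf_ar1_yyself] at this
    exact this

theorem pf_ar1_peryy (z : ℂ) : Function.Periodic (fun θ => yy θ z) (2 * π) := by
  intro θ
  simp only [yy, Real.cos_add_two_pi, Real.sin_add_two_pi]

theorem pf_ar1_le {g : ℝ → ℝ} (hg : ContDiff ℝ (⊤ : ℕ∞) g) (hp : Function.Periodic g (2 * π))
    (h2 : ∀ θ, 0 < g θ + deriv (deriv g) θ) (τ θ : ℝ) :
    yy τ (pf_ar1_c g θ) ≤ g τ := by
  obtain ⟨y, hy, hy2⟩ := (pf_ar1_perc hp).exists_mem_Ico (by positivity) θ τ
  rw [hy2]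
  rcases eq_or_lt_of_le hy.1 with h | h
  · rw [← h, pf_ar1_yyself]
  · exact (pf_ar1_lt hg hp h2 τ y h hy.2).le

theorem pf_ar1_smul (τ r : ℝ) (z : ℂ) : yy τ ((r : ℂ) * z) = r * yy τ z := by
  unfold yy; simp; ring

theorem pf_ar1_norm (z : ℂ) : yy (Complex.arg z) z = ‖z‖ := by
  unfold yy
  nth_rewrite 1 [← Complex.norm_mul_cos_arg z]
  nth_rewrite 1 [← Complex.norm_mul_sin_arg z]
  have := Real.sin_sq_add_cos_sq (Complex.arg z)
  have h : ‖z‖ * Real.cos z.arg * Real.cos z.arg + ‖z‖ * Real.sin z.arg * Real.sin z.arg =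
    ‖z‖ * (Real.sin z.arg ^ 2 + Real.cos z.arg ^ 2) := by ring
  rw [h, this, mul_one]

theorem pf_ar1_cmem {g : ℝ → ℝ} (hg : ContDiff ℝ (⊤ : ℕ∞) g) (hp : Function.Periodic g (2 * π))
    (h2 : ∀ θ, 0 < g θ + deriv (deriv g) θ) (θ : ℝ) : pf_ar1_c g θ ∈ Wf g := fun τ =>
  pf_ar1_le hg hp h2 τ θ

theorem pf_ar1_contyy (τ : ℝ) : Continuous (fun z : ℂ => yy τ z) := by
  unfold yy
  exact (Complex.continuous_re.mul continuous_const).add
    (Complex.continuous_im.mul continuous_const)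

theorem pf_ar1_compact {g : ℝ → ℝ} (hg : ContDiff ℝ (⊤ : ℕ∞) g) : IsCompact (Wf g) := by
  apply Metric.isCompact_of_isClosed_isBounded
  · have : Wf g = ⋂ θ, {z : ℂ | yy θ z ≤ g θ} := by ext z; simp [Wf]
    rw [this]
    exact isClosed_iInter (fun θ => isClosed_le (pf_ar1_contyy θ) continuous_const)
  · obtain ⟨M, hM⟩ := isCompact_Icc.exists_bound_of_continuousOn
      (s := Icc (-π) π) (f := g) hg.continuous.continuousOn
    rw [isBounded_iff_forall_norm_le]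
    refine ⟨M, fun z hz => ?_⟩
    have h1 := hz (Complex.arg z)
    rw [pf_ar1_norm] at h1
    have h3 := hM (Complex.arg z) ⟨(Complex.neg_pi_lt_arg z).le, Complex.arg_le_pi z⟩
    exact h1.trans ((le_abs_self _).trans h3)

theorem pf_ar1_hs {g : ℝ → ℝ} (hg : ContDiff ℝ (⊤ : ℕ∞) g) (hp : Function.Periodic g (2 * π))
    (h2 : ∀ θ, 0 < g θ + deriv (deriv g) θ) (θ : ℝ) : hs (Wf g) θ = g θ := by
  unfold hs
  apply IsGreatest.csSup_eq
  refine ⟨⟨pf_ar1_c g θ, pf_ar1_cmem hg hp h2 θ, pf_ar1_yyself g θ⟩, ?_⟩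
  rintro _ ⟨z, hz, rfl⟩
  exact hz θ

/-- the change of variables -/
noncomputable def pf_ar1_F (g : ℝ → ℝ) (p : ℝ × ℝ) : ℝ × ℝ :=
  (p.1 * pf_ar1_cx g p.2, p.1 * pf_ar1_cy g p.2)

noncomputable def pf_ar1_F' (g : ℝ → ℝ) (p : ℝ × ℝ) : ℝ × ℝ →L[ℝ] ℝ × ℝ :=
  (Matrix.toLin (.finTwoProd ℝ) (.finTwoProd ℝ)
    !![pf_ar1_cx g p.2, p.1 * (-((g p.2 + deriv (deriv g) p.2) * Real.sin p.2));
      pf_ar1_cy g p.2, p.1 * ((g p.2 + deriv (deriv g) p.2) * Real.cos p.2)]).toContinuousLinearMap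

theorem pf_ar1_hcx {g : ℝ → ℝ} (hg : ContDiff ℝ (⊤ : ℕ∞) g) (θ : ℝ) :
    HasDerivAt (pf_ar1_cx g) (-((g θ + deriv (deriv g) θ) * Real.sin θ)) θ := by
  have h5 := ((pf_ar1_hd hg θ).mul (Real.hasDerivAt_cos θ)).sub
    ((pf_ar1_hdd hg θ).mul (Real.hasDerivAt_sin θ))
  exact h5.congr_deriv (by ring)

theorem pf_ar1_hcy {g : ℝ → ℝ} (hg : ContDiff ℝ (⊤ : ℕ∞) g) (θ : ℝ) :
    HasDerivAt (pf_ar1_cy g) ((g θ + deriv (deriv g) θ) * Real.cos θ) θ := by
  have h5 := ((pf_ar1_hd hg θ).mul (Real.hasDerivAt_sin θ)).add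
    ((pf_ar1_hdd hg θ).mul (Real.hasDerivAt_cos θ))
  exact h5.congr_deriv (by ring)

theorem pf_ar1_hF {g : ℝ → ℝ} (hg : ContDiff ℝ (⊤ : ℕ∞) g) (p : ℝ × ℝ) :
    HasFDerivAt (pf_ar1_F g) (pf_ar1_F' g p) p := by
  unfold pf_ar1_F'
  rw [Matrix.toLin_finTwoProd_toContinuousLinearMap]
  convert!
    HasFDerivAt.prodMk (𝕜 := ℝ)
      (hasFDerivAt_fst.mul ((pf_ar1_hcx hg p.2).comp_hasFDerivAt p hasFDerivAt_snd))
      (hasFDerivAt_fst.mul ((pf_ar1_hcy hg p.2).comp_hasFDerivAt p hasFDerivAt_snd)) using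
    2 <;>
  simp [smul_smul, add_comm, smul_neg, neg_smul _ (ContinuousLinearMap.snd ℝ ℝ ℝ)]

theorem pf_ar1_det (g : ℝ → ℝ) (p : ℝ × ℝ) :
    (pf_ar1_F' g p).det = p.1 * (g p.2 * (g p.2 + deriv (deriv g) p.2)) := by
  unfold pf_ar1_F'
  simp only [LinearMap.det_toContinuousLinearMap, LinearMap.det_toLin,
    Matrix.det_fin_two_of]
  unfold pf_ar1_cx pf_ar1_cy
  have := Real.sin_sq_add_cos_sq p.2
  have h : (g p.2 * Real.cos p.2 - deriv g p.2 * Real.sin p.2) *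
      (p.1 * ((g p.2 + deriv (deriv g) p.2) * Real.cos p.2)) -
      p.1 * (-((g p.2 + deriv (deriv g) p.2) * Real.sin p.2)) *
      (g p.2 * Real.sin p.2 + deriv g p.2 * Real.cos p.2) =
      p.1 * (g p.2 * (g p.2 + deriv (deriv g) p.2)) * (Real.sin p.2 ^ 2 + Real.cos p.2 ^ 2) := by
    ring
  rw [h, this, mul_one]

/-- the parameter domain -/
def pf_ar1_D : Set (ℝ × ℝ) := Ioc (0:ℝ) 1 ×ˢ Ico (0:ℝ) (2 * π)

theorem pf_ar1_coord (g : ℝ → ℝ) (p : ℝ × ℝ) :
    Complex.measurableEquivRealProd.symm (pf_ar1_F g p) = (p.1 : ℂ) * pf_ar1_c g p.2 := by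
  apply Complex.ext
  · simp [pf_ar1_F, pf_ar1_c, Complex.measurableEquivRealProd]
  · simp [pf_ar1_F, pf_ar1_c, Complex.measurableEquivRealProd]

theorem pf_ar1_inj {g : ℝ → ℝ} (hg : ContDiff ℝ (⊤ : ℕ∞) g) (hp : Function.Periodic g (2 * π))
    (h1 : ∀ θ, 0 < g θ) (h2 : ∀ θ, 0 < g θ + deriv (deriv g) θ) :
    InjOn (fun p : ℝ × ℝ => (p.1 : ℂ) * pf_ar1_c g p.2) pf_ar1_D := by
  have key : ∀ p ∈ pf_ar1_D, ∀ q ∈ pf_ar1_D, q.1 ≤ p.1 →
      (p.1 : ℂ) * pf_ar1_c g p.2 = (q.1 : ℂ) * pf_ar1_c g q.2 → p = q := by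
    rintro ⟨r, θ⟩ ⟨hr, hθ⟩ ⟨r', θ'⟩ ⟨hr', hθ'⟩ hle he
    simp only at hr hθ hr' hθ' hle he
    have h3 : yy θ ((r : ℂ) * pf_ar1_c g θ) = yy θ ((r' : ℂ) * pf_ar1_c g θ') := by rw [he]
    rw [pf_ar1_smul, pf_ar1_smul, pf_ar1_yyself] at h3
    have hθθ : θ = θ' := by
      by_contra hne
      have hlt : yy θ (pf_ar1_c g θ') < g θ := by
        rcases lt_or_gt_of_ne hne with h | h
        · exact pf_ar1_lt hg hp h2 θ θ' h (by linarith [hθ'.2, hθ.1])
        · rw [← pf_ar1_perc hp θ']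
          exact pf_ar1_lt hg hp h2 θ (θ' + 2 * π) (by linarith [hθ.2, hθ'.1]) (by linarith)
      have h4 : r' * yy θ (pf_ar1_c g θ') < r' * g θ := mul_lt_mul_of_pos_left hlt hr'.1
      have h5 : r' * g θ ≤ r * g θ := mul_le_mul_of_nonneg_right hle (h1 θ).le
      linarith
    subst hθθ
    rw [pf_ar1_yyself] at h3
    have h6 : r = r' := mul_right_cancel₀ (h1 θ).ne' h3
    subst h6
    rfl
  intro p hp' q hq he
  rcases le_total q.1 p.1 with h | h
  · exact key p hp' q hq h he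
  · exact (key q hq p hp' h he.symm).symm

theorem pf_ar1_hyy (z : ℂ) (θ : ℝ) : HasDerivAt (fun θ => yy θ z) (xx θ z) θ := by
  have := ((Real.hasDerivAt_cos θ).const_mul z.re).add ((Real.hasDerivAt_sin θ).const_mul z.im)
  exact this.congr_deriv (by unfold xx; ring)

theorem pf_ar1_eqc (g : ℝ → ℝ) (z : ℂ) (θ m : ℝ) (hy : yy θ z = m * g θ)
    (hx : xx θ z = m * deriv g θ) : z = (m : ℂ) * pf_ar1_c g θ := by
  have hcs := Real.sin_sq_add_cos_sq θ
  unfold yy at hy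
  unfold xx at hx
  apply Complex.ext
  · simp only [pf_ar1_c, pf_ar1_cx, Complex.mul_re, Complex.ofReal_re, Complex.ofReal_im, zero_mul,
      sub_zero]
    linear_combination (-z.re) * hcs + Real.cos θ * hy - Real.sin θ * hx
  · simp only [pf_ar1_c, pf_ar1_cy, Complex.mul_im, Complex.ofReal_re, Complex.ofReal_im, zero_mul,
      add_zero]
    linear_combination (-z.im) * hcs + Real.sin θ * hy + Real.cos θ * hx

theorem pf_ar1_image {g : ℝ → ℝ} (hg : ContDiff ℝ (⊤ : ℕ∞) g) (hp : Function.Periodic g (2 * π))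
    (h1 : ∀ θ, 0 < g θ) (h2 : ∀ θ, 0 < g θ + deriv (deriv g) θ) :
    (fun p : ℝ × ℝ => (p.1 : ℂ) * pf_ar1_c g p.2) '' pf_ar1_D = Wf g \ {0} := by
  ext z
  constructor
  · rintro ⟨⟨r, θ⟩, ⟨hr, hθ⟩, rfl⟩
    simp only at hr hθ ⊢
    refine ⟨fun τ => ?_, ?_⟩
    · rw [pf_ar1_smul]
      have h3 := pf_ar1_le hg hp h2 τ θ
      have h4 := h1 τ
      calc r * yy τ (pf_ar1_c g θ) ≤ r * g τ := mul_le_mul_of_nonneg_left h3 hr.1.le
        _ ≤ 1 * g τ := mul_le_mul_of_nonneg_right hr.2 h4.le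
        _ = g τ := one_mul _
    · intro h0
      rw [mem_singleton_iff] at h0
      have h3 : yy θ ((r : ℂ) * pf_ar1_c g θ) = 0 := by rw [h0]; simp [yy]
      rw [pf_ar1_smul, pf_ar1_yyself] at h3
      have := mul_pos hr.1 (h1 θ)
      linarith
  · rintro ⟨hz, hz0⟩
    rw [mem_singleton_iff] at hz0
    have hcq : Continuous (fun θ => yy θ z / g θ) := by
      apply Continuous.div _ hg.continuous (fun θ => (h1 θ).ne')
      exact continuous_iff_continuousAt.mpr (fun θ => (pf_ar1_hyy z θ).continuousAt)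
    have hper : Function.Periodic (fun θ => yy θ z / g θ) (2 * π) := by
      intro θ
      simp only
      rw [hp θ]
      have := pf_ar1_peryy z θ
      simp only at this
      rw [this]
    obtain ⟨θ0, hθ0, hmax⟩ := isCompact_Icc.exists_isMaxOn
      (s := Icc (0:ℝ) (2 * π)) ⟨0, by simp; positivity⟩ hcq.continuousOn
    have hmaxall : ∀ θ, yy θ z / g θ ≤ yy θ0 z / g θ0 := by
      intro θ
      obtain ⟨y, hy, hy2⟩ := hper.exists_mem_Ico₀ (by positivity) θ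
      rw [hy2]
      exact hmax ⟨hy.1, hy.2.le⟩
    -- move to the half-open interval
    obtain ⟨θ1, hθ1, hθe⟩ := hper.exists_mem_Ico₀ (by positivity) θ0
    rw [hθe] at hmaxall
    set m := yy θ1 z / g θ1 with hm
    have hmy : yy θ1 z = m * g θ1 := by rw [hm, div_mul_cancel₀ _ (h1 θ1).ne']
    have hmpos : 0 < m := by
      have h3 := hmaxall (Complex.arg z)
      rw [pf_ar1_norm] at h3
      refine lt_of_lt_of_le ?_ h3
      exact div_pos (norm_pos_iff.mpr hz0) (h1 _)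
    have hm1 : m ≤ 1 := by
      rw [hm, div_le_one (h1 θ1)]
      exact hz θ1
    have hder : HasDerivAt (fun θ => yy θ z - m * g θ) (xx θ1 z - m * deriv g θ1) θ1 :=
      (pf_ar1_hyy z θ1).sub ((pf_ar1_hd hg θ1).const_mul m)
    have hloc : IsLocalMax (fun θ => yy θ z - m * g θ) θ1 := by
      apply Filter.Eventually.of_forall
      intro θ
      simp only
      have h3 := hmaxall θ
      rw [div_le_iff₀ (h1 θ)] at h3
      rw [hmy]
      linarith
    have h0 := hloc.hasDerivAt_eq_zero hder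
    refine ⟨(m, θ1), ⟨⟨hmpos, hm1⟩, hθ1⟩, ?_⟩
    exact (pf_ar1_eqc g z θ1 m hmy (by linarith)).symm

theorem pf_ar1 (h1 : S_hs) : S_ar1 := by
  intro g hg hp h1 h2
  refine ⟨pf_ar1_compact hg, pf_ar1_hs hg hp h2, ?_⟩
  have hgc := hg.continuous
  have hdg : Continuous (deriv g) := (contDiff_infty_iff_deriv.mp hg).2.continuous
  have hddg : Continuous (deriv (deriv g)) :=
    (contDiff_infty_iff_deriv.mp (contDiff_infty_iff_deriv.mp hg).2).2.continuous
  have hD : MeasurableSet pf_ar1_D := measurableSet_Ioc.prod measurableSet_Ico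
  have hinjF : InjOn (pf_ar1_F g) pf_ar1_D := by
    intro p hp' q hq he
    apply pf_ar1_inj hg hp h1 h2 hp' hq
    simp only
    rw [← pf_ar1_coord, ← pf_ar1_coord, he]
  have hA := lintegral_abs_det_fderiv_eq_addHaar_image volume hD
    (fun x _ => (pf_ar1_hF hg x).hasFDerivWithinAt) hinjF
  have hB : volume (Wf g) = volume (pf_ar1_F g '' pf_ar1_D) := by
    have h3 : volume (Wf g) = volume (Wf g \ {0}) := (measure_sdiff_null (by simp)).symm
    rw [h3, ← pf_ar1_image hg hp h1 h2]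
    have h4 : (fun p : ℝ × ℝ => (p.1 : ℂ) * pf_ar1_c g p.2) '' pf_ar1_D =
        Complex.measurableEquivRealProd.symm '' (pf_ar1_F g '' pf_ar1_D) := by
      rw [← image_comp]
      apply image_congr
      intro p _
      exact (pf_ar1_coord g p).symm
    rw [h4, MeasurableEquiv.image_symm]
    exact Complex.volume_preserving_equiv_real_prod.measure_preimage_equiv _
  rw [hB, ← hA]
  have hdet : ∀ x : ℝ × ℝ, (pf_ar1_F' g x).det = x.1 * (g x.2 * (g x.2 + deriv (deriv g) x.2)) :=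
    pf_ar1_det g
  have hI : ∫ x in pf_ar1_D, |(pf_ar1_F' g x).det| =
      (∫⁻ x in pf_ar1_D, ENNReal.ofReal |(pf_ar1_F' g x).det|).toReal := by
    apply integral_eq_lintegral_of_nonneg_ae
    · exact Filter.Eventually.of_forall (fun x => abs_nonneg _)
    · apply Continuous.aestronglyMeasurable
      simp only [hdet]
      fun_prop
  rw [← hI]
  have hI2 : ∫ x in pf_ar1_D, |(pf_ar1_F' g x).det| =
      ∫ x in pf_ar1_D, x.1 * (g x.2 * (g x.2 + deriv (deriv g) x.2)) := by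
    apply setIntegral_congr_fun hD
    intro x hx
    simp only [hdet]
    rw [abs_of_nonneg]
    exact mul_nonneg hx.1.1.le (mul_pos (h1 _) (h2 _)).le
  rw [hI2]
  have hI3 : ∫ x in pf_ar1_D, x.1 * (g x.2 * (g x.2 + deriv (deriv g) x.2)) =
      (∫ x in Ioc (0:ℝ) 1, x) * ∫ y in Ico (0:ℝ) (2 * π), g y * (g y + deriv (deriv g) y) :=
    setIntegral_prod_mul (fun x : ℝ => x) (fun y => g y * (g y + deriv (deriv g) y)) _ _
  rw [hI3]
  have hI4 : ∫ x in Ioc (0:ℝ) 1, x = 1 / 2 := by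
    rw [← intervalIntegral.integral_of_le zero_le_one, integral_id]; norm_num
  have hI5 : ∫ y in Ico (0:ℝ) (2 * π), g y * (g y + deriv (deriv g) y) =
      ∫ y in (0:ℝ)..(2 * π), g y * (g y + deriv (deriv g) y) := by
    rw [integral_Ico_eq_integral_Ioc, intervalIntegral.integral_of_le (by positivity)]
  rw [hI4, hI5]
  congr 1
  have hH : ∀ x ∈ uIcc (0:ℝ) (2 * π), HasDerivAt (fun x => g x * deriv g x)
      (deriv g x * deriv g x + g x * deriv (deriv g) x) x := fun x _ =>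
    (pf_ar1_hd hg x).mul (pf_ar1_hdd hg x)
  have hint : IntervalIntegrable (fun x => deriv g x * deriv g x + g x * deriv (deriv g) x)
      volume 0 (2 * π) := by
    apply Continuous.intervalIntegrable
    fun_prop
  have h0 := intervalIntegral.integral_eq_sub_of_hasDerivAt hH hint
  have hg0 : g (2 * π) = g 0 := by have := hp 0; rwa [zero_add] at this
  have hg1 : deriv g (2 * π) = deriv g 0 := by have := pf_ar1_perd hp 0; rwa [zero_add] at this
  rw [hg0, hg1, sub_self] at h0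
  have h5 : (fun y => g y * (g y + deriv (deriv g) y)) =
      fun y => (g y ^ 2 - deriv g y ^ 2) + (deriv g y * deriv g y + g y * deriv (deriv g) y) := by
    funext y; ring
  rw [h5, intervalIntegral.integral_add _ hint, h0, add_zero]
  apply Continuous.intervalIntegrable
  fun_prop

end Pool.Agent.H212AN
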