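import Pool.Agent.H212AN.D4

set_option autoImplicit false

namespace Pool.Agent.H212AN

open MeasureTheory Set Filter Topology Metric
open Pool.Agent.H212AN.G (nG PG gm gk)
open scoped Real ENNReal ComplexConjugate

theorem pf_awa_meas {D D' : Set ℂ} (hD : MeasurableSet D) (hD' : MeasurableSet D') (m : ℕ)
    (δ : ℝ) : MeasurableSet (V1 D D' m δ) := by
  have hx : ∀ i : Fin (m + 1), Measurable (fun x : Fin (m + 1) → ℂ => x i) :=
    fun i => measurable_pi_apply i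
  have h1 : ∀ i : Fin (m + 1), MeasurableSet {x : Fin (m + 1) → ℂ | δ < (x i).im} := fun i =>
    measurableSet_lt measurable_const (Complex.measurable_im.comp (hx i))
  have h2 : ∀ i : Fin (m + 1), MeasurableSet {x : Fin (m + 1) → ℂ | x i ∈ D'} := fun i =>
    hx i hD'
  have h3 : ∀ i : Fin (m + 1), MeasurableSet {x : Fin (m + 1) → ℂ | x i ∈ D} := fun i =>
    hx i hD
  have h4 : ∀ i : Fin (m + 1), MeasurableSet {x : Fin (m + 1) → ℂ | conj (x i) ∈ D} := fun i =>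
    (Complex.continuous_conj.measurable.comp (hx i)) hD
  have e : V1 D D' m δ = (⋂ i, ({x : Fin (m + 1) → ℂ | δ < (x i).im} ∩
      {x : Fin (m + 1) → ℂ | x i ∈ D'})) ∩ ((⋃ i, {x : Fin (m + 1) → ℂ | x i ∈ D}ᶜ) ∩
      ⋃ i, ({x : Fin (m + 1) → ℂ | x i ∈ D} ∩ {x : Fin (m + 1) → ℂ | conj (x i) ∈ D}ᶜ)) := by
    ext x
    simp only [V1, mem_inter_iff, mem_iInter, mem_iUnion, mem_compl_iff, Set.mem_ofPred_eq]
  rw [e]
  refine (MeasurableSet.iInter fun i => (h1 i).inter (h2 i)).inter ?_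
  exact (MeasurableSet.iUnion fun i => (h3 i).compl).inter
    (MeasurableSet.iUnion fun i => (h3 i).inter (h4 i).compl)

theorem pf_awa_norm (a b : ℂ) : ‖a - conj b‖ ^ 2 = ‖a - b‖ ^ 2 + 4 * (a.im * b.im) := by
  rw [← Complex.normSq_eq_norm_sq, ← Complex.normSq_eq_norm_sq, Complex.normSq_apply,
    Complex.normSq_apply]
  simp
  ring

theorem pf_awa_bond {s δ : ℝ} (hs : 0 < s) (hδ : 0 < δ) {a b : ℂ} (ha : δ < a.im)
    (hb : δ < b.im) :
    (1 - Real.exp (-(δ ^ 2 / s))) * gk s (a - b) ≤ gk s (a - b) - gk s (a - conj b) := by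
  have h1 : gk s (a - conj b) ≤ Real.exp (-(δ ^ 2 / s)) * gk s (a - b) := by
    rw [gk, gk, mul_div_assoc', ← Real.exp_add]
    refine div_le_div_of_nonneg_right (Real.exp_le_exp.2 ?_) (by positivity)
    rw [pf_awa_norm]
    have h2 : δ ^ 2 ≤ a.im * b.im := by nlinarith
    have h3 : δ ^ 2 / s ≤ a.im * b.im / s := div_le_div_of_nonneg_right h2 hs.le
    have h4 : (‖a - b‖ ^ 2 + 4 * (a.im * b.im)) / (4 * s) =
        ‖a - b‖ ^ 2 / (4 * s) + a.im * b.im / s := by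
      field_simp
    rw [h4]
    linarith
  linarith

/- PLAIN PROOF.
V1 D D' m δ ⊆ V1 D D' m 0. For x in V1 D D' m δ, a = x (i+1), b = x i: |a - conj b|² - |a-b|² = 4 im a im b >= 4δ², so
gk s (a - conj b) <= e^{-4δ²/(4s)} gk s (a-b) = e^{-δ²/s} gk s (a - b) and gk s (a-b) - gk s (a - conj b) >= (1 - e^{-δ²/s}) gk s (a-b) >= 0. Multiply
over the m+1 bonds, integrate; V1 is measurable.
-/
theorem pf_awa : S_awa := by
  intro D D' s δ m hD hD' hs hδ
  have hc : 0 ≤ 1 - Real.exp (-(δ ^ 2 / s)) := by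
    have : Real.exp (-(δ ^ 2 / s)) ≤ 1 := Real.exp_le_one_iff.2 (by
      have : 0 ≤ δ ^ 2 / s := by positivity
      linarith)
    linarith
  have hsub : V1 D D' m δ ⊆ V1 D D' m 0 := by
    rintro x ⟨h1, h2⟩
    exact ⟨fun i => ⟨hδ.trans (h1 i).1, (h1 i).2⟩, h2⟩
  rw [CY, ← lintegral_const_mul' _ _ ENNReal.ofReal_ne_top]
  refine le_trans ?_ (lintegral_mono_set hsub)
  refine setLIntegral_mono' (pf_awa_meas hD hD' m δ) ?_
  intro x hx
  have hx1 : ∀ i, δ < (x i).im := fun i => (hx.1 i).1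
  have e1 : ENNReal.ofReal ((1 - Real.exp (-(δ ^ 2 / s))) ^ (m + 1)) =
      ∏ _i : Fin (m + 1), ENNReal.ofReal (1 - Real.exp (-(δ ^ 2 / s))) := by
    rw [Finset.prod_const, Finset.card_univ, Fintype.card_fin, ENNReal.ofReal_pow hc]
  rw [e1, ← Finset.prod_mul_distrib]
  refine Finset.prod_le_prod' fun i _ => ?_
  rw [← ENNReal.ofReal_mul hc]
  exact ENNReal.ofReal_le_ofReal (pf_awa_bond hs hδ (hx1 (i + 1)) (hx1 i))

end Pool.Agent.H212AN
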