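import Pool.Agent.H212AN.D1

set_option autoImplicit false

namespace Pool.Agent.H212AN

open MeasureTheory Set Filter Topology Metric
open Pool.Agent.H212AN.G (nG PG gm)
open scoped Real ENNReal

/-- piecewise linear interpolation -/
theorem pf_ball_interp (b : Lo) (m : ℕ) (hb0 : b 0 = 0) (hb1 : b 1 = 0) {ε δ : ℝ}
    (hδ : 1 / ((m : ℝ) + 1) < δ) (hc : ∀ s t : unitInterval, dist s t < δ → dist (b s) (b t) < ε) :
    ∃ g : Lo, PL m g ∧ g 0 = 0 ∧ g 1 = 0 ∧ ∀ t, dist (b t) (g t) < ε := by
  have hm : (0:ℝ) < (m:ℝ) + 1 := by positivity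
  -- nodes
  set nd : ℕ → unitInterval := fun r => Set.projIcc 0 1 zero_le_one ((r : ℝ) / (m + 1)) with hnd
  have hndv : ∀ r : ℕ, r ≤ m + 1 → ((nd r : unitInterval) : ℝ) = (r : ℝ) / (m + 1) := by
    intro r hr
    have h1 : (r : ℝ) / (m + 1) ∈ Icc (0:ℝ) 1 := by
      refine ⟨by positivity, ?_⟩
      rw [div_le_one hm]
      exact_mod_cast hr
    simp only [hnd]
    rw [Set.projIcc_of_mem zero_le_one h1]
  set v : ℕ → ℂ := fun r => b (nd r) with hv
  have hcont : Continuous (fun t : unitInterval => ∑ r ∈ Finset.range (m + 2),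
      ((max 0 (1 - |((m : ℝ) + 1) * t - r|) : ℝ) : ℂ) * v r) := by
    refine continuous_finsetSum _ fun r _ => ?_
    refine Continuous.mul ?_ continuous_const
    refine Complex.continuous_ofReal.comp ?_
    refine continuous_const.max (continuous_const.sub (Continuous.abs ?_))
    exact (continuous_const.mul continuous_subtype_val).sub continuous_const
  set g : Lo := ⟨_, hcont⟩ with hg
  have hgv : ∀ t : unitInterval, g t = ∑ r ∈ Finset.range (m + 2),
      ((max 0 (1 - |((m : ℝ) + 1) * t - r|) : ℝ) : ℂ) * v r := fun t => rfl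
  -- value on an interval
  have key : ∀ r : ℕ, r ≤ m → ∀ t : unitInterval, (r : ℝ) ≤ ((m : ℝ) + 1) * t →
      ((m : ℝ) + 1) * t ≤ r + 1 →
      g t = ((1 - (((m : ℝ) + 1) * t - r) : ℝ) : ℂ) * v r +
        ((((m : ℝ) + 1) * t - r : ℝ) : ℂ) * v (r + 1) := by
    intro r hr t h1 h2
    rw [hgv]
    have hsub : ({r, r + 1} : Finset ℕ) ⊆ Finset.range (m + 2) := by
      intro x hx
      simp only [Finset.mem_insert, Finset.mem_singleton] at hx
      simp only [Finset.mem_range]
      omega
    rw [← Finset.sum_subset hsub]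
    · rw [Finset.sum_pair (by omega)]
      congr 2
      · congr 1
        rw [abs_of_nonneg (by linarith), max_eq_right (by linarith)]
      · congr 1
        push_cast
        rw [abs_of_nonpos (by linarith), max_eq_right (by linarith)]
        ring
    · intro x _ hx2
      simp only [Finset.mem_insert, Finset.mem_singleton, not_or] at hx2
      have hz : max 0 (1 - |((m : ℝ) + 1) * t - x|) = 0 := by
        apply max_eq_left
        have : (1:ℝ) ≤ |((m : ℝ) + 1) * t - x| := by
          rcases lt_or_ge x r with h | h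
          · have h3 : (x : ℝ) + 1 ≤ r := by exact_mod_cast h
            rw [le_abs]; left; linarith
          · have h4 : r + 2 ≤ x := by omega
            have h3 : (r : ℝ) + 2 ≤ x := by exact_mod_cast h4
            rw [le_abs]; right; linarith
        linarith
      rw [hz]
      simp
  -- each point lies in some interval
  have hex : ∀ t : unitInterval, ∃ r : ℕ, r ≤ m ∧ (r : ℝ) ≤ ((m : ℝ) + 1) * t ∧
      ((m : ℝ) + 1) * t ≤ r + 1 := by
    intro t
    have ht0 : (0:ℝ) ≤ t := t.2.1
    have ht1 : (t:ℝ) ≤ 1 := t.2.2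
    rcases eq_or_lt_of_le ht1 with h | h
    · refine ⟨m, le_rfl, ?_, ?_⟩ <;> rw [h] <;> linarith
    · refine ⟨⌊((m : ℝ) + 1) * t⌋₊, ?_, Nat.floor_le (by positivity), (Nat.lt_floor_add_one _).le⟩
      have h1 : ((m : ℝ) + 1) * t < ((m + 1 : ℕ) : ℝ) := by
        push_cast
        nlinarith
      have := (Nat.floor_lt (by positivity)).2 h1
      omega
  have hv0 : v 0 = 0 := by
    have : nd 0 = 0 := by
      apply Subtype.ext
      rw [hndv 0 (by omega)]
      simp
    simp only [hv]
    rw [this, hb0]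
  have hv1 : v (m + 1) = 0 := by
    have : nd (m + 1) = 1 := by
      apply Subtype.ext
      rw [hndv (m + 1) le_rfl]
      push_cast
      rw [div_self hm.ne']
    simp only [hv]
    rw [this, hb1]
  refine ⟨g, ⟨v, ?_⟩, ?_, ?_, ?_⟩
  · intro r hr t h1 h2
    rw [key r hr t h1 h2]
    push_cast
    ring
  · rw [key 0 (Nat.zero_le _) 0 (by simp) (by simp), hv0]
    simp
  · rw [key m le_rfl 1 (by simp) (by simp), hv1]
    simp
  · intro t
    obtain ⟨r, hr, h1, h2⟩ := hex t
    rw [key r hr t h1 h2]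
    set θ : ℝ := ((m : ℝ) + 1) * t - r with hθ
    have hθ0 : 0 ≤ θ := by linarith
    have hθ1 : θ ≤ 1 := by linarith
    have d1 : dist (b t) (v r) < ε := by
      apply hc
      rw [Subtype.dist_eq, hndv r (by omega), Real.dist_eq]
      have : (t : ℝ) - r / (m + 1) = θ / (m + 1) := by
        rw [hθ]; field_simp
      rw [this, abs_of_nonneg (by positivity)]
      refine lt_of_le_of_lt ?_ hδ
      exact div_le_div_of_nonneg_right hθ1 hm.le
    have d2 : dist (b t) (v (r + 1)) < ε := by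
      apply hc
      rw [Subtype.dist_eq, hndv (r + 1) (by omega), Real.dist_eq]
      have : (t : ℝ) - ((r + 1 : ℕ) : ℝ) / (m + 1) = -((1 - θ) / (m + 1)) := by
        rw [hθ]; push_cast; field_simp; ring
      rw [this, abs_neg, abs_of_nonneg (by
        apply div_nonneg _ hm.le
        linarith)]
      refine lt_of_le_of_lt ?_ hδ
      exact div_le_div_of_nonneg_right (by linarith) hm.le
    rw [dist_eq_norm] at d1 d2 ⊢
    have e1 : b t - (((1 - θ : ℝ) : ℂ) * v r + (θ : ℂ) * v (r + 1)) =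
        ((1 - θ : ℝ) : ℂ) * (b t - v r) + (θ : ℂ) * (b t - v (r + 1)) := by
      push_cast; ring
    rw [e1]
    have e2 : ‖((1 - θ : ℝ) : ℂ) * (b t - v r)‖ = (1 - θ) * ‖b t - v r‖ := by
      rw [norm_mul, Complex.norm_real, Real.norm_eq_abs, abs_of_nonneg (by linarith)]
    have e3 : ‖(θ : ℂ) * (b t - v (r + 1))‖ = θ * ‖b t - v (r + 1)‖ := by
      rw [norm_mul, Complex.norm_real, Real.norm_eq_abs, abs_of_nonneg (by linarith)]
    refine lt_of_le_of_lt (norm_add_le _ _) ?_
    rw [e2, e3]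
    rcases eq_or_lt_of_le hθ0 with h | h
    · rw [← h]; linarith
    · nlinarith [norm_nonneg (b t - v r)]

theorem pf_ball (h1 : S_qi) (h2 : S_end) : S_ball := by
  intro μ hμ m f hPL hf0 hf1 ε hε
  have := hμ.prob
  rw [pos_iff_ne_zero]
  intro h0
  have hmeas : ∀ h : Lo, Measurable (fun b : Lo => b + h) := fun h =>
    (continuous_id.add continuous_const).measurable
  have hz : μ (ball (0 : Lo) ε) = 0 := by
    have h3 := h1 μ hμ m f hPL hf0 hf1 h0
    rw [Measure.map_apply (hmeas f) measurableSet_ball] at h3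
    convert h3 using 2
    ext b
    simp [dist_eq_norm]
  have hg : ∀ (k : ℕ) (g : Lo), PL k g → g 0 = 0 → g 1 = 0 → μ (ball g ε) = 0 := by
    intro k g ⟨v, hv⟩ hg0 hg1
    have hPLn : PL k (-g) := by
      refine ⟨fun r => -v r, fun r hr t ht1 ht2 => ?_⟩
      rw [ContinuousMap.neg_apply, hv r hr t ht1 ht2]
      ring
    have h3 := h1 μ hμ k (-g) hPLn (by simp [hg0]) (by simp [hg1]) hz
    rw [Measure.map_apply (hmeas (-g)) measurableSet_ball] at h3
    convert h3 using 2
    ext b
    simp [dist_eq_norm, sub_eq_add_neg]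
  have hnull : μ {b : Lo | b 0 = 0 ∧ b 1 = 0} = 0 := by
    apply measure_null_of_locally_null
    rintro b ⟨hb0, hb1⟩
    have huc : UniformContinuous b := CompactSpace.uniformContinuous_of_continuous b.continuous
    obtain ⟨δ, hδ, hc⟩ := Metric.uniformContinuous_iff.1 huc (ε / 2) (half_pos hε)
    obtain ⟨k, hk⟩ := exists_nat_one_div_lt hδ
    obtain ⟨g, hgPL, hg0, hg1, hgd⟩ := pf_ball_interp b k hb0 hb1 (ε := ε / 2) hk
      (fun s t hst => hc hst)
    refine ⟨ball g ε, ?_, hg k g hgPL hg0 hg1⟩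
    apply mem_nhdsWithin_of_mem_nhds
    apply isOpen_ball.mem_nhds
    rw [mem_ball]
    have : dist b g ≤ ε / 2 :=
      (ContinuousMap.dist_le (half_pos hε).le).2 fun t => (hgd t).le
    linarith
  have hfull := h2 μ hμ
  have h4 : μ {b : Lo | b 0 = 0 ∧ b 1 = 0}ᶜ = 0 := hfull
  have h5 : μ univ ≤ 0 := by
    calc μ univ ≤ μ ({b : Lo | b 0 = 0 ∧ b 1 = 0} ∪ {b : Lo | b 0 = 0 ∧ b 1 = 0}ᶜ) := by
          rw [union_compl_self]
      _ ≤ μ {b : Lo | b 0 = 0 ∧ b 1 = 0} + μ {b : Lo | b 0 = 0 ∧ b 1 = 0}ᶜ := measure_union_le _ _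
      _ = 0 := by rw [hnull, h4, add_zero]
  rw [measure_univ] at h5
  exact absurd h5 (by simp)

end Pool.Agent.H212AN
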