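import Pool.Agent.H212AN.D3

set_option autoImplicit false

namespace Pool.Agent.H212AN

open MeasureTheory Set Filter Topology Metric
open Pool.Agent.W594.AN (ClosedCurve)
open Pool.Agent.H212AN.G (nG PG gm gk)
open scoped Real ENNReal ComplexConjugate

theorem pf_bd_poly (μ : Measure Lo) (hm : ∀ n : ℕ, Integrable (fun b : Lo => ‖b‖ ^ n) μ)
    (P : Polynomial ℝ) : Integrable (fun b : Lo => P.eval ‖b‖) μ := by
  simp_rw [Polynomial.eval_eq_sum_range]
  refine integrable_finsetSum _ fun i _ => ?_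
  exact (hm i).const_mul _

theorem pf_bd_cont (h4 : S_pe) (h5 : S_mom) (μ : Measure Lo) (hμ : IsLoop μ) :
    Continuous (fun p : ℝ × ℝ × ℝ => Gf μ p.1 p.2.1 p.2.2) := by
  obtain ⟨hc, -, hb, -⟩ := h4
  rw [continuous_iff_continuousAt]
  intro p₀
  set A : ℝ := |p₀.1| + |p₀.2.1| + |p₀.2.2| + 1 with hA
  have hA1 : 1 ≤ A := by
    have := abs_nonneg p₀.1
    have := abs_nonneg p₀.2.1
    have := abs_nonneg p₀.2.2
    linarith
  have hev : ∀ᶠ p : ℝ × ℝ × ℝ in 𝓝 p₀, |p.1| ≤ A ∧ |p.2.1| ≤ A ∧ |p.2.2| ≤ A := by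
    have h0 := abs_nonneg p₀.1
    have h1 := abs_nonneg p₀.2.1
    have h2 := abs_nonneg p₀.2.2
    have c1 : Continuous (fun p : ℝ × ℝ × ℝ => |p.1|) := by fun_prop
    have c2 : Continuous (fun p : ℝ × ℝ × ℝ => |p.2.1|) := by fun_prop
    have c3 : Continuous (fun p : ℝ × ℝ × ℝ => |p.2.2|) := by fun_prop
    have e1 := (c1.tendsto p₀).eventually_lt_const (show |p₀.1| < A by linarith)
    have e2 := (c2.tendsto p₀).eventually_lt_const (show |p₀.2.1| < A by linarith)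
    have e3 := (c3.tendsto p₀).eventually_lt_const (show |p₀.2.2| < A by linarith)
    filter_upwards [e1, e2, e3] with p g1 g2 g3
    exact ⟨g1.le, g2.le, g3.le⟩
  have hcb : ∀ p : ℝ × ℝ × ℝ, Continuous (fun b : Lo => pe p.1 p.2.1 p.2.2 b) := fun p =>
    hc.comp (Continuous.prodMk continuous_const continuous_id)
  have hcp : ∀ b : Lo, Continuous (fun p : ℝ × ℝ × ℝ => pe p.1 p.2.1 p.2.2 b) := fun b =>
    hc.comp (Continuous.prodMk continuous_id continuous_const)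
  let Q : Polynomial ℝ := Polynomial.X + Polynomial.C A * Polynomial.X ^ 2 +
    Polynomial.C A * Polynomial.X ^ 3 + Polynomial.C A * Polynomial.X ^ 4
  refine continuousAt_of_dominated (bound := fun b : Lo =>
    (Q + Polynomial.C (A / 2) * Q ^ 2).eval ‖b‖) ?_ ?_ ?_ ?_
  · refine Eventually.of_forall fun p => ?_
    have h := hcb p
    exact (h.sub (continuous_const.mul (h.pow 2))).aestronglyMeasurable
  · filter_upwards [hev] with p hp
    refine Eventually.of_forall fun b => ?_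
    obtain ⟨g1, g2, g3⟩ := hp
    have hb' := hb p.1 p.2.1 p.2.2 b
    have hn : 0 ≤ ‖b‖ := norm_nonneg b
    have hle : |pe p.1 p.2.1 p.2.2 b| ≤ ‖b‖ + A * ‖b‖ ^ 2 + A * ‖b‖ ^ 3 + A * ‖b‖ ^ 4 := by
      refine hb'.trans ?_
      have i1 := mul_le_mul_of_nonneg_right g1 (pow_nonneg hn 2)
      have i2 := mul_le_mul_of_nonneg_right g2 (pow_nonneg hn 3)
      have i3 := mul_le_mul_of_nonneg_right g3 (pow_nonneg hn 4)
      linarith
    have hsq : pe p.1 p.2.1 p.2.2 b ^ 2 ≤ (‖b‖ + A * ‖b‖ ^ 2 + A * ‖b‖ ^ 3 + A * ‖b‖ ^ 4) ^ 2 := by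
      rw [← sq_abs]
      exact pow_le_pow_left₀ (abs_nonneg _) hle 2
    have hQ : (Q + Polynomial.C (A / 2) * Q ^ 2).eval ‖b‖ =
        (‖b‖ + A * ‖b‖ ^ 2 + A * ‖b‖ ^ 3 + A * ‖b‖ ^ 4) +
        A / 2 * (‖b‖ + A * ‖b‖ ^ 2 + A * ‖b‖ ^ 3 + A * ‖b‖ ^ 4) ^ 2 := by
      simp [Q]
    rw [hQ, Real.norm_eq_abs]
    refine (abs_sub _ _).trans ?_
    refine add_le_add hle ?_
    rw [abs_mul, abs_div, abs_two, abs_of_nonneg (sq_nonneg (pe p.1 p.2.1 p.2.2 b))]
    exact mul_le_mul (by linarith) hsq (sq_nonneg _) (by positivity)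
  · exact pf_bd_poly μ (h5 μ hμ) _
  · refine Eventually.of_forall fun b => ?_
    have h := hcp b
    exact (h.sub ((continuous_fst.div_const 2).mul (h.pow 2))).continuousAt

theorem pf_bd_zero (h1 : S_Gp) (h4 : S_pe) (h5 : S_mom) (μ : Measure Lo) (hμ : IsLoop μ) :
    Gf μ 0 0 0 = m0 μ := by
  have hc := pf_bd_cont h4 h5 μ hμ
  have h := h1 μ hμ
  have hx : Tendsto (fun κ : ℝ => κ) (𝓝[>] (0:ℝ)) (𝓝 0) :=
    tendsto_nhdsWithin_of_tendsto_nhds tendsto_id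
  have h2 : Tendsto (fun κ : ℝ => (Gf μ κ 0 0 - m0 μ + m1 μ * κ) / κ ^ 2 * κ ^ 2)
      (𝓝[>] 0) (𝓝 (-m2 μ * 0 ^ 2)) := h.mul (hx.pow 2)
  have h3 : Tendsto (fun κ : ℝ => (Gf μ κ 0 0 - m0 μ + m1 μ * κ)) (𝓝[>] 0) (𝓝 0) := by
    have e : -m2 μ * (0:ℝ) ^ 2 = 0 := by ring
    rw [e] at h2
    refine h2.congr' ?_
    filter_upwards [self_mem_nhdsWithin] with κ hκ
    have : κ ≠ 0 := (mem_Ioi.1 hκ).ne'
    field_simp
  have h6 : Tendsto (fun κ : ℝ => (Gf μ κ 0 0 - m0 μ + m1 μ * κ)) (𝓝[>] 0)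
      (𝓝 (Gf μ 0 0 0 - m0 μ + m1 μ * 0)) := by
    have hk : Continuous (fun κ : ℝ => (Gf μ κ 0 0 - m0 μ + m1 μ * κ)) := by
      have : Continuous (fun κ : ℝ => Gf μ κ 0 0) :=
        hc.comp (f := fun κ : ℝ => (κ, (0:ℝ), (0:ℝ))) (by fun_prop)
      fun_prop
    exact tendsto_nhdsWithin_of_tendsto_nhds (hk.tendsto 0)
  have := tendsto_nhds_unique h3 h6
  linarith

theorem pf_bd_exp (h1 : S_Gp) (h2 : S_Gm) (h4 : S_pe) (h5 : S_mom) (μ : Measure Lo)
    (hμ : IsLoop μ) {ε : ℝ} (hε : 0 < ε) : ∃ δ > 0, ∀ x : ℝ, |x| < δ →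
      |Gf μ x 0 0 - m0 μ + m1 μ * x + m2 μ * x ^ 2| ≤ ε * x ^ 2 := by
  have a1 := (Metric.tendsto_nhds.1 (h1 μ hμ)) ε hε
  have a2 := (Metric.tendsto_nhds.1 (h2 μ hμ)) ε hε
  rw [eventually_nhdsWithin_iff, Metric.eventually_nhds_iff] at a1 a2
  obtain ⟨δ₁, hδ₁, b1⟩ := a1
  obtain ⟨δ₂, hδ₂, b2⟩ := a2
  refine ⟨min δ₁ δ₂, lt_min hδ₁ hδ₂, fun x hx => ?_⟩
  have key : ∀ x : ℝ, x ≠ 0 →
      dist ((Gf μ x 0 0 - m0 μ + m1 μ * x) / x ^ 2) (-m2 μ) < ε →
      |Gf μ x 0 0 - m0 μ + m1 μ * x + m2 μ * x ^ 2| ≤ ε * x ^ 2 := by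
    intro x hx h
    have hx2 : 0 < x ^ 2 := by positivity
    have e : Gf μ x 0 0 - m0 μ + m1 μ * x + m2 μ * x ^ 2 =
        ((Gf μ x 0 0 - m0 μ + m1 μ * x) / x ^ 2 - (-m2 μ)) * x ^ 2 := by
      field_simp
      ring
    rw [e, abs_mul, abs_of_pos hx2]
    rw [Real.dist_eq] at h
    exact mul_le_mul_of_nonneg_right h.le hx2.le
  rcases lt_trichotomy x 0 with h | h | h
  · refine key x h.ne (b2 ?_ h)
    rw [dist_zero_right, Real.norm_eq_abs]
    exact hx.trans_le (min_le_right _ _)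
  · subst h
    rw [pf_bd_zero h1 h4 h5 μ hμ]
    simp
  · refine key x h.ne' (b1 ?_ h)
    rw [dist_zero_right, Real.norm_eq_abs]
    exact hx.trans_le (min_le_left _ _)

theorem pf_bd_smooth (c : ClosedCurve) : ContDiff ℝ (⊤ : ℕ∞) c.curvature := by
  have h1 := c.smooth'
  have h2 := c.smooth''
  have h3 : ContDiff ℝ (⊤ : ℕ∞) (fun s => conj (deriv c.γ s)) :=
    (Complex.conjCLE : ℂ ≃L[ℝ] ℂ).contDiff.comp h1
  have h4 : ContDiff ℝ (⊤ : ℕ∞) (fun s => conj (deriv c.γ s) * deriv (deriv c.γ) s) := h3.mul h2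
  exact Complex.imCLM.contDiff.comp h4

theorem pf_bd_bound (c : ClosedCurve) : ∃ B : ℝ, 0 < B ∧ ∀ s ∈ Icc 0 c.L,
    |c.curvature s| ≤ B ∧ |deriv c.curvature s| ≤ B := by
  have h1 : Continuous c.curvature := c.cont_curvature
  have h2 : Continuous (deriv c.curvature) := by
    have := pf_bd_smooth c
    rw [contDiff_infty_iff_deriv] at this
    exact this.2.continuous
  obtain ⟨B₁, hB₁⟩ := (isCompact_Icc (a := (0:ℝ)) (b := c.L)).exists_bound_of_continuousOn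
    h1.continuousOn
  obtain ⟨B₂, hB₂⟩ := (isCompact_Icc (a := (0:ℝ)) (b := c.L)).exists_bound_of_continuousOn
    h2.continuousOn
  refine ⟨|B₁| + |B₂| + 1, by positivity, fun s hs => ⟨?_, ?_⟩⟩
  · have := hB₁ s hs
    rw [Real.norm_eq_abs] at this
    have h3 := le_abs_self B₁
    have h4 := abs_nonneg B₂
    linarith
  · have := hB₂ s hs
    rw [Real.norm_eq_abs] at this
    have h3 := le_abs_self B₂
    have h4 := abs_nonneg B₁
    linarith

/-- the uniform pointwise expansion -/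
theorem pf_bd_unif (h1 : S_Gp) (h2 : S_Gm) (h3 : S_G3) (h4 : S_pe) (h5 : S_mom) (μ : Measure Lo)
    (hμ : IsLoop μ) (c : ClosedCurve) (C' : ℝ) {η : ℝ} (hη : 0 < η) :
    ∀ᶠ t : ℝ in 𝓝[>] 0, ∀ s ∈ Icc 0 c.L,
      |Gf μ (√t * c.curvature s) (t * (deriv c.curvature s / 6)) (√t ^ 3 * C') -
        (m0 μ - √t * m1 μ * c.curvature s - t * m2 μ * c.curvature s ^ 2)| ≤ η * t := by
  obtain ⟨B, hB, hBs⟩ := pf_bd_bound c
  obtain ⟨C, hC⟩ := h3 μ hμ
  set ε : ℝ := η / (2 * (B ^ 2 + B)) with hεd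
  have hε : 0 < ε := by positivity
  obtain ⟨δ₁, hδ₁, g1⟩ := pf_bd_exp h1 h2 h4 h5 μ hμ hε
  obtain ⟨δ₂, hδ₂, g2⟩ := hC ε hε
  -- smallness of t
  have t0 : Tendsto (fun t : ℝ => t) (𝓝[>] (0:ℝ)) (𝓝 0) :=
    tendsto_nhdsWithin_of_tendsto_nhds tendsto_id
  have ts : Tendsto (fun t : ℝ => √t) (𝓝[>] (0:ℝ)) (𝓝 0) := by
    have h := (Real.continuous_sqrt.tendsto 0).comp t0
    rw [Real.sqrt_zero] at h
    exact h
  have e1 : ∀ᶠ t : ℝ in 𝓝[>] 0, √t * B < δ₁ := by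
    have : Tendsto (fun t : ℝ => √t * B) (𝓝[>] (0:ℝ)) (𝓝 (0 * B)) := ts.mul_const B
    rw [zero_mul] at this
    exact this.eventually_lt_const hδ₁
  have e2 : ∀ᶠ t : ℝ in 𝓝[>] 0, √t * B < δ₂ := by
    have : Tendsto (fun t : ℝ => √t * B) (𝓝[>] (0:ℝ)) (𝓝 (0 * B)) := ts.mul_const B
    rw [zero_mul] at this
    exact this.eventually_lt_const hδ₂
  have e3 : ∀ᶠ t : ℝ in 𝓝[>] 0, t * B < δ₂ := by
    have : Tendsto (fun t : ℝ => t * B) (𝓝[>] (0:ℝ)) (𝓝 (0 * B)) := t0.mul_const B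
    rw [zero_mul] at this
    exact this.eventually_lt_const hδ₂
  have e4 : ∀ᶠ t : ℝ in 𝓝[>] 0, √t ^ 3 * |C'| < δ₂ := by
    have : Tendsto (fun t : ℝ => √t ^ 3 * |C'|) (𝓝[>] (0:ℝ)) (𝓝 (0 ^ 3 * |C'|)) :=
      (ts.pow 3).mul_const _
    have e : (0:ℝ) ^ 3 * |C'| = 0 := by ring
    rw [e] at this
    exact this.eventually_lt_const hδ₂
  have e5 : ∀ᶠ t : ℝ in 𝓝[>] 0, √t * (|C| * |C'|) < η / 2 := by
    have : Tendsto (fun t : ℝ => √t * (|C| * |C'|)) (𝓝[>] (0:ℝ)) (𝓝 (0 * (|C| * |C'|))) :=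
      ts.mul_const _
    rw [zero_mul] at this
    exact this.eventually_lt_const (by positivity)
  filter_upwards [e1, e2, e3, e4, e5, self_mem_nhdsWithin] with t f1 f2 f3 f4 f5 ht s hs
  rw [mem_Ioi] at ht
  obtain ⟨k1, k2⟩ := hBs s hs
  have hst : 0 < √t := Real.sqrt_pos.2 ht
  have hsq : √t ^ 2 = t := Real.sq_sqrt ht.le
  set κ := c.curvature s with hκ
  set κ' := deriv c.curvature s with hκ'
  have a1 : |√t * κ| ≤ √t * B := by
    rw [abs_mul, abs_of_pos hst]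
    exact mul_le_mul_of_nonneg_left k1 hst.le
  have a2 : |t * (κ' / 6)| ≤ t * (B / 6) := by
    rw [abs_mul, abs_of_pos ht, abs_div, abs_of_pos (by norm_num : (0:ℝ) < 6)]
    exact mul_le_mul_of_nonneg_left (by linarith) ht.le
  have a3 : |√t ^ 3 * C'| = √t ^ 3 * |C'| := by
    rw [abs_mul, abs_of_pos (by positivity)]
  have a2' : t * (B / 6) ≤ t * B := mul_le_mul_of_nonneg_left (by linarith) ht.le
  have b1 := g1 (√t * κ) (a1.trans_lt f1)
  have b2 := g2 (√t * κ) (t * (κ' / 6)) (√t ^ 3 * C') (a1.trans_lt f2)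
    ((a2.trans a2').trans_lt f3) (by rw [a3]; exact f4)
  have hx2 : (√t * κ) ^ 2 = t * κ ^ 2 := by rw [mul_pow, hsq]
  have hκ2 : κ ^ 2 ≤ B ^ 2 := by
    rw [← sq_abs]
    exact pow_le_pow_left₀ (abs_nonneg _) k1 2
  have c1 : ε * (√t * κ) ^ 2 ≤ ε * (t * B ^ 2) := by
    rw [hx2]
    exact mul_le_mul_of_nonneg_left (mul_le_mul_of_nonneg_left hκ2 ht.le) hε.le
  have c2 : ε * |t * (κ' / 6)| ≤ ε * (t * B) :=
    mul_le_mul_of_nonneg_left (a2.trans a2') hε.le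
  have c3 : C * |√t ^ 3 * C'| ≤ t * (η / 2) := by
    rw [a3]
    have : C * (√t ^ 3 * |C'|) ≤ |C| * (√t ^ 3 * |C'|) :=
      mul_le_mul_of_nonneg_right (le_abs_self C) (by positivity)
    refine this.trans ?_
    have e : |C| * (√t ^ 3 * |C'|) = √t ^ 2 * (√t * (|C| * |C'|)) := by ring
    rw [e, hsq]
    exact mul_le_mul_of_nonneg_left f5.le ht.le
  have c4 : ε * (t * B ^ 2) + ε * (t * B) = t * (η / 2) := by
    rw [hεd]
    field_simp
  have e0 : Gf μ (√t * κ) (t * (κ' / 6)) (√t ^ 3 * C') -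
        (m0 μ - √t * m1 μ * κ - t * m2 μ * κ ^ 2) =
      (Gf μ (√t * κ) (t * (κ' / 6)) (√t ^ 3 * C') - Gf μ (√t * κ) 0 0) +
      (Gf μ (√t * κ) 0 0 - m0 μ + m1 μ * (√t * κ) + m2 μ * (√t * κ) ^ 2) := by
    rw [hx2]; ring
  rw [e0]
  refine (abs_add_le _ _).trans ?_
  linarith

/- PLAIN PROOF.
g(s,t) = Gf μ (√tκ(s)) (tκ'(s)/6) (√t³C') with κ, κ' bounded (periodic continuous) by B. By S_G3: |g - Gf μ (√tκ) 0 0| <= ε t B/6 + C √t³|C'| for
small t, so = o(t) uniformly in s. By S_Gp, S_Gm: Gf μ x 0 0 = m0 - m1 x - m2 x² + o(x²) as x -> 0, x ≠ 0; at x = 0 it holds too: Gf μ · 0 0 is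
continuous at 0 (S_pe, dominated convergence) so Gf μ 0 0 0 = m0. With x = √tκ(s), |x| <= √t B: g = m0 - m1√tκ - m2 tκ² + o(t) uniformly in s.
s ↦ g(s,t) is continuous (Gf is jointly continuous: dominated convergence with S_pe, S_mom), so it can be integrated:
∫_0^L g = m0 L - √t m1 ∫κ - t m2 ∫κ² + o(t), with ∫κ = totalCurvature, ∫κ² = bending.
-/
theorem pf_bd (h1 : S_Gp) (h2 : S_Gm) (h3 : S_G3) (h4 : S_pe) (h5 : S_mom) (h6 : S_end) : S_bd := by
  intro μ hμ c C'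
  have hL := c.L_pos
  have hGc := pf_bd_cont h4 h5 μ hμ
  have hκc : Continuous c.curvature := c.cont_curvature
  have hκc' : Continuous (deriv c.curvature) := by
    have := pf_bd_smooth c
    rw [contDiff_infty_iff_deriv] at this
    exact this.2.continuous
  rw [Metric.tendsto_nhds]
  intro η hη
  have hη' : 0 < η / (2 * c.L) := by positivity
  filter_upwards [pf_bd_unif h1 h2 h3 h4 h5 μ hμ c C' hη', self_mem_nhdsWithin] with t hu ht
  rw [mem_Ioi] at ht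
  set g : ℝ → ℝ := fun s => Gf μ (√t * c.curvature s) (t * (deriv c.curvature s / 6))
    (√t ^ 3 * C') with hg
  set q : ℝ → ℝ := fun s => m0 μ - √t * m1 μ * c.curvature s - t * m2 μ * c.curvature s ^ 2
    with hq
  have hgc : Continuous g := by
    have : Continuous (fun s : ℝ => ((√t * c.curvature s, t * (deriv c.curvature s / 6),
        √t ^ 3 * C') : ℝ × ℝ × ℝ)) := by fun_prop
    exact hGc.comp this
  have hqc : Continuous q := by
    simp only [hq]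
    fun_prop
  have hgi : IntervalIntegrable g volume 0 c.L := hgc.intervalIntegrable _ _
  have hqi : IntervalIntegrable q volume 0 c.L := hqc.intervalIntegrable _ _
  have hqint : ∫ s in (0:ℝ)..c.L, q s =
      m0 μ * c.L - √t * m1 μ * c.totalCurvature - t * m2 μ * c.bending := by
    simp only [hq]
    have i1 : IntervalIntegrable (fun _ : ℝ => m0 μ) volume 0 c.L := intervalIntegrable_const
    have i2 : IntervalIntegrable (fun s : ℝ => √t * m1 μ * c.curvature s) volume 0 c.L :=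
      (hκc.const_mul _).intervalIntegrable _ _
    have i3 : IntervalIntegrable (fun s : ℝ => t * m2 μ * c.curvature s ^ 2) volume 0 c.L :=
      ((hκc.pow 2).const_mul _).intervalIntegrable _ _
    rw [intervalIntegral.integral_sub (i1.sub i2) i3, intervalIntegral.integral_sub i1 i2,
      intervalIntegral.integral_const, intervalIntegral.integral_const_mul,
      intervalIntegral.integral_const_mul]
    simp only [ClosedCurve.totalCurvature, ClosedCurve.bending, smul_eq_mul, sub_zero]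
    ring
  have hdiff : |(∫ s in (0:ℝ)..c.L, g s) - ∫ s in (0:ℝ)..c.L, q s| ≤ η / (2 * c.L) * t * c.L := by
    rw [← intervalIntegral.integral_sub hgi hqi]
    have h := intervalIntegral.norm_integral_le_of_norm_le_const (a := (0:ℝ)) (b := c.L)
      (f := fun s => g s - q s) (C := η / (2 * c.L) * t) (by
        intro s hs
        rw [uIoc_of_le hL.le] at hs
        exact hu s ⟨hs.1.le, hs.2⟩)
    rw [Real.norm_eq_abs, sub_zero, abs_of_pos hL] at h
    exact h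
  have hfin : ((∫ s in (0:ℝ)..c.L, g s) - (m0 μ * c.L - √t * m1 μ * c.totalCurvature)) / t -
      (-(m2 μ * c.bending)) = ((∫ s in (0:ℝ)..c.L, g s) - ∫ s in (0:ℝ)..c.L, q s) / t := by
    rw [hqint]
    field_simp
    ring
  rw [Real.dist_eq, hfin, abs_div, abs_of_pos ht, div_lt_iff₀ ht]
  refine hdiff.trans_lt ?_
  have e : η / (2 * c.L) * t * c.L = η * t / 2 := by
    field_simp
  rw [e]
  have : 0 < η * t := by positivity
  linarith

end Pool.Agent.H212AN
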