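import Pool.Agent.H212AN.D4

set_option autoImplicit false

namespace Pool.Agent.H212AN

open MeasureTheory Set Filter Topology Metric
open Pool.Agent.H212AN.G (nG PG gm gk)
open scoped Real ENNReal ComplexConjugate

/-- the path with starting point and increments -/
noncomputable def pf_cyc_path (m : ℕ) (z : ℂ) (y : Fin m → ℂ) : Fin (m + 1) → ℂ :=
  fun r => z + G.sg y r.val

theorem pf_cyc_path_snoc (m : ℕ) (z a : ℂ) (y : Fin m → ℂ) :
    pf_cyc_path (m + 1) z (Fin.snoc y a) =
      Fin.snoc (pf_cyc_path m z y) (a + pf_cyc_path m z y (Fin.last m)) := by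
  funext r
  refine Fin.lastCases ?_ (fun r => ?_) r
  · rw [Fin.snoc_last]
    simp only [pf_cyc_path, Fin.val_last]
    rw [G.sg_all, G.sg_all, Fin.sum_univ_castSucc]
    simp only [Fin.snoc_castSucc, Fin.snoc_last]
    ring
  · rw [Fin.snoc_castSucc]
    simp only [pf_cyc_path, Fin.val_castSucc]
    rw [G.sg_snoc _ _ _ (by omega)]

theorem pf_cyc_path_cont (m : ℕ) :
    Continuous (fun q : ℂ × (Fin m → ℂ) => pf_cyc_path m q.1 q.2) := by
  refine continuous_pi fun r => ?_
  exact continuous_fst.add ((G.sg_cont r.val).comp continuous_snd)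

/-- change of variables: starting point and increments -/
theorem pf_cyc_lint : ∀ (m : ℕ) (F : (Fin (m + 1) → ℂ) → ℝ≥0∞), Measurable F →
    ∫⁻ x, F x = ∫⁻ z : ℂ, ∫⁻ y : Fin m → ℂ, F (pf_cyc_path m z y)
  | 0, F, hF => by
      rw [volume_pi, G.lint_cons 0 hF]
      refine lintegral_congr fun z => ?_
      refine lintegral_congr fun y => ?_
      congr 1
      funext r
      obtain ⟨r, hr⟩ := r
      obtain rfl : r = 0 := by omega
      simp [pf_cyc_path, G.sg_zero]
  | m + 1, F, hF => by
      have hF2 : Measurable (fun q : ℂ × (Fin (m + 1) → ℂ) => F (Fin.snoc q.2 q.1)) :=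
        hF.comp G.snoc_meas
      have hs : Measurable (fun q : (Fin (m + 1) → ℂ) × ℂ =>
          ((q.2 + q.1 (Fin.last m), q.1) : ℂ × (Fin (m + 1) → ℂ))) := by
        fun_prop
      have hF3 : Measurable (fun q : (Fin (m + 1) → ℂ) × ℂ =>
          F (Fin.snoc q.1 (q.2 + q.1 (Fin.last m)))) :=
        Measurable.comp (g := fun q : ℂ × (Fin (m + 1) → ℂ) => F (Fin.snoc q.2 q.1)) hF2 hs
      have hF4 : Measurable (fun x : Fin (m + 1) → ℂ =>
          ∫⁻ a : ℂ, F (Fin.snoc x (a + x (Fin.last m)))) := hF3.lintegral_prod_right'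
      rw [G.lint_snoc (m + 1) hF, lintegral_lintegral_swap hF2.aemeasurable]
      have e1 : ∀ x : Fin (m + 1) → ℂ, ∫⁻ a : ℂ, F (Fin.snoc x a) =
          ∫⁻ a : ℂ, F (Fin.snoc x (a + x (Fin.last m))) := fun x =>
        (lintegral_add_right_eq_self (fun a => F (Fin.snoc x a)) (x (Fin.last m))).symm
      simp_rw [e1]
      rw [pf_cyc_lint m (fun x => ∫⁻ a : ℂ, F (Fin.snoc x (a + x (Fin.last m)))) hF4]
      refine lintegral_congr fun z => ?_
      have hG : Measurable (fun y : Fin (m + 1) → ℂ => F (pf_cyc_path (m + 1) z y)) :=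
        hF.comp ((pf_cyc_path_cont (m + 1)).comp
          (continuous_const.prodMk continuous_id : Continuous fun y : Fin (m + 1) → ℂ => (z, y))).measurable
      rw [G.lint_snoc m hG]
      simp_rw [pf_cyc_path_snoc]
      rw [lintegral_lintegral_swap]
      refine Measurable.aemeasurable ?_
      have hq : Measurable (fun q : (Fin m → ℂ) × ℂ =>
          ((pf_cyc_path m z q.1, q.2) : (Fin (m + 1) → ℂ) × ℂ)) := by
        refine Measurable.prodMk ?_ measurable_snd
        exact ((pf_cyc_path_cont m).comp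
          (continuous_const.prodMk continuous_fst :
            Continuous fun q : (Fin m → ℂ) × ℂ => (z, q.1))).measurable
      exact Measurable.comp (g := fun q : (Fin (m + 1) → ℂ) × ℂ =>
          F (Fin.snoc q.1 (q.2 + q.1 (Fin.last m)))) hF3 hq

theorem pf_cyc_prod (s : ℝ) (m : ℕ) (z : ℂ) (y : Fin m → ℂ) :
    ∏ i, ENNReal.ofReal (gk s (pf_cyc_path m z y (i + 1) - pf_cyc_path m z y i)) =
      G.dn s m y * ENNReal.ofReal (gk s (G.sg y m)) := by
  rw [Fin.prod_univ_castSucc, G.dn]
  congr 1
  · refine Finset.prod_congr rfl fun i _ => ?_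
    have h1 : (Fin.castSucc i + 1 : Fin (m + 1)) = i.succ := Fin.coeSucc_eq_succ
    rw [h1]
    have h2 : pf_cyc_path m z y i.succ - pf_cyc_path m z y (Fin.castSucc i) = y i := by
      simp only [pf_cyc_path, Fin.val_succ, Fin.val_castSucc]
      have h3 : G.sg y (i.val + 1) = G.sg y i.val + y i := by
        simp only [G.sg]
        have h4 : ∀ l : Fin m, (if l.val < i.val + 1 then y l else 0) =
            (if l.val < i.val then y l else 0) + if l = i then y l else 0 := by
          intro l
          by_cases h5 : l = i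
          · subst h5; simp
          · have h6 : l.val ≠ i.val := fun h => h5 (Fin.ext h)
            by_cases h7 : l.val < i.val
            · have h8 : l.val < i.val + 1 := by omega
              simp [h5, h7, h8]
            · have h8 : ¬ l.val < i.val + 1 := by omega
              simp [h5, h7, h8]
        simp_rw [h4]
        rw [Finset.sum_add_distrib]
        simp
      rw [h3]; ring
    rw [h2]
  · have h1 : (Fin.last m + 1 : Fin (m + 1)) = 0 := Fin.last_add_one m
    rw [h1]
    have h2 : pf_cyc_path m z y 0 - pf_cyc_path m z y (Fin.last m) = -G.sg y m := by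
      simp only [pf_cyc_path, Fin.val_zero, Fin.val_last, G.sg_zero]
      ring
    rw [h2, G.gk_neg]

theorem pf_cyc : S_cyc := by
  intro s m V hs hV
  have hVm : MeasurableSet {q : (Fin (m + 1) → ℂ) × ℂ |
      (fun r : Fin (m + 1) => q.2 + G.sg q.1 r.val) ∈ V} := by
    have h : Continuous (fun q : (Fin (m + 1) → ℂ) × ℂ =>
        (fun r : Fin (m + 1) => q.2 + G.sg q.1 r.val)) :=
      continuous_pi fun r => continuous_snd.add ((G.sg_cont r.val).comp continuous_fst)
    exact h.measurable hV
  have hH : Measurable (fun x : Fin (m + 1) → ℂ =>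
      volume {z : ℂ | (fun r : Fin (m + 1) => z + G.sg x r.val) ∈ V}) :=
    measurable_measure_prodMk_left hVm
  have h1 := G.centred hs m (H := fun x : Fin (m + 1) → ℂ =>
      volume {z : ℂ | (fun r : Fin (m + 1) => z + G.sg x r.val) ∈ V}) hH
  have h2 : ∫⁻ X, volume {z : ℂ | (fun r : Fin (m + 1) => z + gm X r) ∈ V} ∂(PG s (m + 1)) =
      ∫⁻ X, (fun x : Fin (m + 1) → ℂ =>
      volume {z : ℂ | (fun r : Fin (m + 1) => z + G.sg x r.val) ∈ V}) (G.ce X) ∂(PG s (m + 1)) := rfl
  rw [h2, h1]
  have h3 : (((m + 1 : ℕ) : ℝ)) = (m : ℝ) + 1 := by push_cast; ring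
  rw [h3]
  congr 1
  -- the chain integral
  have hP : Measurable (fun x : Fin (m + 1) → ℂ =>
      ∏ i, ENNReal.ofReal (gk s (x (i + 1) - x i))) := by
    refine Finset.measurable_prod _ fun i _ => ?_
    exact (((G.gk_cont s).comp ((continuous_apply (i + 1)).sub (continuous_apply i))).measurable).ennreal_ofReal
  have hE : MeasurableSet {q : ℂ × (Fin m → ℂ) | pf_cyc_path m q.1 q.2 ∈ V} :=
    (pf_cyc_path_cont m).measurable hV
  have h4 : CY s m V = ∫⁻ z : ℂ, ∫⁻ y : Fin m → ℂ,
      {q : ℂ × (Fin m → ℂ) | pf_cyc_path m q.1 q.2 ∈ V}.indicator 1 (z, y) *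
        (G.dn s m y * ENNReal.ofReal (gk s (G.sg y m))) := by
    rw [CY, ← lintegral_indicator hV, pf_cyc_lint m _ (hP.indicator hV)]
    refine lintegral_congr fun z => lintegral_congr fun y => ?_
    by_cases hz : pf_cyc_path m z y ∈ V
    · rw [indicator_of_mem hz, pf_cyc_prod, indicator_of_mem (show (z, y) ∈
        {q : ℂ × (Fin m → ℂ) | pf_cyc_path m q.1 q.2 ∈ V} from hz)]
      simp
    · rw [indicator_of_notMem hz, indicator_of_notMem (show (z, y) ∉
        {q : ℂ × (Fin m → ℂ) | pf_cyc_path m q.1 q.2 ∈ V} from hz)]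
      simp
  rw [h4, lintegral_lintegral_swap]
  · refine lintegral_congr fun y => ?_
    have hm : Measurable (fun z : ℂ => {q : ℂ × (Fin m → ℂ) |
        pf_cyc_path m q.1 q.2 ∈ V}.indicator (1 : ℂ × (Fin m → ℂ) → ℝ≥0∞) (z, y)) :=
      (measurable_one.indicator hE).comp measurable_prodMk_right
    rw [lintegral_mul_const _ hm]
    have hE' : MeasurableSet {z : ℂ | pf_cyc_path m z y ∈ V} := measurable_prodMk_right (y := y) hE
    have h5 : ∫⁻ z : ℂ, {q : ℂ × (Fin m → ℂ) |
        pf_cyc_path m q.1 q.2 ∈ V}.indicator (1 : ℂ × (Fin m → ℂ) → ℝ≥0∞) (z, y) =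
        volume {z : ℂ | pf_cyc_path m z y ∈ V} := by
      rw [← lintegral_indicator_one hE']
      rfl
    rw [h5]
    have h6 : {z : ℂ | (fun r : Fin (m + 1) => z + G.sg (G.cl y) r.val) ∈ V} =
        {z : ℂ | pf_cyc_path m z y ∈ V} := by
      ext z
      have h7 : (fun r : Fin (m + 1) => z + G.sg (G.cl y) r.val) = pf_cyc_path m z y := by
        funext r
        rw [pf_cyc_path, G.cl, G.sg_snoc _ _ _ (by omega)]
      simp only [mem_ofPred_eq, h7]
    rw [h6]
    ring
  · refine Measurable.aemeasurable ?_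
    refine (measurable_one.indicator hE).mul ?_
    exact ((G.dn_meas s m).comp measurable_snd).mul
      (((G.gk_cont s).comp ((G.sg_cont m).comp continuous_snd)).measurable.ennreal_ofReal)

end Pool.Agent.H212AN
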