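import Pool.Agent.H212AN.D3

set_option autoImplicit false

namespace Pool.Agent.H212AN

open MeasureTheory Set Filter Topology Metric
open Pool.Agent.W594.AN (ClosedCurve)
open Pool.Agent.H212AN.G (nG PG gm gk)
open scoped Real ENNReal ComplexConjugate

theorem pf_dp_cont (c : ClosedCurve) : Continuous (deriv c.curvature) := by
  have h : ContDiff ℝ (⊤ : ℕ∞) c.curvature := by
    have e : c.curvature = fun s => Complex.imCLM
        (Complex.conjCLE (deriv c.γ s) * deriv (deriv c.γ) s) := by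
      funext s; rfl
    rw [e]
    exact Complex.imCLM.contDiff.comp
      ((Complex.conjCLE.contDiff.comp c.smooth').mul c.smooth'')
  exact h.continuous_deriv (by simp)

/-- the rotation -/
noncomputable def pf_dp_r (c : ClosedCurve) (s : ℝ) : ℂ := Complex.I * conj (deriv c.γ s)

theorem pf_dp_r_norm (c : ClosedCurve) (s : ℝ) : ‖pf_dp_r c s‖ = 1 := by
  rw [pf_dp_r, norm_mul, Complex.norm_I, one_mul, Complex.norm_conj, c.unit_speed]

theorem pf_dp_r_cont (c : ClosedCurve) : Continuous (pf_dp_r c) := by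
  unfold pf_dp_r
  exact continuous_const.mul (Complex.continuous_conj.comp c.cont')

theorem pf_dp_pk (h1 : S_pe) (c : ClosedCurve) (C' t s : ℝ) (ht : 0 ≤ t) (b : Lo) :
    dp c C' (rg (√t • b)) s = √t * pe (√t * c.curvature s) (t * (deriv c.curvature s / 6))
      (√t ^ 3 * C') (pf_dp_r c s • b) := by
  have e1 : dp c C' (rg (√t • b)) s =
      pe (c.curvature s) (deriv c.curvature s / 6) C' (√t • (pf_dp_r c s • b)) := by
    unfold dp pk pe rg
    rw [Set.image_image, ← Set.range_comp]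
    refine congrArg sSup (congrArg range ?_)
    funext t'
    have e2 : Complex.I * conj (deriv c.γ s) * ((√t • b) t') =
        (√t • (pf_dp_r c s • b)) t' := by
      simp only [ContinuousMap.smul_apply, smul_eq_mul, pf_dp_r, Complex.real_smul]
      ring
    simp only [Function.comp, e2]
  rw [e1, h1.2.2.2.2.1 _ _ _ _ _ (Real.sqrt_nonneg t), Real.sq_sqrt ht]

/-- the integrand -/
noncomputable def pf_dp_H (c : ClosedCurve) (C' t s : ℝ) (b : Lo) : ℝ :=
  pe (√t * c.curvature s) (t * (deriv c.curvature s / 6)) (√t ^ 3 * C') b -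
    (√t * c.curvature s) / 2 *
    pe (√t * c.curvature s) (t * (deriv c.curvature s / 6)) (√t ^ 3 * C') b ^ 2

theorem pf_dp_eq (h1 : S_pe) (c : ClosedCurve) (C' t s : ℝ) (ht : 0 ≤ t) (b : Lo) :
    dp c C' (rg (√t • b)) s - c.curvature s / 2 * dp c C' (rg (√t • b)) s ^ 2 =
      √t * pf_dp_H c C' t s (pf_dp_r c s • b) := by
  rw [pf_dp_pk h1 c C' t s ht b, pf_dp_H]
  have := Real.sq_sqrt ht
  ring

theorem pf_dp_H_cont (h1 : S_pe) (c : ClosedCurve) (C' t : ℝ) :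
    Continuous (fun p : ℝ × Lo => pf_dp_H c C' t p.1 p.2) := by
  have hc := h1.1
  have h2 : Continuous (fun p : ℝ × Lo => pe (√t * c.curvature p.1)
      (t * (deriv c.curvature p.1 / 6)) (√t ^ 3 * C') p.2) := by
    have h3 : Continuous (fun p : ℝ × Lo => (((√t * c.curvature p.1,
      t * (deriv c.curvature p.1 / 6), √t ^ 3 * C') : ℝ × ℝ × ℝ), p.2)) := by
      have h4 := c.cont_curvature
      have h5 := pf_dp_cont c
      fun_prop
    exact hc.comp h3
  unfold pf_dp_H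
  have h4 := c.cont_curvature
  exact h2.sub (((continuous_const.mul (h4.comp continuous_fst)).div_const 2).mul (h2.pow 2))

/-- the bounding polynomial -/
noncomputable def pf_dp_P (C : ℝ) : Polynomial ℝ :=
  Polynomial.X + Polynomial.C C * Polynomial.X ^ 2 + Polynomial.C C * Polynomial.X ^ 3 +
    Polynomial.C C * Polynomial.X ^ 4

noncomputable def pf_dp_Q (C : ℝ) : Polynomial ℝ :=
  pf_dp_P C + Polynomial.C (C / 2) * pf_dp_P C ^ 2

theorem pf_dp_P_eval (C x : ℝ) :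
    (pf_dp_P C).eval x = x + C * x ^ 2 + C * x ^ 3 + C * x ^ 4 := by
  simp [pf_dp_P]

theorem pf_dp_Q_eval (C x : ℝ) :
    (pf_dp_Q C).eval x = (pf_dp_P C).eval x + C / 2 * (pf_dp_P C).eval x ^ 2 := by
  simp [pf_dp_Q]

theorem pf_dp_H_le (h1 : S_pe) (c : ClosedCurve) (C C' t s : ℝ) (hC : 0 < C) (ht : 0 < t)
    (ht1 : t ≤ 1) (hk : |c.curvature s| ≤ C) (hd : |deriv c.curvature s| ≤ C) (hC' : |C'| = C)
    (b : Lo) : |pf_dp_H c C' t s b| ≤ (pf_dp_Q C).eval ‖b‖ := by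
  have hs0 : 0 ≤ √t := Real.sqrt_nonneg t
  have hs1 : √t ≤ 1 := by
    rw [← Real.sqrt_one]; exact Real.sqrt_le_sqrt ht1
  have hb : 0 ≤ ‖b‖ := norm_nonneg b
  have k1 : |√t * c.curvature s| ≤ C := by
    rw [abs_mul, abs_of_nonneg hs0]
    calc √t * |c.curvature s| ≤ 1 * C := mul_le_mul hs1 hk (abs_nonneg _) zero_le_one
      _ = C := one_mul C
  have k2 : |t * (deriv c.curvature s / 6)| ≤ C := by
    rw [abs_mul, abs_of_pos ht, abs_div, abs_of_pos (by norm_num : (0:ℝ) < 6)]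
    calc t * (|deriv c.curvature s| / 6) ≤ 1 * (C / 6) :=
          mul_le_mul ht1 (by linarith) (by positivity) zero_le_one
      _ ≤ C := by linarith
  have k3 : |√t ^ 3 * C'| ≤ C := by
    rw [abs_mul, hC', abs_of_nonneg (by positivity)]
    calc √t ^ 3 * C ≤ 1 * C := mul_le_mul_of_nonneg_right (pow_le_one₀ hs0 hs1) hC.le
      _ = C := one_mul C
  have h2 := h1.2.2.1 (√t * c.curvature s) (t * (deriv c.curvature s / 6)) (√t ^ 3 * C') b
  have h3 : |pe (√t * c.curvature s) (t * (deriv c.curvature s / 6)) (√t ^ 3 * C') b| ≤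
      (pf_dp_P C).eval ‖b‖ := by
    rw [pf_dp_P_eval]
    refine h2.trans ?_
    have := mul_le_mul_of_nonneg_right k1 (pow_nonneg hb 2)
    have := mul_le_mul_of_nonneg_right k2 (pow_nonneg hb 3)
    have := mul_le_mul_of_nonneg_right k3 (pow_nonneg hb 4)
    linarith
  rw [pf_dp_Q_eval, pf_dp_H]
  set g := pe (√t * c.curvature s) (t * (deriv c.curvature s / 6)) (√t ^ 3 * C') b with hg
  have h4 : |g ^ 2| ≤ (pf_dp_P C).eval ‖b‖ ^ 2 := by
    rw [abs_pow]
    exact pow_le_pow_left₀ (abs_nonneg _) h3 2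
  calc |g - √t * c.curvature s / 2 * g ^ 2| ≤ |g| + |√t * c.curvature s / 2 * g ^ 2| :=
        abs_sub _ _
    _ ≤ (pf_dp_P C).eval ‖b‖ + C / 2 * (pf_dp_P C).eval ‖b‖ ^ 2 := by
        refine add_le_add h3 ?_
        rw [abs_mul]
        refine mul_le_mul ?_ h4 (abs_nonneg _) (by positivity)
        rw [abs_div, abs_of_pos (by norm_num : (0:ℝ) < 2)]
        linarith

theorem pf_dp_int (h3 : S_mom) (μ : Measure Lo) (hμ : IsLoop μ) (p : Polynomial ℝ) :
    Integrable (fun b : Lo => p.eval ‖b‖) μ := by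
  simp_rw [Polynomial.eval_eq_sum_range]
  exact integrable_finsetSum _ fun i _ => (h3 μ hμ i).const_mul _

theorem pf_dp (h1 : S_pe) (h2 : S_rot) (h3 : S_mom) (h4 : S_end) : S_dp := by
  intro μ hμ c C ε hC hε hb C' hC'
  have := hμ.prob
  refine ⟨c.L / ε ^ 3 * ∫ b : Lo, ‖b‖ ^ 3 * (pf_dp_Q C).eval ‖b‖ ∂μ, fun t ht ht1 => ?_⟩
  have hL := c.L_pos
  -- joint continuity
  have hcont : Continuous (fun p : ℝ × Lo => pf_dp_H c C' t p.1 (pf_dp_r c p.1 • p.2)) := by
    have h5 : Continuous (fun p : ℝ × Lo => (p.1, pf_dp_r c p.1 • p.2)) :=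
      continuous_fst.prodMk (((pf_dp_r_cont c).comp continuous_fst).smul continuous_snd)
    exact (pf_dp_H_cont h1 c C' t).comp h5
  have hle : ∀ s (b : Lo), |pf_dp_H c C' t s (pf_dp_r c s • b)| ≤ (pf_dp_Q C).eval ‖b‖ := by
    intro s b
    have h5 := pf_dp_H_le h1 c C C' t s hC ht ht1 (hb s).1 (hb s).2 hC' (pf_dp_r c s • b)
    rwa [norm_smul, pf_dp_r_norm, one_mul] at h5
  -- Gf
  have hG : ∀ s, Gf μ (√t * c.curvature s) (t * (deriv c.curvature s / 6)) (√t ^ 3 * C') =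
      ∫ b, pf_dp_H c C' t s (pf_dp_r c s • b) ∂μ := by
    intro s
    have h5 := (h2 μ hμ).1 (pf_dp_r c s) (pf_dp_r_norm c s)
    have h6 : Continuous (fun b : Lo => pf_dp_H c C' t s b) :=
      Continuous.comp (g := fun p : ℝ × Lo => pf_dp_H c C' t p.1 p.2) (f := fun b : Lo => (s, b))
        (pf_dp_H_cont h1 c C' t) (by fun_prop)
    have h7 : Gf μ (√t * c.curvature s) (t * (deriv c.curvature s / 6)) (√t ^ 3 * C') =
        ∫ b, pf_dp_H c C' t s b ∂μ := rfl
    have h8 : Continuous (fun b : Lo => pf_dp_r c s • b) := continuous_const_smul _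
    rw [h7]
    conv_lhs => rw [← h5]
    rw [integral_map h8.measurable.aemeasurable h6.aestronglyMeasurable]
  -- integrability
  have hint : Integrable (Function.uncurry fun (s : ℝ) (b : Lo) =>
      pf_dp_H c C' t s (pf_dp_r c s • b)) ((volume.restrict (Ioc 0 c.L)).prod μ) := by
    have h5 : Integrable (fun p : ℝ × Lo => (1 : ℝ) * (pf_dp_Q C).eval ‖p.2‖)
        ((volume.restrict (Ioc 0 c.L)).prod μ) :=
      (integrable_const (1 : ℝ)).mul_prod (pf_dp_int h3 μ hμ (pf_dp_Q C))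
    refine h5.mono' hcont.aestronglyMeasurable (Eventually.of_forall fun p => ?_)
    rw [Real.norm_eq_abs, one_mul]
    exact hle p.1 p.2
  have hF : Integrable (fun b : Lo => ∫ s in (0:ℝ)..c.L, pf_dp_H c C' t s (pf_dp_r c s • b)) μ := by
    have h5 := hint.integral_prod_right
    simp only [intervalIntegral.integral_of_le hL.le]
    exact h5
  have hswap : ∫ s in (0:ℝ)..c.L, Gf μ (√t * c.curvature s) (t * (deriv c.curvature s / 6))
      (√t ^ 3 * C') = ∫ b, (∫ s in (0:ℝ)..c.L, pf_dp_H c C' t s (pf_dp_r c s • b)) ∂μ := by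
    simp only [hG, intervalIntegral.integral_of_le hL.le]
    exact integral_integral_swap hint
  set F : Lo → ℝ := fun b => ∫ s in (0:ℝ)..c.L, pf_dp_H c C' t s (pf_dp_r c s • b) with hFdef
  have hFle : ∀ b, |F b| ≤ c.L * (pf_dp_Q C).eval ‖b‖ := by
    intro b
    have h5 := intervalIntegral.norm_integral_le_of_norm_le_const (a := 0) (b := c.L)
      (f := fun s => pf_dp_H c C' t s (pf_dp_r c s • b)) (C := (pf_dp_Q C).eval ‖b‖)
      (fun s _ => by rw [Real.norm_eq_abs]; exact hle s b)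
    rw [Real.norm_eq_abs, sub_zero, abs_of_pos hL] at h5
    linarith
  have hBm : MeasurableSet {b : Lo | √t * ‖b‖ ≤ ε} :=
    (isClosed_le (continuous_const.mul continuous_norm) continuous_const).measurableSet
  have hA : ∫ b, {b : Lo | √t * ‖b‖ ≤ ε}.indicator (fun b => ∫ s in (0:ℝ)..c.L,
      (dp c C' (rg (√t • b)) s - c.curvature s / 2 * dp c C' (rg (√t • b)) s ^ 2)) b ∂μ =
      √t * ∫ b, {b : Lo | √t * ‖b‖ ≤ ε}.indicator F b ∂μ := by
    rw [← integral_const_mul]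
    refine integral_congr_ae (Eventually.of_forall fun b => ?_)
    have h5 : (∫ s in (0:ℝ)..c.L, (dp c C' (rg (√t • b)) s -
        c.curvature s / 2 * dp c C' (rg (√t • b)) s ^ 2)) = √t * F b := by
      rw [hFdef]
      simp only [pf_dp_eq h1 c C' t _ ht.le b]
      exact intervalIntegral.integral_const_mul _ _
    by_cases hbB : b ∈ {b : Lo | √t * ‖b‖ ≤ ε}
    · simp only [indicator_of_mem hbB]
      exact h5
    · simp only [indicator_of_notMem hbB, mul_zero]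
  rw [hA, hswap, ← mul_sub]
  have hsub : (∫ b, {b : Lo | √t * ‖b‖ ≤ ε}.indicator F b ∂μ) - ∫ b, F b ∂μ =
      -∫ b, {b : Lo | √t * ‖b‖ ≤ ε}ᶜ.indicator F b ∂μ := by
    rw [integral_indicator hBm, integral_indicator hBm.compl, ← integral_add_compl hBm hF]
    ring
  rw [hsub, mul_neg, abs_neg, abs_mul, abs_of_nonneg (Real.sqrt_nonneg t)]
  have hQint : Integrable (fun b : Lo => ‖b‖ ^ 3 * (pf_dp_Q C).eval ‖b‖) μ := by
    have h5 := pf_dp_int h3 μ hμ (Polynomial.X ^ 3 * pf_dp_Q C)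
    simpa using h5
  have hbd : |∫ b, {b : Lo | √t * ‖b‖ ≤ ε}ᶜ.indicator F b ∂μ| ≤
      ∫ b : Lo, √t ^ 3 / ε ^ 3 * c.L * (‖b‖ ^ 3 * (pf_dp_Q C).eval ‖b‖) ∂μ := by
    rw [← Real.norm_eq_abs]
    refine norm_integral_le_of_norm_le (hQint.const_mul _) (Eventually.of_forall fun b => ?_)
    have hQ0 : 0 ≤ (pf_dp_Q C).eval ‖b‖ := (abs_nonneg _).trans (hle 0 b)
    by_cases hbB : b ∈ {b : Lo | √t * ‖b‖ ≤ ε}
    · rw [indicator_of_notMem (fun h : b ∈ {b : Lo | √t * ‖b‖ ≤ ε}ᶜ => h hbB), norm_zero]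
      positivity
    · rw [indicator_of_mem (show b ∈ {b : Lo | √t * ‖b‖ ≤ ε}ᶜ from hbB), Real.norm_eq_abs]
      have h5 : ε < √t * ‖b‖ := not_le.1 hbB
      have h6 : 1 ≤ (√t * ‖b‖) ^ 3 / ε ^ 3 := by
        rw [le_div_iff₀ (by positivity), one_mul]
        exact pow_le_pow_left₀ hε.le h5.le 3
      calc |F b| ≤ c.L * (pf_dp_Q C).eval ‖b‖ := hFle b
        _ = 1 * (c.L * (pf_dp_Q C).eval ‖b‖) := (one_mul _).symm
        _ ≤ (√t * ‖b‖) ^ 3 / ε ^ 3 * (c.L * (pf_dp_Q C).eval ‖b‖) :=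
            mul_le_mul_of_nonneg_right h6 (by positivity)
        _ = √t ^ 3 / ε ^ 3 * c.L * (‖b‖ ^ 3 * (pf_dp_Q C).eval ‖b‖) := by ring
  calc √t * |∫ b, {b : Lo | √t * ‖b‖ ≤ ε}ᶜ.indicator F b ∂μ|
      ≤ √t * ∫ b : Lo, √t ^ 3 / ε ^ 3 * c.L * (‖b‖ ^ 3 * (pf_dp_Q C).eval ‖b‖) ∂μ :=
        mul_le_mul_of_nonneg_left hbd (Real.sqrt_nonneg t)
    _ = c.L / ε ^ 3 * (∫ b : Lo, ‖b‖ ^ 3 * (pf_dp_Q C).eval ‖b‖ ∂μ) * t ^ 2 := by
        rw [integral_const_mul]
        have h5 : √t * √t ^ 3 = t ^ 2 := by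
          have h6 := Real.sq_sqrt ht.le
          calc √t * √t ^ 3 = (√t ^ 2) ^ 2 := by ring
            _ = t ^ 2 := by rw [h6]
        calc √t * (√t ^ 3 / ε ^ 3 * c.L * ∫ b : Lo, ‖b‖ ^ 3 * (pf_dp_Q C).eval ‖b‖ ∂μ)
            = (√t * √t ^ 3) * (c.L / ε ^ 3 * ∫ b : Lo, ‖b‖ ^ 3 * (pf_dp_Q C).eval ‖b‖ ∂μ) := by ring
          _ = _ := by rw [h5]; ring

end Pool.Agent.H212AN
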