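import Pool.Agent.H212AN.D0

set_option autoImplicit false

namespace Pool.Agent.H212AN

open MeasureTheory Set Filter Topology Metric
open scoped Real ENNReal

theorem pf_en_yy_deriv (z : ℂ) (θ : ℝ) : HasDerivAt (fun θ => yy θ z) (xx θ z) θ := by
  have h := ((Real.hasDerivAt_cos θ).const_mul z.re).add ((Real.hasDerivAt_sin θ).const_mul z.im)
  have e : z.re * -Real.sin θ + z.im * Real.cos θ = xx θ z := by simp only [xx]; ring
  rw [e] at h
  exact h

theorem pf_en_xx_deriv (z : ℂ) (θ : ℝ) : HasDerivAt (fun θ => xx θ z) (-(yy θ z)) θ := by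
  have h := ((Real.hasDerivAt_cos θ).const_mul z.im).sub ((Real.hasDerivAt_sin θ).const_mul z.re)
  have e : z.im * -Real.sin θ - z.re * Real.cos θ = -(yy θ z) := by simp only [yy]; ring
  rw [e] at h
  exact h

/-- bounded measurable functions are interval integrable -/
theorem pf_en_int {f : ℝ → ℝ} (hf : Measurable f) {C : ℝ} (hC : ∀ θ, |f θ| ≤ C) (a b : ℝ) :
    IntervalIntegrable f volume a b := by
  refine IntervalIntegrable.mono_fun (intervalIntegrable_const (c := C)) hf.aestronglyMeasurable ?_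
  refine Filter.Eventually.of_forall fun θ => ?_
  show ‖f θ‖ ≤ ‖C‖
  rw [Real.norm_eq_abs, Real.norm_eq_abs]
  exact le_trans (hC θ) (le_abs_self C)

/-- right derivative of a function with a minimum -/
theorem pf_en_right_nonneg {w : ℝ → ℝ} {c θ : ℝ} (h : HasDerivWithinAt w c (Ici θ) θ) (h0 : w θ = 0)
    (hw : ∀ y, 0 ≤ w y) : 0 ≤ c := by
  have h1 : HasDerivWithinAt w c (Ioi θ) θ := h.mono Ioi_subset_Ici_self
  rw [hasDerivWithinAt_iff_tendsto_slope' (by simp)] at h1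
  refine ge_of_tendsto h1 ?_
  filter_upwards [self_mem_nhdsWithin] with y hy
  rw [slope_def_field, h0, sub_zero]
  exact div_nonneg (hw y) (sub_nonneg.mpr (le_of_lt hy))

theorem pf_en_left_nonpos {w : ℝ → ℝ} {c θ : ℝ} (h : HasDerivWithinAt w c (Iic θ) θ) (h0 : w θ = 0)
    (hw : ∀ y, 0 ≤ w y) : c ≤ 0 := by
  have h1 : HasDerivWithinAt w c (Iio θ) θ := h.mono Iio_subset_Iic_self
  rw [hasDerivWithinAt_iff_tendsto_slope' (by simp)] at h1
  refine le_of_tendsto h1 ?_
  filter_upwards [self_mem_nhdsWithin] with y hy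
  rw [slope_def_field, h0, sub_zero]
  exact div_nonpos_of_nonneg_of_nonpos (hw y) (sub_nonpos.mpr (le_of_lt hy))

theorem pf_en_periodic_deriv {f : ℝ → ℝ} {c : ℝ} (hf : Function.Periodic f c) : Function.Periodic (deriv f) c := by
  intro x
  have h : (fun y => f (y + c)) = f := funext hf
  calc deriv f (x + c) = deriv (fun y => f (y + c)) x := (deriv_comp_add_const f c x).symm
    _ = deriv f x := by rw [h]

/-- the key identity in an abstract form -/
theorem pf_en_key (a w wp : ℝ → ℝ) (Ca : NNReal) (Cw : NNReal) (ha : LipschitzWith Ca a) (hwL : LipschitzWith Cw w)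
    (hap : Function.Periodic a (2 * π)) (hwper : Function.Periodic w (2 * π)) (hw0 : ∀ θ, 0 ≤ w θ)
    (hwp : ∀ θ, HasDerivWithinAt w (wp θ) (Ici θ) θ)
    (hzero : ∀ θ, w θ = 0 → wp θ = 0)
    (hloc : ∀ θ, 0 < w θ → ∃ δ > 0, ∃ z : ℂ, ∀ θ', |θ' - θ| < δ → a θ' = yy θ' z) :
    ∫ θ in (0:ℝ)..(2 * π), (a θ * w θ - deriv a θ * deriv w θ) = 0 := by
  set Φ : ℝ → ℝ := fun θ => deriv a θ * w θ with hΦ
  have hda : ∀ θ, |deriv a θ| ≤ Ca := fun θ => by
    have := norm_deriv_le_of_lipschitz (x₀ := θ) ha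
    rwa [Real.norm_eq_abs] at this
  have hdw : ∀ θ, |deriv w θ| ≤ Cw := fun θ => by
    have := norm_deriv_le_of_lipschitz (x₀ := θ) hwL
    rwa [Real.norm_eq_abs] at this
  have hΦb : ∀ θ, ‖Φ θ‖ ≤ Ca * ‖w θ‖ := by
    intro θ
    simp only [hΦ]
    rw [norm_mul, Real.norm_eq_abs (deriv a θ)]
    exact mul_le_mul_of_nonneg_right (hda θ) (norm_nonneg _)
  have hwc : Continuous w := hwL.continuous
  -- local form
  have hlocΦ : ∀ θ, 0 < w θ → ∃ z : ℂ, a θ = yy θ z ∧ deriv a θ = xx θ z ∧ Φ =ᶠ[𝓝 θ] fun θ' => xx θ' z * w θ' := by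
    intro θ hθ
    obtain ⟨δ, hδ, z, hz⟩ := hloc θ hθ
    have hd : ∀ θ', |θ' - θ| < δ → deriv a θ' = xx θ' z := by
      intro θ' hθ'
      have hev : a =ᶠ[𝓝 θ'] fun y => yy y z := by
        have hopen : {y : ℝ | |y - θ| < δ} ∈ 𝓝 θ' :=
          (isOpen_lt (by fun_prop) continuous_const).mem_nhds hθ'
        filter_upwards [hopen] with y hy using hz y hy
      rw [hev.deriv_eq]
      exact (pf_en_yy_deriv z θ').deriv
    refine ⟨z, hz θ (by simpa using hδ), hd θ (by simpa using hδ), ?_⟩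
    have hopen : {y : ℝ | |y - θ| < δ} ∈ 𝓝 θ :=
      (isOpen_lt (by fun_prop) continuous_const).mem_nhds (by simpa using hδ)
    filter_upwards [hopen] with y hy
    simp only [hΦ]
    rw [hd y hy]
  have hcont : Continuous Φ := by
    rw [continuous_iff_continuousAt]
    intro θ
    rcases (hw0 θ).lt_or_eq with h | h
    · obtain ⟨z, _, _, hev⟩ := hlocΦ θ h
      have hc : ContinuousAt (fun θ' => xx θ' z * w θ') θ :=
        ((pf_en_xx_deriv z θ).continuousAt).mul hwc.continuousAt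
      exact hc.congr hev.symm
    · have h0 : Φ θ = 0 := by simp only [hΦ]; rw [← h, mul_zero]
      rw [ContinuousAt, h0]
      refine squeeze_zero_norm hΦb ?_
      have h1 : Tendsto (fun t => (Ca : ℝ) * ‖w t‖) (𝓝 θ) (𝓝 ((Ca : ℝ) * ‖w θ‖)) :=
        (hwc.norm.const_mul (Ca : ℝ) |>.tendsto θ)
      rw [← h, norm_zero, mul_zero] at h1
      exact h1
  have hder : ∀ θ, HasDerivWithinAt Φ (-(a θ) * w θ + deriv a θ * wp θ) (Ioi θ) θ := by
    intro θ
    have hwr : HasDerivWithinAt w (wp θ) (Ioi θ) θ := (hwp θ).mono Ioi_subset_Ici_self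
    rcases (hw0 θ).lt_or_eq with h | h
    · obtain ⟨z, hz1, hz2, hev⟩ := hlocΦ θ h
      have h1 : HasDerivWithinAt (fun θ' => xx θ' z * w θ') (-(yy θ z) * w θ + xx θ z * wp θ) (Ioi θ) θ :=
        (pf_en_xx_deriv z θ).hasDerivWithinAt.mul hwr
      rw [hz1, hz2]
      exact h1.congr_of_eventuallyEq (hev.filter_mono nhdsWithin_le_nhds) hev.eq_of_nhds
    · have hwp0 : wp θ = 0 := hzero θ h.symm
      rw [hwp0, ← h, mul_zero, mul_zero, add_zero]
      rw [hwp0] at hwr
      rw [hasDerivWithinAt_iff_isLittleO] at hwr ⊢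
      simp only [smul_zero, sub_zero, ← h] at hwr
      have h0 : Φ θ = 0 := by simp only [hΦ]; rw [← h, mul_zero]
      simp only [smul_zero, sub_zero, h0]
      refine Asymptotics.IsBigO.trans_isLittleO ?_ hwr
      exact Asymptotics.IsBigO.of_bound (Ca : ℝ) (Filter.Eventually.of_forall hΦb)
  -- almost everywhere equality of the derivatives
  have hae : ∀ᵐ θ : ℝ, wp θ = deriv w θ := by
    filter_upwards [hwL.ae_differentiableAt_real] with θ hθ
    exact (uniqueDiffWithinAt_Ici θ).eq_deriv _ (hwp θ) hθ.hasDerivAt.hasDerivWithinAt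
  have hperΦ : Φ (2 * π) = Φ 0 := by
    have h1 := pf_en_periodic_deriv hap 0
    have h2 := hwper 0
    rw [zero_add] at h1 h2
    simp only [hΦ]
    rw [h1, h2]
  have hba : ∃ Ba, ∀ θ, |a θ| ≤ Ba := by
    obtain ⟨B, hB⟩ := (isCompact_Icc (a := (0:ℝ)) (b := 2 * π)).exists_bound_of_continuousOn ha.continuous.continuousOn
    refine ⟨B, fun θ => ?_⟩
    obtain ⟨y, hy, hy2⟩ := hap.exists_mem_Ico₀ (by positivity) θ
    rw [hy2]
    simpa only [Real.norm_eq_abs] using hB y (Ico_subset_Icc_self hy)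
  obtain ⟨Ba, hBa⟩ := hba
  have hbw : ∃ Bw, ∀ θ, |w θ| ≤ Bw := by
    obtain ⟨B, hB⟩ := (isCompact_Icc (a := (0:ℝ)) (b := 2 * π)).exists_bound_of_continuousOn hwc.continuousOn
    refine ⟨B, fun θ => ?_⟩
    obtain ⟨y, hy, hy2⟩ := hwper.exists_mem_Ico₀ (by positivity) θ
    rw [hy2]
    simpa only [Real.norm_eq_abs] using hB y (Ico_subset_Icc_self hy)
  obtain ⟨Bw, hBw⟩ := hbw
  have hint : IntervalIntegrable (fun θ => -(a θ) * w θ + deriv a θ * deriv w θ) volume 0 (2 * π) := by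
    refine pf_en_int ?_ (C := Ba * Bw + Ca * Cw) ?_ _ _
    · exact (ha.continuous.measurable.neg.mul hwc.measurable).add ((measurable_deriv a).mul (measurable_deriv w))
    · intro θ
      refine le_trans (abs_add_le _ _) (add_le_add ?_ ?_)
      · rw [abs_mul, abs_neg]
        exact mul_le_mul (hBa θ) (hBw θ) (abs_nonneg _) (le_trans (abs_nonneg _) (hBa θ))
      · rw [abs_mul]
        exact mul_le_mul (hda θ) (hdw θ) (abs_nonneg _) (NNReal.coe_nonneg _)
  have hint' : IntervalIntegrable (fun θ => -(a θ) * w θ + deriv a θ * wp θ) volume 0 (2 * π) := by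
    refine hint.congr_ae ?_
    refine ae_restrict_of_ae ?_
    filter_upwards [hae] with θ hθ
    rw [hθ]
  have hftc := intervalIntegral.integral_eq_sub_of_hasDeriv_right (a := 0) (b := 2 * π) hcont.continuousOn
    (fun θ _ => hder θ) hint'
  rw [hperΦ, sub_self] at hftc
  have h2 : ∫ θ in (0:ℝ)..(2 * π), (a θ * w θ - deriv a θ * deriv w θ)
      = - ∫ θ in (0:ℝ)..(2 * π), (-(a θ) * w θ + deriv a θ * wp θ) := by
    rw [← intervalIntegral.integral_neg]
    refine intervalIntegral.integral_congr_ae ?_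
    filter_upwards [hae] with θ hθ _
    rw [hθ]; ring
  rw [h2, hftc, neg_zero]

/-- bound on a continuous periodic function -/
theorem pf_en_bdd {f : ℝ → ℝ} (hf : Continuous f) (hp : Function.Periodic f (2 * π)) : ∃ B, ∀ θ, |f θ| ≤ B := by
  obtain ⟨B, hB⟩ := (isCompact_Icc (a := (0:ℝ)) (b := 2 * π)).exists_bound_of_continuousOn hf.continuousOn
  refine ⟨B, fun θ => ?_⟩
  obtain ⟨y, hy, hy2⟩ := hp.exists_mem_Ico₀ (by positivity) θ
  rw [hy2]
  simpa only [Real.norm_eq_abs] using hB y (Ico_subset_Icc_self hy)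

/- PLAIN PROOF.
E = er K R, hE = hs E, w = ww K R, g = R - hs K = hE + w. All are Lipschitz and 2π-periodic (S_hs for K and for E), so a.e.
differentiable with bounded derivatives. FK = vol E = ar2 E = 1/2 ∫ (hE² - hE'²) by S_ar.
KEY: ∫ (hE w - hE' w') = 0 over a period.
-/
theorem pf_en (h1 : S_hs) (h2 : S_er) (h3 : S_ar) : S_en := by
  intro K ρ R hG hρ hR
  obtain ⟨hKc, h0K, hKb⟩ := id hG
  obtain ⟨hEc, hEconv, hEball, hw, hloc, hz⟩ := h2 K ρ R hG hρ hR
  have hRρ : 0 < R - ρ := by linarith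
  have hEne : (er K R).Nonempty := ⟨0, hEball (mem_ball_self hRρ)⟩
  obtain ⟨ρ', hρ'⟩ : ∃ ρ', er K R ⊆ closedBall 0 ρ' := hEc.isBounded.subset_closedBall 0
  obtain ⟨fK, _, _, lipK, perK, _, rK, lK, _, _, fxK, _, _⟩ := h1 K ρ hKc ⟨0, h0K⟩ hKb
  obtain ⟨fE, _, _, lipE, perE, _, rE, lE, _, _, fxE, _, _⟩ := h1 (er K R) ρ' hEc hEne hρ'
  have hFK : FK K R = ar2 (er K R) := h3 (er K R) (R - ρ) hEc hEconv hRρ hEball
  set b : ℝ → ℝ := hs K with hb
  set a : ℝ → ℝ := hs (er K R) with ha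
  set w : ℝ → ℝ := ww K R with hwdef
  have hwe : ∀ θ, w θ = R - b θ - a θ := fun θ => rfl
  have hwfun : w = fun θ => R - b θ - a θ := funext hwe
  have hwr : ∀ θ, HasDerivWithinAt w (-(xp K θ + xp (er K R) θ)) (Ici θ) θ := by
    intro θ
    have h := ((hasDerivWithinAt_const θ (Ici θ) R).sub (rK θ)).sub (rE θ)
    have e : (0 : ℝ) - xp K θ - xp (er K R) θ = -(xp K θ + xp (er K R) θ) := by ring
    rw [e] at h
    exact h
  have hwl : ∀ θ, HasDerivWithinAt w (-(xm K θ + xm (er K R) θ)) (Iic θ) θ := by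
    intro θ
    have h := ((hasDerivWithinAt_const θ (Iic θ) R).sub (lK θ)).sub (lE θ)
    have e : (0 : ℝ) - xm K θ - xm (er K R) θ = -(xm K θ + xm (er K R) θ) := by ring
    rw [e] at h
    exact h
  have hxK : ∀ θ, xm K θ ≤ xp K θ := by
    intro θ
    obtain ⟨k, hk⟩ := fK θ
    exact le_trans (fxK θ k hk).1 (fxK θ k hk).2
  have hxE : ∀ θ, xm (er K R) θ ≤ xp (er K R) θ := by
    intro θ
    obtain ⟨k, hk⟩ := fE θ
    exact le_trans (fxE θ k hk).1 (fxE θ k hk).2
  have hw0 : ∀ θ, 0 ≤ w θ := fun θ => (hw θ).1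
  have hzero : ∀ θ, w θ = 0 → -(xp K θ + xp (er K R) θ) = 0 := by
    intro θ h0
    have e1 := pf_en_right_nonneg (hwr θ) h0 hw0
    have e2 := pf_en_left_nonpos (hwl θ) h0 hw0
    have e3 := hxK θ
    have e4 := hxE θ
    linarith
  have hlipw : LipschitzWith (0 + Real.toNNReal ρ + Real.toNNReal ρ') w :=
    ((LipschitzWith.const R).sub lipK).sub lipE
  have hperw : Function.Periodic w (2 * π) := by
    intro θ
    rw [hwe, hwe, perK θ, perE θ]
  have key := pf_en_key a w (fun θ => -(xp K θ + xp (er K R) θ)) _ _ lipE hlipw perE hperw hw0 hwr hzero (by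
    intro θ hθ
    obtain ⟨δ, hδ, z, _, hz⟩ := hloc θ hθ
    exact ⟨δ, hδ, z, hz⟩)
  -- bounds
  obtain ⟨Ba, hBa⟩ := pf_en_bdd lipE.continuous perE
  obtain ⟨Bb, hBb⟩ := pf_en_bdd lipK.continuous perK
  have hBa0 : 0 ≤ Ba := le_trans (abs_nonneg _) (hBa 0)
  have hBb0 : 0 ≤ Bb := le_trans (abs_nonneg _) (hBb 0)
  have hda : ∀ θ, |deriv a θ| ≤ (Real.toNNReal ρ' : ℝ) := fun θ => by
    have := norm_deriv_le_of_lipschitz (x₀ := θ) lipE
    rwa [Real.norm_eq_abs] at this
  have hdb : ∀ θ, |deriv b θ| ≤ (Real.toNNReal ρ : ℝ) := fun θ => by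
    have := norm_deriv_le_of_lipschitz (x₀ := θ) lipK
    rwa [Real.norm_eq_abs] at this
  have mula : ∀ {f g : ℝ → ℝ} {C D : ℝ}, (∀ θ, |f θ| ≤ C) → (∀ θ, |g θ| ≤ D) → ∀ θ, |f θ * g θ| ≤ C * D := by
    intro f g C D hf hg θ
    rw [abs_mul]
    exact mul_le_mul (hf θ) (hg θ) (abs_nonneg _) (le_trans (abs_nonneg _) (hf θ))
  have ma : Measurable a := lipE.continuous.measurable
  have mb : Measurable b := lipK.continuous.measurable
  have mda : Measurable (deriv a) := measurable_deriv a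
  have mdb : Measurable (deriv b) := measurable_deriv b
  have Ia : IntervalIntegrable a volume 0 (2 * π) := pf_en_int ma hBa _ _
  have Ib : IntervalIntegrable b volume 0 (2 * π) := pf_en_int mb hBb _ _
  have Iaa : IntervalIntegrable (fun θ => a θ * a θ) volume 0 (2 * π) := pf_en_int (ma.mul ma) (mula hBa hBa) _ _
  have Ibb : IntervalIntegrable (fun θ => b θ * b θ) volume 0 (2 * π) := pf_en_int (mb.mul mb) (mula hBb hBb) _ _
  have Iab : IntervalIntegrable (fun θ => a θ * b θ) volume 0 (2 * π) := pf_en_int (ma.mul mb) (mula hBa hBb) _ _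
  have Idaa : IntervalIntegrable (fun θ => deriv a θ * deriv a θ) volume 0 (2 * π) :=
    pf_en_int (mda.mul mda) (mula hda hda) _ _
  have Idbb : IntervalIntegrable (fun θ => deriv b θ * deriv b θ) volume 0 (2 * π) :=
    pf_en_int (mdb.mul mdb) (mula hdb hdb) _ _
  have Idab : IntervalIntegrable (fun θ => deriv a θ * deriv b θ) volume 0 (2 * π) :=
    pf_en_int (mda.mul mdb) (mula hda hdb) _ _
  -- the derivative of the gap
  have hae : ∀ᵐ θ : ℝ, deriv w θ = - deriv b θ - deriv a θ := by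
    filter_upwards [lipK.ae_differentiableAt_real, lipE.ae_differentiableAt_real] with θ h3 h4
    have h5 := ((hasDerivAt_const θ R).sub h3.hasDerivAt).sub h4.hasDerivAt
    have h6 : HasDerivAt w (0 - deriv b θ - deriv a θ) θ := h5
    rw [h6.deriv, zero_sub]
  -- general expansion
  have expand : ∀ c0 c1 c2 c3 c4 c5 c6 c7 c8 : ℝ,
      ∫ θ in (0:ℝ)..(2 * π), (c0 + c1 * a θ + c2 * b θ + c3 * (a θ * a θ) + c4 * (b θ * b θ) + c5 * (a θ * b θ)
        + c6 * (deriv a θ * deriv a θ) + c7 * (deriv b θ * deriv b θ) + c8 * (deriv a θ * deriv b θ))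
      = c0 * (2 * π) + c1 * (∫ θ in (0:ℝ)..(2 * π), a θ) + c2 * (∫ θ in (0:ℝ)..(2 * π), b θ)
        + c3 * (∫ θ in (0:ℝ)..(2 * π), a θ * a θ) + c4 * (∫ θ in (0:ℝ)..(2 * π), b θ * b θ)
        + c5 * (∫ θ in (0:ℝ)..(2 * π), a θ * b θ) + c6 * (∫ θ in (0:ℝ)..(2 * π), deriv a θ * deriv a θ)
        + c7 * (∫ θ in (0:ℝ)..(2 * π), deriv b θ * deriv b θ)
        + c8 * (∫ θ in (0:ℝ)..(2 * π), deriv a θ * deriv b θ) := by
    intro c0 c1 c2 c3 c4 c5 c6 c7 c8
    have i0 : IntervalIntegrable (fun _ : ℝ => c0) volume 0 (2 * π) := intervalIntegrable_const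
    have i1 := Ia.const_mul c1
    have i2 := Ib.const_mul c2
    have i3 := Iaa.const_mul c3
    have i4 := Ibb.const_mul c4
    have i5 := Iab.const_mul c5
    have i6 := Idaa.const_mul c6
    have i7 := Idbb.const_mul c7
    have i8 := Idab.const_mul c8
    have j1 := i0.add i1
    have j2 := j1.add i2
    have j3 := j2.add i3
    have j4 := j3.add i4
    have j5 := j4.add i5
    have j6 := j5.add i6
    have j7 := j6.add i7
    rw [intervalIntegral.integral_add j7 i8, intervalIntegral.integral_add j6 i7, intervalIntegral.integral_add j5 i6,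
      intervalIntegral.integral_add j4 i5, intervalIntegral.integral_add j3 i4, intervalIntegral.integral_add j2 i3,
      intervalIntegral.integral_add j1 i2, intervalIntegral.integral_add i0 i1]
    simp only [intervalIntegral.integral_const_mul, intervalIntegral.integral_const, smul_eq_mul]
    ring
  have k1 : ∫ θ in (0:ℝ)..(2 * π), (a θ * w θ - deriv a θ * deriv w θ)
      = ∫ θ in (0:ℝ)..(2 * π), (0 + R * a θ + 0 * b θ + (-1) * (a θ * a θ) + 0 * (b θ * b θ) + (-1) * (a θ * b θ)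
        + 1 * (deriv a θ * deriv a θ) + 0 * (deriv b θ * deriv b θ) + 1 * (deriv a θ * deriv b θ)) := by
    refine intervalIntegral.integral_congr_ae ?_
    filter_upwards [hae] with θ hθ _
    rw [hθ, hwe]; ring
  have k2 : ∫ θ in (0:ℝ)..(2 * π), (deriv w θ ^ 2 - w θ ^ 2)
      = ∫ θ in (0:ℝ)..(2 * π), (-R ^ 2 + (2 * R) * a θ + (2 * R) * b θ + (-1) * (a θ * a θ) + (-1) * (b θ * b θ)
        + (-2) * (a θ * b θ)
        + 1 * (deriv a θ * deriv a θ) + 1 * (deriv b θ * deriv b θ) + 2 * (deriv a θ * deriv b θ)) := by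
    refine intervalIntegral.integral_congr_ae ?_
    filter_upwards [hae] with θ hθ _
    rw [hθ, hwe]; ring
  have k3 : ∫ θ in (0:ℝ)..(2 * π), (w θ ^ 2 - deriv w θ ^ 2)
      = ∫ θ in (0:ℝ)..(2 * π), (R ^ 2 + (-2 * R) * a θ + (-2 * R) * b θ + 1 * (a θ * a θ) + 1 * (b θ * b θ)
        + 2 * (a θ * b θ)
        + (-1) * (deriv a θ * deriv a θ) + (-1) * (deriv b θ * deriv b θ) + (-2) * (deriv a θ * deriv b θ)) := by
    refine intervalIntegral.integral_congr_ae ?_
    filter_upwards [hae] with θ hθ _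
    rw [hθ, hwe]; ring
  have k4 : BB b w
      = ∫ θ in (0:ℝ)..(2 * π), (0 + 0 * a θ + R * b θ + 0 * (a θ * a θ) + (-1) * (b θ * b θ)
        + (-1) * (a θ * b θ)
        + 0 * (deriv a θ * deriv a θ) + 1 * (deriv b θ * deriv b θ) + 1 * (deriv a θ * deriv b θ)) := by
    rw [BB]
    refine intervalIntegral.integral_congr_ae ?_
    filter_upwards [hae] with θ hθ _
    rw [hθ, hwe]; ring
  have k5 : ∫ θ in (0:ℝ)..(2 * π), w θ
      = ∫ θ in (0:ℝ)..(2 * π), (R + (-1) * a θ + (-1) * b θ + 0 * (a θ * a θ) + 0 * (b θ * b θ)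
        + 0 * (a θ * b θ)
        + 0 * (deriv a θ * deriv a θ) + 0 * (deriv b θ * deriv b θ) + 0 * (deriv a θ * deriv b θ)) := by
    refine intervalIntegral.integral_congr fun θ _ => ?_
    show w θ = _
    rw [hwe]; ring
  have k6 : ar2 (er K R) = (1 / 2) * ∫ θ in (0:ℝ)..(2 * π), (0 + 0 * a θ + 0 * b θ + 1 * (a θ * a θ) + 0 * (b θ * b θ)
        + 0 * (a θ * b θ)
        + (-1) * (deriv a θ * deriv a θ) + 0 * (deriv b θ * deriv b θ) + 0 * (deriv a θ * deriv b θ)) := by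
    rw [ar2]
    congr 1
    refine intervalIntegral.integral_congr fun θ _ => ?_
    show a θ ^ 2 - deriv a θ ^ 2 = _
    ring
  have k7 : ar2 K = (1 / 2) * ∫ θ in (0:ℝ)..(2 * π), (0 + 0 * a θ + 0 * b θ + 0 * (a θ * a θ) + 1 * (b θ * b θ)
        + 0 * (a θ * b θ)
        + 0 * (deriv a θ * deriv a θ) + (-1) * (deriv b θ * deriv b θ) + 0 * (deriv a θ * deriv b θ)) := by
    rw [ar2]
    congr 1
    refine intervalIntegral.integral_congr fun θ _ => ?_
    show b θ ^ 2 - deriv b θ ^ 2 = _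
    ring
  have k8 : per K = ∫ θ in (0:ℝ)..(2 * π), b θ := rfl
  rw [k1, expand] at key
  rw [expand] at k2 k3 k4 k5 k6 k7
  rw [hFK, k2, k3, k4, k5, k6, k7, k8]
  constructor
  · linarith
  · linear_combination key

end Pool.Agent.H212AN
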