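import Pool.Agent.H212AN.D1

set_option autoImplicit false

namespace Pool.Agent.H212AN

open MeasureTheory Set Filter Topology Metric
open Pool.Agent.H212AN.G (nG PG gm)
open scoped Real ENNReal

/- PLAIN PROOF.
b 0 = 0: marginal m = 0: gm x 0 = 0. b 1: gm x (m+1) = 0 (gm_all in G0), so gm x m = -(ce x m) = -(x_m - mean), which tends to 0 in
probability: under PG s M with s = 1/M, for M = m+1: e.g. P(‖gm x m‖ >= δ) <= the tail bound: gm x m = -(x_m - (Σ x)/M), E‖x_m‖² = 4s =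
4/M, E‖Σ x /M‖² = 4/M, so E ‖gm x m‖² <= 16/M. Since b (m/(m+1)) -> b 1, Fatou: E ‖b 1‖² <= liminf E‖b(m/(m+1))‖² = 0.
(Second moments of nG: from the moment generating function mgf_nG in G0, or use tail bounds of G0 (ch / S_CH with one functional, or
mx_tail for M=1...); any way of showing convergence to 0 in probability is fine.)
-/
theorem pf_end_eval (t : unitInterval) : Continuous (fun b : Lo => b t) :=
  continuous_eval_const t

theorem pf_end_grid (m : ℕ) : Measurable (grid m) :=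
  measurable_pi_lambda _ fun r => (pf_end_eval (gpt m r)).measurable

theorem pf_end_gmm (m : ℕ) :
    Measurable (fun (x : Fin (m + 1) → ℂ) (r : Fin (m + 1)) => gm x r) :=
  measurable_pi_lambda _ fun r => (G.gm_cont (r : ℕ)).measurable

/-- transfer of integrals over the grid -/
theorem pf_end_law {μ : Measure Lo} (hμ : IsLoop μ) (m : ℕ) {F : (Fin (m + 1) → ℂ) → ℝ≥0∞}
    (hF : Measurable F) :
    ∫⁻ b, F (grid m b) ∂μ =
      ∫⁻ x, F (fun r => gm x r) ∂(PG (1 / ((m : ℝ) + 1)) (m + 1)) := by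
  rw [← lintegral_map hF (pf_end_grid m), hμ.marg m, lintegral_map hF (pf_end_gmm m)]

/-- exponential moments of the last point of the discrete loop -/
theorem pf_end_mgf (m : ℕ) (u : ℂ) :
    ∫⁻ x, ENNReal.ofReal (Real.exp (G.ip u (gm x m))) ∂(PG (1 / ((m : ℝ) + 1)) (m + 1)) ≤
      ENNReal.ofReal (Real.exp (‖u‖ ^ 2 * (1 / ((m : ℝ) + 1)))) := by
  have hm : (0 : ℝ) < (m : ℝ) + 1 := by positivity
  set c : Fin (m + 1) → ℝ := fun l => (if l.val < m then (1 : ℝ) else 0) - m / ((m : ℝ) + 1)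
    with hc
  have h1 : ∀ x : Fin (m + 1) → ℂ, G.ip u (gm x m) = ∑ l, G.ip ((c l : ℂ) * u) (x l) := by
    intro x
    have e1 : gm x m = ∑ l, ((c l : ℝ) : ℂ) * x l := by
      rw [G.gm_eq x (Nat.le_succ m), G.sg, G.mn, mul_div_assoc', Finset.mul_sum, Finset.sum_div,
        ← Finset.sum_sub_distrib]
      refine Finset.sum_congr rfl fun l _ => ?_
      have hm' : ((m : ℂ) + 1) ≠ 0 := by exact_mod_cast (Nat.succ_ne_zero m)
      simp only [hc]
      split_ifs with h
      · push_cast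
        field_simp
      · push_cast
        field_simp
        ring
    rw [e1, G.ip_sum_right]
    refine Finset.sum_congr rfl fun l _ => ?_
    rw [G.ip_smul_right, G.ip_smul_left]
  have h2 : ∑ l, ‖((c l : ℝ) : ℂ) * u‖ ^ 2 = ‖u‖ ^ 2 * ((m : ℝ) / ((m : ℝ) + 1)) := by
    have e2 : ∀ l, ‖((c l : ℝ) : ℂ) * u‖ ^ 2 = ‖u‖ ^ 2 * c l ^ 2 := by
      intro l
      rw [norm_mul, Complex.norm_real, mul_pow, Real.norm_eq_abs, sq_abs, mul_comm]
    rw [Finset.sum_congr rfl fun l _ => e2 l, ← Finset.mul_sum]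
    congr 1
    rw [Fin.sum_univ_castSucc]
    have e3 : ∀ i : Fin m, c i.castSucc = 1 - m / ((m : ℝ) + 1) := by
      intro i
      simp only [hc, Fin.val_castSucc, i.2, if_true]
    have e4 : c (Fin.last m) = 0 - m / ((m : ℝ) + 1) := by
      simp only [hc, Fin.val_last, lt_irrefl, if_false]
    simp only [e3, e4, Finset.sum_const, Finset.card_univ, Fintype.card_fin, nsmul_eq_mul]
    field_simp
    ring
  simp_rw [h1]
  rw [G.mgf_PG (by positivity) (m + 1) (fun l => (c l : ℂ) * u), h2]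
  refine ENNReal.ofReal_le_ofReal (Real.exp_le_exp.2 ?_)
  have h3 : (m : ℝ) / ((m : ℝ) + 1) ≤ 1 := by
    rw [div_le_one hm]; linarith
  have h4 : ‖u‖ ^ 2 * ((m : ℝ) / ((m : ℝ) + 1)) ≤ ‖u‖ ^ 2 :=
    mul_le_of_le_one_right (by positivity) h3
  calc 1 / ((m : ℝ) + 1) * (‖u‖ ^ 2 * ((m : ℝ) / ((m : ℝ) + 1)))
      ≤ 1 / ((m : ℝ) + 1) * ‖u‖ ^ 2 := mul_le_mul_of_nonneg_left h4 (by positivity)
    _ = ‖u‖ ^ 2 * (1 / ((m : ℝ) + 1)) := mul_comm _ _

theorem pf_end_gpt : Tendsto (fun m : ℕ => gpt m (Fin.last m)) atTop (𝓝 1) := by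
  rw [tendsto_subtype_rng]
  have h : Tendsto (fun m : ℕ => (m : ℝ) / ((m : ℝ) + 1)) atTop (𝓝 1) :=
    tendsto_natCast_div_add_atTop 1
  exact h

theorem pf_end_fatou {μ : Measure Lo} (hμ : IsLoop μ) (u : ℂ) :
    ∫⁻ b, ENNReal.ofReal (Real.exp (G.ip u (b 1))) ∂μ ≤ 1 := by
  have hmeas : ∀ m : ℕ, Measurable
      (fun b : Lo => ENNReal.ofReal (Real.exp (G.ip u (b (gpt m (Fin.last m)))))) := fun m =>
    (((G.ip_cont u).comp (pf_end_eval _)).measurable.exp).ennreal_ofReal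
  have h1 := lintegral_liminf_le (μ := μ) (u := atTop) hmeas
  have h2 : ∀ b : Lo, liminf (fun m : ℕ =>
      ENNReal.ofReal (Real.exp (G.ip u (b (gpt m (Fin.last m)))))) atTop =
      ENNReal.ofReal (Real.exp (G.ip u (b 1))) := by
    intro b
    refine Tendsto.liminf_eq ?_
    refine (ENNReal.continuous_ofReal.tendsto _).comp ?_
    refine (Real.continuous_exp.tendsto _).comp ?_
    refine ((G.ip_cont u).tendsto _).comp ?_
    exact (b.continuous.tendsto 1).comp pf_end_gpt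
  simp_rw [h2] at h1
  refine h1.trans ?_
  have h3 : ∀ m : ℕ, ∫⁻ b, ENNReal.ofReal (Real.exp (G.ip u (b (gpt m (Fin.last m))))) ∂μ ≤
      ENNReal.ofReal (Real.exp (‖u‖ ^ 2 * (1 / ((m : ℝ) + 1)))) := by
    intro m
    have hF : Measurable (fun v : Fin (m + 1) → ℂ =>
        ENNReal.ofReal (Real.exp (G.ip u (v (Fin.last m))))) :=
      (((G.ip_cont u).measurable.comp (measurable_pi_apply _)).exp).ennreal_ofReal
    have h4 := pf_end_law hμ m hF
    have h5 := pf_end_mgf m u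
    refine le_trans (le_of_eq ?_) h5
    exact h4
  have h6 : Tendsto (fun m : ℕ => ENNReal.ofReal (Real.exp (‖u‖ ^ 2 * (1 / ((m : ℝ) + 1)))))
      atTop (𝓝 1) := by
    have h7 : Tendsto (fun m : ℕ => ‖u‖ ^ 2 * (1 / ((m : ℝ) + 1))) atTop (𝓝 (‖u‖ ^ 2 * 0)) :=
      tendsto_one_div_add_atTop_nhds_zero_nat.const_mul _
    rw [mul_zero] at h7
    have h8 := ((ENNReal.continuous_ofReal.comp Real.continuous_exp).tendsto 0).comp h7
    rw [show ((ENNReal.ofReal ∘ Real.exp) 0 : ℝ≥0∞) = 1 by simp] at h8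
    exact h8
  calc liminf (fun m : ℕ =>
        ∫⁻ b, ENNReal.ofReal (Real.exp (G.ip u (b (gpt m (Fin.last m))))) ∂μ) atTop
      ≤ liminf (fun m : ℕ => ENNReal.ofReal (Real.exp (‖u‖ ^ 2 * (1 / ((m : ℝ) + 1))))) atTop :=
        liminf_le_liminf (Eventually.of_forall h3)
    _ = 1 := h6.liminf_eq

theorem pf_end_ip {μ : Measure Lo} (hμ : IsLoop μ) (u : ℂ) : ∀ᵐ b ∂μ, G.ip u (b 1) = 0 := by
  have := hμ.prob
  have hm : ∀ v : ℂ, Measurable (fun b : Lo => Real.exp (G.ip v (b 1))) := fun v =>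
    ((G.ip_cont v).comp (pf_end_eval _)).measurable.exp
  have hmc : Measurable (fun b : Lo => ENNReal.ofReal (Real.exp (G.ip u (b 1)) +
      Real.exp (G.ip (-u) (b 1)) - 2)) :=
    (((hm u).add (hm (-u))).sub_const 2).ennreal_ofReal
  have hcosh : ∀ b : Lo, Real.exp (G.ip u (b 1)) + Real.exp (G.ip (-u) (b 1)) =
      2 * Real.cosh (G.ip u (b 1)) := by
    intro b
    rw [G.ip_neg_left, Real.cosh_eq]
    ring
  have h1 : ∫⁻ b, (ENNReal.ofReal (Real.exp (G.ip u (b 1)) + Real.exp (G.ip (-u) (b 1)) - 2) + 2)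
      ∂μ ≤ 2 := by
    have e : ∀ b : Lo, ENNReal.ofReal (Real.exp (G.ip u (b 1)) +
        Real.exp (G.ip (-u) (b 1)) - 2) + 2 =
        ENNReal.ofReal (Real.exp (G.ip u (b 1))) + ENNReal.ofReal (Real.exp (G.ip (-u) (b 1))) := by
      intro b
      have h2 : (0 : ℝ) ≤ Real.exp (G.ip u (b 1)) + Real.exp (G.ip (-u) (b 1)) - 2 := by
        rw [hcosh b]
        have := Real.one_le_cosh (G.ip u (b 1))
        linarith
      rw [← ENNReal.ofReal_add (Real.exp_pos _).le (Real.exp_pos _).le,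
        show (2 : ℝ≥0∞) = ENNReal.ofReal 2 by simp, ← ENNReal.ofReal_add h2 (by norm_num)]
      congr 1
      ring
    simp_rw [e]
    rw [lintegral_add_left (hm u).ennreal_ofReal]
    have := add_le_add (pf_end_fatou hμ u) (pf_end_fatou hμ (-u))
    refine this.trans (le_of_eq ?_)
    norm_num
  rw [lintegral_add_left hmc, lintegral_const, measure_univ, mul_one] at h1
  have h2 : ∫⁻ b, ENNReal.ofReal (Real.exp (G.ip u (b 1)) + Real.exp (G.ip (-u) (b 1)) - 2) ∂μ
      = 0 := by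
    have h3 : ∫⁻ b, ENNReal.ofReal (Real.exp (G.ip u (b 1)) +
        Real.exp (G.ip (-u) (b 1)) - 2) ∂μ + 2 ≤ 0 + 2 := by rwa [zero_add]
    exact le_antisymm ((ENNReal.add_le_add_iff_right (by norm_num)).1 h3) zero_le
  rw [lintegral_eq_zero_iff hmc] at h2
  filter_upwards [h2] with b hb
  have h4 : Real.exp (G.ip u (b 1)) + Real.exp (G.ip (-u) (b 1)) - 2 ≤ 0 :=
    ENNReal.ofReal_eq_zero.1 hb
  rw [hcosh b] at h4
  by_contra hne
  have := Real.one_lt_cosh.2 hne
  linarith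

theorem pf_end : S_end := by
  intro μ hμ
  have h0 : ∀ᵐ b ∂μ, b 0 = 0 := by
    have hs : MeasurableSet {v : Fin (0 + 1) → ℂ | v 0 = 0} :=
      measurableSet_eq_fun (measurable_pi_apply 0) measurable_const
    have h1 : ∀ᵐ v ∂(μ.map (grid 0)), v 0 = 0 := by
      rw [hμ.marg 0, ae_map_iff (pf_end_gmm 0).aemeasurable hs]
      refine Eventually.of_forall fun x => ?_
      exact G.gm_zero' x
    rw [ae_map_iff (pf_end_grid 0).aemeasurable hs] at h1
    filter_upwards [h1] with b hb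
    have e : gpt 0 0 = 0 := by
      apply Subtype.ext
      simp [gpt]
    have h2 : b (gpt 0 0) = 0 := hb
    rwa [e] at h2
  filter_upwards [h0, pf_end_ip hμ 1, pf_end_ip hμ Complex.I] with b hb h1 h2
  refine ⟨hb, ?_⟩
  apply Complex.ext
  · simpa [G.ip] using h1
  · simpa [G.ip] using h2

end Pool.Agent.H212AN
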