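import Pool.Agent.H212AN.D0

set_option autoImplicit false

namespace Pool.Agent.H212AN

open MeasureTheory Set Filter Topology Metric
open scoped Real ENNReal

theorem pf_er_sq (u : ℂ) : ‖u‖ ^ 2 = u.re ^ 2 + u.im ^ 2 := by
  rw [Complex.sq_norm, Complex.normSq_apply]; ring

theorem pf_er_sq2 (θ : ℝ) (u : ℂ) : ‖u‖ ^ 2 = yy θ u ^ 2 + xx θ u ^ 2 := by
  rw [pf_er_sq]
  unfold yy xx
  have := Real.sin_sq_add_cos_sq θ
  linear_combination (-(u.re ^ 2 + u.im ^ 2)) * this

theorem pf_er_yle (θ : ℝ) (u : ℂ) : yy θ u ≤ ‖u‖ := by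
  have h := pf_er_sq2 θ u
  have h0 := norm_nonneg u
  by_contra hc
  push Not at hc
  nlinarith [sq_nonneg (xx θ u)]

theorem pf_er_yadd (θ : ℝ) (u v : ℂ) : yy θ (u + v) = yy θ u + yy θ v := by
  unfold yy; simp only [Complex.add_re, Complex.add_im]; ring

theorem pf_er_xadd (θ : ℝ) (u v : ℂ) : xx θ (u + v) = xx θ u + xx θ v := by
  unfold xx; simp only [Complex.add_re, Complex.add_im]; ring

theorem pf_er_ysmul (θ : ℝ) (c : ℝ) (u : ℂ) : yy θ ((c : ℂ) * u) = c * yy θ u := by
  unfold yy; simp; ring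

/-- the inner product -/
noncomputable def pf_er_ip (u v : ℂ) : ℝ := u.re * v.re + u.im * v.im

theorem pf_er_ip_le (u v : ℂ) (R : ℝ) (hu : ‖u‖ ≤ R) (hv : ‖v‖ ≤ R) : pf_er_ip u v ≤ R ^ 2 := by
  have h1 := pf_er_sq u
  have h2 := pf_er_sq v
  have h3 := norm_nonneg u
  have h4 := norm_nonneg v
  have h5 : ‖u‖ ^ 2 ≤ R ^ 2 := by nlinarith
  have h6 : ‖v‖ ^ 2 ≤ R ^ 2 := by nlinarith
  unfold pf_er_ip
  nlinarith [sq_nonneg (u.re - v.re), sq_nonneg (u.im - v.im)]

theorem pf_er_ip_self (u : ℂ) : pf_er_ip u u = ‖u‖ ^ 2 := by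
  rw [pf_er_sq]; unfold pf_er_ip; ring

theorem pf_er_expand (u v : ℂ) (e : ℝ) :
    ‖u + (e : ℂ) * v‖ ^ 2 = ‖u‖ ^ 2 + e * (2 * pf_er_ip v u + e * ‖v‖ ^ 2) := by
  rw [pf_er_sq, pf_er_sq, pf_er_sq]
  unfold pf_er_ip
  simp
  ring

theorem pf_er_ipxy (θ : ℝ) (u v : ℂ) : pf_er_ip u v = yy θ u * yy θ v + xx θ u * xx θ v := by
  unfold pf_er_ip yy xx
  have := Real.sin_sq_add_cos_sq θ
  linear_combination (-(u.re * v.re + u.im * v.im)) * this

theorem pf_er_cont (θ : ℝ) : Continuous (yy θ) ∧ Continuous (xx θ) := by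
  unfold yy xx
  constructor <;> fun_prop

theorem pf_er_cont2 (k : ℂ) : Continuous (fun θ => yy θ k) ∧ Continuous (fun θ => xx θ k) := by
  unfold yy xx
  constructor <;> fun_prop

theorem pf_er_side (K : Set ℂ) (ρ R : ℝ) (hK : Good K ρ) (hρ : 0 < ρ) (hR : 4 * ρ < R) (θ : ℝ)
    (z : ℂ) (hz : z ∈ er K R) (hmax : ∀ z' ∈ er K R, yy θ z' ≤ yy θ z)
    (hw : ∀ k ∈ K, ‖z + k‖ = R → xx θ (z + k) ≠ 0) (s : ℝ) (hs : s = 1 ∨ s = -1) :
    ∃ k ∈ K, ‖z + k‖ = R ∧ 0 < s * xx θ (z + k) := by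
  by_contra hcon
  push Not at hcon
  have hR0 : 0 < R := by linarith
  have hs2 : s * s = 1 := by rcases hs with h | h <;> rw [h] <;> norm_num
  have hcy := (pf_er_cont θ).1
  have hcx := (pf_er_cont θ).2
  -- the contact set
  have hAc : IsCompact {k | k ∈ K ∧ ‖z + k‖ = R} := by
    apply hK.1.inter_right (t := {k | ‖z + k‖ = R})
    exact isClosed_eq (by fun_prop) continuous_const
  have hc : ∃ c > 0, ∀ k ∈ K, ‖z + k‖ = R → s * xx θ (z + k) ≤ -c := by
    by_cases hne : {k | k ∈ K ∧ ‖z + k‖ = R}.Nonempty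
    · have hf : ContinuousOn (fun k => s * xx θ (z + k)) {k | k ∈ K ∧ ‖z + k‖ = R} := by
        apply Continuous.continuousOn
        exact continuous_const.mul (hcx.comp (by fun_prop))
      obtain ⟨k0, hk0, hk1⟩ := hAc.exists_isMaxOn hne hf
      refine ⟨-(s * xx θ (z + k0)), ?_, ?_⟩
      · have h1 := hcon k0 hk0.1 hk0.2
        have h2 := hw k0 hk0.1 hk0.2
        have h3 : s * xx θ (z + k0) ≠ 0 := by
          intro h4
          apply h2
          have : s * (s * xx θ (z + k0)) = 0 := by rw [h4]; ring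
          rw [← mul_assoc, hs2, one_mul] at this
          exact this
        have h4 := lt_of_le_of_ne h1 h3
        linarith
      · intro k hk hk'
        have := hk1 (show k ∈ {k | k ∈ K ∧ ‖z + k‖ = R} from ⟨hk, hk'⟩)
        simp only [mem_ofPred_eq] at this
        linarith
    · refine ⟨1, one_pos, ?_⟩
      intro k hk hk'
      exact absurd ⟨k, hk, hk'⟩ hne
  obtain ⟨c, hc0, hc1⟩ := hc
  set η : ℝ := c / (2 * R) with hη
  have hη0 : 0 < η := by positivity
  have hηR : η * R = c / 2 := by rw [hη]; field_simp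
  set v : ℂ := ⟨η * Real.cos θ - s * Real.sin θ, η * Real.sin θ + s * Real.cos θ⟩ with hv
  have hsc := Real.sin_sq_add_cos_sq θ
  have hyv : yy θ v = η := by
    unfold yy; rw [hv]; simp only; linear_combination η * hsc
  have hxv : xx θ v = s := by
    unfold xx; rw [hv]; simp only; linear_combination s * hsc
  have hipA : ∀ k ∈ K, ‖z + k‖ = R → pf_er_ip v (z + k) < 0 := by
    intro k hk hk'
    rw [pf_er_ipxy θ, hyv, hxv]
    have h1 := hc1 k hk hk'
    have h2 := pf_er_yle θ (z + k)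
    rw [hk'] at h2
    nlinarith
  have hev : ∀ᶠ e : ℝ in 𝓝 0, ∀ k ∈ K, 0 < e → k ∈ K → ‖z + k + (e : ℂ) * v‖ ≤ R := by
    apply hK.1.eventually_forall_of_forall_eventually
    intro k hk
    have hle : ‖z + k‖ ≤ R := hz k hk
    rcases lt_or_eq_of_le hle with hlt | heq
    · have hcont : Continuous (fun p : ℝ × ℂ => ‖z + p.2 + (p.1 : ℂ) * v‖) := by fun_prop
      have h0 : (fun p : ℝ × ℂ => ‖z + p.2 + (p.1 : ℂ) * v‖) (0, k) < R := by
        simpa using hlt
      filter_upwards [hcont.continuousAt.eventually_lt_const h0] with p hp _ _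
      exact le_of_lt hp
    · have hcont : Continuous (fun p : ℝ × ℂ => 2 * pf_er_ip v (z + p.2) + p.1 * ‖v‖ ^ 2) := by
        unfold pf_er_ip
        fun_prop
      have h0 : (fun p : ℝ × ℂ => 2 * pf_er_ip v (z + p.2) + p.1 * ‖v‖ ^ 2) (0, k) < 0 := by
        have := hipA k hk heq
        simp only [zero_mul, add_zero]
        linarith
      filter_upwards [hcont.continuousAt.eventually_lt_const h0] with p hp hp1 hp2
      have h1 := pf_er_expand (z + p.2) v p.1
      have h2 : ‖z + p.2‖ ≤ R := hz p.2 hp2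
      have h3 := norm_nonneg (z + p.2)
      have h4 : ‖z + p.2‖ ^ 2 ≤ R ^ 2 := by nlinarith
      have h5 : p.1 * (2 * pf_er_ip v (z + p.2) + p.1 * ‖v‖ ^ 2) ≤ 0 :=
        mul_nonpos_of_nonneg_of_nonpos hp1.le (le_of_lt hp)
      exact (sq_le_sq₀ (norm_nonneg _) hR0.le).1 (by rw [h1]; linarith)
  rw [Metric.eventually_nhds_iff] at hev
  obtain ⟨d, hd0, hd⟩ := hev
  have hmem : z + ((d / 2 : ℝ) : ℂ) * v ∈ er K R := by
    intro k hk
    have h := hd (y := d / 2) (by rw [Real.dist_eq, sub_zero, abs_of_pos (by linarith)]; linarith)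
      k hk (by linarith) hk
    have he : z + ((d / 2 : ℝ) : ℂ) * v + k = z + k + ((d / 2 : ℝ) : ℂ) * v := by ring
    rw [he]
    exact h
  have h1 := hmax _ hmem
  rw [pf_er_yadd, pf_er_ysmul, hyv] at h1
  have : 0 < d / 2 * η := by positivity
  linarith

/- PLAIN PROOF.
er K R is an intersection of closed discs: closed, convex, bounded since 0 ∈ K, contains ball 0 (R-ρ). ww >= 0: for z in er, k in K,
yy θ z + yy θ k <= ‖z+k‖ <= R, take sups. ww <= ρ: hs K >= 0 and hs (er) >= R - ρ. 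
Local structure: let ww θ > 0, let z in er maximize yy θ over er (compact). A = {k in K | ‖z+k‖ = R}. If e^{iθ} were not in the convex
cone generated by {z+k : k in A} (A empty: cone {0}) there would be a direction v with ⟨v,e^{iθ}⟩ > 0 and ⟨v,z+k⟩ < 0 for all k in A,
and z + εv would be in er for small ε > 0 (compactness of K), contradicting maximality. (Separation of a point and a compactly
generated cone: no element z+k, k in A, and no two of them...; you may also argue with angles in the plane: the directions of the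
z+k, k in A, form a compact set of angles.) No z+k, k in A, is a positive multiple of e^{iθ}: otherwise z+k = R e^{iθ},
yy θ z + yy θ k = R and ww θ <= 0. So e^{iθ} = a (z+k1) + b (z+k2) with a, b > 0, k1, k2 in A and z+k1, z+k2 linearly
independent, and for θ' near θ still e^{iθ'} = a' (z+k1) + b' (z+k2) with a', b' >= 0. For z' in er: ⟨z'+k_j, z+k_j⟩ <= R² =
⟨z+k_j, z+k_j⟩, so ⟨z',z+k_j⟩ <= ⟨z,z+k_j⟩, so yy θ' z' <= yy θ' z: hs (er) θ' = yy θ' z.
Existence of a zero: if ww > 0 everywhere, hs (er) is locally of the form yy · z; two such functions agreeing on an open interval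
have the same z, so by connectedness hs (er) = yy · z for one z, but hs (er) θ + hs (er) (θ+π) >= 2 (R-ρ) > 0 = yy θ z + yy (θ+π) z.
-/
theorem pf_er (h1 : S_hs) : S_er := by
  intro K ρ R hK hρ hR
  have hR0 : 0 < R := by linarith
  have hsub : er K R ⊆ closedBall 0 R := by
    intro z hz
    have := hz 0 hK.2.1
    rw [add_zero] at this
    rwa [mem_closedBall, dist_zero_right]
  have hclosed : IsClosed (er K R) := by
    have : er K R = ⋂ k ∈ K, {z | ‖z + k‖ ≤ R} := by
      ext z; simp [er]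
    rw [this]
    apply isClosed_biInter
    intro k _
    exact isClosed_le (by fun_prop) continuous_const
  have hcomp : IsCompact (er K R) :=
    (isCompact_closedBall (0:ℂ) R).of_isClosed_subset hclosed hsub
  have hconv : Convex ℝ (er K R) := by
    have : er K R = ⋂ k ∈ K, (fun z => z + k) ⁻¹' closedBall 0 R := by
      ext z; simp [er, dist_eq_norm]
    rw [this]
    apply convex_iInter₂
    intro k _
    exact (convex_closedBall (0:ℂ) R).translate_preimage_left k
  have hball' : ∀ z : ℂ, ‖z‖ ≤ R - ρ → z ∈ er K R := by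
    intro z hz k hk
    have h2 := hK.2.2 hk
    rw [mem_closedBall, dist_zero_right] at h2
    have := norm_add_le z k
    linarith
  have hball : ball 0 (R - ρ) ⊆ er K R := by
    intro z hz
    rw [mem_ball, dist_zero_right] at hz
    exact hball' z hz.le
  have hne : (er K R).Nonempty := ⟨0, hball' 0 (by rw [norm_zero]; linarith)⟩
  have HK := h1 K ρ hK.1 ⟨0, hK.2.1⟩ hK.2.2
  have HE := h1 (er K R) R hcomp hne hsub
  have hww0 : ∀ θ, 0 ≤ ww K R θ := by
    intro θ
    obtain ⟨k, hk⟩ := HK.1 θ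
    obtain ⟨z, hz⟩ := HE.1 θ
    have h2 := hz.1 k hk.1
    have h3 := pf_er_yle θ (z + k)
    rw [pf_er_yadd, hk.2, hz.2] at h3
    unfold ww
    linarith
  have hunit : ∀ (θ c : ℝ), 0 ≤ c → ‖(⟨c * Real.cos θ, c * Real.sin θ⟩ : ℂ)‖ = c ∧
      yy θ (⟨c * Real.cos θ, c * Real.sin θ⟩ : ℂ) = c := by
    intro θ c hc
    have hsc := Real.sin_sq_add_cos_sq θ
    constructor
    · have h2 := pf_er_sq (⟨c * Real.cos θ, c * Real.sin θ⟩ : ℂ)
      simp only at h2
      have h3 : ‖(⟨c * Real.cos θ, c * Real.sin θ⟩ : ℂ)‖ ^ 2 = c ^ 2 := by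
        rw [h2]; linear_combination c ^ 2 * hsc
      exact (sq_eq_sq₀ (norm_nonneg _) hc).1 h3
    · unfold yy
      simp only
      linear_combination c * hsc
  have hwwρ : ∀ θ, ww K R θ ≤ ρ := by
    intro θ
    have h2 : 0 ≤ hs K θ := HK.2.2.2.2.2.2.2.2.2.2.2.2 hK.2.1 θ
    obtain ⟨h3, h4⟩ := hunit θ (R - ρ) (by linarith)
    have h5 := HE.2.1 θ _ (hball' _ h3.le)
    rw [h4] at h5
    unfold ww
    linarith
  refine ⟨hcomp, hconv, hball, fun θ => ⟨hww0 θ, hwwρ θ⟩, ?_, ?_⟩
  · intro θ hpos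
    obtain ⟨z, hzer, hzy⟩ := HE.1 θ
    have hmax : ∀ z' ∈ er K R, yy θ z' ≤ yy θ z := by
      intro z' hz'
      rw [hzy]
      exact HE.2.1 θ z' hz'
    have hyz : R - ρ ≤ yy θ z := by
      obtain ⟨h3, h4⟩ := hunit θ (R - ρ) (by linarith)
      have h5 := hmax _ (hball' _ h3.le)
      rw [h4] at h5
      exact h5
    have hyk : ∀ k ∈ K, 0 < yy θ (z + k) := by
      intro k hk
      have h2 := hK.2.2 hk
      rw [mem_closedBall, dist_zero_right] at h2
      have h3 := pf_er_yle θ (-k)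
      rw [norm_neg] at h3
      have h4 : yy θ (-k) = - yy θ k := by unfold yy; simp; ring
      rw [pf_er_yadd]
      linarith
    have hw : ∀ k ∈ K, ‖z + k‖ = R → xx θ (z + k) ≠ 0 := by
      intro k hk hk' h0
      have h2 := pf_er_sq2 θ (z + k)
      rw [hk', h0] at h2
      have h3 := hyk k hk
      have h4 : yy θ (z + k) = R := by
        have : yy θ (z + k) ^ 2 = R ^ 2 := by rw [h2]; ring
        exact (sq_eq_sq₀ h3.le hR0.le).1 this
      rw [pf_er_yadd] at h4
      have h5 := HK.2.1 θ k hk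
      unfold ww at hpos
      linarith
    obtain ⟨k1, hk1, hn1, hx1⟩ := pf_er_side K ρ R hK hρ hR θ z hzer hmax hw 1 (Or.inl rfl)
    obtain ⟨k2, hk2, hn2, hx2⟩ := pf_er_side K ρ R hK hρ hR θ z hzer hmax hw (-1) (Or.inr rfl)
    rw [one_mul] at hx1
    have hx2' : xx θ (z + k2) < 0 := by linarith
    -- neighbourhoods
    have e1 : ∀ᶠ θ' in 𝓝 θ, 0 < xx θ' (z + k1) :=
      (pf_er_cont2 (z + k1)).2.continuousAt.eventually_const_lt hx1
    have e2 : ∀ᶠ θ' in 𝓝 θ, xx θ' (z + k2) < 0 :=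
      (pf_er_cont2 (z + k2)).2.continuousAt.eventually_lt_const hx2'
    obtain ⟨δ, hδ, hd⟩ := Metric.eventually_nhds_iff.1 (e1.and e2)
    refine ⟨δ, hδ, z, hzer, ?_⟩
    intro θ' hθ'
    obtain ⟨g1, g2⟩ := hd (y := θ') (by rw [Real.dist_eq]; exact hθ')
    -- the determinant
    have hD : 0 < (z + k2).re * (z + k1).im - (z + k2).im * (z + k1).re := by
      have hsc := Real.sin_sq_add_cos_sq θ
      have h2 := hyk k1 hk1
      have h3 := hyk k2 hk2
      have h4 : (z + k2).re * (z + k1).im - (z + k2).im * (z + k1).re =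
          yy θ (z + k2) * xx θ (z + k1) - xx θ (z + k2) * yy θ (z + k1) := by
        unfold yy xx
        linear_combination (-((z + k2).re * (z + k1).im - (z + k2).im * (z + k1).re)) * hsc
      rw [h4]
      nlinarith [mul_pos h3 hx1, mul_pos (neg_pos.2 hx2') h2]
    have hup : ∀ z' ∈ er K R, yy θ' z' ≤ yy θ' z := by
      intro z' hz'
      have a1 : pf_er_ip (z' + k1) (z + k1) ≤ R ^ 2 := pf_er_ip_le _ _ R (hz' k1 hk1) hn1.le
      have a2 : pf_er_ip (z' + k2) (z + k2) ≤ R ^ 2 := pf_er_ip_le _ _ R (hz' k2 hk2) hn2.le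
      have b1 := pf_er_ip_self (z + k1)
      have b2 := pf_er_ip_self (z + k2)
      rw [hn1] at b1
      rw [hn2] at b2
      have c1 : pf_er_ip (z' + k1) (z + k1) - pf_er_ip (z + k1) (z + k1) =
          pf_er_ip (z' - z) (z + k1) := by
        unfold pf_er_ip; simp; ring
      have c2 : pf_er_ip (z' + k2) (z + k2) - pf_er_ip (z + k2) (z + k2) =
          pf_er_ip (z' - z) (z + k2) := by
        unfold pf_er_ip; simp; ring
      have key : ((z + k2).re * (z + k1).im - (z + k2).im * (z + k1).re) * (yy θ' z' - yy θ' z) =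
          (- xx θ' (z + k2)) * pf_er_ip (z' - z) (z + k1) +
            xx θ' (z + k1) * pf_er_ip (z' - z) (z + k2) := by
        unfold yy xx pf_er_ip
        simp only [Complex.add_re, Complex.add_im, Complex.sub_re, Complex.sub_im]
        ring
      have d1 : (- xx θ' (z + k2)) * pf_er_ip (z' - z) (z + k1) ≤ 0 :=
        mul_nonpos_of_nonneg_of_nonpos (by linarith) (by linarith)
      have d2 : xx θ' (z + k1) * pf_er_ip (z' - z) (z + k2) ≤ 0 :=
        mul_nonpos_of_nonneg_of_nonpos (by linarith) (by linarith)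
      by_contra hc
      push Not at hc
      have : 0 < ((z + k2).re * (z + k1).im - (z + k2).im * (z + k1).re) *
          (yy θ' z' - yy θ' z) := mul_pos hD (by linarith)
      linarith
    apply le_antisymm
    · obtain ⟨z', hz'⟩ := HE.1 θ'
      rw [← hz'.2]
      exact hup z' hz'.1
    · exact HE.2.1 θ' z hzer
  · obtain ⟨k0, hk0, hk0m⟩ := hK.1.exists_isMaxOn ⟨0, hK.2.1⟩
      (f := fun k : ℂ => ‖k‖) (by fun_prop)
    have hr : ‖k0‖ ≤ ρ := by
      have := hK.2.2 hk0
      rwa [mem_closedBall, dist_zero_right] at this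
    refine ⟨Complex.arg k0, ?_⟩
    obtain ⟨h3, h4⟩ := hunit (Complex.arg k0) (R - ‖k0‖) (by linarith)
    have hin : (⟨(R - ‖k0‖) * Real.cos (Complex.arg k0), (R - ‖k0‖) * Real.sin (Complex.arg k0)⟩ : ℂ)
        ∈ er K R := by
      intro k hk
      have h5 := norm_add_le
        (⟨(R - ‖k0‖) * Real.cos (Complex.arg k0), (R - ‖k0‖) * Real.sin (Complex.arg k0)⟩ : ℂ) k
      have h6 : ‖k‖ ≤ ‖k0‖ := hk0m hk
      rw [h3] at h5
      linarith
    have h7 := HE.2.1 (Complex.arg k0) _ hin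
    rw [h4] at h7
    have h8 := HK.2.1 (Complex.arg k0) k0 hk0
    have h9 : yy (Complex.arg k0) k0 = ‖k0‖ := by
      have hsc := Real.sin_sq_add_cos_sq (Complex.arg k0)
      have hre : k0.re = ‖k0‖ * Real.cos (Complex.arg k0) := (Complex.norm_mul_cos_arg k0).symm
      have him : k0.im = ‖k0‖ * Real.sin (Complex.arg k0) := (Complex.norm_mul_sin_arg k0).symm
      unfold yy
      rw [hre, him]
      linear_combination ‖k0‖ * hsc
    have h10 := hww0 (Complex.arg k0)
    unfold ww at h10 ⊢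
    linarith

end Pool.Agent.H212AN
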