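import Pool.Agent.H212AN.D3

set_option autoImplicit false

namespace Pool.Agent.H212AN

open MeasureTheory Set Filter Topology Metric
open Pool.Agent.W594.AN (ClosedCurve)
open Pool.Agent.H212AN.G (nG PG gm gk)
open scoped Real ENNReal ComplexConjugate

/-- the sets of the exhaustion -/
def pf_ex_Q (Q : Set ℂ) (n : ℕ) : Set ℂ := {z | (1 : ℝ≥0∞) / (n + 1) < infEDist z Qᶜ}

theorem pf_ex_open (Q : Set ℂ) (n : ℕ) : IsOpen (pf_ex_Q Q n) :=
  isOpen_lt continuous_const continuous_infEDist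

theorem pf_ex_mono (Q : Set ℂ) : Monotone (pf_ex_Q Q) := by
  intro m n hmn z hz
  have hz' : (1 : ℝ≥0∞) / (m + 1) < infEDist z Qᶜ := hz
  show (1 : ℝ≥0∞) / (n + 1) < infEDist z Qᶜ
  refine lt_of_le_of_lt ?_ hz'
  refine ENNReal.div_le_div_left ?_ 1
  have : (m : ℝ≥0∞) ≤ n := by exact_mod_cast hmn
  exact add_le_add this le_rfl

theorem pf_ex_sub (Q : Set ℂ) (n : ℕ) : pf_ex_Q Q n ⊆ Q := by
  intro z hz
  by_contra h
  have h1 : infEDist z Qᶜ = 0 := infEDist_zero_of_mem h
  have h2 : (1 : ℝ≥0∞) / (n + 1) < infEDist z Qᶜ := hz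
  rw [h1] at h2
  exact absurd h2 not_lt_zero

/-- the section -/
def pf_ex_A (t : ℝ) (Q : Set ℂ) (b : Lo) : Set ℂ := {z | ∀ s : unitInterval, z + (√t : ℂ) * b s ∈ Q}

theorem pf_ex_meas (t : ℝ) (Q : Set ℂ) (hQ : IsOpen Q) :
    Measurable (fun b : Lo => volume (pf_ex_A t Q b)) := by
  have h1 : IsOpen {p : Lo × ℂ | ∀ s : unitInterval, p.2 + (√t : ℂ) * p.1 s ∈ Q} := by
    have h2 : IsClosed {q : (Lo × ℂ) × unitInterval | q.1.2 + (√t : ℂ) * q.1.1 q.2 ∈ Qᶜ} := by
      refine hQ.isClosed_compl.preimage ?_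
      have h3 : Continuous (fun q : (Lo × ℂ) × unitInterval => q.1.1 q.2) :=
        continuous_eval.comp ((continuous_fst.comp continuous_fst).prodMk continuous_snd)
      exact (continuous_snd.comp continuous_fst).add (continuous_const.mul h3)
    have h4 := isClosedMap_fst_of_compactSpace _ h2
    have h5 : {p : Lo × ℂ | ∀ s : unitInterval, p.2 + (√t : ℂ) * p.1 s ∈ Q} =
        (Prod.fst '' {q : (Lo × ℂ) × unitInterval | q.1.2 + (√t : ℂ) * q.1.1 q.2 ∈ Qᶜ})ᶜ := by
      ext p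
      constructor
      · rintro h ⟨⟨p', s⟩, h6, rfl⟩
        exact h6 (h s)
      · intro h s
        by_contra h6
        exact h ⟨(p, s), h6, rfl⟩
    rw [h5]
    exact h4.isOpen_compl
  exact measurable_measure_prodMk_left (ν := (volume : Measure ℂ)) h1.measurableSet

theorem pf_ex : S_ex := by
  intro μ hμ Q hQ _ t ht
  have h1 : ∀ b : Lo, volume (pf_ex_A t Q b) = ⨆ n, volume (pf_ex_A t (pf_ex_Q Q n) b) := by
    intro b
    have hm : Monotone (fun n => pf_ex_A t (pf_ex_Q Q n) b) := fun m n hmn z hz s =>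
      pf_ex_mono Q hmn (hz s)
    rw [← hm.measure_iUnion]
    congr 1
    ext z
    rw [mem_iUnion]
    constructor
    · intro hz
      have hc : Continuous (fun s : unitInterval => infEDist (z + (√t : ℂ) * b s) Qᶜ) :=
        continuous_infEDist.comp (continuous_const.add (continuous_const.mul b.continuous))
      obtain ⟨s, -, hs⟩ := isCompact_univ.exists_isMinOn (univ_nonempty (α := unitInterval))
        hc.continuousOn
      have hpos : infEDist (z + (√t : ℂ) * b s) Qᶜ ≠ 0 := by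
        intro h0
        have := mem_closure_iff_infEDist_zero.2 h0
        rw [hQ.isClosed_compl.closure_eq] at this
        exact this (hz s)
      obtain ⟨n, hn⟩ := ENNReal.exists_inv_nat_lt hpos
      refine ⟨n, fun s' => ?_⟩
      show (1 : ℝ≥0∞) / (n + 1) < infEDist (z + (√t : ℂ) * b s') Qᶜ
      refine lt_of_le_of_lt ?_ (lt_of_lt_of_le hn (hs (mem_univ s')))
      rw [one_div]
      exact ENNReal.inv_le_inv.2 le_self_add
    · rintro ⟨n, hn⟩ s
      exact pf_ex_sub Q n (hn s)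
  unfold EV
  show ∫⁻ b, volume (pf_ex_A t Q b) ∂μ = ⨆ n : ℕ, ∫⁻ b, volume (pf_ex_A t (pf_ex_Q Q n) b) ∂μ
  rw [← lintegral_iSup (fun n => pf_ex_meas t _ (pf_ex_open Q n))
    (fun m n hmn b => measure_mono (fun z hz s => pf_ex_mono Q hmn (hz s)))]
  exact lintegral_congr fun b => h1 b

end Pool.Agent.H212AN
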