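import Pool.Agent.H212AN.D4

set_option autoImplicit false

namespace Pool.Agent.H212AN

open MeasureTheory Set Filter Topology Metric
open Pool.Agent.H212AN.G (nG PG gm gk)
open scoped Real ENNReal ComplexConjugate

theorem pf_fold_mp (e : Bool) : MeasurePreserving (fl2 e) (volume : Measure ℂ) volume := by
  cases e with
  | true =>
    have : fl2 true = id := by
      funext x
      simp [fl2]
    rw [this]
    exact MeasurePreserving.id _
  | false =>
    have : fl2 false = Complex.conjLIE := by
      funext x
      simp [fl2]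
    rw [this]
    exact Complex.conjLIE.measurePreserving

theorem pf_fold_null : (volume : Measure ℂ) {z : ℂ | z.im = 0} = 0 := by
  have h := Measure.addHaar_submodule (volume : Measure ℂ) (LinearMap.ker Complex.imLm) (by
    intro h
    have h1 : Complex.I ∈ LinearMap.ker Complex.imLm := by rw [h]; trivial
    rw [LinearMap.mem_ker] at h1
    simp at h1)
  have e : {z : ℂ | z.im = 0} = (LinearMap.ker Complex.imLm : Set ℂ) := by
    ext z
    simp [LinearMap.mem_ker]
  rw [e]
  exact h

theorem pf_fold : S_fold := by
  intro M F hF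
  classical
  let H : Set (Fin M → ℂ) := {x | ∀ i, 0 < (x i).im}
  let P : (Fin M → Bool) → Set (Fin M → ℂ) := fun ε =>
    {x | ∀ i, if ε i then 0 < (x i).im else (x i).im < 0}
  have hPm : ∀ ε, MeasurableSet (P ε) := by
    intro ε
    have : P ε = ⋂ i, {x : Fin M → ℂ | if ε i then 0 < (x i).im else (x i).im < 0} := by
      ext x
      simp [P]
    rw [this]
    refine MeasurableSet.iInter (fun i => ?_)
    have hm : Measurable (fun x : Fin M → ℂ => (x i).im) :=
      Complex.measurable_im.comp (measurable_pi_apply i)
    cases ε i with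
    | true => simpa using measurableSet_lt measurable_const hm
    | false => simpa using measurableSet_lt hm measurable_const
  have hT : ∀ ε : Fin M → Bool, MeasurePreserving
      (fun (x : Fin M → ℂ) (i : Fin M) => fl2 (ε i) (x i)) volume volume := fun ε =>
    volume_preserving_pi (fun i => pf_fold_mp (ε i))
  have hpre : ∀ ε : Fin M → Bool,
      (fun (x : Fin M → ℂ) (i : Fin M) => fl2 (ε i) (x i)) ⁻¹' (P ε) = H := by
    intro ε
    ext x
    simp only [P, H, mem_preimage, mem_ofPred_eq]
    refine forall_congr' (fun i => ?_)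
    cases ε i with
    | true => simp [fl2]
    | false => simp [fl2]
  have h1 : ∀ ε : Fin M → Bool,
      ∫⁻ x in H, F (fun i => fl2 (ε i) (x i)) = ∫⁻ x in P ε, F x := by
    intro ε
    rw [← (hT ε).setLIntegral_comp_preimage (hPm ε) hF, hpre ε]
  have h2 : ∫⁻ x in H, ∑ ε : Fin M → Bool, F (fun i => fl2 (ε i) (x i)) =
      ∑ ε : Fin M → Bool, ∫⁻ x in P ε, F x := by
    have hm : ∀ ε ∈ (Finset.univ : Finset (Fin M → Bool)),
        Measurable (fun x : Fin M → ℂ => F (fun i => fl2 (ε i) (x i))) :=
      fun ε _ => hF.comp (hT ε).measurable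
    rw [lintegral_finsetSum _ hm]
    exact Finset.sum_congr rfl (fun ε _ => h1 ε)
  have h3 : ∑ ε : Fin M → Bool, ∫⁻ x in P ε, F x =
      ∫⁻ x, ∑ ε : Fin M → Bool, (P ε).indicator F x := by
    rw [lintegral_finsetSum _ (fun ε _ => hF.indicator (hPm ε))]
    exact Finset.sum_congr rfl (fun ε _ => (lintegral_indicator (hPm ε) F).symm)
  have h4 : ∀ᵐ x : Fin M → ℂ, ∀ i, (x i).im ≠ 0 := by
    rw [ae_all_iff]
    intro i
    have := Measure.pi_eval_preimage_null (fun _ : Fin M => (volume : Measure ℂ)) (i := i)
      pf_fold_null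
    rw [ae_iff]
    simp only [not_not]
    exact this
  show ∫⁻ x, F x = ∫⁻ x in H, ∑ ε : Fin M → Bool, F (fun i => fl2 (ε i) (x i))
  rw [h2, h3]
  refine lintegral_congr_ae ?_
  filter_upwards [h4] with x hx
  rw [Finset.sum_eq_single (fun i => decide (0 < (x i).im))]
  · rw [indicator_of_mem]
    simp only [P, mem_ofPred_eq]
    intro i
    by_cases h : 0 < (x i).im
    · simp [h]
    · simp only [h, decide_false, Bool.false_eq_true, if_false]
      exact lt_of_le_of_ne (not_lt.1 h) (hx i)
  · intro ε _ hne
    rw [indicator_of_notMem]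
    intro hmem
    apply hne
    funext i
    have := hmem i
    by_cases h : ε i = true
    · rw [h] at this
      simp only [if_true] at this
      rw [h]
      simp [this]
    · simp only [h, if_false, Bool.false_eq_true] at this
      rw [Bool.not_eq_true] at h
      rw [h]
      simp [this.le]
  · intro h
    exact absurd (Finset.mem_univ _) h

end Pool.Agent.H212AN
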