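import Pool.Agent.H212AN.D0

set_option autoImplicit false

namespace Pool.Agent.H212AN

open MeasureTheory Set Filter Topology Metric
open scoped Real ENNReal

theorem pf_gap_yy_deriv (z : ℂ) (θ : ℝ) : HasDerivAt (fun t => yy t z) (xx θ z) θ := by
  have h := ((Real.hasDerivAt_cos θ).const_mul z.re).add ((Real.hasDerivAt_sin θ).const_mul z.im)
  have e : z.re * -Real.sin θ + z.im * Real.cos θ = xx θ z := by unfold xx; ring
  rw [e] at h
  exact h

theorem pf_gap_xx_deriv (z : ℂ) (θ : ℝ) : HasDerivAt (fun t => -xx t z) (yy θ z) θ := by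
  have h := (((Real.hasDerivAt_cos θ).const_mul z.im).sub
    ((Real.hasDerivAt_sin θ).const_mul z.re)).neg
  have e : -(z.im * -Real.sin θ - z.re * Real.cos θ) = yy θ z := by unfold yy; ring
  rw [e] at h
  exact h

theorem pf_gap_inj (z z' : ℂ) (θ : ℝ) (h1 : yy θ z = yy θ z') (h2 : xx θ z = xx θ z') :
    z = z' := by
  unfold yy at h1
  unfold xx at h2
  have hs := Real.sin_sq_add_cos_sq θ
  apply Complex.ext
  · linear_combination Real.cos θ * h1 - Real.sin θ * h2 - (z.re - z'.re) * hs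
  · linear_combination Real.sin θ * h1 + Real.cos θ * h2 - (z.im - z'.im) * hs

theorem pf_gap_inj2 (z z' : ℂ) (θ : ℝ) (h : ∀ᶠ t in 𝓝 θ, yy t z = yy t z') : z = z' := by
  apply pf_gap_inj z z' θ h.self_of_nhds
  have h1 := pf_gap_yy_deriv z θ
  have h2 := (pf_gap_yy_deriv z' θ).congr_of_eventuallyEq h
  exact h1.unique h2

theorem pf_gap_const (a b : ℝ) (g : ℝ → ℝ)
    (hl : ∀ τ ∈ Ioo a b, ∃ δ > 0, ∃ z : ℂ, ∀ t, |t - τ| < δ → g t = yy t z) (θ : ℝ)
    (hθ : θ ∈ Ioo a b) : ∃ z : ℂ, ∀ t ∈ Ioo a b, g t = yy t z := by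
  choose! δ hδ z hz using hl
  have hev : ∀ τ ∈ Ioo a b, ∀ᶠ t in 𝓝 τ, z t = z τ := by
    intro τ hτ
    have e1 : ∀ᶠ t in 𝓝 τ, t ∈ Ioo a b := isOpen_Ioo.mem_nhds hτ
    have e2 : ∀ᶠ t in 𝓝 τ, |t - τ| < δ τ := by
      have := Metric.ball_mem_nhds τ (hδ τ hτ)
      filter_upwards [this] with t ht
      rwa [Metric.mem_ball, Real.dist_eq] at ht
    have e2' := e2.eventually_nhds
    filter_upwards [e1, e2'] with t ht1 ht2
    apply pf_gap_inj2 _ _ t
    have e3 : ∀ᶠ s in 𝓝 t, |s - t| < δ t := by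
      have := Metric.ball_mem_nhds t (hδ t ht1)
      filter_upwards [this] with s hs
      rwa [Metric.mem_ball, Real.dist_eq] at hs
    filter_upwards [e3, ht2] with s hs1 hs2
    rw [← hz t ht1 s hs1, ← hz τ hτ s hs2]
  have hd : ∀ τ ∈ Ioo a b, HasDerivAt z 0 τ := by
    intro τ hτ
    exact (hasDerivAt_const τ (z τ)).congr_of_eventuallyEq (hev τ hτ)
  refine ⟨z θ, fun t ht => ?_⟩
  have e : z t = z θ := by
    apply isOpen_Ioo.is_const_of_deriv_eq_zero isPreconnected_Ioo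
      (fun τ hτ => (hd τ hτ).differentiableAt.differentiableWithinAt)
      (fun τ hτ => (hd τ hτ).deriv) ht hθ
  rw [← e]
  apply hz t ht t
  simpa using hδ t ht

theorem pf_gap_pos (E : Set ℂ) (r θ : ℝ) (hr : 0 < r) (hE : ball 0 r ⊆ E)
    (hle : ∀ k ∈ E, yy θ k ≤ hs E θ) : 0 < hs E θ := by
  have hmem : (⟨r / 2 * Real.cos θ, r / 2 * Real.sin θ⟩ : ℂ) ∈ E := by
    apply hE
    rw [mem_ball_zero_iff]
    have hsq : ‖(⟨r / 2 * Real.cos θ, r / 2 * Real.sin θ⟩ : ℂ)‖ ^ 2 = (r / 2) ^ 2 := by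
      rw [← Complex.normSq_eq_norm_sq, Complex.normSq_apply]
      have hs := Real.sin_sq_add_cos_sq θ
      simp only
      linear_combination (r / 2) ^ 2 * hs
    have h0 := norm_nonneg (⟨r / 2 * Real.cos θ, r / 2 * Real.sin θ⟩ : ℂ)
    nlinarith
  have h1 := hle _ hmem
  have h2 : yy θ ⟨r / 2 * Real.cos θ, r / 2 * Real.sin θ⟩ = r / 2 := by
    unfold yy
    have hs := Real.sin_sq_add_cos_sq θ
    simp only
    linear_combination (r / 2) * hs
  rw [h2] at h1
  linarith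

theorem pf_gap (h1 : S_hs) (h2 : S_er) (h3 : S_sc) : S_gap := by
  intro K ρ R hK hρ hR θ hθ
  obtain ⟨-, -, hball, hw, hloc, θ₁, hθ₁⟩ := h2 K ρ R hK hρ hR
  have hEc := (h2 K ρ R hK hρ hR).1
  obtain ⟨-, -, hsc⟩ := h3 K ρ R hK hρ hR
  obtain ⟨hKc, hK0, hKb⟩ := hK
  have hEn : (er K R).Nonempty := ⟨0, hball (by simp; linarith)⟩
  have hEb : er K R ⊆ closedBall 0 R := by
    intro z hz
    rw [mem_closedBall_zero_iff]
    have := hz 0 hK0
    rwa [add_zero] at this
  obtain ⟨-, -, -, KL, Kp, -, Kr, Kl, -⟩ := h1 K ρ hKc ⟨0, hK0⟩ hKb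
  obtain ⟨-, Ele, -, EL, Ep, -⟩ := h1 (er K R) R hEc hEn hEb
  have Kc : Continuous (hs K) := KL.continuous
  have Ec : Continuous (hs (er K R)) := EL.continuous
  have wc : Continuous (ww K R) := (continuous_const.sub Kc).sub Ec
  have wp : Function.Periodic (ww K R) (2 * π) := by
    intro t
    unfold ww
    rw [Kp t, Ep t]
  have hpi := Real.pi_pos
  have h2pi : 0 < 2 * π := by positivity
  -- the end points
  have hZc : IsClosed {t | ww K R t = 0} := isClosed_eq wc continuous_const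
  obtain ⟨y1, hy1, ey1⟩ := wp.exists_mem_Ico h2pi θ₁ (θ - 2 * π)
  obtain ⟨y2, hy2, ey2⟩ := wp.exists_mem_Ico h2pi θ₁ θ
  have hA := (hZc.inter isClosed_Iic).csSup_mem (s := {t | ww K R t = 0} ∩ Iic θ)
    ⟨y1, by show ww K R y1 = 0; rw [← ey1, hθ₁], by
      have := hy1.2; show y1 ≤ θ; linarith⟩ ⟨θ, fun t ht => ht.2⟩
  have hB := (hZc.inter isClosed_Ici).csInf_mem (s := {t | ww K R t = 0} ∩ Ici θ)
    ⟨y2, by show ww K R y2 = 0; rw [← ey2, hθ₁], hy2.1⟩ ⟨θ, fun t ht => ht.2⟩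
  have hA2 : ∀ t, ww K R t = 0 → t ≤ θ → t ≤ sSup ({t | ww K R t = 0} ∩ Iic θ) :=
    fun t ht1 ht2 => le_csSup ⟨θ, fun t ht => ht.2⟩ ⟨ht1, ht2⟩
  have hB2 : ∀ t, ww K R t = 0 → θ ≤ t → sInf ({t | ww K R t = 0} ∩ Ici θ) ≤ t :=
    fun t ht1 ht2 => csInf_le ⟨θ, fun t ht => ht.2⟩ ⟨ht1, ht2⟩
  generalize sSup ({t | ww K R t = 0} ∩ Iic θ) = a at hA hA2
  generalize sInf ({t | ww K R t = 0} ∩ Ici θ) = b at hB hB2
  obtain ⟨ha0, ha1⟩ := hA
  obtain ⟨hb0, hb1⟩ := hB
  replace ha0 : ww K R a = 0 := ha0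
  replace hb0 : ww K R b = 0 := hb0
  replace ha1 : a ≤ θ := ha1
  replace hb1 : θ ≤ b := hb1
  have ha2 : a < θ := by
    rcases ha1.lt_or_eq with h | h
    · exact h
    · rw [h] at ha0; linarith
  have hb2 : θ < b := by
    rcases hb1.lt_or_eq with h | h
    · exact h
    · rw [← h] at hb0; linarith
  have hab : a < b := ha2.trans hb2
  have hpos : ∀ τ ∈ Ioo a b, 0 < ww K R τ := by
    intro τ hτ
    rcases (hw τ).1.lt_or_eq with h | h
    · exact h
    · exfalso
      rcases le_total τ θ with h' | h'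
      · have := hA2 τ h.symm h'
        linarith [hτ.1]
      · have := hB2 τ h.symm h'
        linarith [hτ.2]
  -- the point z
  obtain ⟨z, hz⟩ := pf_gap_const a b (hs (er K R)) (by
    intro τ hτ
    obtain ⟨δ, hδ, z, -, hz⟩ := hloc τ (hpos τ hτ)
    exact ⟨δ, hδ, z, hz⟩) θ ⟨ha2, hb2⟩
  have yc : Continuous (fun t => yy t z) :=
    continuous_iff_continuousAt.2 fun t => (pf_gap_yy_deriv z t).continuousAt
  have hz' : ∀ t ∈ Icc a b, hs (er K R) t = yy t z := by
    have hcl : IsClosed {t | hs (er K R) t = yy t z} := isClosed_eq Ec yc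
    have hsub : closure (Ioo a b) ⊆ {t | hs (er K R) t = yy t z} :=
      hcl.closure_subset_iff.2 hz
    rw [closure_Ioo hab.ne] at hsub
    exact hsub
  have hlt : b - a < 2 * π := by
    by_contra hcon
    push Not at hcon
    have e1 := hz' a ⟨le_rfl, hab.le⟩
    have e2 := hz' (a + π) ⟨by linarith, by linarith⟩
    have e3 : yy (a + π) z = -yy a z := by
      unfold yy
      rw [Real.cos_add_pi, Real.sin_add_pi]
      ring
    have p1 := pf_gap_pos (er K R) (R - ρ) a (by linarith) hball (Ele a)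
    have p2 := pf_gap_pos (er K R) (R - ρ) (a + π) (by linarith) hball (Ele (a + π))
    linarith
  refine ⟨a, b, ha2, hb2, hlt, ha0, hb0, hpos, ?_⟩
  -- derivatives
  have hR0 : 0 < R := by linarith
  have hder : ∀ c, ww K R c = 0 → HasDerivAt (ww K R) 0 c := by
    intro c hc
    have hO : (ww K R) =O[𝓝 c] fun x => ‖x - c‖ ^ 2 := by
      apply Asymptotics.IsBigO.of_bound (R / 2)
      filter_upwards with x
      have q1 := (hw x).1
      have q2 := hsc c x hc
      rw [Real.norm_eq_abs, abs_of_nonneg q1, norm_pow, norm_norm, Real.norm_eq_abs, sq_abs]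
      linarith
    have := (hO.hasFDerivAt (𝕜 := ℝ) one_lt_two).hasDerivAt
    simpa using this
  have hya := (pf_gap_yy_deriv z a).hasDerivWithinAt (s := Ici a)
  have hyb := (pf_gap_yy_deriv z b).hasDerivWithinAt (s := Iic b)
  have hEa : HasDerivWithinAt (hs (er K R)) (xx a z) (Ici a) a := by
    apply hya.congr_of_eventuallyEq
    · filter_upwards [Icc_mem_nhdsGE hab] with t ht
      exact hz' t ht
    · exact hz' a ⟨le_rfl, hab.le⟩
  have hEb' : HasDerivWithinAt (hs (er K R)) (xx b z) (Iic b) b := by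
    apply hyb.congr_of_eventuallyEq
    · filter_upwards [Icc_mem_nhdsLE hab] with t ht
      exact hz' t ht
    · exact hz' b ⟨hab.le, le_rfl⟩
  have wa : HasDerivWithinAt (ww K R) (0 - xp K a - xx a z) (Ici a) a :=
    ((hasDerivWithinAt_const a (Ici a) R).sub (Kr a)).sub hEa
  have wb : HasDerivWithinAt (ww K R) (0 - xm K b - xx b z) (Iic b) b :=
    ((hasDerivWithinAt_const b (Iic b) R).sub (Kl b)).sub hEb'
  have ua := (uniqueDiffWithinAt_Ici a).eq_deriv _ wa (hder a ha0).hasDerivWithinAt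
  have ub := (uniqueDiffWithinAt_Iic b).eq_deriv _ wb (hder b hb0).hasDerivWithinAt
  have hint : ∫ τ in a..b, yy τ z = -xx b z - -xx a z :=
    intervalIntegral.integral_eq_sub_of_hasDerivAt (fun t _ => pf_gap_xx_deriv z t)
      (yc.intervalIntegrable a b)
  have hint2 : ∫ τ in a..b, yy τ z = ∫ τ in a..b, (R - hs K τ - ww K R τ) := by
    apply intervalIntegral.integral_congr
    intro t ht
    rw [uIcc_of_le hab.le] at ht
    have := hz' t ht
    show yy t z = R - hs K t - ww K R t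
    unfold ww
    rw [this]
    ring
  have i1 : IntervalIntegrable (fun _ : ℝ => R) volume a b :=
    continuous_const.intervalIntegrable a b
  have i2 : IntervalIntegrable (fun t => hs K t) volume a b := Kc.intervalIntegrable a b
  have i3 : IntervalIntegrable (fun t => ww K R t) volume a b := wc.intervalIntegrable a b
  have i4 : IntervalIntegrable (fun t => R - hs K t) volume a b := i1.sub i2
  have j1 : ∫ τ in a..b, (R - hs K τ - ww K R τ) =
      (∫ τ in a..b, (R - hs K τ)) - ∫ τ in a..b, ww K R τ :=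
    intervalIntegral.integral_sub i4 i3
  have j2 : ∫ τ in a..b, (R - hs K τ) = (∫ _ in a..b, R) - ∫ τ in a..b, hs K τ :=
    intervalIntegral.integral_sub i1 i2
  have j3 : ∫ _ in a..b, R = (b - a) * R := by
    rw [intervalIntegral.integral_const, smul_eq_mul]
  rw [j1, j2, j3, hint] at hint2
  linarith

end Pool.Agent.H212AN
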