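import Pool.Agent.H212AN.D4

set_option autoImplicit false

namespace Pool.Agent.H212AN

open MeasureTheory Set Filter Topology Metric
open Pool.Agent.H212AN.G (nG PG gm gk)
open scoped Real ENNReal ComplexConjugate

theorem pf_gp_norm_le {a b : ℂ} (h : a.re ^ 2 = b.re ^ 2) (h2 : a.im ^ 2 ≤ b.im ^ 2) :
    ‖a‖ ≤ ‖b‖ := by
  rw [Complex.norm_def, Complex.norm_def]
  apply Real.sqrt_le_sqrt
  rw [Complex.normSq_apply, Complex.normSq_apply]
  nlinarith

theorem pf_gp_conj (a : ℂ) : ‖conj a‖ = ‖a‖ := Complex.norm_conj a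

theorem pf_gp_ind (D : Set ℂ) (x : ℂ) (e : Bool) :
    (fl2 e x ∈ D → i2 D x e = 1) ∧ (fl2 e x ∉ D → i2 D x e = 0) := by
  constructor
  · intro h; simp [i2, h]
  · intro h; simp [i2, h]

theorem pf_gp_normI (t : ℝ) : ‖(t : ℂ) * Complex.I‖ = |t| := by
  rw [norm_mul, Complex.norm_I, mul_one, Complex.norm_real, Real.norm_eq_abs]

theorem pf_gp : S_gp := by
  intro R r b h hr hh hhb hR
  have hb : 0 < b := lt_of_lt_of_le hh hhb
  refine ⟨?_, ?_⟩
  · intro x hx
    -- abbreviations
    have e1 : conj x - b * Complex.I = conj (x + b * Complex.I) := by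
      simp [sub_eq_add_neg]
    have e2 : conj x - h * Complex.I = conj (x + h * Complex.I) := by
      simp [sub_eq_add_neg]
    have e3 : conj x - (-(h * Complex.I)) = conj (x - h * Complex.I) := by
      simp [sub_eq_add_neg]
    have n1 : ‖conj x - b * Complex.I‖ = ‖x + b * Complex.I‖ := by rw [e1, pf_gp_conj]
    have n2 : ‖conj x - h * Complex.I‖ = ‖x + h * Complex.I‖ := by rw [e2, pf_gp_conj]
    have n3 : ‖conj x - (-(h * Complex.I))‖ = ‖x - h * Complex.I‖ := by rw [e3, pf_gp_conj]
    have n4 : ‖x - (-(h * Complex.I))‖ = ‖x + h * Complex.I‖ := by rw [sub_neg_eq_add]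
    have l1 : ‖x - b * Complex.I‖ ≤ ‖x + b * Complex.I‖ := by
      apply pf_gp_norm_le
      · simp
      · simp; nlinarith
    have l2 : ‖x - h * Complex.I‖ ≤ ‖x + h * Complex.I‖ := by
      apply pf_gp_norm_le
      · simp
      · simp; nlinarith
    have m1 : fl2 true x ∈ Dn R r b h ↔ ‖x - b * Complex.I‖ < R ∧ r < ‖x - h * Complex.I‖ := by
      simp only [Dn, fl2, if_true, Set.mem_sdiff, mem_ball_iff_norm, mem_closedBall_iff_norm, not_le]
    have m2 : fl2 false x ∈ Dn R r b h ↔ ‖x + b * Complex.I‖ < R ∧ r < ‖x + h * Complex.I‖ := by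
      simp only [Dn, fl2, Bool.false_eq_true, if_false, Set.mem_sdiff, mem_ball_iff_norm,
        mem_closedBall_iff_norm, not_le, n1, n2]
    have m3 : fl2 true x ∈ Df R r b h ↔ ‖x - b * Complex.I‖ < R ∧ r < ‖x + h * Complex.I‖ := by
      simp only [Df, fl2, if_true, Set.mem_sdiff, mem_ball_iff_norm, mem_closedBall_iff_norm, not_le, n4]
    have m4 : fl2 false x ∈ Df R r b h ↔ ‖x + b * Complex.I‖ < R ∧ r < ‖x - h * Complex.I‖ := by
      simp only [Df, fl2, Bool.false_eq_true, if_false, Set.mem_sdiff, mem_ball_iff_norm,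
        mem_closedBall_iff_norm, not_le, n1, n3]
    have t1 : ‖x + b * Complex.I‖ ≤ ‖x - h * Complex.I‖ + (b + h) := by
      have : x + b * Complex.I = (x - h * Complex.I) + ((b + h : ℝ) : ℂ) * Complex.I := by
        push_cast; ring
      rw [this]
      refine (norm_add_le _ _).trans ?_
      rw [pf_gp_normI, abs_of_pos (by linarith)]
    have t2 : ‖x + b * Complex.I‖ ≤ ‖x + h * Complex.I‖ + (b - h) := by
      have : x + b * Complex.I = (x + h * Complex.I) + ((b - h : ℝ) : ℂ) * Complex.I := by
        push_cast; ring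
      rw [this]
      refine (norm_add_le _ _).trans ?_
      rw [pf_gp_normI, abs_of_nonneg (by linarith)]
    by_cases c1 : ‖x - b * Complex.I‖ < R
    · by_cases c2 : ‖x + b * Complex.I‖ < R
      · by_cases c3 : r < ‖x - h * Complex.I‖
        · have c4 : r < ‖x + h * Complex.I‖ := lt_of_lt_of_le c3 l2
          exact Or.inl ⟨(pf_gp_ind _ _ _).1 (m1.2 ⟨c1, c3⟩), (pf_gp_ind _ _ _).1 (m2.2 ⟨c2, c4⟩),
            (pf_gp_ind _ _ _).1 (m3.2 ⟨c1, c4⟩), (pf_gp_ind _ _ _).1 (m4.2 ⟨c2, c3⟩)⟩
        · by_cases c4 : r < ‖x + h * Complex.I‖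
          · exact Or.inr (Or.inr (Or.inl ⟨(pf_gp_ind _ _ _).2 (fun H => c3 (m1.1 H).2),
              (pf_gp_ind _ _ _).1 (m2.2 ⟨c2, c4⟩),
              (pf_gp_ind _ _ _).1 (m3.2 ⟨c1, c4⟩),
              (pf_gp_ind _ _ _).2 (fun H => c3 (m4.1 H).2)⟩))
          · exact Or.inr (Or.inr (Or.inr ⟨(pf_gp_ind _ _ _).2 (fun H => c3 (m1.1 H).2),
              (pf_gp_ind _ _ _).2 (fun H => c4 (m2.1 H).2),
              (pf_gp_ind _ _ _).2 (fun H => c4 (m3.1 H).2),
              (pf_gp_ind _ _ _).2 (fun H => c3 (m4.1 H).2)⟩))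
      · have c3 : r < ‖x - h * Complex.I‖ := by linarith [not_lt.1 c2]
        have c4 : r < ‖x + h * Complex.I‖ := lt_of_lt_of_le c3 l2
        exact Or.inr (Or.inl ⟨(pf_gp_ind _ _ _).1 (m1.2 ⟨c1, c3⟩),
          (pf_gp_ind _ _ _).2 (fun H => c2 (m2.1 H).1),
          (pf_gp_ind _ _ _).1 (m3.2 ⟨c1, c4⟩),
          (pf_gp_ind _ _ _).2 (fun H => c2 (m4.1 H).1)⟩)
    · have c2 : ¬ ‖x + b * Complex.I‖ < R := by
        intro H; exact c1 (lt_of_le_of_lt l1 H)
      exact Or.inr (Or.inr (Or.inr ⟨(pf_gp_ind _ _ _).2 (fun H => c1 (m1.1 H).1),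
        (pf_gp_ind _ _ _).2 (fun H => c2 (m2.1 H).1),
        (pf_gp_ind _ _ _).2 (fun H => c1 (m3.1 H).1),
        (pf_gp_ind _ _ _).2 (fun H => c2 (m4.1 H).1)⟩))
  · obtain ⟨η, hη, h1, h2, h3⟩ : ∃ η : ℝ, 0 < η ∧ 16 * η ≤ h ∧ 16 * η ≤ r ∧
        16 * η ≤ R - b - h - r := by
      refine ⟨min h (min r (R - b - h - r)) / 16, ?_, ?_, ?_, ?_⟩
      · have : 0 < min h (min r (R - b - h - r)) :=
          lt_min hh (lt_min hr (by linarith))
        positivity
      · have := min_le_left h (min r (R - b - h - r)); linarith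
      · have := (min_le_right h (min r (R - b - h - r))).trans (min_le_left _ _); linarith
      · have := (min_le_right h (min r (R - b - h - r))).trans (min_le_right _ _); linarith
    refine ⟨((h + r - 2 * η : ℝ) : ℂ) * Complex.I, ((b + R - h - r - 2 * η : ℝ) : ℂ) * Complex.I,
      η, h / 2, hη, by linarith, ?_⟩
    intro z hz q
    rw [mem_ball_iff_norm] at hz
    refine ⟨?_, ?_, ?_⟩
    · rintro ⟨x, hx0, hx1, hq⟩
      -- the point of the segment
      set y : ℝ := (h + r - 2 * η) + x * (b + R - h - r - 2 * η) with hy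
      have hc : 0 < b + R - h - r - 2 * η := by linarith
      have hy1 : h + r - 2 * η ≤ y := by
        have : 0 ≤ x * (b + R - h - r - 2 * η) := mul_nonneg hx0 hc.le
        linarith
      have hy2 : y ≤ b + R - 4 * η := by
        have : x * (b + R - h - r - 2 * η) ≤ 1 * (b + R - h - r - 2 * η) :=
          mul_le_mul_of_nonneg_right hx1 hc.le
        linarith
      have hw : ‖z + q - (y : ℂ) * Complex.I‖ < 2 * η := by
        have : z + q - (y : ℂ) * Complex.I = (z - ((h + r - 2 * η : ℝ) : ℂ) * Complex.I) +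
            (q - x * (((b + R - h - r - 2 * η : ℝ) : ℂ) * Complex.I)) := by
          rw [hy]; push_cast; ring
        rw [this]
        refine (norm_add_le _ _).trans_lt ?_
        linarith
      have him := Complex.abs_im_le_norm (z + q - (y : ℂ) * Complex.I)
      have him2 : (z + q - (y : ℂ) * Complex.I).im = (z + q).im - y := by simp
      rw [him2] at him
      have him3 := abs_le.1 (him.trans hw.le)
      refine ⟨by linarith [him3.1], ?_⟩
      simp only [Df, Set.mem_sdiff, mem_ball_iff_norm, mem_closedBall_iff_norm, not_le]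
      constructor
      · have : z + q - b * Complex.I = (z + q - (y : ℂ) * Complex.I) +
            ((y - b : ℝ) : ℂ) * Complex.I := by push_cast; ring
        rw [this]
        refine (norm_add_le _ _).trans_lt ?_
        rw [pf_gp_normI]
        have : |y - b| ≤ R - 4 * η := by
          rw [abs_le]; constructor <;> linarith
        linarith
      · have e := Complex.abs_im_le_norm (z + q - (-(h * Complex.I)))
        have e2 : (z + q - (-(h * Complex.I))).im = (z + q).im + h := by simp
        rw [e2] at e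
        have e3 := le_abs_self ((z + q).im + h)
        linarith [him3.1]
    · simp only [Dn, Set.mem_sdiff, mem_closedBall_iff_norm, not_and, not_not]
      intro _
      have : z - h * Complex.I = (z - ((h + r - 2 * η : ℝ) : ℂ) * Complex.I) +
          ((r - 2 * η : ℝ) : ℂ) * Complex.I := by push_cast; ring
      rw [this]
      refine (norm_add_le _ _).trans ?_
      rw [pf_gp_normI, abs_of_pos (by linarith)]
      linarith
    · intro hq
      have hw : ‖z + q - ((b + R - 4 * η : ℝ) : ℂ) * Complex.I‖ < 2 * η := by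
        have : z + q - ((b + R - 4 * η : ℝ) : ℂ) * Complex.I =
            (z - ((h + r - 2 * η : ℝ) : ℂ) * Complex.I) +
            (q - (((b + R - h - r - 2 * η : ℝ) : ℂ) * Complex.I)) := by
          push_cast; ring
        rw [this]
        refine (norm_add_le _ _).trans_lt ?_
        linarith
      have him := Complex.abs_im_le_norm (z + q - ((b + R - 4 * η : ℝ) : ℂ) * Complex.I)
      have him2 : (z + q - ((b + R - 4 * η : ℝ) : ℂ) * Complex.I).im =
          (z + q).im - (b + R - 4 * η) := by simp
      rw [him2] at him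
      have him3 := abs_le.1 (him.trans hw.le)
      constructor
      · simp only [Dn, Set.mem_sdiff, mem_ball_iff_norm, mem_closedBall_iff_norm, not_le]
        constructor
        · have : z + q - b * Complex.I = (z + q - ((b + R - 4 * η : ℝ) : ℂ) * Complex.I) +
              ((R - 4 * η : ℝ) : ℂ) * Complex.I := by push_cast; ring
          rw [this]
          refine (norm_add_le _ _).trans_lt ?_
          rw [pf_gp_normI, abs_of_pos (by linarith)]
          linarith
        · have e := Complex.abs_im_le_norm (z + q - h * Complex.I)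
          have e2 : (z + q - h * Complex.I).im = (z + q).im - h := by simp
          rw [e2] at e
          have e3 := le_abs_self ((z + q).im - h)
          linarith [him3.1]
      · intro H
        have H2 : ‖conj (z + q) - b * Complex.I‖ < R := by
          have := H.1
          rwa [mem_ball_iff_norm] at this
        have e := Complex.abs_im_le_norm (conj (z + q) - b * Complex.I)
        have e2 : (conj (z + q) - b * Complex.I).im = -((z + q).im) - b := by
          rw [Complex.sub_im, Complex.conj_im]; simp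
        rw [e2] at e
        have e3 := neg_le_abs (-((z + q).im) - b)
        linarith [him3.1]

end Pool.Agent.H212AN
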