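import Pool.Agent.H212AN.D3

set_option autoImplicit false

namespace Pool.Agent.H212AN

open MeasureTheory Set Filter Topology Metric
open Pool.Agent.W594.AN (ClosedCurve)
open Pool.Agent.H212AN.G (nG PG gm gk)
open scoped Real ENNReal ComplexConjugate

/-- the polynomial in normal coordinates -/
noncomputable def pf_he_F (c : ClosedCurve) (C' s : ℝ) (w : ℂ) : ℝ :=
  (Complex.I * conj (deriv c.γ s) * w).re +
    c.curvature s / 2 * (Complex.I * conj (deriv c.γ s) * w).im ^ 2 +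
    deriv c.curvature s / 6 * (Complex.I * conj (deriv c.γ s) * w).im ^ 3 +
    C' * (Complex.I * conj (deriv c.γ s) * w).im ^ 4

theorem pf_he_dp (c : ClosedCurve) (C' s : ℝ) (b : Lo) :
    dp c C' (rg b) s = sSup ((fun u : unitInterval => pf_he_F c C' s (b u)) '' univ) := by
  unfold dp pk rg
  rw [image_image, image_univ, ← range_comp]
  rfl

theorem pf_he_curv_smooth (c : ClosedCurve) : ContDiff ℝ (⊤ : ℕ∞) c.curvature := by
  have h1 := c.smooth'
  have h2 := c.smooth''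
  have h3 : ContDiff ℝ (⊤ : ℕ∞) fun s => conj (deriv c.γ s) :=
    Complex.conjCLE.contDiff.comp h1
  exact Complex.imCLM.contDiff.comp (h3.mul h2)

theorem pf_he_curv_cont (c : ClosedCurve) : Continuous (deriv c.curvature) :=
  (pf_he_curv_smooth c).continuous_deriv (by simp)

theorem pf_he_F_cont (c : ClosedCurve) (C' : ℝ) :
    Continuous fun p : ℝ × ℂ => pf_he_F c C' p.1 p.2 := by
  have h1 := c.cont'
  have h2 := c.cont_curvature
  have h3 := pf_he_curv_cont c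
  unfold pf_he_F
  fun_prop

theorem pf_he_dp_cont (c : ClosedCurve) (C' t : ℝ) :
    Continuous fun p : Lo × ℝ => dp c C' (rg (√t • p.1)) p.2 := by
  simp_rw [pf_he_dp]
  refine IsCompact.continuous_sSup (f := fun (p : Lo × ℝ) (u : unitInterval) =>
    pf_he_F c C' p.2 ((√t • p.1) u)) isCompact_univ ?_
  refine (pf_he_F_cont c C').comp (f := fun q : (Lo × ℝ) × unitInterval =>
    (q.1.2, (√t • q.1.1) q.2)) ?_
  refine (continuous_snd.comp continuous_fst).prodMk ?_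
  show Continuous fun q : (Lo × ℝ) × unitInterval => √t • (q.1.1 q.2)
  fun_prop

/-- the integral over the boundary -/
noncomputable def pf_he_J (c : ClosedCurve) (C' t : ℝ) (b : Lo) : ℝ :=
  ∫ s in (0:ℝ)..c.L, (dp c C' (rg (√t • b)) s - c.curvature s / 2 * dp c C' (rg (√t • b)) s ^ 2)

theorem pf_he_J_cont (c : ClosedCurve) (C' t : ℝ) : Continuous (pf_he_J c C' t) := by
  unfold pf_he_J
  refine intervalIntegral.continuous_parametric_intervalIntegral_of_continuous' ?_ _ _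
  have h1 := pf_he_dp_cont c C' t
  have h2 := c.cont_curvature
  have h3 : Continuous fun p : Lo × ℝ => c.curvature p.2 := h2.comp continuous_snd
  show Continuous fun p : Lo × ℝ => dp c C' (rg (√t • p.1)) p.2 -
    c.curvature p.2 / 2 * dp c C' (rg (√t • p.1)) p.2 ^ 2
  exact h1.sub ((h3.div_const 2).mul (h1.pow 2))

theorem pf_he_F_bd (c : ClosedCurve) (C' s ρ : ℝ) (w : ℂ) (hw : ‖w‖ ≤ ρ) :
    |pf_he_F c C' s w| ≤ ρ + |c.curvature s / 2| * ρ ^ 2 + |deriv c.curvature s / 6| * ρ ^ 3 +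
      |C'| * ρ ^ 4 := by
  have hρ : 0 ≤ ρ := (norm_nonneg _).trans hw
  set q := Complex.I * conj (deriv c.γ s) * w with hq
  have hqn : ‖q‖ ≤ ρ := by
    rw [hq, norm_mul, norm_mul, Complex.norm_I, Complex.norm_conj, c.unit_speed, one_mul, one_mul]
    exact hw
  have hre : |q.re| ≤ ρ := (Complex.abs_re_le_norm q).trans hqn
  have him : |q.im| ≤ ρ := (Complex.abs_im_le_norm q).trans hqn
  have hpow : ∀ (x : ℝ) (n : ℕ), |x * q.im ^ n| ≤ |x| * ρ ^ n := by
    intro x n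
    rw [abs_mul, abs_pow]
    exact mul_le_mul_of_nonneg_left (pow_le_pow_left₀ (abs_nonneg _) him n) (abs_nonneg _)
  unfold pf_he_F
  rw [← hq]
  refine (abs_add_le _ _).trans (add_le_add ((abs_add_le _ _).trans (add_le_add
    ((abs_add_le _ _).trans (add_le_add hre ?_)) ?_)) ?_)
  · exact hpow _ _
  · exact hpow _ _
  · exact hpow _ _

theorem pf_he_sSup_abs {S : Set ℝ} (hS : S.Nonempty) {M : ℝ} (h : ∀ x ∈ S, |x| ≤ M) :
    |sSup S| ≤ M := by
  rw [abs_le]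
  obtain ⟨x, hx⟩ := hS
  constructor
  · exact (abs_le.1 (h x hx)).1.trans (le_csSup ⟨M, fun y hy => (abs_le.1 (h y hy)).2⟩ hx)
  · exact csSup_le ⟨x, hx⟩ fun y hy => (abs_le.1 (h y hy)).2

theorem pf_he_J_bd (c : ClosedCurve) (C' t ρ : ℝ) :
    ∃ M : ℝ, ∀ b : Lo, √t * ‖b‖ ≤ ρ → |pf_he_J c C' t b| ≤ M := by
  set m : ℝ → ℝ := fun s => ρ + |c.curvature s / 2| * ρ ^ 2 + |deriv c.curvature s / 6| * ρ ^ 3 +
      |C'| * ρ ^ 4 with hm
  have h2 := c.cont_curvature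
  have h3 := pf_he_curv_cont c
  have hmc : Continuous m := by
    rw [hm]
    fun_prop
  refine ⟨∫ s in (0:ℝ)..c.L, (m s + |c.curvature s / 2| * m s ^ 2), fun b hb => ?_⟩
  have hdp : ∀ s, |dp c C' (rg (√t • b)) s| ≤ m s := by
    intro s
    rw [pf_he_dp]
    refine pf_he_sSup_abs (univ_nonempty.image _) ?_
    rintro _ ⟨u, -, rfl⟩
    refine pf_he_F_bd c C' s ρ _ (le_trans ?_ hb)
    rw [ContinuousMap.smul_apply, norm_smul, Real.norm_eq_abs, abs_of_nonneg (Real.sqrt_nonneg t)]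
    exact mul_le_mul_of_nonneg_left (ContinuousMap.norm_coe_le_norm b u) (Real.sqrt_nonneg t)
  have hii : IntervalIntegrable (fun s => m s + |c.curvature s / 2| * m s ^ 2) volume 0 c.L :=
    Continuous.intervalIntegrable (by fun_prop) _ _
  have key : ∀ s, ‖dp c C' (rg (√t • b)) s - c.curvature s / 2 * dp c C' (rg (√t • b)) s ^ 2‖ ≤
      m s + |c.curvature s / 2| * m s ^ 2 := ?_
  · have := intervalIntegral.norm_integral_le_of_norm_le (μ := volume) c.L_pos.le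
      (Eventually.of_forall fun s _ => key s) hii
    exact this
  intro s
  rw [Real.norm_eq_abs]
  refine (abs_sub _ _).trans (add_le_add (hdp s) ?_)
  rw [abs_mul, abs_pow]
  exact mul_le_mul_of_nonneg_left (pow_le_pow_left₀ (abs_nonneg _) (hdp s) 2) (abs_nonneg _)

theorem pf_he_B_meas (t ρ : ℝ) : MeasurableSet {b : Lo | √t * ‖b‖ ≤ ρ} :=
  (isClosed_le (continuous_const.mul continuous_norm) continuous_const).measurableSet

theorem pf_he_J_int (μ : Measure Lo) [IsFiniteMeasure μ] (c : ClosedCurve) (C' t ρ : ℝ) :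
    Integrable ({b : Lo | √t * ‖b‖ ≤ ρ}.indicator (pf_he_J c C' t)) μ := by
  obtain ⟨M, hM⟩ := pf_he_J_bd c C' t ρ
  refine Integrable.of_bound (C := |M|)
    (((pf_he_J_cont c C' t).measurable.indicator (pf_he_B_meas t ρ)).aestronglyMeasurable)
    (Eventually.of_forall fun b => ?_)
  by_cases hb : b ∈ {b : Lo | √t * ‖b‖ ≤ ρ}
  · rw [indicator_of_mem hb, Real.norm_eq_abs]
    exact (hM b hb).trans (le_abs_self M)
  · rw [indicator_of_notMem hb, norm_zero]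
    exact abs_nonneg M

theorem pf_he_set (t : ℝ) (b : Lo) (Q : Set ℂ) :
    {z : ℂ | ∀ k ∈ rg (√t • b), z + k ∈ Q} = {z : ℂ | ∀ s : unitInterval, z + (√t : ℂ) * b s ∈ Q} := by
  ext z
  simp only [mem_ofPred_eq, rg, forall_mem_range, ContinuousMap.smul_apply, Complex.real_smul]

theorem pf_he_good (t ρ : ℝ) (b : Lo) (hb : √t * ‖b‖ ≤ ρ) (hb0 : b 0 = 0) :
    Good (rg (√t • b)) ρ := by
  refine ⟨isCompact_range (√t • b).continuous, ⟨0, ?_⟩, ?_⟩
  · rw [ContinuousMap.smul_apply, hb0, smul_zero]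
  · rintro _ ⟨u, rfl⟩
    rw [mem_closedBall_zero_iff, ContinuousMap.smul_apply, norm_smul, Real.norm_eq_abs,
      abs_of_nonneg (Real.sqrt_nonneg t)]
    exact (mul_le_mul_of_nonneg_left (ContinuousMap.norm_coe_le_norm b u)
      (Real.sqrt_nonneg t)).trans hb

theorem pf_he_compl (μ : Measure Lo) (hμ : IsProbabilityMeasure μ)
    (hint : Integrable (fun b : Lo => ‖b‖ ^ 4) μ) (ρ t : ℝ) (hρ : 0 < ρ) (ht : 0 < t) :
    μ.real {b : Lo | √t * ‖b‖ ≤ ρ}ᶜ ≤ (∫ b, ‖b‖ ^ 4 ∂μ) / ρ ^ 4 * t ^ 2 := by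
  have hst : 0 < √t := Real.sqrt_pos.2 ht
  have h1 := mul_meas_ge_le_integral_of_nonneg (μ := μ) (f := fun b : Lo => ‖b‖ ^ 4)
    (Eventually.of_forall fun b => by positivity) hint ((ρ / √t) ^ 4)
  have h2 : {b : Lo | √t * ‖b‖ ≤ ρ}ᶜ ⊆ {b : Lo | (ρ / √t) ^ 4 ≤ ‖b‖ ^ 4} := by
    intro b hb
    rw [mem_compl_iff, mem_ofPred_eq, not_le] at hb
    rw [mem_ofPred_eq]
    refine pow_le_pow_left₀ (by positivity) ?_ 4
    rw [div_le_iff₀ hst]
    linarith
  have h3 : μ.real {b : Lo | √t * ‖b‖ ≤ ρ}ᶜ ≤ μ.real {b : Lo | (ρ / √t) ^ 4 ≤ ‖b‖ ^ 4} :=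
    measureReal_mono h2
  have h4 : √t ^ 4 = t ^ 2 := by
    have : √t ^ 4 = (√t ^ 2) ^ 2 := by ring
    rw [this, Real.sq_sqrt ht.le]
  have h5 : (ρ / √t) ^ 4 = ρ ^ 4 / t ^ 2 := by rw [div_pow, h4]
  rw [h5] at h1 h3
  have hpos : 0 < ρ ^ 4 / t ^ 2 := by positivity
  have h6 : μ.real {b : Lo | ρ ^ 4 / t ^ 2 ≤ ‖b‖ ^ 4} ≤ (∫ b, ‖b‖ ^ 4 ∂μ) / (ρ ^ 4 / t ^ 2) := by
    rw [le_div_iff₀ hpos, mul_comm]
    exact h1
  refine h3.trans (h6.trans (le_of_eq ?_))
  field_simp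

theorem pf_he_lower (μ : Measure Lo) (hμ : IsProbabilityMeasure μ) (hend : ∀ᵐ b ∂μ, b 0 = 0)
    (h2 : S_rm) (Ω : Set ℂ) (n : ℕ)
    (c : Fin n → ClosedCurve) (ε C : ℝ) (hLB : LB Ω n c ε C) (t : ℝ) (x : ℝ) (hx : 0 ≤ x)
    (hE : EV μ Ω t ≤ ENNReal.ofReal x) :
    (volume Ω).toReal - (volume Ω).toReal * μ.real {b : Lo | √t * ‖b‖ ≤ ε / 4}ᶜ -
      ∑ i, ∫ b, {b : Lo | √t * ‖b‖ ≤ ε / 4}.indicator (pf_he_J (c i) C t) b ∂μ ≤ x := by
  set B : Set Lo := {b : Lo | √t * ‖b‖ ≤ ε / 4} with hB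
  have hBm : MeasurableSet B := pf_he_B_meas t _
  have hfin : volume Ω ≠ ∞ := hLB.isBounded.measure_lt_top.ne
  set A := (volume Ω).toReal with hA
  set g : Lo → ℝ := fun b => B.indicator (fun _ => A) b -
    ∑ i, B.indicator (pf_he_J (c i) C t) b with hg
  have hint1 : Integrable (B.indicator fun _ : Lo => A) μ :=
    (integrable_const A).indicator hBm
  have hint2 : ∀ i, Integrable (B.indicator (pf_he_J (c i) C t)) μ := fun i =>
    pf_he_J_int μ (c i) C t _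
  have hint : Integrable g μ := hint1.sub (integrable_finsetSum _ fun i _ => hint2 i)
  have hle : ∀ᵐ b ∂μ, ENNReal.ofReal (g b) ≤
      volume {z : ℂ | ∀ s : unitInterval, z + (√t : ℂ) * b s ∈ Ω} := by
    filter_upwards [hend] with b hb0
    by_cases hb : b ∈ B
    · have h3 := (h2 Ω n c ε C hLB (rg (√t • b)) (ε / 4) (pf_he_good t _ b hb hb0)
        (by have := hLB.eps.1; positivity) le_rfl).1
      rw [pf_he_set] at h3
      refine ENNReal.ofReal_le_of_le_toReal (le_trans (le_of_eq ?_) h3)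
      simp only [hg, indicator_of_mem hb]
      rfl
    · simp only [hg, indicator_of_notMem hb]
      simp
  have h4 : (∫⁻ b, ENNReal.ofReal (g b) ∂μ) ≤ ENNReal.ofReal x := (lintegral_mono_ae hle).trans hE
  have h5 : ∫ b, g b ∂μ ≤ x := by
    rw [integral_eq_lintegral_pos_part_sub_lintegral_neg_part hint]
    have h6 := ENNReal.toReal_le_of_le_ofReal hx h4
    have h7 : 0 ≤ (∫⁻ b, ENNReal.ofReal (-g b) ∂μ).toReal := ENNReal.toReal_nonneg
    linarith
  have h6 : ∫ b, g b ∂μ = A * μ.real B - ∑ i, ∫ b, B.indicator (pf_he_J (c i) C t) b ∂μ := by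
    rw [hg, integral_sub hint1 (integrable_finsetSum _ fun i _ => hint2 i),
      integral_finsetSum _ fun i _ => hint2 i, integral_indicator_const A hBm, smul_eq_mul, mul_comm]
  have h7 : μ.real Bᶜ = 1 - μ.real B := by
    rw [measureReal_compl hBm]
    simp
  rw [h7]
  linarith

theorem pf_he_upper (μ : Measure Lo) (hμ : IsProbabilityMeasure μ) (hend : ∀ᵐ b ∂μ, b 0 = 0)
    (h2 : S_rm) (Ω : Set ℂ) (n : ℕ)
    (c : Fin n → ClosedCurve) (ε C : ℝ) (hLB : LB Ω n c ε C) (t : ℝ) (x : ℝ)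
    (hE : ENNReal.ofReal x ≤ EV μ (closure Ω) t) :
    x ≤ (volume Ω).toReal -
      ∑ i, ∫ b, {b : Lo | √t * ‖b‖ ≤ ε / 4}.indicator (pf_he_J (c i) (-C) t) b ∂μ := by
  set B : Set Lo := {b : Lo | √t * ‖b‖ ≤ ε / 4} with hB
  have hBm : MeasurableSet B := pf_he_B_meas t _
  have hfin : volume Ω ≠ ∞ := hLB.isBounded.measure_lt_top.ne
  have hcl : volume (closure Ω) = volume Ω := by
    refine le_antisymm ?_ (measure_mono subset_closure)
    rw [closure_eq_self_union_frontier]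
    refine (measure_union_le _ _).trans ?_
    rw [hLB.null, add_zero]
  set A := (volume Ω).toReal with hA
  set g : Lo → ℝ := fun b => A - ∑ i, B.indicator (pf_he_J (c i) (-C) t) b with hg
  have hint2 : ∀ i, Integrable (B.indicator (pf_he_J (c i) (-C) t)) μ := fun i =>
    pf_he_J_int μ (c i) (-C) t _
  have hint : Integrable g μ :=
    (integrable_const A).sub (integrable_finsetSum _ fun i _ => hint2 i)
  have hsub : ∀ b : Lo, b 0 = 0 → {z : ℂ | ∀ s : unitInterval, z + (√t : ℂ) * b s ∈ closure Ω} ⊆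
      closure Ω := by
    intro b hb0 z hz
    have := hz 0
    rwa [hb0, mul_zero, add_zero] at this
  have hfin2 : ∀ b : Lo, b 0 = 0 →
      volume {z : ℂ | ∀ s : unitInterval, z + (√t : ℂ) * b s ∈ closure Ω} ≤ volume Ω := by
    intro b hb0
    rw [← hcl]
    exact measure_mono (hsub b hb0)
  have hle0 : ∀ᵐ b ∂μ,
      (volume {z : ℂ | ∀ s : unitInterval, z + (√t : ℂ) * b s ∈ closure Ω}).toReal ≤ g b := by
    filter_upwards [hend] with b hb0
    by_cases hb : b ∈ B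
    · have h3 := (h2 Ω n c ε C hLB (rg (√t • b)) (ε / 4) (pf_he_good t _ b hb hb0)
        (by have := hLB.eps.1; positivity) le_rfl).2
      rw [pf_he_set] at h3
      refine h3.trans (le_of_eq ?_)
      simp only [hg, indicator_of_mem hb]
      rfl
    · simp only [hg, indicator_of_notMem hb]
      simp only [Finset.sum_const_zero, sub_zero]
      exact ENNReal.toReal_mono hfin (hfin2 b hb0)
  have hle : ∀ᵐ b ∂μ, volume {z : ℂ | ∀ s : unitInterval, z + (√t : ℂ) * b s ∈ closure Ω} ≤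
      ENNReal.ofReal (g b) := by
    filter_upwards [hend, hle0] with b hb0 hb
    rw [← ENNReal.ofReal_toReal (ne_top_of_le_ne_top hfin (hfin2 b hb0))]
    exact ENNReal.ofReal_le_ofReal hb
  have hg0 : 0 ≤ᵐ[μ] g := by
    filter_upwards [hle0] with b hb
    exact ENNReal.toReal_nonneg.trans hb
  have h4 : ENNReal.ofReal x ≤ ENNReal.ofReal (∫ b, g b ∂μ) := by
    rw [ofReal_integral_eq_lintegral_ofReal hint hg0]
    exact hE.trans (lintegral_mono_ae hle)
  have h5 : x ≤ ∫ b, g b ∂μ := by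
    rwa [ENNReal.ofReal_le_ofReal_iff (integral_nonneg_of_ae hg0)] at h4
  have h6 : ∫ b, g b ∂μ = A - ∑ i, ∫ b, B.indicator (pf_he_J (c i) (-C) t) b ∂μ := by
    rw [hg, integral_sub (integrable_const A) (integrable_finsetSum _ fun i _ => hint2 i),
      integral_finsetSum _ fun i _ => hint2 i, integral_const]
    simp
  linarith

/- PLAIN PROOF.
A = (volume Ω).toReal. For t <= 1 let B = {b | √t‖b‖ <= ε/4}. P(Bᶜ) <= E (4√t‖b‖/ε)^4 <= D t². For b in B with b 0 = 0, K = rg (√t • b) is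
Good K (ε/4) and the set {z | ∀ s, z + √t b s ∈ Ω} = {z | ∀ k ∈ K, z + k ∈ Ω}. S_rm gives
A - Σ_i J_i⁺(b) <= vol{… Ω}, vol{… closure Ω} <= A - Σ_i J_i⁻(b), J_i^±(b) = ∫_0^L (dp (c i) (±C) K s - κ/2 dp²) ds.
Lower bound: 4πtZ >= EV μ Ω t >= E[1_B (A - Σ J⁺)] >= A - D t² - Σ_i E[1_B J_i⁺] (S_tr; toReal/ofReal, EV finite <= vol Ω). Upper bound:
4πtZ <= EV μ (closure Ω) t <= E[1_B (A - ΣJ⁻)] + P(Bᶜ) A <= A - Σ_i E[1_B J_i⁻] (the volume is always <= vol (closure Ω) = A, null frontier).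
By S_dp (with its ε := ε/4 and C' = ±C) E[1_B J_i^±] = √t ∫_0^L Gf μ (√tκ) (tκ'/6) (±√t³C) ds + O(t²), by S_bd this is
√t (m0 L_i - √t m1 ∫κ_i - t m2 ∫κ_i² + o(t)) + O(t²). Divide by √t³ (squeeze).
-/
theorem pf_he (h1 : S_tr) (h2 : S_rm) (h3 : S_dp) (h4 : S_bd) (h5 : S_end) (h6 : S_mom) : S_he := by
  intro Z hU hL hZ μ hμ Ω n c ε C hLB
  have hp := hμ.prob
  have hend : ∀ᵐ b ∂μ, b 0 = 0 := (h5 μ hμ).mono fun b hb => hb.1
  have hC : 0 < C := hLB.pos.1
  have hε : 0 < ε / 4 := by have := hLB.eps.1; positivity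
  set A := (volume Ω).toReal with hA
  set M4 := (∫ b, ‖b‖ ^ 4 ∂μ) / (ε / 4) ^ 4 with hM4
  have hD1 := fun i => h3 μ hμ (c i) C (ε / 4) hC hε (hLB.curv i) C (abs_of_pos hC)
  have hD2 := fun i => h3 μ hμ (c i) C (ε / 4) hC hε (hLB.curv i) (-C) (by rw [abs_neg, abs_of_pos hC])
  choose D1 hD1 using hD1
  choose D2 hD2 using hD2
  set I : ℝ → Fin n → ℝ → ℝ := fun C' i t => ∫ s in (0:ℝ)..(c i).L,
    Gf μ (√t * (c i).curvature s) (t * (deriv (c i).curvature s / 6)) (√t ^ 3 * C') with hI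
  set R : ℝ → Fin n → ℝ → ℝ := fun C' i t => (I C' i t -
    (m0 μ * (c i).L - √t * m1 μ * (c i).totalCurvature)) / t with hR
  have hRt : ∀ C' i, Tendsto (R C' i) (𝓝[>] 0) (𝓝 (-(m2 μ * (c i).bending))) := fun C' i =>
    h4 μ hμ (c i) C'
  have hRs : ∀ C', Tendsto (fun t => ∑ i, R C' i t) (𝓝[>] 0) (𝓝 (-(m2 μ * ∑ i, (c i).bending))) := by
    intro C'
    have := tendsto_finsetSum Finset.univ fun i _ => hRt C' i
    convert this using 2
    rw [Finset.mul_sum, Finset.sum_neg_distrib]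
  have hsq : Tendsto (fun t : ℝ => √t) (𝓝[>] 0) (𝓝 0) := by
    have h := (Real.continuous_sqrt.tendsto 0).mono_left (nhdsWithin_le_nhds (s := Ioi (0:ℝ)))
    rwa [Real.sqrt_zero] at h
  -- the two bounds
  have hlo : Tendsto (fun t : ℝ => -((A * M4 + ∑ i, D1 i) * √t) - ∑ i, R C i t) (𝓝[>] 0)
      (𝓝 (m2 μ * ∑ i, (c i).bending)) := by
    have := ((hsq.const_mul (A * M4 + ∑ i, D1 i)).neg).sub (hRs C)
    simpa using this
  have hup : Tendsto (fun t : ℝ => (∑ i, D2 i) * √t - ∑ i, R (-C) i t) (𝓝[>] 0)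
      (𝓝 (m2 μ * ∑ i, (c i).bending)) := by
    have := (hsq.const_mul (∑ i, D2 i)).sub (hRs (-C))
    simpa using this
  have hmem : ∀ᶠ t : ℝ in 𝓝[>] 0, 0 < t ∧ t ≤ 1 := by
    filter_upwards [Ioc_mem_nhdsGT (zero_lt_one' ℝ)] with t ht
    exact ht
  have hsum : ∀ C' t, 0 < t → √t * ∑ i, I C' i t = √t * m0 μ * (∑ i, (c i).L) -
      t * m1 μ * (∑ i, (c i).totalCurvature) + √t ^ 3 * ∑ i, R C' i t := by
    intro C' t ht
    have hst : √t ^ 2 = t := Real.sq_sqrt ht.le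
    rw [Finset.mul_sum, Finset.mul_sum, Finset.mul_sum, Finset.mul_sum, ← Finset.sum_sub_distrib,
      ← Finset.sum_add_distrib]
    refine Finset.sum_congr rfl fun i _ => ?_
    simp only [hR]
    have e1 : √t ^ 3 * ((I C' i t - (m0 μ * (c i).L - √t * m1 μ * (c i).totalCurvature)) / t) =
        √t * (I C' i t - (m0 μ * (c i).L - √t * m1 μ * (c i).totalCurvature)) := by
      have : √t ^ 3 = √t * t := by rw [pow_succ, hst]; ring
      rw [this]
      field_simp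
    rw [e1]
    have e2 : √t * √t = t := by rw [← sq, hst]
    linear_combination (-(m1 μ * (c i).totalCurvature)) * e2
  refine tendsto_of_tendsto_of_tendsto_of_le_of_le' hlo hup ?_ ?_
  · filter_upwards [hmem] with t ht
    obtain ⟨ht0, ht1⟩ := ht
    have hst0 : 0 < √t := Real.sqrt_pos.2 ht0
    have hst : √t ^ 2 = t := Real.sq_sqrt ht0.le
    have htr := (h1 Z hU hL hZ μ hμ Ω hLB.isOpen hLB.isBounded hLB.nonempty t ht0).1
    have hx : 0 ≤ 4 * π * t * Z Ω t := by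
      have := hZ Ω t
      positivity
    have hl := pf_he_lower μ hp hend h2 Ω n c ε C hLB t _ hx htr
    have hc := pf_he_compl μ hp (h6 μ hμ 4) (ε / 4) t hε ht0
    have hcA : A * μ.real {b : Lo | √t * ‖b‖ ≤ ε / 4}ᶜ ≤ A * (M4 * t ^ 2) :=
      mul_le_mul_of_nonneg_left hc ENNReal.toReal_nonneg
    have hJ : ∑ i, ∫ b, {b : Lo | √t * ‖b‖ ≤ ε / 4}.indicator (pf_he_J (c i) C t) b ∂μ ≤
        √t * (∑ i, I C i t) + (∑ i, D1 i) * t ^ 2 := by
      rw [Finset.mul_sum, Finset.sum_mul, ← Finset.sum_add_distrib]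
      refine Finset.sum_le_sum fun i _ => ?_
      have := (abs_le.1 (hD1 i t ht0 ht1)).2
      have h7 : (∫ b, {b : Lo | √t * ‖b‖ ≤ ε / 4}.indicator (pf_he_J (c i) C t) b ∂μ) -
        √t * I C i t ≤ D1 i * t ^ 2 := this
      linarith
    rw [hsum C t ht0] at hJ
    rw [le_div_iff₀ (by positivity)]
    have e3 : t ^ 2 = √t * √t ^ 3 := by
      have : √t * √t ^ 3 = (√t ^ 2) ^ 2 := by ring
      rw [this, hst]
    rw [e3] at hJ hcA
    linarith
  · filter_upwards [hmem] with t ht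
    obtain ⟨ht0, ht1⟩ := ht
    have hst0 : 0 < √t := Real.sqrt_pos.2 ht0
    have hst : √t ^ 2 = t := Real.sq_sqrt ht0.le
    have htr := (h1 Z hU hL hZ μ hμ Ω hLB.isOpen hLB.isBounded hLB.nonempty t ht0).2
    have hl := pf_he_upper μ hp hend h2 Ω n c ε C hLB t _ htr
    have hJ : √t * (∑ i, I (-C) i t) - (∑ i, D2 i) * t ^ 2 ≤
        ∑ i, ∫ b, {b : Lo | √t * ‖b‖ ≤ ε / 4}.indicator (pf_he_J (c i) (-C) t) b ∂μ := by
      rw [Finset.mul_sum, Finset.sum_mul, ← Finset.sum_sub_distrib]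
      refine Finset.sum_le_sum fun i _ => ?_
      have := (abs_le.1 (hD2 i t ht0 ht1)).1
      have h7 : -(D2 i * t ^ 2) ≤ (∫ b, {b : Lo | √t * ‖b‖ ≤ ε / 4}.indicator (pf_he_J (c i) (-C) t) b ∂μ) -
        √t * I (-C) i t := this
      linarith
    rw [hsum (-C) t ht0] at hJ
    rw [div_le_iff₀ (by positivity)]
    have e3 : t ^ 2 = √t * √t ^ 3 := by
      have : √t * √t ^ 3 = (√t ^ 2) ^ 2 := by ring
      rw [this, hst]
    rw [e3] at hJ
    linarith

end Pool.Agent.H212AN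

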