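import Pool.Agent.H212AN.D0

set_option autoImplicit false

namespace Pool.Agent.H212AN

open MeasureTheory Set Filter Topology Metric
open scoped Real ENNReal

theorem pf_hs_add (θ φ : ℝ) (k : ℂ) :
    yy (θ + φ) k = Real.cos φ * yy θ k + Real.sin φ * xx θ k := by
  simp only [yy, xx, Real.cos_add, Real.sin_add]; ring

theorem pf_hs_sq (θ : ℝ) (k : ℂ) : yy θ k ^ 2 + xx θ k ^ 2 = ‖k‖ ^ 2 := by
  have h := Real.sin_sq_add_cos_sq θ
  rw [← Complex.normSq_eq_norm_sq, Complex.normSq_apply]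
  simp only [yy, xx]
  linear_combination (k.re * k.re + k.im * k.im) * h

theorem pf_hs_yle (θ : ℝ) (k : ℂ) : |yy θ k| ≤ ‖k‖ := by
  refine abs_le_of_sq_le_sq ?_ (norm_nonneg _)
  have := pf_hs_sq θ k
  nlinarith [sq_nonneg (xx θ k)]

theorem pf_hs_xle (θ : ℝ) (k : ℂ) : |xx θ k| ≤ ‖k‖ := by
  refine abs_le_of_sq_le_sq ?_ (norm_nonneg _)
  have := pf_hs_sq θ k
  nlinarith [sq_nonneg (yy θ k)]

theorem pf_hs_cy (θ : ℝ) : Continuous (yy θ) := by
  unfold yy; fun_prop

theorem pf_hs_cx (θ : ℝ) : Continuous (xx θ) := by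
  unfold xx; fun_prop

theorem pf_hs_der (θ : ℝ) (k : ℂ) : HasDerivAt (fun t => yy t k) (xx θ k) θ := by
  have h1 := (Real.hasDerivAt_cos θ).const_mul k.re
  have h2 := (Real.hasDerivAt_sin θ).const_mul k.im
  have h3 := h1.add h2
  refine h3.congr_deriv ?_
  simp only [xx]; ring

theorem pf_hs_lip1 (k : ℂ) (θ θ' : ℝ) : |yy θ k - yy θ' k| ≤ ‖k‖ * |θ - θ'| := by
  have := Convex.norm_image_sub_le_of_norm_hasDerivWithin_le (𝕜 := ℝ) (f := fun t => yy t k)
    (f' := fun t => xx t k) (s := Set.univ) (C := ‖k‖) (x := θ') (y := θ)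
    (fun x _ => (pf_hs_der x k).hasDerivWithinAt) (fun x _ => pf_hs_xle x k) convex_univ
    (Set.mem_univ _) (Set.mem_univ _)
  simpa [Real.norm_eq_abs] using this

theorem pf_hs_derw (K : Set ℂ) (θ c : ℝ) (s : Set ℝ)
    (h : ∀ ε > 0, ∀ᶠ x in 𝓝[s] θ,
      |hs K x - (Real.cos (x - θ) * hs K θ + Real.sin (x - θ) * c)| ≤ ε * |x - θ|) :
    HasDerivWithinAt (hs K) c s θ := by
  have hL : HasDerivAt (fun x => Real.cos (x - θ) * hs K θ + Real.sin (x - θ) * c) c θ := by
    have h0 : HasDerivAt (fun x : ℝ => x - θ) 1 θ := (hasDerivAt_id θ).sub_const θ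
    have h1 := (h0.cos.mul_const (hs K θ)).add (h0.sin.mul_const c)
    refine h1.congr_deriv ?_
    simp
  have hD : HasDerivWithinAt
      (fun x => hs K x - (Real.cos (x - θ) * hs K θ + Real.sin (x - θ) * c)) 0 s θ := by
    rw [hasDerivWithinAt_iff_isLittleO, Asymptotics.isLittleO_iff]
    intro ε hε
    filter_upwards [h ε hε] with x hx
    simpa using hx
  have := hD.add hL.hasDerivWithinAt
  have h2 : HasDerivWithinAt (hs K) (0 + c) s θ :=
    this.congr (fun x _ => by simp) (by simp)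
  simpa using h2

theorem pf_hs : S_hs := by
  intro K ρ hK hne hρ
  have hnorm : ∀ k ∈ K, ‖k‖ ≤ ρ := fun k hk => by simpa using hρ hk
  obtain ⟨k0, hk0⟩ := hne
  have hρ0 : 0 ≤ ρ := (norm_nonneg _).trans (hnorm k0 hk0)
  have hface : ∀ θ, (face K θ).Nonempty := by
    intro θ
    obtain ⟨k, hk, hk2⟩ := hK.exists_sSup_image_eq ⟨k0, hk0⟩ (pf_hs_cy θ).continuousOn
    exact ⟨k, hk, hk2.symm⟩
  have hle : ∀ θ, ∀ k ∈ K, yy θ k ≤ hs K θ := fun θ k hk =>
    le_csSup (hK.image (pf_hs_cy θ)).bddAbove ⟨k, hk, rfl⟩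
  have hlip : ∀ x y, hs K x ≤ hs K y + ρ * |x - y| := by
    intro x y
    obtain ⟨k, hk, hk2⟩ := hface x
    rw [← hk2]
    have h1 := pf_hs_lip1 k x y
    have h2 := abs_le.1 h1
    have h3 : ‖k‖ * |x - y| ≤ ρ * |x - y| := by gcongr; exact hnorm k hk
    linarith [hle y k hk]
  have hfc : ∀ θ, IsCompact (face K θ) := by
    intro θ
    have : face K θ = K ∩ {k | yy θ k = hs K θ} := rfl
    rw [this]
    exact hK.inter_right (isClosed_eq (pf_hs_cy θ) continuous_const)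
  have hxple : ∀ θ, ∀ k ∈ face K θ, xx θ k ≤ xp K θ := fun θ k hk =>
    le_csSup ((hfc θ).image (pf_hs_cx θ)).bddAbove ⟨k, hk, rfl⟩
  have hxmle : ∀ θ, ∀ k ∈ face K θ, xm K θ ≤ xx θ k := fun θ k hk =>
    csInf_le ((hfc θ).image (pf_hs_cx θ)).bddBelow ⟨k, hk, rfl⟩
  have hxp : ∀ θ, ∃ k ∈ face K θ, xx θ k = xp K θ := by
    intro θ
    obtain ⟨k, hk, hk2⟩ := (hfc θ).exists_sSup_image_eq (hface θ) (pf_hs_cx θ).continuousOn
    exact ⟨k, hk, hk2.symm⟩
  have hxm : ∀ θ, ∃ k ∈ face K θ, xx θ k = xm K θ := by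
    intro θ
    obtain ⟨k, hk, hk2⟩ := (hfc θ).exists_sInf_image_eq (hface θ) (pf_hs_cx θ).continuousOn
    exact ⟨k, hk, hk2.symm⟩
  -- faces vary upper semicontinuously
  have key : ∀ θ, ∀ C : Set ℂ, IsClosed C → (∀ k ∈ K, k ∈ C → yy θ k < hs K θ) →
      ∃ δ > 0, ∀ x, |x - θ| < δ → ∀ k ∈ face K x, k ∉ C := by
    intro θ C hC hlt
    by_cases hT : (K ∩ C).Nonempty
    · have hTc : IsCompact (K ∩ C) := hK.inter_right hC
      obtain ⟨m, hm, hm2⟩ := hTc.exists_isMaxOn hT (pf_hs_cy θ).continuousOn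
      have hη : 0 < hs K θ - yy θ m := sub_pos.2 (hlt m hm.1 hm.2)
      refine ⟨(hs K θ - yy θ m) / (2 * ρ + 1), by positivity, ?_⟩
      intro x hx k hk hkC
      have h1 := hm2 ⟨hk.1, hkC⟩
      have h1' : yy θ k ≤ yy θ m := h1
      have h2 := abs_le.1 (pf_hs_lip1 k x θ)
      have h3 : ‖k‖ * |x - θ| ≤ ρ * |x - θ| := by gcongr; exact hnorm k hk.1
      have h4 := hlip θ x
      rw [abs_sub_comm θ x] at h4
      have h5 := hk.2
      rw [lt_div_iff₀ (by positivity)] at hx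
      nlinarith [abs_nonneg (x - θ)]
    · refine ⟨1, one_pos, ?_⟩
      intro x _ k hk hkC
      exact hT ⟨k, hk.1, hkC⟩
  refine ⟨hface, hle, ?_, ?_, ?_, ?_, ?_, ?_, hxp, hxm, fun θ k hk => ⟨hxmle θ k hk,
    hxple θ k hk⟩, ?_, ?_⟩
  · intro θ
    obtain ⟨k, hk, hk2⟩ := hface θ
    rw [← hk2]
    exact (pf_hs_yle θ k).trans (hnorm k hk)
  · refine LipschitzWith.of_le_add_mul _ fun x y => ?_
    rw [Real.coe_toNNReal ρ hρ0, Real.dist_eq]
    exact hlip x y
  · intro θ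
    have : yy (θ + 2 * π) = yy θ := by
      funext k
      simp [yy]
    simp only [hs, this]
  · intro θ φ
    obtain ⟨k, hk, hk2⟩ := hface θ
    have h1 := hle (θ + φ) k hk
    have h2 := hle (θ - φ) k hk
    rw [pf_hs_add] at h1
    rw [sub_eq_add_neg, pf_hs_add, Real.cos_neg, Real.sin_neg, ← sub_eq_add_neg] at h2
    rw [hk2] at h1 h2
    linarith
  · intro θ
    refine pf_hs_derw K θ _ _ fun ε hε => ?_
    obtain ⟨δ, hδ, hδ2⟩ := key θ {k | xp K θ + ε ≤ xx θ k}
      (isClosed_le continuous_const (pf_hs_cx θ)) (by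
        intro k hk hkC
        refine lt_of_le_of_ne (hle θ k hk) fun h => ?_
        have := hxple θ k ⟨hk, h⟩
        have h2 : xp K θ + ε ≤ xx θ k := hkC
        linarith)
    have hmem : Ico θ (θ + min δ 1) ∈ 𝓝[Ici θ] θ := by
      refine Ico_mem_nhdsGE ?_
      have : 0 < min δ 1 := lt_min hδ one_pos
      linarith
    filter_upwards [hmem] with x hx
    have hx0 : 0 ≤ x - θ := sub_nonneg.2 hx.1
    have hx1 : x - θ < δ := by linarith [hx.2, min_le_left δ 1]
    have hx2 : x - θ < 1 := by linarith [hx.2, min_le_right δ 1]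
    have hπ := Real.pi_gt_three
    have hsin : 0 ≤ Real.sin (x - θ) :=
      Real.sin_nonneg_of_nonneg_of_le_pi hx0 (by linarith)
    have hcos : 0 ≤ Real.cos (x - θ) :=
      Real.cos_nonneg_of_neg_pi_div_two_le_of_le (by linarith) (by linarith)
    have hsle : Real.sin (x - θ) ≤ x - θ := Real.sin_le hx0
    have hxx : θ + (x - θ) = x := by ring
    obtain ⟨k, hk, hk2⟩ := hxp θ
    have hlow := hle x k hk.1
    rw [← hxx, pf_hs_add, hk2, hk.2, hxx] at hlow
    obtain ⟨l, hl⟩ := hface x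
    have hup := hl.2
    have hlC := hδ2 x (by rw [abs_of_nonneg hx0]; exact hx1) l hl
    have hlx : xx θ l < xp K θ + ε := not_le.1 hlC
    rw [← hxx, pf_hs_add, hxx] at hup
    have hb1 : Real.cos (x - θ) * yy θ l ≤ Real.cos (x - θ) * hs K θ := by
      gcongr; exact hle θ l hl.1
    have hb2 : Real.sin (x - θ) * xx θ l ≤ Real.sin (x - θ) * (xp K θ + ε) := by
      gcongr
    rw [abs_of_nonneg hx0, abs_le]
    constructor
    · nlinarith
    · nlinarith
  · intro θ
    refine pf_hs_derw K θ _ _ fun ε hε => ?_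
    obtain ⟨δ, hδ, hδ2⟩ := key θ {k | xx θ k ≤ xm K θ - ε}
      (isClosed_le (pf_hs_cx θ) continuous_const) (by
        intro k hk hkC
        refine lt_of_le_of_ne (hle θ k hk) fun h => ?_
        have := hxmle θ k ⟨hk, h⟩
        have h2 : xx θ k ≤ xm K θ - ε := hkC
        linarith)
    have hmem : Ioc (θ - min δ 1) θ ∈ 𝓝[Iic θ] θ := by
      refine Ioc_mem_nhdsLE ?_
      have : 0 < min δ 1 := lt_min hδ one_pos
      linarith
    filter_upwards [hmem] with x hx
    have hx0 : x - θ ≤ 0 := sub_nonpos.2 hx.2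
    have hx1 : -(x - θ) < δ := by linarith [hx.1, min_le_left δ 1]
    have hx2 : -(x - θ) < 1 := by linarith [hx.1, min_le_right δ 1]
    have hπ := Real.pi_gt_three
    have hsin : Real.sin (x - θ) ≤ 0 :=
      Real.sin_nonpos_of_nonpos_of_neg_pi_le hx0 (by linarith)
    have hcos : 0 ≤ Real.cos (x - θ) :=
      Real.cos_nonneg_of_neg_pi_div_two_le_of_le (by linarith) (by linarith)
    have hsle : -Real.sin (x - θ) ≤ -(x - θ) := by
      rw [← Real.sin_neg]
      exact Real.sin_le (by linarith)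
    have hxx : θ + (x - θ) = x := by ring
    obtain ⟨k, hk, hk2⟩ := hxm θ
    have hlow := hle x k hk.1
    rw [← hxx, pf_hs_add, hk2, hk.2, hxx] at hlow
    obtain ⟨l, hl⟩ := hface x
    have hup := hl.2
    have hlC := hδ2 x (by rw [abs_of_nonpos hx0]; exact hx1) l hl
    have hlx : xm K θ - ε < xx θ l := not_le.1 hlC
    rw [← hxx, pf_hs_add, hxx] at hup
    have hb1 : Real.cos (x - θ) * yy θ l ≤ Real.cos (x - θ) * hs K θ := by
      gcongr; exact hle θ l hl.1
    have hb2 : Real.sin (x - θ) * xx θ l ≤ Real.sin (x - θ) * (xm K θ - ε) :=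
      mul_le_mul_of_nonpos_left hlx.le hsin
    rw [abs_of_nonpos hx0, abs_le]
    constructor
    · nlinarith
    · nlinarith
  · intro θ
    have hsub : convexHull ℝ K ⊆ {k | yy θ k ≤ hs K θ} := by
      refine convexHull_min (fun k hk => hle θ k hk) ?_
      intro a ha b hb s t hs' ht hst
      have ha' : yy θ a ≤ hs K θ := ha
      have hb' : yy θ b ≤ hs K θ := hb
      change yy θ (s • a + t • b) ≤ hs K θ
      have : yy θ (s • a + t • b) = s * yy θ a + t * yy θ b := by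
        simp only [yy, Complex.add_re, Complex.add_im, Complex.real_smul, Complex.mul_re,
          Complex.mul_im, Complex.ofReal_re, Complex.ofReal_im]
        ring
      rw [this]
      calc s * yy θ a + t * yy θ b ≤ s * hs K θ + t * hs K θ := by gcongr
        _ = hs K θ := by rw [← add_mul, hst, one_mul]
    apply le_antisymm
    · refine csSup_le ⟨_, k0, subset_convexHull ℝ K hk0, rfl⟩ ?_
      rintro _ ⟨k, hk, rfl⟩
      exact hsub hk
    · obtain ⟨k, hk, hk2⟩ := hface θ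
      rw [← hk2]
      refine le_csSup ⟨hs K θ, ?_⟩ ⟨k, subset_convexHull ℝ K hk, rfl⟩
      rintro _ ⟨l, hl, rfl⟩
      exact hsub hl
  · intro h0 θ
    have := hle θ 0 h0
    simpa [yy] using this

end Pool.Agent.H212AN
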