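import Pool.Agent.H212AN.D1

set_option autoImplicit false

namespace Pool.Agent.H212AN

open MeasureTheory Set Filter Topology Metric
open Pool.Agent.H212AN.G (nG PG gm)
open scoped Real ENNReal

theorem pf_int_yy (θ : ℝ) (z : ℂ) : |yy θ z| ≤ ‖z‖ := by
  unfold yy
  refine abs_le_of_sq_le_sq ?_ (norm_nonneg z)
  rw [← Complex.normSq_eq_norm_sq, Complex.normSq_apply]
  have h1 := Real.sin_sq_add_cos_sq θ
  have h2 : (z.re * Real.cos θ + z.im * Real.sin θ) ^ 2 + (z.re * Real.sin θ - z.im * Real.cos θ) ^ 2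
      = (z.re * z.re + z.im * z.im) * (Real.sin θ ^ 2 + Real.cos θ ^ 2) := by ring
  rw [h1, mul_one] at h2
  nlinarith [sq_nonneg (z.re * Real.sin θ - z.im * Real.cos θ)]

theorem pf_int_sub (θ : ℝ) (z w : ℂ) : yy θ z = yy θ w + yy θ (z - w) := by
  simp only [yy, Complex.sub_re, Complex.sub_im]
  ring

theorem pf_int_rg (b : Lo) : IsCompact (rg b) ∧ (rg b).Nonempty ∧ rg b ⊆ closedBall 0 ‖b‖ := by
  refine ⟨isCompact_range b.continuous, range_nonempty _, ?_⟩
  rintro z ⟨t, rfl⟩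
  rw [mem_closedBall_zero_iff]
  exact b.norm_coe_le_norm t

theorem pf_int_hs (h1 : S_hs) (b b' : Lo) (θ : ℝ) : hs (rg b) θ ≤ hs (rg b') θ + ‖b - b'‖ := by
  obtain ⟨k1, k2, k3⟩ := pf_int_rg b'
  obtain ⟨-, hle, -⟩ := h1 (rg b') ‖b'‖ k1 k2 k3
  refine csSup_le ((range_nonempty _).image _) ?_
  rintro y ⟨z, ⟨t, rfl⟩, rfl⟩
  rw [pf_int_sub θ (b t) (b' t)]
  have h2 := hle θ (b' t) ⟨t, rfl⟩
  have h3 := (le_abs_self _).trans (pf_int_yy θ (b t - b' t))
  have h4 := (b - b').norm_coe_le_norm t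
  rw [ContinuousMap.sub_apply] at h4
  linarith

theorem pf_int_per (h1 : S_hs) : Continuous (fun b : Lo => per (rg b)) := by
  have hlip : ∀ b b' : Lo, dist (per (rg b)) (per (rg b')) ≤ (2 * π) * dist b b' := by
    intro b b'
    obtain ⟨k1, k2, k3⟩ := pf_int_rg b
    obtain ⟨l1, l2, l3⟩ := pf_int_rg b'
    obtain ⟨-, -, -, hb, -⟩ := h1 (rg b) ‖b‖ k1 k2 k3
    obtain ⟨-, -, -, hb', -⟩ := h1 (rg b') ‖b'‖ l1 l2 l3
    unfold per
    rw [Real.dist_eq, ← intervalIntegral.integral_sub (hb.continuous.intervalIntegrable _ _)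
      (hb'.continuous.intervalIntegrable _ _)]
    have h2 := intervalIntegral.norm_integral_le_of_norm_le_const (a := (0 : ℝ)) (b := 2 * π)
      (f := fun θ => hs (rg b) θ - hs (rg b') θ) (C := ‖b - b'‖) (fun θ _ => by
        rw [Real.norm_eq_abs, abs_le]
        have g1 := pf_int_hs h1 b b' θ
        have g2 := pf_int_hs h1 b' b θ
        rw [norm_sub_rev] at g2
        constructor <;> linarith)
    rw [sub_zero, abs_of_pos Real.two_pi_pos] at h2
    rw [dist_eq_norm]
    rw [Real.norm_eq_abs] at h2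
    linarith
  have hL : LipschitzWith (Real.toNNReal (2 * π)) (fun b : Lo => per (rg b)) :=
    LipschitzWith.of_dist_le_mul fun b b' => by
      rw [Real.coe_toNNReal _ Real.two_pi_pos.le]
      exact hlip b b'
  exact hL.continuous

theorem pf_int_FK (R : ℝ) : Measurable (fun b : Lo => FK (rg b) R) := by
  have hcl : IsClosed {p : Lo × ℂ | ∀ t : unitInterval, ‖p.2 + p.1 t‖ ≤ R} := by
    rw [show {p : Lo × ℂ | ∀ t : unitInterval, ‖p.2 + p.1 t‖ ≤ R} =
      ⋂ t : unitInterval, {p : Lo × ℂ | ‖p.2 + p.1 t‖ ≤ R} by ext p; simp]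
    refine isClosed_iInter fun t => ?_
    have h1 : Continuous (fun p : Lo × ℂ => p.1 t) := (continuous_eval_const t).comp continuous_fst
    exact isClosed_le ((continuous_snd.add h1).norm) continuous_const
  have hm := measurable_measure_prodMk_left (ν := (volume : Measure ℂ)) hcl.measurableSet
  have he : (fun b : Lo => FK (rg b) R) = fun b : Lo =>
      (volume (Prod.mk b ⁻¹' {p : Lo × ℂ | ∀ t : unitInterval, ‖p.2 + p.1 t‖ ≤ R})).toReal := by
    funext b
    unfold FK er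
    congr 2
    ext z
    constructor
    · intro h t
      exact h _ ⟨t, rfl⟩
    · rintro h _ ⟨t, rfl⟩
      exact h t
  rw [he]
  exact hm.ennreal_toReal

theorem pf_int_good {b : Lo} (hb : b 0 = 0) : Good (rg b) (‖b‖ + 1) := by
  obtain ⟨k1, k2, k3⟩ := pf_int_rg b
  refine ⟨k1, ⟨0, hb⟩, k3.trans (closedBall_subset_closedBall (by linarith))⟩

theorem pf_int_nat {f : ℝ → ℝ} {l : ℝ} (h : Tendsto (fun R : ℝ => R * f R) atTop (𝓝 l)) :
    Tendsto f atTop (𝓝 0) := by
  have h2 : Tendsto (fun R : ℝ => R⁻¹ * (R * f R)) atTop (𝓝 (0 * l)) :=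
    tendsto_inv_atTop_zero.mul h
  rw [zero_mul] at h2
  refine h2.congr' ?_
  filter_upwards [eventually_gt_atTop (0 : ℝ)] with R hR
  field_simp

theorem pf_int (h1 : S_hs) (h2 : S_F) (h3 : S_ls) (h4 : S_mom) (h5 : S_end) : S_int := by
  intro μ hμ
  have := hμ.prob
  obtain ⟨C2, hF⟩ := h2
  obtain ⟨C3, hls⟩ := h3
  have hend := h5 μ hμ
  have hperm := (pf_int_per h1).measurable
  have hn1 : Integrable (fun b : Lo => ‖b‖) μ := by simpa using h4 μ hμ 1
  have hn2 := h4 μ hμ 2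
  have hn3 := h4 μ hμ 3
  -- measurability of the area
  have hlim : ∀ᵐ b ∂μ, Tendsto (fun n : ℕ => FK (rg b) n - π * (n : ℝ) ^ 2 + n * per (rg b)) atTop
      (𝓝 (ar2 (rg b))) := by
    filter_upwards [hend] with b hb
    have g1 := pf_int_nat (hF (rg b) (‖b‖ + 1) (pf_int_good hb.1) (by positivity)).1
    have g2 := (g1.comp tendsto_natCast_atTop_atTop).add_const (ar2 (rg b))
    rw [zero_add] at g2
    refine g2.congr fun n => ?_
    simp only [Function.comp]
    ring
  have har : AEMeasurable (fun b : Lo => ar2 (rg b)) μ := by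
    refine aemeasurable_of_tendsto_metrizable_ae atTop (f := fun (n : ℕ) (b : Lo) =>
      FK (rg b) n - π * (n : ℝ) ^ 2 + n * per (rg b)) (fun n => ?_) hlim
    exact (((pf_int_FK n).sub_const _).add (hperm.const_mul _)).aemeasurable
  have hGG : AEMeasurable (fun b : Lo => (GG (rg b)).toReal) μ := by
    refine aemeasurable_of_tendsto_metrizable_ae atTop (f := fun (n : ℕ) (b : Lo) =>
      24 * ((n : ℝ) * (FK (rg b) n - (π * (n : ℝ) ^ 2 - n * per (rg b) + ar2 (rg b)))))
      (fun n => ?_) ?_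
    · refine AEMeasurable.const_mul (AEMeasurable.const_mul ?_ _) _
      refine (pf_int_FK n).aemeasurable.sub (AEMeasurable.add ?_ har)
      exact ((hperm.const_mul (n : ℝ)).const_sub (π * (n : ℝ) ^ 2)).aemeasurable
    · filter_upwards [hend] with b hb
      have g1 := (hF (rg b) (‖b‖ + 1) (pf_int_good hb.1) (by positivity)).1
      have g2 := (g1.comp tendsto_natCast_atTop_atTop).const_mul 24
      have e : 24 * ((GG (rg b)).toReal / 24) = (GG (rg b)).toReal := by ring
      rw [e] at g2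
      exact g2
  refine ⟨?_, ?_, ?_⟩
  · refine Integrable.mono' (hn1.const_mul (2 * π)) hperm.aestronglyMeasurable ?_
    refine Eventually.of_forall fun b => ?_
    obtain ⟨k1, k2, k3⟩ := pf_int_rg b
    obtain ⟨-, -, hb, -⟩ := h1 (rg b) ‖b‖ k1 k2 k3
    have g := intervalIntegral.norm_integral_le_of_norm_le_const (a := (0 : ℝ)) (b := 2 * π)
      (f := fun θ => hs (rg b) θ) (C := ‖b‖) (fun θ _ => by
        rw [Real.norm_eq_abs]
        exact hb θ)
    rw [sub_zero, abs_of_pos Real.two_pi_pos] at g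
    unfold per
    linarith
  · refine Integrable.mono' (hn2.const_mul (2 * π)) har.aestronglyMeasurable ?_
    refine Eventually.of_forall fun b => ?_
    obtain ⟨k1, k2, k3⟩ := pf_int_rg b
    obtain ⟨-, -, hb, hlip, -⟩ := h1 (rg b) ‖b‖ k1 k2 k3
    have g := intervalIntegral.norm_integral_le_of_norm_le_const (a := (0 : ℝ)) (b := 2 * π)
      (f := fun θ => hs (rg b) θ ^ 2 - deriv (hs (rg b)) θ ^ 2) (C := 2 * ‖b‖ ^ 2) (fun θ _ => by
        have f1 : hs (rg b) θ ^ 2 ≤ ‖b‖ ^ 2 := by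
          rw [← sq_abs]
          exact pow_le_pow_left₀ (abs_nonneg _) (hb θ) 2
        have f2 : deriv (hs (rg b)) θ ^ 2 ≤ ‖b‖ ^ 2 := by
          have f3 := norm_deriv_le_of_lipschitz (x₀ := θ) hlip
          rw [Real.coe_toNNReal _ (norm_nonneg b), Real.norm_eq_abs] at f3
          rw [← sq_abs]
          exact pow_le_pow_left₀ (abs_nonneg _) f3 2
        rw [Real.norm_eq_abs, abs_le]
        constructor <;> nlinarith [sq_nonneg (hs (rg b) θ), sq_nonneg (deriv (hs (rg b)) θ)])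
    rw [sub_zero, abs_of_pos Real.two_pi_pos] at g
    unfold ar2
    rw [norm_mul]
    have e : ‖(1 / 2 : ℝ)‖ = 1 / 2 := by
      rw [Real.norm_eq_abs, abs_of_pos (by norm_num)]
    rw [e]
    linarith
  · have hbd : Integrable (fun b : Lo => C3 * (‖b‖ + 1) ^ 3) μ := by
      have e : (fun b : Lo => C3 * (‖b‖ + 1) ^ 3) = fun b : Lo =>
          C3 * (‖b‖ ^ 3 + (3 * ‖b‖ ^ 2 + (3 * ‖b‖ + 1))) := by
        funext b
        ring
      rw [e]
      exact (hn3.add ((hn2.const_mul 3).add ((hn1.const_mul 3).add (integrable_const 1)))).const_mul C3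
    refine Integrable.mono' hbd hGG.aestronglyMeasurable ?_
    filter_upwards [hend] with b hb
    have g1 := (hls (rg b) (‖b‖ + 1) (pf_int_good hb.1) (by positivity)).2.1
    rw [Real.norm_eq_abs, abs_of_nonneg ENNReal.toReal_nonneg]
    exact g1

end Pool.Agent.H212AN
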