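import Pool.Agent.H212AN.D2

set_option autoImplicit false

namespace Pool.Agent.H212AN

open MeasureTheory Set Filter Topology Metric
open Pool.Agent.W594.AN (ClosedCurve)
open scoped Real ENNReal ComplexConjugate

/-- injectivity modulo the length -/
theorem pf_jp_inj (c : ClosedCurve) (a b : ℝ) (h : c.γ a = c.γ b) (hab : |a - b| < c.L) : a = b := by
  have hL := c.L_pos
  have h1 : ∀ x : ℝ, c.γ (toIcoMod hL 0 x) = c.γ x := fun x => by
    rw [← self_sub_toIcoDiv_zsmul]
    exact c.periodic.sub_zsmul_eq _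
  have h2 : toIcoMod hL 0 a = toIcoMod hL 0 b := by
    apply c.injOn
    · have := toIcoMod_mem_Ico hL 0 a
      rwa [zero_add] at this
    · have := toIcoMod_mem_Ico hL 0 b
      rwa [zero_add] at this
    · rw [h1, h1, h]
  have ha := self_sub_toIcoDiv_zsmul hL 0 a
  have hb := self_sub_toIcoDiv_zsmul hL 0 b
  rw [zsmul_eq_mul] at ha hb
  have h3 : a - b = ((toIcoDiv hL 0 a - toIcoDiv hL 0 b : ℤ) : ℝ) * c.L := by
    push_cast
    linarith
  have h4 : toIcoDiv hL 0 a - toIcoDiv hL 0 b = 0 := by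
    by_contra hne
    have h5 : (1 : ℝ) ≤ |((toIcoDiv hL 0 a - toIcoDiv hL 0 b : ℤ) : ℝ)| := by
      have := Int.one_le_abs hne
      exact_mod_cast this
    rw [h3, abs_mul, abs_of_pos hL] at hab
    nlinarith
  rw [h4] at h3
  simp at h3
  linarith

theorem pf_jp_log_pos {x : ℂ} (hx : 0 < x.im) : Complex.log x - Complex.log (-x) = π * Complex.I := by
  rw [Complex.log, Complex.log, norm_neg, Complex.arg_neg_eq_arg_sub_pi_of_im_pos hx]
  push_cast
  ring

theorem pf_jp_log_neg {x : ℂ} (hx : x.im < 0) : Complex.log (-x) - Complex.log x = π * Complex.I := by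
  rw [Complex.log, Complex.log, norm_neg, Complex.arg_neg_eq_arg_add_pi_of_im_neg hx]
  push_cast
  ring

theorem pf_jp : S_jp := by
  intro c s
  have hL := c.L_pos
  set T : ℂ := deriv c.γ s with hTdef
  have hTn : ‖T‖ = 1 := c.unit_speed s
  have hT0 : T ≠ 0 := by
    intro h
    rw [h, norm_zero] at hTn
    exact zero_ne_one hTn
  set w : ℝ → ℂ := fun σ => (c.γ σ - c.γ s) / T with hw
  have hwd : ∀ σ, HasDerivAt w (deriv c.γ σ / T) σ := fun σ => ((c.hasDerivAt σ).sub_const _).div_const T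
  have hws : w s = 0 := by simp [hw]
  have hwγ : ∀ σ, c.γ σ - c.γ s = T * w σ := by
    intro σ
    simp only [hw]
    field_simp
  have hre : HasDerivAt (fun σ => (w σ).re) 1 s := by
    have h := Complex.reCLM.hasFDerivAt.comp_hasDerivAt s (hwd s)
    have e : Complex.reCLM (deriv c.γ s / T) = 1 := by
      rw [← hTdef, div_self hT0]; rfl
    rw [e] at h
    exact h
  have hev : ∀ᶠ σ in 𝓝[≠] s, 0 < slope (fun σ => (w σ).re) s σ :=
    (hasDerivAt_iff_tendsto_slope.mp hre).eventually (lt_mem_nhds one_pos)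
  rw [eventually_nhdsWithin_iff, Metric.eventually_nhds_iff] at hev
  obtain ⟨ε, hε, hslope⟩ := hev
  set δ : ℝ := min (ε / 2) (c.L / 4) with hδdef
  have hδ0 : 0 < δ := lt_min (by linarith) (by linarith)
  have hδε : δ < ε := lt_of_le_of_lt (min_le_left _ _) (by linarith)
  have hδL : δ ≤ c.L / 4 := min_le_right _ _
  have hsl : ∀ σ, |σ - s| ≤ δ → σ ≠ s → 0 < (w σ).re / (σ - s) := by
    intro σ h1 h2
    have h3 := hslope (y := σ) (by rw [Real.dist_eq]; linarith) h2
    rw [slope_def_field, hws, Complex.zero_re, sub_zero] at h3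
    exact h3
  have hpos : ∀ σ, s < σ → σ ≤ s + δ → 0 < (w σ).re := by
    intro σ h1 h2
    have h3 := hsl σ (by rw [abs_of_pos (by linarith)]; linarith) (ne_of_gt h1)
    have h4 : 0 < σ - s := by linarith
    have h5 := mul_pos h3 h4
    rwa [div_mul_cancel₀ _ h4.ne'] at h5
  have hneg : ∀ σ, s - δ ≤ σ → σ < s → (w σ).re < 0 := by
    intro σ h1 h2
    have h3 := hsl σ (by rw [abs_of_neg (by linarith)]; linarith) (ne_of_lt h2)
    have h4 : σ - s < 0 := by linarith
    have h5 := mul_neg_of_pos_of_neg h3 h4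
    rwa [div_mul_cancel₀ _ h4.ne] at h5
  -- the two directions
  have hslit : ∀ e : ℂ, (e = Complex.I ∨ e = -Complex.I) → ∀ u : ℝ, 0 < u → ∀ σ, s - δ ≤ σ → σ ≤ s + δ →
      e * w σ + (u : ℂ) ∈ Complex.slitPlane := by
    intro e he u hu σ h1 h2
    rw [Complex.mem_slitPlane_iff]
    rcases lt_trichotomy σ s with h | h | h
    · right
      have h3 := hneg σ h1 h
      rcases he with rfl | rfl
      · simp; exact h3.ne
      · simp; exact h3.ne
    · left
      rw [h, hws]
      simp [hu]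
    · right
      have h3 := hpos σ h h2
      rcases he with rfl | rfl
      · simp; exact h3.ne'
      · simp; exact h3.ne'
  have hee : ∀ e : ℂ, (e = Complex.I ∨ e = -Complex.I) → e * e = -1 := by
    intro e he
    rcases he with rfl | rfl
    · exact Complex.I_mul_I
    · rw [neg_mul_neg]; exact Complex.I_mul_I
  have he0 : ∀ e : ℂ, (e = Complex.I ∨ e = -Complex.I) → e ≠ 0 := by
    intro e he h0
    have := hee e he
    rw [h0] at this
    simp at this
  have hden : ∀ e : ℂ, (e = Complex.I ∨ e = -Complex.I) → ∀ (u σ : ℝ),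
      e * (c.γ σ - (c.γ s + e * (u : ℂ) * T)) = T * (e * w σ + u) := by
    intro e he u σ
    have h1 := hee e he
    have h2 := hwγ σ
    calc e * (c.γ σ - (c.γ s + e * (u : ℂ) * T)) = e * (c.γ σ - c.γ s) - (e * e) * u * T := by ring
      _ = T * (e * w σ + u) := by rw [h1, h2]; ring
  have hcont : ∀ (z : ℂ) (a b : ℝ), (∀ σ ∈ uIcc a b, c.γ σ - z ≠ 0) →
      IntervalIntegrable (fun σ => deriv c.γ σ / (c.γ σ - z)) volume a b := by
    intro z a b h
    apply ContinuousOn.intervalIntegrable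
    exact (c.cont'.continuousOn).div ((c.cont.sub continuous_const).continuousOn) h
  have hnz1 : ∀ e : ℂ, (e = Complex.I ∨ e = -Complex.I) → ∀ u : ℝ, 0 < u → ∀ σ ∈ uIcc (s - δ) (s + δ),
      c.γ σ - (c.γ s + e * (u : ℂ) * T) ≠ 0 := by
    intro e he u hu σ hσ h0
    rw [uIcc_of_le (by linarith)] at hσ
    have h1 := hden e he u σ
    rw [h0, mul_zero] at h1
    have h2 := Complex.slitPlane_ne_zero (hslit e he u hu σ hσ.1 hσ.2)
    exact mul_ne_zero hT0 h2 h1.symm
  have hnear : ∀ e : ℂ, (e = Complex.I ∨ e = -Complex.I) → ∀ u : ℝ, 0 < u →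
      ∫ σ in (s - δ)..(s + δ), deriv c.γ σ / (c.γ σ - (c.γ s + e * (u : ℂ) * T))
        = Complex.log (e * w (s + δ) + u) - Complex.log (e * w (s - δ) + u) := by
    intro e he u hu
    refine intervalIntegral.integral_eq_sub_of_hasDerivAt (f := fun σ => Complex.log (e * w σ + u)) ?_
      (hcont _ _ _ (hnz1 e he u hu))
    intro σ hσ
    have hσ' := hσ
    rw [uIcc_of_le (by linarith)] at hσ'
    have h1 : HasDerivAt (fun σ => e * w σ + (u : ℂ)) (e * (deriv c.γ σ / T)) σ :=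
      ((hwd σ).const_mul e).add_const _
    have h2 := h1.clog_real (hslit e he u hu σ hσ'.1 hσ'.2)
    have h3 := hden e he u σ
    have h4 := hnz1 e he u hu σ hσ
    have h5 := Complex.slitPlane_ne_zero (hslit e he u hu σ hσ'.1 hσ'.2)
    have h6 : e * (deriv c.γ σ / T) / (e * w σ + (u : ℂ)) = deriv c.γ σ / (c.γ σ - (c.γ s + e * (u : ℂ) * T)) := by
      rw [div_eq_div_iff h5 h4]
      have h7 : e * (deriv c.γ σ / T) * (c.γ σ - (c.γ s + e * (u : ℂ) * T))
          = (deriv c.γ σ / T) * (e * (c.γ σ - (c.γ s + e * (u : ℂ) * T))) := by ring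
      rw [h7, h3]
      field_simp
    rw [h6] at h2
    exact h2
  -- the far part
  obtain ⟨m, hm0, hm⟩ : ∃ m > 0, ∀ σ ∈ Icc (s + δ) (s + c.L - δ), m ≤ ‖c.γ σ - c.γ s‖ := by
    obtain ⟨σ₀, hσ₀, hmin⟩ := (isCompact_Icc (a := s + δ) (b := s + c.L - δ)).exists_isMinOn
      (nonempty_Icc.mpr (by linarith)) (f := fun σ => ‖c.γ σ - c.γ s‖)
      ((c.cont.sub continuous_const).norm.continuousOn)
    refine ⟨‖c.γ σ₀ - c.γ s‖, ?_, fun σ hσ => hmin hσ⟩
    rw [gt_iff_lt, norm_pos_iff, sub_ne_zero]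
    intro h
    have h1 := pf_jp_inj c σ₀ s h (by rw [abs_of_pos (by linarith [hσ₀.1])]; linarith [hσ₀.2])
    linarith [hσ₀.1]
  have hnorme : ∀ e : ℂ, (e = Complex.I ∨ e = -Complex.I) → ‖e‖ = 1 := by
    intro e he
    rcases he with rfl | rfl
    · exact Complex.norm_I
    · rw [norm_neg]; exact Complex.norm_I
  have hfar : ∀ e : ℂ, (e = Complex.I ∨ e = -Complex.I) → ∀ u : ℝ, 0 < u → u < m / 2 →
      ∀ σ ∈ Icc (s + δ) (s + c.L - δ), m / 2 ≤ ‖c.γ σ - (c.γ s + e * (u : ℂ) * T)‖ := by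
    intro e he u hu hum σ hσ
    have h1 := hm σ hσ
    have h2 : ‖e * (u : ℂ) * T‖ = u := by
      rw [norm_mul, norm_mul, hnorme e he, hTn, Complex.norm_real, Real.norm_eq_abs, abs_of_pos hu]; ring
    have h3 : c.γ σ - c.γ s = (c.γ σ - (c.γ s + e * (u : ℂ) * T)) + e * (u : ℂ) * T := by ring
    rw [h3] at h1
    have h4 := norm_add_le (c.γ σ - (c.γ s + e * (u : ℂ) * T)) (e * (u : ℂ) * T)
    rw [h2] at h4
    linarith
  have hnz2 : ∀ e : ℂ, (e = Complex.I ∨ e = -Complex.I) → ∀ u : ℝ, 0 < u → u < m / 2 →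
      ∀ σ ∈ uIcc (s + δ) (s + c.L - δ), c.γ σ - (c.γ s + e * (u : ℂ) * T) ≠ 0 := by
    intro e he u hu hum σ hσ h0
    rw [uIcc_of_le (by linarith)] at hσ
    have h1 := hfar e he u hu hum σ hσ
    rw [h0, norm_zero] at h1
    linarith
  -- the winding numbers
  have hwdz : ∀ e : ℂ, (e = Complex.I ∨ e = -Complex.I) → ∀ u : ℝ, 0 < u → u < m / 2 →
      wd c (c.γ s + e * (u : ℂ) * T) = (2 * π * Complex.I)⁻¹ *
        ((Complex.log (e * w (s + δ) + u) - Complex.log (e * w (s - δ) + u)) +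
          ∫ σ in (s + δ)..(s + c.L - δ), deriv c.γ σ / (c.γ σ - (c.γ s + e * (u : ℂ) * T))) := by
    intro e he u hu hum
    rw [wd]
    congr 1
    have hper : Function.Periodic (fun σ => deriv c.γ σ / (c.γ σ - (c.γ s + e * (u : ℂ) * T))) c.L := by
      intro σ
      show deriv c.γ (σ + c.L) / (c.γ (σ + c.L) - _) = _
      rw [c.periodic σ, c.periodic' σ]
    have h1 := hper.intervalIntegral_add_eq 0 (s - δ)
    rw [zero_add] at h1
    rw [h1, show s - δ + c.L = s + c.L - δ by ring,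
      ← intervalIntegral.integral_add_adjacent_intervals (hcont _ _ _ (hnz1 e he u hu))
        (hcont _ _ _ (hnz2 e he u hu hum)), hnear e he u hu]
  -- the limit of the near part
  have hApos : 0 < (w (s + δ)).re := hpos _ (by linarith) le_rfl
  have hBneg : (w (s - δ)).re < 0 := hneg _ le_rfl (by linarith)
  have hlim1 : ∀ (e : ℂ) (σ : ℝ), (e = Complex.I ∨ e = -Complex.I) → (w σ).re ≠ 0 →
      Tendsto (fun u : ℝ => Complex.log (e * w σ + (u : ℂ))) (𝓝[>] 0) (𝓝 (Complex.log (e * w σ))) := by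
    intro e σ he hσ
    have hmem : e * w σ ∈ Complex.slitPlane := by
      rw [Complex.mem_slitPlane_iff]
      right
      rcases he with rfl | rfl
      · simp; exact hσ
      · simp; exact hσ
    have h1 : Tendsto (fun u : ℝ => e * w σ + (u : ℂ)) (𝓝[>] 0) (𝓝 (e * w σ)) := by
      have h2 : Continuous (fun u : ℝ => e * w σ + (u : ℂ)) := by fun_prop
      have h3 := h2.tendsto 0
      simp only [Complex.ofReal_zero, add_zero] at h3
      exact h3.mono_left nhdsWithin_le_nhds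
    exact (continuousAt_clog hmem).tendsto.comp h1
  have hIm : Complex.I = Complex.I ∨ Complex.I = -Complex.I := Or.inl rfl
  have hIm' : -Complex.I = Complex.I ∨ -Complex.I = -Complex.I := Or.inr rfl
  have hlimN : Tendsto (fun u : ℝ =>
      (Complex.log (Complex.I * w (s + δ) + u) - Complex.log (Complex.I * w (s - δ) + u)) -
      (Complex.log (-Complex.I * w (s + δ) + u) - Complex.log (-Complex.I * w (s - δ) + u))) (𝓝[>] 0)
      (𝓝 (2 * π * Complex.I)) := by
    have h1 := ((hlim1 _ (s + δ) hIm hApos.ne').sub (hlim1 _ (s - δ) hIm hBneg.ne)).sub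
      ((hlim1 _ (s + δ) hIm' hApos.ne').sub (hlim1 _ (s - δ) hIm' hBneg.ne))
    have h2 := pf_jp_log_pos (x := Complex.I * w (s + δ)) (by simpa using hApos)
    have h3 := pf_jp_log_neg (x := Complex.I * w (s - δ)) (by simpa using hBneg)
    have h4 : Complex.log (Complex.I * w (s + δ)) - Complex.log (Complex.I * w (s - δ)) -
        (Complex.log (-Complex.I * w (s + δ)) - Complex.log (-Complex.I * w (s - δ))) = 2 * π * Complex.I := by
      rw [neg_mul, neg_mul]
      linear_combination h2 + h3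
    rw [h4] at h1
    exact h1
  -- the limit of the far part
  have hlimF : Tendsto (fun u : ℝ =>
      (∫ σ in (s + δ)..(s + c.L - δ), deriv c.γ σ / (c.γ σ - (c.γ s + Complex.I * (u : ℂ) * T))) -
      ∫ σ in (s + δ)..(s + c.L - δ), deriv c.γ σ / (c.γ σ - (c.γ s + -Complex.I * (u : ℂ) * T))) (𝓝[>] 0)
      (𝓝 0) := by
    refine squeeze_zero_norm' (a := fun u : ℝ => (8 / m ^ 2 * u) * |(s + c.L - δ) - (s + δ)|) ?_ ?_
    · have hmem : Ioo (0 : ℝ) (m / 2) ∈ 𝓝[>] (0 : ℝ) := Ioo_mem_nhdsGT (by linarith)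
      filter_upwards [hmem] with u hu
      rw [← intervalIntegral.integral_sub (hcont _ _ _ (hnz2 _ hIm u hu.1 hu.2))
        (hcont _ _ _ (hnz2 _ hIm' u hu.1 hu.2))]
      refine intervalIntegral.norm_integral_le_of_norm_le_const fun σ hσ => ?_
      rw [uIoc_of_le (by linarith)] at hσ
      have hσ' : σ ∈ Icc (s + δ) (s + c.L - δ) := Ioc_subset_Icc_self hσ
      have hσ'' : σ ∈ uIcc (s + δ) (s + c.L - δ) := by rw [uIcc_of_le (by linarith)]; exact hσ'
      have a1 := hfar _ hIm u hu.1 hu.2 σ hσ'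
      have a2 := hfar _ hIm' u hu.1 hu.2 σ hσ'
      have b1 := hnz2 _ hIm u hu.1 hu.2 σ hσ''
      have b2 := hnz2 _ hIm' u hu.1 hu.2 σ hσ''
      rw [div_sub_div _ _ b1 b2, norm_div, norm_mul (c.γ σ - _)]
      have e1 : deriv c.γ σ * (c.γ σ - (c.γ s + -Complex.I * (u : ℂ) * T)) -
          (c.γ σ - (c.γ s + Complex.I * (u : ℂ) * T)) * deriv c.γ σ = 2 * Complex.I * (u : ℂ) * T * deriv c.γ σ := by
        ring
      have e2 : ‖(2 : ℂ) * Complex.I * (u : ℂ) * T * deriv c.γ σ‖ = 2 * u := by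
        rw [norm_mul, norm_mul, norm_mul, norm_mul, c.unit_speed σ, hTn, Complex.norm_I, Complex.norm_real,
          Real.norm_eq_abs, abs_of_pos hu.1]
        norm_num
      rw [e1, e2, div_le_iff₀ (by positivity)]
      have h5 : (m / 2) * (m / 2) ≤ ‖c.γ σ - (c.γ s + Complex.I * (u : ℂ) * T)‖ *
          ‖c.γ σ - (c.γ s + -Complex.I * (u : ℂ) * T)‖ :=
        mul_le_mul a1 a2 (by linarith) (norm_nonneg _)
      calc 2 * u = 8 / m ^ 2 * u * ((m / 2) * (m / 2)) := by field_simp; ring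
        _ ≤ _ := mul_le_mul_of_nonneg_left h5 (by have := hu.1; positivity)
    · have h1 : Continuous (fun u : ℝ => (8 / m ^ 2 * u) * |(s + c.L - δ) - (s + δ)|) := by fun_prop
      have h2 := h1.tendsto 0
      simp only [mul_zero, zero_mul] at h2
      exact h2.mono_left nhdsWithin_le_nhds
  -- conclusion
  have htot := (hlimN.add hlimF).const_mul ((2 * π * Complex.I)⁻¹ : ℂ)
  have h2pi : (2 * π * Complex.I : ℂ) ≠ 0 := by
    simp [Real.pi_ne_zero]
  rw [add_zero, inv_mul_cancel₀ h2pi] at htot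
  refine htot.congr' ?_
  have hmem : Ioo (0 : ℝ) (m / 2) ∈ 𝓝[>] (0 : ℝ) := Ioo_mem_nhdsGT (by linarith)
  filter_upwards [hmem] with u hu
  have p1 : Ps c s u = c.γ s + Complex.I * (u : ℂ) * T := rfl
  have p2 : Ps c s (-u) = c.γ s + -Complex.I * (u : ℂ) * T := by
    rw [Ps, ← hTdef]
    push_cast
    ring
  rw [p1, p2, hwdz _ hIm u hu.1 hu.2, hwdz _ hIm' u hu.1 hu.2]
  ring

end Pool.Agent.H212AN
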