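import Pool.Agent.H212AN.D2

set_option autoImplicit false

namespace Pool.Agent.H212AN

open MeasureTheory Set Filter Topology Metric
open Pool.Agent.W594.AN (ClosedCurve)
open scoped Real ENNReal ComplexConjugate

theorem pf_lg_mv {f f' : ℝ → ℂ} (hf : ∀ t, HasDerivAt f (f' t) t) (h0 : f 0 = 0) {M : ℝ}
    (hM : 0 ≤ M) {k : ℕ} (hb : ∀ t, ‖f' t‖ ≤ M * |t| ^ k) (σ : ℝ) :
    ‖f σ‖ ≤ M * |σ| ^ (k + 1) := by
  have h := Convex.norm_image_sub_le_of_norm_hasDerivWithin_le (f := f) (f' := f')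
    (C := M * |σ| ^ k) (s := uIcc 0 σ) (x := 0) (y := σ)
    (fun t _ => (hf t).hasDerivWithinAt) (fun t ht => ?_) (convex_uIcc 0 σ) left_mem_uIcc
    right_mem_uIcc
  · rw [h0, sub_zero, sub_zero, Real.norm_eq_abs] at h
    calc ‖f σ‖ ≤ M * |σ| ^ k * |σ| := h
      _ = _ := by ring
  · have h1 : |t| ≤ |σ| := by simpa using abs_sub_left_of_mem_uIcc ht
    exact (hb t).trans (mul_le_mul_of_nonneg_left (pow_le_pow_left₀ (abs_nonneg _) h1 k) hM)

theorem pf_lg_per {f : ℝ → ℂ} {L : ℝ} (hf : Function.Periodic f L) :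
    Function.Periodic (deriv f) L := by
  intro s
  have h : f = fun x => f (x + L) := by
    funext x; exact (hf x).symm
  conv_rhs => rw [h]
  rw [deriv_comp_add_const]

theorem pf_lg_per' {f : ℝ → ℝ} {L : ℝ} (hf : Function.Periodic f L) :
    Function.Periodic (deriv f) L := by
  intro s
  have h : f = fun x => f (x + L) := by
    funext x; exact (hf x).symm
  conv_rhs => rw [h]
  rw [deriv_comp_add_const]

theorem pf_lg_smooth3 (c : ClosedCurve) : ContDiff ℝ (⊤ : ℕ∞) (deriv (deriv (deriv c.γ))) := by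
  have := c.smooth''
  rw [contDiff_infty_iff_deriv] at this
  exact this.2

theorem pf_lg_smooth4 (c : ClosedCurve) :
    ContDiff ℝ (⊤ : ℕ∞) (deriv (deriv (deriv (deriv c.γ)))) := by
  have := pf_lg_smooth3 c
  rw [contDiff_infty_iff_deriv] at this
  exact this.2

theorem pf_lg_curv (c : ClosedCurve) : ContDiff ℝ (⊤ : ℕ∞) c.curvature := by
  have h1 : ContDiff ℝ (⊤ : ℕ∞) (fun s => conj (deriv c.γ s) * deriv (deriv c.γ) s) :=
    (Complex.conjCLE.contDiff.comp c.smooth').mul c.smooth''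
  exact Complex.imCLM.contDiff.comp h1

theorem pf_lg_curvd (c : ClosedCurve) (s : ℝ) :
    HasDerivAt c.curvature (deriv c.curvature s) s :=
  (((pf_lg_curv c).differentiable (by simp)) s).hasDerivAt

theorem pf_lg_third (c : ClosedCurve) (s : ℝ) : deriv (deriv (deriv c.γ)) s =
    (Complex.I * ((deriv c.curvature s : ℝ) : ℂ) - (c.curvature s : ℂ) ^ 2) * deriv c.γ s := by
  have h1 : deriv (deriv c.γ) = fun s => Complex.I * (c.curvature s : ℂ) * deriv c.γ s :=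
    funext c.second
  have h2 : HasDerivAt (fun s => Complex.I * (c.curvature s : ℂ) * deriv c.γ s)
      (Complex.I * ((deriv c.curvature s : ℝ) : ℂ) * deriv c.γ s +
        Complex.I * (c.curvature s : ℂ) * deriv (deriv c.γ) s) s :=
    ((pf_lg_curvd c s).ofReal_comp.const_mul Complex.I).mul (c.hasDerivAt' s)
  have h3 : deriv (deriv (deriv c.γ)) s = Complex.I * ((deriv c.curvature s : ℝ) : ℂ) * deriv c.γ s +
        Complex.I * (c.curvature s : ℂ) * deriv (deriv c.γ) s := by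
    conv_lhs => rw [h1]
    exact h2.deriv
  rw [h3, c.second]
  have : Complex.I * Complex.I = -1 := Complex.I_mul_I
  linear_combination ((c.curvature s : ℂ) ^ 2 * deriv c.γ s) * this

theorem pf_lg_bdd {E : Type} [NormedAddCommGroup E] {f : ℝ → E} {L : ℝ} (hL : 0 < L)
    (hf : Function.Periodic f L) (hc : Continuous f) : ∃ M : ℝ, 0 ≤ M ∧ ∀ s, ‖f s‖ ≤ M := by
  obtain ⟨M, hM⟩ := (hf.isBounded_of_continuous hL.ne' hc).exists_norm_le
  exact ⟨M, (norm_nonneg _).trans (hM (f 0) ⟨0, rfl⟩), fun s => hM _ ⟨s, rfl⟩⟩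

/-- separation -/
theorem pf_lg_sep (c : ClosedCurve) (δ : ℝ) (hδ : 0 < δ) : ∃ η : ℝ, 0 < η ∧ ∀ s s' : ℝ,
    ‖c.γ s' - c.γ s‖ < η → ∃ σ : ℝ, |σ| < δ ∧ c.γ (s + σ) = c.γ s' := by
  have hL := c.L_pos
  have hred : ∀ x : ℝ, ∃ n : ℤ, x - n * c.L ∈ Ico 0 c.L ∧ c.γ (x - n * c.L) = c.γ x := by
    intro x
    refine ⟨⌊x / c.L⌋, ⟨?_, ?_⟩, c.periodic.sub_int_mul_eq _⟩
    · have := Int.floor_le (x / c.L)
      rw [le_div_iff₀ hL] at this
      linarith
    · have := Int.lt_floor_add_one (x / c.L)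
      rw [div_lt_iff₀ hL] at this
      linarith
  set K : Set (ℝ × ℝ) := Icc 0 c.L ×ˢ Icc δ (c.L - δ) with hK
  have hKc : IsCompact K := isCompact_Icc.prod isCompact_Icc
  set F : ℝ × ℝ → ℝ := fun q => ‖c.γ (q.1 + q.2) - c.γ q.1‖ with hF
  have hFc : Continuous F := by
    have := c.cont
    simp only [hF]
    fun_prop
  have hFpos : ∀ q ∈ K, 0 < F q := by
    rintro ⟨s, σ⟩ ⟨hs, hσ⟩
    simp only [mem_Icc] at hs hσ
    simp only [hF]
    rw [norm_pos_iff, sub_ne_zero]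
    intro h
    obtain ⟨n, hn, hn'⟩ := hred (s + σ)
    obtain ⟨m, hm, hm'⟩ := hred s
    have h1 := c.injOn hn hm (by rw [hn', hm', h])
    have h2 : σ = ((n - m : ℤ) : ℝ) * c.L := by push_cast; linarith
    have h3 : 0 < ((n - m : ℤ) : ℝ) * c.L := by rw [← h2]; linarith
    have h4 : ((n - m : ℤ) : ℝ) * c.L < c.L := by rw [← h2]; linarith
    have h5 : (0 : ℝ) < ((n - m : ℤ) : ℝ) := by
      by_contra hc
      push Not at hc
      nlinarith
    have h6 : ((n - m : ℤ) : ℝ) < 1 := by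
      by_contra hc
      push Not at hc
      nlinarith
    have h7 : 0 < n - m := by exact_mod_cast h5
    have h8 : n - m < 1 := by exact_mod_cast h6
    omega
  have hη : ∃ η : ℝ, 0 < η ∧ ∀ q ∈ K, η ≤ F q := by
    rcases K.eq_empty_or_nonempty with h | h
    · exact ⟨1, one_pos, fun q hq => by rw [h] at hq; exact absurd hq (notMem_empty q)⟩
    · obtain ⟨q, hq, hmin⟩ := hKc.exists_isMinOn h hFc.continuousOn
      exact ⟨F q, hFpos q hq, fun q' hq' => hmin hq'⟩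
  obtain ⟨η, hη0, hη⟩ := hη
  refine ⟨η, hη0, fun s s' hss => ?_⟩
  obtain ⟨n, hn, hn'⟩ := hred s
  obtain ⟨m, hm, -⟩ := hred (s' - s)
  set σ : ℝ := s' - s - m * c.L with hσ
  have e1 : c.γ (s - n * c.L + σ) = c.γ s' := by
    have : s - n * c.L + σ = s' - ((n + m : ℤ) : ℝ) * c.L := by rw [hσ]; push_cast; ring
    rw [this]
    exact c.periodic.sub_int_mul_eq _
  have e2 : c.γ (s + σ) = c.γ s' := by
    have : s + σ = s' - (m : ℝ) * c.L := by rw [hσ]; ring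
    rw [this]
    exact c.periodic.sub_int_mul_eq _
  rcases lt_or_ge σ δ with h1 | h1
  · exact ⟨σ, by rw [abs_of_nonneg hm.1]; exact h1, e2⟩
  · rcases lt_or_ge (c.L - δ) σ with h2 | h2
    · refine ⟨σ - c.L, ?_, ?_⟩
      · rw [abs_lt]
        constructor
        · linarith
        · linarith [hm.2]
      · rw [← e2]
        have : s + (σ - c.L) = s + σ - c.L := by ring
        rw [this]
        exact c.periodic.sub_eq _
    · exfalso
      have h3 := hη (s - n * c.L, σ) ⟨⟨hn.1, hn.2.le⟩, ⟨h1, h2⟩⟩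
      simp only [hF] at h3
      rw [e1, hn'] at h3
      linarith

/-- the Taylor formula -/
theorem pf_lg_taylor (c : ClosedCurve) : ∃ M : ℝ, 0 ≤ M ∧ ∀ s σ : ℝ,
    ‖c.γ (s + σ) - c.γ s - (σ : ℂ) * deriv c.γ s - (σ : ℂ) ^ 2 / 2 * deriv (deriv c.γ) s -
      (σ : ℂ) ^ 3 / 6 * deriv (deriv (deriv c.γ)) s‖ ≤ M * |σ| ^ 4 := by
  obtain ⟨M, hM, hb⟩ := pf_lg_bdd c.L_pos
    (pf_lg_per (pf_lg_per c.periodic'')) (pf_lg_smooth4 c).continuous
  refine ⟨M, hM, fun s => ?_⟩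
  have hd0 : ∀ t, HasDerivAt (fun σ => c.γ (s + σ)) (deriv c.γ (s + t)) t := fun t =>
    (c.hasDerivAt (s + t)).comp_const_add s t
  have hd1 : ∀ t, HasDerivAt (fun σ => deriv c.γ (s + σ)) (deriv (deriv c.γ) (s + t)) t := fun t =>
    (c.hasDerivAt' (s + t)).comp_const_add s t
  have hd2 : ∀ t, HasDerivAt (fun σ => deriv (deriv c.γ) (s + σ))
      (deriv (deriv (deriv c.γ)) (s + t)) t := fun t =>
    (((c.smooth''.differentiable (by simp)) (s + t)).hasDerivAt).comp_const_add s t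
  have hd3 : ∀ t, HasDerivAt (fun σ => deriv (deriv (deriv c.γ)) (s + σ))
      (deriv (deriv (deriv (deriv c.γ))) (s + t)) t := fun t =>
    ((((pf_lg_smooth3 c).differentiable (by simp)) (s + t)).hasDerivAt).comp_const_add s t
  have hid : ∀ t : ℝ, HasDerivAt (fun σ : ℝ => (σ : ℂ)) 1 t := fun t => Complex.ofRealCLM.hasDerivAt
  have g3 := pf_lg_mv (f := fun σ => deriv (deriv (deriv c.γ)) (s + σ) - deriv (deriv (deriv c.γ)) s)
    (f' := fun σ => deriv (deriv (deriv (deriv c.γ))) (s + σ)) (M := M) (k := 0)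
    (fun t => (hd3 t).sub_const _) (by simp) hM (fun t => by simpa using hb (s + t))
  have g2 := pf_lg_mv (f := fun σ => deriv (deriv c.γ) (s + σ) - deriv (deriv c.γ) s -
      (σ : ℂ) * deriv (deriv (deriv c.γ)) s)
    (f' := fun σ => deriv (deriv (deriv c.γ)) (s + σ) - deriv (deriv (deriv c.γ)) s)
    (M := M) (k := 1)
    (fun t => by
      have := ((hd2 t).sub_const (deriv (deriv c.γ) s)).sub
        ((hid t).mul_const (deriv (deriv (deriv c.γ)) s))
      rw [one_mul] at this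
      exact this) (by simp) hM (fun t => by simpa using g3 t)
  have g1 := pf_lg_mv (f := fun σ => deriv c.γ (s + σ) - deriv c.γ s -
      (σ : ℂ) * deriv (deriv c.γ) s - (σ : ℂ) ^ 2 / 2 * deriv (deriv (deriv c.γ)) s)
    (f' := fun σ => deriv (deriv c.γ) (s + σ) - deriv (deriv c.γ) s -
      (σ : ℂ) * deriv (deriv (deriv c.γ)) s)
    (M := M) (k := 2)
    (fun t => by
      have := (((hd1 t).sub_const (deriv c.γ s)).sub
        ((hid t).mul_const (deriv (deriv c.γ) s))).sub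
        (((((hid t).pow 2).div_const 2)).mul_const (deriv (deriv (deriv c.γ)) s))
      refine this.congr_deriv ?_
      simp only [Nat.cast_ofNat]
      ring) (by simp) hM (fun t => by simpa using g2 t)
  have g0 := pf_lg_mv (f := fun σ => c.γ (s + σ) - c.γ s - (σ : ℂ) * deriv c.γ s -
      (σ : ℂ) ^ 2 / 2 * deriv (deriv c.γ) s - (σ : ℂ) ^ 3 / 6 * deriv (deriv (deriv c.γ)) s)
    (f' := fun σ => deriv c.γ (s + σ) - deriv c.γ s -
      (σ : ℂ) * deriv (deriv c.γ) s - (σ : ℂ) ^ 2 / 2 * deriv (deriv (deriv c.γ)) s)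
    (M := M) (k := 3)
    (fun t => by
      have := ((((hd0 t).sub_const (c.γ s)).sub
        ((hid t).mul_const (deriv c.γ s))).sub
        (((((hid t).pow 2).div_const 2)).mul_const (deriv (deriv c.γ) s))).sub
        (((((hid t).pow 3).div_const 6)).mul_const (deriv (deriv (deriv c.γ)) s))
      refine this.congr_deriv ?_
      simp only [Nat.cast_ofNat]
      ring) (by simp) hM (fun t => by simpa using g1 t)
  exact g0

/-- the real inequality -/
theorem pf_lg_real {A M κ κ' σ x y : ℝ} (hA : 0 ≤ A) (hM : 0 ≤ M) (hκ : |κ| ≤ A) (hκ' : |κ'| ≤ A)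
    (hσ1 : |σ| ≤ 1) (hσ : (A ^ 2 + M) * |σ| ^ 2 ≤ 1 / 2)
    (hx : |x - (σ - κ ^ 2 * σ ^ 3 / 6)| ≤ M * |σ| ^ 4)
    (hy : |y - (κ * σ ^ 2 / 2 + κ' * σ ^ 3 / 6)| ≤ M * |σ| ^ 4) :
    |y - (κ / 2 * x ^ 2 + κ' / 6 * x ^ 3)| ≤ 16 * (4 * A * (A ^ 2 + M) + M) * x ^ 4 := by
  set B := A ^ 2 + M with hB
  have hB0 : 0 ≤ B := by positivity
  set a := |σ| with ha
  have ha0 : 0 ≤ a := abs_nonneg σ
  have hκ2 : κ ^ 2 ≤ A ^ 2 := by
    rw [← sq_abs κ]
    exact pow_le_pow_left₀ (abs_nonneg _) hκ 2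
  -- |x - σ| ≤ B a^3
  have h1 : |x - σ| ≤ B * a ^ 3 := by
    have e : x - σ = (x - (σ - κ ^ 2 * σ ^ 3 / 6)) + (-(κ ^ 2 * σ ^ 3 / 6)) := by ring
    rw [e]
    refine (abs_add_le _ _).trans ?_
    have e2 : |-(κ ^ 2 * σ ^ 3 / 6)| = κ ^ 2 * a ^ 3 / 6 := by
      rw [abs_neg, abs_div, abs_mul, abs_pow, abs_pow, sq_abs, abs_of_pos (by norm_num : (0:ℝ) < 6)]
    rw [e2]
    have e3 : κ ^ 2 * a ^ 3 ≤ A ^ 2 * a ^ 3 := mul_le_mul_of_nonneg_right hκ2 (by positivity)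
    have e4 : M * a ^ 4 ≤ M * a ^ 3 := by
      apply mul_le_mul_of_nonneg_left _ hM
      exact pow_le_pow_of_le_one ha0 hσ1 (by norm_num)
    have e5 : 0 ≤ A ^ 2 * a ^ 3 := by positivity
    rw [hB]
    nlinarith
  have hBa : B * a ^ 3 ≤ a / 2 := by
    have : B * a ^ 3 = (B * a ^ 2) * a := by ring
    rw [this]
    nlinarith
  have h2 : |x| ≤ 2 * a := by
    have : |x| ≤ |x - σ| + |σ| := by
      have := abs_add_le (x - σ) σ
      rwa [sub_add_cancel] at this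
    rw [← ha] at this
    linarith
  have h3 : a / 2 ≤ |x| := by
    have : |σ| ≤ |x - σ| + |x| := by
      have := abs_add_le (-(x - σ)) x
      rw [abs_neg] at this
      have e : -(x - σ) + x = σ := by ring
      rwa [e] at this
    rw [← ha] at this
    linarith
  have h4 : a ^ 4 ≤ 16 * x ^ 4 := by
    have h5 : (a / 2) ^ 4 ≤ |x| ^ 4 := pow_le_pow_left₀ (by positivity) h3 4
    have h6 : |x| ^ 4 = x ^ 4 := by
      rw [show (4 : ℕ) = 2 * 2 by norm_num, pow_mul, sq_abs, ← pow_mul]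
    rw [h6] at h5
    have h7 : (a / 2) ^ 4 = a ^ 4 / 16 := by ring
    rw [h7] at h5
    linarith
  -- the two differences
  have h5 : |σ ^ 2 - x ^ 2| ≤ 3 * B * a ^ 4 := by
    have e : σ ^ 2 - x ^ 2 = -((x - σ) * (x + σ)) := by ring
    rw [e, abs_neg, abs_mul]
    have e2 : |x + σ| ≤ 3 * a := by
      have := abs_add_le x σ
      rw [← ha] at this
      linarith
    calc |x - σ| * |x + σ| ≤ (B * a ^ 3) * (3 * a) :=
          mul_le_mul h1 e2 (abs_nonneg _) (by positivity)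
      _ = 3 * B * a ^ 4 := by ring
  have h6 : |σ ^ 3 - x ^ 3| ≤ 7 * B * a ^ 4 := by
    have e : σ ^ 3 - x ^ 3 = -((x - σ) * (x ^ 2 + x * σ + σ ^ 2)) := by ring
    rw [e, abs_neg, abs_mul]
    have e2 : |x ^ 2 + x * σ + σ ^ 2| ≤ 7 * a := by
      have q1 : |x ^ 2 + x * σ + σ ^ 2| ≤ |x| ^ 2 + |x| * |σ| + |σ| ^ 2 := by
        refine (abs_add_three _ _ _).trans ?_
        rw [abs_pow, abs_mul, abs_pow]
      rw [← ha] at q1
      have q2 : |x| ^ 2 ≤ (2 * a) ^ 2 := pow_le_pow_left₀ (abs_nonneg _) h2 2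
      have q3 : |x| * a ≤ (2 * a) * a := mul_le_mul_of_nonneg_right h2 ha0
      have q4 : a ^ 2 ≤ a := by nlinarith
      nlinarith
    calc |x - σ| * |x ^ 2 + x * σ + σ ^ 2| ≤ (B * a ^ 3) * (7 * a) :=
          mul_le_mul h1 e2 (abs_nonneg _) (by positivity)
      _ = 7 * B * a ^ 4 := by ring
  have e : y - (κ / 2 * x ^ 2 + κ' / 6 * x ^ 3) = (y - (κ * σ ^ 2 / 2 + κ' * σ ^ 3 / 6)) +
      κ / 2 * (σ ^ 2 - x ^ 2) + κ' / 6 * (σ ^ 3 - x ^ 3) := by ring
  rw [e]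
  refine (abs_add_three _ _ _).trans ?_
  have h7 : |κ / 2 * (σ ^ 2 - x ^ 2)| ≤ A / 2 * (3 * B * a ^ 4) := by
    rw [abs_mul, abs_div, abs_of_pos (by norm_num : (0:ℝ) < 2)]
    exact mul_le_mul (by linarith) h5 (abs_nonneg _) (by positivity)
  have h8 : |κ' / 6 * (σ ^ 3 - x ^ 3)| ≤ A / 6 * (7 * B * a ^ 4) := by
    rw [abs_mul, abs_div, abs_of_pos (by norm_num : (0:ℝ) < 6)]
    exact mul_le_mul (by linarith) h6 (abs_nonneg _) (by positivity)
  have h9 : 0 ≤ A * B * a ^ 4 := by positivity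
  calc |y - (κ * σ ^ 2 / 2 + κ' * σ ^ 3 / 6)| + |κ / 2 * (σ ^ 2 - x ^ 2)| +
        |κ' / 6 * (σ ^ 3 - x ^ 3)|
      ≤ M * a ^ 4 + A / 2 * (3 * B * a ^ 4) + A / 6 * (7 * B * a ^ 4) := by linarith
    _ ≤ (4 * A * B + M) * a ^ 4 := by nlinarith
    _ ≤ (4 * A * B + M) * (16 * x ^ 4) := mul_le_mul_of_nonneg_left h4 (by positivity)
    _ = _ := by ring

theorem pf_lg : S_lg := by
  intro c
  obtain ⟨M, hM, hT⟩ := pf_lg_taylor c
  obtain ⟨A₁, hA₁, hb₁⟩ := pf_lg_bdd c.L_pos c.curvature_periodic c.cont_curvature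
  obtain ⟨A₂, hA₂, hb₂⟩ := pf_lg_bdd c.L_pos (pf_lg_per' c.curvature_periodic)
    ((pf_lg_curv c).continuous_deriv (by simp))
  set A := max A₁ A₂ with hA
  have hA0 : 0 ≤ A := hA₁.trans (le_max_left _ _)
  have hκ : ∀ s, |c.curvature s| ≤ A := fun s => (hb₁ s).trans (le_max_left _ _)
  have hκ' : ∀ s, |deriv c.curvature s| ≤ A := fun s => (hb₂ s).trans (le_max_right _ _)
  set B := A ^ 2 + M with hB
  have hB0 : 0 ≤ B := by positivity
  -- δ
  set δ : ℝ := 1 / (2 * B + 2) with hδ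
  have hδ0 : 0 < δ := by positivity
  have hδ1 : δ ≤ 1 := by
    rw [hδ, div_le_one (by positivity)]
    linarith
  have hδB : B * δ ^ 2 ≤ 1 / 2 := by
    have h1 : B * δ ≤ 1 / 2 := by
      rw [hδ, mul_one_div, div_le_iff₀ (by positivity)]
      linarith
    nlinarith
  obtain ⟨η, hη0, hη⟩ := pf_lg_sep c δ hδ0
  refine ⟨η / 4, A + 16 * (4 * A * B + M) + 1, by positivity, by positivity, ?_, ?_⟩
  · intro s
    have h1 : 0 ≤ 16 * (4 * A * B + M) := by positivity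
    exact ⟨by linarith [hκ s], by linarith [hκ' s]⟩
  intro s s' x y hx hy hfr
  have h1 : c.γ s' - c.γ s = ((x : ℂ) + Complex.I * (y : ℂ)) * deriv c.γ s := by
    rw [hfr, fr]; ring
  have h2 : ‖c.γ s' - c.γ s‖ < η := by
    rw [h1, norm_mul, c.unit_speed, mul_one]
    refine lt_of_le_of_lt (norm_add_le _ _) ?_
    rw [norm_mul, Complex.norm_I, one_mul, Complex.norm_real, Complex.norm_real,
      Real.norm_eq_abs, Real.norm_eq_abs]
    linarith
  obtain ⟨σ, hσ, hσγ⟩ := hη s s' h2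
  have h3 := hT s σ
  rw [hσγ, h1, pf_lg_third, c.second] at h3
  have h4 : ((x : ℂ) + Complex.I * (y : ℂ)) * deriv c.γ s - (σ : ℂ) * deriv c.γ s -
      (σ : ℂ) ^ 2 / 2 * (Complex.I * (c.curvature s : ℂ) * deriv c.γ s) -
      (σ : ℂ) ^ 3 / 6 * ((Complex.I * ((deriv c.curvature s : ℝ) : ℂ) - (c.curvature s : ℂ) ^ 2) *
        deriv c.γ s) =
      (((x - (σ - c.curvature s ^ 2 * σ ^ 3 / 6) : ℝ) : ℂ) +
        ((y - (c.curvature s * σ ^ 2 / 2 + deriv c.curvature s * σ ^ 3 / 6) : ℝ) : ℂ) * Complex.I) *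
      deriv c.γ s := by
    push_cast
    ring
  rw [h4, norm_mul, c.unit_speed, mul_one] at h3
  set p : ℝ := x - (σ - c.curvature s ^ 2 * σ ^ 3 / 6) with hp
  set q : ℝ := y - (c.curvature s * σ ^ 2 / 2 + deriv c.curvature s * σ ^ 3 / 6) with hq
  have h5 : |p| ≤ M * |σ| ^ 4 := by
    have := Complex.abs_re_le_norm ((p : ℂ) + (q : ℂ) * Complex.I)
    simp at this
    exact this.trans h3
  have h6 : |q| ≤ M * |σ| ^ 4 := by
    have := Complex.abs_im_le_norm ((p : ℂ) + (q : ℂ) * Complex.I)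
    simp at this
    exact this.trans h3
  have h7 : (A ^ 2 + M) * |σ| ^ 2 ≤ 1 / 2 := by
    have : |σ| ^ 2 ≤ δ ^ 2 := pow_le_pow_left₀ (abs_nonneg _) hσ.le 2
    calc (A ^ 2 + M) * |σ| ^ 2 ≤ B * δ ^ 2 := mul_le_mul_of_nonneg_left this hB0
      _ ≤ 1 / 2 := hδB
  have h8 := pf_lg_real hA0 hM (hκ s) (hκ' s) (hσ.le.trans hδ1) h7 h5 h6
  rw [abs_le] at h8
  have hx4 : 0 ≤ x ^ 4 := by positivity
  have hextra : 16 * (4 * A * B + M) * x ^ 4 ≤ (A + 16 * (4 * A * B + M) + 1) * x ^ 4 :=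
    mul_le_mul_of_nonneg_right (by linarith) hx4
  simp only [ta]
  constructor
  · linarith [h8.1]
  · linarith [h8.2]

end Pool.Agent.H212AN
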