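import Pool.Agent.H212AN.D0

set_option autoImplicit false

namespace Pool.Agent.H212AN

open MeasureTheory Set Filter Topology Metric
open scoped Real ENNReal

theorem pf_li_slope {g : ℝ → ℝ} (hg : ConcaveOn ℝ univ g) {x y d e : ℝ} (hxy : x < y)
    (hd : HasDerivWithinAt g d (Ici x) x) (he : HasDerivWithinAt g e (Iic y) y) : e ≤ d := by
  have h1 := hg.slope_le_of_hasDerivWithinAt_Ioi (mem_univ x) (mem_univ y) hxy
    (hd.mono Ioi_subset_Ici_self)
  have h2 := hg.le_slope_of_hasDerivWithinAt_Iio (mem_univ x) (mem_univ y) hxy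
    (he.mono Iio_subset_Iic_self)
  exact h2.trans h1

theorem pf_li_int (ℓ R : ℝ) (hR : 0 < R) :
    ∫ s in (0:ℝ)..(ℓ / (2 * R)), (ℓ - 2 * R * s) ^ 2 / 2 = ℓ ^ 3 / (12 * R) := by
  have hd : ∀ s ∈ uIcc (0:ℝ) (ℓ / (2 * R)),
      HasDerivAt (fun s : ℝ => -(ℓ - 2 * R * s) ^ 3 / (12 * R)) ((ℓ - 2 * R * s) ^ 2 / 2) s := by
    intro s _
    have h0 : HasDerivAt (fun s : ℝ => ℓ - 2 * R * s) (-(2 * R)) s := by
      simpa using ((hasDerivAt_id s).const_mul (2 * R)).const_sub ℓ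
    have h1 := ((h0.pow 3).neg).div_const (12 * R)
    refine h1.congr_deriv ?_
    field_simp
    norm_num
    ring
  rw [intervalIntegral.integral_eq_sub_of_hasDerivAt hd]
  · have : ℓ - 2 * R * (ℓ / (2 * R)) = 0 := by field_simp; ring
    rw [this]
    field_simp
    ring
  · apply Continuous.intervalIntegrable
    fun_prop

/-- the local bound -/
theorem pf_li_loc {w : ℝ → ℝ} {C : NNReal} (hL : LipschitzWith C w) {R : ℝ} (hR : 0 < R)
    (hc : ConcaveOn ℝ univ (fun θ => w θ - R * θ ^ 2 / 2)) {ϑ ℓ ap am : ℝ}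
    (hp : HasDerivWithinAt w ap (Ici ϑ) ϑ) (hm : HasDerivWithinAt w am (Iic ϑ) ϑ)
    (hl : 0 ≤ ℓ) (hla : ℓ ≤ am - ap) :
    ℓ ^ 3 / (12 * R) ≤ ∫ θ in (ϑ - ℓ / (2 * R))..(ϑ + ℓ / (2 * R)), deriv w θ ^ 2 := by
  have hb : ∀ x, ‖deriv w x ^ 2‖ ≤ (C:ℝ) ^ 2 := by
    intro x
    rw [norm_pow]
    have := norm_deriv_le_of_lipschitz (x₀ := x) hL
    gcongr
  have hint : ∀ a b, IntervalIntegrable (fun x => deriv w x ^ 2) volume a b := by
    intro a b
    rw [intervalIntegrable_iff]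
    refine Measure.integrableOn_of_bounded (M := (C:ℝ) ^ 2) ?_ ?_ ?_
    · simp [uIoc]
    · exact ((measurable_deriv w).pow_const 2).aestronglyMeasurable
    · exact Eventually.of_forall hb
  set t := ℓ / (2 * R) with ht
  have ht0 : 0 ≤ t := by positivity
  have hq : ∀ x, HasDerivAt (fun θ : ℝ => R * θ ^ 2 / 2) (R * x) x := by
    intro x
    have := ((hasDerivAt_id x).pow 2).const_mul R |>.div_const 2
    refine this.congr_deriv ?_
    simp
    ring
  have hgp : HasDerivWithinAt (fun θ => w θ - R * θ ^ 2 / 2) (ap - R * ϑ) (Ici ϑ) ϑ :=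
    hp.sub (hq ϑ).hasDerivWithinAt
  have hgm : HasDerivWithinAt (fun θ => w θ - R * θ ^ 2 / 2) (am - R * ϑ) (Iic ϑ) ϑ :=
    hm.sub (hq ϑ).hasDerivWithinAt
  -- the two one sided bounds
  have hleft : ∀ x, x < ϑ → DifferentiableAt ℝ w x → am - R * (ϑ - x) ≤ deriv w x := by
    intro x hx hdx
    have h1 : HasDerivAt (fun θ => w θ - R * θ ^ 2 / 2) (deriv w x - R * x) x :=
      hdx.hasDerivAt.sub (hq x)
    have := pf_li_slope hc hx h1.hasDerivWithinAt hgm
    linarith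
  have hright : ∀ x, ϑ < x → DifferentiableAt ℝ w x → deriv w x ≤ ap + R * (x - ϑ) := by
    intro x hx hdx
    have h1 : HasDerivAt (fun θ => w θ - R * θ ^ 2 / 2) (deriv w x - R * x) x :=
      hdx.hasDerivAt.sub (hq x)
    have := pf_li_slope hc hx hgp h1.hasDerivWithinAt
    linarith
  have hae : ∀ᵐ x, DifferentiableAt ℝ w x := hL.ae_differentiableAt_real
  have hae1 : ∀ᵐ s : ℝ, DifferentiableAt ℝ w (ϑ - s) :=
    (Measure.measurePreserving_sub_left volume ϑ).quasiMeasurePreserving.ae hae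
  have hae2 : ∀ᵐ s : ℝ, DifferentiableAt ℝ w (ϑ + s) :=
    (measurePreserving_add_left volume ϑ).quasiMeasurePreserving.ae hae
  have e1 : ∫ s in (0:ℝ)..t, deriv w (ϑ - s) ^ 2 = ∫ x in (ϑ - t)..ϑ, deriv w x ^ 2 := by
    have := intervalIntegral.integral_comp_sub_left (a := 0) (b := t)
      (fun x => deriv w x ^ 2) ϑ
    simpa using this
  have e2 : ∫ s in (0:ℝ)..t, deriv w (ϑ + s) ^ 2 = ∫ x in ϑ..(ϑ + t), deriv w x ^ 2 := by
    have := intervalIntegral.integral_comp_add_left (a := 0) (b := t)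
      (fun x => deriv w x ^ 2) ϑ
    simpa using this
  have i1 : IntervalIntegrable (fun s => deriv w (ϑ - s) ^ 2) volume 0 t := by
    rw [intervalIntegrable_iff]
    refine Measure.integrableOn_of_bounded (M := (C:ℝ) ^ 2) ?_ ?_ ?_
    · simp [uIoc]
    · exact (((measurable_deriv w).comp (measurable_const.sub measurable_id)).pow_const
        2).aestronglyMeasurable
    · exact Eventually.of_forall fun x => hb _
  have i2 : IntervalIntegrable (fun s => deriv w (ϑ + s) ^ 2) volume 0 t := by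
    rw [intervalIntegrable_iff]
    refine Measure.integrableOn_of_bounded (M := (C:ℝ) ^ 2) ?_ ?_ ?_
    · simp [uIoc]
    · exact (((measurable_deriv w).comp (measurable_const.add measurable_id)).pow_const
        2).aestronglyMeasurable
    · exact Eventually.of_forall fun x => hb _
  have e3 : ∫ θ in (ϑ - t)..(ϑ + t), deriv w θ ^ 2
      = ∫ s in (0:ℝ)..t, (deriv w (ϑ - s) ^ 2 + deriv w (ϑ + s) ^ 2) := by
    rw [intervalIntegral.integral_add i1 i2, e1, e2]
    exact (intervalIntegral.integral_add_adjacent_intervals (hint _ _) (hint _ _)).symm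
  rw [e3, ← pf_li_int ℓ R hR]
  refine intervalIntegral.integral_mono_ae_restrict ht0 ?_ (i1.add i2) ?_
  · apply Continuous.intervalIntegrable
    fun_prop
  · have hz : ∀ᵐ s ∂(volume.restrict (Icc (0:ℝ) t)), s ≠ 0 := by
      apply ae_restrict_of_ae
      exact Measure.ae_ne volume 0
    filter_upwards [ae_restrict_of_ae hae1, ae_restrict_of_ae hae2, hz,
      ae_restrict_mem measurableSet_Icc] with s h1 h2 h3 h4
    have hs : 0 < s := lt_of_le_of_ne h4.1 (Ne.symm h3)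
    have a1 := hleft (ϑ - s) (by linarith) h1
    have a2 := hright (ϑ + s) (by linarith) h2
    have hst : 2 * R * s ≤ ℓ := by
      have := h4.2
      rw [le_div_iff₀ (by positivity)] at this
      linarith
    have a3 : ℓ - 2 * R * s ≤ deriv w (ϑ - s) - deriv w (ϑ + s) := by
      have e1 : ϑ - (ϑ - s) = s := by ring
      have e2 : ϑ + s - ϑ = s := by ring
      rw [e1] at a1
      rw [e2] at a2
      linarith
    have a4 : (ℓ - 2 * R * s) ^ 2 ≤ (deriv w (ϑ - s) - deriv w (ϑ + s)) ^ 2 :=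
      pow_le_pow_left₀ (by linarith) a3 2
    nlinarith [sq_nonneg (deriv w (ϑ - s) + deriv w (ϑ + s))]

theorem pf_li_F {K : Set ℂ} (h0 : ∀ θ, 0 ≤ ell K θ) (hG : GG K ≠ ∞) {ε : ℝ} (hε : 0 < ε) :
    ∃ F : Finset ℝ, (∀ θ ∈ F, θ ∈ Ico (0:ℝ) (2 * π)) ∧
      (GG K).toReal - ε ≤ ∑ θ ∈ F, ell K θ ^ 3 := by
  classical
  have hs : HasSum (fun θ : Ico (0:ℝ) (2 * π) => ENNReal.ofReal (ell K θ) ^ 3) (GG K) :=
    ENNReal.summable.hasSum
  have ht := (ENNReal.tendsto_toReal hG).comp hs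
  have hev := ht.eventually (lt_mem_nhds (show (GG K).toReal - ε < (GG K).toReal by linarith))
  obtain ⟨s, hs⟩ := hev.exists
  refine ⟨s.map (Function.Embedding.subtype _), ?_, ?_⟩
  · intro θ hθ
    simp only [Finset.mem_map] at hθ
    obtain ⟨a, _, rfl⟩ := hθ
    exact a.2
  · rw [Finset.sum_map]
    simp only [Function.comp] at hs
    rw [ENNReal.toReal_sum] at hs
    · refine le_of_lt (lt_of_lt_of_eq hs ?_)
      refine Finset.sum_congr rfl fun a _ => ?_
      rw [ENNReal.toReal_pow, ENNReal.toReal_ofReal (h0 _)]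
      rfl
    · intro a _
      exact ENNReal.pow_ne_top ENNReal.ofReal_ne_top

theorem pf_li_sum {w : ℝ → ℝ} {C : NNReal} (hL : LipschitzWith C w)
    (hper : Function.Periodic w (2 * π)) (F : Finset ℝ) (r : ℝ → ℝ) (δ : ℝ)
    (hr : ∀ θ ∈ F, 0 ≤ r θ ∧ r θ ≤ δ) (h1 : ∀ θ ∈ F, 0 ≤ θ ∧ θ + 2 * δ < 2 * π)
    (h2 : ∀ θ ∈ F, ∀ θ' ∈ F, θ ≠ θ' → 2 * δ < |θ - θ'|) :
    ∑ θ ∈ F, (∫ x in (θ - r θ)..(θ + r θ), deriv w x ^ 2) ≤
      ∫ x in (0:ℝ)..(2 * π), deriv w x ^ 2 := by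
  have hb : ∀ x, ‖deriv w x ^ 2‖ ≤ (C:ℝ) ^ 2 := by
    intro x
    rw [norm_pow]
    have := norm_deriv_le_of_lipschitz (x₀ := x) hL
    gcongr
  have hint : ∀ a b, IntegrableOn (fun x => deriv w x ^ 2) (Ioc a b) volume := by
    intro a b
    refine Measure.integrableOn_of_bounded (M := (C:ℝ) ^ 2) ?_ ?_ ?_
    · simp
    · exact ((measurable_deriv w).pow_const 2).aestronglyMeasurable
    · exact Eventually.of_forall hb
  have hperd : Function.Periodic (fun x => deriv w x ^ 2) (2 * π) := by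
    intro x
    have : deriv w (x + 2 * π) = deriv w x := by
      rw [← deriv_comp_add_const w (2 * π) x]
      congr 1
      funext y
      exact hper y
    simp only [this]
  have e0 : ∫ x in (0:ℝ)..(2 * π), deriv w x ^ 2 = ∫ x in (-δ)..(-δ + 2 * π), deriv w x ^ 2 := by
    have := hperd.intervalIntegral_add_eq 0 (-δ)
    simpa using this
  rw [e0, intervalIntegral.integral_of_le (by linarith [Real.pi_pos])]
  have e1 : ∑ θ ∈ F, (∫ x in (θ - r θ)..(θ + r θ), deriv w x ^ 2)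
      = ∫ x in ⋃ θ ∈ F, Ioc (θ - r θ) (θ + r θ), deriv w x ^ 2 := by
    rw [integral_biUnion_finset]
    · refine Finset.sum_congr rfl fun θ hθ => ?_
      rw [intervalIntegral.integral_of_le (by linarith [(hr θ hθ).1])]
    · intro θ _
      exact measurableSet_Ioc
    · intro θ hθ θ' hθ' hne
      have hd := h2 θ hθ θ' hθ' hne
      have ha := (hr θ hθ).2
      have hb := (hr θ' hθ').2
      rw [Function.onFun, Set.disjoint_left]
      rintro x ⟨hx1, hx2⟩ ⟨hx3, hx4⟩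
      rcases abs_cases (θ - θ') with ⟨h, _⟩ | ⟨h, _⟩ <;> rw [h] at hd <;> linarith
    · intro θ _
      exact hint _ _
  rw [e1]
  refine setIntegral_mono_set (hint _ _) ?_ ?_
  · exact Eventually.of_forall fun x => sq_nonneg _
  · apply LE.le.eventuallyLE
    intro x hx
    simp only [mem_iUnion] at hx
    obtain ⟨θ, hθ, hx1, hx2⟩ := hx
    have ha := (hr θ hθ)
    have hb := h1 θ hθ
    constructor
    · linarith
    · linarith

theorem pf_li (h1 : S_hs) (h2 : S_er) (h3 : S_sc) : S_li := by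
  intro K ρ hK hρ hG ε hε
  have hKs := h1 K ρ hK.1 ⟨0, hK.2.1⟩ hK.2.2
  obtain ⟨a1, a2, a3, a4, a5, a6, a7, a8, a9, a10, a11, a12, a13⟩ := hKs
  have hx : ∀ θ, |xp K θ| ≤ ρ ∧ |xm K θ| ≤ ρ := by
    have hxx : ∀ θ, ∀ k ∈ face K θ, |xx θ k| ≤ ρ := by
      intro θ k hk
      have hk1 := hK.2.2 hk.1
      rw [mem_closedBall_zero_iff] at hk1
      refine le_trans ?_ hk1
      rw [Complex.norm_def, Complex.normSq_apply]
      apply Real.abs_le_sqrt
      unfold xx
      have := Real.sin_sq_add_cos_sq θ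
      nlinarith [sq_nonneg (k.re * Real.cos θ + k.im * Real.sin θ)]
    intro θ
    obtain ⟨k, hk, hk'⟩ := a9 θ
    obtain ⟨k₂, hk₂, hk₂'⟩ := a10 θ
    rw [← hk', ← hk₂']
    exact ⟨hxx θ k hk, hxx θ k₂ hk₂⟩
  have hell0 : ∀ θ, 0 ≤ ell K θ := by
    intro θ
    obtain ⟨k, hk, hk'⟩ := a9 θ
    have := (a11 θ k hk).1
    unfold ell
    linarith
  have hell1 : ∀ θ, ell K θ ≤ 2 * ρ := by
    intro θ
    have h := hx θ
    have h1 := abs_le.1 h.1
    have h2 := abs_le.1 h.2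
    unfold ell
    linarith
  obtain ⟨F, hF1, hF2⟩ := pf_li_F hell0 hG (show 0 < 24 * ε by linarith)
  have htend : Tendsto (fun R : ℝ => 2 * (ρ / R)) atTop (𝓝 0) := by
    have : Tendsto (fun R : ℝ => ρ / R) atTop (𝓝 0) := tendsto_const_nhds.div_atTop tendsto_id
    simpa using this.const_mul 2
  have ev1 : ∀ᶠ R : ℝ in atTop, ∀ θ ∈ F, θ + 2 * (ρ / R) < 2 * π := by
    rw [Filter.eventually_all_finset]
    intro θ hθ
    have h : Tendsto (fun R : ℝ => θ + 2 * (ρ / R)) atTop (𝓝 (θ + 0)) :=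
      htend.const_add θ
    have h' : θ + 0 < 2 * π := by simpa using (hF1 θ hθ).2
    exact h.eventually (gt_mem_nhds h')
  have ev2 : ∀ᶠ R : ℝ in atTop, ∀ θ ∈ F, ∀ θ' ∈ F, θ ≠ θ' → 2 * (ρ / R) < |θ - θ'| := by
    rw [Filter.eventually_all_finset]
    intro θ hθ
    rw [Filter.eventually_all_finset]
    intro θ' hθ'
    by_cases hne : θ = θ'
    · exact Eventually.of_forall fun R h => absurd hne h
    · have : 0 < |θ - θ'| := abs_pos.2 (sub_ne_zero.2 hne)
      filter_upwards [htend.eventually (gt_mem_nhds this)] with R hR _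
      exact hR
  filter_upwards [ev1, ev2, eventually_gt_atTop (4 * ρ)] with R hR1 hR2 hR3
  have hR0 : 0 < R := by linarith
  obtain ⟨b1, b2, b3, b4, b5, b6⟩ := h2 K ρ R hK hρ hR3
  obtain ⟨c1, c2, c3⟩ := h3 K ρ R hK hρ hR3
  have hE1 : er K R ⊆ closedBall 0 R := by
    intro z hz
    have := hz 0 hK.2.1
    simpa using this
  have hE0 : (er K R).Nonempty := ⟨0, b3 (by simp; linarith)⟩
  obtain ⟨d1, d2, d3, d4, d5, d6, d7, d8, d9, d10, d11, d12, d13⟩ := h1 (er K R) R b1 hE0 hE1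
  have hwp : ∀ θ, HasDerivWithinAt (ww K R) (-(xp K θ + xp (er K R) θ)) (Ici θ) θ := by
    intro θ
    have := ((a7 θ).const_sub R).sub (d7 θ)
    refine this.congr_deriv ?_
    ring
  have hwm : ∀ θ, HasDerivWithinAt (ww K R) (-(xm K θ + xm (er K R) θ)) (Iic θ) θ := by
    intro θ
    have := ((a8 θ).const_sub R).sub (d8 θ)
    refine this.congr_deriv ?_
    ring
  have hL : LipschitzWith (0 + Real.toNNReal ρ + Real.toNNReal R) (ww K R) :=
    ((LipschitzWith.const R).sub a4).sub d4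
  have hper : Function.Periodic (ww K R) (2 * π) := by
    intro θ
    unfold ww
    rw [a5 θ, d5 θ]
  have hellE : ∀ θ, 0 ≤ ell (er K R) θ := by
    intro θ
    obtain ⟨k, hk, hk'⟩ := d9 θ
    have := (d11 θ k hk).1
    unfold ell
    linarith
  have hloc : ∀ θ, ell K θ ^ 3 / (12 * R) ≤
      ∫ x in (θ - ell K θ / (2 * R))..(θ + ell K θ / (2 * R)), deriv (ww K R) x ^ 2 := by
    intro θ
    refine pf_li_loc hL hR0 c1 (hwp θ) (hwm θ) (hell0 θ) ?_
    have := hellE θ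
    unfold ell at this ⊢
    linarith
  have hsum := pf_li_sum hL hper F (fun θ => ell K θ / (2 * R)) (ρ / R)
    (fun θ _ => ⟨by have := hell0 θ; positivity, by
      have := hell1 θ
      rw [div_le_div_iff₀ (by positivity) hR0]
      nlinarith⟩)
    (fun θ hθ => ⟨(hF1 θ hθ).1, hR1 θ hθ⟩) hR2
  have hfin : ∑ θ ∈ F, ell K θ ^ 3 / (12 * R) ≤ ∫ x in (0:ℝ)..(2 * π), deriv (ww K R) x ^ 2 :=
    le_trans (Finset.sum_le_sum fun θ _ => hloc θ) hsum
  rw [← Finset.sum_div] at hfin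
  have h5 : (∑ θ ∈ F, ell K θ ^ 3) / 24 ≤
      R * ((1 / 2) * ∫ x in (0:ℝ)..(2 * π), deriv (ww K R) x ^ 2) := by
    have : (∑ θ ∈ F, ell K θ ^ 3) / 24
        = R * ((1 / 2) * ((∑ θ ∈ F, ell K θ ^ 3) / (12 * R))) := by
      field_simp
      ring
    rw [this]
    gcongr
  linarith

end Pool.Agent.H212AN
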