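import Mathlib

set_option autoImplicit false

/-!
# Project H212AN: random loops
Copy (with light imports) of the files `LM1`, `LM2`, `LM3`, `LM4`, `FL`, `TM`, `TB` and of a part of
`IN` of the folder `Pool/Agent/R225/LP`: Gaussian increments, the points of the loop, the trace
formula, the Cameron-Martin formula, tails and moments.
-/

namespace Pool.Agent.H212AN.G

open MeasureTheory Set Filter Topology Complex ProbabilityTheory
open scoped Real ENNReal ComplexConjugate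

/-- the heat kernel of the plane -/
noncomputable def gk (s : ℝ) (z : ℂ) : ℝ := Real.exp (-(‖z‖ ^ 2 / (4 * s))) / (4 * π * s)

/-- the kernel of the discrete chain killed outside `Q`, with `m` intermediate points in `Q` -/
noncomputable def ks (Q : Set ℂ) (s : ℝ) : ℕ → ℂ → ℂ → ℝ≥0∞
  | 0, a, b => ENNReal.ofReal (gk s (b - a))
  | n + 1, a, b => ∫⁻ z in Q, ENNReal.ofReal (gk s (z - a)) * ks Q s n z b

/-- the inner product -/
def ip (u v : ℂ) : ℝ := u.re * v.re + u.im * v.im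

/-- the support function of a set -/
noncomputable def hS (S : Set ℂ) (u : ℂ) : ℝ := sSup (ip u '' S)



/-! ### Elementary facts on `ip` -/

theorem ip_add_left (a b c : ℂ) : ip (a + b) c = ip a c + ip b c := by
  simp [ip]; ring

theorem ip_add_right (a b c : ℂ) : ip a (b + c) = ip a b + ip a c := by
  simp [ip]; ring

theorem ip_sub_right (a b c : ℂ) : ip a (b - c) = ip a b - ip a c := by
  simp [ip]; ring

theorem ip_sub_left (a b c : ℂ) : ip (a - b) c = ip a c - ip b c := by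
  simp [ip]; ring

theorem ip_smul_right (a b : ℂ) (r : ℝ) : ip a ((r : ℂ) * b) = r * ip a b := by
  simp [ip]; ring

theorem ip_smul_left (a b : ℂ) (r : ℝ) : ip ((r : ℂ) * a) b = r * ip a b := by
  simp [ip]; ring

theorem ip_neg_left (a b : ℂ) : ip (-a) b = -ip a b := by
  simp [ip]; ring

theorem ip_neg_right (a b : ℂ) : ip a (-b) = -ip a b := by
  simp [ip]; ring

theorem ip_zero_right (a : ℂ) : ip a 0 = 0 := by simp [ip]

theorem ip_zero_left (a : ℂ) : ip 0 a = 0 := by simp [ip]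

theorem ip_sum_right {ι : Type} (s : Finset ι) (a : ℂ) (f : ι → ℂ) :
    ip a (∑ i ∈ s, f i) = ∑ i ∈ s, ip a (f i) := by
  simp [ip, Finset.mul_sum, Finset.sum_add_distrib]

theorem ip_sum_left {ι : Type} (s : Finset ι) (a : ℂ) (f : ι → ℂ) :
    ip (∑ i ∈ s, f i) a = ∑ i ∈ s, ip (f i) a := by
  simp [ip, Finset.sum_mul, Finset.sum_add_distrib]

theorem ip_self (a : ℂ) : ip a a = ‖a‖ ^ 2 := by
  rw [← Complex.normSq_eq_norm_sq, Complex.normSq_apply, ip]

theorem norm_sq_add (a b : ℂ) : ‖a + b‖ ^ 2 = ‖a‖ ^ 2 + 2 * ip a b + ‖b‖ ^ 2 := by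
  rw [← ip_self, ← ip_self, ← ip_self]; simp [ip]; ring

theorem norm_sq_sub (a b : ℂ) : ‖a - b‖ ^ 2 = ‖a‖ ^ 2 - 2 * ip a b + ‖b‖ ^ 2 := by
  rw [← ip_self, ← ip_self, ← ip_self]; simp [ip]; ring

theorem ip_le (a b : ℂ) : |ip a b| ≤ ‖a‖ * ‖b‖ := by
  have h : (ip a b) ^ 2 ≤ (‖a‖ * ‖b‖) ^ 2 := by
    rw [mul_pow, ← ip_self, ← ip_self]
    simp only [ip]
    nlinarith [sq_nonneg (a.re * b.im - a.im * b.re)]
  exact abs_le_of_sq_le_sq h (by positivity)

theorem ip_cont (a : ℂ) : Continuous (fun z => ip a z) := by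
  unfold ip; fun_prop

/-! ### The kernel -/

theorem gk_cont (s : ℝ) : Continuous (gk s) := by
  unfold gk; fun_prop

theorem gk_pos {s : ℝ} (hs : 0 < s) (z : ℂ) : 0 < gk s z := by
  unfold gk; positivity

theorem gk_nonneg {s : ℝ} (hs : 0 < s) (z : ℂ) : 0 ≤ gk s z := (gk_pos hs z).le

theorem gk_neg (s : ℝ) (z : ℂ) : gk s (-z) = gk s z := by simp [gk]

theorem int_exp {b : ℝ} (hb : 0 < b) : ∫ z : ℂ, Real.exp (-(‖z‖ ^ 2 / b)) = π * b := by
  have h := GaussianFourier.integral_rexp_neg_mul_sq_norm (V := ℂ) (b := b⁻¹) (by positivity)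
  rw [Complex.finrank_real_complex] at h
  have e : (fun z : ℂ => Real.exp (-(‖z‖ ^ 2 / b))) = fun v : ℂ => Real.exp (-b⁻¹ * ‖v‖ ^ 2) := by
    funext z; congr 1; field_simp
  rw [e, h]
  simp

theorem integrable_exp {b : ℝ} (hb : 0 < b) :
    Integrable (fun z : ℂ => Real.exp (-(‖z‖ ^ 2 / b))) := by
  by_contra h
  have := integral_undef h
  rw [int_exp hb] at this
  have : 0 < π * b := by positivity
  linarith

theorem lint_exp {b : ℝ} (hb : 0 < b) :
    ∫⁻ z : ℂ, ENNReal.ofReal (Real.exp (-(‖z‖ ^ 2 / b))) = ENNReal.ofReal (π * b) := by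
  rw [← int_exp hb, ofReal_integral_eq_lintegral_ofReal (integrable_exp hb)]
  exact Eventually.of_forall fun z => (Real.exp_pos _).le

theorem lint_gk {s : ℝ} (hs : 0 < s) : ∫⁻ z : ℂ, ENNReal.ofReal (gk s z) = 1 := by
  have e : (fun z : ℂ => ENNReal.ofReal (gk s z)) = fun z =>
      ENNReal.ofReal (4 * π * s)⁻¹ * ENNReal.ofReal (Real.exp (-(‖z‖ ^ 2 / (4 * s)))) := by
    funext z
    rw [← ENNReal.ofReal_mul (by positivity), gk, div_eq_inv_mul]
  rw [e, lintegral_const_mul' _ _ ENNReal.ofReal_ne_top, lint_exp (by positivity),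
    ← ENNReal.ofReal_mul (by positivity)]
  have : (4 * π * s)⁻¹ * (π * (4 * s)) = 1 := by field_simp
  rw [this, ENNReal.ofReal_one]

/-- the Gaussian measure -/
noncomputable def nG (s : ℝ) : Measure ℂ := volume.withDensity (fun z => ENNReal.ofReal (gk s z))

theorem gkE_meas (s : ℝ) : Measurable (fun z => ENNReal.ofReal (gk s z)) :=
  (gk_cont s).measurable.ennreal_ofReal

theorem lint_nG (s : ℝ) {F : ℂ → ℝ≥0∞} (hF : Measurable F) :
    ∫⁻ z, F z ∂(nG s) = ∫⁻ z, ENNReal.ofReal (gk s z) * F z := by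
  rw [nG, lintegral_withDensity_eq_lintegral_mul _ (gkE_meas s) hF]
  rfl

theorem nG_prob {s : ℝ} (hs : 0 < s) : IsProbabilityMeasure (nG s) := by
  constructor
  rw [nG, withDensity_apply _ MeasurableSet.univ, Measure.restrict_univ, lint_gk hs]

/-- exponential moments -/
theorem mgf_nG {s : ℝ} (hs : 0 < s) (w : ℂ) :
    ∫⁻ z, ENNReal.ofReal (Real.exp (ip w z)) ∂(nG s) = ENNReal.ofReal (Real.exp (s * ‖w‖ ^ 2)) := by
  rw [lint_nG s (((ip_cont w).measurable.exp).ennreal_ofReal)]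
  have e : (fun z : ℂ => ENNReal.ofReal (gk s z) * ENNReal.ofReal (Real.exp (ip w z))) = fun z =>
      ENNReal.ofReal (Real.exp (s * ‖w‖ ^ 2)) *
        ENNReal.ofReal (gk s (z + (-((2 * s : ℝ) : ℂ) * w))) := by
    funext z
    rw [← ENNReal.ofReal_mul (gk_nonneg hs z), ← ENNReal.ofReal_mul (Real.exp_pos _).le]
    congr 1
    rw [gk, gk, div_mul_eq_mul_div, ← Real.exp_add, mul_div_assoc', ← Real.exp_add]
    congr 2
    rw [norm_sq_add]
    have h1 : ip z (-((2 * s : ℝ) : ℂ) * w) = -(2 * s) * ip w z := by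
      simp [ip]; ring
    have h2 : ‖-((2 * s : ℝ) : ℂ) * w‖ ^ 2 = (2 * s) ^ 2 * ‖w‖ ^ 2 := by
      rw [norm_mul, norm_neg, Complex.norm_real, mul_pow, Real.norm_eq_abs, sq_abs]
    rw [h1, h2]
    field_simp
    ring
  rw [e, lintegral_const_mul' _ _ ENNReal.ofReal_ne_top,
    lintegral_add_right_eq_self (fun z => ENNReal.ofReal (gk s z)), lint_gk hs, mul_one]

/-! ### Products -/

theorem cons_symm (n : ℕ) (a : ℂ × (Fin n → ℂ)) :
    (MeasurableEquiv.piFinSuccAbove (fun _ : Fin (n + 1) => ℂ) 0).symm a = Fin.cons a.1 a.2 := by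
  funext i
  simp [MeasurableEquiv.piFinSuccAbove, Fin.insertNthEquiv]

theorem cons_meas {n : ℕ} :
    Measurable (fun a : ℂ × (Fin n → ℂ) => (Fin.cons a.1 a.2 : Fin (n + 1) → ℂ)) := by
  have h := (MeasurableEquiv.piFinSuccAbove (fun _ : Fin (n + 1) => ℂ) 0).symm.measurable
  have e : (fun a : ℂ × (Fin n → ℂ) => (Fin.cons a.1 a.2 : Fin (n + 1) → ℂ)) =
      (MeasurableEquiv.piFinSuccAbove (fun _ : Fin (n + 1) => ℂ) 0).symm := by
    funext a; exact (cons_symm n a).symm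
  rw [e]; exact h

/-- splitting off the first coordinate -/
theorem lint_cons {μ : Measure ℂ} [SigmaFinite μ] (n : ℕ) {F : (Fin (n + 1) → ℂ) → ℝ≥0∞}
    (hF : Measurable F) : ∫⁻ x : Fin (n + 1) → ℂ, F x ∂(Measure.pi fun _ => μ) =
      ∫⁻ a, ∫⁻ y : Fin n → ℂ, F (Fin.cons a y) ∂(Measure.pi fun _ => μ) ∂μ := by
  rw [← (measurePreserving_piFinSuccAbove (fun _ : Fin (n + 1) => μ) 0).symm.lintegral_comp_emb
    (MeasurableEquiv.measurableEmbedding _)]
  simp_rw [cons_symm]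
  exact lintegral_prod (fun a : ℂ × (Fin n → ℂ) => F (Fin.cons a.1 a.2))
    (hF.comp cons_meas).aemeasurable

/-- `lintegral` of products over `Fin n → ℂ` -/
theorem lint_prod {μ : Measure ℂ} [SigmaFinite μ] : ∀ (n : ℕ) (f : Fin n → ℂ → ℝ≥0∞),
    (∀ i, Measurable (f i)) →
    ∫⁻ x : Fin n → ℂ, ∏ i, f i (x i) ∂(Measure.pi fun _ => μ) = ∏ i, ∫⁻ z, f i z ∂μ
  | 0, f, _ => by simp
  | n + 1, f, hf => by
      have hm : Measurable (fun x : Fin (n + 1) → ℂ => ∏ i, f i (x i)) :=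
        Finset.measurable_prod _ fun i _ => (hf i).comp (measurable_pi_apply i)
      have hm' : Measurable (fun x : Fin n → ℂ => ∏ i : Fin n, f i.succ (x i)) :=
        Finset.measurable_prod _ fun i _ => (hf i.succ).comp (measurable_pi_apply i)
      rw [lint_cons n hm, Fin.prod_univ_succ, ← lint_prod n (fun i => f i.succ) fun i => hf i.succ,
        ← lintegral_mul_const _ (hf 0)]
      refine lintegral_congr fun a => ?_
      simp_rw [Fin.prod_univ_succ, Fin.cons_zero, Fin.cons_succ]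
      rw [lintegral_const_mul _ hm']

/-- the product measure -/
noncomputable def PG (s : ℝ) (M : ℕ) : Measure (Fin M → ℂ) := Measure.pi fun _ => nG s

instance nG_sf (s : ℝ) : SFinite (nG s) := by unfold nG; infer_instance

/-- the density of the product measure -/
noncomputable def dn (s : ℝ) (M : ℕ) (x : Fin M → ℂ) : ℝ≥0∞ := ∏ i, ENNReal.ofReal (gk s (x i))

theorem dn_meas (s : ℝ) (M : ℕ) : Measurable (dn s M) :=
  Finset.measurable_prod _ fun i _ => (gkE_meas s).comp (measurable_pi_apply i)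

theorem PG_eq {s : ℝ} (hs : 0 < s) (M : ℕ) :
    PG s M = (volume : Measure (Fin M → ℂ)).withDensity (dn s M) := by
  have := nG_prob hs
  refine Measure.pi_eq fun A hA => ?_
  rw [withDensity_apply _ (MeasurableSet.univ_pi hA), ← lintegral_indicator (MeasurableSet.univ_pi hA)]
  have e : (fun x : Fin M → ℂ => (univ.pi A).indicator (dn s M) x) = fun x =>
      ∏ i, (A i).indicator (fun z => ENNReal.ofReal (gk s z)) (x i) := by
    funext x
    by_cases hx : x ∈ univ.pi A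
    · rw [indicator_of_mem hx, dn]
      exact Finset.prod_congr rfl fun i _ => by rw [indicator_of_mem (hx i (mem_univ i))]
    · rw [indicator_of_notMem hx]
      rw [Set.mem_univ_pi, not_forall] at hx
      obtain ⟨i, hi⟩ := hx
      exact (Finset.prod_eq_zero (Finset.mem_univ i) (by rw [indicator_of_notMem hi])).symm
  rw [e, volume_pi, lint_prod M _ fun i => (gkE_meas s).indicator (hA i)]
  refine Finset.prod_congr rfl fun i _ => ?_
  rw [lintegral_indicator (hA i), nG, withDensity_apply _ (hA i)]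

theorem PG_prob {s : ℝ} (hs : 0 < s) (M : ℕ) : IsProbabilityMeasure (PG s M) := by
  have := nG_prob hs
  unfold PG; infer_instance

theorem lint_PG {s : ℝ} (hs : 0 < s) (M : ℕ) {F : (Fin M → ℂ) → ℝ≥0∞} (hF : Measurable F) :
    ∫⁻ x, F x ∂(PG s M) = ∫⁻ x, dn s M x * F x := by
  rw [PG_eq hs, lintegral_withDensity_eq_lintegral_mul _ (dn_meas s M) hF]
  rfl

/-- exponential moments of linear functionals -/
theorem mgf_PG {s : ℝ} (hs : 0 < s) (M : ℕ) (w : Fin M → ℂ) :
    ∫⁻ x, ENNReal.ofReal (Real.exp (∑ i, ip (w i) (x i))) ∂(PG s M) =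
      ENNReal.ofReal (Real.exp (s * ∑ i, ‖w i‖ ^ 2)) := by
  have := nG_prob hs
  have e : (fun x : Fin M → ℂ => ENNReal.ofReal (Real.exp (∑ i, ip (w i) (x i)))) = fun x =>
      ∏ i, ENNReal.ofReal (Real.exp (ip (w i) (x i))) := by
    funext x
    rw [Real.exp_sum, ENNReal.ofReal_prod_of_nonneg fun i _ => (Real.exp_pos _).le]
  rw [e, PG, lint_prod M (fun i z => ENNReal.ofReal (Real.exp (ip (w i) z)))
    fun i => (((ip_cont (w i)).measurable.exp).ennreal_ofReal)]
  simp_rw [mgf_nG hs]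
  rw [← ENNReal.ofReal_prod_of_nonneg fun i _ => (Real.exp_pos _).le, ← Real.exp_sum,
    Finset.mul_sum]

/-- the Cameron–Martin formula -/
theorem shift_PG {s : ℝ} (hs : 0 < s) (M : ℕ) (e : Fin M → ℂ) {F : (Fin M → ℂ) → ℝ≥0∞}
    (hF : Measurable F) :
    ∫⁻ x, F x ∂(PG s M) = ∫⁻ x, ENNReal.ofReal (Real.exp (-((2 * ∑ i, ip (e i) (x i) +
      ∑ i, ‖e i‖ ^ 2) / (4 * s)))) * F (fun i => x i + e i) ∂(PG s M) := by
  have hm : Measurable (fun x : Fin M → ℂ => ENNReal.ofReal (Real.exp (-((2 * ∑ i, ip (e i) (x i) +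
      ∑ i, ‖e i‖ ^ 2) / (4 * s))))) := by
    refine (Measurable.ennreal_ofReal (Measurable.exp ?_))
    refine Measurable.neg (Measurable.div_const (Measurable.add_const (Measurable.const_mul ?_ _) _) _)
    exact Finset.measurable_sum _ fun i _ => (ip_cont (e i)).measurable.comp (measurable_pi_apply i)
  have hs' : Measurable (fun x : Fin M → ℂ => (fun i => x i + e i : Fin M → ℂ)) := by fun_prop
  have h2 := lint_PG hs M (hm.mul (hF.comp hs'))
  simp only [Pi.mul_apply, Function.comp_apply] at h2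
  rw [lint_PG hs M hF, h2,
    ← lintegral_add_right_eq_self (fun x : Fin M → ℂ => dn s M x * F x) e]
  refine lintegral_congr fun x => ?_
  rw [← mul_assoc]
  congr 1
  rw [dn, dn, ← ENNReal.ofReal_prod_of_nonneg fun i _ => gk_nonneg hs _,
    ← ENNReal.ofReal_prod_of_nonneg fun i _ => gk_nonneg hs _,
    ← ENNReal.ofReal_mul (Finset.prod_nonneg fun i _ => gk_nonneg hs _)]
  congr 1
  have e1 : -((2 * ∑ i, ip (e i) (x i) + ∑ i, ‖e i‖ ^ 2) / (4 * s)) =
      ∑ i, -((2 * ip (e i) (x i) + ‖e i‖ ^ 2) / (4 * s)) := by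
    rw [Finset.mul_sum, ← Finset.sum_add_distrib, Finset.sum_div, Finset.sum_neg_distrib]
  rw [e1, Real.exp_sum, ← Finset.prod_mul_distrib]
  refine Finset.prod_congr rfl fun i _ => ?_
  rw [gk, gk, div_mul_eq_mul_div, ← Real.exp_add, Pi.add_apply]
  congr 2
  rw [norm_sq_add]
  have : ip (x i) (e i) = ip (e i) (x i) := by simp [ip]; ring
  rw [this]
  field_simp
  ring

/-- scaling -/
theorem scale_PG {s c : ℝ} (hs : 0 < s) (hc : 0 < c) (M : ℕ) {F : (Fin M → ℂ) → ℝ≥0∞}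
    (hF : Measurable F) :
    ∫⁻ x, F x ∂(PG (c ^ 2 * s) M) = ∫⁻ x, F (fun i => (c : ℂ) * x i) ∂(PG s M) := by
  have := nG_prob hs
  have := nG_prob (show 0 < c ^ 2 * s by positivity)
  have hmc : Measurable (fun z : ℂ => (c : ℂ) * z) := by fun_prop
  have e : nG (c ^ 2 * s) = (nG s).map (fun z => (c : ℂ) * z) := by
    ext A hA
    rw [Measure.map_apply hmc hA, nG, nG, withDensity_apply _ hA,
      withDensity_apply _ (hmc hA), ← lintegral_indicator hA, ← lintegral_indicator (hmc hA)]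
    have h1 := Measure.addHaar_smul (volume : Measure ℂ)
    have e2 : ∀ z : ℂ, ((fun z : ℂ => (c : ℂ) * z) ⁻¹' A).indicator
        (fun z => ENNReal.ofReal (gk s z)) z =
        (fun z => A.indicator (fun z => ENNReal.ofReal (c ^ 2 * gk (c ^ 2 * s) z)) z) (c • z) := by
      intro z
      by_cases hz : (c : ℂ) * z ∈ A
      · rw [indicator_of_mem (show z ∈ (fun z : ℂ => (c : ℂ) * z) ⁻¹' A from hz)]
        simp only [Complex.real_smul]
        rw [indicator_of_mem hz]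
        congr 1
        rw [gk, gk, norm_mul, Complex.norm_real, Real.norm_eq_abs, mul_pow, sq_abs]
        have e3 : c ^ 2 * ‖z‖ ^ 2 / (4 * (c ^ 2 * s)) = ‖z‖ ^ 2 / (4 * s) := by field_simp
        rw [e3]
        field_simp
      · rw [indicator_of_notMem (show z ∉ (fun z : ℂ => (c : ℂ) * z) ⁻¹' A from hz)]
        simp only [Complex.real_smul]
        rw [indicator_of_notMem hz]
    simp_rw [e2]
    have hmf : Measurable (A.indicator (fun z => ENNReal.ofReal (c ^ 2 * gk (c ^ 2 * s) z))) :=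
      (((gk_cont _).measurable.const_mul _).ennreal_ofReal).indicator hA
    have h3 := lintegral_map (μ := (volume : Measure ℂ)) hmf (measurable_const_smul c)
    rw [← h3, Measure.map_addHaar_smul _ hc.ne', lintegral_smul_measure, smul_eq_mul,
      ← lintegral_const_mul _ hmf]
    refine lintegral_congr fun z => ?_
    by_cases hz : z ∈ A
    · rw [indicator_of_mem hz, indicator_of_mem hz, ← ENNReal.ofReal_mul (by positivity)]
      congr 1
      rw [Complex.finrank_real_complex, abs_of_pos (by positivity)]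
      field_simp
    · rw [indicator_of_notMem hz, indicator_of_notMem hz, mul_zero]
  have h4 := Measure.pi_map_pi (μ := fun _ : Fin M => nG s) (f := fun _ z => (c : ℂ) * z)
    (fun _ => hmc.aemeasurable)
  rw [PG, e, ← h4, lintegral_map hF (by fun_prop), PG]




/-- partial sums -/
noncomputable def sg {M : ℕ} (x : Fin M → ℂ) (r : ℕ) : ℂ := ∑ l : Fin M, if l.val < r then x l else 0

/-- the mean -/
noncomputable def mn {M : ℕ} (x : Fin M → ℂ) : ℂ := (∑ l, x l) / (M : ℂ)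

/-- centred increments -/
noncomputable def ce {M : ℕ} (x : Fin M → ℂ) : Fin M → ℂ := fun i => x i - mn x

/-- the points of the loop -/
noncomputable def gm {M : ℕ} (x : Fin M → ℂ) (r : ℕ) : ℂ := sg (ce x) r

theorem sg_zero {M : ℕ} (x : Fin M → ℂ) : sg x 0 = 0 := by simp [sg]

theorem sg_all {M : ℕ} (x : Fin M → ℂ) : sg x M = ∑ l, x l := by
  simp [sg]

theorem sg_cons {n : ℕ} (a : ℂ) (x : Fin n → ℂ) (r : ℕ) :
    sg (Fin.cons a x : Fin (n + 1) → ℂ) (r + 1) = a + sg x r := by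
  rw [sg, Fin.sum_univ_succ]
  simp [sg]

theorem sg_snoc {n : ℕ} (a : ℂ) (x : Fin n → ℂ) (r : ℕ) (hr : r ≤ n) :
    sg (Fin.snoc x a : Fin (n + 1) → ℂ) r = sg x r := by
  rw [sg, Fin.sum_univ_castSucc]
  have : ¬ (Fin.last n).val < r := by simp; exact hr
  simp only [Fin.snoc_castSucc, Fin.snoc_last, this, if_false, add_zero, Fin.val_castSucc]
  rfl

theorem sg_cont {M : ℕ} (r : ℕ) : Continuous (fun x : Fin M → ℂ => sg x r) := by
  unfold sg
  refine continuous_finsetSum _ fun l _ => ?_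
  by_cases h : l.val < r
  · simp only [h, if_true]; exact continuous_apply l
  · simp only [h, if_false]; exact continuous_const

theorem ce_cont {M : ℕ} : Continuous (fun x : Fin M → ℂ => ce x) := by
  unfold ce mn; fun_prop

theorem gm_cont {M : ℕ} (r : ℕ) : Continuous (fun x : Fin M → ℂ => gm x r) :=
  (sg_cont r).comp ce_cont

theorem snoc_symm (n : ℕ) (a : ℂ × (Fin n → ℂ)) :
    (MeasurableEquiv.piFinSuccAbove (fun _ : Fin (n + 1) => ℂ) (Fin.last n)).symm a =
      Fin.snoc a.2 a.1 := by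
  funext i
  simp [MeasurableEquiv.piFinSuccAbove, Fin.insertNthEquiv]

theorem snoc_meas {n : ℕ} :
    Measurable (fun a : ℂ × (Fin n → ℂ) => (Fin.snoc a.2 a.1 : Fin (n + 1) → ℂ)) := by
  have h := (MeasurableEquiv.piFinSuccAbove (fun _ : Fin (n + 1) => ℂ) (Fin.last n)).symm.measurable
  have e : (fun a : ℂ × (Fin n → ℂ) => (Fin.snoc a.2 a.1 : Fin (n + 1) → ℂ)) =
      (MeasurableEquiv.piFinSuccAbove (fun _ : Fin (n + 1) => ℂ) (Fin.last n)).symm := by
    funext a; exact (snoc_symm n a).symm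
  rw [e]; exact h

/-- splitting off the last coordinate -/
theorem lint_snoc (n : ℕ) {F : (Fin (n + 1) → ℂ) → ℝ≥0∞} (hF : Measurable F) :
    ∫⁻ x : Fin (n + 1) → ℂ, F x = ∫⁻ a : ℂ, ∫⁻ y : Fin n → ℂ, F (Fin.snoc y a) := by
  rw [← (volume_preserving_piFinSuccAbove (fun _ : Fin (n + 1) => ℂ)
    (Fin.last n)).symm.lintegral_comp_emb (MeasurableEquiv.measurableEmbedding _)]
  simp_rw [snoc_symm]
  exact lintegral_prod (fun a : ℂ × (Fin n → ℂ) => F (Fin.snoc a.2 a.1))
    (hF.comp snoc_meas).aemeasurable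

/-- paths staying in `Q` -/
def st (Q : Set ℂ) (n : ℕ) (a : ℂ) : Set (Fin n → ℂ) := {x | ∀ r < n, a + sg x (r + 1) ∈ Q}

theorem st_meas' {Q : Set ℂ} (hQ : MeasurableSet Q) (n : ℕ) :
    MeasurableSet {q : ℂ × (Fin n → ℂ) | q.2 ∈ st Q n q.1} := by
  have : {q : ℂ × (Fin n → ℂ) | q.2 ∈ st Q n q.1} =
      ⋂ r ∈ Iio n, {q : ℂ × (Fin n → ℂ) | q.1 + sg q.2 (r + 1) ∈ Q} := by
    ext q; simp [st]
  rw [this]
  refine MeasurableSet.biInter (Set.to_countable _) fun r _ => ?_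
  have h : Continuous (fun q : ℂ × (Fin n → ℂ) => q.1 + sg q.2 (r + 1)) :=
    continuous_fst.add ((sg_cont (r + 1)).comp continuous_snd)
  exact h.measurable hQ

theorem st_meas {Q : Set ℂ} (hQ : MeasurableSet Q) (n : ℕ) (a : ℂ) : MeasurableSet (st Q n a) := by
  have := measurable_prodMk_left (x := a) (st_meas' hQ n)
  exact this

/-- the killed kernel as an integral over increments -/
theorem ks_eq {Q : Set ℂ} (hQ : MeasurableSet Q) (s : ℝ) : ∀ (n : ℕ) (a b : ℂ),
    ks Q s n a b = ∫⁻ x : Fin n → ℂ, dn s n x * ((st Q n a).indicator 1 x *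
      ENNReal.ofReal (gk s (b - a - sg x n)))
  | 0, a, b => by
      have h : st Q 0 a = univ := by ext x; simp [st]
      rw [h]
      simp only [ks, dn, Finset.univ_eq_empty, Finset.prod_empty, indicator_univ, Pi.one_apply,
        one_mul, sg_zero, sub_zero]
      rw [lintegral_const, volume_pi, Measure.pi_univ]
      simp
  | n + 1, a, b => by
      have hm : ∀ z : ℂ, Measurable (fun y : Fin n → ℂ => dn s n y *
          ((st Q n z).indicator 1 y * ENNReal.ofReal (gk s (b - z - sg y n)))) := by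
        intro z
        refine (dn_meas s n).mul ((measurable_one.indicator (st_meas hQ n z)).mul ?_)
        exact (((gk_cont s).comp (continuous_const.sub (sg_cont n))).measurable).ennreal_ofReal
      have hF : Measurable (fun x : Fin (n + 1) → ℂ => dn s (n + 1) x *
          ((st Q (n + 1) a).indicator 1 x * ENNReal.ofReal (gk s (b - a - sg x (n + 1))))) := by
        refine (dn_meas s (n + 1)).mul ((measurable_one.indicator (st_meas hQ _ a)).mul ?_)
        exact (((gk_cont s).comp (continuous_const.sub (sg_cont (n + 1)))).measurable).ennreal_ofReal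
      rw [ks, volume_pi, lint_cons n hF, ← lintegral_indicator hQ]
      rw [← lintegral_sub_right_eq_self (fun z => ∫⁻ y : Fin n → ℂ, _ ∂(Measure.pi fun _ => volume)) a]
      refine lintegral_congr fun z => ?_
      rw [← volume_pi]
      have e : ∀ y : Fin n → ℂ, dn s (n + 1) (Fin.cons (z - a) y) *
          ((st Q (n + 1) a).indicator 1 (Fin.cons (z - a) y) *
            ENNReal.ofReal (gk s (b - a - sg (Fin.cons (z - a) y : Fin (n + 1) → ℂ) (n + 1)))) =
          Q.indicator (fun z => ENNReal.ofReal (gk s (z - a)) * (dn s n y *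
            ((st Q n z).indicator 1 y * ENNReal.ofReal (gk s (b - z - sg y n))))) z := by
        intro y
        have h1 : dn s (n + 1) (Fin.cons (z - a) y) = ENNReal.ofReal (gk s (z - a)) * dn s n y := by
          simp [dn, Fin.prod_univ_succ]
        have h2 : b - a - sg (Fin.cons (z - a) y : Fin (n + 1) → ℂ) (n + 1) = b - z - sg y n := by
          rw [sg_cons]; ring
        have h3 : (Fin.cons (z - a) y : Fin (n + 1) → ℂ) ∈ st Q (n + 1) a ↔ z ∈ Q ∧ y ∈ st Q n z := by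
          simp only [st, mem_ofPred_eq, sg_cons]
          constructor
          · intro h
            refine ⟨?_, fun r hr => ?_⟩
            · have := h 0 (Nat.succ_pos n)
              rw [sg_zero] at this
              simpa using this
            · have := h (r + 1) (by omega)
              convert this using 1
              ring
          · rintro ⟨h4, h5⟩ r hr
            cases r with
            | zero => rw [sg_zero]; simpa using h4
            | succ r =>
              have := h5 r (by omega)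
              convert this using 1
              ring
        rw [h1, h2]
        by_cases hz : z ∈ Q
        · rw [indicator_of_mem hz]
          by_cases hy : y ∈ st Q n z
          · rw [indicator_of_mem (h3.2 ⟨hz, hy⟩), indicator_of_mem hy]
            simp only [Pi.one_apply, one_mul, mul_assoc]
          · rw [indicator_of_notMem (fun h => hy (h3.1 h).2), indicator_of_notMem hy]
            simp
        · rw [indicator_of_notMem hz, indicator_of_notMem (fun h => hz (h3.1 h).1)]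
          simp
      simp_rw [e]
      by_cases hz : z ∈ Q
      · simp_rw [indicator_of_mem hz]
        rw [ks_eq hQ s n z b, lintegral_const_mul _ (hm z)]
      · simp_rw [indicator_of_notMem hz]
        simp




theorem dn_snoc (s : ℝ) {n : ℕ} (y : Fin n → ℂ) (a : ℂ) :
    dn s (n + 1) (Fin.snoc y a) = dn s n y * ENNReal.ofReal (gk s a) := by
  simp [dn, Fin.prod_univ_castSucc]

/-- the loop closed by the last increment -/
noncomputable def cl {n : ℕ} (y : Fin n → ℂ) : Fin (n + 1) → ℂ := Fin.snoc y (-∑ l, y l)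

theorem cl_sum {n : ℕ} (y : Fin n → ℂ) : ∑ l, cl y l = 0 := by
  rw [cl, Fin.sum_univ_castSucc]
  simp

theorem cl_meas {n : ℕ} : Measurable (fun y : Fin n → ℂ => cl y) := by
  have h : Measurable (fun y : Fin n → ℂ => ((-∑ l, y l, y) : ℂ × (Fin n → ℂ))) := by
    fun_prop
  exact snoc_meas.comp h

theorem dn_shift {s : ℝ} (hs : 0 < s) {n : ℕ} (y : Fin n → ℂ) (b : ℂ) :
    dn s (n + 1) (fun i => cl y i + b / ((n + 1 : ℕ) : ℂ)) =
      ENNReal.ofReal (Real.exp (-(‖b‖ ^ 2 / (4 * ((n + 1 : ℕ) * s))))) *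
        (dn s n y * ENNReal.ofReal (gk s (sg y n))) := by
  have h0 : ENNReal.ofReal (gk s (sg y n)) = ENNReal.ofReal (gk s (-∑ l, y l)) := by
    rw [sg_all, gk_neg]
  rw [h0, ← dn_snoc]
  change _ = _ * dn s (n + 1) (cl y)
  rw [dn, dn, ← ENNReal.ofReal_prod_of_nonneg fun i _ => gk_nonneg hs _,
    ← ENNReal.ofReal_prod_of_nonneg fun i _ => gk_nonneg hs _,
    ← ENNReal.ofReal_mul (Real.exp_pos _).le]
  congr 1
  have hn : ((n + 1 : ℕ) : ℝ) ≠ 0 := by positivity
  have hn' : ((n + 1 : ℕ) : ℂ) ≠ 0 := by exact_mod_cast hn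
  have e1 : ∀ i, gk s (cl y i + b / ((n + 1 : ℕ) : ℂ)) =
      Real.exp (-((2 * ip (b / ((n + 1 : ℕ) : ℂ)) (cl y i) + ‖b‖ ^ 2 / ((n + 1 : ℕ) : ℝ) ^ 2) /
        (4 * s))) * gk s (cl y i) := by
    intro i
    rw [gk, gk, mul_div_assoc', ← Real.exp_add]
    congr 2
    rw [norm_sq_add]
    have h1 : ip (cl y i) (b / ((n + 1 : ℕ) : ℂ)) = ip (b / ((n + 1 : ℕ) : ℂ)) (cl y i) := by
      simp [ip]; ring
    have h2 : ‖b / ((n + 1 : ℕ) : ℂ)‖ ^ 2 = ‖b‖ ^ 2 / ((n + 1 : ℕ) : ℝ) ^ 2 := by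
      rw [norm_div, div_pow, Complex.norm_natCast]
    rw [h1, h2]
    field_simp
    ring
  simp_rw [e1]
  rw [Finset.prod_mul_distrib, ← Real.exp_sum]
  congr 2
  rw [Finset.sum_neg_distrib, ← Finset.sum_div, Finset.sum_add_distrib, ← Finset.mul_sum,
    ← ip_sum_right, cl_sum, ip_zero_right]
  simp only [Finset.sum_const, Finset.card_univ, Fintype.card_fin, nsmul_eq_mul]
  field_simp
  ring

theorem ce_shift {n : ℕ} (y : Fin n → ℂ) (b : ℂ) :
    ce (fun i => cl y i + b / ((n + 1 : ℕ) : ℂ)) = cl y := by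
  have hn' : ((n + 1 : ℕ) : ℂ) ≠ 0 := by
    have : ((n + 1 : ℕ) : ℝ) ≠ 0 := by positivity
    exact_mod_cast this
  funext i
  rw [ce, mn, Finset.sum_add_distrib, cl_sum]
  simp only [Finset.sum_const, Finset.card_univ, Fintype.card_fin, nsmul_eq_mul]
  field_simp
  ring

/-- change of variables: total sum and centred increments -/
theorem lint_centre (n : ℕ) {K : (Fin (n + 1) → ℂ) → ℝ≥0∞} (hK : Measurable K) :
    ∫⁻ X : Fin (n + 1) → ℂ, K X =
      ∫⁻ b : ℂ, ∫⁻ y : Fin n → ℂ, K (fun i => cl y i + b / ((n + 1 : ℕ) : ℂ)) := by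
  have hn' : ((n + 1 : ℕ) : ℂ) ≠ 0 := by
    have : ((n + 1 : ℕ) : ℝ) ≠ 0 := by positivity
    exact_mod_cast this
  have hK2 : Measurable (fun q : ℂ × (Fin n → ℂ) => K (Fin.snoc q.2 q.1)) := hK.comp snoc_meas
  have hs : Measurable (fun q : (Fin n → ℂ) × ℂ => ((q.2 - ∑ l, q.1 l, q.1) : ℂ × (Fin n → ℂ))) := by
    fun_prop
  have hK3 : Measurable (fun q : (Fin n → ℂ) × ℂ => K (Fin.snoc q.1 (q.2 - ∑ l, q.1 l))) :=
    Measurable.comp (g := fun q : ℂ × (Fin n → ℂ) => K (Fin.snoc q.2 q.1)) hK2 hs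
  rw [lint_snoc n hK, lintegral_lintegral_swap hK2.aemeasurable]
  have e1 : ∀ y : Fin n → ℂ, ∫⁻ a : ℂ, K (Fin.snoc y a) =
      ∫⁻ b : ℂ, K (Fin.snoc y (b - ∑ l, y l)) := fun y =>
    (lintegral_sub_right_eq_self (fun a => K (Fin.snoc y a)) (∑ l, y l)).symm
  simp_rw [e1]
  rw [lintegral_lintegral_swap hK3.aemeasurable]
  refine lintegral_congr fun b => ?_
  rw [← lintegral_add_right_eq_self (fun y : Fin n → ℂ => K (Fin.snoc y (b - ∑ l, y l)))
    (fun _ => b / ((n + 1 : ℕ) : ℂ))]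
  refine lintegral_congr fun y => ?_
  congr 1
  funext i
  refine Fin.lastCases ?_ (fun i => ?_) i
  · simp only [Fin.snoc_last, cl, Pi.add_apply, Finset.sum_add_distrib, Finset.sum_const,
      Finset.card_univ, Fintype.card_fin, nsmul_eq_mul]
    field_simp
    push_cast
    ring
  · simp only [Fin.snoc_castSucc, cl, Pi.add_apply]

/-- functionals of the centred increments -/
theorem centred {s : ℝ} (hs : 0 < s) (n : ℕ) {H : (Fin (n + 1) → ℂ) → ℝ≥0∞}
    (hH : Measurable H) : ∫⁻ X, H (ce X) ∂(PG s (n + 1)) =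
      ENNReal.ofReal (4 * π * ((n + 1 : ℕ) * s)) *
        ∫⁻ y : Fin n → ℂ, dn s n y * (ENNReal.ofReal (gk s (sg y n)) * H (cl y)) := by
  have hHc : Measurable (fun X : Fin (n + 1) → ℂ => H (ce X)) := hH.comp ce_cont.measurable
  have hK : Measurable (fun X : Fin (n + 1) → ℂ => dn s (n + 1) X * H (ce X)) :=
    (dn_meas s _).mul hHc
  have hm1 : Measurable (fun y : Fin n → ℂ => dn s n y *
      (ENNReal.ofReal (gk s (sg y n)) * H (cl y))) :=
    (dn_meas s n).mul ((((gk_cont s).comp (sg_cont n)).measurable.ennreal_ofReal).mul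
      (hH.comp cl_meas))
  rw [lint_PG hs _ hHc, lint_centre n hK]
  have e2 : ∀ b : ℂ, ∫⁻ y : Fin n → ℂ, dn s (n + 1) (fun i => cl y i + b / ((n + 1 : ℕ) : ℂ)) *
      H (ce (fun i => cl y i + b / ((n + 1 : ℕ) : ℂ))) =
      ENNReal.ofReal (Real.exp (-(‖b‖ ^ 2 / (4 * ((n + 1 : ℕ) * s))))) *
      ∫⁻ y : Fin n → ℂ, dn s n y * (ENNReal.ofReal (gk s (sg y n)) * H (cl y)) := by
    intro b
    rw [← lintegral_const_mul _ hm1]
    refine lintegral_congr fun y => ?_
    rw [dn_shift hs, ce_shift]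
    ring
  simp_rw [e2]
  rw [lintegral_mul_const _ (by fun_prop), lint_exp (by positivity)]
  congr 2
  ring

/-- the area of the positions of the loop inside `Q` -/
noncomputable def ar (Q : Set ℂ) {M : ℕ} (x : Fin M → ℂ) : ℝ≥0∞ :=
  volume {z | ∀ r < M, z + sg x r ∈ Q}

theorem ar_set_meas {Q : Set ℂ} (hQ : MeasurableSet Q) (M : ℕ) :
    MeasurableSet {q : (Fin M → ℂ) × ℂ | ∀ r < M, q.2 + sg q.1 r ∈ Q} := by
  have : {q : (Fin M → ℂ) × ℂ | ∀ r < M, q.2 + sg q.1 r ∈ Q} =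
      ⋂ r ∈ Iio M, {q : (Fin M → ℂ) × ℂ | q.2 + sg q.1 r ∈ Q} := by
    ext q; simp
  rw [this]
  refine MeasurableSet.biInter (Set.to_countable _) fun r _ => ?_
  have h : Continuous (fun q : (Fin M → ℂ) × ℂ => q.2 + sg q.1 r) :=
    continuous_snd.add ((sg_cont r).comp continuous_fst)
  exact h.measurable hQ

theorem ar_meas {Q : Set ℂ} (hQ : MeasurableSet Q) (M : ℕ) :
    Measurable (fun x : Fin M → ℂ => ar Q x) :=
  measurable_measure_prodMk_left (ar_set_meas hQ M)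

theorem ar_cl {Q : Set ℂ} (m : ℕ) (y : Fin m → ℂ) :
    {z | ∀ r < m + 1, z + sg (cl y) r ∈ Q} = {z | z ∈ Q ∧ y ∈ st Q m z} := by
  ext z
  simp only [st, mem_ofPred_eq]
  constructor
  · intro h
    refine ⟨?_, fun r hr => ?_⟩
    · have := h 0 (Nat.succ_pos m)
      rw [sg_zero, add_zero] at this
      exact this
    · have := h (r + 1) (by omega)
      rw [cl, sg_snoc _ _ _ (by omega)] at this
      exact this
  · rintro ⟨h1, h2⟩ r hr
    cases r with
    | zero => rw [sg_zero, add_zero]; exact h1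
    | succ r =>
      rw [cl, sg_snoc _ _ _ (by omega)]
      exact h2 r (by omega)

/-- the trace formula -/
theorem trace_formula {Q : Set ℂ} (hQ : MeasurableSet Q) {s : ℝ} (hs : 0 < s) (m : ℕ) :
    ENNReal.ofReal (4 * π * ((m + 1 : ℕ) * s)) * ∫⁻ z in Q, ks Q s m z z =
      ∫⁻ X, ar Q (ce X) ∂(PG s (m + 1)) := by
  rw [centred hs m (H := fun x => ar Q x) (ar_meas hQ _)]
  congr 1
  have hE : MeasurableSet {q : (Fin m → ℂ) × ℂ | q.2 ∈ Q ∧ q.1 ∈ st Q m q.2} := by
    have h1 := st_meas' hQ m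
    have h2 : Measurable (fun q : (Fin m → ℂ) × ℂ => ((q.2, q.1) : ℂ × (Fin m → ℂ))) := by fun_prop
    exact (measurable_snd hQ).inter (h2 h1)
  have e1 : ∀ y : Fin m → ℂ, dn s m y * (ENNReal.ofReal (gk s (sg y m)) * ar Q (cl y)) =
      ∫⁻ z : ℂ, dn s m y * (({q : (Fin m → ℂ) × ℂ | q.2 ∈ Q ∧ q.1 ∈ st Q m q.2}.indicator 1 (y, z)) *
        ENNReal.ofReal (gk s (sg y m))) := by
    intro y
    have hm : Measurable (fun z : ℂ =>
        {q : (Fin m → ℂ) × ℂ | q.2 ∈ Q ∧ q.1 ∈ st Q m q.2}.indicator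
          (1 : (Fin m → ℂ) × ℂ → ℝ≥0∞) (y, z)) :=
      (measurable_one.indicator hE).comp measurable_prodMk_left
    rw [lintegral_const_mul _ (hm.mul_const _), lintegral_mul_const _ hm]
    congr 1
    rw [mul_comm]
    congr 1
    have hE' : MeasurableSet {z | z ∈ Q ∧ y ∈ st Q m z} := measurable_prodMk_left (x := y) hE
    rw [ar, ar_cl, ← lintegral_indicator_one hE']
    rfl
  simp_rw [e1]
  rw [lintegral_lintegral_swap, ← lintegral_indicator hQ]
  · refine lintegral_congr fun z => ?_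
    by_cases hz : z ∈ Q
    · rw [indicator_of_mem hz, ks_eq hQ]
      refine lintegral_congr fun y => ?_
      have e2 : gk s (z - z - sg y m) = gk s (sg y m) := by
        rw [sub_self, zero_sub, gk_neg]
      rw [e2]
      by_cases hy : y ∈ st Q m z
      · rw [indicator_of_mem (show (y, z) ∈ {q : (Fin m → ℂ) × ℂ | q.2 ∈ Q ∧ q.1 ∈ st Q m q.2} from
          ⟨hz, hy⟩), indicator_of_mem hy]
        rfl
      · rw [indicator_of_notMem hy, indicator_of_notMem (show (y, z) ∉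
          {q : (Fin m → ℂ) × ℂ | q.2 ∈ Q ∧ q.1 ∈ st Q m q.2} from fun h => hy h.2)]
    · rw [indicator_of_notMem hz]
      have e3 : ∀ y : Fin m → ℂ, {q : (Fin m → ℂ) × ℂ | q.2 ∈ Q ∧ q.1 ∈ st Q m q.2}.indicator
          (1 : (Fin m → ℂ) × ℂ → ℝ≥0∞) (y, z) = 0 := fun y =>
        indicator_of_notMem (show (y, z) ∉
          {q : (Fin m → ℂ) × ℂ | q.2 ∈ Q ∧ q.1 ∈ st Q m q.2} from fun h => hz h.1) _
      simp_rw [e3]
      simp
  · refine Measurable.aemeasurable ?_
    refine ((dn_meas s m).comp measurable_fst).mul ((measurable_one.indicator hE).mul ?_)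
    exact ((gk_cont s).comp ((sg_cont m).comp continuous_fst)).measurable.ennreal_ofReal




/-- the points of the loop -/
def pts {M : ℕ} (X : Fin M → ℂ) : Set ℂ := gm X '' Iio M

/-- FL: fluctuations within blocks -/
def S_FL : Prop := ∀ (N k : ℕ) (s x : ℝ), 0 < N → 0 < k → 0 < s → 0 ≤ x →
  PG s (N * k) {X | ∃ j < N, ∃ o < k, x ≤ ‖gm X (j * k + o) - gm X (j * k)‖} ≤
    ENNReal.ofReal ((4 * N + 4) * Real.exp (-(x ^ 2 / (32 * k * s))))

/-- CH: tails of linear functionals of the loop -/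
def S_CH : Prop := ∀ (M q : ℕ) (s x R : ℝ) (a : Fin q → ℂ) (r : Fin q → ℕ) (c : ℂ), 0 < M →
  0 < s → 0 ≤ x → 0 < R → (∀ l < M, ‖∑ i, (if l < r i then a i else 0) - c‖ ≤ R) →
  PG s M {X | x ≤ ∑ i, ip (a i) (gm X (r i))} ≤
    ENNReal.ofReal (Real.exp (-(x ^ 2 / (4 * R ^ 2 * (M * s)))))

/-- TL: tails of combinations of support functions of the loop -/
def S_TL : Prop := ∀ (q : ℕ) (u : Fin q → ℂ) (lam : Fin q → ℝ) (R θ : ℝ), 0 < R → 0 < θ →
  θ < 1 / (4 * R ^ 2) → (∀ i, 0 ≤ lam i) →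
  (∀ r : Fin q → ℕ, ∃ c : ℂ, ∀ l : ℕ, ‖∑ i, (if l < r i then (lam i : ℂ) * u i else 0) - c‖ ≤ R) →
  ∃ N₀ : ℕ, ∀ N : ℕ, N₀ ≤ N → ∃ K : ℝ, 0 < K ∧ ∀ (k : ℕ) (s x : ℝ), 0 < k → 0 < s → 0 ≤ x →
    PG s (N * k) {X | x ≤ ∑ i, lam i * hS (pts X) (u i)} ≤
      ENNReal.ofReal (K * Real.exp (-(θ * x ^ 2 / (N * k * s))))

/-- TB: the loop follows the segment from `0` to `v` and back -/
def S_TB : Prop := ∀ (v : ℂ) (δ : ℝ), 0 < δ → ∃ t₀ : ℝ, 0 < t₀ ∧ ∀ (K : ℕ) (s : ℝ), 0 < K →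
  0 < s → 2 * K * s < t₀ →
  ENNReal.ofReal (1 / 2 * Real.exp (-((‖v‖ ^ 2 + 2 * ‖v‖ * δ) / (2 * K * s)))) ≤
    PG s (2 * K) {X | (∀ z ∈ pts X, ∃ x : ℝ, 0 ≤ x ∧ x ≤ 1 ∧ ‖z - x * v‖ ≤ δ) ∧
      ∃ z ∈ pts X, ‖z - v‖ ≤ δ}


/-- TM: moments from tails -/
def S_TM : Prop := ∀ (Ω : Type) (_ : MeasurableSpace Ω) (μ : Measure Ω) (Y : Ω → ℝ)
  (K θ t y₀ a : ℝ) (j : ℕ), Measurable Y → 0 ≤ K → 0 < θ → 0 < t → 0 < a → 0 ≤ y₀ →
  (∀ x : ℝ, 0 ≤ x → μ {ω | x ≤ Y ω} ≤ ENNReal.ofReal (K * Real.exp (-(θ * x ^ 2 / t)))) →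
  Summable (fun n : ℕ => (y₀ + (n + 1) * a) ^ j * Real.exp (-(θ * (n * a) ^ 2 / t))) ∧
  ∫⁻ ω, {ω | y₀ ≤ Y ω}.indicator (fun ω => ENNReal.ofReal (Y ω ^ j)) ω ∂μ ≤
      ENNReal.ofReal (K * Real.exp (-(θ * y₀ ^ 2 / t)) *
        ∑' n : ℕ, (y₀ + (n + 1) * a) ^ j * Real.exp (-(θ * (n * a) ^ 2 / t)))




theorem pts_finite {M : ℕ} (X : Fin M → ℂ) : (pts X).Finite := (finite_Iio M).image _

theorem pts_zero {M : ℕ} (hM : 0 < M) (X : Fin M → ℂ) : (0 : ℂ) ∈ pts X :=
  ⟨0, hM, by rw [gm, sg_zero]⟩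

/-- the support function of a finite set -/
theorem hS_spec {S : Set ℂ} (hS' : S.Finite) (h0 : S.Nonempty) (u : ℂ) :
    (∃ z ∈ S, hS S u = ip u z) ∧ ∀ z ∈ S, ip u z ≤ hS S u := by
  have hf : (ip u '' S).Finite := hS'.image _
  have hn : (ip u '' S).Nonempty := h0.image _
  refine ⟨?_, fun z hz => le_csSup hf.bddAbove (mem_image_of_mem _ hz)⟩
  obtain ⟨z, hz, he⟩ := hn.csSup_mem hf
  exact ⟨z, hz, he.symm⟩

theorem hS_nonneg {S : Set ℂ} (hS' : S.Finite) (h0 : (0 : ℂ) ∈ S) (u : ℂ) : 0 ≤ hS S u := by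
  have := (hS_spec hS' ⟨0, h0⟩ u).2 0 h0
  rwa [ip_zero_right] at this

theorem hS_lt {S : Set ℂ} (hS' : S.Finite) (h0 : S.Nonempty) (u : ℂ) (x : ℝ) :
    hS S u < x ↔ ∀ z ∈ S, ip u z < x := by
  obtain ⟨⟨w, hw, he⟩, h⟩ := hS_spec hS' h0 u
  constructor
  · intro h1 z hz; exact (h z hz).trans_lt h1
  · intro h1; rw [he]; exact h1 w hw

/-- the support number of the loop -/
noncomputable def hx {M : ℕ} (X : Fin M → ℂ) (u : ℂ) : ℝ := hS (pts X) u

theorem hx_nonneg {M : ℕ} (hM : 0 < M) (X : Fin M → ℂ) (u : ℂ) : 0 ≤ hx X u :=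
  hS_nonneg (pts_finite X) (pts_zero hM X) u

theorem sup_cont {α : Type} [TopologicalSpace α] {M : ℕ} (hM : 0 < M) (f : ℕ → α → ℝ)
    (hf : ∀ r, Continuous (f r)) : Continuous (fun X => sSup ((fun r => f r X) '' Iio M)) := by
  have hne : (Finset.range M).Nonempty := ⟨0, Finset.mem_range.2 hM⟩
  have h := Continuous.finset_sup'_apply (s := Finset.range M) (f := f) hne fun r _ => hf r
  convert h using 2 with X
  rw [Finset.sup'_eq_csSup_image]
  congr 2
  ext r; simp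

theorem hx_cont {M : ℕ} (hM : 0 < M) (u : ℂ) : Continuous (fun X : Fin M → ℂ => hx X u) := by
  have h := sup_cont hM (fun r (X : Fin M → ℂ) => ip u (gm X r)) fun r =>
    (ip_cont u).comp (gm_cont r)
  convert h using 2 with X
  rw [hx, hS, pts, image_image]

/-- the largest distance of the loop from its starting point -/
noncomputable def mx {M : ℕ} (X : Fin M → ℂ) : ℝ := sSup ((fun r => ‖gm X r‖) '' Iio M)

theorem mx_cont {M : ℕ} (hM : 0 < M) : Continuous (fun X : Fin M → ℂ => mx X) :=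
  sup_cont hM (fun r (X : Fin M → ℂ) => ‖gm X r‖) fun r => (gm_cont r).norm

theorem mx_spec {M : ℕ} (hM : 0 < M) (X : Fin M → ℂ) :
    (∃ r < M, mx X = ‖gm X r‖) ∧ ∀ r < M, ‖gm X r‖ ≤ mx X := by
  have hf : ((fun r => ‖gm X r‖) '' Iio M).Finite := (finite_Iio M).image _
  have hn : ((fun r => ‖gm X r‖) '' Iio M).Nonempty := ⟨_, mem_image_of_mem _ (show 0 ∈ Iio M from hM)⟩
  refine ⟨?_, fun r hr => ?_⟩
  · obtain ⟨r, hr, he⟩ := hn.csSup_mem hf
    exact ⟨r, hr, he.symm⟩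
  · exact le_csSup hf.bddAbove (mem_image_of_mem _ hr)

theorem mx_nonneg {M : ℕ} (hM : 0 < M) (X : Fin M → ℂ) : 0 ≤ mx X :=
  (norm_nonneg _).trans ((mx_spec hM X).2 0 hM)

theorem hx_le {M : ℕ} (hM : 0 < M) (X : Fin M → ℂ) (u : ℂ) : hx X u ≤ ‖u‖ * mx X := by
  obtain ⟨⟨z, ⟨r, hr, rfl⟩, he⟩, -⟩ := hS_spec (pts_finite X) ⟨0, pts_zero hM X⟩ u
  rw [hx, he]
  exact (le_abs_self _).trans ((ip_le _ _).trans
    (mul_le_mul_of_nonneg_left ((mx_spec hM X).2 r hr) (norm_nonneg _)))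

/-! ### Scaling -/

theorem gm_smul {M : ℕ} (c : ℂ) (X : Fin M → ℂ) (r : ℕ) : gm (fun i => c * X i) r = c * gm X r := by
  have h : ce (fun i => c * X i) = fun i => c * ce X i := by
    funext i; simp only [ce, mn, ← Finset.mul_sum]; ring
  rw [gm, gm, h, sg, sg, Finset.mul_sum]
  refine Finset.sum_congr rfl fun i _ => ?_
  split_ifs <;> simp

theorem hx_smul {M : ℕ} (hM : 0 < M) {c : ℝ} (hc : 0 ≤ c) (X : Fin M → ℂ) (u : ℂ) :
    hx (fun i => (c : ℂ) * X i) u = c * hx X u := by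
  have key : ∀ Y : Fin M → ℂ, hx (fun i => (c : ℂ) * Y i) u ≤ c * hx Y u := by
    intro Y
    obtain ⟨⟨z, ⟨r, hr, rfl⟩, he⟩, -⟩ := hS_spec (pts_finite (fun i => (c : ℂ) * Y i))
      ⟨0, pts_zero hM _⟩ u
    rw [hx, he, gm_smul, ip_smul_right]
    exact mul_le_mul_of_nonneg_left ((hS_spec (pts_finite Y) ⟨0, pts_zero hM _⟩ u).2 _
      ⟨r, hr, rfl⟩) hc
  refine le_antisymm (key X) ?_
  obtain ⟨⟨z, ⟨r, hr, rfl⟩, he⟩, -⟩ := hS_spec (pts_finite X) ⟨0, pts_zero hM _⟩ u
  rw [hx, hx, he, ← ip_smul_right, ← gm_smul]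
  exact (hS_spec (pts_finite _) ⟨0, pts_zero hM _⟩ u).2 _ ⟨r, hr, rfl⟩

/-! ### The area -/




theorem PG_cons {s : ℝ} (hs : 0 < s) (M : ℕ) {S : Set (Fin (M + 1) → ℂ)} (hS : MeasurableSet S) :
    PG s (M + 1) S = ∫⁻ a, PG s M {x | (Fin.cons a x : Fin (M + 1) → ℂ) ∈ S} ∂(nG s) := by
  have := nG_prob hs
  rw [← lintegral_indicator_one hS, PG, lint_cons M (measurable_one.indicator hS)]
  refine lintegral_congr fun a => ?_
  have hm : MeasurableSet {x : Fin M → ℂ | (Fin.cons a x : Fin (M + 1) → ℂ) ∈ S} :=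
    (cons_meas.comp (measurable_prodMk_left (x := a))) hS
  rw [PG, ← lintegral_indicator_one hm]
  rfl

/-- the event of a large increment -/
def mxs {M : ℕ} (m k : ℕ) (u : ℂ) (y : ℝ) : Set (Fin M → ℂ) :=
  {X | ∃ o ≤ k, y ≤ ip u (sg X (m + o) - sg X m)}

theorem mxs_meas {M : ℕ} (m k : ℕ) (u : ℂ) (y : ℝ) : MeasurableSet (mxs (M := M) m k u y) := by
  have : mxs (M := M) m k u y = ⋃ o ∈ Iic k, {X : Fin M → ℂ | y ≤ ip u (sg X (m + o) - sg X m)} := by
    ext X; simp [mxs]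
  rw [this]
  refine MeasurableSet.biUnion (Set.to_countable _) fun o _ => ?_
  exact measurableSet_le measurable_const
    ((ip_cont u).comp ((sg_cont (m + o)).sub (sg_cont m))).measurable

theorem one_le_bd {s lam y : ℝ} (hs : 0 < s) (hl : 0 ≤ lam) (k : ℕ) (hy : y ≤ 0) :
    1 ≤ ENNReal.ofReal (Real.exp (-(lam * y) + lam ^ 2 * s * k)) := by
  rw [ENNReal.one_le_ofReal]
  apply Real.one_le_exp
  have : 0 ≤ lam * (-y) := mul_nonneg hl (by linarith)
  have : 0 ≤ lam ^ 2 * s * k := by positivity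
  nlinarith

theorem mx0 {s lam : ℝ} (hs : 0 < s) (hl : 0 ≤ lam) {u : ℂ} (hu : ‖u‖ = 1) : ∀ (M k : ℕ) (y : ℝ),
    PG s M (mxs 0 k u y) ≤ ENNReal.ofReal (Real.exp (-(lam * y) + lam ^ 2 * s * k)) := by
  intro M
  induction M with
  | zero =>
    intro k y
    have := PG_prob hs 0
    rcases le_or_gt y 0 with hy | hy
    · exact prob_le_one.trans (one_le_bd hs hl k hy)
    · have : mxs (M := 0) 0 k u y = ∅ := by
        ext X
        simp only [mxs, mem_ofPred_eq, mem_empty_iff_false, iff_false, not_exists, not_and, not_le]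
        intro o _
        simp [sg, ip_zero_right, hy]
      rw [this]; simp
  | succ M ih =>
    intro k y
    have := PG_prob hs (M + 1)
    rcases le_or_gt y 0 with hy | hy
    · exact prob_le_one.trans (one_le_bd hs hl k hy)
    cases k with
    | zero =>
      have : mxs (M := M + 1) 0 0 u y = ∅ := by
        ext X
        simp only [mxs, mem_ofPred_eq, mem_empty_iff_false, iff_false, not_exists, not_and, not_le]
        intro o ho
        have : o = 0 := by omega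
        subst this
        simp [ip_zero_right, hy]
      rw [this]; simp
    | succ k =>
      rw [PG_cons hs M (mxs_meas _ _ _ _)]
      have h1 : ∀ a : ℂ, PG s M {x | (Fin.cons a x : Fin (M + 1) → ℂ) ∈ mxs 0 (k + 1) u y} ≤
          ENNReal.ofReal (Real.exp (-(lam * y) + lam ^ 2 * s * k)) *
            ENNReal.ofReal (Real.exp (ip ((lam : ℂ) * u) a)) := by
        intro a
        have h2 : {x : Fin M → ℂ | (Fin.cons a x : Fin (M + 1) → ℂ) ∈ mxs 0 (k + 1) u y} ⊆
            mxs 0 k u (y - ip u a) := by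
          rintro x ⟨o, ho, h3⟩
          cases o with
          | zero => simp [ip_zero_right] at h3; linarith
          | succ o =>
            refine ⟨o, by omega, ?_⟩
            rw [zero_add, sg_zero, sub_zero, sg_cons, ip_add_right] at h3
            rw [zero_add, sg_zero, sub_zero]
            linarith
        refine (measure_mono h2).trans ((ih k _).trans (le_of_eq ?_))
        rw [← ENNReal.ofReal_mul (Real.exp_pos _).le, ← Real.exp_add, ip_smul_left]
        congr 2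
        ring
      refine (lintegral_mono h1).trans ?_
      rw [lintegral_const_mul' _ _ ENNReal.ofReal_ne_top, mgf_nG hs,
        ← ENNReal.ofReal_mul (Real.exp_pos _).le, ← Real.exp_add]
      apply le_of_eq
      congr 2
      rw [norm_mul, hu, Complex.norm_real, Real.norm_eq_abs, mul_one, sq_abs]
      push_cast
      ring

theorem mx1 {s lam : ℝ} (hs : 0 < s) (hl : 0 ≤ lam) {u : ℂ} (hu : ‖u‖ = 1) : ∀ (m M k : ℕ) (y : ℝ),
    PG s M (mxs m k u y) ≤ ENNReal.ofReal (Real.exp (-(lam * y) + lam ^ 2 * s * k)) := by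
  intro m
  induction m with
  | zero => exact mx0 hs hl hu
  | succ m ih =>
    intro M k y
    have := PG_prob hs M
    rcases le_or_gt y 0 with hy | hy
    · exact prob_le_one.trans (one_le_bd hs hl k hy)
    cases M with
    | zero =>
      have : mxs (M := 0) (m + 1) k u y = ∅ := by
        ext X
        simp only [mxs, mem_ofPred_eq, mem_empty_iff_false, iff_false, not_exists, not_and, not_le]
        intro o _
        simp [sg, ip_zero_right, hy]
      rw [this]; simp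
    | succ M =>
      rw [PG_cons hs M (mxs_meas _ _ _ _)]
      have h1 : ∀ a : ℂ, PG s M {x | (Fin.cons a x : Fin (M + 1) → ℂ) ∈ mxs (m + 1) k u y} ≤
          ENNReal.ofReal (Real.exp (-(lam * y) + lam ^ 2 * s * k)) := by
        intro a
        have h2 : {x : Fin M → ℂ | (Fin.cons a x : Fin (M + 1) → ℂ) ∈ mxs (m + 1) k u y} ⊆
            mxs m k u y := by
          rintro x ⟨o, ho, h3⟩
          refine ⟨o, ho, ?_⟩
          rw [show m + 1 + o = (m + o) + 1 by ring, sg_cons, sg_cons] at h3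
          rwa [show a + sg x (m + o) - (a + sg x m) = sg x (m + o) - sg x m by ring] at h3
        exact (measure_mono h2).trans (ih M k y)
      have := nG_prob hs
      refine (lintegral_mono h1).trans ?_
      rw [lintegral_const, measure_univ, mul_one]

theorem comp4 {z : ℂ} {y : ℝ} (h : y ≤ ‖z‖) :
    ∃ i : Fin 4, y / √2 ≤ ip ((![1, -1, I, -I] : Fin 4 → ℂ) i) z := by
  by_contra hc
  push Not at hc
  have h0 := hc 0
  have h1 := hc 1
  have h2 := hc 2
  have h3 := hc 3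
  simp [ip] at h0 h1 h2 h3
  have hs : (0 : ℝ) < √2 := by positivity
  have hy : 0 < y / √2 := by
    rcases le_or_gt (y / √2) 0 with h4 | h4
    · linarith
    · exact h4
  have e1 : z.re ^ 2 < (y / √2) ^ 2 := by nlinarith
  have e2 : z.im ^ 2 < (y / √2) ^ 2 := by nlinarith
  have e3 : (y / √2) ^ 2 = y ^ 2 / 2 := by rw [div_pow, Real.sq_sqrt (by norm_num)]
  have e4 : ‖z‖ ^ 2 = z.re ^ 2 + z.im ^ 2 := by
    rw [← Complex.normSq_eq_norm_sq, Complex.normSq_apply]; ring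
  have hy' : 0 < y := by
    by_contra h5
    have : y / √2 ≤ 0 := div_nonpos_of_nonpos_of_nonneg (by linarith) hs.le
    linarith
  have e5 : y ^ 2 ≤ ‖z‖ ^ 2 := by nlinarith
  rw [e3] at e1 e2
  linarith

theorem mx2 {s : ℝ} (hs : 0 < s) (m M k : ℕ) (hk : 0 < k) {y : ℝ} (hy : 0 ≤ y) :
    PG s M {X | ∃ o ≤ k, y ≤ ‖sg X (m + o) - sg X m‖} ≤
      ENNReal.ofReal (4 * Real.exp (-(y ^ 2 / (8 * k * s)))) := by
  have hk' : (0 : ℝ) < k := by exact_mod_cast hk
  set U : Fin 4 → ℂ := ![1, -1, I, -I] with hU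
  have hU1 : ∀ i, ‖U i‖ = 1 := by
    intro i
    fin_cases i <;> simp [hU]
  have hsub : {X : Fin M → ℂ | ∃ o ≤ k, y ≤ ‖sg X (m + o) - sg X m‖} ⊆
      ⋃ i : Fin 4, mxs m k (U i) (y / √2) := by
    rintro X ⟨o, ho, h⟩
    obtain ⟨i, hi⟩ := comp4 h
    exact mem_iUnion.2 ⟨i, o, ho, hi⟩
  set lam : ℝ := (y / √2) / (2 * k * s) with hlam
  have hl : 0 ≤ lam := by positivity
  refine (measure_mono hsub).trans ((measure_iUnion_fintype_le _ _).trans ?_)
  refine (Finset.sum_le_sum fun i _ => mx1 hs hl (hU1 i) m M k (y / √2)).trans ?_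
  rw [Finset.sum_const, Finset.card_univ, Fintype.card_fin, nsmul_eq_mul,
    ENNReal.ofReal_mul (by norm_num)]
  apply le_of_eq
  congr 1
  · simp
  · congr 2
    have e3 : (y / √2) ^ 2 = y ^ 2 / 2 := by rw [div_pow, Real.sq_sqrt (by norm_num)]
    have e4 : -(lam * (y / √2)) + lam ^ 2 * s * k = -((y / √2) ^ 2 / (4 * k * s)) := by
      rw [hlam]
      field_simp
      ring
    rw [e4, e3]
    field_simp
    ring

theorem gm_eq {M : ℕ} (X : Fin M → ℂ) {r : ℕ} (hr : r ≤ M) : gm X r = sg X r - r * mn X := by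
  unfold gm sg ce
  have h1 : ∀ l : Fin M, (if l.val < r then X l - mn X else 0) =
      (if l.val < r then X l else 0) - (if l.val < r then mn X else 0) := by
    intro l; split_ifs <;> simp
  rw [Finset.sum_congr rfl fun l _ => h1 l, Finset.sum_sub_distrib]
  congr 1
  rw [← Finset.sum_filter, Finset.sum_const, nsmul_eq_mul]
  congr 2
  rw [Fin.card_filter_val_lt, min_eq_right hr]

theorem fl : S_FL := by
  intro N k s x hN hk hs hx
  have hN' : (0 : ℝ) < N := by exact_mod_cast hN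
  have hk' : (0 : ℝ) < k := by exact_mod_cast hk
  have hN1 : (1 : ℝ) ≤ N := by exact_mod_cast hN
  have hM : 0 < N * k := Nat.mul_pos hN hk
  set A : Fin N → Set (Fin (N * k) → ℂ) := fun j =>
    {X | ∃ o ≤ k, x / 2 ≤ ‖sg X (j.val * k + o) - sg X (j.val * k)‖} with hA
  set B : Set (Fin (N * k) → ℂ) := {X | ∃ o ≤ N * k, N * (x / 2) ≤ ‖sg X (0 + o) - sg X 0‖} with hB
  have hsub : {X : Fin (N * k) → ℂ | ∃ j < N, ∃ o < k, x ≤ ‖gm X (j * k + o) - gm X (j * k)‖} ⊆
      (⋃ j, A j) ∪ B := by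
    rintro X ⟨j, hj, o, ho, h⟩
    have hjk : j * k + o ≤ N * k := by
      have : (j + 1) * k ≤ N * k := Nat.mul_le_mul_right k hj
      nlinarith
    rw [gm_eq X hjk, gm_eq X (by omega : j * k ≤ N * k)] at h
    by_cases h1 : x / 2 ≤ ‖sg X (j * k + o) - sg X (j * k)‖
    · exact Or.inl (mem_iUnion.2 ⟨⟨j, hj⟩, o, ho.le, h1⟩)
    · refine Or.inr ⟨N * k, le_rfl, ?_⟩
      push Not at h1
      rw [zero_add, sg_zero, sub_zero, sg_all]
      have e : sg X (j * k + o) - ((j * k + o : ℕ) : ℂ) * mn X - (sg X (j * k) - ((j * k : ℕ) : ℂ) * mn X) =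
          (sg X (j * k + o) - sg X (j * k)) - (o : ℂ) * mn X := by push_cast; ring
      rw [e] at h
      have h2 := norm_sub_le (sg X (j * k + o) - sg X (j * k)) ((o : ℂ) * mn X)
      have h3 : ‖(o : ℂ) * mn X‖ ≤ ‖∑ l, X l‖ / N := by
        rw [norm_mul, mn, norm_div, Complex.norm_natCast, Complex.norm_natCast]
        push_cast
        rw [mul_div_assoc', div_le_div_iff₀ (by positivity) hN']
        have ho' : (o : ℝ) ≤ k := by exact_mod_cast ho.le
        have := norm_nonneg (∑ l, X l)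
        have h4 : (o : ℝ) * (‖∑ l, X l‖ * N) ≤ k * (‖∑ l, X l‖ * N) :=
          mul_le_mul_of_nonneg_right ho' (by positivity)
        nlinarith
      have h4 : x / 2 ≤ ‖∑ l, X l‖ / N := by linarith
      rw [le_div_iff₀ hN'] at h4
      linarith
  refine (measure_mono hsub).trans ((measure_union_le _ _).trans ?_)
  have h1 : PG s (N * k) (⋃ j, A j) ≤ N * ENNReal.ofReal (4 * Real.exp (-(x ^ 2 / (32 * k * s)))) := by
    refine (measure_iUnion_fintype_le _ _).trans ?_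
    refine (Finset.sum_le_sum fun j _ => mx2 hs (j.val * k) (N * k) k hk (by linarith : 0 ≤ x / 2)).trans ?_
    rw [Finset.sum_const, Finset.card_univ, Fintype.card_fin, nsmul_eq_mul]
    apply le_of_eq
    congr 5
    ring
  have h2 : PG s (N * k) B ≤ ENNReal.ofReal (4 * Real.exp (-(x ^ 2 / (32 * k * s)))) := by
    refine (mx2 hs 0 (N * k) (N * k) hM (by positivity : 0 ≤ N * (x / 2))).trans ?_
    apply ENNReal.ofReal_le_ofReal
    apply mul_le_mul_of_nonneg_left _ (by norm_num)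
    apply Real.exp_le_exp.2
    apply neg_le_neg
    push_cast
    have e : ((N : ℝ) * (x / 2)) ^ 2 / (8 * (N * k) * s) = N * (x ^ 2 / (32 * k * s)) := by
      field_simp
      ring
    rw [e]
    have : 0 ≤ x ^ 2 / (32 * k * s) := by positivity
    nlinarith
  refine (add_le_add h1 h2).trans (le_of_eq ?_)
  have e : (N : ℝ≥0∞) = ENNReal.ofReal N := by simp
  rw [e, ← ENNReal.ofReal_mul hN'.le, ← ENNReal.ofReal_add (by positivity) (by positivity)]
  congr 1
  ring




theorem tm_summable {θ t y₀ a : ℝ} (j : ℕ) (hθ : 0 < θ) (ht : 0 < t) (ha : 0 < a) (hy : 0 ≤ y₀) :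
    Summable (fun n : ℕ => (y₀ + (n + 1) * a) ^ j * Real.exp (-(θ * (n * a) ^ 2 / t))) := by
  set c : ℝ := θ * a ^ 2 / t with hc
  have hc0 : 0 < c := by positivity
  set r : ℝ := Real.exp (-c) with hr
  have hr0 : 0 < r := Real.exp_pos _
  have hr1 : r < 1 := by rw [hr, ← Real.exp_zero]; exact Real.exp_lt_exp.2 (by linarith)
  have h1 : Summable (fun n : ℕ => (n : ℝ) ^ j * r ^ n) :=
    summable_pow_mul_geometric_of_norm_lt_one j (by rwa [Real.norm_of_nonneg hr0.le])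
  have h2 : Summable (fun n : ℕ => ((n + 1 : ℕ) : ℝ) ^ j * r ^ (n + 1)) :=
    (summable_nat_add_iff 1).2 h1
  have h3 := (h2.mul_left ((y₀ + a) ^ j * r⁻¹))
  refine Summable.of_nonneg_of_le (fun n => by positivity) (fun n => ?_) h3
  have h4 : y₀ + (n + 1) * a ≤ (y₀ + a) * ((n + 1 : ℕ) : ℝ) := by
    push_cast
    nlinarith [mul_nonneg hy (Nat.cast_nonneg (α := ℝ) n)]
  have h5 : Real.exp (-(θ * (n * a) ^ 2 / t)) ≤ r ^ n := by
    rw [hr, ← Real.exp_nat_mul]
    refine Real.exp_le_exp.2 ?_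
    have h6 : (n : ℝ) ≤ (n : ℝ) ^ 2 := by
      rcases Nat.eq_zero_or_pos n with h | h
      · subst h; simp
      · have : (1 : ℝ) ≤ n := by exact_mod_cast h
        nlinarith
    have h7 : θ * (n * a) ^ 2 / t = c * (n : ℝ) ^ 2 := by rw [hc]; ring
    rw [h7]
    nlinarith
  calc (y₀ + (n + 1) * a) ^ j * Real.exp (-(θ * (n * a) ^ 2 / t))
      ≤ ((y₀ + a) * ((n + 1 : ℕ) : ℝ)) ^ j * r ^ n := by
        refine mul_le_mul (pow_le_pow_left₀ (by positivity) h4 j) h5 (Real.exp_pos _).le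
          (by positivity)
    _ = (y₀ + a) ^ j * r⁻¹ * (((n + 1 : ℕ) : ℝ) ^ j * r ^ (n + 1)) := by
        rw [mul_pow, pow_succ]
        field_simp

theorem tm : S_TM := by
  intro Ω _ μ Y K θ t y₀ a j hY hK hθ ht ha hy hμ
  have hs := tm_summable j hθ ht ha hy
  refine ⟨hs, ?_⟩
  have hm : ∀ n : ℕ, MeasurableSet {ω | y₀ + n * a ≤ Y ω} := fun n =>
    measurableSet_le measurable_const hY
  have h1 : ∀ ω, {ω | y₀ ≤ Y ω}.indicator (fun ω => ENNReal.ofReal (Y ω ^ j)) ω ≤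
      ∑' n : ℕ, ENNReal.ofReal ((y₀ + (n + 1) * a) ^ j) *
        {ω | y₀ + n * a ≤ Y ω}.indicator (1 : Ω → ℝ≥0∞) ω := by
    intro ω
    by_cases h : y₀ ≤ Y ω
    · rw [indicator_of_mem (show ω ∈ {ω | y₀ ≤ Y ω} from h)]
      set n : ℕ := ⌊(Y ω - y₀) / a⌋₊ with hn
      have h2 : (n : ℝ) ≤ (Y ω - y₀) / a := Nat.floor_le (div_nonneg (by linarith) ha.le)
      have h3 : (Y ω - y₀) / a < n + 1 := Nat.lt_floor_add_one _
      rw [le_div_iff₀ ha] at h2
      rw [div_lt_iff₀ ha] at h3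
      refine le_trans ?_ (ENNReal.le_tsum n)
      rw [indicator_of_mem (show ω ∈ {ω | y₀ + n * a ≤ Y ω} from by
        simp only [mem_ofPred_eq]; linarith), Pi.one_apply, mul_one]
      refine ENNReal.ofReal_le_ofReal (pow_le_pow_left₀ (hy.trans h) (by linarith) j)
    · rw [indicator_of_notMem (show ω ∉ {ω | y₀ ≤ Y ω} from h)]
      exact zero_le
  have h2 : ∀ n : ℕ, Real.exp (-(θ * (y₀ + n * a) ^ 2 / t)) ≤
      Real.exp (-(θ * y₀ ^ 2 / t)) * Real.exp (-(θ * (n * a) ^ 2 / t)) := by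
    intro n
    rw [← Real.exp_add]
    refine Real.exp_le_exp.2 ?_
    have h3 : 0 ≤ 2 * θ * y₀ * (n * a) / t := by positivity
    have h4 : θ * (y₀ + n * a) ^ 2 / t = θ * y₀ ^ 2 / t + θ * (n * a) ^ 2 / t +
        2 * θ * y₀ * (n * a) / t := by
      field_simp; ring
    rw [h4]
    linarith
  calc ∫⁻ ω, {ω | y₀ ≤ Y ω}.indicator (fun ω => ENNReal.ofReal (Y ω ^ j)) ω ∂μ
      ≤ ∫⁻ ω, ∑' n : ℕ, ENNReal.ofReal ((y₀ + (n + 1) * a) ^ j) *
        {ω | y₀ + n * a ≤ Y ω}.indicator (1 : Ω → ℝ≥0∞) ω ∂μ := lintegral_mono h1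
    _ = ∑' n : ℕ, ENNReal.ofReal ((y₀ + (n + 1) * a) ^ j) * μ {ω | y₀ + n * a ≤ Y ω} := by
        rw [lintegral_tsum fun n => ((measurable_one.indicator (hm n)).const_mul _).aemeasurable]
        refine tsum_congr fun n => ?_
        rw [lintegral_const_mul _ (measurable_one.indicator (hm n)), lintegral_indicator_one (hm n)]
    _ ≤ ∑' n : ℕ, ENNReal.ofReal (K * Real.exp (-(θ * y₀ ^ 2 / t)) *
          ((y₀ + (n + 1) * a) ^ j * Real.exp (-(θ * (n * a) ^ 2 / t)))) := by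
        refine ENNReal.tsum_le_tsum fun n => ?_
        refine (mul_le_mul_right (hμ (y₀ + n * a) (by positivity)) _).trans ?_
        rw [← ENNReal.ofReal_mul (by positivity)]
        refine ENNReal.ofReal_le_ofReal ?_
        have h5 := mul_le_mul_of_nonneg_left (mul_le_mul_of_nonneg_left (h2 n) hK)
          (show 0 ≤ (y₀ + (n + 1) * a) ^ j by positivity)
        refine h5.trans (le_of_eq (by ring))
    _ = ENNReal.ofReal (K * Real.exp (-(θ * y₀ ^ 2 / t)) *
        ∑' n : ℕ, (y₀ + (n + 1) * a) ^ j * Real.exp (-(θ * (n * a) ^ 2 / t))) := by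
        rw [← tsum_mul_left, ENNReal.ofReal_tsum_of_nonneg (fun n => by positivity)
          (hs.mul_left _)]




theorem mn_add {M : ℕ} (x e : Fin M → ℂ) : mn (fun i => x i + e i) = mn x + mn e := by
  simp only [mn, Finset.sum_add_distrib, add_div]

theorem sg_add {M : ℕ} (x e : Fin M → ℂ) (r : ℕ) :
    sg (fun i => x i + e i) r = sg x r + sg e r := by
  simp only [sg, ← Finset.sum_add_distrib]
  refine Finset.sum_congr rfl fun l _ => ?_
  by_cases h : l.val < r
  · simp only [h, if_true]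
  · simp only [h, if_false, add_zero]

theorem gm_add {M : ℕ} (x e : Fin M → ℂ) (r : ℕ) :
    gm (fun i => x i + e i) r = gm x r + gm e r := by
  have h : ce (fun i => x i + e i) = fun i => ce x i + ce e i := by
    funext i
    simp only [ce, mn_add]
    ring
  rw [gm, h, sg_add]
  rfl

theorem gm_all {M : ℕ} (hM : 0 < M) (x : Fin M → ℂ) : gm x M = 0 := by
  have hM' : (M : ℂ) ≠ 0 := by exact_mod_cast hM.ne'
  rw [gm, sg_all]
  simp only [ce, Finset.sum_sub_distrib, Finset.sum_const, Finset.card_univ, Fintype.card_fin,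
    nsmul_eq_mul, mn]
  field_simp
  ring

theorem gm_zero' {M : ℕ} (x : Fin M → ℂ) : gm x 0 = 0 := by
  rw [gm, sg_zero]

/-- the shift -/
noncomputable def tbe (K : ℕ) (v : ℂ) : Fin (2 * K) → ℂ := fun l =>
  if l.val < K then ((K : ℝ)⁻¹ : ℝ) * v else -(((K : ℝ)⁻¹ : ℝ) * v)

theorem tbe_range {K : ℕ} (v : ℂ) (r : ℕ) (hr : r ≤ 2 * K) :
    ∑ l ∈ Finset.range r, (if l < K then (((K : ℝ)⁻¹ : ℝ) : ℂ) * v else -((((K : ℝ)⁻¹ : ℝ) : ℂ) * v)) =
      ((((if r ≤ K then (r : ℝ) else 2 * K - r) * (K : ℝ)⁻¹ : ℝ)) : ℂ) * v := by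
  induction r with
  | zero => simp
  | succ r ih =>
    rw [Finset.sum_range_succ, ih (by omega)]
    by_cases h : r < K
    · have h1 : r ≤ K := by omega
      have h2 : r + 1 ≤ K := by omega
      simp only [h, h1, h2, if_true]
      push_cast
      ring
    · have h2 : ¬ (r + 1 ≤ K) := by omega
      simp only [h, h2, if_false]
      by_cases h3 : r ≤ K
      · have h4 : r = K := by omega
        simp only [h3, if_true]
        rw [h4]
        push_cast
        ring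
      · simp only [h3, if_false]
        push_cast
        ring

theorem sg_tbe {K : ℕ} (v : ℂ) (r : ℕ) (hr : r ≤ 2 * K) :
    sg (tbe K v) r = ((((if r ≤ K then (r : ℝ) else 2 * K - r) * (K : ℝ)⁻¹ : ℝ)) : ℂ) * v := by
  rw [← tbe_range v r hr, sg]
  have h := Fin.sum_univ_eq_sum_range (fun l : ℕ => if l < r then
    (if l < K then (((K : ℝ)⁻¹ : ℝ) : ℂ) * v else -((((K : ℝ)⁻¹ : ℝ) : ℂ) * v)) else 0) (2 * K)
  simp only [tbe]
  rw [h, ← Finset.sum_filter]
  congr 1
  ext l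
  simp only [Finset.mem_filter, Finset.mem_range]
  omega

theorem mn_tbe {K : ℕ} (hK : 0 < K) (v : ℂ) : mn (tbe K v) = 0 := by
  have h := sg_tbe (K := K) v (2 * K) le_rfl
  rw [sg_all] at h
  rw [mn, h]
  have : ¬ (2 * K ≤ K) := by omega
  simp [this]

theorem gm_tbe {K : ℕ} (hK : 0 < K) (v : ℂ) (r : ℕ) (hr : r ≤ 2 * K) :
    gm (tbe K v) r = ((((if r ≤ K then (r : ℝ) else 2 * K - r) * (K : ℝ)⁻¹ : ℝ)) : ℂ) * v := by
  have h : ce (tbe K v) = tbe K v := by
    funext i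
    simp [ce, mn_tbe hK]
  rw [gm, h, sg_tbe v r hr]

theorem ip_tbe {K : ℕ} (hK : 0 < K) (v : ℂ) (x : Fin (2 * K) → ℂ) :
    ∑ i, ip (tbe K v i) (x i) = 2 / K * ip v (gm x K) := by
  have h1 : ∑ i, ip (tbe K v i) (x i) = ∑ i, ip (tbe K v i) (ce x i) := by
    have h2 : ∑ i, ip (tbe K v i) (mn x) = 0 := by
      rw [← ip_sum_left]
      have := mn_tbe hK v
      rw [mn, div_eq_zero_iff] at this
      rcases this with h | h
      · rw [h, ip_zero_left]
      · exfalso
        have : (2 * K : ℕ) = 0 := by exact_mod_cast h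
        omega
    have h3 : ∑ i, ip (tbe K v i) (ce x i) = ∑ i, ip (tbe K v i) (x i) -
        ∑ i, ip (tbe K v i) (mn x) := by
      rw [← Finset.sum_sub_distrib]
      refine Finset.sum_congr rfl fun i _ => ?_
      rw [ce, ip_sub_right]
    rw [h3, h2, sub_zero]
  have h4 : ∀ i : Fin (2 * K), ip (tbe K v i) (ce x i) =
      2 / K * ip v (if i.val < K then ce x i else 0) - 1 / K * ip v (ce x i) := by
    intro i
    rw [tbe]
    by_cases h : i.val < K
    · simp only [h, if_true]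
      rw [ip_smul_left]
      ring
    · simp only [h, if_false]
      rw [ip_neg_left, ip_smul_left, ip_zero_right]
      ring
  rw [h1, Finset.sum_congr rfl fun i _ => h4 i, Finset.sum_sub_distrib, ← Finset.mul_sum,
    ← Finset.mul_sum, ← ip_sum_right, ← ip_sum_right]
  have h5 : ∑ i : Fin (2 * K), ce x i = 0 := by
    have := gm_all (M := 2 * K) (by omega) x
    rwa [gm, sg_all] at this
  rw [h5, ip_zero_right, mul_zero, sub_zero]
  rfl

theorem norm_tbe {K : ℕ} (hK : 0 < K) (v : ℂ) :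
    ∑ i, ‖tbe K v i‖ ^ 2 = 2 * ‖v‖ ^ 2 / K := by
  have hK' : (0 : ℝ) < K := by exact_mod_cast hK
  have h : ∀ i : Fin (2 * K), ‖tbe K v i‖ ^ 2 = (K : ℝ)⁻¹ ^ 2 * ‖v‖ ^ 2 := by
    intro i
    have : ‖tbe K v i‖ = (K : ℝ)⁻¹ * ‖v‖ := by
      rw [tbe]
      split_ifs
      · rw [norm_mul, Complex.norm_real, Real.norm_eq_abs, abs_of_pos (by positivity)]
      · rw [norm_neg, norm_mul, Complex.norm_real, Real.norm_eq_abs, abs_of_pos (by positivity)]
    rw [this]; ring
  rw [Finset.sum_congr rfl fun i _ => h i, Finset.sum_const, Finset.card_univ, Fintype.card_fin,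
    nsmul_eq_mul]
  push_cast
  field_simp

/-- loops staying close to the loop `φ` -/
def clTB (K : ℕ) (φ : ℕ → ℂ) (δ : ℝ) : Set (Fin (2 * K) → ℂ) := {X | ∀ r < 2 * K, ‖gm X r - φ r‖ ≤ δ}

theorem clTB_meas (K : ℕ) (φ : ℕ → ℂ) (δ : ℝ) : MeasurableSet (clTB K φ δ) := by
  have : clTB K φ δ = ⋂ r ∈ Iio (2 * K), {X : Fin (2 * K) → ℂ | ‖gm X r - φ r‖ ≤ δ} := by
    ext X; simp [clTB]
  rw [this]
  refine MeasurableSet.biInter (Set.to_countable _) fun r _ => ?_
  have h : Continuous (fun X : Fin (2 * K) → ℂ => ‖gm X r - φ r‖) :=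
    ((gm_cont r).sub continuous_const).norm
  exact (isClosed_le h continuous_const).measurableSet

theorem exp_three : (16 : ℝ) ≤ Real.exp 3 := by
  have h1 := Real.exp_one_gt_d9
  have h2 : Real.exp 3 = Real.exp 1 ^ 3 := by
    rw [← Real.exp_nat_mul]; norm_num
  rw [h2]
  nlinarith [pow_le_pow_left₀ (by norm_num : (0 : ℝ) ≤ 2.7182818283) h1.le 3]

theorem half_le (h : S_FL) {K : ℕ} (hK : 0 < K) {s δ : ℝ} (hs : 0 < s) (hδ : 0 < δ)
    (ht : 2 * K * s < δ ^ 2 / 96) :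
    ENNReal.ofReal (1 / 2) ≤ PG s (2 * K) (clTB K (fun _ => 0) δ) := by
  have hK' : (0 : ℝ) < K := by exact_mod_cast hK
  have := PG_prob hs (2 * K)
  have h1 := h 1 (2 * K) s δ one_pos (by omega) hs hδ.le
  rw [one_mul (2 * K)] at h1
  have h2 : (clTB K (fun _ => 0) δ)ᶜ ⊆ {X : Fin (2 * K) → ℂ | ∃ j < 1, ∃ o < 2 * K,
      δ ≤ ‖gm X (j * (2 * K) + o) - gm X (j * (2 * K))‖} := by
    intro X hX
    simp only [clTB, mem_compl_iff, mem_ofPred_eq, not_forall, not_le, sub_zero] at hX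
    obtain ⟨r, hr, hX⟩ := hX
    refine ⟨0, one_pos, r, hr, ?_⟩
    rw [zero_mul, zero_add, gm_zero', sub_zero]
    exact hX.le
  have h3 : PG s (2 * K) (clTB K (fun _ => 0) δ)ᶜ ≤ ENNReal.ofReal (1 / 2) := by
    refine (measure_mono h2).trans (h1.trans (ENNReal.ofReal_le_ofReal ?_))
    have h4 : (3 : ℝ) ≤ δ ^ 2 / (32 * ((2 * K : ℕ) : ℝ) * s) := by
      push_cast
      rw [le_div_iff₀ (by positivity)]
      linarith
    have h5 : Real.exp (-(δ ^ 2 / (32 * ((2 * K : ℕ) : ℝ) * s))) ≤ 1 / 16 := by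
      calc Real.exp (-(δ ^ 2 / (32 * ((2 * K : ℕ) : ℝ) * s))) ≤ Real.exp (-3) :=
            Real.exp_le_exp.2 (by linarith)
        _ = 1 / Real.exp 3 := by rw [Real.exp_neg, one_div]
        _ ≤ 1 / 16 := one_div_le_one_div_of_le (by norm_num) exp_three
    push_cast at h5 ⊢
    linarith
  have h6 := prob_compl_eq_one_sub (μ := PG s (2 * K)) (clTB_meas K (fun _ => 0) δ)
  have h7 : PG s (2 * K) (clTB K (fun _ => 0) δ) = 1 - PG s (2 * K) (clTB K (fun _ => 0) δ)ᶜ := by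
    rw [h6, ENNReal.sub_sub_cancel ENNReal.one_ne_top prob_le_one]
  rw [h7]
  have h8 : ENNReal.ofReal (1 / 2) = 1 - ENNReal.ofReal (1 / 2) := by
    rw [← ENNReal.ofReal_one, ← ENNReal.ofReal_sub _ (by norm_num)]
    norm_num
  calc ENNReal.ofReal (1 / 2) = 1 - ENNReal.ofReal (1 / 2) := h8
    _ ≤ _ := tsub_le_tsub_left h3 _

theorem tb (h : S_FL) : S_TB := by
  intro v δ hδ
  refine ⟨δ ^ 2 / 96, by positivity, fun K s hK hs ht => ?_⟩
  have hK' : (0 : ℝ) < K := by exact_mod_cast hK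
  have hA := half_le h hK hs hδ ht
  set φ : ℕ → ℂ := fun r => gm (tbe K v) r with hφ
  -- the neighbourhood of the loop is contained in the event
  have hB : clTB K φ δ ⊆ {X | (∀ z ∈ pts X, ∃ x : ℝ, 0 ≤ x ∧ x ≤ 1 ∧ ‖z - x * v‖ ≤ δ) ∧
      ∃ z ∈ pts X, ‖z - v‖ ≤ δ} := by
    intro X hX
    refine ⟨?_, ?_⟩
    · rintro z ⟨r, hr, rfl⟩
      have hr' : r < 2 * K := hr
      have h1 := hX r hr'
      simp only [hφ] at h1
      rw [gm_tbe hK v r hr'.le] at h1
      refine ⟨_, ?_, ?_, h1⟩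
      · split_ifs with h2
        · positivity
        · have : (r : ℝ) ≤ 2 * K := by exact_mod_cast hr'.le
          have h3 : (0 : ℝ) ≤ 2 * K - r := by linarith
          positivity
      · rw [← div_eq_mul_inv, div_le_one hK']
        split_ifs with h2
        · exact_mod_cast h2
        · have : (K : ℝ) ≤ r := by exact_mod_cast (not_le.1 h2).le
          linarith
    · refine ⟨gm X K, ⟨K, by simp only [mem_Iio]; omega, rfl⟩, ?_⟩
      have h1 := hX K (by omega)
      simp only [hφ] at h1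
      rw [gm_tbe hK v K (by omega)] at h1
      simp only [le_refl, if_true] at h1
      rw [mul_inv_cancel₀ hK'.ne'] at h1
      simpa using h1
  refine le_trans ?_ (measure_mono hB)
  have h1 : PG s (2 * K) (clTB K φ δ) = ∫⁻ x, (clTB K φ δ).indicator 1 x ∂(PG s (2 * K)) := by
    rw [lintegral_indicator_one (clTB_meas K φ δ)]
  rw [h1, shift_PG hs (2 * K) (tbe K v) (measurable_one.indicator (clTB_meas K φ δ))]
  have h2 : ∀ x : Fin (2 * K) → ℂ, (clTB K (fun _ => 0) δ).indicator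
      (fun _ => ENNReal.ofReal (Real.exp (-((‖v‖ ^ 2 + 2 * ‖v‖ * δ) / (2 * K * s))))) x ≤
      ENNReal.ofReal (Real.exp (-((2 * ∑ i, ip (tbe K v i) (x i) +
      ∑ i, ‖tbe K v i‖ ^ 2) / (4 * s)))) * (clTB K φ δ).indicator 1 (fun i => x i + tbe K v i) := by
    intro x
    by_cases hx : x ∈ clTB K (fun _ => 0) δ
    · have hx' : (fun i => x i + tbe K v i) ∈ clTB K φ δ := by
        intro r hr
        rw [gm_add]
        simp only [hφ, add_sub_cancel_right]
        have := hx r hr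
        simpa using this
      rw [indicator_of_mem hx, indicator_of_mem hx', Pi.one_apply, mul_one]
      refine ENNReal.ofReal_le_ofReal (Real.exp_le_exp.2 ?_)
      rw [ip_tbe hK, norm_tbe hK]
      have h3 : ip v (gm x K) ≤ ‖v‖ * δ := by
        have h4 := hx K (by omega)
        simp only [sub_zero] at h4
        exact ((le_abs_self _).trans (ip_le v _)).trans
          (mul_le_mul_of_nonneg_left h4 (norm_nonneg _))
      have e1 : (‖v‖ ^ 2 + 2 * ‖v‖ * δ) / (2 * K * s) =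
          (2 * (2 / K * (‖v‖ * δ)) + 2 * ‖v‖ ^ 2 / K) / (4 * s) := by
        field_simp
        ring
      rw [e1]
      refine neg_le_neg (div_le_div_of_nonneg_right ?_ (by positivity))
      have : 2 / (K : ℝ) * ip v (gm x K) ≤ 2 / K * (‖v‖ * δ) :=
        mul_le_mul_of_nonneg_left h3 (by positivity)
      linarith
    · rw [indicator_of_notMem hx]
      exact zero_le
  refine le_trans ?_ (lintegral_mono h2)
  rw [lintegral_indicator_const (clTB_meas K _ δ), mul_comm (1 / 2 : ℝ),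
    ENNReal.ofReal_mul (Real.exp_pos _).le]
  exact mul_le_mul_right hA _


theorem mx_tail (hFL : S_FL) {M : ℕ} {s x : ℝ} (hM : 0 < M) (hs : 0 < s) (hx : 0 ≤ x) :
    PG s M {X | x ≤ mx X} ≤ ENNReal.ofReal (8 * Real.exp (-(1 / 32 * x ^ 2 / (M * s)))) := by
  have key : ∀ M', M' = 1 * M →
      PG s M' {X | ∃ j < 1, ∃ o < M, x ≤ ‖gm X (j * M + o) - gm X (j * M)‖} ≤
        ENNReal.ofReal (8 * Real.exp (-(1 / 32 * x ^ 2 / (M * s)))) := by
    rintro _ rfl
    refine (hFL 1 M s x one_pos hM hs hx).trans (le_of_eq ?_)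
    congr 2
    · norm_num
    · congr 2
      have h1 : (M : ℝ) ≠ 0 := by positivity
      field_simp
  refine (measure_mono ?_).trans (key M (one_mul M).symm)
  intro X hX
  obtain ⟨⟨r, hr, he⟩, -⟩ := mx_spec hM X
  refine ⟨0, one_pos, r, hr, ?_⟩
  have h0 : gm X 0 = 0 := by rw [gm, sg_zero]
  rw [zero_mul, zero_add, h0, sub_zero, ← he]
  exact hX

/-- the constants of the moments -/
noncomputable def cm (j : ℕ) : ℝ := 8 * ∑' n : ℕ, ((n : ℝ) + 1) ^ j * Real.exp (-((n : ℝ) ^ 2 / 32))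

theorem cm_nonneg (j : ℕ) : 0 ≤ cm j := by
  unfold cm
  have : 0 ≤ ∑' n : ℕ, ((n : ℝ) + 1) ^ j * Real.exp (-((n : ℝ) ^ 2 / 32)) :=
    tsum_nonneg fun n => by positivity
  positivity

theorem mx_moment (hTM : S_TM) (hFL : S_FL) {M : ℕ} {s : ℝ} (hM : 0 < M) (hs : 0 < s) (j : ℕ) :
    ∫⁻ X, ENNReal.ofReal (mx X ^ j) ∂(PG s M) ≤ ENNReal.ofReal (cm j * (Real.sqrt (M * s)) ^ j) := by
  have ht : 0 < (M : ℝ) * s := by positivity
  have ha : 0 < Real.sqrt (M * s) := Real.sqrt_pos.2 ht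
  obtain ⟨-, h2⟩ := hTM (Fin M → ℂ) _ (PG s M) mx 8 (1 / 32) (M * s) 0 (Real.sqrt (M * s)) j
    (mx_cont hM).measurable (by norm_num) (by norm_num) ht ha le_rfl
    (fun x hx => mx_tail hFL hM hs hx)
  have h3 : ∀ X : Fin M → ℂ, {ω : Fin M → ℂ | (0 : ℝ) ≤ mx ω}.indicator
      (fun ω => ENNReal.ofReal (mx ω ^ j)) X = ENNReal.ofReal (mx X ^ j) := fun X =>
    indicator_of_mem (show X ∈ {ω : Fin M → ℂ | (0 : ℝ) ≤ mx ω} from mx_nonneg hM X) _
  simp_rw [h3] at h2
  refine h2.trans (ENNReal.ofReal_le_ofReal (le_of_eq ?_))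
  have h4 : ∀ n : ℕ, (0 + ((n : ℝ) + 1) * Real.sqrt (M * s)) ^ j *
      Real.exp (-(1 / 32 * (n * Real.sqrt (M * s)) ^ 2 / (M * s))) =
      (Real.sqrt (M * s)) ^ j * (((n : ℝ) + 1) ^ j * Real.exp (-((n : ℝ) ^ 2 / 32))) := by
    intro n
    have h5 : 1 / 32 * (n * Real.sqrt (M * s)) ^ 2 / (M * s) = (n : ℝ) ^ 2 / 32 := by
      rw [mul_pow, Real.sq_sqrt ht.le]
      field_simp
    rw [h5, zero_add, mul_pow]
    ring
  simp_rw [h4]
  rw [tsum_mul_left, cm]
  have h6 : -(1 / 32 * (0 : ℝ) ^ 2 / (M * s)) = 0 := by ring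
  rw [h6, Real.exp_zero]
  ring

theorem mx_pow_integrable (hTM : S_TM) (hFL : S_FL) {M : ℕ} {s : ℝ} (hM : 0 < M) (hs : 0 < s)
    (j : ℕ) : Integrable (fun X => mx X ^ j) (PG s M) := by
  refine ⟨((mx_cont hM).pow j).aestronglyMeasurable, ?_⟩
  rw [hasFiniteIntegral_iff_ofReal (Eventually.of_forall fun X => pow_nonneg (mx_nonneg hM X) j)]
  exact (mx_moment hTM hFL hM hs j).trans_lt ENNReal.ofReal_lt_top

theorem mx_pow_int (hTM : S_TM) (hFL : S_FL) {M : ℕ} {s : ℝ} (hM : 0 < M) (hs : 0 < s)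
    (j : ℕ) : ∫ X, mx X ^ j ∂(PG s M) ≤ cm j * (Real.sqrt (M * s)) ^ j := by
  rw [integral_eq_lintegral_of_nonneg_ae
    (Eventually.of_forall fun X => pow_nonneg (mx_nonneg hM X) j)
    ((mx_cont hM).pow j).aestronglyMeasurable]
  refine ENNReal.toReal_le_of_le_ofReal (mul_nonneg (cm_nonneg j) (by positivity)) ?_
  exact mx_moment hTM hFL hM hs j


end Pool.Agent.H212AN.G
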