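import Pool.Agent.H212AN.D0
import Pool.Agent.H212AN.G0

set_option autoImplicit false

/-!
# Project H212AN: the Brownian loop of the plane
`nG s` is the complex Gaussian measure with density `exp(-|z|²/4s)/(4πs)`, `PG s M` its `M`-th power,
`gm x r` the `r`-th point of the loop with increments `x - mean x` (file `G0`).
-/

namespace Pool.Agent.H212AN

open MeasureTheory Set Filter Topology Metric
open Pool.Agent.H212AN.G (nG PG gm)
open scoped Real ENNReal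

/-- continuous paths -/
abbrev Lo := C(unitInterval, ℂ)

noncomputable instance loMeasurableSpace : MeasurableSpace C(unitInterval, ℂ) := borel _

instance loBorelSpace : BorelSpace C(unitInterval, ℂ) := ⟨rfl⟩

/-- the time `r / (m + 1)` -/
noncomputable def gpt (m : ℕ) (r : Fin (m + 1)) : unitInterval :=
  ⟨(r : ℝ) / (m + 1), div_nonneg (Nat.cast_nonneg _) (by positivity), by
    rw [div_le_one (by positivity)]
    have : (r : ℕ) ≤ m := Nat.lt_succ_iff.1 r.2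
    have h : ((r : ℕ) : ℝ) ≤ m := by exact_mod_cast this
    linarith⟩

/-- the values on a grid -/
noncomputable def grid (m : ℕ) (b : Lo) : Fin (m + 1) → ℂ := fun r => b (gpt m r)

/-- `μ` is the law of the Brownian loop -/
structure IsLoop (μ : Measure Lo) : Prop where
  prob : IsProbabilityMeasure μ
  marg : ∀ m : ℕ, μ.map (grid m) =
    (PG (1 / ((m : ℝ) + 1)) (m + 1)).map (fun x (r : Fin (m + 1)) => gm x r)

/-- the Brownian loop exists -/
def S_loop : Prop := ∃ μ : Measure Lo, IsLoop μ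

/-- a map into the path space is measurable if all its evaluations are -/
def S_meas : Prop := ∀ (α : Type) (_ : MeasurableSpace α) (f : α → Lo),
  (∀ t, Measurable (fun a => f a t)) → Measurable f

/-- uniqueness of measures with given marginals -/
def S_uniq : Prop := ∀ μ ν : Measure Lo, IsFiniteMeasure μ → IsFiniteMeasure ν →
  (∀ m : ℕ, μ.map (grid m) = ν.map (grid m)) → μ = ν

/-- rotation and reflection invariance -/
def S_rot : Prop := ∀ μ : Measure Lo, IsLoop μ →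
  (∀ c : ℂ, ‖c‖ = 1 → μ.map (fun b => c • b) = μ) ∧ μ.map (fun b => star b) = μ

/-- moments -/
def S_mom : Prop := ∀ μ : Measure Lo, IsLoop μ → ∀ n : ℕ, Integrable (fun b : Lo => ‖b‖ ^ n) μ

/-- end points -/
def S_end : Prop := ∀ μ : Measure Lo, IsLoop μ → ∀ᵐ b ∂μ, b 0 = 0 ∧ b 1 = 0

/-- piecewise linear paths with nodes at the multiples of `1 / (m + 1)` -/
def PL (m : ℕ) (f : Lo) : Prop := ∃ v : ℕ → ℂ, ∀ r : ℕ, r ≤ m → ∀ t : unitInterval,
  (r : ℝ) ≤ ((m : ℝ) + 1) * t → ((m : ℝ) + 1) * t ≤ r + 1 →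
    f t = v r + ((((m : ℝ) + 1) * t - r : ℝ) : ℂ) * (v (r + 1) - v r)

/-- quasi-invariance (Cameron-Martin) -/
def S_qi : Prop := ∀ μ : Measure Lo, IsLoop μ → ∀ (m : ℕ) (f : Lo), PL m f → f 0 = 0 → f 1 = 0 →
  (μ.map (fun b => b + f)).AbsolutelyContinuous μ

/-- balls around piecewise linear loops have positive probability -/
def S_ball : Prop := ∀ μ : Measure Lo, IsLoop μ → ∀ (m : ℕ) (f : Lo), PL m f → f 0 = 0 →
  f 1 = 0 → ∀ ε > 0, 0 < μ (ball f ε)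

/-- the range of a path -/
def rg (b : Lo) : Set ℂ := range b

/-- almost surely no supporting line touches the loop in three points -/
def S_tri : Prop := ∀ μ : Measure Lo, IsLoop μ → ∀ᵐ b ∂μ, TP (rg b)

/-- for a fixed direction the supporting line touches the loop in one point -/
def S_sing : Prop := ∀ μ : Measure Lo, IsLoop μ →
  ∀ᵐ b ∂μ, ∀ k ∈ face (rg b) 0, ∀ k' ∈ face (rg b) 0, k = k'

/-- maximum over the loop of a polynomial -/
noncomputable def pe (κ c d : ℝ) (b : Lo) : ℝ :=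
  ⨆ t : unitInterval, ((b t).re + κ / 2 * (b t).im ^ 2 + c * (b t).im ^ 3 + d * (b t).im ^ 4)

/-- basic facts on `pe` -/
def S_pe : Prop :=
  Continuous (fun p : (ℝ × ℝ × ℝ) × Lo => pe p.1.1 p.1.2.1 p.1.2.2 p.2) ∧
  (∀ (κ c d : ℝ) (b : Lo), (∃ t, pe κ c d b = (b t).re + κ / 2 * (b t).im ^ 2 + c * (b t).im ^ 3
    + d * (b t).im ^ 4) ∧ ∀ t, (b t).re + κ / 2 * (b t).im ^ 2 + c * (b t).im ^ 3
    + d * (b t).im ^ 4 ≤ pe κ c d b) ∧
  (∀ (κ c d : ℝ) (b : Lo), |pe κ c d b| ≤ ‖b‖ + |κ| * ‖b‖ ^ 2 + |c| * ‖b‖ ^ 3 + |d| * ‖b‖ ^ 4) ∧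
  (∀ (κ c d κ' c' d' : ℝ) (b : Lo), |pe κ c d b - pe κ' c' d' b| ≤
    |κ - κ'| * ‖b‖ ^ 2 + |c - c'| * ‖b‖ ^ 3 + |d - d'| * ‖b‖ ^ 4) ∧
  (∀ (r κ c d : ℝ) (b : Lo), 0 ≤ r →
    pe κ c d (r • b) = r * pe (r * κ) (r ^ 2 * c) (r ^ 3 * d) b) ∧
  (∀ (κ c d : ℝ) (b : Lo), pe κ c d (star b) = pe κ (-c) d b) ∧
  (∀ (κ c d : ℝ) (b : Lo), b 0 = 0 → 0 ≤ pe κ c d b)

/-- the local functional -/
noncomputable def Gf (μ : Measure Lo) (κ c d : ℝ) : ℝ :=
  ∫ b, (pe κ c d b - κ / 2 * pe κ c d b ^ 2) ∂μ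

/-- the three constants -/
noncomputable def m0 (μ : Measure Lo) : ℝ := (2 * π)⁻¹ * ∫ b, per (rg b) ∂μ
noncomputable def m1 (μ : Measure Lo) : ℝ := (2 * π)⁻¹ * ∫ b, ar2 (rg b) ∂μ
noncomputable def m2 (μ : Measure Lo) : ℝ := (48 * π)⁻¹ * ∫ b, (GG (rg b)).toReal ∂μ

/-- positivity of the constants -/
def S_pos : Prop := ∀ μ : Measure Lo, IsLoop μ → 0 < m0 μ ∧ 0 < m1 μ ∧ 0 < m2 μ

/-- integrability -/
def S_int : Prop := ∀ μ : Measure Lo, IsLoop μ → Integrable (fun b => per (rg b)) μ ∧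
  Integrable (fun b => ar2 (rg b)) μ ∧ Integrable (fun b => (GG (rg b)).toReal) μ

/-- second order expansion for positive curvature -/
def S_Gp : Prop := ∀ μ : Measure Lo, IsLoop μ →
  Tendsto (fun κ => (Gf μ κ 0 0 - m0 μ + m1 μ * κ) / κ ^ 2) (𝓝[>] 0) (𝓝 (-m2 μ))

/-- second order expansion for negative curvature -/
def S_Gm : Prop := ∀ μ : Measure Lo, IsLoop μ →
  Tendsto (fun κ => (Gf μ κ 0 0 - m0 μ + m1 μ * κ) / κ ^ 2) (𝓝[<] 0) (𝓝 (-m2 μ))

/-- the cubic and quartic terms are negligible -/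
def S_G3 : Prop := ∀ μ : Measure Lo, IsLoop μ → ∃ C : ℝ, ∀ ε > 0, ∃ δ > 0, ∀ κ c d : ℝ,
  |κ| < δ → |c| < δ → |d| < δ → |Gf μ κ c d - Gf μ κ 0 0| ≤ ε * |c| + C * |d|

end Pool.Agent.H212AN
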