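-- pf_loop proved; extra import Pool.Agent.Helper41.Exist (exists_sheet 2; closure Helper41/{Exist,Isonormal,Tail,Gauss,Sheet,Walk,Chain})
import Pool.Agent.H212AN.D1
import Pool.Agent.Helper41.Exist

set_option autoImplicit false

namespace Pool.Agent.H212AN

open MeasureTheory Set Filter Topology Metric
open Pool.Agent.H212AN.G (nG PG gm)
open scoped Real ENNReal

section pfloop

open ProbabilityTheory Pool.Agent.Helper41
open scoped NNReal

/-- the product of two real Gaussian measures -/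
theorem pf_loop_nG {s : ℝ} (hs : 0 < s) :
    ((gaussianReal 0 (Real.toNNReal (2 * s))).prod (gaussianReal 0 (Real.toNNReal (2 * s)))).map
      Complex.measurableEquivRealProd.symm = nG s := by
  set v : ℝ≥0 := Real.toNNReal (2 * s) with hv
  have hvc : (v : ℝ) = 2 * s := Real.coe_toNNReal _ (by positivity)
  have hv0 : v ≠ 0 := by
    intro h
    have : (v : ℝ) = 0 := by rw [h]; rfl
    rw [hvc] at this
    linarith
  have hm : Measurable (fun z : ℝ × ℝ => gaussianPDF 0 v z.1 * gaussianPDF 0 v z.2) :=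
    ((measurable_gaussianPDF 0 v).comp measurable_fst).mul
      ((measurable_gaussianPDF 0 v).comp measurable_snd)
  rw [gaussianReal_of_var_ne_zero _ hv0, prod_withDensity (measurable_gaussianPDF 0 v)
    (measurable_gaussianPDF 0 v)]
  ext S hS
  rw [Measure.map_apply Complex.measurableEquivRealProd.symm.measurable hS,
    withDensity_apply _ (Complex.measurableEquivRealProd.symm.measurable hS), nG,
    withDensity_apply _ hS]
  have h1 := (Complex.volume_preserving_equiv_real_prod.symm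
    Complex.measurableEquivRealProd).setLIntegral_comp_preimage hS (f := fun z =>
      ENNReal.ofReal (G.gk s z)) (G.gkE_meas s)
  rw [← h1]
  refine lintegral_congr fun z => ?_
  rw [gaussianPDF_def]
  simp only
  rw [← ENNReal.ofReal_mul (gaussianPDFReal_nonneg 0 v _)]
  congr 1
  rw [gaussianPDFReal, gaussianPDFReal, G.gk, Complex.measurableEquivRealProd_symm_apply,
    ← Complex.normSq_eq_norm_sq, Complex.normSq_apply, hvc]
  have h2 : √(2 * π * (2 * s)) * √(2 * π * (2 * s)) = 4 * π * s := by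
    rw [Real.mul_self_sqrt (by positivity)]
    ring
  have h3 : (√(2 * π * (2 * s)))⁻¹ * (√(2 * π * (2 * s)))⁻¹ = (4 * π * s)⁻¹ := by
    rw [← mul_inv, h2]
  calc (√(2 * π * (2 * s)))⁻¹ * Real.exp (-(z.1 - 0) ^ 2 / (2 * (2 * s))) *
        ((√(2 * π * (2 * s)))⁻¹ * Real.exp (-(z.2 - 0) ^ 2 / (2 * (2 * s)))) =
      ((√(2 * π * (2 * s)))⁻¹ * (√(2 * π * (2 * s)))⁻¹) *
        (Real.exp (-(z.1 - 0) ^ 2 / (2 * (2 * s))) * Real.exp (-(z.2 - 0) ^ 2 / (2 * (2 * s)))) := by
        ring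
    _ = Real.exp (-((z.1 * z.1 + z.2 * z.2) / (4 * s))) / (4 * π * s) := by
        rw [h3, ← Real.exp_add, div_eq_mul_inv, mul_comm]
        congr 2
        ring

/-- the times of the grid -/
noncomputable def pf_loop_t (M : ℕ) (l : ℕ) : ℝ≥0 := Real.toNNReal ((l : ℝ) / M)

theorem pf_loop_t_mono (M : ℕ) {l l' : ℕ} (h : l ≤ l') : pf_loop_t M l ≤ pf_loop_t M l' := by
  refine Real.toNNReal_mono (div_le_div_of_nonneg_right ?_ (Nat.cast_nonneg _))
  exact_mod_cast h

theorem pf_loop_t_sub {M : ℕ} (hM : 0 < M) (l : ℕ) :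
    pf_loop_t M (l + 1) - pf_loop_t M l = Real.toNNReal (1 / M) := by
  have hM' : (0 : ℝ) < M := by exact_mod_cast hM
  apply NNReal.eq
  rw [NNReal.coe_sub (pf_loop_t_mono M (Nat.le_succ l)), pf_loop_t, pf_loop_t,
    Real.coe_toNNReal _ (by positivity), Real.coe_toNNReal _ (by positivity),
    Real.coe_toNNReal _ (by positivity)]
  push_cast
  field_simp
  ring

variable {Ω : Type} [MeasurableSpace Ω] {P : Measure Ω} [IsProbabilityMeasure P]
  {X : Fin 2 × ℝ≥0 × ℝ≥0 → Ω → ℝ}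

/-- the real increments -/
noncomputable def pf_loop_D (X : Fin 2 × ℝ≥0 × ℝ≥0 → Ω → ℝ) (M : ℕ) (l : ℕ) (c : Fin 2) (ω : Ω) :
    ℝ := √2 * (X (c, 1, pf_loop_t M (l + 1)) ω - X (c, 1, pf_loop_t M l) ω)

omit [IsProbabilityMeasure P] in
theorem pf_loop_D_meas (hX : IsSheet X P) (M l : ℕ) (c : Fin 2) :
    Measurable (pf_loop_D X M l c) :=
  ((hX.meas _).sub (hX.meas _)).const_mul _

theorem pf_loop_D_cov (hX : IsSheet X P) (M : ℕ) {l l' : ℕ} (h : l ≠ l') (c c' : Fin 2) :
    cov[pf_loop_D X M l c, pf_loop_D X M l' c'; P] = 0 := by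
  unfold pf_loop_D
  have h1 : ∀ a b : ℕ, a < b → ∀ c c' : Fin 2,
      cov[fun ω => X (c, 1, pf_loop_t M (a + 1)) ω - X (c, 1, pf_loop_t M a) ω,
        fun ω => X (c', 1, pf_loop_t M (b + 1)) ω - X (c', 1, pf_loop_t M b) ω; P] = 0 :=
    fun a b hab c c' => hX.cov_incr_eq_zero c c' 1 _ _ _ _ (pf_loop_t_mono M (Nat.le_succ a))
      (pf_loop_t_mono M hab) (pf_loop_t_mono M (Nat.le_succ b))
  rw [covariance_const_mul_left, covariance_const_mul_right]
  rcases lt_or_gt_of_ne h with h2 | h2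
  · rw [h1 l l' h2 c c']
    simp
  · rw [covariance_comm, h1 l' l h2 c' c]
    simp

theorem pf_loop_D_gauss (hX : IsSheet X P) (M : ℕ) :
    HasGaussianLaw (fun ω (l : Fin M) (c : Fin 2) => pf_loop_D X M l c ω) P := by
  classical
  have hg : IsGaussianProcess (fun (q : Fin M × Fin 2) ω => pf_loop_D X M q.1 q.2 ω) P := by
    refine hX.gauss.of_isGaussianProcess fun q => ?_
    exact ⟨{(q.2, 1, pf_loop_t M (q.1 + 1)), (q.2, 1, pf_loop_t M q.1)},
        { toFun x := √2 * (x ⟨(q.2, 1, pf_loop_t M (q.1 + 1)), by simp⟩ -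
            x ⟨(q.2, 1, pf_loop_t M q.1), by simp⟩)
          map_add' x y := by simp; ring
          map_smul' c x := by simp; ring }, by simp [pf_loop_D]⟩
  have hu := hg.hasGaussianLaw Finset.univ
  let L : (((Finset.univ : Finset (Fin M × Fin 2)) : Type _) → ℝ) →L[ℝ]
      (Fin M → Fin 2 → ℝ) :=
    { toFun := fun x l c => x ⟨(l, c), Finset.mem_univ _⟩
      map_add' := fun x y => by ext; simp
      map_smul' := fun c x => by ext; simp }
  exact hu.map L

theorem pf_loop_D_law (hX : IsSheet X P) {M : ℕ} (hM : 0 < M) (l : ℕ) (c : Fin 2) :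
    P.map (pf_loop_D X M l c) = gaussianReal 0 (Real.toNNReal (2 * (1 / M))) := by
  have h1 := hX.law_incr c 1 (pf_loop_t M l) (pf_loop_t M (l + 1)) (pf_loop_t_mono M (Nat.le_succ l))
  rw [pf_loop_t_sub hM, one_mul] at h1
  have h2 : P.map (pf_loop_D X M l c) = (P.map (fun ω => X (c, 1, pf_loop_t M (l + 1)) ω -
      X (c, 1, pf_loop_t M l) ω)).map (√2 * ·) := by
    have hm : Measurable (fun ω => X (c, 1, pf_loop_t M (l + 1)) ω -
        X (c, 1, pf_loop_t M l) ω) := (hX.meas _).sub (hX.meas _)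
    rw [Measure.map_map (by fun_prop) hm]
    rfl
  rw [h2, h1, gaussianReal_map_const_mul, mul_zero]
  congr 1
  apply NNReal.eq
  have hM' : (0 : ℝ) < M := by exact_mod_cast hM
  rw [NNReal.coe_mul, Real.coe_toNNReal _ (by positivity), Real.coe_toNNReal _ (by positivity)]
  change (√2) ^ 2 * _ = _
  rw [Real.sq_sqrt (by norm_num)]

/-- the complex increments -/
noncomputable def pf_loop_x (X : Fin 2 × ℝ≥0 × ℝ≥0 → Ω → ℝ) (M : ℕ) (l : ℕ) (ω : Ω) : ℂ :=
  Complex.measurableEquivRealProd.symm (pf_loop_D X M l 0 ω, pf_loop_D X M l 1 ω)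

omit [IsProbabilityMeasure P] in
theorem pf_loop_x_meas (hX : IsSheet X P) (M l : ℕ) : Measurable (pf_loop_x X M l) :=
  Complex.measurableEquivRealProd.symm.measurable.comp
    ((pf_loop_D_meas hX M l 0).prodMk (pf_loop_D_meas hX M l 1))

theorem pf_loop_x_law (hX : IsSheet X P) {M : ℕ} (hM : 0 < M) (l : ℕ) :
    P.map (pf_loop_x X M l) = nG (1 / M) := by
  have hM' : (0 : ℝ) < M := by exact_mod_cast hM
  have h1 := hX.iIndep_coord 1 (pf_loop_t M l) (pf_loop_t M (l + 1))
  have h2 : iIndepFun (fun (c : Fin 2) ω => pf_loop_D X M l c ω) P :=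
    h1.comp (fun _ x => √2 * x) (fun _ => by fun_prop)
  have h3 : IndepFun (pf_loop_D X M l 0) (pf_loop_D X M l 1) P := h2.indepFun (by decide)
  have h4 := (indepFun_iff_map_prod_eq_prod_map_map (pf_loop_D_meas hX M l 0).aemeasurable
    (pf_loop_D_meas hX M l 1).aemeasurable).1 h3
  rw [← pf_loop_nG (s := 1 / M) (by positivity), ← pf_loop_D_law hX hM l 0]
  nth_rewrite 2 [pf_loop_D_law hX hM l 0]
  rw [← pf_loop_D_law hX hM l 1, ← h4, Measure.map_map Complex.measurableEquivRealProd.symm.measurable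
    ((pf_loop_D_meas hX M l 0).prodMk (pf_loop_D_meas hX M l 1))]
  rfl

theorem pf_loop_x_joint (hX : IsSheet X P) {M : ℕ} (hM : 0 < M) :
    P.map (fun ω (l : Fin M) => pf_loop_x X M l ω) = PG (1 / M) M := by
  have h1 : iIndepFun (fun (l : Fin M) ω (c : Fin 2) => pf_loop_D X M l c ω) P :=
    (pf_loop_D_gauss hX M).iIndepFun_of_covariance_eval fun i j hij c c' =>
      pf_loop_D_cov hX M (fun h => hij (Fin.ext h)) c c'
  have h2 : iIndepFun (fun (l : Fin M) ω => pf_loop_x X M l ω) P :=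
    h1.comp (fun _ x => Complex.measurableEquivRealProd.symm (x 0, x 1))
      (fun _ => Complex.measurableEquivRealProd.symm.measurable.comp (by fun_prop))
  have h3 := (iIndepFun_iff_map_fun_eq_pi_map
    (fun l : Fin M => (pf_loop_x_meas hX M l).aemeasurable)).1 h2
  rw [h3, PG]
  congr 1
  funext l
  exact pf_loop_x_law hX hM l

/-- planar Brownian motion -/
noncomputable def pf_loop_W (X : Fin 2 × ℝ≥0 × ℝ≥0 → Ω → ℝ) (ω : Ω) (t : ℝ) : ℂ :=
  Complex.measurableEquivRealProd.symm (√2 * X (0, 1, Real.toNNReal t) ω,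
    √2 * X (1, 1, Real.toNNReal t) ω)

omit [IsProbabilityMeasure P] in
theorem pf_loop_W_meas (hX : IsSheet X P) (t : ℝ) : Measurable (fun ω => pf_loop_W X ω t) :=
  Complex.measurableEquivRealProd.symm.measurable.comp
    (((hX.meas _).const_mul _).prodMk ((hX.meas _).const_mul _))

omit [MeasurableSpace Ω] in
theorem pf_loop_W_cont (hc : ∀ ω c, Continuous (fun p : ℝ≥0 × ℝ≥0 => X (c, p.1, p.2) ω)) (ω : Ω) :
    Continuous (pf_loop_W X ω) := by
  have h1 : ∀ c : Fin 2, Continuous (fun t : ℝ => √2 * X (c, 1, Real.toNNReal t) ω) := by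
    intro c
    have h2 : Continuous (fun t : ℝ => ((1, Real.toNNReal t) : ℝ≥0 × ℝ≥0)) :=
      continuous_const.prodMk continuous_real_toNNReal
    exact continuous_const.mul ((hc ω c).comp h2)
  exact Complex.equivRealProdCLM.symm.continuous.comp ((h1 0).prodMk (h1 1))

omit [MeasurableSpace Ω] in
theorem pf_loop_x_eq (M l : ℕ) (ω : Ω) :
    pf_loop_x X M l ω = pf_loop_W X ω (((l + 1 : ℕ) : ℝ) / M) - pf_loop_W X ω ((l : ℝ) / M) := by
  unfold pf_loop_x pf_loop_W pf_loop_D pf_loop_t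
  apply Complex.ext
  · simp [Complex.measurableEquivRealProd_symm_apply, mul_sub]
  · simp [Complex.measurableEquivRealProd_symm_apply, mul_sub]

omit [MeasurableSpace Ω] in
theorem pf_loop_sg {M : ℕ} (ω : Ω) {r : ℕ} (hr : r ≤ M) :
    G.sg (fun l : Fin M => pf_loop_x X M l ω) r = pf_loop_W X ω ((r : ℝ) / M) - pf_loop_W X ω 0 := by
  have h1 : G.sg (fun l : Fin M => pf_loop_x X M l ω) r =
      ∑ l ∈ Finset.range M, if l < r then pf_loop_x X M l ω else 0 := by
    rw [G.sg, Finset.sum_range]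
  rw [h1, ← Finset.sum_filter]
  have h2 : (Finset.range M).filter (fun l => l < r) = Finset.range r := by
    ext l
    simp only [Finset.mem_filter, Finset.mem_range]
    omega
  rw [h2, Finset.sum_congr rfl fun l _ => pf_loop_x_eq M l ω,
    Finset.sum_range_sub (fun l : ℕ => pf_loop_W X ω ((l : ℝ) / M))]
  simp

/-- the loop -/
noncomputable def pf_loop_b (X : Fin 2 × ℝ≥0 × ℝ≥0 → Ω → ℝ)
    (hc : ∀ ω c, Continuous (fun p : ℝ≥0 × ℝ≥0 => X (c, p.1, p.2) ω)) (ω : Ω) : Lo where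
  toFun t := pf_loop_W X ω t - pf_loop_W X ω 0 -
    ((t : ℝ) : ℂ) * (pf_loop_W X ω 1 - pf_loop_W X ω 0)
  continuous_toFun := by
    have h1 := pf_loop_W_cont hc ω
    have h2 : Continuous (fun t : unitInterval => pf_loop_W X ω t) := h1.comp continuous_subtype_val
    have h3 : Continuous (fun t : unitInterval => ((t : ℝ) : ℂ)) :=
      Complex.continuous_ofReal.comp continuous_subtype_val
    exact (h2.sub continuous_const).sub (h3.mul continuous_const)

end pfloop

theorem pf_loop (h1 : S_meas) : S_loop := by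
  obtain ⟨Ω, mΩ, P, hP, X, hX, hc⟩ := Pool.Agent.Helper41.exists_sheet 2
  have hb : Measurable (pf_loop_b X hc) := by
    refine h1 Ω mΩ _ fun t => ?_
    exact ((pf_loop_W_meas hX _).sub (pf_loop_W_meas hX _)).sub
      (((pf_loop_W_meas hX _).sub (pf_loop_W_meas hX _)).const_mul _)
  refine ⟨P.map (pf_loop_b X hc), Measure.isProbabilityMeasure_map hb.aemeasurable, fun m => ?_⟩
  have hg : Measurable (grid m) := by
    have h2 : Continuous (grid m) := by
      unfold grid
      exact _root_.continuous_pi fun r => continuous_eval_const _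
    exact h2.measurable
  have hgm : Measurable (fun (x : Fin (m + 1) → ℂ) (r : Fin (m + 1)) => gm x r) :=
    measurable_pi_lambda _ fun r => (G.gm_cont (r : ℕ)).measurable
  have hx : Measurable (fun ω (l : Fin (m + 1)) => pf_loop_x X (m + 1) l ω) :=
    measurable_pi_lambda _ fun l => pf_loop_x_meas hX _ _
  have hj := pf_loop_x_joint hX (Nat.succ_pos m)
  have e1 : (1 : ℝ) / ((m + 1 : ℕ) : ℝ) = 1 / ((m : ℝ) + 1) := by push_cast; rfl
  rw [e1] at hj
  rw [Measure.map_map hg hb, ← hj, Measure.map_map hgm hx]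
  congr 1
  funext ω r
  change pf_loop_W X ω ((r : ℕ) / ((m : ℝ) + 1)) - pf_loop_W X ω 0 -
    ((((r : ℕ) / ((m : ℝ) + 1) : ℝ)) : ℂ) * (pf_loop_W X ω 1 - pf_loop_W X ω 0) =
    gm (fun l : Fin (m + 1) => pf_loop_x X (m + 1) l ω) r
  rw [G.gm_eq _ r.2.le, pf_loop_sg ω r.2.le, G.mn, ← G.sg_all, pf_loop_sg ω le_rfl]
  have e2 : (((m + 1 : ℕ) : ℝ)) / ((m + 1 : ℕ) : ℝ) = 1 := by
    have : (((m + 1 : ℕ) : ℝ)) ≠ 0 := by positivity
    field_simp
  rw [e2]
  push_cast
  ring

end Pool.Agent.H212AN
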