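import Pool.Agent.H212AN.D0

set_option autoImplicit false

namespace Pool.Agent.H212AN

open MeasureTheory Set Filter Topology Metric
open scoped Real ENNReal

theorem pf_ls_xx (θ : ℝ) (k : ℂ) : |xx θ k| ≤ ‖k‖ := by
  apply abs_le_of_sq_le_sq _ (norm_nonneg k)
  rw [Complex.sq_norm, Complex.normSq_apply]
  unfold xx
  have h := Real.sin_sq_add_cos_sq θ
  have h2 : (k.re * k.re + k.im * k.im) * (Real.sin θ ^ 2 + Real.cos θ ^ 2) =
    k.re * k.re + k.im * k.im := by rw [h, mul_one]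
  nlinarith [sq_nonneg (k.re * Real.cos θ + k.im * Real.sin θ)]

theorem pf_ls_yyp (θ : ℝ) : yy (θ + 2 * π) = yy θ := by
  funext k; simp [yy, Real.cos_add_two_pi, Real.sin_add_two_pi]

theorem pf_ls_xxp (θ : ℝ) : xx (θ + 2 * π) = xx θ := by
  funext k; simp [xx, Real.cos_add_two_pi, Real.sin_add_two_pi]

theorem pf_ls_hsp (K : Set ℂ) (θ : ℝ) : hs K (θ + 2 * π) = hs K θ := by
  simp [hs, pf_ls_yyp]

theorem pf_ls_facep (K : Set ℂ) (θ : ℝ) : face K (θ + 2 * π) = face K θ := by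
  simp [face, pf_ls_yyp, pf_ls_hsp]

theorem pf_ls_xpp (K : Set ℂ) (θ : ℝ) : xp K (θ + 2 * π) = xp K θ := by
  simp [xp, pf_ls_xxp, pf_ls_facep]

theorem pf_ls_xmp (K : Set ℂ) (θ : ℝ) : xm K (θ + 2 * π) = xm K θ := by
  simp [xm, pf_ls_xxp, pf_ls_facep]

theorem pf_ls_ellp (K : Set ℂ) (θ : ℝ) : ell K (θ + 2 * π) = ell K θ := by
  simp [ell, pf_ls_xpp, pf_ls_xmp]

/-- the working data -/
structure pf_ls_ctx (K : Set ℂ) (ρ : ℝ) (S : Measure ℝ) : Prop where
  rho : 0 < ρ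
  lf : IsLocallyFiniteMeasure S
  ioc : ∀ a b : ℝ, a ≤ b → S (Ioc a b) =
    ENNReal.ofReal (xp K b - xp K a + ∫ θ in a..b, hs K θ)
  ioo : ∀ a b : ℝ, a < b → S (Ioo a b) =
    ENNReal.ofReal (xm K b - xp K a + ∫ θ in a..b, hs K θ)
  sing : ∀ θ, S {θ} = ENNReal.ofReal (ell K θ)
  e0 : ∀ θ, 0 ≤ ell K θ
  e1 : ∀ θ, ell K θ ≤ 2 * ρ
  hcont : Continuous (hs K)
  hper : Function.Periodic (hs K) (2 * π)
  hb : ∀ θ, |hs K θ| ≤ ρ
  h0 : ∀ θ, 0 ≤ hs K θ

theorem pf_ls_per {K : Set ℂ} {ρ : ℝ} {S : Measure ℝ} (c : pf_ls_ctx K ρ S) (a : ℝ) :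
    S (Ioc a (a + 2 * π)) = ENNReal.ofReal (per K) := by
  have hp : 0 < π := Real.pi_pos
  rw [c.ioc a (a + 2 * π) (by linarith), pf_ls_xpp, sub_self, zero_add]
  congr 1
  rw [c.hper.intervalIntegral_add_eq a 0, zero_add]
  rfl

theorem pf_ls_per0 {K : Set ℂ} {ρ : ℝ} {S : Measure ℝ} (c : pf_ls_ctx K ρ S) :
    0 ≤ per K := by
  have hp : 0 < π := Real.pi_pos
  apply intervalIntegral.integral_nonneg (by linarith)
  intro θ _
  exact c.h0 θ

theorem pf_ls_per1 {K : Set ℂ} {ρ : ℝ} {S : Measure ℝ} (c : pf_ls_ctx K ρ S) :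
    per K ≤ 2 * π * ρ := by
  have hp : 0 < π := Real.pi_pos
  have h := intervalIntegral.norm_integral_le_of_norm_le_const (a := (0:ℝ)) (b := 2 * π)
    (C := ρ) (f := hs K) (fun θ _ => by rw [Real.norm_eq_abs]; exact c.hb θ)
  have h2 : |2 * π - 0| = 2 * π := by rw [sub_zero]; exact abs_of_pos (by linarith)
  rw [h2, Real.norm_eq_abs] at h
  have h3 := le_abs_self (∫ θ in (0:ℝ)..(2 * π), hs K θ)
  unfold per
  linarith

theorem pf_ls_S {K : Set ℂ} {ρ : ℝ} {S : Measure ℝ} (c : pf_ls_ctx K ρ S) (a : ℝ)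
    {T : Set ℝ} (hT : T ⊆ Ioc a (a + 2 * π)) : S T ≤ ENNReal.ofReal (2 * π * ρ) := by
  refine (measure_mono hT).trans ?_
  rw [pf_ls_per c]
  exact ENNReal.ofReal_le_ofReal (pf_ls_per1 c)

theorem pf_ls_sing1 {K : Set ℂ} {ρ : ℝ} {S : Measure ℝ} (c : pf_ls_ctx K ρ S) (θ : ℝ) :
    S {θ} ≤ ENNReal.ofReal (2 * ρ) := by
  rw [c.sing]
  exact ENNReal.ofReal_le_ofReal (c.e1 θ)

theorem pf_ls_Ico {K : Set ℂ} {ρ : ℝ} {S : Measure ℝ} (c : pf_ls_ctx K ρ S) :
    S (Ico 0 (2 * π)) ≤ ENNReal.ofReal ((2 + 2 * π) * ρ) := by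
  have hp : 0 < π := Real.pi_pos
  have hr := c.rho
  have h1 : Ico 0 (2 * π) ⊆ {0} ∪ Ioc 0 (0 + 2 * π) := by
    intro x hx
    rcases eq_or_lt_of_le hx.1 with h | h
    · left; exact h.symm
    · right; exact ⟨h, by linarith [hx.2]⟩
  calc S (Ico 0 (2 * π)) ≤ S ({0} ∪ Ioc 0 (0 + 2 * π)) := measure_mono h1
    _ ≤ S {0} + S (Ioc 0 (0 + 2 * π)) := measure_union_le _ _
    _ ≤ ENNReal.ofReal (2 * ρ) + ENNReal.ofReal (2 * π * ρ) :=
        add_le_add (pf_ls_sing1 c 0) (pf_ls_S c 0 (le_refl _))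
    _ = ENNReal.ofReal ((2 + 2 * π) * ρ) := by
        rw [← ENNReal.ofReal_add (by positivity) (by positivity)]
        congr 1; ring

theorem pf_ls_GG {K : Set ℂ} {ρ : ℝ} {S : Measure ℝ} (c : pf_ls_ctx K ρ S) :
    GG K ≤ ENNReal.ofReal (8 * (1 + π) * ρ ^ 3) := by
  have hp : 0 < π := Real.pi_pos
  have hr := c.rho
  unfold GG
  have h1 : ∀ θ : Ico (0:ℝ) (2 * π), ENNReal.ofReal (ell K θ) ^ 3 ≤
      ENNReal.ofReal (2 * ρ) ^ 2 * S {(θ : ℝ)} := by
    intro θ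
    rw [pow_succ, c.sing]
    gcongr
    exact c.e1 θ
  calc ∑' θ : Ico (0:ℝ) (2 * π), ENNReal.ofReal (ell K θ) ^ 3
      ≤ ∑' θ : Ico (0:ℝ) (2 * π), ENNReal.ofReal (2 * ρ) ^ 2 * S {(θ : ℝ)} :=
        ENNReal.tsum_le_tsum h1
    _ = ENNReal.ofReal (2 * ρ) ^ 2 * ∑' θ : Ico (0:ℝ) (2 * π), S {(θ : ℝ)} :=
        ENNReal.tsum_mul_left
    _ ≤ ENNReal.ofReal (2 * ρ) ^ 2 * S (⋃ θ : Ico (0:ℝ) (2 * π), {(θ : ℝ)}) := by
        gcongr
        apply tsum_meas_le_meas_iUnion_of_disjoint S (fun _ => measurableSet_singleton _)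
        intro i j hij
        simp only [Function.onFun, Set.disjoint_singleton]
        intro h
        exact hij (Subtype.ext h)
    _ ≤ ENNReal.ofReal (2 * ρ) ^ 2 * S (Ico 0 (2 * π)) := by
        gcongr
        intro x hx
        simp only [mem_iUnion, mem_singleton_iff] at hx
        obtain ⟨i, hi⟩ := hx
        rw [hi]; exact i.2
    _ ≤ ENNReal.ofReal (2 * ρ) ^ 2 * ENNReal.ofReal ((2 + 2 * π) * ρ) := by
        gcongr
        exact pf_ls_Ico c
    _ = ENNReal.ofReal (8 * (1 + π) * ρ ^ 3) := by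
        rw [← ENNReal.ofReal_pow (by positivity), ← ENNReal.ofReal_mul (by positivity)]
        congr 1; ring

/-- the gap bound -/
theorem pf_ls_gapb {K : Set ℂ} {ρ : ℝ} {S : Measure ℝ} (c : pf_ls_ctx K ρ S)
    (hG : Good K ρ) (h1 : S_hs) (h3 : S_er) (h4 : S_sc) (h5 : S_gap) {R : ℝ} (hR : 4 * ρ < R)
    (hwc : Continuous (ww K R)) {θ : ℝ} (hθ : 0 < ww K R θ) :
    ∃ a b : ℝ, a < θ ∧ θ < b ∧ (R - ρ) * (b - a) ≤ 2 * π * ρ ∧
      S (Ioo a b) ≤ ENNReal.ofReal (2 * π * ρ) ∧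
      R * ww K R θ ≤ ((S (Ioo a b)).toReal + ρ * (b - a)) ^ 2 / 8 := by
  have hp : 0 < π := Real.pi_pos
  have hr := c.rho
  obtain ⟨a, b, ha, hb, hab, wa, wb, _, hid⟩ := h5 K ρ R hG hr hR θ hθ
  obtain ⟨_, _, _, hw, _, _⟩ := h3 K ρ R hG hr hR
  obtain ⟨_, _, hsc⟩ := h4 K ρ R hG hr hR
  have hlt : a < b := ha.trans hb
  have hS1 : S (Ioo a b) ≤ ENNReal.ofReal (2 * π * ρ) := by
    apply pf_ls_S c a
    intro x hx
    exact ⟨hx.1, by linarith [hx.2]⟩
  have hX : S (Ioo a b) = ENNReal.ofReal (xm K b - xp K a + ∫ τ in a..b, hs K τ) :=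
    c.ioo a b hlt
  have hI : ∫ τ in a..b, ww K R τ ≤ ρ * (b - a) := by
    have h := intervalIntegral.norm_integral_le_of_norm_le_const (a := a) (b := b)
      (C := ρ) (f := ww K R) (fun τ _ => by
        rw [Real.norm_eq_abs, abs_of_nonneg (hw τ).1]; exact (hw τ).2)
    rw [abs_of_pos (by linarith : 0 < b - a), Real.norm_eq_abs] at h
    exact (le_abs_self _).trans h
  have hXr : (R - ρ) * (b - a) ≤ xm K b - xp K a + ∫ τ in a..b, hs K τ := by
    rw [← hid]; nlinarith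
  have hX0 : 0 < xm K b - xp K a + ∫ τ in a..b, hs K τ := by
    refine lt_of_lt_of_le ?_ hXr
    apply mul_pos <;> linarith
  have hXt : (S (Ioo a b)).toReal = xm K b - xp K a + ∫ τ in a..b, hs K τ := by
    rw [hX, ENNReal.toReal_ofReal hX0.le]
  have hXle : xm K b - xp K a + ∫ τ in a..b, hs K τ ≤ 2 * π * ρ := by
    rw [hX] at hS1
    exact (ENNReal.ofReal_le_ofReal_iff (by positivity)).1 hS1
  refine ⟨a, b, ha, hb, hXr.trans hXle, hS1, ?_⟩
  have hRp : 0 < R := by linarith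
  have hwb : R * ww K R θ ≤ (R * (b - a)) ^ 2 / 8 := by
    have ea := hsc a θ wa
    have eb := hsc b θ wb
    rcases le_total (θ - a) (b - θ) with h | h
    · have : (θ - a) ^ 2 ≤ (b - a) ^ 2 / 4 := by nlinarith
      have h2 : R * ww K R θ ≤ R * (R * (θ - a) ^ 2 / 2) := mul_le_mul_of_nonneg_left ea hRp.le
      have h3 : R ^ 2 * (θ - a) ^ 2 ≤ R ^ 2 * ((b - a) ^ 2 / 4) :=
        mul_le_mul_of_nonneg_left this (by positivity)
      nlinarith
    · have : (θ - b) ^ 2 ≤ (b - a) ^ 2 / 4 := by nlinarith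
      have h2 : R * ww K R θ ≤ R * (R * (θ - b) ^ 2 / 2) := mul_le_mul_of_nonneg_left eb hRp.le
      have h3 : R ^ 2 * (θ - b) ^ 2 ≤ R ^ 2 * ((b - a) ^ 2 / 4) :=
        mul_le_mul_of_nonneg_left this (by positivity)
      nlinarith
  refine hwb.trans ?_
  have hRb : R * (b - a) ≤ (S (Ioo a b)).toReal + ρ * (b - a) := by
    rw [hXt]; linarith
  have hRb0 : 0 ≤ R * (b - a) := mul_nonneg hRp.le (by linarith)
  have := pow_le_pow_left₀ hRb0 hRb 2
  linarith

/-- the pointwise global bound -/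
theorem pf_ls_glob {K : Set ℂ} {ρ : ℝ} {S : Measure ℝ} (c : pf_ls_ctx K ρ S)
    (hG : Good K ρ) (h1 : S_hs) (h3 : S_er) (h4 : S_sc) (h5 : S_gap) {R : ℝ} (hR : 4 * ρ < R)
    (hwc : Continuous (ww K R)) (θ : ℝ) :
    R * ww K R θ ≤ 8 * π ^ 2 / 9 * ρ ^ 2 := by
  have hp : 0 < π := Real.pi_pos
  have hr := c.rho
  have hw := (h3 K ρ R hG hr hR).2.2.2.1
  rcases eq_or_lt_of_le (hw θ).1 with h | h
  · rw [← h, mul_zero]; positivity
  · obtain ⟨a, b, ha, hb, hab, hS, hm⟩ := pf_ls_gapb c hG h1 h3 h4 h5 hR hwc h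
    refine hm.trans ?_
    have e1 : (S (Ioo a b)).toReal ≤ 2 * π * ρ := by
      have := ENNReal.toReal_mono (by simp) hS
      rwa [ENNReal.toReal_ofReal (by positivity)] at this
    have e0 : 0 ≤ (S (Ioo a b)).toReal := ENNReal.toReal_nonneg
    have e2 : ρ * (b - a) ≤ 2 * π * ρ / 3 := by
      have : 3 * ρ * (b - a) ≤ (R - ρ) * (b - a) :=
        mul_le_mul_of_nonneg_right (by linarith) (by linarith)
      nlinarith
    have e3 : 0 ≤ ρ * (b - a) := mul_nonneg hr.le (by linarith)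
    have e4 : (S (Ioo a b)).toReal + ρ * (b - a) ≤ 8 * π * ρ / 3 := by linarith
    have := pow_le_pow_left₀ (add_nonneg e0 e3) e4 2
    calc ((S (Ioo a b)).toReal + ρ * (b - a)) ^ 2 / 8 ≤ (8 * π * ρ / 3) ^ 2 / 8 := by linarith
      _ = 8 * π ^ 2 / 9 * ρ ^ 2 := by ring

/-- the majorant -/
noncomputable def pf_ls_g (S : Measure ℝ) (ρ c θ : ℝ) : ℝ≥0∞ :=
  (S (Ioo (θ - c) (θ + c)) + ENNReal.ofReal (ρ * c)) ^ 2 / 8

theorem pf_ls_gm (S : Measure ℝ) [IsLocallyFiniteMeasure S] (ρ c : ℝ) :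
    Measurable (pf_ls_g S ρ c) := by
  have hm : Measurable (fun θ : ℝ => S (Ioo (θ - c) (θ + c))) := by
    have hs : MeasurableSet {p : ℝ × ℝ | p.1 - c < p.2 ∧ p.2 < p.1 + c} := by
      exact (measurableSet_lt (measurable_fst.sub_const c) measurable_snd).inter
        (measurableSet_lt measurable_snd (measurable_fst.add_const c))
    exact measurable_measure_prodMk_left (ν := S) hs
  unfold pf_ls_g
  exact ((hm.add_const _).pow_const 2).div_const 8

theorem pf_ls_gle {K : Set ℂ} {ρ : ℝ} {S : Measure ℝ} (c : pf_ls_ctx K ρ S)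
    (hG : Good K ρ) (h1 : S_hs) (h3 : S_er) (h4 : S_sc) (h5 : S_gap) {R : ℝ} (hR : 4 * ρ < R)
    (hwc : Continuous (ww K R)) {d : ℝ} (hd : 0 < d) (hRd : 2 * π * ρ ≤ (R - ρ) * d) (θ : ℝ) :
    ENNReal.ofReal (R * ww K R θ) ≤ pf_ls_g S ρ d θ := by
  have hp : 0 < π := Real.pi_pos
  have hr := c.rho
  have hw := (h3 K ρ R hG hr hR).2.2.2.1
  rcases eq_or_lt_of_le (hw θ).1 with h | h
  · rw [← h, mul_zero, ENNReal.ofReal_zero]; exact zero_le
  · obtain ⟨a, b, ha, hb, hab, hS, hm⟩ := pf_ls_gapb c hG h1 h3 h4 h5 hR hwc h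
    have hbd : b - a ≤ d := by
      have h2 : (R - ρ) * (b - a) ≤ (R - ρ) * d := hab.trans hRd
      exact le_of_mul_le_mul_left h2 (by linarith)
    have hfin : S (Ioo a b) ≠ ∞ := ne_top_of_le_ne_top (by simp) hS
    have hsub : Ioo a b ⊆ Ioo (θ - d) (θ + d) := by
      intro x hx
      exact ⟨by linarith [hx.1], by linarith [hx.2]⟩
    calc ENNReal.ofReal (R * ww K R θ)
        ≤ ENNReal.ofReal (((S (Ioo a b)).toReal + ρ * (b - a)) ^ 2 / 8) :=
          ENNReal.ofReal_le_ofReal hm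
      _ ≤ ENNReal.ofReal (((S (Ioo a b)).toReal + ρ * d) ^ 2 / 8) := by
          apply ENNReal.ofReal_le_ofReal
          have e0 : 0 ≤ (S (Ioo a b)).toReal + ρ * (b - a) :=
            add_nonneg ENNReal.toReal_nonneg (mul_nonneg hr.le (by linarith))
          have e1 : (S (Ioo a b)).toReal + ρ * (b - a) ≤ (S (Ioo a b)).toReal + ρ * d := by
            have := mul_le_mul_of_nonneg_left hbd hr.le
            linarith
          have := pow_le_pow_left₀ e0 e1 2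
          linarith
      _ = (S (Ioo a b) + ENNReal.ofReal (ρ * d)) ^ 2 / 8 := by
          rw [ENNReal.ofReal_div_of_pos (by norm_num),
            ENNReal.ofReal_pow (by positivity),
            ENNReal.ofReal_add ENNReal.toReal_nonneg (by positivity),
            ENNReal.ofReal_toReal hfin]
          norm_num
      _ ≤ pf_ls_g S ρ d θ := by
          unfold pf_ls_g
          gcongr

theorem pf_ls_lim0 {K : Set ℂ} {ρ : ℝ} {S : Measure ℝ} (c : pf_ls_ctx K ρ S) (θ : ℝ) :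
    Tendsto (fun n : ℕ => pf_ls_g S ρ (1 / ((n : ℝ) + 1)) θ) atTop
      (𝓝 ((S {θ}) ^ 2 / 8)) := by
  have hp : 3 < π := Real.pi_gt_three
  have hI : ⋂ n : ℕ, Ioo (θ - 1 / ((n : ℝ) + 1)) (θ + 1 / ((n : ℝ) + 1)) = {θ} := by
    ext x
    simp only [mem_iInter, mem_Ioo, mem_singleton_iff]
    constructor
    · intro h
      by_contra hne
      have hpos : 0 < |x - θ| := abs_pos.2 (sub_ne_zero.2 hne)
      obtain ⟨n, hn⟩ := exists_nat_one_div_lt hpos
      obtain ⟨e1, e2⟩ := h n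
      have : |x - θ| < 1 / ((n : ℝ) + 1) := abs_lt.2 ⟨by linarith, by linarith⟩
      linarith
    · rintro rfl n
      have : 0 < 1 / ((n : ℝ) + 1) := by positivity
      constructor <;> linarith
  have hS : Tendsto (fun n : ℕ => S (Ioo (θ - 1 / ((n : ℝ) + 1)) (θ + 1 / ((n : ℝ) + 1))))
      atTop (𝓝 (S {θ})) := by
    rw [← hI]
    apply tendsto_measure_iInter_atTop
    · intro n; exact measurableSet_Ioo.nullMeasurableSet
    · intro m n hmn x hx
      have h1 : 1 / ((n : ℝ) + 1) ≤ 1 / ((m : ℝ) + 1) := by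
        apply one_div_le_one_div_of_le (by positivity)
        have : (m : ℝ) ≤ n := by exact_mod_cast hmn
        linarith
      exact ⟨by linarith [hx.1], by linarith [hx.2]⟩
    · refine ⟨0, ?_⟩
      have : Ioo (θ - 1 / (((0:ℕ) : ℝ) + 1)) (θ + 1 / (((0:ℕ) : ℝ) + 1)) ⊆
          Ioc (θ - 1) (θ - 1 + 2 * π) := by
        intro x hx
        have h1 := hx.1
        have h2 := hx.2
        norm_num at h1 h2
        exact ⟨by linarith, by linarith⟩
      exact ne_top_of_le_ne_top (by simp) (pf_ls_S c (θ - 1) this)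
  have h2 : Tendsto (fun n : ℕ => ENNReal.ofReal (ρ * (1 / ((n : ℝ) + 1)))) atTop (𝓝 0) := by
    have h3 : Tendsto (fun n : ℕ => ρ * (1 / ((n : ℝ) + 1))) atTop (𝓝 (ρ * 0)) :=
      tendsto_one_div_add_atTop_nhds_zero_nat.const_mul ρ
    rw [mul_zero] at h3
    have := ENNReal.tendsto_ofReal h3
    rwa [ENNReal.ofReal_zero] at this
  unfold pf_ls_g
  have h4 := hS.add h2
  rw [add_zero] at h4
  have h5 := ENNReal.Tendsto.pow (n := 2) h4
  exact ENNReal.Tendsto.div_const h5 (Or.inr (by norm_num))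

theorem pf_ls_lim {K : Set ℂ} {ρ : ℝ} {S : Measure ℝ} (c : pf_ls_ctx K ρ S) :
    Tendsto (fun n : ℕ => ∫⁻ θ in Ioc 0 (2 * π), pf_ls_g S ρ (1 / ((n : ℝ) + 1)) θ ∂S) atTop
      (𝓝 (∫⁻ θ in Ioc 0 (2 * π), (S {θ}) ^ 2 / 8 ∂S)) := by
  haveI := c.lf
  have hp : 3 < π := Real.pi_gt_three
  have hr := c.rho
  apply tendsto_lintegral_of_dominated_convergence
    (fun _ => (ENNReal.ofReal (2 * π * ρ) + ENNReal.ofReal ρ) ^ 2 / 8)
  · intro n; exact pf_ls_gm S ρ _
  · intro n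
    apply Eventually.of_forall
    intro θ
    have h1 : 1 / ((n : ℝ) + 1) ≤ 1 := by
      rw [div_le_one (by positivity)]
      have : (0:ℝ) ≤ n := Nat.cast_nonneg n
      linarith
    have h0 : 0 < 1 / ((n : ℝ) + 1) := by positivity
    unfold pf_ls_g
    have hsub : Ioo (θ - 1 / ((n : ℝ) + 1)) (θ + 1 / ((n : ℝ) + 1)) ⊆
          Ioc (θ - 1) (θ - 1 + 2 * π) := by
      intro x hx
      exact ⟨by linarith [hx.1], by linarith [hx.2]⟩
    have e1 := pf_ls_S c (θ - 1) hsub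
    have e2 : ENNReal.ofReal (ρ * (1 / ((n : ℝ) + 1))) ≤ ENNReal.ofReal ρ := by
      apply ENNReal.ofReal_le_ofReal
      nlinarith
    show _ / 8 ≤ _ / 8
    gcongr
  · rw [lintegral_const, Measure.restrict_apply_univ]
    apply ENNReal.mul_ne_top
    · apply ne_of_lt
      apply ENNReal.div_lt_top
      · apply ENNReal.pow_ne_top
        simp
      · norm_num
    · apply ne_top_of_le_ne_top (b := ENNReal.ofReal (2 * π * ρ)) (by simp)
      apply pf_ls_S c 0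
      rw [zero_add]
  · apply Eventually.of_forall
    intro θ
    exact pf_ls_lim0 c θ

theorem pf_ls_limle {K : Set ℂ} {ρ : ℝ} {S : Measure ℝ} (c : pf_ls_ctx K ρ S) :
    ∫⁻ θ in Ioc 0 (2 * π), (S {θ}) ^ 2 / 8 ∂S ≤ GG K / 8 := by
  haveI := c.lf
  have hp : 3 < π := Real.pi_gt_three
  have hA : ({θ : ℝ | 0 < S {θ}}).Countable := by
    apply Measure.countable_meas_pos_of_disjoint_iUnion (μ := S) (As := fun θ : ℝ => {θ})
    · intro θ; exact measurableSet_singleton θ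
    · intro i j hij
      simp only [Function.onFun, Set.disjoint_singleton]
      exact hij
  set A := {θ : ℝ | 0 < S {θ}} with hAd
  have hind : (fun θ : ℝ => (S {θ}) ^ 2 / 8) = A.indicator (fun θ : ℝ => (S {θ}) ^ 2 / 8) := by
    funext θ
    by_cases h : θ ∈ A
    · rw [indicator_of_mem h]
    · rw [indicator_of_notMem h]
      have : S {θ} = 0 := by
        rw [hAd, mem_ofPred_eq, not_lt] at h
        exact le_antisymm h zero_le
      rw [this]; simp
  rw [hind, setLIntegral_indicator hA.measurableSet]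
  have hAI : (A ∩ Ioc 0 (2 * π)).Countable := hA.mono inter_subset_left
  rw [lintegral_countable _ hAI]
  -- the injection
  let φ : ↥(A ∩ Ioc 0 (2 * π)) → Ico (0:ℝ) (2 * π) := fun a =>
    if h : (a : ℝ) = 2 * π then ⟨0, by constructor <;> linarith⟩
    else ⟨a, a.2.2.1.le, lt_of_le_of_ne a.2.2.2 h⟩
  have hφ : Function.Injective φ := by
    intro a b hab
    simp only [φ] at hab
    have ha0 : 0 < (a:ℝ) := a.2.2.1
    have hb0 : 0 < (b:ℝ) := b.2.2.1
    split_ifs at hab with h1 h2 h3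
    · exact Subtype.ext (h1.trans h2.symm)
    · have := congrArg Subtype.val hab
      simp only at this
      linarith
    · have := congrArg Subtype.val hab
      simp only at this
      linarith
    · have := congrArg Subtype.val hab
      exact Subtype.ext this
  have hval : ∀ a : ↥(A ∩ Ioc 0 (2 * π)), (S {(a:ℝ)}) ^ 2 / 8 * S {(a:ℝ)} =
      ENNReal.ofReal (ell K (φ a)) ^ 3 * 8⁻¹ := by
    intro a
    have : ell K (φ a) = ell K a := by
      simp only [φ]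
      split_ifs with h
      · rw [h]
        have := pf_ls_ellp K 0
        rw [zero_add] at this
        exact this.symm
      · rfl
    rw [this, c.sing, div_eq_mul_inv]
    ring
  calc ∑' a : ↥(A ∩ Ioc 0 (2 * π)), (S {(a:ℝ)}) ^ 2 / 8 * S {(a:ℝ)}
      = ∑' a : ↥(A ∩ Ioc 0 (2 * π)), ENNReal.ofReal (ell K (φ a)) ^ 3 * 8⁻¹ :=
        tsum_congr hval
    _ ≤ ∑' θ : Ico (0:ℝ) (2 * π), ENNReal.ofReal (ell K θ) ^ 3 * 8⁻¹ :=
        ENNReal.tsum_comp_le_tsum_of_injective hφ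
          (fun θ : Ico (0:ℝ) (2 * π) => ENNReal.ofReal (ell K θ) ^ 3 * 8⁻¹)
    _ = GG K / 8 := by
        rw [ENNReal.tsum_mul_right, div_eq_mul_inv]
        rfl

theorem pf_ls_ww (h1 : S_hs) (h3 : S_er) {K : Set ℂ} {ρ R : ℝ} (hG : Good K ρ) (hr : 0 < ρ)
    (hR : 4 * ρ < R) : (∃ C, LipschitzWith C (ww K R)) ∧ Function.Periodic (ww K R) (2 * π) := by
  obtain ⟨hc, _, hball, _⟩ := h3 K ρ R hG hr hR
  have hne : (er K R).Nonempty := ⟨0, hball (by simp; linarith)⟩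
  have hsub : er K R ⊆ closedBall 0 R := by
    intro z hz
    have := hz 0 hG.2.1
    rw [add_zero] at this
    simpa using this
  have hK := h1 K ρ hG.1 ⟨0, hG.2.1⟩ hG.2.2
  have hE := h1 (er K R) R hc hne hsub
  refine ⟨⟨0 + Real.toNNReal ρ + Real.toNNReal R, ?_⟩, ?_⟩
  · exact ((LipschitzWith.const R).sub hK.2.2.2.1).sub hE.2.2.2.1
  · intro θ
    unfold ww
    rw [hK.2.2.2.2.1 θ, hE.2.2.2.2.1 θ]

theorem pf_ls (h1 : S_hs) (h2 : S_sm) (h3 : S_er) (h4 : S_sc) (h5 : S_gap) : S_ls := by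
  have hp : 0 < π := Real.pi_pos
  refine ⟨8 * (1 + π) + 8 * π ^ 2 / 9 * (2 * π) + 8 * π ^ 2 / 9, ?_⟩
  intro K ρ hG hr
  obtain ⟨S, hlf, hioc, hioo, hsing, hBB⟩ := h2 K hG.1 ⟨0, hG.2.1⟩
  have hK := h1 K ρ hG.1 ⟨0, hG.2.1⟩ hG.2.2
  obtain ⟨k1, k2, k3, k4, k5, k6, k7, k8, k9, k10, k11, k12, k13⟩ := hK
  have hnorm : ∀ θ, ∀ k ∈ face K θ, |xx θ k| ≤ ρ := by
    intro θ k hk
    refine (pf_ls_xx θ k).trans ?_
    have := hG.2.2 hk.1
    simpa using this
  have c : pf_ls_ctx K ρ S := {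
    rho := hr
    lf := hlf
    ioc := hioc
    ioo := hioo
    sing := hsing
    e0 := by
      intro θ
      obtain ⟨k, hk⟩ := k1 θ
      have := k11 θ k hk
      unfold ell
      linarith
    e1 := by
      intro θ
      obtain ⟨k, hk, hk'⟩ := k9 θ
      obtain ⟨l, hl, hl'⟩ := k10 θ
      have e1 := abs_le.1 (hnorm θ k hk)
      have e2 := abs_le.1 (hnorm θ l hl)
      unfold ell
      rw [← hk', ← hl']
      linarith
    hcont := k4.continuous
    hper := k5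
    hb := k3
    h0 := k13 hG.2.1 }
  haveI := hlf
  have hGG := pf_ls_GG c
  have hGf : GG K ≠ ∞ := ne_top_of_le_ne_top (by simp) hGG
  have hBBl : ∀ R, 4 * ρ < R → R * BB (hs K) (ww K R) =
      (∫⁻ θ in Ioc 0 (2 * π), ENNReal.ofReal (R * ww K R θ) ∂S).toReal := by
    intro R hR
    obtain ⟨hL, hP⟩ := pf_ls_ww h1 h3 hG hr hR
    rw [← hBB (ww K R) hL hP, ← integral_const_mul]
    have hw := (h3 K ρ R hG hr hR).2.2.2.1
    rw [integral_eq_lintegral_of_nonneg_ae]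
    · apply Eventually.of_forall
      intro θ
      exact mul_nonneg (by linarith) (hw θ).1
    · obtain ⟨C, hC⟩ := hL
      exact (hC.continuous.const_mul R |>.measurable).aestronglyMeasurable
  refine ⟨hGf, ?_, ?_, ?_⟩
  · have := ENNReal.toReal_mono (by simp) hGG
    rw [ENNReal.toReal_ofReal (by positivity)] at this
    refine this.trans ?_
    have : 0 ≤ (8 * π ^ 2 / 9 * (2 * π) + 8 * π ^ 2 / 9) * ρ ^ 3 := by positivity
    linarith
  · intro ε hε
    have hlim := pf_ls_lim c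
    have hlt : ∫⁻ θ in Ioc 0 (2 * π), (S {θ}) ^ 2 / 8 ∂S < GG K / 8 + ENNReal.ofReal ε := by
      refine lt_of_le_of_lt (pf_ls_limle c) ?_
      apply ENNReal.lt_add_right
      · apply ne_of_lt
        exact ENNReal.div_lt_top hGf (by norm_num)
      · simp [hε]
    obtain ⟨n, hn⟩ := ((tendsto_order.1 hlim).2 _ hlt).exists
    have hev : ∀ᶠ R in atTop, 4 * ρ < R ∧ 2 * π * ρ ≤ (R - ρ) * (1 / ((n : ℝ) + 1)) := by
      have hd : (0:ℝ) < (n : ℝ) + 1 := by positivity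
      filter_upwards [eventually_gt_atTop (4 * ρ),
        eventually_ge_atTop (ρ + 2 * π * ρ * ((n : ℝ) + 1))] with R hR1 hR2
      refine ⟨hR1, ?_⟩
      rw [mul_one_div, le_div_iff₀ hd]
      linarith
    filter_upwards [hev] with R hR
    obtain ⟨hR1, hR2⟩ := hR
    rw [hBBl R hR1]
    obtain ⟨⟨C, hC⟩, _⟩ := pf_ls_ww h1 h3 hG hr hR1
    have hle : ∫⁻ θ in Ioc 0 (2 * π), ENNReal.ofReal (R * ww K R θ) ∂S ≤
        GG K / 8 + ENNReal.ofReal ε := by
      refine le_trans ?_ hn.le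
      apply lintegral_mono
      intro θ
      exact pf_ls_gle c hG h1 h3 h4 h5 hR1 hC.continuous (by positivity) hR2 θ
    have hfin : GG K / 8 + ENNReal.ofReal ε ≠ ∞ := by
      apply ENNReal.add_ne_top.2 ⟨?_, by simp⟩
      exact (ENNReal.div_lt_top hGf (by norm_num)).ne
    have := ENNReal.toReal_mono hfin hle
    rw [ENNReal.toReal_add (ENNReal.div_lt_top hGf (by norm_num)).ne (by simp),
      ENNReal.toReal_ofReal hε.le, ENNReal.toReal_div] at this
    simpa using this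
  · intro R hR
    obtain ⟨⟨C, hC⟩, _⟩ := pf_ls_ww h1 h3 hG hr hR
    have hgl := pf_ls_glob c hG h1 h3 h4 h5 hR hC.continuous
    constructor
    · rw [hBBl R hR]
      have hle : ∫⁻ θ in Ioc 0 (2 * π), ENNReal.ofReal (R * ww K R θ) ∂S ≤
          ENNReal.ofReal (8 * π ^ 2 / 9 * (2 * π) * ρ ^ 3) := by
        calc ∫⁻ θ in Ioc 0 (2 * π), ENNReal.ofReal (R * ww K R θ) ∂S
            ≤ ∫⁻ θ in Ioc 0 (2 * π), ENNReal.ofReal (8 * π ^ 2 / 9 * ρ ^ 2) ∂S := by
              apply lintegral_mono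
              intro θ
              exact ENNReal.ofReal_le_ofReal (hgl θ)
          _ = ENNReal.ofReal (8 * π ^ 2 / 9 * ρ ^ 2) * S (Ioc 0 (2 * π)) := by
              rw [lintegral_const, Measure.restrict_apply_univ]
          _ ≤ ENNReal.ofReal (8 * π ^ 2 / 9 * ρ ^ 2) * ENNReal.ofReal (2 * π * ρ) := by
              gcongr
              apply pf_ls_S c 0
              rw [zero_add]
          _ = ENNReal.ofReal (8 * π ^ 2 / 9 * (2 * π) * ρ ^ 3) := by
              rw [← ENNReal.ofReal_mul (by positivity)]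
              congr 1; ring
      have := ENNReal.toReal_mono (by simp) hle
      rw [ENNReal.toReal_ofReal (by positivity)] at this
      refine this.trans ?_
      have : 0 ≤ (8 * (1 + π) + 8 * π ^ 2 / 9) * ρ ^ 3 := by positivity
      linarith
    · intro θ
      refine (hgl θ).trans ?_
      have : 0 ≤ (8 * (1 + π) + 8 * π ^ 2 / 9 * (2 * π)) * ρ ^ 2 := by positivity
      linarith

end Pool.Agent.H212AN
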