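import Pool.Agent.H212AN.D0

set_option autoImplicit false

namespace Pool.Agent.H212AN

open MeasureTheory Set Filter Topology Metric
open scoped Real ENNReal NNReal

theorem pf_n3_rot (θ : ℝ) (k : ℂ) :
    ((yy θ k : ℂ) + (xx θ k : ℂ) * Complex.I) * Complex.exp ((θ : ℂ) * Complex.I) = k := by
  rw [Complex.exp_mul_I, ← Complex.ofReal_cos, ← Complex.ofReal_sin]
  have h := Real.sin_sq_add_cos_sq θ
  apply Complex.ext
  · simp [yy, xx, Complex.cos_ofReal_re, Complex.sin_ofReal_re]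
    linear_combination k.re * h
  · simp [yy, xx, Complex.cos_ofReal_re, Complex.sin_ofReal_re]
    linear_combination k.im * h

theorem pf_n3 : S_n3 := by
  rintro F G ⟨C, hF⟩ ⟨C', hG⟩
  let L : ℝ × ℝ × ℝ → ℝ × ℝ × ℝ × ℝ × ℝ := fun q => (q.1, F q.1, G q.1, q.2.1, q.2.2)
  let H : ℝ × ℝ × ℝ × ℝ × ℝ → ℂ × ℂ := fun q =>
    (((q.2.1 : ℂ) + (q.2.2.2.1 : ℂ) * Complex.I) * Complex.exp ((q.1 : ℂ) * Complex.I),
      ((q.2.2.1 : ℂ) + (q.2.2.2.2 : ℂ) * Complex.I) * Complex.exp ((q.1 : ℂ) * Complex.I))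
  have hL : LipschitzWith (max 1 (max (C * 1) (max (C' * 1) (max (1 * 1) (1 * 1))))) L :=
    LipschitzWith.prod_fst.prodMk ((hF.comp LipschitzWith.prod_fst).prodMk
      ((hG.comp LipschitzWith.prod_fst).prodMk
        ((LipschitzWith.prod_fst.comp LipschitzWith.prod_snd).prodMk
          (LipschitzWith.prod_snd.comp LipschitzWith.prod_snd))))
  have hofReal : ContDiff ℝ 1 (fun x : ℝ => (x : ℂ)) := Complex.ofRealCLM.contDiff
  have hH : ContDiff ℝ 1 H := by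
    have h1 : ContDiff ℝ 1 fun q : ℝ × ℝ × ℝ × ℝ × ℝ => (q.1 : ℂ) :=
      hofReal.comp contDiff_fst
    have h2 : ContDiff ℝ 1 fun q : ℝ × ℝ × ℝ × ℝ × ℝ => (q.2.1 : ℂ) :=
      hofReal.comp (contDiff_fst.comp contDiff_snd)
    have h3 : ContDiff ℝ 1 fun q : ℝ × ℝ × ℝ × ℝ × ℝ => (q.2.2.1 : ℂ) :=
      hofReal.comp (contDiff_fst.comp (contDiff_snd.comp contDiff_snd))
    have h4 : ContDiff ℝ 1 fun q : ℝ × ℝ × ℝ × ℝ × ℝ => (q.2.2.2.1 : ℂ) :=
      hofReal.comp (contDiff_fst.comp (contDiff_snd.comp (contDiff_snd.comp contDiff_snd)))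
    have h5 : ContDiff ℝ 1 fun q : ℝ × ℝ × ℝ × ℝ × ℝ => (q.2.2.2.2 : ℂ) :=
      hofReal.comp (contDiff_snd.comp (contDiff_snd.comp (contDiff_snd.comp contDiff_snd)))
    have h6 : ContDiff ℝ 1 fun q : ℝ × ℝ × ℝ × ℝ × ℝ => Complex.exp ((q.1 : ℂ) * Complex.I) :=
      (h1.mul contDiff_const).cexp
    exact ((h2.add (h4.mul contDiff_const)).mul h6).prodMk
      ((h3.add (h5.mul contDiff_const)).mul h6)
  have hd1 : dimH (range L) ≤ 3 := by
    refine hL.dimH_range_le.trans ?_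
    rw [Real.dimH_univ_eq_finrank]
    simp [Module.finrank_prod]
  have hd2 : dimH (H '' range L) ≤ 3 :=
    (hH.contDiffOn.dimH_image_le convex_univ (subset_univ _)).trans hd1
  have hsub : {p : ℂ × ℂ | ∃ θ ∈ Icc (0:ℝ) (2 * π), yy θ p.1 = F θ ∧ yy θ p.2 = G θ} ⊆
      H '' range L := by
    rintro ⟨a, b⟩ ⟨θ, -, h1, h2⟩
    refine ⟨_, ⟨(θ, xx θ a, xx θ b), rfl⟩, ?_⟩
    simp only at h1 h2
    have h3 := pf_n3_rot θ a
    have h4 := pf_n3_rot θ b
    rw [h1] at h3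
    rw [h2] at h4
    exact Prod.ext h3 h4
  have hac : (volume : Measure (ℂ × ℂ)) ≪ Measure.hausdorffMeasure ((4 : ℝ≥0) : ℝ) := by
    have h4 : ((4 : ℝ≥0) : ℝ) = (Module.finrank ℝ (ℂ × ℂ) : ℝ) := by
      rw [Module.finrank_prod, Complex.finrank_real_complex]
      norm_num
    rw [h4]
    have hvol : (volume : Measure (ℂ × ℂ)).IsAddHaarMeasure := by
      rw [Measure.volume_eq_prod]
      infer_instance
    exact Measure.absolutelyContinuous_isAddHaarMeasure _ _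
  refine measure_zero_of_dimH_lt hac ?_
  refine (dimH_mono hsub).trans_lt (hd2.trans_lt ?_)
  norm_num

end Pool.Agent.H212AN
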