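import Pool.Agent.H212AN.D4

set_option autoImplicit false

namespace Pool.Agent.H212AN

open MeasureTheory Set Filter Topology Metric
open Pool.Agent.H212AN.G (nG PG gm gk)
open scoped Real ENNReal ComplexConjugate

theorem pf_nl_porous (S : Set ℂ) (r : ℝ) (hr : 0 < r)
    (h : ∀ z ∈ S, ∀ t : ℝ, 0 < t → t ≤ r → ∃ m : ℂ, ball m (t / 2) ⊆ closedBall z t \ S) :
    volume S = 0 := by
  have hd := Besicovitch.ae_tendsto_measure_inter_div (volume : Measure ℂ) S
  have key : ∀ z ∈ S, ¬ Tendsto (fun ρ => volume (S ∩ closedBall z ρ) / volume (closedBall z ρ))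
      (𝓝[>] 0) (𝓝 1) := by
    intro z hz hlim
    have hb : ∀ᶠ ρ in 𝓝[>] (0 : ℝ),
        volume (S ∩ closedBall z ρ) / volume (closedBall z ρ) ≤ 3 / 4 := by
      have h1 : ∀ᶠ ρ in 𝓝[>] (0 : ℝ), ρ ∈ Ioc (0 : ℝ) r := Ioc_mem_nhdsGT hr
      filter_upwards [h1] with t ht
      obtain ⟨m, hm⟩ := h z hz t ht.1 ht.2
      have hfin : volume (ball m (t / 2)) ≠ ⊤ := measure_ball_lt_top.ne
      have h2 : volume (S ∩ closedBall z t) ≤ volume (closedBall z t) - volume (ball m (t / 2)) := by
        rw [← measure_sdiff (hm.trans sdiff_subset) measurableSet_ball.nullMeasurableSet hfin]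
        refine measure_mono ?_
        rintro y ⟨hy1, hy2⟩
        exact ⟨hy2, fun h3 => (hm h3).2 hy1⟩
      rw [Complex.volume_closedBall, Complex.volume_ball] at h2
      rw [Complex.volume_closedBall]
      have hpos : ENNReal.ofReal t ^ 2 * NNReal.pi ≠ 0 := by
        have : ENNReal.ofReal t ≠ 0 := by simp [ht.1]
        have hp : (NNReal.pi : ENNReal) ≠ 0 := by
          simp [NNReal.pi_ne_zero]
        exact mul_ne_zero (pow_ne_zero _ this) hp
      have htop : ENNReal.ofReal t ^ 2 * NNReal.pi ≠ ⊤ :=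
        ENNReal.mul_ne_top (ENNReal.pow_ne_top ENNReal.ofReal_ne_top) ENNReal.coe_ne_top
      rw [ENNReal.div_le_iff hpos htop]
      refine h2.trans ?_
      rw [tsub_le_iff_right]
      have e1 : ENNReal.ofReal (t / 2) = ENNReal.ofReal t / 2 := by
        rw [ENNReal.ofReal_div_of_pos (by norm_num)]; simp
      have e2 : ENNReal.ofReal (t / 2) ^ 2 = ENNReal.ofReal t ^ 2 * (1 / 4) := by
        rw [← ENNReal.ofReal_pow (by linarith [ht.1]), ← ENNReal.ofReal_pow ht.1.le]
        have : (1 / 4 : ENNReal) = ENNReal.ofReal (1 / 4) := by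
          rw [ENNReal.ofReal_div_of_pos (by norm_num)]; simp
        rw [this, ← ENNReal.ofReal_mul (by positivity)]
        congr 1; ring
      rw [e2]
      have e3 : (3 / 4 : ENNReal) + 1 / 4 = 1 := by
        rw [ENNReal.div_add_div_same]
        norm_num
        exact ENNReal.div_self (by norm_num) (by norm_num)
      calc ENNReal.ofReal t ^ 2 * NNReal.pi
          = (3 / 4 + 1 / 4) * (ENNReal.ofReal t ^ 2 * NNReal.pi) := by rw [e3, one_mul]
        _ = 3 / 4 * (ENNReal.ofReal t ^ 2 * NNReal.pi)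
            + ENNReal.ofReal t ^ 2 * (1 / 4) * NNReal.pi := by
            rw [add_mul]; congr 1; ring
        _ ≤ _ := le_rfl
    have := le_of_tendsto hlim hb
    have h4 : ¬ (1 : ENNReal) ≤ 3 / 4 := by
      rw [not_le]
      refine ENNReal.div_lt_of_lt_mul ?_
      norm_num
    exact h4 this
  have hmem : ∀ᵐ z ∂((volume : Measure ℂ).restrict S), z ∉ S := by
    filter_upwards [hd] with z hz hzS
    exact key z hzS hz
  have h0 : ((volume : Measure ℂ).restrict S) S = 0 := by
    have := (ae_iff.mp hmem)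
    simpa using this
  rwa [Measure.restrict_apply_self] at h0

/- PLAIN PROOF.
-/
theorem pf_nl : S_nl := by
  intro K c w R r _ _ hr hsub
  have hR : 0 < R := by
    have : w ∈ ball c R := hsub (mem_closedBall_self hr.le)
    exact pos_of_mem_ball this
  set S1 : Set ℂ := {z | (∀ k ∈ K, ‖z + k - c‖ ≤ R) ∧ ∃ k ∈ K, ‖z + k - c‖ = R} with hS1
  set S2 : Set ℂ := {z | (∀ k ∈ K, r ≤ ‖z + k - w‖) ∧ ∃ k ∈ K, ‖z + k - w‖ = r} with hS2
  have h1 : volume S1 = 0 := by
    refine pf_nl_porous S1 R hR ?_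
    rintro z ⟨_, k, hk, hz⟩ t ht htR
    have hRc : (R : ℂ) ≠ 0 := by exact_mod_cast hR.ne'
    refine ⟨z + ((t / (2 * R) : ℝ) : ℂ) * (z + k - c), fun y hy => ?_⟩
    rw [mem_ball, dist_eq_norm] at hy
    set v := z + k - c with hv
    set m := z + ((t / (2 * R) : ℝ) : ℂ) * v with hm
    have hn : ‖((t / (2 * R) : ℝ) : ℂ) * v‖ = t / 2 := by
      rw [norm_mul, hz, Complex.norm_real, Real.norm_of_nonneg (by positivity)]
      field_simp
    refine ⟨?_, ?_⟩
    · rw [mem_closedBall, dist_eq_norm]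
      have : y - z = (y - m) + ((t / (2 * R) : ℝ) : ℂ) * v := by rw [hm]; ring
      rw [this]
      refine (norm_add_le _ _).trans ?_
      rw [hn]; linarith
    · rintro ⟨hy1, _⟩
      have h3 := hy1 k hk
      have e : ((1 + t / (2 * R) : ℝ) : ℂ) * v = (y + k - c) - (y - m) := by
        rw [hm, hv]; push_cast; ring
      have h4 : ‖((1 + t / (2 * R) : ℝ) : ℂ) * v‖ = R + t / 2 := by
        rw [norm_mul, hz, Complex.norm_real, Real.norm_of_nonneg (by positivity)]
        field_simp
      have h5 := norm_sub_le (y + k - c) (y - m)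
      rw [← e, h4] at h5
      linarith
  have h2 : volume S2 = 0 := by
    refine pf_nl_porous S2 r hr ?_
    rintro z ⟨_, k, hk, hz⟩ t ht htr
    refine ⟨z - ((t / (2 * r) : ℝ) : ℂ) * (z + k - w), fun y hy => ?_⟩
    rw [mem_ball, dist_eq_norm] at hy
    set v := z + k - w with hv
    set m := z - ((t / (2 * r) : ℝ) : ℂ) * v with hm
    have hn : ‖((t / (2 * r) : ℝ) : ℂ) * v‖ = t / 2 := by
      rw [norm_mul, hz, Complex.norm_real, Real.norm_of_nonneg (by positivity)]
      field_simp
    refine ⟨?_, ?_⟩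
    · rw [mem_closedBall, dist_eq_norm]
      have : y - z = (y - m) - ((t / (2 * r) : ℝ) : ℂ) * v := by rw [hm]; ring
      rw [this]
      refine (norm_sub_le _ _).trans ?_
      rw [hn]; linarith
    · rintro ⟨hy1, _⟩
      have h3 := hy1 k hk
      have e : y + k - w = (y - m) + ((1 - t / (2 * r) : ℝ) : ℂ) * v := by
        rw [hm, hv]; push_cast; ring
      have h6 : 0 ≤ 1 - t / (2 * r) := by
        rw [sub_nonneg, div_le_one (by positivity)]; linarith
      have h4 : ‖((1 - t / (2 * r) : ℝ) : ℂ) * v‖ = r - t / 2 := by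
        rw [norm_mul, hz, Complex.norm_real, Real.norm_of_nonneg h6]
        field_simp
      have h5 := norm_add_le (y - m) (((1 - t / (2 * r) : ℝ) : ℂ) * v)
      rw [← e, h4] at h5
      linarith
  refine measure_mono_null ?_ (measure_union_null h1 h2)
  rintro z ⟨hz1, hz2⟩
  have hcl : ∀ k ∈ K, ‖z + k - c‖ ≤ R ∧ r ≤ ‖z + k - w‖ := by
    intro k hk
    have h3 := hz1 k hk
    have h4 : closure (ball c R \ closedBall w r) ⊆ closedBall c R ∩ (ball w r)ᶜ := by
      refine closure_minimal ?_ (isClosed_closedBall.inter isOpen_ball.isClosed_compl)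
      rintro x ⟨hx1, hx2⟩
      exact ⟨ball_subset_closedBall hx1, fun h => hx2 (ball_subset_closedBall h)⟩
    have h5 := h4 h3
    refine ⟨by simpa [dist_eq_norm] using h5.1, ?_⟩
    have := h5.2
    rw [mem_compl_iff, mem_ball, not_lt, dist_eq_norm] at this
    exact this
  have hex : ∃ k ∈ K, z + k ∉ ball c R \ closedBall w r := by
    by_contra hcon
    push Not at hcon
    exact hz2 hcon
  obtain ⟨k, hk, hkn⟩ := hex
  have := hcl k hk
  by_cases h6 : ‖z + k - c‖ < R
  · right
    refine ⟨fun k hk => (hcl k hk).2, k, hk, le_antisymm ?_ this.2⟩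
    by_contra h7
    push Not at h7
    refine hkn ⟨by rwa [mem_ball, dist_eq_norm], ?_⟩
    rw [mem_closedBall, dist_eq_norm]
    exact not_le.mpr h7
  · left
    exact ⟨fun k hk => (hcl k hk).1, k, hk, le_antisymm this.1 (not_lt.mp h6)⟩

end Pool.Agent.H212AN
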