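import Pool.Agent.H212AN.D0

set_option autoImplicit false

namespace Pool.Agent.H212AN

open MeasureTheory Set Filter Topology Metric
open scoped Real ENNReal

/-- consistency with a set of closed bonds -/
def pf_o1_con {m : ℕ} (t : Finset (Fin (m + 1))) (ε : Fin (m + 1) → Bool) : Prop :=
  ∀ i ∈ t, ε i = ε (i + 1)

open Classical in
/-- the sign patterns consistent with the closed bonds and allowed by the sites -/
noncomputable def pf_o1_set {m : ℕ} (t : Finset (Fin (m + 1))) (f : Fin (m + 1) → Bool → ℝ) :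
    Finset (Fin (m + 1) → Bool) :=
  Finset.univ.filter (fun ε => pf_o1_con t ε ∧ ∀ i, f i (ε i) = 1)

theorem pf_o1_exp {m : ℕ} (p q : Fin (m + 1) → ℝ) (f : Fin (m + 1) → Bool → ℝ)
    (hf : ∀ i b, f i b = 0 ∨ f i b = 1) :
    sgn p q f = ∑ t ∈ (Finset.univ : Finset (Fin (m + 1))).powerset,
      ((∏ i ∈ t, (p i - q i)) * ∏ i ∈ Finset.univ \ t, q i) * ((pf_o1_set t f).card : ℝ) := by
  classical
  unfold sgn
  have h1 : ∀ ε : Fin (m + 1) → Bool,
      (∏ i, f i (ε i)) * ∏ i, (if ε i = ε (i + 1) then p i else q i) =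
      ∑ t ∈ (Finset.univ : Finset (Fin (m + 1))).powerset,
        ((∏ i ∈ t, (p i - q i)) * ∏ i ∈ Finset.univ \ t, q i) *
          (if pf_o1_con t ε ∧ ∀ i, f i (ε i) = 1 then 1 else 0) := by
    intro ε
    have h2 : ∀ i, (if ε i = ε (i + 1) then p i else q i) =
        (if ε i = ε (i + 1) then p i - q i else 0) + q i := by
      intro i
      split_ifs <;> ring
    simp only [h2]
    rw [Finset.prod_add, Finset.mul_sum]
    refine Finset.sum_congr rfl ?_
    intro t _
    have h3 : (∏ i ∈ t, (if ε i = ε (i + 1) then p i - q i else 0)) =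
        if (∀ i ∈ t, ε i = ε (i + 1)) then ∏ i ∈ t, (p i - q i) else 0 := by
      rw [Finset.prod_ite_zero]
      by_cases hc : ∀ i ∈ t, ε i = ε (i + 1)
      · rw [if_pos hc, if_pos hc]
      · rw [if_neg hc, if_neg hc]
    have h4 : (∏ i, f i (ε i)) = if (∀ i, f i (ε i) = 1) then 1 else 0 := by
      split_ifs with h5
      · exact Finset.prod_eq_one (fun i _ => h5 i)
      · push Not at h5
        obtain ⟨i, hi⟩ := h5
        exact Finset.prod_eq_zero (Finset.mem_univ i) ((hf i (ε i)).resolve_right hi)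
    rw [h3, h4]
    unfold pf_o1_con
    by_cases ha : ∀ i ∈ t, ε i = ε (i + 1)
    · by_cases hb : ∀ i, f i (ε i) = 1
      · rw [if_pos ha, if_pos hb, if_pos ⟨ha, hb⟩]; ring
      · have hc : ¬ ((∀ i ∈ t, ε i = ε (i + 1)) ∧ ∀ i, f i (ε i) = 1) := fun h => hb h.2
        rw [if_neg hb, if_neg hc]; ring
    · have hc : ¬ ((∀ i ∈ t, ε i = ε (i + 1)) ∧ ∀ i, f i (ε i) = 1) := fun h => ha h.1
      rw [if_neg ha, if_neg hc]; ring
  simp only [h1]
  rw [Finset.sum_comm]
  refine Finset.sum_congr rfl ?_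
  intro t _
  rw [← Finset.mul_sum]
  congr 1
  rw [Finset.sum_boole]
  rfl

theorem pf_o1_site {f f' : Bool → ℝ} (h : Site f f') :
    (∀ b, f b = 0 ∨ f b = 1) ∧ (∀ b, f' b = 0 ∨ f' b = 1) := by
  rcases h with ⟨h1, h2, h3, h4⟩ | ⟨h1, h2, h3, h4⟩ | ⟨h1, h2, h3, h4⟩ | ⟨h1, h2, h3, h4⟩ <;>
    refine ⟨fun b => ?_, fun b => ?_⟩ <;> cases b <;> simp [h1, h2, h3, h4]

open Classical in
theorem pf_o1_card {m : ℕ} (f f' : Fin (m + 1) → Bool → ℝ) (hs : ∀ i, Site (f i) (f' i))
    (t : Finset (Fin (m + 1))) : (pf_o1_set t f).card ≤ (pf_o1_set t f').card := by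
  let R : Fin (m + 1) → Fin (m + 1) → Prop := fun i j =>
    ∀ ε : Fin (m + 1) → Bool, pf_o1_con t ε → ε i = ε j
  let nf : Fin (m + 1) → Prop := fun j => ¬ (f j true = 1 ∧ f j false = 1)
  let T : (Fin (m + 1) → Bool) → (Fin (m + 1) → Bool) := fun ε i =>
    if ∃ j, nf j ∧ R i j then true else ε i
  apply Finset.card_le_card_of_injOn T
  · intro ε hε
    simp only [pf_o1_set, Finset.coe_filter, Finset.mem_univ, true_and, Set.mem_ofPred_eq] at hε ⊢
    obtain ⟨h1, h2⟩ := hε
    refine ⟨?_, ?_⟩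
    · intro k hk
      have hR : R k (k + 1) := fun ε' h' => h' k hk
      have e : (∃ j, nf j ∧ R k j) ↔ (∃ j, nf j ∧ R (k + 1) j) := by
        constructor
        · rintro ⟨j, hj, hj'⟩
          exact ⟨j, hj, fun ε' h' => by rw [← hR ε' h', hj' ε' h']⟩
        · rintro ⟨j, hj, hj'⟩
          exact ⟨j, hj, fun ε' h' => by rw [hR ε' h', hj' ε' h']⟩
      show (if ∃ j, nf j ∧ R k j then true else ε k) =
        (if ∃ j, nf j ∧ R (k + 1) j then true else ε (k + 1))
      rw [if_congr e rfl (h1 k hk)]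
    · intro i
      show f' i (if ∃ j, nf j ∧ R i j then true else ε i) = 1
      have h2i := h2 i
      rcases hs i with ⟨g1, g2, g3, g4⟩ | ⟨g1, g2, g3, g4⟩ | ⟨g1, g2, g3, g4⟩ | ⟨g1, g2, g3, g4⟩
      · generalize (if ∃ j, nf j ∧ R i j then true else ε i) = b
        cases b
        · exact g4
        · exact g3
      · have : ∃ j, nf j ∧ R i j := ⟨i, fun h => by rw [g2] at h; exact zero_ne_one h.2,
          fun ε' _ => rfl⟩
        rw [if_pos this]; exact g3
      · have : ∃ j, nf j ∧ R i j := ⟨i, fun h => by rw [g1] at h; exact zero_ne_one h.1,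
          fun ε' _ => rfl⟩
        rw [if_pos this]; exact g3
      · exfalso
        cases hb : ε i
        · rw [hb, g2] at h2i; exact zero_ne_one h2i
        · rw [hb, g1] at h2i; exact zero_ne_one h2i
  · intro ε hε ε' hε' hT
    simp only [pf_o1_set, Finset.coe_filter, Finset.mem_univ, true_and, Set.mem_ofPred_eq] at hε hε'
    funext i
    by_cases h : ∃ j, nf j ∧ R i j
    · obtain ⟨j, hj, hj'⟩ := h
      rw [hj' ε hε.1, hj' ε' hε'.1]
      have a1 := hε.2 j
      have a2 := hε'.2 j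
      by_contra hne
      apply hj
      cases hb : ε j <;> cases hb' : ε' j
      · exact absurd (hb.trans hb'.symm) hne
      · rw [hb] at a1; rw [hb'] at a2; exact ⟨a2, a1⟩
      · rw [hb] at a1; rw [hb'] at a2; exact ⟨a1, a2⟩
      · exact absurd (hb.trans hb'.symm) hne
    · have := congrFun hT i
      simp only [T] at this
      rwa [if_neg h, if_neg h] at this

theorem pf_o1_const {m : ℕ} (ε : Fin (m + 1) → Bool) (h : pf_o1_con Finset.univ ε) (i : Fin (m + 1)) :
    ε i = ε 0 := by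
  induction i using Fin.induction with
  | zero => rfl
  | succ i ih =>
    rw [← ih, h i.castSucc (Finset.mem_univ _), Fin.coeSucc_eq_succ]

theorem pf_o1 : S_o1 := by
  classical
  intro m p q f f' hpq hs
  have hf : ∀ i b, f i b = 0 ∨ f i b = 1 := fun i b => (pf_o1_site (hs i)).1 b
  have hf' : ∀ i b, f' i b = 0 ∨ f' i b = 1 := fun i b => (pf_o1_site (hs i)).2 b
  have hw : ∀ t : Finset (Fin (m + 1)),
      0 ≤ (∏ i ∈ t, (p i - q i)) * ∏ i ∈ Finset.univ \ t, q i := fun t =>
    mul_nonneg (Finset.prod_nonneg (fun i _ => sub_nonneg.2 (hpq i).2))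
      (Finset.prod_nonneg (fun i _ => (hpq i).1))
  have hle : ∀ t ∈ (Finset.univ : Finset (Fin (m + 1))).powerset,
      ((∏ i ∈ t, (p i - q i)) * ∏ i ∈ Finset.univ \ t, q i) * ((pf_o1_set t f).card : ℝ) ≤
      ((∏ i ∈ t, (p i - q i)) * ∏ i ∈ Finset.univ \ t, q i) * ((pf_o1_set t f').card : ℝ) :=
    fun t _ => mul_le_mul_of_nonneg_left (by exact_mod_cast pf_o1_card f f' hs t) (hw t)
  rw [pf_o1_exp p q f hf, pf_o1_exp p q f' hf']
  refine ⟨Finset.sum_le_sum hle, ?_⟩
  rintro h1 ⟨i, hi⟩ ⟨j, hj⟩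
  have hmem : (Finset.univ : Finset (Fin (m + 1))) ∈
      (Finset.univ : Finset (Fin (m + 1))).powerset := by simp
  rw [← Finset.add_sum_erase _ _ hmem, ← Finset.add_sum_erase _ _ hmem]
  have hrest := Finset.sum_le_sum (s := (Finset.univ : Finset (Fin (m + 1))).powerset.erase
    Finset.univ) (fun t ht => hle t (Finset.mem_of_mem_erase ht))
  have z1 : ((pf_o1_set Finset.univ f).card : ℝ) = 0 := by
    rw [Nat.cast_eq_zero, Finset.card_eq_zero, Finset.eq_empty_iff_forall_notMem]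
    intro ε hε
    simp only [pf_o1_set, Finset.mem_filter, Finset.mem_univ, true_and] at hε
    have e1 := hε.2 i
    have e2 := hε.2 j
    rw [pf_o1_const ε hε.1 i] at e1
    rw [pf_o1_const ε hε.1 j] at e2
    cases hb : ε 0
    · rw [hb, hj.2] at e2; exact zero_ne_one e2
    · rw [hb, hi] at e1; exact zero_ne_one e1
  have z2 : (1 : ℝ) ≤ ((pf_o1_set Finset.univ f').card : ℝ) := by
    have : 0 < (pf_o1_set Finset.univ f').card := by
      rw [Finset.card_pos]
      refine ⟨fun _ => true, ?_⟩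
      simp only [pf_o1_set, Finset.mem_filter, Finset.mem_univ, true_and]
      exact ⟨fun _ _ => rfl, h1⟩
    exact_mod_cast this
  have z3 : (∏ i ∈ (Finset.univ : Finset (Fin (m + 1))), (p i - q i)) *
      ∏ i ∈ (Finset.univ : Finset (Fin (m + 1))) \ Finset.univ, q i = ∏ i, (p i - q i) := by
    simp
  have z4 : 0 ≤ ∏ i, (p i - q i) := Finset.prod_nonneg (fun i _ => sub_nonneg.2 (hpq i).2)
  rw [z1, z3]
  nlinarith [mul_le_mul_of_nonneg_left z2 z4]

end Pool.Agent.H212AN
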