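import Pool.Agent.H212AN.D4

set_option autoImplicit false

namespace Pool.Agent.H212AN

open MeasureTheory Set Filter Topology Metric
open Pool.Agent.H212AN.G (nG PG gm gk)
open scoped Real ENNReal ComplexConjugate

/- PLAIN PROOF.
μ from S_loop. t, ε from S_vis. D = Dn, D' = Df (open, bounded, nonempty). For large K: ofReal(4πtZ D t) + ofReal ε <= EM D t (2K+1) + ofReal ε <=
EM D' t (2K+1) (ZUp). Taking limsup (the limsup over the subsequence 2K+1 is <= limsup over all m; or use frequently):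
ofReal(4πtZ D) + ofReal ε <= limsup_m EM D' t m <= EV μ (closure D') t (S_em). By S_nl (K = range of √t b, r > 0, closedBall(-ih,r) ⊆ ball(ib,R) since
b+h+r < R) EV μ (closure D') t = EV μ D' t <= ofReal(4πtZ D' t) (S_tr). All finite, so Z D t < Z D' t.
-/
theorem pf_obs_vol (h4 : S_nl) (c w : ℂ) (R r : ℝ) (hr : 0 < r) (hw : closedBall w r ⊆ ball c R)
    (μ : Measure Lo) (t : ℝ) :
    EV μ (closure (ball c R \ closedBall w r)) t ≤ EV μ (ball c R \ closedBall w r) t := by
  unfold EV
  apply lintegral_mono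
  intro b
  show volume {z : ℂ | ∀ s : unitInterval, z + (√t : ℂ) * b s ∈
    closure (ball c R \ closedBall w r)} ≤ volume {z : ℂ | ∀ s : unitInterval,
      z + (√t : ℂ) * b s ∈ ball c R \ closedBall w r}
  set K : Set ℂ := range (fun s : unitInterval => (√t : ℂ) * b s) with hK
  have hKc : IsCompact K := isCompact_range (by fun_prop)
  have hKn : K.Nonempty := range_nonempty _
  have h := h4 K c w R r hKc hKn hr hw
  have e1 : ∀ Q : Set ℂ, {z : ℂ | ∀ s : unitInterval, z + (√t : ℂ) * b s ∈ Q} =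
      {z | ∀ k ∈ K, z + k ∈ Q} := by
    intro Q
    ext z
    simp only [mem_setOf_eq, hK, mem_range, forall_exists_index, forall_apply_eq_imp_iff]
  rw [e1, e1]
  set A := {z | ∀ k ∈ K, z + k ∈ closure (ball c R \ closedBall w r)} with hA
  set B := {z | ∀ k ∈ K, z + k ∈ ball c R \ closedBall w r} with hB
  calc volume A ≤ volume (B ∪ (A \ B)) := measure_mono (by
        intro z hz
        by_cases hzB : z ∈ B
        · exact Or.inl hzB
        · exact Or.inr ⟨hz, hzB⟩)
    _ ≤ volume B + volume (A \ B) := measure_union_le _ _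
    _ = volume B := by rw [h, add_zero]

theorem pf_obs_open (c w : ℂ) (R r : ℝ) : IsOpen (ball c R \ closedBall w r) ∧
    Bornology.IsBounded (ball c R \ closedBall w r) :=
  ⟨isOpen_ball.sdiff isClosed_closedBall, isBounded_ball.subset diff_subset⟩

theorem pf_obs (h1 : S_vis) (h2 : S_em) (h3 : S_tr) (h4 : S_nl) (h5 : S_loop) : S_obs := by
  intro Z hU hL hZ R r b h hr hh hhb hR
  obtain ⟨μ, hμ⟩ := h5
  obtain ⟨t, ht, ε, hε, hev⟩ := h1 R r b h hr hh hhb hR
  refine ⟨t, ht, ?_⟩
  obtain ⟨hDo, hDb⟩ := pf_obs_open (b * Complex.I) (h * Complex.I) R r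
  obtain ⟨hDo', hDb'⟩ := pf_obs_open (b * Complex.I) (-(h * Complex.I)) R r
  have hrR : r < R := by linarith
  -- a point in both domains
  have hn1 : ∀ x y : ℝ, ‖((x : ℂ) * Complex.I) - (y : ℂ) * Complex.I‖ = |x - y| := by
    intro x y
    rw [← sub_mul, norm_mul, Complex.norm_I, mul_one, ← Complex.ofReal_sub, Complex.norm_real,
      Real.norm_eq_abs]
  have hp1 : (((b + (r + R) / 2 : ℝ) : ℂ) * Complex.I) ∈ ball ((b : ℂ) * Complex.I) R := by
    rw [mem_ball, dist_eq_norm, hn1, abs_of_pos (by linarith)]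
    linarith
  have hne : (Dn R r b h).Nonempty := by
    refine ⟨((b + (r + R) / 2 : ℝ) : ℂ) * Complex.I, hp1, ?_⟩
    rw [mem_closedBall, dist_eq_norm, hn1, abs_of_pos (by linarith)]
    linarith
  have hne' : (Df R r b h).Nonempty := by
    refine ⟨((b + (r + R) / 2 : ℝ) : ℂ) * Complex.I, hp1, ?_⟩
    have e : (-((h : ℂ) * Complex.I)) = ((-h : ℝ) : ℂ) * Complex.I := by push_cast; ring
    rw [mem_closedBall, dist_eq_norm, e, hn1, abs_of_pos (by linarith)]
    linarith
  have hsub : closedBall (-((h : ℂ) * Complex.I)) r ⊆ ball ((b : ℂ) * Complex.I) R := by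
    intro z hz
    rw [mem_closedBall, dist_eq_norm] at hz
    rw [mem_ball, dist_eq_norm]
    have e : z - (b : ℂ) * Complex.I = (z - -((h : ℂ) * Complex.I)) +
        (((-h : ℝ) : ℂ) * Complex.I - (b : ℂ) * Complex.I) := by push_cast; ring
    rw [e]
    refine (norm_add_le _ _).trans_lt ?_
    rw [hn1, abs_of_neg (by linarith)]
    linarith
  set A := ENNReal.ofReal (4 * π * t * Z (Dn R r b h) t) with hA
  set B := ENNReal.ofReal (4 * π * t * Z (Df R r b h) t) with hB
  have k1 : ∀ m : ℕ, A ≤ EM (Dn R r b h) t m := hU _ hDo hDb hne t ht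
  have k2 : ∀ᶠ K : ℕ in atTop, A + ENNReal.ofReal ε ≤ EM (Df R r b h) t (2 * K + 1) := by
    filter_upwards [hev] with K hK
    exact (add_le_add_left (k1 _) _).trans hK
  have k3 : ∃ᶠ m : ℕ in atTop, A + ENNReal.ofReal ε ≤ EM (Df R r b h) t m := by
    have ht2 : Tendsto (fun K : ℕ => 2 * K + 1) atTop atTop := by
      apply tendsto_atTop_mono (f := fun K : ℕ => K)
      · intro n
        omega
      · exact tendsto_id
    exact ht2.frequently k2.frequently
  have k4 : A + ENNReal.ofReal ε ≤ limsup (fun m => EM (Df R r b h) t m) atTop :=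
    le_limsup_of_frequently_le k3
  have k5 := (h2 μ hμ _ hDo' hDb' t ht).2
  have k6 := pf_obs_vol h4 (b * Complex.I) (-(h * Complex.I)) R r hr hsub μ t
  have k7 := (h3 Z hU hL hZ μ hμ _ hDo' hDb' hne' t ht).1
  have k8 : A + ENNReal.ofReal ε ≤ B := ((k4.trans k5).trans k6).trans k7
  have k9 : A < B := by
    refine lt_of_lt_of_le ?_ k8
    apply ENNReal.lt_add_right ENNReal.ofReal_ne_top
    rw [Ne, ENNReal.ofReal_eq_zero, not_le]
    exact hε
  have hπ := Real.pi_pos
  rw [hA, hB, ENNReal.ofReal_lt_ofReal_iff_of_nonneg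
    (mul_nonneg (by positivity) (hZ _ _))] at k9
  exact lt_of_mul_lt_mul_left k9 (by positivity)

end Pool.Agent.H212AN
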