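import Pool.Agent.H212AN.D2

set_option autoImplicit false

namespace Pool.Agent.H212AN

open MeasureTheory Set Filter Topology Metric
open Pool.Agent.W594.AN (ClosedCurve)
open scoped Real ENNReal ComplexConjugate


/-- smooth curves are null sets -/
theorem pf_or_null (c : ClosedCurve) : volume (range c.γ) = 0 := by
  have h1 : volume ((LinearMap.ker Complex.imCLM.toLinearMap : Submodule ℝ ℂ) : Set ℂ) = 0 := by
    apply Measure.addHaar_submodule
    intro h
    have h2 : Complex.I ∈ (LinearMap.ker Complex.imCLM.toLinearMap : Submodule ℝ ℂ) := by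
      rw [h]
      trivial
    simp at h2
  have h2 : DifferentiableOn ℝ (fun z : ℂ => c.γ z.re)
      ((LinearMap.ker Complex.imCLM.toLinearMap : Submodule ℝ ℂ) : Set ℂ) := by
    have h3 : Differentiable ℝ c.γ := c.smooth.differentiable (by simp)
    exact (h3.comp Complex.reCLM.differentiable).differentiableOn
  have h3 := addHaar_image_eq_zero_of_differentiableOn_of_addHaar_eq_zero volume h2 h1
  have h4 : range c.γ ⊆ (fun z : ℂ => c.γ z.re) ''
      ((LinearMap.ker Complex.imCLM.toLinearMap : Submodule ℝ ℂ) : Set ℂ) := by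
    rintro _ ⟨t, rfl⟩
    exact ⟨(t : ℂ), by simp, by simp⟩
  exact measure_mono_null h4 h3

/-- a lower bound for finitely many positive numbers -/
theorem pf_or_min {ι : Type} [Finite ι] (f : ι → ℝ) (hf : ∀ i, 0 < f i) :
    ∃ ε > 0, ∀ i, ε ≤ f i := by
  have h1 : ∀ᶠ ε in 𝓝[>] (0 : ℝ), ∀ i, ε ∈ Ioc 0 (f i) :=
    eventually_all.2 fun i => Ioc_mem_nhdsGT (hf i)
  have h2 : ∀ᶠ ε in 𝓝[>] (0 : ℝ), 0 < ε := self_mem_nhdsWithin
  obtain ⟨ε, h3, h4⟩ := (h1.and h2).exists
  exact ⟨ε, h4, fun i => (h3 i).2⟩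

theorem pf_or_compact (c : ClosedCurve) : IsCompact (range c.γ) :=
  c.periodic.compact_of_continuous c.L_pos.ne' c.cont

theorem pf_or_LT_mono (c : ClosedCurve) {ε ε' : ℝ} (h : ε ≤ ε') : LT c ε ⊆ LT c ε' := by
  rintro z ⟨s, u, h1, h2, rfl⟩
  exact ⟨s, u, h1, by linarith, rfl⟩

theorem pf_or_RT_mono (c : ClosedCurve) {ε ε' : ℝ} (h : ε ≤ ε') : RT c ε ⊆ RT c ε' := by
  rintro z ⟨s, u, h1, h2, rfl⟩
  exact ⟨s, u, by linarith, h2, rfl⟩

theorem pf_or_Ps_zero (c : ClosedCurve) (s : ℝ) : Ps c s 0 = c.γ s := by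
  simp [Ps]

/-- the connected sets which do not meet the boundary -/
theorem pf_or_side {Ω A : Set ℂ} (hΩ : IsOpen Ω) (hA : IsPreconnected A)
    (hd : Disjoint A (frontier Ω)) : A ⊆ Ω ∨ A ⊆ (closure Ω)ᶜ := by
  apply IsPreconnected.subset_or_subset hΩ isClosed_closure.isOpen_compl
  · rw [disjoint_compl_right_iff_subset]
    exact subset_closure
  · intro z hz
    by_cases h : z ∈ closure Ω
    · left
      by_contra h'
      refine Set.disjoint_left.mp hd hz ?_
      rw [frontier, hΩ.interior_eq]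
      exact ⟨h, h'⟩
    · exact Or.inr h
  · exact hA

theorem pf_or_ta_mono (c : ClosedCurve) {C C' : ℝ} (h : C ≤ C') (s x : ℝ) :
    ta c C s x ≤ ta c C' s x := by
  unfold ta
  have : 0 ≤ x ^ 4 := by positivity
  nlinarith

/-- the boundary separates -/
theorem pf_or_cross {Ω : Set ℂ} {z w : ℂ} (hz : z ∈ Ω) (hw : w ∉ Ω) :
    ∃ p ∈ frontier Ω, dist z p ≤ dist z w := by
  by_contra hcon
  push Not at hcon
  have h1 : IsPreconnected (closedBall z (dist z w)) := (convex_closedBall z _).isPreconnected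
  have h2 : Disjoint (closedBall z (dist z w)) (frontier Ω) := by
    rw [Set.disjoint_left]
    intro p hp hp'
    have := hcon p hp'
    rw [mem_closedBall, dist_comm] at hp
    linarith
  have h3 : closedBall z (dist z w) ⊆ interior Ω ∪ (closure Ω)ᶜ := by
    intro p hp
    by_cases h : p ∈ closure Ω
    · left
      by_contra h'
      exact Set.disjoint_left.mp h2 hp ⟨h, h'⟩
    · exact Or.inr h
  have h4 : Disjoint (interior Ω) (closure Ω)ᶜ := by
    rw [disjoint_compl_right_iff_subset]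
    exact interior_subset.trans subset_closure
  have hzz : z ∈ closedBall z (dist z w) := mem_closedBall_self dist_nonneg
  have hww : w ∈ closedBall z (dist z w) := by
    rw [mem_closedBall, dist_comm]
  rcases IsPreconnected.subset_or_subset isOpen_interior isClosed_closure.isOpen_compl h4 h3 h1
    with h | h
  · exact hw (interior_subset (h hww))
  · exact h hzz (subset_closure hz)

section OrMain

variable {Ω : Set ℂ} {n : ℕ} {c : Fin n → ClosedCurve}

theorem pf_or_range (hS : SD Ω n c) (i : Fin n) : range (c i).γ ⊆ frontier Ω := by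
  rw [hS.frontier_eq]
  exact Set.subset_iUnion (fun i => range (c i).γ) i

theorem pf_or_notMem (hS : SD Ω n c) (i : Fin n) {z : ℂ} (hz : z ∈ Ω) : z ∉ range (c i).γ := by
  intro h
  have h1 := pf_or_range hS i h
  have h2 := hS.isOpen.inter_frontier_eq
  have h3 : z ∈ Ω ∩ frontier Ω := ⟨hz, h1⟩
  rw [h2] at h3
  exact h3

/-- the separation constant -/
theorem pf_or_sep (hS : SD Ω n c) : ∃ δ > 0, ∀ i j : Fin n, ∀ z,
    infDist z (range (c i).γ) < δ → infDist z (range (c j).γ) < δ → i = j := by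
  have h1 : ∀ q : Fin n × Fin n, ∃ δ : ℝ, 0 < δ ∧ ∀ z,
      infDist z (range (c q.1).γ) < δ → infDist z (range (c q.2).γ) < δ → q.1 = q.2 := by
    intro q
    by_cases hq : q.1 = q.2
    · exact ⟨1, one_pos, fun _ _ _ => hq⟩
    · obtain ⟨δ, h2, h3⟩ := (hS.disj hq).exists_thickenings (pf_or_compact (c q.1))
        (pf_or_compact (c q.2)).isClosed
      refine ⟨δ, h2, fun z hz1 hz2 => ?_⟩
      have h5 : z ∈ thickening δ (range (c q.1).γ) := by
        rw [mem_thickening_iff_infDist_lt (range_nonempty _)]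
        exact hz1
      have h6 : z ∈ thickening δ (range (c q.2).γ) := by
        rw [mem_thickening_iff_infDist_lt (range_nonempty _)]
        exact hz2
      exact absurd h6 (Set.disjoint_left.mp h3 h5)
  choose f hf0 hf using h1
  obtain ⟨δ, h2, h3⟩ := pf_or_min f hf0
  exact ⟨δ, h2, fun i j z hz1 hz2 => hf (i, j) z (hz1.trans_le (h3 (i, j)))
    (hz2.trans_le (h3 (i, j)))⟩

/-- one side of every boundary curve is inside, the other one outside -/
theorem pf_or_sides (h3 : S_wd) (h4 : S_jp) (hS : SD Ω n c) {δ ε₀ : ℝ} (hδ : ∀ i j : Fin n, ∀ z,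
    infDist z (range (c i).γ) < δ → infDist z (range (c j).γ) < δ → i = j) (h0 : 0 < ε₀)
    (h0δ : ε₀ ≤ δ) (i : Fin n)
    (hd : ∀ s u : ℝ, |u| < ε₀ → infDist (Ps (c i) s u) (range (c i).γ) = |u|)
    (hex : ∀ z, infDist z (range (c i).γ) < ε₀ → ∃ s ∈ Ico 0 (c i).L, ∃ u : ℝ, |u| < ε₀ ∧
      z = Ps (c i) s u)
    (hcL : IsConnected (LT (c i) ε₀)) (hcR : IsConnected (RT (c i) ε₀)) :
    (LT (c i) ε₀ ⊆ Ω ∧ RT (c i) ε₀ ⊆ (closure Ω)ᶜ) ∨
      (¬ LT (c i) ε₀ ⊆ Ω ∧ RT (c i) ε₀ ⊆ Ω ∧ LT (c i) ε₀ ⊆ (closure Ω)ᶜ) := by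
  have hfr : ∀ z, infDist z (range (c i).γ) < ε₀ → 0 < infDist z (range (c i).γ) →
      z ∉ frontier Ω := by
    intro z hz1 hz2 hz
    rw [hS.frontier_eq, Set.mem_iUnion] at hz
    obtain ⟨j, hj⟩ := hz
    have h5 : infDist z (range (c j).γ) = 0 := infDist_zero_of_mem hj
    have h6 := hδ i j z (hz1.trans_le h0δ) (by rw [h5]; linarith)
    subst h6
    linarith
  have hL : Disjoint (LT (c i) ε₀) (frontier Ω) := by
    rw [Set.disjoint_left]
    rintro z ⟨s, u, hu1, hu2, rfl⟩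
    have h5 := hd s u (by rw [abs_of_pos hu1]; exact hu2)
    rw [abs_of_pos hu1] at h5
    exact hfr _ (by rw [h5]; exact hu2) (by rw [h5]; exact hu1)
  have hR : Disjoint (RT (c i) ε₀) (frontier Ω) := by
    rw [Set.disjoint_left]
    rintro z ⟨s, u, hu1, hu2, rfl⟩
    have h5 := hd s u (by rw [abs_of_neg hu2]; linarith)
    rw [abs_of_neg hu2] at h5
    exact hfr _ (by rw [h5]; linarith) (by rw [h5]; linarith)
  -- one of the sides meets the domain
  have hmeet : (∃ z ∈ LT (c i) ε₀, z ∈ Ω) ∨ ∃ z ∈ RT (c i) ε₀, z ∈ Ω := by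
    have h5 : (c i).γ 0 ∈ closure Ω := (pf_or_range hS i ⟨0, rfl⟩).1
    rw [Metric.mem_closure_iff] at h5
    obtain ⟨z, hz, hz'⟩ := h5 ε₀ h0
    have h6 : infDist z (range (c i).γ) < ε₀ :=
      (infDist_le_dist_of_mem (mem_range_self 0)).trans_lt (by rw [dist_comm]; exact hz')
    obtain ⟨s, -, u, hu, rfl⟩ := hex z h6
    rcases lt_trichotomy u 0 with h | h | h
    · rw [abs_of_neg h] at hu
      exact Or.inr ⟨_, ⟨s, u, by linarith, h, rfl⟩, hz⟩
    · subst h
      rw [pf_or_Ps_zero] at hz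
      exact absurd (mem_range_self s) (pf_or_notMem hS i hz)
    · rw [abs_of_pos h] at hu
      exact Or.inl ⟨_, ⟨s, u, h, hu, rfl⟩, hz⟩
  -- not both
  have hnot : ¬ (LT (c i) ε₀ ⊆ Ω ∧ RT (c i) ε₀ ⊆ Ω) := by
    rintro ⟨hl, hr⟩
    have h5 := (h3 (c i)).2.2.2 Ω hS.isConnected.isPreconnected
      (Set.disjoint_left.mpr fun z hz => pf_or_notMem hS i hz)
    have h6 := h4 (c i) 0
    have h7 : ∀ᶠ u in 𝓝[>] (0 : ℝ), wd (c i) (Ps (c i) 0 u) - wd (c i) (Ps (c i) 0 (-u)) = 0 := by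
      filter_upwards [Ioo_mem_nhdsGT h0] with u hu
      rw [sub_eq_zero]
      exact h5 _ (hl ⟨0, u, hu.1, hu.2, rfl⟩) _
        (hr ⟨0, -u, by linarith [hu.2], by linarith [hu.1], rfl⟩)
    have h8 : Tendsto (fun u : ℝ => wd (c i) (Ps (c i) 0 u) - wd (c i) (Ps (c i) 0 (-u)))
        (𝓝[>] 0) (𝓝 0) := (tendsto_congr' h7).mpr tendsto_const_nhds
    exact zero_ne_one (tendsto_nhds_unique h8 h6)
  have hsub : ∀ A : Set ℂ, A ⊆ (closure Ω)ᶜ → ∀ z ∈ A, z ∉ Ω :=
    fun A hA z hz hz' => hA hz (subset_closure hz')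
  rcases pf_or_side hS.isOpen hcL.isPreconnected hL with hl | hl <;>
  rcases pf_or_side hS.isOpen hcR.isPreconnected hR with hr | hr
  · exact absurd ⟨hl, hr⟩ hnot
  · exact Or.inl ⟨hl, hr⟩
  · refine Or.inr ⟨fun h => ?_, hr, hl⟩
    exact hnot ⟨h, hr⟩
  · exfalso
    rcases hmeet with ⟨z, hz, hz'⟩ | ⟨z, hz, hz'⟩
    · exact hsub _ hl z hz hz'
    · exact hsub _ hr z hz hz'

/-- the local description -/
theorem pf_or_LB (hS : SD Ω n c) {δ ε₀ C : ℝ} (hδ : ∀ i j : Fin n, ∀ z,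
    infDist z (range (c i).γ) < δ → infDist z (range (c j).γ) < δ → i = j) (h0 : 0 < ε₀)
    (h0δ : ε₀ ≤ δ) (hC : 0 < C)
    (hinj : ∀ i, ∀ s s' u u' : ℝ, s ∈ Ico 0 (c i).L → s' ∈ Ico 0 (c i).L → |u| < ε₀ →
      |u'| < ε₀ → Ps (c i) s u = Ps (c i) s' u' → s = s' ∧ u = u')
    (hd : ∀ i, ∀ s u : ℝ, |u| < ε₀ → infDist (Ps (c i) s u) (range (c i).γ) = |u|)
    (hex : ∀ i, ∀ z, infDist z (range (c i).γ) < ε₀ → ∃ s ∈ Ico 0 (c i).L, ∃ u : ℝ, |u| < ε₀ ∧
      z = Ps (c i) s u)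
    (hcurv : ∀ i s, |(c i).curvature s| ≤ C ∧ |deriv (c i).curvature s| ≤ C)
    (hsd : ∀ i, ∀ s x y : ℝ, |x| ≤ ε₀ / 2 → |y| ≤ ε₀ / 2 →
      (ta (c i) C s x < y → fr (c i) s x y ∈ LT (c i) ε₀) ∧
        (y < ta (c i) (-C) s x → fr (c i) s x y ∈ RT (c i) ε₀))
    (hL : ∀ i, LT (c i) ε₀ ⊆ Ω) (hR : ∀ i, RT (c i) ε₀ ⊆ (closure Ω)ᶜ) :
    ∃ ε C : ℝ, LB Ω n c ε C := by
  obtain ⟨ε, hε⟩ : ∃ ε, ε = min (ε₀ / 2) (min 1 (1 / (2 * C))) := ⟨_, rfl⟩
  have e1 : ε ≤ ε₀ / 2 := hε ▸ min_le_left _ _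
  have e2 : ε ≤ 1 := hε ▸ (min_le_right _ _).trans (min_le_left _ _)
  have e3 : ε ≤ 1 / (2 * C) := hε ▸ (min_le_right _ _).trans (min_le_right _ _)
  have e0 : 0 < ε := by
    rw [hε]
    exact lt_min (by linarith) (lt_min one_pos (by positivity))
  have hright : ∀ i s u, -ε < u → u ≤ 0 → Ps (c i) s u ∉ Ω := by
    intro i s u h1 h2 h3
    rcases h2.lt_or_eq with h | h
    · exact hR i ⟨s, u, by linarith, h, rfl⟩ (subset_closure h3)
    · rw [h, pf_or_Ps_zero] at h3
      exact pf_or_notMem hS i h3 (mem_range_self s)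
  refine ⟨ε, C, ⟨hS.isOpen, hS.isBounded, hS.isConnected.nonempty, ?_, ⟨e0, e2⟩, ⟨hC, ?_⟩, hcurv,
    ?_, hright, ?_, ?_, ?_, ?_⟩⟩
  · rw [hS.frontier_eq]
    exact measure_iUnion_null fun i => pf_or_null (c i)
  · have := mul_le_mul_of_nonneg_right e3 hC.le
    have h5 : 1 / (2 * C) * C = 1 / 2 := by field_simp
    linarith
  · intro i s u h1 h2
    exact hL i ⟨s, u, h1, by linarith, rfl⟩
  · intro i j s u s' u' hs hs' hu hu' h
    have h5 : infDist (Ps (c i) s u) (range (c i).γ) < δ := by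
      rw [hd i s u (by rw [abs_of_pos hu.1]; linarith [hu.2]), abs_of_pos hu.1]
      linarith [hu.2]
    have h6 : infDist (Ps (c i) s u) (range (c j).γ) < δ := by
      rw [h, hd j s' u' (by rw [abs_of_pos hu'.1]; linarith [hu'.2]), abs_of_pos hu'.1]
      linarith [hu'.2]
    have h7 := hδ i j _ h5 h6
    subst h7
    have h8 := hinj i s s' u u' hs hs' (by rw [abs_of_pos hu.1]; linarith [hu.2])
      (by rw [abs_of_pos hu'.1]; linarith [hu'.2]) h
    exact ⟨rfl, h8.1, h8.2⟩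
  · intro z hz w hw hzw
    obtain ⟨q, hq, hq'⟩ := pf_or_cross hz hw
    rw [hS.frontier_eq, Set.mem_iUnion] at hq
    obtain ⟨i, hi⟩ := hq
    have h5 : infDist z (range (c i).γ) ≤ dist z w := (infDist_le_dist_of_mem hi).trans hq'
    obtain ⟨s, hs, u, hu, rfl⟩ := hex i z (by linarith)
    have h6 := hd i s u hu
    rw [h6] at h5
    refine ⟨i, s, hs, u, ?_, rfl⟩
    by_cases h7 : 0 < u
    · rw [abs_of_pos h7] at h5
      exact ⟨h7, h5⟩
    · exfalso
      push Not at h7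
      rw [abs_of_nonpos h7] at h5
      exact hright i s u (by linarith) h7 hz
  · intro i s x y hx hy h
    exact hL i ((hsd i s x y (hx.trans e1) (hy.trans e1)).1 h)
  · intro i s x y hx hy h
    exact hR i ((hsd i s x y (hx.trans e1) (hy.trans e1)).2 h)

end OrMain

/- PLAIN PROOF.
Let SD Ω n c. Choose ε₀ > 0 smaller than the constants of S_tb and S_sd for all curves c i and rev (c i), and than half the distance between
different (disjoint, compact) ranges. LT (c i) ε₀ and RT (c i) ε₀ are connected and disjoint from frontier Ω (their points have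
distance in (0,ε₀) from range (c i), and > 0 from the other ranges), so each is contained in Ω or in (closure Ω)ᶜ. Points of
range (c i) are in closure Ω, and a neighbourhood of them is contained in LT ∪ RT ∪ range (S_tb third item), Ω is open and disjoint from
its frontier, so LT or RT meets Ω. Not both are in Ω: otherwise wd (c i) would be constant on the connected set Ω (S_wd last item,
Ω disjoint from the range), but wd (Ps s u) - wd (Ps s (-u)) -> 1 (S_jp). Let c' i = c i if LT (c i) ε₀ ⊆ Ω, else rev (c i)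
(S_rv: LT (rev c) = RT c, same range). So for all i LT (c' i) ε₀ ⊆ Ω and RT (c' i) ε₀ ∩ closure Ω = ∅. LB with C the maximum of the
constants and ε = min(ε₀/2, 1, 1/(2C)): null: the frontier is a finite union of ranges of C¹ curves (null sets in the plane: Lipschitz image
of an interval); left, right clear; inj: the same curve by S_tb, different curves by the choice of ε₀ (infDist = |u| < ε₀ to both);
cover: the segment from z in Ω to w not in Ω meets frontier Ω, so some infDist z (range (c' i)) <= dist z w < ε, z = Ps s u with |u| = infDist,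
and u > 0 since z ∈ Ω; inside/outside: S_sd with ε <= ε₀/2 (ta is monotone in the constant C).
-/
theorem pf_or (h1 : S_tb) (h2 : S_sd) (h3 : S_wd) (h4 : S_jp) (h5 : S_rv) : S_or := by
  classical
  intro Ω n c hS
  obtain ⟨δ, hδ0, hδ⟩ := pf_or_sep hS
  choose e1 he1 t1 t2 t3 t4 using h1
  choose e2 C2 he2 hC2 hcurv hsd using h2
  obtain ⟨ε₀, h0, hm⟩ := pf_or_min (ι := Fin n ⊕ Unit)
    (fun q => Sum.elim (fun i => min (min (e1 (c i)) (e1 (rev (c i))))
      (min (e2 (c i)) (e2 (rev (c i))))) (fun _ => δ) q)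
    (by
      rintro (i | i)
      · exact lt_min (lt_min (he1 _) (he1 _)) (lt_min (he2 _) (he2 _))
      · exact hδ0)
  have m1 : ∀ i, ε₀ ≤ e1 (c i) := fun i =>
    (hm (Sum.inl i)).trans ((min_le_left _ _).trans (min_le_left _ _))
  have m2 : ∀ i, ε₀ ≤ e1 (rev (c i)) := fun i =>
    (hm (Sum.inl i)).trans ((min_le_left _ _).trans (min_le_right _ _))
  have m3 : ∀ i, ε₀ ≤ e2 (c i) := fun i =>
    (hm (Sum.inl i)).trans ((min_le_right _ _).trans (min_le_left _ _))
  have m4 : ∀ i, ε₀ ≤ e2 (rev (c i)) := fun i =>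
    (hm (Sum.inl i)).trans ((min_le_right _ _).trans (min_le_right _ _))
  have m5 : ε₀ ≤ δ := hm (Sum.inr ())
  have hex : ∀ d : ClosedCurve, ε₀ ≤ e1 d → ∀ z, infDist z (range d.γ) < ε₀ →
      ∃ s ∈ Ico 0 d.L, ∃ u : ℝ, |u| < ε₀ ∧ z = Ps d s u := by
    intro d hd z hz
    obtain ⟨s, hs, u, hu, rfl⟩ := t3 d z (hz.trans_le hd)
    refine ⟨s, hs, u, ?_, rfl⟩
    rw [t2 d s u hu] at hz
    exact hz
  have hsides := fun i => pf_or_sides h3 h4 hS hδ h0 m5 i
    (fun s u hu => t2 (c i) s u (hu.trans_le (m1 i))) (hex (c i) (m1 i))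
    (t4 (c i) ε₀ h0 (m1 i)).2.2.1 (t4 (c i) ε₀ h0 (m1 i)).2.2.2
  obtain ⟨c', hc'⟩ : ∃ c' : Fin n → ClosedCurve, c' = fun i =>
      if LT (c i) ε₀ ⊆ Ω then c i else rev (c i) := ⟨_, rfl⟩
  have hor : ∀ i, c' i = c i ∨ c' i = rev (c i) := by
    intro i
    rw [hc']
    by_cases h : LT (c i) ε₀ ⊆ Ω
    · left
      simp only [h, if_true]
    · right
      simp only [h, if_false]
  have hrange : ∀ i, range (c' i).γ = range (c i).γ := by
    intro i
    rcases hor i with h | h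
    · rw [h]
    · rw [h]
      exact (h5 (c i)).1
  have hLR : ∀ i, LT (c' i) ε₀ ⊆ Ω ∧ RT (c' i) ε₀ ⊆ (closure Ω)ᶜ := by
    intro i
    by_cases h : LT (c i) ε₀ ⊆ Ω
    · have e : c' i = c i := by
        rw [hc']
        simp only [h, if_true]
      rw [e]
      rcases hsides i with h6 | h6
      · exact h6
      · exact absurd h h6.1
    · have e : c' i = rev (c i) := by
        rw [hc']
        simp only [h, if_false]
      rw [e, ((h5 (c i)).2.2.2.2.2.2.2 ε₀).1, ((h5 (c i)).2.2.2.2.2.2.2 ε₀).2]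
      rcases hsides i with h6 | h6
      · exact absurd h6.1 h
      · exact h6.2
  have hS' : SD Ω n c' := by
    refine ⟨hS.isOpen, hS.isConnected, hS.isBounded, ?_, ?_⟩
    · rw [hS.frontier_eq]
      exact Set.iUnion_congr fun i => (hrange i).symm
    · intro i j hij
      rw [hrange i, hrange j]
      exact hS.disj hij
  have m1' : ∀ i, ε₀ ≤ e1 (c' i) := by
    intro i
    rcases hor i with h | h
    · rw [h]; exact m1 i
    · rw [h]; exact m2 i
  have m3' : ∀ i, ε₀ ≤ e2 (c' i) := by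
    intro i
    rcases hor i with h | h
    · rw [h]; exact m3 i
    · rw [h]; exact m4 i
  obtain ⟨M, hM⟩ := Finite.exists_le (fun i => C2 (c' i))
  obtain ⟨C, hC⟩ : ∃ C, C = max M 1 := ⟨_, rfl⟩
  have hCpos : 0 < C := by
    rw [hC]
    exact lt_max_of_lt_right one_pos
  have hCi : ∀ i, C2 (c' i) ≤ C := by
    intro i
    rw [hC]
    exact (hM i).trans (le_max_left _ _)
  refine ⟨c', hor, hS', ?_⟩
  refine pf_or_LB hS' (δ := δ) (ε₀ := ε₀) (C := C) ?_ h0 m5 hCpos ?_ ?_ ?_ ?_ ?_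
    (fun i => (hLR i).1) (fun i => (hLR i).2)
  · intro i j z
    rw [hrange i, hrange j]
    exact hδ i j z
  · intro i s s' u u' hs hs' hu hu' h
    exact t1 (c' i) s s' u u' hs hs' (hu.trans_le (m1' i)) (hu'.trans_le (m1' i)) h
  · intro i s u hu
    exact t2 (c' i) s u (hu.trans_le (m1' i))
  · intro i
    exact hex (c' i) (m1' i)
  · intro i s
    exact ⟨(hcurv (c' i) s).1.trans (hCi i), (hcurv (c' i) s).2.trans (hCi i)⟩
  · intro i s x y hx hy
    have h6 := hsd (c' i) ε₀ h0 (m3' i) s x y hx hy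
    constructor
    · intro h7
      exact h6.1 ((pf_or_ta_mono (c' i) (hCi i) s x).trans_lt h7)
    · intro h7
      exact h6.2 (h7.trans_le (pf_or_ta_mono (c' i) (neg_le_neg (hCi i)) s x))

end Pool.Agent.H212AN
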