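import Pool.Agent.H212AN.D1

set_option autoImplicit false

namespace Pool.Agent.H212AN

open MeasureTheory Set Filter Topology Metric
open Pool.Agent.H212AN.G (nG PG gm)
open scoped Real ENNReal

/-- the integrand -/
noncomputable def pf_pe_v (κ c d : ℝ) (z : ℂ) : ℝ :=
  z.re + κ / 2 * z.im ^ 2 + c * z.im ^ 3 + d * z.im ^ 4

lemma pf_pe_cont (κ c d : ℝ) (b : Lo) : Continuous fun t : unitInterval => pf_pe_v κ c d (b t) := by
  unfold pf_pe_v
  fun_prop

lemma pf_pe_att (κ c d : ℝ) (b : Lo) : ∃ t, pe κ c d b = pf_pe_v κ c d (b t) := by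
  obtain ⟨t, _, ht⟩ := (isCompact_univ (X := unitInterval)).exists_isMaxOn univ_nonempty
    (pf_pe_cont κ c d b).continuousOn
  refine ⟨t, ?_⟩
  have h1 : ∀ s, pf_pe_v κ c d (b s) ≤ pf_pe_v κ c d (b t) := fun s => ht (mem_univ s)
  apply le_antisymm
  · exact ciSup_le h1
  · exact le_ciSup (f := fun s => pf_pe_v κ c d (b s)) ⟨_, by rintro _ ⟨s, rfl⟩; exact h1 s⟩ t

lemma pf_pe_le (κ c d : ℝ) (b : Lo) (t : unitInterval) : pf_pe_v κ c d (b t) ≤ pe κ c d b := by
  obtain ⟨t', _, ht⟩ := (isCompact_univ (X := unitInterval)).exists_isMaxOn univ_nonempty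
    (pf_pe_cont κ c d b).continuousOn
  have h1 : ∀ s, pf_pe_v κ c d (b s) ≤ pf_pe_v κ c d (b t') := fun s => ht (mem_univ s)
  exact le_ciSup (f := fun s => pf_pe_v κ c d (b s)) ⟨_, by rintro _ ⟨s, rfl⟩; exact h1 s⟩ t

lemma pf_pe_re (b : Lo) (t : unitInterval) : |(b t).re| ≤ ‖b‖ :=
  (Complex.abs_re_le_norm _).trans (b.norm_coe_le_norm t)

lemma pf_pe_im (b : Lo) (t : unitInterval) (n : ℕ) : |(b t).im ^ n| ≤ ‖b‖ ^ n := by
  rw [abs_pow]
  exact pow_le_pow_left₀ (abs_nonneg _) ((Complex.abs_im_le_norm _).trans (b.norm_coe_le_norm t)) n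

lemma pf_pe_im_mul (x : ℝ) (b : Lo) (t : unitInterval) (n : ℕ) :
    |x * (b t).im ^ n| ≤ |x| * ‖b‖ ^ n := by
  rw [abs_mul]
  exact mul_le_mul_of_nonneg_left (pf_pe_im b t n) (abs_nonneg x)

lemma pf_pe_half (x : ℝ) (b : Lo) (t : unitInterval) :
    |x / 2 * (b t).im ^ 2| ≤ |x| * ‖b‖ ^ 2 := by
  refine (pf_pe_im_mul (x / 2) b t 2).trans ?_
  apply mul_le_mul_of_nonneg_right _ (by positivity)
  rw [abs_div, abs_two]
  linarith [abs_nonneg x]

lemma pf_pe_continuous :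
    Continuous (fun p : (ℝ × ℝ × ℝ) × Lo => pe p.1.1 p.1.2.1 p.1.2.2 p.2) := by
  have h1 : Continuous (fun q : ((ℝ × ℝ × ℝ) × Lo) × unitInterval => q.1.2 q.2) :=
    ContinuousEval.continuous_eval.comp
      ((continuous_snd.comp continuous_fst).prodMk continuous_snd)
  have h2 : Continuous (fun q : ((ℝ × ℝ × ℝ) × Lo) × unitInterval =>
      pf_pe_v q.1.1.1 q.1.1.2.1 q.1.1.2.2 (q.1.2 q.2)) := by
    have hre : Continuous (fun q : ((ℝ × ℝ × ℝ) × Lo) × unitInterval => (q.1.2 q.2).re) :=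
      Complex.continuous_re.comp h1
    have him : Continuous (fun q : ((ℝ × ℝ × ℝ) × Lo) × unitInterval => (q.1.2 q.2).im) :=
      Complex.continuous_im.comp h1
    unfold pf_pe_v
    have a1 : Continuous (fun q : ((ℝ × ℝ × ℝ) × Lo) × unitInterval => q.1.1.1) := by fun_prop
    have a2 : Continuous (fun q : ((ℝ × ℝ × ℝ) × Lo) × unitInterval => q.1.1.2.1) := by fun_prop
    have a3 : Continuous (fun q : ((ℝ × ℝ × ℝ) × Lo) × unitInterval => q.1.1.2.2) := by fun_prop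
    exact ((hre.add ((a1.div_const 2).mul (him.pow 2))).add (a2.mul (him.pow 3))).add
      (a3.mul (him.pow 4))
  have h3 := IsCompact.continuous_sSup (f := fun (p : (ℝ × ℝ × ℝ) × Lo) (t : unitInterval) =>
    pf_pe_v p.1.1 p.1.2.1 p.1.2.2 (p.2 t)) (isCompact_univ (X := unitInterval)) h2
  simp only [image_univ] at h3
  exact h3

theorem pf_pe : S_pe := by
  refine ⟨pf_pe_continuous, ?_, ?_, ?_, ?_, ?_, ?_⟩
  · intro κ c d b
    exact ⟨pf_pe_att κ c d b, pf_pe_le κ c d b⟩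
  · intro κ c d b
    obtain ⟨t, ht⟩ := pf_pe_att κ c d b
    rw [ht, pf_pe_v]
    have h1 := pf_pe_re b t
    have h2 := pf_pe_half κ b t
    have h3 := pf_pe_im_mul c b t 3
    have h4 := pf_pe_im_mul d b t 4
    rw [abs_le] at h1 h2 h3 h4 ⊢
    constructor <;> linarith
  · intro κ c d κ' c' d' b
    have key : ∀ κ c d κ' c' d' : ℝ, pe κ c d b - pe κ' c' d' b ≤
        |κ - κ'| * ‖b‖ ^ 2 + |c - c'| * ‖b‖ ^ 3 + |d - d'| * ‖b‖ ^ 4 := by
      intro κ c d κ' c' d'
      obtain ⟨t, ht⟩ := pf_pe_att κ c d b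
      have h0 := pf_pe_le κ' c' d' b t
      rw [pf_pe_v] at ht h0
      have h2 := (le_abs_self _).trans (pf_pe_half (κ - κ') b t)
      have h3 := (le_abs_self _).trans (pf_pe_im_mul (c - c') b t 3)
      have h4 := (le_abs_self _).trans (pf_pe_im_mul (d - d') b t 4)
      rw [ht]
      linarith
    rw [abs_le]
    have h1 := key κ c d κ' c' d'
    have h2 := key κ' c' d' κ c d
    rw [abs_sub_comm κ' κ, abs_sub_comm c' c, abs_sub_comm d' d] at h2
    constructor <;> linarith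
  · intro r κ c d b hr
    have hv : ∀ t, pf_pe_v κ c d ((r • b) t) =
        r * pf_pe_v (r * κ) (r ^ 2 * c) (r ^ 3 * d) (b t) := by
      intro t
      simp only [pf_pe_v, ContinuousMap.smul_apply, Complex.smul_re, Complex.smul_im, smul_eq_mul]
      ring
    obtain ⟨t, ht⟩ := pf_pe_att κ c d (r • b)
    obtain ⟨t', ht'⟩ := pf_pe_att (r * κ) (r ^ 2 * c) (r ^ 3 * d) b
    apply le_antisymm
    · rw [ht, hv]
      exact mul_le_mul_of_nonneg_left (pf_pe_le _ _ _ b t) hr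
    · rw [ht', ← hv]
      exact pf_pe_le _ _ _ _ t'
  · intro κ c d b
    unfold pe
    congr 1
    funext t
    have h1 : (star b) t = (starRingEnd ℂ) (b t) := rfl
    rw [h1, Complex.conj_re, Complex.conj_im]
    ring
  · intro κ c d b hb
    have := pf_pe_le κ c d b 0
    rw [hb] at this
    simpa [pf_pe_v] using this

end Pool.Agent.H212AN
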