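import Pool.Agent.H212AN.D0

set_option autoImplicit false

namespace Pool.Agent.H212AN

open MeasureTheory Set Filter Topology Metric
open scoped Real ENNReal

theorem pf_pl_polar (A : Set ℂ) (hA : MeasurableSet A) (f : ℝ → ℝ) (hf : Continuous f)
    (hper : Function.Periodic f (2 * π)) (hf0 : ∀ θ, 0 ≤ f θ)
    (h : ∀ r θ : ℝ, 0 < r → r ≠ f θ →
      (((r : ℂ) * (Real.cos θ + Real.sin θ * Complex.I)) ∈ A ↔ r < f θ)) :
    (volume A).toReal = (1 / 2) * ∫ θ in (0:ℝ)..(2 * π), f θ ^ 2 := by
  have e1 : volume A = ∫⁻ p, A.indicator (fun _ => (1 : ℝ≥0∞)) p := by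
    rw [lintegral_indicator hA]; simp
  have hmeas : Measurable (fun p : ℝ × ℝ => ENNReal.ofReal p.1 •
      A.indicator (fun _ => (1 : ℝ≥0∞)) (Complex.polarCoord.symm p)) := by
    simp only [smul_eq_mul]
    apply Measurable.mul
    · exact ENNReal.measurable_ofReal.comp measurable_fst
    · apply (measurable_const.indicator hA).comp
      have : (fun p : ℝ × ℝ => Complex.polarCoord.symm p) =
          fun p : ℝ × ℝ => (p.1 : ℂ) * (Real.cos p.2 + Real.sin p.2 * Complex.I) := by
        funext p; exact Complex.polarCoord_symm_apply p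
      have hc : Continuous (fun p : ℝ × ℝ => Complex.polarCoord.symm p) := by
        rw [this]; fun_prop
      exact hc.measurable
  have e2 : volume A = ∫⁻ θ in Ioo (-π) π, ENNReal.ofReal (f θ ^ 2 / 2) := by
    rw [e1, ← Complex.lintegral_comp_polarCoord_symm, polarCoord_target,
      Measure.volume_eq_prod, ← Measure.prod_restrict, lintegral_prod_symm' _ hmeas]
    apply lintegral_congr
    intro θ
    have e3 : ∫⁻ r in Ioi (0:ℝ), ENNReal.ofReal (r, θ).1 •
        A.indicator (fun _ => (1 : ℝ≥0∞)) (Complex.polarCoord.symm (r, θ)) =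
        ∫⁻ r in Ioi (0:ℝ), (Iio (f θ)).indicator (fun r => ENNReal.ofReal r) r := by
      apply lintegral_congr_ae
      have hne : ∀ᵐ r : ℝ ∂(volume.restrict (Ioi (0:ℝ))), r ≠ f θ :=
        ae_restrict_of_ae (by
          simp [ae_iff])
      filter_upwards [hne, ae_restrict_mem measurableSet_Ioi] with r hr hr0
      have hh := h r θ hr0 hr
      rw [Complex.polarCoord_symm_apply]
      by_cases hlt : r < f θ
      · rw [indicator_of_mem (by exact hh.2 hlt), indicator_of_mem (by exact hlt)]
        simp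
      · rw [indicator_of_notMem (by intro hc; exact hlt (hh.1 hc)),
          indicator_of_notMem (by exact hlt)]
        simp
    rw [e3, lintegral_indicator measurableSet_Iio, Measure.restrict_restrict measurableSet_Iio]
    have e4 : Iio (f θ) ∩ Ioi 0 = Ioo 0 (f θ) := by
      ext x; simp [and_comm]
    rw [e4, Measure.restrict_congr_set Ioo_ae_eq_Ioc, ← ofReal_integral_eq_lintegral_ofReal,
      ← intervalIntegral.integral_of_le (hf0 θ)]
    · congr 1
      rw [integral_id]; ring
    · exact (continuous_id.integrableOn_Icc).mono_set Ioc_subset_Icc_self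
    · exact (ae_restrict_mem measurableSet_Ioc).mono fun x hx => hx.1.le
  rw [e2, ← ofReal_integral_eq_lintegral_ofReal, Measure.restrict_congr_set Ioo_ae_eq_Ioc,
    ← intervalIntegral.integral_of_le (by linarith [Real.pi_pos]), ENNReal.toReal_ofReal]
  · have hp2 : Function.Periodic (fun θ => f θ ^ 2 / 2) (2 * π) := fun θ => by
      simp only; rw [hper θ]
    have := hp2.intervalIntegral_add_eq (-π) 0
    rw [show -π + 2 * π = π by ring, zero_add] at this
    rw [this, ← intervalIntegral.integral_const_mul]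
    apply intervalIntegral.integral_congr
    intro θ _
    simp only; ring
  · apply intervalIntegral.integral_nonneg (by linarith [Real.pi_pos])
    intro u _
    positivity
  · have : Continuous fun θ => f θ ^ 2 / 2 := by fun_prop
    exact (this.integrableOn_Icc).mono_set Ioo_subset_Icc_self
  · exact Eventually.of_forall fun θ => by positivity

theorem pf_pl_norm (r θ : ℝ) (k : ℂ) :
    ‖(r : ℂ) * (Real.cos θ + Real.sin θ * Complex.I) + k‖ ^ 2 =
      (r + yy θ k) ^ 2 + xx θ k ^ 2 := by
  rw [← Complex.normSq_eq_norm_sq, Complex.normSq_apply]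
  have hre : ((r : ℂ) * (Real.cos θ + Real.sin θ * Complex.I) + k).re = r * Real.cos θ + k.re := by
    simp [-Complex.ofReal_cos, -Complex.ofReal_sin]
  have him : ((r : ℂ) * (Real.cos θ + Real.sin θ * Complex.I) + k).im = r * Real.sin θ + k.im := by
    simp [-Complex.ofReal_cos, -Complex.ofReal_sin]
  rw [hre, him]
  unfold yy xx
  have := Real.sin_sq_add_cos_sq θ
  linear_combination (r ^ 2 - k.re ^ 2 - k.im ^ 2) * this

theorem pf_pl_xy (θ : ℝ) (k : ℂ) : yy θ k ^ 2 + xx θ k ^ 2 = ‖k‖ ^ 2 := by
  rw [← Complex.normSq_eq_norm_sq, Complex.normSq_apply]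
  unfold yy xx
  have := Real.sin_sq_add_cos_sq θ
  linear_combination (k.re ^ 2 + k.im ^ 2) * this

theorem pf_pl : S_pl := by
  intro K ρ R hK hρ hR
  obtain ⟨hKc, hK0, hKb⟩ := hK
  have hk : ∀ k ∈ K, ‖k‖ ≤ ρ := fun k hk => by simpa using hKb hk
  have hne : K.Nonempty := ⟨0, hK0⟩
  have hxy : ∀ θ, ∀ k ∈ K, yy θ k ^ 2 + xx θ k ^ 2 ≤ ρ ^ 2 := fun θ k hkK => by
    rw [pf_pl_xy]
    exact pow_le_pow_left₀ (norm_nonneg _) (hk k hkK) 2
  have hy : ∀ θ, ∀ k ∈ K, -ρ ≤ yy θ k ∧ yy θ k ≤ ρ := fun θ k hkK => by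
    have := hxy θ k hkK
    exact abs_le.1 (abs_le_of_sq_le_sq (by nlinarith [sq_nonneg (xx θ k)]) hρ.le)
  have hs0 : ∀ θ, ∀ k ∈ K, ρ < √(R ^ 2 - xx θ k ^ 2) := fun θ k hkK => by
    have := hxy θ k hkK
    apply Real.lt_sqrt_of_sq_lt
    nlinarith [sq_nonneg (yy θ k)]
  have hsq : ∀ θ, ∀ k ∈ K, √(R ^ 2 - xx θ k ^ 2) ^ 2 = R ^ 2 - xx θ k ^ 2 := fun θ k hkK => by
    apply Real.sq_sqrt
    have := hxy θ k hkK
    nlinarith [sq_nonneg (yy θ k)]
  have hle : ∀ r θ : ℝ, 0 < r → ∀ k ∈ K,
      (‖(r : ℂ) * (Real.cos θ + Real.sin θ * Complex.I) + k‖ ≤ R ↔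
        r + yy θ k ≤ √(R ^ 2 - xx θ k ^ 2)) := by
    intro r θ hr k hkK
    have h1 := pf_pl_norm r θ k
    have h2 := hs0 θ k hkK
    have h3 := hsq θ k hkK
    have h4 := (hy θ k hkK).1
    rw [← sq_le_sq₀ (norm_nonneg _) (by linarith), h1]
    constructor
    · intro h
      apply le_of_not_gt
      intro hc
      nlinarith
    · intro h
      nlinarith
  have hlt : ∀ r θ : ℝ, 0 < r → ∀ k ∈ K,
      (‖(r : ℂ) * (Real.cos θ + Real.sin θ * Complex.I) + k‖ < R ↔
        r + yy θ k < √(R ^ 2 - xx θ k ^ 2)) := by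
    intro r θ hr k hkK
    have h1 := pf_pl_norm r θ k
    have h2 := hs0 θ k hkK
    have h3 := hsq θ k hkK
    have h4 := (hy θ k hkK).1
    rw [← sq_lt_sq₀ (norm_nonneg _) (by linarith), h1]
    constructor
    · intro h
      apply lt_of_not_ge
      intro hc
      nlinarith
    · intro h
      nlinarith
  have hcont : Continuous (fun p : ℝ × ℂ => √(R ^ 2 - xx p.1 p.2 ^ 2)) := by
    unfold xx; fun_prop
  have hcy : Continuous (fun p : ℝ × ℂ => yy p.1 p.2) := by
    unfold yy; fun_prop
  have hg1 : Continuous (fun p : ℝ × ℂ => yy p.1 p.2 + (R - √(R ^ 2 - xx p.1 p.2 ^ 2))) := by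
    fun_prop
  have hg2 : Continuous (fun p : ℝ × ℂ => -yy p.1 p.2 - (R - √(R ^ 2 - xx p.1 p.2 ^ 2))) := by
    fun_prop
  have hb1 : ∀ θ, BddAbove ((fun k => yy θ k + (R - √(R ^ 2 - xx θ k ^ 2))) '' K) := fun θ =>
    (hKc.image (hg1.comp (Continuous.prodMk_right θ))).bddAbove
  have hb2 : ∀ θ, BddAbove ((fun k => -yy θ k - (R - √(R ^ 2 - xx θ k ^ 2))) '' K) := fun θ =>
    (hKc.image (hg2.comp (Continuous.prodMk_right θ))).bddAbove
  have hyp : ∀ θ k, yy (θ + 2 * π) k = yy θ k := fun θ k => by
    unfold yy; rw [Real.cos_add_two_pi, Real.sin_add_two_pi]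
  have hxp : ∀ θ k, xx (θ + 2 * π) k = xx θ k := fun θ k => by
    unfold xx; rw [Real.cos_add_two_pi, Real.sin_add_two_pi]
  constructor
  · unfold FK
    apply pf_pl_polar
    · have : er K R = ⋂ k ∈ K, {z : ℂ | ‖z + k‖ ≤ R} := by
        ext z; simp [er]
      rw [this]
      apply IsClosed.measurableSet
      apply isClosed_biInter
      intro k _
      exact isClosed_le (by fun_prop) continuous_const
    · apply Continuous.sub continuous_const
      unfold ec
      exact hKc.continuous_sSup hg1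
    · intro θ
      unfold ec
      simp only [hyp, hxp]
    · intro θ
      have : ec K R θ ≤ R := by
        unfold ec
        apply csSup_le (hne.image _)
        rintro _ ⟨k, hkK, rfl⟩
        have h1 := hs0 θ k hkK
        have h2 := (hy θ k hkK).2
        simp only
        linarith
      linarith
    · intro r θ hr hrne
      have key : ((r : ℂ) * (Real.cos θ + Real.sin θ * Complex.I)) ∈ er K R ↔ r ≤ R - ec K R θ := by
        constructor
        · intro hz
          have : ec K R θ ≤ R - r := by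
            unfold ec
            apply csSup_le (hne.image _)
            rintro _ ⟨k, hkK, rfl⟩
            have := (hle r θ hr k hkK).1 (hz k hkK)
            simp only
            linarith
          linarith
        · intro h k hkK
          rw [hle r θ hr k hkK]
          have : yy θ k + (R - √(R ^ 2 - xx θ k ^ 2)) ≤ ec K R θ :=
            le_csSup (hb1 θ) ⟨k, hkK, rfl⟩
          linarith
      rw [key]
      exact ⟨fun h => lt_of_le_of_ne h hrne, fun h => h.le⟩
  · unfold UK
    apply pf_pl_polar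
    · have : di K R = ⋃ k ∈ K, {z : ℂ | ‖z + k‖ < R} := by
        ext z; simp [di]
      rw [this]
      apply IsOpen.measurableSet
      apply isOpen_biUnion
      intro k _
      exact isOpen_lt (by fun_prop) continuous_const
    · apply Continuous.add continuous_const
      unfold en
      exact hKc.continuous_sSup hg2
    · intro θ
      unfold en
      simp only [hyp, hxp]
    · intro θ
      have : 0 ≤ en K R θ := by
        unfold en
        have h0 : (fun k => -yy θ k - (R - √(R ^ 2 - xx θ k ^ 2))) 0 ≤ _ :=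
          le_csSup (hb2 θ) ⟨0, hK0, rfl⟩
        refine le_trans ?_ h0
        simp [yy, xx, Real.sqrt_sq (by linarith : (0:ℝ) ≤ R)]
      linarith
    · intro r θ hr hrne
      constructor
      · rintro ⟨k, hkK, hkr⟩
        rw [hlt r θ hr k hkK] at hkr
        have : -yy θ k - (R - √(R ^ 2 - xx θ k ^ 2)) ≤ en K R θ :=
          le_csSup (hb2 θ) ⟨k, hkK, rfl⟩
        linarith
      · intro h
        have h' : r - R < en K R θ := by linarith
        unfold en at h'
        obtain ⟨_, ⟨k, hkK, rfl⟩, hk2⟩ := exists_lt_of_lt_csSup (hne.image _) h'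
        refine ⟨k, hkK, ?_⟩
        rw [hlt r θ hr k hkK]
        simp only at hk2
        linarith

end Pool.Agent.H212AN
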