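import Pool.Agent.H212AN.D4

set_option autoImplicit false

namespace Pool.Agent.H212AN

open MeasureTheory Set Filter Topology Metric
open Pool.Agent.H212AN.G (nG PG gm gk)
open scoped Real ENNReal ComplexConjugate

/-- the kernel depends on the norm -/
theorem pf_pol_gk (s : ℝ) {a b : ℂ} (h : ‖a‖ = ‖b‖) : gk s a = gk s b := by
  unfold gk; rw [h]

/-- the bond factor -/
theorem pf_pol_bond (s : ℝ) (e e' : Bool) (a b : ℂ) :
    gk s (fl2 e' b - fl2 e a) = if e = e' then gk s (b - a) else gk s (b - conj a) := by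
  cases e <;> cases e'
  · simp only [fl2, if_true, if_false, Bool.false_eq_true]
    apply pf_pol_gk
    rw [← map_sub, Complex.norm_conj]
  · simp [fl2]
  · simp only [fl2, if_true, if_false, Bool.false_eq_true, Bool.true_eq_false]
    apply pf_pol_gk
    rw [← Complex.norm_conj, map_sub, Complex.conj_conj]
  · simp [fl2]

/-- the mirror image is farther -/
theorem pf_pol_le {s : ℝ} (hs : 0 < s) {a b : ℂ} (ha : 0 < a.im) (hb : 0 < b.im) :
    gk s (b - conj a) ≤ gk s (b - a) := by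
  unfold gk
  have h1 : ‖b - a‖ ^ 2 ≤ ‖b - conj a‖ ^ 2 := by
    rw [← Complex.normSq_eq_norm_sq, ← Complex.normSq_eq_norm_sq, Complex.normSq_apply,
      Complex.normSq_apply]
    simp only [Complex.sub_re, Complex.sub_im, Complex.conj_re, Complex.conj_im]
    nlinarith [mul_pos ha hb]
  have h2 : 0 < 4 * π * s := by positivity
  have h3 : -(‖b - conj a‖ ^ 2 / (4 * s)) ≤ -(‖b - a‖ ^ 2 / (4 * s)) := by
    have : ‖b - a‖ ^ 2 / (4 * s) ≤ ‖b - conj a‖ ^ 2 / (4 * s) := by gcongr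
    linarith
  gcongr

/-- the integrand -/
noncomputable def pf_pol_F (D : Set ℂ) (s : ℝ) (m : ℕ) (y : Fin (m + 1) → ℂ) : ℝ≥0∞ :=
  {x : Fin (m + 1) → ℂ | ∀ i, x i ∈ D}.indicator
    (fun x => ∏ i, ENNReal.ofReal (gk s (x (i + 1) - x i))) y

theorem pf_pol_meas_set {D : Set ℂ} (hD : MeasurableSet D) (m : ℕ) :
    MeasurableSet {x : Fin (m + 1) → ℂ | ∀ i, x i ∈ D} := by
  have : {x : Fin (m + 1) → ℂ | ∀ i, x i ∈ D} = ⋂ i, (fun x => x i) ⁻¹' D := by
    ext x; simp
  rw [this]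
  exact MeasurableSet.iInter fun i => (measurable_pi_apply i) hD

theorem pf_pol_meas_F {D : Set ℂ} (hD : MeasurableSet D) (s : ℝ) (m : ℕ) :
    Measurable (pf_pol_F D s m) := by
  unfold pf_pol_F
  refine Measurable.indicator ?_ (pf_pol_meas_set hD m)
  refine Finset.measurable_fun_prod _ fun i _ => ?_
  refine ((G.gk_cont s).measurable.comp ?_).ennreal_ofReal
  exact (measurable_pi_apply _).sub (measurable_pi_apply _)

theorem pf_pol_CY {D : Set ℂ} (hD : MeasurableSet D) (s : ℝ) (m : ℕ) :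
    CY s m {x | ∀ i, x i ∈ D} = ∫⁻ y, pf_pol_F D s m y := by
  unfold CY pf_pol_F
  rw [lintegral_indicator (pf_pol_meas_set hD m)]

theorem pf_pol_sum {s : ℝ} (hs : 0 < s) (D : Set ℂ) (m : ℕ) (x : Fin (m + 1) → ℂ) :
    ∑ ε : Fin (m + 1) → Bool, pf_pol_F D s m (fun i => fl2 (ε i) (x i)) =
      ENNReal.ofReal (sgn (fun i => gk s (x (i + 1) - x i))
        (fun i => gk s (x (i + 1) - conj (x i))) (fun i => i2 D (x i))) := by
  classical
  unfold sgn
  have hf : ∀ (i : Fin (m + 1)) (e : Bool), 0 ≤ i2 D (x i) e := by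
    intro i e
    unfold i2
    exact indicator_nonneg (fun _ _ => zero_le_one) _
  have hg : ∀ (ε : Fin (m + 1) → Bool) (i : Fin (m + 1)), 0 ≤
      (if ε i = ε (i + 1) then gk s (x (i + 1) - x i) else gk s (x (i + 1) - conj (x i))) := by
    intro ε i
    split_ifs
    · exact G.gk_nonneg hs _
    · exact G.gk_nonneg hs _
  rw [ENNReal.ofReal_sum_of_nonneg]
  swap
  · intro ε _
    exact mul_nonneg (Finset.prod_nonneg fun i _ => hf i _) (Finset.prod_nonneg fun i _ => hg ε i)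
  refine Finset.sum_congr rfl fun ε _ => ?_
  unfold pf_pol_F
  by_cases h : ∀ i, fl2 (ε i) (x i) ∈ D
  · rw [indicator_of_mem (show (fun i => fl2 (ε i) (x i)) ∈
      {x : Fin (m + 1) → ℂ | ∀ i, x i ∈ D} from h)]
    have h1 : ∏ i, i2 D (x i) (ε i) = 1 := by
      refine Finset.prod_eq_one fun i _ => ?_
      unfold i2
      rw [indicator_of_mem (h i)]
      rfl
    rw [h1, one_mul, ENNReal.ofReal_prod_of_nonneg fun i _ => hg ε i]
    refine Finset.prod_congr rfl fun i _ => ?_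
    rw [pf_pol_bond]
  · rw [indicator_of_notMem (show (fun i => fl2 (ε i) (x i)) ∉
      {x : Fin (m + 1) → ℂ | ∀ i, x i ∈ D} from h)]
    push Not at h
    obtain ⟨i, hi⟩ := h
    have h1 : ∏ i, i2 D (x i) (ε i) = 0 := by
      refine Finset.prod_eq_zero (Finset.mem_univ i) ?_
      unfold i2
      rw [indicator_of_notMem hi]
    rw [h1, zero_mul, ENNReal.ofReal_zero]

theorem pf_pol_meas_V {D D' : Set ℂ} (hD : MeasurableSet D) (hD' : MeasurableSet D') (m : ℕ) :
    MeasurableSet (V1 D D' m 0) := by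
  have h1 : V1 D D' m 0 = (⋂ i : Fin (m + 1), (fun x : Fin (m + 1) → ℂ => x i) ⁻¹'
      ({z | 0 < z.im} ∩ D')) ∩ ((⋃ i : Fin (m + 1), (fun x : Fin (m + 1) → ℂ => x i) ⁻¹' Dᶜ) ∩
      ⋃ i : Fin (m + 1), (fun x : Fin (m + 1) → ℂ => x i) ⁻¹' (D ∩ (fun z => conj z) ⁻¹' Dᶜ)) := by
    ext x
    simp [V1]
  rw [h1]
  have h2 : MeasurableSet {z : ℂ | 0 < z.im} :=
    measurableSet_lt measurable_const Complex.measurable_im
  have h3 : Measurable (fun z : ℂ => conj z) := Complex.continuous_conj.measurable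
  refine (MeasurableSet.iInter fun i => (measurable_pi_apply i) (h2.inter hD')).inter
    ((MeasurableSet.iUnion fun i => (measurable_pi_apply i) hD.compl).inter
      (MeasurableSet.iUnion fun i => (measurable_pi_apply i) (hD.inter (h3 hD.compl))))

theorem pf_pol (h1 : S_o1) (h2 : S_fold) : S_pol := by
  classical
  intro D D' s m hD hD' hs hP
  rw [pf_pol_CY hD, pf_pol_CY hD', h2 _ _ (pf_pol_meas_F hD s m), h2 _ _ (pf_pol_meas_F hD' s m)]
  set U : Set (Fin (m + 1) → ℂ) := {x | ∀ i, 0 < (x i).im} with hU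
  set GF : (Fin (m + 1) → ℂ) → ℝ≥0∞ := fun x => ∏ i, ENNReal.ofReal
    (gk s (x (i + 1) - x i) - gk s (x (i + 1) - conj (x i))) with hG
  have hUm : MeasurableSet U := by
    have : U = {x : Fin (m + 1) → ℂ | ∀ i, x i ∈ {z : ℂ | 0 < z.im}} := rfl
    rw [this]
    exact pf_pol_meas_set (measurableSet_lt measurable_const Complex.measurable_im) m
  have hVU : V1 D D' m 0 ∩ U = V1 D D' m 0 := by
    rw [inter_eq_left]
    intro x hx i
    exact (hx.1 i).1
  have e1 : ∫⁻ x in V1 D D' m 0, GF x = ∫⁻ x in U, (V1 D D' m 0).indicator GF x := by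
    rw [setLIntegral_indicator (pf_pol_meas_V hD hD' m), hVU]
  rw [e1]
  refine (le_lintegral_add _ _).trans ?_
  refine setLIntegral_mono_ae' hUm (Eventually.of_forall fun x hx => ?_)
  have hx' : ∀ i, 0 < (x i).im := hx
  have hq : ∀ i : Fin (m + 1), 0 ≤ gk s (x (i + 1) - conj (x i)) ∧
      gk s (x (i + 1) - conj (x i)) ≤ gk s (x (i + 1) - x i) := fun i =>
    ⟨G.gk_nonneg hs _, pf_pol_le hs (hx' i) (hx' (i + 1))⟩
  obtain ⟨h3, h4⟩ := h1 m (fun i => gk s (x (i + 1) - x i))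
    (fun i => gk s (x (i + 1) - conj (x i))) (fun i => i2 D (x i)) (fun i => i2 D' (x i)) hq
    (fun i => hP (x i) (hx' i))
  rw [pf_pol_sum hs, pf_pol_sum hs]
  by_cases hV : x ∈ V1 D D' m 0
  · rw [indicator_of_mem hV, hG]
    have hp : ∀ i ∈ (Finset.univ : Finset (Fin (m + 1))),
        0 ≤ gk s (x (i + 1) - x i) - gk s (x (i + 1) - conj (x i)) := fun i _ =>
      sub_nonneg.2 (hq i).2
    have hn : 0 ≤ sgn (fun i => gk s (x (i + 1) - x i))
        (fun i => gk s (x (i + 1) - conj (x i))) (fun i => i2 D (x i)) := by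
      unfold sgn
      refine Finset.sum_nonneg fun ε _ => mul_nonneg (Finset.prod_nonneg fun i _ => ?_)
        (Finset.prod_nonneg fun i _ => ?_)
      · exact indicator_nonneg (fun _ _ => zero_le_one) _
      · split_ifs
        · exact G.gk_nonneg hs _
        · exact G.gk_nonneg hs _
    show _ + ∏ i, ENNReal.ofReal (gk s (x (i + 1) - x i) - gk s (x (i + 1) - conj (x i))) ≤ _
    rw [← ENNReal.ofReal_prod_of_nonneg hp, ← ENNReal.ofReal_add hn (Finset.prod_nonneg hp)]
    apply ENNReal.ofReal_le_ofReal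
    obtain ⟨v1, ⟨j, v2⟩, ⟨k, v3, v4⟩⟩ := hV
    refine h4 (fun i => ?_) ⟨j, ?_⟩ ⟨k, ?_, ?_⟩
    · simp only [i2, fl2, if_true]
      rw [indicator_of_mem (v1 i).2]; rfl
    · simp only [i2, fl2, if_true]
      rw [indicator_of_notMem v2]
    · simp only [i2, fl2, if_true]
      rw [indicator_of_mem v3]; rfl
    · simp only [i2, fl2, Bool.false_eq_true, if_false]
      rw [indicator_of_notMem v4]
  · rw [indicator_of_notMem hV, add_zero]
    exact ENNReal.ofReal_le_ofReal h3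

end Pool.Agent.H212AN
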