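import Pool.Agent.H212AN.D1

set_option autoImplicit false

namespace Pool.Agent.H212AN

open MeasureTheory Set Filter Topology Metric
open Pool.Agent.H212AN.G (nG PG gm)
open scoped Real ENNReal

/-- the loop `0, 1, 0, i, 0` -/
noncomputable def pf_pos_V : Lo :=
  ⟨fun t => ((max 0 (1 - |4 * (t : ℝ) - 1|) : ℝ) : ℂ) +
    ((max 0 (1 - |4 * (t : ℝ) - 3|) : ℝ) : ℂ) * Complex.I, by fun_prop⟩

theorem pf_pos_V_re (t : unitInterval) : (pf_pos_V t).re = max 0 (1 - |4 * (t : ℝ) - 1|) := by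
  simp [pf_pos_V]

theorem pf_pos_V_im (t : unitInterval) : (pf_pos_V t).im = max 0 (1 - |4 * (t : ℝ) - 3|) := by
  simp [pf_pos_V]

theorem pf_pos_PL : PL 3 pf_pos_V := by
  refine ⟨fun n => if n = 1 then 1 else if n = 3 then Complex.I else 0, ?_⟩
  intro r hr t h1 h2
  have e4 : ((3 : ℕ) : ℝ) + 1 = 4 := by norm_num
  rw [e4] at h1 h2 ⊢
  interval_cases r
  · have ha : |4 * (t : ℝ) - 1| = 1 - 4 * t := by
      rw [abs_of_nonpos (by push_cast at h2; linarith)]; ring
    have hb : |4 * (t : ℝ) - 3| = 3 - 4 * t := by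
      rw [abs_of_nonpos (by push_cast at h2; linarith)]; ring
    push_cast at h1 h2
    apply Complex.ext
    · rw [pf_pos_V_re, ha, max_eq_right (by linarith)]
      simp
    · rw [pf_pos_V_im, hb, max_eq_left (by linarith)]
      simp
  · have ha : |4 * (t : ℝ) - 1| = 4 * t - 1 := by
      rw [abs_of_nonneg (by push_cast at h1; linarith)]
    have hb : |4 * (t : ℝ) - 3| = 3 - 4 * t := by
      rw [abs_of_nonpos (by push_cast at h2; linarith)]; ring
    push_cast at h1 h2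
    apply Complex.ext
    · rw [pf_pos_V_re, ha, max_eq_right (by linarith)]
      simp
      ring
    · rw [pf_pos_V_im, hb, max_eq_left (by linarith)]
      simp
  · have ha : |4 * (t : ℝ) - 1| = 4 * t - 1 := by
      rw [abs_of_nonneg (by push_cast at h1; linarith)]
    have hb : |4 * (t : ℝ) - 3| = 3 - 4 * t := by
      rw [abs_of_nonpos (by push_cast at h2; linarith)]; ring
    push_cast at h1 h2
    apply Complex.ext
    · rw [pf_pos_V_re, ha, max_eq_left (by linarith)]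
      simp
    · rw [pf_pos_V_im, hb, max_eq_right (by linarith)]
      simp
      ring
  · have ha : |4 * (t : ℝ) - 1| = 4 * t - 1 := by
      rw [abs_of_nonneg (by push_cast at h1; linarith)]
    have hb : |4 * (t : ℝ) - 3| = 4 * t - 3 := by
      rw [abs_of_nonneg (by push_cast at h1; linarith)]
    push_cast at h1 h2
    apply Complex.ext
    · rw [pf_pos_V_re, ha, max_eq_left (by linarith)]
      simp
    · rw [pf_pos_V_im, hb, max_eq_right (by linarith)]
      simp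
      ring

theorem pf_pos_V0 : pf_pos_V 0 = 0 := by
  apply Complex.ext
  · rw [pf_pos_V_re]; norm_num
  · rw [pf_pos_V_im]; norm_num

theorem pf_pos_V1 : pf_pos_V 1 = 0 := by
  apply Complex.ext
  · rw [pf_pos_V_re]; norm_num
  · rw [pf_pos_V_im]; norm_num

/-- the time `1 / 4` -/
noncomputable def pf_pos_t1 : unitInterval := ⟨1 / 4, by norm_num, by norm_num⟩

/-- the time `3 / 4` -/
noncomputable def pf_pos_t3 : unitInterval := ⟨3 / 4, by norm_num, by norm_num⟩

theorem pf_pos_near {b : Lo} (hb : b ∈ ball pf_pos_V (1 / 10)) (t : unitInterval) :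
    |(b t).re - (pf_pos_V t).re| ≤ 1 / 10 ∧ |(b t).im - (pf_pos_V t).im| ≤ 1 / 10 := by
  have h : dist (b t) (pf_pos_V t) < 1 / 10 :=
    lt_of_le_of_lt (ContinuousMap.dist_apply_le_dist t) hb
  rw [dist_eq_norm] at h
  have h1 := Complex.abs_re_le_norm (b t - pf_pos_V t)
  have h2 := Complex.abs_im_le_norm (b t - pf_pos_V t)
  rw [Complex.sub_re] at h1
  rw [Complex.sub_im] at h2
  exact ⟨by linarith, by linarith⟩

theorem pf_pos_good (b : Lo) (h0 : b 0 = 0) : Good (rg b) (‖b‖ + 1) ∧ 0 < ‖b‖ + 1 := by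
  have hn : 0 ≤ ‖b‖ := norm_nonneg b
  refine ⟨⟨isCompact_range b.continuous, ⟨0, h0⟩, ?_⟩, by linarith⟩
  rintro _ ⟨t, rfl⟩
  rw [mem_closedBall, dist_zero_right]
  have := b.norm_coe_le_norm t
  linarith

theorem pf_pos_P1 {b : Lo} (hb : b ∈ ball pf_pos_V (1 / 10)) :
    |(b pf_pos_t1).re - 1| ≤ 1 / 10 ∧ |(b pf_pos_t1).im| ≤ 1 / 10 := by
  have h := pf_pos_near hb pf_pos_t1
  rw [pf_pos_V_re, pf_pos_V_im] at h
  have e1 : max 0 (1 - |4 * ((pf_pos_t1 : unitInterval) : ℝ) - 1|) = 1 := by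
    norm_num [pf_pos_t1]
  have e2 : max 0 (1 - |4 * ((pf_pos_t1 : unitInterval) : ℝ) - 3|) = 0 := by
    norm_num [pf_pos_t1]
  rw [e1, e2, sub_zero] at h
  exact h

theorem pf_pos_P3 {b : Lo} (hb : b ∈ ball pf_pos_V (1 / 10)) :
    |(b pf_pos_t3).re| ≤ 1 / 10 ∧ |(b pf_pos_t3).im - 1| ≤ 1 / 10 := by
  have h := pf_pos_near hb pf_pos_t3
  rw [pf_pos_V_re, pf_pos_V_im] at h
  have e1 : max 0 (1 - |4 * ((pf_pos_t3 : unitInterval) : ℝ) - 1|) = 0 := by
    norm_num [pf_pos_t3]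
  have e2 : max 0 (1 - |4 * ((pf_pos_t3 : unitInterval) : ℝ) - 3|) = 1 := by
    norm_num [pf_pos_t3]
  rw [e1, e2, sub_zero] at h
  exact h

/-- positivity of the perimeter -/
theorem pf_pos_per (h1 : S_hs) {b : Lo} (hb : b ∈ ball pf_pos_V (1 / 10)) (h0 : b 0 = 0) :
    0 < per (rg b) := by
  obtain ⟨⟨hc, hz, hr⟩, -⟩ := pf_pos_good b h0
  obtain ⟨-, g2, -, g4, -, -, -, -, -, -, -, -, g13⟩ := h1 (rg b) _ hc ⟨0, hz⟩ hr
  rw [per]
  refine intervalIntegral.integral_pos (by positivity) g4.continuous.continuousOn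
    (fun x _ => g13 hz x) ⟨0, ⟨le_rfl, by positivity⟩, ?_⟩
  have h := g2 0 (b pf_pos_t1) ⟨_, rfl⟩
  have h2 := (abs_le.1 (pf_pos_P1 hb).1).1
  simp only [yy, Real.cos_zero, Real.sin_zero, mul_one, mul_zero, add_zero] at h
  linarith

/-- positivity of the area of a triangle -/
theorem pf_pos_tri {C : Set ℂ} (hC : Convex ℝ C) {p q : ℂ} (h0 : (0:ℂ) ∈ C) (hp : p ∈ C)
    (hq : q ∈ C) (hd : 0 < p.re * q.im - p.im * q.re) : 0 < volume C := by
  set D := p.re * q.im - p.im * q.re with hD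
  set U : Set ℂ := {z | 0 < z.re * q.im - z.im * q.re} ∩ {z | 0 < p.re * z.im - p.im * z.re} ∩
    {z | (z.re * q.im - z.im * q.re) + (p.re * z.im - p.im * z.re) < D} with hU
  have hUo : IsOpen U := by
    refine (IsOpen.inter ?_ ?_).inter ?_
    · exact isOpen_lt continuous_const (by fun_prop)
    · exact isOpen_lt continuous_const (by fun_prop)
    · exact isOpen_lt (by fun_prop) continuous_const
  have hUn : U.Nonempty := by
    refine ⟨((1 / 3 : ℝ) : ℂ) * (p + q), ⟨?_, ?_⟩, ?_⟩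
    · simp only [mem_ofPred_eq, Complex.mul_re, Complex.mul_im, Complex.ofReal_re,
        Complex.ofReal_im, Complex.add_re, Complex.add_im]
      nlinarith
    · simp only [mem_ofPred_eq, Complex.mul_re, Complex.mul_im, Complex.ofReal_re,
        Complex.ofReal_im, Complex.add_re, Complex.add_im]
      nlinarith
    · simp only [mem_ofPred_eq, Complex.mul_re, Complex.mul_im, Complex.ofReal_re,
        Complex.ofReal_im, Complex.add_re, Complex.add_im]
      nlinarith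
  refine lt_of_lt_of_le (hUo.measure_pos volume hUn) (measure_mono ?_)
  rintro z ⟨⟨z1, z2⟩, z3⟩
  simp only [mem_ofPred_eq] at z1 z2 z3
  set s := (z.re * q.im - z.im * q.re) / D with hs
  set t := (p.re * z.im - p.im * z.re) / D with ht
  have s0 : 0 < s := div_pos z1 hd
  have t0 : 0 < t := div_pos z2 hd
  have st : s + t < 1 := by
    rw [hs, ht, ← add_div, div_lt_one hd]
    exact z3
  have hz : z = (s + t) • ((s / (s + t)) • p + (t / (s + t)) • q) + (1 - (s + t)) • (0:ℂ) := by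
    have e1 : (s + t) * (s / (s + t)) = s := by field_simp
    have e2 : (s + t) * (t / (s + t)) = t := by field_simp
    rw [smul_zero, add_zero, smul_add, smul_smul, smul_smul, e1, e2]
    have hD' : D ≠ 0 := hd.ne'
    apply Complex.ext
    · simp only [Complex.add_re, Complex.real_smul, Complex.mul_re, Complex.ofReal_re,
        Complex.ofReal_im, zero_mul, sub_zero]
      rw [hs, ht]
      field_simp
      rw [hD]
      ring
    · simp only [Complex.add_im, Complex.real_smul, Complex.mul_im, Complex.ofReal_re,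
        Complex.ofReal_im, zero_mul, add_zero]
      rw [hs, ht]
      field_simp
      rw [hD]
      ring
  rw [hz]
  refine hC (hC hp hq (by positivity) (by positivity) (by field_simp)) h0 (by positivity)
    (by linarith) (by ring)

/-- positivity of the area -/
theorem pf_pos_ar (h2 : S_st) {b : Lo} (hb : b ∈ ball pf_pos_V (1 / 10)) (h0 : b 0 = 0) :
    0 < ar2 (rg b) := by
  obtain ⟨hg, hr⟩ := pf_pos_good b h0
  rw [← (h2 (rg b) _ hg hr).2]
  have hbd : Bornology.IsBounded (convexHull ℝ (rg b)) :=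
    isBounded_convexHull.2 hg.1.isBounded
  refine ENNReal.toReal_pos ?_ hbd.measure_lt_top.ne
  refine (pf_pos_tri (convex_convexHull ℝ (rg b)) (subset_convexHull ℝ _ hg.2.1)
    (subset_convexHull ℝ _ ⟨pf_pos_t1, rfl⟩) (subset_convexHull ℝ _ ⟨pf_pos_t3, rfl⟩) ?_).ne'
  have a1 := abs_le.1 (pf_pos_P1 hb).1
  have a2 := abs_le.1 (pf_pos_P1 hb).2
  have a3 := abs_le.1 (pf_pos_P3 hb).1
  have a4 := abs_le.1 (pf_pos_P3 hb).2
  have m1 : (9 / 10 : ℝ) * (9 / 10) ≤ (b pf_pos_t1).re * (b pf_pos_t3).im :=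
    mul_le_mul (by linarith) (by linarith) (by norm_num) (by linarith)
  have m2 : |(b pf_pos_t1).im * (b pf_pos_t3).re| ≤ 1 / 10 * (1 / 10) := by
    rw [abs_mul]
    exact mul_le_mul (pf_pos_P1 hb).2 (pf_pos_P3 hb).1 (abs_nonneg _) (by norm_num)
  have m3 := (abs_le.1 m2).2
  linarith

/-- positivity of the sum of cubes -/
theorem pf_pos_GG (h1 : S_hs) (h3 : S_ls) {b : Lo} (hb : b ∈ ball pf_pos_V (1 / 10))
    (h0 : b 0 = 0) : 0 < (GG (rg b)).toReal := by
  obtain ⟨hg, hr⟩ := pf_pos_good b h0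
  obtain ⟨C, hC⟩ := h3
  have hfin := (hC (rg b) _ hg hr).1
  refine ENNReal.toReal_pos ?_ hfin
  obtain ⟨hc, hz, hr'⟩ := hg
  obtain ⟨f1, f2, -, f4, -, -, -, -, -, -, f11, -, -⟩ := h1 (rg b) _ hc ⟨0, hz⟩ hr'
  set K1 : Set ℂ := b '' {t : unitInterval | (t : ℝ) ≤ 1 / 2} with hK1
  set K2 : Set ℂ := b '' {t : unitInterval | 1 / 2 ≤ (t : ℝ)} with hK2
  have hK1r : K1 ⊆ rg b := image_subset_range _ _
  have hK2r : K2 ⊆ rg b := image_subset_range _ _
  have hU : rg b ⊆ K1 ∪ K2 := by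
    rintro _ ⟨t, rfl⟩
    rcases le_total (t : ℝ) (1 / 2) with h | h
    · exact Or.inl ⟨t, h, rfl⟩
    · exact Or.inr ⟨t, h, rfl⟩
  have c1 : IsCompact K1 := by
    refine IsCompact.image (IsClosed.isCompact ?_) b.continuous
    exact isClosed_le continuous_subtype_val continuous_const
  have c2 : IsCompact K2 := by
    refine IsCompact.image (IsClosed.isCompact ?_) b.continuous
    exact isClosed_le continuous_const continuous_subtype_val
  have p1 : b pf_pos_t1 ∈ K1 := ⟨pf_pos_t1, by simp [pf_pos_t1]; norm_num, rfl⟩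
  have p2 : b pf_pos_t3 ∈ K2 := ⟨pf_pos_t3, by simp [pf_pos_t3]; norm_num, rfl⟩
  obtain ⟨g1, g2, -, g4, -⟩ := h1 K1 _ c1 ⟨_, p1⟩ (hK1r.trans hr')
  obtain ⟨k1, k2, -, k4, -⟩ := h1 K2 _ c2 ⟨_, p2⟩ (hK2r.trans hr')
  have im1 : ∀ k ∈ K1, |k.im| ≤ 1 / 10 := by
    rintro _ ⟨t, ht, rfl⟩
    have h := (pf_pos_near hb t).2
    have ht' : (t : ℝ) ≤ 1 / 2 := ht
    have e : |4 * (t : ℝ) - 3| = 3 - 4 * t := by
      rw [abs_of_nonpos (by linarith)]; ring
    rw [pf_pos_V_im, e, max_eq_left (by linarith), sub_zero] at h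
    exact h
  have re2 : ∀ k ∈ K2, |k.re| ≤ 1 / 10 := by
    rintro _ ⟨t, ht, rfl⟩
    have h := (pf_pos_near hb t).1
    have ht' : 1 / 2 ≤ (t : ℝ) := ht
    have e : |4 * (t : ℝ) - 1| = 4 * t - 1 := by
      rw [abs_of_nonneg (by linarith)]
    rw [pf_pos_V_re, e, max_eq_left (by linarith), sub_zero] at h
    exact h
  have a1 := abs_le.1 (pf_pos_P1 hb).1
  have a2 := abs_le.1 (pf_pos_P1 hb).2
  have a3 := abs_le.1 (pf_pos_P3 hb).1
  have a4 := abs_le.1 (pf_pos_P3 hb).2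
  -- the two directions
  have d0 : hs K2 0 < hs K1 0 := by
    obtain ⟨k, hk, e⟩ := k1 0
    have q1 := (abs_le.1 (re2 k hk)).2
    have q2 := g2 0 _ p1
    rw [← e]
    simp only [yy, Real.cos_zero, Real.sin_zero, mul_one, mul_zero, add_zero] at q2 ⊢
    linarith
  have d1 : hs K1 (π / 2) < hs K2 (π / 2) := by
    obtain ⟨k, hk, e⟩ := g1 (π / 2)
    have q1 := (abs_le.1 (im1 k hk)).2
    have q2 := k2 (π / 2) _ p2
    rw [← e]
    simp only [yy, Real.cos_pi_div_two, Real.sin_pi_div_two, mul_one, mul_zero, zero_add] at q2 ⊢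
    linarith
  have hpi : (0:ℝ) ≤ π / 2 := by positivity
  obtain ⟨θ, hθ, he⟩ := intermediate_value_Icc' (f := fun θ => hs K1 θ - hs K2 θ) hpi
    (g4.continuous.sub k4.continuous).continuousOn
    (show (0:ℝ) ∈ Icc (hs K1 (π / 2) - hs K2 (π / 2)) (hs K1 0 - hs K2 0) from
      ⟨by linarith, by linarith⟩)
  have he' : hs K1 θ = hs K2 θ := by
    have : hs K1 θ - hs K2 θ = 0 := he
    linarith
  obtain ⟨u, hu, eu⟩ := g1 θ
  obtain ⟨v, hv, ev⟩ := k1 θ
  have hM : hs (rg b) θ = hs K1 θ := by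
    refine le_antisymm ?_ ?_
    · obtain ⟨w, hw, ew⟩ := f1 θ
      rw [← ew]
      rcases hU hw with h | h
      · exact g2 θ w h
      · rw [he']
        exact k2 θ w h
    · rw [← eu]
      exact f2 θ u (hK1r hu)
  have uf : u ∈ face (rg b) θ := ⟨hK1r hu, by rw [eu, hM]⟩
  have vf : v ∈ face (rg b) θ := ⟨hK2r hv, by rw [ev, hM, he']⟩
  have xu := f11 θ u uf
  have xv := f11 θ v vf
  have hell : 0 < ell (rg b) θ := by
    rw [ell]
    by_contra hn
    have hx : xx θ u = xx θ v := by linarith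
    have hy : yy θ u = yy θ v := by rw [uf.2, vf.2]
    have hcs := Real.sin_sq_add_cos_sq θ
    have e1 : u.re = v.re := by
      simp only [xx, yy] at hx hy
      have q1 : u.re = (u.re * Real.cos θ + u.im * Real.sin θ) * Real.cos θ -
          (u.im * Real.cos θ - u.re * Real.sin θ) * Real.sin θ := by
        linear_combination (-u.re) * hcs
      have q2 : v.re = (v.re * Real.cos θ + v.im * Real.sin θ) * Real.cos θ -
          (v.im * Real.cos θ - v.re * Real.sin θ) * Real.sin θ := by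
        linear_combination (-v.re) * hcs
      rw [q1, q2, hx, hy]
    have r1 := (abs_le.1 (im1 u hu)).2
    have r2 := (abs_le.1 (re2 v hv)).2
    rw [← e1] at r2
    have c0 : 0 ≤ Real.cos θ := Real.cos_nonneg_of_mem_Icc ⟨by linarith [hθ.1], hθ.2⟩
    have s0 : 0 ≤ Real.sin θ := Real.sin_nonneg_of_nonneg_of_le_pi hθ.1 (by linarith [hθ.2])
    have c1' := Real.cos_le_one θ
    have s1' := Real.sin_le_one θ
    have r3 : yy θ u ≤ 1 / 10 + 1 / 10 := by
      simp only [yy]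
      have w1 : u.re * Real.cos θ ≤ 1 / 10 := by nlinarith
      have w2 : u.im * Real.sin θ ≤ 1 / 10 := by nlinarith
      linarith
    rw [uf.2] at r3
    have y1 := f2 θ _ (hK1r p1)
    have y2 := f2 θ _ (hK2r p2)
    simp only [yy] at y1 y2
    have z1 : Real.cos θ - 1 / 5 ≤ 1 / 5 := by nlinarith
    have z2 : Real.sin θ - 1 / 5 ≤ 1 / 5 := by nlinarith
    nlinarith
  have hmem : θ ∈ Ico (0:ℝ) (2 * π) := ⟨hθ.1, by linarith [hθ.2, Real.pi_pos]⟩
  have hle : ENNReal.ofReal (ell (rg b) θ) ^ 3 ≤ GG (rg b) := by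
    rw [GG]
    exact ENNReal.le_tsum (f := fun θ : Ico (0:ℝ) (2 * π) => ENNReal.ofReal (ell (rg b) θ) ^ 3)
      (⟨θ, hmem⟩ : Ico (0:ℝ) (2 * π))
  have hpos : 0 < ENNReal.ofReal (ell (rg b) θ) ^ 3 :=
    ENNReal.pow_pos (ENNReal.ofReal_pos.2 hell) 3
  exact (lt_of_lt_of_le hpos hle).ne'

/-- positivity of an integral -/
theorem pf_pos_int (h5 : S_ball) (h6 : S_end) {μ : Measure Lo} (hμ : IsLoop μ) {F : Lo → ℝ}
    (hF : Integrable F μ) (hn : ∀ b : Lo, b 0 = 0 → 0 ≤ F b)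
    (hp : ∀ b : Lo, b ∈ ball pf_pos_V (1 / 10) → b 0 = 0 → 0 < F b) : 0 < ∫ b, F b ∂μ := by
  have h0 := h6 μ hμ
  rw [integral_pos_iff_support_of_nonneg_ae (by filter_upwards [h0] with b hb using hn b hb.1) hF]
  refine lt_of_lt_of_le (h5 μ hμ 3 pf_pos_V pf_pos_PL pf_pos_V0 pf_pos_V1 (1 / 10) (by norm_num)) ?_
  refine measure_mono_ae ?_
  filter_upwards [h0] with b hb hb'
  exact (hp b hb' hb.1).ne'

theorem pf_pos (h1 : S_hs) (h2 : S_st) (h3 : S_ls) (h4 : S_int) (h5 : S_ball) (h6 : S_end) : S_pos := by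
  intro μ hμ
  obtain ⟨i1, i2, i3⟩ := h4 μ hμ
  refine ⟨?_, ?_, ?_⟩
  · refine mul_pos (by positivity) (pf_pos_int h5 h6 hμ i1 (fun b hb => ?_)
      (fun b hb hb0 => pf_pos_per h1 hb hb0))
    obtain ⟨⟨hc, hz, hr⟩, -⟩ := pf_pos_good b hb
    obtain ⟨-, -, -, -, -, -, -, -, -, -, -, -, g13⟩ := h1 (rg b) _ hc ⟨0, hz⟩ hr
    rw [per]
    exact intervalIntegral.integral_nonneg (by positivity) fun x _ => g13 hz x
  · refine mul_pos (by positivity) (pf_pos_int h5 h6 hμ i2 (fun b hb => ?_)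
      (fun b hb hb0 => pf_pos_ar h2 hb hb0))
    obtain ⟨hg, hr⟩ := pf_pos_good b hb
    rw [← (h2 (rg b) _ hg hr).2]
    exact ENNReal.toReal_nonneg
  · exact mul_pos (by positivity) (pf_pos_int h5 h6 hμ i3 (fun b hb => ENNReal.toReal_nonneg)
      (fun b hb hb0 => pf_pos_GG h1 h3 hb hb0))

end Pool.Agent.H212AN
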