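import Pool.Agent.H212AN.D1

set_option autoImplicit false

namespace Pool.Agent.H212AN

open MeasureTheory Set Filter Topology Metric
open Pool.Agent.H212AN.G (nG PG gm)
open scoped Real ENNReal

/-- extension of a finite sequence by `0` -/
noncomputable def pf_qi_ext {M : ℕ} (y : Fin M → ℂ) (l : ℕ) : ℂ := if h : l < M then y ⟨l, h⟩ else 0

theorem pf_qi_ext_fin {M : ℕ} (y : Fin M → ℂ) (l : Fin M) : pf_qi_ext y l.val = y l := by
  simp [pf_qi_ext]

theorem pf_qi_sum {M : ℕ} {A : Type} [AddCommMonoid A] (F : ℕ → ℂ → A) (y : Fin M → ℂ) :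
    ∑ l : Fin M, F l.val (y l) = ∑ l ∈ Finset.range M, F l (pf_qi_ext y l) := by
  rw [← Fin.sum_univ_eq_sum_range (fun l => F l (pf_qi_ext y l)) M]
  exact Finset.sum_congr rfl fun l _ => by rw [pf_qi_ext_fin]

theorem pf_qi_sum' {M N : ℕ} {A : Type} [AddCommMonoid A] (F : ℕ → ℂ → A) (y : Fin M → ℂ)
    (h : M = N) : ∑ l : Fin M, F l.val (y l) = ∑ l ∈ Finset.range N, F l (pf_qi_ext y l) := by
  subst h
  exact pf_qi_sum F y

theorem pf_qi_sg {M : ℕ} (y : Fin M → ℂ) (r : ℕ) (hr : r ≤ M) :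
    G.sg y r = ∑ l ∈ Finset.range r, pf_qi_ext y l := by
  unfold G.sg
  rw [pf_qi_sum (fun l z => if l < r then z else 0) y, ← Finset.sum_filter]
  congr 1
  ext l
  simp only [Finset.mem_filter, Finset.mem_range]
  omega

theorem pf_qi_block {A : Type} [AddCommMonoid A] (g : ℕ → A) (k : ℕ) : ∀ a : ℕ,
    ∑ l ∈ Finset.range (a * k), g l = ∑ j ∈ Finset.range a, ∑ i ∈ Finset.range k, g (j * k + i)
  | 0 => by simp
  | a + 1 => by
    rw [Nat.succ_mul, Finset.sum_range_add, pf_qi_block g k a, Finset.sum_range_succ]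

/-- partial sums of the increments of a piecewise linear path -/
theorem pf_qi_psum (v : ℕ → ℂ) (k : ℕ) (hk : 0 < k) : ∀ q : ℕ,
    ∑ l ∈ Finset.range q, ((1 / (k : ℝ) : ℝ) : ℂ) * (v (l / k + 1) - v (l / k)) =
      v (q / k) + ((((q % k : ℕ) : ℝ) / k : ℝ) : ℂ) * (v (q / k + 1) - v (q / k)) - v 0
  | 0 => by simp
  | q + 1 => by
    have hk' : (k : ℂ) ≠ 0 := by exact_mod_cast hk.ne'
    rw [Finset.sum_range_succ, pf_qi_psum v k hk q]
    by_cases h : (q + 1) % k = 0
    · have h1 : (q + 1) / k = q / k + 1 := by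
        rw [Nat.succ_div]
        simp [Nat.dvd_of_mod_eq_zero h]
      have h2 : q % k + 1 = k := by
        have h3 := Nat.div_add_mod (q + 1) k
        have h4 := Nat.div_add_mod q k
        rw [h, h1] at h3
        have : k * (q / k + 1) = k * (q / k) + k := by ring
        omega
      rw [h, h1]
      have h5 : ((q % k : ℕ) : ℂ) = (k : ℂ) - 1 := by
        have : ((q % k + 1 : ℕ) : ℂ) = (k : ℂ) := by rw [h2]
        push_cast at this
        linear_combination this
      push_cast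
      rw [h5]
      field_simp
      ring
    · have h1 : (q + 1) / k = q / k := by
        rw [Nat.succ_div, if_neg (fun hd => h (Nat.mod_eq_zero_of_dvd hd)), add_zero]
      have h2 : (q + 1) % k = q % k + 1 := by
        have h3 := Nat.div_add_mod (q + 1) k
        have h4 := Nat.div_add_mod q k
        rw [h1] at h3
        omega
      rw [h1, h2]
      push_cast
      field_simp
      ring

/-- the weight as a function of the values at the nodes -/
noncomputable def pf_qi_E (m : ℕ) (v : ℕ → ℂ) (p : Fin (m + 1) → ℂ) : ℝ :=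
  (((m : ℝ) + 1) / 2) * ∑ j ∈ Finset.range (m + 1),
      G.ip (v (j + 1) - v j) (pf_qi_ext p (j + 1) - pf_qi_ext p j) -
    (((m : ℝ) + 1) / 4) * ∑ j ∈ Finset.range (m + 1), ‖v (j + 1) - v j‖ ^ 2

theorem pf_qi_ext_cont {M : ℕ} (l : ℕ) : Continuous (fun p : Fin M → ℂ => pf_qi_ext p l) := by
  unfold pf_qi_ext
  by_cases h : l < M
  · simp only [h, dif_pos]; exact continuous_apply _
  · simp only [h, dif_neg, not_false_eq_true]; exact continuous_const

theorem pf_qi_E_cont (m : ℕ) (v : ℕ → ℂ) : Continuous (pf_qi_E m v) := by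
  unfold pf_qi_E
  refine Continuous.sub (continuous_const.mul (continuous_finsetSum _ fun j _ => ?_)) continuous_const
  exact (G.ip_cont _).comp ((pf_qi_ext_cont _).sub (pf_qi_ext_cont _))

/-- the exponent of the Cameron-Martin formula on the fine grid -/
theorem pf_qi_exp (m k n : ℕ) (hk : 0 < k) (hn : n + 1 = (m + 1) * k) (v : ℕ → ℂ)
    (hv : v (m + 1) = v 0) (x : Fin (n + 1) → ℂ) (e' : Fin (n + 1) → ℂ)
    (he' : ∀ l, e' l = ((1 / (k : ℝ) : ℝ) : ℂ) * (v (l.val / k + 1) - v (l.val / k))) :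
    -((2 * ∑ i, G.ip (-e' i) (x i) + ∑ i, ‖-e' i‖ ^ 2) / (4 * (1 / ((n : ℝ) + 1)))) =
      pf_qi_E m v (fun r : Fin (m + 1) => gm x (r.val * k)) := by
  have hkr : (0 : ℝ) < k := by exact_mod_cast hk
  have hnr : ((n : ℝ) + 1) = ((m : ℝ) + 1) * k := by exact_mod_cast hn
  -- the sum of the squares
  have h1 : ∑ i, ‖-e' i‖ ^ 2 = (1 / (k : ℝ)) * ∑ j ∈ Finset.range (m + 1), ‖v (j + 1) - v j‖ ^ 2 := by
    have a1 : ∀ i : Fin (n + 1), ‖-e' i‖ ^ 2 =
        (fun (l : ℕ) (_ : ℂ) => (1 / (k : ℝ)) ^ 2 * ‖v (l / k + 1) - v (l / k)‖ ^ 2) i.val (x i) := by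
      intro i
      simp only
      rw [norm_neg, he', norm_mul, mul_pow]
      congr 1
      rw [Complex.norm_real, Real.norm_eq_abs, sq_abs]
    rw [Finset.sum_congr rfl fun i _ => a1 i,
      pf_qi_sum' (fun (l : ℕ) (_ : ℂ) => (1 / (k : ℝ)) ^ 2 * ‖v (l / k + 1) - v (l / k)‖ ^ 2) x hn,
      pf_qi_block, Finset.mul_sum]
    refine Finset.sum_congr rfl fun j _ => ?_
    have a2 : ∀ i ∈ Finset.range k, (1 / (k : ℝ)) ^ 2 * ‖v ((j * k + i) / k + 1) - v ((j * k + i) / k)‖ ^ 2
        = (1 / (k : ℝ)) ^ 2 * ‖v (j + 1) - v j‖ ^ 2 := by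
      intro i hi
      have : (j * k + i) / k = j := by
        rw [mul_comm, Nat.mul_add_div hk, Nat.div_eq_of_lt (Finset.mem_range.1 hi), add_zero]
      rw [this]
    rw [Finset.sum_congr rfl a2, Finset.sum_const, Finset.card_range, nsmul_eq_mul]
    field_simp
  -- the linear part
  set y := G.ce x with hy
  have hgm : ∀ r, r ≤ n + 1 → gm x r = ∑ l ∈ Finset.range r, pf_qi_ext y l := fun r hr =>
    pf_qi_sg y r hr
  have h2 : ∑ i, G.ip (-e' i) (x i) = -((1 / (k : ℝ)) * ∑ j ∈ Finset.range (m + 1),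
      G.ip (v (j + 1) - v j) (∑ i ∈ Finset.range k, pf_qi_ext x (j * k + i))) := by
    have a1 : ∀ i : Fin (n + 1), G.ip (-e' i) (x i) =
        (fun (l : ℕ) (z : ℂ) => -((1 / (k : ℝ)) * G.ip (v (l / k + 1) - v (l / k)) z)) i.val (x i) := by
      intro i
      simp only
      rw [G.ip_neg_left, he', G.ip_smul_left]
    rw [Finset.sum_congr rfl fun i _ => a1 i,
      pf_qi_sum' (fun (l : ℕ) (z : ℂ) => -((1 / (k : ℝ)) * G.ip (v (l / k + 1) - v (l / k)) z)) x hn,
      pf_qi_block, Finset.mul_sum, ← Finset.sum_neg_distrib]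
    refine Finset.sum_congr rfl fun j _ => ?_
    rw [G.ip_sum_right, Finset.mul_sum, ← Finset.sum_neg_distrib]
    refine Finset.sum_congr rfl fun i hi => ?_
    have : (j * k + i) / k = j := by
      rw [mul_comm, Nat.mul_add_div hk, Nat.div_eq_of_lt (Finset.mem_range.1 hi), add_zero]
    rw [this]
  have h3 : ∀ j ∈ Finset.range (m + 1), pf_qi_ext (fun r : Fin (m + 1) => gm x (r.val * k)) (j + 1) -
      pf_qi_ext (fun r : Fin (m + 1) => gm x (r.val * k)) j =
      (∑ i ∈ Finset.range k, pf_qi_ext x (j * k + i)) - (k : ℂ) * G.mn x := by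
    intro j hj
    have hj' : j < m + 1 := Finset.mem_range.1 hj
    have b1 : pf_qi_ext (fun r : Fin (m + 1) => gm x (r.val * k)) j = gm x (j * k) := by
      simp [pf_qi_ext, hj']
    have b2 : pf_qi_ext (fun r : Fin (m + 1) => gm x (r.val * k)) (j + 1) = gm x ((j + 1) * k) := by
      by_cases h : j + 1 < m + 1
      · simp [pf_qi_ext, h]
      · have hjm : j + 1 = m + 1 := by omega
        rw [hjm, ← hn, G.gm_all (Nat.succ_pos n)]
        simp [pf_qi_ext]
    have hle : (j + 1) * k ≤ n + 1 := by rw [hn]; exact Nat.mul_le_mul_right _ hj'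
    rw [b1, b2, hgm _ hle, hgm _ ((Nat.mul_le_mul_right _ (Nat.le_succ j)).trans hle), Nat.succ_mul,
      Finset.sum_range_add, add_sub_cancel_left]
    have b3 : ∀ i ∈ Finset.range k, pf_qi_ext y (j * k + i) = pf_qi_ext x (j * k + i) - G.mn x := by
      intro i hi
      have hlt : j * k + i < n + 1 := by
        have := Finset.mem_range.1 hi
        rw [Nat.succ_mul] at hle
        omega
      simp only [pf_qi_ext, hlt, dif_pos, hy, G.ce]
    rw [Finset.sum_congr rfl b3, Finset.sum_sub_distrib, Finset.sum_const, Finset.card_range,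
      nsmul_eq_mul]
  have h4 : ∑ j ∈ Finset.range (m + 1), G.ip (v (j + 1) - v j)
      (pf_qi_ext (fun r : Fin (m + 1) => gm x (r.val * k)) (j + 1) -
        pf_qi_ext (fun r : Fin (m + 1) => gm x (r.val * k)) j) =
      ∑ j ∈ Finset.range (m + 1), G.ip (v (j + 1) - v j)
        (∑ i ∈ Finset.range k, pf_qi_ext x (j * k + i)) := by
    have c1 : ∀ j ∈ Finset.range (m + 1), G.ip (v (j + 1) - v j)
        (pf_qi_ext (fun r : Fin (m + 1) => gm x (r.val * k)) (j + 1) -
          pf_qi_ext (fun r : Fin (m + 1) => gm x (r.val * k)) j) =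
        G.ip (v (j + 1) - v j) (∑ i ∈ Finset.range k, pf_qi_ext x (j * k + i)) -
        G.ip (v (j + 1) - v j) ((k : ℂ) * G.mn x) := by
      intro j hj
      rw [h3 j hj, G.ip_sub_right]
    rw [Finset.sum_congr rfl c1, Finset.sum_sub_distrib, ← G.ip_sum_left,
      Finset.sum_range_sub, hv, sub_self, G.ip_zero_left, sub_zero]
  unfold pf_qi_E
  rw [h4, h1, h2, hnr]
  field_simp
  ring

theorem pf_qi_eval_meas (t : unitInterval) : Measurable (fun b : Lo => b t) :=
  (continuous_eval_const t).measurable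

theorem pf_qi_grid_meas (m : ℕ) : Measurable (grid m) := by
  refine measurable_pi_iff.2 fun r => ?_
  exact pf_qi_eval_meas _

theorem pf_qi_grid_sub (a c n : ℕ) (hn : n + 1 = (a + 1) * c) (hc : 0 < c) (b : Lo) (r : Fin (a + 1))
    (h : r.val * c < n + 1) : grid a b r = grid n b ⟨r.val * c, h⟩ := by
  unfold grid
  congr 1
  apply Subtype.ext
  show (r.val : ℝ) / ((a : ℝ) + 1) = ((r.val * c : ℕ) : ℝ) / ((n : ℝ) + 1)
  have hnr : ((n : ℝ) + 1) = ((a : ℝ) + 1) * c := by exact_mod_cast hn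
  have hcr : (0 : ℝ) < c := by exact_mod_cast hc
  rw [hnr]
  push_cast
  field_simp

/-- joint law of the values on two grids -/
theorem pf_qi_joint {μ : Measure Lo} (hμ : IsLoop μ) (m m' n : ℕ)
    (hn : n + 1 = (m + 1) * (m' + 1)) (Φ : (Fin (m + 1) → ℂ) × (Fin (m' + 1) → ℂ) → ℝ≥0∞)
    (hΦ : Measurable Φ) :
    ∫⁻ b, Φ (grid m b, grid m' b) ∂μ = ∫⁻ x, Φ (fun r => gm x (r.val * (m' + 1)),
      fun r => gm x (r.val * (m + 1))) ∂(PG (1 / ((n : ℝ) + 1)) (n + 1)) := by
  have hlt : ∀ r : Fin (m + 1), r.val * (m' + 1) < n + 1 := fun r => by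
    rw [hn]; exact Nat.mul_lt_mul_of_pos_right r.2 (Nat.succ_pos _)
  have hlt' : ∀ r : Fin (m' + 1), r.val * (m + 1) < n + 1 := fun r => by
    rw [hn, mul_comm (m + 1)]; exact Nat.mul_lt_mul_of_pos_right r.2 (Nat.succ_pos _)
  set Ψ : (Fin (n + 1) → ℂ) → ℝ≥0∞ := fun y =>
    Φ (fun r => y ⟨r.val * (m' + 1), hlt r⟩, fun r => y ⟨r.val * (m + 1), hlt' r⟩) with hΨ
  have hΨm : Measurable Ψ := by
    refine hΦ.comp (Measurable.prodMk ?_ ?_)
    · exact measurable_pi_iff.2 fun r => measurable_pi_apply _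
    · exact measurable_pi_iff.2 fun r => measurable_pi_apply _
  have h1 : ∀ b : Lo, Φ (grid m b, grid m' b) = Ψ (grid n b) := by
    intro b
    simp only [hΨ]
    congr 1
    refine Prod.ext ?_ ?_
    · funext r
      exact pf_qi_grid_sub m (m' + 1) n hn (Nat.succ_pos _) b r (hlt r)
    · funext r
      exact pf_qi_grid_sub m' (m + 1) n (by rw [hn, mul_comm]) (Nat.succ_pos _) b r (hlt' r)
  have hgm : Measurable (fun (x : Fin (n + 1) → ℂ) (r : Fin (n + 1)) => gm x r) :=
    measurable_pi_iff.2 fun r => (G.gm_cont r.val).measurable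
  calc ∫⁻ b, Φ (grid m b, grid m' b) ∂μ = ∫⁻ b, Ψ (grid n b) ∂μ := by simp only [h1]
    _ = ∫⁻ y, Ψ y ∂(μ.map (grid n)) := (lintegral_map hΨm (pf_qi_grid_meas n)).symm
    _ = ∫⁻ y, Ψ y ∂((PG (1 / ((n : ℝ) + 1)) (n + 1)).map (fun x (r : Fin (n + 1)) => gm x r)) := by
        rw [hμ.marg n]
    _ = _ := by rw [lintegral_map hΨm hgm]

theorem pf_qi (h1 : S_uniq) : S_qi := by
  intro μ hμ m f hf hf0 hf1
  obtain ⟨v, hv⟩ := hf
  have hv0 : v 0 = 0 := by
    have h := hv 0 (Nat.zero_le _) 0 (by simp) (by simp)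
    rw [hf0] at h
    simpa using h.symm
  have hv1 : v (m + 1) = 0 := by
    have h := hv m le_rfl 1 (by simp) (by simp)
    rw [hf1] at h
    simp only [Icc.coe_one, mul_one, add_sub_cancel_left, Complex.ofReal_one, one_mul,
      add_sub_cancel] at h
    exact h.symm
  set D : Lo → ℝ≥0∞ := fun b => ENNReal.ofReal (Real.exp (pf_qi_E m v (grid m b))) with hD
  have hDm : Measurable D :=
    ((pf_qi_E_cont m v).measurable.comp (pf_qi_grid_meas m)).exp.ennreal_ofReal
  have hfm : Measurable (fun b : Lo => b + f) := (continuous_id.add continuous_const).measurable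
  -- the Cameron-Martin formula on the grids
  have key : ∀ (m' : ℕ) (Γ : (Fin (m' + 1) → ℂ) → ℝ≥0∞), Measurable Γ →
      ∫⁻ b, Γ (grid m' (b + f)) ∂μ = ∫⁻ b, D b * Γ (grid m' b) ∂μ := by
    intro m' Γ hΓ
    obtain ⟨n, hn⟩ : ∃ n, n + 1 = (m + 1) * (m' + 1) :=
      ⟨(m + 1) * (m' + 1) - 1, Nat.sub_add_cancel (Nat.mul_pos (Nat.succ_pos _) (Nat.succ_pos _))⟩
    have hs : (0 : ℝ) < 1 / ((n : ℝ) + 1) := by positivity
    have hk : 0 < m' + 1 := Nat.succ_pos _
    have hkr : (0 : ℝ) < ((m' + 1 : ℕ) : ℝ) := by exact_mod_cast hk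
    set e' : Fin (n + 1) → ℂ := fun l =>
      ((1 / ((m' + 1 : ℕ) : ℝ) : ℝ) : ℂ) * (v (l.val / (m' + 1) + 1) - v (l.val / (m' + 1))) with he'
    have hext : ∀ q, q ≤ n + 1 → G.sg e' q = ∑ l ∈ Finset.range q,
        ((1 / ((m' + 1 : ℕ) : ℝ) : ℝ) : ℂ) * (v (l / (m' + 1) + 1) - v (l / (m' + 1))) := by
      intro q hq
      rw [pf_qi_sg e' q hq]
      refine Finset.sum_congr rfl fun l hl => ?_
      have : l < n + 1 := lt_of_lt_of_le (Finset.mem_range.1 hl) hq
      simp [pf_qi_ext, this, he']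
    have hmn : G.mn e' = 0 := by
      rw [G.mn, ← G.sg_all e', hext _ le_rfl, pf_qi_psum v _ hk, hn, Nat.mul_div_cancel _ hk,
        Nat.mul_mod_left, hv1, hv0]
      simp
    have hce : G.ce e' = e' := by
      funext i
      rw [G.ce, hmn, sub_zero]
    have hgme : ∀ r : Fin (m' + 1), gm e' (r.val * (m + 1)) = f (gpt m' r) := by
      intro r
      set q := r.val * (m + 1) with hq
      have hqlt : q < n + 1 := by
        rw [hn, mul_comm (m + 1)]; exact Nat.mul_lt_mul_of_pos_right r.2 (Nat.succ_pos _)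
      have hqk : q / (m' + 1) ≤ m := by
        rw [← Nat.lt_succ_iff, Nat.div_lt_iff_lt_mul hk]
        rw [hn] at hqlt
        exact hqlt
      have hreal : ((m : ℝ) + 1) * ((gpt m' r : unitInterval) : ℝ) = (q : ℝ) / ((m' + 1 : ℕ) : ℝ) := by
        show ((m : ℝ) + 1) * ((r.val : ℝ) / ((m' : ℝ) + 1)) = _
        rw [hq]
        push_cast
        ring
      have hdm : (q : ℝ) / ((m' + 1 : ℕ) : ℝ) =
          ((q / (m' + 1) : ℕ) : ℝ) + ((q % (m' + 1) : ℕ) : ℝ) / ((m' + 1 : ℕ) : ℝ) := by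
        rw [div_eq_iff hkr.ne', add_mul, div_mul_cancel₀ _ hkr.ne']
        have := Nat.div_add_mod q (m' + 1)
        have h' : (((m' + 1) * (q / (m' + 1)) + q % (m' + 1) : ℕ) : ℝ) = (q : ℝ) := by rw [this]
        rw [← h']
        push_cast
        ring
      have hmod : ((q % (m' + 1) : ℕ) : ℝ) / ((m' + 1 : ℕ) : ℝ) ≤ 1 := by
        rw [div_le_one hkr]
        exact_mod_cast (Nat.mod_lt q hk).le
      have hmod0 : 0 ≤ ((q % (m' + 1) : ℕ) : ℝ) / ((m' + 1 : ℕ) : ℝ) := by positivity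
      have hft := hv (q / (m' + 1)) hqk (gpt m' r) (by rw [hreal, hdm]; linarith)
        (by rw [hreal, hdm]; linarith)
      rw [hft, hreal, hdm, gm, hce, hext _ hqlt.le, pf_qi_psum v _ hk, hv0, sub_zero,
        add_sub_cancel_left]
    have hgm : Measurable (fun (x : Fin (n + 1) → ℂ) (r : Fin (m' + 1)) => gm x (r.val * (m + 1))) :=
      measurable_pi_iff.2 fun r => (G.gm_cont _).measurable
    have hgm2 : Measurable (fun (x : Fin (n + 1) → ℂ) (r : Fin (m + 1)) => gm x (r.val * (m' + 1))) :=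
      measurable_pi_iff.2 fun r => (G.gm_cont _).measurable
    -- left side
    have hL : ∫⁻ b, Γ (grid m' (b + f)) ∂μ = ∫⁻ x, Γ (fun r : Fin (m' + 1) =>
        gm x (r.val * (m + 1)) + gm e' (r.val * (m + 1))) ∂(PG (1 / ((n : ℝ) + 1)) (n + 1)) := by
      have hΦ : Measurable (fun p : (Fin (m + 1) → ℂ) × (Fin (m' + 1) → ℂ) =>
          Γ (fun r => p.2 r + f (gpt m' r))) := by
        refine hΓ.comp (measurable_pi_iff.2 fun r => ?_)
        exact ((measurable_pi_apply r).comp measurable_snd).add_const _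
      have := pf_qi_joint hμ m m' n hn _ hΦ
      simp only [hgme]
      exact this
    -- right side
    have hR : ∫⁻ b, D b * Γ (grid m' b) ∂μ = ∫⁻ x, ENNReal.ofReal (Real.exp (pf_qi_E m v
        (fun r : Fin (m + 1) => gm x (r.val * (m' + 1))))) * Γ (fun r : Fin (m' + 1) =>
        gm x (r.val * (m + 1))) ∂(PG (1 / ((n : ℝ) + 1)) (n + 1)) := by
      have hΦ : Measurable (fun p : (Fin (m + 1) → ℂ) × (Fin (m' + 1) → ℂ) =>
          ENNReal.ofReal (Real.exp (pf_qi_E m v p.1)) * Γ p.2) :=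
        (((pf_qi_E_cont m v).measurable.comp measurable_fst).exp.ennreal_ofReal).mul
          (hΓ.comp measurable_snd)
      exact pf_qi_joint hμ m m' n hn _ hΦ
    rw [hL, hR]
    have hF : Measurable (fun x : Fin (n + 1) → ℂ => Γ (fun r : Fin (m' + 1) =>
        gm x (r.val * (m + 1)) + gm e' (r.val * (m + 1)))) := by
      refine hΓ.comp (measurable_pi_iff.2 fun r => ?_)
      exact (G.gm_cont _).measurable.add_const _
    rw [G.shift_PG hs (n + 1) (fun i => -e' i) hF]
    refine lintegral_congr fun x => ?_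
    rw [pf_qi_exp m (m' + 1) n hk hn v (by rw [hv1, hv0]) x e' (fun l => rfl)]
    congr 2
    funext r
    have := G.gm_add (fun i => x i + -e' i) e' (r.val * (m + 1))
    simp only [neg_add_cancel_right] at this
    exact this.symm
  have hfin : IsFiniteMeasure (μ.withDensity D) := by
    refine ⟨?_⟩
    have := hμ.prob
    rw [withDensity_apply _ MeasurableSet.univ, Measure.restrict_univ]
    have h := key 0 (fun _ => 1) measurable_const
    simp only [mul_one] at h
    rw [← h]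
    simp
  have hprob := hμ.prob
  have hfin' : IsFiniteMeasure (μ.map (fun b => b + f)) := inferInstance
  have heq : μ.map (fun b => b + f) = μ.withDensity D := by
    refine h1 _ _ hfin' hfin fun m' => ?_
    refine Measure.ext_of_lintegral _ fun Γ hΓ => ?_
    rw [lintegral_map hΓ (pf_qi_grid_meas m'), lintegral_map hΓ (pf_qi_grid_meas m')]
    have e1 : ∫⁻ a, Γ (grid m' a) ∂(μ.map (fun b => b + f)) = ∫⁻ b, Γ (grid m' (b + f)) ∂μ :=
      lintegral_map (hΓ.comp (pf_qi_grid_meas m')) hfm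
    have e2 : ∫⁻ a, Γ (grid m' a) ∂(μ.withDensity D) = ∫⁻ b, D b * Γ (grid m' b) ∂μ :=
      lintegral_withDensity_eq_lintegral_mul _ hDm (hΓ.comp (pf_qi_grid_meas m'))
    rw [e1, e2]
    exact key m' Γ hΓ
  rw [heq]
  exact withDensity_absolutelyContinuous _ _

end Pool.Agent.H212AN
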