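import Pool.Agent.H212AN.D2

set_option autoImplicit false

namespace Pool.Agent.H212AN

open MeasureTheory Set Filter Topology Metric
open Pool.Agent.W594.AN (ClosedCurve)
open scoped Real ENNReal ComplexConjugate

/-- the normal coordinates as a map of the plane -/
noncomputable def pf_rm_f (c : ClosedCurve) (z : ℂ) : ℂ := Ps c z.re z.im

/-- its derivative -/
noncomputable def pf_rm_g (c : ClosedCurve) (z : ℂ) : ℂ →L[ℝ] ℂ :=
  Complex.reCLM.smulRight (((1 - c.curvature z.re * z.im : ℝ) : ℂ) * deriv c.γ z.re) +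
  Complex.imCLM.smulRight (Complex.I * deriv c.γ z.re)

theorem pf_rm_deriv (c : ClosedCurve) (z : ℂ) : HasFDerivAt (pf_rm_f c) (pf_rm_g c z) z := by
  have h1 := (c.hasDerivAt z.re).hasFDerivAt.comp z Complex.reCLM.hasFDerivAt
  have h2 := (c.hasDerivAt' z.re).hasFDerivAt.comp z Complex.reCLM.hasFDerivAt
  have h3 : HasFDerivAt (fun z : ℂ => Complex.I * ((z.im : ℝ) : ℂ))
      (Complex.imCLM.smulRight Complex.I) z := by
    have h4 := (Complex.imCLM.smulRight Complex.I).hasFDerivAt (x := z)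
    refine h4.congr_of_eventuallyEq (Eventually.of_forall fun w => ?_)
    simp [mul_comm]
  have h5 := h1.add (h3.mul h2)
  refine (h5.congr_fderiv ?_).congr_of_eventuallyEq (Eventually.of_forall fun w => ?_)
  · ext w
    simp only [pf_rm_g, add_apply, smul_apply,
      ContinuousLinearMap.comp_apply, ContinuousLinearMap.smulRight_apply,
      ContinuousLinearMap.toSpanSingleton_apply, Complex.reCLM_apply, Complex.imCLM_apply,
      smul_eq_mul, Function.comp_apply, Complex.real_smul, Complex.reCLM_apply]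
    rw [c.second]
    push_cast
    linear_combination ((w.re : ℂ) * (z.im : ℂ) * (c.curvature z.re : ℂ) * deriv c.γ z.re) *
      Complex.I_mul_I
  · simp [pf_rm_f, Ps]

theorem pf_rm_det (c : ClosedCurve) (z : ℂ) :
    (pf_rm_g c z).det = 1 - c.curvature z.re * z.im := by
  have hn : (deriv c.γ z.re).re ^ 2 + (deriv c.γ z.re).im ^ 2 = 1 := by
    have h := c.unit_speed z.re
    have h2 := Complex.sq_norm (deriv c.γ z.re)
    rw [h, Complex.normSq_apply] at h2
    linarith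
  have h1 : (pf_rm_g c z).det = LinearMap.det ((pf_rm_g c z) : ℂ →ₗ[ℝ] ℂ) := rfl
  rw [h1, ← LinearMap.det_toMatrix Complex.basisOneI, Matrix.det_fin_two]
  simp only [LinearMap.toMatrix_apply, Complex.coe_basisOneI, Complex.coe_basisOneI_repr,
    Matrix.cons_val_zero, Matrix.cons_val_one, ContinuousLinearMap.coe_coe, pf_rm_g,
    add_apply, ContinuousLinearMap.smulRight_apply, Complex.reCLM_apply,
    Complex.imCLM_apply]
  simp
  linear_combination (1 - c.curvature z.re * z.im) * hn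

theorem pf_rm_inner {κ d δ B : ℝ} (hκ : |κ| ≤ B) (h0 : 0 ≤ d) (h1 : d ≤ δ) (hB : δ * B ≤ 1 / 2) :
    ∫⁻ u in Ioc 0 d, ENNReal.ofReal |1 - κ * u| = ENNReal.ofReal (d - κ / 2 * d ^ 2) := by
  have hpos : ∀ u ∈ Ioc 0 d, 0 ≤ 1 - κ * u := by
    intro u hu
    have hB0 : 0 ≤ B := (abs_nonneg κ).trans hκ
    have h2 : κ * u ≤ B * δ := by
      calc κ * u ≤ |κ| * u := mul_le_mul_of_nonneg_right (le_abs_self κ) hu.1.le
        _ ≤ B * δ := mul_le_mul hκ (hu.2.trans h1) hu.1.le hB0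
    nlinarith
  have h3 : ∫⁻ u in Ioc 0 d, ENNReal.ofReal |1 - κ * u| =
      ∫⁻ u in Ioc 0 d, ENNReal.ofReal (1 - κ * u) := by
    apply setLIntegral_congr_fun measurableSet_Ioc
    intro u hu
    simp only
    rw [abs_of_nonneg (hpos u hu)]
  have hint : IntegrableOn (fun u : ℝ => 1 - κ * u) (Ioc 0 d) := by
    apply IntegrableOn.mono_set (t := Icc 0 d) _ Ioc_subset_Icc_self
    apply ContinuousOn.integrableOn_compact isCompact_Icc
    fun_prop
  rw [h3, ← ofReal_integral_eq_lintegral_ofReal hint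
    ((ae_restrict_iff' measurableSet_Ioc).2 (Eventually.of_forall hpos)),
    ← intervalIntegral.integral_of_le h0]
  congr 1
  have h4 : ∀ x : ℝ, HasDerivAt (fun u : ℝ => u - κ / 2 * u ^ 2) (1 - κ * x) x := by
    intro x
    have := (hasDerivAt_id' x).sub (((hasDerivAt_id' x).pow 2).const_mul (κ / 2))
    refine this.congr_deriv ?_
    simp
    ring
  rw [intervalIntegral.integral_eq_sub_of_hasDerivAt (fun x _ => h4 x)
    ((by fun_prop : Continuous (fun x : ℝ => 1 - κ * x)).intervalIntegrable _ _)]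
  ring

/-- the region in normal coordinates -/
def pf_rm_S (L : ℝ) (J : ℝ → Set ℝ) : Set ℂ := {z | z.re ∈ Ico 0 L ∧ z.im ∈ J z.re}

theorem pf_rm_lint (c : ClosedCurve) {d : ℝ → ℝ} (hd : Continuous d) {δ B : ℝ}
    (hκ : ∀ s, |c.curvature s| ≤ B) (h0 : ∀ s, 0 ≤ d s) (h1 : ∀ s, d s ≤ δ)
    (hB : δ * B ≤ 1 / 2) {J : ℝ → Set ℝ} (hJm : MeasurableSet {p : ℝ × ℝ | p.2 ∈ J p.1})
    (hJ : ∀ s, J s =ᵐ[volume] Ioc 0 (d s)) :
    MeasurableSet (pf_rm_S c.L J) ∧
    ∫⁻ z in pf_rm_S c.L J, ENNReal.ofReal |(pf_rm_g c z).det| =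
      ENNReal.ofReal (∫ s in (0:ℝ)..c.L, (d s - c.curvature s / 2 * d s ^ 2)) := by
  have hm : MeasurableSet {p : ℝ × ℝ | p.1 ∈ Ico 0 c.L ∧ p.2 ∈ J p.1} :=
    (measurable_fst measurableSet_Ico).inter hJm
  have hκc := c.cont_curvature
  have hpre : pf_rm_S c.L J = Complex.measurableEquivRealProd ⁻¹'
      {p : ℝ × ℝ | p.1 ∈ Ico 0 c.L ∧ p.2 ∈ J p.1} := rfl
  have hmS : MeasurableSet (pf_rm_S c.L J) := by
    rw [hpre]
    exact Complex.measurableEquivRealProd.measurable hm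
  refine ⟨hmS, ?_⟩
  have hgm : Measurable (fun p : ℝ × ℝ => ENNReal.ofReal |1 - c.curvature p.1 * p.2|) := by
    apply Measurable.ennreal_ofReal
    apply Continuous.measurable
    fun_prop
  have e1 : ∫⁻ z in pf_rm_S c.L J, ENNReal.ofReal |(pf_rm_g c z).det| =
      ∫⁻ p in {p : ℝ × ℝ | p.1 ∈ Ico 0 c.L ∧ p.2 ∈ J p.1},
        ENNReal.ofReal |1 - c.curvature p.1 * p.2| := by
    rw [hpre, ← Complex.volume_preserving_equiv_real_prod.setLIntegral_comp_preimage hm hgm]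
    apply lintegral_congr
    intro z
    rw [pf_rm_det]
    rfl
  rw [e1, ← lintegral_indicator hm, Measure.volume_eq_prod, lintegral_prod _
    (hgm.indicator hm).aemeasurable]
  have e2 : ∀ s : ℝ, ∫⁻ u : ℝ, ({p : ℝ × ℝ | p.1 ∈ Ico 0 c.L ∧ p.2 ∈ J p.1}).indicator
      (fun p => ENNReal.ofReal |1 - c.curvature p.1 * p.2|) (s, u) =
      (Ico 0 c.L).indicator (fun s => ENNReal.ofReal (d s - c.curvature s / 2 * d s ^ 2)) s := by
    intro s
    by_cases hs : s ∈ Ico 0 c.L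
    · rw [indicator_of_mem hs, ← pf_rm_inner (hκ s) (h0 s) (h1 s) hB]
      have hJs : MeasurableSet (J s) := by
        have := measurable_prodMk_left (x := s) hJm
        exact this
      rw [← setLIntegral_congr (hJ s), ← lintegral_indicator hJs]
      apply lintegral_congr
      intro u
      by_cases hu : u ∈ J s
      · rw [indicator_of_mem (show ((s, u) : ℝ × ℝ) ∈ {p : ℝ × ℝ | p.1 ∈ Ico 0 c.L ∧ p.2 ∈ J p.1}
          from ⟨hs, hu⟩), indicator_of_mem hu]
      · rw [indicator_of_notMem (fun h => hu h.2), indicator_of_notMem hu]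
    · rw [indicator_of_notMem hs]
      rw [← lintegral_zero (μ := (volume : Measure ℝ))]
      apply lintegral_congr
      intro u
      rw [indicator_of_notMem (fun h => hs h.1)]
  rw [lintegral_congr e2, lintegral_indicator measurableSet_Ico, setLIntegral_congr
    Ico_ae_eq_Ioc]
  have hnn : ∀ s, 0 ≤ d s - c.curvature s / 2 * d s ^ 2 := by
    intro s
    have hB0 : 0 ≤ B := (abs_nonneg _).trans (hκ s)
    have h2 : c.curvature s * d s ≤ B * δ := by
      calc c.curvature s * d s ≤ |c.curvature s| * d s :=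
            mul_le_mul_of_nonneg_right (le_abs_self _) (h0 s)
        _ ≤ B * δ := mul_le_mul (hκ s) (h1 s) (h0 s) hB0
    have h3 := h0 s
    nlinarith [mul_nonneg h3 (by linarith : 0 ≤ 1 / 2 - c.curvature s * d s)]
  have hcont : Continuous (fun s => d s - c.curvature s / 2 * d s ^ 2) := by fun_prop
  have hint : IntegrableOn (fun s => d s - c.curvature s / 2 * d s ^ 2) (Ioc 0 c.L) :=
    (hcont.continuousOn.integrableOn_compact isCompact_Icc).mono_set Ioc_subset_Icc_self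
  rw [← ofReal_integral_eq_lintegral_ofReal hint (Eventually.of_forall hnn),
    ← intervalIntegral.integral_of_le c.L_pos.le]


/-- the function whose maximum over `K` is the depth -/
noncomputable def pf_rm_P (c : ClosedCurve) (C : ℝ) (s : ℝ) (k : ℂ) : ℝ :=
  (Complex.I * conj (deriv c.γ s) * k).re +
    c.curvature s / 2 * (Complex.I * conj (deriv c.γ s) * k).im ^ 2 +
    deriv c.curvature s / 6 * (Complex.I * conj (deriv c.γ s) * k).im ^ 3 +
    C * (Complex.I * conj (deriv c.γ s) * k).im ^ 4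

theorem pf_rm_P_eq (c : ClosedCurve) (C : ℝ) (s : ℝ) (k : ℂ) :
    pf_rm_P c C s k = -(conj (deriv c.γ s) * k).im + ta c C s (conj (deriv c.γ s) * k).re := by
  have h1 : (Complex.I * conj (deriv c.γ s) * k).re = -(conj (deriv c.γ s) * k).im := by
    rw [mul_assoc, Complex.mul_re]; simp
  have h2 : (Complex.I * conj (deriv c.γ s) * k).im = (conj (deriv c.γ s) * k).re := by
    rw [mul_assoc, Complex.mul_im]; simp
  rw [pf_rm_P, h1, h2, ta]
  ring

theorem pf_rm_dp (c : ClosedCurve) (C : ℝ) (K : Set ℂ) (s : ℝ) :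
    dp c C K s = sSup (pf_rm_P c C s '' K) := by
  rw [dp, pk, Set.image_image]
  rfl

theorem pf_rm_kc (c : ClosedCurve) : ContDiff ℝ (⊤ : ℕ∞) c.curvature := by
  have h1 := c.smooth'
  have h2 := c.smooth''
  have h3 : ContDiff ℝ (⊤ : ℕ∞) (fun s => conj (deriv c.γ s) * deriv (deriv c.γ) s) :=
    (Complex.conjCLE.contDiff.comp h1).mul h2
  exact Complex.imCLM.contDiff.comp h3

theorem pf_rm_cont (c : ClosedCurve) (C : ℝ) : Continuous (Function.uncurry (pf_rm_P c C)) := by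
  have h1 := c.cont'
  have h2 := c.cont_curvature
  have h3 : Continuous (deriv c.curvature) :=
    (pf_rm_kc c).continuous_deriv (by simp)
  unfold pf_rm_P Function.uncurry
  fun_prop

theorem pf_rm_norm (c : ClosedCurve) (s : ℝ) (k : ℂ) : ‖conj (deriv c.γ s) * k‖ = ‖k‖ := by
  rw [norm_mul, Complex.norm_conj, c.unit_speed, one_mul]

theorem pf_rm_fr (c : ClosedCurve) (s u : ℝ) (k : ℂ) :
    Ps c s u + k = fr c s (conj (deriv c.γ s) * k).re (u + (conj (deriv c.γ s) * k).im) := by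
  have h1 : k = deriv c.γ s * (conj (deriv c.γ s) * k) := by
    rw [← mul_assoc, mul_comm (deriv c.γ s), c.conj_mul, one_mul]
  have h2 := Complex.re_add_im (conj (deriv c.γ s) * k)
  rw [Ps, fr]
  conv_lhs => rw [h1]
  nth_rewrite 1 [← h2]
  push_cast
  ring

theorem pf_rm_bd (c : ClosedCurve) {C D ρ ε : ℝ} (s : ℝ) (hC : |c.curvature s| ≤ C)
    (hC' : |deriv c.curvature s| ≤ C) (hD : |D| ≤ C) (hρ : 0 < ρ) (hρε : ρ ≤ ε / 4)
    (hε : ε ≤ 1) (hεC : ε * C ≤ 1 / 2) {k : ℂ} (hk : ‖k‖ ≤ ρ) : pf_rm_P c D s k ≤ 2 * ρ := by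
  rw [pf_rm_P_eq]
  have hx := (Complex.abs_re_le_norm (conj (deriv c.γ s) * k)).trans
    ((pf_rm_norm c s k).le.trans hk)
  have hy := (Complex.abs_im_le_norm (conj (deriv c.γ s) * k)).trans
    ((pf_rm_norm c s k).le.trans hk)
  set x := (conj (deriv c.γ s) * k).re with hxd
  set y := (conj (deriv c.γ s) * k).im with hyd
  have hC0 : 0 ≤ C := (abs_nonneg _).trans hC
  have hCρ : C * ρ ≤ 1 / 8 := by nlinarith
  have h2 : c.curvature s / 2 * x ^ 2 ≤ C / 2 * ρ ^ 2 := by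
    calc c.curvature s / 2 * x ^ 2 ≤ |c.curvature s / 2 * x ^ 2| := le_abs_self _
      _ = |c.curvature s| / 2 * |x| ^ 2 := by
          rw [abs_mul, abs_div, abs_pow]; norm_num
      _ ≤ C / 2 * ρ ^ 2 := by gcongr
  have h3 : deriv c.curvature s / 6 * x ^ 3 ≤ C / 6 * ρ ^ 3 := by
    calc deriv c.curvature s / 6 * x ^ 3 ≤ |deriv c.curvature s / 6 * x ^ 3| := le_abs_self _
      _ = |deriv c.curvature s| / 6 * |x| ^ 3 := by
          rw [abs_mul, abs_div, abs_pow]; norm_num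
      _ ≤ C / 6 * ρ ^ 3 := by gcongr
  have h4 : D * x ^ 4 ≤ C * ρ ^ 4 := by
    calc D * x ^ 4 ≤ |D * x ^ 4| := le_abs_self _
      _ = |D| * |x| ^ 4 := by
          rw [abs_mul, abs_pow]
      _ ≤ C * ρ ^ 4 := by gcongr
  have h5 : -y ≤ ρ := (neg_le_abs y).trans hy
  have hρ4 : ρ ≤ 1 / 4 := by linarith
  have e2 : C / 2 * ρ ^ 2 ≤ ρ / 16 := by nlinarith
  have e3 : C / 6 * ρ ^ 3 ≤ ρ / 16 := by
    have : C / 6 * ρ ^ 3 = (C * ρ) * ρ * (ρ / 6) := by ring
    rw [this]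
    have h6 : (C * ρ) * ρ ≤ 1 / 8 * (1 / 4) := mul_le_mul hCρ hρ4 hρ.le (by norm_num)
    nlinarith
  have e4 : C * ρ ^ 4 ≤ ρ / 16 := by
    have : C * ρ ^ 4 = (C * ρ) * ρ * (ρ * ρ) := by ring
    rw [this]
    have h6 : (C * ρ) * ρ ≤ 1 / 8 * (1 / 4) := mul_le_mul hCρ hρ4 hρ.le (by norm_num)
    have h7 : ρ * ρ ≤ ρ := by nlinarith
    have h8 : 0 ≤ (C * ρ) * ρ := by positivity
    nlinarith
  rw [ta]
  linarith

theorem pf_rm_facts (c : ClosedCurve) {C D ρ ε : ℝ} (hC : ∀ s, |c.curvature s| ≤ C)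
    (hC' : ∀ s, |deriv c.curvature s| ≤ C) (hD : |D| ≤ C) (hρ : 0 < ρ) (hρε : ρ ≤ ε / 4)
    (hε : ε ≤ 1) (hεC : ε * C ≤ 1 / 2) {K : Set ℂ} (hK : Good K ρ) :
    Continuous (dp c D K) ∧ (∀ s, 0 ≤ dp c D K s) ∧ (∀ s, dp c D K s ≤ 2 * ρ) ∧
    ∀ s, ∀ k ∈ K, pf_rm_P c D s k ≤ dp c D K s := by
  have hb : ∀ s, BddAbove (pf_rm_P c D s '' K) := by
    intro s
    refine ⟨2 * ρ, ?_⟩
    rintro _ ⟨k, hk, rfl⟩
    exact pf_rm_bd c s (hC s) (hC' s) hD hρ hρε hε hεC (by simpa using hK.2.2 hk)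
  have hle : ∀ s, ∀ k ∈ K, pf_rm_P c D s k ≤ dp c D K s := by
    intro s k hk
    rw [pf_rm_dp]
    exact le_csSup (hb s) ⟨k, hk, rfl⟩
  refine ⟨?_, ?_, ?_, hle⟩
  · have := IsCompact.continuous_sSup (f := pf_rm_P c D) hK.1 (pf_rm_cont c D)
    have e : dp c D K = fun s => sSup (pf_rm_P c D s '' K) := by
      funext s
      exact pf_rm_dp c D K s
    rw [e]
    exact this
  · intro s
    have := hle s 0 hK.2.1
    have h0 : pf_rm_P c D s 0 = 0 := by simp [pf_rm_P]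
    rw [h0] at this
    exact this
  · intro s
    rw [pf_rm_dp]
    refine csSup_le ⟨_, 0, hK.2.1, rfl⟩ ?_
    rintro _ ⟨k, hk, rfl⟩
    exact pf_rm_bd c s (hC s) (hC' s) hD hρ hρε hε hεC (by simpa using hK.2.2 hk)

theorem pf_rm_nn (c : ClosedCurve) {d : ℝ → ℝ} {δ B : ℝ}
    (hκ : ∀ s, |c.curvature s| ≤ B) (h0 : ∀ s, 0 ≤ d s) (h1 : ∀ s, d s ≤ δ)
    (hB : δ * B ≤ 1 / 2) : 0 ≤ ∫ s in (0:ℝ)..c.L, (d s - c.curvature s / 2 * d s ^ 2) := by
  apply intervalIntegral.integral_nonneg c.L_pos.le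
  intro s _
  have hB0 : 0 ≤ B := (abs_nonneg _).trans (hκ s)
  have h2 : c.curvature s * d s ≤ B * δ := by
    calc c.curvature s * d s ≤ |c.curvature s| * d s :=
          mul_le_mul_of_nonneg_right (le_abs_self _) (h0 s)
      _ ≤ B * δ := mul_le_mul (hκ s) (h1 s) (h0 s) hB0
  have h3 := h0 s
  nlinarith [mul_nonneg h3 (by linarith : 0 ≤ 1 / 2 - c.curvature s * d s)]

theorem pf_rm_low (Ω : Set ℂ) (n : ℕ) (c : Fin n → ClosedCurve) (ε C : ℝ) (hL : LB Ω n c ε C)
    (K : Set ℂ) (ρ : ℝ) (hK : Good K ρ) (hρ : 0 < ρ) (hρε : ρ ≤ ε / 4) :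
    (volume Ω).toReal - (∑ i, ∫ s in (0:ℝ)..(c i).L,
        (dp (c i) C K s - (c i).curvature s / 2 * dp (c i) C K s ^ 2)) ≤
      (volume {z | ∀ k ∈ K, z + k ∈ Ω}).toReal := by
  have hC0 : 0 ≤ C := hL.pos.1.le
  have hF := fun i => pf_rm_facts (c i) (fun s => (hL.curv i s).1) (fun s => (hL.curv i s).2)
    (abs_of_nonneg hC0).le hρ hρε hL.eps.2 hL.pos.2 hK
  have hδ : 2 * ρ * C ≤ 1 / 2 := by nlinarith [hL.pos.2]
  have hJ := fun i => pf_rm_lint (c i) (hF i).1 (fun s => (hL.curv i s).1) (hF i).2.1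
    (hF i).2.2.1 hδ (J := fun s => Ioc 0 (dp (c i) C K s))
    (by
      have h1 : Measurable (fun p : ℝ × ℝ => dp (c i) C K p.1) :=
        (hF i).1.measurable.comp measurable_fst
      exact (measurableSet_lt measurable_const measurable_snd).inter
        (measurableSet_le measurable_snd h1)) (fun s => ae_eq_rfl)
  have hnn := fun i => pf_rm_nn (c i) (fun s => (hL.curv i s).1) (hF i).2.1 (hF i).2.2.1 hδ
  set U : Set ℂ := {z | ∀ k ∈ K, z + k ∈ Ω} with hU
  have hUΩ : U ⊆ Ω := fun z hz => by simpa using hz 0 hK.2.1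
  have hsub : Ω ⊆ U ∪ ⋃ i, pf_rm_f (c i) '' pf_rm_S (c i).L (fun s => Ioc 0 (dp (c i) C K s)) := by
    intro z hz
    by_cases hzU : z ∈ U
    · exact Or.inl hzU
    · right
      rw [hU, mem_ofPred_eq] at hzU
      push Not at hzU
      obtain ⟨k, hk, hzk⟩ := hzU
      have hkρ : ‖k‖ ≤ ρ := by simpa using hK.2.2 hk
      have hd : dist z (z + k) ≤ ρ := by simpa [dist_eq_norm] using hkρ
      obtain ⟨i, s, hs, u, hu, rfl⟩ := hL.cover z hz (z + k) hzk
        (lt_of_le_of_lt hd (by linarith [hL.eps.1]))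
      rw [mem_iUnion]
      refine ⟨i, ⟨(s : ℂ) + (u : ℂ) * Complex.I, ?_, ?_⟩⟩
      · have hre : ((s : ℂ) + (u : ℂ) * Complex.I).re = s := by simp
        have him : ((s : ℂ) + (u : ℂ) * Complex.I).im = u := by simp
        refine ⟨by rw [hre]; exact hs, ?_⟩
        rw [hre, him]
        refine ⟨hu.1, ?_⟩
        by_contra hcon
        push Not at hcon
        have h1 := lt_of_le_of_lt ((hF i).2.2.2 s k hk) hcon
        rw [pf_rm_P_eq] at h1
        apply hzk
        rw [pf_rm_fr]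
        have hx := (Complex.abs_re_le_norm (conj (deriv (c i).γ s) * k)).trans
          ((pf_rm_norm (c i) s k).le.trans hkρ)
        have hy := (Complex.abs_im_le_norm (conj (deriv (c i).γ s) * k)).trans
          ((pf_rm_norm (c i) s k).le.trans hkρ)
        have huρ := hu.2.trans hd
        have hu0 := hu.1
        apply hL.inside
        · linarith [hL.eps.1]
        · rw [abs_le] at hy ⊢
          constructor <;> linarith [hy.1, hy.2]
        · linarith
      · simp [pf_rm_f]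
  have hvol : volume Ω ≤ volume U + ∑ i, ENNReal.ofReal (∫ s in (0:ℝ)..(c i).L,
      (dp (c i) C K s - (c i).curvature s / 2 * dp (c i) C K s ^ 2)) := by
    refine (measure_mono hsub).trans ((measure_union_le _ _).trans ?_)
    gcongr
    refine (measure_iUnion_fintype_le _ _).trans ?_
    apply Finset.sum_le_sum
    intro i _
    rw [← (hJ i).2]
    exact addHaar_image_le_lintegral_abs_det_fderiv volume (hJ i).1
      (fun z _ => (pf_rm_deriv (c i) z).hasFDerivWithinAt)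
  have hUfin : volume U ≠ ∞ := ((measure_mono hUΩ).trans_lt hL.isBounded.measure_lt_top).ne
  have hSfin : ∑ i, ENNReal.ofReal (∫ s in (0:ℝ)..(c i).L,
      (dp (c i) C K s - (c i).curvature s / 2 * dp (c i) C K s ^ 2)) ≠ ∞ := by
    rw [ENNReal.sum_ne_top]
    intro i _
    exact ENNReal.ofReal_ne_top
  have h1 := ENNReal.toReal_mono (ENNReal.add_ne_top.2 ⟨hUfin, hSfin⟩) hvol
  rw [ENNReal.toReal_add hUfin hSfin, ENNReal.toReal_sum (fun i _ => ENNReal.ofReal_ne_top)] at h1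
  rw [Finset.sum_congr rfl (fun i _ => ENNReal.toReal_ofReal (hnn i))] at h1
  linarith

theorem pf_rm_up (Ω : Set ℂ) (n : ℕ) (c : Fin n → ClosedCurve) (ε C : ℝ) (hL : LB Ω n c ε C)
    (K : Set ℂ) (ρ : ℝ) (hK : Good K ρ) (hρ : 0 < ρ) (hρε : ρ ≤ ε / 4) :
    (volume {z | ∀ k ∈ K, z + k ∈ closure Ω}).toReal ≤
      (volume Ω).toReal - ∑ i, ∫ s in (0:ℝ)..(c i).L,
        (dp (c i) (-C) K s - (c i).curvature s / 2 * dp (c i) (-C) K s ^ 2) := by
  have hC0 : 0 ≤ C := hL.pos.1.le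
  have hF := fun i => pf_rm_facts (c i) (D := -C) (fun s => (hL.curv i s).1)
    (fun s => (hL.curv i s).2)
    (by rw [abs_neg]; exact (abs_of_nonneg hC0).le) hρ hρε hL.eps.2 hL.pos.2 hK
  have hδ : 2 * ρ * C ≤ 1 / 2 := by nlinarith [hL.pos.2]
  have hJ := fun i => pf_rm_lint (c i) (hF i).1 (fun s => (hL.curv i s).1) (hF i).2.1
    (hF i).2.2.1 hδ (J := fun s => Ioo 0 (dp (c i) (-C) K s))
    (by
      have h1 : Measurable (fun p : ℝ × ℝ => dp (c i) (-C) K p.1) :=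
        (hF i).1.measurable.comp measurable_fst
      exact (measurableSet_lt measurable_const measurable_snd).inter
        (measurableSet_lt measurable_snd h1)) (fun s => Ioo_ae_eq_Ioc)
  have hnn := fun i => pf_rm_nn (c i) (fun s => (hL.curv i s).1) (hF i).2.1 (hF i).2.2.1 hδ
  set V : Set ℂ := {z | ∀ k ∈ K, z + k ∈ closure Ω} with hV
  set A : Fin n → Set ℂ := fun i =>
    pf_rm_f (c i) '' pf_rm_S (c i).L (fun s => Ioo 0 (dp (c i) (-C) K s)) with hA
  have hε0 := hL.eps.1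
  -- coordinates of the points of the regions
  have hmem : ∀ i, ∀ z ∈ pf_rm_S (c i).L (fun s => Ioo 0 (dp (c i) (-C) K s)),
      z.re ∈ Ico 0 (c i).L ∧ z.im ∈ Ioo 0 ε ∧ z.im < dp (c i) (-C) K z.re ∧ z.im ≤ 2 * ρ := by
    intro i z hz
    have h1 := (hF i).2.2.1 z.re
    have h2 := hz.2.1
    have h3 := hz.2.2
    exact ⟨hz.1, ⟨h2, by linarith⟩, h3, by linarith⟩
  have hinj : ∀ i, InjOn (pf_rm_f (c i)) (pf_rm_S (c i).L (fun s => Ioo 0 (dp (c i) (-C) K s))) := by
    intro i z hz w hw h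
    obtain ⟨_, h1, h2⟩ := hL.inj i i z.re z.im w.re w.im (hmem i z hz).1 (hmem i w hw).1
      (hmem i z hz).2.1 (hmem i w hw).2.1 h
    exact Complex.ext h1 h2
  have hAm : ∀ i, MeasurableSet (A i) := fun i =>
    measurable_image_of_fderivWithin (hJ i).1
      (fun z _ => (pf_rm_deriv (c i) z).hasFDerivWithinAt) (hinj i)
  have hAv : ∀ i, volume (A i) = ENNReal.ofReal (∫ s in (0:ℝ)..(c i).L,
        (dp (c i) (-C) K s - (c i).curvature s / 2 * dp (c i) (-C) K s ^ 2)) := by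
    intro i
    rw [← (hJ i).2]
    exact (lintegral_abs_det_fderiv_eq_addHaar_image volume (hJ i).1
      (fun z _ => (pf_rm_deriv (c i) z).hasFDerivWithinAt) (hinj i)).symm
  have hAd : Pairwise fun i j => Disjoint (A i) (A j) := by
    intro i j hij
    rw [Set.disjoint_left]
    rintro _ ⟨z, hz, rfl⟩ ⟨w, hw, h⟩
    exact hij (hL.inj j i w.re w.im z.re z.im (hmem j w hw).1 (hmem i z hz).1
      (hmem j w hw).2.1 (hmem i z hz).2.1 h).1.symm
  have hAΩ : (⋃ i, A i) ⊆ closure Ω := by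
    apply iUnion_subset
    rintro i _ ⟨z, hz, rfl⟩
    exact subset_closure (hL.left i z.re z.im (hmem i z hz).2.1.1 (hmem i z hz).2.1.2)
  have hVΩ : V ⊆ closure Ω := fun z hz => by simpa using hz 0 hK.2.1
  have hVA : Disjoint V (⋃ i, A i) := by
    rw [Set.disjoint_left]
    intro w hw hwA
    rw [mem_iUnion] at hwA
    obtain ⟨i, z, hz, rfl⟩ := hwA
    obtain ⟨h1, h2, h3, h4⟩ := hmem i z hz
    rw [pf_rm_dp] at h3
    obtain ⟨_, ⟨k, hk, rfl⟩, h5⟩ := exists_lt_of_lt_csSup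
      (⟨_, 0, hK.2.1, rfl⟩ : (pf_rm_P (c i) (-C) z.re '' K).Nonempty) h3
    rw [pf_rm_P_eq] at h5
    have hkρ : ‖k‖ ≤ ρ := by simpa using hK.2.2 hk
    have hx := (Complex.abs_re_le_norm (conj (deriv (c i).γ z.re) * k)).trans
      ((pf_rm_norm (c i) z.re k).le.trans hkρ)
    have hy := (Complex.abs_im_le_norm (conj (deriv (c i).γ z.re) * k)).trans
      ((pf_rm_norm (c i) z.re k).le.trans hkρ)
    have h6 := hw k hk
    rw [pf_rm_f, pf_rm_fr] at h6
    refine hL.outside i z.re _ _ ?_ ?_ ?_ h6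
    · linarith
    · have h7 := h2.1
      rw [abs_le] at hy ⊢
      constructor <;> linarith [hy.1, hy.2]
    · linarith
  have hvol : volume V + ∑ i, ENNReal.ofReal (∫ s in (0:ℝ)..(c i).L,
      (dp (c i) (-C) K s - (c i).curvature s / 2 * dp (c i) (-C) K s ^ 2)) ≤ volume Ω := by
    have e1 : ∑ i, ENNReal.ofReal (∫ s in (0:ℝ)..(c i).L,
      (dp (c i) (-C) K s - (c i).curvature s / 2 * dp (c i) (-C) K s ^ 2)) =
      volume (⋃ i, A i) := by
      rw [measure_iUnion hAd hAm, tsum_fintype]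
      exact Finset.sum_congr rfl (fun i _ => (hAv i).symm)
    rw [e1, ← measure_union hVA (MeasurableSet.iUnion hAm)]
    refine (measure_mono (union_subset hVΩ hAΩ)).trans ?_
    rw [closure_eq_self_union_frontier]
    refine (measure_union_le _ _).trans ?_
    rw [hL.null, add_zero]
  have hΩfin : volume Ω ≠ ∞ := hL.isBounded.measure_lt_top.ne
  have hSfin : ∑ i, ENNReal.ofReal (∫ s in (0:ℝ)..(c i).L,
      (dp (c i) (-C) K s - (c i).curvature s / 2 * dp (c i) (-C) K s ^ 2)) ≠ ∞ := by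
    rw [ENNReal.sum_ne_top]
    intro i _
    exact ENNReal.ofReal_ne_top
  have hVfin : volume V ≠ ∞ := (lt_of_le_of_lt (le_self_add.trans hvol)
    hL.isBounded.measure_lt_top).ne
  have h1 := ENNReal.toReal_mono hΩfin hvol
  rw [ENNReal.toReal_add hVfin hSfin, ENNReal.toReal_sum (fun i _ => ENNReal.ofReal_ne_top)] at h1
  rw [Finset.sum_congr rfl (fun i _ => ENNReal.toReal_ofReal (hnn i))] at h1
  linarith

theorem pf_rm : S_rm := by
  intro Ω n c ε C hL K ρ hK hρ hρε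
  exact ⟨pf_rm_low Ω n c ε C hL K ρ hK hρ hρε, pf_rm_up Ω n c ε C hL K ρ hK hρ hρε⟩

end Pool.Agent.H212AN
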