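import Pool.Agent.H212AN.D1

set_option autoImplicit false

namespace Pool.Agent.H212AN

open MeasureTheory Set Filter Topology Metric
open Pool.Agent.H212AN.G (nG PG gm)
open scoped Real ENNReal

theorem pf_rot_nG (s : ℝ) (L : ℂ ≃ₗᵢ[ℝ] ℂ) : (nG s).map L = nG s := by
  have hL : MeasurePreserving L (volume : Measure ℂ) volume := L.measurePreserving
  have hmL : Measurable L := hL.measurable
  ext A hA
  rw [Measure.map_apply hmL hA, nG, withDensity_apply _ (hmL hA), withDensity_apply _ hA]
  rw [← hL.setLIntegral_comp_preimage hA (G.gkE_meas s)]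
  refine lintegral_congr fun z => ?_
  simp only [G.gk, L.norm_map]

theorem pf_rot_PG (s : ℝ) (M : ℕ) (hs : 0 < s) (L : ℂ ≃ₗᵢ[ℝ] ℂ) :
    (PG s M).map (fun x i => L (x i)) = PG s M := by
  have := G.nG_prob hs
  have hmL : Measurable L := L.continuous.measurable
  have hi : IsProbabilityMeasure ((nG s).map L) := by rw [pf_rot_nG]; exact this
  have h4 := Measure.pi_map_pi (μ := fun _ : Fin M => nG s) (f := fun _ z => L z)
    (fun _ => hmL.aemeasurable)
  have h5 : (nG s).map (fun z => L z) = nG s := pf_rot_nG s L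
  simp only [h5] at h4
  unfold PG
  exact h4

theorem pf_rot_main (h1 : S_uniq) (μ : Measure Lo) (hμ : IsLoop μ) (L : ℂ ≃ₗᵢ[ℝ] ℂ)
    (hgm : ∀ (M : ℕ) (x : Fin M → ℂ) (r : ℕ), gm (fun i => L (x i)) r = L (gm x r))
    (T : Lo → Lo) (hT : Continuous T) (hTL : ∀ b t, T b t = L (b t)) : μ.map T = μ := by
  have hp := hμ.prob
  have hp2 : IsProbabilityMeasure (μ.map T) :=
    Measure.isProbabilityMeasure_map hT.measurable.aemeasurable
  refine h1 _ _ inferInstance inferInstance fun m => ?_
  have hgc : Continuous (grid m) := by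
    refine continuous_pi fun r => ?_
    exact continuous_eval_const (gpt m r)
  have hgcm : Measurable (grid m) := hgc.measurable
  have hLc : Continuous (fun (y : Fin (m + 1) → ℂ) (r : Fin (m + 1)) => L (y r)) :=
    continuous_pi fun r => L.continuous.comp (continuous_apply r)
  have hgmc : Continuous (fun (x : Fin (m + 1) → ℂ) (r : Fin (m + 1)) => gm x r) :=
    continuous_pi fun r => G.gm_cont (r : ℕ)
  have e1 : (grid m) ∘ T = (fun (y : Fin (m + 1) → ℂ) (r : Fin (m + 1)) => L (y r)) ∘ grid m := by
    funext b r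
    simp only [Function.comp_apply, grid, hTL]
  have e2 : (fun (y : Fin (m + 1) → ℂ) (r : Fin (m + 1)) => L (y r)) ∘
      (fun (x : Fin (m + 1) → ℂ) (r : Fin (m + 1)) => gm x r) =
      (fun (x : Fin (m + 1) → ℂ) (r : Fin (m + 1)) => gm x r) ∘ (fun x i => L (x i)) := by
    funext x r
    simp only [Function.comp_apply]
    exact (hgm _ x r).symm
  rw [Measure.map_map hgcm hT.measurable, e1, ← Measure.map_map hLc.measurable hgcm, hμ.marg m,
    Measure.map_map hLc.measurable hgmc.measurable, e2,
    ← Measure.map_map hgmc.measurable (by fun_prop), pf_rot_PG _ _ (by positivity)]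

theorem pf_rot_conj_gm (M : ℕ) (x : Fin M → ℂ) (r : ℕ) :
    gm (fun i => Complex.conjLIE (x i)) r = Complex.conjLIE (gm x r) := by
  have h : G.ce (fun i => Complex.conjLIE (x i)) = fun i => Complex.conjLIE (G.ce x i) := by
    funext i
    simp [G.ce, G.mn, map_sub, map_sum, map_div₀]
  rw [gm, gm, h, G.sg, G.sg, map_sum]
  refine Finset.sum_congr rfl fun i _ => ?_
  split_ifs <;> simp

theorem pf_rot (h1 : S_uniq) : S_rot := by
  intro μ hμ
  constructor
  · intro c hc
    let C : Circle := ⟨c, mem_sphere_zero_iff_norm.2 hc⟩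
    have hC : ∀ z : ℂ, rotation C z = c * z := fun z => rotation_apply C z
    refine pf_rot_main h1 μ hμ (rotation C) ?_ _ (continuous_const_smul c) ?_
    · intro M x r
      simp only [hC]
      exact G.gm_smul c x r
    · intro b t
      rw [hC]
      simp
  · refine pf_rot_main h1 μ hμ Complex.conjLIE pf_rot_conj_gm _ continuous_star ?_
    intro b t
    simp

end Pool.Agent.H212AN
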