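import Pool.Agent.H212AN.D2

set_option autoImplicit false

namespace Pool.Agent.H212AN

open MeasureTheory Set Filter Topology Metric
open Pool.Agent.W594.AN (ClosedCurve)
open scoped Real ENNReal ComplexConjugate

theorem pf_rv_per {E : Type*} [NormedAddCommGroup E] [NormedSpace ℝ E] {f : ℝ → E} {L : ℝ}
    (hf : Function.Periodic f L) : ∫ s in (0:ℝ)..L, f (-s) = ∫ s in (0:ℝ)..L, f s := by
  rw [intervalIntegral.integral_comp_neg]
  have h := hf.intervalIntegral_add_eq (-L) 0
  rw [neg_add_cancel, zero_add] at h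
  rw [neg_zero]
  exact h

theorem pf_rv_d (c : ClosedCurve) : deriv (rev c).γ = fun s => -deriv c.γ (-s) := by
  funext s
  change deriv (fun s => c.γ (-s)) s = _
  rw [deriv_comp_neg]

theorem pf_rv_dd (c : ClosedCurve) :
    deriv (deriv (rev c).γ) = fun s => deriv (deriv c.γ) (-s) := by
  rw [pf_rv_d]
  funext s
  have h1 : deriv (fun s => -deriv c.γ (-s)) s = -deriv (fun s => deriv c.γ (-s)) s :=
    deriv.fun_neg
  rw [h1, deriv_comp_neg (f := deriv c.γ), neg_neg]

/- PLAIN PROOF.
(rev c).γ s = c.γ (-s): deriv = -(deriv c.γ)(-s) (deriv_comp_neg), second derivative = c.γ''(-s); curvature changes sign; integrals over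
a period by substitution and periodicity; Ps (rev c) s u = γ(-s) - i u γ'(-s) = Ps c (-s) (-u); LT/RT exchange.
-/
theorem pf_rv : S_rv := by
  intro c
  have hcur : ∀ s, (rev c).curvature s = -c.curvature (-s) := by
    intro s
    unfold ClosedCurve.curvature
    rw [pf_rv_dd, pf_rv_d]
    simp only [map_neg, neg_mul, Complex.neg_im]
  have hPs : ∀ s u, Ps (rev c) s u = Ps c (-s) (-u) := by
    intro s u
    unfold Ps
    rw [pf_rv_d]
    change c.γ (-s) + _ = _
    push_cast
    ring
  refine ⟨?_, hcur, ?_, ?_, ?_, ?_, hPs, ?_⟩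
  · ext z
    constructor
    · rintro ⟨s, rfl⟩
      exact ⟨-s, rfl⟩
    · rintro ⟨s, rfl⟩
      refine ⟨-s, ?_⟩
      change c.γ (- -s) = _
      rw [neg_neg]
  · unfold ClosedCurve.totalCurvature
    change ∫ s in (0:ℝ)..c.L, (rev c).curvature s = _
    simp_rw [hcur]
    rw [intervalIntegral.integral_neg, pf_rv_per c.curvature_periodic]
  · unfold ClosedCurve.bending
    change ∫ s in (0:ℝ)..c.L, (rev c).curvature s ^ 2 = _
    simp_rw [hcur, neg_sq]
    have hp : Function.Periodic (fun s => c.curvature s ^ 2) c.L := by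
      intro s
      change c.curvature (s + c.L) ^ 2 = c.curvature s ^ 2
      rw [c.curvature_periodic s]
    exact pf_rv_per hp
  · unfold ClosedCurve.area
    change (1 / 2) * ∫ s in (0:ℝ)..c.L, (conj ((rev c).γ s) * deriv (rev c).γ s).im = _
    have hp : Function.Periodic (fun s => (conj (c.γ s) * deriv c.γ s).im) c.L := by
      intro s
      change (conj (c.γ (s + c.L)) * deriv c.γ (s + c.L)).im = _
      rw [c.periodic s, c.periodic' s]
    have h1 : ∀ s, (conj ((rev c).γ s) * deriv (rev c).γ s).im =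
        -(conj (c.γ (-s)) * deriv c.γ (-s)).im := by
      intro s
      rw [pf_rv_d]
      change (conj (c.γ (-s)) * -deriv c.γ (-s)).im = _
      rw [mul_neg, Complex.neg_im]
    simp_rw [h1]
    rw [intervalIntegral.integral_neg, pf_rv_per hp]
    ring
  · intro z
    unfold wd
    change (2 * π * Complex.I)⁻¹ * ∫ s in (0:ℝ)..c.L, deriv (rev c).γ s / ((rev c).γ s - z) = _
    have hp : Function.Periodic (fun s => deriv c.γ s / (c.γ s - z)) c.L := by
      intro s
      change deriv c.γ (s + c.L) / (c.γ (s + c.L) - z) = _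
      rw [c.periodic s, c.periodic' s]
    have h1 : ∀ s, deriv (rev c).γ s / ((rev c).γ s - z) =
        -(deriv c.γ (-s) / (c.γ (-s) - z)) := by
      intro s
      rw [pf_rv_d]
      change -deriv c.γ (-s) / (c.γ (-s) - z) = _
      rw [neg_div]
    simp_rw [h1]
    rw [intervalIntegral.integral_neg, pf_rv_per hp]
    ring
  · intro ε
    constructor
    · ext z
      constructor
      · rintro ⟨s, u, h1, h2, rfl⟩
        exact ⟨-s, -u, by linarith, by linarith, hPs s u⟩
      · rintro ⟨s, u, h1, h2, rfl⟩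
        refine ⟨-s, -u, by linarith, by linarith, ?_⟩
        rw [hPs, neg_neg, neg_neg]
    · ext z
      constructor
      · rintro ⟨s, u, h1, h2, rfl⟩
        exact ⟨-s, -u, by linarith, by linarith, hPs s u⟩
      · rintro ⟨s, u, h1, h2, rfl⟩
        refine ⟨-s, -u, by linarith, by linarith, ?_⟩
        rw [hPs, neg_neg, neg_neg]

end Pool.Agent.H212AN

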