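import Pool.Agent.H212AN.D0

set_option autoImplicit false

namespace Pool.Agent.H212AN

open MeasureTheory Set Filter Topology Metric
open scoped Real ENNReal

/-- a continuous midpoint concave function is concave -/
theorem pf_sc_mid (f : ℝ → ℝ) (hf : Continuous f)
    (hm : ∀ x h, f (x + h) + f (x - h) ≤ 2 * f x) : ConcaveOn ℝ univ f := by
  have key : ∀ x y : ℝ, x < y → ∀ t ∈ Icc x y,
      f x + (t - x) * ((f y - f x) / (y - x)) ≤ f t := by
    intro x y hxy
    set c := (f y - f x) / (y - x) with hc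
    have hyx : 0 < y - x := by linarith
    have hcc : (y - x) * c = f y - f x := by
      rw [hc]; field_simp
    set g : ℝ → ℝ := fun t => f t - (f x + (t - x) * c) with hg
    have hgc : Continuous g := by
      rw [hg]; fun_prop
    have hgm : ∀ t h, g (t + h) + g (t - h) ≤ 2 * g t := by
      intro t h
      have := hm t h
      simp only [hg]
      linarith [this]
    have hgx : g x = 0 := by simp [hg]
    have hgy : g y = 0 := by
      simp only [hg]; linarith [hcc]
    obtain ⟨t₁, ht₁, hmin⟩ := isCompact_Icc.exists_isMinOn (nonempty_Icc.2 hxy.le) hgc.continuousOn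
    have hmin' : ∀ s ∈ Icc x y, g t₁ ≤ g s := fun s hs => hmin hs
    have hpos : 0 ≤ g t₁ := by
      by_contra hneg
      push Not at hneg
      set A : Set ℝ := Icc x y ∩ g ⁻¹' {g t₁} with hA
      have hAc : IsCompact A :=
        isCompact_Icc.inter_right (isClosed_singleton.preimage hgc)
      obtain ⟨t₀, ht₀A, ht₀⟩ := hAc.exists_isLeast ⟨t₁, ht₁, rfl⟩
      have ht₀I : t₀ ∈ Icc x y := ht₀A.1
      have ht₀g : g t₀ = g t₁ := ht₀A.2
      have h1 : x < t₀ := lt_of_le_of_ne ht₀I.1 (by rintro rfl; linarith)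
      have h2 : t₀ < y := lt_of_le_of_ne ht₀I.2 (by rintro rfl; linarith)
      set h := min (t₀ - x) (y - t₀) with hh
      have hh0 : 0 < h := lt_min (by linarith) (by linarith)
      have hh1 : h ≤ t₀ - x := min_le_left _ _
      have hh2 : h ≤ y - t₀ := min_le_right _ _
      have ha : t₀ + h ∈ Icc x y := ⟨by linarith, by linarith⟩
      have hb : t₀ - h ∈ Icc x y := ⟨by linarith, by linarith⟩
      have e1 := hmin' _ ha
      have e2 := hmin' _ hb
      have e3 := hgm t₀ h
      have e4 : g (t₀ - h) = g t₁ := by linarith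
      have := ht₀ ⟨hb, e4⟩
      linarith
    intro t ht
    have := hmin' t ht
    simp only [hg] at this hpos
    linarith
  refine ⟨convex_univ, ?_⟩
  intro x _ y _ a b ha hb hab
  simp only [smul_eq_mul]
  have main : ∀ x y a b : ℝ, x < y → 0 ≤ a → 0 ≤ b → a + b = 1 →
      a * f x + b * f y ≤ f (a * x + b * y) := by
    intro x y a b hxy ha hb hab
    have hyx : 0 < y - x := by linarith
    have hb' : a = 1 - b := by linarith
    have ht : a * x + b * y ∈ Icc x y := by
      have p1 : 0 ≤ b * (y - x) := mul_nonneg hb hyx.le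
      have p2 : 0 ≤ a * (y - x) := mul_nonneg ha hyx.le
      constructor
      · have : a * x + b * y = x + b * (y - x) := by rw [hb']; ring
        linarith
      · have : a * x + b * y = y - a * (y - x) := by rw [hb']; ring
        linarith
    have := key x y hxy _ ht
    have e : (a * x + b * y - x) * ((f y - f x) / (y - x)) = b * (f y - f x) := by
      rw [hb']; field_simp; ring
    rw [e] at this
    rw [hb'] at this ⊢
    linarith
  rcases lt_trichotomy x y with h | h | h
  · exact main x y a b h ha hb hab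
  · subst h
    have : a * x + b * x = x := by rw [← add_mul, hab, one_mul]
    rw [this, ← add_mul, hab, one_mul]
  · have := main y x b a h hb ha (by linarith)
    rw [add_comm (a * f x), add_comm (a * x)]
    exact this

theorem pf_sc (h1 : S_hs) (h2 : S_er) : S_sc := by
  intro K ρ R hK hρ hR
  obtain ⟨hEc, hEx, hEb, hw, -, -⟩ := h2 K ρ R hK hρ hR
  obtain ⟨-, -, -, hKl, -, hKc, -⟩ := h1 K ρ hK.1 ⟨0, hK.2.1⟩ hK.2.2
  have hR0 : 0 < R := by linarith
  have hE0 : (0:ℂ) ∈ er K R := hEb (by simp; linarith)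
  obtain ⟨r, hr⟩ := hEc.isBounded.subset_closedBall 0
  obtain ⟨-, -, -, hEl, -, hEcc, -⟩ := h1 (er K R) r hEc ⟨0, hE0⟩ hr
  have hwc : Continuous (ww K R) := by
    have : ww K R = fun θ => R - hs K θ - hs (er K R) θ := rfl
    rw [this]
    exact (continuous_const.sub hKl.continuous).sub hEl.continuous
  have hmid : ∀ θ φ, ww K R (θ + φ) + ww K R (θ - φ) - 2 * ww K R θ ≤ R * φ ^ 2 := by
    intro θ φ
    have a1 := hKc θ φ
    have a2 := hEcc θ φ
    have a3 := (hw θ).1
    have a4 := Real.one_sub_sq_div_two_le_cos (x := φ)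
    have a5 := Real.cos_le_one φ
    have e : ww K R (θ + φ) + ww K R (θ - φ) - 2 * ww K R θ ≤
        2 * (1 - Real.cos φ) * (R - ww K R θ) := by
      simp only [ww] at *
      nlinarith
    have e2 : 2 * (1 - Real.cos φ) * (R - ww K R θ) ≤ 2 * (1 - Real.cos φ) * R := by
      apply mul_le_mul_of_nonneg_left
      · linarith
      · linarith
    have e3 : 2 * (1 - Real.cos φ) * R ≤ R * φ ^ 2 := by
      nlinarith
    linarith
  have hconc : ConcaveOn ℝ univ (fun θ => ww K R θ - R * θ ^ 2 / 2) := by
    apply pf_sc_mid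
    · fun_prop
    · intro x h
      have := hmid x h
      nlinarith
  -- the main inequality
  have hmain : ∀ θ s ε : ℝ, 0 < ε → ε * ww K R (θ + s) + ww K R (θ - ε * s) ≤
      (1 + ε) * ww K R θ + R / 2 * (ε * s ^ 2 + ε ^ 2 * s ^ 2) := by
    intro θ s ε hε
    have h1e : 0 < 1 + ε := by linarith
    have q1 : 0 ≤ ε / (1 + ε) := by positivity
    have q2 : 0 ≤ 1 / (1 + ε) := by positivity
    have q3 : ε / (1 + ε) + 1 / (1 + ε) = 1 := by field_simp; ring
    have := hconc.2 (mem_univ (θ + s)) (mem_univ (θ - ε * s)) q1 q2 q3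
    have e : (ε / (1 + ε)) • (θ + s) + (1 / (1 + ε)) • (θ - ε * s) = θ := by
      simp only [smul_eq_mul]; field_simp; ring
    rw [e] at this
    simp only [smul_eq_mul] at this
    have h3 := mul_le_mul_of_nonneg_left this h1e.le
    have e4 : (1 + ε) * (ε / (1 + ε) * (ww K R (θ + s) - R * (θ + s) ^ 2 / 2) +
        1 / (1 + ε) * (ww K R (θ - ε * s) - R * (θ - ε * s) ^ 2 / 2)) =
        ε * (ww K R (θ + s) - R * (θ + s) ^ 2 / 2) +
        (ww K R (θ - ε * s) - R * (θ - ε * s) ^ 2 / 2) := by
      field_simp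
    rw [e4] at h3
    nlinarith
  refine ⟨hconc, ?_, ?_⟩
  · intro θ
    by_cases hd : DifferentiableAt ℝ (ww K R) θ
    · set d := deriv (ww K R) θ with hdd
      have hd' : HasDerivAt (ww K R) d θ := hd.hasDerivAt
      have hs : ∀ s : ℝ, ww K R (θ + s) ≤ ww K R θ + d * s + R / 2 * s ^ 2 := by
        intro s
        -- limit ε → 0+
        have hder : HasDerivAt (fun ε : ℝ => ww K R (θ - ε * s)) (d * (-s)) 0 := by
          have hin : HasDerivAt (fun ε : ℝ => θ - ε * s) (-s) 0 := by
            have := ((hasDerivAt_id (0:ℝ)).mul_const s).const_sub θ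
            simpa using this
          have hd0 : HasDerivAt (ww K R) d ((fun ε : ℝ => θ - ε * s) 0) := by simpa using hd'
          exact hd0.comp 0 hin
        have hlim : Tendsto (fun ε : ℝ => ε⁻¹ • ((fun ε : ℝ => ww K R (θ - ε * s)) (0 + ε) -
            (fun ε : ℝ => ww K R (θ - ε * s)) 0)) (𝓝[>] 0) (𝓝 (d * (-s))) := by
          exact hder.tendsto_slope_zero_right
        have hlim2 : Tendsto (fun ε : ℝ => ww K R θ - ε⁻¹ • ((fun ε : ℝ => ww K R (θ - ε * s)) (0 + ε) -
            (fun ε : ℝ => ww K R (θ - ε * s)) 0) + R / 2 * (s ^ 2 + ε * s ^ 2)) (𝓝[>] 0)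
            (𝓝 (ww K R θ - d * (-s) + R / 2 * (s ^ 2 + 0 * s ^ 2))) := by
          apply Tendsto.add
          · exact tendsto_const_nhds.sub hlim
          · have hc : Continuous (fun ε : ℝ => R / 2 * (s ^ 2 + ε * s ^ 2)) := by fun_prop
            exact (hc.tendsto 0).mono_left nhdsWithin_le_nhds
        have hge := ge_of_tendsto (b := ww K R (θ + s)) hlim2 (by
          filter_upwards [self_mem_nhdsWithin] with ε hε
          have hε' : 0 < ε := hε
          have := hmain θ s ε hε'
          simp only [zero_add, smul_eq_mul, zero_mul, sub_zero]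
          have e : ww K R θ - ε⁻¹ * (ww K R (θ - ε * s) - ww K R θ) + R / 2 * (s ^ 2 + ε * s ^ 2)
              - ww K R (θ + s) = ε⁻¹ * ((1 + ε) * ww K R θ + R / 2 * (ε * s ^ 2 + ε ^ 2 * s ^ 2) -
              (ε * ww K R (θ + s) + ww K R (θ - ε * s))) := by
            field_simp
            ring
          have : 0 ≤ ε⁻¹ * ((1 + ε) * ww K R θ + R / 2 * (ε * s ^ 2 + ε ^ 2 * s ^ 2) -
              (ε * ww K R (θ + s) + ww K R (θ - ε * s))) := by
            apply mul_nonneg
            · positivity
            · linarith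
          linarith)
        linarith
      have h0 := hs (-d / R)
      have h1 := (hw (θ + -d / R)).1
      have e : ww K R θ + d * (-d / R) + R / 2 * (-d / R) ^ 2 = ww K R θ - d ^ 2 / (2 * R) := by
        field_simp
        ring
      rw [e] at h0
      have : d ^ 2 / (2 * R) ≤ ww K R θ := by linarith
      rw [div_le_iff₀ (by positivity)] at this
      linarith
    · rw [deriv_zero_of_not_differentiableAt hd]
      have := (hw θ).1
      have : 0 ≤ 2 * R * ww K R θ := by positivity
      simpa using this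
  · intro θ₀ θ h0
    set s := θ - θ₀ with hs
    have hθ : θ = θ₀ + s := by rw [hs]; ring
    have hbd : ∀ ε : ℝ, 0 < ε → ww K R θ ≤ R / 2 * (s ^ 2 + ε * s ^ 2) := by
      intro ε hε
      have a := hmain θ₀ s ε hε
      rw [h0] at a
      have b := (hw (θ₀ - ε * s)).1
      rw [hθ]
      have c : ε * ww K R (θ₀ + s) ≤ ε * (R / 2 * (s ^ 2 + ε * s ^ 2)) := by nlinarith
      exact le_of_mul_le_mul_left c hε
    have hc : Continuous (fun ε : ℝ => R / 2 * (s ^ 2 + ε * s ^ 2)) := by fun_prop
    have hlim : Tendsto (fun ε : ℝ => R / 2 * (s ^ 2 + ε * s ^ 2)) (𝓝[>] 0)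
        (𝓝 (R / 2 * (s ^ 2 + 0 * s ^ 2))) :=
      (hc.tendsto 0).mono_left nhdsWithin_le_nhds
    have := ge_of_tendsto (b := ww K R θ) hlim (by
      filter_upwards [self_mem_nhdsWithin] with ε hε
      exact hbd ε hε)
    linarith

end Pool.Agent.H212AN
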