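import Pool.Agent.H212AN.D2

set_option autoImplicit false

namespace Pool.Agent.H212AN

open MeasureTheory Set Filter Topology Metric
open Pool.Agent.W594.AN (ClosedCurve)
open scoped Real ENNReal ComplexConjugate

theorem pf_sd_mod (c : ClosedCurve) (s : ℝ) : ∃ s' ∈ Ico 0 c.L, ∀ u, Ps c s' u = Ps c s u := by
  refine ⟨toIcoMod c.L_pos 0 s, ?_, ?_⟩
  · have := toIcoMod_mem_Ico c.L_pos 0 s
    simpa using this
  · intro u
    have h1 : c.γ (toIcoMod c.L_pos 0 s) = c.γ s := by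
      rw [toIcoMod]
      exact c.periodic.sub_zsmul_eq _
    have h2 : deriv c.γ (toIcoMod c.L_pos 0 s) = deriv c.γ s := by
      rw [toIcoMod]
      exact c.periodic'.sub_zsmul_eq _
    unfold Ps
    rw [h1, h2]

theorem pf_sd_disj (c : ClosedCurve) {ε₁ ε : ℝ} (hε : ε ≤ ε₁)
    (h : ∀ s s' u u' : ℝ, s ∈ Ico 0 c.L → s' ∈ Ico 0 c.L → |u| < ε₁ → |u'| < ε₁ →
      Ps c s u = Ps c s' u' → s = s' ∧ u = u') : Disjoint (LT c ε) (RT c ε) := by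
  rw [Set.disjoint_left]
  rintro z ⟨s, u, hu, huε, rfl⟩ ⟨s', u', hu', huε', he⟩
  obtain ⟨t, ht, ht2⟩ := pf_sd_mod c s
  obtain ⟨t', ht', ht2'⟩ := pf_sd_mod c s'
  rw [← ht2, ← ht2'] at he
  have := (h t t' u u' ht ht' (by rw [abs_of_pos hu]; linarith)
    (by rw [abs_of_neg huε']; linarith) he).2
  linarith

theorem pf_sd_norm (c : ClosedCurve) (s x y ε₀ : ℝ) (h0 : 0 < ε₀) (hx : |x| ≤ ε₀ / 2)
    (hy : |y| ≤ ε₀ / 2) : infDist (fr c s x y) (range c.γ) < ε₀ := by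
  refine lt_of_le_of_lt (infDist_le_dist_of_mem (mem_range_self s)) ?_
  rw [dist_eq_norm]
  have e : fr c s x y - c.γ s = ((x : ℂ) + Complex.I * (y : ℂ)) * deriv c.γ s := by
    unfold fr; ring
  rw [e, norm_mul, c.unit_speed s, mul_one]
  have h1 : ‖(x : ℂ) + Complex.I * (y : ℂ)‖ ^ 2 = x ^ 2 + y ^ 2 := by
    rw [← Complex.normSq_eq_norm_sq, Complex.normSq_apply]
    simp
    ring
  have h2 : x ^ 2 ≤ (ε₀ / 2) ^ 2 := by
    rw [← sq_abs x]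
    exact pow_le_pow_left₀ (abs_nonneg x) hx 2
  have h3 : y ^ 2 ≤ (ε₀ / 2) ^ 2 := by
    rw [← sq_abs y]
    exact pow_le_pow_left₀ (abs_nonneg y) hy 2
  have h4 : ‖(x : ℂ) + Complex.I * (y : ℂ)‖ ^ 2 < ε₀ ^ 2 := by
    rw [h1]
    nlinarith
  exact lt_of_pow_lt_pow_left₀ 2 h0.le h4

theorem pf_sd_ta (c : ClosedCurve) {C ε₀ s x D : ℝ} (hC : 0 < C) (h0 : 0 < ε₀) (h1 : ε₀ ≤ 1)
    (h2 : C * ε₀ ≤ 1) (hk : |c.curvature s| ≤ C) (hk' : |deriv c.curvature s| ≤ C)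
    (hD : |D| ≤ C) (hx : |x| ≤ ε₀ / 2) : |ta c D s x| < ε₀ / 2 := by
  unfold ta
  have e2 : |x| ^ 2 ≤ (ε₀ / 2) ^ 2 := pow_le_pow_left₀ (abs_nonneg x) hx 2
  have e3 : |x| ^ 3 ≤ (ε₀ / 2) ^ 3 := pow_le_pow_left₀ (abs_nonneg x) hx 3
  have e4 : |x| ^ 4 ≤ (ε₀ / 2) ^ 4 := pow_le_pow_left₀ (abs_nonneg x) hx 4
  have a1 : |c.curvature s / 2 * x ^ 2| ≤ C / 2 * (ε₀ / 2) ^ 2 := by
    rw [abs_mul, abs_div, abs_pow]
    simp only [Nat.abs_ofNat]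
    gcongr
  have a2 : |deriv c.curvature s / 6 * x ^ 3| ≤ C / 6 * (ε₀ / 2) ^ 3 := by
    rw [abs_mul, abs_div, abs_pow]
    simp only [Nat.abs_ofNat]
    gcongr
  have a3 : |D * x ^ 4| ≤ C * (ε₀ / 2) ^ 4 := by
    rw [abs_mul, abs_pow]
    gcongr
  have b1 : C * ε₀ ^ 2 ≤ ε₀ := by nlinarith
  have b2 : C * ε₀ ^ 3 ≤ ε₀ := by
    have : C * ε₀ ^ 3 = (C * ε₀ ^ 2) * ε₀ := by ring
    rw [this]
    nlinarith [mul_nonneg hC.le (sq_nonneg ε₀)]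
  have b3 : C * ε₀ ^ 4 ≤ ε₀ := by
    have : C * ε₀ ^ 4 = (C * ε₀ ^ 3) * ε₀ := by ring
    rw [this]
    nlinarith [mul_nonneg hC.le (pow_nonneg h0.le 3)]
  calc |c.curvature s / 2 * x ^ 2 + deriv c.curvature s / 6 * x ^ 3 + D * x ^ 4|
      ≤ |c.curvature s / 2 * x ^ 2| + |deriv c.curvature s / 6 * x ^ 3| + |D * x ^ 4| := by
        exact abs_add_three _ _ _
    _ ≤ C / 2 * (ε₀ / 2) ^ 2 + C / 6 * (ε₀ / 2) ^ 3 + C * (ε₀ / 2) ^ 4 := by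
        gcongr
    _ = (C * ε₀ ^ 2) / 8 + (C * ε₀ ^ 3) / 48 + (C * ε₀ ^ 4) / 16 := by ring
    _ < ε₀ / 2 := by linarith

theorem pf_sd (h1 : S_lg) (h2 : S_tb) : S_sd := by
  intro c
  obtain ⟨εa, C, hεa, hC, hbd, hlg⟩ := h1 c
  obtain ⟨εb, hεb, hinj, hdist, hcov, hopen⟩ := h2 c
  refine ⟨min (min εa εb) (min 1 (1 / C)), C, by positivity, hC, hbd, ?_⟩
  intro ε₀ h0 hε s x y hx hy
  have ha : ε₀ ≤ εa := hε.trans ((min_le_left _ _).trans (min_le_left _ _))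
  have hb : ε₀ ≤ εb := hε.trans ((min_le_left _ _).trans (min_le_right _ _))
  have hone : ε₀ ≤ 1 := hε.trans ((min_le_right _ _).trans (min_le_left _ _))
  have hCC : C * ε₀ ≤ 1 := by
    have : ε₀ ≤ 1 / C := hε.trans ((min_le_right _ _).trans (min_le_right _ _))
    rw [le_div_iff₀ hC] at this
    linarith
  obtain ⟨hLo, hRo, -, -⟩ := hopen ε₀ h0 hb
  have hdisj := pf_sd_disj c hb hinj
  -- points near the curve
  have key : ∀ x y : ℝ, |x| ≤ ε₀ / 2 → |y| ≤ ε₀ / 2 → fr c s x y ∉ range c.γ →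
      fr c s x y ∈ LT c ε₀ ∪ RT c ε₀ := by
    intro x y hx hy hn
    have hd := pf_sd_norm c s x y ε₀ h0 hx hy
    obtain ⟨s', -, u, hu, hz⟩ := hcov (fr c s x y) (hd.trans_le hb)
    rw [hz, hdist s' u hu] at hd
    have hd' := abs_lt.1 hd
    rcases lt_trichotomy u 0 with h | h | h
    · exact Or.inr ⟨s', u, hd'.1, h, hz⟩
    · exfalso
      apply hn
      rw [hz, h]
      exact ⟨s', by unfold Ps; simp⟩
    · exact Or.inl ⟨s', u, h, hd'.2, hz⟩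
  have key1 : ∀ x y : ℝ, |x| ≤ ε₀ / 2 → |y| ≤ ε₀ / 2 → ta c C s x < y →
      fr c s x y ∈ LT c ε₀ ∪ RT c ε₀ := by
    intro x y hx hy hlt
    refine key x y hx hy ?_
    rintro ⟨s', hs'⟩
    exact absurd (hlg s s' x y (by linarith) (by linarith) hs').2 (not_le.2 hlt)
  have key2 : ∀ x y : ℝ, |x| ≤ ε₀ / 2 → |y| ≤ ε₀ / 2 → y < ta c (-C) s x →
      fr c s x y ∈ LT c ε₀ ∪ RT c ε₀ := by
    intro x y hx hy hlt
    refine key x y hx hy ?_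
    rintro ⟨s', hs'⟩
    exact absurd (hlg s s' x y (by linarith) (by linarith) hs').1 (not_le.2 hlt)
  have hta : ∀ x : ℝ, |x| ≤ ε₀ / 2 → |ta c C s x| < ε₀ / 2 := fun x hx =>
    pf_sd_ta c hC h0 hone hCC (hbd s).1 (hbd s).2 (by rw [abs_of_pos hC]) hx
  have hta' : ∀ x : ℝ, |x| ≤ ε₀ / 2 → |ta c (-C) s x| < ε₀ / 2 := fun x hx =>
    pf_sd_ta c hC h0 hone hCC (hbd s).1 (hbd s).2 (by rw [abs_neg, abs_of_pos hC]) hx
  have hcx : ∀ y : ℝ, Continuous fun x : ℝ => fr c s x y := by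
    intro y
    unfold fr
    fun_prop
  have hcy : ∀ x : ℝ, Continuous fun y : ℝ => fr c s x y := by
    intro x
    unfold fr
    fun_prop
  have hfr0 : ∀ u : ℝ, fr c s 0 u = Ps c s u := by
    intro u
    unfold fr Ps
    simp
  constructor
  · intro hlt
    have hpos : |ε₀ / 2| ≤ ε₀ / 2 := by rw [abs_of_pos (by linarith)]
    have A2 : (fun x : ℝ => fr c s x (ε₀ / 2)) '' Icc (-(ε₀ / 2)) (ε₀ / 2) ⊆ LT c ε₀ := by
      refine IsPreconnected.subset_left_of_subset_union hLo hRo hdisj ?_ ?_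
        (isPreconnected_Icc.image _ (hcx _).continuousOn)
      · rintro _ ⟨t, ht, rfl⟩
        have ht' : |t| ≤ ε₀ / 2 := abs_le.2 ht
        exact key1 t (ε₀ / 2) ht' hpos (lt_of_abs_lt (hta t ht'))
      · refine ⟨fr c s 0 (ε₀ / 2), ⟨0, ⟨by linarith, by linarith⟩, rfl⟩, ?_⟩
        rw [hfr0]
        exact ⟨s, ε₀ / 2, by linarith, by linarith, rfl⟩
    have A1 : (fun y : ℝ => fr c s x y) '' Icc y (ε₀ / 2) ⊆ LT c ε₀ := by
      refine IsPreconnected.subset_left_of_subset_union hLo hRo hdisj ?_ ?_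
        (isPreconnected_Icc.image _ (hcy _).continuousOn)
      · rintro _ ⟨t, ht, rfl⟩
        have ht' : |t| ≤ ε₀ / 2 := abs_le.2 ⟨(abs_le.1 hy).1.trans ht.1, ht.2⟩
        exact key1 x t hx ht' (hlt.trans_le ht.1)
      · exact ⟨fr c s x (ε₀ / 2), ⟨ε₀ / 2, ⟨(abs_le.1 hy).2, le_rfl⟩, rfl⟩,
          A2 ⟨x, abs_le.1 hx, rfl⟩⟩
    exact A1 ⟨y, ⟨le_rfl, (abs_le.1 hy).2⟩, rfl⟩
  · intro hlt
    have hpos : |-(ε₀ / 2)| ≤ ε₀ / 2 := by rw [abs_neg, abs_of_pos (by linarith)]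
    have A2 : (fun x : ℝ => fr c s x (-(ε₀ / 2))) '' Icc (-(ε₀ / 2)) (ε₀ / 2) ⊆ RT c ε₀ := by
      refine IsPreconnected.subset_right_of_subset_union hLo hRo hdisj ?_ ?_
        (isPreconnected_Icc.image _ (hcx _).continuousOn)
      · rintro _ ⟨t, ht, rfl⟩
        have ht' : |t| ≤ ε₀ / 2 := abs_le.2 ht
        exact key2 t (-(ε₀ / 2)) ht' hpos (abs_lt.1 (hta' t ht')).1
      · refine ⟨fr c s 0 (-(ε₀ / 2)), ⟨0, ⟨by linarith, by linarith⟩, rfl⟩, ?_⟩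
        rw [hfr0]
        exact ⟨s, -(ε₀ / 2), by linarith, by linarith, rfl⟩
    have A1 : (fun y : ℝ => fr c s x y) '' Icc (-(ε₀ / 2)) y ⊆ RT c ε₀ := by
      refine IsPreconnected.subset_right_of_subset_union hLo hRo hdisj ?_ ?_
        (isPreconnected_Icc.image _ (hcy _).continuousOn)
      · rintro _ ⟨t, ht, rfl⟩
        have ht' : |t| ≤ ε₀ / 2 := abs_le.2 ⟨ht.1, ht.2.trans (abs_le.1 hy).2⟩
        exact key2 x t hx ht' (ht.2.trans_lt hlt)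
      · exact ⟨fr c s x (-(ε₀ / 2)), ⟨-(ε₀ / 2), ⟨le_rfl, (abs_le.1 hy).1⟩, rfl⟩,
          A2 ⟨x, abs_le.1 hx, rfl⟩⟩
    exact A1 ⟨y, ⟨(abs_le.1 hy).1, le_rfl⟩, rfl⟩

end Pool.Agent.H212AN
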