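import Pool.Agent.H212AN.D0

set_option autoImplicit false

namespace Pool.Agent.H212AN

open MeasureTheory Set Filter Topology Metric
open scoped Real ENNReal

theorem pf_sm_yy_per (θ : ℝ) : yy (θ + 2 * π) = yy θ := by
  ext k; simp [yy]

theorem pf_sm_xx_per (θ : ℝ) : xx (θ + 2 * π) = xx θ := by
  ext k; simp [xx]

theorem pf_sm_xp_per (K : Set ℂ) (θ : ℝ) : xp K (θ + 2 * π) = xp K θ := by
  simp only [xp, face, hs, pf_sm_yy_per, pf_sm_xx_per]

theorem pf_sm_yy_cont : Continuous (fun p : ℝ × ℂ => yy p.1 p.2) := by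
  unfold yy
  fun_prop

theorem pf_sm_xx_cont : Continuous (fun p : ℝ × ℂ => xx p.1 p.2) := by
  unfold xx
  fun_prop

theorem pf_sm_yy_cont1 (k : ℂ) : Continuous (fun θ => yy θ k) := by
  unfold yy
  fun_prop

theorem pf_sm_int (k : ℂ) (a b : ℝ) : ∫ u in a..b, yy u k = xx a k - xx b k := by
  have hd : ∀ u : ℝ, HasDerivAt (fun u => -xx u k) (yy u k) u := by
    intro u
    have h := (((Real.hasDerivAt_cos u).const_mul k.im).sub
      ((Real.hasDerivAt_sin u).const_mul k.re)).neg
    unfold xx yy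
    convert! h using 1
    ring
  rw [intervalIntegral.integral_eq_sub_of_hasDerivAt (fun u _ => hd u)
    ((pf_sm_yy_cont1 k).intervalIntegrable a b)]
  ring

theorem pf_sm_rot (τ φ : ℝ) (k : ℂ) :
    yy (τ + φ) k = Real.cos φ * yy τ k + Real.sin φ * xx τ k := by
  unfold yy xx
  rw [Real.cos_add, Real.sin_add]
  ring

theorem pf_sm_xx_sub (τ : ℝ) (p q : ℂ) : xx τ (q - p) = xx τ q - xx τ p := by
  unfold xx; simp; ring

theorem pf_sm_yy_sub (τ : ℝ) (p q : ℂ) : yy τ (q - p) = yy τ q - yy τ p := by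
  unfold yy; simp; ring

/-- the main inequality -/
theorem pf_sm_key (h1 : S_hs) (K : Set ℂ) (hK : IsCompact K) (hne : K.Nonempty) (θ θ' : ℝ)
    (hlt : θ < θ') (hpi : θ' < θ + π) :
    xp K θ ≤ xm K θ' + ∫ u in θ..θ', hs K u := by
  obtain ⟨ρ, hρ⟩ := hK.isBounded.subset_closedBall (0 : ℂ)
  obtain ⟨-, hle, -, hlip, -, -, -, -, hxp, hxm, -, -, -⟩ := h1 K ρ hK hne hρ
  obtain ⟨p, hp, hpx⟩ := hxp θ
  obtain ⟨q, hq, hqx⟩ := hxm θ'
  have hcont : Continuous (hs K) := hlip.continuous
  have e1 : yy θ (q - p) ≤ 0 := by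
    rw [pf_sm_yy_sub, hp.2]; linarith [hle θ q hq.1]
  have e2 : 0 ≤ yy θ' (q - p) := by
    rw [pf_sm_yy_sub, hq.2]; linarith [hle θ' p hp.1]
  obtain ⟨τ, hτ, hτ0⟩ : ∃ τ ∈ Icc θ θ', yy τ (q - p) = 0 := by
    have := intermediate_value_Icc hlt.le (pf_sm_yy_cont1 (q - p)).continuousOn
    exact this ⟨e1, e2⟩
  have e3 : 0 ≤ xx τ (q - p) := by
    have f1 : yy θ (q - p) = Real.sin (θ - τ) * xx τ (q - p) := by
      have := pf_sm_rot τ (θ - τ) (q - p)
      rw [hτ0, mul_zero, zero_add, add_sub_cancel] at this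
      exact this
    have f2 : yy θ' (q - p) = Real.sin (θ' - τ) * xx τ (q - p) := by
      have := pf_sm_rot τ (θ' - τ) (q - p)
      rw [hτ0, mul_zero, zero_add, add_sub_cancel] at this
      exact this
    rcases eq_or_lt_of_le hτ.2 with h | h
    · -- τ = θ'
      have hs' : Real.sin (θ - τ) < 0 := by
        apply Real.sin_neg_of_neg_of_neg_pi_lt <;> linarith
      rw [f1] at e1
      by_contra hc
      push Not at hc
      nlinarith
    · have hs' : 0 < Real.sin (θ' - τ) := by
        apply Real.sin_pos_of_pos_of_lt_pi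
        · linarith
        · linarith [hτ.1]
      rw [f2] at e2
      by_contra hc
      push Not at hc
      nlinarith
  have e4 : ∫ u in θ..τ, yy u p ≤ ∫ u in θ..τ, hs K u :=
    intervalIntegral.integral_mono_on hτ.1 ((pf_sm_yy_cont1 p).intervalIntegrable _ _)
      (hcont.intervalIntegrable _ _) (fun u _ => hle u p hp.1)
  have e5 : ∫ u in τ..θ', yy u q ≤ ∫ u in τ..θ', hs K u :=
    intervalIntegral.integral_mono_on hτ.2 ((pf_sm_yy_cont1 q).intervalIntegrable _ _)
      (hcont.intervalIntegrable _ _) (fun u _ => hle u q hq.1)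
  have e6 : (∫ u in θ..τ, hs K u) + ∫ u in τ..θ', hs K u = ∫ u in θ..θ', hs K u :=
    intervalIntegral.integral_add_adjacent_intervals (hcont.intervalIntegrable _ _)
      (hcont.intervalIntegrable _ _)
  rw [pf_sm_int] at e4 e5
  rw [pf_sm_xx_sub] at e3
  linarith

/-- upper semicontinuity -/
theorem pf_sm_usc (h1 : S_hs) (K : Set ℂ) (hK : IsCompact K) (hne : K.Nonempty) (c : ℝ) :
    IsClosed {u : ℝ | c ≤ xp K u} ∧ IsClosed {u : ℝ | xm K u ≤ c} := by
  obtain ⟨ρ, hρ⟩ := hK.isBounded.subset_closedBall (0 : ℂ)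
  obtain ⟨-, hle, -, hlip, -, -, -, -, hxp, hxm, hfa, -, -⟩ := h1 K ρ hK hne hρ
  have hcont : Continuous (hs K) := hlip.continuous
  have : CompactSpace K := isCompact_iff_compactSpace.1 hK
  have hc1 : Continuous (fun p : ℝ × K => yy p.1 p.2) :=
    pf_sm_yy_cont.comp (continuous_fst.prodMk (continuous_subtype_val.comp continuous_snd))
  have hc2 : Continuous (fun p : ℝ × K => xx p.1 p.2) :=
    pf_sm_xx_cont.comp (continuous_fst.prodMk (continuous_subtype_val.comp continuous_snd))
  constructor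
  · have h2 : {u : ℝ | c ≤ xp K u} =
        Prod.fst '' {p : ℝ × K | yy p.1 p.2 = hs K p.1 ∧ c ≤ xx p.1 p.2} := by
      ext u
      constructor
      · intro hu
        obtain ⟨k, hk, hkx⟩ := hxp u
        exact ⟨(u, ⟨k, hk.1⟩), ⟨hk.2, by rw [hkx]; exact hu⟩, rfl⟩
      · rintro ⟨⟨u', k⟩, ⟨hk1, hk2⟩, rfl⟩
        exact le_trans hk2 (hfa u' k ⟨k.2, hk1⟩).2
    rw [h2]
    apply isClosedMap_fst_of_compactSpace
    exact (isClosed_eq hc1 (hcont.comp continuous_fst)).inter (isClosed_le continuous_const hc2)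
  · have h2 : {u : ℝ | xm K u ≤ c} =
        Prod.fst '' {p : ℝ × K | yy p.1 p.2 = hs K p.1 ∧ xx p.1 p.2 ≤ c} := by
      ext u
      constructor
      · intro hu
        obtain ⟨k, hk, hkx⟩ := hxm u
        exact ⟨(u, ⟨k, hk.1⟩), ⟨hk.2, by rw [hkx]; exact hu⟩, rfl⟩
      · rintro ⟨⟨u', k⟩, ⟨hk1, hk2⟩, rfl⟩
        exact le_trans (hfa u' k ⟨k.2, hk1⟩).1 hk2
    rw [h2]
    apply isClosedMap_fst_of_compactSpace
    exact (isClosed_eq hc1 (hcont.comp continuous_fst)).inter (isClosed_le hc2 continuous_const)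

/-- the distribution function -/
noncomputable def pf_sm_sig (K : Set ℂ) (θ : ℝ) : ℝ := xp K θ + ∫ u in (0 : ℝ)..θ, hs K u

theorem pf_sm_local_mono (f : ℝ → ℝ) (h : ∀ x y, x ≤ y → y ≤ x + 1 → f x ≤ f y) : Monotone f := by
  have key : ∀ n : ℕ, ∀ x y : ℝ, x ≤ y → y ≤ x + n → f x ≤ f y := by
    intro n
    induction n with
    | zero =>
      intro x y hx hy
      have : x = y := by push_cast at hy; linarith
      rw [this]
    | succ n ih =>
      intro x y hx hy
      by_cases h2 : y ≤ x + n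
      · exact ih x y hx h2
      · push_cast at hy
        have h3 : x ≤ x + n := by
          have : (0 : ℝ) ≤ n := Nat.cast_nonneg n
          linarith
        exact (ih x (x + n) h3 le_rfl).trans (h _ _ (by linarith) (by linarith))
  intro x y hxy
  obtain ⟨n, hn⟩ := exists_nat_ge (y - x)
  exact key n x y hxy (by linarith)

theorem pf_sm_mono (h1 : S_hs) (K : Set ℂ) (hK : IsCompact K) (hne : K.Nonempty) :
    Monotone (pf_sm_sig K) ∧
    (∀ θ θ', θ < θ' → θ' < θ + π → pf_sm_sig K θ ≤ xm K θ' + ∫ u in (0 : ℝ)..θ', hs K u) := by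
  obtain ⟨ρ, hρ⟩ := hK.isBounded.subset_closedBall (0 : ℂ)
  obtain ⟨-, hle, -, hlip, -, -, -, -, hxp, hxm, hfa, -, -⟩ := h1 K ρ hK hne hρ
  have hcont : Continuous (hs K) := hlip.continuous
  have h2 : ∀ θ θ', θ < θ' → θ' < θ + π →
      pf_sm_sig K θ ≤ xm K θ' + ∫ u in (0 : ℝ)..θ', hs K u := by
    intro θ θ' h h'
    have k1 := pf_sm_key h1 K hK hne θ θ' h h'
    have k2 : (∫ u in (0 : ℝ)..θ, hs K u) + ∫ u in θ..θ', hs K u = ∫ u in (0 : ℝ)..θ', hs K u :=
      intervalIntegral.integral_add_adjacent_intervals (hcont.intervalIntegrable _ _)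
        (hcont.intervalIntegrable _ _)
    unfold pf_sm_sig
    linarith
  refine ⟨?_, h2⟩
  apply pf_sm_local_mono
  intro x y hxy hy
  rcases eq_or_lt_of_le hxy with rfl | hlt
  · exact le_rfl
  · refine (h2 x y hlt (by linarith [Real.pi_gt_three])).trans ?_
    obtain ⟨k, hk, hkx⟩ := hxp y
    have := (hfa y k hk).1
    unfold pf_sm_sig
    linarith

theorem pf_sm_right (h1 : S_hs) (K : Set ℂ) (hK : IsCompact K) (hne : K.Nonempty) (θ : ℝ) :
    ContinuousWithinAt (pf_sm_sig K) (Ici θ) θ := by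
  obtain ⟨ρ, hρ⟩ := hK.isBounded.subset_closedBall (0 : ℂ)
  obtain ⟨-, hle, -, hlip, -, -, -, -, hxp, hxm, hfa, -, -⟩ := h1 K ρ hK hne hρ
  have hcont : Continuous (hs K) := hlip.continuous
  have hH : Continuous (fun θ => ∫ u in (0 : ℝ)..θ, hs K u) :=
    intervalIntegral.continuous_primitive (fun a b => hcont.intervalIntegrable a b) 0
  rw [ContinuousWithinAt, tendsto_order]
  constructor
  · intro a ha
    filter_upwards [self_mem_nhdsWithin] with u hu
    exact lt_of_lt_of_le ha ((pf_sm_mono h1 K hK hne).1 hu)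
  · intro a ha
    set ε := (a - pf_sm_sig K θ) / 2 with hε
    have hε0 : 0 < ε := by rw [hε]; linarith
    have e1 : ∀ᶠ u in 𝓝 θ, xp K u < xp K θ + ε := by
      have hcl := (pf_sm_usc h1 K hK hne (xp K θ + ε)).1
      have : θ ∈ {u : ℝ | xp K θ + ε ≤ xp K u}ᶜ := by simp; exact hε0
      filter_upwards [hcl.isOpen_compl.mem_nhds this] with u hu
      simpa using hu
    have e2 : ∀ᶠ u in 𝓝 θ, (∫ t in (0 : ℝ)..u, hs K t) < (∫ t in (0 : ℝ)..θ, hs K t) + ε :=
      hH.continuousAt.eventually_lt continuousAt_const (by linarith)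
    apply mem_nhdsWithin_of_mem_nhds
    filter_upwards [e1, e2] with u hu1 hu2
    have : a = pf_sm_sig K θ + 2 * ε := by rw [hε]; ring
    rw [this]
    unfold pf_sm_sig at *
    linarith

theorem pf_sm_left (h1 : S_hs) (K : Set ℂ) (hK : IsCompact K) (hne : K.Nonempty) (θ : ℝ) :
    Function.leftLim (pf_sm_sig K) θ = xm K θ + ∫ u in (0 : ℝ)..θ, hs K u := by
  obtain ⟨ρ, hρ⟩ := hK.isBounded.subset_closedBall (0 : ℂ)
  obtain ⟨-, hle, -, hlip, -, -, -, -, hxp, hxm, hfa, -, -⟩ := h1 K ρ hK hne hρ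
  have hcont : Continuous (hs K) := hlip.continuous
  have hH : Continuous (fun θ => ∫ u in (0 : ℝ)..θ, hs K u) :=
    intervalIntegral.continuous_primitive (fun a b => hcont.intervalIntegrable a b) 0
  apply leftLim_eq_of_tendsto
  rw [tendsto_order]
  constructor
  · intro a ha
    set ε := (xm K θ + (∫ u in (0 : ℝ)..θ, hs K u) - a) / 2 with hε
    have hε0 : 0 < ε := by rw [hε]; linarith
    have e1 : ∀ᶠ u in 𝓝 θ, xm K θ - ε < xm K u := by
      have hcl := (pf_sm_usc h1 K hK hne (xm K θ - ε)).2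
      have : θ ∈ {u : ℝ | xm K u ≤ xm K θ - ε}ᶜ := by simp; exact hε0
      filter_upwards [hcl.isOpen_compl.mem_nhds this] with u hu
      simpa using hu
    have e2 : ∀ᶠ u in 𝓝 θ, (∫ t in (0 : ℝ)..θ, hs K t) - ε < (∫ t in (0 : ℝ)..u, hs K t) :=
      continuousAt_const.eventually_lt hH.continuousAt (by linarith)
    apply mem_nhdsWithin_of_mem_nhds
    filter_upwards [e1, e2] with u hu1 hu2
    have h3 : a = xm K θ + (∫ u in (0 : ℝ)..θ, hs K u) - 2 * ε := by rw [hε]; ring
    rw [h3]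
    obtain ⟨k, hk, hkx⟩ := hxp u
    have := (hfa u k hk).1
    unfold pf_sm_sig
    linarith
  · intro a ha
    have : Ioo (θ - 1) θ ∈ 𝓝[<] θ := Ioo_mem_nhdsLT (by linarith)
    filter_upwards [this] with u hu
    exact lt_of_le_of_lt ((pf_sm_mono h1 K hK hne).2 u θ hu.2
      (by linarith [hu.1, Real.pi_gt_three])) ha

/-- the integral of a Lipschitz function with respect to a Stieltjes measure -/
theorem pf_sm_fub (f : StieltjesFunction ℝ) (χ : ℝ → ℝ) (C : NNReal) (hχ : LipschitzWith C χ) :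
    ∫ θ in Ioc 0 (2 * π), χ θ ∂f.measure = χ (2 * π) * (f (2 * π) - f 0) -
      ∫ τ in Ioc 0 (2 * π), deriv χ τ * (Function.leftLim f τ - f 0) := by
  have h2pi : 0 < 2 * π := by positivity
  set A := Ioc (0 : ℝ) (2 * π) with hA
  have hAm : MeasurableSet A := measurableSet_Ioc
  have hSA : f.measure A = ENNReal.ofReal (f (2 * π) - f 0) := f.measure_Ioc _ _
  have hSfin : f.measure A < ⊤ := by rw [hSA]; exact ENNReal.ofReal_lt_top
  have hSf : IsFiniteMeasure (f.measure.restrict A) := ⟨by simpa using hSfin⟩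
  have hVf : IsFiniteMeasure ((volume : Measure ℝ).restrict A) :=
    ⟨by rw [Measure.restrict_apply_univ]; exact measure_Ioc_lt_top⟩
  have hdm : Measurable (deriv χ) := measurable_deriv χ
  have hdb : ∀ τ, ‖deriv χ τ‖ ≤ C := fun τ => norm_deriv_le_of_lipschitz hχ
  -- the kernel
  set F : ℝ → ℝ → ℝ := fun θ τ => (Ioi θ).indicator (deriv χ) τ with hF
  have hFm : Measurable (Function.uncurry F) := by
    have : Function.uncurry F = {p : ℝ × ℝ | p.1 < p.2}.indicator (fun p => deriv χ p.2) := by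
      ext ⟨θ, τ⟩
      simp [hF, Function.uncurry, indicator]
    rw [this]
    exact (hdm.comp measurable_snd).indicator (measurableSet_lt measurable_fst measurable_snd)
  have hFb : ∀ p : ℝ × ℝ, ‖Function.uncurry F p‖ ≤ C := by
    rintro ⟨θ, τ⟩
    simp only [hF, Function.uncurry, indicator]
    split_ifs
    · exact hdb τ
    · simp
  have hFi : Integrable (Function.uncurry F)
      ((f.measure.restrict A).prod ((volume : Measure ℝ).restrict A)) :=
    Integrable.of_bound hFm.aestronglyMeasurable C (Eventually.of_forall hFb)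
  have hac : ∀ a b : ℝ, AbsolutelyContinuousOnInterval χ a b := fun a b =>
    (hχ.lipschitzOnWith (s := uIcc a b)).absolutelyContinuousOnInterval
  -- expression of `χ`
  have e1 : ∀ θ ∈ A, χ θ = χ (2 * π) - ∫ τ in A, F θ τ := by
    intro θ hθ
    have e2 : ∫ τ in A, F θ τ = ∫ τ in θ..(2 * π), deriv χ τ := by
      rw [hF]
      simp only
      rw [integral_indicator measurableSet_Ioi, Measure.restrict_restrict measurableSet_Ioi,
        intervalIntegral.integral_of_le hθ.2]
      congr 2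
      ext τ
      simp only [hA, mem_inter_iff, mem_Ioi, mem_Ioc]
      constructor
      · rintro ⟨h1, h2, h3⟩; exact ⟨h1, h3⟩
      · rintro ⟨h1, h2⟩; exact ⟨h1, lt_trans hθ.1 h1, h2⟩
    rw [e2, (hac θ (2 * π)).integral_deriv_eq_sub]
    ring
  have e3 : ∫ θ in A, χ θ ∂f.measure = ∫ θ in A, (χ (2 * π) - ∫ τ in A, F θ τ) ∂f.measure :=
    setIntegral_congr_fun hAm e1
  have hG : Integrable (fun θ => ∫ τ in A, F θ τ) (f.measure.restrict A) := hFi.integral_prod_left
  rw [e3, integral_sub (integrable_const _) hG, integral_integral_swap hFi]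
  have e4 : ∫ _θ in A, χ (2 * π) ∂f.measure = χ (2 * π) * (f (2 * π) - f 0) := by
    rw [integral_const, Measure.real, Measure.restrict_apply_univ, hSA,
      ENNReal.toReal_ofReal (by linarith [f.mono h2pi.le]), smul_eq_mul]
    ring
  rw [e4]
  congr 1
  apply setIntegral_congr_fun hAm
  intro τ hτ
  have e5 : ∀ θ, F θ τ = (Iio τ).indicator (fun _ => deriv χ τ) θ := by
    intro θ
    simp only [hF, indicator, mem_Ioi, mem_Iio]
  simp only [e5]
  rw [integral_indicator measurableSet_Iio, Measure.restrict_restrict measurableSet_Iio]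
  have e6 : Iio τ ∩ A = Ioo 0 τ := by
    ext θ
    simp only [hA, mem_inter_iff, mem_Iio, mem_Ioc, mem_Ioo]
    constructor
    · rintro ⟨h1, h2, h3⟩; exact ⟨h2, h1⟩
    · rintro ⟨h1, h2⟩; exact ⟨h2, h1, by linarith [hτ.2]⟩
  rw [e6, integral_const, Measure.real, Measure.restrict_apply_univ, f.measure_Ioo,
    ENNReal.toReal_ofReal (by linarith [f.mono.le_leftLim hτ.1]), smul_eq_mul]
  ring

theorem pf_sm (h1 : S_hs) : S_sm := by
  intro K hK hne
  obtain ⟨ρ, hρ⟩ := hK.isBounded.subset_closedBall (0 : ℂ)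
  obtain ⟨-, hle, hbd, hlip, hper, -, hdr, hdl, hxp, hxm, hfa, -, -⟩ := h1 K ρ hK hne hρ
  have hcont : Continuous (hs K) := hlip.continuous
  have hint : ∀ a b, IntervalIntegrable (hs K) volume a b := fun a b =>
    hcont.intervalIntegrable a b
  have hadd : ∀ a b : ℝ, (∫ u in (0 : ℝ)..b, hs K u) - ∫ u in (0 : ℝ)..a, hs K u =
      ∫ u in a..b, hs K u := fun a b =>
    intervalIntegral.integral_interval_sub_left (hint _ _) (hint _ _)
  let f : StieltjesFunction ℝ := ⟨pf_sm_sig K, (pf_sm_mono h1 K hK hne).1,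
    fun θ => pf_sm_right h1 K hK hne θ⟩
  have hf : ∀ θ, f θ = xp K θ + ∫ u in (0 : ℝ)..θ, hs K u := fun θ => rfl
  have hfl : ∀ θ, Function.leftLim f θ = xm K θ + ∫ u in (0 : ℝ)..θ, hs K u := fun θ =>
    pf_sm_left h1 K hK hne θ
  refine ⟨f.measure, inferInstance, ?_, ?_, ?_, ?_⟩
  · intro a b _
    rw [f.measure_Ioc, hf, hf, ← hadd a b]
    congr 1
    ring
  · intro a b _
    rw [f.measure_Ioo, hfl, hf, ← hadd a b]
    congr 1
    ring
  · intro θ
    rw [f.measure_singleton, hfl, hf, ell]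
    congr 1
    ring
  · rintro χ ⟨C, hχ⟩ hχp
    have h2pi : 0 < 2 * π := by positivity
    rw [pf_sm_fub f χ C hχ]
    have hxp2 : xp K (2 * π) = xp K 0 := by
      have := pf_sm_xp_per K 0
      rwa [zero_add] at this
    have hχ0 : χ (2 * π) = χ 0 := by
      have := hχp 0
      rwa [zero_add] at this
    have hH0 : ∫ u in (0 : ℝ)..0, hs K u = 0 := intervalIntegral.integral_same
    have e1 : f (2 * π) - f 0 = ∫ u in (0 : ℝ)..(2 * π), hs K u := by
      rw [hf, hf, hxp2, hH0]; ring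
    -- derivative a.e.
    have hae : ∀ᵐ τ, xm K τ = deriv (hs K) τ := by
      filter_upwards [hlip.ae_differentiableAt_real] with τ hτ
      exact UniqueDiffWithinAt.eq_deriv (Iic τ) (uniqueDiffWithinAt_Iic τ) (hdl τ)
        hτ.hasDerivAt.hasDerivWithinAt
    set H : ℝ → ℝ := fun θ => ∫ u in (0 : ℝ)..θ, hs K u with hH
    have hHd : ∀ θ, HasDerivAt H (hs K θ) θ := fun θ =>
      intervalIntegral.integral_hasDerivAt_right (hint _ _)
        (hcont.stronglyMeasurableAtFilter _ _) hcont.continuousAt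
    have hHder : deriv H = hs K := by ext θ; exact (hHd θ).deriv
    have hHcont : Continuous H := by
      rw [continuous_iff_continuousAt]; exact fun θ => (hHd θ).continuousAt
    have hacχ : AbsolutelyContinuousOnInterval χ 0 (2 * π) :=
      (hχ.lipschitzOnWith (s := uIcc 0 (2 * π))).absolutelyContinuousOnInterval
    have hach : AbsolutelyContinuousOnInterval (hs K) 0 (2 * π) :=
      (hlip.lipschitzOnWith (s := uIcc 0 (2 * π))).absolutelyContinuousOnInterval
    have hacH : AbsolutelyContinuousOnInterval H 0 (2 * π) :=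
      (hint 0 (2 * π)).absolutelyContinuousOnInterval_intervalIntegral (by simp [h2pi.le])
    have hparts := hacH.integral_mul_deriv_eq_deriv_mul hacχ
    rw [hHder] at hparts
    have hχd := hacχ.integral_deriv_eq_sub
    have iχ : IntervalIntegrable (deriv χ) volume 0 (2 * π) := hacχ.intervalIntegrable_deriv
    have iχH : IntervalIntegrable (fun τ => H τ * deriv χ τ) volume 0 (2 * π) :=
      iχ.continuousOn_mul hHcont.continuousOn
    have ihd : IntervalIntegrable (fun τ => deriv (hs K) τ * deriv χ τ) volume 0 (2 * π) := by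
      rw [intervalIntegrable_iff, uIoc_of_le h2pi.le]
      apply Measure.integrableOn_of_bounded (M := (Real.toNNReal ρ : ℝ) * C)
        measure_Ioc_lt_top.ne
      · exact ((measurable_deriv _).mul (measurable_deriv _)).aestronglyMeasurable
      · apply Eventually.of_forall
        intro τ
        rw [norm_mul]
        exact mul_le_mul (norm_deriv_le_of_lipschitz hlip) (norm_deriv_le_of_lipschitz hχ)
          (norm_nonneg _) NNReal.zero_le_coe
    have e2 : ∫ τ in Ioc 0 (2 * π), deriv χ τ * (Function.leftLim f τ - f 0) =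
        ∫ τ in (0 : ℝ)..(2 * π), (deriv (hs K) τ * deriv χ τ + H τ * deriv χ τ -
          xp K 0 * deriv χ τ) := by
      rw [intervalIntegral.integral_of_le h2pi.le]
      apply setIntegral_congr_ae measurableSet_Ioc
      filter_upwards [hae] with τ hτ _
      rw [hfl, hf, hH0, hτ]
      ring
    rw [e1, e2, intervalIntegral.integral_sub (ihd.add iχH) (iχ.const_mul _),
      intervalIntegral.integral_add ihd iχH, intervalIntegral.integral_const_mul, hχd, hparts,
      BB, intervalIntegral.integral_sub _ ihd, hχ0]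
    · simp only [hH]
      rw [intervalIntegral.integral_same]
      ring
    · exact (hcont.mul hχ.continuous).intervalIntegrable _ _

end Pool.Agent.H212AN
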