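import Pool.Agent.H212AN.D0

set_option autoImplicit false

namespace Pool.Agent.H212AN

open MeasureTheory Set Filter Topology Metric
open scoped Real ENNReal Pointwise

theorem pf_st_compact_hull {E : Type*} [NormedAddCommGroup E] [NormedSpace ℝ E]
    [FiniteDimensional ℝ E] {s : Set E} (hs : IsCompact s) : IsCompact (convexHull ℝ s) := by
  classical
  rcases s.eq_empty_or_nonempty with rfl | ⟨x0, hx0⟩
  · rw [convexHull_empty]
    exact isCompact_empty
  obtain ⟨n, hn⟩ : ∃ n, n = Module.finrank ℝ E + 1 := ⟨_, rfl⟩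
  have hK : IsCompact ((stdSimplex ℝ (Fin n)) ×ˢ (Set.pi Set.univ (fun _ : Fin n => s))) :=
    (isCompact_stdSimplex ℝ (Fin n)).prod (isCompact_univ_pi fun _ => hs)
  have hcont : Continuous (fun p : (Fin n → ℝ) × (Fin n → E) => ∑ i, p.1 i • p.2 i) := by
    refine continuous_finsetSum _ fun i _ => ?_
    exact ((continuous_apply i).comp continuous_fst).smul ((continuous_apply i).comp continuous_snd)
  have heq : convexHull ℝ s = (fun p : (Fin n → ℝ) × (Fin n → E) => ∑ i, p.1 i • p.2 i) ''
      ((stdSimplex ℝ (Fin n)) ×ˢ (Set.pi Set.univ (fun _ : Fin n => s))) := by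
    apply Set.Subset.antisymm
    · intro x hx
      obtain ⟨ι, hι, z, w, hz, hai, hw0, hw1, hwz⟩ := eq_pos_convex_span_of_mem_convexHull hx
      have hcard : Fintype.card ι ≤ Fintype.card (Fin n) := by
        have h1 := hai.card_le_finrank_succ
        have h2 := Submodule.finrank_le (vectorSpan ℝ (Set.range z))
        rw [Fintype.card_fin, hn]
        omega
      obtain ⟨e⟩ := Function.Embedding.nonempty_of_card_le hcard
      refine ⟨(Function.extend e w 0, Function.extend e z (fun _ => x0)), ⟨⟨?_, ?_⟩, ?_⟩, ?_⟩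
      · intro j
        show (0 : ℝ) ≤ Function.extend e w 0 j
        by_cases hj : ∃ i, e i = j
        · obtain ⟨i, rfl⟩ := hj
          rw [e.injective.extend_apply]
          exact (hw0 i).le
        · rw [Function.extend_apply' _ _ _ hj]
          exact le_rfl
      · rw [← hw1]
        symm
        refine Fintype.sum_of_injective e e.injective _ _ ?_ ?_
        · intro j hj
          show Function.extend e w 0 j = 0
          rw [Function.extend_apply' _ _ _ hj]
          rfl
        · intro i
          show w i = Function.extend e w 0 (e i)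
          rw [e.injective.extend_apply]
      · intro j _
        by_cases hj : ∃ i, e i = j
        · obtain ⟨i, rfl⟩ := hj
          show Function.extend e z (fun _ => x0) (e i) ∈ s
          rw [e.injective.extend_apply]
          exact hz ⟨i, rfl⟩
        · show Function.extend e z (fun _ => x0) j ∈ s
          rw [Function.extend_apply' _ _ _ hj]
          exact hx0
      · rw [← hwz]
        symm
        refine Fintype.sum_of_injective e e.injective _ _ ?_ ?_
        · intro j hj
          show Function.extend e w 0 j • Function.extend e z (fun _ => x0) j = 0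
          rw [Function.extend_apply' w _ _ hj]
          simp
        · intro i
          show w i • z i = Function.extend e w 0 (e i) • Function.extend e z (fun _ => x0) (e i)
          rw [e.injective.extend_apply, e.injective.extend_apply]
    · rintro _ ⟨⟨w, z⟩, ⟨⟨hw0, hw1⟩, hz⟩, rfl⟩
      refine (convex_convexHull ℝ s).sum_mem (fun i _ => hw0 i) hw1 (fun i _ => ?_)
      exact subset_convexHull ℝ s (hz i (Set.mem_univ i))
  rw [heq]
  exact hK.image hcont

theorem pf_st_yy_add (θ : ℝ) (a b : ℂ) : yy θ (a + b) = yy θ a + yy θ b := by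
  simp only [yy, Complex.add_re, Complex.add_im]; ring

theorem pf_st_yy_le (θ : ℝ) (v : ℂ) : yy θ v ≤ ‖v‖ := by
  have h1 : yy θ v ^ 2 + xx θ v ^ 2 = ‖v‖ ^ 2 := by
    rw [← Complex.normSq_eq_norm_sq, Complex.normSq_apply]
    simp only [yy, xx]
    have := Real.sin_sq_add_cos_sq θ
    linear_combination (v.re * v.re + v.im * v.im) * this
  have h2 : yy θ v ^ 2 ≤ ‖v‖ ^ 2 := by nlinarith [sq_nonneg (xx θ v)]
  exact le_trans (le_abs_self _) (abs_le_of_sq_le_sq h2 (norm_nonneg v)) 

theorem pf_st_ball (θ R : ℝ) (hR : 0 ≤ R) : sSup (yy θ '' closedBall (0:ℂ) R) = R := by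
  apply le_antisymm
  · apply csSup_le
    · exact ⟨_, ⟨0, by simp [hR], rfl⟩⟩
    · rintro _ ⟨v, hv, rfl⟩
      exact (pf_st_yy_le θ v).trans (by simpa using hv)
  · apply le_csSup
    · refine ⟨R, ?_⟩
      rintro _ ⟨v, hv, rfl⟩
      exact (pf_st_yy_le θ v).trans (by simpa using hv)
    · refine ⟨(R * Real.cos θ : ℝ) + (R * Real.sin θ : ℝ) * Complex.I, ?_, ?_⟩
      · rw [mem_closedBall_zero_iff]
        have : ‖((R * Real.cos θ : ℝ) : ℂ) + (R * Real.sin θ : ℝ) * Complex.I‖ ^ 2 = R ^ 2 := by
          rw [← Complex.normSq_eq_norm_sq, Complex.normSq_apply]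
          simp only [Complex.add_re, Complex.ofReal_re, Complex.mul_re, Complex.I_re, mul_zero,
            Complex.ofReal_im, Complex.I_im, mul_one, sub_self, add_zero, Complex.add_im,
            Complex.mul_im, zero_add]
          have := Real.sin_sq_add_cos_sq θ
          linear_combination (R ^ 2) * this
        exact (abs_le_of_sq_le_sq' (le_of_eq this) hR).2
      · simp only [yy, Complex.add_re, Complex.ofReal_re, Complex.mul_re, Complex.I_re, mul_zero,
            Complex.ofReal_im, Complex.I_im, mul_one, sub_self, add_zero, Complex.add_im,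
            Complex.mul_im, zero_add]
        have := Real.sin_sq_add_cos_sq θ
        linear_combination R * this

theorem pf_st_hs (C : Set ℂ) (hC : IsCompact C) (hne : C.Nonempty) (R θ : ℝ) (hR : 0 ≤ R) :
    hs (cthickening R C) θ = hs C θ + R := by
  unfold hs
  rw [← hC.add_closedBall_zero hR]
  have h1 : yy θ '' (C + closedBall (0:ℂ) R) = yy θ '' C + yy θ '' closedBall (0:ℂ) R := by
    ext x
    constructor
    · rintro ⟨_, ⟨c, hc, v, hv, rfl⟩, rfl⟩
      exact ⟨yy θ c, ⟨c, hc, rfl⟩, yy θ v, ⟨v, hv, rfl⟩, (pf_st_yy_add θ c v).symm⟩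
    · rintro ⟨_, ⟨c, hc, rfl⟩, _, ⟨v, hv, rfl⟩, rfl⟩
      exact ⟨c + v, ⟨c, hc, v, hv, rfl⟩, pf_st_yy_add θ c v⟩
  have hyc : Continuous (yy θ) := by unfold yy; fun_prop
  rw [h1, csSup_add (hne.image _) (hC.image hyc).bddAbove
    (Set.Nonempty.image _ ⟨0, by simp [hR]⟩) ((isCompact_closedBall _ _).image hyc).bddAbove,
    pf_st_ball θ R hR]

theorem pf_st (h1 : S_hs) (h2 : S_ar) : S_st := by
  intro K ρ hK hρ
  obtain ⟨hKc, hK0, hKb⟩ := hK
  have hKne : K.Nonempty := ⟨0, hK0⟩
  obtain ⟨-, -, hbd, hlip, hper, -, -, -, -, -, -, hconv, -⟩ := h1 K ρ hKc hKne hKb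
  set C := convexHull ℝ K with hCdef
  have hCc : IsCompact C := pf_st_compact_hull hKc
  have hCconv : Convex ℝ C := convex_convexHull ℝ K
  have hC0 : (0:ℂ) ∈ C := subset_convexHull ℝ K hK0
  have hCne : C.Nonempty := ⟨0, hC0⟩
  -- volume of closed neighbourhoods
  have hcth : ∀ R : ℝ, 0 < R → (volume (cthickening R C)).toReal =
      π * R ^ 2 + R * per K + ar2 K := by
    intro R hR
    rw [h2 (cthickening R C) R hCc.cthickening (hCconv.cthickening R) hR (by
      intro z hz
      apply thickening_subset_cthickening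
      rw [mem_thickening_iff]
      exact ⟨0, hC0, by simpa using hz⟩)]
    have hfun : hs (cthickening R C) = fun θ => hs K θ + R := by
      funext θ
      rw [pf_st_hs C hCc hCne R θ hR.le, hconv θ]
    unfold ar2 per
    rw [hfun]
    have hd : ∀ θ, deriv (fun θ => hs K θ + R) θ = deriv (hs K) θ := by
      intro θ; rw [deriv_add_const]
    simp only [hd]
    have hcont : Continuous (hs K) := hlip.continuous
    have hmeas : Measurable (deriv (hs K)) := measurable_deriv _
    have hdb : ∀ θ, |deriv (hs K) θ| ≤ ρ := by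
      intro θ
      have := norm_deriv_le_of_lipschitz (x₀ := θ) hlip
      rw [Real.norm_eq_abs, Real.coe_toNNReal _ hρ.le] at this
      exact this
    have hi1 : IntervalIntegrable (fun θ => hs K θ) volume 0 (2 * π) :=
      hcont.intervalIntegrable _ _
    have hi2 : IntervalIntegrable (fun θ => hs K θ ^ 2) volume 0 (2 * π) :=
      (hcont.pow 2).intervalIntegrable _ _
    have hi3 : IntervalIntegrable (fun θ => deriv (hs K) θ ^ 2) volume 0 (2 * π) := by
      rw [intervalIntegrable_iff]
      refine Measure.integrableOn_of_bounded (M := ρ ^ 2) (by simp [Set.uIoc])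
        (hmeas.pow_const 2).aestronglyMeasurable (Filter.Eventually.of_forall (fun θ => ?_))
      rw [Real.norm_eq_abs, abs_pow]
      exact pow_le_pow_left₀ (abs_nonneg _) (hdb θ) 2
    have e1 : (fun θ => (hs K θ + R) ^ 2 - deriv (hs K) θ ^ 2) =
        fun θ => (hs K θ ^ 2 - deriv (hs K) θ ^ 2) + ((2 * R) * hs K θ + R ^ 2) := by
      funext θ; ring
    rw [e1, intervalIntegral.integral_add (hi2.sub hi3)
      ((hi1.const_mul _).add intervalIntegrable_const),
      intervalIntegral.integral_add (hi1.const_mul _) intervalIntegrable_const,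
      intervalIntegral.integral_const_mul, intervalIntegral.integral_const]
    simp only [smul_eq_mul, sub_zero]
    ring
  have hfin : ∀ R : ℝ, volume (cthickening R C) ≠ ∞ := fun R =>
    (hCc.cthickening (r := R)).measure_lt_top.ne
  have hfcont : Continuous (fun R : ℝ => π * R ^ 2 + R * per K + ar2 K) := by fun_prop
  refine ⟨fun R hR => ?_, ?_⟩
  · apply le_antisymm
    · rw [← hcth R hR]
      exact ENNReal.toReal_mono (hfin R) (measure_mono (thickening_subset_cthickening _ _))
    · have ht : Tendsto (fun R : ℝ => π * R ^ 2 + R * per K + ar2 K) (𝓝[<] R)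
          (𝓝 (π * R ^ 2 + R * per K + ar2 K)) :=
        (hfcont.tendsto R).mono_left nhdsWithin_le_nhds
      apply le_of_tendsto ht
      have h3 : ∀ᶠ R' in 𝓝[<] R, R' ∈ Ioo 0 R := Ioo_mem_nhdsLT hR
      filter_upwards [h3] with R' hR'
      rw [← hcth R' hR'.1]
      apply ENNReal.toReal_mono
      · exact ((measure_mono (thickening_subset_cthickening R C)).trans_lt
          (hfin R).lt_top).ne
      · exact measure_mono (cthickening_subset_thickening' hR hR'.2 C)
  · have ht1 : Tendsto (fun r => volume (cthickening r C)) (𝓝[>] 0) (𝓝 (volume C)) :=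
      (tendsto_measure_cthickening_of_isCompact hCc).mono_left nhdsWithin_le_nhds
    have ht2 : Tendsto (fun r => (volume (cthickening r C)).toReal) (𝓝[>] 0)
        (𝓝 (volume C).toReal) :=
      (ENNReal.tendsto_toReal hCc.measure_lt_top.ne).comp ht1
    have ht3 : Tendsto (fun R : ℝ => π * R ^ 2 + R * per K + ar2 K) (𝓝[>] 0)
        (𝓝 (π * 0 ^ 2 + 0 * per K + ar2 K)) :=
      (hfcont.tendsto 0).mono_left nhdsWithin_le_nhds
    have ht4 : Tendsto (fun r => (volume (cthickening r C)).toReal) (𝓝[>] 0)
        (𝓝 (π * 0 ^ 2 + 0 * per K + ar2 K)) := by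
      refine ht3.congr' ?_
      filter_upwards [self_mem_nhdsWithin] with r hr
      exact (hcth r hr).symm
    have := tendsto_nhds_unique ht2 ht4
    rw [this]
    ring

end Pool.Agent.H212AN
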