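import Pool.Agent.H212AN.D2

set_option autoImplicit false

namespace Pool.Agent.H212AN

open MeasureTheory Set Filter Topology Metric
open Pool.Agent.W594.AN (ClosedCurve)
open scoped Real ENNReal ComplexConjugate

/- PLAIN PROOF.
F(s,u) = Ps c s u is smooth and L-periodic in s, ∂_s F = (1 - κu)γ', ∂_u F = iγ' (use ClosedCurve.second), so the differential is
invertible for |u| < 1/(2 max|κ|). Uniform injectivity: if not, there are (s_n,u_n) ≠ (s'_n,u'_n), s in [0,L), u -> 0, with the same image; limit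
points s, s' satisfy γ s = γ s', so s = s' modulo L (case s=0, s'=L: shift by L), and F is injective near (s,0) by the inverse function
theorem: contradiction. Distance: the nearest point γ s' of the (compact) curve to z = F(s,u), |u| < ε₁, satisfies
z - γ s' ⟂ γ' s', so z = F(s',u') with |u'| = infDist z <= |u| < ε₁, hence by injectivity u' = u. Third item: the same argument for
arbitrary z with infDist < ε₁. Openness of LT, RT: F is a local diffeomorphism (open map) on |u| < ε₁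
(HasStrictFDerivAt.map_nhds_eq_of_equiv or similar). Connectedness: images of ℝ × (0,ε) and ℝ × (-ε,0).
-/

namespace pf_tb_aux

variable (c : ClosedCurve)

/-- the map of normal coordinates -/
noncomputable def F (p : ℝ × ℝ) : ℂ := Ps c p.1 p.2

/-- its differential -/
noncomputable def dF (p : ℝ × ℝ) : ℝ × ℝ →L[ℝ] ℂ :=
  (ContinuousLinearMap.fst ℝ ℝ ℝ).smulRight
    (((1 - c.curvature p.1 * p.2 : ℝ) : ℂ) * deriv c.γ p.1) +
  (ContinuousLinearMap.snd ℝ ℝ ℝ).smulRight (Complex.I * deriv c.γ p.1)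

theorem strict (p : ℝ × ℝ) : HasStrictFDerivAt (F c) (dF c p) p := by
  have h1 : HasStrictFDerivAt (fun q : ℝ × ℝ => c.γ q.1)
      ((ContinuousLinearMap.fst ℝ ℝ ℝ).smulRight (deriv c.γ p.1)) p :=
    ((c.smooth.hasStrictDerivAt (by simp) (x := p.1)).hasStrictFDerivAt.comp p
      hasStrictFDerivAt_fst).congr_fderiv (ContinuousLinearMap.ext fun v => by simp)
  have h2 : HasStrictFDerivAt (fun q : ℝ × ℝ => deriv c.γ q.1)
      ((ContinuousLinearMap.fst ℝ ℝ ℝ).smulRight (deriv (deriv c.γ) p.1)) p :=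
    ((c.smooth'.hasStrictDerivAt (by simp) (x := p.1)).hasStrictFDerivAt.comp p
      hasStrictFDerivAt_fst).congr_fderiv (ContinuousLinearMap.ext fun v => by simp)
  have h3 : HasStrictFDerivAt (fun q : ℝ × ℝ => Complex.I * (q.2 : ℂ))
      ((ContinuousLinearMap.snd ℝ ℝ ℝ).smulRight Complex.I) p :=
    ((Complex.ofRealCLM.hasStrictFDerivAt.comp p
      hasStrictFDerivAt_snd).const_mul Complex.I).congr_fderiv
      (ContinuousLinearMap.ext fun v => by simp [mul_comm])
  have h4 := h1.add (h3.mul h2)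
  refine HasStrictFDerivAt.congr_fderiv (f := F c) h4 (ContinuousLinearMap.ext fun v => ?_)
  unfold dF
  rw [c.second p.1]
  have hI : Complex.I * Complex.I = -1 := Complex.I_mul_I
  simp
  linear_combination ((p.2 : ℂ) * v.1 * c.curvature p.1 * deriv c.γ p.1) * hI

theorem γ'_ne (s : ℝ) : deriv c.γ s ≠ 0 := by
  intro h
  have := c.unit_speed s
  rw [h] at this
  simp at this

theorem dF_inj (p : ℝ × ℝ) (h : 1 - c.curvature p.1 * p.2 ≠ 0) :
    Function.Injective (dF c p) := by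
  rw [injective_iff_map_eq_zero]
  rintro ⟨a, b⟩ hab
  have h1 : (((1 - c.curvature p.1 * p.2) * a : ℝ) + (b : ℝ) * Complex.I) * deriv c.γ p.1 = 0 := by
    rw [← hab]
    unfold dF
    simp
    ring
  have h2 := (mul_eq_zero.1 h1).resolve_right (γ'_ne c p.1)
  have h3 := congrArg Complex.re h2
  have h4 := congrArg Complex.im h2
  simp only [Complex.add_re, Complex.ofReal_re, Complex.mul_re, Complex.I_re, Complex.ofReal_im,
    Complex.I_im, Complex.zero_re, Complex.add_im, Complex.mul_im, Complex.zero_im, mul_zero,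
    sub_zero, add_zero, zero_add, mul_one] at h3 h4
  have h5 : a = 0 := (mul_eq_zero.1 h3).resolve_left h
  rw [h5, h4]
  rfl

theorem exists_equiv (p : ℝ × ℝ) (h : 1 - c.curvature p.1 * p.2 ≠ 0) :
    ∃ e : (ℝ × ℝ) ≃L[ℝ] ℂ, HasStrictFDerivAt (F c) (e : ℝ × ℝ →L[ℝ] ℂ) p := by
  let e := ((dF c p).toLinearMap.linearEquivOfInjective (dF_inj c p h) (by
    simp [Complex.finrank_real_complex])).toContinuousLinearEquiv
  refine ⟨e, (strict c p).congr_fderiv (ContinuousLinearMap.ext fun v => ?_)⟩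
  rfl

theorem F_cont : Continuous (F c) := by
  unfold F Ps
  have h1 := c.cont
  have h2 := c.cont'
  fun_prop

theorem Ps_periodic (s u : ℝ) (k : ℤ) : Ps c (s + k * c.L) u = Ps c s u := by
  unfold Ps
  have h1 := c.periodic.zsmul k s
  have h2 := c.periodic'.zsmul k s
  simp only [zsmul_eq_mul] at h1 h2
  rw [h1, h2]

/-- the bound of the curvature -/
theorem curv_bound : ∃ K : ℝ, 0 < K ∧ ∀ s, |c.curvature s| ≤ K := by
  obtain ⟨K, hK⟩ := (isCompact_Icc (a := (0:ℝ)) (b := c.L)).exists_bound_of_continuousOn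
    c.cont_curvature.continuousOn
  refine ⟨max K 1, lt_max_of_lt_right one_pos, fun s => ?_⟩
  obtain ⟨y, hy, hs⟩ := c.curvature_periodic.exists_mem_Ico₀ c.L_pos s
  rw [hs]
  exact (hK y ⟨hy.1, hy.2.le⟩).trans (le_max_left _ _)

/-- local injectivity, uniformly -/
theorem unif_inj : ∀ᶠ q : ℝ × ℝ in 𝓝 (0, 0), ∀ w ∈ Icc (0:ℝ) c.L ×ˢ Icc (0:ℝ) c.L,
    Ps c w.1 q.1 = Ps c w.2 q.2 → (∃ k : ℤ, w.2 = w.1 + k * c.L) ∧ q.1 = q.2 := by
  apply (isCompact_Icc.prod isCompact_Icc).eventually_forall_of_forall_eventually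
    (P := fun q w : ℝ × ℝ => Ps c w.1 q.1 = Ps c w.2 q.2 →
      (∃ k : ℤ, w.2 = w.1 + k * c.L) ∧ q.1 = q.2)
  rintro ⟨a, b⟩ ⟨ha, hb⟩
  by_cases hab : ∃ k : ℤ, b = a + k * c.L
  · obtain ⟨k, hk⟩ := hab
    obtain ⟨e, he⟩ := exists_equiv c (a, 0) (by simp)
    -- `F` is injective on a neighbourhood `V` of `(a, 0)`
    have hV : (he.toOpenPartialHomeomorph (F c)).source ∈ 𝓝 ((a, 0) : ℝ × ℝ) :=
      (he.toOpenPartialHomeomorph (F c)).open_source.mem_nhds
        he.mem_toOpenPartialHomeomorph_source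
    have t1 : Tendsto (fun z : (ℝ × ℝ) × (ℝ × ℝ) => ((z.2.1, z.1.1) : ℝ × ℝ))
        (𝓝 ((0, 0), (a, b))) (𝓝 (a, 0)) := by
      have : Continuous (fun z : (ℝ × ℝ) × (ℝ × ℝ) => ((z.2.1, z.1.1) : ℝ × ℝ)) := by fun_prop
      exact this.tendsto' _ _ rfl
    have t2 : Tendsto (fun z : (ℝ × ℝ) × (ℝ × ℝ) => ((z.2.2 - k * c.L, z.1.2) : ℝ × ℝ))
        (𝓝 ((0, 0), (a, b))) (𝓝 (a, 0)) := by
      have : Continuous (fun z : (ℝ × ℝ) × (ℝ × ℝ) => ((z.2.2 - k * c.L, z.1.2) : ℝ × ℝ)) := by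
        fun_prop
      refine this.tendsto' _ _ ?_
      simp only [Prod.mk.injEq, and_true]
      rw [hk]; ring
    filter_upwards [t1 hV, t2 hV] with z h1 h2 h3
    have h4 : F c (z.2.1, z.1.1) = F c (z.2.2 - k * c.L, z.1.2) := by
      unfold F
      simp only
      rw [h3]
      have := Ps_periodic c (z.2.2 - k * c.L) z.1.2 k
      rw [← this]
      congr 1
      ring
    have h5 := (he.toOpenPartialHomeomorph (F c)).injOn h1 h2 h4
    simp only [Prod.mk.injEq] at h5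
    exact ⟨⟨k, by linarith [h5.1]⟩, h5.2⟩
  · -- `γ a ≠ γ b`
    have hne : c.γ a ≠ c.γ b := by
      intro hγ
      apply hab
      have hL := c.L_pos
      have key : ∀ x ∈ Icc (0:ℝ) c.L, ∃ y ∈ Ico (0:ℝ) c.L, c.γ x = c.γ y ∧
          ∃ k : ℤ, x = y + k * c.L := by
        intro x hx
        rcases hx.2.eq_or_lt with h | h
        · refine ⟨0, ⟨le_rfl, hL⟩, ?_, 1, ?_⟩
          · rw [h]
            have := c.periodic 0
            rwa [zero_add] at this
          · rw [h]; push_cast; ring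
        · exact ⟨x, ⟨hx.1, h⟩, rfl, 0, by push_cast; ring⟩
      obtain ⟨a', ha', e1, k1, f1⟩ := key a ha
      obtain ⟨b', hb', e2, k2, f2⟩ := key b hb
      have : a' = b' := c.injOn ha' hb' (by rw [← e1, ← e2]; exact hγ)
      refine ⟨k2 - k1, ?_⟩
      rw [f1, f2, this]; push_cast; ring
    have t1 : ContinuousAt (fun z : (ℝ × ℝ) × (ℝ × ℝ) => F c (z.2.1, z.1.1)) ((0, 0), (a, b)) :=
      ((F_cont c).comp (by fun_prop :
        Continuous fun z : (ℝ × ℝ) × (ℝ × ℝ) => ((z.2.1, z.1.1) : ℝ × ℝ))).continuousAt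
    have t2 : ContinuousAt (fun z : (ℝ × ℝ) × (ℝ × ℝ) => F c (z.2.2, z.1.2)) ((0, 0), (a, b)) :=
      ((F_cont c).comp (by fun_prop :
        Continuous fun z : (ℝ × ℝ) × (ℝ × ℝ) => ((z.2.2, z.1.2) : ℝ × ℝ))).continuousAt
    have hne' : F c (a, 0) ≠ F c (b, 0) := by
      unfold F Ps
      simpa using hne
    filter_upwards [(ContinuousAt.ne_iff_eventually_ne t1 t2).1 hne'] with z hz h3
    exact absurd h3 hz

theorem range_compact : IsCompact (range c.γ) := by
  have h : range c.γ = c.γ '' Icc 0 c.L := by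
    apply Subset.antisymm
    · rintro _ ⟨t, rfl⟩
      obtain ⟨y, hy, ht⟩ := c.periodic.exists_mem_Ico₀ c.L_pos t
      exact ⟨y, ⟨hy.1, hy.2.le⟩, ht.symm⟩
    · exact image_subset_range _ _
  rw [h]
  exact isCompact_Icc.image c.cont

/-- the nearest point of the curve -/
theorem nearest (z : ℂ) : ∃ s ∈ Ico 0 c.L, ∃ u : ℝ, |u| = infDist z (range c.γ) ∧
    z = Ps c s u := by
  obtain ⟨y, ⟨t, rfl⟩, hy⟩ := (range_compact c).exists_infDist_eq_dist
    (range_nonempty c.γ) z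
  obtain ⟨s, hs, hts⟩ := c.periodic.exists_mem_Ico₀ c.L_pos t
  rw [hts] at hy
  have hmin : ∀ t', dist z (c.γ s) ≤ dist z (c.γ t') := by
    intro t'
    rw [← hy]
    exact infDist_le_dist_of_mem (mem_range_self t')
  have hd := ((hasDerivAt_const s z).sub (c.hasDerivAt s)).norm_sq
  have h0 : IsLocalMin (fun t' : ℝ => ‖(fun _ : ℝ => z) t' - c.γ t'‖ ^ 2) s := by
    apply Filter.Eventually.of_forall
    intro t'
    have := hmin t'
    rw [dist_eq_norm, dist_eq_norm] at this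
    simp only
    gcongr
  have h1 := h0.hasDerivAt_eq_zero hd
  set w : ℂ := (z - c.γ s) * conj (deriv c.γ s) with hw
  have h2 : w.re = 0 := by
    rw [Complex.inner] at h1
    simp only [Pi.sub_apply, zero_sub, neg_mul, Complex.neg_re] at h1
    have h3 : (conj (z - c.γ s) * deriv c.γ s).re = 0 := by
      rw [mul_comm]; linarith
    rw [hw]
    have h4 : (conj ((z - c.γ s) * conj (deriv c.γ s))).re = 0 := by
      rw [map_mul, Complex.conj_conj]; exact h3
    rwa [Complex.conj_re] at h4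
  have h5 : w = (w.im : ℂ) * Complex.I := by
    apply Complex.ext
    · simp [h2]
    · simp
  have h6 : z - c.γ s = w * deriv c.γ s := by
    rw [hw, mul_assoc, c.conj_mul s, mul_one]
  refine ⟨s, hs, w.im, ?_, ?_⟩
  · rw [hy, dist_eq_norm, h6, norm_mul, c.unit_speed s, mul_one]
    conv_rhs => rw [h5]
    rw [norm_mul, Complex.norm_I, mul_one, Complex.norm_real, Real.norm_eq_abs]
  · unfold Ps
    rw [← sub_eq_iff_eq_add', h6]
    conv_lhs => rw [h5]
    ring

end pf_tb_aux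

theorem pf_tb : S_tb := by
  intro c
  obtain ⟨K, hK0, hK⟩ := pf_tb_aux.curv_bound c
  obtain ⟨δ, hδ, hinj⟩ := Metric.eventually_nhds_iff.1 (pf_tb_aux.unif_inj c)
  set ε₁ : ℝ := min δ (1 / (2 * K)) with hε₁
  have hε0 : 0 < ε₁ := lt_min hδ (by positivity)
  have hεδ : ε₁ ≤ δ := min_le_left _ _
  have hεK : ε₁ * K ≤ 1 / 2 := by
    have : ε₁ ≤ 1 / (2 * K) := min_le_right _ _
    calc ε₁ * K ≤ 1 / (2 * K) * K := by gcongr
      _ = 1 / 2 := by field_simp
  have hI : ∀ s s' u u' : ℝ, s ∈ Ico 0 c.L → s' ∈ Ico 0 c.L → |u| < ε₁ → |u'| < ε₁ →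
      Ps c s u = Ps c s' u' → s = s' ∧ u = u' := by
    intro s s' u u' hs hs' hu hu' h
    have hd : dist ((u, u') : ℝ × ℝ) (0, 0) < δ := by
      rw [Prod.dist_eq, max_lt_iff, Real.dist_eq, Real.dist_eq]
      simp only [sub_zero]
      exact ⟨by linarith, by linarith⟩
    obtain ⟨⟨k, hk⟩, hu2⟩ := hinj hd (s, s') ⟨⟨hs.1, hs.2.le⟩, ⟨hs'.1, hs'.2.le⟩⟩ h
    refine ⟨?_, hu2⟩
    simp only at hk
    have hL := c.L_pos
    have k1 : (k : ℝ) * c.L < 1 * c.L := by linarith [hs.1, hs'.2]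
    have k2 : (-1 : ℝ) * c.L < k * c.L := by linarith [hs.2, hs'.1]
    have k3 : (k : ℝ) < 1 := lt_of_mul_lt_mul_right k1 hL.le
    have k4 : (-1 : ℝ) < k := lt_of_mul_lt_mul_right k2 hL.le
    have k5 : k < 1 := by exact_mod_cast k3
    have k6 : -1 < k := by exact_mod_cast k4
    have k7 : k = 0 := by omega
    rw [hk, k7]; simp
  have hmod : ∀ s u : ℝ, ∃ s' ∈ Ico 0 c.L, Ps c s u = Ps c s' u := by
    intro s u
    have : Function.Periodic (fun s => Ps c s u) c.L := by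
      intro s
      have := pf_tb_aux.Ps_periodic c s u 1
      simpa using this
    exact this.exists_mem_Ico₀ c.L_pos s
  refine ⟨ε₁, hε0, hI, ?_, ?_, ?_⟩
  · intro s u hu
    obtain ⟨s0, hs0, e0⟩ := hmod s u
    obtain ⟨s', hs', u', hu', e'⟩ := pf_tb_aux.nearest c (Ps c s u)
    have hle : infDist (Ps c s u) (range c.γ) ≤ |u| := by
      refine (infDist_le_dist_of_mem (mem_range_self s)).trans ?_
      rw [dist_eq_norm]
      unfold Ps
      rw [add_sub_cancel_left, norm_mul, norm_mul, c.unit_speed s, Complex.norm_I, one_mul,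
        mul_one, Complex.norm_real, Real.norm_eq_abs]
    have := (hI s0 s' u u' hs0 hs' hu (by rw [hu']; linarith) (by rw [← e0]; exact e')).2
    rw [← hu', this]
  · intro z hz
    obtain ⟨s', hs', u', hu', e'⟩ := pf_tb_aux.nearest c z
    exact ⟨s', hs', u', by rw [hu']; exact hz, e'⟩
  · intro ε hε hεε
    have himg : ∀ V : Set ℝ, IsOpen V → (∀ u ∈ V, |u| < ε) →
        IsOpen (pf_tb_aux.F c '' (univ ×ˢ V)) := by
      intro V hV hVε
      rw [isOpen_iff_mem_nhds]
      rintro _ ⟨p, ⟨-, hp⟩, rfl⟩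
      have hp1 : 1 - c.curvature p.1 * p.2 ≠ 0 := by
        have h1 : |c.curvature p.1 * p.2| ≤ K * ε₁ := by
          rw [abs_mul]
          exact mul_le_mul (hK _) ((hVε _ hp).le.trans hεε) (abs_nonneg _) hK0.le
        have h2 := (abs_le.1 h1).2
        intro h3
        nlinarith
      obtain ⟨e, he⟩ := pf_tb_aux.exists_equiv c p hp1
      rw [← he.map_nhds_eq_of_equiv]
      exact image_mem_map ((isOpen_univ.prod hV).mem_nhds ⟨mem_univ _, hp⟩)
    have hLT : LT c ε = pf_tb_aux.F c '' (univ ×ˢ Ioo 0 ε) := by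
      ext z
      constructor
      · rintro ⟨s, u, h1, h2, rfl⟩
        exact ⟨(s, u), ⟨mem_univ _, h1, h2⟩, rfl⟩
      · rintro ⟨⟨s, u⟩, ⟨-, h1, h2⟩, rfl⟩
        exact ⟨s, u, h1, h2, rfl⟩
    have hRT : RT c ε = pf_tb_aux.F c '' (univ ×ˢ Ioo (-ε) 0) := by
      ext z
      constructor
      · rintro ⟨s, u, h1, h2, rfl⟩
        exact ⟨(s, u), ⟨mem_univ _, h1, h2⟩, rfl⟩
      · rintro ⟨⟨s, u⟩, ⟨-, h1, h2⟩, rfl⟩
        exact ⟨s, u, h1, h2, rfl⟩
    rw [hLT, hRT]
    refine ⟨himg _ isOpen_Ioo ?_, himg _ isOpen_Ioo ?_, ?_, ?_⟩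
    · intro u hu
      rw [abs_lt]; exact ⟨by linarith [hu.1], hu.2⟩
    · intro u hu
      rw [abs_lt]; exact ⟨hu.1, by linarith [hu.2]⟩
    · exact (isConnected_univ.prod (isConnected_Ioo hε)).image _
        (pf_tb_aux.F_cont c).continuousOn
    · exact (isConnected_univ.prod (isConnected_Ioo (by linarith))).image _
        (pf_tb_aux.F_cont c).continuousOn

end Pool.Agent.H212AN
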