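import Pool.Agent.H212AN.D5

set_option autoImplicit false

namespace Pool.Agent.H212AN

open MeasureTheory Set Filter Topology Metric
open Pool.Agent.W594.AN (ClosedCurve SmoothDomain)
open scoped Real ENNReal ComplexConjugate

theorem pf_top_green {Ω : Set ℂ} {n : ℕ} {c : Fin n → ClosedCurve} {ε C : ℝ} (h2 : S_ws)
    (h5 : S_wa) (hS : SD Ω n c) (hL : LB Ω n c ε C) :
    (volume Ω).toReal = ∑ i, (c i).area := by
  obtain ⟨R, hR⟩ := (Metric.isBounded_iff_subset_ball (0:ℂ)).1 hS.isBounded.closure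
  have hrange : ∀ i, range (c i).γ ⊆ ball 0 R := by
    intro i
    refine subset_trans ?_ (frontier_subset_closure.trans hR)
    rw [hS.frontier_eq]
    exact subset_iUnion (fun i => range (c i).γ) i
  have hint := fun i => h5 (c i) R (hrange i)
  have e1 : ∫ z in ball (0:ℂ) R, ∑ i, wd (c i) z = ∑ i, ((c i).area : ℂ) := by
    rw [integral_finsetSum _ (fun i _ => (hint i).1)]
    exact Finset.sum_congr rfl fun i _ => (hint i).2
  have e2 : ∫ z in ball (0:ℂ) R, ∑ i, wd (c i) z =
      ∫ z in ball (0:ℂ) R, Ω.indicator (1 : ℂ → ℂ) z := by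
    apply integral_congr_ae
    have hae : ∀ᵐ z ∂(volume.restrict (ball (0:ℂ) R)), z ∉ frontier Ω :=
      ae_restrict_of_ae (measure_eq_zero_iff_ae_notMem.1 hL.null)
    filter_upwards [hae] with z hz
    exact h2 Ω n c ε C hS hL z hz
  have e3 : ∫ z in ball (0:ℂ) R, Ω.indicator (1 : ℂ → ℂ) z = ((volume Ω).toReal : ℂ) := by
    rw [setIntegral_indicator hS.isOpen.measurableSet]
    have : ball (0:ℂ) R ∩ Ω = Ω := inter_eq_self_of_subset_right (subset_closure.trans hR)
    rw [this]
    simp [Measure.real]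
  have e4 : ((volume Ω).toReal : ℂ) = ((∑ i, (c i).area : ℝ) : ℂ) := by
    rw [← e3, ← e2, e1]
    push_cast
    rfl
  exact_mod_cast e4

theorem pf_top_one {Ω : Set ℂ} {n : ℕ} {c : Fin n → ClosedCurve} {ε C : ℝ} (h1 : S_wd)
    (h2 : S_ws) (h3 : S_ul) (hS : SD Ω n c) (hL : LB Ω n c ε C) :
    ∃ i₀ : Fin n, (∀ z ∈ Ω, wd (c i₀) z = 1) ∧ (c i₀).totalCurvature = 2 * π ∧
      0 < (c i₀).area ∧ ∀ i, i ≠ i₀ → (c i).totalCurvature = -(2 * π) ∧ (c i).area < 0 := by
  obtain ⟨z₀, hz₀⟩ := hS.isConnected.nonempty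
  have hdisj : ∀ i, Disjoint Ω (range (c i).γ) := by
    intro i
    have h : range (c i).γ ⊆ frontier Ω := by
      rw [hS.frontier_eq]
      exact subset_iUnion (fun i => range (c i).γ) i
    rw [Set.disjoint_left]
    intro z hz hz'
    have := h hz'
    rw [hS.isOpen.frontier_eq] at this
    exact this.2 hz
  have hconst : ∀ i, ∀ z ∈ Ω, wd (c i) z = wd (c i) z₀ := fun i z hz =>
    (h1 (c i)).2.2.2 Ω hS.isConnected.isPreconnected (hdisj i) z hz z₀ hz₀
  have hcase : ∀ i, (wd (c i) z₀ = 1 ∧ (c i).totalCurvature = 2 * π ∧ 0 < (c i).area) ∨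
      (wd (c i) z₀ = 0 ∧ (c i).totalCurvature = -(2 * π) ∧ (c i).area < 0) := by
    intro i
    obtain ⟨ε', hε', h⟩ := h3 (c i)
    have hεp := hL.eps.1
    have hu0 : 0 < min ε ε' / 2 := by positivity
    have hu1 : min ε ε' / 2 < ε := by
      have := min_le_left ε ε'; linarith
    have hu2 : min ε ε' / 2 < ε' := by
      have := min_le_right ε ε'; linarith
    have hmem : Ps (c i) 0 (min ε ε' / 2) ∈ Ω := hL.left i 0 _ hu0 hu1
    have hLT : Ps (c i) 0 (min ε ε' / 2) ∈ LT (c i) ε' := ⟨0, _, hu0, hu2, rfl⟩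
    rcases h with ⟨ha, hb, hc⟩ | ⟨ha, hb, hc⟩
    · left
      refine ⟨?_, hb, hc⟩
      rw [← hconst i _ hmem]; exact ha _ hLT
    · right
      refine ⟨?_, hb, hc⟩
      rw [← hconst i _ hmem]; exact ha _ hLT
  have hsum : ∑ i, wd (c i) z₀ = 1 := by
    have hz : z₀ ∉ frontier Ω := by
      rw [hS.isOpen.frontier_eq]
      exact fun h => h.2 hz₀
    rw [h2 Ω n c ε C hS hL z₀ hz, indicator_of_mem hz₀]
    rfl
  classical
  have hsum2 : ∑ i, wd (c i) z₀ = ((Finset.univ.filter fun i => wd (c i) z₀ = 1).card : ℂ) := by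
    rw [Finset.card_filter]
    push_cast
    refine Finset.sum_congr rfl fun i _ => ?_
    rcases hcase i with h | h
    · rw [if_pos h.1, h.1]
    · rw [if_neg (by rw [h.1]; exact zero_ne_one), h.1]
  have hcard : (Finset.univ.filter fun i => wd (c i) z₀ = 1).card = 1 := by
    have : ((Finset.univ.filter fun i => wd (c i) z₀ = 1).card : ℂ) = 1 := by
      rw [← hsum2, hsum]
    exact_mod_cast this
  obtain ⟨i₀, hi₀⟩ := Finset.card_eq_one.1 hcard
  have hi₁ : wd (c i₀) z₀ = 1 := by
    have : i₀ ∈ Finset.univ.filter fun i => wd (c i) z₀ = 1 := by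
      rw [hi₀]; exact Finset.mem_singleton_self _
    exact (Finset.mem_filter.1 this).2
  refine ⟨i₀, fun z hz => (hconst i₀ z hz).trans hi₁, ?_, ?_, ?_⟩
  · rcases hcase i₀ with h | h
    · exact h.2.1
    · exact absurd (hi₁.symm.trans h.1) one_ne_zero
  · rcases hcase i₀ with h | h
    · exact h.2.2
    · exact absurd (hi₁.symm.trans h.1) one_ne_zero
  · intro i hi
    rcases hcase i with h | h
    · exfalso
      have : i ∈ Finset.univ.filter fun i => wd (c i) z₀ = 1 :=
        Finset.mem_filter.2 ⟨Finset.mem_univ _, h.1⟩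
      rw [hi₀, Finset.mem_singleton] at this
      exact hi this
    · exact h.2

theorem pf_top (h1 : S_wd) (h2 : S_ws) (h3 : S_ul) (h4 : S_rv) (h5 : S_wa) : S_top := by
  intro Ω n c ε C hS hL
  obtain ⟨i₀, hw, ht, ha, hoth⟩ := pf_top_one h1 h2 h3 hS hL
  have hgreen := pf_top_green h2 h5 hS hL
  obtain ⟨m, rfl⟩ : ∃ m, n = m + 1 := ⟨n - 1, by have := i₀.2; omega⟩
  set e : Equiv.Perm (Fin (m + 1)) := Equiv.swap 0 i₀ with he
  have he0 : e 0 = i₀ := by rw [he]; exact Equiv.swap_apply_left _ _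
  have hes : ∀ i : Fin m, e i.succ ≠ i₀ := by
    intro i h
    rw [← he0] at h
    exact Fin.succ_ne_zero i (e.injective h)
  let d : Fin (m + 1) → ClosedCurve := Fin.cons (c i₀) (fun i : Fin m => rev (c (e i.succ)))
  have hd0 : d 0 = c i₀ := rfl
  have hds : ∀ i : Fin m, d i.succ = rev (c (e i.succ)) := fun i => rfl
  have hrange : ∀ i, range (d i).γ = range (c (e i)).γ := by
    intro i
    refine Fin.cases ?_ (fun i => ?_) i
    · rw [hd0, he0]
    · rw [hds]; exact (h4 _).1
  have sumL : ∀ F : ClosedCurve → ℝ, ∑ i, F (c i) = F (c i₀) + ∑ i : Fin m, F (c (e i.succ)) := by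
    intro F
    rw [← Equiv.sum_comp e (fun i => F (c i)), Fin.sum_univ_succ, he0]
  refine ⟨{ Ω := Ω
            isOpen := hS.isOpen
            isConnected := hS.isConnected
            isBounded := hS.isBounded
            holes := m
            curve := d
            frontier_eq := ?_
            disjoint := ?_
            outer := ?_
            turning := ?_
            area_pos := ?_
            green := ?_ }, rfl, rfl, ?_, ?_, ?_⟩
  · rw [hS.frontier_eq]
    rw [iUnion_congr hrange]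
    exact (e.surjective.iUnion_comp (fun i => range (c i).γ)).symm
  · intro i j hij
    show Disjoint (range (d i).γ) (range (d j).γ)
    rw [hrange, hrange]
    exact hS.disj (fun h => hij (e.injective h))
  · intro z hz
    rw [hd0]
    by_contra hcon
    have h0 := (h1 (c i₀)).2.2.1 z hcon
    rw [hw z hz] at h0
    exact one_ne_zero h0
  · intro i
    refine Fin.cases ?_ (fun i => ?_) i
    · rw [hd0]; exact ht
    · rw [hds, (h4 _).2.2.1, (hoth _ (hes i)).1, neg_neg]
  · intro i
    refine Fin.cases ?_ (fun i => ?_) i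
    · rw [hd0]; exact ha
    · rw [hds, (h4 _).2.2.2.2.1]
      have := (hoth _ (hes i)).2
      linarith
  · rw [hgreen, sumL (fun c => c.area), hd0]
    have : ∀ i : Fin m, (d i.succ).area = -(c (e i.succ)).area := fun i => by
      rw [hds, (h4 _).2.2.2.2.1]
    rw [Finset.sum_congr rfl fun i _ => this i, Finset.sum_neg_distrib, sub_neg_eq_add]
  · show ∑ i, (d i).L = _
    rw [sumL (fun c => c.L), Fin.sum_univ_succ, hd0]
    rfl
  · show ∑ i, (d i).bending = _
    rw [sumL (fun c => c.bending), Fin.sum_univ_succ, hd0]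
    congr 1
    refine Finset.sum_congr rfl fun i _ => ?_
    rw [hds, (h4 _).2.2.2.1]
  · show _ = 2 * π * (1 - (m : ℝ))
    rw [sumL (fun c => c.totalCurvature), ht, Finset.sum_congr rfl fun i _ => (hoth _ (hes i)).1]
    simp
    ring

end Pool.Agent.H212AN
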