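import Pool.Agent.H212AN.D3

set_option autoImplicit false

namespace Pool.Agent.H212AN

open MeasureTheory Set Filter Topology Metric
open Pool.Agent.W594.AN (ClosedCurve)
open Pool.Agent.H212AN.G (nG PG gm gk)
open scoped Real ENNReal ComplexConjugate

/- PLAIN PROOF.
Upper: for all m, ofReal(4πtZ) <= EM Q t m (ZUp), so <= limsup_m EM Q t m <= EV (closure Q). Lower: EV μ Q t = sup_n EV μ Q_n t (S_ex), and
for each n, with K = Q_n (open; every c in K has ball c (1/(n+1)) ⊆ Q): EV μ K t <= EM K t m for all m (S_em for K, bounded open), so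
EV μ K t <= limsup_m EM K t m <= ofReal(4πtZ Q t) (ZLo).
-/
theorem pf_tr_ball (Q : Set ℂ) (n : ℕ) (c : ℂ) (hc : (1 : ℝ≥0∞) / (n + 1) < infEDist c Qᶜ) :
    ball c (1 / ((n : ℝ) + 1)) ⊆ Q := by
  intro w hw
  by_contra hwQ
  have h1 : infEDist c Qᶜ ≤ edist c w := infEDist_le_edist_of_mem hwQ
  have h2 : edist c w < (1 : ℝ≥0∞) / (n + 1) := by
    rw [edist_dist, dist_comm]
    have h3 : ENNReal.ofReal (1 / ((n : ℝ) + 1)) = (1 : ℝ≥0∞) / (n + 1) := by
      rw [ENNReal.ofReal_div_of_pos (by positivity), ENNReal.ofReal_one,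
        ENNReal.ofReal_add (by positivity) zero_le_one, ENNReal.ofReal_natCast, ENNReal.ofReal_one]
    rw [← h3]
    exact (ENNReal.ofReal_lt_ofReal_iff (by positivity)).2 (mem_ball.1 hw)
  exact absurd (hc.trans_le h1) (not_lt.2 h2.le)

theorem pf_tr (h1 : S_em) (h2 : S_ex) : S_tr := by
  intro Z hU hL _ μ hμ Q hQo hQb hQn t ht
  constructor
  · rw [h2 μ hμ Q hQo hQb t ht]
    refine iSup_le fun n => ?_
    have hKQ : ∀ c ∈ {z : ℂ | (1 : ℝ≥0∞) / (n + 1) < infEDist z Qᶜ}, ball c (1 / ((n : ℝ) + 1)) ⊆ Q :=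
      fun c hc => pf_tr_ball Q n c hc
    have hKo : IsOpen {z : ℂ | (1 : ℝ≥0∞) / (n + 1) < infEDist z Qᶜ} :=
      isOpen_lt continuous_const continuous_infEDist
    have hKsub : {z : ℂ | (1 : ℝ≥0∞) / (n + 1) < infEDist z Qᶜ} ⊆ Q :=
      fun c hc => hKQ c hc (mem_ball_self (by positivity))
    have hKb := hQb.subset hKsub
    refine le_trans ?_ (hL Q _ hQo hQb hQn hKo (1 / ((n : ℝ) + 1)) (by positivity) hKQ t ht)
    refine le_limsup_of_frequently_le (Eventually.frequently (Eventually.of_forall fun m => ?_))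
    exact (h1 μ hμ _ hKo hKb t ht).1 m
  · refine le_trans ?_ (h1 μ hμ Q hQo hQb t ht).2
    refine le_limsup_of_frequently_le (Eventually.frequently (Eventually.of_forall fun m => ?_))
    exact hU Q hQo hQb hQn t ht m

end Pool.Agent.H212AN
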