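import Pool.Agent.H212AN.D1

set_option autoImplicit false

namespace Pool.Agent.H212AN

open MeasureTheory Set Filter Topology Metric
open Pool.Agent.H212AN.G (nG PG gm)
open scoped Real ENNReal

/-! ### auxiliary lemmas -/

theorem pf_tri_great (h3 : S_hs) {K : Set ℂ} (hK : IsCompact K) (hne : K.Nonempty) (θ : ℝ) :
    IsGreatest (yy θ '' K) (hs K θ) := by
  obtain ⟨ρ, hρ⟩ := hK.isBounded.subset_closedBall (0 : ℂ)
  obtain ⟨hf, hle, -⟩ := h3 K ρ hK hne hρ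
  refine ⟨?_, ?_⟩
  · obtain ⟨k, hk, hk2⟩ := hf θ
    exact ⟨k, hk, hk2⟩
  · rintro _ ⟨k, hk, rfl⟩
    exact hle θ k hk

theorem pf_tri_yy_add (θ : ℝ) (a b : ℂ) : yy θ (a + b) = yy θ a + yy θ b := by
  simp [yy]; ring

theorem pf_tri_yy_le (θ : ℝ) (a : ℂ) : |yy θ a| ≤ ‖a‖ := by
  have h : (yy θ a) ^ 2 ≤ ‖a‖ ^ 2 := by
    rw [← Complex.normSq_eq_norm_sq, Complex.normSq_apply, yy]
    have := Real.sin_sq_add_cos_sq θ
    nlinarith [sq_nonneg (a.re * Real.sin θ - a.im * Real.cos θ)]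
  exact abs_le_of_sq_le_sq h (norm_nonneg _)

/-- the block of times between `i / N` and `j / N` -/
def pf_tri_I (N i j : ℕ) : Set unitInterval := {t | (i : ℝ) ≤ N * (t : ℝ) ∧ N * (t : ℝ) ≤ j}

theorem pf_tri_I_compact (N i j : ℕ) : IsCompact (pf_tri_I N i j) := by
  have h1 : IsClosed {t : unitInterval | (i : ℝ) ≤ N * (t : ℝ)} :=
    isClosed_le (by fun_prop) (by fun_prop)
  have h2 : IsClosed {t : unitInterval | N * (t : ℝ) ≤ j} :=
    isClosed_le (by fun_prop) (by fun_prop)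
  exact (h1.inter h2).isCompact

theorem pf_tri_I_ne {N i j : ℕ} (hij : i ≤ j) (hiN : i ≤ N) (hN : 0 < N) :
    (pf_tri_I N i j).Nonempty := by
  have hN' : (0 : ℝ) < N := by exact_mod_cast hN
  have hiN' : (i : ℝ) ≤ N := by exact_mod_cast hiN
  have hij' : (i : ℝ) ≤ j := by exact_mod_cast hij
  refine ⟨⟨(i : ℝ) / N, by positivity, by rw [div_le_one hN']; exact hiN'⟩, ?_⟩
  have e : (N : ℝ) * ((i : ℝ) / N) = i := by field_simp
  constructor
  · show (i : ℝ) ≤ (N : ℝ) * ((i : ℝ) / N)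
    rw [e]
  · show (N : ℝ) * ((i : ℝ) / N) ≤ j
    rw [e]; exact hij'

/-- the support function of a block -/
noncomputable def pf_tri_h (N i j : ℕ) (b : Lo) (θ : ℝ) : ℝ := hs (b '' pf_tri_I N i j) θ

theorem pf_tri_h_great (h3 : S_hs) {N i j : ℕ} (hne : (pf_tri_I N i j).Nonempty) (b : Lo) (θ : ℝ) :
    IsGreatest (yy θ '' (b '' pf_tri_I N i j)) (pf_tri_h N i j b θ) :=
  pf_tri_great h3 ((pf_tri_I_compact N i j).image b.continuous) (hne.image _) θ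

theorem pf_tri_h_lip (h3 : S_hs) {N i j : ℕ} (hne : (pf_tri_I N i j).Nonempty) (b : Lo) :
    ∃ C, LipschitzWith C (pf_tri_h N i j b) := by
  have hK : IsCompact (b '' pf_tri_I N i j) := (pf_tri_I_compact N i j).image b.continuous
  obtain ⟨ρ, hρ⟩ := hK.isBounded.subset_closedBall (0 : ℂ)
  exact ⟨_, (h3 _ ρ hK (hne.image _) hρ).2.2.2.1⟩

theorem pf_tri_h_cont (h3 : S_hs) {N i j : ℕ} (hne : (pf_tri_I N i j).Nonempty) :
    Continuous (fun p : Lo × ℝ => pf_tri_h N i j p.1 p.2) := by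
  refine continuous_prod_of_continuous_lipschitzWith _ 1 ?_ ?_
  · intro b
    obtain ⟨C, hC⟩ := pf_tri_h_lip h3 hne b
    exact hC.continuous
  · intro θ
    refine LipschitzWith.of_dist_le_mul fun b b' => ?_
    rw [NNReal.coe_one, one_mul, Real.dist_eq]
    have key : ∀ b b' : Lo, pf_tri_h N i j b θ - pf_tri_h N i j b' θ ≤ dist b b' := by
      intro b b'
      obtain ⟨⟨_, ⟨t, ht, rfl⟩, e⟩, -⟩ := pf_tri_h_great h3 hne b θ
      have h2 := (pf_tri_h_great h3 hne b' θ).2 ⟨b' t, ⟨t, ht, rfl⟩, rfl⟩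
      have h4 : yy θ (b t) = yy θ (b' t) + yy θ (b t - b' t) := by
        rw [← pf_tri_yy_add]; congr 1; ring
      have h5 := (le_abs_self _).trans (pf_tri_yy_le θ (b t - b' t))
      have h6 : ‖b t - b' t‖ ≤ dist b b' := by
        rw [← dist_eq_norm]
        exact ContinuousMap.dist_apply_le_dist t
      show pf_tri_h N i j b θ - pf_tri_h N i j b' θ ≤ dist b b'
      rw [← e]
      linarith
    rw [abs_le]
    constructor
    · have := key b' b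
      rw [dist_comm] at this
      linarith
    · exact key b b'

/-- the bad event for three blocks -/
def pf_tri_A (N i1 j1 i2 j2 i3 j3 : ℕ) : Set Lo := {b | ∃ θ ∈ Icc (0:ℝ) (2 * π),
  pf_tri_h N i1 j1 b θ = pf_tri_h N i2 j2 b θ ∧ pf_tri_h N i1 j1 b θ = pf_tri_h N i3 j3 b θ}

theorem pf_tri_A_closed (h3 : S_hs) {N i1 j1 i2 j2 i3 j3 : ℕ} (n1 : (pf_tri_I N i1 j1).Nonempty)
    (n2 : (pf_tri_I N i2 j2).Nonempty) (n3 : (pf_tri_I N i3 j3).Nonempty) :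
    IsClosed (pf_tri_A N i1 j1 i2 j2 i3 j3) := by
  have c1 := pf_tri_h_cont h3 n1
  have c2 := pf_tri_h_cont h3 n2
  have c3 := pf_tri_h_cont h3 n3
  have hcl : IsClosed {p : Lo × ℝ | pf_tri_h N i1 j1 p.1 p.2 = pf_tri_h N i2 j2 p.1 p.2 ∧
      pf_tri_h N i1 j1 p.1 p.2 = pf_tri_h N i3 j3 p.1 p.2} :=
    (isClosed_eq c1 c2).inter (isClosed_eq c1 c3)
  have hcomp : IsCompact (Icc (0:ℝ) (2 * π)) := isCompact_Icc
  have e : pf_tri_A N i1 j1 i2 j2 i3 j3 = Prod.fst '' ({p : Lo × ℝ |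
      pf_tri_h N i1 j1 p.1 p.2 = pf_tri_h N i2 j2 p.1 p.2 ∧
      pf_tri_h N i1 j1 p.1 p.2 = pf_tri_h N i3 j3 p.1 p.2} ∩ univ ×ˢ Icc (0:ℝ) (2 * π)) := by
    ext b
    constructor
    · rintro ⟨θ, hθ, h⟩
      exact ⟨(b, θ), ⟨h, mem_univ _, hθ⟩, rfl⟩
    · rintro ⟨⟨b', θ⟩, ⟨h, -, hθ⟩, rfl⟩
      exact ⟨θ, hθ, h⟩
  rw [e]
  have : CompactSpace (Icc (0:ℝ) (2 * π)) := isCompact_iff_compactSpace.1 hcomp
  have hpr : IsClosedMap (Prod.fst : Lo × (Icc (0:ℝ) (2 * π)) → Lo) := isClosedMap_fst_of_compactSpace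
  have e2 : Prod.fst '' ({p : Lo × ℝ |
      pf_tri_h N i1 j1 p.1 p.2 = pf_tri_h N i2 j2 p.1 p.2 ∧
      pf_tri_h N i1 j1 p.1 p.2 = pf_tri_h N i3 j3 p.1 p.2} ∩ univ ×ˢ Icc (0:ℝ) (2 * π)) =
      Prod.fst '' ((fun p : Lo × (Icc (0:ℝ) (2 * π)) => (p.1, (p.2 : ℝ))) ⁻¹' {p : Lo × ℝ |
      pf_tri_h N i1 j1 p.1 p.2 = pf_tri_h N i2 j2 p.1 p.2 ∧
      pf_tri_h N i1 j1 p.1 p.2 = pf_tri_h N i3 j3 p.1 p.2}) := by
    ext b
    constructor
    · rintro ⟨⟨b', θ⟩, ⟨h, -, hθ⟩, rfl⟩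
      exact ⟨(b', ⟨θ, hθ⟩), h, rfl⟩
    · rintro ⟨⟨b', θ⟩, h, rfl⟩
      exact ⟨(b', θ.1), ⟨h, mem_univ _, θ.2⟩, rfl⟩
  rw [e2]
  exact hpr _ (hcl.preimage (by fun_prop))

/-- trapezoidal function: `1` on the block -/
noncomputable def pf_tri_tr (N i j : ℕ) : Lo :=
  ⟨fun t => ((max 0 (min 1 (min ((N : ℝ) * (t : ℝ) - (i - 1)) (j + 1 - (N : ℝ) * (t : ℝ)))) : ℝ) : ℂ),
    by fun_prop⟩

theorem pf_tri_tr_apply (N i j : ℕ) (t : unitInterval) : pf_tri_tr N i j t =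
    ((max 0 (min 1 (min ((N : ℝ) * (t : ℝ) - (i - 1)) (j + 1 - (N : ℝ) * (t : ℝ)))) : ℝ) : ℂ) := rfl

theorem pf_tri_tr_one {N i j : ℕ} {t : unitInterval} (ht : t ∈ pf_tri_I N i j) :
    pf_tri_tr N i j t = 1 := by
  rw [pf_tri_tr_apply]
  have h : (max 0 (min 1 (min ((N : ℝ) * (t : ℝ) - (i - 1)) (j + 1 - (N : ℝ) * (t : ℝ)))) : ℝ) = 1 := by
    obtain ⟨h1, h2⟩ := ht
    rw [min_eq_left, max_eq_right]
    · norm_num
    · apply le_min <;> linarith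
  rw [h]; simp

theorem pf_tri_tr_zero {N i j : ℕ} {t : unitInterval}
    (ht : N * (t : ℝ) ≤ (i : ℝ) - 1 ∨ (j : ℝ) + 1 ≤ N * (t : ℝ)) :
    pf_tri_tr N i j t = 0 := by
  rw [pf_tri_tr_apply]
  have h : (max 0 (min 1 (min ((N : ℝ) * (t : ℝ) - (i - 1)) (j + 1 - (N : ℝ) * (t : ℝ)))) : ℝ) = 0 := by
    apply max_eq_left
    rcases ht with ht | ht
    · exact (min_le_right _ _).trans ((min_le_left _ _).trans (by linarith))
    · exact (min_le_right _ _).trans ((min_le_right _ _).trans (by linarith))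
  rw [h]; simp

/-- nodal values -/
noncomputable def pf_tri_v (i j r : ℕ) : ℂ := if i ≤ r ∧ r ≤ j then 1 else 0

theorem pf_tri_tr_pl {m i j : ℕ} (hij : i ≤ j) (r : ℕ) (t : unitInterval)
    (h1 : (r : ℝ) ≤ ((m : ℝ) + 1) * t) (h2 : ((m : ℝ) + 1) * t ≤ r + 1) :
    pf_tri_tr (m + 1) i j t = pf_tri_v i j r +
      ((((m : ℝ) + 1) * t - r : ℝ) : ℂ) * (pf_tri_v i j (r + 1) - pf_tri_v i j r) := by
  have hN : ((m + 1 : ℕ) : ℝ) = (m : ℝ) + 1 := by push_cast; ring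
  by_cases c1 : i ≤ r
  · by_cases c2 : r + 1 ≤ j
    · have v1 : pf_tri_v i j r = 1 := if_pos ⟨c1, by omega⟩
      have v2 : pf_tri_v i j (r + 1) = 1 := if_pos ⟨by omega, c2⟩
      rw [v1, v2, pf_tri_tr_one]
      · ring
      · have c1' : (i : ℝ) ≤ r := by exact_mod_cast c1
        have c2' : (r : ℝ) + 1 ≤ j := by exact_mod_cast c2
        constructor
        · rw [hN]; linarith
        · rw [hN]; linarith
    · by_cases c3 : r ≤ j
      · have c4 : r = j := by omega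
        have v1 : pf_tri_v i j r = 1 := if_pos ⟨c1, by omega⟩
        have v2 : pf_tri_v i j (r + 1) = 0 := if_neg (by omega)
        rw [v1, v2, pf_tri_tr_apply, hN]
        have c1' : (i : ℝ) ≤ r := by exact_mod_cast c1
        subst c4
        have e : (max 0 (min 1 (min (((m : ℝ) + 1) * (t : ℝ) - (i - 1))
            (r + 1 - ((m : ℝ) + 1) * (t : ℝ)))) : ℝ) = r + 1 - ((m : ℝ) + 1) * (t : ℝ) := by
          rw [min_eq_right (a := ((m : ℝ) + 1) * (t : ℝ) - (i - 1)) (by linarith),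
            min_eq_right (by linarith), max_eq_right (by linarith)]
        rw [e]
        push_cast
        ring
      · have v1 : pf_tri_v i j r = 0 := if_neg (by omega)
        have v2 : pf_tri_v i j (r + 1) = 0 := if_neg (by omega)
        have c3' : (j : ℝ) + 1 ≤ r := by exact_mod_cast (by omega : j + 1 ≤ r)
        rw [v1, v2, pf_tri_tr_zero]
        · ring
        · right; rw [hN]; linarith
  · by_cases c2 : i ≤ r + 1
    · have c4 : i = r + 1 := by omega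
      have v1 : pf_tri_v i j r = 0 := if_neg (by omega)
      have v2 : pf_tri_v i j (r + 1) = 1 := if_pos ⟨c2, by omega⟩
      rw [v1, v2, pf_tri_tr_apply, hN]
      subst c4
      have c1' : (r : ℝ) + 1 ≤ j := by exact_mod_cast hij
      have e : (max 0 (min 1 (min (((m : ℝ) + 1) * (t : ℝ) - (((r + 1 : ℕ) : ℝ) - 1))
          (j + 1 - ((m : ℝ) + 1) * (t : ℝ)))) : ℝ) = ((m : ℝ) + 1) * (t : ℝ) - r := by
        push_cast
        rw [min_eq_left (a := ((m : ℝ) + 1) * (t : ℝ) - ((r : ℝ) + 1 - 1)) (by linarith),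
          min_eq_right (by linarith), max_eq_right (by linarith)]
        ring
      rw [e]
      push_cast
      ring
    · have v1 : pf_tri_v i j r = 0 := if_neg (by omega)
      have v2 : pf_tri_v i j (r + 1) = 0 := if_neg (by omega)
      have c3' : (r : ℝ) + 2 ≤ i := by exact_mod_cast (by omega : r + 2 ≤ i)
      rw [v1, v2, pf_tri_tr_zero]
      · ring
      · left; rw [hN]; linarith

/-- each bad event is null -/
theorem pf_tri_null (h1 : S_n3) (h2 : S_qi) (h3 : S_hs) (μ : Measure Lo) (hμ : IsLoop μ)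
    {m i1 j1 i2 j2 i3 j3 : ℕ} (a1 : i1 ≤ j1) (a2 : j1 < i2) (a3 : i2 ≤ j2) (a4 : j2 < i3)
    (a5 : i3 ≤ j3) (a6 : j3 < m + 1) : ∀ᵐ b ∂μ, b ∉ pf_tri_A (m + 1) i1 j1 i2 j2 i3 j3 := by
  have := hμ.prob
  have n1 : (pf_tri_I (m + 1) i1 j1).Nonempty := pf_tri_I_ne a1 (by omega) (by omega)
  have n2 : (pf_tri_I (m + 1) i2 j2).Nonempty := pf_tri_I_ne a3 (by omega) (by omega)
  have n3 : (pf_tri_I (m + 1) i3 j3).Nonempty := pf_tri_I_ne a5 (by omega) (by omega)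
  have hcl := pf_tri_A_closed h3 n1 n2 n3
  set f2 : Lo := pf_tri_tr (m + 1) i2 j2 with hf2
  set f3 : Lo := pf_tri_tr (m + 1) i3 j3 with hf3
  have b2 : (j1 : ℝ) + 1 ≤ i2 := by exact_mod_cast a2
  have b4 : (j2 : ℝ) + 1 ≤ i3 := by exact_mod_cast a4
  have b1 : (i1 : ℝ) ≤ j1 := by exact_mod_cast a1
  have b3 : (i2 : ℝ) ≤ j2 := by exact_mod_cast a3
  have b5 : (i3 : ℝ) ≤ j3 := by exact_mod_cast a5
  have b6 : (j3 : ℝ) + 1 ≤ m + 1 := by exact_mod_cast a6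
  have b0 : (0 : ℝ) ≤ i1 := Nat.cast_nonneg _
  -- values on the blocks
  have v1 : ∀ (b : Lo) (p q : ℂ), ∀ t ∈ pf_tri_I (m + 1) i1 j1, (b + p • f2 + q • f3) t = b t := by
    intro b p q t ht
    have e2 : f2 t = 0 := pf_tri_tr_zero (Or.inl (by have := ht.2; linarith))
    have e3 : f3 t = 0 := pf_tri_tr_zero (Or.inl (by have := ht.2; linarith))
    simp [e2, e3]
  have v2 : ∀ (b : Lo) (p q : ℂ), ∀ t ∈ pf_tri_I (m + 1) i2 j2,
      (b + p • f2 + q • f3) t = b t + p := by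
    intro b p q t ht
    have e2 : f2 t = 1 := pf_tri_tr_one ht
    have e3 : f3 t = 0 := pf_tri_tr_zero (Or.inl (by have := ht.2; linarith))
    simp [e2, e3]
  have v3 : ∀ (b : Lo) (p q : ℂ), ∀ t ∈ pf_tri_I (m + 1) i3 j3,
      (b + p • f2 + q • f3) t = b t + q := by
    intro b p q t ht
    have e2 : f2 t = 0 := pf_tri_tr_zero (Or.inr (by have := ht.1; linarith))
    have e3 : f3 t = 1 := pf_tri_tr_one ht
    simp [e2, e3]
  have sh : ∀ (N i j : ℕ), (pf_tri_I N i j).Nonempty → ∀ (b b' : Lo) (p : ℂ),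
      (∀ t ∈ pf_tri_I N i j, b' t = b t + p) → ∀ θ,
      pf_tri_h N i j b' θ = pf_tri_h N i j b θ + yy θ p := by
    intro N i j hne b b' p hb θ
    have g1 := pf_tri_h_great h3 hne b θ
    have g2 := pf_tri_h_great h3 hne b' θ
    refine g2.unique ⟨?_, ?_⟩
    · obtain ⟨_, ⟨t, ht, rfl⟩, e⟩ := g1.1
      refine ⟨b' t, ⟨t, ht, rfl⟩, ?_⟩
      rw [hb t ht, pf_tri_yy_add, e]
    · rintro _ ⟨_, ⟨t, ht, rfl⟩, rfl⟩
      rw [hb t ht, pf_tri_yy_add]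
      have := g1.2 ⟨b t, ⟨t, ht, rfl⟩, rfl⟩
      linarith
  -- sections are null
  have hsec : ∀ᵐ b ∂μ, ∀ᵐ pq ∂(volume : Measure (ℂ × ℂ)),
      b + pq.1 • f2 + pq.2 • f3 ∉ pf_tri_A (m + 1) i1 j1 i2 j2 i3 j3 := by
    refine Eventually.of_forall fun b => ?_
    obtain ⟨C1, hC1⟩ := pf_tri_h_lip h3 n1 b
    obtain ⟨C2, hC2⟩ := pf_tri_h_lip h3 n2 b
    obtain ⟨C3, hC3⟩ := pf_tri_h_lip h3 n3 b
    have hnull := h1 (fun θ => pf_tri_h (m + 1) i1 j1 b θ - pf_tri_h (m + 1) i2 j2 b θ)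
      (fun θ => pf_tri_h (m + 1) i1 j1 b θ - pf_tri_h (m + 1) i3 j3 b θ)
      ⟨_, hC1.sub hC2⟩ ⟨_, hC1.sub hC3⟩
    rw [ae_iff]
    refine measure_mono_null ?_ hnull
    intro pq hpq
    simp only [not_not, mem_ofPred_eq] at hpq
    obtain ⟨θ, hθ, e1, e2⟩ := hpq
    have s1 := sh _ _ _ n1 b (b + pq.1 • f2 + pq.2 • f3) 0
      (fun t ht => by rw [v1 b pq.1 pq.2 t ht, add_zero]) θ
    have s2 := sh _ _ _ n2 b (b + pq.1 • f2 + pq.2 • f3) pq.1 (v2 b pq.1 pq.2) θ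
    have s3 := sh _ _ _ n3 b (b + pq.1 • f2 + pq.2 • f3) pq.2 (v3 b pq.1 pq.2) θ
    have y0 : yy θ 0 = 0 := by simp [yy]
    rw [s1, s2, y0] at e1
    rw [s1, s3, y0] at e2
    refine ⟨θ, hθ, ?_, ?_⟩
    · show yy θ pq.1 = pf_tri_h (m + 1) i1 j1 b θ - pf_tri_h (m + 1) i2 j2 b θ
      linarith
    · show yy θ pq.2 = pf_tri_h (m + 1) i1 j1 b θ - pf_tri_h (m + 1) i3 j3 b θ
      linarith
  have hmeas : MeasurableSet {x : Lo × (ℂ × ℂ) |
      x.1 + x.2.1 • f2 + x.2.2 • f3 ∉ pf_tri_A (m + 1) i1 j1 i2 j2 i3 j3} := by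
    have hc : Continuous (fun x : Lo × (ℂ × ℂ) => x.1 + x.2.1 • f2 + x.2.2 • f3) := by fun_prop
    exact (hcl.isOpen_compl.preimage hc).measurableSet
  have hsw := (Measure.ae_ae_comm hmeas).1 hsec
  obtain ⟨⟨p, q⟩, hpq⟩ := hsw.exists
  simp only at hpq
  -- quasi-invariance
  set f : Lo := p • f2 + q • f3 with hf
  have hPL : PL m (-f) := by
    refine ⟨fun r => -(p * pf_tri_v i2 j2 r + q * pf_tri_v i3 j3 r), ?_⟩
    intro r hr t ht1 ht2
    have w2 := pf_tri_tr_pl (m := m) (i := i2) (j := j2) a3 r t ht1 ht2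
    have w3 := pf_tri_tr_pl (m := m) (i := i3) (j := j3) a5 r t ht1 ht2
    have e : (-f) t = -(p * f2 t + q * f3 t) := by simp [hf]
    rw [e, hf2, hf3, w2, w3]
    ring
  have z0 : (-f) 0 = 0 := by
    have e2 : f2 0 = 0 := pf_tri_tr_zero (Or.inl (by simp; linarith))
    have e3 : f3 0 = 0 := pf_tri_tr_zero (Or.inl (by simp; linarith))
    simp [hf, e2, e3]
  have z1 : (-f) 1 = 0 := by
    have e2 : f2 1 = 0 := pf_tri_tr_zero (Or.inr (by simp; linarith))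
    have e3 : f3 1 = 0 := pf_tri_tr_zero (Or.inr (by simp; linarith))
    simp [hf, e2, e3]
  have hac := h2 μ hμ m (-f) hPL z0 z1
  have hpq' : ∀ᵐ b ∂μ, b + f ∉ pf_tri_A (m + 1) i1 j1 i2 j2 i3 j3 := by
    filter_upwards [hpq] with b hb
    rw [hf, ← add_assoc]
    exact hb
  have hac' := hac.ae_le hpq'
  have hmp : AEMeasurable (fun b : Lo => b + -f) μ := by
    have : Continuous (fun b : Lo => b + -f) := by fun_prop
    exact this.measurable.aemeasurable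
  have hfin := ae_of_ae_map hmp hac'
  filter_upwards [hfin] with b hb
  rwa [neg_add_cancel_right] at hb

theorem pf_tri (h1 : S_n3) (h2 : S_qi) (h3 : S_hs) (h4 : S_end) : S_tri := by
  intro μ hμ
  have hall : ∀ᵐ b ∂μ, ∀ m i1 j1 i2 j2 i3 j3 : ℕ, i1 ≤ j1 → j1 < i2 → i2 ≤ j2 → j2 < i3 →
      i3 ≤ j3 → j3 < m + 1 → b ∉ pf_tri_A (m + 1) i1 j1 i2 j2 i3 j3 := by
    simp only [ae_all_iff]
    intro m i1 j1 i2 j2 i3 j3 a1 a2 a3 a4 a5 a6
    exact pf_tri_null h1 h2 h3 μ hμ a1 a2 a3 a4 a5 a6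
  filter_upwards [hall, h4 μ hμ] with b hb hend
  have hK : IsCompact (rg b) := isCompact_range b.continuous
  have hKne : (rg b).Nonempty := range_nonempty b
  -- three ordered times
  have key : ∀ θ ∈ Icc (0:ℝ) (2 * π), ∀ t1 t2 t3 : unitInterval, (t1 : ℝ) < t2 → (t2 : ℝ) < t3 →
      (t3 : ℝ) < 1 → yy θ (b t1) = hs (rg b) θ → yy θ (b t2) = hs (rg b) θ →
      yy θ (b t3) = hs (rg b) θ → False := by
    intro θ hθ t1 t2 t3 l1 l2 l3 e1 e2 e3
    have hd : 0 < min ((t2 : ℝ) - t1) (min ((t3 : ℝ) - t2) (1 - t3)) := by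
      refine lt_min ?_ (lt_min ?_ ?_) <;> linarith
    obtain ⟨m, hm⟩ := exists_nat_gt (3 / min ((t2 : ℝ) - t1) (min ((t3 : ℝ) - t2) (1 - t3)))
    rw [div_lt_iff₀ hd] at hm
    have hm' : 3 < ((m : ℝ) + 1) * min ((t2 : ℝ) - t1) (min ((t3 : ℝ) - t2) (1 - t3)) := by
      nlinarith
    have g1 : 3 < ((m : ℝ) + 1) * ((t2 : ℝ) - t1) :=
      hm'.trans_le (by gcongr; exact min_le_left _ _)
    have g2 : 3 < ((m : ℝ) + 1) * ((t3 : ℝ) - t2) :=
      hm'.trans_le (by gcongr; exact (min_le_right _ _).trans (min_le_left _ _))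
    have g3 : 3 < ((m : ℝ) + 1) * (1 - (t3 : ℝ)) :=
      hm'.trans_le (by gcongr; exact (min_le_right _ _).trans (min_le_right _ _))
    have n1 : 0 ≤ ((m : ℝ) + 1) * (t1 : ℝ) := mul_nonneg (by positivity) t1.2.1
    have n2 : 0 ≤ ((m : ℝ) + 1) * (t2 : ℝ) := mul_nonneg (by positivity) t2.2.1
    have n3 : 0 ≤ ((m : ℝ) + 1) * (t3 : ℝ) := mul_nonneg (by positivity) t3.2.1
    have f1 := Nat.floor_le n1
    have f2 := Nat.floor_le n2
    have f3 := Nat.floor_le n3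
    have f1' := Nat.lt_floor_add_one (((m : ℝ) + 1) * (t1 : ℝ))
    have f2' := Nat.lt_floor_add_one (((m : ℝ) + 1) * (t2 : ℝ))
    have f3' := Nat.lt_floor_add_one (((m : ℝ) + 1) * (t3 : ℝ))
    set i1 := ⌊((m : ℝ) + 1) * (t1 : ℝ)⌋₊
    set i2 := ⌊((m : ℝ) + 1) * (t2 : ℝ)⌋₊
    set i3 := ⌊((m : ℝ) + 1) * (t3 : ℝ)⌋₊
    have c12 : i1 + 1 < i2 := by
      have : ((i1 : ℝ) + 1) < i2 := by linarith
      exact_mod_cast this
    have c23 : i2 + 1 < i3 := by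
      have : ((i2 : ℝ) + 1) < i3 := by linarith
      exact_mod_cast this
    have c3 : i3 + 1 < m + 1 := by
      have : ((i3 : ℝ) + 1) < m + 1 := by linarith
      exact_mod_cast this
    refine hb m i1 (i1 + 1) i2 (i2 + 1) i3 (i3 + 1) (by omega) c12 (by omega) c23 (by omega) c3 ?_
    have hN : ((m + 1 : ℕ) : ℝ) = (m : ℝ) + 1 := by push_cast; ring
    have blk : ∀ (i : ℕ) (t : unitInterval), (i : ℝ) ≤ ((m : ℝ) + 1) * t →
        ((m : ℝ) + 1) * t < i + 1 → yy θ (b t) = hs (rg b) θ →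
        pf_tri_h (m + 1) i (i + 1) b θ = hs (rg b) θ := by
      intro i t q1 q2 e
      have htI : t ∈ pf_tri_I (m + 1) i (i + 1) := by
        refine ⟨?_, ?_⟩
        · rw [hN]; exact q1
        · rw [hN]; push_cast; exact q2.le
      have g := pf_tri_h_great h3 ⟨t, htI⟩ b θ
      refine g.unique ⟨⟨b t, ⟨t, htI, rfl⟩, e⟩, ?_⟩
      rintro _ ⟨_, ⟨s, hs', rfl⟩, rfl⟩
      exact (pf_tri_great h3 hK hKne θ).2 ⟨b s, ⟨s, rfl⟩, rfl⟩
    refine ⟨θ, hθ, ?_, ?_⟩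
    · rw [blk i1 t1 f1 f1' e1, blk i2 t2 f2 f2' e2]
    · rw [blk i1 t1 f1 f1' e1, blk i3 t3 f3 f3' e3]
  -- unordered times
  have key2 : ∀ θ ∈ Icc (0:ℝ) (2 * π), ∀ k1 ∈ face (rg b) θ, ∀ k2 ∈ face (rg b) θ,
      ∀ k3 ∈ face (rg b) θ, k1 = k2 ∨ k2 = k3 ∨ k1 = k3 := by
    intro θ hθ k1 hk1 k2 hk2 k3 hk3
    by_contra hcon
    push Not at hcon
    obtain ⟨c1, c2, c3⟩ := hcon
    have rep : ∀ k ∈ face (rg b) θ, ∃ t : unitInterval, (t : ℝ) < 1 ∧ b t = k ∧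
        yy θ (b t) = hs (rg b) θ := by
      rintro k ⟨⟨t, rfl⟩, hk⟩
      by_cases ht : (t : ℝ) < 1
      · exact ⟨t, ht, rfl, hk⟩
      · have ht1 : t = 1 := by
          apply Subtype.ext
          exact le_antisymm t.2.2 (not_lt.1 ht)
        have e : b 0 = b t := by rw [ht1, hend.1, hend.2]
        exact ⟨0, by simp, e, by rw [e]; exact hk⟩
    obtain ⟨t1, l1, e1, y1⟩ := rep k1 hk1
    obtain ⟨t2, l2, e2, y2⟩ := rep k2 hk2
    obtain ⟨t3, l3, e3, y3⟩ := rep k3 hk3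
    have d12 : (t1 : ℝ) ≠ t2 := by
      intro h
      exact c1 (by rw [← e1, ← e2, Subtype.ext h])
    have d23 : (t2 : ℝ) ≠ t3 := by
      intro h
      exact c2 (by rw [← e2, ← e3, Subtype.ext h])
    have d13 : (t1 : ℝ) ≠ t3 := by
      intro h
      exact c3 (by rw [← e1, ← e3, Subtype.ext h])
    rcases lt_or_gt_of_ne d12 with o12 | o12
    · rcases lt_or_gt_of_ne d23 with o23 | o23
      · exact key θ hθ t1 t2 t3 o12 o23 l3 y1 y2 y3
      · rcases lt_or_gt_of_ne d13 with o13 | o13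
        · exact key θ hθ t1 t3 t2 o13 o23 l2 y1 y3 y2
        · exact key θ hθ t3 t1 t2 o13 o12 l2 y3 y1 y2
    · rcases lt_or_gt_of_ne d13 with o13 | o13
      · exact key θ hθ t2 t1 t3 o12 o13 l3 y2 y1 y3
      · rcases lt_or_gt_of_ne d23 with o23 | o23
        · exact key θ hθ t2 t3 t1 o23 o13 l1 y2 y3 y1
        · exact key θ hθ t3 t2 t1 o23 o12 l1 y3 y2 y1
  -- periodicity
  intro θ a ha c hc d hd
  have h2pi : 0 < 2 * π := by positivity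
  obtain ⟨n, hn⟩ : ∃ n : ℤ, toIcoMod h2pi 0 θ = θ - n • (2 * π) :=
    ⟨toIcoDiv h2pi 0 θ, rfl⟩
  have hmem := toIcoMod_mem_Ico h2pi 0 θ
  rw [zero_add] at hmem
  have hyy : ∀ k : ℂ, yy (toIcoMod h2pi 0 θ) k = yy θ k := by
    intro k
    rw [hn, yy, yy, zsmul_eq_mul, Real.cos_sub_int_mul_two_pi, Real.sin_sub_int_mul_two_pi]
  have hhs : hs (rg b) (toIcoMod h2pi 0 θ) = hs (rg b) θ := by
    unfold hs
    congr 1
    ext x
    simp only [mem_image, hyy]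
  have hface : ∀ k, k ∈ face (rg b) θ → k ∈ face (rg b) (toIcoMod h2pi 0 θ) := by
    rintro k ⟨hk, e⟩
    exact ⟨hk, by rw [hyy, hhs]; exact e⟩
  exact key2 _ ⟨hmem.1, hmem.2.le⟩ a (hface a ha) c (hface c hc) d (hface d hd)

end Pool.Agent.H212AN
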