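import Pool.Agent.H212AN.D2
import Pool.Agent.Helper682.Coax.K1

set_option autoImplicit false

namespace Pool.Agent.H212AN

open MeasureTheory Set Filter Topology Metric
open Pool.Agent.W594.AN (ClosedCurve)
open scoped Real ENNReal ComplexConjugate

/-- the curve is a null set -/
theorem pf_ul_null (c : ClosedCurve) : volume (range c.γ) = 0 := by
  have h := MeasureTheory.addHaar_image_eq_zero_of_det_fderivWithin_eq_zero (volume : Measure ℂ)
    (s := univ) (f := fun z : ℂ => c.γ z.re)
    (f' := fun z => (ContinuousLinearMap.smulRight (1 : ℝ →L[ℝ] ℝ) (deriv c.γ z.re)).comp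
      Complex.reCLM) ?_ ?_
  · have e : (fun z : ℂ => c.γ z.re) '' univ = range c.γ := by
      ext w; constructor
      · rintro ⟨z, -, rfl⟩; exact ⟨z.re, rfl⟩
      · rintro ⟨t, rfl⟩; exact ⟨(t : ℂ), trivial, by simp⟩
    rwa [e] at h
  · intro z _
    exact ((c.hasDerivAt z.re).hasFDerivAt.comp z Complex.reCLM.hasFDerivAt).hasFDerivWithinAt
  · intro z _
    by_contra hne
    set A : ℂ →L[ℝ] ℂ := (ContinuousLinearMap.smulRight (1 : ℝ →L[ℝ] ℝ) (deriv c.γ z.re)).comp
      Complex.reCLM with hA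
    have h1 : LinearMap.det (A : ℂ →ₗ[ℝ] ℂ) ≠ 0 := hne
    let e := LinearMap.equivOfDetNeZero (A : ℂ →ₗ[ℝ] ℂ) h1
    have h2 : e Complex.I = 0 := by
      show A Complex.I = 0
      simp [hA]
    have h3 : Complex.I = 0 := by
      rwa [LinearEquiv.map_eq_zero_iff] at h2
    exact Complex.I_ne_zero h3

theorem pf_ul_total (c : ClosedCurve) (t₀ : ℝ) (hmax : ∀ t, (c.γ t).re ≤ (c.γ t₀).re)
    (hd : deriv c.γ t₀ = Complex.I) : c.totalCurvature = 2 * π := by
  have hL := c.L_pos
  have hL0 : c.L ≠ 0 := hL.ne'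
  have h2 : ∀ t, HasDerivAt (fun t : ℝ => c.L * t) c.L t := fun t => by
    simpa using (hasDerivAt_id t).const_mul c.L
  have d1 : ∀ t, HasDerivAt (fun t => c.γ (c.L * t)) ((c.L : ℂ) * deriv c.γ (c.L * t)) t := by
    intro t
    have h3 := (c.hasDerivAt (c.L * t)).scomp t (h2 t)
    rw [Complex.real_smul] at h3
    exact h3
  have e1 : deriv (fun t => c.γ (c.L * t)) = fun t => (c.L : ℂ) * deriv c.γ (c.L * t) := by
    funext t; exact (d1 t).deriv
  have d2 : ∀ t, HasDerivAt (fun t => (c.L : ℂ) * deriv c.γ (c.L * t))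
      ((c.L : ℂ) * ((c.L : ℂ) * deriv (deriv c.γ) (c.L * t))) t := by
    intro t
    have h3 := (c.hasDerivAt' (c.L * t)).scomp t (h2 t)
    rw [Complex.real_smul] at h3
    exact h3.const_mul _
  have key := Pool.Agent.Helper682.Coax.K1.umlauf (fun t => c.γ (c.L * t)) ?_ ?_ ?_ ?_ (t₀ / c.L) ?_ ?_
  · rw [e1] at key
    have e2 : ∀ t : ℝ, (deriv (fun t => (c.L : ℂ) * deriv c.γ (c.L * t)) t /
        ((c.L : ℂ) * deriv c.γ (c.L * t))).im = c.L * c.curvature (c.L * t) := by
      intro t
      rw [(d2 t).deriv, c.second]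
      have hne : deriv c.γ (c.L * t) ≠ 0 := by
        intro h0
        have := c.unit_speed (c.L * t)
        rw [h0] at this
        simp at this
      have hLc : (c.L : ℂ) ≠ 0 := by exact_mod_cast hL0
      have : (c.L : ℂ) * ((c.L : ℂ) * (Complex.I * c.curvature (c.L * t) * deriv c.γ (c.L * t))) /
          ((c.L : ℂ) * deriv c.γ (c.L * t)) = ((c.L * c.curvature (c.L * t) : ℝ) : ℂ) * Complex.I := by
        push_cast
        field_simp
      rw [this]
      simp
    simp only [e2] at key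
    have h4 := intervalIntegral.mul_integral_comp_mul_left (f := c.curvature) (a := 0) (b := 1) c.L
    rw [mul_zero, mul_one] at h4
    unfold ClosedCurve.totalCurvature
    rw [← h4, ← key, intervalIntegral.integral_const_mul]
  · have := c.smooth.comp (contDiff_const.mul contDiff_id : ContDiff ℝ (⊤ : ℕ∞) (fun t : ℝ => c.L * t))
    exact_mod_cast contDiff_infty.1 this 2
  · intro t
    show c.γ (c.L * (t + 1)) = c.γ (c.L * t)
    rw [mul_add, mul_one, c.periodic]
  · intro s hs t ht hst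
    have h5 := c.injOn (show c.L * s ∈ Ico 0 c.L from ⟨by have := hs.1; positivity, by nlinarith [hs.2]⟩)
      (show c.L * t ∈ Ico 0 c.L from ⟨by have := ht.1; positivity, by nlinarith [ht.2]⟩) hst
    exact mul_left_cancel₀ hL0 h5
  · intro t h0
    rw [e1] at h0
    have hLc : (c.L : ℂ) ≠ 0 := by exact_mod_cast hL0
    have h6 : deriv c.γ (c.L * t) = 0 := by
      rcases mul_eq_zero.1 h0 with h | h
      · exact absurd h hLc
      · exact h
    have := c.unit_speed (c.L * t)
    rw [h6] at this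
    simp at this
  · intro t
    show (c.γ (c.L * t)).re ≤ (c.γ (c.L * (t₀ / c.L))).re
    rw [mul_div_cancel₀ _ hL0]
    exact hmax _
  · rw [e1]
    show 0 < ((c.L : ℂ) * deriv c.γ (c.L * (t₀ / c.L))).im
    rw [mul_div_cancel₀ _ hL0, hd]
    simpa using hL

theorem pf_ul_case (h1 : S_wd) (h2 : S_jp) (h3 : S_tb) (h4 : S_wa) (c : ClosedCurve) (t₀ : ℝ)
    (hmax : ∀ t, (c.γ t).re ≤ (c.γ t₀).re) (hd : deriv c.γ t₀ = Complex.I) :
    ∃ ε > 0, (∀ z ∈ LT c ε, wd c z = 1) ∧ (∀ z ∈ RT c ε, wd c z = 0) ∧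
      c.totalCurvature = 2 * π ∧ 0 < c.area := by
  obtain ⟨ε, hε, hinj, hdist, hcov, hop⟩ := h3 c
  obtain ⟨hLo, hRo, hLc, hRc⟩ := hop ε hε le_rfl
  obtain ⟨-, hcont, hconv, hcon⟩ := h1 c
  have hcpt : IsCompact (range c.γ) := by
    have e : range c.γ = c.γ '' Icc 0 c.L := by
      apply Subset.antisymm
      · rintro w ⟨t, rfl⟩
        obtain ⟨y, hy, hy'⟩ := c.periodic.exists_mem_Ico₀ c.L_pos t
        exact ⟨y, ⟨hy.1, hy.2.le⟩, hy'.symm⟩
      · rintro w ⟨t, -, rfl⟩; exact ⟨t, rfl⟩
    rw [e]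
    exact isCompact_Icc.image c.cont
  have hclosed : IsClosed (range c.γ) := hcpt.isClosed
  have hLd : Disjoint (LT c ε) (range c.γ) := by
    rw [Set.disjoint_left]
    rintro z ⟨s, u, hu0, hu1, rfl⟩ hz
    have := hdist s u (by rw [abs_of_pos hu0]; exact hu1)
    rw [infDist_zero_of_mem hz, abs_of_pos hu0] at this
    linarith
  have hRd : Disjoint (RT c ε) (range c.γ) := by
    rw [Set.disjoint_left]
    rintro z ⟨s, u, hu0, hu1, rfl⟩ hz
    have := hdist s u (by rw [abs_of_neg hu1]; linarith)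
    rw [infDist_zero_of_mem hz, abs_of_neg hu1] at this
    linarith
  have hPs : ∀ u : ℝ, Ps c t₀ u = c.γ t₀ - u := by
    intro u
    unfold Ps
    rw [hd]
    have : Complex.I * (u : ℂ) * Complex.I = (Complex.I * Complex.I) * u := by ring
    rw [this, Complex.I_mul_I]
    ring
  have hout : ∀ u : ℝ, 0 < u → wd c (Ps c t₀ (-u)) = 0 := by
    intro u hu
    apply hconv
    intro hmem
    have hsub : convexHull ℝ (range c.γ) ⊆ {z : ℂ | z.re ≤ (c.γ t₀).re} := by
      apply convexHull_min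
      · rintro w ⟨t, rfl⟩; exact hmax t
      · exact convex_halfSpace_re_le _
    have := hsub hmem
    rw [hPs] at this
    simp at this
    linarith
  have hR0 : ∀ z ∈ RT c ε, wd c z = 0 := by
    intro z hz
    have hw : Ps c t₀ (-(ε / 2)) ∈ RT c ε := ⟨t₀, -(ε / 2), by linarith, by linarith, rfl⟩
    rw [hcon _ hRc.isPreconnected hRd z hz _ hw]
    exact hout _ (by linarith)
  have hL1 : ∀ z ∈ LT c ε, wd c z = 1 := by
    intro z hz
    have hj := h2 c t₀
    have hev : ∀ᶠ u : ℝ in 𝓝[>] 0, wd c (Ps c t₀ u) - wd c (Ps c t₀ (-u)) = wd c z := by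
      filter_upwards [Ioo_mem_nhdsGT hε] with u hu
      rw [hout u hu.1, sub_zero]
      exact hcon _ hLc.isPreconnected hLd _ ⟨t₀, u, hu.1, hu.2, rfl⟩ _ hz
    have := (tendsto_congr' hev).1 hj
    exact (tendsto_nhds_unique this tendsto_const_nhds).symm
  have hmid : ∀ s, Ps c s 0 = c.γ s := by
    intro s; unfold Ps; simp
  -- values of the winding number
  have hval : ∀ z ∉ range c.γ, wd c z = 0 ∨ wd c z = 1 := by
    classical
    set h : ℂ → ℂ := fun z => if z ∈ range c.γ then 0 else wd c z * (wd c z - 1) with hh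
    have hloc : IsLocallyConstant h := by
      rw [IsLocallyConstant.iff_exists_open]
      intro z
      by_cases hz : z ∈ range c.γ
      · refine ⟨{w | infDist w (range c.γ) < ε}, ?_, ?_, ?_⟩
        · exact isOpen_lt (continuous_infDist_pt _) continuous_const
        · show infDist z (range c.γ) < ε
          rw [infDist_zero_of_mem hz]; exact hε
        · have hz0 : h z = 0 := by simp only [hh]; rw [if_pos hz]
          intro w hw
          rw [hz0]
          obtain ⟨s, -, u, hu, rfl⟩ := hcov w hw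
          simp only [hh]
          split_ifs with hm
          · rfl
          · rcases lt_trichotomy u 0 with h0 | h0 | h0
            · rw [hR0 _ ⟨s, u, by rw [abs_of_neg h0] at hu; linarith, h0, rfl⟩]; simp
            · exfalso; apply hm; rw [h0, hmid]; exact ⟨s, rfl⟩
            · rw [hL1 _ ⟨s, u, h0, by rw [abs_of_pos h0] at hu; exact hu, rfl⟩]; simp
      · obtain ⟨r, hr, hr'⟩ := Metric.isOpen_iff.1 hclosed.isOpen_compl z hz
        refine ⟨ball z r, isOpen_ball, mem_ball_self hr, ?_⟩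
        intro w hw
        have hw' : w ∉ range c.γ := hr' hw
        have hd' : Disjoint (ball z r) (range c.γ) := by
          rw [Set.disjoint_left]; intro x hx; exact hr' hx
        have e := hcon _ (convex_ball z r).isPreconnected hd' w hw z (mem_ball_self hr)
        simp only [hh]
        rw [if_neg hw', if_neg hz, e]
    intro z hz
    have e := hloc.apply_eq_of_isPreconnected isPreconnected_univ (mem_univ z) (mem_univ (c.γ 0))
    have e0 : h (c.γ 0) = 0 := by simp only [hh]; rw [if_pos ⟨0, rfl⟩]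
    rw [e0] at e
    simp only [hh] at e
    rw [if_neg hz] at e
    rcases mul_eq_zero.1 e with h | h
    · left; exact h
    · right; exact sub_eq_zero.1 h
  refine ⟨ε, hε, hL1, hR0, pf_ul_total c t₀ hmax hd, ?_⟩
  -- the area
  obtain ⟨R₀, hR₀⟩ := hcpt.isBounded.subset_ball 0
  set R := max R₀ 0 + ε with hRdef
  have hRR : range c.γ ⊆ ball 0 R := by
    refine hR₀.trans (ball_subset_ball ?_)
    have := le_max_left R₀ 0
    linarith
  obtain ⟨hint, harea⟩ := h4 c R hRR
  have hre : ∫ z in ball (0:ℂ) R, (wd c z).re = c.area := by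
    have e := integral_re (μ := volume.restrict (ball (0:ℂ) R)) hint
    have e2 := congrArg Complex.re harea
    rw [Complex.ofReal_re] at e2
    rw [← e2]
    exact e
  rw [← hre]
  rw [setIntegral_pos_iff_support_of_nonneg_ae]
  · have hsub : LT c ε ∩ ball 0 R ⊆ Function.support (fun z => (wd c z).re) ∩ ball 0 R := by
      rintro z ⟨hz, hz'⟩
      refine ⟨?_, hz'⟩
      rw [Function.mem_support, hL1 z hz]
      simp
    refine lt_of_lt_of_le ?_ (measure_mono hsub)
    apply (hLo.inter isOpen_ball).measure_pos volume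
    refine ⟨Ps c t₀ (ε / 2), ⟨t₀, ε / 2, by linarith, by linarith, rfl⟩, ?_⟩
    rw [hPs, mem_ball_zero_iff]
    have h5 : ‖c.γ t₀‖ < R₀ := by
      have := hR₀ (mem_range_self t₀)
      rwa [mem_ball_zero_iff] at this
    have h6 := norm_sub_le (c.γ t₀) ((ε / 2 : ℝ) : ℂ)
    rw [Complex.norm_real, Real.norm_eq_abs, abs_of_pos (by linarith : (0:ℝ) < ε / 2)] at h6
    have := le_max_left R₀ 0
    linarith
  · have hnull : ∀ᵐ z ∂(volume.restrict (ball (0:ℂ) R)), z ∉ range c.γ := by
      apply ae_restrict_of_ae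
      rw [ae_iff]
      have e : {a | ¬ a ∉ range c.γ} = range c.γ := by ext a; simp only [Set.mem_ofPred_eq, not_not]
      rw [e]; exact pf_ul_null c
    filter_upwards [hnull] with z hz
    rcases hval z hz with h | h <;> rw [h] <;> simp
  · exact hint.re

theorem pf_ul (h1 : S_wd) (h2 : S_jp) (h3 : S_tb) (h4 : S_wa) (h5 : S_rv) : S_ul := by
  intro c
  have hcpt : IsCompact (c.γ '' Icc 0 c.L) := isCompact_Icc.image c.cont
  obtain ⟨t₀, -, ht₀⟩ := isCompact_Icc.exists_isMaxOn (nonempty_Icc.2 c.L_pos.le)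
    (Complex.continuous_re.comp c.cont).continuousOn (s := Icc 0 c.L)
  have hmax : ∀ t, (c.γ t).re ≤ (c.γ t₀).re := by
    intro t
    obtain ⟨y, hy, hy'⟩ := c.periodic.exists_mem_Ico₀ c.L_pos t
    rw [hy']
    exact ht₀ ⟨hy.1, hy.2.le⟩
  have hd0 : (deriv c.γ t₀).re = 0 := by
    have hder : HasDerivAt (fun t => (c.γ t).re) (deriv c.γ t₀).re t₀ :=
      Complex.reCLM.hasFDerivAt.comp_hasDerivAt t₀ (c.hasDerivAt t₀)
    have hloc : IsLocalMax (fun t => (c.γ t).re) t₀ := Filter.Eventually.of_forall hmax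
    exact hloc.hasDerivAt_eq_zero hder
  have hn := c.unit_speed t₀
  have him : (deriv c.γ t₀).im = 1 ∨ (deriv c.γ t₀).im = -1 := by
    have h6 : ‖deriv c.γ t₀‖ ^ 2 = 1 := by rw [hn]; norm_num
    rw [← Complex.normSq_eq_norm_sq, Complex.normSq_apply, hd0] at h6
    have h7 : ((deriv c.γ t₀).im - 1) * ((deriv c.γ t₀).im + 1) = 0 := by nlinarith
    rcases mul_eq_zero.1 h7 with h | h
    · left; linarith
    · right; linarith
  rcases him with him | him
  · have hd : deriv c.γ t₀ = Complex.I := by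
      apply Complex.ext
      · rw [hd0]; simp
      · rw [him]; simp
    obtain ⟨ε, hε, a, -, b, d⟩ := pf_ul_case h1 h2 h3 h4 c t₀ hmax hd
    exact ⟨ε, hε, Or.inl ⟨a, b, d⟩⟩
  · have hd : deriv (rev c).γ (-t₀) = Complex.I := by
      show deriv (fun s => c.γ (-s)) (-t₀) = Complex.I
      rw [deriv_comp_neg, neg_neg]
      apply Complex.ext
      · simp [hd0]
      · simp [him]
    obtain ⟨ε, hε, a, a', b, d⟩ := pf_ul_case h1 h2 h3 h4 (rev c) (-t₀) (by
      intro t
      show (c.γ (-t)).re ≤ (c.γ (- -t₀)).re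
      rw [neg_neg]
      exact hmax _) hd
    obtain ⟨r1, r2, r3, r4, r5, r6, r7, r8⟩ := h5 c
    refine ⟨ε, hε, Or.inr ⟨?_, ?_, ?_⟩⟩
    · intro z hz
      rw [← (r8 ε).2] at hz
      have := a' z hz
      rw [r6] at this
      exact neg_eq_zero.1 this
    · rw [r3] at b; linarith
    · rw [r5] at d; linarith

end Pool.Agent.H212AN
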