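import Pool.Agent.H212AN.D1

set_option autoImplicit false

namespace Pool.Agent.H212AN

open MeasureTheory Set Filter Topology Metric
open Pool.Agent.H212AN.G (nG PG gm)
open scoped Real ENNReal

/- PLAIN PROOF.
Model: starting file outputs/live/Pool/Agent/R967/FB/Wiener.lean (measurableSpace_eq_comap, measurable_path) does this for
C(ℝ≥0,ℝ): the Borel sigma-algebra of C(unitInterval, ℂ) is the comap of the product sigma-algebra under evaluation (subbasis
ContinuousMap.compactOpen_eq, mapsTo sets as countable unions of intersections). S_meas follows. S_uniq: because of continuity the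
evaluations at the times r/(m+1) (dense in [0,1]) already generate: b ↦ b t is a limit of b ↦ b (t_n), t_n = r_n/(m_n+1). The sets
{b | grid m b ∈ A}, A measurable, form a π-system (two grids m, m' are both subgrids of the grid with (m+1)(m'+1) points) which
generates the sigma-algebra, and μ, ν agree on it (take A = univ for the total mass); ext_of_generate_finite.
-/
lemma pf_uniq_measurable_eval (t : unitInterval) : Measurable (fun w : Lo => w t) :=
  (continuous_eval_const t).measurable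

lemma pf_uniq_mapsTo_eq {K : Set unitInterval} (hK : IsCompact K) {U : Set ℂ} (hU : IsOpen U) :
    ∃ c : Set unitInterval, c.Countable ∧ ∃ F : ℕ → Set ℂ, (∀ n, IsClosed (F n)) ∧
    {w : Lo | MapsTo w K U} = ⋃ n, ⋂ t ∈ c, {w : Lo | w t ∈ F n} := by
  obtain ⟨c, hcK, hc, hKc⟩ :=
    (TopologicalSpace.IsSeparable.of_separableSpace K).exists_countable_dense_subset
  refine ⟨c, hc, fun n => {x | ((n : ℝ≥0∞) + 1)⁻¹ ≤ Metric.infEDist x Uᶜ}, fun n => ?_, ?_⟩
  · exact isClosed_le continuous_const Metric.continuous_infEDist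
  · ext w
    simp only [mem_ofPred_eq, mem_iUnion, mem_iInter]
    constructor
    · intro h
      have hc' : IsCompact (w '' K) := hK.image w.continuous
      have hsub : w '' K ⊆ ⋃ n : ℕ, {x | ((n : ℝ≥0∞) + 1)⁻¹ < Metric.infEDist x Uᶜ} := by
        rintro x ⟨t, ht, rfl⟩
        have hx : w t ∈ U := h ht
        have hpos : 0 < Metric.infEDist (w t) Uᶜ := by
          rw [pos_iff_ne_zero]
          intro h0
          have := Metric.mem_closure_iff_infEDist_zero.2 h0
          rw [hU.isClosed_compl.closure_eq] at this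
          exact this hx
        obtain ⟨n, hn⟩ := ENNReal.exists_inv_nat_lt hpos.ne'
        refine mem_iUnion.2 ⟨n, lt_of_le_of_lt ?_ hn⟩
        exact ENNReal.inv_le_inv.2 le_self_add
      obtain ⟨n, hn⟩ := hc'.elim_directed_cover
        (fun n : ℕ => {x | ((n : ℝ≥0∞) + 1)⁻¹ < Metric.infEDist x Uᶜ})
        (fun n => isOpen_lt continuous_const Metric.continuous_infEDist) hsub
        (by
          apply Monotone.directed_le
          intro a b hab x hx
          simp only [mem_ofPred_eq] at hx ⊢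
          refine lt_of_le_of_lt ?_ hx
          apply ENNReal.inv_le_inv.2
          gcongr)
      refine ⟨n, fun t ht => ?_⟩
      exact (hn (mem_image_of_mem _ (hcK ht))).le
    · rintro ⟨n, hn⟩ t ht
      have hcl : IsClosed {s : unitInterval | ((n : ℝ≥0∞) + 1)⁻¹ ≤ Metric.infEDist (w s) Uᶜ} :=
        isClosed_le continuous_const (Metric.continuous_infEDist.comp w.continuous)
      have h1 : closure c ⊆ {s : unitInterval | ((n : ℝ≥0∞) + 1)⁻¹ ≤ Metric.infEDist (w s) Uᶜ} :=
        closure_minimal (fun s hs => hn s hs) hcl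
      have h2 : ((n : ℝ≥0∞) + 1)⁻¹ ≤ Metric.infEDist (w t) Uᶜ := h1 (hKc ht)
      by_contra hne
      have h3 : Metric.infEDist (w t) Uᶜ = 0 := Metric.infEDist_zero_of_mem hne
      rw [h3] at h2
      have h4 : ((n : ℝ≥0∞) + 1)⁻¹ = 0 := le_antisymm h2 zero_le
      rw [ENNReal.inv_eq_zero] at h4
      exact absurd h4 (by finiteness)

/-- any sigma-algebra for which all evaluations are measurable contains the Borel sigma-algebra -/
theorem pf_uniq_le (𝔤 : MeasurableSpace Lo) (h : ∀ t : unitInterval, Measurable[𝔤] (fun w : Lo => w t)) :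
    loMeasurableSpace ≤ 𝔤 := by
  have h1 : loMeasurableSpace = MeasurableSpace.generateFrom
      (image2 (fun (K : Set unitInterval) (U : Set ℂ) => {f : Lo | MapsTo f K U})
        {K | IsCompact K} {U | IsOpen U}) :=
    borel_eq_generateFrom_of_subbasis ContinuousMap.compactOpen_eq
  rw [h1]
  apply MeasurableSpace.generateFrom_le
  rintro _ ⟨K, hK, U, hU, rfl⟩
  obtain ⟨c, hc, F, hF, he⟩ := pf_uniq_mapsTo_eq hK hU
  simp only
  rw [he]
  refine MeasurableSet.iUnion fun n => MeasurableSet.biInter hc fun t _ => ?_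
  exact h t (hF n).measurableSet

/-- the generating sets -/
def pf_uniq_C : Set (Set Lo) :=
  {S | ∃ (m : ℕ) (A : Set (Fin (m + 1) → ℂ)), MeasurableSet A ∧ S = grid m ⁻¹' A}

lemma pf_uniq_measurable_grid (m : ℕ) : Measurable (grid m) :=
  measurable_pi_lambda _ fun r => pf_uniq_measurable_eval (gpt m r)

/-- refinement of grids -/
lemma pf_uniq_refine (m k : ℕ) : ∃ (M : ℕ) (f : Fin (m + 1) → Fin (M + 1)),
    M + 1 = (m + 1) * (k + 1) ∧ ∀ r, gpt m r = gpt M (f r) := by
  refine ⟨m * k + m + k, fun r => ⟨(r : ℕ) * (k + 1), ?_⟩, by ring, fun r => ?_⟩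
  · have h1 : (r : ℕ) ≤ m := Nat.lt_succ_iff.1 r.2
    calc (r : ℕ) * (k + 1) ≤ m * (k + 1) := Nat.mul_le_mul_right _ h1
      _ < m * k + m + k + 1 := by ring_nf; omega
  · apply Subtype.ext
    show (r : ℝ) / (m + 1) = (((r : ℕ) * (k + 1) : ℕ) : ℝ) / (((m * k + m + k : ℕ) : ℝ) + 1)
    push_cast
    rw [div_eq_div_iff (by positivity) (by positivity)]
    ring

lemma pf_uniq_pi : IsPiSystem pf_uniq_C := by
  rintro _ ⟨m, A, hA, rfl⟩ _ ⟨k, B, hB, rfl⟩ -
  obtain ⟨M, f, hM, hf⟩ := pf_uniq_refine m k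
  obtain ⟨M', g, hM', hg⟩ := pf_uniq_refine k m
  have hMM : M' = M := by
    have : M' + 1 = M + 1 := by rw [hM, hM', mul_comm]
    omega
  subst hMM
  have hm1 : Measurable fun (v : Fin (M' + 1) → ℂ) (r : Fin (m + 1)) => v (f r) :=
    measurable_pi_lambda _ fun r => measurable_pi_apply (f r)
  have hm2 : Measurable fun (v : Fin (M' + 1) → ℂ) (r : Fin (k + 1)) => v (g r) :=
    measurable_pi_lambda _ fun r => measurable_pi_apply (g r)
  refine ⟨M', (fun v r => v (f r)) ⁻¹' A ∩ (fun v r => v (g r)) ⁻¹' B,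
    (hm1 hA).inter (hm2 hB), ?_⟩
  ext b
  have e1 : grid m b = fun r => grid M' b (f r) := by
    funext r
    unfold grid
    rw [hf r]
  have e2 : grid k b = fun r => grid M' b (g r) := by
    funext r
    unfold grid
    rw [hg r]
  simp only [mem_inter_iff, mem_preimage, e1, e2]

lemma pf_uniq_gen : loMeasurableSpace = MeasurableSpace.generateFrom pf_uniq_C := by
  apply le_antisymm
  · refine pf_uniq_le _ fun t => ?_
    -- approximating times
    have hlt : ∀ n : ℕ, min ⌊(t : ℝ) * (n + 1)⌋₊ n < n + 1 := fun n =>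
      lt_of_le_of_lt (min_le_right _ _) (Nat.lt_succ_self n)
    let s : ℕ → unitInterval := fun n => gpt n ⟨min ⌊(t : ℝ) * (n + 1)⌋₊ n, hlt n⟩
    have hs : Tendsto s atTop (𝓝 t) := by
      rw [tendsto_iff_dist_tendsto_zero]
      refine squeeze_zero (fun n => dist_nonneg) (fun n => ?_)
        tendsto_one_div_add_atTop_nhds_zero_nat
      rw [Subtype.dist_eq, Real.dist_eq]
      show |((min ⌊(t : ℝ) * (n + 1)⌋₊ n : ℕ) : ℝ) / ((n : ℝ) + 1) - t| ≤ 1 / ((n : ℝ) + 1)
      have hn : (0 : ℝ) < (n : ℝ) + 1 := by positivity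
      have ht0 : (0 : ℝ) ≤ (t : ℝ) := t.2.1
      have ht1 : (t : ℝ) ≤ 1 := t.2.2
      have hf1 : (⌊(t : ℝ) * (n + 1)⌋₊ : ℝ) ≤ (t : ℝ) * (n + 1) :=
        Nat.floor_le (by positivity)
      have hf2 : (t : ℝ) * (n + 1) < (⌊(t : ℝ) * (n + 1)⌋₊ : ℝ) + 1 := Nat.lt_floor_add_one _
      have e : ((min ⌊(t : ℝ) * (n + 1)⌋₊ n : ℕ) : ℝ) / ((n : ℝ) + 1) - t =
          (((min ⌊(t : ℝ) * (n + 1)⌋₊ n : ℕ) : ℝ) - t * (n + 1)) / ((n : ℝ) + 1) := by
        field_simp
      rw [e, abs_div, abs_of_pos hn]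
      apply div_le_div_of_nonneg_right _ hn.le
      push_cast
      rw [abs_le]
      constructor
      · rcases le_total (⌊(t : ℝ) * (n + 1)⌋₊ : ℝ) (n : ℝ) with h | h
        · rw [min_eq_left h]; linarith
        · rw [min_eq_right h]; nlinarith
      · have := min_le_left (⌊(t : ℝ) * (n + 1)⌋₊ : ℝ) (n : ℝ)
        linarith
    have hlim : ∀ w : Lo, Tendsto (fun n => w (s n)) atTop (𝓝 (w t)) := fun w =>
      (w.continuous.tendsto t).comp hs
    have hmeas : ∀ n, Measurable[MeasurableSpace.generateFrom pf_uniq_C] (fun w : Lo => w (s n)) := by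
      intro n A hA
      refine MeasurableSpace.measurableSet_generateFrom ?_
      refine ⟨n, (fun v => v ⟨min ⌊(t : ℝ) * (n + 1)⌋₊ n, hlt n⟩) ⁻¹' A,
        measurable_pi_apply _ hA, ?_⟩
      rfl
    exact @measurable_of_tendsto_metrizable Lo ℂ (MeasurableSpace.generateFrom pf_uniq_C) _ _ _ _
      _ _ hmeas (tendsto_pi_nhds.2 hlim)
  · refine MeasurableSpace.generateFrom_le ?_
    rintro _ ⟨m, A, hA, rfl⟩
    exact pf_uniq_measurable_grid m hA

theorem pf_uniq : S_uniq ∧ S_meas := by
  constructor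
  · intro μ ν hμ hν h
    have key : ∀ S ∈ pf_uniq_C, μ S = ν S := by
      rintro _ ⟨m, A, hA, rfl⟩
      rw [← Measure.map_apply (pf_uniq_measurable_grid m) hA, h m,
        Measure.map_apply (pf_uniq_measurable_grid m) hA]
    refine ext_of_generate_finite pf_uniq_C pf_uniq_gen pf_uniq_pi key ?_
    exact key univ ⟨0, univ, MeasurableSet.univ, rfl⟩
  · intro α mα f hf
    have h1 : loMeasurableSpace ≤ MeasurableSpace.map f mα := by
      refine pf_uniq_le _ fun t => ?_
      intro A hA
      exact hf t hA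
    exact fun A hA => h1 A hA

end Pool.Agent.H212AN

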