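import Pool.Agent.H212AN.D4

set_option autoImplicit false

namespace Pool.Agent.H212AN

open MeasureTheory Set Filter Topology Metric
open Pool.Agent.H212AN.G (nG PG gm gk)
open scoped Real ENNReal ComplexConjugate

/- PLAIN PROOF.
D = Dn, D' = Df, from S_gp p, v, η, δ, Pol. m = 2K+1, M = m+1 = 2(K+1) points, s = t/M (t > 0 fixed below). S_cyc with V = {∀i, x i ∈ D}:
EM D t m = ofReal(4πt) CY s m V (4π((m+1)s) = 4πt; {z | ∀ r < m+1, z + gm X r ∈ D} is the same set), same for D'. So by S_pol, S_awa: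
EM D' t m >= EM D t m + ofReal((1-e^{-δ²/s})^{m+1}) ofReal(4πt) CY s m (V1 D D' m δ), and by S_cyc the last product is
∫⁻ X, volume {z | (z + gm X r)_r ∈ V1 D D' m δ} dPG. For X in the event T of tb (G0: theorem tb : S_FL → S_TB, fl : S_FL; S_TB for v, η: with
2(K+1)s = t < t₀ its probability is >= (1/2) exp(-(|v|²+2|v|η)/t) ) and z ∈ ball p η: all points z + gm X r have im > δ and are in D' (S_gp
first item, pts X = set of gm X r), the point r = 0 is z ∉ D, and some point is in D with conjugate not in D (second item, the z ∈ pts with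
‖z-v‖ <= η). So the volume is >= vol(ball p η) = πη² and the extra term is >= (1-e^{-δ²(m+1)/t})^{m+1} · πη² · (1/2)exp(...), and
(1-e^{-δ²M/t})^M -> 1 as M -> ∞ (Bernoulli: >= 1 - M e^{-δ²M/t}). Take ε = half of πη²/2·exp(...).
-/
theorem pf_vis_all {Q : Set ℂ} (hQ : MeasurableSet Q) (m : ℕ) :
    MeasurableSet {x : Fin (m + 1) → ℂ | ∀ i, x i ∈ Q} := by
  have e : {x : Fin (m + 1) → ℂ | ∀ i, x i ∈ Q} = ⋂ i, (fun x : Fin (m + 1) → ℂ => x i) ⁻¹' Q := by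
    ext x
    simp
  rw [e]
  exact MeasurableSet.iInter fun i => measurable_pi_apply i hQ

theorem pf_vis_V1 {D D' : Set ℂ} (hD : MeasurableSet D) (hD' : MeasurableSet D') (m : ℕ) (δ : ℝ) :
    MeasurableSet (V1 D D' m δ) := by
  have e : V1 D D' m δ = (⋂ i, ((fun x : Fin (m + 1) → ℂ => (x i).im) ⁻¹' (Ioi δ) ∩
      (fun x : Fin (m + 1) → ℂ => x i) ⁻¹' D')) ∩
      ((⋃ i, ((fun x : Fin (m + 1) → ℂ => x i) ⁻¹' D)ᶜ) ∩
      ⋃ i, ((fun x : Fin (m + 1) → ℂ => x i) ⁻¹' D ∩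
        ((fun x : Fin (m + 1) → ℂ => conj (x i)) ⁻¹' D)ᶜ)) := by
    ext x
    simp only [V1, mem_inter_iff, mem_iInter, mem_iUnion, mem_preimage, mem_compl_iff, mem_Ioi]
    exact Iff.rfl
  rw [e]
  refine (MeasurableSet.iInter fun i => ?_).inter ((MeasurableSet.iUnion fun i => ?_).inter
    (MeasurableSet.iUnion fun i => ?_))
  · exact ((Complex.measurable_im.comp (measurable_pi_apply i)) measurableSet_Ioi).inter
      (measurable_pi_apply i hD')
  · exact (measurable_pi_apply i hD).compl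
  · exact (measurable_pi_apply i hD).inter
      (((Complex.continuous_conj.measurable.comp (measurable_pi_apply i)) hD).compl)

theorem pf_vis_EM (h1 : S_cyc) {Q : Set ℂ} (hQ : MeasurableSet Q) {t : ℝ} (ht : 0 < t) (m : ℕ) :
    EM Q t m = ENNReal.ofReal (4 * π * t) * CY (t / ((m : ℝ) + 1)) m {x | ∀ i, x i ∈ Q} := by
  have hs : 0 < t / ((m : ℝ) + 1) := by positivity
  have h := h1 (t / ((m : ℝ) + 1)) m {x | ∀ i, x i ∈ Q} hs (pf_vis_all hQ m)
  have e : ((m : ℝ) + 1) * (t / ((m : ℝ) + 1)) = t := by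
    field_simp
  rw [e] at h
  rw [h, EM]
  refine lintegral_congr fun X => ?_
  congr 1
  ext z
  constructor
  · intro hz i
    exact hz i i.2
  · intro hz r hr
    exact hz ⟨r, hr⟩

/-- the measure of the set of translations which keep the loop in `V` is measurable -/
theorem pf_vis_meas {m : ℕ} {V : Set (Fin (m + 1) → ℂ)} (hV : MeasurableSet V) :
    Measurable (fun X : Fin (m + 1) → ℂ =>
      volume {z : ℂ | (fun r : Fin (m + 1) => z + gm X r) ∈ V}) := by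
  have hc : Continuous (fun p : (Fin (m + 1) → ℂ) × ℂ =>
      (fun r : Fin (m + 1) => p.2 + gm p.1 r)) := by
    refine continuous_pi fun r => continuous_snd.add ?_
    exact (G.gm_cont (r : ℕ)).comp continuous_fst
  exact measurable_measure_prodMk_left (hc.measurable hV)

/-- the lower bound for the extra term -/
theorem pf_vis_low {m : ℕ} {V : Set (Fin (m + 1) → ℂ)} (hV : MeasurableSet V) (s : ℝ)
    (A P : ℝ≥0∞) (T : Set (Fin (m + 1) → ℂ)) (hT : P ≤ PG s (m + 1) T)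
    (h : ∀ X ∈ T, A ≤ volume {z : ℂ | (fun r : Fin (m + 1) => z + gm X r) ∈ V}) :
    A * P ≤ ∫⁻ X, volume {z : ℂ | (fun r : Fin (m + 1) => z + gm X r) ∈ V} ∂(PG s (m + 1)) := by
  refine le_trans ?_ (mul_meas_ge_le_lintegral (pf_vis_meas hV) A)
  gcongr
  exact hT.trans (measure_mono fun X hX => h X hX)

/-- Bernoulli -/
theorem pf_vis_pow {δ t : ℝ} (hδ : 0 < δ) (ht : 0 < t) : ∀ᶠ K : ℕ in atTop,
    (1 / 2 : ℝ) ≤ (1 - Real.exp (-(δ ^ 2 / (t / (((2 * K + 1 : ℕ) : ℝ) + 1))))) ^ (2 * K + 1 + 1) := by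
  obtain ⟨N, hN⟩ := exists_nat_gt (4 * t ^ 2 / δ ^ 4)
  filter_upwards [eventually_ge_atTop N] with K hK
  set n : ℝ := ((2 * K + 1 : ℕ) : ℝ) + 1 with hn
  have hn1 : ((2 * K + 1 + 1 : ℕ) : ℝ) = n := by
    rw [hn]
    push_cast
    ring
  have hKN : (N : ℝ) ≤ K := by exact_mod_cast hK
  have hKn : (K : ℝ) ≤ n := by
    rw [hn]
    push_cast
    have : (0 : ℝ) ≤ K := Nat.cast_nonneg K
    linarith
  have hn0 : 0 < n := by
    rw [hn]
    positivity
  set y : ℝ := δ ^ 2 / (t / n) with hy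
  have hy0 : 0 < y := by positivity
  have hyn : y = δ ^ 2 * n / t := by
    rw [hy]
    field_simp
  have h1 : y ^ 2 / 2 ≤ Real.exp y := by
    have := Real.quadratic_le_exp_of_nonneg hy0.le
    linarith
  have h2 : Real.exp (-y) ≤ 2 / y ^ 2 := by
    rw [Real.exp_neg, inv_le_comm₀ (Real.exp_pos y) (by positivity), inv_div]
    exact h1
  have h3 : n * Real.exp (-y) ≤ 1 / 2 := by
    have h4 : n * (2 / y ^ 2) ≤ 1 / 2 := by
      have h5 : n * (2 / y ^ 2) = 2 * t ^ 2 / (δ ^ 4 * n) := by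
        rw [hyn]
        field_simp
      rw [h5, div_le_div_iff₀ (by positivity) (by norm_num)]
      have h6 : 4 * t ^ 2 / δ ^ 4 < n := by linarith
      rw [div_lt_iff₀ (by positivity)] at h6
      nlinarith
    exact (mul_le_mul_of_nonneg_left h2 hn0.le).trans h4
  have h7 : Real.exp (-y) ≤ 1 := Real.exp_le_one_iff.2 (by linarith)
  have h8 := one_add_mul_le_pow (a := -Real.exp (-y)) (by linarith) (2 * K + 1 + 1)
  rw [hn1] at h8
  have h9 : 1 + -Real.exp (-y) = 1 - Real.exp (-y) := by ring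
  rw [h9] at h8
  linarith

/-- the event of `S_TB` in the form needed here -/
theorem pf_vis_tb {t t₀ : ℝ} {v : ℂ} {η : ℝ}
    (h : ∀ (K : ℕ) (s : ℝ), 0 < K → 0 < s → 2 * K * s < t₀ →
      ENNReal.ofReal (1 / 2 * Real.exp (-((‖v‖ ^ 2 + 2 * ‖v‖ * η) / (2 * K * s)))) ≤
        PG s (2 * K) {X | (∀ z ∈ G.pts X, ∃ x : ℝ, 0 ≤ x ∧ x ≤ 1 ∧ ‖z - x * v‖ ≤ η) ∧
          ∃ z ∈ G.pts X, ‖z - v‖ ≤ η}) (ht : 0 < t) (ht₀ : t < t₀) (K : ℕ) :
    ENNReal.ofReal (1 / 2 * Real.exp (-((‖v‖ ^ 2 + 2 * ‖v‖ * η) / t))) ≤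
      PG (t / (((2 * K + 1 : ℕ) : ℝ) + 1)) (2 * K + 1 + 1)
        {X | (∀ z ∈ G.pts X, ∃ x : ℝ, 0 ≤ x ∧ x ≤ 1 ∧ ‖z - x * v‖ ≤ η) ∧
          ∃ z ∈ G.pts X, ‖z - v‖ ≤ η} := by
  have hs : 0 < t / (((2 * K + 1 : ℕ) : ℝ) + 1) := by positivity
  have e : 2 * ((K + 1 : ℕ) : ℝ) * (t / (((2 * K + 1 : ℕ) : ℝ) + 1)) = t := by
    push_cast
    field_simp
    ring
  have h1 := h (K + 1) (t / (((2 * K + 1 : ℕ) : ℝ) + 1)) K.succ_pos hs (by rw [e]; exact ht₀)
  rw [e] at h1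
  exact h1

theorem pf_vis (h1 : S_cyc) (h2 : S_pol) (h3 : S_awa) (h4 : S_gp) : S_vis := by
  intro R r b h hr hh hhb hR
  obtain ⟨hPol, p, v, η, δ, hη, hδ, hgeo⟩ := h4 R r b h hr hh hhb hR
  set D := Dn R r b h with hD
  set D' := Df R r b h with hD'
  have mD : MeasurableSet D := measurableSet_ball.diff measurableSet_closedBall
  have mD' : MeasurableSet D' := measurableSet_ball.diff measurableSet_closedBall
  obtain ⟨t₀, ht₀, htb⟩ := G.tb G.fl v η hη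
  set t : ℝ := t₀ / 2 with htdef
  have ht : 0 < t := by positivity
  have htt : t < t₀ := by linarith
  set P₀ : ℝ := 1 / 2 * Real.exp (-((‖v‖ ^ 2 + 2 * ‖v‖ * η) / t)) with hP₀
  have hP₀pos : 0 < P₀ := by positivity
  set A : ℝ≥0∞ := volume (ball p η) with hA
  have hApos : 0 < A := by
    rw [hA]
    exact Metric.measure_ball_pos volume p hη
  have hAtop : A ≠ ∞ := measure_ball_lt_top.ne
  have hAr : 0 < A.toReal := ENNReal.toReal_pos hApos.ne' hAtop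
  refine ⟨t, ht, 1 / 2 * (A.toReal * P₀), by positivity, ?_⟩
  filter_upwards [pf_vis_pow hδ ht] with K hK
  have hs : 0 < t / (((2 * K + 1 : ℕ) : ℝ) + 1) := by positivity
  set s : ℝ := t / (((2 * K + 1 : ℕ) : ℝ) + 1) with hsdef
  have e1 : (((2 * K + 1 : ℕ) : ℝ) + 1) * s = t := by
    rw [hsdef]
    field_simp
  have hmV : MeasurableSet (V1 D D' (2 * K + 1) δ) := pf_vis_V1 mD mD' _ _
  have hcyc := h1 s (2 * K + 1) (V1 D D' (2 * K + 1) δ) hs hmV
  rw [e1] at hcyc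
  have hlow := pf_vis_low hmV s A (ENNReal.ofReal P₀)
    {X | (∀ z ∈ G.pts X, ∃ x : ℝ, 0 ≤ x ∧ x ≤ 1 ∧ ‖z - x * v‖ ≤ η) ∧
          ∃ z ∈ G.pts X, ‖z - v‖ ≤ η} (pf_vis_tb htb ht htt K) (by
    rintro X ⟨hX1, hX2⟩
    refine measure_mono ?_
    intro z hz
    refine ⟨?_, ?_, ?_⟩
    · intro i
      exact (hgeo z hz (gm X i)).1 (hX1 _ ⟨i, i.2, rfl⟩)
    · refine ⟨0, ?_⟩
      have h0 : gm X ((0 : Fin (2 * K + 1 + 1)) : ℕ) = 0 := G.gm_zero' X
      change z + gm X ((0 : Fin (2 * K + 1 + 1)) : ℕ) ∉ D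
      rw [h0, add_zero]
      exact (hgeo z hz 0).2.1
    · obtain ⟨q, ⟨j, hj, rfl⟩, hq⟩ := hX2
      exact ⟨⟨j, hj⟩, (hgeo z hz (gm X j)).2.2 hq⟩)
  rw [← hcyc] at hlow
  have hpol := h2 D D' s (2 * K + 1) mD mD' hs hPol
  have hawa := h3 D D' s δ (2 * K + 1) mD mD' hs hδ
  rw [pf_vis_EM h1 mD ht, pf_vis_EM h1 mD' ht]
  have key : ENNReal.ofReal (1 / 2 * (A.toReal * P₀)) ≤ ENNReal.ofReal (4 * π * t) *
      (ENNReal.ofReal ((1 - Real.exp (-(δ ^ 2 / s))) ^ (2 * K + 1 + 1)) *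
        CY s (2 * K + 1) (V1 D D' (2 * K + 1) δ)) := by
    have e2 : ENNReal.ofReal (1 / 2 * (A.toReal * P₀)) =
        ENNReal.ofReal (1 / 2) * (A * ENNReal.ofReal P₀) := by
      rw [ENNReal.ofReal_mul (by norm_num), ENNReal.ofReal_mul hAr.le, ENNReal.ofReal_toReal hAtop]
    rw [e2, mul_left_comm (ENNReal.ofReal (4 * π * t))]
    exact mul_le_mul' (ENNReal.ofReal_le_ofReal hK) hlow
  calc _ ≤ ENNReal.ofReal (4 * π * t) * CY s (2 * K + 1) {x | ∀ i, x i ∈ D} +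
        ENNReal.ofReal (4 * π * t) *
      (ENNReal.ofReal ((1 - Real.exp (-(δ ^ 2 / s))) ^ (2 * K + 1 + 1)) *
        CY s (2 * K + 1) (V1 D D' (2 * K + 1) δ)) := add_le_add le_rfl key
    _ ≤ ENNReal.ofReal (4 * π * t) * CY s (2 * K + 1) {x | ∀ i, x i ∈ D} +
        ENNReal.ofReal (4 * π * t) * (∫⁻ x in V1 D D' (2 * K + 1) 0, ∏ i, ENNReal.ofReal
          (gk s (x (i + 1) - x i) - gk s (x (i + 1) - conj (x i)))) :=
        add_le_add le_rfl (mul_le_mul' le_rfl hawa)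
    _ ≤ _ := by
        rw [← mul_add]
        exact mul_le_mul' le_rfl hpol

end Pool.Agent.H212AN
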