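import Pool.Agent.H212AN.D2

set_option autoImplicit false

namespace Pool.Agent.H212AN

open MeasureTheory Set Filter Topology Metric
open Pool.Agent.W594.AN (ClosedCurve)
open scoped Real ENNReal ComplexConjugate

/-! The lemmas up to `pf_wa_pompeiu` are taken from the starting files `Pool/Agent/H136R3/WA/Pompeiu.lean`
and `Pool/Agent/H586R3/CT1.lean`. -/

theorem pf_wa_lintegral_inv_ball_lt_top (r : ℝ) : ∫⁻ w in ball (0 : ℂ) r, ‖w⁻¹‖ₑ < ⊤ := by
  have h : IntegrableOn (fun w : ℂ => (‖w‖)⁻¹) (ball 0 r) := by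
    rw [integrableOn_fun_norm_addHaar (volume : Measure ℂ) (f := fun y : ℝ => y⁻¹) (r := r)]
    rw [Complex.finrank_real_complex]
    have h1 : IntegrableOn (fun _ : ℝ => (1 : ℝ)) (Ioo 0 r) :=
      integrableOn_const measure_Ioo_lt_top.ne (by simp)
    refine h1.congr_fun ?_ measurableSet_Ioo
    intro y hy
    have hy0 : y ≠ 0 := hy.1.ne'
    simp [hy0]
  have h2 := h.2
  rw [hasFiniteIntegral_iff_enorm] at h2
  refine lt_of_le_of_lt (le_of_eq ?_) h2
  apply lintegral_congr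
  intro w
  rw [← enorm_norm (w⁻¹), norm_inv]

theorem pf_wa_lintegral_inv_le (w : ℂ) (r : ℝ) (ζ : ℂ) :
    ∫⁻ z in ball w r, ‖(z - ζ)⁻¹‖ₑ ≤ (∫⁻ z in ball (0 : ℂ) 1, ‖z⁻¹‖ₑ) + volume (ball w r) := by
  have h1 : ∫⁻ z in ball w r, ‖(z - ζ)⁻¹‖ₑ ≤
      ∫⁻ z in ball w r, ((ball (0 : ℂ) 1).indicator (fun v => ‖v⁻¹‖ₑ) (z - ζ) + 1) := by
    apply lintegral_mono
    intro z
    show ‖(z - ζ)⁻¹‖ₑ ≤ (ball (0 : ℂ) 1).indicator (fun v => ‖v⁻¹‖ₑ) (z - ζ) + 1
    by_cases hz : z - ζ ∈ ball (0 : ℂ) 1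
    · rw [indicator_of_mem hz]
      exact le_self_add
    · rw [indicator_of_notMem hz, zero_add]
      rw [mem_ball_zero_iff, not_lt] at hz
      rw [← enorm_norm, norm_inv]
      have : ‖z - ζ‖⁻¹ ≤ 1 := inv_le_one_of_one_le₀ hz
      rw [Real.enorm_eq_ofReal (by positivity)]
      exact ENNReal.ofReal_le_one.2 this
  refine h1.trans ?_
  rw [lintegral_add_right _ measurable_const]
  apply add_le_add
  · calc ∫⁻ z in ball w r, (ball (0 : ℂ) 1).indicator (fun v => ‖v⁻¹‖ₑ) (z - ζ)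
        ≤ ∫⁻ z, (ball (0 : ℂ) 1).indicator (fun v => ‖v⁻¹‖ₑ) (z - ζ) := setLIntegral_le_lintegral _ _
      _ = ∫⁻ z, (ball (0 : ℂ) 1).indicator (fun v => ‖v⁻¹‖ₑ) z :=
          lintegral_sub_right_eq_self _ ζ
      _ = _ := lintegral_indicator measurableSet_ball _
  · rw [setLIntegral_const, one_mul]

theorem pf_wa_integrable_inv_ball (ζ : ℂ) (R : ℝ) :
    IntegrableOn (fun z : ℂ => (ζ - z)⁻¹) (ball 0 R) := by
  refine ⟨(by fun_prop : Measurable fun z : ℂ => (ζ - z)⁻¹).aestronglyMeasurable, ?_⟩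
  rw [hasFiniteIntegral_iff_enorm]
  have h := pf_wa_lintegral_inv_le 0 R ζ
  have h2 : ∀ z : ℂ, ‖(ζ - z)⁻¹‖ₑ = ‖(z - ζ)⁻¹‖ₑ := by
    intro z
    rw [← enorm_norm, ← enorm_norm (z - ζ)⁻¹, norm_inv, norm_inv, norm_sub_rev]
  simp only [h2]
  exact h.trans_lt (ENNReal.add_lt_top.2 ⟨pf_wa_lintegral_inv_ball_lt_top 1, measure_ball_lt_top⟩)

theorem pf_wa_avg_in {ζ : ℂ} {r : ℝ} (hr : 0 < r) (h : r < ‖ζ‖) :
    Real.circleAverage (fun z => (ζ - z)⁻¹) 0 r = ζ⁻¹ := by
  have hd : DiffContOnCl ℂ (fun z => (ζ - z)⁻¹) (ball (0 : ℂ) |r|) := by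
    rw [abs_of_pos hr]
    apply DifferentiableOn.diffContOnCl
    rw [closure_ball _ hr.ne']
    intro z hz
    rw [mem_closedBall, dist_zero_right] at hz
    have hne : ζ - z ≠ 0 := by
      rw [sub_ne_zero]
      rintro rfl
      linarith
    exact (DifferentiableAt.inv (by fun_prop) hne).differentiableWithinAt
  rw [hd.circleAverage, sub_zero]

theorem pf_wa_avg_out {ζ : ℂ} {r : ℝ} (h : ‖ζ‖ < r) :
    Real.circleAverage (fun z => (ζ - z)⁻¹) 0 r = 0 := by
  have hr : 0 < r := (norm_nonneg _).trans_lt h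
  rw [Real.circleAverage_eq_circleAverage_zero_one, ← Real.circleAverage_zero_one_congr_inv]
  have hne : ∀ z : ℂ, ‖z‖ ≤ 1 → ζ * z - r ≠ 0 := by
    intro z hz h0
    have h1 : ‖ζ * z‖ = r := by
      rw [sub_eq_zero.1 h0, Complex.norm_real, Real.norm_of_nonneg hr.le]
    rw [norm_mul] at h1
    have h2 : ‖ζ‖ * ‖z‖ ≤ ‖ζ‖ * 1 := by gcongr
    linarith
  have hcongr : Real.circleAverage (fun z : ℂ => (ζ - ((r : ℂ) * z⁻¹ + 0))⁻¹) 0 1 =
      Real.circleAverage (fun z : ℂ => z * (ζ * z - r)⁻¹) 0 1 := by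
    apply Real.circleAverage_congr_sphere
    intro z hz
    rw [abs_one, mem_sphere, dist_zero_right] at hz
    have hz0 : z ≠ 0 := by
      rintro rfl
      simp at hz
    have h1 := hne z hz.le
    simp only [add_zero]
    rw [← inv_inj, inv_inv, mul_inv, inv_inv]
    field_simp
  rw [hcongr]
  have hd : DiffContOnCl ℂ (fun z : ℂ => z * (ζ * z - r)⁻¹) (ball (0 : ℂ) |1|) := by
    rw [abs_one]
    apply DifferentiableOn.diffContOnCl
    rw [closure_ball _ one_ne_zero]
    intro z hz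
    rw [mem_closedBall, dist_zero_right] at hz
    have hd1 : DifferentiableAt ℂ (fun z : ℂ => ζ * z - r) z := by fun_prop
    have hd2 : DifferentiableAt ℂ (fun z : ℂ => (ζ * z - r)⁻¹) z := hd1.inv (hne z hz)
    exact (differentiableAt_fun_id.mul hd2).differentiableWithinAt
  rw [hd.circleAverage]
  simp

theorem pf_wa_polar_avg (f : ℂ → ℂ) (r : ℝ) :
    ∫ θ in Ioo (-π) π, f (Complex.polarCoord.symm (r, θ)) =
      (2 * π : ℝ) • Real.circleAverage f 0 r := by
  rw [Real.circleAverage_eq_integral_add (-π), smul_smul, mul_inv_cancel₀ (by positivity), one_smul,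
    intervalIntegral.integral_comp_add_right (fun θ => f (circleMap 0 r θ)),
    intervalIntegral.integral_of_le (by linarith [Real.pi_pos]), integral_Ioc_eq_integral_Ioo]
  have h1 : (2 * π + -π : ℝ) = π := by ring
  rw [h1, zero_add]
  congr 1
  funext θ
  congr 1
  rw [Complex.polarCoord_symm_apply, circleMap, zero_add, Complex.exp_mul_I, Complex.ofReal_cos,
    Complex.ofReal_sin]

/-- Cauchy–Pompeiu for `conj`. -/
theorem pf_wa_pompeiu {ζ : ℂ} {R : ℝ} (h : ‖ζ‖ < R) :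
    ∫ z in ball (0 : ℂ) R, (ζ - z)⁻¹ = π * conj ζ := by
  have hR : 0 < R := (norm_nonneg _).trans_lt h
  have hBm : MeasurableSet (ball (0 : ℂ) R) := isOpen_ball.measurableSet
  set F : ℂ → ℂ := (ball (0 : ℂ) R).indicator (fun z => (ζ - z)⁻¹) with hF
  have hFm : Measurable F := Measurable.indicator (by fun_prop) hBm
  have hFi : Integrable F := (integrable_indicator_iff hBm).2 (pf_wa_integrable_inv_ball ζ R)
  rw [← integral_indicator hBm, ← Complex.integral_comp_polarCoord_symm]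
  have hps : Measurable fun p : ℝ × ℝ => Complex.polarCoord.symm p := by
    have : (fun p : ℝ × ℝ => Complex.polarCoord.symm p) =
        fun p : ℝ × ℝ => (p.1 * (Real.cos p.2 + Real.sin p.2 * Complex.I) : ℂ) := by
      funext p; exact Complex.polarCoord_symm_apply p
    rw [this]
    fun_prop
  have hint : IntegrableOn (fun p : ℝ × ℝ => p.1 • F (Complex.polarCoord.symm p))
      (Ioi (0 : ℝ) ×ˢ Ioo (-π) π) (volume.prod volume) := by
    have hm : Measurable fun p : ℝ × ℝ => p.1 • F (Complex.polarCoord.symm p) :=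
      measurable_fst.smul (hFm.comp hps)
    refine ⟨hm.aestronglyMeasurable, ?_⟩
    rw [hasFiniteIntegral_iff_enorm]
    have h1 := hFi.hasFiniteIntegral
    rw [hasFiniteIntegral_iff_enorm, ← Complex.lintegral_comp_polarCoord_symm] at h1
    refine lt_of_le_of_lt (le_of_eq ?_) h1
    apply setLIntegral_congr_fun (measurableSet_Ioi.prod measurableSet_Ioo)
    rintro ⟨r, θ⟩ hp
    have hr : 0 < r := hp.1
    simp only
    rw [enorm_smul, ← ofReal_norm, Real.norm_of_nonneg hr.le, smul_eq_mul]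
  have e1 : ∫ p in polarCoord.target, p.1 • F (Complex.polarCoord.symm p) =
      ∫ r in Ioi (0 : ℝ), ∫ θ in Ioo (-π) π, r • F (Complex.polarCoord.symm (r, θ)) :=
    setIntegral_prod _ hint
  rw [e1]
  -- evaluate the inner integral
  have e2 : ∀ r ∈ Ioi (0 : ℝ), r ≠ ‖ζ‖ → ∫ θ in Ioo (-π) π, r • F (Complex.polarCoord.symm (r, θ)) =
      (Ioc (0 : ℝ) ‖ζ‖).indicator (fun r => (r : ℂ) * (2 * π * ζ⁻¹)) r := by
    intro r hr hrz
    have hr0 : 0 < r := hr
    rw [integral_smul]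
    by_cases hrR : r < R
    · have e3 : ∫ θ in Ioo (-π) π, F (Complex.polarCoord.symm (r, θ)) =
          ∫ θ in Ioo (-π) π, (ζ - Complex.polarCoord.symm (r, θ))⁻¹ := by
        congr 1
        funext θ
        rw [hF, indicator_of_mem]
        rw [mem_ball, dist_zero_right, Complex.norm_polarCoord_symm, abs_of_pos hr0]
        exact hrR
      rw [e3, pf_wa_polar_avg (fun z => (ζ - z)⁻¹) r]
      rcases lt_or_gt_of_ne hrz with h1 | h1
      · rw [pf_wa_avg_in hr0 h1, indicator_of_mem (show r ∈ Ioc (0 : ℝ) ‖ζ‖ from ⟨hr0, h1.le⟩)]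
        rw [Complex.real_smul, Complex.real_smul]
        push_cast
        ring
      · rw [pf_wa_avg_out h1, indicator_of_notMem (fun h2 => not_lt.2 h2.2 h1)]
        simp
    · have e3 : ∀ θ, F (Complex.polarCoord.symm (r, θ)) = 0 := by
        intro θ
        rw [hF, indicator_of_notMem]
        rw [mem_ball, dist_zero_right, Complex.norm_polarCoord_symm, abs_of_pos hr0]
        exact hrR
      rw [indicator_of_notMem (fun h2 => hrR (h2.2.trans_lt h))]
      simp only [e3, integral_zero, smul_zero]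
  have e4 : ∫ r in Ioi (0 : ℝ), ∫ θ in Ioo (-π) π, r • F (Complex.polarCoord.symm (r, θ)) =
      ∫ r in Ioi (0 : ℝ), (Ioc (0 : ℝ) ‖ζ‖).indicator (fun r => (r : ℂ) * (2 * π * ζ⁻¹)) r := by
    apply integral_congr_ae
    have hne : ∀ᵐ r : ℝ ∂(volume.restrict (Ioi (0 : ℝ))), r ≠ ‖ζ‖ :=
      ae_restrict_of_ae (Measure.ae_ne volume _)
    filter_upwards [hne, ae_restrict_mem measurableSet_Ioi] with r h1 h2
    exact e2 r h2 h1
  rw [e4, setIntegral_indicator measurableSet_Ioc]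
  have h5 : Ioi (0 : ℝ) ∩ Ioc (0 : ℝ) ‖ζ‖ = Ioc (0 : ℝ) ‖ζ‖ := by
    ext x; simp only [mem_inter_iff, mem_Ioi, mem_Ioc]; tauto
  rw [h5, integral_mul_const, ← intervalIntegral.integral_of_le (norm_nonneg _)]
  have h6 : ∫ x : ℝ in (0 : ℝ)..‖ζ‖, (x : ℂ) = ((‖ζ‖ ^ 2 / 2 : ℝ) : ℂ) := by
    rw [intervalIntegral.integral_ofReal, integral_id]
    congr 1
    ring
  rw [h6]
  by_cases hζ : ζ = 0
  · simp [hζ]
  · have h7 : (((‖ζ‖ ^ 2 / 2 : ℝ)) : ℂ) = ζ * conj ζ / 2 := by
      rw [Complex.mul_conj, Complex.normSq_eq_norm_sq]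
      push_cast
      ring
    rw [h7]
    field_simp

/- PLAIN PROOF.
(1) For |w| < R: z ↦ 1/(w-z) is integrable on ball 0 R with ∫ |1/(w-z)| <= 4πR (ball 0 R ⊆ ball w (2R), polar coordinates) and
∫_{ball 0 R} dz/(w-z) = π conj w. Proof of the value: polar coordinates z = r e^{iφ} around 0: ∫_0^{2π} dφ/(w - r e^{iφ}) = 2π/w for
r < |w| and 0 for r > |w| (circle integrals; Mathlib circleIntegral), so the integral is ∫_0^{|w|} 2πr/w dr = π|w|²/w. (Any other
proof, e.g. differentiate, or use harmonicity, is fine. The starting library has Cauchy transform computations, grep for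
circleIntegral / Pompeiu.) (2) Fubini: ∫_{ball} wd c z dz = (2πi)⁻¹ ∫_0^L γ'(s) π conj(γ s) ds = (1/(2i)) ∫ conj(γ) γ' ds. The real part of
∫ conj γ γ' is 1/2 ∫ (|γ|²)' = 0, so the value is (1/2) ∫ Im(conj γ γ') = c.area.
-/
theorem pf_wa_fubini (c : ClosedCurve) (R : ℝ) :
    Integrable (fun p : ℂ × ℝ => deriv c.γ p.2 / (c.γ p.2 - p.1))
      ((volume.restrict (ball (0 : ℂ) R)).prod (volume.restrict (Ioc 0 c.L))) := by
  have hγ := c.cont
  have hγ' := c.cont'
  have hm : Measurable (fun p : ℂ × ℝ => deriv c.γ p.2 / (c.γ p.2 - p.1)) := by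
    have h1 : Measurable (fun p : ℂ × ℝ => deriv c.γ p.2) := hγ'.measurable.comp measurable_snd
    have h2 : Measurable (fun p : ℂ × ℝ => c.γ p.2 - p.1) :=
      (hγ.measurable.comp measurable_snd).sub measurable_fst
    exact h1.div h2
  refine ⟨hm.aestronglyMeasurable, ?_⟩
  rw [hasFiniteIntegral_iff_enorm, lintegral_prod_symm' _ hm.enorm]
  have h1 : ∫⁻ s in Ioc 0 c.L, ∫⁻ z in ball (0 : ℂ) R, ‖deriv c.γ s / (c.γ s - z)‖ₑ ≤
      ∫⁻ _ in Ioc 0 c.L, ((∫⁻ z in ball (0 : ℂ) 1, ‖z⁻¹‖ₑ) + volume (ball (0 : ℂ) R)) := by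
    apply lintegral_mono
    intro s
    show ∫⁻ z in ball (0 : ℂ) R, ‖deriv c.γ s / (c.γ s - z)‖ₑ ≤ _
    refine le_trans (le_of_eq ?_) (pf_wa_lintegral_inv_le 0 R (c.γ s))
    apply lintegral_congr
    intro z
    rw [← enorm_norm, ← enorm_norm (z - c.γ s)⁻¹, norm_div, norm_inv, c.unit_speed s,
      norm_sub_rev, one_div]
  refine h1.trans_lt ?_
  rw [lintegral_const]
  refine ENNReal.mul_lt_top (ENNReal.add_lt_top.2
    ⟨pf_wa_lintegral_inv_ball_lt_top 1, measure_ball_lt_top⟩) ?_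
  rw [Measure.restrict_apply_univ]
  exact measure_Ioc_lt_top

theorem pf_wa_re (c : ClosedCurve) :
    ∫ s in (0:ℝ)..c.L, ((conj (c.γ s) * deriv c.γ s).re : ℂ) = 0 := by
  have hγ := c.cont
  have hγ' := c.cont'
  have hQ : ∀ s : ℝ, HasDerivAt (fun s => conj (c.γ s) * c.γ s)
      (2 * ((conj (c.γ s) * deriv c.γ s).re : ℂ)) s := by
    intro s
    have h1 : HasDerivAt (fun s => conj (c.γ s)) (conj (deriv c.γ s)) s := (c.hasDerivAt s).star
    have h2 := h1.mul (c.hasDerivAt s)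
    have h3 : conj (deriv c.γ s) * c.γ s + conj (c.γ s) * deriv c.γ s =
        2 * ((conj (c.γ s) * deriv c.γ s).re : ℂ) := by
      apply Complex.ext
      · simp
        ring
      · simp
        ring
    rw [h3] at h2
    exact h2
  have h4 : ∫ s in (0:ℝ)..c.L, 2 * ((conj (c.γ s) * deriv c.γ s).re : ℂ) =
      conj (c.γ c.L) * c.γ c.L - conj (c.γ 0) * c.γ 0 := by
    apply intervalIntegral.integral_eq_sub_of_hasDerivAt (fun s _ => hQ s)
    apply Continuous.intervalIntegrable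
    fun_prop
  have h5 : c.γ c.L = c.γ 0 := by
    have := c.periodic 0
    rwa [zero_add] at this
  rw [h5, sub_self, intervalIntegral.integral_const_mul] at h4
  have h6 : (2 : ℂ) ≠ 0 := two_ne_zero
  exact (mul_eq_zero.mp h4).resolve_left h6

theorem pf_wa_area (c : ClosedCurve) :
    ∫ s in (0:ℝ)..c.L, conj (c.γ s) * deriv c.γ s = 2 * (c.area : ℂ) * Complex.I := by
  have hγ := c.cont
  have hγ' := c.cont'
  have h1 : ∀ s, conj (c.γ s) * deriv c.γ s = ((conj (c.γ s) * deriv c.γ s).re : ℂ) +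
      ((conj (c.γ s) * deriv c.γ s).im : ℂ) * Complex.I := fun s => (Complex.re_add_im _).symm
  have h2 : ∫ s in (0:ℝ)..c.L, conj (c.γ s) * deriv c.γ s =
      ∫ s in (0:ℝ)..c.L, (((conj (c.γ s) * deriv c.γ s).re : ℂ) +
        ((conj (c.γ s) * deriv c.γ s).im : ℂ) * Complex.I) :=
    intervalIntegral.integral_congr (fun s _ => h1 s)
  rw [h2, intervalIntegral.integral_add, pf_wa_re, zero_add, intervalIntegral.integral_mul_const,
    intervalIntegral.integral_ofReal]
  · unfold ClosedCurve.area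
    push_cast
    ring
  · apply Continuous.intervalIntegrable
    fun_prop
  · apply Continuous.intervalIntegrable
    fun_prop

theorem pf_wa : S_wa := by
  intro c R hR
  have hF := pf_wa_fubini c R
  have hL := c.L_pos
  have e0 : ∀ z, wd c z = (2 * π * Complex.I)⁻¹ *
      ∫ s in Ioc 0 c.L, deriv c.γ s / (c.γ s - z) := by
    intro z
    unfold wd
    rw [intervalIntegral.integral_of_le hL.le]
  have e1 : wd c = fun z => (2 * π * Complex.I)⁻¹ *
      ∫ s in Ioc 0 c.L, deriv c.γ s / (c.γ s - z) := funext e0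
  constructor
  · rw [e1]
    exact hF.integral_prod_left.const_mul _
  · rw [e1, integral_const_mul]
    have h1 : ∫ z in ball (0 : ℂ) R, ∫ s in Ioc 0 c.L, deriv c.γ s / (c.γ s - z) =
        ∫ s in Ioc 0 c.L, ∫ z in ball (0 : ℂ) R, deriv c.γ s / (c.γ s - z) :=
      integral_integral_swap hF
    rw [h1]
    have h2 : ∫ s in Ioc 0 c.L, ∫ z in ball (0 : ℂ) R, deriv c.γ s / (c.γ s - z) =
        ∫ s in Ioc 0 c.L, π * (conj (c.γ s) * deriv c.γ s) := by
      apply integral_congr_ae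
      apply Filter.Eventually.of_forall
      intro s
      simp only [div_eq_mul_inv]
      have h3 : ‖c.γ s‖ < R := by
        have := hR (mem_range_self s)
        rwa [mem_ball, dist_zero_right] at this
      rw [integral_const_mul, pf_wa_pompeiu h3]
      ring
    rw [h2, integral_const_mul, ← intervalIntegral.integral_of_le hL.le, pf_wa_area]
    have hπ : (π : ℂ) ≠ 0 := by exact_mod_cast Real.pi_ne_zero
    have hI : Complex.I ≠ 0 := Complex.I_ne_zero
    field_simp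

end Pool.Agent.H212AN
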