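import Pool.Agent.H212AN.D2

set_option autoImplicit false

namespace Pool.Agent.H212AN

open MeasureTheory Set Filter Topology Metric
open Pool.Agent.W594.AN (ClosedCurve)
open scoped Real ENNReal ComplexConjugate

section pf_wd_compact

variable {V : Type*} [NormedAddCommGroup V] [NormedSpace ℝ V]

theorem pf_wd_hull_step {s : Set V} (hs : IsCompact s) (n : ℕ) :
    ∃ K : Set V, IsCompact K ∧ K ⊆ convexHull ℝ s ∧
      ∀ t : Finset V, (t : Set V) ⊆ s → t.card ≤ n + 1 → convexHull ℝ (t : Set V) ⊆ K := by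
  classical
  induction n with
  | zero =>
    refine ⟨s, hs, subset_convexHull ℝ s, fun t hts hcard => ?_⟩
    rcases Nat.eq_zero_or_pos t.card with h | h
    · rw [Finset.card_eq_zero] at h
      subst h
      simp
    · have h1 : t.card = 1 := by omega
      obtain ⟨x, rfl⟩ := Finset.card_eq_one.1 h1
      simpa using hts
  | succ n ih =>
    obtain ⟨K, hK, hKs, hKt⟩ := ih
    set f : V × V × ℝ → V := fun p => (1 - p.2.2) • p.1 + p.2.2 • p.2.1 with hf
    have hfc : Continuous f := by fun_prop
    refine ⟨K ∪ f '' (s ×ˢ K ×ˢ Icc (0:ℝ) 1), hK.union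
      ((hs.prod (hK.prod isCompact_Icc)).image hfc), ?_, ?_⟩
    · refine union_subset hKs ?_
      rintro _ ⟨⟨x, y, r⟩, ⟨hx, hy, hr⟩, rfl⟩
      exact (convex_convexHull ℝ s) (subset_convexHull ℝ s hx) (hKs hy)
        (by linarith [hr.2]) hr.1 (by ring)
    · intro t hts hcard
      rcases Nat.lt_or_ge (n + 1) t.card with h | h
      · obtain ⟨x, t', hxt', rfl, hcard'⟩ := Finset.card_eq_succ.1 (show t.card = (n + 1) + 1 by omega)
        have hne : (t' : Set V).Nonempty := by
          rw [Finset.coe_nonempty, ← Finset.card_pos]; omega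
        rw [Finset.coe_insert, convexHull_insert hne]
        intro z hz
        rw [mem_convexJoin] at hz
        obtain ⟨x', hx', y, hy, hz⟩ := hz
        rw [mem_singleton_iff] at hx'
        subst hx'
        have hyK : y ∈ K := hKt t' (fun w hw => hts (by simp [Finset.mem_coe.1 hw])) (by omega) hy
        rw [segment_eq_image] at hz
        obtain ⟨r, hr, rfl⟩ := hz
        refine Or.inr ⟨(x', y, r), ⟨hts (by simp), hyK, hr⟩, rfl⟩
      · exact (hKt t hts h).trans subset_union_left

/-- The convex hull of a compact set in a finite-dimensional space is compact. -/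
theorem pf_wd_hull [FiniteDimensional ℝ V] {s : Set V}
    (hs : IsCompact s) : IsCompact (convexHull ℝ s) := by
  classical
  obtain ⟨K, hK, hKs, hKt⟩ := pf_wd_hull_step hs (Module.finrank ℝ V)
  have : convexHull ℝ s = K := by
    refine Subset.antisymm ?_ hKs
    rw [convexHull_eq_union]
    refine iUnion_subset fun t => iUnion_subset fun hts => iUnion_subset fun hai => ?_
    refine hKt t hts ?_
    have := hai.card_le_finrank_succ
    simpa using this.trans (Nat.succ_le_succ (Submodule.finrank_le _))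
  rw [this]
  exact hK

end pf_wd_compact

theorem pf_wd_cont (c : ClosedCurve) {z : ℂ} (hz : z ∉ range c.γ) :
    Continuous (fun s => deriv c.γ s / (c.γ s - z)) := by
  refine c.cont'.div (c.cont.sub continuous_const) fun s => ?_
  rw [sub_ne_zero]
  rintro rfl
  exact hz ⟨s, rfl⟩

theorem pf_wd_int (c : ClosedCurve) {z : ℂ} (hz : z ∉ range c.γ) : ∃ n : ℤ, wd c z = n := by
  have hne : ∀ s, c.γ s - z ≠ 0 := by
    intro s
    rw [sub_ne_zero]
    rintro rfl
    exact hz ⟨s, rfl⟩
  have hg := pf_wd_cont c hz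
  obtain ⟨G, hG⟩ : ∃ G : ℝ → ℂ, G = fun s => ∫ t in (0:ℝ)..s, deriv c.γ t / (c.γ t - z) := ⟨_, rfl⟩
  have hGd : ∀ s, HasDerivAt G (deriv c.γ s / (c.γ s - z)) s := by
    intro s
    rw [hG]
    exact hg.integral_hasStrictDerivAt 0 s |>.hasDerivAt
  have hF : ∀ s, HasDerivAt (fun s => (c.γ s - z) * Complex.exp (-G s)) 0 s := by
    intro s
    have h1 := ((c.hasDerivAt s).sub_const z).mul (hGd s).neg.cexp
    have h2 := hne s
    have h3 : deriv c.γ s * Complex.exp ((-G) s) + (c.γ s - z) *
        (Complex.exp ((-G) s) * -(deriv c.γ s / (c.γ s - z))) = 0 := by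
      rw [show (c.γ s - z) * (Complex.exp ((-G) s) * -(deriv c.γ s / (c.γ s - z))) =
        -(Complex.exp ((-G) s) * ((c.γ s - z) * (deriv c.γ s / (c.γ s - z)))) by ring,
        mul_div_cancel₀ _ h2]
      ring
    rw [h3] at h1
    exact h1
  have hconst := is_const_of_deriv_eq_zero (fun s => (hF s).differentiableAt)
    (fun s => (hF s).deriv) c.L 0
  have hL : c.γ c.L = c.γ 0 := by
    have := c.periodic 0
    rwa [zero_add] at this
  have hG0 : G 0 = 0 := by rw [hG]; simp
  simp only [hL, hG0, neg_zero, Complex.exp_zero] at hconst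
  have h2 := mul_left_cancel₀ (hne 0) hconst
  obtain ⟨n, hn⟩ := Complex.exp_eq_one_iff.1 h2
  refine ⟨-n, ?_⟩
  have hGL : G c.L = ∫ s in (0:ℝ)..c.L, deriv c.γ s / (c.γ s - z) := by rw [hG]
  unfold wd
  rw [← hGL]
  have h3 : G c.L = -(n * (2 * π * Complex.I)) := by rw [← hn, neg_neg]
  rw [h3]
  have hpi : (2 * (π : ℂ) * Complex.I) ≠ 0 := Complex.two_pi_I_ne_zero
  push_cast
  field_simp

theorem pf_wd_contOn (c : ClosedCurve) : ContinuousOn (wd c) (range c.γ)ᶜ := by
  rw [continuousOn_iff_continuous_domRestrict]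
  have h1 : Continuous (Function.uncurry fun (z : ((range c.γ)ᶜ : Set ℂ)) (s : ℝ) =>
      deriv c.γ s / (c.γ s - (z : ℂ))) := by
    refine (c.cont'.comp continuous_snd).div
      ((c.cont.comp continuous_snd).sub (continuous_subtype_val.comp continuous_fst)) ?_
    rintro ⟨⟨z, hz⟩, s⟩
    change c.γ s - z ≠ 0
    rw [sub_ne_zero]
    rintro rfl
    exact hz ⟨s, rfl⟩
  exact continuous_const.mul
    (intervalIntegral.continuous_parametric_intervalIntegral_of_continuous' h1 0 c.L)

theorem pf_wd_zero (c : ClosedCurve) {z : ℂ} (hz : z ∉ convexHull ℝ (range c.γ)) :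
    wd c z = 0 := by
  have hcomp : IsCompact (range c.γ) := c.periodic.compact_of_continuous c.L_pos.ne' c.cont
  have hK := pf_wd_hull hcomp
  obtain ⟨f, u, hf1, hf2⟩ := geometric_hahn_banach_closed_point (convex_convexHull ℝ _)
    hK.isClosed hz
  obtain ⟨v, hv⟩ : ∃ v : ℂ, v = -((f 1 : ℂ) - Complex.I * (f Complex.I : ℂ)) := ⟨_, rfl⟩
  have hfv : ∀ w : ℂ, (v * w).re = -f w := by
    intro w
    have h1 : w = w.re • (1 : ℂ) + w.im • Complex.I := by
      rw [Complex.real_smul, Complex.real_smul, mul_one]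
      exact (Complex.re_add_im w).symm
    have h2 : f w = w.re * f 1 + w.im * f Complex.I := by
      conv_lhs => rw [h1]
      rw [map_add, map_smul, map_smul, smul_eq_mul, smul_eq_mul]
    rw [hv, h2]
    simp [Complex.mul_re]
    ring
  have hpos : ∀ s, 0 < (v * (c.γ s - z)).re := by
    intro s
    rw [hfv, map_sub]
    have := hf1 (c.γ s) (subset_convexHull ℝ _ ⟨s, rfl⟩)
    linarith
  have hv0 : v ≠ 0 := by
    rintro h
    have := hpos 0
    rw [h, zero_mul] at this
    simp at this
  have hd : ∀ s, HasDerivAt (fun s => Complex.log (v * (c.γ s - z)))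
      (deriv c.γ s / (c.γ s - z)) s := by
    intro s
    have h1 : HasDerivAt (fun s => v * (c.γ s - z)) (v * deriv c.γ s) s :=
      ((c.hasDerivAt s).sub_const z).const_mul v
    have h2 := h1.clog_real (Or.inl (hpos s))
    convert h2 using 1
    rw [mul_div_mul_left _ _ hv0]
  have hzr : z ∉ range c.γ := fun h => hz (subset_convexHull ℝ _ h)
  have h3 := intervalIntegral.integral_eq_sub_of_hasDerivAt (a := 0) (b := c.L)
    (fun s _ => hd s) ((pf_wd_cont c hzr).intervalIntegrable _ _)
  have hL : c.γ c.L = c.γ 0 := by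
    have := c.periodic 0
    rwa [zero_add] at this
  unfold wd
  rw [h3, hL, sub_self, mul_zero]

theorem pf_wd_le (c : ClosedCurve) {A : Set ℂ} (hA : IsPreconnected A)
    (hd : Disjoint A (range c.γ)) {z w : ℂ} (hz : z ∈ A) (hw : w ∈ A) {n m : ℤ}
    (hn : wd c z = n) (hm : wd c w = m) : ¬ n < m := by
  intro hnm
  have hcont : ContinuousOn (fun z => (wd c z).re) A := by
    have h1 : ContinuousOn (wd c) A := (pf_wd_contOn c).mono fun x hx =>
      Set.disjoint_left.1 hd hx
    exact Complex.continuous_re.comp_continuousOn h1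
  have h2 := hA.intermediate_value hz hw hcont
  simp only [hn, hm, Complex.intCast_re] at h2
  have h3 : ((n : ℝ) + 1 / 2) ∈ Icc (n : ℝ) m := by
    have : (n : ℝ) + 1 ≤ m := by exact_mod_cast hnm
    constructor <;> linarith
  obtain ⟨x, hx, hx2⟩ := h2 h3
  obtain ⟨k, hk⟩ := pf_wd_int c (Set.disjoint_left.1 hd hx)
  simp only [hk, Complex.intCast_re] at hx2
  have h4 : (2 * k : ℝ) = 2 * n + 1 := by linarith
  have h5 : 2 * k = 2 * n + 1 := by exact_mod_cast h4
  omega

/- PLAIN PROOF.
z not on the curve: F(s) = (γ s - z) exp(-∫_0^s γ'/(γ-z)) has derivative 0, so exp(∫_0^L γ'/(γ-z)) = (γ L - z)/(γ 0 - z) = 1 and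
∫ = 2πi n. Continuity in z off the (compact) curve: continuity of parametric integrals. z outside convexHull (range γ) (compact,
convex): there is v ≠ 0 with Re (v (γ s - z)) > 0 for all s (strict separation), so log (v (γ s - z)) is a periodic primitive of γ'/(γ-z)
and the integral over a period is 0. Last part: a continuous integer valued function on a preconnected set is constant.
-/
theorem pf_wd : S_wd := by
  intro c
  refine ⟨fun z hz => pf_wd_int c hz, pf_wd_contOn c, fun z hz => pf_wd_zero c hz, ?_⟩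
  intro A hA hd z hz w hw
  obtain ⟨n, hn⟩ := pf_wd_int c (Set.disjoint_left.1 hd hz)
  obtain ⟨m, hm⟩ := pf_wd_int c (Set.disjoint_left.1 hd hw)
  have h1 := pf_wd_le c hA hd hz hw hn hm
  have h2 := pf_wd_le c hA hd hw hz hm hn
  rw [hn, hm, le_antisymm (not_lt.1 h2) (not_lt.1 h1)]

end Pool.Agent.H212AN
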