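import Pool.Agent.H212AN.D2

set_option autoImplicit false

namespace Pool.Agent.H212AN

open MeasureTheory Set Filter Topology Metric
open Pool.Agent.W594.AN (ClosedCurve)
open scoped Real ENNReal ComplexConjugate

theorem pf_ws_isCompact_range (c : ClosedCurve) : IsCompact (range c.γ) := by
  have h : range c.γ = c.γ '' Icc 0 (0 + c.L) := by
    apply Subset.antisymm
    · rintro _ ⟨s, rfl⟩
      obtain ⟨y, hy, hye⟩ := c.periodic.exists_mem_Ico₀ c.L_pos s
      exact ⟨y, ⟨hy.1, by linarith [hy.2]⟩, hye.symm⟩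
    · exact image_subset_range _ _
  rw [h]
  exact isCompact_Icc.image c.cont

theorem pf_ws_wd_local (h1 : S_wd) (c : ClosedCurve) (z : ℂ) (hz : z ∉ range c.γ) :
    ∃ r > 0, ∀ w ∈ ball z r, wd c w = wd c z := by
  have ho : IsOpen (range c.γ)ᶜ := (pf_ws_isCompact_range c).isClosed.isOpen_compl
  obtain ⟨r, hr, hb⟩ := Metric.isOpen_iff.1 ho z hz
  refine ⟨r, hr, fun w hw => ?_⟩
  exact (h1 c).2.2.2 (ball z r) (convex_ball z r).isPreconnected
    (disjoint_left.2 fun x hx hx' => hb hx hx') w hw z (mem_ball_self hr)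

theorem pf_ws_Ps_zero (c : ClosedCurve) (s : ℝ) : Ps c s 0 = c.γ s := by
  simp [Ps]

theorem pf_ws_jump (h1 : S_wd) (h2 : S_jp) (c : ClosedCurve) (ε₁ : ℝ) (h0 : 0 < ε₁)
    (hd : ∀ s u : ℝ, |u| < ε₁ → infDist (Ps c s u) (range c.γ) = |u|)
    (hcL : IsConnected (LT c ε₁)) (hcR : IsConnected (RT c ε₁)) :
    ∃ a : ℂ, (∀ z ∈ LT c ε₁, wd c z = a + 1) ∧ (∀ z ∈ RT c ε₁, wd c z = a) := by
  have hdis : ∀ s u : ℝ, |u| < ε₁ → u ≠ 0 → Ps c s u ∉ range c.γ := by
    intro s u hu hu0 hmem
    have := hd s u hu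
    rw [infDist_zero_of_mem hmem] at this
    exact hu0 (abs_eq_zero.1 this.symm)
  have hL : Disjoint (LT c ε₁) (range c.γ) := by
    rw [disjoint_left]
    rintro z ⟨s, u, hu, hu', rfl⟩ hz
    exact hdis s u (by rw [abs_of_pos hu]; exact hu') hu.ne' hz
  have hR : Disjoint (RT c ε₁) (range c.γ) := by
    rw [disjoint_left]
    rintro z ⟨s, u, hu, hu', rfl⟩ hz
    exact hdis s u (by rw [abs_of_neg hu']; linarith) hu'.ne hz
  obtain ⟨zl, hzl⟩ := hcL.nonempty
  obtain ⟨zr, hzr⟩ := hcR.nonempty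
  have kL : ∀ z ∈ LT c ε₁, wd c z = wd c zl := fun z hz =>
    (h1 c).2.2.2 _ hcL.isPreconnected hL z hz zl hzl
  have kR : ∀ z ∈ RT c ε₁, wd c z = wd c zr := fun z hz =>
    (h1 c).2.2.2 _ hcR.isPreconnected hR z hz zr hzr
  have hlim : Tendsto (fun u : ℝ => wd c (Ps c 0 u) - wd c (Ps c 0 (-u))) (𝓝[>] 0)
      (𝓝 (wd c zl - wd c zr)) := by
    apply tendsto_const_nhds.congr'
    have : Ioo (0:ℝ) ε₁ ∈ 𝓝[>] (0:ℝ) := Ioo_mem_nhdsGT h0
    filter_upwards [this] with u hu
    rw [kL _ ⟨0, u, hu.1, hu.2, rfl⟩, kR _ ⟨0, -u, by linarith [hu.2], by linarith [hu.1], rfl⟩]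
  have he : wd c zl - wd c zr = 1 := tendsto_nhds_unique hlim (h2 c 0)
  refine ⟨wd c zr, fun z hz => ?_, fun z hz => kR z hz⟩
  rw [kL z hz, ← he]; ring

theorem pf_ws (h1 : S_wd) (h2 : S_jp) (h3 : S_tb) : S_ws := by
  intro Ω n c ε C hSD hLB
  set f : ℂ → ℂ := fun z => ∑ i, wd (c i) z - Ω.indicator 1 z with hf
  -- ranges are contained in the frontier
  have hrf : ∀ i, range (c i).γ ⊆ frontier Ω := by
    intro i
    rw [hSD.frontier_eq]
    exact subset_iUnion (fun i => range (c i).γ) i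
  -- local constancy
  have hloc : ∀ z : ℂ, ∃ r > 0, ∃ a : ℂ, ∀ w ∈ ball z r, w ∉ frontier Ω → f w = a := by
    intro z
    by_cases hz : z ∈ frontier Ω
    · have hz' := hz
      rw [hSD.frontier_eq] at hz'
      obtain ⟨i₀, hi₀⟩ := mem_iUnion.1 hz'
      -- other curves
      have hoth : ∀ j, j ≠ i₀ → z ∉ range (c j).γ := by
        intro j hj hzj
        exact (disjoint_left.1 (hSD.disj hj)) hzj hi₀
      have : ∀ j, ∃ r > 0, j ≠ i₀ → ∀ w ∈ ball z r, wd (c j) w = wd (c j) z := by
        intro j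
        by_cases hj : j = i₀
        · exact ⟨1, one_pos, fun h => absurd hj h⟩
        · obtain ⟨r, hr, h⟩ := pf_ws_wd_local h1 (c j) z (hoth j hj)
          exact ⟨r, hr, fun _ => h⟩
      choose r hr hrw using this
      obtain ⟨ε₁, hε₁, -, hdist, hcov, hconn⟩ := h3 (c i₀)
      set δ := min ε₁ ε with hδ
      have hδ0 : 0 < δ := lt_min hε₁ hLB.eps.1
      obtain ⟨-, -, hcL, hcR⟩ := hconn δ hδ0 (min_le_left _ _)
      obtain ⟨a, haL, haR⟩ := pf_ws_jump h1 h2 (c i₀) δ hδ0
        (fun s u hu => hdist s u (lt_of_lt_of_le hu (min_le_left _ _))) hcL hcR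
      have hne : (Finset.univ : Finset (Fin n)).Nonempty := ⟨i₀, Finset.mem_univ _⟩
      set ρ := min δ (Finset.univ.inf' hne r) with hρ
      have hρ0 : 0 < ρ := by
        apply lt_min hδ0
        rw [Finset.lt_inf'_iff]
        exact fun i _ => hr i
      refine ⟨ρ, hρ0, (∑ j ∈ Finset.univ.erase i₀, wd (c j) z) + a, ?_⟩
      intro w hw hwf
      have hwj : ∀ j ∈ Finset.univ.erase i₀, wd (c j) w = wd (c j) z := by
        intro j hj
        apply hrw j (Finset.ne_of_mem_erase hj)
        apply ball_subset_ball _ hw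
        exact (min_le_right _ _).trans (Finset.inf'_le _ (Finset.mem_univ j))
      have hsum : ∑ i, wd (c i) w = (∑ j ∈ Finset.univ.erase i₀, wd (c j) z) + wd (c i₀) w := by
        rw [← Finset.sum_erase_add _ _ (Finset.mem_univ i₀), Finset.sum_congr rfl hwj]
      have hwd : infDist w (range (c i₀).γ) < δ := by
        calc infDist w (range (c i₀).γ) ≤ dist w z := infDist_le_dist_of_mem hi₀
          _ < ρ := mem_ball.1 hw
          _ ≤ δ := min_le_left _ _
      obtain ⟨s, -, u, hu, rfl⟩ := hcov w (lt_of_lt_of_le hwd (min_le_left _ _))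
      rw [hdist s u hu] at hwd
      have hu0 : u ≠ 0 := by
        rintro rfl
        apply hwf
        rw [pf_ws_Ps_zero]
        exact hrf i₀ (mem_range_self s)
      have hudε : |u| < ε := lt_of_lt_of_le hwd (min_le_right _ _)
      show ∑ i, wd (c i) (Ps (c i₀) s u) - Ω.indicator 1 (Ps (c i₀) s u) = _
      rw [hsum]
      rcases lt_or_gt_of_ne hu0 with hneg | hpos
      · rw [abs_of_neg hneg] at hudε hwd
        have h5 : Ps (c i₀) s u ∉ Ω := hLB.right i₀ s u (by linarith) hneg.le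
        rw [indicator_of_notMem h5, haR _ ⟨s, u, by linarith, hneg, rfl⟩]
        ring
      · rw [abs_of_pos hpos] at hudε hwd
        have h5 : Ps (c i₀) s u ∈ Ω := hLB.left i₀ s u hpos hudε
        rw [indicator_of_mem h5, haL _ ⟨s, u, hpos, hwd, rfl⟩]
        simp only [Pi.one_apply]
        ring
    · have hzj : ∀ j, z ∉ range (c j).γ := fun j h => hz (hrf j h)
      have : ∀ j, ∃ r > 0, ∀ w ∈ ball z r, wd (c j) w = wd (c j) z :=
        fun j => pf_ws_wd_local h1 (c j) z (hzj j)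
      choose r hr hrw using this
      have hind : ∃ r₀ > 0, ∀ w ∈ ball z r₀, Ω.indicator (1 : ℂ → ℂ) w = Ω.indicator 1 z := by
        by_cases hzΩ : z ∈ Ω
        · obtain ⟨r₀, hr₀, hb⟩ := Metric.isOpen_iff.1 hSD.isOpen z hzΩ
          refine ⟨r₀, hr₀, fun w hw => ?_⟩
          rw [indicator_of_mem (hb hw), indicator_of_mem hzΩ]; rfl
        · have hzc : z ∈ (closure Ω)ᶜ := by
            intro hc
            apply hz
            rw [frontier, hSD.isOpen.interior_eq]
            exact ⟨hc, hzΩ⟩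
          obtain ⟨r₀, hr₀, hb⟩ := Metric.isOpen_iff.1 isClosed_closure.isOpen_compl z hzc
          refine ⟨r₀, hr₀, fun w hw => ?_⟩
          have hwΩ : w ∉ Ω := fun h => hb hw (subset_closure h)
          rw [indicator_of_notMem hwΩ, indicator_of_notMem hzΩ]
      obtain ⟨r₀, hr₀, hind⟩ := hind
      by_cases hn : (Finset.univ : Finset (Fin n)).Nonempty
      · refine ⟨min r₀ (Finset.univ.inf' hn r), ?_, f z, ?_⟩
        · apply lt_min hr₀
          rw [Finset.lt_inf'_iff]
          exact fun i _ => hr i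
        · intro w hw _
          show ∑ i, wd (c i) w - Ω.indicator 1 w = ∑ i, wd (c i) z - Ω.indicator 1 z
          rw [hind w (ball_subset_ball (min_le_left _ _) hw)]
          congr 1
          apply Finset.sum_congr rfl
          intro j _
          apply hrw j
          apply ball_subset_ball _ hw
          exact (min_le_right _ _).trans (Finset.inf'_le _ (Finset.mem_univ j))
      · refine ⟨r₀, hr₀, f z, ?_⟩
        intro w hw _
        show ∑ i, wd (c i) w - Ω.indicator 1 w = ∑ i, wd (c i) z - Ω.indicator 1 z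
        rw [hind w hw]
        rw [Finset.not_nonempty_iff_eq_empty] at hn
        rw [hn]; simp
  choose r hr a ha using hloc
  have hdense : Dense (frontier Ω)ᶜ := by
    rw [← interior_eq_empty_iff_dense_compl]
    rw [← frontier_compl]
    exact interior_frontier hSD.isOpen.isClosed_compl
  have hlc : IsLocallyConstant a := by
    rw [IsLocallyConstant.iff_exists_open]
    intro z
    refine ⟨ball z (r z), isOpen_ball, mem_ball_self (hr z), ?_⟩
    intro z' hz'
    have hopen : IsOpen (ball z (r z) ∩ ball z' (r z')) := isOpen_ball.inter isOpen_ball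
    obtain ⟨w, hw, hwf⟩ := hdense.inter_open_nonempty _ hopen ⟨z', hz', mem_ball_self (hr z')⟩
    rw [← ha z' w hw.2 hwf, ← ha z w hw.1 hwf]
  have hconst : ∀ z w : ℂ, a z = a w := fun z w => hlc.apply_eq_of_preconnectedSpace z w
  -- far point
  obtain ⟨R, hR⟩ := hSD.isBounded.subset_closedBall 0
  have hcl : closure Ω ⊆ closedBall 0 R := closure_minimal hR isClosed_closedBall
  have hfar : ∀ p : ℂ, p ∉ closedBall (0:ℂ) R → p ∉ frontier Ω ∧ f p = 0 := by
    intro p hp
    refine ⟨fun h => hp (hcl (frontier_subset_closure h)), ?_⟩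
    show ∑ i, wd (c i) p - Ω.indicator 1 p = 0
    rw [indicator_of_notMem (fun h => hp (hR h)), sub_zero]
    apply Finset.sum_eq_zero
    intro i _
    apply (h1 (c i)).2.2.1
    intro hc
    apply hp
    exact convexHull_min (((hrf i).trans frontier_subset_closure).trans hcl)
      (convex_closedBall _ _) hc
  have hp : ((|R| + 1 : ℝ) : ℂ) ∉ closedBall (0:ℂ) R := by
    rw [mem_closedBall, dist_zero_right, Complex.norm_real, Real.norm_eq_abs, not_le]
    have := le_abs_self R
    rw [abs_of_pos (by positivity)]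
    linarith
  obtain ⟨hp1, hp2⟩ := hfar _ hp
  intro z hz
  have e1 : f z = a z := ha z z (mem_ball_self (hr z)) hz
  have e2 : f _ = a _ := ha _ _ (mem_ball_self (hr ((|R| + 1 : ℝ) : ℂ))) hp1
  have e3 : f z = 0 := by rw [e1, hconst z ((|R| + 1 : ℝ) : ℂ), ← e2, hp2]
  exact sub_eq_zero.1 e3

end Pool.Agent.H212AN
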