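import Pool.Agent.H212AN.P_F
import Pool.Agent.H212AN.P_G3
import Pool.Agent.H212AN.P_Gm
import Pool.Agent.H212AN.P_Gp
import Pool.Agent.H212AN.P_U
import Pool.Agent.H212AN.P_Ul
import Pool.Agent.H212AN.P_Uu
import Pool.Agent.H212AN.P_ap
import Pool.Agent.H212AN.P_ar
import Pool.Agent.H212AN.P_ar1
import Pool.Agent.H212AN.P_awa
import Pool.Agent.H212AN.P_ball
import Pool.Agent.H212AN.P_bd
import Pool.Agent.H212AN.P_cyc
import Pool.Agent.H212AN.P_dp
import Pool.Agent.H212AN.P_em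
import Pool.Agent.H212AN.P_en
import Pool.Agent.H212AN.P_end
import Pool.Agent.H212AN.P_er
import Pool.Agent.H212AN.P_ex
import Pool.Agent.H212AN.P_fold
import Pool.Agent.H212AN.P_gap
import Pool.Agent.H212AN.P_gp
import Pool.Agent.H212AN.P_he
import Pool.Agent.H212AN.P_hs
import Pool.Agent.H212AN.P_int
import Pool.Agent.H212AN.P_jp
import Pool.Agent.H212AN.P_lg
import Pool.Agent.H212AN.P_li
import Pool.Agent.H212AN.P_loop
import Pool.Agent.H212AN.P_ls
import Pool.Agent.H212AN.P_mom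
import Pool.Agent.H212AN.P_n3
import Pool.Agent.H212AN.P_nl
import Pool.Agent.H212AN.P_o1
import Pool.Agent.H212AN.P_obs
import Pool.Agent.H212AN.P_or
import Pool.Agent.H212AN.P_pe
import Pool.Agent.H212AN.P_pl
import Pool.Agent.H212AN.P_pol
import Pool.Agent.H212AN.P_pos
import Pool.Agent.H212AN.P_qi
import Pool.Agent.H212AN.P_rm
import Pool.Agent.H212AN.P_rot
import Pool.Agent.H212AN.P_rv
import Pool.Agent.H212AN.P_sc
import Pool.Agent.H212AN.P_sd
import Pool.Agent.H212AN.P_sing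
import Pool.Agent.H212AN.P_sm
import Pool.Agent.H212AN.P_st
import Pool.Agent.H212AN.P_tb
import Pool.Agent.H212AN.P_top
import Pool.Agent.H212AN.P_tr
import Pool.Agent.H212AN.P_tri
import Pool.Agent.H212AN.P_ul
import Pool.Agent.H212AN.P_uniq
import Pool.Agent.H212AN.P_vis
import Pool.Agent.H212AN.P_wa
import Pool.Agent.H212AN.P_wd
import Pool.Agent.H212AN.P_ws

set_option autoImplicit false

/-! # Project H212AN: all statements proved -/

namespace Pool.Agent.H212AN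

theorem q_uniq : S_uniq := pf_uniq.1
theorem q_meas : S_meas := pf_uniq.2
theorem q_awa : S_awa := pf_awa 
theorem q_cyc : S_cyc := pf_cyc 
theorem q_end : S_end := pf_end 
theorem q_ex : S_ex := pf_ex 
theorem q_fold : S_fold := pf_fold 
theorem q_gp : S_gp := pf_gp 
theorem q_hs : S_hs := pf_hs 
theorem q_jp : S_jp := pf_jp 
theorem q_lg : S_lg := pf_lg 
theorem q_loop : S_loop := pf_loop q_meas
theorem q_mom : S_mom := pf_mom 
theorem q_n3 : S_n3 := pf_n3 
theorem q_nl : S_nl := pf_nl 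
theorem q_o1 : S_o1 := pf_o1 
theorem q_pe : S_pe := pf_pe 
theorem q_pl : S_pl := pf_pl 
theorem q_pol : S_pol := pf_pol q_o1 q_fold
theorem q_qi : S_qi := pf_qi q_uniq
theorem q_rm : S_rm := pf_rm 
theorem q_rot : S_rot := pf_rot q_uniq
theorem q_rv : S_rv := pf_rv 
theorem q_sing : S_sing := pf_sing q_rot q_hs
theorem q_sm : S_sm := pf_sm q_hs
theorem q_tb : S_tb := pf_tb 
theorem q_tri : S_tri := pf_tri q_n3 q_qi q_hs q_end
theorem q_vis : S_vis := pf_vis q_cyc q_pol q_awa q_gp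
theorem q_wa : S_wa := pf_wa 
theorem q_wd : S_wd := pf_wd 
theorem q_ws : S_ws := pf_ws q_wd q_jp q_tb
theorem q_G3 : S_G3 := pf_G3 q_pe q_mom q_rot q_sing q_end
theorem q_Ul : S_Ul := pf_Ul q_hs
theorem q_Uu : S_Uu := pf_Uu q_hs
theorem q_ap : S_ap := pf_ap q_hs
theorem q_ar1 : S_ar1 := pf_ar1 q_hs
theorem q_ball : S_ball := pf_ball q_qi q_end
theorem q_dp : S_dp := pf_dp q_pe q_rot q_mom q_end
theorem q_em : S_em := pf_em q_end
theorem q_er : S_er := pf_er q_hs
theorem q_sc : S_sc := pf_sc q_hs q_er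
theorem q_sd : S_sd := pf_sd q_lg q_tb
theorem q_tr : S_tr := pf_tr q_em q_ex
theorem q_ul : S_ul := pf_ul q_wd q_jp q_tb q_wa q_rv
theorem q_ar : S_ar := pf_ar q_hs q_ar1 q_ap
theorem q_en : S_en := pf_en q_hs q_er q_ar
theorem q_gap : S_gap := pf_gap q_hs q_er q_sc
theorem q_li : S_li := pf_li q_hs q_er q_sc
theorem q_ls : S_ls := pf_ls q_hs q_sm q_er q_sc q_gap
theorem q_obs : S_obs := pf_obs q_vis q_em q_tr q_nl q_loop
theorem q_or : S_or := pf_or q_tb q_sd q_wd q_jp q_rv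
theorem q_st : S_st := pf_st q_hs q_ar
theorem q_top : S_top := pf_top q_wd q_ws q_ul q_rv q_wa
theorem q_F : S_F := pf_F q_hs q_er q_en q_sc q_ls q_li
theorem q_U : S_U := pf_U q_hs q_ls q_st q_Uu q_Ul
theorem q_int : S_int := pf_int q_hs q_F q_ls q_mom q_end
theorem q_pos : S_pos := pf_pos q_hs q_st q_ls q_int q_ball q_end
theorem q_Gm : S_Gm := pf_Gm q_hs q_U q_ls q_pl q_mom q_rot q_end q_int q_pe q_tri
theorem q_Gp : S_Gp := pf_Gp q_hs q_F q_ls q_pl q_mom q_rot q_end q_int q_pe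
theorem q_bd : S_bd := pf_bd q_Gp q_Gm q_G3 q_pe q_mom q_end
theorem q_he : S_he := pf_he q_tr q_rm q_dp q_bd q_end q_mom

end Pool.Agent.H212AN
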