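import Pool.Agent.H212AN.E1

set_option autoImplicit false

namespace Pool.Agent.H212AN

open MeasureTheory Set Filter Topology Metric
open Pool.Agent.H212AN.G (nG PG gm gk)
open scoped Real ENNReal ComplexConjugate

/- PLAIN PROOF.
A = closedBall 0 r, B = closedBall (x+2r) r (closed, A ⊆ ball 0 (r+1)), distance of points >= x. Upper bound: S_up (with C := B, first part, d = x), toReal of a number <= ofReal(M e)
is <= max(M,0)·e. Lower bound: Q2 >= Qn with C = ∅. For given ε choose small σ > 0 (σ < r, ...) and a = r - σ ∈ A with ball a σ ⊆ A, b = x + r + σ with ball b σ ⊆ B, ρ = σ: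
‖b-a‖ = x + 2σ, (x+2σ)² <= x² + ε/2; S_low with ε/2. Q2 is finite (by the upper bound, or S_up for t <= 1; restrict t₀ <= 1), so toReal is monotone.
-/
theorem pf_Hb_dist {r x : ℝ} (hr : 0 < r) (hx : 0 < x) :
    ∀ a ∈ closedBall (0 : ℂ) r, ∀ b ∈ closedBall ((x + 2 * r : ℝ) : ℂ) r, x ≤ dist a b := by
  intro a ha b hb
  rw [mem_closedBall] at ha hb
  have h1 : dist (0 : ℂ) ((x + 2 * r : ℝ) : ℂ) = x + 2 * r := by
    rw [dist_eq_norm, zero_sub, norm_neg, Complex.norm_real, Real.norm_eq_abs,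
      abs_of_pos (by positivity)]
  have h2 := dist_triangle4 (0 : ℂ) a b ((x + 2 * r : ℝ) : ℂ)
  rw [dist_comm (0 : ℂ) a] at h2
  linarith

theorem pf_Hb_up (h1 : S_up) {μ : Measure Lo} (hμ : IsLoop μ) {r x : ℝ} (hr : 0 < r) (hx : 0 < x)
    {θ : ℝ} (hθ : 0 < θ) (hθ' : θ < 1) : ∃ M : ℝ, ∀ t : ℝ, 0 < t → t ≤ 1 →
    Q2 μ (closedBall 0 r) (closedBall ((x + 2 * r : ℝ) : ℂ) r) t ≤
      ENNReal.ofReal (M * Real.exp (-(θ * x ^ 2 / t))) :=
  (h1 μ hμ (closedBall 0 r) (closedBall ((x + 2 * r : ℝ) : ℂ) r)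
    (closedBall ((x + 2 * r : ℝ) : ℂ) r) (r + 1) θ isClosed_closedBall isClosed_closedBall
    isClosed_closedBall (closedBall_subset_ball (by linarith)) hθ hθ').1 x hx
    (pf_Hb_dist hr hx)

theorem pf_Hb_Qn_le (μ : Measure Lo) (A B : Set ℂ) (t : ℝ) : Qn μ A B ∅ t ≤ Q2 μ A B t := by
  unfold Qn Q2
  refine lintegral_mono fun b => measure_mono ?_
  rintro z ⟨h1, h2, -⟩
  exact ⟨h1, h2⟩

theorem pf_Hb (h1 : S_up) (h2 : S_low) : S_Hb := by
  intro μ hμ r x hr hx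
  refine ⟨?_, ?_⟩
  · intro θ hθ hθ'
    obtain ⟨M, hM⟩ := pf_Hb_up h1 hμ hr hx hθ hθ'
    refine ⟨|M|, fun t ht ht1 => ?_⟩
    unfold Hp
    have h3 := ENNReal.toReal_mono ENNReal.ofReal_ne_top (hM t ht ht1)
    refine h3.trans ?_
    have h4 : 0 ≤ |M| * Real.exp (-(θ * x ^ 2 / t)) := by positivity
    refine (ENNReal.toReal_mono ENNReal.ofReal_ne_top (ENNReal.ofReal_le_ofReal
      (mul_le_mul_of_nonneg_right (le_abs_self M) (Real.exp_pos _).le))).trans ?_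
    rw [ENNReal.toReal_ofReal h4]
  · intro ε hε
    obtain ⟨M, hM⟩ := pf_Hb_up h1 hμ hr hx (show (0 : ℝ) < 1 / 2 by norm_num) (by norm_num)
    obtain ⟨σ, hσ, hσr, hσ1, hσε⟩ : ∃ σ : ℝ, 0 < σ ∧ σ ≤ r ∧ σ ≤ 1 ∧ 8 * (x + 1) * σ ≤ ε := by
      refine ⟨min r (min 1 (ε / (8 * (x + 1)))), ?_, min_le_left _ _,
        (min_le_right _ _).trans (min_le_left _ _), ?_⟩
      · exact lt_min hr (lt_min one_pos (by positivity))
      · have h3 : min r (min 1 (ε / (8 * (x + 1)))) ≤ ε / (8 * (x + 1)) :=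
          (min_le_right _ _).trans (min_le_right _ _)
        rw [le_div_iff₀ (by positivity)] at h3
        linarith
    have hsub1 : ball ((r - σ : ℝ) : ℂ) σ ⊆ closedBall (0 : ℂ) r := by
      intro z hz
      rw [mem_ball] at hz
      rw [mem_closedBall]
      have h3 : dist ((r - σ : ℝ) : ℂ) 0 = r - σ := by
        rw [dist_zero_right, Complex.norm_real, Real.norm_eq_abs, abs_of_nonneg (by linarith)]
      have h4 := dist_triangle z ((r - σ : ℝ) : ℂ) 0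
      linarith
    have hsub2 : ball ((x + r + σ : ℝ) : ℂ) σ ⊆ closedBall ((x + 2 * r : ℝ) : ℂ) r := by
      intro z hz
      rw [mem_ball] at hz
      rw [mem_closedBall]
      have h3 : dist ((x + r + σ : ℝ) : ℂ) ((x + 2 * r : ℝ) : ℂ) = r - σ := by
        rw [dist_eq_norm, ← Complex.ofReal_sub, Complex.norm_real, Real.norm_eq_abs,
          show x + r + σ - (x + 2 * r) = -(r - σ) by ring, abs_neg, abs_of_nonneg (by linarith)]
      have h4 := dist_triangle z ((x + r + σ : ℝ) : ℂ) ((x + 2 * r : ℝ) : ℂ)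
      linarith
    obtain ⟨c, t₀, hc, ht₀, hlow⟩ := h2 μ hμ (closedBall (0 : ℂ) r)
      (closedBall ((x + 2 * r : ℝ) : ℂ) r) ∅ ((r - σ : ℝ) : ℂ) ((x + r + σ : ℝ) : ℂ) σ (ε / 2) hσ
      (by positivity) hsub1 hsub2 (fun _ _ _ => disjoint_empty _)
    refine ⟨c, min t₀ 1, hc, lt_min ht₀ one_pos, fun t ht ht' => ?_⟩
    have ht1 : t < t₀ := lt_of_lt_of_le ht' (min_le_left _ _)
    have ht2 : t ≤ 1 := (lt_of_lt_of_le ht' (min_le_right _ _)).le
    have h5 := (hlow t ht ht1).trans (pf_Hb_Qn_le μ _ _ t)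
    have hfin : Q2 μ (closedBall 0 r) (closedBall ((x + 2 * r : ℝ) : ℂ) r) t ≠ ∞ :=
      ne_top_of_le_ne_top ENNReal.ofReal_ne_top (hM t ht ht2)
    have h6 := (ENNReal.ofReal_le_iff_le_toReal hfin).1 h5
    unfold Hp
    refine le_trans ?_ h6
    refine mul_le_mul_of_nonneg_left (Real.exp_le_exp.2 (neg_le_neg ?_)) hc.le
    refine div_le_div_of_nonneg_right ?_ ht.le
    have h7 : ‖((x + r + σ : ℝ) : ℂ) - ((r - σ : ℝ) : ℂ)‖ = x + 2 * σ := by
      rw [← Complex.ofReal_sub, Complex.norm_real, Real.norm_eq_abs,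
        show x + r + σ - (r - σ) = x + 2 * σ by ring, abs_of_pos (by positivity)]
    rw [h7]
    nlinarith [mul_nonneg hσ.le (sub_nonneg.2 hσ1), mul_pos hσ hx]

end Pool.Agent.H212AN

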