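import Pool.Agent.H212AN.E1

set_option autoImplicit false

namespace Pool.Agent.H212AN

open MeasureTheory Set Filter Topology Metric
open Pool.Agent.H212AN.G (nG PG gm gk)
open scoped Real ENNReal ComplexConjugate

open scoped Pointwise in
theorem pf_Ob_closed (X : Set ℂ) (hX : IsClosed X) (t : ℝ) (b : Lo) :
    IsClosed {z : ℂ | hit X t b z} := by
  have hK : IsCompact (range (fun s : unitInterval => (√t : ℂ) * b s)) :=
    isCompact_range (by fun_prop)
  have hn : IsCompact (-(range (fun s : unitInterval => (√t : ℂ) * b s))) := hK.neg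
  have h := hX.add_right_of_isCompact hn
  have e : {z : ℂ | hit X t b z} = X - range (fun s : unitInterval => (√t : ℂ) * b s) := by
    ext z
    constructor
    · rintro ⟨s, hs⟩
      exact ⟨_, hs, _, ⟨s, rfl⟩, by simp⟩
    · rintro ⟨y, hy, _, ⟨s, rfl⟩, rfl⟩
      exact ⟨s, by simpa using hy⟩
  rw [e, sub_eq_add_neg]
  exact h

theorem pf_Ob_split (μ : Measure Lo) (A B J : Set ℂ) (t : ℝ) (hA : IsClosed A) (hB : IsClosed B)
    (hJ : IsClosed J) (hJB : J ⊆ B) :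
    Q2 μ A J t + Qn μ A B J t ≤ Q2 μ A B t := by
  unfold Q2 Qn
  refine (le_lintegral_add _ _).trans (lintegral_mono fun b => ?_)
  have mA := (pf_Ob_closed A hA t b).measurableSet
  have mB := (pf_Ob_closed B hB t b).measurableSet
  have mJ := (pf_Ob_closed J hJ t b).measurableSet
  have m2 : MeasurableSet {z : ℂ | hit A t b z ∧ hit B t b z ∧ ¬ hit J t b z} :=
    mA.inter (mB.inter mJ.compl)
  have hd : Disjoint {z : ℂ | hit A t b z ∧ hit J t b z}
      {z : ℂ | hit A t b z ∧ hit B t b z ∧ ¬ hit J t b z} := by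
    rw [Set.disjoint_left]
    rintro z ⟨_, h1⟩ ⟨_, _, h2⟩
    exact h2 h1
  show volume {z : ℂ | hit A t b z ∧ hit J t b z} +
    volume {z : ℂ | hit A t b z ∧ hit B t b z ∧ ¬ hit J t b z} ≤ _
  rw [← measure_union hd m2]
  refine measure_mono ?_
  rintro z (⟨h1, s, hs⟩ | ⟨h1, h2, _⟩)
  · exact ⟨h1, s, hJB hs⟩
  · exact ⟨h1, h2⟩

theorem pf_Ob_geo (R r x ε : ℝ) (hr : 0 < r) (hx : 0 < x) (hxR : x ≤ R - r) (hε : 0 < ε) :
    ∃ (a b : ℂ) (ρ : ℝ), 0 < ρ ∧ ball a ρ ⊆ closedBall ((R - r - x : ℝ) : ℂ) r ∧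
      ball b ρ ⊆ (ball (0:ℂ) R)ᶜ ∧
      (∀ s : ℝ, 0 ≤ s → s ≤ 1 →
        Disjoint (ball (a + s * (b - a)) ρ) (closedBall ((R + r : ℝ) : ℂ) r)) ∧
      ‖b - a‖ ^ 2 ≤ x ^ 2 + ε / 2 := by
  have hR : 0 < R := by linarith
  obtain ⟨y, hy⟩ : ∃ y, y = min (r / 2) (ε / (4 * (x + r))) := ⟨_, rfl⟩
  have hy0 : 0 < y := by
    rw [hy]
    exact lt_min (by linarith) (by positivity)
  have hy1 : y ≤ r / 2 := by rw [hy]; exact min_le_left _ _
  have hy2 : 4 * (x + r) * y ≤ ε := by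
    have h : y ≤ ε / (4 * (x + r)) := by rw [hy]; exact min_le_right _ _
    rw [le_div_iff₀ (by positivity)] at h
    linarith
  have hs1 : R < √(R ^ 2 + y ^ 2) := by
    apply Real.lt_sqrt_of_sq_lt
    nlinarith
  have hs2 : r < √(r ^ 2 + y ^ 2) := by
    apply Real.lt_sqrt_of_sq_lt
    nlinarith
  obtain ⟨ρ, hρ⟩ : ∃ ρ, ρ = min (y / 2) (min (√(R ^ 2 + y ^ 2) - R) (√(r ^ 2 + y ^ 2) - r)) :=
    ⟨_, rfl⟩
  have hρ0 : 0 < ρ := by
    rw [hρ]
    exact lt_min (by linarith) (lt_min (by linarith) (by linarith))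
  have hρ1 : ρ ≤ y / 2 := by rw [hρ]; exact min_le_left _ _
  have hρ2 : ρ ≤ √(R ^ 2 + y ^ 2) - R := by
    rw [hρ]; exact (min_le_right _ _).trans (min_le_left _ _)
  have hρ3 : ρ ≤ √(r ^ 2 + y ^ 2) - r := by
    rw [hρ]; exact (min_le_right _ _).trans (min_le_right _ _)
  refine ⟨⟨R - x - y, 0⟩, ⟨R, y⟩, ρ, hρ0, ?_, ?_, ?_, ?_⟩
  · intro z hz
    rw [mem_ball] at hz
    rw [mem_closedBall]
    have h : dist (⟨R - x - y, 0⟩ : ℂ) ((R - r - x : ℝ) : ℂ) = r - y := by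
      have e : (⟨R - x - y, 0⟩ : ℂ) = ((R - x - y : ℝ) : ℂ) := rfl
      rw [e, Complex.dist_of_im_eq (by simp)]
      simp only [Complex.ofReal_re, Real.dist_eq]
      rw [show R - x - y - (R - r - x) = r - y by ring, abs_of_nonneg (by linarith)]
    have := dist_triangle z (⟨R - x - y, 0⟩ : ℂ) ((R - r - x : ℝ) : ℂ)
    linarith
  · intro z hz
    rw [mem_ball] at hz
    rw [mem_compl_iff, mem_ball, dist_zero_right, not_lt]
    have h : ‖(⟨R, y⟩ : ℂ)‖ = √(R ^ 2 + y ^ 2) := by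
      rw [Complex.norm_eq_sqrt_sq_add_sq]
    have h2 : ‖(⟨R, y⟩ : ℂ)‖ ≤ ‖z‖ + dist z ⟨R, y⟩ := by
      rw [dist_eq_norm, norm_sub_rev]
      calc ‖(⟨R, y⟩ : ℂ)‖ = ‖z + (⟨R, y⟩ - z)‖ := by rw [add_sub_cancel]
        _ ≤ _ := norm_add_le _ _
    rw [h] at h2
    linarith
  · intro s hs0 hs1'
    rw [Set.disjoint_left]
    intro z hz hz'
    rw [mem_ball] at hz
    rw [mem_closedBall] at hz'
    obtain ⟨p, hp⟩ : ∃ p : ℂ, p = (⟨R - x - y, 0⟩ : ℂ) + s * ((⟨R, y⟩ : ℂ) - ⟨R - x - y, 0⟩) :=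
      ⟨_, rfl⟩
    rw [← hp] at hz
    have hpre : p.re = R - x - y + s * (x + y) := by
      rw [hp]
      simp only [Complex.add_re, Complex.mul_re, Complex.sub_re, Complex.ofReal_re,
        Complex.ofReal_im, zero_mul, sub_zero]
      ring
    have hpim : p.im = s * y := by
      rw [hp]
      simp only [Complex.add_im, Complex.mul_im, Complex.sub_im, Complex.ofReal_re,
        Complex.ofReal_im, zero_mul, add_zero, sub_zero, zero_add]
    have hd : √(r ^ 2 + y ^ 2) ≤ dist p ((R + r : ℝ) : ℂ) := by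
      rw [dist_eq_norm, Complex.norm_eq_sqrt_sq_add_sq]
      apply Real.sqrt_le_sqrt
      simp only [Complex.sub_re, Complex.sub_im, Complex.ofReal_re, Complex.ofReal_im, sub_zero]
      rw [hpre, hpim]
      have e1 : (R - x - y + s * (x + y) - (R + r)) ^ 2 + (s * y) ^ 2 =
          r ^ 2 + y ^ 2 + 2 * (1 - s) * (r * (x + y) - y ^ 2) +
            (1 - s) ^ 2 * ((x + y) ^ 2 + y ^ 2) := by ring
      rw [e1]
      have h3 : 0 ≤ r * (x + y) - y ^ 2 := by nlinarith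
      have h4 : 0 ≤ 2 * (1 - s) * (r * (x + y) - y ^ 2) :=
        mul_nonneg (by linarith) h3
      have h5 : 0 ≤ (1 - s) ^ 2 * ((x + y) ^ 2 + y ^ 2) := by positivity
      linarith
    have h6 := dist_triangle p z ((R + r : ℝ) : ℂ)
    rw [dist_comm p z] at h6
    linarith
  · rw [Complex.sq_norm, Complex.normSq_apply]
    simp only [Complex.sub_re, Complex.sub_im]
    nlinarith

theorem pf_Ob (h1 : S_up) (h2 : S_low) (h3 : S_qinv) : S_Ob := by
  intro μ hμ R r x hr hx hxR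
  have hR : 0 < R := by linarith
  have hA : IsClosed (closedBall ((R - r - x : ℝ) : ℂ) r) := isClosed_closedBall
  have hB : IsClosed ((ball (0:ℂ) R)ᶜ) := isOpen_ball.isClosed_compl
  have hnorm : ∀ a ∈ closedBall ((R - r - x : ℝ) : ℂ) r, ‖a‖ ≤ R - x := by
    intro a ha
    rw [mem_closedBall, dist_eq_norm] at ha
    calc ‖a‖ = ‖(a - ((R - r - x : ℝ) : ℂ)) + ((R - r - x : ℝ) : ℂ)‖ := by rw [sub_add_cancel]
      _ ≤ ‖a - ((R - r - x : ℝ) : ℂ)‖ + ‖((R - r - x : ℝ) : ℂ)‖ := norm_add_le _ _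
      _ ≤ r + (R - r - x) := by
          gcongr
          rw [Complex.norm_real, Real.norm_eq_abs, abs_of_nonneg (by linarith)]
      _ = R - x := by ring
  have hAb : closedBall ((R - r - x : ℝ) : ℂ) r ⊆ ball 0 R := by
    intro a ha
    rw [mem_ball, dist_zero_right]
    have := hnorm a ha
    linarith
  have hdist : ∀ a ∈ closedBall ((R - r - x : ℝ) : ℂ) r, ∀ b ∈ (ball (0:ℂ) R)ᶜ, x ≤ dist a b := by
    intro a ha b hb
    rw [mem_compl_iff, mem_ball, dist_zero_right, not_lt] at hb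
    have h5 := hnorm a ha
    have h6 : ‖b‖ ≤ ‖a‖ + dist a b := by
      rw [dist_eq_norm, norm_sub_rev]
      calc ‖b‖ = ‖a + (b - a)‖ := by rw [add_sub_cancel]
        _ ≤ _ := norm_add_le _ _
    linarith
  have hup : ∀ θ : ℝ, 0 < θ → θ < 1 → ∃ M : ℝ, ∀ t : ℝ, 0 < t → t ≤ 1 →
      Q2 μ (closedBall ((R - r - x : ℝ) : ℂ) r) (ball (0:ℂ) R)ᶜ t ≤
        ENNReal.ofReal (M * Real.exp (-(θ * x ^ 2 / t))) := by
    intro θ hθ hθ1
    exact (h1 μ hμ _ _ _ R θ hA hB hB hAb hθ hθ1).1 x hx hdist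
  constructor
  · intro θ hθ hθ1
    obtain ⟨M, hM⟩ := hup θ hθ hθ1
    refine ⟨max M 0, fun t ht ht1 => ?_⟩
    unfold Op
    refine ENNReal.toReal_le_of_le_ofReal (by positivity) ((hM t ht ht1).trans ?_)
    apply ENNReal.ofReal_le_ofReal
    gcongr
    exact le_max_left _ _
  · intro ε hε
    obtain ⟨a, b, ρ, hρ, ha, hb, hab, hn⟩ := pf_Ob_geo R r x ε hr hx hxR hε
    obtain ⟨c, t₀, hc, ht₀, hlow⟩ := h2 μ hμ _ _ _ a b ρ (ε / 2) hρ (by linarith) ha hb hab
    obtain ⟨M, hM⟩ := hup (1 / 2) (by norm_num) (by norm_num)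
    refine ⟨c, min t₀ 1, hc, lt_min ht₀ one_pos, fun t ht ht' => ?_⟩
    have ht1 : t < t₀ := lt_of_lt_of_le ht' (min_le_left _ _)
    have ht2 : t ≤ 1 := (lt_of_lt_of_le ht' (min_le_right _ _)).le
    have hJ : IsClosed (closedBall ((R + r : ℝ) : ℂ) r) := isClosed_closedBall
    have hJB : closedBall ((R + r : ℝ) : ℂ) r ⊆ (ball (0:ℂ) R)ᶜ := by
      intro z hz
      rw [mem_closedBall, dist_eq_norm] at hz
      rw [mem_compl_iff, mem_ball, dist_zero_right, not_lt]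
      have h5 : ‖((R + r : ℝ) : ℂ)‖ = R + r := by
        rw [Complex.norm_real, Real.norm_eq_abs, abs_of_nonneg (by linarith)]
      have h6 : ‖((R + r : ℝ) : ℂ)‖ ≤ ‖z‖ + ‖z - ((R + r : ℝ) : ℂ)‖ := by
        rw [norm_sub_rev]
        calc ‖((R + r : ℝ) : ℂ)‖ = ‖z + (((R + r : ℝ) : ℂ) - z)‖ := by rw [add_sub_cancel]
          _ ≤ _ := norm_add_le _ _
      linarith
    have hsplit := pf_Ob_split μ _ _ _ t hA hB hJ hJB
    have hfin : Q2 μ (closedBall ((R - r - x : ℝ) : ℂ) r) (ball (0:ℂ) R)ᶜ t ≠ ∞ :=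
      ne_top_of_le_ne_top ENNReal.ofReal_ne_top (hM t ht ht2)
    have himg1 : (fun z : ℂ => (1:ℂ) * z + ((R - r - x : ℝ) : ℂ)) '' closedBall 0 r =
        closedBall ((R - r - x : ℝ) : ℂ) r := by
      ext z
      constructor
      · rintro ⟨w, hw, rfl⟩
        rw [mem_closedBall, dist_zero_right] at hw
        rw [mem_closedBall, dist_eq_norm]
        simpa using hw
      · intro hz
        rw [mem_closedBall, dist_eq_norm] at hz
        exact ⟨z - ((R - r - x : ℝ) : ℂ), by simpa using hz, by simp⟩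
    have himg2 : (fun z : ℂ => (1:ℂ) * z + ((R - r - x : ℝ) : ℂ)) ''
        closedBall ((x + 2 * r : ℝ) : ℂ) r = closedBall ((R + r : ℝ) : ℂ) r := by
      ext z
      constructor
      · rintro ⟨w, hw, rfl⟩
        rw [mem_closedBall, dist_eq_norm] at hw ⊢
        have e : (1:ℂ) * w + ((R - r - x : ℝ) : ℂ) - ((R + r : ℝ) : ℂ) =
            w - ((x + 2 * r : ℝ) : ℂ) := by
          push_cast
          ring
        rw [e]
        exact hw
      · intro hz
        rw [mem_closedBall, dist_eq_norm] at hz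
        refine ⟨z - ((R - r - x : ℝ) : ℂ), ?_, by simp⟩
        rw [mem_closedBall, dist_eq_norm]
        have e : z - ((R - r - x : ℝ) : ℂ) - ((x + 2 * r : ℝ) : ℂ) =
            z - ((R + r : ℝ) : ℂ) := by
          push_cast
          ring
        rw [e]
        exact hz
    have hHp : Hp μ r x t =
        (Q2 μ (closedBall ((R - r - x : ℝ) : ℂ) r) (closedBall ((R + r : ℝ) : ℂ) r) t).toReal := by
      unfold Hp
      rw [← h3 μ hμ (closedBall 0 r) (closedBall ((x + 2 * r : ℝ) : ℂ) r) 1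
        ((R - r - x : ℝ) : ℂ) t isClosed_closedBall isClosed_closedBall (by simp) ht, himg1, himg2]
    have hle1 : Q2 μ (closedBall ((R - r - x : ℝ) : ℂ) r) (closedBall ((R + r : ℝ) : ℂ) r) t ≠ ∞ :=
      ne_top_of_le_ne_top hfin (le_self_add.trans hsplit)
    have hle2 : Qn μ (closedBall ((R - r - x : ℝ) : ℂ) r) (ball (0:ℂ) R)ᶜ
        (closedBall ((R + r : ℝ) : ℂ) r) t ≠ ∞ :=
      ne_top_of_le_ne_top hfin (le_add_self.trans hsplit)
    have h7 := ENNReal.toReal_mono hfin hsplit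
    rw [ENNReal.toReal_add hle1 hle2, ← hHp] at h7
    have h8 := hlow t ht ht1
    have h9 : c * Real.exp (-((‖b - a‖ ^ 2 + ε / 2) / t)) ≤
        (Qn μ (closedBall ((R - r - x : ℝ) : ℂ) r) (ball (0:ℂ) R)ᶜ
          (closedBall ((R + r : ℝ) : ℂ) r) t).toReal := by
      rwa [ENNReal.ofReal_le_iff_le_toReal hle2] at h8
    have h10 : c * Real.exp (-((x ^ 2 + ε) / t)) ≤
        c * Real.exp (-((‖b - a‖ ^ 2 + ε / 2) / t)) := by
      have h11 : (‖b - a‖ ^ 2 + ε / 2) / t ≤ (x ^ 2 + ε) / t :=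
        div_le_div_of_nonneg_right (by linarith) ht.le
      exact mul_le_mul_of_nonneg_left (Real.exp_le_exp.2 (by linarith)) hc.le
    show c * Real.exp (-((x ^ 2 + ε) / t)) ≤
      (Q2 μ (closedBall ((R - r - x : ℝ) : ℂ) r) (ball (0:ℂ) R)ᶜ t).toReal - Hp μ r x t
    linarith

end Pool.Agent.H212AN
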