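import Pool.Agent.H212AN.E1

set_option autoImplicit false

namespace Pool.Agent.H212AN

open MeasureTheory Set Filter Topology Metric
open Pool.Agent.H212AN.G (nG PG gm gk)
open scoped Real ENNReal ComplexConjugate

theorem pf_T3 (h1 : S_up) : S_T3 := by
  intro μ hμ R r w₁ w₂ hok θ hθ0 hθ1
  obtain ⟨hr, hw1, hw2, hd⟩ := hok
  rw [dist_zero_right] at hw1 hw2
  have hA : closedBall w₁ r ⊆ ball (0:ℂ) R := by
    intro z hz
    rw [mem_closedBall] at hz
    rw [mem_ball, dist_zero_right]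
    have : ‖z‖ ≤ ‖w₁‖ + dist z w₁ := by
      have h2 : z = w₁ + (z - w₁) := by ring
      calc ‖z‖ = ‖w₁ + (z - w₁)‖ := by rw [← h2]
        _ ≤ ‖w₁‖ + ‖z - w₁‖ := norm_add_le _ _
        _ = ‖w₁‖ + dist z w₁ := by rw [dist_eq_norm]
    linarith
  obtain ⟨M, hM⟩ := (h1 μ hμ (closedBall w₁ r) (closedBall w₂ r) (ball (0:ℂ) R)ᶜ R θ
    isClosed_closedBall isClosed_closedBall isOpen_ball.isClosed_compl hA hθ0 hθ1).2
    ((dist w₁ w₂ - 2 * r) + (R - r - ‖w₁‖) + (R - r - ‖w₂‖)) (by linarith) (by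
      intro a ha b hb c hc
      rw [mem_closedBall] at ha hb
      rw [mem_compl_iff, mem_ball, dist_zero_right, not_lt] at hc
      have e1 : dist w₁ w₂ ≤ dist w₁ a + dist a b + dist b w₂ := dist_triangle4 _ _ _ _
      rw [dist_comm w₁ a] at e1
      have e2 : ‖c‖ ≤ dist b c + dist b w₂ + ‖w₂‖ := by
        have := dist_triangle4 c b w₂ (0:ℂ)
        rw [dist_zero_right, dist_zero_right, dist_comm c b] at this
        exact this
      have e3 : ‖c‖ ≤ dist c a + dist a w₁ + ‖w₁‖ := by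
        have := dist_triangle4 c a w₁ (0:ℂ)
        rw [dist_zero_right, dist_zero_right] at this
        exact this
      linarith)
  refine ⟨max M 0, fun t ht0 ht1 => ?_⟩
  have hexp := Real.exp_pos (-(θ * ((dist w₁ w₂ - 2 * r) + (R - r - ‖w₁‖) + (R - r - ‖w₂‖)) ^ 2 /
    (4 * t)))
  have hb := hM t ht0 ht1
  have h0 : (0:ℝ) ≤ max M 0 * Real.exp (-(θ * ((dist w₁ w₂ - 2 * r) + (R - r - ‖w₁‖) +
    (R - r - ‖w₂‖)) ^ 2 / (4 * t))) := mul_nonneg (le_max_right _ _) hexp.le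
  refine ENNReal.toReal_le_of_le_ofReal h0 (hb.trans (ENNReal.ofReal_le_ofReal ?_))
  exact mul_le_mul_of_nonneg_right (le_max_left _ _) hexp.le

end Pool.Agent.H212AN
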