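import Pool.Agent.H212AN.E1

set_option autoImplicit false

namespace Pool.Agent.H212AN

open MeasureTheory Set Filter Topology Metric
open Pool.Agent.H212AN.G (nG PG gm gk)
open scoped Real ENNReal ComplexConjugate

theorem pf_cg_rot (z w : ℂ) (h : ‖z‖ = ‖w‖) : ∃ u : Circle, rotation u z = w := by
  by_cases hz : z = 0
  · subst hz
    refine ⟨1, ?_⟩
    rw [norm_zero] at h
    rw [map_zero, eq_comm, ← norm_eq_zero, ← h]
  · have hn : ‖w / z‖ = 1 := by
      rw [norm_div, ← h, div_self (norm_ne_zero_iff.mpr hz)]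
    have hm : w / z ∈ Submonoid.unitSphere ℂ := mem_sphere_zero_iff_norm.mpr hn
    refine ⟨⟨w / z, hm⟩, ?_⟩
    exact div_mul_cancel₀ w hz

theorem pf_cg_real (a : ℝ) (ha : 0 < a) (b c : ℂ) (h : ‖b‖ = ‖c‖)
    (hd : dist (a : ℂ) b = dist (a : ℂ) c) : b = c ∨ conj b = c := by
  have h1 : Complex.normSq b = Complex.normSq c := by
    rw [Complex.normSq_eq_norm_sq, Complex.normSq_eq_norm_sq, h]
  have h2 : Complex.normSq ((a : ℂ) - b) = Complex.normSq ((a : ℂ) - c) := by
    rw [Complex.normSq_eq_norm_sq, Complex.normSq_eq_norm_sq, ← dist_eq_norm, ← dist_eq_norm, hd]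
  rw [Complex.normSq_apply, Complex.normSq_apply] at h1 h2
  simp only [Complex.sub_re, Complex.sub_im, Complex.ofReal_re, Complex.ofReal_im] at h2
  have hre : b.re = c.re := by
    have : a * (b.re - c.re) = 0 := by nlinarith
    rcases mul_eq_zero.mp this with h0 | h0
    · exact absurd h0 ha.ne'
    · linarith
  have him : (b.im - c.im) * (b.im + c.im) = 0 := by
    rw [hre] at h1
    nlinarith
  rcases mul_eq_zero.mp him with h0 | h0
  · left
    exact Complex.ext hre (by linarith)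
  · right
    exact Complex.ext (by simpa using hre) (by simp only [Complex.conj_im]; linarith)

theorem pf_cg_fix (a b c : ℂ) (h : ‖b‖ = ‖c‖) (hd : dist a b = dist a c) :
    ∃ φ : ℂ ≃ₗᵢ[ℝ] ℂ, φ a = a ∧ φ b = c := by
  by_cases ha : a = 0
  · subst ha
    obtain ⟨u, hu⟩ := pf_cg_rot b c h
    exact ⟨rotation u, map_zero _, hu⟩
  · obtain ⟨r, hr⟩ := pf_cg_rot a (‖a‖ : ℂ) (by simp)
    have h1 : ‖rotation r b‖ = ‖rotation r c‖ := by
      rw [LinearIsometryEquiv.norm_map, LinearIsometryEquiv.norm_map, h]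
    have h2 : dist ((‖a‖ : ℝ) : ℂ) (rotation r b) = dist ((‖a‖ : ℝ) : ℂ) (rotation r c) := by
      rw [← hr, LinearIsometryEquiv.dist_map, LinearIsometryEquiv.dist_map, hd]
    rcases pf_cg_real ‖a‖ (norm_pos_iff.mpr ha) _ _ h1 h2 with h3 | h3
    · exact ⟨LinearIsometryEquiv.refl ℝ ℂ, rfl, (rotation r).injective h3⟩
    · refine ⟨((rotation r).trans Complex.conjLIE).trans (rotation r).symm, ?_, ?_⟩
      · simp only [LinearIsometryEquiv.trans_apply]
        rw [hr, Complex.conjLIE_apply, Complex.conj_ofReal, ← hr,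
          LinearIsometryEquiv.symm_apply_apply]
      · simp only [LinearIsometryEquiv.trans_apply]
        rw [Complex.conjLIE_apply, h3, LinearIsometryEquiv.symm_apply_apply]

theorem pf_cg : S_cg := by
  intro w₁ w₂ w₁' w₂' h1 h2 hd
  obtain ⟨u, hu⟩ := pf_cg_rot w₁ w₁' h1
  obtain ⟨φ, hφ1, hφ2⟩ := pf_cg_fix w₁' (rotation u w₂) w₂'
    (by rw [LinearIsometryEquiv.norm_map, h2])
    (by rw [← hd]; conv_lhs => rw [← hu]
        rw [LinearIsometryEquiv.dist_map])
  refine ⟨((rotation u).trans φ).toIsometryEquiv, ?_, ?_, ?_⟩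
  · rw [LinearIsometryEquiv.coe_toIsometryEquiv, map_zero]
  · rw [LinearIsometryEquiv.coe_toIsometryEquiv, LinearIsometryEquiv.trans_apply, hu, hφ1]
  · rw [LinearIsometryEquiv.coe_toIsometryEquiv, LinearIsometryEquiv.trans_apply, hφ2]

end Pool.Agent.H212AN
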