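import Pool.Agent.H212AN.E1

set_option autoImplicit false

namespace Pool.Agent.H212AN

open MeasureTheory Set Filter Topology Metric
open Pool.Agent.H212AN.G (nG PG gm gk)
open scoped Real ENNReal ComplexConjugate

/-- pairs of a loop and a position such that the loop meets `X` -/
def pf_ie_H (X : Set ℂ) (t : ℝ) : Set (Lo × ℂ) := {p | hit X t p.1 p.2}

theorem pf_ie_closed (X : Set ℂ) (hX : IsClosed X) (t : ℝ) : IsClosed (pf_ie_H X t) := by
  have hc : Continuous (fun q : (Lo × ℂ) × unitInterval => q.1.2 + (√t : ℂ) * q.1.1 q.2) := by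
    have h1 : Continuous (fun q : (Lo × ℂ) × unitInterval => q.1.1 q.2) := by
      exact Continuous.eval (continuous_fst.comp continuous_fst) continuous_snd
    exact (continuous_snd.comp continuous_fst).add (continuous_const.mul h1)
  have h2 : IsClosed ((fun q : (Lo × ℂ) × unitInterval => q.1.2 + (√t : ℂ) * q.1.1 q.2) ⁻¹' X) := hX.preimage hc
  have h3 := isClosedMap_fst_of_compactSpace (X := Lo × ℂ) (Y := unitInterval) _ h2
  convert h3 using 1
  ext p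
  constructor
  · rintro ⟨s, hs⟩
    exact ⟨(p, s), hs, rfl⟩
  · rintro ⟨⟨p', s⟩, hs, rfl⟩
    exact ⟨s, hs⟩

theorem pf_ie_meas (X : Set ℂ) (hX : IsClosed X) (t : ℝ) : MeasurableSet (pf_ie_H X t) :=
  (pf_ie_closed X hX t).measurableSet

/-- finiteness -/
theorem pf_ie_fin (h2 : S_mom) (μ : Measure Lo) (hμ : IsLoop μ) (a t : ℝ) (ha : 0 ≤ a) :
    (μ.prod (volume : Measure ℂ)) {p : Lo × ℂ | ‖p.2‖ ≤ a + √t * ‖p.1‖} < ∞ := by
  haveI := hμ.prob
  have hm : MeasurableSet {p : Lo × ℂ | ‖p.2‖ ≤ a + √t * ‖p.1‖} := by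
    apply IsClosed.measurableSet
    apply isClosed_le
    · exact continuous_norm.comp continuous_snd
    · exact continuous_const.add (continuous_const.mul (continuous_norm.comp continuous_fst))
  rw [Measure.prod_apply hm]
  have e : ∀ b : Lo, (volume : Measure ℂ) (Prod.mk b ⁻¹' {p : Lo × ℂ | ‖p.2‖ ≤ a + √t * ‖p.1‖}) =
      ENNReal.ofReal ((a + √t * ‖b‖) ^ 2 * π) := by
    intro b
    have e1 : (Prod.mk b ⁻¹' {p : Lo × ℂ | ‖p.2‖ ≤ a + √t * ‖p.1‖}) = closedBall (0 : ℂ) (a + √t * ‖b‖) := by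
      ext z; simp
    rw [e1, Complex.volume_closedBall, ENNReal.ofReal_mul (by positivity), ENNReal.ofReal_pow (by positivity)]
    congr 1
    rw [ENNReal.ofReal, ← NNReal.coe_real_pi, Real.toNNReal_coe]
  simp_rw [e]
  have hi : Integrable (fun b : Lo => (a + √t * ‖b‖) ^ 2 * π) μ := by
    have i1 := h2 μ hμ 1
    have i2 := h2 μ hμ 2
    have e2 : (fun b : Lo => (a + √t * ‖b‖) ^ 2 * π) =
        fun b : Lo => (a ^ 2 + 2 * a * √t * ‖b‖ ^ 1 + √t ^ 2 * ‖b‖ ^ 2) * π := by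
      funext b; ring
    rw [e2]
    exact (((integrable_const _).add (i1.const_mul _)).add (i2.const_mul _)).mul_const _
  exact hi.lintegral_lt_top

theorem pf_ie_norm (t : ℝ) (b : Lo) (s : unitInterval) (z : ℂ) (a : ℝ) (h : ‖z + (√t : ℂ) * b s‖ ≤ a) :
    ‖z‖ ≤ a + √t * ‖b‖ := by
  have h1 : ‖(√t : ℂ) * b s‖ ≤ √t * ‖b‖ := by
    rw [norm_mul, Complex.norm_real, Real.norm_of_nonneg (Real.sqrt_nonneg _)]
    exact mul_le_mul_of_nonneg_left (b.norm_coe_le_norm s) (Real.sqrt_nonneg _)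
  calc ‖z‖ = ‖(z + (√t : ℂ) * b s) - (√t : ℂ) * b s‖ := by congr 1; ring
    _ ≤ ‖z + (√t : ℂ) * b s‖ + ‖(√t : ℂ) * b s‖ := norm_sub_le _ _
    _ ≤ _ := add_le_add h h1

theorem pf_ie_fin1 (h2 : S_mom) (μ : Measure Lo) (hμ : IsLoop μ) (w : ℂ) (r t : ℝ) (hr : 0 ≤ r) :
    (μ.prod (volume : Measure ℂ)) (pf_ie_H (closedBall w r) t) < ∞ := by
  refine lt_of_le_of_lt (measure_mono ?_) (pf_ie_fin h2 μ hμ (‖w‖ + r) t (by positivity))
  rintro ⟨b, z⟩ ⟨s, hs⟩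
  refine pf_ie_norm t b s z _ ?_
  rw [mem_closedBall, dist_eq_norm] at hs
  calc ‖z + (√t : ℂ) * b s‖ = ‖w + (z + (√t : ℂ) * b s - w)‖ := by congr 1; ring
    _ ≤ ‖w‖ + ‖z + (√t : ℂ) * b s - w‖ := norm_add_le _ _
    _ ≤ _ := by simpa using hs

theorem pf_ie_fin0 (h2 : S_mom) (μ : Measure Lo) (hμ : IsLoop μ) (R t : ℝ) (hR : 0 ≤ R) :
    (μ.prod (volume : Measure ℂ)) (pf_ie_H (ball (0:ℂ) R)ᶜ t)ᶜ < ∞ := by
  refine lt_of_le_of_lt (measure_mono ?_) (pf_ie_fin h2 μ hμ R t hR)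
  rintro ⟨b, z⟩ h
  refine pf_ie_norm t b 0 z _ ?_
  have h1 : ¬ hit (ball (0:ℂ) R)ᶜ t b z := h
  unfold hit at h1
  push Not at h1
  have h3 := h1 0
  rw [mem_compl_iff, not_not, mem_ball_zero_iff] at h3
  exact h3.le

/-- translation invariance -/
theorem pf_ie_trans (μ : Measure Lo) (hμ : IsLoop μ) (w : ℂ) (r t : ℝ) :
    (μ.prod (volume : Measure ℂ)) (pf_ie_H (closedBall w r) t) =
      (μ.prod (volume : Measure ℂ)) (pf_ie_H (closedBall 0 r) t) := by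
  haveI := hμ.prob
  rw [Measure.prod_apply (pf_ie_meas _ isClosed_closedBall t), Measure.prod_apply (pf_ie_meas _ isClosed_closedBall t)]
  refine lintegral_congr fun b => ?_
  have e : (Prod.mk b ⁻¹' (pf_ie_H (closedBall w r) t)) =
      (fun z : ℂ => z + (-w)) ⁻¹' (Prod.mk b ⁻¹' (pf_ie_H (closedBall 0 r) t)) := by
    ext z
    simp only [mem_preimage, pf_ie_H, mem_setOf_eq, hit, mem_closedBall, dist_eq_norm]
    refine exists_congr fun s => ?_
    rw [show z + (√t : ℂ) * b s - w = z + -w + (√t : ℂ) * b s - 0 by ring]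
  rw [e]
  exact measure_preimage_add_right volume (-w) _

theorem pf_ie_Q2 (μ : Measure Lo) (hμ : IsLoop μ) (A B : Set ℂ) (hA : IsClosed A) (hB : IsClosed B) (t : ℝ) :
    Q2 μ A B t = (μ.prod (volume : Measure ℂ)) (pf_ie_H A t ∩ pf_ie_H B t) := by
  haveI := hμ.prob
  rw [Measure.prod_apply ((pf_ie_meas _ hA t).inter (pf_ie_meas _ hB t))]
  rfl

theorem pf_ie_Q3 (μ : Measure Lo) (hμ : IsLoop μ) (A B C : Set ℂ) (hA : IsClosed A) (hB : IsClosed B)
    (hC : IsClosed C) (t : ℝ) :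
    Q3 μ A B C t = (μ.prod (volume : Measure ℂ)) (pf_ie_H A t ∩ (pf_ie_H B t ∩ pf_ie_H C t)) := by
  haveI := hμ.prob
  rw [Measure.prod_apply ((pf_ie_meas _ hA t).inter ((pf_ie_meas _ hB t).inter (pf_ie_meas _ hC t)))]
  rfl

theorem pf_ie_EV (μ : Measure Lo) (hμ : IsLoop μ) (R r : ℝ) (w₁ w₂ : ℂ) (t : ℝ) :
    EV μ (TH R r 0 w₁ w₂) t = (μ.prod (volume : Measure ℂ))
      ((pf_ie_H (ball (0:ℂ) R)ᶜ t)ᶜ \ (pf_ie_H (closedBall w₁ r) t ∪ pf_ie_H (closedBall w₂ r) t)) := by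
  haveI := hμ.prob
  rw [Measure.prod_apply ((pf_ie_meas _ isOpen_ball.isClosed_compl t).compl.diff
    ((pf_ie_meas _ isClosed_closedBall t).union (pf_ie_meas _ isClosed_closedBall t)))]
  unfold EV
  refine lintegral_congr fun b => ?_
  congr 1
  ext z
  simp only [mem_preimage, pf_ie_H, mem_diff, mem_union, mem_compl_iff, mem_setOf_eq, hit, TH]
  constructor
  · intro h
    refine ⟨?_, ?_⟩
    · rintro ⟨s, hs⟩; exact hs (h s).1
    · rintro (⟨s, hs⟩ | ⟨s, hs⟩)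
      · exact (h s).2 (Or.inl hs)
      · exact (h s).2 (Or.inr hs)
  · rintro ⟨h1, h2⟩ s
    refine ⟨?_, ?_⟩
    · by_contra hs; exact h1 ⟨s, hs⟩
    · rintro (hs | hs)
      · exact h2 (Or.inl ⟨s, hs⟩)
      · exact h2 (Or.inr ⟨s, hs⟩)

/-- inclusion and exclusion for an abstract measure -/
theorem pf_ie_abs {Ω : Type*} [MeasurableSpace Ω] (ν : Measure Ω) (H A B : Set Ω) (hH : MeasurableSet H)
    (hA : MeasurableSet A) (hB : MeasurableSet B) (fH : ν Hᶜ ≠ ∞) (fA : ν A ≠ ∞) (fB : ν B ≠ ∞) :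
    (ν (Hᶜ \ (A ∪ B))).toReal = (ν Hᶜ).toReal - (ν A).toReal - (ν B).toReal + (ν (A ∩ B)).toReal +
      (ν (A ∩ H)).toReal + (ν (B ∩ H)).toReal - (ν (A ∩ (B ∩ H))).toReal := by
  have fAB : ν (A ∪ B) ≠ ∞ := (measure_union_lt_top fA.lt_top fB.lt_top).ne
  have s1 : ∀ X : Set Ω, X ⊆ A ∪ B → ν X ≠ ∞ := fun X hX => ne_top_of_le_ne_top fAB (measure_mono hX)
  have s2 : ∀ X : Set Ω, X ⊆ Hᶜ → ν X ≠ ∞ := fun X hX => ne_top_of_le_ne_top fH (measure_mono hX)
  have e1 : (ν (Hᶜ ∩ (A ∪ B))).toReal + (ν (Hᶜ \ (A ∪ B))).toReal = (ν Hᶜ).toReal := by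
    rw [← ENNReal.toReal_add (s2 _ inter_subset_left) (s2 _ diff_subset), measure_inter_add_diff _ (hA.union hB)]
  have e2 : (ν ((A ∪ B) ∩ H)).toReal + (ν ((A ∪ B) \ H)).toReal = (ν (A ∪ B)).toReal := by
    rw [← ENNReal.toReal_add (s1 _ inter_subset_left) (s1 _ diff_subset), measure_inter_add_diff _ hH]
  have e3 : (ν (A ∪ B)).toReal + (ν (A ∩ B)).toReal = (ν A).toReal + (ν B).toReal := by
    rw [← ENNReal.toReal_add fAB (s1 _ (inter_subset_left.trans subset_union_left)), ← ENNReal.toReal_add fA fB,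
      measure_union_add_inter _ hB]
  have e4 : (ν ((A ∪ B) ∩ H)).toReal + (ν (A ∩ (B ∩ H))).toReal = (ν (A ∩ H)).toReal + (ν (B ∩ H)).toReal := by
    have e5 : (A ∪ B) ∩ H = (A ∩ H) ∪ (B ∩ H) := union_inter_distrib_right _ _ _
    have e6 : A ∩ (B ∩ H) = (A ∩ H) ∩ (B ∩ H) := by ext x; simp only [mem_inter_iff]; tauto
    rw [e5, e6, ← ENNReal.toReal_add, ← ENNReal.toReal_add, measure_union_add_inter _ (hB.inter hH)]
    · exact s1 _ (inter_subset_left.trans subset_union_left)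
    · exact s1 _ (inter_subset_left.trans subset_union_right)
    · exact s1 _ (union_subset (inter_subset_left.trans subset_union_left) (inter_subset_left.trans subset_union_right))
    · exact s1 _ (inter_subset_left.trans (inter_subset_left.trans subset_union_left))
  have e7 : (A ∪ B) \ H = Hᶜ ∩ (A ∪ B) := by ext x; simp only [mem_diff, mem_inter_iff, mem_compl_iff]; tauto
  rw [e7] at e2
  linarith

theorem pf_ie_img (u v w : ℂ) (hu : ‖u‖ = 1) (r : ℝ) :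
    (fun z => u * z + v) '' closedBall w r = closedBall (u * w + v) r := by
  have hu0 : u ≠ 0 := by intro h; rw [h] at hu; simp at hu
  ext z
  simp only [mem_image, mem_closedBall, dist_eq_norm]
  constructor
  · rintro ⟨y, hy, rfl⟩
    rw [show u * y + v - (u * w + v) = u * (y - w) by ring, norm_mul, hu, one_mul]
    exact hy
  · intro h
    refine ⟨u⁻¹ * (z - v), ?_, ?_⟩
    · rw [show u⁻¹ * (z - v) - w = u⁻¹ * (z - (u * w + v)) by field_simp; ring, norm_mul, norm_inv, hu, inv_one, one_mul]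
      exact h
    · field_simp; ring

theorem pf_ie_img0 (u : ℂ) (hu : ‖u‖ = 1) (R : ℝ) :
    (fun z => u * z + 0) '' (ball (0:ℂ) R)ᶜ = (ball (0:ℂ) R)ᶜ := by
  have hu0 : u ≠ 0 := by intro h; rw [h] at hu; simp at hu
  ext z
  simp only [mem_image, mem_compl_iff, mem_ball_zero_iff, add_zero]
  constructor
  · rintro ⟨y, hy, rfl⟩
    rw [norm_mul, hu, one_mul]; exact hy
  · intro h
    refine ⟨u⁻¹ * z, ?_, ?_⟩
    · rw [norm_mul, norm_inv, hu, inv_one, one_mul]; exact h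
    · field_simp

theorem pf_ie (h1 : S_qinv) (h2 : S_mom) (h3 : S_end) : S_ie := by
  intro μ hμ R r
  refine ⟨fun t => ((μ.prod (volume : Measure ℂ)) (pf_ie_H (ball (0:ℂ) R)ᶜ t)ᶜ).toReal -
    2 * ((μ.prod (volume : Measure ℂ)) (pf_ie_H (closedBall 0 r) t)).toReal, ?_⟩
  rintro w₁ w₂ ⟨hr, hw1, hw2, hd⟩ t ht
  have hR : 0 ≤ R := by have := dist_nonneg (x := w₁) (y := (0:ℂ)); linarith
  have fH := pf_ie_fin0 h2 μ hμ R t hR
  have fA := pf_ie_fin1 h2 μ hμ w₁ r t hr.le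
  have fB := pf_ie_fin1 h2 μ hμ w₂ r t hr.le
  have mH := pf_ie_meas (ball (0:ℂ) R)ᶜ isOpen_ball.isClosed_compl t
  have mA := pf_ie_meas (closedBall w₁ r) isClosed_closedBall t
  have mB := pf_ie_meas (closedBall w₂ r) isClosed_closedBall t
  rw [pf_ie_EV μ hμ]
  refine ⟨ne_top_of_le_ne_top fH.ne (measure_mono diff_subset), ?_⟩
  rw [pf_ie_abs _ _ _ _ mH mA mB fH.ne fA.ne fB.ne, pf_ie_trans μ hμ w₁, pf_ie_trans μ hμ w₂,
    pf_ie_Q3 μ hμ _ _ _ isClosed_closedBall isClosed_closedBall isOpen_ball.isClosed_compl]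
  have e1 : Hp μ r (dist w₁ w₂ - 2 * r) t =
      ((μ.prod (volume : Measure ℂ)) (pf_ie_H (closedBall w₁ r) t ∩ pf_ie_H (closedBall w₂ r) t)).toReal := by
    rw [← pf_ie_Q2 μ hμ _ _ isClosed_closedBall isClosed_closedBall]
    unfold Hp
    have hne : w₂ - w₁ ≠ 0 := by
      intro h
      have : dist w₁ w₂ = 0 := by rw [sub_eq_zero.1 h]; simp
      linarith
    have hn : (‖w₂ - w₁‖ : ℂ) ≠ 0 := by exact_mod_cast (norm_ne_zero_iff.2 hne)
    have hu : ‖(w₂ - w₁) / (‖w₂ - w₁‖ : ℂ)‖ = 1 := by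
      rw [norm_div, Complex.norm_real, norm_norm, div_self (norm_ne_zero_iff.2 hne)]
    have := h1 μ hμ (closedBall 0 r) (closedBall ((dist w₁ w₂ - 2 * r + 2 * r : ℝ) : ℂ) r)
      ((w₂ - w₁) / (‖w₂ - w₁‖ : ℂ)) w₁ t isClosed_closedBall isClosed_closedBall hu ht
    rw [← this, pf_ie_img _ _ _ hu, pf_ie_img _ _ _ hu]
    congr 3
    · ring
    · rw [show dist w₁ w₂ - 2 * r + 2 * r = ‖w₂ - w₁‖ by rw [dist_comm, dist_eq_norm]; ring]
      rw [div_mul_cancel₀ _ hn]; ring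
  have e2 : ∀ w : ℂ, Op μ R r (R - r - ‖w‖) t =
      ((μ.prod (volume : Measure ℂ)) (pf_ie_H (closedBall w r) t ∩ pf_ie_H (ball (0:ℂ) R)ᶜ t)).toReal := by
    intro w
    rw [← pf_ie_Q2 μ hμ _ _ isClosed_closedBall isOpen_ball.isClosed_compl]
    unfold Op
    rw [show R - r - (R - r - ‖w‖) = ‖w‖ by ring]
    obtain ⟨u, hu, huw⟩ : ∃ u : ℂ, ‖u‖ = 1 ∧ u * (‖w‖ : ℂ) = w := by
      by_cases hw : w = 0
      · exact ⟨1, by simp, by simp [hw]⟩
      · refine ⟨w / (‖w‖ : ℂ), ?_, ?_⟩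
        · rw [norm_div, Complex.norm_real, norm_norm, div_self (norm_ne_zero_iff.2 hw)]
        · exact div_mul_cancel₀ _ (by exact_mod_cast (norm_ne_zero_iff.2 hw))
    have := h1 μ hμ (closedBall (‖w‖ : ℂ) r) (ball (0:ℂ) R)ᶜ u 0 t isClosed_closedBall
      isOpen_ball.isClosed_compl hu ht
    rw [← this, pf_ie_img _ _ _ hu, pf_ie_img0 _ hu, huw, add_zero]
  rw [e1, e2, e2]
  ring

end Pool.Agent.H212AN
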