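import Pool.Agent.H212AN.E1

set_option autoImplicit false

namespace Pool.Agent.H212AN

open MeasureTheory Set Filter Topology Metric
open Pool.Agent.H212AN.G (nG PG gm gk)
open scoped Real ENNReal ComplexConjugate

/- PLAIN PROOF.
v = b - a; choose 0 < δ < ρ/2 with 2‖v‖δ <= ε, t₀ from S_tube. Let E be the event of S_tube, intersected with b 0 = 0 (S_end, a.s.). For b ∈ E and z ∈ ball a (ρ/2):
z + √t b 0 = z ∈ ball a ρ ⊆ A; at the time s of the event z + √t b s is within ρ/2 + δ < ρ of a + v = b (the point), so in B; and for all s, z + √t b s is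
within ρ/2 + δ < ρ of a + x v, so not in C. So the volume is >= vol (ball a (ρ/2)) = π ρ²/4 on E, and Qn >= (πρ²/4) μ(E) >= (πρ²/8) exp(-(‖v‖²+ε)/t). The integrand need
not be measurable for this lower bound (lintegral_mono with an indicator; the event of S_tube is closed, or use setLIntegral / measure bounds).
-/
theorem pf_low_tube_closed (v : ℂ) (δ : ℝ) :
    IsClosed {q : ℂ | ∃ x : ℝ, 0 ≤ x ∧ x ≤ 1 ∧ ‖q - x * v‖ ≤ δ} := by
  have h1 : {q : ℂ | ∃ x : ℝ, 0 ≤ x ∧ x ≤ 1 ∧ ‖q - x * v‖ ≤ δ} =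
      (fun p : ℝ × ℂ => (p.1 : ℂ) * v + p.2) '' (Icc (0:ℝ) 1 ×ˢ closedBall (0:ℂ) δ) := by
    ext q
    constructor
    · rintro ⟨x, h0, h1, h2⟩
      refine ⟨(x, q - x * v), ⟨⟨h0, h1⟩, ?_⟩, ?_⟩
      · simpa using h2
      · simp
    · rintro ⟨⟨x, w⟩, ⟨⟨h0, h1⟩, hw⟩, rfl⟩
      refine ⟨x, h0, h1, ?_⟩
      simpa using hw
  rw [h1]
  refine IsCompact.isClosed (IsCompact.image ?_ (by fun_prop))
  exact isCompact_Icc.prod (isCompact_closedBall _ _)

theorem pf_low_closed (t : ℝ) (v : ℂ) (δ : ℝ) :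
    IsClosed {b : Lo | (∀ s, ∃ x : ℝ, 0 ≤ x ∧ x ≤ 1 ∧ ‖(√t : ℂ) * b s - x * v‖ ≤ δ) ∧
        ∃ s, ‖(√t : ℂ) * b s - v‖ ≤ δ} := by
  have h1 : IsClosed {b : Lo | ∀ s, ∃ x : ℝ, 0 ≤ x ∧ x ≤ 1 ∧ ‖(√t : ℂ) * b s - x * v‖ ≤ δ} := by
    rw [ofPred_forall]
    refine isClosed_iInter fun s => ?_
    have hc : Continuous (fun b : Lo => (√t : ℂ) * b s) :=
      continuous_const.mul (continuous_eval_const s)
    exact (pf_low_tube_closed v δ).preimage hc
  have h2 : IsClosed {b : Lo | ∃ s, ‖(√t : ℂ) * b s - v‖ ≤ δ} := by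
    have h3 : {b : Lo | ∃ s, ‖(√t : ℂ) * b s - v‖ ≤ δ} =
        (Prod.snd : unitInterval × Lo → Lo) '' {p : unitInterval × Lo |
          ‖(√t : ℂ) * p.2 p.1 - v‖ ≤ δ} := by
      ext b
      constructor
      · rintro ⟨s, hs⟩
        exact ⟨(s, b), hs, rfl⟩
      · rintro ⟨⟨s, b'⟩, hs, rfl⟩
        exact ⟨s, hs⟩
    rw [h3]
    refine isClosedMap_snd_of_compactSpace _ ?_
    refine isClosed_le ?_ continuous_const
    have he : Continuous (fun p : unitInterval × Lo => p.2 p.1) :=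
      continuous_snd.eval continuous_fst
    exact ((continuous_const.mul he).sub continuous_const).norm
  exact h1.inter h2

theorem pf_low (h1 : S_tube) (h2 : S_end) : S_low := by
  intro μ hμ A B C a b ρ ε hρ hε hA hB hC
  have hprob := hμ.prob
  obtain ⟨v, hv⟩ : ∃ v, v = b - a := ⟨_, rfl⟩
  obtain ⟨δ, hδ⟩ : ∃ δ, δ = min (ρ / 4) (ε / (2 * (‖v‖ + 1))) := ⟨_, rfl⟩
  have hv0 : 0 ≤ ‖v‖ := norm_nonneg v
  have hδ0 : 0 < δ := by
    rw [hδ]; exact lt_min (by positivity) (by positivity)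
  have hδ1 : δ ≤ ρ / 4 := by rw [hδ]; exact min_le_left _ _
  have hδ2 : 2 * ‖v‖ * δ ≤ ε := by
    have h3 : δ ≤ ε / (2 * (‖v‖ + 1)) := by rw [hδ]; exact min_le_right _ _
    rw [le_div_iff₀ (by positivity)] at h3
    nlinarith
  obtain ⟨t₀, ht₀, H⟩ := h1 μ hμ v δ hδ0
  refine ⟨π * ρ ^ 2 / 8, t₀, by positivity, ht₀, fun t ht htt => ?_⟩
  have hH := H t ht htt
  obtain ⟨E, hE⟩ : ∃ E : Set Lo, E = {b : Lo | (∀ s, ∃ x : ℝ, 0 ≤ x ∧ x ≤ 1 ∧
      ‖(√t : ℂ) * b s - x * v‖ ≤ δ) ∧ ∃ s, ‖(√t : ℂ) * b s - v‖ ≤ δ} := ⟨_, rfl⟩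
  have hEm : MeasurableSet E := by
    rw [hE]
    exact (pf_low_closed t v δ).measurableSet
  rw [← hE] at hH
  have hvol : volume (ball a (ρ / 2)) = ENNReal.ofReal (π * ρ ^ 2 / 4) := by
    rw [Complex.volume_ball, ← ENNReal.ofReal_pow (by positivity)]
    have h4 : ((NNReal.pi : NNReal) : ℝ≥0∞) = ENNReal.ofReal π := by
      rw [← NNReal.coe_real_pi, ENNReal.ofReal_coe_nnreal]
    rw [h4, ← ENNReal.ofReal_mul (by positivity)]
    congr 1
    ring
  have hlow : ∫⁻ l, E.indicator (fun _ => volume (ball a (ρ / 2))) l ∂μ ≤ Qn μ A B C t := by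
    unfold Qn
    refine lintegral_mono_ae ?_
    filter_upwards [h2 μ hμ] with l hl
    by_cases hlE : l ∈ E
    · rw [indicator_of_mem hlE]
      rw [hE] at hlE
      obtain ⟨g1, s1, g2⟩ := hlE
      refine measure_mono fun z hz => ?_
      rw [mem_ball, dist_eq_norm] at hz
      refine ⟨⟨0, ?_⟩, ⟨s1, ?_⟩, ?_⟩
      · rw [hl.1, mul_zero, add_zero]
        refine hA ?_
        rw [mem_ball, dist_eq_norm]
        linarith
      · refine hB ?_
        rw [mem_ball, dist_eq_norm]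
        have e : z + (√t : ℂ) * l s1 - b = (z - a) + ((√t : ℂ) * l s1 - v) := by
          rw [hv]; ring
        rw [e]
        refine (norm_add_le _ _).trans_lt ?_
        linarith
      · rintro ⟨s, hs⟩
        obtain ⟨x, hx0, hx1, hx⟩ := g1 s
        refine Set.disjoint_left.1 (hC x hx0 hx1) ?_ hs
        rw [mem_ball, dist_eq_norm]
        have e : z + (√t : ℂ) * l s - (a + x * (b - a)) =
            (z - a) + ((√t : ℂ) * l s - x * v) := by
          rw [hv]; ring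
        rw [e]
        refine (norm_add_le _ _).trans_lt ?_
        linarith
    · rw [indicator_of_notMem hlE]
      exact bot_le
  refine le_trans ?_ hlow
  rw [lintegral_indicator_const hEm, hvol]
  refine le_trans ?_ (mul_le_mul_right hH _)
  rw [← ENNReal.ofReal_mul (by positivity)]
  refine ENNReal.ofReal_le_ofReal ?_
  rw [← hv]
  have h5 : Real.exp (-((‖v‖ ^ 2 + ε) / t)) ≤ Real.exp (-((‖v‖ ^ 2 + 2 * ‖v‖ * δ) / t)) := by
    refine Real.exp_le_exp.2 (neg_le_neg ?_)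
    exact div_le_div_of_nonneg_right (by linarith) ht.le
  calc π * ρ ^ 2 / 8 * Real.exp (-((‖v‖ ^ 2 + ε) / t))
      ≤ π * ρ ^ 2 / 8 * Real.exp (-((‖v‖ ^ 2 + 2 * ‖v‖ * δ) / t)) :=
        mul_le_mul_of_nonneg_left h5 (by positivity)
    _ = _ := by ring

end Pool.Agent.H212AN
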