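import Pool.Agent.H212AN.E1

set_option autoImplicit false

namespace Pool.Agent.H212AN

open MeasureTheory Set Filter Topology Metric
open Pool.Agent.H212AN.G (nG PG gm gk)
open scoped Real ENNReal ComplexConjugate

/-- the unit complex number turning the axis of reflection into the real axis -/
theorem pf_mo_u (a a' : ℂ) (hne : a ≠ a') (hn : ‖a'‖ = ‖a‖) :
    ∃ u : ℂ, ‖u‖ = 1 ∧ u * a' = conj (u * a) ∧ 0 < (u * a).im := by
  have hd : a - a' ≠ 0 := sub_ne_zero.2 hne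
  have hdn : 0 < ‖a - a'‖ := norm_pos_iff.2 hd
  have hc : (‖a - a'‖ : ℂ) ≠ 0 := by exact_mod_cast hdn.ne'
  have hsq : a'.re ^ 2 + a'.im ^ 2 = a.re ^ 2 + a.im ^ 2 := by
    have h := congrArg (fun x : ℝ => x ^ 2) hn
    simp only [Complex.sq_norm, Complex.normSq_apply] at h
    nlinarith
  have hdsq : ‖a - a'‖ ^ 2 = (a.re - a'.re) ^ 2 + (a.im - a'.im) ^ 2 := by
    rw [Complex.sq_norm, Complex.normSq_apply]
    simp only [Complex.sub_re, Complex.sub_im]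
    ring
  refine ⟨Complex.I * conj (a - a') / ‖a - a'‖, ?_, ?_, ?_⟩
  · rw [norm_div, norm_mul, Complex.norm_I, one_mul, Complex.norm_conj, Complex.norm_real,
      norm_norm, div_self hdn.ne']
  · rw [map_mul, map_div₀, map_mul, Complex.conj_I, Complex.conj_conj, Complex.conj_ofReal]
    field_simp
    apply Complex.ext
    · simp only [Complex.mul_re, Complex.neg_re, Complex.I_re, Complex.I_im, Complex.mul_im,
        Complex.conj_re, Complex.conj_im, Complex.sub_re, Complex.sub_im, Complex.neg_im]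
      nlinarith
    · simp only [Complex.mul_re, Complex.neg_re, Complex.I_re, Complex.I_im, Complex.mul_im,
        Complex.conj_re, Complex.conj_im, Complex.sub_re, Complex.sub_im, Complex.neg_im]
      nlinarith
  · have h1 : (Complex.I * conj (a - a') / (‖a - a'‖ : ℂ) * a) =
        ((‖a - a'‖⁻¹ : ℝ) : ℂ) * (Complex.I * conj (a - a') * a) := by
      push_cast
      field_simp
    rw [h1, Complex.im_ofReal_mul]
    refine mul_pos (inv_pos.2 hdn) ?_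
    have h2 : (Complex.I * conj (a - a') * a).im = ‖a - a'‖ ^ 2 / 2 := by
      rw [hdsq]
      simp only [Complex.mul_re, Complex.I_re, Complex.I_im, Complex.mul_im,
        Complex.conj_re, Complex.conj_im, Complex.sub_re, Complex.sub_im]
      nlinarith
    rw [h2]
    positivity

/-- the isometry `z ↦ u (z - v)` -/
theorem pf_mo_iso (u v : ℂ) (hu : ‖u‖ = 1) : ∃ φ : ℂ ≃ᵢ ℂ, ∀ z, φ z = u * (z - v) := by
  have hu0 : u ≠ 0 := by
    intro h
    rw [h, norm_zero] at hu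
    exact zero_ne_one hu
  refine ⟨⟨⟨fun z => u * (z - v), fun z => u⁻¹ * z + v, ?_, ?_⟩, ?_⟩, fun z => rfl⟩
  · intro z
    field_simp
    ring
  · intro z
    field_simp
    ring
  · refine Isometry.of_dist_eq ?_
    intro x y
    change dist (u * (x - v)) (u * (y - v)) = dist x y
    rw [dist_eq_norm, dist_eq_norm, ← mul_sub, norm_mul, hu, one_mul]
    congr 1
    ring

theorem pf_mo_TH (φ : ℂ ≃ᵢ ℂ) (R r : ℝ) (c a b : ℂ) :
    φ '' TH R r c a b = TH R r (φ c) (φ a) (φ b) := by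
  unfold TH
  rw [Set.image_diff φ.injective, Set.image_union, IsometryEquiv.image_ball,
    IsometryEquiv.image_closedBall, IsometryEquiv.image_closedBall]

theorem pf_mo_OK (φ : ℂ ≃ᵢ ℂ) (R r : ℝ) (c a b : ℂ) (h : OK2 R r c a b) :
    OK2 R r (φ c) (φ a) (φ b) := by
  unfold OK2 at *
  rw [φ.dist_eq, φ.dist_eq, φ.dist_eq]
  exact h

theorem pf_mo_core (h1 : S_obs2) (Z : Set ℂ → ℝ → ℝ) (hU : ZUp Z) (hL : ZLo Z)
    (hZ : ∀ Q t, 0 ≤ Z Q t) (hinv : ∀ (φ : ℂ ≃ᵢ ℂ) (Q : Set ℂ) (t : ℝ), Z (φ '' Q) t = Z Q t)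
    (R r : ℝ) (w₁ w₂ w₁' : ℂ) (ho : OK2 R r 0 w₁ w₂) (ho' : OK2 R r 0 w₁' w₂)
    (φ : ℂ ≃ᵢ ℂ) (hc : φ w₁' = conj (φ w₁)) (hp : 0 < (φ w₁).im) (h2 : (φ w₂).im ≤ 0)
    (h0 : 0 ≤ (φ 0).im) (hor : (φ w₂).im < 0 ∨ 0 < (φ 0).im) :
    ∃ t : ℝ, 0 < t ∧ Z (TH R r 0 w₁ w₂) t < Z (TH R r 0 w₁' w₂) t := by
  have a1 := pf_mo_OK φ R r 0 w₁ w₂ ho
  have a2 := pf_mo_OK φ R r 0 w₁' w₂ ho'
  rw [hc] at a2
  obtain ⟨t, ht, hlt⟩ := h1 Z hU hL hZ R r (φ 0) (φ w₁) (φ w₂) a1 a2 h0 hp h2 hor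
  refine ⟨t, ht, ?_⟩
  rw [← hc, ← pf_mo_TH, ← pf_mo_TH, hinv, hinv] at hlt
  exact hlt

theorem pf_mo_dist (a b : ℂ) : dist a b ^ 2 = (a.re - b.re) ^ 2 + (a.im - b.im) ^ 2 := by
  rw [dist_eq_norm, Complex.sq_norm, Complex.normSq_apply]
  simp only [Complex.sub_re, Complex.sub_im]
  ring

theorem pf_mo (h1 : S_obs2) : S_mo := by
  intro Z hU hL hZ hinv R r w₁ w₂ w₁' ho ho'
  constructor
  · intro hn hlt
    have hne : w₁ ≠ w₁' := by
      rintro rfl
      exact lt_irrefl _ hlt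
    obtain ⟨u, hu, hcj, him⟩ := pf_mo_u w₁ w₁' hne hn
    obtain ⟨φ, hφ⟩ := pf_mo_iso u 0 hu
    have e1 : φ w₁ = u * w₁ := by rw [hφ, sub_zero]
    have e1' : φ w₁' = conj (φ w₁) := by rw [e1, hφ, sub_zero, hcj]
    have e0 : φ 0 = 0 := by rw [hφ, sub_zero, mul_zero]
    have hp : 0 < (φ w₁).im := by rw [e1]; exact him
    have h2 : (φ w₂).im < 0 := by
      have hd : dist (φ w₁') (φ w₂) < dist (φ w₁) (φ w₂) := by
        rw [φ.dist_eq, φ.dist_eq]
        exact hlt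
      rw [e1'] at hd
      have hd2 : dist (conj (φ w₁)) (φ w₂) ^ 2 < dist (φ w₁) (φ w₂) ^ 2 :=
        pow_lt_pow_left₀ hd dist_nonneg two_ne_zero
      rw [pf_mo_dist, pf_mo_dist, Complex.conj_re, Complex.conj_im] at hd2
      have h5 : (φ w₁).im * (φ w₂).im < 0 := by nlinarith
      by_contra hcon
      have h6 : 0 ≤ (φ w₁).im * (φ w₂).im := mul_nonneg hp.le (not_lt.1 hcon)
      linarith
    exact pf_mo_core h1 Z hU hL hZ hinv R r w₁ w₂ w₁' ho ho' φ e1' hp h2.le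
      (by rw [e0]; simp) (Or.inl h2)
  · intro hd hlt
    have hne : w₁ - w₂ ≠ w₁' - w₂ := by
      intro h
      have h' : w₁ = w₁' := sub_left_injective h
      rw [h'] at hlt
      exact lt_irrefl _ hlt
    obtain ⟨u, hu, hcj, him⟩ := pf_mo_u (w₁ - w₂) (w₁' - w₂) hne (by
      rw [← dist_eq_norm, ← dist_eq_norm]; exact hd)
    obtain ⟨φ, hφ⟩ := pf_mo_iso u w₂ hu
    have e1 : φ w₁ = u * (w₁ - w₂) := hφ _
    have e1' : φ w₁' = conj (φ w₁) := by rw [e1, hφ, hcj]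
    have e2 : φ w₂ = 0 := by rw [hφ, sub_self, mul_zero]
    have hp : 0 < (φ w₁).im := by rw [e1]; exact him
    have h0 : 0 < (φ 0).im := by
      have hd : dist (φ w₁) (φ 0) < dist (φ w₁') (φ 0) := by
        rw [φ.dist_eq, φ.dist_eq, dist_zero_right, dist_zero_right]
        exact hlt
      rw [e1'] at hd
      have hd2 : dist (φ w₁) (φ 0) ^ 2 < dist (conj (φ w₁)) (φ 0) ^ 2 :=
        pow_lt_pow_left₀ hd dist_nonneg two_ne_zero
      rw [pf_mo_dist, pf_mo_dist, Complex.conj_re, Complex.conj_im] at hd2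
      have h5 : 0 < (φ w₁).im * (φ 0).im := by nlinarith
      by_contra hcon
      have h6 : (φ w₁).im * (φ 0).im ≤ 0 := mul_nonpos_of_nonneg_of_nonpos hp.le (not_lt.1 hcon)
      linarith
    exact pf_mo_core h1 Z hU hL hZ hinv R r w₁ w₂ w₁' ho ho' φ e1' hp (by rw [e2]; simp)
      h0.le (Or.inr h0)

end Pool.Agent.H212AN
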