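import Pool.Agent.H212AN.E1

set_option autoImplicit false

namespace Pool.Agent.H212AN

open MeasureTheory Set Filter Topology Metric
open Pool.Agent.H212AN.G (nG PG gm gk)
open scoped Real ENNReal ComplexConjugate

theorem pf_nln_porous (S : Set ℂ) (r : ℝ) (hr : 0 < r)
    (h : ∀ z ∈ S, ∀ t : ℝ, 0 < t → t ≤ r → ∃ m : ℂ, ball m (t / 2) ⊆ closedBall z t \ S) :
    volume S = 0 := by
  have hd := Besicovitch.ae_tendsto_measure_inter_div (volume : Measure ℂ) S
  have key : ∀ z ∈ S, ¬ Tendsto (fun ρ => volume (S ∩ closedBall z ρ) / volume (closedBall z ρ))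
      (𝓝[>] 0) (𝓝 1) := by
    intro z hz hlim
    have hb : ∀ᶠ ρ in 𝓝[>] (0 : ℝ),
        volume (S ∩ closedBall z ρ) / volume (closedBall z ρ) ≤ 3 / 4 := by
      have h1 : ∀ᶠ ρ in 𝓝[>] (0 : ℝ), ρ ∈ Ioc (0 : ℝ) r := Ioc_mem_nhdsGT hr
      filter_upwards [h1] with t ht
      obtain ⟨m, hm⟩ := h z hz t ht.1 ht.2
      have hfin : volume (ball m (t / 2)) ≠ ⊤ := measure_ball_lt_top.ne
      have h2 : volume (S ∩ closedBall z t) ≤ volume (closedBall z t) - volume (ball m (t / 2)) := by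
        rw [← measure_sdiff (hm.trans sdiff_subset) measurableSet_ball.nullMeasurableSet hfin]
        refine measure_mono ?_
        rintro y ⟨hy1, hy2⟩
        exact ⟨hy2, fun h3 => (hm h3).2 hy1⟩
      rw [Complex.volume_closedBall, Complex.volume_ball] at h2
      rw [Complex.volume_closedBall]
      have hpos : ENNReal.ofReal t ^ 2 * NNReal.pi ≠ 0 := by
        have : ENNReal.ofReal t ≠ 0 := by simp [ht.1]
        have hp : (NNReal.pi : ENNReal) ≠ 0 := by
          simp [NNReal.pi_ne_zero]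
        exact mul_ne_zero (pow_ne_zero _ this) hp
      have htop : ENNReal.ofReal t ^ 2 * NNReal.pi ≠ ⊤ :=
        ENNReal.mul_ne_top (ENNReal.pow_ne_top ENNReal.ofReal_ne_top) ENNReal.coe_ne_top
      rw [ENNReal.div_le_iff hpos htop]
      refine h2.trans ?_
      rw [tsub_le_iff_right]
      have e1 : ENNReal.ofReal (t / 2) = ENNReal.ofReal t / 2 := by
        rw [ENNReal.ofReal_div_of_pos (by norm_num)]; simp
      have e2 : ENNReal.ofReal (t / 2) ^ 2 = ENNReal.ofReal t ^ 2 * (1 / 4) := by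
        rw [← ENNReal.ofReal_pow (by linarith [ht.1]), ← ENNReal.ofReal_pow ht.1.le]
        have : (1 / 4 : ENNReal) = ENNReal.ofReal (1 / 4) := by
          rw [ENNReal.ofReal_div_of_pos (by norm_num)]; simp
        rw [this, ← ENNReal.ofReal_mul (by positivity)]
        congr 1; ring
      rw [e2]
      have e3 : (3 / 4 : ENNReal) + 1 / 4 = 1 := by
        rw [ENNReal.div_add_div_same]
        norm_num
        exact ENNReal.div_self (by norm_num) (by norm_num)
      calc ENNReal.ofReal t ^ 2 * NNReal.pi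
          = (3 / 4 + 1 / 4) * (ENNReal.ofReal t ^ 2 * NNReal.pi) := by rw [e3, one_mul]
        _ = 3 / 4 * (ENNReal.ofReal t ^ 2 * NNReal.pi)
            + ENNReal.ofReal t ^ 2 * (1 / 4) * NNReal.pi := by
            rw [add_mul]; congr 1; ring
        _ ≤ _ := le_rfl
    have := le_of_tendsto hlim hb
    have h4 : ¬ (1 : ENNReal) ≤ 3 / 4 := by
      rw [not_le]
      refine ENNReal.div_lt_of_lt_mul ?_
      norm_num
    exact h4 this
  have hmem : ∀ᵐ z ∂((volume : Measure ℂ).restrict S), z ∉ S := by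
    filter_upwards [hd] with z hz hzS
    exact key z hzS hz
  have h0 : ((volume : Measure ℂ).restrict S) S = 0 := by
    have := (ae_iff.mp hmem)
    simpa using this
  rwa [Measure.restrict_apply_self] at h0

theorem pf_nln_null (K : Set ℂ) (w : ℂ) (r : ℝ) (hr : 0 < r) :
    volume {z : ℂ | (∀ k ∈ K, r ≤ ‖z + k - w‖) ∧ ∃ k ∈ K, ‖z + k - w‖ = r} = 0 := by
  refine pf_nln_porous _ r hr ?_
  rintro z ⟨_, k, hk, hz⟩ t ht htr
  refine ⟨z - ((t / (2 * r) : ℝ) : ℂ) * (z + k - w), fun y hy => ?_⟩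
  rw [mem_ball, dist_eq_norm] at hy
  set v := z + k - w with hv
  set m := z - ((t / (2 * r) : ℝ) : ℂ) * v with hm
  have hn : ‖((t / (2 * r) : ℝ) : ℂ) * v‖ = t / 2 := by
    rw [norm_mul, hz, Complex.norm_real, Real.norm_of_nonneg (by positivity)]
    field_simp
  refine ⟨?_, ?_⟩
  · rw [mem_closedBall, dist_eq_norm]
    have : y - z = (y - m) - ((t / (2 * r) : ℝ) : ℂ) * v := by rw [hm]; ring
    rw [this]
    refine (norm_sub_le _ _).trans ?_
    rw [hn]; linarith
  · rintro ⟨hy1, _⟩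
    have h3 := hy1 k hk
    have e : y + k - w = (y - m) + ((1 - t / (2 * r) : ℝ) : ℂ) * v := by
      rw [hm, hv]; push_cast; ring
    have h6 : 0 ≤ 1 - t / (2 * r) := by
      rw [sub_nonneg, div_le_one (by positivity)]; linarith
    have h4 : ‖((1 - t / (2 * r) : ℝ) : ℂ) * v‖ = r - t / 2 := by
      rw [norm_mul, hz, Complex.norm_real, Real.norm_of_nonneg h6]
      field_simp
    have h5 := norm_add_le (y - m) (((1 - t / (2 * r) : ℝ) : ℂ) * v)
    rw [← e, h4] at h5
    linarith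

theorem pf_nln_null' (K : Set ℂ) (c : ℂ) (R : ℝ) (hR : 0 < R) :
    volume {z : ℂ | (∀ k ∈ K, ‖z + k - c‖ ≤ R) ∧ ∃ k ∈ K, ‖z + k - c‖ = R} = 0 := by
  refine pf_nln_porous _ R hR ?_
  rintro z ⟨_, k, hk, hz⟩ t ht htR
  have hRc : (R : ℂ) ≠ 0 := by exact_mod_cast hR.ne'
  refine ⟨z + ((t / (2 * R) : ℝ) : ℂ) * (z + k - c), fun y hy => ?_⟩
  rw [mem_ball, dist_eq_norm] at hy
  set v := z + k - c with hv
  set m := z + ((t / (2 * R) : ℝ) : ℂ) * v with hm
  have hn : ‖((t / (2 * R) : ℝ) : ℂ) * v‖ = t / 2 := by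
    rw [norm_mul, hz, Complex.norm_real, Real.norm_of_nonneg (by positivity)]
    field_simp
  refine ⟨?_, ?_⟩
  · rw [mem_closedBall, dist_eq_norm]
    have : y - z = (y - m) + ((t / (2 * R) : ℝ) : ℂ) * v := by rw [hm]; ring
    rw [this]
    refine (norm_add_le _ _).trans ?_
    rw [hn]; linarith
  · rintro ⟨hy1, _⟩
    have h3 := hy1 k hk
    have e : ((1 + t / (2 * R) : ℝ) : ℂ) * v = (y + k - c) - (y - m) := by
      rw [hm, hv]; push_cast; ring
    have h4 : ‖((1 + t / (2 * R) : ℝ) : ℂ) * v‖ = R + t / 2 := by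
      rw [norm_mul, hz, Complex.norm_real, Real.norm_of_nonneg (by positivity)]
      field_simp
    have h5 := norm_sub_le (y + k - c) (y - m)
    rw [← e, h4] at h5
    linarith

theorem pf_nln : S_nln := by
  intro n K c w R r _ hKne hr hsub _
  by_cases hR : 0 < R
  swap
  · -- the disc is empty, hence so is the closure of `NH`
    have hN : closure (NH n R r c w) = ∅ := by
      have : NH n R r c w ⊆ ball c R := by
        intro x hx
        simp only [NH] at hx
        exact hx.1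
      rw [ball_eq_empty.mpr (not_lt.mp hR)] at this
      rw [subset_empty_iff.mp this, closure_empty]
    refine measure_mono_null (t := ∅) ?_ measure_empty
    rintro z ⟨hz, _⟩
    obtain ⟨k, hk⟩ := hKne
    have := hz k hk
    rw [hN] at this
    exact this.elim
  set S1 : Set ℂ := {z | (∀ k ∈ K, ‖z + k - c‖ ≤ R) ∧ ∃ k ∈ K, ‖z + k - c‖ = R} with hS1
  set S2 : Fin n → Set ℂ := fun i =>
    {z | (∀ k ∈ K, r ≤ ‖z + k - w i‖) ∧ ∃ k ∈ K, ‖z + k - w i‖ = r} with hS2
  have h1 : volume S1 = 0 := pf_nln_null' K c R hR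
  have h2 : volume (⋃ i, S2 i) = 0 := measure_iUnion_null fun i => pf_nln_null K (w i) r hr
  refine measure_mono_null ?_ (measure_union_null h1 h2)
  rintro z ⟨hz1, hz2⟩
  have hcl : ∀ k ∈ K, ‖z + k - c‖ ≤ R ∧ ∀ i, r ≤ ‖z + k - w i‖ := by
    intro k hk
    have h3 := hz1 k hk
    have h4 : closure (NH n R r c w) ⊆ closedBall c R ∩ ⋂ i, (ball (w i) r)ᶜ := by
      refine closure_minimal ?_ (isClosed_closedBall.inter
        (isClosed_iInter fun i => isOpen_ball.isClosed_compl))
      intro x hx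
      simp only [NH] at hx
      refine ⟨ball_subset_closedBall hx.1, mem_iInter.mpr fun i h => hx.2 ?_⟩
      exact mem_iUnion.mpr ⟨i, ball_subset_closedBall h⟩
    have h5 := h4 h3
    refine ⟨by simpa [dist_eq_norm] using h5.1, fun i => ?_⟩
    have := mem_iInter.mp h5.2 i
    rw [mem_compl_iff, mem_ball, not_lt, dist_eq_norm] at this
    exact this
  have hex : ∃ k ∈ K, z + k ∉ NH n R r c w := by
    by_contra hcon
    push Not at hcon
    exact hz2 hcon
  obtain ⟨k, hk, hkn⟩ := hex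
  have := hcl k hk
  by_cases h6 : ‖z + k - c‖ < R
  · right
    have h7 : ∃ i, ‖z + k - w i‖ ≤ r := by
      by_contra h7
      push Not at h7
      refine hkn ?_
      simp only [NH]
      refine ⟨by rwa [mem_ball, dist_eq_norm], fun h => ?_⟩
      obtain ⟨i, hi⟩ := mem_iUnion.mp h
      rw [mem_closedBall, dist_eq_norm] at hi
      exact absurd hi (not_le.mpr (h7 i))
    obtain ⟨i, hi⟩ := h7
    exact mem_iUnion.mpr ⟨i, fun k hk => (hcl k hk).2 i, k, hk, le_antisymm hi (this.2 i)⟩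
  · left
    exact ⟨fun k hk => (hcl k hk).1, k, hk, le_antisymm this.1 (not_lt.mp h6)⟩

end Pool.Agent.H212AN
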