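import Pool.Agent.H212AN.E1

set_option autoImplicit false

namespace Pool.Agent.H212AN

open MeasureTheory Set Filter Topology Metric
open Pool.Agent.H212AN.G (nG PG gm gk)
open scoped Real ENNReal ComplexConjugate

/- PLAIN PROOF.
See P_obs.lean in the same folder on origin/main (same proof for one hole). D = TH R r c w₁ w₂, D' = TH R r c (conj w₁) w₂, open, bounded, nonempty (both are NH with n = 2:
⋃ i : Fin 2 = union; OK2 gives the hypotheses of S_nln). By S_gp2 and S_visg there are t, ε with EM D t (2K+1) + ofReal ε <= EM D' t (2K+1) for all large K. For a loop measure μ (S_loop): EV μ D t <= EM D t m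
for all m, limsup EM D' t m <= EV μ (closure D') t = EV μ D' t (S_nln, for every path); so EV μ D t + ofReal ε <= limsup_K EM D' t (2K+1) <= EV μ D' t <= ofReal(4πt Z D' t) and
ofReal(4πtZ D t) <= EV μ (closure D) t = EV μ D t; finite numbers, so 4πtZ D t + ε <= 4πtZ D' t.
-/
theorem pf_obs2_vol (h4 : S_nln) (n : ℕ) (c : ℂ) (w : Fin n → ℂ) (R r : ℝ) (hr : 0 < r)
    (hw : ∀ i, closedBall (w i) r ⊆ ball c R)
    (hd : ∀ i j, i ≠ j → Disjoint (closedBall (w i) r) (closedBall (w j) r))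
    (μ : Measure Lo) (t : ℝ) :
    EV μ (closure (NH n R r c w)) t ≤ EV μ (NH n R r c w) t := by
  unfold EV
  apply lintegral_mono
  intro b
  show volume {z : ℂ | ∀ s : unitInterval, z + (√t : ℂ) * b s ∈
    closure (NH n R r c w)} ≤ volume {z : ℂ | ∀ s : unitInterval,
      z + (√t : ℂ) * b s ∈ NH n R r c w}
  set K : Set ℂ := range (fun s : unitInterval => (√t : ℂ) * b s) with hK
  have hKc : IsCompact K := isCompact_range (by fun_prop)
  have hKn : K.Nonempty := range_nonempty _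
  have h := h4 n K c w R r hKc hKn hr hw hd
  have e1 : ∀ Q : Set ℂ, {z : ℂ | ∀ s : unitInterval, z + (√t : ℂ) * b s ∈ Q} =
      {z | ∀ k ∈ K, z + k ∈ Q} := by
    intro Q
    ext z
    simp only [mem_setOf_eq, hK, mem_range, forall_exists_index, forall_apply_eq_imp_iff]
  rw [e1, e1]
  set A := {z | ∀ k ∈ K, z + k ∈ closure (NH n R r c w)} with hA
  set B := {z | ∀ k ∈ K, z + k ∈ NH n R r c w} with hB
  calc volume A ≤ volume (B ∪ (A \ B)) := measure_mono (by
        intro z hz
        by_cases hzB : z ∈ B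
        · exact Or.inl hzB
        · exact Or.inr ⟨hz, hzB⟩)
    _ ≤ volume B + volume (A \ B) := measure_union_le _ _
    _ = volume B := by rw [h, add_zero]

theorem pf_obs2_NH (R r : ℝ) (c w₁ w₂ : ℂ) : TH R r c w₁ w₂ = NH 2 R r c ![w₁, w₂] := by
  unfold TH NH
  congr 1
  ext z
  simp only [mem_union, mem_iUnion, Fin.exists_fin_two, Matrix.cons_val_zero,
    Matrix.cons_val_one]

theorem pf_obs2_open (R r : ℝ) (c w₁ w₂ : ℂ) : IsOpen (TH R r c w₁ w₂) ∧
    Bornology.IsBounded (TH R r c w₁ w₂) :=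
  ⟨isOpen_ball.sdiff (isClosed_closedBall.union isClosed_closedBall),
    isBounded_ball.subset diff_subset⟩

theorem pf_obs2_ne (R r : ℝ) (c w₁ w₂ : ℂ) (h : OK2 R r c w₁ w₂) : (TH R r c w₁ w₂).Nonempty := by
  obtain ⟨hr, h1, h2, h3⟩ := h
  rw [dist_eq_norm] at h1 h2 h3
  refine ⟨(w₁ + w₂) / 2, ?_, ?_⟩
  · rw [mem_ball, dist_eq_norm]
    have e : (w₁ + w₂) / 2 - c = (1 / 2 : ℂ) * (w₁ - c) + (1 / 2 : ℂ) * (w₂ - c) := by ring
    rw [e]
    refine (norm_add_le _ _).trans_lt ?_
    rw [norm_mul, norm_mul]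
    norm_num
    linarith
  · rintro (h | h)
    · rw [mem_closedBall, dist_eq_norm] at h
      have e : (w₁ + w₂) / 2 - w₁ = (-(1 / 2) : ℂ) * (w₁ - w₂) := by ring
      rw [e, norm_mul] at h
      norm_num at h
      linarith
    · rw [mem_closedBall, dist_eq_norm] at h
      have e : (w₁ + w₂) / 2 - w₂ = (1 / 2 : ℂ) * (w₁ - w₂) := by ring
      rw [e, norm_mul] at h
      norm_num at h
      linarith

theorem pf_obs2 (h1 : S_visg) (h2 : S_gp2) (h3 : S_em) (h4 : S_tr) (h5 : S_nln) (h6 : S_loop) : S_obs2 := by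
  intro Z hU hL hZ R r c w₁ w₂ hok hok' hc hw₁ hw₂ hor
  obtain ⟨μ, hμ⟩ := h6
  obtain ⟨hPol, hVis⟩ := h2 R r c w₁ w₂ hok hok' hc hw₁ hw₂ hor
  obtain ⟨hDo, hDb⟩ := pf_obs2_open R r c w₁ w₂
  obtain ⟨hDo', hDb'⟩ := pf_obs2_open R r c (conj w₁) w₂
  obtain ⟨t, ht, ε, hε, hev⟩ := h1 _ _ hDo hDo' hDb hDb' hPol hVis
  refine ⟨t, ht, ?_⟩
  have hne := pf_obs2_ne R r c w₁ w₂ hok
  have hne' := pf_obs2_ne R r c (conj w₁) w₂ hok'
  have hvol : EV μ (closure (TH R r c (conj w₁) w₂)) t ≤ EV μ (TH R r c (conj w₁) w₂) t := by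
    rw [pf_obs2_NH]
    obtain ⟨hr, g1, g2, g3⟩ := hok'
    refine pf_obs2_vol h5 2 c _ R r hr ?_ ?_ μ t
    · intro i
      fin_cases i
      · exact closedBall_subset_ball' (by rw [add_comm]; exact g1)
      · exact closedBall_subset_ball' (by rw [add_comm]; exact g2)
    · intro i j hij
      fin_cases i <;> fin_cases j
      · exact absurd rfl hij
      · exact closedBall_disjoint_closedBall (by
          show r + r < dist (conj w₁) w₂
          linarith)
      · exact closedBall_disjoint_closedBall (by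
          show r + r < dist w₂ (conj w₁)
          rw [dist_comm]
          linarith)
      · exact absurd rfl hij
  set D := TH R r c w₁ w₂ with hD
  set D' := TH R r c (conj w₁) w₂ with hD'
  clear_value D D'
  set A := ENNReal.ofReal (4 * π * t * Z D t) with hA
  set B := ENNReal.ofReal (4 * π * t * Z D' t) with hB
  have k1 : ∀ m : ℕ, A ≤ EM D t m := hU _ hDo hDb hne t ht
  have k2 : ∀ᶠ K : ℕ in atTop, A + ENNReal.ofReal ε ≤ EM D' t (2 * K + 1) := by
    filter_upwards [hev] with K hK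
    exact (add_le_add_left (k1 _) _).trans hK
  have k3 : ∃ᶠ m : ℕ in atTop, A + ENNReal.ofReal ε ≤ EM D' t m := by
    have ht2 : Tendsto (fun K : ℕ => 2 * K + 1) atTop atTop := by
      apply tendsto_atTop_mono (f := fun K : ℕ => K)
      · intro n
        omega
      · exact tendsto_id
    exact ht2.frequently k2.frequently
  have k4 : A + ENNReal.ofReal ε ≤ limsup (fun m => EM D' t m) atTop :=
    le_limsup_of_frequently_le k3
  have k5 := (h3 μ hμ _ hDo' hDb' t ht).2
  have k7 := (h4 Z hU hL hZ μ hμ _ hDo' hDb' hne' t ht).1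
  have k8 : A + ENNReal.ofReal ε ≤ B := ((k4.trans k5).trans hvol).trans k7
  have k9 : A < B := by
    refine lt_of_lt_of_le ?_ k8
    apply ENNReal.lt_add_right ENNReal.ofReal_ne_top
    rw [Ne, ENNReal.ofReal_eq_zero, not_le]
    exact hε
  have hπ := Real.pi_pos
  rw [hA, hB, ENNReal.ofReal_lt_ofReal_iff_of_nonneg
    (mul_nonneg (by positivity) (hZ _ _))] at k9
  exact lt_of_mul_lt_mul_left k9 (by positivity)

end Pool.Agent.H212AN
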