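import Pool.Agent.H212AN.E1

set_option autoImplicit false

namespace Pool.Agent.H212AN

open MeasureTheory Set Filter Topology Metric
open Pool.Agent.H212AN.G (nG PG gm gk)
open scoped Real ENNReal ComplexConjugate

/-- small compared with `exp (-x²/t)` -/
def pf_peel_Sml (x : ℝ) (f : ℝ → ℝ) : Prop := ∃ δ C t₀ : ℝ, 0 < δ ∧ 0 ≤ C ∧ 0 < t₀ ∧
  ∀ t, 0 < t → t < t₀ → |f t| ≤ C * Real.exp (-((x ^ 2 + δ) / t))

/-- at least of the size `exp (-x²/t)` -/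
def pf_peel_Bg (x : ℝ) (f : ℝ → ℝ) : Prop := ∀ ε : ℝ, 0 < ε → ∃ c t₀ : ℝ, 0 < c ∧ 0 < t₀ ∧
  ∀ t : ℝ, 0 < t → t < t₀ → c * Real.exp (-((x ^ 2 + ε) / t)) ≤ f t

theorem pf_peel_contra {x : ℝ} {f : ℝ → ℝ} (hB : pf_peel_Bg x f) (hS : pf_peel_Sml x f) :
    False := by
  obtain ⟨δ, C, t₀, hδ, hC, ht₀, h1⟩ := hS
  obtain ⟨c, t₁, hc, ht₁, h2⟩ := hB (δ / 2) (by positivity)
  set t := min (min (t₀ / 2) (t₁ / 2)) (δ * c / (2 * (C + 1))) with ht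
  have ht0 : 0 < t := by positivity
  have ha : t < t₀ := by
    have h3 : t ≤ t₀ / 2 := (min_le_left _ _).trans (min_le_left _ _)
    linarith
  have hb : t < t₁ := by
    have h3 : t ≤ t₁ / 2 := (min_le_left _ _).trans (min_le_right _ _)
    linarith
  have hd : t ≤ δ * c / (2 * (C + 1)) := min_le_right _ _
  have h3 := (h2 t ht0 hb).trans ((le_abs_self _).trans (h1 t ht0 ha))
  have h4 : Real.exp (-((x ^ 2 + δ) / t)) =
      Real.exp (-((x ^ 2 + δ / 2) / t)) * Real.exp (-(δ / (2 * t))) := by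
    rw [← Real.exp_add]
    congr 1
    field_simp
    ring
  rw [h4, mul_comm (Real.exp (-((x ^ 2 + δ / 2) / t))), ← mul_assoc] at h3
  have h5 := le_of_mul_le_mul_right h3 (Real.exp_pos _)
  have h6 : Real.exp (-(δ / (2 * t))) * (1 + δ / (2 * t)) ≤ 1 := by
    have h7 := Real.add_one_le_exp (δ / (2 * t))
    calc Real.exp (-(δ / (2 * t))) * (1 + δ / (2 * t))
        ≤ Real.exp (-(δ / (2 * t))) * Real.exp (δ / (2 * t)) := by
          gcongr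
          linarith
      _ = 1 := by rw [← Real.exp_add]; simp
  have h7 : (C + 1) / c ≤ δ / (2 * t) := by
    rw [div_le_div_iff₀ hc (by positivity)]
    rw [le_div_iff₀ (by positivity)] at hd
    linarith
  have h8 : 0 < Real.exp (-(δ / (2 * t))) := Real.exp_pos _
  have h9 : C + 1 ≤ c * (δ / (2 * t)) := by
    rw [div_le_iff₀ hc] at h7
    linarith
  have h10 : c * (1 + δ / (2 * t)) ≤ C := by
    have h11 : 0 < 1 + δ / (2 * t) := by positivity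
    calc c * (1 + δ / (2 * t)) ≤ C * Real.exp (-(δ / (2 * t))) * (1 + δ / (2 * t)) := by gcongr
      _ = C * (Real.exp (-(δ / (2 * t))) * (1 + δ / (2 * t))) := by ring
      _ ≤ C * 1 := by gcongr
      _ = C := mul_one C
  linarith

theorem pf_peel_add {x : ℝ} {f g : ℝ → ℝ} (hf : pf_peel_Sml x f) (hg : pf_peel_Sml x g) :
    pf_peel_Sml x (fun t => f t + g t) := by
  obtain ⟨δ, C, t₀, hδ, hC, ht₀, h1⟩ := hf
  obtain ⟨δ', C', t₀', hδ', hC', ht₀', h1'⟩ := hg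
  refine ⟨min δ δ', C + C', min t₀ t₀', lt_min hδ hδ', by positivity, lt_min ht₀ ht₀',
    fun t ht0 ht => ?_⟩
  have h2 := h1 t ht0 (ht.trans_le (min_le_left _ _))
  have h3 := h1' t ht0 (ht.trans_le (min_le_right _ _))
  have h4 : Real.exp (-((x ^ 2 + δ) / t)) ≤ Real.exp (-((x ^ 2 + min δ δ') / t)) := by
    have := min_le_left δ δ'
    gcongr
  have h5 : Real.exp (-((x ^ 2 + δ') / t)) ≤ Real.exp (-((x ^ 2 + min δ δ') / t)) := by
    have := min_le_right δ δ'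
    gcongr
  calc |f t + g t| ≤ |f t| + |g t| := abs_add_le _ _
    _ ≤ C * Real.exp (-((x ^ 2 + δ) / t)) + C' * Real.exp (-((x ^ 2 + δ') / t)) :=
        add_le_add h2 h3
    _ ≤ C * Real.exp (-((x ^ 2 + min δ δ') / t)) +
        C' * Real.exp (-((x ^ 2 + min δ δ') / t)) := by gcongr
    _ = _ := by ring

theorem pf_peel_mul {x : ℝ} {f : ℝ → ℝ} (a : ℝ) (hf : pf_peel_Sml x f) :
    pf_peel_Sml x (fun t => a * f t) := by
  obtain ⟨δ, C, t₀, hδ, hC, ht₀, h1⟩ := hf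
  refine ⟨δ, |a| * C, t₀, hδ, by positivity, ht₀, fun t ht0 ht => ?_⟩
  rw [abs_mul, mul_assoc]
  gcongr
  exact h1 t ht0 ht

theorem pf_peel_congr {x : ℝ} {f g : ℝ → ℝ} (hf : pf_peel_Sml x f)
    (hfg : ∀ t, 0 < t → t < 1 → g t = f t) : pf_peel_Sml x g := by
  obtain ⟨δ, C, t₀, hδ, hC, ht₀, h1⟩ := hf
  refine ⟨δ, C, min t₀ 1, hδ, hC, by positivity, fun t ht0 ht => ?_⟩
  rw [hfg t ht0 (ht.trans_le (min_le_right _ _))]
  exact h1 t ht0 (ht.trans_le (min_le_left _ _))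

theorem pf_peel_zero (x : ℝ) : pf_peel_Sml x (fun _ => 0) :=
  ⟨1, 0, 1, one_pos, le_rfl, one_pos, fun t _ _ => by simp⟩

theorem pf_peel_of {x y : ℝ} (hx : 0 < x) (hxy : x < y) {f : ℝ → ℝ}
    (h0 : ∃ t₀ : ℝ, 0 < t₀ ∧ ∀ t, 0 < t → t < t₀ → 0 ≤ f t)
    (h : ∀ θ : ℝ, 0 < θ → θ < 1 → ∃ C : ℝ, ∀ t : ℝ, 0 < t → t ≤ 1 →
      f t ≤ C * Real.exp (-(θ * y ^ 2 / t))) : pf_peel_Sml x f := by
  have hy : 0 < y := hx.trans hxy
  obtain ⟨t₀, ht₀, h1⟩ := h0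
  have hlt : x ^ 2 < y ^ 2 := by gcongr
  obtain ⟨C, hC⟩ := h ((x ^ 2 / y ^ 2 + 1) / 2) (by positivity) (by
    have : x ^ 2 / y ^ 2 < 1 := by
      rw [div_lt_one (by positivity)]
      exact hlt
    linarith)
  refine ⟨(y ^ 2 - x ^ 2) / 2, |C|, min t₀ 1, by linarith, abs_nonneg _, by positivity,
    fun t ht0 ht => ?_⟩
  rw [abs_of_nonneg (h1 t ht0 (ht.trans_le (min_le_left _ _)))]
  have h2 := hC t ht0 (ht.trans_le (min_le_right _ _)).le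
  have h3 : (x ^ 2 / y ^ 2 + 1) / 2 * y ^ 2 = x ^ 2 + (y ^ 2 - x ^ 2) / 2 := by
    field_simp
    ring
  rw [h3] at h2
  refine h2.trans ?_
  gcongr
  exact le_abs_self C

section
variable {H O : ℝ → ℝ → ℝ} {m : ℝ}

/-- hypotheses about `H` -/
def pf_peel_HH (H : ℝ → ℝ → ℝ) : Prop := ∀ x : ℝ, 0 < x →
    (∀ θ : ℝ, 0 < θ → θ < 1 → ∃ C : ℝ, ∀ t : ℝ, 0 < t → t ≤ 1 →
      H x t ≤ C * Real.exp (-(θ * x ^ 2 / t))) ∧
    (∀ ε : ℝ, 0 < ε → ∃ c t₀ : ℝ, 0 < c ∧ 0 < t₀ ∧ ∀ t : ℝ, 0 < t → t < t₀ →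
      c * Real.exp (-((x ^ 2 + ε) / t)) ≤ H x t)

/-- hypotheses about `O` -/
def pf_peel_HO (H O : ℝ → ℝ → ℝ) (m : ℝ) : Prop := ∀ x : ℝ, 0 < x → x ≤ m →
    (∀ θ : ℝ, 0 < θ → θ < 1 → ∃ C : ℝ, ∀ t : ℝ, 0 < t → t ≤ 1 →
      O x t ≤ C * Real.exp (-(θ * x ^ 2 / t))) ∧
    (∀ ε : ℝ, 0 < ε → ∃ c t₀ : ℝ, 0 < c ∧ 0 < t₀ ∧ ∀ t : ℝ, 0 < t → t < t₀ →
      c * Real.exp (-((x ^ 2 + ε) / t)) ≤ O x t - H x t)

theorem pf_peel_H0 (hH : pf_peel_HH H) {x : ℝ} (hx : 0 < x) :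
    ∃ t₀ : ℝ, 0 < t₀ ∧ ∀ t, 0 < t → t < t₀ → 0 ≤ H x t := by
  obtain ⟨c, t₀, hc, ht₀, h⟩ := (hH x hx).2 1 one_pos
  exact ⟨t₀, ht₀, fun t h1 h2 => le_trans (by positivity) (h t h1 h2)⟩

theorem pf_peel_O0 (hH : pf_peel_HH H) (hO : pf_peel_HO H O m) {x : ℝ} (hx : 0 < x)
    (hxm : x ≤ m) : ∃ t₀ : ℝ, 0 < t₀ ∧ ∀ t, 0 < t → t < t₀ → 0 ≤ O x t := by
  obtain ⟨c, t₀, hc, ht₀, h⟩ := (hO x hx hxm).2 1 one_pos
  obtain ⟨t₁, ht₁, h'⟩ := pf_peel_H0 hH hx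
  refine ⟨min t₀ t₁, by positivity, fun t h1 h2 => ?_⟩
  have h3 := h t h1 (h2.trans_le (min_le_left _ _))
  have h4 := h' t h1 (h2.trans_le (min_le_right _ _))
  have h5 : 0 ≤ c * Real.exp (-((x ^ 2 + 1) / t)) := by positivity
  linarith

theorem pf_peel_Hs (hH : pf_peel_HH H) {x y : ℝ} (hx : 0 < x) (hxy : x ≤ y) :
    pf_peel_Sml x (fun t => H y t - (if y = x then (1 : ℝ) else 0) * H x t) := by
  rcases hxy.eq_or_lt with rfl | hlt
  · simpa using pf_peel_zero x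
  · simp only [if_neg hlt.ne', zero_mul, sub_zero]
    exact pf_peel_of hx hlt (pf_peel_H0 hH (hx.trans hlt)) (hH y (hx.trans hlt)).1

theorem pf_peel_Os (hH : pf_peel_HH H) (hO : pf_peel_HO H O m) {x y : ℝ} (hx : 0 < x)
    (hxy : x ≤ y) (hym : y ≤ m) :
    pf_peel_Sml x (fun t => O y t - (if y = x then (1 : ℝ) else 0) * O x t) := by
  rcases hxy.eq_or_lt with rfl | hlt
  · simpa using pf_peel_zero x
  · simp only [if_neg hlt.ne', zero_mul, sub_zero]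
    exact pf_peel_of hx hlt (pf_peel_O0 hH hO (hx.trans hlt) hym) (hO y (hx.trans hlt) hym).1

/-- the coefficients vanish, positive case -/
theorem pf_peel_pos (hH : pf_peel_HH H) (hO : pf_peel_HO H O m) {x : ℝ} (hx : 0 < x)
    (hxm : x ≤ m) (p q : ℝ) (hp : -1 ≤ p) (hq : 1 ≤ q)
    (h : pf_peel_Sml x (fun t => p * H x t + q * O x t)) : False := by
  refine pf_peel_contra (f := fun t => p * H x t + q * O x t) ?_ h
  intro ε hε
  obtain ⟨c, t₀, hc, ht₀, h1⟩ := (hO x hx hxm).2 ε hε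
  obtain ⟨t₁, ht₁, h2⟩ := pf_peel_H0 hH hx
  obtain ⟨t₂, ht₂, h3⟩ := pf_peel_O0 hH hO hx hxm
  refine ⟨c, min t₀ (min t₁ t₂), hc, by positivity, fun t ht0 ht => ?_⟩
  have h4 := h1 t ht0 (ht.trans_le (min_le_left _ _))
  have h5 := h2 t ht0 (ht.trans_le ((min_le_right _ _).trans (min_le_left _ _)))
  have h6 := h3 t ht0 (ht.trans_le ((min_le_right _ _).trans (min_le_right _ _)))
  nlinarith

theorem pf_peel_coef (hH : pf_peel_HH H) (hO : pf_peel_HO H O m) {x : ℝ} (hx : 0 < x)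
    (p q : ℤ) (hp1 : -1 ≤ p) (hp2 : p ≤ 1) (hq : q ≠ 0 → x ≤ m)
    (h : pf_peel_Sml x (fun t => p * H x t + q * O x t)) : p = 0 ∧ q = 0 := by
  have hp1' : (-1 : ℝ) ≤ p := by exact_mod_cast hp1
  have hp2' : (p : ℝ) ≤ 1 := by exact_mod_cast hp2
  by_cases hq0 : q = 0
  · refine ⟨?_, hq0⟩
    by_contra hp0
    have hp3 : p = 1 ∨ p = -1 := by omega
    have hB : pf_peel_Bg x (H x) := (hH x hx).2
    subst hq0
    rcases hp3 with rfl | rfl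
    · refine pf_peel_contra hB (pf_peel_congr h fun t _ _ => ?_)
      push_cast
      ring
    · refine pf_peel_contra hB (pf_peel_congr (pf_peel_mul (-1) h) fun t _ _ => ?_)
      push_cast
      ring
  · exfalso
    rcases lt_or_gt_of_ne hq0 with h1 | h1
    · have h2 : (1 : ℝ) ≤ -q := by
        have : 1 ≤ -q := by omega
        exact_mod_cast this
      refine pf_peel_pos hH hO hx (hq hq0) (-p) (-q) (by linarith) h2
        (pf_peel_congr (pf_peel_mul (-1) h) fun t _ _ => ?_)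
      ring
    · have h2 : (1 : ℝ) ≤ q := by
        have : 1 ≤ q := by omega
        exact_mod_cast this
      exact pf_peel_pos hH hO hx (hq hq0) p q hp1' h2 h

/-- counting the terms of the lowest order -/
theorem pf_peel_count (hH : pf_peel_HH H) (hO : pf_peel_HO H O m) {x : ℝ} (hx : 0 < x)
    (α β γ : ℤ) (hα : α = 0 ∨ α = 1)
    {h o₁ o₂ h' o₁' o₂' : ℝ} {T T' : ℝ → ℝ} (hh : x ≤ h) (hh' : x ≤ h')
    (hm₁ : o₁ ≤ m) (hm₂ : o₂ ≤ m) (hm₁' : o₁' ≤ m) (hm₂' : o₂' ≤ m)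
    (h₁ : x ≤ o₁) (h₂ : x ≤ o₂) (h₁' : x ≤ o₁') (h₂' : x ≤ o₂')
    (hT : pf_peel_Sml x T) (hT' : pf_peel_Sml x T')
    (hid : ∀ t : ℝ, 0 < t → t < 1 → α * H h t + β * O o₁ t + γ * O o₂ t - T t =
      α * H h' t + β * O o₁' t + γ * O o₂' t - T' t) :
    α * ((if h = x then (1 : ℤ) else 0) - (if h' = x then (1 : ℤ) else 0)) = 0 ∧
    β * ((if o₁ = x then (1 : ℤ) else 0) - (if o₁' = x then (1 : ℤ) else 0)) +
      γ * ((if o₂ = x then (1 : ℤ) else 0) - (if o₂' = x then (1 : ℤ) else 0)) = 0 := by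
  refine pf_peel_coef hH hO hx _ _ ?_ ?_ ?_ ?_
  · rcases hα with rfl | rfl <;> split_ifs <;> simp
  · rcases hα with rfl | rfl <;> split_ifs <;> simp
  · intro hne
    by_contra hcon
    push Not at hcon
    apply hne
    rw [if_neg (by linarith), if_neg (by linarith), if_neg (by linarith), if_neg (by linarith)]
    simp
  · have e := pf_peel_add (pf_peel_add (pf_peel_add (pf_peel_mul (-α) (pf_peel_Hs hH hx hh))
        (pf_peel_mul α (pf_peel_Hs hH hx hh')))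
      (pf_peel_add (pf_peel_add (pf_peel_mul (-β) (pf_peel_Os hH hO hx h₁ hm₁))
        (pf_peel_mul β (pf_peel_Os hH hO hx h₁' hm₁')))
      (pf_peel_add (pf_peel_mul (-γ) (pf_peel_Os hH hO hx h₂ hm₂))
        (pf_peel_mul γ (pf_peel_Os hH hO hx h₂' hm₂')))))
      (pf_peel_add hT (pf_peel_mul (-1) hT'))
    refine pf_peel_congr e fun t ht0 ht1 => ?_
    have h3 := hid t ht0 ht1
    push_cast
    linear_combination h3

theorem pf_peel_T {s : ℝ} {T : ℝ → ℝ} (hT0 : ∀ t, 0 ≤ T t)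
    (hT : ∀ θ : ℝ, 0 < θ → θ < 1 → ∃ C : ℝ, ∀ t : ℝ, 0 < t → t ≤ 1 →
      T t ≤ C * Real.exp (-(θ * s ^ 2 / (4 * t)))) (x : ℝ) (hx : 0 < x) (hxs : 2 * x < s) :
    pf_peel_Sml x T := by
  refine pf_peel_of (y := s / 2) hx (by linarith) ⟨1, one_pos, fun t _ _ => hT0 t⟩ ?_
  intro θ h0 h1
  obtain ⟨C, hC⟩ := hT θ h0 h1
  refine ⟨C, fun t ht0 ht1 => ?_⟩
  have h2 := hC t ht0 ht1
  have h3 : θ * (s / 2) ^ 2 / t = θ * s ^ 2 / (4 * t) := by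
    field_simp
    ring
  rw [h3]
  exact h2

/-- one common gap of type `O` has been removed -/
theorem pf_peel_two (hH : pf_peel_HH H) (hO : pf_peel_HO H O m) {h h' o g g' : ℝ}
    {T T' : ℝ → ℝ} (hh : 0 < h) (hh' : 0 < h') (ho : 0 < o) (hg : 0 < g) (hg' : 0 < g')
    (hm : g ≤ m) (hm' : g' ≤ m)
    (hT : ∀ x, 0 < x → 2 * x < h + o + g → pf_peel_Sml x T)
    (hT' : ∀ x, 0 < x → 2 * x < h' + o + g' → pf_peel_Sml x T')
    (hid : ∀ t : ℝ, 0 < t → t < 1 → H h t + O g t - T t = H h' t + O g' t - T' t) :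
    h = h' ∨ g = g' := by
  obtain ⟨x, hx, h1, h2, h3, h4, hat⟩ : ∃ x, 0 < x ∧ x ≤ h ∧ x ≤ h' ∧ x ≤ g ∧ x ≤ g' ∧
      (h = x ∨ h' = x ∨ g = x ∨ g' = x) := by
    refine ⟨min (min h h') (min g g'), by positivity, (min_le_left _ _).trans (min_le_left _ _),
      (min_le_left _ _).trans (min_le_right _ _), (min_le_right _ _).trans (min_le_left _ _),
      (min_le_right _ _).trans (min_le_right _ _), ?_⟩
    rcases min_choice (min h h') (min g g') with e | e <;> rw [e]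
    · rcases min_choice h h' with e | e <;> simp [e]
    · rcases min_choice g g' with e | e <;> simp [e]
  obtain ⟨c1, c2⟩ := pf_peel_count hH hO hx 1 1 0 (Or.inr rfl) (h := h) (h' := h') (o₁ := g)
    (o₁' := g') (o₂ := g) (o₂' := g') h1 h2 hm hm hm' hm' h3 h3 h4 h4 (hT x hx (by linarith))
    (hT' x hx (by linarith)) (fun t ht0 ht1 => by
      have := hid t ht0 ht1
      push_cast
      linear_combination this)
  by_contra hcon
  push Not at hcon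
  obtain ⟨n1, n2⟩ := hcon
  have e1 : ¬ (h = x ∧ h' = x) := fun e => n1 (e.1.trans e.2.symm)
  have e2 : ¬ (g = x ∧ g' = x) := fun e => n2 (e.1.trans e.2.symm)
  split_ifs at c1 c2 <;> simp_all

/-- the common gap of type `H` has been removed -/
theorem pf_peel_oo (hH : pf_peel_HH H) (hO : pf_peel_HO H O m) {h o₁ o₂ o₁' o₂' : ℝ}
    {T T' : ℝ → ℝ} (hh : 0 < h) (h₁ : 0 < o₁) (h₂ : 0 < o₂) (h₁' : 0 < o₁') (h₂' : 0 < o₂')
    (hm₁ : o₁ ≤ m) (hm₂ : o₂ ≤ m) (hm₁' : o₁' ≤ m) (hm₂' : o₂' ≤ m)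
    (hT : ∀ x, 0 < x → 2 * x < h + o₁ + o₂ → pf_peel_Sml x T)
    (hT' : ∀ x, 0 < x → 2 * x < h + o₁' + o₂' → pf_peel_Sml x T')
    (hid : ∀ t : ℝ, 0 < t → t < 1 → O o₁ t + O o₂ t - T t = O o₁' t + O o₂' t - T' t) :
    o₁ = o₁' ∨ o₁ = o₂' ∨ o₂ = o₁' ∨ o₂ = o₂' := by
  obtain ⟨x, hx, h1, h2, h3, h4, hat⟩ : ∃ x, 0 < x ∧ x ≤ o₁ ∧ x ≤ o₂ ∧ x ≤ o₁' ∧ x ≤ o₂' ∧
      (o₁ = x ∨ o₂ = x ∨ o₁' = x ∨ o₂' = x) := by
    refine ⟨min (min o₁ o₂) (min o₁' o₂'), by positivity,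
      (min_le_left _ _).trans (min_le_left _ _),
      (min_le_left _ _).trans (min_le_right _ _), (min_le_right _ _).trans (min_le_left _ _),
      (min_le_right _ _).trans (min_le_right _ _), ?_⟩
    rcases min_choice (min o₁ o₂) (min o₁' o₂') with e | e <;> rw [e]
    · rcases min_choice o₁ o₂ with e | e <;> simp [e]
    · rcases min_choice o₁' o₂' with e | e <;> simp [e]
  obtain ⟨-, c2⟩ := pf_peel_count hH hO hx 0 1 1 (Or.inl rfl) (h := x) (h' := x) (o₁ := o₁)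
    (o₁' := o₁') (o₂ := o₂) (o₂' := o₂') le_rfl le_rfl hm₁ hm₂ hm₁' hm₂' h1 h2 h3 h4
    (hT x hx (by linarith)) (hT' x hx (by linarith)) (fun t ht0 ht1 => by
      have := hid t ht0 ht1
      push_cast
      linear_combination this)
  by_contra hcon
  push Not at hcon
  obtain ⟨n1, n2, n3, n4⟩ := hcon
  have e1 : ¬ (o₁ = x ∧ o₁' = x) := fun e => n1 (e.1.trans e.2.symm)
  have e2 : ¬ (o₁ = x ∧ o₂' = x) := fun e => n2 (e.1.trans e.2.symm)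
  have e3 : ¬ (o₂ = x ∧ o₁' = x) := fun e => n3 (e.1.trans e.2.symm)
  have e4 : ¬ (o₂ = x ∧ o₂' = x) := fun e => n4 (e.1.trans e.2.symm)
  split_ifs at c2 <;> simp_all

theorem pf_peel_aux (a b a' b' : Prop) [Decidable a] [Decidable b] [Decidable a'] [Decidable b']
    (c : (1 : ℤ) * ((if a then (1 : ℤ) else 0) - (if a' then (1 : ℤ) else 0)) +
      1 * ((if b then (1 : ℤ) else 0) - (if b' then (1 : ℤ) else 0)) = 0)
    (e1 : ¬ (a ∧ a')) (e2 : ¬ (a ∧ b')) (e3 : ¬ (b ∧ a')) (e4 : ¬ (b ∧ b')) :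
    ¬ a ∧ ¬ b ∧ ¬ a' ∧ ¬ b' := by
  by_cases h1 : a <;> by_cases h2 : b <;> by_cases h3 : a' <;> by_cases h4 : b' <;>
    simp_all

theorem pf_peel_aux' (a a' : Prop) [Decidable a] [Decidable a']
    (c : (1 : ℤ) * ((if a then (1 : ℤ) else 0) - (if a' then (1 : ℤ) else 0)) = 0)
    (e1 : ¬ (a ∧ a')) : ¬ a ∧ ¬ a' := by
  by_cases h1 : a <;> by_cases h3 : a' <;> simp_all

/-- the first step -/
theorem pf_peel_one (hH : pf_peel_HH H) (hO : pf_peel_HO H O m) {h h' o₁ o₂ o₁' o₂' : ℝ}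
    {T T' : ℝ → ℝ} (hh : 0 < h) (hh' : 0 < h') (h₁ : 0 < o₁) (h₂ : 0 < o₂) (h₁' : 0 < o₁')
    (h₂' : 0 < o₂')
    (hm₁ : o₁ ≤ m) (hm₂ : o₂ ≤ m) (hm₁' : o₁' ≤ m) (hm₂' : o₂' ≤ m)
    (hT : ∀ x, 0 < x → 2 * x < h + o₁ + o₂ → pf_peel_Sml x T)
    (hT' : ∀ x, 0 < x → 2 * x < h' + o₁' + o₂' → pf_peel_Sml x T')
    (hid : ∀ t : ℝ, 0 < t → t < 1 →
      H h t + O o₁ t + O o₂ t - T t = H h' t + O o₁' t + O o₂' t - T' t) :
    h = h' ∨ o₁ = o₁' ∨ o₁ = o₂' ∨ o₂ = o₁' ∨ o₂ = o₂' := by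
  obtain ⟨x, hx, h1, h2, h3, h4, h5, h6, hat⟩ : ∃ x, 0 < x ∧ x ≤ o₁ ∧ x ≤ o₂ ∧ x ≤ o₁' ∧
      x ≤ o₂' ∧ x ≤ h ∧ x ≤ h' ∧
      (o₁ = x ∨ o₂ = x ∨ o₁' = x ∨ o₂' = x ∨ h = x ∨ h' = x) := by
    obtain ⟨x, hx, h1, h2, h3, h4, hat⟩ : ∃ x, 0 < x ∧ x ≤ o₁ ∧ x ≤ o₂ ∧ x ≤ o₁' ∧ x ≤ o₂' ∧
        (o₁ = x ∨ o₂ = x ∨ o₁' = x ∨ o₂' = x) := by
      refine ⟨min (min o₁ o₂) (min o₁' o₂'), by positivity,
        (min_le_left _ _).trans (min_le_left _ _),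
        (min_le_left _ _).trans (min_le_right _ _), (min_le_right _ _).trans (min_le_left _ _),
        (min_le_right _ _).trans (min_le_right _ _), ?_⟩
      rcases min_choice (min o₁ o₂) (min o₁' o₂') with e | e <;> rw [e]
      · rcases min_choice o₁ o₂ with e | e <;> simp [e]
      · rcases min_choice o₁' o₂' with e | e <;> simp [e]
    refine ⟨min x (min h h'), by positivity, (min_le_left _ _).trans h1,
      (min_le_left _ _).trans h2, (min_le_left _ _).trans h3, (min_le_left _ _).trans h4,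
      (min_le_right _ _).trans (min_le_left _ _), (min_le_right _ _).trans (min_le_right _ _), ?_⟩
    rcases min_choice x (min h h') with e | e <;> rw [e]
    · tauto
    · rcases min_choice h h' with e | e <;> simp [e]
  obtain ⟨c1, c2⟩ := pf_peel_count hH hO hx 1 1 1 (Or.inr rfl) (h := h) (h' := h') (o₁ := o₁)
    (o₁' := o₁') (o₂ := o₂) (o₂' := o₂') h5 h6 hm₁ hm₂ hm₁' hm₂' h1 h2 h3 h4
    (hT x hx (by linarith)) (hT' x hx (by linarith)) (fun t ht0 ht1 => by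
      have := hid t ht0 ht1
      push_cast
      linear_combination this)
  by_contra hcon
  push Not at hcon
  obtain ⟨n0, n1, n2, n3, n4⟩ := hcon
  have e0 : ¬ (h = x ∧ h' = x) := fun e => n0 (e.1.trans e.2.symm)
  have e1 : ¬ (o₁ = x ∧ o₁' = x) := fun e => n1 (e.1.trans e.2.symm)
  have e2 : ¬ (o₁ = x ∧ o₂' = x) := fun e => n2 (e.1.trans e.2.symm)
  have e3 : ¬ (o₂ = x ∧ o₁' = x) := fun e => n3 (e.1.trans e.2.symm)
  have e4 : ¬ (o₂ = x ∧ o₂' = x) := fun e => n4 (e.1.trans e.2.symm)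
  obtain ⟨f1, f2, f3, f4⟩ := pf_peel_aux _ _ _ _ c2 e1 e2 e3 e4
  obtain ⟨f5, f6⟩ := pf_peel_aux' _ _ c1 e0
  tauto

end

theorem pf_peel : S_peel := by
  intro H O m hH hO h o₁ o₂ h' o₁' o₂' T T' hh h₁ h₂ hh' h₁' h₂' hm₁ hm₂ hm₁' hm₂' hT0 hT hid
  have hH' : pf_peel_HH H := hH
  have hO' : pf_peel_HO H O m := hO
  have hTs := pf_peel_T (s := h + o₁ + o₂) (T := T) (fun t => (hT0 t).1) (fun θ a b => by
    obtain ⟨C, hC⟩ := hT θ a b
    exact ⟨C, fun t c d => (hC t c d).1⟩)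
  have hTs' := pf_peel_T (s := h' + o₁' + o₂') (T := T') (fun t => (hT0 t).2) (fun θ a b => by
    obtain ⟨C, hC⟩ := hT θ a b
    exact ⟨C, fun t c d => (hC t c d).2⟩)
  have hid' : ∀ t : ℝ, 0 < t → t < 1 →
      H h t + O o₁ t + O o₂ t - T t = H h' t + O o₁' t + O o₂' t - T' t :=
    fun t a b => hid t a b.le
  rcases pf_peel_one hH' hO' hh hh' h₁ h₂ h₁' h₂' hm₁ hm₂ hm₁' hm₂' hTs hTs' hid' with
    e | e | e | e | e
  · subst e
    have h3 := pf_peel_oo hH' hO' hh h₁ h₂ h₁' h₂' hm₁ hm₂ hm₁' hm₂' hTs hTs'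
      (fun t a b => by linarith [hid' t a b])
    exact Or.inr (Or.inr ⟨rfl, h3⟩)
  · subst e
    rcases pf_peel_two hH' hO' (o := o₁) (g := o₂) (g' := o₂') hh hh' h₁ h₂ h₂' hm₂ hm₂'
      (fun x a b => hTs x a (by linarith)) (fun x a b => hTs' x a (by linarith))
      (fun t a b => by linarith [hid' t a b]) with e | e
    · exact Or.inr (Or.inr ⟨e, Or.inl rfl⟩)
    · exact Or.inl ⟨rfl, e⟩
  · subst e
    rcases pf_peel_two hH' hO' (o := o₁) (g := o₂) (g' := o₁') hh hh' h₁ h₂ h₁' hm₂ hm₁'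
      (fun x a b => hTs x a (by linarith)) (fun x a b => hTs' x a (by linarith))
      (fun t a b => by linarith [hid' t a b]) with e | e
    · exact Or.inr (Or.inr ⟨e, Or.inr (Or.inl rfl)⟩)
    · exact Or.inr (Or.inl ⟨rfl, e⟩)
  · subst e
    rcases pf_peel_two hH' hO' (o := o₂) (g := o₁) (g' := o₂') hh hh' h₂ h₁ h₂' hm₁ hm₂'
      (fun x a b => hTs x a (by linarith)) (fun x a b => hTs' x a (by linarith))
      (fun t a b => by linarith [hid' t a b]) with e | e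
    · exact Or.inr (Or.inr ⟨e, Or.inr (Or.inr (Or.inl rfl))⟩)
    · exact Or.inr (Or.inl ⟨e, rfl⟩)
  · subst e
    rcases pf_peel_two hH' hO' (o := o₂) (g := o₁) (g' := o₁') hh hh' h₂ h₁ h₁' hm₁ hm₁'
      (fun x a b => hTs x a (by linarith)) (fun x a b => hTs' x a (by linarith))
      (fun t a b => by linarith [hid' t a b]) with e | e
    · exact Or.inr (Or.inr ⟨e, Or.inr (Or.inr (Or.inr rfl))⟩)
    · exact Or.inl ⟨e, rfl⟩

end Pool.Agent.H212AN
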