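import Pool.Agent.H212AN.E1

set_option autoImplicit false

namespace Pool.Agent.H212AN

open MeasureTheory Set Filter Topology Metric
open Pool.Agent.H212AN.G (nG PG gm gk)
open scoped Real ENNReal ComplexConjugate

theorem pf_qinv_closed {A : Set ℂ} (hA : IsClosed A) (t : ℝ) :
    IsClosed {p : Lo × ℂ | hit A t p.1 p.2} := by
  have h1 : IsClosed {q : unitInterval × (Lo × ℂ) | q.2.2 + (√t : ℂ) * q.2.1 q.1 ∈ A} := by
    have hc : Continuous (fun q : unitInterval × (Lo × ℂ) =>
        q.2.2 + (√t : ℂ) * q.2.1 q.1) := by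
      have h2 : Continuous (fun q : unitInterval × (Lo × ℂ) => q.2.1 q.1) := by fun_prop
      exact (continuous_snd.comp continuous_snd).add (continuous_const.mul h2)
    exact hA.preimage hc
  have h2 : {p : Lo × ℂ | hit A t p.1 p.2} =
      Prod.snd '' {q : unitInterval × (Lo × ℂ) | q.2.2 + (√t : ℂ) * q.2.1 q.1 ∈ A} := by
    ext p
    constructor
    · rintro ⟨s, hs⟩
      exact ⟨(s, p), hs, rfl⟩
    · rintro ⟨q, hq, rfl⟩
      exact ⟨q.1, hq⟩
  rw [h2]
  exact isClosedMap_snd_of_compactSpace _ h1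

theorem pf_qinv_meas {A B : Set ℂ} (hA : IsClosed A) (hB : IsClosed B) (t : ℝ) :
    Measurable (fun b : Lo => volume {z : ℂ | hit A t b z ∧ hit B t b z}) := by
  have h : MeasurableSet {p : Lo × ℂ | hit A t p.1 p.2 ∧ hit B t p.1 p.2} :=
    ((pf_qinv_closed hA t).inter (pf_qinv_closed hB t)).measurableSet
  exact measurable_measure_prodMk_left h

theorem pf_qinv_hit {u : ℂ} (hu : u ≠ 0) (A : Set ℂ) (v : ℂ) (t : ℝ) (b : Lo) (z : ℂ) :
    hit ((fun z => u * z + v) '' A) t b (u * z + v) ↔ hit A t (u⁻¹ • b) z := by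
  unfold hit
  refine exists_congr fun s => ?_
  have h1 : (u⁻¹ • b) s = u⁻¹ * b s := rfl
  rw [h1]
  constructor
  · rintro ⟨a, ha, he⟩
    have h2 : a = z + (√t : ℂ) * (u⁻¹ * b s) := by
      apply mul_left_cancel₀ hu
      have h3 : u * (z + (√t : ℂ) * (u⁻¹ * b s)) = u * z + (√t : ℂ) * b s := by
        field_simp
      rw [h3]
      linear_combination he
    rwa [← h2]
  · intro h
    refine ⟨_, h, ?_⟩
    simp only
    field_simp
    ring

theorem pf_qinv (h1 : S_rot) : S_qinv := by
  intro μ hμ A B u v t hA hB hu ht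
  have hu0 : u ≠ 0 := by
    rintro rfl
    simp at hu
  let C : Circle := ⟨u, mem_sphere_zero_iff_norm.2 hu⟩
  have hC : ∀ z : ℂ, rotation C z = u * z := fun z => rotation_apply C z
  have hmp1 : MeasurePreserving (rotation C) (volume : Measure ℂ) volume :=
    (rotation C).measurePreserving
  have hmp2 : MeasurePreserving (fun z : ℂ => z + v) (volume : Measure ℂ) volume :=
    measurePreserving_add_right volume v
  have hmp : MeasurePreserving (fun z : ℂ => u * z + v) (volume : Measure ℂ) volume := by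
    have h2 := hmp2.comp hmp1
    have h3 : (fun z : ℂ => z + v) ∘ (rotation C) = fun z : ℂ => u * z + v := by
      funext z
      simp only [Function.comp_apply, hC]
    rwa [h3] at h2
  let ψ : ℂ ≃ₜ ℂ := (rotation C).toHomeomorph.trans (Homeomorph.addRight v)
  have hψ : (ψ : ℂ → ℂ) = fun z : ℂ => u * z + v := by
    funext z
    change rotation C z + v = _
    rw [hC]
  have hemb : MeasurableEmbedding (fun z : ℂ => u * z + v) := by
    rw [← hψ]
    exact ψ.measurableEmbedding
  have hF := pf_qinv_meas hA hB t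
  have hinv : ‖u⁻¹‖ = 1 := by rw [norm_inv, hu, inv_one]
  have hmap := (h1 μ hμ).1 u⁻¹ hinv
  have hsm : Measurable (fun b : Lo => u⁻¹ • b) := (continuous_const_smul u⁻¹).measurable
  unfold Q2
  have hcong : ∀ b : Lo, volume {z : ℂ | hit ((fun z => u * z + v) '' A) t b z ∧
      hit ((fun z => u * z + v) '' B) t b z} =
      volume {z : ℂ | hit A t (u⁻¹ • b) z ∧ hit B t (u⁻¹ • b) z} := by
    intro b
    rw [← hmp.measure_preimage_emb hemb]
    congr 1
    ext z
    change hit ((fun z => u * z + v) '' A) t b (u * z + v) ∧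
      hit ((fun z => u * z + v) '' B) t b (u * z + v) ↔
      hit A t (u⁻¹ • b) z ∧ hit B t (u⁻¹ • b) z
    rw [pf_qinv_hit hu0, pf_qinv_hit hu0]
  rw [lintegral_congr hcong]
  conv_rhs => rw [← hmap]
  rw [lintegral_map hF hsm]

end Pool.Agent.H212AN
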