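import Pool.Agent.H212AN.E1

set_option autoImplicit false

namespace Pool.Agent.H212AN

open MeasureTheory Set Filter Topology Metric
open Pool.Agent.H212AN.G (nG PG gm gk)
open scoped Real ENNReal ComplexConjugate

theorem pf_small_in {B : Set ℂ} {U : Set ℂ} (hB : IsCompact B) (hU : IsOpen U) (h : B ⊆ U) :
    ∀ᶠ η in 𝓝[>] (0:ℝ), ∀ x ∈ B, ∀ y, dist y x < 2 * η → y ∈ U := by
  obtain ⟨δ, hδ, hs⟩ := hB.exists_cthickening_subset_open hU h
  have h1 : ∀ᶠ η in 𝓝[>] (0:ℝ), η < δ / 2 :=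
    nhdsWithin_le_nhds (Iio_mem_nhds (by positivity))
  filter_upwards [h1] with η hη x hx y hy
  apply hs
  apply thickening_subset_cthickening
  rw [mem_thickening_iff]
  exact ⟨x, hx, by linarith⟩

theorem pf_small_dj {A B : Set ℂ} (hA : IsCompact A) (hB : IsClosed B) (h : Disjoint A B) :
    ∀ᶠ η in 𝓝[>] (0:ℝ), ∀ x ∈ A, ∀ y ∈ B, 2 * η ≤ dist x y := by
  obtain ⟨δ, hδ, hs⟩ := h.exists_thickenings hA hB
  have h1 : ∀ᶠ η in 𝓝[>] (0:ℝ), η < δ / 2 :=
    nhdsWithin_le_nhds (Iio_mem_nhds (by positivity))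
  filter_upwards [h1] with η hη x hx y hy
  by_contra hc
  push Not at hc
  have m1 : x ∈ thickening δ A := self_subset_thickening hδ A hx
  have m2 : x ∈ thickening δ B := by
    rw [mem_thickening_iff]
    exact ⟨y, hy, by linarith⟩
  exact Set.disjoint_left.1 hs m1 m2

theorem pf_small_trans (A : Set ℂ) (c : ℂ) : volume {z : ℂ | z - c ∈ A} = volume A := by
  have : {z : ℂ | z - c ∈ A} = (fun h => h + (-c)) ⁻¹' A := by
    ext z
    simp [sub_eq_add_neg]
  rw [this, measure_preimage_add_right]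

theorem pf_small_geo (n : ℕ) (c : ℂ) (w : Fin n → ℂ) (R r : ℝ)
    (h1 : ∀ i, closedBall (w i) r ⊆ ball c R)
    (h2 : ∀ i j, i ≠ j → Disjoint (closedBall (w i) r) (closedBall (w j) r)) :
    ∃ η : ℝ, 0 < η ∧ ∀ u : unitInterval → ℂ, Continuous u → (∀ s, ‖u s‖ < η) →
      volume {z : ℂ | ∀ s, z + u s ∈ NH n R r c w} =
        volume {z : ℂ | ∀ s, z + u s ∈ ball (0:ℂ) R} -
          n * volume {z : ℂ | ∃ s, z + u s ∈ closedBall (0:ℂ) r} := by
  have e1 : ∀ᶠ η in 𝓝[>] (0:ℝ), ∀ i, ∀ x ∈ closedBall (w i) r, ∀ y, dist y x < 2 * η →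
      y ∈ ball c R := by
    rw [eventually_all]
    exact fun i => pf_small_in (isCompact_closedBall _ _) isOpen_ball (h1 i)
  have e2 : ∀ᶠ η in 𝓝[>] (0:ℝ), ∀ i j, i ≠ j → ∀ x ∈ closedBall (w i) r,
      ∀ y ∈ closedBall (w j) r, 2 * η ≤ dist x y := by
    rw [eventually_all]
    intro i
    rw [eventually_all]
    intro j
    by_cases hij : i = j
    · exact Eventually.of_forall fun η h => absurd hij h
    · filter_upwards [pf_small_dj (isCompact_closedBall _ _) isClosed_closedBall (h2 i j hij)]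
        with η hη _
      exact hη
  have e3 : ∀ᶠ η in 𝓝[>] (0:ℝ), 0 < η := self_mem_nhdsWithin
  obtain ⟨η, ⟨hη1, hη2⟩, hη3⟩ := ((e1.and e2).and e3).exists
  refine ⟨η, hη3, fun u hu hb => ?_⟩
  -- the removed sets
  set P : Fin n → Set ℂ := fun i => {z : ℂ | ∃ s, z + u s ∈ closedBall (w i) r} with hP
  set A : Set ℂ := {z : ℂ | ∀ s, z + u s ∈ ball c R} with hA
  have hd : ∀ s s' : unitInterval, ∀ z : ℂ, dist (z + u s) (z + u s') < 2 * η := by
    intro s s' z
    rw [dist_add_left, dist_eq_norm]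
    have := norm_sub_le (u s) (u s')
    linarith [hb s, hb s']
  have hset : {z : ℂ | ∀ s, z + u s ∈ NH n R r c w} = A \ ⋃ i, P i := by
    ext z
    simp only [NH, mem_setOf_eq, mem_diff, mem_iUnion, hA, hP]
    constructor
    · intro h
      exact ⟨fun s => (h s).1, fun ⟨i, s, hs⟩ => (h s).2 ⟨i, hs⟩⟩
    · rintro ⟨ha, hb⟩ s
      exact ⟨ha s, fun ⟨i, hi⟩ => hb ⟨i, s, hi⟩⟩
  have hPA : (⋃ i, P i) ⊆ A := by
    intro z hz s'
    obtain ⟨i, s, hs⟩ := mem_iUnion.1 hz
    exact hη1 i _ hs _ (hd s' s z)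
  have hPc : ∀ i, IsCompact (P i) := by
    intro i
    have : P i = (fun p : ℂ × unitInterval => p.1 - u p.2) '' (closedBall (w i) r ×ˢ univ) := by
      ext z
      simp only [hP, mem_setOf_eq, mem_image, mem_prod, mem_univ, and_true, Prod.exists]
      constructor
      · rintro ⟨s, hs⟩
        exact ⟨z + u s, s, hs, by simp⟩
      · rintro ⟨x, s, hx, rfl⟩
        exact ⟨s, by simpa using hx⟩
    rw [this]
    exact ((isCompact_closedBall _ _).prod isCompact_univ).image (by fun_prop)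
  have hPm : ∀ i, MeasurableSet (P i) := fun i => (hPc i).measurableSet
  have hPd : Pairwise (Function.onFun Disjoint P) := by
    intro i j hij
    rw [Function.onFun, Set.disjoint_left]
    rintro z ⟨s, hs⟩ ⟨s', hs'⟩
    exact absurd (hη2 i j hij _ hs _ hs') (not_le.2 (hd s s' z))
  have hPv : ∀ i, volume (P i) = volume {z : ℂ | ∃ s, z + u s ∈ closedBall (0:ℂ) r} := by
    intro i
    rw [← pf_small_trans {z : ℂ | ∃ s, z + u s ∈ closedBall (0:ℂ) r} (w i)]
    congr 1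
    ext z
    simp only [hP, mem_setOf_eq, mem_closedBall, dist_eq_norm]
    refine exists_congr fun s => ?_
    rw [show z - w i + u s - 0 = z + u s - w i by ring]
  have hAv : volume A = volume {z : ℂ | ∀ s, z + u s ∈ ball (0:ℂ) R} := by
    rw [← pf_small_trans {z : ℂ | ∀ s, z + u s ∈ ball (0:ℂ) R} c]
    congr 1
    ext z
    simp only [hA, mem_setOf_eq, mem_ball, dist_eq_norm]
    refine forall_congr' fun s => ?_
    rw [show z - c + u s - 0 = z + u s - c by ring]
  have hU : volume (⋃ i, P i) = n * volume {z : ℂ | ∃ s, z + u s ∈ closedBall (0:ℂ) r} := by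
    rw [measure_iUnion hPd hPm]
    simp only [hPv]
    rw [tsum_fintype, Finset.sum_const, Finset.card_univ, Fintype.card_fin, nsmul_eq_mul]
  have hfin : volume (⋃ i, P i) ≠ ∞ := by
    rw [measure_iUnion hPd hPm, tsum_fintype]
    exact (ENNReal.sum_lt_top.2 fun i _ => (hPc i).measure_lt_top).ne
  rw [hset, measure_diff hPA (MeasurableSet.iUnion hPm).nullMeasurableSet hfin, hU, hAv]

theorem pf_small_le (h1 : S_mom) (h2 : S_end) (μ : Measure Lo) (hμ : IsLoop μ) (n : ℕ) (c c' : ℂ)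
    (w w' : Fin n → ℂ) (R r : ℝ) 
    (a1 : ∀ i, closedBall (w i) r ⊆ ball c R)
    (a2 : ∀ i j, i ≠ j → Disjoint (closedBall (w i) r) (closedBall (w j) r))
    (b1 : ∀ i, closedBall (w' i) r ⊆ ball c' R)
    (b2 : ∀ i j, i ≠ j → Disjoint (closedBall (w' i) r) (closedBall (w' j) r)) (N : ℕ) :
    ∃ C : ℝ, 0 ≤ C ∧ ∀ t : ℝ, 0 < t →
      EV μ (NH n R r c w) t ≤ EV μ (NH n R r c' w') t + ENNReal.ofReal (C * t ^ N) := by
  haveI := hμ.prob
  obtain ⟨η₁, p₁, g₁⟩ := pf_small_geo n c w R r a1 a2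
  obtain ⟨η₂, p₂, g₂⟩ := pf_small_geo n c' w' R r b1 b2
  set η := min η₁ η₂ with hη
  have pη : 0 < η := lt_min p₁ p₂
  set V : ℝ := (volume (ball c R)).toReal with hV
  have hVe : volume (ball c R) = ENNReal.ofReal V := by
    rw [hV, ENNReal.ofReal_toReal measure_ball_lt_top.ne]
  have hV0 : 0 ≤ V := ENNReal.toReal_nonneg
  set M : ℝ := ∫ b, ‖b‖ ^ (2 * N) ∂μ with hM
  have hM0 : 0 ≤ M := integral_nonneg fun b => by positivity
  refine ⟨V * (M / η ^ (2 * N)), by positivity, fun t ht => ?_⟩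
  have hsq : √t ^ 2 = t := Real.sq_sqrt ht.le
  set g : Lo → ℝ≥0∞ := fun b => ENNReal.ofReal (V * (t ^ N / η ^ (2 * N)) * ‖b‖ ^ (2 * N)) with hg
  have hgm : Measurable g := by
    apply Measurable.ennreal_ofReal
    exact (continuous_const.mul (continuous_norm.pow _)).measurable
  have hgi : ∫⁻ b, g b ∂μ = ENNReal.ofReal (V * (M / η ^ (2 * N)) * t ^ N) := by
    rw [hg, ← ofReal_integral_eq_lintegral_ofReal ((h1 μ hμ (2 * N)).const_mul _)
      (Eventually.of_forall fun b => by positivity), integral_const_mul, ← hM]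
    congr 1
    ring
  rw [← hgi]
  unfold EV
  rw [← lintegral_add_right _ hgm]
  apply lintegral_mono_ae
  filter_upwards [h2 μ hμ] with b hb
  by_cases hs : √t * ‖b‖ < η
  · have hc : Continuous fun s : unitInterval => (√t : ℂ) * b s := by fun_prop
    have hn : ∀ s : unitInterval, ‖(√t : ℂ) * b s‖ < η := by
      intro s
      rw [norm_mul, Complex.norm_real, Real.norm_of_nonneg (Real.sqrt_nonneg _)]
      exact (mul_le_mul_of_nonneg_left (b.norm_coe_le_norm s) (Real.sqrt_nonneg _)).trans_lt hs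
    rw [g₁ _ hc fun s => (hn s).trans_le (min_le_left _ _),
      g₂ _ hc fun s => (hn s).trans_le (min_le_right _ _)]
    exact le_self_add
  · push Not at hs
    have k1 : volume {z : ℂ | ∀ s : unitInterval, z + (√t : ℂ) * b s ∈ NH n R r c w} ≤
        ENNReal.ofReal V := by
      rw [← hVe]
      apply measure_mono
      intro z hz
      have := (hz 0).1
      rwa [hb.1, mul_zero, add_zero] at this
    have k2 : ENNReal.ofReal V ≤ g b := by
      apply ENNReal.ofReal_le_ofReal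
      have k3 : 1 ≤ (√t * ‖b‖ / η) ^ (2 * N) := one_le_pow₀ (by rwa [one_le_div pη])
      have k4 : (√t * ‖b‖ / η) ^ (2 * N) = t ^ N / η ^ (2 * N) * ‖b‖ ^ (2 * N) := by
        rw [div_pow, mul_pow, pow_mul √t, hsq]
        ring
      rw [k4] at k3
      calc V = V * 1 := by ring
        _ ≤ V * (t ^ N / η ^ (2 * N) * ‖b‖ ^ (2 * N)) := mul_le_mul_of_nonneg_left k3 hV0
        _ = _ := by ring
    exact (k1.trans k2).trans le_add_self

theorem pf_small_fin (h2 : S_end) (μ : Measure Lo) (hμ : IsLoop μ) (n : ℕ) (c : ℂ)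
    (w : Fin n → ℂ) (R r t : ℝ) : EV μ (NH n R r c w) t ≠ ∞ := by
  haveI := hμ.prob
  have : EV μ (NH n R r c w) t ≤ ∫⁻ _, volume (ball c R) ∂μ := by
    unfold EV
    apply lintegral_mono_ae
    filter_upwards [h2 μ hμ] with b hb
    apply measure_mono
    intro z hz
    have := (hz 0).1
    rwa [hb.1, mul_zero, add_zero] at this
  refine (this.trans_lt ?_).ne
  rw [lintegral_const, measure_univ, mul_one]
  exact measure_ball_lt_top

theorem pf_small (h1 : S_mom) (h2 : S_end) : S_small := by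
  intro μ hμ n c c' w w' R r hr a1 a2 b1 b2 N
  obtain ⟨C₁, q₁, l₁⟩ := pf_small_le h1 h2 μ hμ n c c' w w' R r a1 a2 b1 b2 N
  obtain ⟨C₂, q₂, l₂⟩ := pf_small_le h1 h2 μ hμ n c' c w' w R r b1 b2 a1 a2 N
  refine ⟨max C₁ C₂, fun t ht _ => ?_⟩
  have f₁ := pf_small_fin h2 μ hμ n c w R r t
  have f₂ := pf_small_fin h2 μ hμ n c' w' R r t
  have tp : 0 ≤ t ^ N := by positivity
  have m₁ := ENNReal.toReal_mono (ENNReal.add_ne_top.2 ⟨f₂, ENNReal.ofReal_ne_top⟩) (l₁ t ht)
  have m₂ := ENNReal.toReal_mono (ENNReal.add_ne_top.2 ⟨f₁, ENNReal.ofReal_ne_top⟩) (l₂ t ht)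
  rw [ENNReal.toReal_add f₂ ENNReal.ofReal_ne_top, ENNReal.toReal_ofReal (by positivity)] at m₁
  rw [ENNReal.toReal_add f₁ ENNReal.ofReal_ne_top, ENNReal.toReal_ofReal (by positivity)] at m₂
  have x₁ := mul_le_mul_of_nonneg_right (le_max_left C₁ C₂) tp
  have x₂ := mul_le_mul_of_nonneg_right (le_max_right C₁ C₂) tp
  rw [abs_le]
  constructor <;> linarith

end Pool.Agent.H212AN
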