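import Pool.Agent.H212AN.E1

set_option autoImplicit false

namespace Pool.Agent.H212AN

open MeasureTheory Set Filter Topology Metric
open Pool.Agent.H212AN.G (nG PG gm gk)
open scoped Real ENNReal ComplexConjugate

section tt

open Pool.Agent.H212AN.G

theorem pf_tt_chernoff {s : ℝ} (hs : 0 < s) (M : ℕ) (w : Fin M → ℂ) (x V : ℝ) (hx : 0 ≤ x) (hV : 0 < V)
    (hw : ∑ l, ‖w l‖ ^ 2 ≤ V) :
    PG s M {X | x ≤ ∑ l, ip (w l) (X l)} ≤ ENNReal.ofReal (Real.exp (-(x ^ 2 / (4 * V * s)))) := by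
  set lam : ℝ := x / (2 * V * s) with hlam
  have hl0 : 0 ≤ lam := by positivity
  set F : (Fin M → ℂ) → ℝ≥0∞ := fun X =>
    ENNReal.ofReal (Real.exp (∑ l, ip (((lam : ℝ) : ℂ) * w l) (X l))) with hF
  have hFm : Measurable F := by
    refine (Measurable.exp ?_).ennreal_ofReal
    exact Finset.measurable_sum _ fun l _ => (ip_cont _).measurable.comp (measurable_pi_apply l)
  have h1 := mul_meas_ge_le_lintegral (μ := PG s M) hFm (ENNReal.ofReal (Real.exp (lam * x)))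
  rw [hF, mgf_PG hs] at h1
  have h2 : {X : Fin M → ℂ | x ≤ ∑ l, ip (w l) (X l)} ⊆
      {X | ENNReal.ofReal (Real.exp (lam * x)) ≤
        ENNReal.ofReal (Real.exp (∑ l, ip (((lam : ℝ) : ℂ) * w l) (X l)))} := by
    intro X hX
    rw [mem_ofPred_eq] at hX ⊢
    apply ENNReal.ofReal_le_ofReal
    rw [Real.exp_le_exp]
    have h3 : ∑ l, ip (((lam : ℝ) : ℂ) * w l) (X l) = lam * ∑ l, ip (w l) (X l) := by
      rw [Finset.mul_sum]
      exact Finset.sum_congr rfl fun l _ => ip_smul_left _ _ _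
    rw [h3]
    exact mul_le_mul_of_nonneg_left hX hl0
  have h4 : ∑ l, ‖((lam : ℝ) : ℂ) * w l‖ ^ 2 ≤ lam ^ 2 * V := by
    have h5 : ∑ l, ‖((lam : ℝ) : ℂ) * w l‖ ^ 2 = lam ^ 2 * ∑ l, ‖w l‖ ^ 2 := by
      rw [Finset.mul_sum]
      refine Finset.sum_congr rfl fun l _ => ?_
      rw [norm_mul, Complex.norm_real, mul_pow, Real.norm_eq_abs, sq_abs]
    rw [h5]
    exact mul_le_mul_of_nonneg_left hw (sq_nonneg _)
  have h6 : ENNReal.ofReal (Real.exp (lam * x)) * PG s M {X | x ≤ ∑ l, ip (w l) (X l)} ≤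
      ENNReal.ofReal (Real.exp (s * (lam ^ 2 * V))) := by
    refine (mul_le_mul_right (measure_mono h2) _).trans (h1.trans ?_)
    apply ENNReal.ofReal_le_ofReal
    rw [Real.exp_le_exp]
    exact mul_le_mul_of_nonneg_left h4 hs.le
  have h7 : PG s M {X | x ≤ ∑ l, ip (w l) (X l)} =
      ENNReal.ofReal (Real.exp (-(lam * x))) * (ENNReal.ofReal (Real.exp (lam * x)) *
        PG s M {X | x ≤ ∑ l, ip (w l) (X l)}) := by
    rw [← mul_assoc, ← ENNReal.ofReal_mul (Real.exp_pos _).le, ← Real.exp_add, neg_add_cancel,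
      Real.exp_zero, ENNReal.ofReal_one, one_mul]
  rw [h7]
  refine (mul_le_mul_right h6 _).trans ?_
  rw [← ENNReal.ofReal_mul (Real.exp_pos _).le, ← Real.exp_add]
  apply ENNReal.ofReal_le_ofReal
  rw [Real.exp_le_exp, hlam]
  apply le_of_eq
  field_simp
  ring

theorem pf_tt_ch : S_CH := by
  intro M q s x R a r c hM hs hx hR hf
  set f : Fin M → ℂ := fun l => ∑ i, (if (l : ℕ) < r i then a i else 0) with hfdef
  set fb : ℂ := (∑ l, f l) / (M : ℂ) with hfb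
  have hM0 : (M : ℂ) ≠ 0 := by exact_mod_cast hM.ne'
  have hM0' : (0 : ℝ) < M := by exact_mod_cast hM
  have h1 : ∀ X : Fin M → ℂ, ∑ i, ip (a i) (gm X (r i)) = ∑ l, ip (f l - fb) (X l) := by
    intro X
    have h2 : ∑ i, ip (a i) (gm X (r i)) = ∑ l, ip (f l) (ce X l) := by
      have h3 : ∀ i, ip (a i) (gm X (r i)) =
          ∑ l : Fin M, ip (if (l : ℕ) < r i then a i else 0) (ce X l) := by
        intro i
        rw [gm, sg, ip_sum_right]
        refine Finset.sum_congr rfl fun l _ => ?_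
        split_ifs
        · rfl
        · rw [ip_zero_right, ip_zero_left]
      simp_rw [h3]
      rw [Finset.sum_comm]
      refine Finset.sum_congr rfl fun l _ => ?_
      rw [hfdef, ip_sum_left]
    rw [h2]
    have h4 : ∀ l, ip (f l) (ce X l) = ip (f l) (X l) - ip (f l) (mn X) := fun l =>
      ip_sub_right _ _ _
    have h5 : ∀ l, ip (f l - fb) (X l) = ip (f l) (X l) - ip fb (X l) := fun l =>
      ip_sub_left _ _ _
    simp_rw [h4, h5]
    rw [Finset.sum_sub_distrib, Finset.sum_sub_distrib]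
    congr 1
    rw [← ip_sum_left, ← ip_sum_right, mn]
    have h6 : ∑ l, f l = ((M : ℝ) : ℂ) * fb := by
      rw [hfb]; push_cast; field_simp
    have h7 : (∑ l, X l) / (M : ℂ) = (((M : ℝ)⁻¹ : ℝ) : ℂ) * ∑ l, X l := by
      push_cast; field_simp
    rw [h6, h7, ip_smul_left, ip_smul_right]
    field_simp
  have h8 : ∑ l, (f l - fb) = 0 := by
    rw [Finset.sum_sub_distrib, Finset.sum_const, Finset.card_univ, Fintype.card_fin, hfb]
    rw [nsmul_eq_mul]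
    field_simp
    ring
  have h9 : ∑ l, ‖f l - fb‖ ^ 2 ≤ M * R ^ 2 := by
    have h10 : ∑ l, ‖f l - c‖ ^ 2 = ∑ l, ‖f l - fb‖ ^ 2 + M * ‖fb - c‖ ^ 2 := by
      have h11 : ∀ l, ‖f l - c‖ ^ 2 =
          ‖f l - fb‖ ^ 2 + 2 * ip (f l - fb) (fb - c) + ‖fb - c‖ ^ 2 := by
        intro l
        rw [← norm_sq_add]
        congr 2
        ring
      simp_rw [h11]
      rw [Finset.sum_add_distrib, Finset.sum_add_distrib, ← Finset.mul_sum, ← ip_sum_left, h8,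
        ip_zero_left, Finset.sum_const, Finset.card_univ, Fintype.card_fin, nsmul_eq_mul]
      ring
    have h12 : ∑ l, ‖f l - c‖ ^ 2 ≤ M * R ^ 2 := by
      calc ∑ l, ‖f l - c‖ ^ 2 ≤ ∑ _l : Fin M, R ^ 2 := by
            refine Finset.sum_le_sum fun l _ => ?_
            exact pow_le_pow_left₀ (norm_nonneg _) (hf l l.2) 2
        _ = M * R ^ 2 := by rw [Finset.sum_const, Finset.card_univ, Fintype.card_fin, nsmul_eq_mul]
    have h13 : 0 ≤ (M : ℝ) * ‖fb - c‖ ^ 2 := by positivity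
    linarith
  simp_rw [h1]
  refine (pf_tt_chernoff hs M _ x (M * R ^ 2) hx (by positivity) h9).trans (le_of_eq ?_)
  congr 3
  ring


/-- finitely many directions -/
theorem pf_tt_dir {δ : ℝ} (hδ : 0 < δ) : ∃ D : Finset ℂ, (∀ u ∈ D, ‖u‖ = 1) ∧
    ∀ z : ℂ, ∃ u ∈ D, (1 - δ) * ‖z‖ ≤ ip u z := by
  obtain ⟨t, ht, htf, hcov⟩ := (isCompact_sphere (0:ℂ) 1).finite_cover_balls hδ
  refine ⟨htf.toFinset, ?_, ?_⟩
  · intro u hu
    have := ht (htf.mem_toFinset.1 hu)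
    simpa using this
  · have key : ∀ v : ℂ, ‖v‖ = 1 → ∃ u ∈ htf.toFinset, 1 - δ ≤ ip u v := by
      intro v hv
      have hv' : v ∈ sphere (0:ℂ) 1 := by simpa using hv
      obtain ⟨u, hu, hd⟩ := mem_iUnion₂.1 (hcov hv')
      refine ⟨u, htf.mem_toFinset.2 hu, ?_⟩
      have h1 : ip u v = ip v v + ip (u - v) v := by
        rw [ip_sub_left]; ring
      have h2 := ip_le (u - v) v
      have h3 : ‖u - v‖ < δ := by
        rw [mem_ball, dist_comm, dist_eq_norm] at hd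
        exact hd
      rw [hv, mul_one] at h2
      have h4 := neg_abs_le (ip (u - v) v)
      rw [h1, ip_self, hv]
      linarith
    intro z
    by_cases hz : z = 0
    · obtain ⟨u, hu, _⟩ := key 1 (by simp)
      refine ⟨u, hu, ?_⟩
      rw [hz, ip_zero_right]
      simp
    · have hz' : 0 < ‖z‖ := norm_pos_iff.2 hz
      obtain ⟨u, hu, h1⟩ := key ((((‖z‖)⁻¹ : ℝ) : ℂ) * z) (by
        rw [norm_mul, Complex.norm_real, Real.norm_eq_abs, abs_of_pos (by positivity)]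
        field_simp)
      refine ⟨u, hu, ?_⟩
      rw [ip_smul_right] at h1
      have h2 := mul_le_mul_of_nonneg_left h1 hz'.le
      have h3 : ‖z‖ * (‖z‖⁻¹ * ip u z) = ip u z := by field_simp
      rw [h3] at h2
      linarith

/-- three points -/
theorem pf_tt_three {M : ℕ} {s x : ℝ} (hM : 0 < M) (hs : 0 < s) (hx : 0 ≤ x) {u₁ u₂ u₃ : ℂ}
    (h1 : ‖u₁‖ = 1) (h2 : ‖u₂‖ = 1) (h3 : ‖u₃‖ = 1) {r₁ r₂ r₃ : ℕ} (h12 : r₁ ≤ r₂)
    (h23 : r₂ ≤ r₃) :
    PG s M {X | x ≤ ip u₁ (gm X r₁ - gm X r₂) + ip u₂ (gm X r₂ - gm X r₃) +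
      ip u₃ (gm X r₃ - gm X r₁)} ≤ ENNReal.ofReal (Real.exp (-(x ^ 2 / (4 * (M * s))))) := by
  have h := pf_tt_ch M 3 s x 1 ![u₁ - u₃, u₂ - u₁, u₃ - u₂] ![r₁, r₂, r₃] u₃ hM hs hx one_pos (by
    intro l _
    rw [Fin.sum_univ_three]
    simp only [Matrix.cons_val_zero, Matrix.cons_val_one, Matrix.cons_val]
    by_cases a1 : l < r₁
    · rw [if_pos a1, if_pos (by omega), if_pos (by omega)]
      have : u₁ - u₃ + (u₂ - u₁) + (u₃ - u₂) - u₃ = -u₃ := by ring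
      rw [this, norm_neg, h3]
    · by_cases a2 : l < r₂
      · rw [if_neg a1, if_pos a2, if_pos (by omega)]
        have : 0 + (u₂ - u₁) + (u₃ - u₂) - u₃ = -u₁ := by ring
        rw [this, norm_neg, h1]
      · by_cases a3 : l < r₃
        · rw [if_neg a1, if_neg a2, if_pos a3]
          have : 0 + 0 + (u₃ - u₂) - u₃ = -u₂ := by ring
          rw [this, norm_neg, h2]
        · rw [if_neg a1, if_neg a2, if_neg a3]
          have : 0 + 0 + 0 - u₃ = -u₃ := by ring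
          rw [this, norm_neg, h3])
  rw [one_pow, mul_one] at h
  refine (measure_mono ?_).trans h
  intro X hX
  rw [mem_ofPred_eq] at hX ⊢
  rw [Fin.sum_univ_three]
  simp only [Matrix.cons_val_zero, Matrix.cons_val_one, Matrix.cons_val]
  rw [ip_sub_left, ip_sub_left, ip_sub_left]
  rw [ip_sub_right, ip_sub_right, ip_sub_right] at hX
  linarith

/-- the perimeter of a triangle -/
noncomputable def pf_tt_P (x y z : ℂ) : ℝ := ‖x - y‖ + ‖y - z‖ + ‖z - x‖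

theorem pf_tt_P_le {x y z x' y' z' : ℂ} {e : ℝ} (hx : ‖x - x'‖ ≤ e) (hy : ‖y - y'‖ ≤ e)
    (hz : ‖z - z'‖ ≤ e) : pf_tt_P x y z ≤ pf_tt_P x' y' z' + 6 * e := by
  have key : ∀ a b a' b' : ℂ, ‖a - a'‖ ≤ e → ‖b - b'‖ ≤ e → ‖a - b‖ ≤ ‖a' - b'‖ + 2 * e := by
    intro a b a' b' ha hb
    have h1 : a - b = (a - a') + ((a' - b') + (b' - b)) := by ring
    have h2 := norm_add_le (a - a') ((a' - b') + (b' - b))
    have h3 := norm_add_le (a' - b') (b' - b)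
    rw [norm_sub_rev b' b] at h3
    rw [h1]
    linarith
  have h1 := key x y x' y' hx hy
  have h2 := key y z y' z' hy hz
  have h3 := key z x z' x' hz hx
  unfold pf_tt_P
  linarith

/-- the discrete loops -/
theorem pf_tt_grid {θ : ℝ} (h0 : 0 < θ) (h1 : θ < 1) : ∃ (N : ℕ) (δ C : ℝ), 0 < N ∧ 0 < δ ∧
    δ < 1 ∧ 1 ≤ C ∧ ∀ (M k : ℕ) (s L : ℝ), 0 < k → M = N * k → M * s = 1 → 0 < s → 0 ≤ L →
    PG s M {X | ∃ r₁ r₂ r₃ : ℕ, r₁ ≤ r₂ ∧ r₂ ≤ r₃ ∧ r₃ < M ∧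
      (1 - δ) * L ≤ pf_tt_P (gm X r₁) (gm X r₂) (gm X r₃)} ≤
      ENNReal.ofReal (C * Real.exp (-(θ * L ^ 2 / 4))) := by
  classical
  set δ : ℝ := (1 - √θ) / 3 with hδ
  have hs0 : 0 < √θ := Real.sqrt_pos.2 h0
  have hs1 : √θ < 1 := by rw [Real.sqrt_lt' one_pos, one_pow]; exact h1
  have hδ0 : 0 < δ := by rw [hδ]; linarith
  have hδ1 : δ < 1 / 3 := by rw [hδ]; linarith
  have hδ3 : (1 - 3 * δ) = √θ := by rw [hδ]; ring
  obtain ⟨D, hD1, hD2⟩ := pf_tt_dir hδ0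
  obtain ⟨N₁, hN₁⟩ := exists_nat_ge (288 / δ ^ 2)
  set N := N₁ + 1 with hN
  have hN0 : 0 < N := by omega
  have hN0' : (0 : ℝ) < N := by exact_mod_cast hN0
  have hNbig : 288 / δ ^ 2 ≤ N := by
    refine hN₁.trans ?_
    exact_mod_cast Nat.le_succ N₁
  let ι := {j : Fin N × Fin N × Fin N // j.1 ≤ j.2.1 ∧ j.2.1 ≤ j.2.2} × D × D × D
  refine ⟨N, δ, Fintype.card ι + (4 * N + 4), hN0, hδ0, by linarith, ?_, ?_⟩
  · have : (0 : ℝ) ≤ Fintype.card ι := Nat.cast_nonneg _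
    linarith
  rintro M k s L hk rfl hMs hs hL
  have hk0' : (0 : ℝ) < k := by exact_mod_cast hk
  have hM : 0 < N * k := Nat.mul_pos hN0 hk
  have hcov : {X : Fin (N * k) → ℂ | ∃ r₁ r₂ r₃ : ℕ, r₁ ≤ r₂ ∧ r₂ ≤ r₃ ∧ r₃ < N * k ∧
      (1 - δ) * L ≤ pf_tt_P (gm X r₁) (gm X r₂) (gm X r₃)} ⊆
      (⋃ i : ι, {X | √θ * L ≤
        ip i.2.1 (gm X ((i.1.1.1 : ℕ) * k) - gm X ((i.1.1.2.1 : ℕ) * k)) +
        ip i.2.2.1 (gm X ((i.1.1.2.1 : ℕ) * k) - gm X ((i.1.1.2.2 : ℕ) * k)) +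
        ip i.2.2.2 (gm X ((i.1.1.2.2 : ℕ) * k) - gm X ((i.1.1.1 : ℕ) * k))}) ∪
      {X | ∃ j < N, ∃ o < k, δ * L / 6 ≤ ‖gm X (j * k + o) - gm X (j * k)‖} := by
    rintro X ⟨r₁, r₂, r₃, h12, h23, h3, hP⟩
    by_cases hfluc : ∃ j < N, ∃ o < k, δ * L / 6 ≤ ‖gm X (j * k + o) - gm X (j * k)‖
    · exact Or.inr hfluc
    · left
      push Not at hfluc
      have hj : ∀ r < N * k, r / k < N ∧ ‖gm X r - gm X (r / k * k)‖ ≤ δ * L / 6 := by
        intro r hr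
        have hj : r / k < N := (Nat.div_lt_iff_lt_mul hk).mpr hr
        have h4 := hfluc (r / k) hj (r % k) (Nat.mod_lt _ hk)
        have h5 : r / k * k + r % k = r := by
          rw [mul_comm]; exact Nat.div_add_mod r k
        rw [h5] at h4
        exact ⟨hj, h4.le⟩
      obtain ⟨b1, c1⟩ := hj r₁ (by omega)
      obtain ⟨b2, c2⟩ := hj r₂ (by omega)
      obtain ⟨b3, c3⟩ := hj r₃ h3
      have hP2 := pf_tt_P_le c1 c2 c3
      obtain ⟨u₁, d1, e1⟩ := hD2 (gm X (r₁ / k * k) - gm X (r₂ / k * k))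
      obtain ⟨u₂, d2, e2⟩ := hD2 (gm X (r₂ / k * k) - gm X (r₃ / k * k))
      obtain ⟨u₃, d3, e3⟩ := hD2 (gm X (r₃ / k * k) - gm X (r₁ / k * k))
      rw [mem_iUnion]
      refine ⟨⟨⟨(⟨r₁ / k, b1⟩, ⟨r₂ / k, b2⟩, ⟨r₃ / k, b3⟩), ?_, ?_⟩, ⟨u₁, d1⟩, ⟨u₂, d2⟩,
        ⟨u₃, d3⟩⟩, ?_⟩
      · exact Nat.div_le_div_right h12
      · exact Nat.div_le_div_right h23
      · rw [mem_ofPred_eq]
        simp only
        have hsum : (1 - δ) * pf_tt_P (gm X (r₁ / k * k)) (gm X (r₂ / k * k)) (gm X (r₃ / k * k)) ≤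
            ip u₁ (gm X (r₁ / k * k) - gm X (r₂ / k * k)) +
            ip u₂ (gm X (r₂ / k * k) - gm X (r₃ / k * k)) +
            ip u₃ (gm X (r₃ / k * k) - gm X (r₁ / k * k)) := by
          unfold pf_tt_P
          linarith
        refine le_trans ?_ hsum
        have hP3 : (1 - 2 * δ) * L ≤
            pf_tt_P (gm X (r₁ / k * k)) (gm X (r₂ / k * k)) (gm X (r₃ / k * k)) := by
          linarith
        have hP4 := mul_le_mul_of_nonneg_left hP3 (by linarith : 0 ≤ 1 - δ)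
        refine le_trans ?_ hP4
        rw [← hδ3]
        have : (1 - 3 * δ) * L ≤ (1 - 3 * δ) * L + 2 * δ ^ 2 * L := by
          have : 0 ≤ 2 * δ ^ 2 * L := by positivity
          linarith
        refine this.trans (le_of_eq ?_)
        ring
  refine (measure_mono hcov).trans ((measure_union_le _ _).trans ?_)
  set e : ℝ := Real.exp (-(θ * L ^ 2 / 4)) with he
  have he0 : 0 < e := Real.exp_pos _
  have hMs' : ((N * k : ℕ) : ℝ) * s = 1 := hMs
  have hA : PG s (N * k) (⋃ i : ι, {X | √θ * L ≤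
        ip i.2.1 (gm X ((i.1.1.1 : ℕ) * k) - gm X ((i.1.1.2.1 : ℕ) * k)) +
        ip i.2.2.1 (gm X ((i.1.1.2.1 : ℕ) * k) - gm X ((i.1.1.2.2 : ℕ) * k)) +
        ip i.2.2.2 (gm X ((i.1.1.2.2 : ℕ) * k) - gm X ((i.1.1.1 : ℕ) * k))}) ≤
      ENNReal.ofReal (Fintype.card ι * e) := by
    refine (measure_iUnion_fintype_le _ _).trans ?_
    have h4 : ∀ i : ι, PG s (N * k) {X | √θ * L ≤
        ip i.2.1 (gm X ((i.1.1.1 : ℕ) * k) - gm X ((i.1.1.2.1 : ℕ) * k)) +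
        ip i.2.2.1 (gm X ((i.1.1.2.1 : ℕ) * k) - gm X ((i.1.1.2.2 : ℕ) * k)) +
        ip i.2.2.2 (gm X ((i.1.1.2.2 : ℕ) * k) - gm X ((i.1.1.1 : ℕ) * k))} ≤
        ENNReal.ofReal e := by
      intro i
      have h5 := pf_tt_three (M := N * k) (s := s) (x := √θ * L) hM hs (by positivity)
        (hD1 _ i.2.1.2) (hD1 _ i.2.2.1.2) (hD1 _ i.2.2.2.2)
        (r₁ := (i.1.1.1 : ℕ) * k) (r₂ := (i.1.1.2.1 : ℕ) * k) (r₃ := (i.1.1.2.2 : ℕ) * k)
        (Nat.mul_le_mul_right k i.1.2.1) (Nat.mul_le_mul_right k i.1.2.2)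
      refine h5.trans (le_of_eq ?_)
      rw [he, hMs', mul_one, mul_pow, Real.sq_sqrt h0.le]
    calc ∑ i : ι, PG s (N * k) {X | √θ * L ≤
        ip i.2.1 (gm X ((i.1.1.1 : ℕ) * k) - gm X ((i.1.1.2.1 : ℕ) * k)) +
        ip i.2.2.1 (gm X ((i.1.1.2.1 : ℕ) * k) - gm X ((i.1.1.2.2 : ℕ) * k)) +
        ip i.2.2.2 (gm X ((i.1.1.2.2 : ℕ) * k) - gm X ((i.1.1.1 : ℕ) * k))}
        ≤ ∑ _i : ι, ENNReal.ofReal e := Finset.sum_le_sum fun i _ => h4 i
      _ = ENNReal.ofReal (Fintype.card ι * e) := by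
        rw [Finset.sum_const, Finset.card_univ, nsmul_eq_mul, ENNReal.ofReal_mul (by positivity),
          ENNReal.ofReal_natCast]
  have hB : PG s (N * k) {X | ∃ j < N, ∃ o < k, δ * L / 6 ≤ ‖gm X (j * k + o) - gm X (j * k)‖} ≤
      ENNReal.ofReal ((4 * N + 4) * e) := by
    refine (fl N k s (δ * L / 6) hN0 hk hs (by positivity)).trans ?_
    apply ENNReal.ofReal_le_ofReal
    apply mul_le_mul_of_nonneg_left _ (by positivity)
    rw [he, Real.exp_le_exp, neg_le_neg_iff]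
    rw [div_le_iff₀ (by positivity)] at hNbig
    have hks : (k : ℝ) * s = 1 / N := by
      rw [eq_div_iff hN0'.ne']
      rw [← hMs']
      push_cast
      ring
    have h5 : (δ * L / 6) ^ 2 / (32 * k * s) = L ^ 2 / 4 * (N * δ ^ 2 / 288) := by
      have : (32 * (k : ℝ) * s) = 32 / N := by
        rw [mul_assoc, hks]; ring
      rw [this]
      field_simp
      ring
    rw [h5]
    have h6 : 1 ≤ N * δ ^ 2 / 288 := by
      rw [le_div_iff₀ (by norm_num)]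
      linarith
    have h7 : 0 ≤ L ^ 2 / 4 := by positivity
    nlinarith
  refine (add_le_add hA hB).trans (le_of_eq ?_)
  rw [← ENNReal.ofReal_add (by positivity) (by positivity), ← add_mul]

/-- the set of configurations on a grid -/
def pf_tt_S (m : ℕ) (x : ℝ) : Set (Fin (m + 1) → ℂ) :=
  {y | ∃ r₁ r₂ r₃ : Fin (m + 1), r₁ ≤ r₂ ∧ r₂ ≤ r₃ ∧ x ≤ pf_tt_P (y r₁) (y r₂) (y r₃)}

theorem pf_tt_S_meas (m : ℕ) (x : ℝ) : MeasurableSet (pf_tt_S m x) := by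
  have : pf_tt_S m x = ⋃ (r₁ : Fin (m + 1)) (r₂ : Fin (m + 1)) (r₃ : Fin (m + 1))
      (_ : r₁ ≤ r₂ ∧ r₂ ≤ r₃), {y : Fin (m + 1) → ℂ | x ≤ pf_tt_P (y r₁) (y r₂) (y r₃)} := by
    ext y
    simp only [pf_tt_S, mem_ofPred_eq, mem_iUnion, exists_prop]
    constructor
    · rintro ⟨r₁, r₂, r₃, h1, h2, h3⟩
      exact ⟨r₁, r₂, r₃, ⟨h1, h2⟩, h3⟩
    · rintro ⟨r₁, r₂, r₃, ⟨h1, h2⟩, h3⟩
      exact ⟨r₁, r₂, r₃, h1, h2, h3⟩
  rw [this]
  refine MeasurableSet.iUnion fun r₁ => MeasurableSet.iUnion fun r₂ =>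
    MeasurableSet.iUnion fun r₃ => MeasurableSet.iUnion fun _ => ?_
  refine (isClosed_le continuous_const ?_).measurableSet
  unfold pf_tt_P
  fun_prop

theorem pf_tt_grid_meas (m : ℕ) : Measurable (grid m) := by
  apply measurable_pi_lambda
  intro r
  exact (continuous_eval_const (gpt m r)).measurable

/-- the index of a time -/
noncomputable def pf_tt_r (m : ℕ) (t : unitInterval) : Fin (m + 1) :=
  ⟨min ⌊(t : ℝ) * (m + 1)⌋₊ m, by omega⟩

theorem pf_tt_r_mono (m : ℕ) {t t' : unitInterval} (h : t ≤ t') : pf_tt_r m t ≤ pf_tt_r m t' := by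
  show min ⌊(t : ℝ) * (m + 1)⌋₊ m ≤ min ⌊(t' : ℝ) * (m + 1)⌋₊ m
  have h' : (t : ℝ) ≤ t' := h
  have : ⌊(t : ℝ) * (m + 1)⌋₊ ≤ ⌊(t' : ℝ) * (m + 1)⌋₊ :=
    Nat.floor_mono (mul_le_mul_of_nonneg_right h' (by positivity))
  omega

theorem pf_tt_r_dist (m : ℕ) (t : unitInterval) : dist (gpt m (pf_tt_r m t)) t ≤ 1 / ((m : ℝ) + 1) := by
  have hm : (0 : ℝ) < (m : ℝ) + 1 := by positivity
  rw [Subtype.dist_eq, Real.dist_eq]
  show |((min ⌊(t : ℝ) * (m + 1)⌋₊ m : ℕ) : ℝ) / (m + 1) - t| ≤ 1 / ((m : ℝ) + 1)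
  have h1 := Nat.floor_le (a := (t : ℝ) * (m + 1)) (mul_nonneg t.2.1 hm.le)
  have h2 := Nat.lt_floor_add_one ((t : ℝ) * (m + 1))
  have h3 : (t : ℝ) * (m + 1) ≤ m + 1 := by
    have := mul_le_mul_of_nonneg_right t.2.2 hm.le
    linarith
  have h4 : ((min ⌊(t : ℝ) * (m + 1)⌋₊ m : ℕ) : ℝ) = min (⌊(t : ℝ) * (m + 1)⌋₊ : ℝ) m :=
    Nat.cast_min _ _
  rw [h4, abs_le]
  have h5 : min (⌊(t : ℝ) * (m + 1)⌋₊ : ℝ) m ≤ t * (m + 1) := (min_le_left _ _).trans h1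
  have h6 : (t : ℝ) * (m + 1) - 1 ≤ min (⌊(t : ℝ) * (m + 1)⌋₊ : ℝ) m :=
    le_min (by linarith) (by linarith)
  constructor
  · rw [neg_le_sub_iff_le_add, ← sub_le_iff_le_add, ← sub_nonneg]
    have : min (⌊(t : ℝ) * (m + 1)⌋₊ : ℝ) m / (m + 1) - (t - 1 / ((m : ℝ) + 1)) =
        (min (⌊(t : ℝ) * (m + 1)⌋₊ : ℝ) m - (t * (m + 1) - 1)) / (m + 1) := by
      field_simp
    rw [this]
    exact div_nonneg (by linarith) hm.le
  · rw [sub_le_iff_le_add, div_le_iff₀ hm]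
    have : (1 / ((m : ℝ) + 1) + t) * (m + 1) = 1 + t * (m + 1) := by
      field_simp
    rw [this]
    linarith

theorem pf_tt_P_symm (x y z : ℂ) : pf_tt_P x y z = pf_tt_P y x z ∧ pf_tt_P x y z = pf_tt_P x z y ∧
    pf_tt_P x y z = pf_tt_P y z x ∧ pf_tt_P x y z = pf_tt_P z x y ∧ pf_tt_P x y z = pf_tt_P z y x := by
  unfold pf_tt_P
  rw [norm_sub_rev y x, norm_sub_rev x z, norm_sub_rev z y]
  refine ⟨by ring, by ring, by ring, by ring, by ring⟩

theorem pf_tt_sorted {b : Lo} {L : ℝ}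
    (h : ∃ s u v : unitInterval, L ≤ ‖b s - b u‖ + ‖b u - b v‖ + ‖b v - b s‖) :
    ∃ s u v : unitInterval, s ≤ u ∧ u ≤ v ∧ L ≤ pf_tt_P (b s) (b u) (b v) := by
  obtain ⟨s, u, v, h⟩ := h
  have h' : L ≤ pf_tt_P (b s) (b u) (b v) := h
  obtain ⟨e1, e2, e3, e4, e5⟩ := pf_tt_P_symm (b s) (b u) (b v)
  rcases le_total s u with h1 | h1 <;> rcases le_total u v with h2 | h2 <;>
    rcases le_total s v with h3 | h3
  · exact ⟨s, u, v, h1, h2, h'⟩
  · exact ⟨s, u, v, h1, h2, h'⟩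
  · exact ⟨s, v, u, h3, h2, by rwa [← e2]⟩
  · exact ⟨v, s, u, h3, h1, by rwa [← e4]⟩
  · exact ⟨u, s, v, h1, h3, by rwa [← e1]⟩
  · exact ⟨u, v, s, h2, h3, by rwa [← e3]⟩
  · exact ⟨v, u, s, h2, h1, by rwa [← e5]⟩
  · exact ⟨v, u, s, h2, h1, by rwa [← e5]⟩

end tt

theorem pf_tt (h1 : S_mom) : S_tt := by
  intro μ hμ θ h0 h1'
  have hprob := hμ.prob
  obtain ⟨N, δ, C, hN, hδ0, hδ1, hC, hgrid⟩ := pf_tt_grid h0 h1'
  refine ⟨C, fun L hL => ?_⟩
  rcases eq_or_lt_of_le hL with rfl | hL0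
  · refine prob_le_one.trans ?_
    rw [← ENNReal.ofReal_one]
    apply ENNReal.ofReal_le_ofReal
    simpa using hC
  -- the grids
  set m : ℕ → ℕ := fun k => N * (k + 1) - 1 with hm
  have hm1 : ∀ k, m k + 1 = N * (k + 1) := by
    intro k
    have : 0 < N * (k + 1) := Nat.mul_pos hN (Nat.succ_pos k)
    simp only [hm]
    omega
  set A : ℕ → Set Lo := fun k => grid (m k) ⁻¹' (pf_tt_S (m k) ((1 - δ) * L)) with hA
  have hAk : ∀ k, μ (A k) ≤ ENNReal.ofReal (C * Real.exp (-(θ * L ^ 2 / 4))) := by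
    intro k
    have hmeas : Measurable (fun (x : Fin (m k + 1) → ℂ) (r : Fin (m k + 1)) => gm x r) := by
      apply measurable_pi_lambda
      intro r
      exact (G.gm_cont (r : ℕ)).measurable
    have e1 : μ (A k) = PG (1 / (((m k : ℕ) : ℝ) + 1)) (m k + 1)
        ((fun (x : Fin (m k + 1) → ℂ) (r : Fin (m k + 1)) => gm x r) ⁻¹'
          (pf_tt_S (m k) ((1 - δ) * L))) := by
      rw [hA]
      simp only
      rw [← Measure.map_apply (pf_tt_grid_meas (m k)) (pf_tt_S_meas _ _), hμ.marg,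
        Measure.map_apply hmeas (pf_tt_S_meas _ _)]
    rw [e1]
    have hs : (((m k + 1 : ℕ)) : ℝ) * (1 / (((m k : ℕ) : ℝ) + 1)) = 1 := by
      push_cast
      field_simp
    have h2 := hgrid (m k + 1) (k + 1) (1 / (((m k : ℕ) : ℝ) + 1)) L (Nat.succ_pos k) (hm1 k) hs
      (by positivity) hL
    refine (measure_mono ?_).trans h2
    rintro X ⟨r₁, r₂, r₃, h12, h23, h3⟩
    exact ⟨r₁, r₂, r₃, h12, h23, r₃.2, h3⟩
  -- the event is contained in the lower limit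
  have hsub : {b : Lo | ∃ s u v : unitInterval, L ≤ ‖b s - b u‖ + ‖b u - b v‖ + ‖b v - b s‖} ⊆
      ⋃ K : ℕ, ⋂ k ∈ Ici K, A k := by
    intro b hb
    obtain ⟨s, u, v, hsu, huv, hP⟩ := pf_tt_sorted hb
    have hlim : ∀ t : unitInterval, Tendsto (fun k => b (gpt (m k) (pf_tt_r (m k) t))) atTop
        (𝓝 (b t)) := by
      intro t
      refine (b.continuous.tendsto t).comp ?_
      rw [tendsto_iff_dist_tendsto_zero]
      refine squeeze_zero (fun k => dist_nonneg) (fun k => pf_tt_r_dist (m k) t) ?_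
      have h5 : ∀ k : ℕ, 1 / (((m k : ℕ) : ℝ) + 1) ≤ 1 / ((k : ℝ) + 1) := by
        intro k
        apply one_div_le_one_div_of_le (by positivity)
        have h6 : k + 1 ≤ m k + 1 := by
          rw [hm1]
          exact Nat.le_mul_of_pos_left _ hN
        exact_mod_cast h6
      exact squeeze_zero (fun k => by positivity) h5 tendsto_one_div_add_atTop_nhds_zero_nat
    have hlimP : Tendsto (fun k => pf_tt_P (b (gpt (m k) (pf_tt_r (m k) s)))
        (b (gpt (m k) (pf_tt_r (m k) u))) (b (gpt (m k) (pf_tt_r (m k) v)))) atTop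
        (𝓝 (pf_tt_P (b s) (b u) (b v))) := by
      unfold pf_tt_P
      exact ((((hlim s).sub (hlim u)).norm).add (((hlim u).sub (hlim v)).norm)).add
        (((hlim v).sub (hlim s)).norm)
    have hlt : (1 - δ) * L < pf_tt_P (b s) (b u) (b v) := by nlinarith
    obtain ⟨K, hK⟩ := eventually_atTop.1 (hlimP.eventually_const_lt hlt)
    rw [mem_iUnion]
    refine ⟨K, mem_iInter₂.2 fun k hk => ?_⟩
    exact ⟨pf_tt_r (m k) s, pf_tt_r (m k) u, pf_tt_r (m k) v, pf_tt_r_mono _ hsu,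
      pf_tt_r_mono _ huv, (hK k hk).le⟩
  refine (measure_mono hsub).trans ?_
  have hmono : Monotone (fun K : ℕ => ⋂ k ∈ Ici K, A k) := by
    intro K K' h b hb
    rw [mem_iInter₂] at hb ⊢
    intro k hk
    exact hb k (le_trans h hk)
  rw [hmono.measure_iUnion]
  apply iSup_le
  intro K
  refine (measure_mono ?_).trans (hAk K)
  exact biInter_subset_of_mem (mem_Ici.2 le_rfl)

end Pool.Agent.H212AN
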