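import Pool.Agent.H212AN.E1

set_option autoImplicit false

namespace Pool.Agent.H212AN

open MeasureTheory Set Filter Topology Metric
open Pool.Agent.H212AN.G (nG PG gm gk)
open scoped Real ENNReal ComplexConjugate Pointwise

/-- the tube -/
def pf_tube_T (v : ℂ) (δ : ℝ) : Set ℂ := {z | ∃ x : ℝ, 0 ≤ x ∧ x ≤ 1 ∧ ‖z - x * v‖ ≤ δ}

theorem pf_tube_closed (v : ℂ) (δ : ℝ) : IsClosed (pf_tube_T v δ) := by
  have h : pf_tube_T v δ = (fun x : ℝ => (x : ℂ) * v) '' Icc (0 : ℝ) 1 + closedBall (0 : ℂ) δ := by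
    ext z
    rw [Set.mem_add]
    constructor
    · rintro ⟨x, h0, h1, h2⟩
      refine ⟨(x : ℂ) * v, ⟨x, ⟨h0, h1⟩, rfl⟩, z - x * v, ?_, by ring⟩
      rw [mem_closedBall_zero_iff]
      exact h2
    · rintro ⟨a, ⟨x, ⟨h0, h1⟩, rfl⟩, w, hw, rfl⟩
      refine ⟨x, h0, h1, ?_⟩
      rw [mem_closedBall_zero_iff] at hw
      have e : (fun x : ℝ => (x : ℂ) * v) x + w - x * v = w := by
        change (x : ℂ) * v + w - x * v = w
        ring
      rw [e]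
      exact hw
  rw [h]
  refine ((isCompact_Icc.image ?_).add (isCompact_closedBall 0 δ)).isClosed
  fun_prop

/-- the condition on the points -/
def pf_tube_E (v : ℂ) (δ c : ℝ) (m : ℕ) : Set (Fin (m + 1) → ℂ) :=
  {y | (∀ r, (c : ℂ) * y r ∈ pf_tube_T v δ) ∧ ∃ r, ‖(c : ℂ) * y r - v‖ ≤ δ}

theorem pf_tube_E_meas (v : ℂ) (δ c : ℝ) (m : ℕ) : MeasurableSet (pf_tube_E v δ c m) := by
  have h1 : MeasurableSet {y : Fin (m + 1) → ℂ | ∀ r, (c : ℂ) * y r ∈ pf_tube_T v δ} := by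
    rw [ofPred_forall]
    refine MeasurableSet.iInter fun r => ?_
    exact ((pf_tube_closed v δ).preimage
      (show Continuous fun y : Fin (m + 1) → ℂ => (c : ℂ) * y r by fun_prop)).measurableSet
  have h2 : MeasurableSet {y : Fin (m + 1) → ℂ | ∃ r, ‖(c : ℂ) * y r - v‖ ≤ δ} := by
    rw [ofPred_exists]
    refine MeasurableSet.iUnion fun r => ?_
    exact (isClosed_le (show Continuous fun y : Fin (m + 1) → ℂ => ‖(c : ℂ) * y r - v‖ by fun_prop)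
      continuous_const).measurableSet
  exact h1.inter h2

theorem pf_tube_grid_cont (m : ℕ) : Continuous (grid m) := by
  unfold grid
  exact continuous_pi fun r => continuous_eval_const (gpt m r)

theorem pf_tube_grid_meas (m : ℕ) : Measurable (grid m) := (pf_tube_grid_cont m).measurable

theorem pf_tube_gm_meas (m : ℕ) :
    Measurable (fun (x : Fin (m + 1) → ℂ) (r : Fin (m + 1)) => gm x r) :=
  (continuous_pi fun r : Fin (m + 1) => G.gm_cont (r : ℕ)).measurable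

/-- scaling of measures of sets -/
theorem pf_tube_scale {s c : ℝ} (hs : 0 < s) (hc : 0 < c) (M : ℕ) {A : Set (Fin M → ℂ)}
    (hA : MeasurableSet A) :
    PG (c ^ 2 * s) M A = PG s M {x | (fun i => (c : ℂ) * x i) ∈ A} := by
  have h := G.scale_PG hs hc M (F := A.indicator 1) (measurable_one.indicator hA)
  rw [lintegral_indicator_one hA] at h
  rw [h]
  have hB : MeasurableSet {x : Fin M → ℂ | (fun i => (c : ℂ) * x i) ∈ A} := by
    have : Measurable (fun x : Fin M → ℂ => (fun i => (c : ℂ) * x i)) := by fun_prop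
    exact this hA
  rw [← lintegral_indicator_one hB]
  rfl

/-- the event for the points -/
theorem pf_tube_pts {m : ℕ} (v : ℂ) (δ c : ℝ) (x : Fin (m + 1) → ℂ) :
    ((fun r : Fin (m + 1) => gm x r) ∈ pf_tube_E v δ c m) ↔
      ((∀ z ∈ G.pts (fun i => (c : ℂ) * x i), ∃ y : ℝ, 0 ≤ y ∧ y ≤ 1 ∧ ‖z - y * v‖ ≤ δ) ∧
      ∃ z ∈ G.pts (fun i => (c : ℂ) * x i), ‖z - v‖ ≤ δ) := by
  constructor
  · rintro ⟨h1, r, hr⟩
    constructor
    · rintro z ⟨j, hj, rfl⟩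
      have hj' : j < m + 1 := hj
      have := h1 ⟨j, hj'⟩
      rw [G.gm_smul]
      exact this
    · refine ⟨gm (fun i => (c : ℂ) * x i) r, ⟨r, r.2, rfl⟩, ?_⟩
      rw [G.gm_smul]
      exact hr
  · rintro ⟨h1, z, ⟨j, hj, rfl⟩, h2⟩
    have hj' : j < m + 1 := hj
    constructor
    · intro r
      have := h1 (gm (fun i => (c : ℂ) * x i) r) ⟨r, r.2, rfl⟩
      rw [G.gm_smul] at this
      exact this
    · refine ⟨⟨j, hj'⟩, ?_⟩
      rw [G.gm_smul] at h2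
      exact h2

theorem pf_tube_near (m : ℕ) (s : unitInterval) :
    ∃ r : Fin (m + 1), dist s (gpt m r) ≤ 1 / ((m : ℝ) + 1) := by
  have hs0 : (0 : ℝ) ≤ s := s.2.1
  have hs1 : (s : ℝ) ≤ 1 := s.2.2
  have hm : (0 : ℝ) < (m : ℝ) + 1 := by positivity
  have hlt : min ⌊(s : ℝ) * ((m : ℝ) + 1)⌋₊ m < m + 1 := Nat.lt_succ_of_le (min_le_right _ _)
  refine ⟨⟨min ⌊(s : ℝ) * ((m : ℝ) + 1)⌋₊ m, hlt⟩, ?_⟩
  have hle : ((min ⌊(s : ℝ) * ((m : ℝ) + 1)⌋₊ m : ℕ) : ℝ) ≤ (s : ℝ) * ((m : ℝ) + 1) := by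
    have h1 : ((min ⌊(s : ℝ) * ((m : ℝ) + 1)⌋₊ m : ℕ) : ℝ) ≤ (⌊(s : ℝ) * ((m : ℝ) + 1)⌋₊ : ℝ) := by
      exact_mod_cast min_le_left _ _
    exact h1.trans (Nat.floor_le (by positivity))
  have hge : (s : ℝ) * ((m : ℝ) + 1) ≤ ((min ⌊(s : ℝ) * ((m : ℝ) + 1)⌋₊ m : ℕ) : ℝ) + 1 := by
    rcases le_total ⌊(s : ℝ) * ((m : ℝ) + 1)⌋₊ m with h | h
    · rw [min_eq_left h]
      exact (Nat.lt_floor_add_one _).le
    · rw [min_eq_right h]
      nlinarith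
  change |(s : ℝ) - ((min ⌊(s : ℝ) * ((m : ℝ) + 1)⌋₊ m : ℕ) : ℝ) / ((m : ℝ) + 1)| ≤ _
  rw [abs_le]
  constructor
  · rw [neg_le, neg_sub, sub_le_iff_le_add, div_le_iff₀ hm]
    have : (1 / ((m : ℝ) + 1) + (s : ℝ)) * ((m : ℝ) + 1) = 1 + (s : ℝ) * ((m : ℝ) + 1) := by
      field_simp
    rw [this]
    linarith
  · rw [sub_le_iff_le_add, ← add_div, le_div_iff₀ hm]
    linarith

theorem pf_tube (h1 : S_em) : S_tube := by
  intro μ hμ v δ hδ
  obtain ⟨t₀, ht₀, hTB⟩ := G.tb G.fl v δ hδ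
  refine ⟨t₀, ht₀, fun t ht htt => ?_⟩
  have := hμ.prob
  set c : ℝ := √t with hc
  have hc0 : 0 < c := Real.sqrt_pos.mpr ht
  have hc2 : c ^ 2 = t := Real.sq_sqrt ht.le
  set p : ℝ≥0∞ := ENNReal.ofReal (1 / 2 * Real.exp (-((‖v‖ ^ 2 + 2 * ‖v‖ * δ) / t))) with hp
  let A : ℕ → Set Lo := fun k => grid (2 * k + 1) ⁻¹' pf_tube_E v δ c (2 * k + 1)
  have hAm : ∀ k, MeasurableSet (A k) := fun k =>
    pf_tube_grid_meas (2 * k + 1) (pf_tube_E_meas v δ c (2 * k + 1))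
  have hA : ∀ k, p ≤ μ (A k) := by
    intro k
    have hs : (0 : ℝ) < 1 / (((2 * k + 1 : ℕ) : ℝ) + 1) := by positivity
    have e1 : μ (A k) = PG (1 / (((2 * k + 1 : ℕ) : ℝ) + 1)) (2 * k + 1 + 1)
        {x | (fun r : Fin (2 * k + 1 + 1) => gm x r) ∈ pf_tube_E v δ c (2 * k + 1)} := by
      change μ (grid (2 * k + 1) ⁻¹' pf_tube_E v δ c (2 * k + 1)) = _
      rw [← Measure.map_apply (pf_tube_grid_meas _) (pf_tube_E_meas _ _ _ _), hμ.marg,
        Measure.map_apply (pf_tube_gm_meas _) (pf_tube_E_meas _ _ _ _)]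
      rfl
    have hTm : MeasurableSet {X : Fin (2 * k + 1 + 1) → ℂ |
        (∀ z ∈ G.pts X, ∃ x : ℝ, 0 ≤ x ∧ x ≤ 1 ∧ ‖z - x * v‖ ≤ δ) ∧
          ∃ z ∈ G.pts X, ‖z - v‖ ≤ δ} := by
      have e : {X : Fin (2 * k + 1 + 1) → ℂ |
        (∀ z ∈ G.pts X, ∃ x : ℝ, 0 ≤ x ∧ x ≤ 1 ∧ ‖z - x * v‖ ≤ δ) ∧
          ∃ z ∈ G.pts X, ‖z - v‖ ≤ δ} =
          (fun (x : Fin (2 * k + 1 + 1) → ℂ) (r : Fin (2 * k + 1 + 1)) => gm x r) ⁻¹'
            pf_tube_E v δ 1 (2 * k + 1) := by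
        ext X
        have h := pf_tube_pts v δ 1 X
        have e2 : (fun i => ((1 : ℝ) : ℂ) * X i) = X := by
          funext i
          rw [Complex.ofReal_one, one_mul]
        rw [e2] at h
        exact h.symm
      rw [e]
      exact pf_tube_gm_meas _ (pf_tube_E_meas _ _ _ _)
    have e2 := pf_tube_scale hs hc0 (2 * k + 1 + 1) hTm
    rw [e1]
    have e3 : {x : Fin (2 * k + 1 + 1) → ℂ |
        (fun r : Fin (2 * k + 1 + 1) => gm x r) ∈ pf_tube_E v δ c (2 * k + 1)} =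
        {x | (fun i => (c : ℂ) * x i) ∈ {X : Fin (2 * k + 1 + 1) → ℂ |
        (∀ z ∈ G.pts X, ∃ x : ℝ, 0 ≤ x ∧ x ≤ 1 ∧ ‖z - x * v‖ ≤ δ) ∧
          ∃ z ∈ G.pts X, ‖z - v‖ ≤ δ}} := by
      ext x
      exact pf_tube_pts v δ c x
    rw [e3, ← e2, hc2]
    have hK := hTB (k + 1) (t * (1 / (((2 * k + 1 : ℕ) : ℝ) + 1))) (Nat.succ_pos k) (by positivity)
    have e4 : 2 * ((k + 1 : ℕ) : ℝ) * (t * (1 / (((2 * k + 1 : ℕ) : ℝ) + 1))) = t := by
      have : (((2 * k + 1 : ℕ) : ℝ) + 1) = 2 * ((k + 1 : ℕ) : ℝ) := by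
        push_cast
        ring
      rw [this]
      have h0 : (2 * ((k + 1 : ℕ) : ℝ)) ≠ 0 := by positivity
      field_simp
    rw [e4] at hK
    exact hK htt
  let B : ℕ → Set Lo := fun n => ⋃ k ∈ Ici n, A k
  have hBm : ∀ n, MeasurableSet (B n) := fun n =>
    MeasurableSet.biUnion (to_countable _) fun k _ => hAm k
  have hBa : Antitone B := by
    intro n n' hn
    exact biUnion_subset_biUnion_left (Ici_subset_Ici.mpr hn)
  have hBp : ∀ n, p ≤ μ (B n) := fun n =>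
    (hA n).trans (measure_mono (subset_biUnion_of_mem (u := A) (mem_Ici.mpr le_rfl)))
  have hlim := tendsto_measure_iInter_atTop (μ := μ) (fun n => (hBm n).nullMeasurableSet) hBa
    ⟨0, measure_ne_top μ _⟩
  have hI : p ≤ μ (⋂ n, B n) := ge_of_tendsto' hlim hBp
  refine hI.trans (measure_mono ?_)
  intro b hb
  have hb' : ∀ n, ∃ k, n ≤ k ∧ b ∈ A k := by
    intro n
    have := mem_iInter.mp hb n
    obtain ⟨k, hk, hbk⟩ := mem_iUnion₂.mp this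
    exact ⟨k, hk, hbk⟩
  constructor
  · intro s
    have hcl : IsClosed {s' : unitInterval | (c : ℂ) * b s' ∈ pf_tube_T v δ} :=
      (pf_tube_closed v δ).preimage (show Continuous fun s' : unitInterval => (c : ℂ) * b s' by
        fun_prop)
    have hs : s ∈ closure {s' : unitInterval | (c : ℂ) * b s' ∈ pf_tube_T v δ} := by
      rw [Metric.mem_closure_iff]
      intro ε hε
      obtain ⟨n, hn⟩ := exists_nat_one_div_lt hε
      obtain ⟨k, hk, hbk⟩ := hb' n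
      obtain ⟨r, hr⟩ := pf_tube_near (2 * k + 1) s
      refine ⟨gpt (2 * k + 1) r, hbk.1 r, ?_⟩
      refine lt_of_le_of_lt hr (lt_of_le_of_lt ?_ hn)
      apply one_div_le_one_div_of_le (by positivity)
      have : (n : ℝ) ≤ ((2 * k + 1 : ℕ) : ℝ) := by
        exact_mod_cast (by omega : n ≤ 2 * k + 1)
      linarith
    rw [hcl.closure_eq] at hs
    exact hs
  · obtain ⟨k, _, hbk⟩ := hb' 0
    obtain ⟨r, hr⟩ := hbk.2
    exact ⟨gpt (2 * k + 1) r, hr⟩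

end Pool.Agent.H212AN
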