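import Pool.Agent.H212AN.E1

set_option autoImplicit false

namespace Pool.Agent.H212AN

open MeasureTheory Set Filter Topology Metric
open Pool.Agent.H212AN.G (nG PG gm gk)
open scoped Real ENNReal ComplexConjugate

theorem pf_two_symTH (R r : ℝ) (c w₁ w₂ : ℂ) : TH R r c w₁ w₂ = TH R r c w₂ w₁ := by
  unfold TH
  rw [Set.union_comm]

theorem pf_two_symOK (R r : ℝ) (c w₁ w₂ : ℂ) (h : OK2 R r c w₁ w₂) : OK2 R r c w₂ w₁ := by
  obtain ⟨a, b, d, e⟩ := h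
  exact ⟨a, d, b, by rw [dist_comm]; exact e⟩

theorem pf_two_NH (R r : ℝ) (c w₁ w₂ : ℂ) : TH R r c w₁ w₂ = NH 2 R r c ![w₁, w₂] := by
  unfold TH NH
  congr 1
  ext z
  simp only [Set.mem_union, Set.mem_iUnion, Fin.exists_fin_two, Matrix.cons_val_zero,
    Matrix.cons_val_one]

theorem pf_two_img (R r : ℝ) (φ : ℂ ≃ᵢ ℂ) (h0 : φ 0 = 0) (w₁ w₂ : ℂ) :
    φ '' TH R r 0 w₁ w₂ = TH R r 0 (φ w₁) (φ w₂) := by
  unfold TH
  rw [Set.image_sdiff φ.injective, Set.image_union, IsometryEquiv.image_ball,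
    IsometryEquiv.image_closedBall, IsometryEquiv.image_closedBall, h0]

theorem pf_two_ev (h1 : S_zev) (Z : Set ℂ → ℝ → ℝ) (hU : ZUp Z) (hL : ZLo Z)
    (hn : ∀ Q t, 0 ≤ Z Q t) (μ : Measure Lo) (hμ : IsLoop μ) (R r : ℝ) (w₁ w₂ : ℂ)
    (ok : OK2 R r 0 w₁ w₂) (t : ℝ) (ht : 0 < t) :
    4 * π * t * Z (TH R r 0 w₁ w₂) t = (EV μ (TH R r 0 w₁ w₂) t).toReal := by
  obtain ⟨hr, a, b, d⟩ := ok
  rw [pf_two_NH]
  have hR : 0 < R := by
    have := dist_nonneg (x := w₁) (y := (0:ℂ))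
    linarith
  refine ((h1 Z hU hL hn μ hμ 2 0 ![w₁, w₂] R r hr hR ?_ ?_).2 t ht).1
  · intro i
    fin_cases i
    · exact closedBall_subset_ball' (by simpa [add_comm] using a)
    · exact closedBall_subset_ball' (by simpa [add_comm] using b)
  · intro i j hij
    have e1 : Disjoint (closedBall w₁ r) (closedBall w₂ r) :=
      closedBall_disjoint_closedBall (by linarith)
    fin_cases i <;> fin_cases j
    · exact absurd rfl hij
    · exact e1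
    · exact e1.symm
    · exact absurd rfl hij

theorem pf_two_fin (h7 : S_mo) (h8 : S_cg) (Z : Set ℂ → ℝ → ℝ) (hU : ZUp Z) (hL : ZLo Z)
    (hn : ∀ Q t, 0 ≤ Z Q t) (hinv : ∀ (φ : ℂ ≃ᵢ ℂ) (Q : Set ℂ) (t : ℝ), Z (φ '' Q) t = Z Q t)
    (R r : ℝ) (w₁ w₂ w₁' w₂' : ℂ) (ok : OK2 R r 0 w₁ w₂) (ok' : OK2 R r 0 w₁' w₂')
    (hZ : ∀ t : ℝ, 0 < t → Z (TH R r 0 w₁ w₂) t = Z (TH R r 0 w₁' w₂') t)
    (e2 : ‖w₂‖ = ‖w₂'‖) (e : ‖w₁‖ = ‖w₁'‖ ∨ dist w₁ w₂ = dist w₁' w₂') :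
    ∃ φ : ℂ ≃ᵢ ℂ, φ '' TH R r 0 w₁ w₂ = TH R r 0 w₁' w₂' := by
  obtain ⟨ψ, ψ0, -, ψ2⟩ := h8 w₂' w₂' w₂ w₂ e2.symm e2.symm (by simp)
  have d1 : ‖ψ w₁'‖ = ‖w₁'‖ := by
    have := ψ.dist_eq w₁' 0
    rwa [ψ0, dist_zero_right, dist_zero_right] at this
  have d2 : dist (ψ w₁') w₂ = dist w₁' w₂' := by
    have := ψ.dist_eq w₁' w₂'
    rwa [ψ2] at this
  have im := pf_two_img R r ψ ψ0 w₁' w₂'
  rw [ψ2] at im
  have oku : OK2 R r 0 (ψ w₁') w₂ := by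
    obtain ⟨a, b, c, d⟩ := ok
    obtain ⟨a', b', c', d'⟩ := ok'
    refine ⟨a, ?_, c, ?_⟩
    · rw [dist_zero_right, d1, ← dist_zero_right]; exact b'
    · rw [d2]; exact d'
  have hZu : ∀ t : ℝ, 0 < t → Z (TH R r 0 w₁ w₂) t = Z (TH R r 0 (ψ w₁') w₂) t := by
    intro t ht
    rw [hZ t ht, ← im, hinv]
  have m1 := h7 Z hU hL hn hinv R r w₁ w₂ (ψ w₁') ok oku
  have m2 := h7 Z hU hL hn hinv R r (ψ w₁') w₂ w₁ oku ok
  have key : ‖w₁‖ = ‖w₁'‖ ∧ dist w₁ w₂ = dist w₁' w₂' := by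
    rw [← d1, ← d2]
    rw [← d1, ← d2] at e
    rcases e with e | e
    · refine ⟨e, ?_⟩
      rcases lt_trichotomy (dist w₁ w₂) (dist (ψ w₁') w₂) with l | l | l
      · obtain ⟨t, ht, hlt⟩ := m2.1 e l
        exact absurd (hZu t ht) (ne_of_gt hlt)
      · exact l
      · obtain ⟨t, ht, hlt⟩ := m1.1 e.symm l
        exact absurd (hZu t ht) (ne_of_lt hlt)
    · refine ⟨?_, e⟩
      rcases lt_trichotomy ‖w₁‖ ‖ψ w₁'‖ with l | l | l
      · obtain ⟨t, ht, hlt⟩ := m1.2 e.symm l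
        exact absurd (hZu t ht) (ne_of_lt hlt)
      · exact l
      · obtain ⟨t, ht, hlt⟩ := m2.2 e l
        exact absurd (hZu t ht) (ne_of_gt hlt)
  obtain ⟨φ, p0, p1, p2⟩ := h8 w₁ w₂ w₁' w₂' key.1 e2 key.2
  exact ⟨φ, by rw [pf_two_img R r φ p0, p1, p2]⟩

/- PLAIN PROOF.
Take a loop measure μ (S_loop). TH R r 0 w₁ w₂ = NH 2 R r 0 ![w₁, w₂]. By S_zev: 4πtZ = (EV μ …).toReal for both; S_ie (the same V for both) gives for all t > 0
H h t + O o₁ t + O o₂ t - T t = H h' t + O o₁' t + O o₂' t - T' t with H x t = Hp μ r x t, O x t = Op μ R r x t, h = dist w₁ w₂ - 2r, o_i = R - r - ‖w_i‖, T the toReal of Q3. All gaps are positive,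
o_i <= R - r =: m. S_peel (S_Hb, S_Ob, S_T3) gives: (1) {‖w₁‖,‖w₂‖} = {‖w₁'‖,‖w₂'‖} (in one of the two orders), or (2) dist w₁ w₂ = dist w₁' w₂' and ‖w_i‖ = ‖w_j'‖ for some i, j.
TH and OK2 are symmetric in the two holes, so after renaming: (1) ‖w₁‖ = ‖w₁'‖, ‖w₂‖ = ‖w₂'‖; (2) same h and ‖w₂‖ = ‖w₂'‖. In both cases first rotate the second configuration by an isometry z ↦ u z such that
w₂' = w₂ (Z is invariant, OK2 too). In case (1): if dist w₁ w₂ ≠ dist w₁' w₂, the first part of S_mo (in one of the two directions) gives a t with different Z: contradiction; so the three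
distances agree and S_cg gives φ with φ 0 = 0, φ w₁ = w₁', φ w₂ = w₂', so φ '' TH = TH'. In case (2): dist w₁ w₂ = dist w₁' w₂; if ‖w₁‖ ≠ ‖w₁'‖ the second part of S_mo gives a contradiction;
then S_cg again.
-/
theorem pf_two (h1 : S_zev) (h2 : S_ie) (h3 : S_T3) (h4 : S_Hb) (h5 : S_Ob) (h6 : S_peel) (h7 : S_mo) (h8 : S_cg) (h9 : S_loop) : S_two := by
  intro Z hU hL hn hinv R r w₁ w₂ w₁' w₂' ok ok' hZ
  obtain ⟨μ, hμ⟩ := h9
  obtain ⟨V, hV⟩ := h2 μ hμ R r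
  have hr := ok.1
  have b1 := ok.2.1
  have b2 := ok.2.2.1
  have b3 := ok.2.2.2
  have b1' := ok'.2.1
  have b2' := ok'.2.2.1
  have b3' := ok'.2.2.2
  rw [dist_zero_right] at b1 b2 b1' b2'
  have P := h6 (Hp μ r) (Op μ R r) (R - r) (fun x hx => h4 μ hμ r x hr hx)
    (fun x hx hm => h5 μ hμ R r x hr hx hm)
    (dist w₁ w₂ - 2 * r) (R - r - ‖w₁‖) (R - r - ‖w₂‖)
    (dist w₁' w₂' - 2 * r) (R - r - ‖w₁'‖) (R - r - ‖w₂'‖)
    (fun t => (Q3 μ (closedBall w₁ r) (closedBall w₂ r) (ball (0:ℂ) R)ᶜ t).toReal)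
    (fun t => (Q3 μ (closedBall w₁' r) (closedBall w₂' r) (ball (0:ℂ) R)ᶜ t).toReal)
    (by linarith) (by linarith) (by linarith) (by linarith) (by linarith) (by linarith)
    (by have := norm_nonneg w₁; linarith) (by have := norm_nonneg w₂; linarith)
    (by have := norm_nonneg w₁'; linarith) (by have := norm_nonneg w₂'; linarith)
    (fun t => ⟨ENNReal.toReal_nonneg, ENNReal.toReal_nonneg⟩)
    (by
      intro θ h0 h1'
      obtain ⟨C, hC⟩ := h3 μ hμ R r w₁ w₂ ok θ h0 h1'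
      obtain ⟨C', hC'⟩ := h3 μ hμ R r w₁' w₂' ok' θ h0 h1'
      refine ⟨max C C', fun t ht ht1 => ⟨(hC t ht ht1).trans ?_, (hC' t ht ht1).trans ?_⟩⟩
      · exact mul_le_mul_of_nonneg_right (le_max_left _ _) (Real.exp_pos _).le
      · exact mul_le_mul_of_nonneg_right (le_max_right _ _) (Real.exp_pos _).le)
    (by
      intro t ht _
      have e1 := pf_two_ev h1 Z hU hL hn μ hμ R r w₁ w₂ ok t ht
      have e2 := pf_two_ev h1 Z hU hL hn μ hμ R r w₁' w₂' ok' t ht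
      have e3 := (hV w₁ w₂ ok t ht).2
      have e4 := (hV w₁' w₂' ok' t ht).2
      rw [hZ t ht] at e1
      have e5 := e1.symm.trans e2
      rw [e3, e4] at e5
      show Hp μ r (dist w₁ w₂ - 2 * r) t + Op μ R r (R - r - ‖w₁‖) t +
        Op μ R r (R - r - ‖w₂‖) t - (Q3 μ (closedBall w₁ r) (closedBall w₂ r) (ball (0:ℂ) R)ᶜ t).toReal
        = Hp μ r (dist w₁' w₂' - 2 * r) t + Op μ R r (R - r - ‖w₁'‖) t +
        Op μ R r (R - r - ‖w₂'‖) t - (Q3 μ (closedBall w₁' r) (closedBall w₂' r) (ball (0:ℂ) R)ᶜ t).toReal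
      linarith)
  have F := pf_two_fin h7 h8 Z hU hL hn hinv R r
  have s' := pf_two_symTH R r 0 w₂' w₁'
  have s := pf_two_symTH R r 0 w₂ w₁
  have o := pf_two_symOK R r 0 w₁ w₂ ok
  have o' := pf_two_symOK R r 0 w₁' w₂' ok'
  rcases P with ⟨p1, p2⟩ | ⟨p1, p2⟩ | ⟨p0, p | p | p | p⟩
  · exact F w₁ w₂ w₁' w₂' ok ok' hZ (by linarith) (Or.inl (by linarith))
  · have := F w₁ w₂ w₂' w₁' ok o' (by rw [s']; exact hZ) (by linarith) (Or.inl (by linarith))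
    rwa [s'] at this
  · have := F w₂ w₁ w₂' w₁' o o' (by rw [s', s]; exact hZ) (by linarith)
      (Or.inr (by rw [dist_comm w₂, dist_comm w₂']; linarith))
    rwa [s', s] at this
  · have := F w₂ w₁ w₁' w₂' o ok' (by rw [s]; exact hZ) (by linarith)
      (Or.inr (by rw [dist_comm w₂]; linarith))
    rwa [s] at this
  · have := F w₁ w₂ w₂' w₁' ok o' (by rw [s']; exact hZ) (by linarith)
      (Or.inr (by rw [dist_comm w₂']; linarith))
    rwa [s'] at this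
  · exact F w₁ w₂ w₁' w₂' ok ok' hZ (by linarith) (Or.inr (by linarith))

end Pool.Agent.H212AN
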