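import Pool.Agent.H212AN.E1

set_option autoImplicit false

namespace Pool.Agent.H212AN

open MeasureTheory Set Filter Topology Metric
open Pool.Agent.H212AN.G (nG PG gm gk)
open scoped Real ENNReal ComplexConjugate

/-- the paths with an inscribed triangle of large perimeter -/
def pf_upS (L : ℝ) : Set Lo :=
  {b : Lo | ∃ s u v : unitInterval, L ≤ ‖b s - b u‖ + ‖b u - b v‖ + ‖b v - b s‖}

/-- the area of the disc of radius `|ρ| + ‖b‖` -/
noncomputable def pf_upG (ρ : ℝ) (b : Lo) : ℝ := π * (|ρ| + ‖b‖) ^ 2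

theorem pf_up_G_nonneg (ρ : ℝ) (b : Lo) : 0 ≤ pf_upG ρ b := by
  unfold pf_upG
  positivity

theorem pf_up_mom (h3 : S_mom) (μ : Measure Lo) (hμ : IsLoop μ) (ρ : ℝ) (n : ℕ) :
    ∃ e : ℝ, 0 ≤ e ∧ ∫⁻ b, ENNReal.ofReal (pf_upG ρ b ^ n) ∂μ ≤ ENNReal.ofReal e := by
  have := hμ.prob
  have hint : Integrable (fun b : Lo => π ^ n * (2 ^ (2 * n - 1) * (|ρ| ^ (2 * n) + ‖b‖ ^ (2 * n)))) μ :=
    (((integrable_const _).add (h3 μ hμ (2 * n))).const_mul _).const_mul _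
  refine ⟨∫ b, π ^ n * (2 ^ (2 * n - 1) * (|ρ| ^ (2 * n) + ‖b‖ ^ (2 * n))) ∂μ,
    integral_nonneg fun b => by positivity, ?_⟩
  rw [ofReal_integral_eq_lintegral_ofReal hint (Eventually.of_forall fun b => by positivity)]
  refine lintegral_mono fun b => ENNReal.ofReal_le_ofReal ?_
  unfold pf_upG
  rw [mul_pow, ← pow_mul]
  refine mul_le_mul_of_nonneg_left ?_ (by positivity)
  exact add_pow_le (abs_nonneg _) (norm_nonneg _) _

/-- the general bound -/
theorem pf_up_main (h1 : S_tt) (h3 : S_mom) (μ : Measure Lo) (hμ : IsLoop μ) (ρ θ : ℝ) (hθ0 : 0 < θ)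
    (hθ1 : θ < 1) (l : ℝ) (hl : 0 ≤ l) : ∃ M : ℝ, ∀ t : ℝ, 0 < t → t ≤ 1 → ∀ Z : Lo → Set ℂ,
    (∀ b, (Z b).Nonempty → b ∈ pf_upS (l / √t)) → (∀ b, Z b ⊆ ball 0 (|ρ| + ‖b‖)) →
    ∫⁻ b, volume (Z b) ∂μ ≤ ENNReal.ofReal (M * Real.exp (-(θ * l ^ 2 / (4 * t)))) := by
  have := hμ.prob
  obtain ⟨n, hn⟩ := exists_nat_one_div_lt (show (0:ℝ) < (1 - θ) / 2 by linarith)
  obtain ⟨C, hC⟩ := h1 μ hμ ((1 + θ) / 2) (by linarith) (by linarith)
  obtain ⟨e, he0, he⟩ := pf_up_mom h3 μ hμ ρ (n + 1)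
  refine ⟨|C| + e, ?_⟩
  intro t ht0 ht1 Z hZ hZb
  set L : ℝ := l / √t with hL
  have hL0 : 0 ≤ L := by positivity
  have hLsq : L ^ 2 = l ^ 2 / t := by
    rw [hL, div_pow, Real.sq_sqrt ht0.le]
  set θ' : ℝ := (1 + θ) / 2 with hθ'
  set a : ℝ := Real.exp (θ' * L ^ 2 / 4 / (n + 1)) with ha
  have ha0 : 0 < a := Real.exp_pos _
  have hn1 : (0:ℝ) < (n:ℝ) + 1 := by positivity
  -- comparison of the exponents
  have hexp : Real.exp (-(θ' * L ^ 2 / 4 - θ' * L ^ 2 / 4 / (n + 1))) ≤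
      Real.exp (-(θ * l ^ 2 / (4 * t))) := by
    rw [Real.exp_le_exp, neg_le_neg_iff]
    have e1 : θ * l ^ 2 / (4 * t) = θ * (L ^ 2 / 4) := by
      rw [hLsq]
      field_simp
    have e2 : θ' * L ^ 2 / 4 - θ' * L ^ 2 / 4 / (n + 1) = (θ' - θ' * (1 / (n + 1))) * (L ^ 2 / 4) := by
      ring
    rw [e1, e2]
    refine mul_le_mul_of_nonneg_right ?_ (by positivity)
    have h5 : θ' * (1 / ((n:ℝ) + 1)) ≤ 1 * (1 / ((n:ℝ) + 1)) :=
      mul_le_mul_of_nonneg_right (by rw [hθ']; linarith) (by positivity)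
    linarith
  set S' : Set Lo := toMeasurable μ (pf_upS L) with hS'
  have hS'm : MeasurableSet S' := measurableSet_toMeasurable _ _
  have hμS' : μ S' ≤ ENNReal.ofReal (C * Real.exp (-(θ' * L ^ 2 / 4))) := by
    rw [hS', measure_toMeasurable]
    exact hC L hL0
  have hpt : ∀ b, volume (Z b) ≤ S'.indicator (fun _ => ENNReal.ofReal a) b +
      ENNReal.ofReal ((a ^ n)⁻¹) * ENNReal.ofReal (pf_upG ρ b ^ (n + 1)) := by
    intro b
    by_cases hb : (Z b).Nonempty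
    · have hbS : b ∈ S' := subset_toMeasurable _ _ (hZ b hb)
      rw [indicator_of_mem hbS, ← ENNReal.ofReal_mul (by positivity),
        ← ENNReal.ofReal_add ha0.le (mul_nonneg (by positivity) (pow_nonneg (pf_up_G_nonneg ρ b) _))]
      have hv : volume (Z b) ≤ ENNReal.ofReal (pf_upG ρ b) := by
        refine (measure_mono (hZb b)).trans (le_of_eq ?_)
        rw [Complex.volume_ball]
        unfold pf_upG
        rw [mul_comm π, ENNReal.ofReal_mul (by positivity), ENNReal.ofReal_pow (by positivity)]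
        congr 1
        rw [ENNReal.ofReal]
        congr 1
        ext
        simp [Real.pi_nonneg]
      refine hv.trans (ENNReal.ofReal_le_ofReal ?_)
      rcases le_or_gt (pf_upG ρ b) a with h | h
      · have : 0 ≤ (a ^ n)⁻¹ * pf_upG ρ b ^ (n + 1) :=
          mul_nonneg (by positivity) (pow_nonneg (pf_up_G_nonneg ρ b) _)
        linarith
      · have h6 : pf_upG ρ b ≤ (a ^ n)⁻¹ * pf_upG ρ b ^ (n + 1) := by
          rw [inv_mul_eq_div, le_div_iff₀ (by positivity), pow_succ, mul_comm]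
          exact mul_le_mul_of_nonneg_right (pow_le_pow_left₀ ha0.le h.le n) (pf_up_G_nonneg ρ b)
        linarith
    · rw [Set.not_nonempty_iff_eq_empty.1 hb, measure_empty]
      exact zero_le
  calc ∫⁻ b, volume (Z b) ∂μ ≤ ∫⁻ b, (S'.indicator (fun _ => ENNReal.ofReal a) b +
      ENNReal.ofReal ((a ^ n)⁻¹) * ENNReal.ofReal (pf_upG ρ b ^ (n + 1))) ∂μ := lintegral_mono hpt
    _ = ENNReal.ofReal a * μ S' +
        ENNReal.ofReal ((a ^ n)⁻¹) * ∫⁻ b, ENNReal.ofReal (pf_upG ρ b ^ (n + 1)) ∂μ := by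
        rw [lintegral_add_left (measurable_const.indicator hS'm), lintegral_indicator_const hS'm,
          lintegral_const_mul' _ _ ENNReal.ofReal_ne_top]
    _ ≤ ENNReal.ofReal a * ENNReal.ofReal (|C| * Real.exp (-(θ' * L ^ 2 / 4))) +
        ENNReal.ofReal ((a ^ n)⁻¹) * ENNReal.ofReal e := by
        refine add_le_add (mul_le_mul_right (hμS'.trans (ENNReal.ofReal_le_ofReal ?_)) _)
          (mul_le_mul_right he _)
        exact mul_le_mul_of_nonneg_right (le_abs_self _) (Real.exp_pos _).le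
    _ = ENNReal.ofReal ((|C| + e) * Real.exp (-(θ' * L ^ 2 / 4 - θ' * L ^ 2 / 4 / (n + 1)))) := by
        rw [← ENNReal.ofReal_mul ha0.le, ← ENNReal.ofReal_mul (by positivity),
          ← ENNReal.ofReal_add (by positivity) (by positivity)]
        congr 1
        have h7 : a * Real.exp (-(θ' * L ^ 2 / 4)) =
            Real.exp (-(θ' * L ^ 2 / 4 - θ' * L ^ 2 / 4 / (n + 1))) := by
          rw [ha, ← Real.exp_add]
          congr 1
          ring
        have h8 : (a ^ n)⁻¹ = Real.exp (-(θ' * L ^ 2 / 4 - θ' * L ^ 2 / 4 / (n + 1))) := by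
          rw [ha, ← Real.exp_nat_mul, ← Real.exp_neg]
          congr 1
          field_simp
          ring
        rw [h8, ← h7]
        ring
    _ ≤ _ := ENNReal.ofReal_le_ofReal (mul_le_mul_of_nonneg_left hexp (by positivity))

theorem pf_up (h1 : S_tt) (h2 : S_end) (h3 : S_mom) : S_up := by
  intro μ hμ A B C ρ θ hA hB hC hAρ hθ0 hθ1
  have hball : ∀ t : ℝ, 0 < t → t ≤ 1 → ∀ (b : Lo) (z : ℂ), hit A t b z → z ∈ ball (0:ℂ) (|ρ| + ‖b‖) := by
    intro t ht0 ht1 b z hz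
    obtain ⟨s, hs⟩ := hz
    have h4 := hAρ hs
    rw [mem_ball, dist_zero_right] at h4 ⊢
    have h5 : ‖(√t : ℂ) * b s‖ ≤ ‖b‖ := by
      rw [norm_mul, Complex.norm_real, Real.norm_of_nonneg (Real.sqrt_nonneg _)]
      have h6 : √t ≤ 1 := by
        rw [Real.sqrt_le_left (by norm_num)]
        linarith
      calc √t * ‖b s‖ ≤ 1 * ‖b‖ := mul_le_mul h6 (b.norm_coe_le_norm s) (norm_nonneg _) zero_le_one
        _ = ‖b‖ := one_mul _
    have h7 : ‖z‖ ≤ ‖z + (√t : ℂ) * b s‖ + ‖(√t : ℂ) * b s‖ := by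
      have := norm_sub_le (z + (√t : ℂ) * b s) ((√t : ℂ) * b s)
      rwa [add_sub_cancel_right] at this
    have h8 := le_abs_self ρ
    linarith
  have hdist : ∀ t : ℝ, 0 < t → ∀ (b : Lo) (z : ℂ) (s u : unitInterval),
      dist (z + (√t : ℂ) * b s) (z + (√t : ℂ) * b u) = √t * ‖b s - b u‖ := by
    intro t ht0 b z s u
    rw [dist_eq_norm, add_sub_add_left_eq_sub, ← mul_sub, norm_mul, Complex.norm_real,
      Real.norm_of_nonneg (Real.sqrt_nonneg _)]
  refine ⟨?_, ?_⟩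
  · intro d hd hAB
    obtain ⟨M, hM⟩ := pf_up_main h1 h3 μ hμ ρ θ hθ0 hθ1 (2 * d) (by linarith)
    refine ⟨M, fun t ht0 ht1 => ?_⟩
    have h4 := hM t ht0 ht1 (fun b => {z : ℂ | hit A t b z ∧ hit B t b z}) ?_ ?_
    · have e : θ * (2 * d) ^ 2 / (4 * t) = θ * d ^ 2 / t := by
        field_simp
        ring
      rw [e] at h4
      exact h4
    · rintro b ⟨z, ⟨s, hs⟩, ⟨u, hu⟩⟩
      refine ⟨s, u, s, ?_⟩
      have h5 := hAB _ hs _ hu
      rw [hdist t ht0] at h5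
      rw [sub_self, norm_zero, add_zero, norm_sub_rev (b u) (b s), div_le_iff₀ (Real.sqrt_pos.2 ht0)]
      linarith
    · rintro b z ⟨hz, -⟩
      exact hball t ht0 ht1 b z hz
  · intro l hl hABC
    obtain ⟨M, hM⟩ := pf_up_main h1 h3 μ hμ ρ θ hθ0 hθ1 l hl.le
    refine ⟨M, fun t ht0 ht1 => ?_⟩
    refine hM t ht0 ht1 (fun b => {z : ℂ | hit A t b z ∧ hit B t b z ∧ hit C t b z}) ?_ ?_
    · rintro b ⟨z, ⟨s, hs⟩, ⟨u, hu⟩, ⟨v, hv⟩⟩
      refine ⟨s, u, v, ?_⟩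
      have h5 := hABC _ hs _ hu _ hv
      rw [hdist t ht0, hdist t ht0, hdist t ht0] at h5
      rw [div_le_iff₀ (Real.sqrt_pos.2 ht0)]
      linarith
    · rintro b z ⟨hz, -⟩
      exact hball t ht0 ht1 b z hz

end Pool.Agent.H212AN
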