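import Pool.Agent.H212AN.D4

set_option autoImplicit false

/-!
# Project H212AN, second part: discs with two equal circular holes
Loops which meet several obstacles.
-/

namespace Pool.Agent.H212AN

open MeasureTheory Set Filter Topology Metric
open Pool.Agent.H212AN.G (nG PG gm gk)
open scoped Real ENNReal ComplexConjugate

/-- the loop, scaled by `√t` and moved by `z`, meets `X` -/
def hit (X : Set ℂ) (t : ℝ) (b : Lo) (z : ℂ) : Prop := ∃ s : unitInterval, z + (√t : ℂ) * b s ∈ X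

/-- expected area of the set of positions for which the loop meets `A` and `B` -/
noncomputable def Q2 (μ : Measure Lo) (A B : Set ℂ) (t : ℝ) : ℝ≥0∞ :=
  ∫⁻ b, volume {z : ℂ | hit A t b z ∧ hit B t b z} ∂μ

/-- the same for three sets -/
noncomputable def Q3 (μ : Measure Lo) (A B C : Set ℂ) (t : ℝ) : ℝ≥0∞ :=
  ∫⁻ b, volume {z : ℂ | hit A t b z ∧ hit B t b z ∧ hit C t b z} ∂μ

/-- the loop meets `A` and `B` and avoids `C` -/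
noncomputable def Qn (μ : Measure Lo) (A B C : Set ℂ) (t : ℝ) : ℝ≥0∞ :=
  ∫⁻ b, volume {z : ℂ | hit A t b z ∧ hit B t b z ∧ ¬ hit C t b z} ∂μ

/-- tails of the perimeter of the inscribed triangles -/
def S_tt : Prop := ∀ μ : Measure Lo, IsLoop μ → ∀ θ : ℝ, 0 < θ → θ < 1 → ∃ C : ℝ, ∀ L : ℝ, 0 ≤ L →
  μ {b : Lo | ∃ s u v : unitInterval, L ≤ ‖b s - b u‖ + ‖b u - b v‖ + ‖b v - b s‖} ≤
    ENNReal.ofReal (C * Real.exp (-(θ * L ^ 2 / 4)))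

/-- upper bounds for two and for three obstacles -/
def S_up : Prop := ∀ μ : Measure Lo, IsLoop μ → ∀ (A B C : Set ℂ) (ρ θ : ℝ), IsClosed A →
  IsClosed B → IsClosed C → A ⊆ ball 0 ρ → 0 < θ → θ < 1 →
  (∀ d : ℝ, 0 < d → (∀ a ∈ A, ∀ b ∈ B, d ≤ dist a b) → ∃ M : ℝ, ∀ t : ℝ, 0 < t → t ≤ 1 →
    Q2 μ A B t ≤ ENNReal.ofReal (M * Real.exp (-(θ * d ^ 2 / t)))) ∧
  (∀ l : ℝ, 0 < l → (∀ a ∈ A, ∀ b ∈ B, ∀ c ∈ C, l ≤ dist a b + dist b c + dist c a) →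
    ∃ M : ℝ, ∀ t : ℝ, 0 < t → t ≤ 1 →
      Q3 μ A B C t ≤ ENNReal.ofReal (M * Real.exp (-(θ * l ^ 2 / (4 * t)))))

/-- the loop follows the segment from `0` to `v` and back -/
def S_tube : Prop := ∀ μ : Measure Lo, IsLoop μ → ∀ (v : ℂ) (δ : ℝ), 0 < δ → ∃ t₀ : ℝ, 0 < t₀ ∧
  ∀ t : ℝ, 0 < t → t < t₀ →
    ENNReal.ofReal (1 / 2 * Real.exp (-((‖v‖ ^ 2 + 2 * ‖v‖ * δ) / t))) ≤
      μ {b : Lo | (∀ s, ∃ x : ℝ, 0 ≤ x ∧ x ≤ 1 ∧ ‖(√t : ℂ) * b s - x * v‖ ≤ δ) ∧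
        ∃ s, ‖(√t : ℂ) * b s - v‖ ≤ δ}

/-- lower bound for loops which meet two sets and avoid a third one -/
def S_low : Prop := ∀ μ : Measure Lo, IsLoop μ → ∀ (A B C : Set ℂ) (a b : ℂ) (ρ ε : ℝ), 0 < ρ →
  0 < ε → ball a ρ ⊆ A → ball b ρ ⊆ B →
  (∀ x : ℝ, 0 ≤ x → x ≤ 1 → Disjoint (ball (a + x * (b - a)) ρ) C) →
  ∃ c t₀ : ℝ, 0 < c ∧ 0 < t₀ ∧ ∀ t : ℝ, 0 < t → t < t₀ →
    ENNReal.ofReal (c * Real.exp (-((‖b - a‖ ^ 2 + ε) / t))) ≤ Qn μ A B C t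

/-- invariance under rigid motions -/
def S_qinv : Prop := ∀ μ : Measure Lo, IsLoop μ → ∀ (A B : Set ℂ) (u v : ℂ) (t : ℝ), IsClosed A →
  IsClosed B → ‖u‖ = 1 → 0 < t →
  Q2 μ ((fun z => u * z + v) '' A) ((fun z => u * z + v) '' B) t = Q2 μ A B t

/-- two discs of radius `r` at distance `x` -/
noncomputable def Hp (μ : Measure Lo) (r x t : ℝ) : ℝ :=
  (Q2 μ (closedBall 0 r) (closedBall ((x + 2 * r : ℝ) : ℂ) r) t).toReal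

/-- a disc of radius `r` at distance `x` from the outer circle of radius `R` -/
noncomputable def Op (μ : Measure Lo) (R r x t : ℝ) : ℝ :=
  (Q2 μ (closedBall ((R - r - x : ℝ) : ℂ) r) (ball (0:ℂ) R)ᶜ t).toReal

/-- bounds for two holes -/
def S_Hb : Prop := ∀ μ : Measure Lo, IsLoop μ → ∀ r x : ℝ, 0 < r → 0 < x →
  (∀ θ : ℝ, 0 < θ → θ < 1 → ∃ C : ℝ, ∀ t : ℝ, 0 < t → t ≤ 1 →
    Hp μ r x t ≤ C * Real.exp (-(θ * x ^ 2 / t))) ∧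
  (∀ ε : ℝ, 0 < ε → ∃ c t₀ : ℝ, 0 < c ∧ 0 < t₀ ∧ ∀ t : ℝ, 0 < t → t < t₀ →
    c * Real.exp (-((x ^ 2 + ε) / t)) ≤ Hp μ r x t)

/-- bounds for a hole and the outer circle, comparison with two holes -/
def S_Ob : Prop := ∀ μ : Measure Lo, IsLoop μ → ∀ R r x : ℝ, 0 < r → 0 < x → x ≤ R - r →
  (∀ θ : ℝ, 0 < θ → θ < 1 → ∃ C : ℝ, ∀ t : ℝ, 0 < t → t ≤ 1 →
    Op μ R r x t ≤ C * Real.exp (-(θ * x ^ 2 / t))) ∧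
  (∀ ε : ℝ, 0 < ε → ∃ c t₀ : ℝ, 0 < c ∧ 0 < t₀ ∧ ∀ t : ℝ, 0 < t → t < t₀ →
    c * Real.exp (-((x ^ 2 + ε) / t)) ≤ Op μ R r x t - Hp μ r x t)

/-- the disc of radius `R` and centre `c` with two holes of radius `r` -/
def TH (R r : ℝ) (c w₁ w₂ : ℂ) : Set ℂ := ball c R \ (closedBall w₁ r ∪ closedBall w₂ r)

/-- the holes are disjoint and lie inside the disc -/
def OK2 (R r : ℝ) (c w₁ w₂ : ℂ) : Prop := 0 < r ∧ dist w₁ c + r < R ∧ dist w₂ c + r < R ∧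
  2 * r < dist w₁ w₂

/-- inclusion and exclusion -/
def S_ie : Prop := ∀ μ : Measure Lo, IsLoop μ → ∀ R r : ℝ, ∃ V : ℝ → ℝ, ∀ w₁ w₂ : ℂ,
  OK2 R r 0 w₁ w₂ → ∀ t : ℝ, 0 < t → EV μ (TH R r 0 w₁ w₂) t ≠ ∞ ∧
    (EV μ (TH R r 0 w₁ w₂) t).toReal = V t + Hp μ r (dist w₁ w₂ - 2 * r) t +
      Op μ R r (R - r - ‖w₁‖) t + Op μ R r (R - r - ‖w₂‖) t -
      (Q3 μ (closedBall w₁ r) (closedBall w₂ r) (ball (0:ℂ) R)ᶜ t).toReal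

/-- loops which meet both holes and the outer circle -/
def S_T3 : Prop := ∀ μ : Measure Lo, IsLoop μ → ∀ (R r : ℝ) (w₁ w₂ : ℂ), OK2 R r 0 w₁ w₂ →
  ∀ θ : ℝ, 0 < θ → θ < 1 → ∃ C : ℝ, ∀ t : ℝ, 0 < t → t ≤ 1 →
    (Q3 μ (closedBall w₁ r) (closedBall w₂ r) (ball (0:ℂ) R)ᶜ t).toReal ≤
      C * Real.exp (-(θ * ((dist w₁ w₂ - 2 * r) + (R - r - ‖w₁‖) + (R - r - ‖w₂‖)) ^ 2 / (4 * t)))

/-- at least two of the three distances, with their types, are determined -/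
def S_peel : Prop := ∀ (H O : ℝ → ℝ → ℝ) (m : ℝ),
  (∀ x : ℝ, 0 < x →
    (∀ θ : ℝ, 0 < θ → θ < 1 → ∃ C : ℝ, ∀ t : ℝ, 0 < t → t ≤ 1 →
      H x t ≤ C * Real.exp (-(θ * x ^ 2 / t))) ∧
    (∀ ε : ℝ, 0 < ε → ∃ c t₀ : ℝ, 0 < c ∧ 0 < t₀ ∧ ∀ t : ℝ, 0 < t → t < t₀ →
      c * Real.exp (-((x ^ 2 + ε) / t)) ≤ H x t)) →
  (∀ x : ℝ, 0 < x → x ≤ m →
    (∀ θ : ℝ, 0 < θ → θ < 1 → ∃ C : ℝ, ∀ t : ℝ, 0 < t → t ≤ 1 →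
      O x t ≤ C * Real.exp (-(θ * x ^ 2 / t))) ∧
    (∀ ε : ℝ, 0 < ε → ∃ c t₀ : ℝ, 0 < c ∧ 0 < t₀ ∧ ∀ t : ℝ, 0 < t → t < t₀ →
      c * Real.exp (-((x ^ 2 + ε) / t)) ≤ O x t - H x t)) →
  ∀ (h o₁ o₂ h' o₁' o₂' : ℝ) (T T' : ℝ → ℝ), 0 < h → 0 < o₁ → 0 < o₂ → 0 < h' → 0 < o₁' →
  0 < o₂' → o₁ ≤ m → o₂ ≤ m → o₁' ≤ m → o₂' ≤ m → (∀ t, 0 ≤ T t ∧ 0 ≤ T' t) →
  (∀ θ : ℝ, 0 < θ → θ < 1 → ∃ C : ℝ, ∀ t : ℝ, 0 < t → t ≤ 1 →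
    T t ≤ C * Real.exp (-(θ * (h + o₁ + o₂) ^ 2 / (4 * t))) ∧
    T' t ≤ C * Real.exp (-(θ * (h' + o₁' + o₂') ^ 2 / (4 * t)))) →
  (∀ t : ℝ, 0 < t → t ≤ 1 → H h t + O o₁ t + O o₂ t - T t = H h' t + O o₁' t + O o₂' t - T' t) →
  (o₁ = o₁' ∧ o₂ = o₂') ∨ (o₁ = o₂' ∧ o₂ = o₁') ∨
    (h = h' ∧ (o₁ = o₁' ∨ o₁ = o₂' ∨ o₂ = o₁' ∨ o₂ = o₂'))

/-- the disc with `n` holes -/
def NH (n : ℕ) (R r : ℝ) (c : ℂ) (w : Fin n → ℂ) : Set ℂ := ball c R \ ⋃ i, closedBall (w i) r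

/-- level sets of the distance are null sets, `n` holes -/
def S_nln : Prop := ∀ (n : ℕ) (K : Set ℂ) (c : ℂ) (w : Fin n → ℂ) (R r : ℝ), IsCompact K →
  K.Nonempty → 0 < r → (∀ i, closedBall (w i) r ⊆ ball c R) →
  (∀ i j, i ≠ j → Disjoint (closedBall (w i) r) (closedBall (w j) r)) →
  volume ({z | ∀ k ∈ K, z + k ∈ closure (NH n R r c w)} \ {z | ∀ k ∈ K, z + k ∈ NH n R r c w}) = 0

/-- for discs with holes the two expectations agree with the heat trace -/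
def S_zev : Prop := ∀ Z : Set ℂ → ℝ → ℝ, ZUp Z → ZLo Z → (∀ Q t, 0 ≤ Z Q t) →
  ∀ μ : Measure Lo, IsLoop μ → ∀ (n : ℕ) (c : ℂ) (w : Fin n → ℂ) (R r : ℝ), 0 < r → 0 < R →
  (∀ i, closedBall (w i) r ⊆ ball c R) →
  (∀ i j, i ≠ j → Disjoint (closedBall (w i) r) (closedBall (w j) r)) →
  (NH n R r c w).Nonempty ∧
  ∀ t : ℝ, 0 < t → 4 * π * t * Z (NH n R r c w) t = (EV μ (NH n R r c w) t).toReal ∧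
    EV μ (NH n R r c w) t ≠ ∞

/-- two discs with `n` holes differ by less than any power of `t` -/
def S_small : Prop := ∀ μ : Measure Lo, IsLoop μ → ∀ (n : ℕ) (c c' : ℂ) (w w' : Fin n → ℂ)
  (R r : ℝ), 0 < r → (∀ i, closedBall (w i) r ⊆ ball c R) →
  (∀ i j, i ≠ j → Disjoint (closedBall (w i) r) (closedBall (w j) r)) →
  (∀ i, closedBall (w' i) r ⊆ ball c' R) →
  (∀ i j, i ≠ j → Disjoint (closedBall (w' i) r) (closedBall (w' j) r)) →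
  ∀ N : ℕ, ∃ C : ℝ, ∀ t : ℝ, 0 < t → t < 1 →
    |(EV μ (NH n R r c w) t).toReal - (EV μ (NH n R r c' w') t).toReal| ≤ C * t ^ N

/-- special points for the strict inequality: the loops from `p` to `p + v` -/
def Vis (D D' : Set ℂ) : Prop := ∃ (p v : ℂ) (η δ : ℝ), 0 < η ∧ 0 < δ ∧
  ∀ z ∈ ball p η, ∀ q : ℂ,
    ((∃ x : ℝ, 0 ≤ x ∧ x ≤ 1 ∧ ‖q - x * v‖ ≤ η) → δ < (z + q).im ∧ z + q ∈ D') ∧
    z ∉ D ∧ (‖q - v‖ ≤ η → z + q ∈ D ∧ conj (z + q) ∉ D)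

/-- a positive amount of loops makes the difference -/
def S_visg : Prop := ∀ D D' : Set ℂ, IsOpen D → IsOpen D' → Bornology.IsBounded D →
  Bornology.IsBounded D' → Pol D D' → Vis D D' →
  ∃ t : ℝ, 0 < t ∧ ∃ ε : ℝ, 0 < ε ∧ ∀ᶠ K : ℕ in atTop,
    EM D t (2 * K + 1) + ENNReal.ofReal ε ≤ EM D' t (2 * K + 1)

/-- geometry: moving the hole `w₁` to its mirror image -/
def S_gp2 : Prop := ∀ (R r : ℝ) (c w₁ w₂ : ℂ), OK2 R r c w₁ w₂ → OK2 R r c (conj w₁) w₂ →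
  0 ≤ c.im → 0 < w₁.im → w₂.im ≤ 0 → (w₂.im < 0 ∨ 0 < c.im) →
  Pol (TH R r c w₁ w₂) (TH R r c (conj w₁) w₂) ∧ Vis (TH R r c w₁ w₂) (TH R r c (conj w₁) w₂)

/-- strict inequality -/
def S_obs2 : Prop := ∀ Z : Set ℂ → ℝ → ℝ, ZUp Z → ZLo Z → (∀ Q t, 0 ≤ Z Q t) →
  ∀ (R r : ℝ) (c w₁ w₂ : ℂ), OK2 R r c w₁ w₂ → OK2 R r c (conj w₁) w₂ →
  0 ≤ c.im → 0 < w₁.im → w₂.im ≤ 0 → (w₂.im < 0 ∨ 0 < c.im) →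
  ∃ t : ℝ, 0 < t ∧ Z (TH R r c w₁ w₂) t < Z (TH R r c (conj w₁) w₂) t

/-- strict monotonicity in the distances -/
def S_mo : Prop := ∀ Z : Set ℂ → ℝ → ℝ, ZUp Z → ZLo Z → (∀ Q t, 0 ≤ Z Q t) →
  (∀ (φ : ℂ ≃ᵢ ℂ) (Q : Set ℂ) (t : ℝ), Z (φ '' Q) t = Z Q t) →
  ∀ (R r : ℝ) (w₁ w₂ w₁' : ℂ), OK2 R r 0 w₁ w₂ → OK2 R r 0 w₁' w₂ →
  (‖w₁'‖ = ‖w₁‖ → dist w₁' w₂ < dist w₁ w₂ →
    ∃ t : ℝ, 0 < t ∧ Z (TH R r 0 w₁ w₂) t < Z (TH R r 0 w₁' w₂) t) ∧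
  (dist w₁' w₂ = dist w₁ w₂ → ‖w₁‖ < ‖w₁'‖ →
    ∃ t : ℝ, 0 < t ∧ Z (TH R r 0 w₁ w₂) t < Z (TH R r 0 w₁' w₂) t)

/-- congruence of configurations -/
def S_cg : Prop := ∀ w₁ w₂ w₁' w₂' : ℂ, ‖w₁‖ = ‖w₁'‖ → ‖w₂‖ = ‖w₂'‖ →
  dist w₁ w₂ = dist w₁' w₂' → ∃ φ : ℂ ≃ᵢ ℂ, φ 0 = 0 ∧ φ w₁ = w₁' ∧ φ w₂ = w₂'

/-- the two holes are determined by the heat trace -/
def S_two : Prop := ∀ Z : Set ℂ → ℝ → ℝ, ZUp Z → ZLo Z → (∀ Q t, 0 ≤ Z Q t) →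
  (∀ (φ : ℂ ≃ᵢ ℂ) (Q : Set ℂ) (t : ℝ), Z (φ '' Q) t = Z Q t) →
  ∀ (R r : ℝ) (w₁ w₂ w₁' w₂' : ℂ), OK2 R r 0 w₁ w₂ → OK2 R r 0 w₁' w₂' →
  (∀ t : ℝ, 0 < t → Z (TH R r 0 w₁ w₂) t = Z (TH R r 0 w₁' w₂') t) →
  ∃ φ : ℂ ≃ᵢ ℂ, φ '' TH R r 0 w₁ w₂ = TH R r 0 w₁' w₂'

end Pool.Agent.H212AN
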