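-- pf_zev done
import Pool.Agent.H212AN.E1

set_option autoImplicit false

namespace Pool.Agent.H212AN

open MeasureTheory Set Filter Topology Metric
open Pool.Agent.H212AN.G (nG PG gm gk)
open scoped Real ENNReal ComplexConjugate

/- PLAIN PROOF.
NH n R r c w is open, bounded. Nonempty: otherwise ball c R is covered by the finitely many disjoint compact discs closedBall (w i) r contained in it; ball c R is connected and
open; n = 0 is clear (R > 0); each closedBall is closed and not everything ... simplest: if ball c R ⊆ ⋃ closedBall (w i) r = ball c R then ball c R would be compact (finite union of compact sets),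
hence closed and open, impossible in ℂ for R > 0 (or its closure would contain a point at distance R). By S_tr: EV μ Q t <= ofReal(4πtZ) <= EV μ (closure Q) t. For every b the set K = {√t b s} is compact
nonempty and by S_nln the two volumes {z | ∀ s, z + √t b s ∈ Q} and {… ∈ closure Q} are equal (the first is contained in the second, the difference is null), so EV Q = EV (closure Q)
= ofReal(4πtZ Q t), 4πtZ >= 0.
-/
theorem pf_zev (h1 : S_tr) (h2 : S_nln) : S_zev := by
  intro Z hup hlo hpos μ hμ n c w R r hr hR hsub hdis
  have hopen : IsOpen (NH n R r c w) :=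
    isOpen_ball.sdiff (isClosed_iUnion_of_finite fun i => isClosed_closedBall)
  have hbdd : Bornology.IsBounded (NH n R r c w) := isBounded_ball.subset Set.sdiff_subset
  have hne : (NH n R r c w).Nonempty := by
    by_contra hcon
    rw [not_nonempty_iff_eq_empty] at hcon
    have h3 : ball c R ⊆ ⋃ i, closedBall (w i) r := Set.sdiff_eq_empty.1 hcon
    have h4 : ball c R = ⋃ i, closedBall (w i) r := h3.antisymm (iUnion_subset hsub)
    have h5 : IsClosed (ball c R) := by
      rw [h4]
      exact isClosed_iUnion_of_finite fun i => isClosed_closedBall
    have h6 : ball c R = closedBall c R := by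
      rw [← closure_ball c hR.ne', h5.closure_eq]
    have h7 : c + (R : ℂ) ∈ closedBall c R := by
      rw [mem_closedBall, dist_eq_norm, add_sub_cancel_left, Complex.norm_real, Real.norm_eq_abs,
        abs_of_pos hR]
    rw [← h6, mem_ball, dist_eq_norm, add_sub_cancel_left, Complex.norm_real, Real.norm_eq_abs,
      abs_of_pos hR] at h7
    exact lt_irrefl _ h7
  refine ⟨hne, fun t ht => ?_⟩
  obtain ⟨ha, hb⟩ := h1 Z hup hlo hpos μ hμ _ hopen hbdd hne t ht
  have hEV : EV μ (closure (NH n R r c w)) t = EV μ (NH n R r c w) t := by
    unfold EV
    refine lintegral_congr fun b => ?_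
    have hK : IsCompact (range fun s : unitInterval => (√t : ℂ) * b s) :=
      isCompact_range (continuous_const.mul b.continuous)
    have hn := h2 n (range fun s : unitInterval => (√t : ℂ) * b s) c w R r hK
      (range_nonempty _) hr hsub hdis
    simp only [forall_mem_range] at hn
    refine (measure_eq_measure_of_null_sdiff ?_ hn).symm
    intro z hz s
    exact subset_closure (hz s)
  rw [hEV] at hb
  have he := le_antisymm ha hb
  have h0 : 0 ≤ 4 * π * t * Z (NH n R r c w) t :=
    mul_nonneg (by positivity) (hpos _ _)
  rw [he]
  exact ⟨(ENNReal.toReal_ofReal h0).symm, ENNReal.ofReal_ne_top⟩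

end Pool.Agent.H212AN
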