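import Pool.Agent.H212AN.Chain
import Pool.Agent.H212AN.P_tt
import Pool.Agent.H212AN.P_up
import Pool.Agent.H212AN.P_tube
import Pool.Agent.H212AN.P_low
import Pool.Agent.H212AN.P_qinv
import Pool.Agent.H212AN.P_Hb
import Pool.Agent.H212AN.P_Ob
import Pool.Agent.H212AN.P_ie
import Pool.Agent.H212AN.P_T3
import Pool.Agent.H212AN.P_peel
import Pool.Agent.H212AN.P_nln
import Pool.Agent.H212AN.P_zev
import Pool.Agent.H212AN.P_small
import Pool.Agent.H212AN.P_visg
import Pool.Agent.H212AN.P_gp2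
import Pool.Agent.H212AN.P_obs2
import Pool.Agent.H212AN.P_mo
import Pool.Agent.H212AN.P_cg
import Pool.Agent.H212AN.P_two

set_option autoImplicit false

/-! # Project H212AN: the statements of file `E1` proved -/

namespace Pool.Agent.H212AN

theorem q_tt : S_tt := pf_tt q_mom
theorem q_up : S_up := pf_up q_tt q_end q_mom
theorem q_tube : S_tube := pf_tube q_em
theorem q_low : S_low := pf_low q_tube q_end
theorem q_qinv : S_qinv := pf_qinv q_rot
theorem q_Hb : S_Hb := pf_Hb q_up q_low
theorem q_Ob : S_Ob := pf_Ob q_up q_low q_qinv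
theorem q_ie : S_ie := pf_ie q_qinv q_mom q_end
theorem q_T3 : S_T3 := pf_T3 q_up
theorem q_peel : S_peel := pf_peel
theorem q_nln : S_nln := pf_nln
theorem q_zev : S_zev := pf_zev q_tr q_nln
theorem q_small : S_small := pf_small q_mom q_end
theorem q_visg : S_visg := pf_visg q_cyc q_pol q_awa
theorem q_gp2 : S_gp2 := pf_gp2
theorem q_obs2 : S_obs2 := pf_obs2 q_visg q_gp2 q_em q_tr q_nln q_loop
theorem q_mo : S_mo := pf_mo q_obs2
theorem q_cg : S_cg := pf_cg
theorem q_two : S_two := pf_two q_zev q_ie q_T3 q_Hb q_Ob q_peel q_mo q_cg q_loop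

end Pool.Agent.H212AN
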