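import Pool.Agent.H212AN.E2

set_option autoImplicit false

namespace Pool.Agent.H212AN

open MeasureTheory Set Filter Topology Metric
open Pool.Agent.H212AN.G (nG PG gm gk)
open scoped Real ENNReal ComplexConjugate

/- PLAIN PROOF.
[Context: E2.lean. The planar Brownian loop b = jn X Y (real part X, imaginary part Y) with E b_s real and imaginary parts of covariance 2(min(s,u) - su); file G0 has the
discrete loop (PG s M, gm), D1 the continuous loop (IsLoop), D3 has EV, ZUp, ZLo, S_tr, E1 has hit, Q2, S_up.]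

Both limits follow from S_au and S_al (squeeze: for every ε eventually |f - Lc| <= ε) once Pair is verified for A = closedBall (-r) r and (1) B = closedBall (x+r) r with α = β = 1/r; (2) B = (ball (x-R) R)ᶜ with α = 1/r, β = -1/R, x < R - r. Hp μ r x t = (Q2 μ (closedBall 0 r) (closedBall (x+2r) r) t).toReal and the translation z ↦ 1*z + (-r)
maps the pair to (A,B) of (1): S_qinv with u = 1. Op μ R r x t: closedBall (R-r-x) r and (ball 0 R)ᶜ, translation by -(R-x).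
Pair (1): closed, bounded, x > 0, α > 0, α + β = 2/r > 0, α+β+xαβ = 2/r + x/r² > 0. Points of A near 0: (a.re + r)² + a.im² <= r² gives a.re <= -r + √(r² - a.im²) <= -a.im²/(2r) (upA even with ε = 0). loA: if ‖a‖ small and a.re <= -((1/r+ε)/2) a.im²: then |a+r|² = r² + 2r a.re + ‖a‖²; need 2r a.re + a.re² + a.im² <= 0: with a.re = -ρ,
ρ >= (1/r+ε)a.im²/2: a.im² <= 2ρ/(1/r+ε) = 2rρ/(1+rε), so -2rρ + ρ² + 2rρ/(1+rε) <= 0 iff ρ <= 2r·rε/(1+rε): true for small ‖a‖. B by symmetry. loc: for a ∈ A, b ∈ B: dist a b >= re(b - a) >= x with both re a <= 0, re b >= x; if ‖a‖ >= l then (‖a+r‖<=r) re a <= -l²/(2r) (since ‖a‖² <= -2r re a), so dist >= x + l²/(2r). Similarly for b.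
Pair (2): B = {b | ‖b - (x-R)‖ >= R}: b.re - x =: v: (v+R)² + b.im² >= R². α+β = 1/r - 1/R > 0 as R > r; α+β+xαβ = (R-r-x)/(rR) > 0. upB: ‖b-x‖ <= l: v >= -R + √(R² - b.im²) >= -(1/R + ε)/2 b.im² for small |b.im|. loB: v >= -((1/R) - ε)/2·b.im² (β + ε = -(1/R) + ε): (v+R)² + b.im² >= R² iff 2Rv + v² + b.im² >= 0: if v >= 0 clear;
if v < 0: |v| <= (1/R-ε)b.im²/2 (if 1/R <= ε nothing to do), 2R|v| <= (1-Rε)b.im² <= b.im². loc: let m = x - R be the centre, |-r - m| = |R - r - x| = R - r - x > 0. For a ∈ A: ‖a - m‖ <= R - x - c(‖a‖) : a = -r + r e^{iψ}ρ'..; precisely ‖a - m‖² = ‖(a + r) + (R-r-x)‖² = ‖a+r‖² + 2(R-r-x) re(a+r) + (R-r-x)² and re(a+r) <= r - l²/(2r)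
if ‖a‖ >= l, so ‖a-m‖² <= (R-x)² - (R-r-x) l²/r: strictly smaller than (R-x)². dist a b >= ‖b-m‖ - ‖a-m‖ >= R - ‖a - m‖ >= x + c. If ‖a‖ < l' (l' small compared with l) but ‖b - x‖ >= l: let c be from a small l' ... : argue by compactness: otherwise there are a_n ∈ A, b_n ∈ B with dist → <= x, b_n bounded, limit a, b with dist a b <= x, a ∈ A, b ∈ B, ‖a‖ >= l or ‖b-x‖ >= l.
But dist a b >= R - ‖a-m‖ >= x with equality only if a = 0 (strictness above) and ‖b - m‖ = R and a on the segment [m,b], i.e. b = x. (IsCompact argument, or a direct estimate.)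
-/
theorem pf_HO_tend {f : ℝ → ℝ} {L : ℝ} (h1 : ∀ ε : ℝ, 0 < ε → ∀ᶠ t : ℝ in 𝓝[>] 0, f t ≤ L + ε)
    (h2 : ∀ ε : ℝ, 0 < ε → ∀ᶠ t : ℝ in 𝓝[>] 0, L - ε ≤ f t) : Tendsto f (𝓝[>] 0) (𝓝 L) := by
  rw [Metric.tendsto_nhds]
  intro ε hε
  filter_upwards [h1 (ε / 2) (by positivity), h2 (ε / 2) (by positivity)] with t a b
  rw [Real.dist_eq, abs_lt]
  constructor <;> linarith

theorem pf_HO_sq (a : ℂ) : ‖a‖ ^ 2 = a.re ^ 2 + a.im ^ 2 := by
  rw [← Complex.normSq_eq_norm_sq, Complex.normSq_apply]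
  ring

theorem pf_HO_mem {r : ℝ} (hr : 0 ≤ r) (c : ℝ) (a : ℂ) :
    a ∈ closedBall (c : ℂ) r ↔ (a.re - c) ^ 2 + a.im ^ 2 ≤ r ^ 2 := by
  rw [mem_closedBall, dist_eq_norm, ← sq_le_sq₀ (norm_nonneg _) hr, pf_HO_sq]
  simp

theorem pf_HO_mem' {r : ℝ} (hr : 0 ≤ r) (c : ℝ) (a : ℂ) :
    a ∈ (ball (c : ℂ) r)ᶜ ↔ r ^ 2 ≤ (a.re - c) ^ 2 + a.im ^ 2 := by
  rw [mem_compl_iff, mem_ball, not_lt, dist_eq_norm, ← sq_le_sq₀ hr (norm_nonneg _), pf_HO_sq]
  simp

theorem pf_HO_l1 {r ε ρ y : ℝ} (hr : 0 < r) (hε : 0 < ε) (h : (1 / r + ε) / 2 * y ^ 2 ≤ ρ)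
    (h' : ρ ≤ 2 * r ^ 2 * ε / (1 + r * ε)) : ρ ^ 2 - 2 * r * ρ + y ^ 2 ≤ 0 := by
  have h0 : 0 < 1 + r * ε := by positivity
  have hρ : 0 ≤ ρ := le_trans (by positivity) h
  rw [le_div_iff₀ h0] at h'
  have h1 : (1 + r * ε) * y ^ 2 ≤ 2 * r * ρ := by
    have := mul_le_mul_of_nonneg_left h (show (0:ℝ) ≤ 2 * r by positivity)
    have e : 2 * r * ((1 / r + ε) / 2 * y ^ 2) = (1 + r * ε) * y ^ 2 := by
      field_simp
    linarith
  have h2 : (1 + r * ε) * (ρ ^ 2 - 2 * r * ρ + y ^ 2) ≤ 0 := by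
    nlinarith [mul_le_mul_of_nonneg_left h' hρ]
  by_contra hc
  push Not at hc
  have := mul_pos h0 hc
  linarith

theorem pf_HO_l2 {r ε ρ y : ℝ} (hr : 0 < r) (hε : 0 < ε) (h : ρ ^ 2 - 2 * r * ρ + y ^ 2 ≤ 0) :
    (1 / r - ε) / 2 * y ^ 2 ≤ ρ := by
  have h1 : y ^ 2 ≤ 2 * r * ρ := by nlinarith [sq_nonneg ρ]
  have h2 : 1 / r / 2 * y ^ 2 ≤ ρ := by
    have := mul_le_mul_of_nonneg_left h1 (show (0:ℝ) ≤ 1 / r / 2 by positivity)
    have e : 1 / r / 2 * (2 * r * ρ) = ρ := by field_simp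
    linarith
  nlinarith [mul_nonneg hε.le (sq_nonneg y)]

theorem pf_HO_re (a b : ℂ) : b.re - a.re ≤ dist a b := by
  rw [dist_comm, dist_eq_norm]
  calc b.re - a.re = (b - a).re := by simp
    _ ≤ ‖b - a‖ := Complex.re_le_norm _

theorem pf_HO_upA {r : ℝ} (hr : 0 < r) {ε : ℝ} (hε : 0 < ε) {a : ℂ}
    (ha : a ∈ closedBall ((-r : ℝ) : ℂ) r) : a.re ≤ -((1 / r - ε) / 2 * a.im ^ 2) := by
  rw [pf_HO_mem hr.le] at ha
  have := pf_HO_l2 (ρ := -a.re) (y := a.im) hr hε (by nlinarith)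
  linarith

theorem pf_HO_loA {r : ℝ} (hr : 0 < r) {ε : ℝ} (hε : 0 < ε) {a : ℂ}
    (hl : ‖a‖ ≤ 2 * r ^ 2 * ε / (1 + r * ε)) (ha : a.re ≤ -((1 / r + ε) / 2 * a.im ^ 2)) :
    a ∈ closedBall ((-r : ℝ) : ℂ) r := by
  rw [pf_HO_mem hr.le]
  have h1 : -a.re ≤ ‖a‖ := by
    have := Complex.abs_re_le_norm a
    exact (neg_le_abs _).trans this
  have := pf_HO_l1 (ρ := -a.re) (y := a.im) hr hε (by linarith) (h1.trans hl)
  nlinarith

theorem pf_HO_nA {r : ℝ} (hr : 0 < r) {a : ℂ}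
    (ha : a ∈ closedBall ((-r : ℝ) : ℂ) r) : ‖a‖ ^ 2 ≤ 2 * r * (-a.re) := by
  rw [pf_HO_mem hr.le] at ha
  rw [pf_HO_sq]
  nlinarith

theorem pf_HO_pair1 {r x : ℝ} (hr : 0 < r) (hx : 0 < x) :
    Pair (closedBall ((-r : ℝ) : ℂ) r) (closedBall ((x + r : ℝ) : ℂ) r) x (1 / r) (1 / r) where
  closedA := isClosed_closedBall
  closedB := isClosed_closedBall
  bdd := isBounded_closedBall
  pos := hx
  posA := by positivity
  sum := by positivity
  form := by positivity
  loc := by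
    intro l hl
    refine ⟨l ^ 2 / (2 * r), by positivity, ?_⟩
    intro a ha b hb hab
    have h1 := pf_HO_nA hr ha
    have h2 : ‖b - x‖ ^ 2 ≤ 2 * r * (b.re - x) := by
      rw [pf_HO_mem hr.le] at hb
      rw [pf_HO_sq]
      simp only [Complex.sub_re, Complex.ofReal_re, Complex.sub_im, Complex.ofReal_im, sub_zero]
      nlinarith
    have h3 := pf_HO_re a b
    have h4 : l ^ 2 ≤ 2 * r * (b.re - x - a.re) := by
      rcases hab with h | h
      · have : l ^ 2 ≤ ‖a‖ ^ 2 := by gcongr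
        nlinarith [sq_nonneg ‖b - x‖]
      · have : l ^ 2 ≤ ‖b - x‖ ^ 2 := by gcongr
        nlinarith [sq_nonneg ‖a‖]
    have h5 : l ^ 2 / (2 * r) ≤ b.re - x - a.re := by
      rw [div_le_iff₀ (by positivity)]
      linarith
    linarith
  upA := fun ε hε => ⟨1, one_pos, fun a ha _ => pf_HO_upA hr hε ha⟩
  upB := by
    intro ε hε
    refine ⟨1, one_pos, fun b hb _ => ?_⟩
    rw [pf_HO_mem hr.le] at hb
    have := pf_HO_l2 (ρ := b.re - x) (y := b.im) hr hε (by nlinarith)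
    linarith
  loA := fun ε hε => ⟨2 * r ^ 2 * ε / (1 + r * ε), by positivity, fun a h1 h2 =>
    pf_HO_loA hr hε h1 h2⟩
  loB := by
    intro ε hε
    refine ⟨2 * r ^ 2 * ε / (1 + r * ε), by positivity, fun b h1 h2 => ?_⟩
    rw [pf_HO_mem hr.le]
    have h3 : b.re - x ≤ ‖b - x‖ := by
      have := Complex.re_le_norm (b - x)
      simpa using this
    have := pf_HO_l1 (ρ := b.re - x) (y := b.im) hr hε (by linarith) (h3.trans h1)
    nlinarith

theorem pf_HO_nB {R x : ℝ} (hR : 0 < R) {b : ℂ} (hb : b ∈ (ball ((x - R : ℝ) : ℂ) R)ᶜ) :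
    0 ≤ (b.re - x) ^ 2 + 2 * R * (b.re - x) + b.im ^ 2 := by
  rw [pf_HO_mem' hR.le] at hb
  nlinarith

theorem pf_HO_pair2 {r R x : ℝ} (hr : 0 < r) (hx : 0 < x) (hR : x < R - r) :
    Pair (closedBall ((-r : ℝ) : ℂ) r) (ball ((x - R : ℝ) : ℂ) R)ᶜ x (1 / r) (-(1 / R)) where
  closedA := isClosed_closedBall
  closedB := isOpen_ball.isClosed_compl
  bdd := isBounded_closedBall
  pos := hx
  posA := by positivity
  sum := by
    have h1 : 0 < R := by linarith
    have h2 : 1 / R < 1 / r := one_div_lt_one_div_of_lt hr (by linarith)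
    linarith
  form := by
    have h1 : 0 < R := by linarith
    have h2 : 1 / r + -(1 / R) + x * (1 / r) * -(1 / R) = (R - r - x) / (r * R) := by
      field_simp
      ring
    rw [h2]
    have h3 : 0 < R - r - x := by linarith
    positivity
  loc := by
    intro l hl
    have hR0 : 0 < R := by linarith
    have hRx : 0 < R - x := by linarith
    have hm : 0 < R - r - x := by linarith
    set K : ℝ := x ^ 2 + l ^ 2 * (1 - x / R) with hK
    have hxR : 0 < 1 - x / R := by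
      rw [sub_pos, div_lt_one hR0]
      linarith
    have hK1 : x < √K := by
      rw [Real.lt_sqrt hx.le, hK]
      have : 0 < l ^ 2 * (1 - x / R) := by positivity
      linarith
    set c₀ : ℝ := √K - x with hc₀
    have hc0 : 0 < c₀ := by linarith
    set l' : ℝ := min l (c₀ / 2) with hl'
    have hl0 : 0 < l' := lt_min hl (by positivity)
    set M : ℝ := (R - x) ^ 2 - (R - r - x) * l' ^ 2 / r with hM
    have hM1 : √M < R - x := by
      rw [Real.sqrt_lt' hRx, hM]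
      have : 0 < (R - r - x) * l' ^ 2 / r := by positivity
      linarith
    refine ⟨min (c₀ / 2) (R - x - √M), lt_min (by positivity) (by linarith), ?_⟩
    intro a ha b hb hab
    have hna := pf_HO_nA hr ha
    have hnb := pf_HO_nB hR0 hb
    by_cases hal : l' ≤ ‖a‖
    · have h1 : dist a ((x - R : ℝ) : ℂ) ≤ √M := by
        refine le_trans (le_abs_self _) (Real.abs_le_sqrt ?_)
        rw [dist_eq_norm, pf_HO_sq, hM]
        simp only [Complex.sub_re, Complex.ofReal_re, Complex.sub_im, Complex.ofReal_im, sub_zero]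
        have e1 : l' ^ 2 ≤ 2 * r * (-a.re) := by
          have : l' ^ 2 ≤ ‖a‖ ^ 2 := by gcongr
          linarith
        have e2 : (R - r - x) * l' ^ 2 / r ≤ (R - r - x) * (2 * (-a.re)) := by
          rw [div_le_iff₀ hr]
          nlinarith
        rw [pf_HO_sq] at hna
        nlinarith
      have h2 : R ≤ dist b ((x - R : ℝ) : ℂ) := by
        rw [mem_compl_iff, mem_ball, not_lt] at hb
        exact hb
      have h3 := dist_triangle_left b ((x - R : ℝ) : ℂ) a
      have h4 : min (c₀ / 2) (R - x - √M) ≤ R - x - √M := min_le_right _ _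
      rw [dist_comm a b] at *
      have h5 : dist b ((x - R : ℝ) : ℂ) ≤ dist b a + dist a ((x - R : ℝ) : ℂ) := dist_triangle _ _ _
      linarith
    · push Not at hal
      have hlb : l ≤ ‖b - x‖ := by
        rcases hab with h | h
        · exact absurd (lt_of_lt_of_le hal (min_le_left _ _)) (not_lt.2 h)
        · exact h
      have h1 : √K ≤ ‖b‖ := by
        rw [Real.sqrt_le_left (norm_nonneg _), pf_HO_sq, hK]
        have e1 : l ^ 2 ≤ (b.re - x) ^ 2 + b.im ^ 2 := by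
          have : l ^ 2 ≤ ‖b - x‖ ^ 2 := by gcongr
          rw [pf_HO_sq] at this
          simpa using this
        have e2 : -(((b.re - x) ^ 2 + b.im ^ 2) * (x / R)) ≤ 2 * x * (b.re - x) := by
          have : ((b.re - x) ^ 2 + b.im ^ 2) * (x / R) =
              (((b.re - x) ^ 2 + b.im ^ 2) * x) / R := by ring
          rw [this, neg_le, le_div_iff₀ hR0]
          nlinarith
        have e3 : l ^ 2 * (1 - x / R) ≤ ((b.re - x) ^ 2 + b.im ^ 2) * (1 - x / R) := by gcongr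
        nlinarith
      have h2 : ‖b‖ ≤ dist a b + ‖a‖ := by
        rw [dist_comm, dist_eq_norm]
        have := norm_add_le (b - a) a
        simpa using this
      have h3 : ‖a‖ < c₀ / 2 := lt_of_lt_of_le hal (min_le_right _ _)
      have h4 : min (c₀ / 2) (R - x - √M) ≤ c₀ / 2 := min_le_left _ _
      linarith
  upA := fun ε hε => ⟨1, one_pos, fun a ha _ => pf_HO_upA hr hε ha⟩
  upB := by
    intro ε hε
    have hR0 : 0 < R := by linarith
    refine ⟨2 * R ^ 2 * ε / (1 + R * ε), by positivity, fun b hb hl => ?_⟩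
    have hnb := pf_HO_nB hR0 hb
    by_cases hv : 0 ≤ b.re - x
    · have : 0 ≤ (1 / R + ε) / 2 * b.im ^ 2 := by positivity
      linarith
    · push Not at hv
      have h1 : x - b.re ≤ ‖b - x‖ := by
        have := (neg_le_abs _).trans (Complex.abs_re_le_norm (b - x))
        simpa using this
      have h2 := h1.trans hl
      rw [le_div_iff₀ (by positivity)] at h2
      have h3 : (x - b.re) * (2 * R - (x - b.re)) ≤ b.im ^ 2 := by nlinarith
      have h4 : (x - b.re) ≤ (1 / R + ε) / 2 * b.im ^ 2 := by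
        have h5 : (1 / R + ε) / 2 * ((x - b.re) * (2 * R - (x - b.re))) ≤
            (1 / R + ε) / 2 * b.im ^ 2 := by gcongr
        refine le_trans ?_ h5
        have e : (1 / R + ε) / 2 * ((x - b.re) * (2 * R - (x - b.re))) - (x - b.re) =
            (x - b.re) * (2 * R ^ 2 * ε - (x - b.re) * (1 + R * ε)) / (2 * R) := by
          field_simp
          ring
        have e2 : 0 ≤ (x - b.re) * (2 * R ^ 2 * ε - (x - b.re) * (1 + R * ε)) / (2 * R) := by
          have : 0 ≤ 2 * R ^ 2 * ε - (x - b.re) * (1 + R * ε) := by linarith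
          have h6 : 0 ≤ x - b.re := by linarith
          positivity
        linarith
      linarith
  loA := fun ε hε => ⟨2 * r ^ 2 * ε / (1 + r * ε), by positivity, fun a h1 h2 =>
    pf_HO_loA hr hε h1 h2⟩
  loB := by
    intro ε hε
    have hR0 : 0 < R := by linarith
    refine ⟨1, one_pos, fun b _ h2 => ?_⟩
    rw [pf_HO_mem' hR0.le]
    have h3 : -((1 - R * ε) * b.im ^ 2) ≤ 2 * R * (b.re - x) := by
      have h4 : 2 * R * ((-(1 / R) + ε) / 2 * b.im ^ 2) ≤ 2 * R * (b.re - x) := by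
        gcongr
        linarith
      have e : 2 * R * ((-(1 / R) + ε) / 2 * b.im ^ 2) = -((1 - R * ε) * b.im ^ 2) := by
        field_simp
        ring
      linarith
    have h5 : 0 ≤ R * ε * b.im ^ 2 := by positivity
    nlinarith [sq_nonneg (b.re - x)]

theorem pf_HO_im (c v : ℝ) (r : ℝ) :
    (fun z : ℂ => 1 * z + (v : ℂ)) '' closedBall ((c : ℝ) : ℂ) r =
      closedBall ((c + v : ℝ) : ℂ) r := by
  ext z
  constructor
  · rintro ⟨w, hw, rfl⟩
    rw [mem_closedBall, dist_eq_norm] at hw ⊢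
    have : 1 * w + (v : ℂ) - ((c + v : ℝ) : ℂ) = w - (c : ℂ) := by push_cast; ring
    rw [this]
    exact hw
  · intro hz
    refine ⟨z - v, ?_, by ring⟩
    rw [mem_closedBall, dist_eq_norm] at hz ⊢
    have : z - (v : ℂ) - (c : ℂ) = z - ((c + v : ℝ) : ℂ) := by push_cast; ring
    rw [this]
    exact hz

theorem pf_HO_im' (v : ℝ) (r : ℝ) :
    (fun z : ℂ => 1 * z + (v : ℂ)) '' (ball (0 : ℂ) r)ᶜ = (ball ((v : ℝ) : ℂ) r)ᶜ := by
  ext z
  constructor
  · rintro ⟨w, hw, rfl⟩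
    rw [mem_compl_iff, mem_ball, dist_eq_norm] at hw ⊢
    have : 1 * w + (v : ℂ) - (v : ℂ) = w - 0 := by ring
    rw [this]
    exact hw
  · intro hz
    refine ⟨z - v, ?_, by ring⟩
    rw [mem_compl_iff, mem_ball, dist_eq_norm] at hz ⊢
    rw [sub_zero]
    exact hz

theorem pf_HO (h1 : S_au) (h2 : S_al) (h3 : S_qinv) : S_HO := by
  intro μ ν hμ hν hW r R x hr hx
  constructor
  · have hp := pf_HO_pair1 hr hx
    refine Tendsto.congr' ?_ (pf_HO_tend (h1 μ ν hμ hν hW _ _ _ _ _ hp)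
      (h2 μ ν hμ hν hW _ _ _ _ _ hp))
    filter_upwards [self_mem_nhdsWithin] with t ht
    have e := h3 μ hμ (closedBall ((0 : ℝ) : ℂ) r) (closedBall ((x + 2 * r : ℝ) : ℂ) r) 1
      ((-r : ℝ) : ℂ) t isClosed_closedBall isClosed_closedBall (by simp) ht
    rw [pf_HO_im, pf_HO_im] at e
    have e1 : (0 : ℝ) + -r = -r := by ring
    have e2 : x + 2 * r + -r = x + r := by ring
    rw [e1, e2] at e
    unfold Hp
    rw [e]
    simp
  · intro hR
    have hp := pf_HO_pair2 hr hx hR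
    refine Tendsto.congr' ?_ (pf_HO_tend (h1 μ ν hμ hν hW _ _ _ _ _ hp)
      (h2 μ ν hμ hν hW _ _ _ _ _ hp))
    filter_upwards [self_mem_nhdsWithin] with t ht
    have e := h3 μ hμ (closedBall ((R - r - x : ℝ) : ℂ) r) (ball (0 : ℂ) R)ᶜ 1
      ((x - R : ℝ) : ℂ) t isClosed_closedBall isOpen_ball.isClosed_compl (by simp) ht
    rw [pf_HO_im, pf_HO_im'] at e
    have e1 : R - r - x + (x - R) = -r := by ring
    rw [e1] at e
    unfold Op
    rw [e]

end Pool.Agent.H212AN
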