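import Pool.Agent.H212AN.E2

set_option autoImplicit false

namespace Pool.Agent.H212AN

open MeasureTheory Set Filter Topology Metric
open Pool.Agent.H212AN.G (nG PG gm gk)
open scoped Real ENNReal ComplexConjugate

theorem pf_al_closed {A : Set ℂ} (hA : IsClosed A) (t : ℝ) :
    IsClosed {p : Lo × ℂ | hit A t p.1 p.2} := by
  have h1 : IsClosed {q : unitInterval × (Lo × ℂ) | q.2.2 + (√t : ℂ) * q.2.1 q.1 ∈ A} := by
    have hc : Continuous (fun q : unitInterval × (Lo × ℂ) =>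
        q.2.2 + (√t : ℂ) * q.2.1 q.1) := by
      have h2 : Continuous (fun q : unitInterval × (Lo × ℂ) => q.2.1 q.1) := by fun_prop
      exact (continuous_snd.comp continuous_snd).add (continuous_const.mul h2)
    exact hA.preimage hc
  have h2 : {p : Lo × ℂ | hit A t p.1 p.2} =
      Prod.snd '' {q : unitInterval × (Lo × ℂ) | q.2.2 + (√t : ℂ) * q.2.1 q.1 ∈ A} := by
    ext p
    constructor
    · rintro ⟨s, hs⟩
      exact ⟨(s, p), hs, rfl⟩
    · rintro ⟨q, hq, rfl⟩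
      exact ⟨q.1, hq⟩
  rw [h2]
  exact isClosedMap_snd_of_compactSpace _ h1

theorem pf_al_meas {A B : Set ℂ} (hA : IsClosed A) (hB : IsClosed B) (t : ℝ) :
    Measurable (fun b : Lo => volume {z : ℂ | hit A t b z ∧ hit B t b z}) := by
  have h : MeasurableSet {p : Lo × ℂ | hit A t p.1 p.2 ∧ hit B t p.1 p.2} :=
    ((pf_al_closed hA t).inter (pf_al_closed hB t)).measurableSet
  exact measurable_measure_prodMk_left h

theorem pf_al_jn : Continuous (fun p : LR × LR => jn p.1 p.2) := by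
  apply ContinuousMap.continuous_of_continuous_uncurry
  show Continuous (fun q : (LR × LR) × unitInterval =>
    ((q.1.1 q.2 : ℝ) : ℂ) + ((q.1.2 q.2 : ℝ) : ℂ) * Complex.I)
  fun_prop

theorem pf_al_rot (h : unitInterval) : Continuous (rot h) := by
  apply ContinuousMap.continuous_of_continuous_uncurry
  show Continuous (fun q : LR × unitInterval =>
    q.1 (pj ((q.2 : ℝ) + h)) - q.1 h + (q.1 (pj ((q.2 : ℝ) + h - 1)) - q.1 0))
  unfold pj
  fun_prop

theorem pf_al_bdd (x : LR) : BddAbove (range x) ∧ BddBelow (range x) :=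
  ⟨(isCompact_range x.continuous).bddAbove, (isCompact_range x.continuous).bddBelow⟩

theorem pf_al_sup (x y : LR) : sSup (range x) ≤ sSup (range y) + ‖x - y‖ := by
  apply csSup_le (range_nonempty _)
  rintro _ ⟨s, rfl⟩
  have h1 : x s - y s ≤ ‖x - y‖ := (le_abs_self _).trans ((x - y).norm_coe_le_norm s)
  have h2 : y s ≤ sSup (range y) := le_csSup (pf_al_bdd y).1 ⟨s, rfl⟩
  linarith

theorem pf_al_inf (x y : LR) : sInf (range y) ≤ sInf (range x) + ‖x - y‖ := by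
  rw [← sub_le_iff_le_add]
  apply le_csInf (range_nonempty _)
  rintro _ ⟨s, rfl⟩
  have h1 : y s - x s ≤ ‖x - y‖ := by
    rw [norm_sub_rev]
    exact (le_abs_self _).trans ((y - x).norm_coe_le_norm s)
  have h2 : sInf (range y) ≤ y s := csInf_le (pf_al_bdd y).2 ⟨s, rfl⟩
  linarith

theorem pf_al_lip {f : LR → ℝ} (K : ℝ) (hK : 0 ≤ K) (h : ∀ x y, f x ≤ f y + K * ‖x - y‖) :
    Continuous f := by
  have : LipschitzWith (Real.toNNReal K) f := by
    apply LipschitzWith.of_le_add_mul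
    intro x y
    rw [Real.coe_toNNReal K hK, dist_eq_norm]
    exact h x y
  exact this.continuous

theorem pf_al_Wi : Continuous Wi := by
  apply pf_al_lip 2 (by norm_num)
  intro x y
  have h1 := pf_al_sup x y
  have h2 := pf_al_inf x y
  unfold Wi
  linarith

theorem pf_al_Wi_le (x : LR) : Wi x ≤ 2 * ‖x‖ := by
  have h1 : sSup (range x) ≤ ‖x‖ := by
    apply csSup_le (range_nonempty _)
    rintro _ ⟨s, rfl⟩
    exact (le_abs_self _).trans (x.norm_coe_le_norm s)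
  have h2 : -‖x‖ ≤ sInf (range x) := by
    apply le_csInf (range_nonempty _)
    rintro _ ⟨s, rfl⟩
    have := neg_abs_le (x s)
    have h3 : |x s| ≤ ‖x‖ := x.norm_coe_le_norm s
    linarith
  unfold Wi
  linarith

theorem pf_al_om (τ : ℝ) (hτ : 0 ≤ τ) : Continuous (om τ) := by
  apply pf_al_lip 2 (by norm_num)
  intro x y
  unfold om
  apply csSup_le
  · exact ⟨|x 0 - x 0|, 0, 0, by simpa using hτ, rfl⟩
  · rintro _ ⟨s, u, hsu, rfl⟩
    have hb : BddAbove {d : ℝ | ∃ s u : unitInterval, |(s : ℝ) - u| ≤ τ ∧ d = |y s - y u|} := by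
      refine ⟨2 * ‖y‖, ?_⟩
      rintro _ ⟨s, u, -, rfl⟩
      have h1 : |y s| ≤ ‖y‖ := y.norm_coe_le_norm s
      have h2 : |y u| ≤ ‖y‖ := y.norm_coe_le_norm u
      calc |y s - y u| ≤ |y s| + |y u| := abs_sub _ _
        _ ≤ _ := by linarith
    have h1 : |x s - y s| ≤ ‖x - y‖ := (x - y).norm_coe_le_norm s
    have h2 : |y u - x u| ≤ ‖x - y‖ := by
      rw [norm_sub_rev]
      exact (y - x).norm_coe_le_norm u
    have h3 : |y s - y u| ≤ sSup {d : ℝ | ∃ s u : unitInterval, |(s : ℝ) - u| ≤ τ ∧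
        d = |y s - y u|} := le_csSup hb ⟨s, u, hsu, rfl⟩
    calc |x s - x u| = |(x s - y s) + (y s - y u) + (y u - x u)| := by congr 1; ring
      _ ≤ |x s - y s| + |y s - y u| + |y u - x u| := abs_add_three _ _ _
      _ ≤ _ := by linarith

/-- the rotated path controls the path -/
theorem pf_al_rot_norm (h : unitInterval) (y : LR) (h0 : y 0 = 0) (h1 : y 1 = 0) :
    ‖y‖ ≤ 2 * ‖rot h y‖ := by
  have key : ∀ u : unitInterval, |y u - y h| ≤ ‖rot h y‖ := by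
    intro u
    have hh := h.2
    have hu := u.2
    have hpj : ∀ z : unitInterval, pj (z : ℝ) = z := fun z => projIcc_val zero_le_one z
    have hpj1 : ∀ z : ℝ, 1 ≤ z → pj z = 1 := fun z hz => projIcc_of_right_le zero_le_one hz
    have hpj0 : ∀ z : ℝ, z ≤ 0 → pj z = 0 := fun z hz => projIcc_of_le_left zero_le_one hz
    by_cases hc : (h : ℝ) ≤ u
    · have hs : (u : ℝ) - h ∈ Icc (0:ℝ) 1 := ⟨by linarith, by linarith [hh.1, hu.2]⟩
      have e : rot h y ⟨(u : ℝ) - h, hs⟩ = y u - y h := by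
        show y (pj ((u : ℝ) - h + h)) - y h + (y (pj ((u : ℝ) - h + h - 1)) - y 0) = _
        have e1 : (u : ℝ) - h + h = u := by ring
        rw [e1, hpj, hpj0 _ (by linarith [hu.2])]
        ring
      rw [← e]
      exact (rot h y).norm_coe_le_norm _
    · have hs : (u : ℝ) - h + 1 ∈ Icc (0:ℝ) 1 :=
        ⟨by linarith [hh.2, hu.1], by linarith [not_le.1 hc]⟩
      have e : rot h y ⟨(u : ℝ) - h + 1, hs⟩ = y u - y h := by
        show y (pj ((u : ℝ) - h + 1 + h)) - y h + (y (pj ((u : ℝ) - h + 1 + h - 1)) - y 0) = _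
        have e1 : (u : ℝ) - h + 1 + h - 1 = u := by ring
        rw [e1, hpj, hpj1 _ (by linarith [hu.1]), h0, h1]
        ring
      rw [← e]
      exact (rot h y).norm_coe_le_norm _
  have hh : |y h| ≤ ‖rot h y‖ := by
    have := key 0
    rwa [h0, zero_sub, abs_neg] at this
  rw [ContinuousMap.norm_le _ (by positivity)]
  intro u
  rw [Real.norm_eq_abs]
  calc |y u| = |(y u - y h) + y h| := by congr 1; ring
    _ ≤ |y u - y h| + |y h| := abs_add_le _ _
    _ ≤ _ := by linarith [key u]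

/-- the integrand -/
noncomputable def pf_al_F (x t k C τ : ℝ) (X y : LR) : ℝ≥0∞ :=
  ENNReal.ofReal ((max (√t * Wi X - x + (-(k * (y hf) ^ 2) - C * om τ y ^ 2) * t) 0) ^ (3 / 2 : ℝ))

theorem pf_al_F_meas (x t k C τ : ℝ) (hτ : 0 ≤ τ) :
    Measurable (Function.uncurry (pf_al_F x t k C τ)) := by
  apply Continuous.measurable
  unfold pf_al_F Function.uncurry
  apply ENNReal.continuous_ofReal.comp
  refine Continuous.rpow_const ?_ (fun _ => Or.inr (by norm_num))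
  refine Continuous.max ?_ continuous_const
  have h1 : Continuous fun p : LR × LR => Wi p.1 := pf_al_Wi.comp continuous_fst
  have h2 : Continuous fun p : LR × LR => om τ p.2 := (pf_al_om τ hτ).comp continuous_snd
  have h3 : Continuous fun p : LR × LR => p.2 hf := by fun_prop
  exact ((continuous_const.mul h1).sub continuous_const).add
    (((continuous_const.mul (h3.pow 2)).neg.sub (continuous_const.mul (h2.pow 2))).mul
      continuous_const)

/-- the weight -/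
noncomputable def pf_al_w (X : LR) : ℝ≥0∞ := ENNReal.ofReal ((1 + ‖X‖) ^ 4)

theorem pf_al_pow (u : ℝ) (hu : 0 ≤ u) : (2 * u) ^ (3 / 2 : ℝ) ≤ 4 * (1 + u) ^ 4 := by
  have h1 : (2 * u) ^ (3 / 2 : ℝ) ≤ (2 * (1 + u)) ^ (3 / 2 : ℝ) :=
    Real.rpow_le_rpow (by positivity) (by linarith) (by norm_num)
  have h2 : (2 * (1 + u)) ^ (3 / 2 : ℝ) ≤ (2 * (1 + u)) ^ (2 : ℝ) :=
    Real.rpow_le_rpow_of_exponent_le (by linarith) (by norm_num)
  have h3 : (2 * (1 + u)) ^ (2 : ℝ) = 4 * (1 + u) ^ (2 : ℕ) := by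
    rw [Real.rpow_two]; ring
  have h4 : (1 + u) ^ (2 : ℕ) ≤ (1 + u) ^ (4 : ℕ) :=
    pow_le_pow_right₀ (by linarith) (by norm_num)
  exact h1.trans (h2.trans (h3.le.trans (mul_le_mul_of_nonneg_left h4 (by norm_num))))

/-- bound for the integrand -/
theorem pf_al_F_le (x t k C τ lw l : ℝ) (X y : LR) (ht : 0 ≤ t) (ht1 : t ≤ 1) (hC : 0 ≤ C)
    (_hl : 0 ≤ l) (hkl : |k| * l ^ 2 ≤ lw) (hx : lw ≤ x) (hy : √t * ‖y‖ ≤ l) :
    pf_al_F x t k C τ X y ≤ {X : LR | x - lw ≤ √t * Wi X}.indicator (fun X => 4 * pf_al_w X) X := by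
  have h0 : (√t * ‖y‖) ^ 2 ≤ l ^ 2 := pow_le_pow_left₀ (by positivity) hy 2
  have h1 : t * (y hf) ^ 2 ≤ l ^ 2 := by
    have h2 : |y hf| ≤ ‖y‖ := y.norm_coe_le_norm hf
    have h3 : (y hf) ^ 2 ≤ ‖y‖ ^ 2 := by
      rw [← sq_abs]
      exact pow_le_pow_left₀ (abs_nonneg _) h2 2
    have h4 : (√t * ‖y‖) ^ 2 = t * ‖y‖ ^ 2 := by
      rw [mul_pow, Real.sq_sqrt ht]
    rw [h4] at h0
    exact (mul_le_mul_of_nonneg_left h3 ht).trans h0
  have h2 : (-(k * (y hf) ^ 2) - C * om τ y ^ 2) * t ≤ lw := by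
    have h3 : -k * (t * (y hf) ^ 2) ≤ |k| * (t * (y hf) ^ 2) :=
      mul_le_mul_of_nonneg_right (neg_le_abs k) (by positivity)
    have h4 : |k| * (t * (y hf) ^ 2) ≤ |k| * l ^ 2 :=
      mul_le_mul_of_nonneg_left h1 (abs_nonneg k)
    have h5 : 0 ≤ C * om τ y ^ 2 * t := by positivity
    nlinarith
  unfold pf_al_F
  by_cases hc : x - lw ≤ √t * Wi X
  · rw [indicator_of_mem (show X ∈ {X : LR | x - lw ≤ √t * Wi X} from hc)]
    unfold pf_al_w
    rw [← ENNReal.ofReal_ofNat 4, ← ENNReal.ofReal_mul (by norm_num)]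
    apply ENNReal.ofReal_le_ofReal
    refine le_trans ?_ (pf_al_pow ‖X‖ (norm_nonneg _))
    apply Real.rpow_le_rpow (le_max_right _ _) _ (by norm_num)
    apply max_le _ (by positivity)
    have h6 : √t * Wi X ≤ 2 * ‖X‖ := by
      have h7 : √t ≤ 1 := by
        rw [Real.sqrt_le_one]
        exact ht1
      have h8 := pf_al_Wi_le X
      calc √t * Wi X ≤ √t * (2 * ‖X‖) := mul_le_mul_of_nonneg_left h8 (Real.sqrt_nonneg _)
        _ ≤ 1 * (2 * ‖X‖) := mul_le_mul_of_nonneg_right h7 (by positivity)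
        _ = _ := one_mul _
    linarith
  · rw [indicator_of_notMem (show X ∉ {X : LR | x - lw ≤ √t * Wi X} from hc)]
    rw [nonpos_iff_eq_zero, ENNReal.ofReal_eq_zero, max_eq_right (by linarith [not_le.1 hc]),
      Real.zero_rpow (by norm_num)]

section main

variable (μ : Measure Lo) (ν : Measure LR) (hν : IsBr μ ν)

include hν

/-- the inner integral -/
theorem pf_al_inner (A B : Set ℂ) (hA : IsClosed A) (hB : IsClosed B) (x t k C N l₂ lg lw c : ℝ)
    (ht : 0 < t) (hN : 0 ≤ N) (hl2 : l₂ ≤ lg) (X : LR) (h : unitInterval)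
    (hgl : ∀ Y : LR, Y 0 = Y 1 → √t * ‖Y‖ ≤ lg →
      ENNReal.ofReal (c * (max (√t * Wi X - x - k * t * (rot h Y hf) ^ 2 -
          C * t * om N (rot h Y) ^ 2) 0) ^ (3 / 2 : ℝ)) ≤
      volume {z : ℂ | hit A t (jn X Y) z ∧ hit B t (jn X Y) z}) (hc : 0 ≤ c) :
    ENNReal.ofReal c * ∫⁻ y in {y : LR | √t * ‖y‖ ≤ l₂ / 2}, pf_al_F x t k C N X y ∂ν ≤
      ∫⁻ Y, volume {z : ℂ | hit A t (jn X Y) z ∧ hit B t (jn X Y) z} ∂ν := by
  have hS : MeasurableSet {y : LR | √t * ‖y‖ ≤ l₂ / 2} :=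
    (isClosed_le (continuous_const.mul continuous_norm) continuous_const).measurableSet
  have hF : Measurable (pf_al_F x t k C N X) := (pf_al_F_meas x t k C N hN).of_uncurry_left
  have hFi : Measurable ({y : LR | √t * ‖y‖ ≤ l₂ / 2}.indicator (pf_al_F x t k C N X)) :=
    hF.indicator hS
  have e1 : ∫⁻ y in {y : LR | √t * ‖y‖ ≤ l₂ / 2}, pf_al_F x t k C N X y ∂ν =
      ∫⁻ Y, {y : LR | √t * ‖y‖ ≤ l₂ / 2}.indicator (pf_al_F x t k C N X) (rot h Y) ∂ν := by
    rw [← lintegral_indicator hS]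
    conv_lhs => rw [← hν.cyc h]
    exact lintegral_map hFi (pf_al_rot h).measurable
  have hcomp : Measurable (fun Y : LR =>
      {y : LR | √t * ‖y‖ ≤ l₂ / 2}.indicator (pf_al_F x t k C N X) (rot h Y)) :=
    hFi.comp (pf_al_rot h).measurable
  rw [e1, ← lintegral_const_mul _ hcomp]
  apply lintegral_mono_ae
  filter_upwards [hν.zero] with Y hY
  by_cases hm : rot h Y ∈ {y : LR | √t * ‖y‖ ≤ l₂ / 2}
  · rw [indicator_of_mem hm]
    have hm' : √t * ‖rot h Y‖ ≤ l₂ / 2 := hm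
    have h2 : √t * ‖Y‖ ≤ lg := by
      have h3 := mul_le_mul_of_nonneg_left (pf_al_rot_norm h Y hY.1 hY.2) (Real.sqrt_nonneg t)
      linarith
    refine le_trans (le_of_eq ?_) (hgl Y (hY.1.trans hY.2.symm) h2)
    have e : √t * Wi X - x + (-(k * (rot h Y hf) ^ 2) - C * om N (rot h Y) ^ 2) * t =
        √t * Wi X - x - k * t * (rot h Y hf) ^ 2 - C * t * om N (rot h Y) ^ 2 := by ring
    unfold pf_al_F
    rw [← ENNReal.ofReal_mul hc, e]
  · rw [indicator_of_notMem hm, mul_zero]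
    exact zero_le

theorem pf_al_phi_le (x t k C N lw l : ℝ) (X : LR) (ht : 0 ≤ t) (ht1 : t ≤ 1) (hC : 0 ≤ C)
    (hl : 0 ≤ l) (hkl : |k| * l ^ 2 ≤ lw) (hx : lw ≤ x) :
    ∫⁻ y in {y : LR | √t * ‖y‖ ≤ l}, pf_al_F x t k C N X y ∂ν ≤
      {X : LR | x - lw ≤ √t * Wi X}.indicator (fun X => 4 * pf_al_w X) X := by
  have := hν.prob
  have hS : MeasurableSet {y : LR | √t * ‖y‖ ≤ l} :=
    (isClosed_le (continuous_const.mul continuous_norm) continuous_const).measurableSet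
  calc ∫⁻ y in {y : LR | √t * ‖y‖ ≤ l}, pf_al_F x t k C N X y ∂ν
      ≤ ∫⁻ _ in {y : LR | √t * ‖y‖ ≤ l},
          {X : LR | x - lw ≤ √t * Wi X}.indicator (fun X => 4 * pf_al_w X) X ∂ν :=
        setLIntegral_mono' hS fun y hy => pf_al_F_le x t k C N lw l X y ht ht1 hC hl hkl hx hy
    _ = {X : LR | x - lw ≤ √t * Wi X}.indicator (fun X => 4 * pf_al_w X) X *
          ν {y : LR | √t * ‖y‖ ≤ l} := setLIntegral_const _ _
    _ ≤ {X : LR | x - lw ≤ √t * Wi X}.indicator (fun X => 4 * pf_al_w X) X * 1 := by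
        gcongr
        exact prob_le_one
    _ = _ := mul_one _

theorem pf_al_Q2 (A B : Set ℂ) (hA : IsClosed A) (hB : IsClosed B) (t : ℝ) :
    Measurable (fun X : LR => ∫⁻ Y, volume {z : ℂ | hit A t (jn X Y) z ∧
      hit B t (jn X Y) z} ∂ν) ∧
    Q2 μ A B t = ∫⁻ X, ∫⁻ Y, volume {z : ℂ | hit A t (jn X Y) z ∧
      hit B t (jn X Y) z} ∂ν ∂ν := by
  have := hν.prob
  have hV := pf_al_meas hA hB t
  have hj : Measurable (fun p : LR × LR => jn p.1 p.2) := pf_al_jn.measurable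
  have hVj : Measurable (fun p : LR × LR => volume {z : ℂ | hit A t (jn p.1 p.2) z ∧
      hit B t (jn p.1 p.2) z}) := hV.comp hj
  refine ⟨hVj.lintegral_prod_right', ?_⟩
  unfold Q2
  rw [hν.prod, lintegral_map hV hj, lintegral_prod _ hVj.aemeasurable]

theorem pf_al_total (A B : Set ℂ) (hA : IsClosed A) (hB : IsClosed B)
    (x t k C l₂ lg lw c : ℝ) (N : ℕ)
    (ht : 0 < t) (ht1 : t ≤ 1) (hC : 0 ≤ C) (hN : 0 ≤ 4 / (N : ℝ)) (hl : 0 ≤ l₂) (hl2 : l₂ ≤ lg)
    (hkl : |k| * (l₂ / 2) ^ 2 ≤ lw) (hx : lw ≤ x) (hc : 0 ≤ c)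
    (hgl : ∀ (X Y : LR) (h : unitInterval), Y 0 = Y 1 → Gd (2 / N) lw t h X →
      √t * Wi X ≤ x + lg → √t * ‖Y‖ ≤ lg →
      ENNReal.ofReal (c * (max (√t * Wi X - x - k * t * (rot h Y hf) ^ 2 -
          C * t * om (4 / N) (rot h Y) ^ 2) 0) ^ (3 / 2 : ℝ)) ≤
      volume {z : ℂ | hit A t (jn X Y) z ∧ hit B t (jn X Y) z}) :
    ENNReal.ofReal c * ∫⁻ y in {y : LR | √t * ‖y‖ ≤ l₂ / 2},
        m32 ν x t (-(k * (y hf) ^ 2) - C * om (4 / N) y ^ 2) ∂ν ≤
      Q2 μ A B t + ENNReal.ofReal c * (4 * (∫⁻ X in {X : LR | x + l₂ ≤ √t * Wi X},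
        pf_al_w X ∂ν) + 4 * ∫⁻ X in {y : LR | x - lw ≤ √t * Wi y ∧
          ∀ j : ℕ, j ≤ N → ¬ Gd (2 / N) lw t (pj (j / N)) y}, pf_al_w X ∂ν) := by
  have := hν.prob
  have hFm := pf_al_F_meas x t k C (4 / N) hN
  obtain ⟨hVm, hQ⟩ := pf_al_Q2 μ ν hν A B hA hB t
  have hw : Measurable pf_al_w := by
    apply Continuous.measurable
    unfold pf_al_w
    exact ENNReal.continuous_ofReal.comp ((continuous_const.add continuous_norm).pow 4)
  have hS1 : MeasurableSet {X : LR | x + l₂ ≤ √t * Wi X} :=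
    (isClosed_le continuous_const (continuous_const.mul pf_al_Wi)).measurableSet
  -- swap the order of integration
  have e1 : ∫⁻ y in {y : LR | √t * ‖y‖ ≤ l₂ / 2},
      m32 ν x t (-(k * (y hf) ^ 2) - C * om (4 / N) y ^ 2) ∂ν =
      ∫⁻ X, ∫⁻ y in {y : LR | √t * ‖y‖ ≤ l₂ / 2}, pf_al_F x t k C (4 / N) X y ∂ν ∂ν := by
    rw [lintegral_lintegral_swap hFm.aemeasurable]
    rfl
  have hΦ : Measurable (fun X : LR =>
      ∫⁻ y in {y : LR | √t * ‖y‖ ≤ l₂ / 2}, pf_al_F x t k C (4 / N) X y ∂ν) :=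
    hFm.lintegral_prod_right'
  rw [e1, hQ, ← lintegral_const_mul _ hΦ]
  -- pointwise bound
  have hpt : ∀ X : LR, ENNReal.ofReal c *
      ∫⁻ y in {y : LR | √t * ‖y‖ ≤ l₂ / 2}, pf_al_F x t k C (4 / N) X y ∂ν ≤
      (∫⁻ Y, volume {z : ℂ | hit A t (jn X Y) z ∧ hit B t (jn X Y) z} ∂ν) +
      (ENNReal.ofReal c * ({X : LR | x + l₂ ≤ √t * Wi X}.indicator (fun X => 4 * pf_al_w X) X) +
        ENNReal.ofReal c * ({y : LR | x - lw ≤ √t * Wi y ∧
          ∀ j : ℕ, j ≤ N → ¬ Gd (2 / N) lw t (pj (j / N)) y}.indicator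
            (fun X => 4 * pf_al_w X) X)) := by
    intro X
    have hrem := pf_al_phi_le μ ν hν x t k C (4 / N) lw (l₂ / 2) X ht.le ht1 hC (by linarith)
      hkl hx
    by_cases h1 : x + l₂ ≤ √t * Wi X
    · rw [indicator_of_mem (show X ∈ {X : LR | x + l₂ ≤ √t * Wi X} from h1)]
      refine le_trans (mul_le_mul_right (hrem.trans (indicator_le_self _ _ X)) _) ?_
      exact le_add_left (le_add_right le_rfl)
    · by_cases h2 : ∀ j : ℕ, j ≤ N → ¬ Gd (2 / N) lw t (pj (j / N)) X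
      · refine le_trans (mul_le_mul_right hrem _) ?_
        refine le_add_left (le_add_left ?_)
        apply mul_le_mul_right
        by_cases h3 : x - lw ≤ √t * Wi X
        · rw [indicator_of_mem (show X ∈ {X : LR | x - lw ≤ √t * Wi X} from h3),
            indicator_of_mem (show X ∈ {y : LR | x - lw ≤ √t * Wi y ∧
              ∀ j : ℕ, j ≤ N → ¬ Gd (2 / N) lw t (pj (j / N)) y} from ⟨h3, h2⟩)]
        · rw [indicator_of_notMem (show X ∉ {X : LR | x - lw ≤ √t * Wi X} from h3)]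
          exact zero_le
      · push Not at h2
        obtain ⟨j, -, hj⟩ := h2
        refine le_add_right ?_
        exact pf_al_inner μ ν hν A B hA hB x t k C (4 / N) l₂ lg lw c ht hN hl2 X (pj (j / N))
          (fun Y hY hY' => hgl X Y _ hY hj (by linarith [not_le.1 h1]) hY') hc
  refine (lintegral_mono hpt).trans ?_
  rw [lintegral_add_left hVm]
  gcongr
  rw [lintegral_add_left ((((hw.const_mul 4)).indicator hS1).const_mul _), mul_add]
  gcongr
  · rw [lintegral_const_mul _ ((hw.const_mul 4).indicator hS1), lintegral_indicator hS1,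
      lintegral_const_mul _ hw]
  · rw [lintegral_const_mul' _ _ ENNReal.ofReal_ne_top]
    gcongr
    refine (lintegral_indicator_le _ _).trans ?_
    rw [lintegral_const_mul _ hw]

end main

/-- the constants -/
theorem pf_al_const (x α β : ℝ) (hx : 0 < x) (hs : 0 < α + β) (hf : 0 < α + β + x * α * β) :
    0 < 1 + 2 * x * (α * β / (2 * (α + β))) ∧
    4 / 3 * √(2 / (α + β)) * (Kc x / √(1 + 2 * x * (α * β / (2 * (α + β))))) = Lc x α β := by
  have e : 1 + 2 * x * (α * β / (2 * (α + β))) = (α + β + x * α * β) / (α + β) := by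
    field_simp
  have h0 : 0 < (α + β + x * α * β) / (α + β) := div_pos hf hs
  refine ⟨by rw [e]; exact h0, ?_⟩
  rw [e]
  unfold Kc Lc
  have h1 : (2 * x) ^ (3 / 2 : ℝ) = 2 * x * √(2 * x) := by
    rw [show (3 / 2 : ℝ) = 1 + 1 / 2 by norm_num, Real.rpow_add (by positivity), Real.rpow_one,
      ← Real.sqrt_eq_rpow]
  rw [h1, Real.sqrt_div (by norm_num : (0:ℝ) ≤ 2), Real.sqrt_div hf.le,
    Real.sqrt_mul (by norm_num : (0:ℝ) ≤ 2), Real.sqrt_mul Real.pi_pos.le]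
  have h2 : √(2:ℝ) ≠ 0 := (Real.sqrt_pos.2 (by norm_num)).ne'
  have h3 : √x ≠ 0 := (Real.sqrt_pos.2 hx).ne'
  have h4 : √(α + β) ≠ 0 := (Real.sqrt_pos.2 hs).ne'
  have h5 : √(α + β + x * α * β) ≠ 0 := (Real.sqrt_pos.2 hf).ne'
  have h6 : √x ^ 2 = x := Real.sq_sqrt hx.le
  field_simp
  rw [h6]
  ring

theorem pf_al_eta (x α β ε : ℝ) (hx : 0 < x) (hs : 0 < α + β) (hf : 0 < α + β + x * α * β)
    (hε : 0 < ε) : ∃ η : ℝ, 0 < η ∧
    0 ≤ Kc x / √(1 + 2 * x * (α * β / (2 * (α + β)))) - η ∧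
    ∀ e : ℝ, 0 < e → e ≤ η → Lc x α β - ε / 2 ≤
      4 / 3 * √(2 / (α + β + e)) * (Kc x / √(1 + 2 * x * (α * β / (2 * (α + β)))) - η) := by
  obtain ⟨h1, h2⟩ := pf_al_const x α β hx hs hf
  set K := Kc x / √(1 + 2 * x * (α * β / (2 * (α + β)))) with hK
  have hKpos : 0 < K := by
    rw [hK]
    unfold Kc
    positivity
  have hcont : ContinuousAt (fun η : ℝ => 4 / 3 * √(2 / (α + β + η)) * (K - η)) 0 := by
    apply ContinuousAt.mul
    · apply ContinuousAt.mul continuousAt_const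
      apply ContinuousAt.sqrt
      apply ContinuousAt.div continuousAt_const (by fun_prop)
      simpa using hs.ne'
    · fun_prop
  have hval : Lc x α β - ε / 2 < (fun η : ℝ => 4 / 3 * √(2 / (α + β + η)) * (K - η)) 0 := by
    show Lc x α β - ε / 2 < 4 / 3 * √(2 / (α + β + 0)) * (K - 0)
    rw [add_zero, sub_zero, h2]
    linarith
  have ev1 := hcont.eventually (lt_mem_nhds hval)
  have ev2 : ∀ᶠ η : ℝ in 𝓝 0, η < K := gt_mem_nhds hKpos
  have ev3 : ∀ᶠ η : ℝ in 𝓝[>] 0, (Lc x α β - ε / 2 < 4 / 3 * √(2 / (α + β + η)) * (K - η)) ∧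
      η < K ∧ 0 < η := by
    filter_upwards [nhdsWithin_le_nhds ev1, nhdsWithin_le_nhds ev2, self_mem_nhdsWithin] with
      η a b c
    exact ⟨a, b, c⟩
  obtain ⟨η, ha, hb, hc⟩ := ev3.exists
  refine ⟨η, hc, by linarith, fun e he heη => ha.le.trans ?_⟩
  apply mul_le_mul_of_nonneg_right _ (by linarith)
  apply mul_le_mul_of_nonneg_left _ (by norm_num)
  apply Real.sqrt_le_sqrt
  apply div_le_div_of_nonneg_left (by norm_num) (by linarith) (by linarith)

/-- the area is finite -/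
theorem pf_al_fin (h1 : S_up) (μ : Measure Lo) (hμ : IsLoop μ) (A B : Set ℂ) (x α β : ℝ)
    (hP : Pair A B x α β) (t : ℝ) (ht : 0 < t) (ht1 : t ≤ 1) : Q2 μ A B t ≠ ∞ := by
  obtain ⟨ρ, hρ⟩ := hP.bdd.subset_ball 0
  obtain ⟨c, hc, hloc⟩ := hP.loc (x / 4) (by linarith [hP.pos])
  have hd : ∀ a ∈ A, ∀ b ∈ B, x / 2 ≤ dist a b := by
    intro a ha b hb
    by_cases h : x / 4 ≤ ‖a‖ ∨ x / 4 ≤ ‖b - x‖
    · have := hloc a ha b hb h
      linarith [hP.pos]
    · push Not at h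
      have e : (x : ℝ) = ‖(x : ℂ)‖ := by
        rw [Complex.norm_real, Real.norm_of_nonneg hP.pos.le]
      have e2 : ‖(x : ℂ)‖ ≤ ‖a‖ + ‖b - x‖ + dist a b := by
        have e3 : (x : ℂ) = a - (b - x) - (a - b) := by ring
        calc ‖(x : ℂ)‖ = ‖a - (b - x) - (a - b)‖ := by rw [← e3]
          _ ≤ ‖a - (b - x)‖ + ‖a - b‖ := norm_sub_le _ _
          _ ≤ ‖a‖ + ‖b - x‖ + ‖a - b‖ := by gcongr; exact norm_sub_le _ _
          _ = _ := by rw [dist_eq_norm]
      linarith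
  obtain ⟨M, hM⟩ := (h1 μ hμ A B ∅ ρ (1 / 2) hP.closedA hP.closedB isClosed_empty hρ (by norm_num)
    (by norm_num)).1 (x / 2) (by linarith [hP.pos]) hd
  exact ((hM t ht ht1).trans_lt ENNReal.ofReal_lt_top).ne

/-- exponentially small terms -/
theorem pf_al_small (c : ℝ) (hc : 0 < c) :
    Tendsto (fun t : ℝ => Real.exp (-(c / t)) / √t) (𝓝[>] 0) (𝓝 0) := by
  have h1 : Tendsto (fun u : ℝ => u ^ (1 : ℕ) * Real.exp (-u)) atTop (𝓝 0) :=
    Real.tendsto_pow_mul_exp_neg_atTop_nhds_zero 1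
  have h2 : Tendsto (fun t : ℝ => c / t) (𝓝[>] 0) atTop :=
    (tendsto_inv_nhdsGT_zero.const_mul_atTop hc).congr fun t => by rw [div_eq_mul_inv]
  have h3 := h1.comp h2
  have h4 : Tendsto (fun t : ℝ => √t / c * ((c / t) ^ (1 : ℕ) * Real.exp (-(c / t)))) (𝓝[>] 0)
      (𝓝 (0 / c * 0)) := by
    apply Tendsto.mul _ h3
    apply Tendsto.div_const
    have : Tendsto (fun t : ℝ => √t) (𝓝 0) (𝓝 (√0)) := Real.continuous_sqrt.tendsto 0
    rw [Real.sqrt_zero] at this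
    exact this.mono_left nhdsWithin_le_nhds
  rw [zero_div, zero_mul] at h4
  refine h4.congr' ?_
  filter_upwards [self_mem_nhdsWithin] with t ht
  have ht' : (0:ℝ) < t := ht
  have hs : √t ≠ 0 := (Real.sqrt_pos.2 ht').ne'
  have hs2 : √t ^ 2 = t := Real.sq_sqrt ht'.le
  rw [pow_one]
  field_simp
  rw [hs2]

theorem pf_al (h1 : S_up) (h2 : S_mom) (h3 : S_wi) (h4 : S_bw) (h5 : S_gl) (h6 : S_ll) : S_al := by
  intro μ ν hμ hν hWl A B x α β hP ε hε
  have hx := hP.pos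
  obtain ⟨η, hη, hK0, hKη⟩ := pf_al_eta x α β ε hx hP.sum hP.form hε
  obtain ⟨hγ, -⟩ := pf_al_const x α β hx hP.sum hP.form
  set γ := α * β / (2 * (α + β)) with hγdef
  set K := Kc x / √(1 + 2 * x * γ) with hKdef
  obtain ⟨ε₀, hε₀, hll⟩ := h6 μ ν hμ hν hWl x γ η hx hγ hη
  set ε₁ := min ε₀ η with hε₁def
  have hε₁ : 0 < ε₁ := lt_min hε₀ hη
  obtain ⟨lg, Cg, hlg, hCg, hgl⟩ := h5 A B x α β hP ε₁ hε₁
  obtain ⟨τ₀, hτ₀, hll2⟩ := hll ε₁ hε₁ (min_le_left _ _) Cg hCg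
  -- the grid
  obtain ⟨N, hN⟩ := exists_nat_gt (max 16 (4 / τ₀))
  have hN16 : (16:ℝ) < N := (le_max_left _ _).trans_lt hN
  have hNτ : 4 / τ₀ < N := (le_max_right _ _).trans_lt hN
  have hN0 : (0:ℝ) < N := by linarith
  have hNn : 0 < N := by exact_mod_cast hN0
  have hτ1 : (2:ℝ) / N < 1 / 8 := by
    rw [div_lt_div_iff₀ hN0 (by norm_num)]
    linarith
  have hτ2 : (4:ℝ) / N ≤ τ₀ := by
    rw [div_le_iff₀ hN0]
    rw [div_lt_iff₀ hτ₀] at hNτ
    linarith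
  have hτpos : (0:ℝ) < 4 / N := by positivity
  obtain ⟨lw, cw, Cw, hlw, hlwx, hcw, hwi⟩ := h3 μ ν hμ hν x N hx hNn
  -- the small length
  set k := γ + ε₁ with hk
  obtain ⟨l₂, hl₂, hl₂g, hkl⟩ : ∃ l₂ : ℝ, 0 < l₂ ∧ l₂ ≤ lg ∧ |k| * (l₂ / 2) ^ 2 ≤ lw := by
    refine ⟨min lg (min 1 (lw / (|k| + 1))), by positivity, min_le_left _ _, ?_⟩
    set l := min lg (min 1 (lw / (|k| + 1))) with hl
    have a1 : l ≤ 1 := (min_le_right _ _).trans (min_le_left _ _)
    have a2 : l ≤ lw / (|k| + 1) := (min_le_right _ _).trans (min_le_right _ _)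
    have a0 : 0 < l := by positivity
    have a3 : (l / 2) ^ 2 ≤ l := by nlinarith
    rw [le_div_iff₀ (by positivity)] at a2
    calc |k| * (l / 2) ^ 2 ≤ |k| * l := mul_le_mul_of_nonneg_left a3 (abs_nonneg _)
      _ ≤ l * (|k| + 1) := by nlinarith
      _ ≤ lw := a2
  obtain ⟨cb, Cb, hcb, hbw⟩ := h4 μ ν hμ hν x l₂ hx hl₂
  set c := 4 / 3 * √(2 / (α + β + ε₁)) with hc
  have hc0 : 0 ≤ c := by positivity
  have hcK : Lc x α β - ε / 2 ≤ c * (K - η) := hKη ε₁ hε₁ (min_le_right _ _)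
  -- limits of the error terms
  have hlim : Tendsto (fun t : ℝ => c * (4 * (|Cb| * (Real.exp (-(cb / t)) / √t)) +
      4 * (|Cw| * (Real.exp (-(cw / t)) / √t)))) (𝓝[>] 0) (𝓝 (c * (4 * (|Cb| * 0) +
      4 * (|Cw| * 0)))) :=
    ((((pf_al_small cb hcb).const_mul _).const_mul _).add
      (((pf_al_small cw hcw).const_mul _).const_mul _)).const_mul _
  have hlim0 : ∀ᶠ t : ℝ in 𝓝[>] 0, c * (4 * (|Cb| * (Real.exp (-(cb / t)) / √t)) +
      4 * (|Cw| * (Real.exp (-(cw / t)) / √t))) < ε / 2 := by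
    refine (tendsto_order.1 hlim).2 (ε / 2) ?_
    simp only [mul_zero, add_zero]
    linarith
  have ht1 : ∀ᶠ t : ℝ in 𝓝[>] 0, t ≤ 1 :=
    nhdsWithin_le_nhds ((gt_mem_nhds (by norm_num : (0:ℝ) < 1)).mono fun t ht => ht.le)
  filter_upwards [hlim0, ht1, hll2 (4 / N) hτpos hτ2 (l₂ / 2) (by positivity),
    self_mem_nhdsWithin] with t hsm ht1 hllt ht
  have ht' : (0:ℝ) < t := ht
  have hst : 0 < √t := Real.sqrt_pos.2 ht'
  have htot := pf_al_total μ ν hν A B hP.closedA hP.closedB x t k Cg l₂ lg lw c N ht' ht1 hCg.le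
    hτpos.le hl₂.le hl₂g hkl hlwx.le hc0 (by
      intro X Y h hY hG hW hn
      have := hgl (2 / N) lw t h X Y (by positivity) hτ1 hlw ht' ht1 hY hG hW hn
      rwa [show 2 * (2 / (N:ℝ)) = 4 / N by ring] at this)
  have hfin := pf_al_fin h1 μ hμ A B x α β hP t ht' ht1
  have hb1 := hbw t ht' ht1
  have hb2 := hwi t ht' ht1
  -- pass to real numbers
  set E := Real.exp (-(x ^ 2 / t)) with hE
  have hEpos : 0 < E := Real.exp_pos _
  have key : ENNReal.ofReal (c * ((K - η) * (√t * E))) ≤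
      ENNReal.ofReal ((Q2 μ A B t).toReal + c * (4 * (|Cb| * Real.exp (-((x ^ 2 + cb) / t))) +
        4 * (|Cw| * Real.exp (-((x ^ 2 + cw) / t))))) := by
    have s1 : ENNReal.ofReal (c * ((K - η) * (√t * E))) ≤ ENNReal.ofReal c *
        ∫⁻ y in {y : LR | √t * ‖y‖ ≤ l₂ / 2},
          m32 ν x t (-(k * (y hf) ^ 2) - Cg * om (4 / N) y ^ 2) ∂ν := by
      rw [ENNReal.ofReal_mul hc0]
      gcongr
    refine s1.trans (htot.trans ?_)
    have q1 : ∫⁻ X in {X : LR | x + l₂ ≤ √t * Wi X}, pf_al_w X ∂ν ≤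
        ENNReal.ofReal (|Cb| * Real.exp (-((x ^ 2 + cb) / t))) :=
      hb1.trans (ENNReal.ofReal_le_ofReal
        (mul_le_mul_of_nonneg_right (le_abs_self _) (Real.exp_pos _).le))
    have q2 : ∫⁻ X in {y : LR | x - lw ≤ √t * Wi y ∧
        ∀ j : ℕ, j ≤ N → ¬ Gd (2 / N) lw t (pj (j / N)) y}, pf_al_w X ∂ν ≤
        ENNReal.ofReal (|Cw| * Real.exp (-((x ^ 2 + cw) / t))) :=
      hb2.trans (ENNReal.ofReal_le_ofReal
        (mul_le_mul_of_nonneg_right (le_abs_self _) (Real.exp_pos _).le))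
    rw [ENNReal.ofReal_add ENNReal.toReal_nonneg (by positivity), ENNReal.ofReal_toReal hfin,
      ENNReal.ofReal_mul hc0, ENNReal.ofReal_add (by positivity) (by positivity),
      ENNReal.ofReal_mul (by norm_num : (0:ℝ) ≤ 4), ENNReal.ofReal_mul (by norm_num : (0:ℝ) ≤ 4),
      ENNReal.ofReal_ofNat]
    gcongr
  have key2 := (ENNReal.ofReal_le_ofReal_iff (by positivity)).1 key
  -- divide
  have hEE : E * Real.exp (x ^ 2 / t) = 1 := by
    rw [hE, ← Real.exp_add, neg_add_cancel, Real.exp_zero]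
  have hd : ∀ c' : ℝ, Real.exp (-((x ^ 2 + c') / t)) * Real.exp (x ^ 2 / t) =
      Real.exp (-(c' / t)) := by
    intro c'
    rw [← Real.exp_add]
    congr 1
    ring
  have hmul := mul_le_mul_of_nonneg_right key2
    (show 0 ≤ Real.exp (x ^ 2 / t) / √t by positivity)
  have el : c * ((K - η) * (√t * E)) * (Real.exp (x ^ 2 / t) / √t) = c * (K - η) := by
    have : c * ((K - η) * (√t * E)) * (Real.exp (x ^ 2 / t) / √t) =
        c * (K - η) * (√t / √t) * (E * Real.exp (x ^ 2 / t)) := by ring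
    rw [this, hEE, div_self hst.ne', mul_one, mul_one]
  have er : ((Q2 μ A B t).toReal + c * (4 * (|Cb| * Real.exp (-((x ^ 2 + cb) / t))) +
      4 * (|Cw| * Real.exp (-((x ^ 2 + cw) / t))))) * (Real.exp (x ^ 2 / t) / √t) =
      (Q2 μ A B t).toReal * Real.exp (x ^ 2 / t) / √t +
      c * (4 * (|Cb| * (Real.exp (-(cb / t)) / √t)) + 4 * (|Cw| * (Real.exp (-(cw / t)) / √t))) := by
    rw [← hd cb, ← hd cw]
    ring
  rw [el, er] at hmul
  linarith

end Pool.Agent.H212AN
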