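import Pool.Agent.H212AN.E2

set_option autoImplicit false

namespace Pool.Agent.H212AN

open MeasureTheory Set Filter Topology Metric
open Pool.Agent.H212AN.G (nG PG gm gk)
open scoped Real ENNReal ComplexConjugate

/-! ### Measurability -/

theorem pf_au_closed {K : Set ℂ} (hK : IsClosed K) (t : ℝ) :
    IsClosed {p : Lo × ℂ | hit K t p.1 p.2} := by
  have h1 : IsClosed {q : unitInterval × (Lo × ℂ) | q.2.2 + (√t : ℂ) * q.2.1 q.1 ∈ K} := by
    refine hK.preimage ?_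
    fun_prop
  have h2 := isClosedMap_snd_of_compactSpace _ h1
  convert h2 using 1
  ext p
  constructor
  · rintro ⟨s, hs⟩
    exact ⟨(s, p), hs, rfl⟩
  · rintro ⟨⟨s, p'⟩, hs, rfl⟩
    exact ⟨s, hs⟩

theorem pf_au_meas {K K' : Set ℂ} (hK : IsClosed K) (hK' : IsClosed K') (t : ℝ) :
    Measurable (fun b : Lo => volume {z : ℂ | hit K t b z ∧ hit K' t b z}) := by
  have h : MeasurableSet ({p : Lo × ℂ | hit K t p.1 p.2} ∩ {p : Lo × ℂ | hit K' t p.1 p.2}) :=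
    ((pf_au_closed hK t).inter (pf_au_closed hK' t)).measurableSet
  exact measurable_measure_prodMk_left h

theorem pf_au_jn_cont : Continuous (fun p : LR × LR => jn p.1 p.2) := by
  refine ContinuousMap.continuous_of_continuous_uncurry _ ?_
  unfold jn Function.uncurry
  simp only [ContinuousMap.coe_mk]
  fun_prop

theorem pf_au_rot_cont (h : unitInterval) : Continuous (rot h) := by
  refine ContinuousMap.continuous_of_continuous_uncurry _ ?_
  have h0 : Continuous (fun p : LR × unitInterval =>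
      p.1 (Set.projIcc (0:ℝ) 1 zero_le_one ((p.2 : ℝ) + h)) - p.1 h +
        (p.1 (Set.projIcc (0:ℝ) 1 zero_le_one ((p.2 : ℝ) + h - 1)) - p.1 0)) := by
    have e1 : Continuous (fun p : LR × unitInterval =>
        p.1 (Set.projIcc (0:ℝ) 1 zero_le_one ((p.2 : ℝ) + h))) := by
      have : Continuous (fun p : LR × unitInterval =>
          (p.1, Set.projIcc (0:ℝ) 1 zero_le_one ((p.2 : ℝ) + h))) :=
        continuous_fst.prodMk ((continuous_projIcc (h := zero_le_one)).comp (by fun_prop))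
      exact continuous_eval.comp this
    have e2 : Continuous (fun p : LR × unitInterval =>
        p.1 (Set.projIcc (0:ℝ) 1 zero_le_one ((p.2 : ℝ) + h - 1))) := by
      have : Continuous (fun p : LR × unitInterval =>
          (p.1, Set.projIcc (0:ℝ) 1 zero_le_one ((p.2 : ℝ) + h - 1))) :=
        continuous_fst.prodMk ((continuous_projIcc (h := zero_le_one)).comp (by fun_prop))
      exact continuous_eval.comp this
    have e3 : Continuous (fun p : LR × unitInterval => p.1 h) := by fun_prop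
    have e4 : Continuous (fun p : LR × unitInterval => p.1 0) := by fun_prop
    exact (e1.sub e3).add (e2.sub e4)
  exact h0

theorem pf_au_norm_jn (X Y : LR) : ‖jn X Y‖ ≤ ‖X‖ + ‖Y‖ := by
  rw [ContinuousMap.norm_le _ (by positivity)]
  intro s
  have h1 := X.norm_coe_le_norm s
  have h2 := Y.norm_coe_le_norm s
  unfold jn
  simp only [ContinuousMap.coe_mk]
  calc ‖(X s : ℂ) + (Y s : ℂ) * Complex.I‖ ≤ ‖(X s : ℂ)‖ + ‖(Y s : ℂ) * Complex.I‖ :=
        norm_add_le _ _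
    _ = ‖X s‖ + ‖Y s‖ := by
        rw [norm_mul, Complex.norm_I, mul_one, Complex.norm_real, Complex.norm_real]
    _ ≤ _ := add_le_add h1 h2

theorem pf_au_norm_le_jn (X Y : LR) : ‖Y‖ ≤ ‖jn X Y‖ := by
  rw [ContinuousMap.norm_le _ (norm_nonneg _)]
  intro s
  have h1 := (jn X Y).norm_coe_le_norm s
  refine le_trans ?_ h1
  have h2 : (jn X Y s).im = Y s := by
    simp [jn]
  rw [← h2, Real.norm_eq_abs]
  exact Complex.abs_im_le_norm _

/-! ### Width and modulus of continuity -/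

theorem pf_au_range_nonempty (X : LR) : (range X).Nonempty := range_nonempty _

theorem pf_au_bddAbove (X : LR) : BddAbove (range X) := (isCompact_range X.continuous).bddAbove

theorem pf_au_bddBelow (X : LR) : BddBelow (range X) := (isCompact_range X.continuous).bddBelow

theorem pf_au_le_sup (X : LR) (s : unitInterval) : X s ≤ sSup (range X) :=
  le_csSup (pf_au_bddAbove X) ⟨s, rfl⟩

theorem pf_au_inf_le (X : LR) (s : unitInterval) : sInf (range X) ≤ X s :=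
  csInf_le (pf_au_bddBelow X) ⟨s, rfl⟩

theorem pf_au_diff_le (X X' : LR) (s : unitInterval) : |X s - X' s| ≤ ‖X - X'‖ := by
  have := (X - X').norm_coe_le_norm s
  simpa using this

theorem pf_au_sup_lip (X X' : LR) : sSup (range X) ≤ sSup (range X') + ‖X - X'‖ := by
  refine csSup_le (pf_au_range_nonempty X) ?_
  rintro _ ⟨s, rfl⟩
  have h1 := abs_le.mp (pf_au_diff_le X X' s)
  have h2 := pf_au_le_sup X' s
  linarith [h1.2]

theorem pf_au_inf_lip (X X' : LR) : sInf (range X') - ‖X - X'‖ ≤ sInf (range X) := by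
  refine le_csInf (pf_au_range_nonempty X) ?_
  rintro _ ⟨s, rfl⟩
  have h1 := abs_le.mp (pf_au_diff_le X X' s)
  have h2 := pf_au_inf_le X' s
  linarith [h1.1]

theorem pf_au_Wi_cont : Continuous Wi := by
  refine (LipschitzWith.of_dist_le_mul (K := 2) fun X X' => ?_).continuous
  rw [Real.dist_eq, dist_eq_norm]
  have h1 := pf_au_sup_lip X X'
  have h2 := pf_au_sup_lip X' X
  have h3 := pf_au_inf_lip X X'
  have h4 := pf_au_inf_lip X' X
  rw [norm_sub_rev X' X] at h2 h4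
  unfold Wi
  rw [abs_le]
  constructor <;> push_cast <;> linarith

theorem pf_au_om_bdd (τ : ℝ) (y : LR) :
    BddAbove {d : ℝ | ∃ s u : unitInterval, |(s : ℝ) - u| ≤ τ ∧ d = |y s - y u|} := by
  refine ⟨2 * ‖y‖, ?_⟩
  rintro d ⟨s, u, -, rfl⟩
  have h1 := y.norm_coe_le_norm s
  have h2 := y.norm_coe_le_norm u
  rw [Real.norm_eq_abs] at h1 h2
  have := abs_sub (y s) (y u)
  linarith

theorem pf_au_om_lip {τ : ℝ} (hτ : 0 ≤ τ) (y y' : LR) : om τ y ≤ om τ y' + 2 * ‖y - y'‖ := by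
  unfold om
  refine csSup_le ⟨0, 0, 0, by simpa using hτ, by simp⟩ ?_
  rintro d ⟨s, u, h, rfl⟩
  have h1 := abs_le.mp (pf_au_diff_le y y' s)
  have h2 := abs_le.mp (pf_au_diff_le y y' u)
  have h3 : |y' s - y' u| ≤ sSup {d : ℝ | ∃ s u : unitInterval, |(s : ℝ) - u| ≤ τ ∧
      d = |y' s - y' u|} := le_csSup (pf_au_om_bdd τ y') ⟨s, u, h, rfl⟩
  have h4 : |y s - y u| ≤ |y' s - y' u| + 2 * ‖y - y'‖ := by
    rw [abs_le]
    have h5 := neg_abs_le (y' s - y' u)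
    have h6 := le_abs_self (y' s - y' u)
    constructor <;> linarith [h1.1, h1.2, h2.1, h2.2]
  linarith

theorem pf_au_om_cont {τ : ℝ} (hτ : 0 ≤ τ) : Continuous (om τ) := by
  refine (LipschitzWith.of_dist_le_mul (K := 2) fun y y' => ?_).continuous
  rw [Real.dist_eq, dist_eq_norm]
  have h1 := pf_au_om_lip hτ y y'
  have h2 := pf_au_om_lip hτ y' y
  rw [norm_sub_rev y' y] at h2
  rw [abs_le]
  constructor <;> push_cast <;> linarith

/-! ### Moments -/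

theorem pf_au_mom (h2 : S_mom) {μ : Measure Lo} {ν : Measure LR} (hμ : IsLoop μ)
    (hν : IsBr μ ν) : ∫⁻ y, ENNReal.ofReal ((1 + ‖y‖) ^ 2) ∂ν < ∞ := by
  have := hν.prob
  have hi : Integrable (fun b : Lo => (1 + ‖b‖) ^ 2) μ := by
    have e0 := h2 μ hμ 0
    have e1 := h2 μ hμ 1
    have e2 := h2 μ hμ 2
    refine ((e0.add (e1.const_mul 2)).add e2).congr (ae_of_all _ fun b => ?_)
    simp only [Pi.add_apply]
    ring
  have hfin : ∫⁻ b, ENNReal.ofReal ((1 + ‖b‖) ^ 2) ∂μ < ∞ := hi.lintegral_lt_top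
  have hm : Measurable (fun p : LR × LR => jn p.1 p.2) := pf_au_jn_cont.measurable
  have hg : Measurable (fun b : Lo => ENNReal.ofReal ((1 + ‖b‖) ^ 2)) := by fun_prop
  rw [hν.prod, lintegral_map hg hm] at hfin
  refine lt_of_le_of_lt ?_ hfin
  have h3 : ∫⁻ p : LR × LR, ENNReal.ofReal ((1 + ‖p.2‖) ^ 2) ∂(ν.prod ν) =
      ∫⁻ y, ENNReal.ofReal ((1 + ‖y‖) ^ 2) ∂ν := by
    rw [lintegral_prod _ (by fun_prop)]
    simp
  rw [← h3]
  refine lintegral_mono fun p => ENNReal.ofReal_le_ofReal ?_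
  have := pf_au_norm_le_jn p.1 p.2
  have h4 := norm_nonneg p.2
  gcongr

/-! ### The volume for one path -/

theorem pf_au_V_bound {A' B' : Set ℂ} {l₁ t : ℝ} (hl : l₁ ≤ 1) (ht1 : t ≤ 1)
    (hA : A' ⊆ closedBall 0 l₁) (X Y : LR) :
    volume {z : ℂ | hit A' t (jn X Y) z ∧ hit B' t (jn X Y) z} ≤
      ENNReal.ofReal ((1 + ‖X‖) ^ 2) * (ENNReal.ofReal ((1 + ‖Y‖) ^ 2) * ENNReal.ofReal π) := by
  have hX := norm_nonneg X
  have hY := norm_nonneg Y
  have hsub : {z : ℂ | hit A' t (jn X Y) z ∧ hit B' t (jn X Y) z} ⊆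
      closedBall 0 ((1 + ‖X‖) * (1 + ‖Y‖)) := by
    rintro z ⟨⟨s, hs⟩, -⟩
    have h1 := hA hs
    rw [mem_closedBall, dist_zero_right] at h1 ⊢
    have h2 : ‖(√t : ℂ) * (jn X Y) s‖ ≤ ‖X‖ + ‖Y‖ := by
      rw [norm_mul, Complex.norm_real, Real.norm_of_nonneg (Real.sqrt_nonneg _)]
      have h3 : ‖jn X Y s‖ ≤ ‖X‖ + ‖Y‖ := ((jn X Y).norm_coe_le_norm s).trans (pf_au_norm_jn X Y)
      have h4 : √t ≤ 1 := Real.sqrt_le_one.2 ht1
      calc √t * ‖jn X Y s‖ ≤ 1 * (‖X‖ + ‖Y‖) := by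
            gcongr
        _ = _ := one_mul _
    have h5 : ‖z‖ ≤ ‖z + (√t : ℂ) * (jn X Y) s‖ + ‖(√t : ℂ) * (jn X Y) s‖ := by
      have := norm_sub_le (z + (√t : ℂ) * (jn X Y) s) ((√t : ℂ) * (jn X Y) s)
      simpa using this
    nlinarith
  refine (measure_mono hsub).trans ?_
  rw [Complex.volume_closedBall]
  have h6 : (NNReal.pi : ℝ≥0∞) = ENNReal.ofReal π := by
    rw [ENNReal.ofReal, ENNReal.coe_inj]
    ext
    rw [Real.coe_toNNReal _ Real.pi_pos.le]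
    rfl
  rw [h6, ← ENNReal.ofReal_pow (by positivity), ← mul_assoc, mul_pow,
    ENNReal.ofReal_mul (by positivity)]

theorem pf_au_V_zero {A B : Set ℂ} {x l₁ l' t : ℝ}
    (hA : ∀ a ∈ A, ‖a‖ ≤ l₁ → a.re ≤ 0)
    (hB : ∀ b ∈ B, ‖b - x‖ ≤ l₁ → x - l' / 2 ≤ b.re) (X Y : LR)
    (hlt : √t * Wi X < x - l' / 2) :
    volume {z : ℂ | hit (A ∩ closedBall 0 l₁) t (jn X Y) z ∧
        hit (B ∩ closedBall (x : ℂ) l₁) t (jn X Y) z} = 0 := by
  have : {z : ℂ | hit (A ∩ closedBall 0 l₁) t (jn X Y) z ∧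
        hit (B ∩ closedBall (x : ℂ) l₁) t (jn X Y) z} = ∅ := by
    rw [eq_empty_iff_forall_notMem]
    rintro z ⟨⟨s, hs, hs'⟩, ⟨u, hu, hu'⟩⟩
    rw [mem_closedBall, dist_eq_norm] at hs' hu'
    rw [sub_zero] at hs'
    have h1 := hA _ hs hs'
    have h2 := hB _ hu hu'
    have e : ∀ v : unitInterval, (z + (√t : ℂ) * (jn X Y) v).re = z.re + √t * X v := by
      intro v
      simp [jn]
    rw [e] at h1 h2
    have h3 : √t * (X u - X s) ≤ √t * Wi X := by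
      have := pf_au_le_sup X u
      have := pf_au_inf_le X s
      refine mul_le_mul_of_nonneg_left ?_ (Real.sqrt_nonneg _)
      unfold Wi
      linarith
    nlinarith
  rw [this, measure_empty]

/-! ### The main term -/

/-- the bound for good paths -/
noncomputable def pf_au_Phi (x t γ C τ : ℝ) (X Y : LR) : ℝ≥0∞ :=
  ENNReal.ofReal ((max (√t * Wi X - x + (-(γ * (Y hf) ^ 2) + C * om τ Y ^ 2) * t) 0) ^
    (3 / 2 : ℝ))

theorem pf_au_Phi_meas (x t γ C : ℝ) {τ : ℝ} (hτ : 0 ≤ τ) :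
    Measurable (fun p : LR × LR => pf_au_Phi x t γ C τ p.1 p.2) := by
  unfold pf_au_Phi
  have h1 : Continuous (fun p : LR × LR => Wi p.1) := pf_au_Wi_cont.comp continuous_fst
  have h2 : Continuous (fun p : LR × LR => om τ p.2) := (pf_au_om_cont hτ).comp continuous_snd
  have h3 : Continuous (fun p : LR × LR => p.2 hf) := by fun_prop
  have h4 : Continuous (fun p : LR × LR =>
      max (√t * Wi p.1 - x + (-(γ * (p.2 hf) ^ 2) + C * om τ p.2 ^ 2) * t) 0) := by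
    fun_prop
  exact ENNReal.measurable_ofReal.comp (h4.measurable.pow_const _)

theorem pf_au_Phi_meas_right (x t γ C : ℝ) {τ : ℝ} (hτ : 0 ≤ τ) (X : LR) :
    Measurable (fun Y : LR => pf_au_Phi x t γ C τ X Y) := by
  unfold pf_au_Phi
  have h2 : Continuous (fun Y : LR => om τ Y) := pf_au_om_cont hτ
  have h3 : Continuous (fun Y : LR => Y hf) := by fun_prop
  have h4 : Continuous (fun Y : LR =>
      max (√t * Wi X - x + (-(γ * (Y hf) ^ 2) + C * om τ Y ^ 2) * t) 0) := by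
    fun_prop
  exact ENNReal.measurable_ofReal.comp (h4.measurable.pow_const _)

theorem pf_au_Phi_swap {ν : Measure LR} [SFinite ν] (x t γ C : ℝ) {τ : ℝ} (hτ : 0 ≤ τ) :
    ∫⁻ X, ∫⁻ Y, pf_au_Phi x t γ C τ X Y ∂ν ∂ν =
      ∫⁻ Y, m32 ν x t (-(γ * (Y hf) ^ 2) + C * om τ Y ^ 2) ∂ν := by
  rw [lintegral_lintegral_swap (pf_au_Phi_meas x t γ C hτ).aemeasurable]
  rfl

theorem pf_au_cyc {μ : Measure Lo} {ν : Measure LR} (hν : IsBr μ ν) (x t γ C : ℝ) {τ : ℝ}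
    (hτ : 0 ≤ τ) (h : unitInterval) (X : LR) :
    ∫⁻ Y, pf_au_Phi x t γ C τ X (rot h Y) ∂ν = ∫⁻ Y, pf_au_Phi x t γ C τ X Y ∂ν := by
  conv_rhs => rw [← hν.cyc h]
  rw [lintegral_map (pf_au_Phi_meas_right x t γ C hτ X) (pf_au_rot_cont h).measurable]

theorem pf_au_split {ν : Measure LR} [IsFiniteMeasure ν] {F G Ψ : LR → ℝ≥0∞} (hG : Measurable G)
    {Sa Sb : Set LR} (hSa : MeasurableSet Sa) (h1 : ∀ X, F X ≤ G X)
    (h2 : ∀ X, X ∉ Sa → X ∉ Sb → F X ≤ Ψ X) :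
    ∫⁻ X, F X ∂ν ≤ ∫⁻ X in Sa, G X ∂ν + ∫⁻ X in Sb, G X ∂ν + ∫⁻ X, Ψ X ∂ν := by
  have hTb : MeasurableSet (toMeasurable ν Sb) := measurableSet_toMeasurable ν Sb
  have h3 : ∀ X, F X ≤ (Sa.indicator G X + (toMeasurable ν Sb).indicator G X) + Ψ X := by
    intro X
    by_cases ha : X ∈ Sa
    · rw [indicator_of_mem ha]
      exact (h1 X).trans (le_add_right (le_add_right le_rfl))
    · by_cases hb : X ∈ toMeasurable ν Sb
      · rw [indicator_of_mem hb]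
        exact (h1 X).trans (le_add_right (le_add_left le_rfl))
      · exact (h2 X ha (fun h => hb (subset_toMeasurable ν Sb h))).trans (le_add_left le_rfl)
  refine (lintegral_mono h3).trans ?_
  have h4 : Measurable (fun X => Sa.indicator G X + (toMeasurable ν Sb).indicator G X) :=
    (hG.indicator hSa).add (hG.indicator hTb)
  rw [lintegral_add_left h4,
    lintegral_add_left (hG.indicator hSa), lintegral_indicator hSa, lintegral_indicator hTb,
    Measure.restrict_toMeasurable (measure_ne_top ν Sb)]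

theorem pf_au_point {μ : Measure Lo} {ν : Measure LR} (hν : IsBr μ ν) {A B : Set ℂ}
    {x l₁ l' t γ C k : ℝ} {N : ℕ} (hk : 0 ≤ k) (hl' : 0 < l')
    (hA0 : ∀ a ∈ A, ‖a‖ ≤ l₁ → a.re ≤ 0)
    (hB0 : ∀ b ∈ B, ‖b - x‖ ≤ l₁ → x - l' / 2 ≤ b.re)
    (hgood : ∀ (h : unitInterval) (X Y : LR), Y 0 = Y 1 → Gd (2 / N) l' t h X →
      √t * Wi X ≤ x + l' / 2 →
      volume {z : ℂ | hit (A ∩ closedBall 0 l₁) t (jn X Y) z ∧
        hit (B ∩ closedBall (x : ℂ) l₁) t (jn X Y) z} ≤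
      ENNReal.ofReal (k * (max (√t * Wi X - x + (-(γ * (rot h Y hf) ^ 2) +
        C * om (2 * (2 / N)) (rot h Y) ^ 2) * t) 0) ^ (3 / 2 : ℝ)))
    (X : LR) (hXa : ¬ x + l' / 2 ≤ √t * Wi X)
    (hXb : ¬ (x - l' ≤ √t * Wi X ∧ ∀ j : ℕ, j ≤ N → ¬ Gd (2 / N) l' t (pj (j / N)) X)) :
    ∫⁻ Y, volume {z : ℂ | hit (A ∩ closedBall 0 l₁) t (jn X Y) z ∧
        hit (B ∩ closedBall (x : ℂ) l₁) t (jn X Y) z} ∂ν ≤
      ENNReal.ofReal k * ∫⁻ Y, pf_au_Phi x t γ C (2 * (2 / N)) X Y ∂ν := by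
  by_cases hlt : √t * Wi X < x - l' / 2
  · have : ∀ Y, volume {z : ℂ | hit (A ∩ closedBall 0 l₁) t (jn X Y) z ∧
        hit (B ∩ closedBall (x : ℂ) l₁) t (jn X Y) z} = 0 :=
      fun Y => pf_au_V_zero hA0 hB0 X Y hlt
    simp [this]
  · push Not at hlt hXb hXa
    obtain ⟨j, -, hj⟩ := hXb (by linarith)
    have hτ : (0:ℝ) ≤ 2 * (2 / N) := by positivity
    rw [← pf_au_cyc hν x t γ C hτ (pj (j / N)) X, ← lintegral_const_mul']
    · refine lintegral_mono_ae ?_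
      filter_upwards [hν.zero] with Y hY
      refine (hgood _ X Y (by rw [hY.1, hY.2]) hj hXa.le).trans ?_
      rw [ENNReal.ofReal_mul hk]
      rfl
    · exact ENNReal.ofReal_ne_top

theorem pf_au_main {μ : Measure Lo} {ν : Measure LR} (hν : IsBr μ ν) {A B : Set ℂ}
    (hA : IsClosed A) (hB : IsClosed B)
    {x l₁ l' t γ C k : ℝ} {N : ℕ} (hk : 0 ≤ k) (hl' : 0 < l') (ht1 : t ≤ 1) (hl₁ : l₁ ≤ 1)
    (hA0 : ∀ a ∈ A, ‖a‖ ≤ l₁ → a.re ≤ 0)
    (hB0 : ∀ b ∈ B, ‖b - x‖ ≤ l₁ → x - l' / 2 ≤ b.re)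
    (hgood : ∀ (h : unitInterval) (X Y : LR), Y 0 = Y 1 → Gd (2 / N) l' t h X →
      √t * Wi X ≤ x + l' / 2 →
      volume {z : ℂ | hit (A ∩ closedBall 0 l₁) t (jn X Y) z ∧
        hit (B ∩ closedBall (x : ℂ) l₁) t (jn X Y) z} ≤
      ENNReal.ofReal (k * (max (√t * Wi X - x + (-(γ * (rot h Y hf) ^ 2) +
        C * om (2 * (2 / N)) (rot h Y) ^ 2) * t) 0) ^ (3 / 2 : ℝ))) :
    Q2 μ (A ∩ closedBall 0 l₁) (B ∩ closedBall (x : ℂ) l₁) t ≤
      ((∫⁻ y, ENNReal.ofReal ((1 + ‖y‖) ^ 2) ∂ν) * ENNReal.ofReal π) *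
        (∫⁻ y in {y : LR | x + l' / 2 ≤ √t * Wi y}, ENNReal.ofReal ((1 + ‖y‖) ^ 4) ∂ν) +
      ((∫⁻ y, ENNReal.ofReal ((1 + ‖y‖) ^ 2) ∂ν) * ENNReal.ofReal π) *
        (∫⁻ y in {y : LR | x - l' ≤ √t * Wi y ∧ ∀ j : ℕ, j ≤ N → ¬ Gd (2 / N) l' t (pj (j / N)) y},
          ENNReal.ofReal ((1 + ‖y‖) ^ 4) ∂ν) +
      ENNReal.ofReal k *
        ∫⁻ Y, m32 ν x t (-(γ * (Y hf) ^ 2) + C * om (2 * (2 / N)) Y ^ 2) ∂ν := by
  have := hν.prob
  have hA' : IsClosed (A ∩ closedBall 0 l₁) := hA.inter isClosed_closedBall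
  have hB' : IsClosed (B ∩ closedBall (x : ℂ) l₁) := hB.inter isClosed_closedBall
  have hm : Measurable (fun p : LR × LR => jn p.1 p.2) := pf_au_jn_cont.measurable
  have hV := pf_au_meas hA' hB' t
  have hτ : (0:ℝ) ≤ 2 * (2 / N) := by positivity
  set K : ℝ≥0∞ := (∫⁻ y, ENNReal.ofReal ((1 + ‖y‖) ^ 2) ∂ν) * ENNReal.ofReal π with hK
  have hSa : MeasurableSet {y : LR | x + l' / 2 ≤ √t * Wi y} :=
    (isClosed_le continuous_const (continuous_const.mul pf_au_Wi_cont)).measurableSet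
  have hG : Measurable (fun X : LR => K * ENNReal.ofReal ((1 + ‖X‖) ^ 4)) := by fun_prop
  have hG' : Measurable (fun X : LR => ENNReal.ofReal ((1 + ‖X‖) ^ 4)) := by fun_prop
  have e1 : Q2 μ (A ∩ closedBall 0 l₁) (B ∩ closedBall (x : ℂ) l₁) t =
      ∫⁻ X, ∫⁻ Y, volume {z : ℂ | hit (A ∩ closedBall 0 l₁) t (jn X Y) z ∧
        hit (B ∩ closedBall (x : ℂ) l₁) t (jn X Y) z} ∂ν ∂ν := by
    unfold Q2
    have hVm : Measurable (fun a : LR × LR => volume {z : ℂ |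
        hit (A ∩ closedBall 0 l₁) t (jn a.1 a.2) z ∧
        hit (B ∩ closedBall (x : ℂ) l₁) t (jn a.1 a.2) z}) := hV.comp hm
    rw [hν.prod, lintegral_map hV hm, lintegral_prod _ hVm.aemeasurable]
  rw [e1]
  refine (pf_au_split (Sa := {y : LR | x + l' / 2 ≤ √t * Wi y})
    (Sb := {y : LR | x - l' ≤ √t * Wi y ∧ ∀ j : ℕ, j ≤ N → ¬ Gd (2 / N) l' t (pj (j / N)) y})
    (Ψ := fun X => ENNReal.ofReal k * ∫⁻ Y, pf_au_Phi x t γ C (2 * (2 / N)) X Y ∂ν)
    hG hSa ?_ ?_).trans ?_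
  · intro X
    calc ∫⁻ Y, volume {z : ℂ | hit (A ∩ closedBall 0 l₁) t (jn X Y) z ∧
          hit (B ∩ closedBall (x : ℂ) l₁) t (jn X Y) z} ∂ν
        ≤ ∫⁻ Y, ENNReal.ofReal ((1 + ‖X‖) ^ 2) *
          (ENNReal.ofReal ((1 + ‖Y‖) ^ 2) * ENNReal.ofReal π) ∂ν :=
          lintegral_mono fun Y => pf_au_V_bound hl₁ ht1 inter_subset_right X Y
      _ = ENNReal.ofReal ((1 + ‖X‖) ^ 2) * K := by
          rw [lintegral_const_mul' _ _ ENNReal.ofReal_ne_top,
            lintegral_mul_const' _ _ ENNReal.ofReal_ne_top]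
      _ ≤ K * ENNReal.ofReal ((1 + ‖X‖) ^ 4) := by
          rw [mul_comm]
          gcongr
          · linarith [norm_nonneg X]
          · norm_num
  · intro X ha hb
    exact pf_au_point hν hk hl' hA0 hB0 hgood X ha hb
  · rw [lintegral_const_mul _ hG', lintegral_const_mul _ hG',
      lintegral_const_mul' _ _ ENNReal.ofReal_ne_top, pf_au_Phi_swap x t γ C hτ]

theorem pf_au_localise (μ : Measure Lo) {A B : Set ℂ} (hA : IsClosed A) (hB : IsClosed B)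
    (x l₁ t : ℝ) :
    Q2 μ A B t ≤ Q2 μ (A ∩ closedBall 0 l₁) (B ∩ closedBall (x : ℂ) l₁) t +
      Q2 μ (A \ ball 0 l₁) B t + Q2 μ A (B \ ball (x : ℂ) l₁) t := by
  have hA' : IsClosed (A ∩ closedBall 0 l₁) := hA.inter isClosed_closedBall
  have hB' : IsClosed (B ∩ closedBall (x : ℂ) l₁) := hB.inter isClosed_closedBall
  have hA'' : IsClosed (A \ ball 0 l₁) := hA.sdiff isOpen_ball
  have m1 := pf_au_meas hA' hB' t
  have m2 := pf_au_meas hA'' hB t
  have m3 : Measurable (fun b : Lo =>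
      volume {z : ℂ | hit (A ∩ closedBall 0 l₁) t b z ∧ hit (B ∩ closedBall (x : ℂ) l₁) t b z} +
      volume {z : ℂ | hit (A \ ball 0 l₁) t b z ∧ hit B t b z}) := m1.add m2
  unfold Q2
  rw [← lintegral_add_left m1, ← lintegral_add_left m3]
  refine lintegral_mono fun b => ?_
  have hsub : {z : ℂ | hit A t b z ∧ hit B t b z} ⊆
      ({z : ℂ | hit (A ∩ closedBall 0 l₁) t b z ∧ hit (B ∩ closedBall (x : ℂ) l₁) t b z} ∪
        {z : ℂ | hit (A \ ball 0 l₁) t b z ∧ hit B t b z}) ∪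
        {z : ℂ | hit A t b z ∧ hit (B \ ball (x : ℂ) l₁) t b z} := by
    rintro z ⟨⟨s, hs⟩, ⟨u, hu⟩⟩
    by_cases h1 : z + (√t : ℂ) * b s ∈ closedBall (0 : ℂ) l₁
    · by_cases h2 : z + (√t : ℂ) * b u ∈ closedBall (x : ℂ) l₁
      · exact Or.inl (Or.inl ⟨⟨s, hs, h1⟩, ⟨u, hu, h2⟩⟩)
      · exact Or.inr ⟨⟨s, hs⟩, ⟨u, hu, fun h => h2 (ball_subset_closedBall h)⟩⟩
    · exact Or.inl (Or.inr ⟨⟨s, hs, fun h => h1 (ball_subset_closedBall h)⟩, ⟨u, hu⟩⟩)
  refine (measure_mono hsub).trans ((measure_union_le _ _).trans ?_)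
  gcongr
  exact measure_union_le _ _

theorem pf_au_far (h1 : S_up) {μ : Measure Lo} (hμ : IsLoop μ) {A B : Set ℂ} (hA : IsClosed A)
    (hB : IsClosed B) (hAb : Bornology.IsBounded A) {x c : ℝ} (hx : 0 < x) (hc : 0 < c)
    (hd : ∀ a ∈ A, ∀ b ∈ B, x + c ≤ dist a b) :
    ∃ M c' : ℝ, 0 ≤ M ∧ 0 < c' ∧ ∀ t : ℝ, 0 < t → t ≤ 1 →
      Q2 μ A B t ≤ ENNReal.ofReal (M * Real.exp (-((x ^ 2 + c') / t))) := by
  obtain ⟨ρ, hρ⟩ := hAb.subset_ball (0 : ℂ)
  have hxc : 0 < x + c := by linarith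
  have hlt : x ^ 2 < (x + c) ^ 2 := by nlinarith
  set θ : ℝ := (x ^ 2 / (x + c) ^ 2 + 1) / 2 with hθ
  have h0 : 0 < x ^ 2 / (x + c) ^ 2 := by positivity
  have h01 : x ^ 2 / (x + c) ^ 2 < 1 := by
    rw [div_lt_one (by positivity)]
    exact hlt
  have hθ0 : 0 < θ := by rw [hθ]; linarith
  have hθ1 : θ < 1 := by rw [hθ]; linarith
  obtain ⟨M, hM⟩ := (h1 μ hμ A B ∅ ρ θ hA hB isClosed_empty hρ hθ0 hθ1).1 (x + c) hxc hd
  refine ⟨|M|, ((x + c) ^ 2 - x ^ 2) / 2, abs_nonneg M, by linarith, fun t ht ht1 => ?_⟩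
  refine (hM t ht ht1).trans (ENNReal.ofReal_le_ofReal ?_)
  have e : θ * (x + c) ^ 2 = x ^ 2 + ((x + c) ^ 2 - x ^ 2) / 2 := by
    rw [hθ]
    field_simp
    ring
  rw [e]
  exact mul_le_mul_of_nonneg_right (le_abs_self M) (Real.exp_pos _).le

theorem pf_au_err (x D c : ℝ) (hc : 0 < c) :
    Tendsto (fun t : ℝ => D * Real.exp (-((x ^ 2 + c) / t)) * Real.exp (x ^ 2 / t) / √t) (𝓝[>] 0)
      (𝓝 0) := by
  have h1 := tendsto_rpow_mul_exp_neg_mul_atTop_nhds_zero (1 / 2) c hc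
  have h2 := (h1.comp tendsto_inv_nhdsGT_zero).const_mul D
  rw [mul_zero] at h2
  refine h2.congr' ?_
  filter_upwards [self_mem_nhdsWithin] with t ht
  have ht' : (0:ℝ) < t := ht
  simp only [Function.comp_apply]
  rw [mul_assoc D, ← Real.exp_add]
  have e : -((x ^ 2 + c) / t) + x ^ 2 / t = -c * t⁻¹ := by
    rw [add_div]
    ring
  rw [e, Real.sqrt_eq_rpow, Real.inv_rpow ht'.le]
  field_simp

theorem pf_au_const {x α β : ℝ} (hx : 0 < x) (hs : 0 < α + β) (hq : 0 < α + β + x * α * β) :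
    0 < 1 + 2 * x * (α * β / (2 * (α + β))) ∧
    4 / 3 * √(2 / (α + β)) * (Kc x / √(1 + 2 * x * (α * β / (2 * (α + β))))) = Lc x α β := by
  have e : 1 + 2 * x * (α * β / (2 * (α + β))) = (α + β + x * α * β) / (α + β) := by
    field_simp
  rw [e]
  refine ⟨by positivity, ?_⟩
  unfold Kc Lc
  have h1 : (2 * x) ^ (3 / 2 : ℝ) = 2 * x * (√2 * √x) := by
    rw [show (3 / 2 : ℝ) = 1 + 1 / 2 by norm_num, Real.rpow_add (by positivity), Real.rpow_one,
      ← Real.sqrt_eq_rpow, Real.sqrt_mul (by norm_num)]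
  rw [h1, Real.sqrt_div (by norm_num), Real.sqrt_div hq.le, Real.sqrt_mul Real.pi_pos.le]
  have hs' : 0 < √(α + β) := Real.sqrt_pos.2 hs
  have hq' : 0 < √(α + β + x * α * β) := Real.sqrt_pos.2 hq
  have hx' : 0 < √x := Real.sqrt_pos.2 hx
  have hx2 : √x * √x = x := Real.mul_self_sqrt hx.le
  have h2' : 0 < √(2:ℝ) := by positivity
  field_simp
  rw [Real.sq_sqrt hx.le]
  ring

theorem pf_au (h1 : S_up) (h2 : S_mom) (h3 : S_wi) (h4 : S_bw) (h5 : S_gu) (h6 : S_lu) : S_au := by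
  intro μ ν hμ hν hW A B x α β hP ε hε
  have hs := hP.sum
  obtain ⟨hq, hk0⟩ := pf_au_const hP.pos hP.sum hP.form
  set γ : ℝ := α * β / (2 * (α + β)) with hγ
  set κ : ℝ → ℝ := fun e => 4 / 3 * √(2 / (α + β - e)) with hκ
  have hκ0 : κ 0 = 4 / 3 * √(2 / (α + β)) := by
    simp [hκ]
  have hκ0pos : 0 < κ 0 := by
    rw [hκ0]
    positivity
  set q : ℝ := Kc x / √(1 + 2 * x * γ) with hqdef
  have hqpos : 0 ≤ q := by
    rw [hqdef]
    unfold Kc
    have := hP.pos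
    positivity
  set ε' : ℝ := ε / (4 * κ 0) with hε'def
  have hε' : 0 < ε' := by positivity
  have hε'2 : κ 0 * (q + ε') < Lc x α β + ε / 2 := by
    have : κ 0 * ε' = ε / 4 := by
      rw [hε'def]
      field_simp
    rw [mul_add, this, hκ0, hk0]
    linarith
  obtain ⟨ε₀, hε₀, H6⟩ := h6 μ ν hμ hν hW x γ ε' hP.pos hq hε'
  obtain ⟨ε₁, hε₁, hε₁0, hε₁s, hε₁k⟩ : ∃ e : ℝ, 0 < e ∧ e ≤ ε₀ ∧ e < α + β ∧
      κ e * (q + ε') < Lc x α β + ε / 2 := by
    have hc : ContinuousAt (fun e => κ e * (q + ε')) 0 := by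
      have : ContinuousAt (fun e : ℝ => 2 / (α + β - e)) 0 := by
        refine ContinuousAt.div continuousAt_const (by fun_prop) ?_
        rw [sub_zero]
        exact hs.ne'
      exact ((this.sqrt).const_mul (4 / 3)).mul_const _
    have hev : ∀ᶠ e : ℝ in 𝓝[>] 0, κ e * (q + ε') < Lc x α β + ε / 2 :=
      (hc.eventually_lt continuousAt_const hε'2).filter_mono nhdsWithin_le_nhds
    have hev2 : ∀ᶠ e : ℝ in 𝓝[>] 0, e ∈ Ioo 0 (min ε₀ (α + β)) :=
      Ioo_mem_nhdsGT (lt_min hε₀ hs)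
    obtain ⟨e, he1, he2⟩ := (hev.and hev2).exists
    exact ⟨e, he2.1, (he2.2.trans_le (min_le_left _ _)).le, he2.2.trans_le (min_le_right _ _), he1⟩
  obtain ⟨l, C, hl, hC, H5⟩ := h5 A B x α β hP ε₁ hε₁ hε₁s
  obtain ⟨τ₀, hτ₀, H6'⟩ := H6 ε₁ hε₁ hε₁0 C hC
  obtain ⟨N, hN0, hN1, hN2⟩ : ∃ N : ℕ, 0 < N ∧ (2:ℝ) / N < 1 / 8 ∧ 2 * ((2:ℝ) / N) ≤ τ₀ := by
    obtain ⟨N, hN⟩ := exists_nat_gt (max 16 (4 / τ₀))
    have h16 : (16:ℝ) < N := (le_max_left _ _).trans_lt hN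
    have h4 : 4 / τ₀ < N := (le_max_right _ _).trans_lt hN
    have hNpos : (0:ℝ) < N := by linarith
    refine ⟨N, by exact_mod_cast hNpos, ?_, ?_⟩
    · rw [div_lt_iff₀ hNpos]
      linarith
    · rw [div_lt_iff₀ hτ₀] at h4
      rw [← mul_div_assoc, div_le_iff₀ hNpos]
      linarith
  obtain ⟨lw, cw, Cw, hlw, hlwx, hcw, H3⟩ := h3 μ ν hμ hν x N hP.pos hN0
  obtain ⟨cb, Cb, hcb, H4⟩ := h4 μ ν hμ hν x (lw / 2) hP.pos (by linarith)
  obtain ⟨lA, hlA, HA⟩ := hP.upA α hP.posA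
  obtain ⟨lB, hlB, HB⟩ := hP.upB 1 one_pos
  have hβ1 : 0 < |β| + 1 := by positivity
  obtain ⟨l₁, hl₁, hl₁l, hl₁1, hl₁A, hl₁B, hl₁w⟩ : ∃ l₁ : ℝ, 0 < l₁ ∧ l₁ ≤ l ∧ l₁ ≤ 1 ∧ l₁ ≤ lA ∧
      l₁ ≤ lB ∧ l₁ ^ 2 * (|β| + 1) ≤ lw := by
    refine ⟨min (min l 1) (min (min lA lB) (lw / (|β| + 1))), by positivity,
      (min_le_left _ _).trans (min_le_left _ _), (min_le_left _ _).trans (min_le_right _ _),
      (min_le_right _ _).trans ((min_le_left _ _).trans (min_le_left _ _)),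
      (min_le_right _ _).trans ((min_le_left _ _).trans (min_le_right _ _)), ?_⟩
    set m := min (min l 1) (min (min lA lB) (lw / (|β| + 1))) with hm
    have hm0 : 0 < m := by positivity
    have hm1 : m ≤ 1 := (min_le_left _ _).trans (min_le_right _ _)
    have hm2 : m ≤ lw / (|β| + 1) := (min_le_right _ _).trans (min_le_right _ _)
    rw [le_div_iff₀ hβ1] at hm2
    have : m ^ 2 ≤ m := by nlinarith
    calc m ^ 2 * (|β| + 1) ≤ m * (|β| + 1) := by gcongr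
      _ ≤ lw := hm2
  obtain ⟨c, hc, Hloc⟩ := hP.loc l₁ hl₁
  obtain ⟨M1, c1, hM1, hc1, F1⟩ := pf_au_far h1 hμ (A := A \ ball 0 l₁) (B := B)
    (hP.closedA.sdiff isOpen_ball) hP.closedB (hP.bdd.subset sdiff_subset) hP.pos hc
    (fun a ha b hb => Hloc a ha.1 b hb (Or.inl (by
      have := ha.2
      rw [mem_ball, dist_zero_right, not_lt] at this
      exact this)))
  obtain ⟨M2, c2, hM2, hc2, F2⟩ := pf_au_far h1 hμ (A := A) (B := B \ ball (x : ℂ) l₁)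
    hP.closedA (hP.closedB.sdiff isOpen_ball) hP.bdd hP.pos hc
    (fun a ha b hb => Hloc a ha b hb.1 (Or.inr (by
      have := hb.2
      rw [mem_ball, dist_eq_norm, not_lt] at this
      exact this)))
  have hmom := pf_au_mom h2 hμ hν
  set K : ℝ≥0∞ := (∫⁻ y, ENNReal.ofReal ((1 + ‖y‖) ^ 2) ∂ν) * ENNReal.ofReal π with hK
  have hKfin : K ≠ ∞ := ENNReal.mul_ne_top hmom.ne ENNReal.ofReal_ne_top
  have hKr : K = ENNReal.ofReal K.toReal := (ENNReal.ofReal_toReal hKfin).symm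
  have hKr0 : 0 ≤ K.toReal := ENNReal.toReal_nonneg
  -- the geometry near the tips
  have hA0 : ∀ a ∈ A, ‖a‖ ≤ l₁ → a.re ≤ 0 := by
    intro a ha h
    have := HA a ha (h.trans hl₁A)
    rw [sub_self] at this
    linarith
  have hB0 : ∀ b ∈ B, ‖b - x‖ ≤ l₁ → x - lw / 2 ≤ b.re := by
    intro b hb h
    have h7 := HB b hb (h.trans hl₁B)
    have h8 : |b.im| ≤ l₁ := by
      have := Complex.abs_im_le_norm (b - x)
      rw [Complex.sub_im, Complex.ofReal_im, sub_zero] at this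
      exact this.trans h
    have h9 : b.im ^ 2 ≤ l₁ ^ 2 := by
      rw [← sq_abs b.im]
      gcongr
    have h10 : -((|β| + 1) * b.im ^ 2) ≤ (β - 1) * b.im ^ 2 := by
      have := neg_abs_le β
      nlinarith [sq_nonneg b.im]
    nlinarith
  have E1 := pf_au_err x M1 c1 hc1
  have E2 := pf_au_err x M2 c2 hc2
  have E3 := pf_au_err x (K.toReal * |Cb|) cb hcb
  have E4 := pf_au_err x (K.toReal * |Cw|) cw hcw
  have hε8 : (0:ℝ) < ε / 8 := by positivity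
  filter_upwards [H6' (2 * (2 / N)) (by positivity) hN2, Ioo_mem_nhdsGT (zero_lt_one' ℝ),
    E1.eventually_lt_const hε8, E2.eventually_lt_const hε8, E3.eventually_lt_const hε8,
    E4.eventually_lt_const hε8] with t ht6 ht e1 e2 e3 e4
  have ht0 : 0 < t := ht.1
  have ht1 : t ≤ 1 := ht.2.le
  have hsq : 0 < √t := Real.sqrt_pos.2 ht0
  have hκpos : 0 ≤ κ ε₁ := by
    simp only [hκ]
    positivity
  have hmain := pf_au_main hν hP.closedA hP.closedB (x := x) (l₁ := l₁) (l' := lw) (t := t)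
    (γ := γ - ε₁) (C := C) (k := κ ε₁) (N := N) hκpos hlw ht1 hl₁1 hA0 hB0 (by
      intro h X Y hY hG hWi
      refine (H5 (2 / N) lw t h X Y (by positivity) hN1 hlw ht0 hY hG hWi l₁ hl₁ hl₁l hl₁w).trans
        (le_of_eq ?_)
      simp only [hκ]
      congr 4
      rw [← hγ]
      ring)
  have htot : Q2 μ A B t ≤ ENNReal.ofReal (K.toReal * |Cb| * Real.exp (-((x ^ 2 + cb) / t)) +
      K.toReal * |Cw| * Real.exp (-((x ^ 2 + cw) / t)) +
      κ ε₁ * ((q + ε') * (√t * Real.exp (-(x ^ 2 / t)))) +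
      M1 * Real.exp (-((x ^ 2 + c1) / t)) + M2 * Real.exp (-((x ^ 2 + c2) / t))) := by
    refine (pf_au_localise μ hP.closedA hP.closedB x l₁ t).trans ?_
    have g1 := F1 t ht0 ht1
    have g2 := F2 t ht0 ht1
    have g3 := H3 t ht0 ht1
    have g4 := H4 t ht0 ht1
    rw [ENNReal.ofReal_add (by positivity) (by positivity),
      ENNReal.ofReal_add (by positivity) (by positivity),
      ENNReal.ofReal_add (by positivity) (by positivity),
      ENNReal.ofReal_add (by positivity) (by positivity)]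
    have hsplit : ∀ D v : ℝ, ENNReal.ofReal (K.toReal * D * v) = K * ENNReal.ofReal (D * v) := by
      intro D v
      conv_rhs => rw [hKr]
      rw [mul_assoc, ENNReal.ofReal_mul hKr0]
    refine add_le_add (add_le_add (hmain.trans (add_le_add (add_le_add ?_ ?_) ?_)) g1) g2
    · rw [hsplit]
      refine mul_le_mul_right (g4.trans (ENNReal.ofReal_le_ofReal ?_)) K
      gcongr
      exact le_abs_self Cb
    · rw [hsplit]
      refine mul_le_mul_right (g3.trans (ENNReal.ofReal_le_ofReal ?_)) K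
      gcongr
      exact le_abs_self Cw
    · rw [ENNReal.ofReal_mul hκpos]
      gcongr
  have hreal := ENNReal.toReal_le_of_le_ofReal (by positivity) htot
  have hfac : 0 ≤ Real.exp (x ^ 2 / t) / √t := by positivity
  have hmid : κ ε₁ * ((q + ε') * (√t * Real.exp (-(x ^ 2 / t)))) * (Real.exp (x ^ 2 / t) / √t) =
      κ ε₁ * (q + ε') := by
    have : Real.exp (-(x ^ 2 / t)) * Real.exp (x ^ 2 / t) = 1 := by
      rw [← Real.exp_add, neg_add_cancel, Real.exp_zero]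
    have h8 : √t * (√t)⁻¹ = 1 := mul_inv_cancel₀ hsq.ne'
    calc κ ε₁ * ((q + ε') * (√t * Real.exp (-(x ^ 2 / t)))) * (Real.exp (x ^ 2 / t) / √t) =
        κ ε₁ * (q + ε') * (√t * (√t)⁻¹) * (Real.exp (-(x ^ 2 / t)) * Real.exp (x ^ 2 / t)) := by
          ring
      _ = κ ε₁ * (q + ε') := by rw [h8, this, mul_one, mul_one]
  have hfin := mul_le_mul_of_nonneg_right hreal hfac
  rw [add_mul, add_mul, add_mul, add_mul, hmid] at hfin
  have r1 : ∀ D c : ℝ, D * Real.exp (-((x ^ 2 + c) / t)) * (Real.exp (x ^ 2 / t) / √t) =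
      D * Real.exp (-((x ^ 2 + c) / t)) * Real.exp (x ^ 2 / t) / √t := by
    intro D c
    rw [mul_div_assoc]
  rw [r1, r1, r1, r1] at hfin
  rw [mul_div_assoc]
  linarith

end Pool.Agent.H212AN
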