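import Pool.Agent.H212AN.E2

set_option autoImplicit false

namespace Pool.Agent.H212AN

open MeasureTheory Set Filter Topology Metric
open Pool.Agent.H212AN.G (nG PG gm gk)
open scoped Real ENNReal ComplexConjugate

theorem pf_bw_norm (x y : LR) : ‖x‖ ≤ ‖jn x y‖ := by
  rw [ContinuousMap.norm_le _ (norm_nonneg _)]
  intro s
  have h1 : ‖jn x y s‖ ≤ ‖jn x y‖ := ContinuousMap.norm_coe_le_norm _ _
  have h2 : jn x y s = (x s : ℂ) + (y s : ℂ) * Complex.I := rfl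
  have h3 : (jn x y s).re = x s := by rw [h2]; simp
  have h4 := Complex.abs_re_le_norm (jn x y s)
  rw [h3] at h4
  exact h4.trans h1

theorem pf_bw_meas : Measurable (fun p : LR × LR => jn p.1 p.2) := by
  have hc : Continuous (fun p : LR × LR => jn p.1 p.2) := by
    apply ContinuousMap.continuous_of_continuous_uncurry
    have h : (Function.uncurry fun (x : LR × LR) (y : unitInterval) => (jn x.1 x.2) y) =
        fun q : (LR × LR) × unitInterval =>
          ((q.1.1 q.2 : ℝ) : ℂ) + ((q.1.2 q.2 : ℝ) : ℂ) * Complex.I := rfl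
    rw [h]
    fun_prop
  exact hc.measurable

theorem pf_bw_mom (h2 : S_mom) (μ : Measure Lo) (ν : Measure LR) (hμ : IsLoop μ) (hν : IsBr μ ν)
    (n : ℕ) : ∫⁻ y, ENNReal.ofReal ((1 + ‖y‖) ^ n) ∂ν < ⊤ := by
  have hp1 := hμ.prob
  have hp2 := hν.prob
  have hc : Continuous (fun b : Lo => (1 + ‖b‖) ^ n) := by fun_prop
  have hint : Integrable (fun b : Lo => (1 + ‖b‖) ^ n) μ := by
    have hb : Integrable (fun b : Lo => (2:ℝ) ^ (n - 1) * (1 + ‖b‖ ^ n)) μ :=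
      ((integrable_const (1:ℝ)).add (h2 μ hμ n)).const_mul _
    refine hb.mono' hc.aestronglyMeasurable (Eventually.of_forall fun b => ?_)
    have h := add_pow_le (zero_le_one : (0:ℝ) ≤ 1) (norm_nonneg b) n
    rw [one_pow] at h
    rw [Real.norm_of_nonneg (by positivity)]
    exact h
  have hl := hint.lintegral_lt_top
  rw [hν.prod, lintegral_map (by fun_prop) pf_bw_meas] at hl
  refine lt_of_le_of_lt ?_ hl
  have hle : ∫⁻ p : LR × LR, ENNReal.ofReal ((1 + ‖p.1‖) ^ n) ∂(ν.prod ν) ≤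
      ∫⁻ p : LR × LR, ENNReal.ofReal ((1 + ‖jn p.1 p.2‖) ^ n) ∂(ν.prod ν) := by
    apply lintegral_mono
    intro p
    apply ENNReal.ofReal_le_ofReal
    have := pf_bw_norm p.1 p.2
    gcongr
  refine le_trans (le_of_eq ?_) hle
  have h := lintegral_prod (μ := ν) (ν := ν)
    (fun p : LR × LR => ENNReal.ofReal ((1 + ‖p.1‖) ^ n)) (by
      have : Continuous (fun p : LR × LR => (1 + ‖p.1‖) ^ n) := by fun_prop
      exact this.measurable.ennreal_ofReal.aemeasurable)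
  rw [h]
  simp

theorem pf_bw_tail (h1 : S_gt) (μ : Measure Lo) (ν : Measure LR) (hμ : IsLoop μ) (hν : IsBr μ ν)
    (θ : ℝ) (h0 : 0 < θ) (hθ : θ < 1) : ∃ C : ℝ, 0 ≤ C ∧ ∀ L t : ℝ, 0 ≤ L → 0 < t →
      ν {y : LR | L ≤ √t * Wi y} ≤ ENNReal.ofReal (C * Real.exp (-(θ * L ^ 2 / t))) := by
  obtain ⟨C, hC⟩ := h1 μ ν hμ hν 2 ![1, -1] univ (1 / 2) θ isClosed_univ (by norm_num) h0 hθ (by
    intro p _
    simp only [Fin.sum_univ_two, Matrix.cons_val_zero, Matrix.cons_val_one, min_self]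
    have hm : min (p 1 : ℝ) (p 0 : ℝ) = min (p 0 : ℝ) (p 1 : ℝ) := min_comm _ _
    rw [hm]
    rcases le_total (p 0 : ℝ) (p 1 : ℝ) with h | h
    · rw [min_eq_left h]
      nlinarith [sq_nonneg ((p 1 : ℝ) - p 0 - 1 / 2)]
    · rw [min_eq_right h]
      nlinarith [sq_nonneg ((p 0 : ℝ) - p 1 - 1 / 2)])
  refine ⟨max C 0, le_max_right _ _, ?_⟩
  intro L t hL ht
  have hst : 0 < √t := Real.sqrt_pos.2 ht
  have hsub : {y : LR | L ≤ √t * Wi y} ⊆
      {y : LR | ∃ p ∈ (univ : Set (Fin 2 → unitInterval)), L / √t ≤ ∑ i, ![(1:ℝ), -1] i * y (p i)} := by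
    intro y hy
    change L ≤ √t * Wi y at hy
    change ∃ p ∈ (univ : Set (Fin 2 → unitInterval)), L / √t ≤ ∑ i, ![(1:ℝ), -1] i * y (p i)
    obtain ⟨s, _, hs⟩ := (isCompact_univ (X := unitInterval)).exists_isMaxOn univ_nonempty
      y.continuous.continuousOn
    obtain ⟨u, _, hu⟩ := (isCompact_univ (X := unitInterval)).exists_isMinOn univ_nonempty
      y.continuous.continuousOn
    refine ⟨![s, u], mem_univ _, ?_⟩
    have hW : Wi y ≤ y s - y u := by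
      unfold Wi
      have ha : sSup (range y) ≤ y s := csSup_le (range_nonempty _) (by
        rintro _ ⟨v, rfl⟩
        exact hs (mem_univ v))
      have hb : y u ≤ sInf (range y) := le_csInf (range_nonempty _) (by
        rintro _ ⟨v, rfl⟩
        exact hu (mem_univ v))
      linarith
    rw [div_le_iff₀ hst]
    simp only [Fin.sum_univ_two, Matrix.cons_val_zero, Matrix.cons_val_one]
    calc L ≤ √t * Wi y := hy
      _ ≤ √t * (y s - y u) := by gcongr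
      _ = _ := by ring
  refine (measure_mono hsub).trans ((hC (L / √t) (by positivity)).trans ?_)
  apply ENNReal.ofReal_le_ofReal
  have h3 : θ * (L / √t) ^ 2 / (2 * (1 / 2)) = θ * L ^ 2 / t := by
    rw [div_pow, Real.sq_sqrt ht.le]
    ring
  rw [h3]
  gcongr
  exact le_max_left _ _

theorem pf_bw (h1 : S_gt) (h2 : S_mom) : S_bw := by
  intro μ ν hμ hν x l hx hl
  have := hν.prob
  set D : ℝ := (x + l) ^ 2 - x ^ 2 with hD
  have hD0 : 0 < D := by
    rw [hD]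
    nlinarith [mul_pos hx hl]
  obtain ⟨q, hq⟩ := exists_nat_gt (max 2 (4 * (x + l) ^ 2 / D))
  have hq2 : (2:ℝ) < q := (le_max_left _ _).trans_lt hq
  have hq4 : 4 * (x + l) ^ 2 / D < q := (le_max_right _ _).trans_lt hq
  have hq0 : (0:ℝ) < q := by linarith
  set θ : ℝ := 1 - (q:ℝ)⁻¹ with hθ
  have hqi : (q:ℝ)⁻¹ < 1 / 2 := by
    rw [one_div]
    exact inv_strictAnti₀ (by norm_num) hq2
  have hqp : 0 < (q:ℝ)⁻¹ := by positivity
  have hθ0 : 0 < θ := by rw [hθ]; linarith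
  have hθ1 : θ < 1 := by rw [hθ]; linarith
  have hkey : x ^ 2 + D / 2 ≤ θ * θ * (x + l) ^ 2 := by
    have h3 : 4 * (x + l) ^ 2 * (q:ℝ)⁻¹ ≤ D := by
      rw [div_lt_iff₀ hD0] at hq4
      rw [← div_eq_mul_inv, div_le_iff₀ hq0]
      linarith
    have h4 : 1 - 2 * (q:ℝ)⁻¹ ≤ θ * θ := by
      rw [hθ]
      nlinarith [sq_nonneg ((q:ℝ)⁻¹)]
    have h5 : (1 - 2 * (q:ℝ)⁻¹) * (x + l) ^ 2 ≤ θ * θ * (x + l) ^ 2 := by gcongr
    have h6 : (1 - 2 * (q:ℝ)⁻¹) * (x + l) ^ 2 = (x + l) ^ 2 - 2 * (x + l) ^ 2 * (q:ℝ)⁻¹ := by ring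
    have h7 : (x + l) ^ 2 = x ^ 2 + D := by rw [hD]; ring
    nlinarith
  obtain ⟨C, hC0, hC⟩ := pf_bw_tail h1 μ ν hμ hν θ hθ0 hθ1
  have hM := pf_bw_mom h2 μ ν hμ hν (4 * q)
  set M : ℝ≥0∞ := ∫⁻ y, ENNReal.ofReal ((1 + ‖y‖) ^ (4 * q)) ∂ν with hMd
  have hpq : Real.HolderConjugate (θ⁻¹) (q:ℝ) := by
    rw [Real.holderConjugate_iff]
    refine ⟨(one_lt_inv₀ hθ0).2 hθ1, ?_⟩
    rw [inv_inv, hθ]
    ring
  refine ⟨D / 2, C ^ θ * (M ^ (1 / (q:ℝ))).toReal, by positivity, ?_⟩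
  intro t ht ht1
  set A : Set LR := {y : LR | x + l ≤ √t * Wi y} with hA
  have hH := ENNReal.lintegral_mul_le_Lp_mul_Lq (ν.restrict A) hpq
    (f := fun _ => 1) (g := fun y : LR => ENNReal.ofReal ((1 + ‖y‖) ^ 4)) aemeasurable_const
    (by
      have : Continuous (fun y : LR => (1 + ‖y‖) ^ 4) := by fun_prop
      exact this.measurable.ennreal_ofReal.aemeasurable)
  refine (le_of_eq ?_).trans (hH.trans ?_)
  · apply lintegral_congr
    intro y
    simp
  have hf1 : (∫⁻ (a : LR) in A, (1:ℝ≥0∞) ^ (θ⁻¹) ∂ν) ^ (1 / θ⁻¹) ≤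
      ENNReal.ofReal (C ^ θ * Real.exp (-((x ^ 2 + D / 2) / t))) := by
    simp only [ENNReal.one_rpow, lintegral_const, Measure.restrict_apply_univ, one_mul, one_div,
      inv_inv]
    have h3 := hC (x + l) t (by positivity) ht
    calc (ν A) ^ θ ≤ (ENNReal.ofReal (C * Real.exp (-(θ * (x + l) ^ 2 / t)))) ^ θ :=
          ENNReal.rpow_le_rpow h3 hθ0.le
      _ = ENNReal.ofReal ((C * Real.exp (-(θ * (x + l) ^ 2 / t))) ^ θ) :=
          ENNReal.ofReal_rpow_of_nonneg (by positivity) hθ0.le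
      _ ≤ _ := by
          apply ENNReal.ofReal_le_ofReal
          rw [Real.mul_rpow hC0 (Real.exp_pos _).le, ← Real.exp_mul]
          gcongr
          have h8 : -(θ * (x + l) ^ 2 / t) * θ = -((θ * θ * (x + l) ^ 2) / t) := by ring
          rw [h8]
          apply neg_le_neg
          gcongr
  have hf2 : (∫⁻ (a : LR) in A, (ENNReal.ofReal ((1 + ‖a‖) ^ 4)) ^ (q:ℝ) ∂ν) ^ (1 / (q:ℝ)) ≤
      M ^ (1 / (q:ℝ)) := by
    apply ENNReal.rpow_le_rpow _ (by positivity)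
    rw [hMd]
    refine le_trans (lintegral_mono' Measure.restrict_le_self (fun a => le_of_eq ?_)) le_rfl
    rw [ENNReal.rpow_natCast, ← ENNReal.ofReal_pow (by positivity), ← pow_mul]
  refine (mul_le_mul' hf1 hf2).trans (le_of_eq ?_)
  have hMf : M ^ (1 / (q:ℝ)) ≠ ⊤ := ENNReal.rpow_ne_top_of_nonneg (by positivity) hM.ne
  rw [← ENNReal.ofReal_toReal hMf, ← ENNReal.ofReal_mul (by positivity),
    ENNReal.toReal_ofReal ENNReal.toReal_nonneg]
  congr 1
  ring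

end Pool.Agent.H212AN
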