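import Pool.Agent.H212AN.E3

set_option autoImplicit false

namespace Pool.Agent.H212AN

open MeasureTheory Set Filter Topology Metric
open Pool.Agent.H212AN.G (nG PG gm gk)
open scoped Real ENNReal ComplexConjugate

/-- two nearly regular rings with the same norms and the same sides differ by a rotation -/
theorem pf_cgn_core (h1 : S_clo) (m : ℕ) (v v' : Fin (m + 3) → ℂ) (χ ψ : Fin (m + 3) → ℝ)
    (hχ : NR m (1 / ((m : ℝ) + 3)) χ) (hv : Po v χ) (hψ : NR m (1 / ((m : ℝ) + 3)) ψ)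
    (hv' : Po v' ψ) (hn : ∀ i, ‖v' i‖ = ‖v i‖)
    (hd : ∀ i, dist (v' i) (v' (i + 1)) = dist (v i) (v (i + 1))) :
    ∃ θ : ℝ, ∀ i, v' i = Complex.exp ((θ : ℂ) * Complex.I) * v i := by
  have key : ∀ i : Fin (m + 3), (i : ℕ) < m + 2 → ψ (i + 1) - ψ i = χ (i + 1) - χ i := by
    intro i hi
    have a1 := (h1 m v χ hχ hv).1 i hi
    have a2 := (h1 m v' ψ hψ hv').1 i hi
    rw [hn, hn, hd, a1] at a2
    exact a2.symm
  have key2 : ∀ k : ℕ, ∀ hk : k < m + 3, ψ ⟨k, hk⟩ - ψ 0 = χ ⟨k, hk⟩ - χ 0 := by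
    intro k
    induction k with
    | zero =>
      intro hk
      have : (⟨0, hk⟩ : Fin (m + 3)) = 0 := rfl
      rw [this]; simp
    | succ k ih =>
      intro hk
      have hk' : k < m + 3 := by omega
      have h2 := key ⟨k, hk'⟩ (by simp; omega)
      have h3 : (⟨k, hk'⟩ : Fin (m + 3)) + 1 = ⟨k + 1, hk⟩ := by
        apply Fin.ext
        rw [Fin.val_add]
        simp
        omega
      rw [h3] at h2
      have h4 := ih hk'
      linarith
  refine ⟨ψ 0 - χ 0, fun i => ?_⟩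
  have h5 : ψ i = (ψ 0 - χ 0) + χ i := by
    have := key2 i i.isLt
    simp only [Fin.eta] at this
    linarith
  rw [(hv' i).2, hn, h5]
  conv_rhs => rw [(hv i).2]
  push_cast
  rw [add_mul, Complex.exp_add]
  ring

theorem pf_cgn_rv (m : ℕ) (z : ℤ) (j : Fin (m + 3)) (h : ((m : ℤ) + 3) ∣ z - (j : ℕ)) :
    Complex.exp (((2 * π * (z : ℝ) / ((m : ℝ) + 3) : ℝ) : ℂ) * Complex.I) = rv m j := by
  obtain ⟨q, hq⟩ := h
  unfold rv
  rw [Complex.exp_eq_exp_iff_exists_int]
  refine ⟨q, ?_⟩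
  have hz : (z : ℝ) = (j : ℕ) + ((m : ℝ) + 3) * q := by
    have : z = (j : ℕ) + ((m : ℤ) + 3) * q := by linarith
    rw [this]; push_cast; ring
  rw [hz]
  have hm : ((m : ℝ) + 3) ≠ 0 := by positivity
  have : (2 * π * (((j : ℕ) : ℝ) + ((m : ℝ) + 3) * q) / ((m : ℝ) + 3) : ℝ) =
      2 * π * ((j : ℕ) : ℝ) / ((m : ℝ) + 3) + q * (2 * π) := by
    field_simp
  rw [this]
  push_cast
  ring

theorem pf_cgn_nrv (m : ℕ) (j : Fin (m + 3)) : ‖rv m j‖ = 1 := by
  unfold rv
  exact Complex.norm_exp_ofReal_mul_I _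

theorem pf_cgn_seq (m : ℕ) (σ τ : Equiv.Perm (Fin (m + 3)))
    (h : ∀ i, (σ i = τ i ∧ σ (i + 1) = τ i + 1) ∨ (σ i = τ i + 1 ∧ σ (i + 1) = τ i)) :
    (∀ i, σ i = σ 0 + i) ∨ (∀ i, σ i = σ 0 - i) := by
  have h0 : ∀ i, σ (i + 1) = σ i + 1 ∨ σ (i + 1) = σ i - 1 := by
    intro i
    rcases h i with ⟨a1, a2⟩ | ⟨a1, a2⟩
    · left; rw [a1, a2]
    · right; rw [a1, a2]; simp
  have hne : ∀ i : Fin (m + 3), i + 1 + 1 ≠ i := by
    intro i hi
    have h2 : (1 : Fin (m + 3)) + 1 = 0 := by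
      rw [add_assoc] at hi
      exact left_eq_add.mp hi.symm
    have h3 := congrArg Fin.val h2
    rw [Fin.val_add, Fin.val_one (m + 1), Fin.val_zero,
      Nat.mod_eq_of_lt (by omega : 1 + 1 < m + 3)] at h3
    omega
  have hP : ∀ i, σ (i + 1) = σ i + 1 → σ (i + 1 + 1) = σ (i + 1) + 1 := by
    intro i hi
    rcases h0 (i + 1) with a | a
    · exact a
    · exfalso
      rw [hi] at a
      have : σ (i + 1 + 1) = σ i := by rw [a]; simp
      exact hne i (σ.injective this)
  have hM : ∀ i, σ (i + 1) = σ i - 1 → σ (i + 1 + 1) = σ (i + 1) - 1 := by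
    intro i hi
    rcases h0 (i + 1) with a | a
    · exfalso
      rw [hi] at a
      have : σ (i + 1 + 1) = σ i := by rw [a]; simp
      exact hne i (σ.injective this)
    · exact a
  have hcast : ∀ k : ℕ, ∀ hk : k + 1 < m + 3, (⟨k + 1, hk⟩ : Fin (m + 3)) = ⟨k, by omega⟩ + 1 := by
    intro k hk
    apply Fin.ext
    rw [Fin.val_add, Fin.val_one (m + 1)]
    show k + 1 = (k + 1) % (m + 3)
    rw [Nat.mod_eq_of_lt hk]
  rcases h0 0 with a | a
  · left
    have hall : ∀ k : ℕ, ∀ hk : k < m + 3, σ (⟨k, hk⟩ + 1) = σ ⟨k, hk⟩ + 1 := by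
      intro k
      induction k with
      | zero => intro hk; exact a
      | succ k ih =>
        intro hk
        rw [hcast k hk]
        exact hP _ (ih (by omega))
    have hfin : ∀ k : ℕ, ∀ hk : k < m + 3, σ ⟨k, hk⟩ = σ 0 + ⟨k, hk⟩ := by
      intro k
      induction k with
      | zero =>
        intro hk
        have : (⟨0, hk⟩ : Fin (m + 3)) = 0 := rfl
        rw [this]; simp
      | succ k ih =>
        intro hk
        rw [hcast k hk, hall k (by omega), ih (by omega)]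
        abel
    intro i
    exact hfin i i.isLt
  · right
    have hall : ∀ k : ℕ, ∀ hk : k < m + 3, σ (⟨k, hk⟩ + 1) = σ ⟨k, hk⟩ - 1 := by
      intro k
      induction k with
      | zero => intro hk; exact a
      | succ k ih =>
        intro hk
        rw [hcast k hk]
        exact hM _ (ih (by omega))
    have hfin : ∀ k : ℕ, ∀ hk : k < m + 3, σ ⟨k, hk⟩ = σ 0 - ⟨k, hk⟩ := by
      intro k
      induction k with
      | zero =>
        intro hk
        have : (⟨0, hk⟩ : Fin (m + 3)) = 0 := rfl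
        rw [this]; simp
      | succ k ih =>
        intro hk
        rw [hcast k hk, hall k (by omega), ih (by omega)]
        abel
    intro i
    exact hfin i i.isLt

theorem pf_cgn (h1 : S_clo) : S_cgn := by
  intro m a ha
  have hN : (0 : ℝ) < (m : ℝ) + 3 := by positivity
  have hcont : ContinuousAt Complex.arg (a : ℂ) :=
    Complex.continuousAt_arg (by rw [Complex.mem_slitPlane_iff]; left; simpa using ha)
  rw [Metric.continuousAt_iff] at hcont
  obtain ⟨η₀, hη₀, hη⟩ := hcont (1 / (4 * ((m : ℝ) + 3))) (by positivity)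
  refine ⟨min η₀ a, lt_min hη₀ ha, ?_⟩
  intro w w' e σ τ ψ hw hNR hPo hno hdi hst
  -- the quotient
  have hq : ∀ j, ‖w j / rv m j - a‖ < min η₀ a := by
    intro j
    have h2 : rv m j ≠ 0 := by
      intro h3
      have := pf_cgn_nrv m j
      rw [h3] at this
      simp at this
    have h3 : w j / rv m j - a = (w j - a * rv m j) / rv m j := by
      field_simp
    rw [h3, norm_div, pf_cgn_nrv, div_one]
    exact hw j
  have harg : ∀ j, |Complex.arg (w j / rv m j)| ≤ 1 / (4 * ((m : ℝ) + 3)) := by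
    intro j
    have h2 := hη (x := w j / rv m j) (by
      rw [dist_eq_norm]; exact lt_of_lt_of_le (hq j) (min_le_left _ _))
    rw [Real.dist_eq, Complex.arg_ofReal_of_nonneg ha.le, sub_zero] at h2
    exact h2.le
  have hpos : ∀ j, 0 < ‖w j‖ := by
    intro j
    rw [norm_pos_iff]
    intro h2
    have h3 := hq j
    rw [h2, zero_div, zero_sub, norm_neg, Complex.norm_real, Real.norm_eq_abs, abs_of_pos ha] at h3
    exact absurd (lt_of_lt_of_le h3 (min_le_right _ _)) (lt_irrefl _)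
  have hrep : ∀ j, w j = (‖w j‖ : ℂ) * (rv m j *
      Complex.exp ((Complex.arg (w j / rv m j) : ℂ) * Complex.I)) := by
    intro j
    have h2 : rv m j ≠ 0 := by
      intro h3
      have := pf_cgn_nrv m j
      rw [h3] at this
      simp at this
    have h3 := Complex.norm_mul_exp_arg_mul_I (w j / rv m j)
    have h4 : ‖w j / rv m j‖ = ‖w j‖ := by rw [norm_div, pf_cgn_nrv, div_one]
    rw [h4] at h3
    have h5 : w j = (w j / rv m j) * rv m j := by field_simp
    conv_lhs => rw [h5, ← h3]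
    ring
  have hdi' : ∀ i, dist (w' (e i)) (w' (e (i + 1))) = dist (w (σ i)) (w (σ (i + 1))) := by
    intro i
    rw [hdi i]
    rcases hst i with ⟨a1, a2⟩ | ⟨a1, a2⟩
    · rw [a1, a2]
    · rw [a1, a2, dist_comm]
  have hNR' : NR m (1 / ((m : ℝ) + 3)) ψ := by
    intro i
    refine (hNR i).trans ?_
    apply one_div_le_one_div_of_le hN
    linarith
  have hfour : 1 / (4 * ((m : ℝ) + 3)) + 1 / (4 * ((m : ℝ) + 3)) ≤ 1 / ((m : ℝ) + 3) := by
    have : 1 / (4 * ((m : ℝ) + 3)) + 1 / (4 * ((m : ℝ) + 3)) = (1 / 2) * (1 / ((m : ℝ) + 3)) := by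
      field_simp; norm_num
    rw [this]
    have : 0 < 1 / ((m : ℝ) + 3) := by positivity
    linarith
  rcases pf_cgn_seq m σ τ hst with hs | hs
  · -- rotation
    set χ : Fin (m + 3) → ℝ := fun i =>
      2 * π * ((((σ 0 : Fin (m + 3)) : ℕ) + (i : ℕ) : ℤ) : ℝ) / ((m : ℝ) + 3) +
        Complex.arg (w (σ i) / rv m (σ i)) with hχdef
    have hNRχ : NR m (1 / ((m : ℝ) + 3)) χ := by
      intro i
      have h2 : χ i - (χ 0 + 2 * π * (i : ℝ) / ((m : ℝ) + 3)) =
          Complex.arg (w (σ i) / rv m (σ i)) - Complex.arg (w (σ 0) / rv m (σ 0)) := by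
        simp only [hχdef]
        push_cast
        simp only [Fin.val_zero, Nat.cast_zero]
        ring
      rw [h2]
      refine (abs_sub _ _).trans ?_
      have := harg (σ i)
      have := harg (σ 0)
      linarith
    have hPoχ : Po (fun i => w (σ i)) χ := by
      intro i
      refine ⟨hpos _, ?_⟩
      show w (σ i) = (‖w (σ i)‖ : ℂ) * Complex.exp ((χ i : ℂ) * Complex.I)
      conv_lhs => rw [hrep (σ i)]
      congr 1
      rw [hχdef]
      simp only
      rw [Complex.ofReal_add, add_mul, Complex.exp_add]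
      rw [pf_cgn_rv m _ (σ i)]
      rw [hs i, Fin.val_add]
      have h3 := Int.mul_ediv_add_emod (((σ 0 : Fin (m + 3)) : ℕ) + (i : ℕ) : ℤ) ((m : ℤ) + 3)
      refine ⟨(((σ 0 : Fin (m + 3)) : ℕ) + (i : ℕ) : ℤ) / ((m : ℤ) + 3), ?_⟩
      push_cast
      linarith
    obtain ⟨θ, hθ⟩ := pf_cgn_core h1 m (fun i => w (σ i)) (fun i => w' (e i)) χ ψ hNRχ hPoχ hNR' hPo
      hno hdi'
    refine ⟨(rotation (Circle.exp θ)).toIsometryEquiv, ?_, ?_⟩
    · simp
    · intro i
      have hθi : w' (e i) = Complex.exp ((θ : ℂ) * Complex.I) * w (σ i) := hθ i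
      rw [hθi]
      simp [rotation_apply, Circle.coe_exp]
  · set χ : Fin (m + 3) → ℝ := fun i =>
      -(2 * π * ((((σ 0 : Fin (m + 3)) : ℕ) - (i : ℕ) : ℤ) : ℝ) / ((m : ℝ) + 3)) -
        Complex.arg (w (σ i) / rv m (σ i)) with hχdef
    have hNRχ : NR m (1 / ((m : ℝ) + 3)) χ := by
      intro i
      have h2 : χ i - (χ 0 + 2 * π * (i : ℝ) / ((m : ℝ) + 3)) =
          Complex.arg (w (σ 0) / rv m (σ 0)) - Complex.arg (w (σ i) / rv m (σ i)) := by
        simp only [hχdef]
        push_cast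
        simp only [Fin.val_zero, Nat.cast_zero]
        ring
      rw [h2]
      refine (abs_sub _ _).trans ?_
      have := harg (σ i)
      have := harg (σ 0)
      linarith
    have hPoχ : Po (fun i => conj (w (σ i))) χ := by
      intro i
      refine ⟨by simpa using hpos (σ i), ?_⟩
      show conj (w (σ i)) = (‖conj (w (σ i))‖ : ℂ) * Complex.exp ((χ i : ℂ) * Complex.I)
      conv_lhs => rw [hrep (σ i)]
      rw [Complex.norm_conj, map_mul, Complex.conj_ofReal, map_mul, ← Complex.exp_conj]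
      congr 1
      rw [hχdef]
      simp only
      rw [← pf_cgn_rv m (((σ 0 : Fin (m + 3)) : ℕ) - (i : ℕ) : ℤ) (σ i), ← Complex.exp_conj,
        ← Complex.exp_add]
      · congr 1
        simp only [map_mul, Complex.conj_ofReal, Complex.conj_I]
        push_cast
        ring
      · rw [hs i, Fin.val_sub]
        have h3 := Int.mul_ediv_add_emod (((m : ℤ) + 3 - (i : ℕ)) + ((σ 0 : Fin (m + 3)) : ℕ) : ℤ)
          ((m : ℤ) + 3)
        refine ⟨(((m : ℤ) + 3 - (i : ℕ)) + ((σ 0 : Fin (m + 3)) : ℕ) : ℤ) / ((m : ℤ) + 3) - 1, ?_⟩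
        have h4 : (i : ℕ) ≤ m + 3 := i.isLt.le
        push_cast [Nat.cast_sub h4]
        linarith
    obtain ⟨θ, hθ⟩ := pf_cgn_core h1 m (fun i => conj (w (σ i))) (fun i => w' (e i)) χ ψ hNRχ hPoχ
      hNR' hPo (by intro i; simpa using hno i) (by
        intro i
        rw [hdi' i, dist_eq_norm, dist_eq_norm, ← map_sub, Complex.norm_conj])
    refine ⟨(Complex.conjLIE.trans (rotation (Circle.exp θ))).toIsometryEquiv, ?_, ?_⟩
    · simp
    · intro i
      have hθi : w' (e i) = Complex.exp ((θ : ℂ) * Complex.I) * conj (w (σ i)) := hθ i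
      rw [hθi]
      simp [rotation_apply, Circle.coe_exp]

end Pool.Agent.H212AN

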