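import Pool.Agent.H212AN.E3

set_option autoImplicit false

namespace Pool.Agent.H212AN

open MeasureTheory Set Filter Topology Metric
open Pool.Agent.H212AN.G (nG PG gm gk)
open scoped Real ENNReal ComplexConjugate

theorem pf_clo_ang (a b : ℂ) (α β : ℝ) (ha : 0 < ‖a‖) (hb : 0 < ‖b‖)
    (ea : a = (‖a‖ : ℂ) * Complex.exp ((α : ℂ) * Complex.I))
    (eb : b = (‖b‖ : ℂ) * Complex.exp ((β : ℂ) * Complex.I)) :
    ang ‖a‖ ‖b‖ (dist a b) = Real.arccos (Real.cos (β - α)) := by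
  unfold ang
  congr 1
  have h1 : a.re = ‖a‖ * Real.cos α := by
    have h := congrArg Complex.re ea
    rwa [Complex.re_ofReal_mul, Complex.exp_ofReal_mul_I_re] at h
  have h2 : a.im = ‖a‖ * Real.sin α := by
    have h := congrArg Complex.im ea
    rwa [Complex.im_ofReal_mul, Complex.exp_ofReal_mul_I_im] at h
  have h3 : b.re = ‖b‖ * Real.cos β := by
    have h := congrArg Complex.re eb
    rwa [Complex.re_ofReal_mul, Complex.exp_ofReal_mul_I_re] at h
  have h4 : b.im = ‖b‖ * Real.sin β := by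
    have h := congrArg Complex.im eb
    rwa [Complex.im_ofReal_mul, Complex.exp_ofReal_mul_I_im] at h
  have h5 : dist a b ^ 2 = (a.re - b.re) ^ 2 + (a.im - b.im) ^ 2 := by
    rw [Complex.dist_eq, Complex.sq_norm, Complex.normSq_apply, Complex.sub_re, Complex.sub_im]
    ring
  rw [h5, h1, h2, h3, h4, Real.cos_sub, div_eq_iff (by positivity)]
  have hα := Real.sin_sq_add_cos_sq α
  have hβ := Real.sin_sq_add_cos_sq β
  linear_combination (-(‖a‖ ^ 2)) * hα - ‖b‖ ^ 2 * hβ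

theorem pf_clo_tel : ∀ (n : ℕ) (ψ : Fin (n + 1) → ℝ),
    ∑ i : Fin n, (ψ i.succ - ψ i.castSucc) = ψ (Fin.last n) - ψ 0 := by
  intro n
  induction n with
  | zero => intro ψ; simp
  | succ n ih =>
    intro ψ
    rw [Fin.sum_univ_castSucc]
    have h := ih (fun i => ψ i.castSucc)
    simp only [Fin.succ_castSucc] at h ⊢
    rw [h, Fin.succ_last]
    simp

theorem pf_clo : S_clo := by
  intro m v ψ hN hP
  have hm : (0 : ℝ) < (m : ℝ) + 3 := by positivity
  have hm3 : (3 : ℝ) ≤ (m : ℝ) + 3 := by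
    have : (0 : ℝ) ≤ (m : ℝ) := Nat.cast_nonneg m
    linarith
  have hpi := Real.pi_gt_three
  have hpi4 := Real.pi_le_four
  have key : ∀ i : Fin (m + 3), (i : ℕ) < m + 2 →
      ang ‖v i‖ ‖v (i + 1)‖ (dist (v i) (v (i + 1))) = ψ (i + 1) - ψ i := by
    intro i hi
    have hval : ((i + 1 : Fin (m + 3)) : ℕ) = (i : ℕ) + 1 :=
      Fin.val_add_one_of_lt (by rw [Fin.lt_def, Fin.val_last]; exact hi)
    rw [pf_clo_ang (v i) (v (i + 1)) (ψ i) (ψ (i + 1)) (hP i).1 (hP (i + 1)).1 (hP i).2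
      (hP (i + 1)).2]
    have a1 := abs_le.1 (hN i)
    have a2 := abs_le.1 (hN (i + 1))
    rw [hval] at a2
    push_cast at a2
    have e : 2 * π * ((i : ℝ) + 1) / ((m : ℝ) + 3) = 2 * π * (i : ℝ) / ((m : ℝ) + 3) +
        2 * π / ((m : ℝ) + 3) := by
      field_simp
    have b1 : (2 * π + 2) / ((m : ℝ) + 3) ≤ π := by
      rw [div_le_iff₀ hm]
      nlinarith
    have b2 : 0 < (2 * π - 2) / ((m : ℝ) + 3) := by
      apply div_pos _ hm
      linarith
    have e1 : (2 * π + 2) / ((m : ℝ) + 3) = 2 * π / ((m : ℝ) + 3) + 2 * (1 / ((m : ℝ) + 3)) := by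
      ring
    have e2 : (2 * π - 2) / ((m : ℝ) + 3) = 2 * π / ((m : ℝ) + 3) - 2 * (1 / ((m : ℝ) + 3)) := by
      ring
    apply Real.arccos_cos
    · linarith [a1.1, a1.2, a2.1, a2.2]
    · linarith [a1.1, a1.2, a2.1, a2.2]
  refine ⟨key, ?_⟩
  rw [Fin.sum_univ_castSucc]
  have h1 : ∑ i : Fin (m + 2), ang ‖v i.castSucc‖ ‖v (i.castSucc + 1)‖
      (dist (v i.castSucc) (v (i.castSucc + 1))) = ψ (Fin.last (m + 2)) - ψ 0 := by
    rw [← pf_clo_tel (m + 2) ψ]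
    apply Finset.sum_congr rfl
    intro i _
    rw [key i.castSucc (by simp), Fin.coeSucc_eq_succ]
  have hl : (Fin.last (m + 2) + 1 : Fin (m + 3)) = 0 := Fin.last_add_one _
  rw [h1, hl]
  rw [pf_clo_ang (v (Fin.last (m + 2))) (v 0) (ψ (Fin.last (m + 2))) (ψ 0)
    (hP _).1 (hP _).1 (hP _).2 (hP _).2]
  have a1 := abs_le.1 (hN (Fin.last (m + 2)))
  rw [Fin.val_last] at a1
  push_cast at a1
  have e : 2 * π * ((m : ℝ) + 2) / ((m : ℝ) + 3) = 2 * π - 2 * π / ((m : ℝ) + 3) := by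
    field_simp
    ring
  have b1 : (2 * π + 1) / ((m : ℝ) + 3) ≤ π := by
    rw [div_le_iff₀ hm]
    nlinarith
  have b2 : 0 < (2 * π - 1) / ((m : ℝ) + 3) := by
    apply div_pos _ hm
    linarith
  have e1 : (2 * π + 1) / ((m : ℝ) + 3) = 2 * π / ((m : ℝ) + 3) + 1 / ((m : ℝ) + 3) := by
    ring
  have e2 : (2 * π - 1) / ((m : ℝ) + 3) = 2 * π / ((m : ℝ) + 3) - 1 / ((m : ℝ) + 3) := by
    ring
  have h2 : Real.arccos (Real.cos (ψ 0 - ψ (Fin.last (m + 2)))) =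
      ψ 0 - ψ (Fin.last (m + 2)) + 2 * π := by
    rw [← Real.cos_add_two_pi]
    apply Real.arccos_cos
    · linarith [a1.1, a1.2]
    · linarith [a1.1, a1.2]
  rw [h2]
  ring

end Pool.Agent.H212AN
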