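import Pool.Agent.H212AN.E3

set_option autoImplicit false

namespace Pool.Agent.H212AN

open MeasureTheory Set Filter Topology Metric
open Pool.Agent.H212AN.G (nG PG gm gk)
open scoped Real ENNReal ComplexConjugate ContDiff

theorem pf_dns_dense {E : Type} [NormedAddCommGroup E] [NormedSpace ℝ E] {N : Set E}
    (hN : IsOpen N) (hc : IsPreconnected N) {ι : Type} (s : Finset ι) (f : ι → E → ℝ)
    (hf : ∀ k ∈ s, AnalyticOnNhd ℝ (f k) N) (hne : ∀ k ∈ s, ∃ w ∈ N, f k w ≠ 0) :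
    ∀ w₀ ∈ N, ∀ ε : ℝ, 0 < ε → ∃ w ∈ N, dist w w₀ < ε ∧ ∀ k ∈ s, f k w ≠ 0 := by
  classical
  induction s using Finset.induction_on with
  | empty =>
    intro w₀ hw₀ ε hε
    exact ⟨w₀, hw₀, by simpa using hε, by simp⟩
  | insert k s hk ih =>
    intro w₀ hw₀ ε hε
    obtain ⟨w₁, hw₁, hd₁, hf₁⟩ := ih (fun k hk => hf k (Finset.mem_insert_of_mem hk))
      (fun k hk => hne k (Finset.mem_insert_of_mem hk)) w₀ hw₀ (ε / 2) (by positivity)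
    have hfk := hf k (Finset.mem_insert_self k s)
    have hb : ∀ᶠ w in 𝓝 w₁, dist w w₁ < ε / 2 := Metric.ball_mem_nhds w₁ (half_pos hε)
    have hev : ∀ᶠ w in 𝓝 w₁, w ∈ N ∧ dist w w₁ < ε / 2 ∧ ∀ j ∈ s, f j w ≠ 0 := by
      refine (hN.eventually_mem hw₁).and (hb.and ?_)
      rw [Filter.eventually_all_finset]
      intro j hj
      exact (hf j (Finset.mem_insert_of_mem hj) w₁ hw₁).continuousAt.eventually_ne (hf₁ j hj)
    have hfreq : ∃ᶠ w in 𝓝 w₁, f k w ≠ 0 := by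
      intro h0
      obtain ⟨w₂, hw₂, hne₂⟩ := hne k (Finset.mem_insert_self k s)
      apply hne₂
      refine hfk.eqOn_zero_of_preconnected_of_eventuallyEq_zero hc hw₁ ?_ hw₂
      filter_upwards [h0] with w hw
      exact not_not.1 hw
    obtain ⟨w, h1, h2, h3, h4⟩ := (hfreq.and_eventually hev).exists
    refine ⟨w, h2, ?_, ?_⟩
    · have := dist_triangle w w₁ w₀
      linarith
    · intro j hj
      rcases Finset.mem_insert.1 hj with e | e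
      · rw [e]; exact h1
      · exact h4 j e

theorem pf_dns_norm (m : ℕ) (i : Fin (m + 3)) : ‖rv m i‖ = 1 :=
  Complex.norm_exp_ofReal_mul_I _

theorem pf_dns_succ (m : ℕ) (i : Fin (m + 3)) :
    rv m (i + 1) = rv m i * Complex.exp (((2 * π / ((m : ℝ) + 3) : ℝ) : ℂ) * Complex.I) := by
  have hm : (m : ℝ) + 3 ≠ 0 := by positivity
  unfold rv
  rw [← Complex.exp_add, ← add_mul, ← Complex.ofReal_add]
  by_cases hi : i = Fin.last (m + 2)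
  · have h1 : ((i + 1 : Fin (m + 3)) : ℕ) = 0 := by rw [hi]; simp
    have h2 : ((i : Fin (m + 3)) : ℕ) = m + 2 := by rw [hi]; simp
    rw [h1, h2]
    have h3 : 2 * π * (((m + 2 : ℕ) : ℝ)) / ((m : ℝ) + 3) + 2 * π / ((m : ℝ) + 3) = 2 * π := by
      field_simp
      push_cast
      ring
    rw [h3]
    simp
  · have h1 : ((i + 1 : Fin (m + 3)) : ℕ) = (i : ℕ) + 1 := by
      rw [Fin.val_add_one, if_neg hi]
    rw [h1]
    congr 3
    push_cast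
    ring

theorem pf_dns_dist (m : ℕ) (i : Fin (m + 3)) :
    dist (rv m i) (rv m (i + 1)) ^ 2 = 2 - 2 * Real.cos (2 * π / ((m : ℝ) + 3)) := by
  have h1 : rv m i - rv m (i + 1)
      = rv m i * (1 - Complex.exp (((2 * π / ((m : ℝ) + 3) : ℝ) : ℂ) * Complex.I)) := by
    rw [pf_dns_succ]
    ring
  rw [dist_eq_norm, h1, norm_mul, pf_dns_norm, one_mul, ← Complex.normSq_eq_norm_sq,
    Complex.normSq_apply]
  set t : ℝ := 2 * π / ((m : ℝ) + 3)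
  rw [Complex.sub_re, Complex.sub_im, Complex.exp_ofReal_mul_I_re, Complex.exp_ofReal_mul_I_im,
    Complex.one_re, Complex.one_im]
  nlinarith [Real.sin_sq_add_cos_sq t]

/-- the argument of the arccos -/
theorem pf_dns_centre (m : ℕ) (a : ℝ) (ha : 0 < a) (j k l : Fin (m + 3)) :
    (‖(a : ℂ) * rv m j‖ ^ 2 + ‖(a : ℂ) * rv m k‖ ^ 2 -
      dist ((a : ℂ) * rv m l) ((a : ℂ) * rv m (l + 1)) ^ 2) /
      (2 * ‖(a : ℂ) * rv m j‖ * ‖(a : ℂ) * rv m k‖) = Real.cos (2 * π / ((m : ℝ) + 3)) := by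
  have hn : ∀ i, ‖(a : ℂ) * rv m i‖ = a := by
    intro i
    rw [norm_mul, pf_dns_norm, mul_one, Complex.norm_real, Real.norm_eq_abs, abs_of_pos ha]
  have hd : dist ((a : ℂ) * rv m l) ((a : ℂ) * rv m (l + 1)) ^ 2
      = a ^ 2 * (2 - 2 * Real.cos (2 * π / ((m : ℝ) + 3))) := by
    rw [← pf_dns_dist m l, dist_eq_norm, dist_eq_norm, ← mul_sub, norm_mul, mul_pow,
      Complex.norm_real, Real.norm_eq_abs, abs_of_pos ha]
  rw [hn, hn, hd]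
  field_simp
  ring

theorem pf_dns_cos (m : ℕ) : Real.cos (2 * π / ((m : ℝ) + 3)) ≠ -1 ∧
    Real.cos (2 * π / ((m : ℝ) + 3)) ≠ 1 := by
  have hm : (0 : ℝ) < (m : ℝ) + 3 := by positivity
  have h1 : 0 < 2 * π / ((m : ℝ) + 3) := by positivity
  have h2 : 2 * π / ((m : ℝ) + 3) < π := by
    rw [div_lt_iff₀ hm]
    have h3 : (0 : ℝ) ≤ m := Nat.cast_nonneg m
    nlinarith [Real.pi_pos]
  have h3 := Real.sin_pos_of_pos_of_lt_pi h1 h2
  have h4 := Real.sin_sq_add_cos_sq (2 * π / ((m : ℝ) + 3))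
  constructor
  · intro h5
    rw [h5] at h4
    nlinarith
  · intro h5
    rw [h5] at h4
    nlinarith

theorem pf_dns_sq (n : ℕ) (i : Fin n) (w : Fin n → ℂ) :
    ContDiffAt ℝ ω (fun w : Fin n → ℂ => ‖w i‖ ^ 2) w := by
  have h1 : ContDiff ℝ ω (fun w : Fin n → ℂ => w i) := contDiff_apply ℝ ℂ i
  exact (h1.norm_sq ℝ).contDiffAt

theorem pf_dns_nrm (n : ℕ) (i : Fin n) (w : Fin n → ℂ) (hw : w i ≠ 0) :
    ContDiffAt ℝ ω (fun w : Fin n → ℂ => ‖w i‖) w := by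
  have h1 : ContDiffAt ℝ ω (fun w : Fin n → ℂ => w i) w := (contDiff_apply ℝ ℂ i).contDiffAt
  exact h1.norm ℝ hw

theorem pf_dns_dsq (n : ℕ) (i j : Fin n) (w : Fin n → ℂ) :
    ContDiffAt ℝ ω (fun w : Fin n → ℂ => dist (w i) (w j) ^ 2) w := by
  have h1 : ContDiff ℝ ω (fun w : Fin n → ℂ => w i - w j) :=
    (contDiff_apply ℝ ℂ i).sub (contDiff_apply ℝ ℂ j)
  have h2 := (h1.norm_sq ℝ).contDiffAt (x := w)
  exact h2.congr_of_eventuallyEq (Eventually.of_forall fun w => by simp only [dist_eq_norm])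

theorem pf_dns_ang (n : ℕ) (j k l l' : Fin n) (w : Fin n → ℂ) (hj : w j ≠ 0) (hk : w k ≠ 0)
    (h1 : (‖w j‖ ^ 2 + ‖w k‖ ^ 2 - dist (w l) (w l') ^ 2) / (2 * ‖w j‖ * ‖w k‖) ≠ -1)
    (h2 : (‖w j‖ ^ 2 + ‖w k‖ ^ 2 - dist (w l) (w l') ^ 2) / (2 * ‖w j‖ * ‖w k‖) ≠ 1) :
    ContDiffAt ℝ ω (fun w : Fin n → ℂ => ang ‖w j‖ ‖w k‖ (dist (w l) (w l'))) w := by
  have h3 : ContDiffAt ℝ ω (fun w : Fin n → ℂ =>
      (‖w j‖ ^ 2 + ‖w k‖ ^ 2 - dist (w l) (w l') ^ 2) / (2 * ‖w j‖ * ‖w k‖)) w := by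
    refine (((pf_dns_sq n j w).add (pf_dns_sq n k w)).sub (pf_dns_dsq n l l' w)).div
      ((contDiffAt_const.mul (pf_dns_nrm n j w hj)).mul (pf_dns_nrm n k w hk)) ?_
    have := norm_pos_iff.2 hj
    have := norm_pos_iff.2 hk
    positivity
  exact (Real.contDiffAt_arccos h1 h2).comp w h3

theorem pf_dns_zone (m : ℕ) (a : ℝ) (ha : 0 < a) : ∃ η₀ : ℝ, 0 < η₀ ∧
    ∀ w : Fin (m + 3) → ℂ, (∀ i, ‖w i - a * rv m i‖ < η₀) → (∀ i, w i ≠ 0) ∧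
      ∀ j k l : Fin (m + 3),
      (‖w j‖ ^ 2 + ‖w k‖ ^ 2 - dist (w l) (w (l + 1)) ^ 2) / (2 * ‖w j‖ * ‖w k‖) ≠ -1 ∧
      (‖w j‖ ^ 2 + ‖w k‖ ^ 2 - dist (w l) (w (l + 1)) ^ 2) / (2 * ‖w j‖ * ‖w k‖) ≠ 1 := by
  set c : Fin (m + 3) → ℂ := fun i => a * rv m i with hc
  have hc0 : ∀ i, c i ≠ 0 := by
    intro i
    rw [← norm_pos_iff, hc]
    simp only
    rw [norm_mul, pf_dns_norm, mul_one, Complex.norm_real, Real.norm_eq_abs, abs_of_pos ha]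
    exact ha
  have hev : ∀ᶠ w in 𝓝 c, (∀ i, w i ≠ 0) ∧ ∀ j k l : Fin (m + 3),
      (‖w j‖ ^ 2 + ‖w k‖ ^ 2 - dist (w l) (w (l + 1)) ^ 2) / (2 * ‖w j‖ * ‖w k‖) ≠ -1 ∧
      (‖w j‖ ^ 2 + ‖w k‖ ^ 2 - dist (w l) (w (l + 1)) ^ 2) / (2 * ‖w j‖ * ‖w k‖) ≠ 1 := by
    refine Filter.Eventually.and ?_ ?_
    · rw [Filter.eventually_all]
      intro i
      exact (continuous_apply i).continuousAt.eventually_ne (hc0 i)
    · rw [Filter.eventually_all]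
      intro j
      rw [Filter.eventually_all]
      intro k
      rw [Filter.eventually_all]
      intro l
      have h3 : ContinuousAt (fun w : Fin (m + 3) → ℂ =>
          (‖w j‖ ^ 2 + ‖w k‖ ^ 2 - dist (w l) (w (l + 1)) ^ 2) / (2 * ‖w j‖ * ‖w k‖)) c := by
        refine ContinuousAt.div (by fun_prop) (by fun_prop) ?_
        have := norm_pos_iff.2 (hc0 j)
        have := norm_pos_iff.2 (hc0 k)
        positivity
      have h4 : (‖c j‖ ^ 2 + ‖c k‖ ^ 2 - dist (c l) (c (l + 1)) ^ 2) / (2 * ‖c j‖ * ‖c k‖)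
          = Real.cos (2 * π / ((m : ℝ) + 3)) := pf_dns_centre m a ha j k l
      refine Filter.Eventually.and (h3.eventually_ne ?_) (h3.eventually_ne ?_)
      · rw [h4]; exact (pf_dns_cos m).1
      · rw [h4]; exact (pf_dns_cos m).2
  obtain ⟨η₀, hη, h⟩ := Metric.eventually_nhds_iff_ball.1 hev
  refine ⟨η₀, hη, fun w hw => h w ?_⟩
  rw [Metric.mem_ball, dist_pi_lt_iff hη]
  intro i
  rw [dist_eq_norm]
  exact hw i

theorem pf_dns_gn (m : ℕ) (w : Fin (m + 3) → ℂ) : Gn w ↔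
    (∀ p : Fin (m + 3) × Fin (m + 3), p.1 ≠ p.2 → ‖w p.1‖ ^ 2 - ‖w p.2‖ ^ 2 ≠ 0) ∧
    (∀ p : Fin (m + 3) × Fin (m + 3), p.1 ≠ p.2 →
      dist (w p.1) (w (p.1 + 1)) ^ 2 - dist (w p.2) (w (p.2 + 1)) ^ 2 ≠ 0) ∧
    ∀ q : Equiv.Perm (Fin (m + 3)) × Equiv.Perm (Fin (m + 3)),
      (¬ ∀ i, (q.1 i = q.2 i ∧ q.1 (i + 1) = q.2 i + 1) ∨
        (q.1 i = q.2 i + 1 ∧ q.1 (i + 1) = q.2 i)) →
      ∑ i, ang ‖w (q.1 i)‖ ‖w (q.1 (i + 1))‖ (dist (w (q.2 i)) (w (q.2 i + 1))) - 2 * π ≠ 0 := by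
  constructor
  · rintro ⟨h1, h2, h3⟩
    refine ⟨fun p hp h => hp (h1 ?_), fun p hp h => hp (h2 ?_), fun q hq h => hq (h3 q.1 q.2 ?_)⟩
    · exact (pow_left_inj₀ (norm_nonneg _) (norm_nonneg _) two_ne_zero).1 (sub_eq_zero.1 h)
    · exact (pow_left_inj₀ dist_nonneg dist_nonneg two_ne_zero).1 (sub_eq_zero.1 h)
    · exact sub_eq_zero.1 h
  · rintro ⟨h1, h2, h3⟩
    refine ⟨fun i j hij => ?_, fun i j hij => ?_, fun σ τ hs => ?_⟩
    · by_contra hne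
      refine h1 (i, j) hne ?_
      have hij' : ‖w i‖ = ‖w j‖ := hij
      simp only [hij', sub_self]
    · by_contra hne
      refine h2 (i, j) hne ?_
      have hij' : dist (w i) (w (i + 1)) = dist (w j) (w (j + 1)) := hij
      simp only [hij', sub_self]
    · by_contra hne
      exact h3 (σ, τ) hne (sub_eq_zero.2 hs)

theorem pf_dns (h1 : S_gen) : S_dns := by
  classical
  intro m a ha
  obtain ⟨η₀, hη, hz⟩ := pf_dns_zone m a ha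
  refine ⟨η₀, hη, fun w₀ hw₀ ε hε => ?_⟩
  set c : Fin (m + 3) → ℂ := fun i => a * rv m i with hc
  have hball : ∀ w : Fin (m + 3) → ℂ, w ∈ Metric.ball c η₀ ↔ ∀ i, ‖w i - a * rv m i‖ < η₀ := by
    intro w
    rw [Metric.mem_ball, dist_pi_lt_iff hη]
    simp only [dist_eq_norm, hc]
  obtain ⟨wg, hwg, hgn⟩ := h1 m a η₀ ha hη
  obtain ⟨g1, g2, g3⟩ := (pf_dns_gn m wg).1 hgn
  let ι : Type := (Fin (m + 3) × Fin (m + 3)) ⊕ ((Fin (m + 3) × Fin (m + 3)) ⊕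
    (Equiv.Perm (Fin (m + 3)) × Equiv.Perm (Fin (m + 3))))
  let f : ι → (Fin (m + 3) → ℂ) → ℝ := Sum.elim (fun p w => ‖w p.1‖ ^ 2 - ‖w p.2‖ ^ 2)
    (Sum.elim (fun p w => dist (w p.1) (w (p.1 + 1)) ^ 2 - dist (w p.2) (w (p.2 + 1)) ^ 2)
      (fun q w => ∑ i, ang ‖w (q.1 i)‖ ‖w (q.1 (i + 1))‖ (dist (w (q.2 i)) (w (q.2 i + 1)))
        - 2 * π))
  let P : ι → Prop := Sum.elim (fun p => p.1 ≠ p.2) (Sum.elim (fun p => p.1 ≠ p.2)
    (fun q => ¬ ∀ i, (q.1 i = q.2 i ∧ q.1 (i + 1) = q.2 i + 1) ∨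
        (q.1 i = q.2 i + 1 ∧ q.1 (i + 1) = q.2 i)))
  have han : ∀ k : ι, AnalyticOnNhd ℝ (f k) (Metric.ball c η₀) := by
    intro k w hw
    obtain ⟨z1, z2⟩ := hz w ((hball w).1 hw)
    apply ContDiffAt.analyticAt
    rcases k with p | p | q
    · exact (pf_dns_sq _ p.1 w).sub (pf_dns_sq _ p.2 w)
    · exact (pf_dns_dsq _ p.1 (p.1 + 1) w).sub (pf_dns_dsq _ p.2 (p.2 + 1) w)
    · refine ContDiffAt.sub (ContDiffAt.sum fun i _ => ?_) contDiffAt_const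
      exact pf_dns_ang _ _ _ _ _ w (z1 _) (z1 _) (z2 _ _ _).1 (z2 _ _ _).2
  have hne : ∀ k : ι, P k → ∃ w ∈ Metric.ball c η₀, f k w ≠ 0 := by
    intro k hk
    refine ⟨wg, (hball wg).2 hwg, ?_⟩
    rcases k with p | p | q
    · exact g1 p hk
    · exact g2 p hk
    · exact g3 q hk
  obtain ⟨w, hwN, hwd, hwf⟩ := pf_dns_dense Metric.isOpen_ball
    (convex_ball c η₀).isPreconnected ((Finset.univ : Finset ι).filter P) f
    (fun k _ => han k) (fun k hk => hne k (Finset.mem_filter.1 hk).2) w₀ ((hball w₀).2 hw₀) ε hε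
  rw [dist_pi_lt_iff hε] at hwd
  refine ⟨w, fun i => by rw [← dist_eq_norm]; exact hwd i, (pf_dns_gn m w).2 ⟨?_, ?_, ?_⟩⟩
  · intro p hp
    exact hwf (Sum.inl p) (Finset.mem_filter.2 ⟨Finset.mem_univ _, hp⟩)
  · intro p hp
    exact hwf (Sum.inr (Sum.inl p)) (Finset.mem_filter.2 ⟨Finset.mem_univ _, hp⟩)
  · intro q hq
    exact hwf (Sum.inr (Sum.inr q)) (Finset.mem_filter.2 ⟨Finset.mem_univ _, hq⟩)

end Pool.Agent.H212AN
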