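import Pool.Agent.H212AN.E3

set_option autoImplicit false

namespace Pool.Agent.H212AN

open MeasureTheory Set Filter Topology Metric
open Pool.Agent.H212AN.G (nG PG gm gk)
open scoped Real ENNReal ComplexConjugate

theorem pf_gaps_hpos {n : ℕ} {R r : ℝ} {w : Fin n → ℂ} (hw : OKn n R r w)
    (k : {p : Fin n × Fin n // p.1 < p.2}) : 0 < hgap r w k := by
  have := hw.2.2 k.1.1 k.1.2 (ne_of_lt k.2)
  unfold hgap
  linarith

theorem pf_gaps_opos {n : ℕ} {R r : ℝ} {w : Fin n → ℂ} (hw : OKn n R r w) (i : Fin n) :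
    0 < ogap R r w i := by
  have := hw.2.1 i
  unfold ogap
  linarith

theorem pf_gaps_mu {ι : Type} [Fintype ι] (f f' : ι → ℝ) (y : ℝ) (k : ι) (hk : f' k = y)
    (h : mu' f y = mu' f' y) : ∃ k', f k' = y := by
  have h1 : 0 < mu' f' y := by
    unfold mu'
    rw [Finset.card_pos]
    exact ⟨k, by simp [hk]⟩
  rw [← h] at h1
  unfold mu' at h1
  rw [Finset.card_pos] at h1
  obtain ⟨k', hk'⟩ := h1
  exact ⟨k', by simpa using hk'⟩

theorem pf_gaps_mu0 {ι : Type} [Fintype ι] (f : ι → ℝ) (x : ℝ) (h : ∀ k, f k ≠ x) :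
    mu' f x = 0 := by
  unfold mu'
  rw [Finset.card_eq_zero, Finset.filter_eq_empty_iff]
  intro k _
  exact h k

theorem pf_gaps_pair {n : ℕ} {r g : ℝ} {w : Fin n → ℂ} (h : ∀ k, g ≤ hgap r w k) (i j : Fin n)
    (hij : i ≠ j) : g ≤ dist (w i) (w j) - 2 * r := by
  rcases lt_or_gt_of_ne hij with h1 | h1
  · exact h ⟨(i, j), h1⟩
  · have := h ⟨(j, i), h1⟩
    unfold hgap at this
    rw [dist_comm]
    exact this

/-- a common positive lower bound for all gaps -/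
theorem pf_gaps_low {n : ℕ} (hn : 0 < n) {R r : ℝ} {w w' : Fin n → ℂ} (hw : OKn n R r w)
    (hw' : OKn n R r w') (g : ℝ) (hg1 : ∀ k, g ≤ hgap r w k) (hg2 : ∀ i, g ≤ ogap R r w i)
    (x : ℝ) (hx : 0 < x) (hxg : x < 3 / 2 * g)
    (hmu : ∀ y : ℝ, 0 < y → y < x → mu' (hgap r w) y = mu' (hgap r w') y ∧
      mu' (ogap R r w) y = mu' (ogap R r w') y) :
    ∃ g₀ : ℝ, 0 < g₀ ∧ x < 3 / 2 * g₀ ∧ (∀ k, g₀ ≤ hgap r w k ∧ g₀ ≤ hgap r w' k) ∧
      ∀ i, g₀ ≤ ogap R r w i ∧ g₀ ≤ ogap R r w' i := by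
  have hg : 0 < g := by linarith
  have : Nonempty (Fin n) := ⟨⟨0, hn⟩⟩
  obtain ⟨z, hz⟩ := Finite.exists_min
    (Sum.elim (hgap r w') (ogap R r w') :
      ({p : Fin n × Fin n // p.1 < p.2} ⊕ Fin n) → ℝ)
  set g' : ℝ := Sum.elim (hgap r w') (ogap R r w') z with hg'def
  have hg'1 : ∀ k, g' ≤ hgap r w' k := fun k => hz (Sum.inl k)
  have hg'2 : ∀ i, g' ≤ ogap R r w' i := fun i => hz (Sum.inr i)
  have hg'pos : 0 < g' := by
    rcases z with k | i
    · exact pf_gaps_hpos hw' k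
    · exact pf_gaps_opos hw' i
  have key : g ≤ g' ∨ x ≤ g' := by
    by_contra hcon
    push Not at hcon
    obtain ⟨h1, h2⟩ := hcon
    obtain ⟨h3, h4⟩ := hmu g' hg'pos h2
    rcases z with k | i
    · obtain ⟨k', hk'⟩ := pf_gaps_mu _ _ g' k rfl h3
      have := hg1 k'
      linarith
    · obtain ⟨k', hk'⟩ := pf_gaps_mu _ _ g' i rfl h4
      have := hg2 k'
      linarith
  refine ⟨min g g', lt_min hg hg'pos, ?_, fun k => ⟨?_, ?_⟩, fun i => ⟨?_, ?_⟩⟩
  · rcases le_total g g' with h | h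
    · rw [min_eq_left h]; exact hxg
    · rw [min_eq_right h]
      rcases key with h1 | h1
      · have : g = g' := le_antisymm h1 h
        rw [← this]; exact hxg
      · linarith
  · exact (min_le_left _ _).trans (hg1 k)
  · exact (min_le_right _ _).trans (hg'1 k)
  · exact (min_le_left _ _).trans (hg2 i)
  · exact (min_le_right _ _).trans (hg'2 i)

/-- the two expectations agree -/
theorem pf_gaps_ev (h6 : S_zev) {Z : Set ℂ → ℝ → ℝ} (hU : ZUp Z) (hL : ZLo Z)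
    (hZ : ∀ Q t, 0 ≤ Z Q t) {μ : Measure Lo} (hμ : IsLoop μ) {n : ℕ} (hn : 0 < n) {R r : ℝ}
    {w : Fin n → ℂ} (hw : OKn n R r w) (t : ℝ) (ht : 0 < t) :
    (EV μ (NH n R r 0 w) t).toReal = 4 * π * t * Z (NH n R r 0 w) t := by
  have hR : 0 < R := by
    have h1 := hw.2.1 ⟨0, hn⟩
    have h2 := norm_nonneg (w ⟨0, hn⟩)
    have h3 := hw.1
    linarith
  have h := (h6 Z hU hL hZ μ hμ n 0 w R r hw.1 hR ?_ ?_).2 t ht
  · exact h.1.symm
  · intro i
    have h1 := hw.2.1 i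
    apply closedBall_subset_ball'
    rw [dist_zero_right]
    linarith
  · intro i j hij
    have h1 := hw.2.2 i j hij
    apply closedBall_disjoint_closedBall
    linarith

theorem pf_gaps_sum (μ : Measure Lo) {n : ℕ} (r t : ℝ) (w : Fin n → ℂ) :
    ∑ p ∈ prs n, Hp μ r (dist (w p.1) (w p.2) - 2 * r) t =
      ∑ k : {p : Fin n × Fin n // p.1 < p.2}, Hp μ r (hgap r w k) t := by
  rw [Finset.sum_subtype (prs n) (p := fun p : Fin n × Fin n => p.1 < p.2)
    (by intro x; simp [prs]) (fun p => Hp μ r (dist (w p.1) (w p.2) - 2 * r) t)]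
  rfl

theorem pf_gaps (h1 : S_loop) (h2 : S_pc) (h3 : S_wl) (h4 : S_HO) (h5 : S_Ob) (h6 : S_zev) (h7 : S_ien) (h8 : S_pk) : S_gaps := by
  intro Z hU hL hZ hSq n R r w w' hw hw' hEq g hg1 hg2 x hx hxg hmu
  obtain ⟨μ, hμ⟩ := h1
  obtain ⟨ν, hν⟩ := h2 μ hμ
  have hWl := h3 Z hU hL hZ hSq μ ν hμ hν
  have hr : 0 < r := hw.1
  rcases Nat.eq_zero_or_pos n with hn0 | hn
  · subst hn0
    rw [pf_gaps_mu0 (hgap r w) x (fun k => k.1.1.elim0),
      pf_gaps_mu0 (hgap r w') x (fun k => k.1.1.elim0),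
      pf_gaps_mu0 (ogap R r w) x (fun k => k.elim0),
      pf_gaps_mu0 (ogap R r w') x (fun k => k.elim0)]
  have hRr : r < R := by
    have e1 := hw.2.1 ⟨0, hn⟩
    have e2 := norm_nonneg (w ⟨0, hn⟩)
    linarith
  have hom : ∀ (v : Fin n → ℂ) (i : Fin n), ogap R r v i ≤ R - r := by
    intro v i
    have := norm_nonneg (v i)
    unfold ogap
    linarith
  rcases lt_or_ge x (R - r) with hxm | hxm
  · obtain ⟨g₀, hg0, hxg0, hgh, hgo⟩ := pf_gaps_low hn hw hw' g hg1 hg2 x hx hxg hmu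
    obtain ⟨V, hV⟩ := h7 μ hμ n R r
    have key := h8 (fun x t => Hp μ r x t) (fun x t => Op μ R r x t)
      (fun x => Lc x (1 / r) (1 / r)) (fun x => Lc x (1 / r) (-(1 / R))) (R - r)
      (fun y hy => (h4 μ ν hμ hν hWl r R y hr hy).1)
      (fun y hy hym => (h4 μ ν hμ hν hWl r R y hr hy).2 hym)
      (by
        intro y hy hym θ hθ hθ1
        obtain ⟨C, hC⟩ := (h5 μ hμ R r y hr hy hym).1 θ hθ hθ1
        refine ⟨C, fun t ht ht1 => ?_⟩
        have e : 0 ≤ Op μ R r y t := ENNReal.toReal_nonneg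
        rw [abs_of_nonneg e]
        exact hC t ht ht1)
      {p : Fin n × Fin n // p.1 < p.2} inferInstance n (hgap r w) (hgap r w') (ogap R r w)
      (ogap R r w') g₀ hg0 hgh
      (fun i => ⟨(hgo i).1, (hgo i).2, hom w i, hom w' i⟩)
      (by
        intro θ hθ hθ1
        obtain ⟨C, hC⟩ := hV w hw g₀ hg0 (fun i => (hgo i).1)
          (pf_gaps_pair (fun k => (hgh k).1)) θ hθ hθ1
        obtain ⟨C', hC'⟩ := hV w' hw' g₀ hg0 (fun i => (hgo i).2)
          (pf_gaps_pair (fun k => (hgh k).2)) θ hθ hθ1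
        refine ⟨C + C', fun t ht ht1 => ?_⟩
        have e1 := hC t ht ht1
        have e2 := hC' t ht ht1
        rw [pf_gaps_ev h6 hU hL hZ hμ hn hw t ht, pf_gaps_sum] at e1
        rw [pf_gaps_ev h6 hU hL hZ hμ hn hw' t ht, pf_gaps_sum, ← hEq t ht] at e2
        change |_ - (V t + _ + ∑ i, Op μ R r (ogap R r w i) t)| ≤ _ at e1
        change |_ - (V t + _ + ∑ i, Op μ R r (ogap R r w' i) t)| ≤ _ at e2
        rw [abs_le] at e1 e2 ⊢
        rw [add_mul]
        constructor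
        · linarith [e1.1, e1.2, e2.1, e2.2]
        · linarith [e1.1, e1.2, e2.1, e2.2])
      x hx hxg0 hxm hmu
    exact key
  · -- `n = 1`
    have hn1 : n = 1 := by
      by_contra hne
      have hn2 : 1 < n := by omega
      have a0 := hg2 ⟨0, hn⟩
      have a1 := hg2 ⟨1, hn2⟩
      have a2 := pf_gaps_pair hg1 (⟨0, hn⟩ : Fin n) ⟨1, hn2⟩ (by simp)
      have a3 : dist (w ⟨0, hn⟩) (w ⟨1, hn2⟩) ≤ ‖w ⟨0, hn⟩‖ + ‖w ⟨1, hn2⟩‖ := by
        rw [dist_eq_norm]
        exact norm_sub_le _ _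
      unfold ogap at a0 a1
      linarith
    have hE : ∀ k : {p : Fin n × Fin n // p.1 < p.2}, False := by
      intro k
      have := k.2
      have b1 := k.1.1.isLt
      have b2 := k.1.2.isLt
      rw [Fin.lt_def] at this
      omega
    rw [pf_gaps_mu0 (hgap r w) x (fun k => (hE k).elim),
      pf_gaps_mu0 (hgap r w') x (fun k => (hE k).elim)]
    rcases eq_or_lt_of_le hxm with hxe | hxl
    · have hL0 : Lc x (1 / r) (-(1 / R)) = 0 := by
        unfold Lc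
        have hR0 : R ≠ 0 := by linarith
        have hr0 : r ≠ 0 := hr.ne'
        have : 1 / r + -(1 / R) + x * (1 / r) * -(1 / R) = 0 := by
          rw [← hxe]
          field_simp
          ring
        rw [this, Real.sqrt_zero, div_zero]
      rw [hL0]
      ring
    · rw [pf_gaps_mu0 (ogap R r w) x (fun i => ne_of_lt (lt_of_le_of_lt (hom w i) hxl)),
        pf_gaps_mu0 (ogap R r w') x (fun i => ne_of_lt (lt_of_le_of_lt (hom w' i) hxl))]

end Pool.Agent.H212AN
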