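import Pool.Agent.H212AN.E3

set_option autoImplicit false

namespace Pool.Agent.H212AN

open MeasureTheory Set Filter Topology Metric
open Pool.Agent.H212AN.G (nG PG gm gk)
open scoped Real ENNReal ComplexConjugate

noncomputable def pf_gen_u {m : ℕ} (i : Fin (m + 3)) : ℝ := 2 ^ (i : ℕ)

noncomputable def pf_gen_D {m : ℕ} (σ τ : Equiv.Perm (Fin (m + 3))) (i : Fin (m + 3)) : ℝ :=
  pf_gen_u (σ i) + pf_gen_u (σ (i + 1)) - pf_gen_u (τ i) - pf_gen_u (τ i + 1)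

theorem pf_gen_ne {m : ℕ} (i : Fin (m + 3)) : i ≠ i + 1 := by
  intro h
  have h1 : (1 : Fin (m + 3)) = 0 := by
    have h2 : i + 0 = i + 1 := by rw [add_zero]; exact h
    exact (add_left_cancel h2).symm
  have h3 := congrArg Fin.val h1
  simp at h3

theorem pf_gen_A {m : ℕ} (σ τ : Equiv.Perm (Fin (m + 3))) (h : ∀ i, pf_gen_D σ τ i = 0) :
    ∀ i, (σ i = τ i ∧ σ (i + 1) = τ i + 1) ∨ (σ i = τ i + 1 ∧ σ (i + 1) = τ i) := by
  intro i
  have h1 := h i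
  unfold pf_gen_D pf_gen_u at h1
  have h2 : (2:ℕ) ^ (σ i : ℕ) + 2 ^ (σ (i+1) : ℕ) =
      2 ^ (τ i : ℕ) + 2 ^ ((τ i + 1 : Fin (m+3)) : ℕ) := by
    have : ((2:ℝ)) ^ (σ i : ℕ) + 2 ^ (σ (i+1) : ℕ) =
      2 ^ (τ i : ℕ) + 2 ^ ((τ i + 1 : Fin (m+3)) : ℕ) := by linarith
    exact_mod_cast this
  have h3 : σ i ≠ σ (i+1) := fun e => pf_gen_ne i (σ.injective e)
  have h4 : τ i ≠ τ i + 1 := pf_gen_ne _
  have h3' : (σ i : ℕ) ≠ (σ (i+1) : ℕ) := fun e => h3 (Fin.ext e)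
  have h4' : (τ i : ℕ) ≠ ((τ i + 1 : Fin (m+3)) : ℕ) := fun e => h4 (Fin.ext e)
  have h5 : ({(σ i : ℕ), (σ (i+1) : ℕ)} : Finset ℕ) =
      {(τ i : ℕ), ((τ i + 1 : Fin (m+3)) : ℕ)} := by
    apply Finset.geomSum_injective le_rfl
    simp only [Finset.sum_pair h3', Finset.sum_pair h4']
    exact h2
  have h6 : (σ i : ℕ) ∈ ({(τ i : ℕ), ((τ i + 1 : Fin (m+3)) : ℕ)} : Finset ℕ) := by
    rw [← h5]; simp
  have h7 : (σ (i+1) : ℕ) ∈ ({(τ i : ℕ), ((τ i + 1 : Fin (m+3)) : ℕ)} : Finset ℕ) := by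
    rw [← h5]; simp
  rw [Finset.mem_insert, Finset.mem_singleton] at h6 h7
  rcases h6 with h6 | h6 <;> rcases h7 with h7 | h7
  · exact absurd (h6.trans h7.symm) h3'
  · exact Or.inl ⟨Fin.ext h6, Fin.ext h7⟩
  · exact Or.inr ⟨Fin.ext h6, Fin.ext h7⟩
  · exact absurd (h6.trans h7.symm) h3'

theorem pf_gen_B {m : ℕ} (σ τ : Equiv.Perm (Fin (m + 3))) : ∑ i, pf_gen_D σ τ i = 0 := by
  unfold pf_gen_D
  rw [Finset.sum_sub_distrib, Finset.sum_sub_distrib, Finset.sum_add_distrib]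
  have e1 := Equiv.sum_comp σ (fun i => (pf_gen_u i : ℝ))
  have e2 := Equiv.sum_comp ((Equiv.addRight (1 : Fin (m+3))).trans σ)
    (fun i => (pf_gen_u i : ℝ))
  have e3 := Equiv.sum_comp τ (fun i => (pf_gen_u i : ℝ))
  have e4 := Equiv.sum_comp (τ.trans (Equiv.addRight (1 : Fin (m+3))))
    (fun i => (pf_gen_u i : ℝ))
  simp only [Equiv.trans_apply, Equiv.coe_addRight] at e2 e4
  rw [e1, e2, e3, e4]; ring

theorem pf_gen_C (m : ℕ) : ∃ x : ℝ, 1 < x ∧ ∀ σ τ : Equiv.Perm (Fin (m + 3)),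
    (∃ i, pf_gen_D σ τ i ≠ 0) → ∑ i, pf_gen_D σ τ i * x ^ (τ i : ℕ) ≠ 0 := by
  classical
  let P : Equiv.Perm (Fin (m+3)) × Equiv.Perm (Fin (m+3)) → Polynomial ℝ :=
    fun p => ∑ i, Polynomial.C (pf_gen_D p.1 p.2 i) * Polynomial.X ^ (p.2 i : ℕ)
  have h1 : (⋃ p : {p : Equiv.Perm (Fin (m+3)) × Equiv.Perm (Fin (m+3)) // P p ≠ 0},
      {x : ℝ | (P p.1).IsRoot x}).Finite :=
    Set.finite_iUnion (fun p => Polynomial.finite_setOfPred_isRoot p.2)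
  have h2 : (Set.Ioi (1:ℝ)).Infinite := Set.Ioi_infinite 1
  obtain ⟨x, hx1, hx2⟩ := (h2.sdiff h1).nonempty
  refine ⟨x, hx1, fun σ τ ⟨i₀, hi₀⟩ hs => hx2 ?_⟩
  have hP : P (σ, τ) ≠ 0 := by
    intro h0
    have h3 := congrArg (fun q => Polynomial.coeff q (τ i₀ : ℕ)) h0
    simp only [P, Polynomial.finsetSum_coeff, Polynomial.coeff_C_mul, Polynomial.coeff_X_pow,
      Polynomial.coeff_zero] at h3
    rw [Finset.sum_eq_single i₀] at h3
    · simp only [if_true, mul_one] at h3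
      exact hi₀ h3
    · intro j _ hj
      rw [if_neg, mul_zero]
      intro e
      exact hj (τ.injective (Fin.ext e.symm))
    · intro h; exact absurd (Finset.mem_univ _) h
  refine Set.mem_iUnion.2 ⟨⟨(σ, τ), hP⟩, ?_⟩
  show Polynomial.IsRoot _ _
  rw [Polynomial.IsRoot.def]
  simp only [P, Polynomial.eval_finsetSum, Polynomial.eval_mul, Polynomial.eval_C,
    Polynomial.eval_pow, Polynomial.eval_X]
  exact hs

theorem pf_gen_th (m : ℕ) : ∃ Θ : ℕ → ℝ, Θ 0 = 0 ∧ Θ (m + 3) = 0 ∧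
    (∀ j k : ℕ, Θ (j + 1) - Θ j = Θ (k + 1) - Θ k → j = k) ∧
    ∀ σ τ : Equiv.Perm (Fin (m + 3)), (∃ i, pf_gen_D σ τ i ≠ 0) →
      ∑ i, pf_gen_D σ τ i * (Θ ((τ i : ℕ) + 1) - Θ (τ i : ℕ)) ≠ 0 := by
  obtain ⟨x, hx, h⟩ := pf_gen_C m
  let M : ℝ := (∑ j ∈ Finset.range (m+3), x ^ j) / ((m : ℝ) + 3)
  have hd : ∀ k : ℕ, (∑ j ∈ Finset.range (k+1), (x ^ j - M)) -
      ∑ j ∈ Finset.range k, (x ^ j - M) = x ^ k - M := by
    intro k; rw [Finset.sum_range_succ]; ring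
  refine ⟨fun i => ∑ j ∈ Finset.range i, (x ^ j - M), by simp, ?_, ?_, ?_⟩
  · show ∑ j ∈ Finset.range (m+3), (x ^ j - M) = 0
    rw [Finset.sum_sub_distrib, Finset.sum_const, Finset.card_range, nsmul_eq_mul]
    have h3 : ((m : ℝ) + 3) ≠ 0 := by positivity
    have : ((m + 3 : ℕ) : ℝ) * M = ∑ j ∈ Finset.range (m+3), x ^ j := by
      simp only [M]
      push_cast
      field_simp
    rw [this, sub_self]
  · intro j k hjk
    simp only [hd] at hjk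
    have : x ^ j = x ^ k := by linarith
    exact (pow_right_injective₀ (by linarith) hx.ne') this
  · intro σ τ hD
    simp only [hd]
    have h5 := h σ τ hD
    have e : ∑ i, pf_gen_D σ τ i * (x ^ (τ i : ℕ) - M) =
        ∑ i, pf_gen_D σ τ i * x ^ (τ i : ℕ) - (∑ i, pf_gen_D σ τ i) * M := by
      rw [Finset.sum_mul, ← Finset.sum_sub_distrib]; congr 1; funext i; ring
    rw [e, pf_gen_B, zero_mul, sub_zero]
    exact h5

theorem pf_gen_k (m : ℕ) (a η : ℝ) (hη : 0 < η) : ∃ Ψ φ : Fin (m + 3) → ℝ,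
    (∀ k, 0 < φ k ∧ φ k < π) ∧ Function.Injective φ ∧
    (∀ k, Real.cos (Ψ (k + 1) - Ψ k) = Real.cos (φ k)) ∧
    (∀ k, ‖(a : ℂ) * Complex.exp ((Ψ k : ℂ) * Complex.I) - a * rv m k‖ < η) ∧
    ∀ σ τ : Equiv.Perm (Fin (m + 3)), (∃ i, pf_gen_D σ τ i ≠ 0) →
      ∑ i, pf_gen_D σ τ i * Real.tan (φ (τ i) / 2) ≠ 0 := by
  obtain ⟨Θ, hΘ0, hΘn, hinj, hD⟩ := pf_gen_th m
  have hm : (0 : ℝ) < (m : ℝ) + 3 := by positivity
  let Ψ : ℝ → Fin (m + 3) → ℝ := fun κ k => 2 * π * (k : ℝ) / ((m : ℝ) + 3) + κ * Θ (k : ℕ)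
  let φ : ℝ → Fin (m + 3) → ℝ := fun κ k =>
    2 * π / ((m : ℝ) + 3) + κ * (Θ ((k : ℕ) + 1) - Θ (k : ℕ))
  have hpos : 0 < 2 * π / ((m : ℝ) + 3) := by positivity
  have hlt : 2 * π / ((m : ℝ) + 3) < π := by
    rw [div_lt_iff₀ hm]
    nlinarith [Real.pi_pos, (Nat.cast_nonneg m : (0:ℝ) ≤ m), mul_nonneg Real.pi_pos.le (Nat.cast_nonneg m : (0:ℝ) ≤ m)]
  have E1 : ∀ k, ∀ᶠ κ in 𝓝[>] (0 : ℝ), 0 < φ κ k ∧ φ κ k < π := by
    intro k
    have hc : ContinuousAt (fun κ : ℝ => φ κ k) 0 := by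
      simp only [φ]; fun_prop
    have h0 : φ 0 k = 2 * π / ((m : ℝ) + 3) := by simp [φ]
    have h1 : ∀ᶠ κ in 𝓝 (0 : ℝ), 0 < φ κ k :=
      hc.eventually_const_lt (by show 0 < φ 0 k; rw [h0]; exact hpos)
    have h2 : ∀ᶠ κ in 𝓝 (0 : ℝ), φ κ k < π :=
      hc.eventually_lt_const (by show φ 0 k < π; rw [h0]; exact hlt)
    exact nhdsWithin_le_nhds (h1.and h2)
  have E2 : ∀ᶠ κ in 𝓝[>] (0 : ℝ), Function.Injective (φ κ) := by
    filter_upwards [self_mem_nhdsWithin] with κ hκ j k hjk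
    have hκ' : (0:ℝ) < κ := hκ
    simp only [φ] at hjk
    have : κ * (Θ ((j : ℕ) + 1) - Θ (j : ℕ)) = κ * (Θ ((k : ℕ) + 1) - Θ (k : ℕ)) := by linarith
    exact Fin.ext (hinj _ _ (mul_left_cancel₀ hκ'.ne' this))
  have E3 : ∀ κ : ℝ, ∀ k, Real.cos (Ψ κ (k + 1) - Ψ κ k) = Real.cos (φ κ k) := by
    intro κ k
    by_cases hk : (k : ℕ) + 1 < m + 3
    · have h1 : ((k + 1 : Fin (m + 3)) : ℕ) = (k : ℕ) + 1 := by
        rw [Fin.val_add]
        have : ((1 : Fin (m + 3)) : ℕ) = 1 := by simp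
        rw [this, Nat.mod_eq_of_lt hk]
      simp only [Ψ, φ, h1]
      congr 1
      push_cast
      field_simp
      ring
    · have h0 : (k : ℕ) = m + 2 := by have := k.2; omega
      have h1 : ((k + 1 : Fin (m + 3)) : ℕ) = 0 := by
        rw [Fin.val_add]
        have : ((1 : Fin (m + 3)) : ℕ) = 1 := by simp
        rw [this, h0, Nat.mod_self]
      simp only [Ψ, φ, h1, h0, hΘ0, hΘn]
      rw [← Real.cos_sub_two_pi (2 * π / ((m : ℝ) + 3) + _)]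
      congr 1
      push_cast
      field_simp
      ring
  have E4 : ∀ k, ∀ᶠ κ in 𝓝[>] (0 : ℝ),
      ‖(a : ℂ) * Complex.exp ((Ψ κ k : ℂ) * Complex.I) - a * rv m k‖ < η := by
    intro k
    have hc : ContinuousAt (fun κ : ℝ =>
      ‖(a : ℂ) * Complex.exp ((Ψ κ k : ℂ) * Complex.I) - a * rv m k‖) 0 := by
      simp only [Ψ]; fun_prop
    refine nhdsWithin_le_nhds (hc.eventually_lt_const ?_)
    show ‖(a : ℂ) * Complex.exp ((Ψ 0 k : ℂ) * Complex.I) - a * rv m k‖ < η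
    have : (a : ℂ) * Complex.exp ((Ψ 0 k : ℂ) * Complex.I) - a * rv m k = 0 := by
      simp [Ψ, rv]
    rw [this, norm_zero]
    exact hη
  have E5 : ∀ σ τ : Equiv.Perm (Fin (m + 3)), (∃ i, pf_gen_D σ τ i ≠ 0) →
      ∀ᶠ κ in 𝓝[>] (0 : ℝ), ∑ i, pf_gen_D σ τ i * Real.tan (φ κ (τ i) / 2) ≠ 0 := by
    intro σ τ hi
    have hcos : Real.cos (2 * π / ((m : ℝ) + 3) / 2) ≠ 0 := by
      refine (Real.cos_pos_of_mem_Ioo ⟨?_, ?_⟩).ne'
      · linarith [Real.pi_pos]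
      · linarith
    have hder : HasDerivAt (fun κ : ℝ => ∑ i, pf_gen_D σ τ i * Real.tan (φ κ (τ i) / 2))
        (∑ i, pf_gen_D σ τ i * (1 / Real.cos (2 * π / ((m : ℝ) + 3) / 2) ^ 2 *
          ((Θ ((τ i : ℕ) + 1) - Θ (τ i : ℕ)) / 2))) 0 := by
      refine HasDerivAt.fun_sum (fun i _ => ?_)
      refine HasDerivAt.const_mul _ ?_
      have h1 : HasDerivAt (fun κ : ℝ => φ κ (τ i) / 2) ((Θ ((τ i : ℕ) + 1) - Θ (τ i : ℕ)) / 2) 0 := by
        simp only [φ]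
        have := (((hasDerivAt_id (0:ℝ)).mul_const (Θ ((τ i : ℕ) + 1) - Θ (τ i : ℕ))).const_add
          (2 * π / ((m : ℝ) + 3))).div_const 2
        simpa using this
      have h0 : φ 0 (τ i) / 2 = 2 * π / ((m : ℝ) + 3) / 2 := by simp [φ]
      have h2 : HasDerivAt Real.tan (1 / Real.cos (2 * π / ((m : ℝ) + 3) / 2) ^ 2)
          (φ 0 (τ i) / 2) := by
        rw [h0]; exact Real.hasDerivAt_tan hcos
      exact h2.comp 0 h1
    have hne : (∑ i, pf_gen_D σ τ i * (1 / Real.cos (2 * π / ((m : ℝ) + 3) / 2) ^ 2 *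
          ((Θ ((τ i : ℕ) + 1) - Θ (τ i : ℕ)) / 2))) ≠ 0 := by
      have e : (∑ i, pf_gen_D σ τ i * (1 / Real.cos (2 * π / ((m : ℝ) + 3) / 2) ^ 2 *
          ((Θ ((τ i : ℕ) + 1) - Θ (τ i : ℕ)) / 2))) =
          (1 / (2 * Real.cos (2 * π / ((m : ℝ) + 3) / 2) ^ 2)) *
            ∑ i, pf_gen_D σ τ i * (Θ ((τ i : ℕ) + 1) - Θ (τ i : ℕ)) := by
        rw [Finset.mul_sum]
        refine Finset.sum_congr rfl (fun i _ => ?_)
        field_simp
      rw [e]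
      exact mul_ne_zero (by positivity) (hD σ τ hi)
    have h3 := hder.eventually_ne (c := 0) hne
    exact nhdsWithin_mono _ (fun x hx => ne_of_gt hx) h3
  have E5' : ∀ᶠ κ in 𝓝[>] (0 : ℝ), ∀ σ τ : Equiv.Perm (Fin (m + 3)),
      (∃ i, pf_gen_D σ τ i ≠ 0) → ∑ i, pf_gen_D σ τ i * Real.tan (φ κ (τ i) / 2) ≠ 0 := by
    rw [eventually_all]; intro σ
    rw [eventually_all]; intro τ
    by_cases hi : ∃ i, pf_gen_D σ τ i ≠ 0
    · filter_upwards [E5 σ τ hi] with κ h _ using h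
    · exact Eventually.of_forall (fun κ h => absurd h hi)
  obtain ⟨κ, h1, h2, h4, h5⟩ := ((eventually_all.2 E1).and (E2.and ((eventually_all.2 E4).and E5'))).exists
  exact ⟨Ψ κ, φ κ, h1, h2, E3 κ, h4, h5⟩

theorem pf_gen_dist (r s ψ χ : ℝ) :
    dist ((r : ℂ) * Complex.exp ((ψ : ℂ) * Complex.I)) ((s : ℂ) * Complex.exp ((χ : ℂ) * Complex.I)) ^ 2 =
      r ^ 2 + s ^ 2 - 2 * r * s * Real.cos (χ - ψ) := by
  rw [Complex.dist_eq, Complex.sq_norm, Complex.normSq_apply]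
  simp only [Complex.sub_re, Complex.sub_im, Complex.re_ofReal_mul, Complex.im_ofReal_mul,
    Complex.exp_ofReal_mul_I_re, Complex.exp_ofReal_mul_I_im]
  rw [Real.cos_sub]
  have h1 := Real.sin_sq_add_cos_sq ψ
  have h2 := Real.sin_sq_add_cos_sq χ
  linear_combination r ^ 2 * h1 + s ^ 2 * h2

theorem pf_gen_norm (r ψ : ℝ) (hr : 0 < r) :
    ‖(r : ℂ) * Complex.exp ((ψ : ℂ) * Complex.I)‖ = r := by
  rw [norm_mul, Complex.norm_exp_ofReal_mul_I, mul_one, Complex.norm_real, Real.norm_eq_abs,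
    abs_of_pos hr]

theorem pf_gen_der {a φ : ℝ} (ha : 0 < a) (h0 : 0 < φ) (h1 : φ < π) (p q s t : ℝ) :
    HasDerivAt (fun ε : ℝ => Real.arccos (((a + ε * p) ^ 2 + (a + ε * q) ^ 2 -
      ((a + ε * s) ^ 2 + (a + ε * t) ^ 2 - 2 * (a + ε * s) * (a + ε * t) * Real.cos φ)) /
        (2 * (a + ε * p) * (a + ε * q))))
      (-(1 / a) * ((p + q - s - t) * Real.tan (φ / 2))) 0 := by
  have hl : ∀ p : ℝ, HasDerivAt (fun ε : ℝ => a + ε * p) p 0 := by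
    intro p
    have := ((hasDerivAt_id (0:ℝ)).mul_const p).const_add a
    simpa using this
  have hN := (((hl p).fun_pow 2).fun_add ((hl q).fun_pow 2)).fun_sub
    ((((hl s).fun_pow 2).fun_add ((hl t).fun_pow 2)).fun_sub
      ((((hl s).const_mul 2).fun_mul (hl t)).mul_const (Real.cos φ)))
  have hDn := ((hl p).const_mul 2).fun_mul (hl q)
  have hne : (2 * (a + 0 * p)) * (a + 0 * q) ≠ 0 := by
    simp [ha.ne']
  have hg := hN.fun_div hDn hne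
  have hv : (((a + 0 * p) ^ 2 + (a + 0 * q) ^ 2 -
      ((a + 0 * s) ^ 2 + (a + 0 * t) ^ 2 - 2 * (a + 0 * s) * (a + 0 * t) * Real.cos φ)) /
        (2 * (a + 0 * p) * (a + 0 * q))) = Real.cos φ := by
    simp only [zero_mul, add_zero]
    field_simp
    ring
  have hsin : 0 < Real.sin φ := Real.sin_pos_of_pos_of_lt_pi h0 h1
  have hsc := Real.sin_sq_add_cos_sq φ
  have hc1 : Real.cos φ ≠ -1 := by intro h; rw [h] at hsc; nlinarith
  have hc2 : Real.cos φ ≠ 1 := by intro h; rw [h] at hsc; nlinarith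
  have ha2 := Real.hasDerivAt_arccos hc1 hc2
  rw [← hv] at ha2
  have hcomp := ha2.comp (0:ℝ) hg
  refine hcomp.congr_deriv ?_
  rw [hv]
  have hs : √(1 - Real.cos φ ^ 2) = Real.sin φ := by
    rw [show 1 - Real.cos φ ^ 2 = Real.sin φ ^ 2 by linarith, Real.sqrt_sq hsin.le]
  rw [hs]
  have hch : Real.cos (φ / 2) ≠ 0 := by
    refine (Real.cos_pos_of_mem_Ioo ⟨?_, ?_⟩).ne' <;> linarith
  have hsh : Real.sin (φ / 2) ≠ 0 := by
    refine (Real.sin_pos_of_pos_of_lt_pi ?_ ?_).ne' <;> linarith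
  have e1 : Real.sin φ = 2 * Real.sin (φ / 2) * Real.cos (φ / 2) := by
    rw [← Real.sin_two_mul]; congr 1; ring
  have e2 : Real.cos φ = 1 - 2 * Real.sin (φ / 2) ^ 2 := by
    have := Real.cos_two_mul (φ / 2)
    have h3 := Real.sin_sq_add_cos_sq (φ / 2)
    rw [show φ = 2 * (φ / 2) by ring, this]
    have : 2 * (φ / 2) / 2 = φ / 2 := by ring
    rw [this]
    linarith
  rw [Real.tan_eq_sin_div_cos, e1, e2]
  simp only [zero_mul, add_zero]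
  field_simp
  ring

theorem pf_gen (h1 : S_clo) : S_gen := by
  intro m a η ha hη
  obtain ⟨Ψ, φ, hφ, hφi, hcos, hclose, hT⟩ := pf_gen_k m a η hη
  let w : ℝ → Fin (m + 3) → ℂ := fun ε i =>
    ((a + ε * pf_gen_u i : ℝ) : ℂ) * Complex.exp ((Ψ i : ℂ) * Complex.I)
  have hu : ∀ i : Fin (m + 3), 0 < pf_gen_u i := fun i => by unfold pf_gen_u; positivity
  have hr : ∀ ε : ℝ, 0 < ε → ∀ i : Fin (m + 3), 0 < a + ε * pf_gen_u i := by
    intro ε hε i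
    have := hu i
    positivity
  have hn : ∀ ε : ℝ, 0 < ε → ∀ i, ‖w ε i‖ = a + ε * pf_gen_u i := by
    intro ε hε i
    exact pf_gen_norm _ _ (hr ε hε i)
  have hd : ∀ ε : ℝ, ∀ k, dist (w ε k) (w ε (k + 1)) ^ 2 =
      (a + ε * pf_gen_u k) ^ 2 + (a + ε * pf_gen_u (k + 1)) ^ 2 -
        2 * (a + ε * pf_gen_u k) * (a + ε * pf_gen_u (k + 1)) * Real.cos (φ k) := by
    intro ε k
    rw [← hcos k]
    exact pf_gen_dist _ _ _ _
  have G1 : ∀ i, ∀ᶠ ε in 𝓝[>] (0 : ℝ), ‖w ε i - a * rv m i‖ < η := by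
    intro i
    have hc : ContinuousAt (fun ε : ℝ => ‖w ε i - a * rv m i‖) 0 := by
      simp only [w]; fun_prop
    refine nhdsWithin_le_nhds (hc.eventually_lt_const ?_)
    have e : w 0 i = (a : ℂ) * Complex.exp ((Ψ i : ℂ) * Complex.I) := by simp [w]
    show ‖w 0 i - a * rv m i‖ < η
    rw [e]
    exact hclose i
  have G2 : ∀ᶠ ε in 𝓝[>] (0 : ℝ), Function.Injective (fun i => ‖w ε i‖) := by
    filter_upwards [self_mem_nhdsWithin] with ε hε i j hij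
    have hε' : (0:ℝ) < ε := hε
    simp only [hn ε hε'] at hij
    have h3 : ε * pf_gen_u i = ε * pf_gen_u j := by linarith
    have h4 := mul_left_cancel₀ hε'.ne' h3
    unfold pf_gen_u at h4
    exact Fin.ext (pow_right_injective₀ (by norm_num) (by norm_num) h4)
  have G3 : ∀ j k : Fin (m + 3), j ≠ k → ∀ᶠ ε in 𝓝[>] (0 : ℝ),
      dist (w ε j) (w ε (j + 1)) ≠ dist (w ε k) (w ε (k + 1)) := by
    intro j k hjk
    have hc : ∀ k : Fin (m + 3), ContinuousAt (fun ε : ℝ => dist (w ε k) (w ε (k + 1)) ^ 2) 0 := by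
      intro k; simp only [w]; fun_prop
    have h0 : dist (w 0 j) (w 0 (j + 1)) ^ 2 ≠ dist (w 0 k) (w 0 (k + 1)) ^ 2 := by
      rw [hd, hd]
      simp only [zero_mul, add_zero]
      intro h
      have h3 : a ^ 2 * Real.cos (φ j) = a ^ 2 * Real.cos (φ k) := by nlinarith
      have h4 := mul_left_cancel₀ (by positivity) h3
      have h5 := Real.injOn_cos ⟨(hφ j).1.le, (hφ j).2.le⟩ ⟨(hφ k).1.le, (hφ k).2.le⟩ h4
      exact hjk (hφi h5)
    have hsub : ContinuousAt (fun ε : ℝ => dist (w ε j) (w ε (j + 1)) ^ 2 -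
        dist (w ε k) (w ε (k + 1)) ^ 2) 0 := (hc j).sub (hc k)
    have h2 := hsub.eventually_ne (y := 0) (sub_ne_zero.2 h0)
    refine nhdsWithin_le_nhds (h2.mono (fun ε h e => h ?_))
    rw [e, sub_self]
  have G3' : ∀ᶠ ε in 𝓝[>] (0 : ℝ), Function.Injective (fun i => dist (w ε i) (w ε (i + 1))) := by
    have h2 : ∀ᶠ ε in 𝓝[>] (0 : ℝ), ∀ j k : Fin (m + 3), j ≠ k →
        dist (w ε j) (w ε (j + 1)) ≠ dist (w ε k) (w ε (k + 1)) := by
      rw [eventually_all]; intro j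
      rw [eventually_all]; intro k
      by_cases hjk : j ≠ k
      · filter_upwards [G3 j k hjk] with ε h _ using h
      · exact Eventually.of_forall (fun ε h => absurd h hjk)
    filter_upwards [h2] with ε h j k hjk
    by_contra hne
    exact h j k hne hjk
  have G4 : ∀ σ τ : Equiv.Perm (Fin (m + 3)), (∃ i, pf_gen_D σ τ i ≠ 0) →
      ∀ᶠ ε in 𝓝[>] (0 : ℝ), ∑ i, ang ‖w ε (σ i)‖ ‖w ε (σ (i + 1))‖
        (dist (w ε (τ i)) (w ε (τ i + 1))) ≠ 2 * π := by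
    intro σ τ hi
    have hder := HasDerivAt.fun_sum (u := Finset.univ) (fun (i : Fin (m + 3)) _ =>
      pf_gen_der ha (hφ (τ i)).1 (hφ (τ i)).2 (pf_gen_u (σ i)) (pf_gen_u (σ (i + 1)))
        (pf_gen_u (τ i)) (pf_gen_u (τ i + 1)))
    rw [← Finset.mul_sum] at hder
    have hne : -(1 / a) * ∑ i, ((pf_gen_u (σ i) + pf_gen_u (σ (i + 1)) - pf_gen_u (τ i) -
        pf_gen_u (τ i + 1)) * Real.tan (φ (τ i) / 2)) ≠ 0 := by
      refine mul_ne_zero (by simp [ha.ne']) ?_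
      exact hT σ τ hi
    have h3 := hder.eventually_ne (c := 2 * π) hne
    have h4 : ∀ᶠ ε in 𝓝[>] (0 : ℝ), _ := nhdsWithin_mono _ (fun x hx => ne_of_gt hx) h3
    filter_upwards [h4, self_mem_nhdsWithin] with ε h5 hε
    have hε' : (0:ℝ) < ε := hε
    have h6 : ∑ i, ang ‖w ε (σ i)‖ ‖w ε (σ (i + 1))‖
        (dist (w ε (τ i)) (w ε (τ i + 1))) = ∑ i, Real.arccos
      (((a + ε * pf_gen_u (σ i)) ^ 2 + (a + ε * pf_gen_u (σ (i + 1))) ^ 2 -
          ((a + ε * pf_gen_u (τ i)) ^ 2 + (a + ε * pf_gen_u (τ i + 1)) ^ 2 -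
            2 * (a + ε * pf_gen_u (τ i)) * (a + ε * pf_gen_u (τ i + 1)) * Real.cos (φ (τ i)))) /
        (2 * (a + ε * pf_gen_u (σ i)) * (a + ε * pf_gen_u (σ (i + 1))))) := by
      refine Finset.sum_congr rfl (fun i _ => ?_)
      unfold ang
      rw [hd, hn ε hε', hn ε hε']
    rw [h6]
    exact h5
  have G4' : ∀ᶠ ε in 𝓝[>] (0 : ℝ), ∀ σ τ : Equiv.Perm (Fin (m + 3)),
      (∃ i, pf_gen_D σ τ i ≠ 0) → ∑ i, ang ‖w ε (σ i)‖ ‖w ε (σ (i + 1))‖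
        (dist (w ε (τ i)) (w ε (τ i + 1))) ≠ 2 * π := by
    rw [eventually_all]; intro σ
    rw [eventually_all]; intro τ
    by_cases hi : ∃ i, pf_gen_D σ τ i ≠ 0
    · filter_upwards [G4 σ τ hi] with ε h _ using h
    · exact Eventually.of_forall (fun ε h => absurd h hi)
  obtain ⟨ε, g1, g2, g3, g4⟩ := ((eventually_all.2 G1).and (G2.and (G3'.and G4'))).exists
  refine ⟨w ε, g1, g2, g3, fun σ τ hst => ?_⟩
  refine pf_gen_A σ τ (fun i => ?_)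
  by_contra hne
  exact g4 σ τ ⟨i, hne⟩ hst

end Pool.Agent.H212AN
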