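import Pool.Agent.H212AN.E3

set_option autoImplicit false

namespace Pool.Agent.H212AN

open MeasureTheory Set Filter Topology Metric
open Pool.Agent.H212AN.G (nG PG gm gk)
open scoped Real ENNReal ComplexConjugate

theorem pf_gop_norm_rv (m : ℕ) (i : Fin (m + 3)) : ‖rv m i‖ = 1 := by
  unfold rv
  exact Complex.norm_exp_ofReal_mul_I _

/-- near a point with non-vanishing coordinates generic rings stay generic -/
theorem pf_gop_near {m : ℕ} {w : Fin (m + 3) → ℂ} (hw : ∀ i, w i ≠ 0) (hG : Gn w) :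
    ∀ᶠ v in 𝓝 w, Gn v := by
  obtain ⟨h1, h2, h3⟩ := hG
  have hcn : ∀ i : Fin (m + 3), ContinuousAt (fun v : Fin (m + 3) → ℂ => ‖v i‖) w := fun i =>
    (continuous_norm.comp (continuous_apply i)).continuousAt
  have hcd : ∀ i j : Fin (m + 3), ContinuousAt (fun v : Fin (m + 3) → ℂ => dist (v i) (v j)) w :=
    fun i j => ((continuous_apply i).dist (continuous_apply j)).continuousAt
  have e1 : ∀ᶠ v in 𝓝 w, ∀ i j : Fin (m + 3), i ≠ j → ‖v i‖ ≠ ‖v j‖ := by
    rw [eventually_all]
    intro i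
    rw [eventually_all]
    intro j
    by_cases hij : i = j
    · exact Eventually.of_forall fun v h => absurd hij h
    · have h4 : ‖w i‖ ≠ ‖w j‖ := fun h => hij (h1 h)
      filter_upwards [((hcn i).ne_iff_eventually_ne (hcn j)).1 h4] with v hv _
      exact hv
  have e2 : ∀ᶠ v in 𝓝 w, ∀ i j : Fin (m + 3), i ≠ j →
      dist (v i) (v (i + 1)) ≠ dist (v j) (v (j + 1)) := by
    rw [eventually_all]
    intro i
    rw [eventually_all]
    intro j
    by_cases hij : i = j
    · exact Eventually.of_forall fun v h => absurd hij h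
    · have h4 : dist (w i) (w (i + 1)) ≠ dist (w j) (w (j + 1)) := fun h => hij (h2 h)
      filter_upwards [((hcd i (i + 1)).ne_iff_eventually_ne (hcd j (j + 1))).1 h4] with v hv _
      exact hv
  have e3 : ∀ᶠ v in 𝓝 w, ∀ σ τ : Equiv.Perm (Fin (m + 3)),
      ∑ i, ang ‖v (σ i)‖ ‖v (σ (i + 1))‖ (dist (v (τ i)) (v (τ i + 1))) = 2 * π →
      ∀ i, (σ i = τ i ∧ σ (i + 1) = τ i + 1) ∨ (σ i = τ i + 1 ∧ σ (i + 1) = τ i) := by
    rw [eventually_all]
    intro σ
    rw [eventually_all]
    intro τ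
    by_cases hC : ∀ i, (σ i = τ i ∧ σ (i + 1) = τ i + 1) ∨ (σ i = τ i + 1 ∧ σ (i + 1) = τ i)
    · exact Eventually.of_forall fun v _ => hC
    · have h4 : ∑ i, ang ‖w (σ i)‖ ‖w (σ (i + 1))‖ (dist (w (τ i)) (w (τ i + 1))) ≠ 2 * π :=
        fun h => hC (h3 σ τ h)
      have h5 : ContinuousAt (fun v : Fin (m + 3) → ℂ =>
          ∑ i, ang ‖v (σ i)‖ ‖v (σ (i + 1))‖ (dist (v (τ i)) (v (τ i + 1)))) w := by
        refine tendsto_finsetSum _ fun i _ => ?_
        unfold ang
        refine Real.continuous_arccos.continuousAt.comp ?_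
        refine ContinuousAt.div ?_ ?_ ?_
        · exact (((hcn (σ i)).pow 2).add ((hcn (σ (i + 1))).pow 2)).sub
            ((hcd (τ i) (τ i + 1)).pow 2)
        · exact (continuousAt_const.mul (hcn (σ i))).mul (hcn (σ (i + 1)))
        · have h6 : ‖w (σ i)‖ ≠ 0 := norm_ne_zero_iff.2 (hw _)
          have h7 : ‖w (σ (i + 1))‖ ≠ 0 := norm_ne_zero_iff.2 (hw _)
          exact mul_ne_zero (mul_ne_zero two_ne_zero h6) h7
      filter_upwards [h5.eventually_ne h4] with v hv h
      exact absurd h hv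
  filter_upwards [e1, e2, e3] with v h4 h5 h6
  refine ⟨?_, ?_, h6⟩
  · intro i j h
    by_contra hij
    exact h4 i j hij h
  · intro i j h
    by_contra hij
    exact h5 i j hij h

/-- generic rings near a regular polygon form an open set -/
theorem pf_gop : S_gop := by
  intro m a ha
  refine ⟨a / 2, by linarith, ?_⟩
  intro η hη hηa
  rw [isOpen_iff_mem_nhds]
  rintro w ⟨hw, hG⟩
  have hne : ∀ i, w i ≠ 0 := by
    intro i h0
    have h1 := hw i
    rw [h0, zero_sub, norm_neg, norm_mul, pf_gop_norm_rv, mul_one, Complex.norm_real,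
      Real.norm_eq_abs, abs_of_pos ha] at h1
    linarith
  have e1 : ∀ᶠ v in 𝓝 w, ∀ i, ‖v i - a * rv m i‖ < η := by
    rw [eventually_all]
    intro i
    have h1 : ContinuousAt (fun v : Fin (m + 3) → ℂ => ‖v i - a * rv m i‖) w :=
      (((continuous_apply i).sub continuous_const).norm).continuousAt
    exact h1.eventually_lt continuousAt_const (hw i)
  filter_upwards [e1, pf_gop_near hne hG] with v h1 h2
  exact ⟨h1, h2⟩

end Pool.Agent.H212AN
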