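import Pool.Agent.H212AN.E2

set_option autoImplicit false

namespace Pool.Agent.H212AN

open MeasureTheory Set Filter Topology Metric
open Pool.Agent.H212AN.G (nG PG gm gk)
open scoped Real ENNReal ComplexConjugate

section gt

open Pool.Agent.H212AN.G

theorem pf_gt_chernoff {s : ℝ} (hs : 0 < s) (M : ℕ) (w : Fin M → ℂ) (x V : ℝ) (hx : 0 ≤ x)
    (hV : 0 < V) (hw : ∑ l, ‖w l‖ ^ 2 ≤ V) :
    PG s M {X | x ≤ ∑ l, ip (w l) (X l)} ≤ ENNReal.ofReal (Real.exp (-(x ^ 2 / (4 * V * s)))) := by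
  set lam : ℝ := x / (2 * V * s) with hlam
  have hl0 : 0 ≤ lam := by positivity
  set F : (Fin M → ℂ) → ℝ≥0∞ := fun X =>
    ENNReal.ofReal (Real.exp (∑ l, ip (((lam : ℝ) : ℂ) * w l) (X l))) with hF
  have hFm : Measurable F := by
    refine (Measurable.exp ?_).ennreal_ofReal
    exact Finset.measurable_sum _ fun l _ => (ip_cont _).measurable.comp (measurable_pi_apply l)
  have h1 := mul_meas_ge_le_lintegral (μ := PG s M) hFm (ENNReal.ofReal (Real.exp (lam * x)))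
  rw [hF, mgf_PG hs] at h1
  have h2 : {X : Fin M → ℂ | x ≤ ∑ l, ip (w l) (X l)} ⊆
      {X | ENNReal.ofReal (Real.exp (lam * x)) ≤
        ENNReal.ofReal (Real.exp (∑ l, ip (((lam : ℝ) : ℂ) * w l) (X l)))} := by
    intro X hX
    rw [mem_ofPred_eq] at hX ⊢
    apply ENNReal.ofReal_le_ofReal
    rw [Real.exp_le_exp]
    have h3 : ∑ l, ip (((lam : ℝ) : ℂ) * w l) (X l) = lam * ∑ l, ip (w l) (X l) := by
      rw [Finset.mul_sum]
      exact Finset.sum_congr rfl fun l _ => ip_smul_left _ _ _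
    rw [h3]
    exact mul_le_mul_of_nonneg_left hX hl0
  have h4 : ∑ l, ‖((lam : ℝ) : ℂ) * w l‖ ^ 2 ≤ lam ^ 2 * V := by
    have h5 : ∑ l, ‖((lam : ℝ) : ℂ) * w l‖ ^ 2 = lam ^ 2 * ∑ l, ‖w l‖ ^ 2 := by
      rw [Finset.mul_sum]
      refine Finset.sum_congr rfl fun l _ => ?_
      rw [norm_mul, Complex.norm_real, mul_pow, Real.norm_eq_abs, sq_abs]
    rw [h5]
    exact mul_le_mul_of_nonneg_left hw (sq_nonneg _)
  have h6 : ENNReal.ofReal (Real.exp (lam * x)) * PG s M {X | x ≤ ∑ l, ip (w l) (X l)} ≤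
      ENNReal.ofReal (Real.exp (s * (lam ^ 2 * V))) := by
    refine (mul_le_mul_right (measure_mono h2) _).trans (h1.trans ?_)
    apply ENNReal.ofReal_le_ofReal
    rw [Real.exp_le_exp]
    exact mul_le_mul_of_nonneg_left h4 hs.le
  have h7 : PG s M {X | x ≤ ∑ l, ip (w l) (X l)} =
      ENNReal.ofReal (Real.exp (-(lam * x))) * (ENNReal.ofReal (Real.exp (lam * x)) *
        PG s M {X | x ≤ ∑ l, ip (w l) (X l)}) := by
    rw [← mul_assoc, ← ENNReal.ofReal_mul (Real.exp_pos _).le, ← Real.exp_add, neg_add_cancel,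
      Real.exp_zero, ENNReal.ofReal_one, one_mul]
  rw [h7]
  refine (mul_le_mul_right h6 _).trans ?_
  rw [← ENNReal.ofReal_mul (Real.exp_pos _).le, ← Real.exp_add]
  apply ENNReal.ofReal_le_ofReal
  rw [Real.exp_le_exp, hlam]
  apply le_of_eq
  field_simp
  ring

theorem pf_gt_cnt {M r : ℕ} (hr : r ≤ M) :
    ∑ l : Fin M, (if (l : ℕ) < r then (1 : ℝ) else 0) = r := by
  rw [Finset.sum_boole, Fin.card_filter_val_lt, min_eq_right hr]

/-- the coefficients -/
noncomputable def pf_gt_c {q : ℕ} (M : ℕ) (a : Fin q → ℝ) (r : Fin q → ℕ) (l : ℕ) : ℝ :=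
  ∑ i, a i * ((if l < r i then (1 : ℝ) else 0) - (r i : ℝ) / M)

theorem pf_gt_lin {M q : ℕ} (a : Fin q → ℝ) (r : Fin q → ℕ)
    (hr : ∀ i, r i ≤ M) (X : Fin M → ℂ) :
    ∑ i, a i * (gm X (r i)).re = ∑ l : Fin M, ip ((pf_gt_c M a r l : ℝ) : ℂ) (X l) := by
  have h1 : ∀ i, (gm X (r i)).re =
      ∑ l : Fin M, ((if (l : ℕ) < r i then (1 : ℝ) else 0) - (r i : ℝ) / M) * (X l).re := by
    intro i
    rw [gm_eq X (hr i), Complex.sub_re, sg, mn, Complex.re_sum]
    have h2 : (((r i : ℕ) : ℂ) * ((∑ l, X l) / (M : ℂ))).re = (r i : ℝ) / M * ∑ l, (X l).re := by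
      have h3 : ((r i : ℕ) : ℂ) * ((∑ l, X l) / (M : ℂ)) =
          (((r i : ℝ) / M : ℝ) : ℂ) * ∑ l, X l := by
        push_cast; ring
      rw [h3, Complex.re_ofReal_mul, Complex.re_sum]
    rw [h2, Finset.mul_sum, ← Finset.sum_sub_distrib]
    refine Finset.sum_congr rfl fun l _ => ?_
    split_ifs
    · ring
    · rw [Complex.zero_re]; ring
  simp_rw [h1, Finset.mul_sum]
  rw [Finset.sum_comm]
  refine Finset.sum_congr rfl fun l _ => ?_
  rw [ip, Complex.ofReal_re, Complex.ofReal_im, zero_mul, add_zero, pf_gt_c, Finset.sum_mul]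
  refine Finset.sum_congr rfl fun i _ => ?_
  ring

/-- the variance -/
noncomputable def pf_gt_v {q : ℕ} (a x : Fin q → ℝ) : ℝ :=
  ∑ i, ∑ j, a i * a j * (2 * (min (x i) (x j) - x i * x j))

theorem pf_gt_var {M q : ℕ} (hM : 0 < M) (a : Fin q → ℝ) (r : Fin q → ℕ)
    (hr : ∀ i, r i ≤ M) :
    2 * ∑ l : Fin M, ‖((pf_gt_c M a r l : ℝ) : ℂ)‖ ^ 2 =
      M * pf_gt_v a (fun i => (r i : ℝ) / M) := by
  have hM' : (0 : ℝ) < M := by exact_mod_cast hM
  have h1 : ∀ i j, ∑ l : Fin M, ((if (l : ℕ) < r i then (1 : ℝ) else 0) - (r i : ℝ) / M) *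
      ((if (l : ℕ) < r j then (1 : ℝ) else 0) - (r j : ℝ) / M) =
      M * (min ((r i : ℝ) / M) ((r j : ℝ) / M) - (r i : ℝ) / M * ((r j : ℝ) / M)) := by
    intro i j
    have h2 : ∀ l : Fin M, ((if (l : ℕ) < r i then (1 : ℝ) else 0) - (r i : ℝ) / M) *
        ((if (l : ℕ) < r j then (1 : ℝ) else 0) - (r j : ℝ) / M) =
        (if (l : ℕ) < min (r i) (r j) then (1 : ℝ) else 0) -
        (r j : ℝ) / M * (if (l : ℕ) < r i then (1 : ℝ) else 0) -
        (r i : ℝ) / M * (if (l : ℕ) < r j then (1 : ℝ) else 0) +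
        (r i : ℝ) / M * ((r j : ℝ) / M) := by
      intro l
      by_cases b1 : (l : ℕ) < r i <;> by_cases b2 : (l : ℕ) < r j
      · rw [if_pos b1, if_pos b2, if_pos (lt_min b1 b2)]; ring
      · rw [if_pos b1, if_neg b2, if_neg (fun h => b2 (lt_min_iff.1 h).2)]; ring
      · rw [if_neg b1, if_pos b2, if_neg (fun h => b1 (lt_min_iff.1 h).1)]; ring
      · rw [if_neg b1, if_neg b2, if_neg (fun h => b1 (lt_min_iff.1 h).1)]; ring
    simp_rw [h2]
    rw [Finset.sum_add_distrib, Finset.sum_sub_distrib, Finset.sum_sub_distrib, ← Finset.mul_sum,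
      ← Finset.mul_sum, pf_gt_cnt (hr i), pf_gt_cnt (hr j),
      pf_gt_cnt ((min_le_left _ _).trans (hr i)), Finset.sum_const, Finset.card_univ,
      Fintype.card_fin, nsmul_eq_mul, Nat.cast_min]
    have h3 : min ((r i : ℝ) / M) ((r j : ℝ) / M) = min (r i : ℝ) (r j) / M :=
      (min_div_div_right hM'.le _ _)
    rw [h3]
    field_simp
    ring
  have h4 : ∀ l : Fin M, ‖((pf_gt_c M a r l : ℝ) : ℂ)‖ ^ 2 = ∑ i, ∑ j, a i * a j *
      (((if (l : ℕ) < r i then (1 : ℝ) else 0) - (r i : ℝ) / M) *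
      ((if (l : ℕ) < r j then (1 : ℝ) else 0) - (r j : ℝ) / M)) := by
    intro l
    rw [Complex.norm_real, Real.norm_eq_abs, sq_abs, sq, pf_gt_c, Finset.sum_mul_sum]
    refine Finset.sum_congr rfl fun i _ => Finset.sum_congr rfl fun j _ => ?_
    ring
  simp_rw [h4]
  rw [Finset.sum_comm]
  have h5 : ∀ i, ∑ l : Fin M, ∑ j, a i * a j *
      (((if (l : ℕ) < r i then (1 : ℝ) else 0) - (r i : ℝ) / M) *
      ((if (l : ℕ) < r j then (1 : ℝ) else 0) - (r j : ℝ) / M)) = ∑ j, a i * a j *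
      (M * (min ((r i : ℝ) / M) ((r j : ℝ) / M) - (r i : ℝ) / M * ((r j : ℝ) / M))) := by
    intro i
    rw [Finset.sum_comm]
    refine Finset.sum_congr rfl fun j _ => ?_
    rw [← Finset.mul_sum, h1]
  simp_rw [h5]
  unfold pf_gt_v
  rw [Finset.mul_sum, Finset.mul_sum]
  refine Finset.sum_congr rfl fun i _ => ?_
  rw [Finset.mul_sum, Finset.mul_sum]
  refine Finset.sum_congr rfl fun j _ => ?_
  ring

theorem pf_gt_lip {q : ℕ} (a x y : Fin q → ℝ) {e : ℝ} (hx : ∀ i, 0 ≤ x i ∧ x i ≤ 1)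
    (hy : ∀ i, 0 ≤ y i ∧ y i ≤ 1) (hxy : ∀ i, |x i - y i| ≤ e) :
    pf_gt_v a x ≤ pf_gt_v a y + 6 * (∑ i, |a i|) ^ 2 * e := by
  have h1 : ∀ i j, a i * a j * (2 * (min (x i) (x j) - x i * x j)) ≤
      a i * a j * (2 * (min (y i) (y j) - y i * y j)) + |a i| * |a j| * (6 * e) := by
    intro i j
    have h2 : |min (x i) (x j) - min (y i) (y j)| ≤ e :=
      (abs_min_sub_min_le_max _ _ _ _).trans (max_le (hxy i) (hxy j))
    have h3 : |x i * x j - y i * y j| ≤ 2 * e := by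
      have : x i * x j - y i * y j = (x i - y i) * x j + y i * (x j - y j) := by ring
      rw [this]
      refine (abs_add_le _ _).trans ?_
      rw [abs_mul, abs_mul, abs_of_nonneg (hx j).1, abs_of_nonneg (hy i).1]
      have e0 : 0 ≤ e := (abs_nonneg _).trans (hxy i)
      have h4 : |x i - y i| * x j ≤ e * 1 := mul_le_mul (hxy i) (hx j).2 (hx j).1 e0
      have h5 : y i * |x j - y j| ≤ 1 * e := mul_le_mul (hy i).2 (hxy j) (abs_nonneg _) zero_le_one
      linarith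
    have h6 : |a i * a j * (2 * ((min (x i) (x j) - min (y i) (y j)) -
        (x i * x j - y i * y j)))| ≤ |a i| * |a j| * (6 * e) := by
      rw [abs_mul, abs_mul]
      refine mul_le_mul_of_nonneg_left ?_ (mul_nonneg (abs_nonneg _) (abs_nonneg _))
      rw [abs_mul, abs_of_pos (two_pos : (0:ℝ) < 2)]
      have := abs_sub (min (x i) (x j) - min (y i) (y j)) (x i * x j - y i * y j)
      linarith
    have h7 := (le_abs_self _).trans h6
    have h8 : a i * a j * (2 * (min (x i) (x j) - x i * x j)) =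
      a i * a j * (2 * (min (y i) (y j) - y i * y j)) +
      a i * a j * (2 * ((min (x i) (x j) - min (y i) (y j)) - (x i * x j - y i * y j))) := by ring
    rw [h8]
    linarith
  have h9 : 6 * (∑ i, |a i|) ^ 2 * e = ∑ i, ∑ j, |a i| * |a j| * (6 * e) := by
    rw [sq, Finset.sum_mul_sum]
    have : ∀ i, ∑ j, |a i| * |a j| * (6 * e) = (∑ j, |a i| * |a j|) * (6 * e) := fun i => by
      rw [Finset.sum_mul]
    simp_rw [this]
    rw [← Finset.sum_mul]
    ring
  rw [h9]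
  unfold pf_gt_v
  rw [← Finset.sum_add_distrib]
  refine Finset.sum_le_sum fun i _ => ?_
  rw [← Finset.sum_add_distrib]
  exact Finset.sum_le_sum fun j _ => h1 i j

/-- one functional -/
theorem pf_gt_one {M q : ℕ} {s x V : ℝ} (hM : 0 < M) (hs : 0 < s) (hMs : M * s = 1) (hx : 0 ≤ x)
    (hV : 0 < V) (a : Fin q → ℝ) (r : Fin q → ℕ) (hr : ∀ i, r i ≤ M)
    (hv : pf_gt_v a (fun i => (r i : ℝ) / M) ≤ V) :
    PG s M {X | x ≤ ∑ i, a i * (gm X (r i)).re} ≤
      ENNReal.ofReal (Real.exp (-(x ^ 2 / (2 * V)))) := by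
  have hM' : (0 : ℝ) < M := by exact_mod_cast hM
  simp_rw [pf_gt_lin a r hr]
  have h1 := pf_gt_var hM a r hr
  have h2 : ∑ l : Fin M, ‖((pf_gt_c M a r l : ℝ) : ℂ)‖ ^ 2 ≤ M * V / 2 := by
    have := mul_le_mul_of_nonneg_left hv hM'.le
    linarith
  refine (pf_gt_chernoff hs M _ x (M * V / 2) hx (by positivity) h2).trans (le_of_eq ?_)
  congr 4
  have : 4 * (M * V / 2) * s = 2 * V * (M * s) := by ring
  rw [this, hMs, mul_one]

/-- the discrete loops -/
theorem pf_gt_grid {q : ℕ} (a : Fin q → ℝ) (P : Set (Fin q → unitInterval)) {V θ : ℝ}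
    (hV : 0 < V) (h0 : 0 < θ) (h1 : θ < 1) (hP : ∀ p ∈ P, pf_gt_v a (fun i => (p i : ℝ)) ≤ V) :
    ∃ (N : ℕ) (η C : ℝ), 0 < N ∧ 0 < η ∧
    η < 1 ∧ 1 ≤ C ∧ ∀ (M k : ℕ) (s L : ℝ), 0 < k → M = N * k → M * s = 1 → 0 < s → 0 ≤ L →
    PG s M {X | ∃ r : Fin q → ℕ, (∀ i, r i < M) ∧
      (∃ p ∈ P, ∀ i, |(r i : ℝ) / M - (p i : ℝ)| ≤ 1 / M) ∧
      (1 - η) * L ≤ ∑ i, a i * (gm X (r i)).re} ≤
      ENNReal.ofReal (C * Real.exp (-(θ * L ^ 2 / (2 * V)))) := by
  classical
  set η : ℝ := (1 - θ) / 5 with hη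
  have hη0 : 0 < η := by rw [hη]; linarith
  have hη1 : η < 1 / 5 := by rw [hη]; linarith
  set A : ℝ := ∑ i, |a i| with hA
  have hA0 : 0 ≤ A := Finset.sum_nonneg fun i _ => abs_nonneg _
  obtain ⟨N₁, hN₁⟩ := exists_nat_ge (16 * (A + 1) ^ 2 / (V * η ^ 2))
  set N := N₁ + 1 with hN
  have hN0 : 0 < N := by omega
  have hN0' : (0 : ℝ) < N := by exact_mod_cast hN0
  have hNbig : 16 * (A + 1) ^ 2 / (V * η ^ 2) ≤ N := by
    refine hN₁.trans ?_
    exact_mod_cast Nat.le_succ N₁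
  rw [div_le_iff₀ (by positivity)] at hNbig
  let ι := {j : Fin q → Fin N // ∃ p ∈ P, ∀ i, |((j i : ℕ) : ℝ) / N - (p i : ℝ)| ≤ 2 / N}
  refine ⟨N, η, Fintype.card ι + (4 * N + 4), hN0, hη0, by linarith, ?_, ?_⟩
  · have : (0 : ℝ) ≤ Fintype.card ι := Nat.cast_nonneg _
    linarith
  rintro M k s L hk rfl hMs hs hL
  have hk0' : (0 : ℝ) < k := by exact_mod_cast hk
  have hk1' : (1 : ℝ) ≤ k := by exact_mod_cast hk
  have hM : 0 < N * k := Nat.mul_pos hN0 hk
  have hcov : {X : Fin (N * k) → ℂ | ∃ r : Fin q → ℕ, (∀ i, r i < N * k) ∧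
      (∃ p ∈ P, ∀ i, |(r i : ℝ) / ((N * k : ℕ) : ℝ) - (p i : ℝ)| ≤ 1 / ((N * k : ℕ) : ℝ)) ∧
      (1 - η) * L ≤ ∑ i, a i * (gm X (r i)).re} ⊆
      (⋃ j : ι, {X | (1 - 2 * η) * L ≤ ∑ i, a i * (gm X ((j.1 i : ℕ) * k)).re}) ∪
      {X | ∃ j < N, ∃ o < k, η * L / (A + 1) ≤ ‖gm X (j * k + o) - gm X (j * k)‖} := by
    rintro X ⟨r, hr, ⟨p, hp, hrp⟩, hX⟩
    by_cases hfluc : ∃ j < N, ∃ o < k, η * L / (A + 1) ≤ ‖gm X (j * k + o) - gm X (j * k)‖
    · exact Or.inr hfluc
    · left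
      push Not at hfluc
      have hj : ∀ r < N * k, r / k < N ∧ ‖gm X r - gm X (r / k * k)‖ ≤ η * L / (A + 1) := by
        intro r hr
        have hj : r / k < N := (Nat.div_lt_iff_lt_mul hk).mpr hr
        have h4 := hfluc (r / k) hj (r % k) (Nat.mod_lt _ hk)
        have h5 : r / k * k + r % k = r := by
          rw [mul_comm]; exact Nat.div_add_mod r k
        rw [h5] at h4
        exact ⟨hj, h4.le⟩
      rw [mem_iUnion]
      refine ⟨⟨fun i => ⟨r i / k, (hj _ (hr i)).1⟩, p, hp, fun i => ?_⟩, ?_⟩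
      · have h6 : |((r i / k : ℕ) : ℝ) / N - (r i : ℝ) / ((N * k : ℕ) : ℝ)| ≤ 1 / N := by
          have h7 : ((r i : ℕ) : ℝ) = ((r i / k : ℕ) : ℝ) * k + ((r i % k : ℕ) : ℝ) := by
            have h5 : r i / k * k + r i % k = r i := by
              rw [mul_comm]; exact Nat.div_add_mod (r i) k
            exact_mod_cast h5.symm
          have h8 : ((r i % k : ℕ) : ℝ) ≤ k := by exact_mod_cast (Nat.mod_lt _ hk).le
          have h9 : (0 : ℝ) ≤ ((r i % k : ℕ) : ℝ) := Nat.cast_nonneg _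
          have h10 : ((r i / k : ℕ) : ℝ) / N - (r i : ℝ) / ((N * k : ℕ) : ℝ) =
              -(((r i % k : ℕ) : ℝ) / ((N : ℝ) * k)) := by
            rw [h7]; push_cast; field_simp; ring
          rw [h10, abs_neg, abs_of_nonneg (by positivity), div_le_div_iff₀ (by positivity) hN0']
          nlinarith
        have h11 := hrp i
        have h12 : (1 : ℝ) / ((N * k : ℕ) : ℝ) ≤ 1 / N := by
          apply one_div_le_one_div_of_le hN0'
          push_cast
          nlinarith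
        have h13 := abs_sub_le (((r i / k : ℕ) : ℝ) / N) ((r i : ℝ) / ((N * k : ℕ) : ℝ)) (p i : ℝ)
        have h14 : (2 : ℝ) / N = 1 / N + 1 / N := by ring
        rw [h14]
        show |((r i / k : ℕ) : ℝ) / N - (p i : ℝ)| ≤ 1 / N + 1 / N
        linarith
      · rw [mem_ofPred_eq]
        show (1 - 2 * η) * L ≤ ∑ i, a i * (gm X (r i / k * k)).re
        have h15 : ∑ i, a i * (gm X (r i)).re - ∑ i, a i * (gm X (r i / k * k)).re ≤ η * L := by
          rw [← Finset.sum_sub_distrib]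
          have h16 : ∀ i, a i * (gm X (r i)).re - a i * (gm X (r i / k * k)).re ≤
              |a i| * (η * L / (A + 1)) := by
            intro i
            rw [← mul_sub, ← Complex.sub_re]
            refine (le_abs_self _).trans ?_
            rw [abs_mul]
            exact mul_le_mul_of_nonneg_left ((Complex.abs_re_le_norm _).trans (hj _ (hr i)).2)
              (abs_nonneg _)
          refine (Finset.sum_le_sum fun i _ => h16 i).trans ?_
          rw [← Finset.sum_mul, ← hA]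
          have h17 : A * (η * L / (A + 1)) = (η * L) * (A / (A + 1)) := by ring
          rw [h17]
          have h18 : A / (A + 1) ≤ 1 := by
            rw [div_le_one (by positivity)]; linarith
          have h19 : 0 ≤ η * L := by positivity
          nlinarith
        linarith
  refine (measure_mono hcov).trans ((measure_union_le _ _).trans ?_)
  set e : ℝ := Real.exp (-(θ * L ^ 2 / (2 * V))) with he
  have he0 : 0 < e := Real.exp_pos _
  have hMs' : ((N * k : ℕ) : ℝ) * s = 1 := hMs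
  have hAA : PG s (N * k) (⋃ j : ι, {X | (1 - 2 * η) * L ≤
      ∑ i, a i * (gm X ((j.1 i : ℕ) * k)).re}) ≤ ENNReal.ofReal (Fintype.card ι * e) := by
    refine (measure_iUnion_fintype_le _ _).trans ?_
    have h4 : ∀ j : ι, PG s (N * k) {X | (1 - 2 * η) * L ≤
      ∑ i, a i * (gm X ((j.1 i : ℕ) * k)).re} ≤ ENNReal.ofReal e := by
      rintro ⟨j, p, hp, hj⟩
      have hq : ∀ i, (((j i : ℕ) * k : ℕ) : ℝ) / ((N * k : ℕ) : ℝ) = ((j i : ℕ) : ℝ) / N := by
        intro i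
        push_cast
        field_simp
      have hv : pf_gt_v a (fun i => (((j i : ℕ) * k : ℕ) : ℝ) / ((N * k : ℕ) : ℝ)) ≤
          (1 + η) * V := by
        simp_rw [hq]
        have h5 := pf_gt_lip a (fun i => ((j i : ℕ) : ℝ) / N) (fun i => (p i : ℝ)) (e := 2 / N)
          (fun i => ⟨by positivity, by
            rw [div_le_one hN0']
            exact_mod_cast (j i).2.le⟩) (fun i => ⟨(p i).2.1, (p i).2.2⟩) hj
        have h6 := hP p hp
        have h7 : 6 * (∑ i, |a i|) ^ 2 * (2 / N) ≤ η * V := by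
          rw [← hA]
          have : 6 * A ^ 2 * (2 / (N : ℝ)) = 12 * A ^ 2 / N := by ring
          rw [this, div_le_iff₀ hN0']
          have h8 : 12 * A ^ 2 * η ≤ 16 * (A + 1) ^ 2 := by nlinarith
          have h9 : 12 * A ^ 2 * η ≤ (η * V * N) * η := by nlinarith
          exact le_of_mul_le_mul_right h9 hη0
        linarith
      have h5 := pf_gt_one (M := N * k) (s := s) (x := (1 - 2 * η) * L) (V := (1 + η) * V) hM hs
        hMs' (mul_nonneg (by linarith) hL) (by positivity) a (fun i => (j i : ℕ) * k)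
        (fun i => Nat.mul_le_mul_right k (j i).2.le) hv
      refine h5.trans ?_
      apply ENNReal.ofReal_le_ofReal
      rw [he, Real.exp_le_exp, neg_le_neg_iff, div_le_div_iff₀ (by positivity) (by positivity)]
      have h6 : θ * (1 + η) ≤ (1 - 2 * η) ^ 2 := by
        have : θ = 1 - 5 * η := by rw [hη]; ring
        rw [this]
        nlinarith [sq_nonneg η]
      have h7 : 0 ≤ L ^ 2 * (2 * V) := by positivity
      have h8 := mul_le_mul_of_nonneg_right h6 h7
      nlinarith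
    calc ∑ j : ι, PG s (N * k) {X | (1 - 2 * η) * L ≤
      ∑ i, a i * (gm X ((j.1 i : ℕ) * k)).re}
        ≤ ∑ _j : ι, ENNReal.ofReal e := Finset.sum_le_sum fun j _ => h4 j
      _ = ENNReal.ofReal (Fintype.card ι * e) := by
        rw [Finset.sum_const, Finset.card_univ, nsmul_eq_mul, ENNReal.ofReal_mul (by positivity),
          ENNReal.ofReal_natCast]
  have hB : PG s (N * k) {X | ∃ j < N, ∃ o < k,
      η * L / (A + 1) ≤ ‖gm X (j * k + o) - gm X (j * k)‖} ≤
      ENNReal.ofReal ((4 * N + 4) * e) := by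
    refine (fl N k s (η * L / (A + 1)) hN0 hk hs (by positivity)).trans ?_
    apply ENNReal.ofReal_le_ofReal
    apply mul_le_mul_of_nonneg_left _ (by positivity)
    rw [he, Real.exp_le_exp, neg_le_neg_iff]
    have hks : (k : ℝ) * s = 1 / N := by
      rw [eq_div_iff hN0'.ne']
      rw [← hMs']
      push_cast
      ring
    have h5 : (η * L / (A + 1)) ^ 2 / (32 * k * s) =
        L ^ 2 / (2 * V) * (N * (V * η ^ 2) / (16 * (A + 1) ^ 2)) := by
      have : (32 * (k : ℝ) * s) = 32 / N := by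
        rw [mul_assoc, hks]; ring
      rw [this]
      field_simp
      ring
    rw [h5]
    have h6 : 1 ≤ N * (V * η ^ 2) / (16 * (A + 1) ^ 2) := by
      rw [le_div_iff₀ (by positivity)]
      linarith
    have h7 : 0 ≤ L ^ 2 / (2 * V) := by positivity
    have h8 : θ * L ^ 2 / (2 * V) = L ^ 2 / (2 * V) * θ := by ring
    rw [h8]
    exact mul_le_mul_of_nonneg_left (by linarith) h7
  refine (add_le_add hAA hB).trans (le_of_eq ?_)
  rw [← ENNReal.ofReal_add (by positivity) (by positivity), ← add_mul]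

/-- the set of configurations on a grid -/
def pf_gt_S (m : ℕ) {q : ℕ} (a : Fin q → ℝ) (P : Set (Fin q → unitInterval)) (x : ℝ) :
    Set (Fin (m + 1) → ℂ) :=
  {v | ∃ r : Fin q → Fin (m + 1), (∃ p ∈ P, ∀ i, |(gpt m (r i) : ℝ) - (p i : ℝ)| ≤
    1 / ((m : ℝ) + 1)) ∧ x ≤ ∑ i, a i * (v (r i)).re}

theorem pf_gt_S_meas (m : ℕ) {q : ℕ} (a : Fin q → ℝ) (P : Set (Fin q → unitInterval)) (x : ℝ) :
    MeasurableSet (pf_gt_S m a P x) := by
  have : pf_gt_S m a P x = ⋃ (r : Fin q → Fin (m + 1)) (_ : ∃ p ∈ P, ∀ i,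
      |(gpt m (r i) : ℝ) - (p i : ℝ)| ≤ 1 / ((m : ℝ) + 1)),
      {v : Fin (m + 1) → ℂ | x ≤ ∑ i, a i * (v (r i)).re} := by
    ext v
    simp only [pf_gt_S, mem_ofPred_eq, mem_iUnion, exists_prop]
  rw [this]
  refine MeasurableSet.iUnion fun r => MeasurableSet.iUnion fun _ => ?_
  refine (isClosed_le continuous_const ?_).measurableSet
  exact continuous_finsetSum _ fun i _ => continuous_const.mul
    (Complex.continuous_re.comp (continuous_apply (r i)))

theorem pf_gt_grid_meas (m : ℕ) : Measurable (grid m) := by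
  apply measurable_pi_lambda
  intro r
  exact (continuous_eval_const (gpt m r)).measurable

/-- the index of a time -/
noncomputable def pf_gt_r (m : ℕ) (t : unitInterval) : Fin (m + 1) :=
  ⟨min ⌊(t : ℝ) * (m + 1)⌋₊ m, by omega⟩

theorem pf_gt_r_dist (m : ℕ) (t : unitInterval) :
    dist (gpt m (pf_gt_r m t)) t ≤ 1 / ((m : ℝ) + 1) := by
  have hm : (0 : ℝ) < (m : ℝ) + 1 := by positivity
  rw [Subtype.dist_eq, Real.dist_eq]
  show |((min ⌊(t : ℝ) * (m + 1)⌋₊ m : ℕ) : ℝ) / (m + 1) - t| ≤ 1 / ((m : ℝ) + 1)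
  have h1 := Nat.floor_le (a := (t : ℝ) * (m + 1)) (mul_nonneg t.2.1 hm.le)
  have h2 := Nat.lt_floor_add_one ((t : ℝ) * (m + 1))
  have h3 : (t : ℝ) * (m + 1) ≤ m + 1 := by
    have := mul_le_mul_of_nonneg_right t.2.2 hm.le
    linarith
  have h4 : ((min ⌊(t : ℝ) * (m + 1)⌋₊ m : ℕ) : ℝ) = min (⌊(t : ℝ) * (m + 1)⌋₊ : ℝ) m :=
    Nat.cast_min _ _
  rw [h4, abs_le]
  have h5 : min (⌊(t : ℝ) * (m + 1)⌋₊ : ℝ) m ≤ t * (m + 1) := (min_le_left _ _).trans h1
  have h6 : (t : ℝ) * (m + 1) - 1 ≤ min (⌊(t : ℝ) * (m + 1)⌋₊ : ℝ) m :=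
    le_min (by linarith) (by linarith)
  constructor
  · rw [neg_le_sub_iff_le_add, ← sub_le_iff_le_add, ← sub_nonneg]
    have : min (⌊(t : ℝ) * (m + 1)⌋₊ : ℝ) m / (m + 1) - (t - 1 / ((m : ℝ) + 1)) =
        (min (⌊(t : ℝ) * (m + 1)⌋₊ : ℝ) m - (t * (m + 1) - 1)) / (m + 1) := by
      field_simp
    rw [this]
    exact div_nonneg (by linarith) hm.le
  · rw [sub_le_iff_le_add, div_le_iff₀ hm]
    have : (1 / ((m : ℝ) + 1) + t) * (m + 1) = 1 + t * (m + 1) := by
      field_simp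
    rw [this]
    linarith

/-- from the law of the loop to the law of its real part -/
theorem pf_gt_real {μ : Measure Lo} {ν : Measure LR} (hμ : IsLoop μ) (hν : IsBr μ ν) (m : ℕ)
    {q : ℕ} (a : Fin q → ℝ) (P : Set (Fin q → unitInterval)) (x : ℝ) :
    ν {y : LR | ∃ r : Fin q → Fin (m + 1), (∃ p ∈ P, ∀ i, |(gpt m (r i) : ℝ) - (p i : ℝ)| ≤
      1 / ((m : ℝ) + 1)) ∧ x ≤ ∑ i, a i * y (gpt m (r i))} =
      μ (grid m ⁻¹' (pf_gt_S m a P x)) := by
  have hpμ := hμ.prob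
  have hpν := hν.prob
  have hmeas : MeasurableSet (grid m ⁻¹' (pf_gt_S m a P x)) :=
    pf_gt_grid_meas m (pf_gt_S_meas m a P x)
  have hae : AEMeasurable (fun p : LR × LR => jn p.1 p.2) (ν.prod ν) := by
    by_contra hcon
    have h0 := hν.prod
    rw [Measure.map_of_not_aemeasurable hcon] at h0
    have h1 : μ univ = 1 := measure_univ
    rw [h0] at h1
    simp at h1
  rw [hν.prod, Measure.map_apply_of_aemeasurable hae hmeas]
  have h2 : (fun p : LR × LR => jn p.1 p.2) ⁻¹' (grid m ⁻¹' (pf_gt_S m a P x)) =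
      {y : LR | ∃ r : Fin q → Fin (m + 1), (∃ p ∈ P, ∀ i, |(gpt m (r i) : ℝ) - (p i : ℝ)| ≤
      1 / ((m : ℝ) + 1)) ∧ x ≤ ∑ i, a i * y (gpt m (r i))} ×ˢ univ := by
    ext ⟨y, z⟩
    simp only [mem_preimage, pf_gt_S, mem_ofPred_eq, mem_prod, mem_univ, and_true]
    have h3 : ∀ r : Fin (m + 1), (grid m (jn y z) r).re = y (gpt m r) := by
      intro r
      show ((y (gpt m r) : ℂ) + (z (gpt m r) : ℂ) * Complex.I).re = y (gpt m r)
      simp
    simp_rw [h3]
  rw [h2, Measure.prod_prod, measure_univ, mul_one]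

end gt

theorem pf_gt : S_gt := by
  intro μ ν hμ hν q a P V θ hPc hV h0 h1' hPV
  have hprobμ := hμ.prob
  have hprob := hν.prob
  obtain ⟨N, η, C, hN, hη0, hη1, hC, hgrid⟩ := pf_gt_grid a P hV h0 h1' hPV
  refine ⟨C, fun L hL => ?_⟩
  rcases eq_or_lt_of_le hL with rfl | hL0
  · refine prob_le_one.trans ?_
    rw [← ENNReal.ofReal_one]
    apply ENNReal.ofReal_le_ofReal
    simpa using hC
  -- the grids
  set m : ℕ → ℕ := fun k => N * (k + 1) - 1 with hm
  have hm1 : ∀ k, m k + 1 = N * (k + 1) := by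
    intro k
    have : 0 < N * (k + 1) := Nat.mul_pos hN (Nat.succ_pos k)
    simp only [hm]
    omega
  set A : ℕ → Set LR := fun k => {y : LR | ∃ r : Fin q → Fin (m k + 1), (∃ p ∈ P, ∀ i,
    |(gpt (m k) (r i) : ℝ) - (p i : ℝ)| ≤ 1 / (((m k : ℕ) : ℝ) + 1)) ∧
      (1 - η) * L ≤ ∑ i, a i * y (gpt (m k) (r i))} with hA
  have hAk : ∀ k, ν (A k) ≤ ENNReal.ofReal (C * Real.exp (-(θ * L ^ 2 / (2 * V)))) := by
    intro k
    have hmeas : Measurable (fun (x : Fin (m k + 1) → ℂ) (r : Fin (m k + 1)) => gm x r) := by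
      apply measurable_pi_lambda
      intro r
      exact (G.gm_cont (r : ℕ)).measurable
    have e1 : ν (A k) = PG (1 / (((m k : ℕ) : ℝ) + 1)) (m k + 1)
        ((fun (x : Fin (m k + 1) → ℂ) (r : Fin (m k + 1)) => gm x r) ⁻¹'
          (pf_gt_S (m k) a P ((1 - η) * L))) := by
      rw [hA]
      simp only
      rw [pf_gt_real hμ hν, ← Measure.map_apply (pf_gt_grid_meas (m k)) (pf_gt_S_meas _ _ _ _),
        hμ.marg, Measure.map_apply hmeas (pf_gt_S_meas _ _ _ _)]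
    rw [e1]
    have hs : (((m k + 1 : ℕ)) : ℝ) * (1 / (((m k : ℕ) : ℝ) + 1)) = 1 := by
      push_cast
      field_simp
    have h2 := hgrid (m k + 1) (k + 1) (1 / (((m k : ℕ) : ℝ) + 1)) L (Nat.succ_pos k) (hm1 k) hs
      (by positivity) hL
    refine (measure_mono ?_).trans h2
    rintro X ⟨r, ⟨p, hp, hr⟩, h3⟩
    refine ⟨fun i => r i, fun i => (r i).2, ⟨p, hp, fun i => ?_⟩, h3⟩
    have h4 := hr i
    push_cast
    exact h4
  -- the event is contained in the lower limit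
  have hsub : {y : LR | ∃ p ∈ P, L ≤ ∑ i, a i * y (p i)} ⊆ ⋃ K : ℕ, ⋂ k ∈ Ici K, A k := by
    rintro b ⟨p, hp, hb⟩
    have hlim : ∀ t : unitInterval, Tendsto (fun k => b (gpt (m k) (pf_gt_r (m k) t))) atTop
        (𝓝 (b t)) := by
      intro t
      refine (b.continuous.tendsto t).comp ?_
      rw [tendsto_iff_dist_tendsto_zero]
      refine squeeze_zero (fun k => dist_nonneg) (fun k => pf_gt_r_dist (m k) t) ?_
      have h5 : ∀ k : ℕ, 1 / (((m k : ℕ) : ℝ) + 1) ≤ 1 / ((k : ℝ) + 1) := by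
        intro k
        apply one_div_le_one_div_of_le (by positivity)
        have h6 : k + 1 ≤ m k + 1 := by
          rw [hm1]
          exact Nat.le_mul_of_pos_left _ hN
        exact_mod_cast h6
      exact squeeze_zero (fun k => by positivity) h5 tendsto_one_div_add_atTop_nhds_zero_nat
    have hlimP : Tendsto (fun k => ∑ i, a i * b (gpt (m k) (pf_gt_r (m k) (p i)))) atTop
        (𝓝 (∑ i, a i * b (p i))) :=
      tendsto_finsetSum _ fun i _ => (hlim (p i)).const_mul (a i)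
    have hlt : (1 - η) * L < ∑ i, a i * b (p i) := by nlinarith
    obtain ⟨K, hK⟩ := eventually_atTop.1 (hlimP.eventually_const_lt hlt)
    rw [mem_iUnion]
    refine ⟨K, mem_iInter₂.2 fun k hk => ?_⟩
    refine ⟨fun i => pf_gt_r (m k) (p i), ⟨p, hp, fun i => ?_⟩, (hK k hk).le⟩
    have h7 := pf_gt_r_dist (m k) (p i)
    rwa [Subtype.dist_eq, Real.dist_eq] at h7
  refine (measure_mono hsub).trans ?_
  have hmono : Monotone (fun K : ℕ => ⋂ k ∈ Ici K, A k) := by
    intro K K' h b hb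
    rw [mem_iInter₂] at hb ⊢
    intro k hk
    exact hb k (le_trans h hk)
  rw [hmono.measure_iUnion]
  apply iSup_le
  intro K
  refine (measure_mono ?_).trans (hAk K)
  exact biInter_subset_of_mem (mem_Ici.2 le_rfl)

end Pool.Agent.H212AN
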