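import Pool.Agent.H212AN.E2

set_option autoImplicit false

namespace Pool.Agent.H212AN

open MeasureTheory Set Filter Topology Metric
open Pool.Agent.H212AN.G (nG PG gm gk)
open scoped Real ENNReal ComplexConjugate

theorem pf_gu_sq (c v e δ : ℝ) (hδ : 0 < δ) :
    (c - δ * |c|) * v ^ 2 - |c| * (1 + 1 / δ) * e ^ 2 ≤ c * (v + e) ^ 2 := by
  have k1 : δ * v ^ 2 + 2 * v * e + 1 / δ * e ^ 2 = 1 / δ * (δ * v + e) ^ 2 := by
    field_simp
    ring
  have k2 : δ * v ^ 2 - 2 * v * e + 1 / δ * e ^ 2 = 1 / δ * (δ * v - e) ^ 2 := by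
    field_simp
    ring
  have h1 : 0 ≤ 1 / δ * (δ * v + e) ^ 2 := by positivity
  have h2 : 0 ≤ 1 / δ * (δ * v - e) ^ 2 := by positivity
  rcases le_or_gt 0 c with hc | hc
  · rw [abs_of_nonneg hc]
    have h3 : 0 ≤ c * (1 / δ * (δ * v + e) ^ 2 + 2 * e ^ 2) := by positivity
    rw [← k1] at h3
    nlinarith
  · rw [abs_of_neg hc]
    have h3 : 0 ≤ (-c) * (1 / δ * (δ * v - e) ^ 2) := mul_nonneg (by linarith) h2
    rw [← k2] at h3
    nlinarith

theorem pf_gu_bddAbove (τ : ℝ) (y : LR) :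
    BddAbove {d : ℝ | ∃ s u : unitInterval, |(s : ℝ) - u| ≤ τ ∧ d = |y s - y u|} := by
  refine ⟨2 * ‖y‖, ?_⟩
  rintro d ⟨s, u, _, rfl⟩
  have h1 := ContinuousMap.norm_coe_le_norm y s
  have h2 := ContinuousMap.norm_coe_le_norm y u
  rw [Real.norm_eq_abs] at h1 h2
  have h3 := abs_sub (y s) (y u)
  linarith

theorem pf_gu_om (τ : ℝ) (y : LR) (s u : unitInterval) (h : |(s : ℝ) - u| ≤ τ) :
    |y s - y u| ≤ om τ y :=
  le_csSup (pf_gu_bddAbove τ y) ⟨s, u, h, rfl⟩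

theorem pf_gu_pj0 {r : ℝ} (hr : r ≤ 0) : pj r = 0 := Set.projIcc_of_le_left _ hr

theorem pf_gu_pj1 {r : ℝ} (hr : 1 ≤ r) : pj r = 1 := Set.projIcc_of_right_le _ hr

theorem pf_gu_pjs (s : unitInterval) : pj (s : ℝ) = s := Set.projIcc_val zero_le_one s

theorem pf_gu_rot (Y : LR) (hY : Y 0 = Y 1) (h s : unitInterval) :
    ∃ v : unitInterval, rot h Y v = Y s - Y h ∧
      ((v : ℝ) = |(s : ℝ) - h| ∨ (v : ℝ) = 1 - |(s : ℝ) - h|) := by
  have hs0 := s.2.1
  have hs1 := s.2.2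
  have hh0 := h.2.1
  have hh1 := h.2.2
  rcases le_or_gt (h : ℝ) s with hle | hlt
  · refine ⟨⟨(s : ℝ) - h, by linarith, by linarith⟩, ?_, Or.inl ?_⟩
    · show Y (pj ((s : ℝ) - h + h)) - Y h + (Y (pj ((s : ℝ) - h + h - 1)) - Y 0) = Y s - Y h
      rw [sub_add_cancel, pf_gu_pjs, pf_gu_pj0 (by linarith : (s : ℝ) - 1 ≤ 0)]
      ring
    · rw [abs_of_nonneg (by linarith)]
  · refine ⟨⟨(s : ℝ) - h + 1, by linarith, by linarith⟩, ?_, Or.inr ?_⟩
    · show Y (pj ((s : ℝ) - h + 1 + h)) - Y h + (Y (pj ((s : ℝ) - h + 1 + h - 1)) - Y 0) =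
        Y s - Y h
      have e1 : (s : ℝ) - h + 1 + h = s + 1 := by ring
      have e2 : (s : ℝ) + 1 - 1 = s := by ring
      rw [e1, e2, pf_gu_pjs, pf_gu_pj1 (by linarith : 1 ≤ (s : ℝ) + 1), hY]
      ring
    · rw [abs_of_neg (by linarith)]
      show (s : ℝ) - h + 1 = 1 - -((s : ℝ) - h)
      ring

theorem pf_gu_rot0 (Y : LR) (h : unitInterval) : rot h Y 0 = 0 := by
  show Y (pj (((0 : unitInterval) : ℝ) + h)) - Y h +
    (Y (pj (((0 : unitInterval) : ℝ) + h - 1)) - Y 0) = 0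
  have hh1 := h.2.2
  have e1 : ((0 : unitInterval) : ℝ) + h = h := by simp
  rw [e1, pf_gu_pjs, pf_gu_pj0 (by linarith : (h : ℝ) - 1 ≤ 0)]
  ring

theorem pf_gu_rot1 (Y : LR) (hY : Y 0 = Y 1) (h : unitInterval) : rot h Y 1 = 0 := by
  show Y (pj (((1 : unitInterval) : ℝ) + h)) - Y h +
    (Y (pj (((1 : unitInterval) : ℝ) + h - 1)) - Y 0) = 0
  have hh0 := h.2.1
  have e1 : ((1 : unitInterval) : ℝ) + h = 1 + h := by simp
  have e2 : (1 : ℝ) + h - 1 = h := by ring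
  rw [e1, e2, pf_gu_pjs, pf_gu_pj1 (by linarith : (1 : ℝ) ≤ 1 + h), hY]
  ring

theorem pf_gu_near (Y : LR) (hY : Y 0 = Y 1) (h s : unitInterval) (τ : ℝ) (hτ : 0 ≤ τ)
    (hs : cd s h ≤ τ) : |Y s - Y h| ≤ om (2 * τ) (rot h Y) := by
  obtain ⟨v, hv, hv2⟩ := pf_gu_rot Y hY h s
  have h0 := pf_gu_rot0 Y h
  have h1 := pf_gu_rot1 Y hY h
  have hv0 := v.2.1
  have hv1 := v.2.2
  have hd : (v : ℝ) ≤ τ ∨ 1 - (v : ℝ) ≤ τ := by
    unfold cd at hs
    rcases min_le_iff.1 hs with h2 | h2 <;> rcases hv2 with h3 | h3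
    · left; linarith
    · right; linarith
    · right; linarith
    · left; linarith
  rcases hd with h2 | h2
  · have h3 := pf_gu_om (2 * τ) (rot h Y) v 0 (by
      show |(v : ℝ) - ((0 : unitInterval) : ℝ)| ≤ 2 * τ
      have e : ((0 : unitInterval) : ℝ) = 0 := rfl
      rw [e, sub_zero, abs_of_nonneg hv0]
      linarith)
    rw [hv, h0, sub_zero] at h3
    exact h3
  · have h3 := pf_gu_om (2 * τ) (rot h Y) v 1 (by
      show |(v : ℝ) - ((1 : unitInterval) : ℝ)| ≤ 2 * τ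
      have e : ((1 : unitInterval) : ℝ) = 1 := rfl
      rw [e, abs_of_nonpos (by linarith)]
      linarith)
    rw [hv, h1, sub_zero] at h3
    exact h3

theorem pf_gu_far (Y : LR) (hY : Y 0 = Y 1) (h u : unitInterval) (τ : ℝ) (hτ : 0 ≤ τ)
    (hu : cd u h ≥ 1 / 2 - τ) : |Y u - Y h - rot h Y hf| ≤ om (2 * τ) (rot h Y) := by
  obtain ⟨v, hv, hv2⟩ := pf_gu_rot Y hY h u
  have hd : |(v : ℝ) - 1 / 2| ≤ τ := by
    unfold cd at hu
    have h2 := le_trans hu (min_le_left _ _)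
    have h3 := le_trans hu (min_le_right _ _)
    rw [abs_le]
    rcases hv2 with h4 | h4 <;> constructor <;> linarith
  have h3 := pf_gu_om (2 * τ) (rot h Y) v hf (by
    show |(v : ℝ) - 1 / 2| ≤ 2 * τ
    linarith)
  rw [hv] at h3
  exact h3

theorem pf_gu_le_sup (X : LR) (s : unitInterval) : X s ≤ sSup (range X) :=
  le_csSup (isCompact_range X.continuous).bddAbove (mem_range_self s)

theorem pf_gu_inf_le (X : LR) (s : unitInterval) : sInf (range X) ≤ X s :=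
  csInf_le (isCompact_range X.continuous).bddBelow (mem_range_self s)

/-- the integral of the positive part of a quadratic polynomial -/
theorem pf_gu_int (c D y0 : ℝ) (hc : 0 < c) :
    ∫⁻ y : ℝ, ENNReal.ofReal (D - c / 2 * (y + y0) ^ 2) =
      ENNReal.ofReal (4 / 3 * √(2 / c) * (max D 0) ^ (3 / 2 : ℝ)) := by
  rw [lintegral_add_right_eq_self (fun y : ℝ => ENNReal.ofReal (D - c / 2 * y ^ 2)) y0]
  rcases le_or_gt D 0 with hD | hD
  · rw [max_eq_right hD, Real.zero_rpow (by norm_num), mul_zero, ENNReal.ofReal_zero]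
    have : ∀ y : ℝ, ENNReal.ofReal (D - c / 2 * y ^ 2) = 0 := by
      intro y
      apply ENNReal.ofReal_of_nonpos
      have : 0 ≤ c / 2 * y ^ 2 := by positivity
      linarith
    simp [this]
  · rw [max_eq_left hD.le]
    set R := √(2 * D / c) with hR
    have hR0 : 0 < R := Real.sqrt_pos.2 (by positivity)
    have hR2 : R ^ 2 = 2 * D / c := Real.sq_sqrt (by positivity)
    have hcR : c / 2 * R ^ 2 = D := by
      rw [hR2]
      field_simp
    have hset : ∫⁻ y : ℝ, ENNReal.ofReal (D - c / 2 * y ^ 2) =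
        ∫⁻ y in Set.Ioc (-R) R, ENNReal.ofReal (D - c / 2 * y ^ 2) := by
      rw [← lintegral_indicator measurableSet_Ioc]
      apply lintegral_congr
      intro y
      by_cases hy : y ∈ Set.Ioc (-R) R
      · rw [Set.indicator_of_mem hy]
      · rw [Set.indicator_of_notMem hy]
        apply ENNReal.ofReal_of_nonpos
        have : R ^ 2 ≤ y ^ 2 := by
          rw [Set.mem_Ioc, not_and_or, not_lt, not_le] at hy
          rcases hy with hy | hy <;> nlinarith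
        nlinarith
    rw [hset, ← ofReal_integral_eq_lintegral_ofReal, ← intervalIntegral.integral_of_le
      (by linarith)]
    · congr 1
      have h1 : ∫ y in (-R)..R, (D - c / 2 * y ^ 2) = 4 / 3 * D * R := by
        rw [intervalIntegral.integral_sub, intervalIntegral.integral_const,
          intervalIntegral.integral_const_mul, integral_pow]
        · simp only [smul_eq_mul]
          push_cast
          have : c / 2 * ((R ^ (2 + 1) - (-R) ^ (2 + 1)) / (2 + 1)) = 2 / 3 * (c / 2 * R ^ 2) * R := by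
            ring
          rw [this, hcR]
          ring
        · exact intervalIntegrable_const
        · exact (Continuous.intervalIntegrable (by fun_prop) _ _)
      rw [h1, hR]
      have h2 : √(2 * D / c) = √(2 / c) * √D := by
        rw [← Real.sqrt_mul (by positivity)]
        congr 1
        ring
      have h3 : D ^ (3 / 2 : ℝ) = D * √D := by
        rw [Real.sqrt_eq_rpow, show (3 / 2 : ℝ) = 1 + 1 / 2 by norm_num, Real.rpow_add hD,
          Real.rpow_one]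
      rw [h2, h3]
      ring
    · refine Continuous.integrableOn_Ioc ?_
      fun_prop
    · filter_upwards [ae_restrict_mem measurableSet_Ioc] with y hy
      rw [Set.mem_Ioc] at hy
      have : y ^ 2 ≤ R ^ 2 := by nlinarith [hy.1, hy.2]
      show 0 ≤ D - c / 2 * y ^ 2
      nlinarith

/-- the area of the region between two graphs -/
theorem pf_gu_vol (lo hi : ℝ → ℝ) (hlo : Continuous lo) (hhi : Continuous hi) (c D y0 : ℝ)
    (hc : 0 < c) (h : ∀ y, hi y - lo y = D - c / 2 * (y + y0) ^ 2) :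
    volume {z : ℂ | lo z.im ≤ z.re ∧ z.re ≤ hi z.im} =
      ENNReal.ofReal (4 / 3 * √(2 / c) * (max D 0) ^ (3 / 2 : ℝ)) := by
  rw [← pf_gu_int c D y0 hc]
  have hcl : IsClosed {p : ℝ × ℝ | lo p.2 ≤ p.1 ∧ p.1 ≤ hi p.2} :=
    (isClosed_le (hlo.comp continuous_snd) continuous_fst).inter
      (isClosed_le continuous_fst (hhi.comp continuous_snd))
  have e1 : {z : ℂ | lo z.im ≤ z.re ∧ z.re ≤ hi z.im} =
      Complex.measurableEquivRealProd ⁻¹' {p : ℝ × ℝ | lo p.2 ≤ p.1 ∧ p.1 ≤ hi p.2} := by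
    ext z
    simp
  rw [e1, Complex.volume_preserving_equiv_real_prod.measure_preimage
    hcl.measurableSet.nullMeasurableSet, Measure.volume_eq_prod,
    Measure.prod_apply_symm hcl.measurableSet]
  apply lintegral_congr
  intro y
  have e2 : (fun x : ℝ => (x, y)) ⁻¹' {p : ℝ × ℝ | lo p.2 ≤ p.1 ∧ p.1 ≤ hi p.2} =
      Set.Icc (lo y) (hi y) := by
    ext x
    simp
  rw [e2, Real.volume_Icc, h]

/-- completing the square -/
theorem pf_gu_compl (a b z Yh q : ℝ) (hc : 0 < a + b) :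
    a / 2 * (z + Yh) ^ 2 + b / 2 * (z + Yh + q) ^ 2 =
      (a + b) / 2 * (z + (Yh + b * q / (a + b))) ^ 2 + a * b / (2 * (a + b)) * q ^ 2 := by
  field_simp
  ring

theorem pf_gu_re (X Y : LR) (t : ℝ) (z : ℂ) (s : unitInterval) :
    (z + (√t : ℂ) * jn X Y s).re = z.re + √t * X s := by
  show (z + (√t : ℂ) * ((X s : ℂ) + (Y s : ℂ) * Complex.I)).re = z.re + √t * X s
  simp

theorem pf_gu_im (X Y : LR) (t : ℝ) (z : ℂ) (s : unitInterval) :
    (z + (√t : ℂ) * jn X Y s).im = z.im + √t * Y s := by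
  show (z + (√t : ℂ) * ((X s : ℂ) + (Y s : ℂ) * Complex.I)).im = z.im + √t * Y s
  simp

/-- choice of the constant -/
theorem pf_gu_choice (α β ε : ℝ) (hα : 0 < α) (hs : 0 < α + β) (hε : 0 < ε) :
    ∃ δ : ℝ, 0 < δ ∧ δ < 1 ∧ 0 < α - δ ∧ 0 < (α - δ) - δ * |α - δ| ∧
      α + β - ε ≤ ((α - δ) - δ * |α - δ|) + ((β - δ) - δ * |β - δ|) ∧
      0 < ((α - δ) - δ * |α - δ|) + ((β - δ) - δ * |β - δ|) ∧
      α * β / (2 * (α + β)) - ε ≤ ((α - δ) - δ * |α - δ|) * ((β - δ) - δ * |β - δ|) /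
        (2 * (((α - δ) - δ * |α - δ|) + ((β - δ) - δ * |β - δ|))) := by
  have hf : Tendsto (fun δ : ℝ => (α - δ) - δ * |α - δ|) (𝓝 0) (𝓝 α) := by
    have h1 : Continuous (fun δ : ℝ => (α - δ) - δ * |α - δ|) := by fun_prop
    have h2 := h1.tendsto 0
    simpa using h2
  have hg : Tendsto (fun δ : ℝ => (β - δ) - δ * |β - δ|) (𝓝 0) (𝓝 β) := by
    have h1 : Continuous (fun δ : ℝ => (β - δ) - δ * |β - δ|) := by fun_prop
    have h2 := h1.tendsto 0
    simpa using h2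
  have hα1 : Tendsto (fun δ : ℝ => α - δ) (𝓝 0) (𝓝 α) := by
    have h1 : Continuous (fun δ : ℝ => α - δ) := by fun_prop
    have h2 := h1.tendsto 0
    simpa using h2
  have hq : Tendsto (fun δ : ℝ => ((α - δ) - δ * |α - δ|) * ((β - δ) - δ * |β - δ|) /
      (2 * (((α - δ) - δ * |α - δ|) + ((β - δ) - δ * |β - δ|)))) (𝓝 0)
      (𝓝 (α * β / (2 * (α + β)))) :=
    (hf.mul hg).div ((hf.add hg).const_mul 2) (by positivity)
  have e1 := (hf.eventually_const_lt hα)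
  have e2 := ((hf.add hg).eventually_const_lt (show α + β - ε < α + β by linarith))
  have e3 := ((hf.add hg).eventually_const_lt hs)
  have e4 := (hq.eventually_const_lt (show α * β / (2 * (α + β)) - ε < α * β / (2 * (α + β)) by
    linarith))
  have e5 := (hα1.eventually_const_lt hα)
  have e6 : ∀ᶠ δ : ℝ in 𝓝[>] 0, δ ∈ Ioo (0:ℝ) 1 := Ioo_mem_nhdsGT one_pos
  have e7 : ∀ᶠ δ : ℝ in 𝓝[>] 0, _ := (e1.and (e2.and (e3.and (e4.and e5)))).filter_mono
    nhdsWithin_le_nhds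
  obtain ⟨δ, ⟨h1, h2, h3, h4, h5⟩, h6⟩ := (e7.and e6).exists
  exact ⟨δ, h6.1, h6.2, h5, h1, h2.le, h3, h4.le⟩

theorem pf_gu : S_gu := by
  intro A B x α β hP ε hε hεs
  obtain ⟨δ, hδ, hδ1, hα', hα'', hsum, hc, hgam⟩ := pf_gu_choice α β ε hP.posA hP.sum hε
  obtain ⟨lA, hlA, hA⟩ := hP.upA δ hδ
  obtain ⟨lB, hlB, hB⟩ := hP.upB δ hδ
  have hb1 : |β - δ| ≤ |β| + 1 := by
    have h1 := abs_sub β δ
    rw [abs_of_pos hδ] at h1
    linarith
  set a1 := α - δ with ha1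
  set b1 := β - δ with hb1'
  set a2 := a1 - δ * |a1| with ha2
  set b2 := b1 - δ * |b1| with hb2
  have hdd : 0 < 1 + 1 / δ := by positivity
  set C0 := (|a1| + |b1|) * (1 + 1 / δ) / 2 with hC0
  have hC0' : 0 ≤ C0 := by positivity
  refine ⟨min lA lB, C0 + 1, lt_min hlA hlB, by linarith, ?_⟩
  intro τ l' t h X Y hτ hτ8 hl' ht hY hG hW l₁ hl₁ hl₁l hl₁2
  have hst : 0 < √t := Real.sqrt_pos.2 ht
  have hst2 : √t ^ 2 = t := Real.sq_sqrt ht.le
  set m := sInf (range X) with hm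
  set Mx := sSup (range X) with hMx
  set q := √t * rot h Y hf with hq
  set o := √t * om (2 * τ) (rot h Y) with ho
  set Yh := √t * Y h with hYh
  have hWi : Wi X = Mx - m := rfl
  have hvol := pf_gu_vol
    (fun z2 => x - √t * Mx + (b2 / 2 * (z2 + Yh + q) ^ 2 - |b1| * (1 + 1 / δ) / 2 * o ^ 2))
    (fun z2 => -(√t * m) - (a2 / 2 * (z2 + Yh) ^ 2 - |a1| * (1 + 1 / δ) / 2 * o ^ 2))
    (by fun_prop) (by fun_prop) (a2 + b2)
    (√t * Wi X - x - a2 * b2 / (2 * (a2 + b2)) * q ^ 2 + C0 * o ^ 2)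
    (Yh + b2 * q / (a2 + b2)) hc (by
      intro y
      have h1 := pf_gu_compl a2 b2 y Yh q hc
      rw [hWi, hC0]
      linarith)
  refine le_trans (measure_mono (t := {z : ℂ | (fun z2 => x - √t * Mx +
    (b2 / 2 * (z2 + Yh + q) ^ 2 - |b1| * (1 + 1 / δ) / 2 * o ^ 2)) z.im ≤ z.re ∧
      z.re ≤ (fun z2 => -(√t * m) -
    (a2 / 2 * (z2 + Yh) ^ 2 - |a1| * (1 + 1 / δ) / 2 * o ^ 2)) z.im}) ?_) (le_trans hvol.le ?_)
  · rintro z ⟨⟨s, hsA, hsl⟩, ⟨u, huB, hul⟩⟩
    rw [mem_closedBall, dist_eq_norm, sub_zero] at hsl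
    rw [mem_closedBall, dist_eq_norm] at hul
    have h1 := hA _ hsA (le_trans hsl (le_trans hl₁l (min_le_left _ _)))
    have h2 := hB _ huB (le_trans hul (le_trans hl₁l (min_le_right _ _)))
    rw [pf_gu_re, pf_gu_im] at h1 h2
    have h3 : |z.im + √t * Y u| ≤ l₁ := by
      have h4 := le_trans (Complex.abs_im_le_norm _) hul
      rw [Complex.sub_im, pf_gu_im, Complex.ofReal_im, sub_zero] at h4
      exact h4
    have h5 : (z.im + √t * Y u) ^ 2 ≤ l₁ ^ 2 := sq_le_sq' (abs_le.1 h3).1 (abs_le.1 h3).2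
    have h6 : -(l' / 2) ≤ b1 / 2 * (z.im + √t * Y u) ^ 2 := by
      have h7 : |b1| * (z.im + √t * Y u) ^ 2 ≤ l' := by
        calc |b1| * (z.im + √t * Y u) ^ 2 ≤ (|β| + 1) * l₁ ^ 2 :=
              mul_le_mul hb1 h5 (sq_nonneg _) (by positivity)
          _ = l₁ ^ 2 * (|β| + 1) := mul_comm _ _
          _ ≤ l' := hl₁2
      have h8 : -|b1| * (z.im + √t * Y u) ^ 2 ≤ b1 * (z.im + √t * Y u) ^ 2 :=
        mul_le_mul_of_nonneg_right (neg_abs_le _) (sq_nonneg _)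
      linarith
    have h9 : 0 ≤ a1 / 2 * (z.im + √t * Y s) ^ 2 := by positivity
    have h10 := pf_gu_le_sup X u
    have h11 := pf_gu_inf_le X s
    rw [← hMx] at h10
    rw [← hm] at h11
    have h12 := mul_le_mul_of_nonneg_left h10 hst.le
    have h13 := mul_le_mul_of_nonneg_left h11 hst.le
    rw [hWi, mul_sub] at hW
    -- the times
    have hs := hG.1 s (by rw [← hm]; linarith)
    have hu := hG.2 u (by rw [← hMx]; linarith)
    have hns := pf_gu_near Y hY h s τ hτ.le hs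
    have hnu := pf_gu_far Y hY h u τ hτ.le hu
    have ho1 : (√t * (Y s - Y h)) ^ 2 ≤ o ^ 2 := by
      rw [ho, mul_pow, mul_pow]
      refine mul_le_mul_of_nonneg_left ?_ (sq_nonneg _)
      exact sq_le_sq' (by linarith [(abs_le.1 hns).1]) (abs_le.1 hns).2
    have ho2 : (√t * (Y u - Y h - rot h Y hf)) ^ 2 ≤ o ^ 2 := by
      rw [ho, mul_pow, mul_pow]
      refine mul_le_mul_of_nonneg_left ?_ (sq_nonneg _)
      exact sq_le_sq' (by linarith [(abs_le.1 hnu).1]) (abs_le.1 hnu).2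
    have k1 := pf_gu_sq a1 (z.im + Yh) (√t * (Y s - Y h)) δ hδ
    have k2 := pf_gu_sq b1 (z.im + Yh + q) (√t * (Y u - Y h - rot h Y hf)) δ hδ
    have e1 : z.im + Yh + √t * (Y s - Y h) = z.im + √t * Y s := by rw [hYh]; ring
    have e2 : z.im + Yh + q + √t * (Y u - Y h - rot h Y hf) = z.im + √t * Y u := by
      rw [hYh, hq]; ring
    rw [e1, ← ha2] at k1
    rw [e2, ← hb2] at k2
    have k3 : |a1| * (1 + 1 / δ) * (√t * (Y s - Y h)) ^ 2 ≤ |a1| * (1 + 1 / δ) * o ^ 2 :=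
      mul_le_mul_of_nonneg_left ho1 (by positivity)
    have k4 : |b1| * (1 + 1 / δ) * (√t * (Y u - Y h - rot h Y hf)) ^ 2 ≤
        |b1| * (1 + 1 / δ) * o ^ 2 :=
      mul_le_mul_of_nonneg_left ho2 (by positivity)
    rw [mem_ofPred_eq]
    constructor
    · show x - √t * Mx + (b2 / 2 * (z.im + Yh + q) ^ 2 - |b1| * (1 + 1 / δ) / 2 * o ^ 2) ≤ z.re
      linarith
    · show z.re ≤ -(√t * m) - (a2 / 2 * (z.im + Yh) ^ 2 - |a1| * (1 + 1 / δ) / 2 * o ^ 2)
      linarith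
  · apply ENNReal.ofReal_le_ofReal
    have hq2 : q ^ 2 = t * rot h Y hf ^ 2 := by rw [hq, mul_pow, hst2]
    have ho2 : o ^ 2 = t * om (2 * τ) (rot h Y) ^ 2 := by rw [ho, mul_pow, hst2]
    have f1 : √(2 / (a2 + b2)) ≤ √(2 / (α + β - ε)) := by
      apply Real.sqrt_le_sqrt
      exact div_le_div_of_nonneg_left (by norm_num) (by linarith) hsum
    have f2 : √t * Wi X - x - a2 * b2 / (2 * (a2 + b2)) * q ^ 2 + C0 * o ^ 2 ≤
        √t * Wi X - x - (α * β / (2 * (α + β)) - ε) * t * (rot h Y hf) ^ 2 +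
          (C0 + 1) * t * om (2 * τ) (rot h Y) ^ 2 := by
      have g1 := mul_le_mul_of_nonneg_right hgam (sq_nonneg q)
      have g2 : 0 ≤ o ^ 2 := sq_nonneg o
      rw [hq2] at g1 ⊢
      rw [ho2] at g2 ⊢
      linarith
    have f3 := Real.rpow_le_rpow (le_max_right _ _) (max_le_max_right 0 f2)
      (show (0:ℝ) ≤ 3 / 2 by norm_num)
    have f4 : 0 ≤ √(2 / (a2 + b2)) := Real.sqrt_nonneg _
    exact mul_le_mul (mul_le_mul_of_nonneg_left f1 (by norm_num)) f3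
      (Real.rpow_nonneg (le_max_right _ _) _) (by positivity)

end Pool.Agent.H212AN
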