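import Pool.Agent.H212AN.E3
import Pool.Agent.H212AN.P_ie

set_option autoImplicit false

namespace Pool.Agent.H212AN

open MeasureTheory Set Filter Topology Metric
open Pool.Agent.H212AN.G (nG PG gm gk)
open scoped Real ENNReal ComplexConjugate

theorem pf_ien_sq {n : ℕ} (a : Fin n → ℝ) (ha : ∀ i, a i * a i = a i) :
    (∑ i, a i) * (∑ i, a i) = ∑ i, a i + 2 * ∑ p ∈ prs n, a p.1 * a p.2 := by
  have h1 : ∑ p ∈ prs n, a p.1 * a p.2 = ∑ i : Fin n, ∑ j : Fin n, if i < j then a i * a j else 0 := by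
    rw [prs, Finset.sum_filter, ← Finset.univ_product_univ, Finset.sum_product]
  have h2 : ∑ i : Fin n, ∑ j : Fin n, (if i < j then a i * a j else 0) =
      ∑ i : Fin n, ∑ j : Fin n, if j < i then a i * a j else 0 := by
    rw [Finset.sum_comm]
    refine Finset.sum_congr rfl fun i _ => Finset.sum_congr rfl fun j _ => ?_
    rw [mul_comm]
  have h3 : ∑ i, a i = ∑ i : Fin n, ∑ j : Fin n, if i = j then a i * a j else 0 := by
    simp [ha]
  have h4 : (∑ i, a i) * (∑ i, a i) = ∑ i : Fin n, ∑ j : Fin n, ((if i = j then a i * a j else 0) +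
      ((if i < j then a i * a j else 0) + if j < i then a i * a j else 0)) := by
    rw [Finset.sum_mul_sum]
    refine Finset.sum_congr rfl fun i _ => Finset.sum_congr rfl fun j _ => ?_
    rcases lt_trichotomy i j with h | h | h
    · rw [if_neg h.ne, if_pos h, if_neg h.asymm]
      ring
    · rw [if_pos h, h]
      simp
    · rw [if_neg h.ne', if_neg h.asymm, if_pos h]
      ring
  simp only [Finset.sum_add_distrib] at h4
  rw [← h2, ← h3, ← h1] at h4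
  rw [h4]
  ring

/-- the triples of different indices -/
def pf_ien_tr (n : ℕ) : Finset (Fin n × Fin n × Fin n) :=
  Finset.univ.filter fun q => q.1 ≠ q.2.1 ∧ q.1 ≠ q.2.2 ∧ q.2.1 ≠ q.2.2

/-- the pairs of different indices -/
def pf_ien_pr (n : ℕ) : Finset (Fin n × Fin n) := Finset.univ.filter fun p => p.1 ≠ p.2

theorem pf_ien_pt {Ω : Type*} (n : ℕ) (H : Set Ω) (A : Fin n → Set Ω) (ω : Ω) :
    0 ≤ Hᶜ.indicator (1 : Ω → ℝ) ω - ∑ i, (A i).indicator (1 : Ω → ℝ) ω +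
      ∑ p ∈ prs n, (A p.1 ∩ A p.2).indicator (1 : Ω → ℝ) ω + ∑ i, (A i ∩ H).indicator (1 : Ω → ℝ) ω -
      (Hᶜ \ ⋃ i, A i).indicator (1 : Ω → ℝ) ω ∧
    Hᶜ.indicator (1 : Ω → ℝ) ω - ∑ i, (A i).indicator (1 : Ω → ℝ) ω +
      ∑ p ∈ prs n, (A p.1 ∩ A p.2).indicator (1 : Ω → ℝ) ω + ∑ i, (A i ∩ H).indicator (1 : Ω → ℝ) ω -
      (Hᶜ \ ⋃ i, A i).indicator (1 : Ω → ℝ) ω ≤
    (n : ℝ) ^ 2 * (∑ q ∈ pf_ien_tr n, (A q.1 ∩ (A q.2.1 ∩ A q.2.2)).indicator (1 : Ω → ℝ) ω +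
      ∑ p ∈ pf_ien_pr n, (A p.1 ∩ (A p.2 ∩ H)).indicator (1 : Ω → ℝ) ω) := by
  classical
  obtain ⟨a, ha⟩ : ∃ a : Fin n → ℝ, ∀ i, a i = (A i).indicator (1 : Ω → ℝ) ω := ⟨_, fun _ => rfl⟩
  obtain ⟨e, he⟩ : ∃ e : ℝ, e = H.indicator (1 : Ω → ℝ) ω := ⟨_, rfl⟩
  obtain ⟨S, hS⟩ : ∃ S : Finset (Fin n), S = Finset.univ.filter fun i => ω ∈ A i := ⟨_, rfl⟩
  have hmS : ∀ i, i ∈ S ↔ ω ∈ A i := by
    intro i
    rw [hS]
    simp
  have ha1 : ∀ i, ω ∈ A i → a i = 1 := fun i hi => by rw [ha, indicator_of_mem hi]; rfl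
  have ha0 : ∀ i, ω ∉ A i → a i = 0 := fun i hi => by rw [ha, indicator_of_notMem hi]
  have he1 : ω ∈ H → e = 1 := fun h => by rw [he, indicator_of_mem h]; rfl
  have he0 : ω ∉ H → e = 0 := fun h => by rw [he, indicator_of_notMem h]
  have haa : ∀ i, a i * a i = a i := by
    intro i
    by_cases h : ω ∈ A i
    · rw [ha1 i h, one_mul]
    · rw [ha0 i h, zero_mul]
  have hsum : ∑ i, a i = (S.card : ℝ) := by
    rw [hS, Finset.card_filter, Nat.cast_sum]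
    refine Finset.sum_congr rfl fun i _ => ?_
    by_cases h : ω ∈ A i
    · rw [ha1 i h, if_pos h, Nat.cast_one]
    · rw [ha0 i h, if_neg h, Nat.cast_zero]
  have hsq := pf_ien_sq a haa
  have i1 : Hᶜ.indicator (1 : Ω → ℝ) ω = 1 - e := by
    by_cases h : ω ∈ H
    · rw [he1 h, indicator_of_notMem (by simpa using h), sub_self]
    · rw [he0 h, indicator_of_mem (by simpa using h), sub_zero]
      rfl
  have i2 : ∑ i, (A i).indicator (1 : Ω → ℝ) ω = ∑ i, a i := Finset.sum_congr rfl fun i _ => (ha i).symm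
  have i3 : ∀ X Y : Set Ω, (X ∩ Y).indicator (1 : Ω → ℝ) ω =
      X.indicator (1 : Ω → ℝ) ω * Y.indicator (1 : Ω → ℝ) ω := by
    intro X Y
    rw [inter_indicator_one]
    rfl
  have i4 : ∑ p ∈ prs n, (A p.1 ∩ A p.2).indicator (1 : Ω → ℝ) ω = ∑ p ∈ prs n, a p.1 * a p.2 :=
    Finset.sum_congr rfl fun p _ => by rw [i3, ha, ha]
  have i5 : ∑ i, (A i ∩ H).indicator (1 : Ω → ℝ) ω = (∑ i, a i) * e := by
    rw [Finset.sum_mul]
    exact Finset.sum_congr rfl fun i _ => by rw [i3, ha, he]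
  obtain ⟨T, hT⟩ : ∃ T : ℝ, T = ∑ q ∈ pf_ien_tr n, (A q.1 ∩ (A q.2.1 ∩ A q.2.2)).indicator (1 : Ω → ℝ) ω +
      ∑ p ∈ pf_ien_pr n, (A p.1 ∩ (A p.2 ∩ H)).indicator (1 : Ω → ℝ) ω := ⟨_, rfl⟩
  have hn0 : ∀ X : Set Ω, 0 ≤ X.indicator (1 : Ω → ℝ) ω := fun X =>
    indicator_nonneg (fun _ _ => zero_le_one) _
  have hT1 : 0 ≤ ∑ q ∈ pf_ien_tr n, (A q.1 ∩ (A q.2.1 ∩ A q.2.2)).indicator (1 : Ω → ℝ) ω :=
    Finset.sum_nonneg fun q _ => hn0 _
  have hT2 : 0 ≤ ∑ p ∈ pf_ien_pr n, (A p.1 ∩ (A p.2 ∩ H)).indicator (1 : Ω → ℝ) ω :=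
    Finset.sum_nonneg fun q _ => hn0 _
  have hT0 : 0 ≤ T := by rw [hT]; exact add_nonneg hT1 hT2
  obtain ⟨P, hP⟩ : ∃ P : ℝ, P = ∑ p ∈ prs n, a p.1 * a p.2 := ⟨_, rfl⟩
  rw [i1, i2, i4, i5, ← hT, hsum, ← hP]
  rw [hsum, ← hP] at hsq
  have hcn : S.card ≤ n := by
    have := Finset.card_le_univ S
    rwa [Fintype.card_fin] at this
  have hcn' : (S.card : ℝ) ≤ n := by exact_mod_cast hcn
  have hecase : (e = 0 ∧ ω ∉ H) ∨ (e = 1 ∧ ω ∈ H) := by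
    by_cases h : ω ∈ H
    · exact Or.inr ⟨he1 h, h⟩
    · exact Or.inl ⟨he0 h, h⟩
  rcases Nat.eq_zero_or_pos S.card with h0 | hpos
  · -- no hole is hit
    have hE : (Hᶜ \ ⋃ i, A i).indicator (1 : Ω → ℝ) ω = 1 - e := by
      have hno : ∀ i, ω ∉ A i := by
        intro i hi
        have h1 := (hmS i).2 hi
        rw [Finset.card_eq_zero] at h0
        rw [h0] at h1
        simp at h1
      rcases hecase with ⟨h1, h2⟩ | ⟨h1, h2⟩
      · rw [h1, indicator_of_mem, sub_zero]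
        · rfl
        · refine ⟨h2, ?_⟩
          rw [mem_iUnion]
          rintro ⟨i, hi⟩
          exact hno i hi
      · rw [h1, indicator_of_notMem, sub_self]
        rintro ⟨h3, -⟩
        exact h3 h2
    rw [hE]
    rw [h0] at hsq ⊢
    simp only [Nat.cast_zero] at hsq ⊢
    have hP0 : P = 0 := by linarith
    rw [hP0]
    have : 0 ≤ (n : ℝ) ^ 2 * T := by positivity
    constructor
    · linarith
    · linarith
  · have hE : (Hᶜ \ ⋃ i, A i).indicator (1 : Ω → ℝ) ω = 0 := by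
      rw [indicator_of_notMem]
      rintro ⟨-, h3⟩
      obtain ⟨i, hi⟩ := Finset.card_pos.1 hpos
      exact h3 (mem_iUnion.2 ⟨i, (hmS i).1 hi⟩)
    rw [hE]
    have hm1 : (1 : ℝ) ≤ S.card := by exact_mod_cast hpos
    have hF : 1 - e - (S.card : ℝ) + P + (S.card : ℝ) * e - 0 =
        ((S.card : ℝ) - 1) * ((S.card : ℝ) - 2 + 2 * e) / 2 := by
      linarith
    rw [hF]
    -- the triple term
    have htrip : 3 ≤ S.card → 1 ≤ T := by
      intro h3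
      obtain ⟨i, hi, j, hj, k, hk, hij, hik, hjk⟩ := Finset.two_lt_card.1 (by omega : 2 < S.card)
      have hmem : (i, j, k) ∈ pf_ien_tr n := by
        rw [pf_ien_tr, Finset.mem_filter]
        exact ⟨Finset.mem_univ _, hij, hik, hjk⟩
      have h4 := Finset.single_le_sum (f := fun q : Fin n × Fin n × Fin n =>
        (A q.1 ∩ (A q.2.1 ∩ A q.2.2)).indicator (1 : Ω → ℝ) ω) (fun q _ => hn0 _) hmem
      have h5 : (A i ∩ (A j ∩ A k)).indicator (1 : Ω → ℝ) ω = 1 := by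
        rw [indicator_of_mem]
        · rfl
        · exact ⟨(hmS i).1 hi, (hmS j).1 hj, (hmS k).1 hk⟩
      simp only [h5] at h4
      rw [hT]
      linarith
    have hpair : 2 ≤ S.card → ω ∈ H → 1 ≤ T := by
      intro h2 hω
      obtain ⟨i, hi, j, hj, hij⟩ := Finset.one_lt_card.1 (by omega : 1 < S.card)
      have hmem : (i, j) ∈ pf_ien_pr n := by
        rw [pf_ien_pr, Finset.mem_filter]
        exact ⟨Finset.mem_univ _, hij⟩
      have h4 := Finset.single_le_sum (f := fun p : Fin n × Fin n =>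
        (A p.1 ∩ (A p.2 ∩ H)).indicator (1 : Ω → ℝ) ω) (fun q _ => hn0 _) hmem
      have h5 : (A i ∩ (A j ∩ H)).indicator (1 : Ω → ℝ) ω = 1 := by
        rw [indicator_of_mem]
        · rfl
        · exact ⟨(hmS i).1 hi, (hmS j).1 hj, hω⟩
      simp only [h5] at h4
      rw [hT]
      linarith
    have hbig : 1 ≤ T → ((S.card : ℝ) - 1) * ((S.card : ℝ) - 2 + 2 * e) / 2 ≤ (n : ℝ) ^ 2 * T := by
      intro h1
      have h2 : e ≤ 1 := by
        rcases hecase with ⟨h, -⟩ | ⟨h, -⟩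
        · rw [h]; norm_num
        · rw [h]
      have h3 : ((S.card : ℝ) - 1) * ((S.card : ℝ) - 2 + 2 * e) ≤ ((S.card : ℝ) - 1) * (S.card : ℝ) :=
        mul_le_mul_of_nonneg_left (by linarith) (by linarith)
      have h4 : ((S.card : ℝ) - 1) * (S.card : ℝ) ≤ (n : ℝ) * n := by
        apply mul_le_mul
        · linarith
        · exact hcn'
        · linarith
        · positivity
      have h5 : (n : ℝ) ^ 2 * 1 ≤ (n : ℝ) ^ 2 * T := mul_le_mul_of_nonneg_left h1 (by positivity)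
      nlinarith
    have hnT : 0 ≤ (n : ℝ) ^ 2 * T := by positivity
    rcases hecase with ⟨h1, h2⟩ | ⟨h1, h2⟩
    · rcases (by omega : S.card = 1 ∨ S.card = 2 ∨ 3 ≤ S.card) with h3 | h3 | h3
      · rw [h3, h1]
        norm_num
        exact hnT
      · rw [h3, h1]
        norm_num
        exact hnT
      · have h4 : (3 : ℝ) ≤ S.card := by exact_mod_cast h3
        refine ⟨?_, hbig (htrip h3)⟩
        rw [h1]
        have : 0 ≤ ((S.card : ℝ) - 1) * ((S.card : ℝ) - 2 + 2 * 0) :=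
          mul_nonneg (by linarith) (by linarith)
        linarith
    · rcases (by omega : S.card = 1 ∨ 2 ≤ S.card) with h3 | h3
      · rw [h3, h1]
        norm_num
        exact hnT
      · have h4 : (2 : ℝ) ≤ S.card := by exact_mod_cast h3
        refine ⟨?_, hbig (hpair h3 h2)⟩
        rw [h1]
        have : 0 ≤ ((S.card : ℝ) - 1) * ((S.card : ℝ) - 2 + 2 * 1) :=
          mul_nonneg (by linarith) (by linarith)
        linarith

theorem pf_ien_int5 {Ω : Type*} [MeasurableSpace Ω] (ν : Measure Ω) (f1 f2 f3 f4 f5 : Ω → ℝ)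
    (h1 : Integrable f1 ν) (h2 : Integrable f2 ν) (h3 : Integrable f3 ν) (h4 : Integrable f4 ν)
    (h5 : Integrable f5 ν) : Integrable (fun ω => f1 ω - f2 ω + f3 ω + f4 ω - f5 ω) ν ∧
    ∫ ω, (f1 ω - f2 ω + f3 ω + f4 ω - f5 ω) ∂ν =
      ∫ ω, f1 ω ∂ν - ∫ ω, f2 ω ∂ν + ∫ ω, f3 ω ∂ν + ∫ ω, f4 ω ∂ν - ∫ ω, f5 ω ∂ν := by
  have a1 : Integrable (fun ω => f1 ω - f2 ω) ν := h1.sub h2
  have a2 : Integrable (fun ω => f1 ω - f2 ω + f3 ω) ν := a1.add h3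
  have a3 : Integrable (fun ω => f1 ω - f2 ω + f3 ω + f4 ω) ν := a2.add h4
  refine ⟨a3.sub h5, ?_⟩
  rw [integral_sub a3 h5, integral_add a2 h4, integral_add a1 h3, integral_sub h1 h2]

/-- inclusion and exclusion for an abstract measure -/
theorem pf_ien_abs {Ω : Type*} [MeasurableSpace Ω] (ν : Measure Ω) (n : ℕ) (H : Set Ω)
    (A : Fin n → Set Ω) (hH : MeasurableSet H) (hA : ∀ i, MeasurableSet (A i)) (fH : ν Hᶜ ≠ ∞)
    (fA : ∀ i, ν (A i) ≠ ∞) :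
    |(ν (Hᶜ \ ⋃ i, A i)).toReal - ((ν Hᶜ).toReal - ∑ i, (ν (A i)).toReal +
      ∑ p ∈ prs n, (ν (A p.1 ∩ A p.2)).toReal + ∑ i, (ν (A i ∩ H)).toReal)| ≤
    (n : ℝ) ^ 2 * (∑ q ∈ pf_ien_tr n, (ν (A q.1 ∩ (A q.2.1 ∩ A q.2.2))).toReal +
      ∑ p ∈ pf_ien_pr n, (ν (A p.1 ∩ (A p.2 ∩ H))).toReal) := by
  have hint : ∀ X : Set Ω, MeasurableSet X → ν X ≠ ∞ →
      Integrable (fun ω => X.indicator (1 : Ω → ℝ) ω) ν := by
    intro X hX hf
    exact (integrable_indicator_iff hX).2 (integrableOn_const hf)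
  have hval : ∀ X : Set Ω, MeasurableSet X →
      ∫ ω, X.indicator (1 : Ω → ℝ) ω ∂ν = (ν X).toReal := by
    intro X hX
    exact integral_indicator_one hX
  have hE : MeasurableSet (Hᶜ \ ⋃ i, A i) := hH.compl.diff (MeasurableSet.iUnion hA)
  have fE : ν (Hᶜ \ ⋃ i, A i) ≠ ∞ := ne_top_of_le_ne_top fH (measure_mono sdiff_subset)
  have fA2 : ∀ (i : Fin n) (X : Set Ω), ν (A i ∩ X) ≠ ∞ := fun i X =>
    ne_top_of_le_ne_top (fA i) (measure_mono inter_subset_left)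
  have I1 := hint _ hH.compl fH
  have I2 : Integrable (fun ω => ∑ i, (A i).indicator (1 : Ω → ℝ) ω) ν :=
    integrable_finsetSum _ fun i _ => hint _ (hA i) (fA i)
  have I3 : Integrable (fun ω => ∑ p ∈ prs n, (A p.1 ∩ A p.2).indicator (1 : Ω → ℝ) ω) ν :=
    integrable_finsetSum _ fun p _ => hint _ ((hA _).inter (hA _)) (fA2 _ _)
  have I4 : Integrable (fun ω => ∑ i, (A i ∩ H).indicator (1 : Ω → ℝ) ω) ν :=
    integrable_finsetSum _ fun i _ => hint _ ((hA _).inter hH) (fA2 _ _)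
  have I5 := hint _ hE fE
  have I6 : Integrable (fun ω => ∑ q ∈ pf_ien_tr n,
      (A q.1 ∩ (A q.2.1 ∩ A q.2.2)).indicator (1 : Ω → ℝ) ω) ν :=
    integrable_finsetSum _ fun q _ => hint _ ((hA _).inter ((hA _).inter (hA _))) (fA2 _ _)
  have I7 : Integrable (fun ω => ∑ p ∈ pf_ien_pr n,
      (A p.1 ∩ (A p.2 ∩ H)).indicator (1 : Ω → ℝ) ω) ν :=
    integrable_finsetSum _ fun q _ => hint _ ((hA _).inter ((hA _).inter hH)) (fA2 _ _)
  have hF : ∫ ω, (Hᶜ.indicator (1 : Ω → ℝ) ω - ∑ i, (A i).indicator (1 : Ω → ℝ) ω +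
      ∑ p ∈ prs n, (A p.1 ∩ A p.2).indicator (1 : Ω → ℝ) ω + ∑ i, (A i ∩ H).indicator (1 : Ω → ℝ) ω -
      (Hᶜ \ ⋃ i, A i).indicator (1 : Ω → ℝ) ω) ∂ν = (ν Hᶜ).toReal - ∑ i, (ν (A i)).toReal +
      ∑ p ∈ prs n, (ν (A p.1 ∩ A p.2)).toReal + ∑ i, (ν (A i ∩ H)).toReal -
      (ν (Hᶜ \ ⋃ i, A i)).toReal := by
    rw [(pf_ien_int5 ν _ _ _ _ _ I1 I2 I3 I4 I5).2, hval _ hH.compl, hval _ hE,
      integral_finsetSum _ fun i _ => hint _ (hA i) (fA i),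
      integral_finsetSum _ fun p _ => hint _ ((hA _).inter (hA _)) (fA2 _ _),
      integral_finsetSum _ fun i _ => hint _ ((hA _).inter hH) (fA2 _ _)]
    congr 2
    · congr 1
      · congr 1
        exact Finset.sum_congr rfl fun i _ => hval _ (hA i)
      · exact Finset.sum_congr rfl fun p _ => hval _ ((hA _).inter (hA _))
    · exact Finset.sum_congr rfl fun i _ => hval _ ((hA _).inter hH)
  have hG : ∫ ω, (n : ℝ) ^ 2 * (∑ q ∈ pf_ien_tr n,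
      (A q.1 ∩ (A q.2.1 ∩ A q.2.2)).indicator (1 : Ω → ℝ) ω +
      ∑ p ∈ pf_ien_pr n, (A p.1 ∩ (A p.2 ∩ H)).indicator (1 : Ω → ℝ) ω) ∂ν =
      (n : ℝ) ^ 2 * (∑ q ∈ pf_ien_tr n, (ν (A q.1 ∩ (A q.2.1 ∩ A q.2.2))).toReal +
      ∑ p ∈ pf_ien_pr n, (ν (A p.1 ∩ (A p.2 ∩ H))).toReal) := by
    rw [integral_const_mul, integral_add I6 I7,
      integral_finsetSum _ fun q _ => hint _ ((hA _).inter ((hA _).inter (hA _))) (fA2 _ _),
      integral_finsetSum _ fun q _ => hint _ ((hA _).inter ((hA _).inter hH)) (fA2 _ _)]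
    congr 2
    · exact Finset.sum_congr rfl fun q _ => hval _ ((hA _).inter ((hA _).inter (hA _)))
    · exact Finset.sum_congr rfl fun q _ => hval _ ((hA _).inter ((hA _).inter hH))
  have h0 : 0 ≤ ∫ ω, (Hᶜ.indicator (1 : Ω → ℝ) ω - ∑ i, (A i).indicator (1 : Ω → ℝ) ω +
      ∑ p ∈ prs n, (A p.1 ∩ A p.2).indicator (1 : Ω → ℝ) ω + ∑ i, (A i ∩ H).indicator (1 : Ω → ℝ) ω -
      (Hᶜ \ ⋃ i, A i).indicator (1 : Ω → ℝ) ω) ∂ν := integral_nonneg fun ω => (pf_ien_pt n H A ω).1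
  have h1 := integral_mono (pf_ien_int5 ν _ _ _ _ _ I1 I2 I3 I4 I5).1
    ((I6.add I7).const_mul ((n : ℝ) ^ 2)) fun ω => (pf_ien_pt n H A ω).2
  rw [hF] at h0
  have h1' : ∫ ω, (Hᶜ.indicator (1 : Ω → ℝ) ω - ∑ i, (A i).indicator (1 : Ω → ℝ) ω +
      ∑ p ∈ prs n, (A p.1 ∩ A p.2).indicator (1 : Ω → ℝ) ω + ∑ i, (A i ∩ H).indicator (1 : Ω → ℝ) ω -
      (Hᶜ \ ⋃ i, A i).indicator (1 : Ω → ℝ) ω) ∂ν ≤ ∫ ω, (n : ℝ) ^ 2 * (∑ q ∈ pf_ien_tr n,
      (A q.1 ∩ (A q.2.1 ∩ A q.2.2)).indicator (1 : Ω → ℝ) ω +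
      ∑ p ∈ pf_ien_pr n, (A p.1 ∩ (A p.2 ∩ H)).indicator (1 : Ω → ℝ) ω) ∂ν := h1
  rw [hF, hG] at h1'
  rw [abs_le]
  constructor
  · linarith
  · have : 0 ≤ (n : ℝ) ^ 2 * (∑ q ∈ pf_ien_tr n, (ν (A q.1 ∩ (A q.2.1 ∩ A q.2.2))).toReal +
      ∑ p ∈ pf_ien_pr n, (ν (A p.1 ∩ (A p.2 ∩ H))).toReal) := by positivity
    linarith

theorem pf_ien_e1 (h1 : S_qinv) (μ : Measure Lo) (hμ : IsLoop μ) (r t : ℝ) (ht : 0 < t)
    (w₁ w₂ : ℂ) (hw : w₁ ≠ w₂) : Hp μ r (dist w₁ w₂ - 2 * r) t =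
      ((μ.prod (volume : Measure ℂ)) (pf_ie_H (closedBall w₁ r) t ∩ pf_ie_H (closedBall w₂ r) t)).toReal := by
  rw [← pf_ie_Q2 μ hμ _ _ isClosed_closedBall isClosed_closedBall]
  unfold Hp
  have hne : w₂ - w₁ ≠ 0 := sub_ne_zero.2 hw.symm
  have hn : (‖w₂ - w₁‖ : ℂ) ≠ 0 := by exact_mod_cast (norm_ne_zero_iff.2 hne)
  have hu : ‖(w₂ - w₁) / (‖w₂ - w₁‖ : ℂ)‖ = 1 := by
    rw [norm_div, Complex.norm_real, norm_norm, div_self (norm_ne_zero_iff.2 hne)]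
  have := h1 μ hμ (closedBall 0 r) (closedBall ((dist w₁ w₂ - 2 * r + 2 * r : ℝ) : ℂ) r)
    ((w₂ - w₁) / (‖w₂ - w₁‖ : ℂ)) w₁ t isClosed_closedBall isClosed_closedBall hu ht
  rw [← this, pf_ie_img _ _ _ hu, pf_ie_img _ _ _ hu]
  congr 3
  · ring
  · rw [show dist w₁ w₂ - 2 * r + 2 * r = ‖w₂ - w₁‖ by rw [dist_comm, dist_eq_norm]; ring]
    rw [div_mul_cancel₀ _ hn]; ring

theorem pf_ien_e2 (h1 : S_qinv) (μ : Measure Lo) (hμ : IsLoop μ) (R r t : ℝ) (ht : 0 < t) (w : ℂ) :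
    Op μ R r (R - r - ‖w‖) t =
      ((μ.prod (volume : Measure ℂ)) (pf_ie_H (closedBall w r) t ∩ pf_ie_H (ball (0:ℂ) R)ᶜ t)).toReal := by
  rw [← pf_ie_Q2 μ hμ _ _ isClosed_closedBall isOpen_ball.isClosed_compl]
  unfold Op
  rw [show R - r - (R - r - ‖w‖) = ‖w‖ by ring]
  obtain ⟨u, hu, huw⟩ : ∃ u : ℂ, ‖u‖ = 1 ∧ u * (‖w‖ : ℂ) = w := by
    by_cases hw : w = 0
    · exact ⟨1, by simp, by simp [hw]⟩
    · refine ⟨w / (‖w‖ : ℂ), ?_, ?_⟩
      · rw [norm_div, Complex.norm_real, norm_norm, div_self (norm_ne_zero_iff.2 hw)]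
      · exact div_mul_cancel₀ _ (by exact_mod_cast (norm_ne_zero_iff.2 hw))
  have := h1 μ hμ (closedBall (‖w‖ : ℂ) r) (ball (0:ℂ) R)ᶜ u 0 t isClosed_closedBall
    isOpen_ball.isClosed_compl hu ht
  rw [← this, pf_ie_img _ _ _ hu, pf_ie_img0 _ hu, huw, add_zero]

theorem pf_ien_EV (μ : Measure Lo) (hμ : IsLoop μ) (n : ℕ) (R r : ℝ) (w : Fin n → ℂ) (t : ℝ) :
    EV μ (NH n R r 0 w) t = (μ.prod (volume : Measure ℂ))
      ((pf_ie_H (ball (0:ℂ) R)ᶜ t)ᶜ \ ⋃ i, pf_ie_H (closedBall (w i) r) t) := by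
  have := hμ.prob
  rw [Measure.prod_apply ((pf_ie_meas _ isOpen_ball.isClosed_compl t).compl.diff
    (MeasurableSet.iUnion fun i => pf_ie_meas _ isClosed_closedBall t))]
  unfold EV
  refine lintegral_congr fun b => ?_
  congr 1
  ext z
  simp only [mem_preimage, pf_ie_H, Set.mem_sdiff, mem_iUnion, mem_compl_iff, mem_ofPred_eq, hit, NH]
  constructor
  · intro h
    refine ⟨?_, ?_⟩
    · rintro ⟨s, hs⟩; exact hs (h s).1
    · rintro ⟨i, s, hs⟩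
      exact (h s).2 ⟨i, hs⟩
  · rintro ⟨h1, h2⟩ s
    refine ⟨?_, ?_⟩
    · by_contra hs; exact h1 ⟨s, hs⟩
    · rintro ⟨i, hs⟩
      exact h2 ⟨i, s, hs⟩

theorem pf_ien (h1 : S_qinv) (h2 : S_up) (h3 : S_mom) (h4 : S_end) : S_ien := by
  intro μ hμ n R r
  refine ⟨fun t => ((μ.prod (volume : Measure ℂ)) (pf_ie_H (ball (0:ℂ) R)ᶜ t)ᶜ).toReal -
    n * ((μ.prod (volume : Measure ℂ)) (pf_ie_H (closedBall 0 r) t)).toReal, ?_⟩
  rintro w ⟨hr, hwR, hww⟩ g hg hgO hgH θ hθ0 hθ1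
  -- distances
  have d1 : ∀ i j, i ≠ j → ∀ a ∈ closedBall (w i) r, ∀ b ∈ closedBall (w j) r, g ≤ dist a b := by
    intro i j hij a ha b hb
    rw [mem_closedBall] at ha hb
    have h5 := dist_triangle4 (w i) a b (w j)
    rw [dist_comm (w i) a] at h5
    have h6 := hgH i j hij
    linarith
  have d2 : ∀ i, ∀ a ∈ closedBall (w i) r, ∀ c ∈ (ball (0:ℂ) R)ᶜ, g ≤ dist a c := by
    intro i a ha c hc
    rw [mem_closedBall] at ha
    rw [mem_compl_iff, mem_ball, not_lt] at hc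
    have h5 := dist_triangle4 c a (w i) 0
    rw [dist_zero_right, dist_zero_right, dist_comm c a] at h5
    rw [dist_zero_right] at hc
    have h6 := hgO i
    linarith
  -- bounds for triples
  have hQ3 : ∀ (i : Fin n) (B C : Set ℂ), IsClosed B → IsClosed C →
      (∀ a ∈ closedBall (w i) r, ∀ b ∈ B, ∀ c ∈ C, g ≤ dist a b ∧ g ≤ dist b c ∧ g ≤ dist c a) →
      ∃ M : ℝ, ∀ t : ℝ, 0 < t → t ≤ 1 →
        ((μ.prod (volume : Measure ℂ)) (pf_ie_H (closedBall (w i) r) t ∩ (pf_ie_H B t ∩ pf_ie_H C t))).toReal ≤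
          M * Real.exp (-(θ * (9 / 4) * g ^ 2 / t)) := by
    intro i B C hB hC hd
    obtain ⟨M, hM⟩ := (h2 μ hμ (closedBall (w i) r) B C (‖w i‖ + r + 1) θ isClosed_closedBall hB hC (by
      intro z hz
      rw [mem_closedBall, dist_eq_norm] at hz
      rw [mem_ball_zero_iff]
      calc ‖z‖ = ‖(z - w i) + w i‖ := by congr 1; ring
        _ ≤ ‖z - w i‖ + ‖w i‖ := norm_add_le _ _
        _ < _ := by linarith) hθ0 hθ1).2 (3 * g) (by linarith) (by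
      intro a ha b hb c hc
      obtain ⟨h5, h6, h7⟩ := hd a ha b hb c hc
      linarith)
    refine ⟨max M 0, fun t ht ht1 => ?_⟩
    rw [← pf_ie_Q3 μ hμ _ _ _ isClosed_closedBall hB hC]
    refine ENNReal.toReal_le_of_le_ofReal (by positivity) ((hM t ht ht1).trans
      (ENNReal.ofReal_le_ofReal ?_))
    have h5 : θ * (3 * g) ^ 2 / (4 * t) = θ * (9 / 4) * g ^ 2 / t := by
      field_simp
      ring
    rw [h5]
    exact mul_le_mul_of_nonneg_right (le_max_left _ _) (Real.exp_pos _).le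
  have hT : ∀ q : Fin n × Fin n × Fin n, ∃ M : ℝ, q ∈ pf_ien_tr n → ∀ t : ℝ, 0 < t → t ≤ 1 →
      ((μ.prod (volume : Measure ℂ)) (pf_ie_H (closedBall (w q.1) r) t ∩
        (pf_ie_H (closedBall (w q.2.1) r) t ∩ pf_ie_H (closedBall (w q.2.2) r) t))).toReal ≤
          M * Real.exp (-(θ * (9 / 4) * g ^ 2 / t)) := by
    intro q
    by_cases hq : q ∈ pf_ien_tr n
    · rw [pf_ien_tr, Finset.mem_filter] at hq
      obtain ⟨-, q1, q2, q3⟩ := hq
      obtain ⟨M, hM⟩ := hQ3 q.1 (closedBall (w q.2.1) r) (closedBall (w q.2.2) r) isClosed_closedBall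
        isClosed_closedBall (fun a ha b hb c hc => ⟨d1 _ _ q1 a ha b hb, d1 _ _ q3 b hb c hc,
          d1 _ _ q2.symm c hc a ha⟩)
      exact ⟨M, fun _ => hM⟩
    · exact ⟨0, fun h => absurd h hq⟩
  have hP : ∀ p : Fin n × Fin n, ∃ M : ℝ, p ∈ pf_ien_pr n → ∀ t : ℝ, 0 < t → t ≤ 1 →
      ((μ.prod (volume : Measure ℂ)) (pf_ie_H (closedBall (w p.1) r) t ∩
        (pf_ie_H (closedBall (w p.2) r) t ∩ pf_ie_H (ball (0:ℂ) R)ᶜ t))).toReal ≤
          M * Real.exp (-(θ * (9 / 4) * g ^ 2 / t)) := by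
    intro p
    by_cases hp : p ∈ pf_ien_pr n
    · rw [pf_ien_pr, Finset.mem_filter] at hp
      obtain ⟨M, hM⟩ := hQ3 p.1 (closedBall (w p.2) r) (ball (0:ℂ) R)ᶜ isClosed_closedBall
        isOpen_ball.isClosed_compl (fun a ha b hb c hc => ⟨d1 _ _ hp.2 a ha b hb, d2 _ b hb c hc,
          by rw [dist_comm]; exact d2 _ a ha c hc⟩)
      exact ⟨M, fun _ => hM⟩
    · exact ⟨0, fun h => absurd h hp⟩
  choose M3 hM3 using hT
  choose M2 hM2 using hP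
  refine ⟨(n : ℝ) ^ 2 * (∑ q ∈ pf_ien_tr n, M3 q + ∑ p ∈ pf_ien_pr n, M2 p), fun t ht ht1 => ?_⟩
  by_cases hn : n = 0
  · subst hn
    have h5 := pf_ien_abs (μ.prod (volume : Measure ℂ)) 0 (pf_ie_H (ball (0:ℂ) R)ᶜ t)
      (fun i => pf_ie_H (closedBall (w i) r) t)
    rw [pf_ien_EV μ hμ]
    simp [pf_ien_tr, pf_ien_pr, prs]
  have hR : 0 ≤ R := by
    have h5 := hwR ⟨0, Nat.pos_of_ne_zero hn⟩
    have := norm_nonneg (w ⟨0, Nat.pos_of_ne_zero hn⟩)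
    linarith
  have fH := pf_ie_fin0 h3 μ hμ R t hR
  have fA := fun i => pf_ie_fin1 h3 μ hμ (w i) r t hr.le
  have mH := pf_ie_meas (ball (0:ℂ) R)ᶜ isOpen_ball.isClosed_compl t
  have mA := fun i => pf_ie_meas (closedBall (w i) r) isClosed_closedBall t
  have hab := pf_ien_abs (μ.prod (volume : Measure ℂ)) n (pf_ie_H (ball (0:ℂ) R)ᶜ t)
    (fun i => pf_ie_H (closedBall (w i) r) t) mH mA fH.ne (fun i => (fA i).ne)
  rw [pf_ien_EV μ hμ]
  have s1 : ∑ i, ((μ.prod (volume : Measure ℂ)) (pf_ie_H (closedBall (w i) r) t)).toReal =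
      n * ((μ.prod (volume : Measure ℂ)) (pf_ie_H (closedBall 0 r) t)).toReal := by
    rw [Finset.sum_congr rfl fun i _ => by rw [pf_ie_trans μ hμ (w i)], Finset.sum_const,
      Finset.card_univ, Fintype.card_fin, nsmul_eq_mul]
  have s2 : ∑ p ∈ prs n, Hp μ r (dist (w p.1) (w p.2) - 2 * r) t =
      ∑ p ∈ prs n, ((μ.prod (volume : Measure ℂ)) (pf_ie_H (closedBall (w p.1) r) t ∩
        pf_ie_H (closedBall (w p.2) r) t)).toReal := by
    refine Finset.sum_congr rfl fun p hp => pf_ien_e1 h1 μ hμ r t ht _ _ ?_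
    rw [prs, Finset.mem_filter] at hp
    intro h5
    have h6 := hww p.1 p.2 hp.2.ne
    rw [h5, dist_self] at h6
    linarith
  have s3 : ∑ i, Op μ R r (R - r - ‖w i‖) t = ∑ i, ((μ.prod (volume : Measure ℂ))
      (pf_ie_H (closedBall (w i) r) t ∩ pf_ie_H (ball (0:ℂ) R)ᶜ t)).toReal :=
    Finset.sum_congr rfl fun i _ => pf_ien_e2 h1 μ hμ R r t ht (w i)
  rw [s2, s3]
  beta_reduce
  rw [← s1]
  refine hab.trans ?_
  rw [mul_assoc]
  refine mul_le_mul_of_nonneg_left ?_ (by positivity)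
  rw [add_mul, Finset.sum_mul, Finset.sum_mul]
  exact add_le_add (Finset.sum_le_sum fun q hq => hM3 q hq t ht ht1)
    (Finset.sum_le_sum fun p hp => hM2 p hp t ht ht1)

end Pool.Agent.H212AN
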