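import Pool.Agent.H212AN.E2

set_option autoImplicit false

namespace Pool.Agent.H212AN

open MeasureTheory Set Filter Topology Metric
open Pool.Agent.H212AN.G (nG PG gm gk)
open scoped Real ENNReal ComplexConjugate


/-- Fatou, in the form of an eventual strict lower bound. -/
theorem pf_ll_fatou (ν : Measure LR) {ι : Type} {u : Filter ι} [u.IsCountablyGenerated] [NeBot u]
    (f : ι → LR → ℝ≥0∞) (g : LR → ℝ≥0∞) (hm : ∀ i, Measurable (f i))
    (h : ∀ y, Tendsto (fun i => f i y) u (𝓝 (g y))) (c : ℝ≥0∞) (hc : c < ∫⁻ y, g y ∂ν) :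
    ∀ᶠ i in u, c < ∫⁻ y, f i y ∂ν := by
  have h1 : (∫⁻ y, g y ∂ν) = ∫⁻ y, liminf (fun i => f i y) u ∂ν := by
    refine lintegral_congr fun y => ?_
    rw [(h y).liminf_eq]
  have h2 := lintegral_liminf_le (μ := ν) (u := u) hm
  rw [← h1] at h2
  exact eventually_lt_of_lt_liminf (lt_of_lt_of_le hc h2)

theorem pf_ll_bdd (τ : ℝ) (y : LR) :
    BddAbove {d : ℝ | ∃ s u : unitInterval, |(s : ℝ) - u| ≤ τ ∧ d = |y s - y u|} := by
  refine ⟨2 * ‖y‖, ?_⟩
  rintro d ⟨s, u, -, rfl⟩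
  have h1 := y.norm_coe_le_norm s
  have h2 := y.norm_coe_le_norm u
  rw [Real.norm_eq_abs] at h1 h2
  have h3 := abs_sub (y s) (y u)
  linarith

theorem pf_ll_ne {τ : ℝ} (hτ : 0 ≤ τ) (y : LR) :
    {d : ℝ | ∃ s u : unitInterval, |(s : ℝ) - u| ≤ τ ∧ d = |y s - y u|}.Nonempty :=
  ⟨_, 0, 0, by simpa using hτ, rfl⟩

theorem pf_ll_om_nonneg (τ : ℝ) (y : LR) : 0 ≤ om τ y := by
  refine Real.sSup_nonneg ?_
  rintro d ⟨s, u, -, rfl⟩
  exact abs_nonneg _

theorem pf_ll_om_mono {τ τ' : ℝ} (hτ : 0 ≤ τ) (h : τ ≤ τ') (y : LR) : om τ y ≤ om τ' y := by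
  refine csSup_le_csSup (pf_ll_bdd τ' y) (pf_ll_ne hτ y) ?_
  rintro d ⟨s, u, h1, rfl⟩
  exact ⟨s, u, h1.trans h, rfl⟩

theorem pf_ll_om_lip {τ : ℝ} (hτ : 0 ≤ τ) (y z : LR) : om τ y ≤ om τ z + 2 * dist y z := by
  refine csSup_le (pf_ll_ne hτ y) ?_
  rintro d ⟨s, u, h1, rfl⟩
  have h2 : |z s - z u| ≤ om τ z := le_csSup (pf_ll_bdd τ z) ⟨s, u, h1, rfl⟩
  have h3 := ContinuousMap.dist_apply_le_dist (f := y) (g := z) s
  have h4 := ContinuousMap.dist_apply_le_dist (f := y) (g := z) u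
  rw [Real.dist_eq] at h3 h4
  rw [abs_le] at h3 h4 h2 ⊢
  constructor <;> linarith [h3.1, h3.2, h4.1, h4.2, h2.1, h2.2]

theorem pf_ll_om_cont {τ : ℝ} (hτ : 0 ≤ τ) : Continuous (om τ) := by
  have : LipschitzWith 2 (om τ) := by
    refine LipschitzWith.of_dist_le_mul fun y z => ?_
    rw [Real.dist_eq, abs_le]
    have h1 := pf_ll_om_lip hτ y z
    have h2 := pf_ll_om_lip hτ z y
    rw [dist_comm z y] at h2
    constructor <;> push_cast <;> linarith
  exact this.continuous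

theorem pf_ll_om_lim (y : LR) :
    Tendsto (fun n : ℕ => om (1 / ((n : ℝ) + 1)) y) atTop (𝓝 0) := by
  have huc : UniformContinuous y := CompactSpace.uniformContinuous_of_continuous y.continuous
  rw [Metric.tendsto_atTop]
  intro ε hε
  obtain ⟨δ, hδ, h⟩ := Metric.uniformContinuous_iff.1 huc (ε / 2) (by positivity)
  obtain ⟨N, hN⟩ := exists_nat_one_div_lt hδ
  refine ⟨N, fun n hn => ?_⟩
  have h0 : 0 ≤ 1 / ((n : ℝ) + 1) := by positivity
  have h1 : 1 / ((n : ℝ) + 1) < δ := lt_of_le_of_lt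
    (one_div_le_one_div_of_le (by positivity) (by gcongr)) hN
  rw [Real.dist_eq, sub_zero, abs_of_nonneg (pf_ll_om_nonneg _ _)]
  refine lt_of_le_of_lt (b := ε / 2) ?_ (by linarith)
  refine csSup_le (pf_ll_ne h0 y) ?_
  rintro d ⟨s, u, h2, rfl⟩
  have h3 : dist s u < δ := by
    rw [Subtype.dist_eq, Real.dist_eq]
    exact lt_of_le_of_lt h2 h1
  have h4 := h h3
  rw [Real.dist_eq] at h4
  exact h4.le

theorem pf_ll_mono (ν : Measure LR) (x t : ℝ) (ht : 0 ≤ t) : Monotone (m32 ν x t) := by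
  intro l l' hl
  refine lintegral_mono fun y => ?_
  refine ENNReal.ofReal_le_ofReal ?_
  refine Real.rpow_le_rpow (le_max_right _ _) ?_ (by norm_num)
  refine max_le_max ?_ le_rfl
  have := mul_le_mul_of_nonneg_right hl ht
  linarith

theorem pf_ll_anti (ν : Measure LR) (x t : ℝ) (ht : t ≤ 0) : Antitone (m32 ν x t) := by
  intro l l' hl
  refine lintegral_mono fun y => ?_
  refine ENNReal.ofReal_le_ofReal ?_
  refine Real.rpow_le_rpow (le_max_right _ _) ?_ (by norm_num)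
  refine max_le_max ?_ le_rfl
  have := mul_le_mul_of_nonpos_right hl ht
  linarith

theorem pf_ll_meas (ν : Measure LR) (x t : ℝ) : Measurable (m32 ν x t) := by
  rcases le_total 0 t with h | h
  · exact (pf_ll_mono ν x t h).measurable
  · exact (pf_ll_anti ν x t h).measurable

/-- the exponential functional -/
theorem pf_ll_gauss {μ : Measure Lo} {ν : Measure LR} (h : IsBr μ ν) (K c : ℝ) (hK : 0 ≤ K)
    (hc : 0 < 1 + c) :
    ∫⁻ y : LR, ENNReal.ofReal (K * Real.exp (-(c * (y hf) ^ 2))) ∂ν =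
      ENNReal.ofReal (K / √(1 + c)) := by
  have h1 := h.half (fun z => ENNReal.ofReal (K * Real.exp (-(c * z ^ 2)))) (by fun_prop)
  refine h1.trans ?_
  have h2 : ∀ z : ℝ, ENNReal.ofReal (Real.exp (-z ^ 2) / √π) *
      ENNReal.ofReal (K * Real.exp (-(c * z ^ 2))) =
      ENNReal.ofReal (K / √π * Real.exp (-(1 + c) * z ^ 2)) := by
    intro z
    rw [← ENNReal.ofReal_mul (by positivity)]
    congr 1
    have : Real.exp (-(1 + c) * z ^ 2) = Real.exp (-z ^ 2) * Real.exp (-(c * z ^ 2)) := by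
      rw [← Real.exp_add]
      congr 1
      ring
    rw [this]
    ring
  simp_rw [h2]
  rw [← ofReal_integral_eq_lintegral_ofReal]
  · rw [integral_const_mul, integral_gaussian]
    congr 1
    rw [Real.sqrt_div Real.pi_pos.le]
    have : √π ≠ 0 := by positivity
    field_simp
  · exact (integrable_exp_neg_mul_sq hc).const_mul _
  · exact ae_of_all _ fun z => by positivity

theorem pf_ll (h1 : S_ma) (h2 : S_om) : S_ll := by
  intro μ ν hμ hν hW x γ ε hx hγ hε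
  have := hν.prob
  have hK : 0 < Kc x := by unfold Kc; positivity
  obtain ⟨hma, Cb, hCb⟩ := h1 ν hν.prob hW x hx
  -- choice of `ε₀`
  have hcont : ContinuousAt (fun e : ℝ => Kc x / √(1 + 2 * x * (γ + e))) 0 := by
    have : √(1 + 2 * x * (γ + 0)) ≠ 0 := by
      rw [add_zero]
      positivity
    refine ContinuousAt.div continuousAt_const ?_ this
    fun_prop
  have hev : ∀ᶠ e in 𝓝 (0 : ℝ), Kc x / √(1 + 2 * x * γ) - ε < Kc x / √(1 + 2 * x * (γ + e)) := by
    refine hcont.eventually_const_lt (u := Kc x / √(1 + 2 * x * γ) - ε) ?_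
    simp only [add_zero]
    linarith
  obtain ⟨δ, hδ, hδ'⟩ := Metric.eventually_nhds_iff.1 hev
  refine ⟨δ / 2, by positivity, fun ε₁ hε₁ hε₁' C hC => ?_⟩
  have hlt : Kc x / √(1 + 2 * x * γ) - ε < Kc x / √(1 + 2 * x * (γ + ε₁)) := by
    refine hδ' ?_
    rw [Real.dist_eq, sub_zero, abs_of_pos hε₁]
    linarith
  have hpos1 : 0 < 1 + 2 * x * (γ + ε₁) := by
    have : 0 < x * ε₁ := by positivity
    nlinarith
  -- the limit functional
  have hlim0 : ENNReal.ofReal (Kc x / √(1 + 2 * x * γ) - ε) <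
      ∫⁻ y : LR, ENNReal.ofReal (Kc x * Real.exp (-(2 * x * (γ + ε₁) * (y hf) ^ 2))) ∂ν := by
    rw [pf_ll_gauss hν (Kc x) (2 * x * (γ + ε₁)) hK.le hpos1]
    exact (ENNReal.ofReal_lt_ofReal_iff (by positivity)).2 hlt
  have hlm : ∀ τ : ℝ, 0 ≤ τ →
      Measurable (fun y : LR => -((γ + ε₁) * (y hf) ^ 2) - C * om τ y ^ 2) := by
    intro τ hτ
    have h1 : Continuous (fun y : LR => y hf) := continuous_eval_const hf
    have h2 := pf_ll_om_cont hτ
    have : Continuous (fun y : LR => -((γ + ε₁) * (y hf) ^ 2) - C * om τ y ^ 2) := by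
      fun_prop
    exact this.measurable
  -- choice of `τ₀`
  have hex : ∀ᶠ n : ℕ in atTop, ENNReal.ofReal (Kc x / √(1 + 2 * x * γ) - ε) <
      ∫⁻ y : LR, ENNReal.ofReal (Kc x * Real.exp (2 * x *
        (-((γ + ε₁) * (y hf) ^ 2) - C * om (1 / ((n : ℝ) + 1)) y ^ 2))) ∂ν := by
    refine pf_ll_fatou ν _ _ (fun n => ?_) (fun y => ?_) _ hlim0
    · have := hlm (1 / ((n : ℝ) + 1)) (by positivity)
      exact (((this.const_mul (2 * x)).exp).const_mul (Kc x)).ennreal_ofReal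
    · refine ENNReal.tendsto_ofReal ?_
      have h3 := pf_ll_om_lim y
      have h4 : Tendsto (fun n : ℕ => Kc x * Real.exp (2 * x *
          (-((γ + ε₁) * (y hf) ^ 2) - C * om (1 / ((n : ℝ) + 1)) y ^ 2))) atTop
          (𝓝 (Kc x * Real.exp (2 * x * (-((γ + ε₁) * (y hf) ^ 2) - C * 0 ^ 2)))) := by
        refine Tendsto.const_mul _ ?_
        refine (Real.continuous_exp.tendsto _).comp ?_
        refine Tendsto.const_mul _ ?_
        exact Tendsto.const_sub _ ((h3.pow 2).const_mul C)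
      convert h4 using 3
      ring_nf
  obtain ⟨n, hn⟩ := hex.exists
  refine ⟨1 / ((n : ℝ) + 1), by positivity, fun τ hτ hτ' l hl => ?_⟩
  set τ₀ : ℝ := 1 / ((n : ℝ) + 1) with hτ₀
  have hτ₀' : 0 < τ₀ := by positivity
  -- the limit in `t`
  have key : ∀ᶠ t : ℝ in 𝓝[>] 0, ENNReal.ofReal (Kc x / √(1 + 2 * x * γ) - ε) <
      ∫⁻ y : LR, ENNReal.ofReal (Real.exp (x ^ 2 / t) / √t) *
        indicator {y : LR | √t * ‖y‖ ≤ l}
        (fun y => m32 ν x t (-((γ + ε₁) * (y hf) ^ 2) - C * om τ₀ y ^ 2)) y ∂ν := by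
    refine pf_ll_fatou ν _ _ (fun t => ?_) (fun y => ?_) _ hn
    · refine Measurable.const_mul ?_ _
      refine Measurable.indicator ?_ ?_
      · exact (pf_ll_meas ν x t).comp (hlm τ₀ hτ₀'.le)
      · have : Continuous (fun y : LR => √t * ‖y‖) := by fun_prop
        exact measurableSet_le this.measurable measurable_const
    · have h3 := hma (-((γ + ε₁) * (y hf) ^ 2) - C * om τ₀ y ^ 2)
      have h4 := ENNReal.tendsto_ofReal h3
      refine h4.congr' ?_
      have h5 : ∀ᶠ t : ℝ in 𝓝[>] 0, √t * ‖y‖ ≤ l := by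
        have h6 : Tendsto (fun t : ℝ => √t * ‖y‖) (𝓝[>] 0) (𝓝 (√0 * ‖y‖)) := by
          refine Tendsto.mono_left (Continuous.tendsto ?_ _) nhdsWithin_le_nhds
          fun_prop
        rw [Real.sqrt_zero, zero_mul] at h6
        exact (h6.eventually_lt_const hl).mono fun t ht => ht.le
      have h7 : ∀ᶠ t : ℝ in 𝓝[>] 0, t ≤ 1 := by
        refine Filter.Eventually.filter_mono nhdsWithin_le_nhds ?_
        exact (eventually_lt_nhds (show (0:ℝ) < 1 by norm_num)).mono fun t ht => ht.le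
      filter_upwards [h5, h7, self_mem_nhdsWithin] with t ht1 ht2 ht3
      have ht3' : (0:ℝ) < t := ht3
      have hfin : m32 ν x t (-((γ + ε₁) * (y hf) ^ 2) - C * om τ₀ y ^ 2) ≠ ⊤ :=
        ne_top_of_le_ne_top ENNReal.ofReal_ne_top (hCb t _ ht3' ht2)
      rw [indicator_of_mem (show y ∈ {y : LR | √t * ‖y‖ ≤ l} from ht1)]
      rw [mul_div_assoc, ENNReal.ofReal_mul ENNReal.toReal_nonneg, ENNReal.ofReal_toReal hfin,
        mul_comm]
  filter_upwards [key, self_mem_nhdsWithin] with t ht ht0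
  have ht0' : (0:ℝ) < t := ht0
  have hq : 0 ≤ √t * Real.exp (-(x ^ 2 / t)) := by positivity
  have hq' : 0 < Real.exp (x ^ 2 / t) / √t := by positivity
  have hmul : (√t * Real.exp (-(x ^ 2 / t))) * (Real.exp (x ^ 2 / t) / √t) = 1 := by
    have : √t ≠ 0 := by positivity
    rw [Real.exp_neg]
    field_simp
  have hind : (∫⁻ y : LR, ENNReal.ofReal (Real.exp (x ^ 2 / t) / √t) *
        indicator {y : LR | √t * ‖y‖ ≤ l}
        (fun y => m32 ν x t (-((γ + ε₁) * (y hf) ^ 2) - C * om τ₀ y ^ 2)) y ∂ν) =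
      ENNReal.ofReal (Real.exp (x ^ 2 / t) / √t) *
      ∫⁻ y in {y : LR | √t * ‖y‖ ≤ l},
        m32 ν x t (-((γ + ε₁) * (y hf) ^ 2) - C * om τ₀ y ^ 2) ∂ν := by
    have hms : MeasurableSet {y : LR | √t * ‖y‖ ≤ l} := by
      have : Continuous (fun y : LR => √t * ‖y‖) := by fun_prop
      exact measurableSet_le this.measurable measurable_const
    rw [lintegral_const_mul _ ?_, lintegral_indicator hms]
    refine Measurable.indicator ?_ hms
    exact (pf_ll_meas ν x t).comp (hlm τ₀ hτ₀'.le)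
  rw [hind] at ht
  calc ENNReal.ofReal ((Kc x / √(1 + 2 * x * γ) - ε) * (√t * Real.exp (-(x ^ 2 / t))))
      = ENNReal.ofReal (√t * Real.exp (-(x ^ 2 / t))) *
        ENNReal.ofReal (Kc x / √(1 + 2 * x * γ) - ε) := by
        rw [ENNReal.ofReal_mul' hq, mul_comm]
    _ ≤ ENNReal.ofReal (√t * Real.exp (-(x ^ 2 / t))) *
        (ENNReal.ofReal (Real.exp (x ^ 2 / t) / √t) *
        ∫⁻ y in {y : LR | √t * ‖y‖ ≤ l},
          m32 ν x t (-((γ + ε₁) * (y hf) ^ 2) - C * om τ₀ y ^ 2) ∂ν) := by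
        gcongr
    _ = ∫⁻ y in {y : LR | √t * ‖y‖ ≤ l},
          m32 ν x t (-((γ + ε₁) * (y hf) ^ 2) - C * om τ₀ y ^ 2) ∂ν := by
        rw [← mul_assoc, ← ENNReal.ofReal_mul hq, hmul, ENNReal.ofReal_one, one_mul]
    _ ≤ ∫⁻ y in {y : LR | √t * ‖y‖ ≤ l},
          m32 ν x t (-((γ + ε₁) * (y hf) ^ 2) - C * om τ y ^ 2) ∂ν := by
        refine lintegral_mono fun y => ?_
        refine pf_ll_mono ν x t ht0'.le ?_
        have h3 := pf_ll_om_mono hτ.le hτ' y
        have h4 := pf_ll_om_nonneg τ y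
        have h5 : om τ y ^ 2 ≤ om τ₀ y ^ 2 := by gcongr
        have h6 := mul_le_mul_of_nonneg_left h5 hC.le
        linarith

end Pool.Agent.H212AN
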