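import Pool.Agent.H212AN.E2

set_option autoImplicit false

namespace Pool.Agent.H212AN

open MeasureTheory Set Filter Topology Metric
open Pool.Agent.H212AN.G (nG PG gm gk)
open scoped Real ENNReal ComplexConjugate

theorem pf_lu_meas_eval (s : unitInterval) : Measurable (fun y : LR => y s) := by
  have : Continuous (fun y : LR => y s) := by fun_prop
  exact this.measurable

theorem pf_lu_om_bdd (τ : ℝ) (y : LR) :
    BddAbove {d : ℝ | ∃ s u : unitInterval, |(s : ℝ) - u| ≤ τ ∧ d = |y s - y u|} := by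
  refine ⟨2 * ‖y‖, ?_⟩
  rintro d ⟨s, u, -, rfl⟩
  have h1 := y.norm_coe_le_norm s
  have h2 := y.norm_coe_le_norm u
  have h3 : |y s - y u| ≤ |y s| + |y u| := abs_sub _ _
  rw [Real.norm_eq_abs] at h1 h2
  linarith

theorem pf_lu_om_nonneg {τ : ℝ} (hτ : 0 < τ) (y : LR) : 0 ≤ om τ y := by
  have h : (0 : ℝ) ∈ {d : ℝ | ∃ s u : unitInterval, |(s : ℝ) - u| ≤ τ ∧ d = |y s - y u|} :=
    ⟨0, 0, by simpa using hτ.le, by simp⟩
  exact le_csSup (pf_lu_om_bdd τ y) h

theorem pf_lu_om_le {τ : ℝ} (hτ : 0 < τ) (y z : LR) : om τ y ≤ om τ z + 2 * ‖y - z‖ := by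
  apply csSup_le
  · exact ⟨0, 0, 0, by simpa using hτ.le, by simp⟩
  · rintro d ⟨s, u, hsu, rfl⟩
    have h0 : |z s - z u| ≤ om τ z := le_csSup (pf_lu_om_bdd τ z) ⟨s, u, hsu, rfl⟩
    have h1 := (y - z).norm_coe_le_norm s
    have h2 := (y - z).norm_coe_le_norm u
    rw [Real.norm_eq_abs, ContinuousMap.sub_apply] at h1 h2
    have e : y s - y u = (z s - z u) + (y s - z s) - (y u - z u) := by ring
    rw [e]
    have h3 := abs_sub ((z s - z u) + (y s - z s)) (y u - z u)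
    have h4 := abs_add_le (z s - z u) (y s - z s)
    linarith

theorem pf_lu_om_cont {τ : ℝ} (hτ : 0 < τ) : Continuous (om τ) := by
  rw [Metric.continuous_iff]
  intro y ε hε
  refine ⟨ε / 2, by positivity, fun z hz => ?_⟩
  have h1 := pf_lu_om_le hτ z y
  have h2 := pf_lu_om_le hτ y z
  rw [dist_eq_norm] at hz
  rw [← norm_neg, neg_sub] at h2
  rw [Real.dist_eq, abs_lt]
  constructor <;> linarith

theorem pf_lu_m32_mono (ν : Measure LR) (x : ℝ) {t : ℝ} (ht : 0 < t) : Monotone (m32 ν x t) := by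
  intro a b hab
  unfold m32
  apply lintegral_mono
  intro y
  apply ENNReal.ofReal_le_ofReal
  apply Real.rpow_le_rpow (le_max_right _ _) _ (by norm_num)
  apply max_le_max _ le_rfl
  have := mul_le_mul_of_nonneg_right hab ht.le
  linarith

/-- Gaussian moment -/
theorem pf_lu_gauss {μ : Measure Lo} {ν : Measure LR} (hν : IsBr μ ν) {a : ℝ} (ha : a < 1) :
    ∫⁻ y, ENNReal.ofReal (Real.exp (a * (y hf) ^ 2)) ∂ν = ENNReal.ofReal (1 / √(1 - a)) := by
  have h1 : 0 < 1 - a := by linarith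
  rw [hν.half (fun x => ENNReal.ofReal (Real.exp (a * x ^ 2))) (by fun_prop)]
  have e : ∀ x : ℝ, ENNReal.ofReal (Real.exp (-x ^ 2) / √π) * ENNReal.ofReal (Real.exp (a * x ^ 2)) =
      ENNReal.ofReal (Real.exp (-(1 - a) * x ^ 2) / √π) := by
    intro x
    rw [← ENNReal.ofReal_mul (by positivity)]
    congr 1
    rw [div_mul_eq_mul_div, ← Real.exp_add]
    congr 2
    ring
  simp_rw [e]
  rw [← ofReal_integral_eq_lintegral_ofReal ((integrable_exp_neg_mul_sq h1).div_const _)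
    (Eventually.of_forall fun x => by positivity)]
  congr 1
  rw [integral_div, integral_gaussian, Real.sqrt_div Real.pi_pos.le, div_right_comm,
    div_self (by positivity)]

/-- Hoelder -/
theorem pf_lu_hol {ν : Measure LR} {τ : ℝ} (hτ : 0 < τ) (a c : ℝ) {p q : ℝ}
    (hpq : p.HolderConjugate q) :
    ∫⁻ y, ENNReal.ofReal (Real.exp (a * (y hf) ^ 2 + c * om τ y ^ 2)) ∂ν ≤
      (∫⁻ y, ENNReal.ofReal (Real.exp (p * a * (y hf) ^ 2)) ∂ν) ^ (1 / p) *
      (∫⁻ y, ENNReal.ofReal (Real.exp (q * c * om τ y ^ 2)) ∂ν) ^ (1 / q) := by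
  have m1 : Measurable (fun y : LR => ENNReal.ofReal (Real.exp (a * (y hf) ^ 2))) :=
    (((pf_lu_meas_eval hf).pow_const 2).const_mul a).exp.ennreal_ofReal
  have m2 : Measurable (fun y : LR => ENNReal.ofReal (Real.exp (c * om τ y ^ 2))) := by
    have := (pf_lu_om_cont hτ).measurable
    fun_prop
  have h := ENNReal.lintegral_mul_le_Lp_mul_Lq ν hpq m1.aemeasurable m2.aemeasurable
  have e1 : ∀ y : LR, ENNReal.ofReal (Real.exp (a * (y hf) ^ 2 + c * om τ y ^ 2)) =
      ((fun y : LR => ENNReal.ofReal (Real.exp (a * (y hf) ^ 2))) *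
        (fun y : LR => ENNReal.ofReal (Real.exp (c * om τ y ^ 2)))) y := by
    intro y
    rw [Pi.mul_apply, Real.exp_add, ENNReal.ofReal_mul (by positivity)]
  have e2 : ∀ u r : ℝ, (ENNReal.ofReal (Real.exp u)) ^ r = ENNReal.ofReal (Real.exp (r * u)) := by
    intro u r
    rw [ENNReal.ofReal_rpow_of_pos (Real.exp_pos _), ← Real.exp_mul, mul_comm]
  simp_rw [e1]
  refine h.trans_eq ?_
  simp_rw [e2, ← mul_assoc]

/-- choice of the exponent -/
theorem pf_lu_choice (x γ ε : ℝ) (hγ : 0 < 1 + 2 * x * γ) (hε : 0 < ε) :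
    ∃ s : ℝ, 0 < s ∧ (1 + s) * (-2 * x * γ + 2 * x * s) < 1 ∧
      (1 / √(1 - (1 + s) * (-2 * x * γ + 2 * x * s))) ^ (1 / (1 + s)) ≤
        1 / √(1 + 2 * x * γ) + ε := by
  have c1 : ContinuousAt (fun s : ℝ => (1 + s) * (-2 * x * γ + 2 * x * s)) 0 := by fun_prop
  have c2 : ContinuousAt (fun s : ℝ => 1 / √(1 - (1 + s) * (-2 * x * γ + 2 * x * s))) 0 := by
    apply ContinuousAt.div continuousAt_const
    · exact (continuousAt_const.sub c1).sqrt
    · have : 0 < 1 - (1 + (0:ℝ)) * (-2 * x * γ + 2 * x * 0) := by linarith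
      positivity
  have c3 : ContinuousAt (fun s : ℝ => 1 / (1 + s)) 0 := by
    apply ContinuousAt.div continuousAt_const (by fun_prop)
    norm_num
  have c4 := c2.rpow c3 (Or.inr (by norm_num))
  have e1 : ∀ᶠ s : ℝ in 𝓝 0, (1 + s) * (-2 * x * γ + 2 * x * s) < 1 := by
    apply c1.eventually_lt continuousAt_const
    linarith
  have e2 : ∀ᶠ s : ℝ in 𝓝 0, (1 / √(1 - (1 + s) * (-2 * x * γ + 2 * x * s))) ^ (1 / (1 + s)) <
      1 / √(1 + 2 * x * γ) + ε := by
    apply c4.eventually_lt continuousAt_const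
    have : 1 - (1 + (0:ℝ)) * (-2 * x * γ + 2 * x * 0) = 1 + 2 * x * γ := by ring
    rw [this]
    norm_num
    exact hε
  have e3 : ∀ᶠ s : ℝ in 𝓝[>] 0, ((1 + s) * (-2 * x * γ + 2 * x * s) < 1 ∧
      (1 / √(1 - (1 + s) * (-2 * x * γ + 2 * x * s))) ^ (1 / (1 + s)) <
      1 / √(1 + 2 * x * γ) + ε) ∧ 0 < s :=
    ((e1.and e2).filter_mono nhdsWithin_le_nhds).and self_mem_nhdsWithin
  obtain ⟨s, ⟨h1, h2⟩, h3⟩ := e3.exists
  exact ⟨s, h3, h1, h2.le⟩

theorem pf_lu_cube {δ u : ℝ} (hδ : 0 < δ) (hδ1 : δ ≤ 1) (hu : 0 ≤ u) :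
    (1 + u) ^ 3 ≤ δ⁻¹ ^ 3 * Real.exp (3 * δ * u) := by
  have h1 : δ * (1 + u) ≤ Real.exp (δ * u) := by
    have := Real.add_one_le_exp (δ * u)
    nlinarith
  have h2 : 1 + u ≤ δ⁻¹ * Real.exp (δ * u) := by
    rw [← div_eq_inv_mul, le_div_iff₀ hδ]
    linarith
  calc (1 + u) ^ 3 ≤ (δ⁻¹ * Real.exp (δ * u)) ^ 3 := pow_le_pow_left₀ (by positivity) h2 3
    _ = δ⁻¹ ^ 3 * Real.exp (3 * δ * u) := by
      rw [mul_pow, ← Real.exp_nat_mul]
      congr 2
      push_cast
      ring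

theorem pf_lu (h1 : S_ma) (h2 : S_om) : S_lu := by
  intro μ ν hμ hν hW x γ ε hx hγ hε
  have := hν.prob
  have hK : 0 < Kc x := by
    unfold Kc
    positivity
  obtain ⟨s, hs, hs1, hs2⟩ := pf_lu_choice x γ (ε / (4 * Kc x)) hγ (by positivity)
  set H : ℝ := 1 / √(1 + 2 * x * γ) + ε / (4 * Kc x) with hH
  have hH0 : 0 < H := by positivity
  refine ⟨s, hs, fun ε₁ hε₁ hle C hC => ?_⟩
  set a₀ : ℝ := -2 * x * γ + 2 * x * s with ha₀
  set a : ℝ := -2 * x * γ + 2 * x * ε₁ with ha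
  have haa : a ≤ a₀ := by
    have := mul_le_mul_of_nonneg_left hle hx.le
    rw [ha, ha₀]
    linarith
  have hp1 : 1 < 1 + s := by linarith
  obtain ⟨q, hpq⟩ : ∃ q : ℝ, (1 + s).HolderConjugate q :=
    ⟨_, Real.HolderConjugate.conjExponent hp1⟩
  have hq0 : 0 < q := hpq.symm.pos
  have hq1 : 1 < q := hpq.symm.lt
  set ε₂ : ℝ := (1 - (1 + s) * a₀) / (2 * (1 + s)) with hε₂
  have hε₂0 : 0 < ε₂ := by
    have : 0 < 1 - (1 + s) * a₀ := by linarith
    positivity
  have hpa : (1 + s) * (a + ε₂) < 1 := by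
    have e1 : (1 + s) * ε₂ = (1 - (1 + s) * a₀) / 2 := by
      rw [hε₂]
      field_simp
    have e2 : (1 + s) * a ≤ (1 + s) * a₀ := mul_le_mul_of_nonneg_left haa (by linarith)
    rw [mul_add, e1]
    linarith
  obtain ⟨δ, hδ, hδ1, hδ2⟩ : ∃ δ : ℝ, 0 < δ ∧ δ ≤ 1 ∧ 3 * δ * |γ - ε₁| ≤ ε₂ := by
    refine ⟨min 1 (ε₂ / (3 * (|γ - ε₁| + 1))), by positivity, min_le_left _ _, ?_⟩
    have h3 : min 1 (ε₂ / (3 * (|γ - ε₁| + 1))) ≤ ε₂ / (3 * (|γ - ε₁| + 1)) := min_le_right _ _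
    rw [le_div_iff₀ (by positivity)] at h3
    have h4 : 0 < min 1 (ε₂ / (3 * (|γ - ε₁| + 1))) := by positivity
    nlinarith
  set C₃ : ℝ := 2 * x * C + 3 * δ * C with hC₃
  have hC₃0 : 0 < C₃ := by positivity
  set ε' : ℝ := ε / (4 * (Kc x * H)) with hε'
  have hε'0 : 0 < ε' := by positivity
  obtain ⟨τ₀, hτ₀, hom⟩ := h2 μ ν hμ hν (q * C₃) ε' (by positivity) hε'0
  refine ⟨τ₀, hτ₀, fun τ hτ hττ => ?_⟩
  have hM := hom τ hτ hττ
  have mg := pf_lu_meas_eval hf
  have mo := (pf_lu_om_cont hτ).measurable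
  set l : LR → ℝ := fun y => -((γ - ε₁) * (y hf) ^ 2) + C * om τ y ^ 2 with hl
  have ml : Measurable l := (((mg.pow_const 2).const_mul _).neg).add ((mo.pow_const 2).const_mul _)
  obtain ⟨hlim, C₀, hbd⟩ := h1 ν hν.prob hW x hx
  set C₁ : ℝ := max C₀ 0 with hC₁
  have hC₁0 : 0 ≤ C₁ := le_max_right _ _
  have hl2 : ∀ y, 2 * x * l y = a * (y hf) ^ 2 + 2 * x * C * om τ y ^ 2 := by
    intro y
    rw [hl, ha]
    ring
  have hbd' : ∀ t : ℝ, 0 < t → t ≤ 1 → ∀ y, (m32 ν x t (l y)).toReal ≤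
      C₁ * √t * (1 + |l y|) ^ 3 * Real.exp (-(x ^ 2 / t) + 2 * x * l y) := by
    intro t ht ht1 y
    apply ENNReal.toReal_le_of_le_ofReal (by positivity)
    refine (hbd t (l y) ht ht1).trans (ENNReal.ofReal_le_ofReal ?_)
    have : C₀ ≤ C₁ := le_max_left _ _
    gcongr
  have hne : ∀ t : ℝ, 0 < t → t ≤ 1 → ∀ y, m32 ν x t (l y) ≠ ⊤ := by
    intro t ht ht1 y
    exact ne_top_of_le_ne_top ENNReal.ofReal_ne_top (hbd t (l y) ht ht1)
  set F : ℝ → LR → ℝ≥0∞ := fun t y =>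
    ENNReal.ofReal ((m32 ν x t (l y)).toReal * Real.exp (x ^ 2 / t) / √t) with hF
  set f : LR → ℝ≥0∞ := fun y => ENNReal.ofReal (Kc x * Real.exp (2 * x * l y)) with hf'
  set G : LR → ℝ≥0∞ := fun y =>
    ENNReal.ofReal (C₁ * (1 + |l y|) ^ 3 * Real.exp (2 * x * l y)) with hG
  have hpos : ∀ᶠ t : ℝ in 𝓝[>] 0, 0 < t ∧ t ≤ 1 := by
    have e1 : ∀ᶠ t : ℝ in 𝓝[>] 0, 0 < t := self_mem_nhdsWithin
    have e2 : ∀ᶠ t : ℝ in 𝓝[>] 0, t ≤ 1 :=
      (eventually_le_nhds (by norm_num : (0:ℝ) < 1)).filter_mono nhdsWithin_le_nhds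
    exact e1.and e2
  have tend : Tendsto (fun t => ∫⁻ y, F t y ∂ν) (𝓝[>] 0) (𝓝 (∫⁻ y, f y ∂ν)) := by
    apply tendsto_lintegral_filter_of_dominated_convergence G
    · filter_upwards [hpos] with t ht
      have m1 : Measurable (fun y => m32 ν x t (l y)) :=
        (pf_lu_m32_mono ν x ht.1).measurable.comp ml
      exact ((m1.ennreal_toReal.mul_const _).div_const _).ennreal_ofReal
    · filter_upwards [hpos] with t ht
      refine Eventually.of_forall fun y => ENNReal.ofReal_le_ofReal ?_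
      have ht0 : 0 < √t := Real.sqrt_pos.2 ht.1
      rw [div_le_iff₀ ht0]
      calc (m32 ν x t (l y)).toReal * Real.exp (x ^ 2 / t) ≤
          (C₁ * √t * (1 + |l y|) ^ 3 * Real.exp (-(x ^ 2 / t) + 2 * x * l y)) *
            Real.exp (x ^ 2 / t) := by
            gcongr
            exact hbd' t ht.1 ht.2 y
        _ = C₁ * (1 + |l y|) ^ 3 * Real.exp (2 * x * l y) * √t := by
            have : Real.exp (-(x ^ 2 / t) + 2 * x * l y) * Real.exp (x ^ 2 / t) =
                Real.exp (2 * x * l y) := by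
              rw [← Real.exp_add]
              congr 1
              ring
            rw [mul_assoc (C₁ * √t * (1 + |l y|) ^ 3), this]
            ring
    · have hle' : ∀ y, G y ≤ ENNReal.ofReal (C₁ * δ⁻¹ ^ 3) *
          ENNReal.ofReal (Real.exp ((a + ε₂) * (y hf) ^ 2 + C₃ * om τ y ^ 2)) := by
        intro y
        rw [← ENNReal.ofReal_mul (by positivity)]
        apply ENNReal.ofReal_le_ofReal
        have k1 := pf_lu_cube hδ hδ1 (abs_nonneg (l y))
        have k2 : |l y| ≤ |γ - ε₁| * (y hf) ^ 2 + C * om τ y ^ 2 := by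
          rw [hl]
          refine (abs_add_le _ _).trans ?_
          rw [abs_neg, abs_mul, abs_of_nonneg (sq_nonneg (y hf)),
            abs_of_nonneg (by positivity : 0 ≤ C * om τ y ^ 2)]
        have k3 : 3 * δ * |l y| + 2 * x * l y ≤ (a + ε₂) * (y hf) ^ 2 + C₃ * om τ y ^ 2 := by
          rw [hl2, hC₃]
          have k4 : 3 * δ * |l y| ≤ 3 * δ * (|γ - ε₁| * (y hf) ^ 2 + C * om τ y ^ 2) :=
            mul_le_mul_of_nonneg_left k2 (by positivity)
          have k5 : 3 * δ * |γ - ε₁| * (y hf) ^ 2 ≤ ε₂ * (y hf) ^ 2 :=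
            mul_le_mul_of_nonneg_right hδ2 (sq_nonneg _)
          nlinarith
        calc C₁ * (1 + |l y|) ^ 3 * Real.exp (2 * x * l y) ≤
            C₁ * (δ⁻¹ ^ 3 * Real.exp (3 * δ * |l y|)) * Real.exp (2 * x * l y) := by gcongr
          _ = C₁ * δ⁻¹ ^ 3 * Real.exp (3 * δ * |l y| + 2 * x * l y) := by
            rw [Real.exp_add]
            ring
          _ ≤ C₁ * δ⁻¹ ^ 3 * Real.exp ((a + ε₂) * (y hf) ^ 2 + C₃ * om τ y ^ 2) := by gcongr
      have hm : Measurable (fun y : LR =>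
          ENNReal.ofReal (Real.exp ((a + ε₂) * (y hf) ^ 2 + C₃ * om τ y ^ 2))) :=
        (((mg.pow_const 2).const_mul _).add ((mo.pow_const 2).const_mul _)).exp.ennreal_ofReal
      have h3 := lintegral_mono (μ := ν) hle'
      rw [lintegral_const_mul _ hm] at h3
      have h4 := pf_lu_hol (ν := ν) hτ (a + ε₂) C₃ hpq
      rw [pf_lu_gauss hν hpa] at h4
      apply ne_top_of_le_ne_top _ h3
      apply ENNReal.mul_ne_top ENNReal.ofReal_ne_top
      apply ne_top_of_le_ne_top _ h4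
      apply ENNReal.mul_ne_top
      · exact ENNReal.rpow_ne_top_of_nonneg (by positivity) ENNReal.ofReal_ne_top
      · exact ENNReal.rpow_ne_top_of_nonneg (by positivity)
          (ne_top_of_le_ne_top ENNReal.ofReal_ne_top hM)
    · refine Eventually.of_forall fun y => ?_
      exact ENNReal.tendsto_ofReal (hlim (l y))
  have val : ∫⁻ y, f y ∂ν ≤ ENNReal.ofReal (Kc x / √(1 + 2 * x * γ) + ε / 2) := by
    have e1 : ∀ y, f y = ENNReal.ofReal (Kc x) *
        ENNReal.ofReal (Real.exp (a * (y hf) ^ 2 + 2 * x * C * om τ y ^ 2)) := by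
      intro y
      rw [hf', ← ENNReal.ofReal_mul hK.le]
      simp only [hl2]
    have hm : Measurable (fun y : LR =>
        ENNReal.ofReal (Real.exp (a * (y hf) ^ 2 + 2 * x * C * om τ y ^ 2))) :=
      (((mg.pow_const 2).const_mul _).add ((mo.pow_const 2).const_mul _)).exp.ennreal_ofReal
    simp_rw [e1]
    rw [lintegral_const_mul _ hm]
    have h4 := pf_lu_hol (ν := ν) hτ a (2 * x * C) hpq
    have hpa' : (1 + s) * a ≤ (1 + s) * a₀ := mul_le_mul_of_nonneg_left haa (by linarith)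
    rw [pf_lu_gauss hν (lt_of_le_of_lt hpa' hs1)] at h4
    have h5 : (ENNReal.ofReal (1 / √(1 - (1 + s) * a))) ^ (1 / (1 + s)) ≤ ENNReal.ofReal H := by
      have hpos1 : 0 < 1 - (1 + s) * a₀ := by linarith
      have hpos2 : 0 < 1 - (1 + s) * a := by linarith
      rw [ENNReal.ofReal_rpow_of_pos (by positivity)]
      apply ENNReal.ofReal_le_ofReal
      refine le_trans ?_ hs2
      apply Real.rpow_le_rpow (by positivity) _ (by positivity)
      apply one_div_le_one_div_of_le (by positivity)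
      apply Real.sqrt_le_sqrt
      linarith
    have h6 : (∫⁻ y, ENNReal.ofReal (Real.exp (q * (2 * x * C) * om τ y ^ 2)) ∂ν) ^ (1 / q) ≤
        ENNReal.ofReal (1 + ε') := by
      have h7 : ∫⁻ y, ENNReal.ofReal (Real.exp (q * (2 * x * C) * om τ y ^ 2)) ∂ν ≤
          ENNReal.ofReal (1 + ε') := by
        refine le_trans (lintegral_mono fun y => ?_) hM
        apply ENNReal.ofReal_le_ofReal
        apply Real.exp_le_exp.2
        apply mul_le_mul_of_nonneg_right _ (sq_nonneg _)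
        apply mul_le_mul_of_nonneg_left _ hq0.le
        rw [hC₃]
        have : 0 ≤ 3 * δ * C := by positivity
        linarith
      refine (ENNReal.rpow_le_rpow h7 (by positivity)).trans ?_
      rw [ENNReal.ofReal_rpow_of_pos (by positivity)]
      apply ENNReal.ofReal_le_ofReal
      have k : (1 + ε') ^ (1 / q) ≤ (1 + ε') ^ (1 : ℝ) := by
        apply Real.rpow_le_rpow_of_exponent_le (by linarith)
        rw [div_le_one hq0]
        exact hq1.le
      rwa [Real.rpow_one] at k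
    have h8 : ∫⁻ y, ENNReal.ofReal (Real.exp (a * (y hf) ^ 2 + 2 * x * C * om τ y ^ 2)) ∂ν ≤
        ENNReal.ofReal H * ENNReal.ofReal (1 + ε') := h4.trans (mul_le_mul' h5 h6)
    calc ENNReal.ofReal (Kc x) *
          ∫⁻ y, ENNReal.ofReal (Real.exp (a * (y hf) ^ 2 + 2 * x * C * om τ y ^ 2)) ∂ν
        ≤ ENNReal.ofReal (Kc x) * (ENNReal.ofReal H * ENNReal.ofReal (1 + ε')) :=
          mul_le_mul' le_rfl h8
      _ = ENNReal.ofReal (Kc x * (H * (1 + ε'))) := by
          rw [← ENNReal.ofReal_mul hH0.le, ← ENNReal.ofReal_mul hK.le]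
      _ ≤ ENNReal.ofReal (Kc x / √(1 + 2 * x * γ) + ε / 2) := by
          apply ENNReal.ofReal_le_ofReal
          have k1 : Kc x * H * ε' = ε / 4 := by
            rw [hε']
            field_simp
          have k2 : Kc x * H = Kc x / √(1 + 2 * x * γ) + ε / 4 := by
            rw [hH]
            field_simp
          have k3 : Kc x * (H * (1 + ε')) = Kc x * H + Kc x * H * ε' := by ring
          rw [k3, k1, k2]
          linarith
  have hlt : ∫⁻ y, f y ∂ν < ENNReal.ofReal (Kc x / √(1 + 2 * x * γ) + ε) := by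
    refine lt_of_le_of_lt val ?_
    rw [ENNReal.ofReal_lt_ofReal_iff (by positivity)]
    linarith
  filter_upwards [hpos, tend.eventually (gt_mem_nhds hlt)] with t ht hFt
  have ht0 : 0 < √t := Real.sqrt_pos.2 ht.1
  have e1 : ∀ y, m32 ν x t (l y) = ENNReal.ofReal (√t * Real.exp (-(x ^ 2 / t))) * F t y := by
    intro y
    rw [hF, ← ENNReal.ofReal_mul (by positivity)]
    have : √t * Real.exp (-(x ^ 2 / t)) *
        ((m32 ν x t (l y)).toReal * Real.exp (x ^ 2 / t) / √t) = (m32 ν x t (l y)).toReal := by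
      have k : Real.exp (-(x ^ 2 / t)) * Real.exp (x ^ 2 / t) = 1 := by
        rw [← Real.exp_add, neg_add_cancel, Real.exp_zero]
      field_simp
      rw [mul_right_comm, k, one_mul]
    rw [this, ENNReal.ofReal_toReal (hne t ht.1 ht.2 y)]
  have hmF : Measurable (F t) := by
    have m1 : Measurable (fun y => m32 ν x t (l y)) :=
      (pf_lu_m32_mono ν x ht.1).measurable.comp ml
    exact ((m1.ennreal_toReal.mul_const _).div_const _).ennreal_ofReal
  calc ∫⁻ y, m32 ν x t (l y) ∂ν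
      = ENNReal.ofReal (√t * Real.exp (-(x ^ 2 / t))) * ∫⁻ y, F t y ∂ν := by
        simp_rw [e1]
        rw [lintegral_const_mul _ hmF]
    _ ≤ ENNReal.ofReal (√t * Real.exp (-(x ^ 2 / t))) *
        ENNReal.ofReal (Kc x / √(1 + 2 * x * γ) + ε) := mul_le_mul' le_rfl hFt.le
    _ = ENNReal.ofReal ((Kc x / √(1 + 2 * x * γ) + ε) * (√t * Real.exp (-(x ^ 2 / t)))) := by
        rw [← ENNReal.ofReal_mul (by positivity), mul_comm]

end Pool.Agent.H212AN
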