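import Pool.Agent.H212AN.E2

set_option autoImplicit false

namespace Pool.Agent.H212AN

open MeasureTheory Set Filter Topology Metric
open Pool.Agent.H212AN.G (nG PG gm gk)
open scoped Real ENNReal ComplexConjugate

theorem pf_ma_W0 (y : LR) : 0 ≤ Wi y := by
  have hc : IsCompact (range y) := isCompact_range y.continuous
  have hne : (range y).Nonempty := range_nonempty _
  unfold Wi
  linarith [csInf_le_csSup hne hc.bddBelow hc.bddAbove]

theorem pf_ma_aem {ν : Measure LR} (hW : Wl ν) : AEMeasurable Wi ν := by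
  have h : ∀ n : ℕ, AEMeasurable (fun y : LR => max (√1 * Wi y - 1 / ((n:ℝ) + 1)) 0) ν :=
    fun n => (hW (1 / ((n:ℝ) + 1)) 1 (by positivity) one_pos).1.aemeasurable
  refine aemeasurable_of_tendsto_metrizable_ae' h (Filter.Eventually.of_forall fun y => ?_)
  have h1 : Tendsto (fun n : ℕ => max (√1 * Wi y - 1 / ((n:ℝ) + 1)) 0) atTop
      (𝓝 (max (√1 * Wi y - 0) 0)) :=
    (tendsto_const_nhds.sub tendsto_one_div_add_atTop_nhds_zero_nat).max tendsto_const_nhds
  have h2 : max (√1 * Wi y - 0) 0 = Wi y := by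
    rw [Real.sqrt_one, one_mul, sub_zero]
    exact max_eq_left (pf_ma_W0 y)
  rwa [h2] at h1

/-- layer cake -/
theorem pf_ma_lc {t : ℝ} (ht : 0 < t) (v : ℝ) :
    ENNReal.ofReal ((max v 0) ^ (3 / 2 : ℝ)) =
      ∫⁻ w in Ioi (0:ℝ), ENNReal.ofReal (3 / 4 * √t * w ^ (-(1/2) : ℝ) * max (v - t * w) 0) := by
  rcases le_or_gt v 0 with hv | hv
  · rw [max_eq_right hv, Real.zero_rpow (by norm_num), ENNReal.ofReal_zero]
    symm
    rw [setLIntegral_congr_fun measurableSet_Ioi (g := fun _ => 0)]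
    · simp
    · intro w hw
      have hw' : 0 < w := hw
      have : max (v - t * w) 0 = 0 := max_eq_right (by nlinarith [mul_pos ht hw'])
      simp [this]
  · rw [max_eq_left hv.le]
    have hvt : 0 < v / t := div_pos hv ht
    have e1 : ∫⁻ w in Ioi (0:ℝ), ENNReal.ofReal (3 / 4 * √t * w ^ (-(1/2) : ℝ) * max (v - t * w) 0) =
        ∫⁻ w in Ioc (0:ℝ) (v / t),
          ENNReal.ofReal (3 / 4 * √t * (v * w ^ (-(1/2) : ℝ) - t * w ^ (1/2 : ℝ))) := by
      rw [← lintegral_indicator measurableSet_Ioi, ← lintegral_indicator measurableSet_Ioc]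
      refine lintegral_congr fun w => ?_
      by_cases h : w ∈ Ioc (0:ℝ) (v / t)
      · rw [indicator_of_mem h, indicator_of_mem (show w ∈ Ioi (0:ℝ) from h.1)]
        have h1 : t * w ≤ v := by
          have := h.2
          rw [le_div_iff₀ ht] at this
          linarith
        rw [max_eq_left (by linarith)]
        congr 1
        have h2 : w ^ (1/2 : ℝ) = w ^ (-(1/2) : ℝ) * w := by
          conv_rhs => rw [← Real.rpow_one w]
          rw [← Real.rpow_mul h.1.le, ← Real.rpow_add h.1]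
          norm_num
        rw [h2]
        ring
      · rw [indicator_of_notMem h]
        by_cases h0 : w ∈ Ioi (0:ℝ)
        · rw [indicator_of_mem h0]
          have h1 : v / t < w := by
            by_contra hc
            exact h ⟨h0, not_lt.1 hc⟩
          rw [div_lt_iff₀ ht] at h1
          rw [max_eq_right (by linarith)]
          simp
        · rw [indicator_of_notMem h0]
    rw [e1]
    have i1 : IntervalIntegrable (fun w : ℝ => w ^ (-(1/2) : ℝ)) volume 0 (v / t) :=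
      intervalIntegral.intervalIntegrable_rpow' (by norm_num)
    have i2 : IntervalIntegrable (fun w : ℝ => w ^ (1/2 : ℝ)) volume 0 (v / t) :=
      intervalIntegral.intervalIntegrable_rpow' (by norm_num)
    have i3 : IntervalIntegrable (fun w : ℝ => 3 / 4 * √t * (v * w ^ (-(1/2) : ℝ) -
        t * w ^ (1/2 : ℝ))) volume 0 (v / t) := ((i1.const_mul v).sub (i2.const_mul t)).const_mul _
    rw [intervalIntegrable_iff_integrableOn_Ioc_of_le hvt.le] at i3
    rw [← ofReal_integral_eq_lintegral_ofReal i3]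
    · congr 1
      rw [← intervalIntegral.integral_of_le hvt.le, intervalIntegral.integral_const_mul,
        intervalIntegral.integral_sub (i1.const_mul v) (i2.const_mul t),
        intervalIntegral.integral_const_mul, intervalIntegral.integral_const_mul,
        integral_rpow (Or.inl (by norm_num)), integral_rpow (Or.inl (by norm_num))]
      have h1 : (-(1/2) : ℝ) + 1 = 1/2 := by norm_num
      have h2 : (1/2 : ℝ) + 1 = 3/2 := by norm_num
      rw [h1, h2, Real.zero_rpow (by norm_num), Real.zero_rpow (by norm_num),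
        Real.div_rpow hv.le ht.le, Real.div_rpow hv.le ht.le]
      have h3 : v ^ (3/2 : ℝ) = v * v ^ (1/2 : ℝ) := by
        rw [show (3/2 : ℝ) = 1 + 1/2 by norm_num, Real.rpow_add hv, Real.rpow_one]
      have h4 : t ^ (3/2 : ℝ) = t * t ^ (1/2 : ℝ) := by
        rw [show (3/2 : ℝ) = 1 + 1/2 by norm_num, Real.rpow_add ht, Real.rpow_one]
      have h5 : t ^ (1/2 : ℝ) = √t := by rw [Real.sqrt_eq_rpow]
      rw [h3, h4, h5]
      have hs : 0 < √t := Real.sqrt_pos.2 ht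
      field_simp
      ring
    · refine (ae_restrict_iff' measurableSet_Ioc).2 (Filter.Eventually.of_forall fun w hw => ?_)
      have h1 : t * w ≤ v := by
        have := hw.2
        rw [le_div_iff₀ ht] at this
        linarith
      have h2 : w ^ (1/2 : ℝ) = w ^ (-(1/2) : ℝ) * w := by
        conv_rhs => rw [← Real.rpow_one w]
        rw [← Real.rpow_mul hw.1.le, ← Real.rpow_add hw.1]
        norm_num
      have h3 : 0 < w ^ (-(1/2) : ℝ) := Real.rpow_pos_of_pos hw.1 _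
      simp only [Pi.zero_apply]
      rw [h2]
      have : v * w ^ (-(1/2) : ℝ) - t * (w ^ (-(1/2) : ℝ) * w) = w ^ (-(1/2) : ℝ) * (v - t * w) := by
        ring
      rw [this]
      have := sub_nonneg.2 h1
      positivity


theorem pf_ma_elo {x : ℝ} (hx : x < 0) : Real.exp x < 1 := by
  rw [← Real.exp_zero]
  exact Real.exp_lt_exp.2 hx

/-- the theta factor -/
noncomputable def pf_ma_th (s : ℝ) : ℝ := ∑' k : ℕ, Real.exp (-((((k:ℝ) + 1) ^ 2 - 1) * s))

theorem pf_ma_le_geo {s : ℝ} (hs : 0 < s) (k : ℕ) :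
    Real.exp (-((((k:ℝ) + 1) ^ 2 - 1) * s)) ≤ (Real.exp (-s)) ^ k := by
  rw [← Real.exp_nat_mul]
  apply Real.exp_le_exp.2
  have : (0:ℝ) ≤ k := Nat.cast_nonneg k
  nlinarith [mul_nonneg this hs.le, mul_nonneg (mul_nonneg this this) hs.le]

theorem pf_ma_sum {s : ℝ} (hs : 0 < s) :
    Summable fun k : ℕ => Real.exp (-((((k:ℝ) + 1) ^ 2 - 1) * s)) := by
  refine Summable.of_nonneg_of_le (fun k => (Real.exp_pos _).le) (pf_ma_le_geo hs) ?_
  exact summable_geometric_of_lt_one (Real.exp_pos _).le (pf_ma_elo (by linarith))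

theorem pf_ma_th_one {s : ℝ} (hs : 0 < s) : 1 ≤ pf_ma_th s := by
  have := (pf_ma_sum hs).le_tsum 0 (fun k _ => (Real.exp_pos _).le)
  simpa [pf_ma_th] using this

theorem pf_ma_th_le {s : ℝ} (hs : 0 < s) : pf_ma_th s ≤ (1 - Real.exp (-s))⁻¹ := by
  have h1 : Real.exp (-s) < 1 := pf_ma_elo (by linarith)
  rw [← tsum_geometric_of_lt_one (Real.exp_pos _).le h1]
  exact (pf_ma_sum hs).tsum_le_tsum (pf_ma_le_geo hs)
    (summable_geometric_of_lt_one (Real.exp_pos _).le h1)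

theorem pf_ma_th_bd {s s0 : ℝ} (hs0 : 0 < s0) (h : s0 ≤ s) :
    pf_ma_th s ≤ (1 - Real.exp (-s0))⁻¹ := by
  refine (pf_ma_th_le (hs0.trans_le h)).trans ?_
  have h1 : Real.exp (-s0) < 1 := pf_ma_elo (by linarith)
  have h2 : Real.exp (-s) ≤ Real.exp (-s0) := Real.exp_le_exp.2 (by linarith)
  exact inv_anti₀ (by linarith) (by linarith)

theorem pf_ma_th_tendsto : Tendsto pf_ma_th atTop (𝓝 1) := by
  have h1 : Tendsto (fun s : ℝ => (1 - Real.exp (-s))⁻¹) atTop (𝓝 ((1 - 0)⁻¹)) := by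
    refine Tendsto.inv₀ (tendsto_const_nhds.sub ?_) (by norm_num)
    exact Real.tendsto_exp_neg_atTop_nhds_zero
  rw [sub_zero, inv_one] at h1
  refine tendsto_of_tendsto_of_tendsto_of_le_of_le' tendsto_const_nhds h1 ?_ ?_
  · filter_upwards [eventually_gt_atTop 0] with s hs using pf_ma_th_one hs
  · filter_upwards [eventually_gt_atTop 0] with s hs using pf_ma_th_le hs

theorem pf_ma_th_meas : Measurable pf_ma_th := by
  unfold pf_ma_th
  exact Measurable.tsum fun k => by fun_prop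

theorem pf_ma_F {b t : ℝ} (ht : 0 < t) :
    (∑' k : ℕ, Real.exp (-(((k:ℝ) + 1) ^ 2 * b ^ 2 / t))) =
      Real.exp (-(b ^ 2 / t)) * pf_ma_th (b ^ 2 / t) := by
  unfold pf_ma_th
  rw [← tsum_mul_left]
  refine tsum_congr fun k => ?_
  rw [← Real.exp_add]
  congr 1
  field_simp
  ring

/-- the integrand -/
noncomputable def pf_ma_J (a t w : ℝ) : ℝ :=
  w ^ (-(1/2) : ℝ) * ((a + t * w) * (Real.exp (-(2 * a * w + t * w ^ 2)) *
    pf_ma_th ((a + t * w) ^ 2 / t)))

theorem pf_ma_M {ν : Measure LR} [IsProbabilityMeasure ν] (hW : Wl ν) {a t : ℝ} (ha : 0 < a)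
    (ht : 0 < t) :
    ∫⁻ y, ENNReal.ofReal ((max (√t * Wi y - a) 0) ^ (3 / 2 : ℝ)) ∂ν =
      ∫⁻ w in Ioi (0:ℝ), ENNReal.ofReal (3 / 2 * √t * Real.exp (-(a ^ 2 / t)) * pf_ma_J a t w) := by
  have hWm : AEMeasurable Wi ν := pf_ma_aem hW
  simp_rw [pf_ma_lc ht (_ - a)]
  rw [lintegral_lintegral_swap]
  · refine setLIntegral_congr_fun measurableSet_Ioi fun w hw => ?_
    have hw' : 0 < w := hw
    have hb : 0 < a + t * w := by positivity
    have hr : 0 ≤ w ^ (-(1/2) : ℝ) := Real.rpow_nonneg hw'.le _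
    have h0 : 0 ≤ 3 / 4 * √t * w ^ (-(1/2) : ℝ) := by positivity
    calc ∫⁻ y, ENNReal.ofReal (3 / 4 * √t * w ^ (-(1/2) : ℝ) * max (√t * Wi y - a - t * w) 0) ∂ν
        = ∫⁻ y, ENNReal.ofReal (3 / 4 * √t * w ^ (-(1/2) : ℝ)) *
            ENNReal.ofReal (max (√t * Wi y - (a + t * w)) 0) ∂ν := by
          refine lintegral_congr fun y => ?_
          rw [ENNReal.ofReal_mul h0, sub_sub]
      _ = ENNReal.ofReal (3 / 4 * √t * w ^ (-(1/2) : ℝ)) *
            ENNReal.ofReal (∫ y, max (√t * Wi y - (a + t * w)) 0 ∂ν) := by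
          rw [lintegral_const_mul' _ _ ENNReal.ofReal_ne_top,
            ofReal_integral_eq_lintegral_ofReal (hW _ t hb ht).1
              (Filter.Eventually.of_forall fun y => le_max_right _ _)]
      _ = _ := by
          rw [(hW _ t hb ht).2, ← ENNReal.ofReal_mul h0, pf_ma_F ht]
          congr 1
          have : Real.exp (-((a + t * w) ^ 2 / t)) = Real.exp (-(a ^ 2 / t)) *
              Real.exp (-(2 * a * w + t * w ^ 2)) := by
            rw [← Real.exp_add]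
            congr 1
            field_simp
            ring
          rw [this, pf_ma_J]
          ring
  · apply AEMeasurable.ennreal_ofReal
    have h1 : AEMeasurable (fun z : LR × ℝ => Wi z.1) (ν.prod (volume.restrict (Ioi (0:ℝ)))) :=
      hWm.comp_fst
    have h2 : AEMeasurable (fun z : LR × ℝ => z.2) (ν.prod (volume.restrict (Ioi (0:ℝ)))) :=
      measurable_snd.aemeasurable
    exact ((h2.pow_const _).const_mul _).mul
      ((((h1.const_mul _).sub_const _).sub (h2.const_mul _)).max aemeasurable_const)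

/-- the dominating function -/
noncomputable def pf_ma_D (x w : ℝ) : ℝ := w ^ (-(1/2) : ℝ) * ((x + 1 + w) * Real.exp (-(x * w)))

theorem pf_ma_D_int {x : ℝ} (hx : 0 < x) : IntegrableOn (pf_ma_D x) (Ioi 0) := by
  have h1 := integrableOn_rpow_mul_exp_neg_mul_rpow (p := 1) (s := -(1/2)) (b := x) (by norm_num)
    one_pos hx
  have h2 := integrableOn_rpow_mul_exp_neg_mul_rpow (p := 1) (s := 1/2) (b := x) (by norm_num)
    one_pos hx
  have h12 : IntegrableOn (fun w : ℝ => (x + 1) * (w ^ (-(1/2) : ℝ) * Real.exp (-x * w ^ (1:ℝ))) +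
      w ^ (1/2 : ℝ) * Real.exp (-x * w ^ (1:ℝ))) (Ioi 0) := (h1.const_mul (x + 1)).add h2
  refine h12.congr_fun (fun w hw => ?_) measurableSet_Ioi
  have hw' : 0 < w := hw
  have h3 : w ^ (1/2 : ℝ) = w ^ (-(1/2) : ℝ) * w := by
    conv_rhs => rw [← Real.rpow_one w]
    rw [← Real.rpow_mul hw'.le, ← Real.rpow_add hw']
    norm_num
  simp only [Real.rpow_one, pf_ma_D]
  rw [h3, neg_mul]
  ring

theorem pf_ma_J_nn {a t w : ℝ} (ha : 0 < a) (ht : 0 < t) (hw : 0 < w) : 0 ≤ pf_ma_J a t w := by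
  have hb : 0 < a + t * w := by positivity
  have h2 : 0 ≤ pf_ma_th ((a + t * w) ^ 2 / t) :=
    zero_le_one.trans (pf_ma_th_one (by positivity))
  unfold pf_ma_J
  positivity

theorem pf_ma_J_le {x a t w : ℝ} (hx : 0 < x) (h1 : x / 2 ≤ a) (ht : 0 < t) (ht1 : t ≤ 1)
    (hw : 0 < w) {L : ℝ} (hL : 0 ≤ L) (hLa : a ≤ x + L) :
    pf_ma_J a t w ≤ (1 - Real.exp (-(x ^ 2 / 4)))⁻¹ * (1 + L) * pf_ma_D x w := by
  have ha : 0 < a := by linarith
  have hb : 0 < a + t * w := by positivity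
  have hs : x ^ 2 / 4 ≤ (a + t * w) ^ 2 / t := by
    rw [le_div_iff₀ ht]
    have : (x / 2) ^ 2 ≤ (a + t * w) ^ 2 := by
      have : x / 2 ≤ a + t * w := by nlinarith [mul_pos ht hw]
      gcongr
    nlinarith [sq_nonneg x]
  have hth : pf_ma_th ((a + t * w) ^ 2 / t) ≤ (1 - Real.exp (-(x ^ 2 / 4)))⁻¹ :=
    pf_ma_th_bd (by positivity) hs
  have hth0 : 0 ≤ pf_ma_th ((a + t * w) ^ 2 / t) :=
    zero_le_one.trans (pf_ma_th_one (by positivity))
  have he : Real.exp (-(2 * a * w + t * w ^ 2)) ≤ Real.exp (-(x * w)) := by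
    apply Real.exp_le_exp.2
    nlinarith [mul_pos ht (pow_pos hw 2), mul_nonneg (sub_nonneg.2 h1) hw.le]
  have hl : a + t * w ≤ (1 + L) * (x + 1 + w) := by
    nlinarith [mul_nonneg hL hx.le, mul_nonneg hL hw.le, mul_nonneg (sub_nonneg.2 ht1) hw.le]
  have hr : 0 ≤ w ^ (-(1/2) : ℝ) := Real.rpow_nonneg hw.le _
  have hT : 0 ≤ (1 - Real.exp (-(x ^ 2 / 4)))⁻¹ := hth0.trans hth
  unfold pf_ma_J pf_ma_D
  calc w ^ (-(1/2) : ℝ) * ((a + t * w) * (Real.exp (-(2 * a * w + t * w ^ 2)) *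
        pf_ma_th ((a + t * w) ^ 2 / t)))
      ≤ w ^ (-(1/2) : ℝ) * (((1 + L) * (x + 1 + w)) * (Real.exp (-(x * w)) *
        (1 - Real.exp (-(x ^ 2 / 4)))⁻¹)) := by gcongr
    _ = _ := by ring

theorem pf_ma_J_meas (a t : ℝ) : Measurable (pf_ma_J a t) := by
  unfold pf_ma_J
  have := pf_ma_th_meas
  fun_prop

theorem pf_ma_J_int {a t : ℝ} (ha : 0 < a) (ht : 0 < t) (ht1 : t ≤ 1) :
    IntegrableOn (pf_ma_J a t) (Ioi 0) := by
  have hD := (pf_ma_D_int ha).const_mul ((1 - Real.exp (-(a ^ 2 / 4)))⁻¹ * (1 + 0))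
  refine Integrable.mono' hD (pf_ma_J_meas a t).aestronglyMeasurable ?_
  refine (ae_restrict_iff' measurableSet_Ioi).2 (Filter.Eventually.of_forall fun w hw => ?_)
  rw [Real.norm_eq_abs, abs_of_nonneg (pf_ma_J_nn ha ht hw)]
  exact pf_ma_J_le ha (by linarith) ht ht1 hw le_rfl (by linarith)

theorem pf_ma_M2 {ν : Measure LR} [IsProbabilityMeasure ν] (hW : Wl ν) {a t : ℝ} (ha : 0 < a)
    (ht : 0 < t) (ht1 : t ≤ 1) :
    ∫⁻ y, ENNReal.ofReal ((max (√t * Wi y - a) 0) ^ (3 / 2 : ℝ)) ∂ν =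
      ENNReal.ofReal (3 / 2 * √t * Real.exp (-(a ^ 2 / t)) * ∫ w in Ioi (0:ℝ), pf_ma_J a t w) := by
  rw [pf_ma_M hW ha ht, ← ofReal_integral_eq_lintegral_ofReal]
  · rw [integral_const_mul]
  · exact (pf_ma_J_int ha ht ht1).const_mul _
  · refine (ae_restrict_iff' measurableSet_Ioi).2 (Filter.Eventually.of_forall fun w hw => ?_)
    have := pf_ma_J_nn ha ht hw
    simp only [Pi.zero_apply]
    positivity

theorem pf_ma_lim {x : ℝ} (hx : 0 < x) (l : ℝ) :
    Tendsto (fun t : ℝ => ∫ w in Ioi (0:ℝ), pf_ma_J (x - l * t) t w) (𝓝[>] 0)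
      (𝓝 (x * (√π / √(2 * x)))) := by
  have hlim : x * (√π / √(2 * x)) =
      ∫ w in Ioi (0:ℝ), w ^ (-(1/2) : ℝ) * (x * Real.exp (-(2 * x * w))) := by
    have h1 := Real.integral_rpow_mul_exp_neg_mul_Ioi (a := 1/2) (r := 2 * x) (by norm_num)
      (by positivity)
    have h2 : (fun w : ℝ => w ^ (-(1/2) : ℝ) * (x * Real.exp (-(2 * x * w)))) =
        fun w : ℝ => x * (w ^ ((1/2 : ℝ) - 1) * Real.exp (-(2 * x * w))) := by
      funext w
      rw [show (1/2 : ℝ) - 1 = -(1/2) by norm_num]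
      ring
    rw [h2, integral_const_mul, h1, Real.Gamma_one_half_eq]
    rw [← Real.sqrt_eq_rpow, Real.sqrt_div zero_le_one, Real.sqrt_one]
    ring
  rw [hlim]
  have ev : ∀ᶠ t : ℝ in 𝓝[>] 0, 0 < t ∧ t ≤ 1 ∧ x / 2 ≤ x - l * t ∧ x - l * t ≤ x + |l| := by
    have e1 : ∀ᶠ t : ℝ in 𝓝 (0:ℝ), x / 2 < x - l * t := by
      have : ContinuousAt (fun t : ℝ => x - l * t) 0 := by fun_prop
      exact this.eventually (lt_mem_nhds (by simp; linarith))
    have e2 : ∀ᶠ t : ℝ in 𝓝 (0:ℝ), t < 1 := gt_mem_nhds one_pos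
    filter_upwards [self_mem_nhdsWithin, nhdsWithin_le_nhds e1, nhdsWithin_le_nhds e2]
      with t h0 h1 h2
    have h0' : 0 < t := h0
    refine ⟨h0', h2.le, h1.le, ?_⟩
    have : -(l * t) ≤ |l| := by
      have := neg_le_abs l
      nlinarith [abs_nonneg l, mul_nonneg (abs_nonneg l) (sub_nonneg.2 h2.le),
        mul_le_mul_of_nonneg_right (neg_le_abs l) h0'.le]
    linarith
  refine tendsto_integral_filter_of_dominated_convergence
    (fun w => (1 - Real.exp (-(x ^ 2 / 4)))⁻¹ * (1 + |l|) * pf_ma_D x w) ?_ ?_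
    ((pf_ma_D_int hx).const_mul _) ?_
  · exact Filter.Eventually.of_forall fun t => (pf_ma_J_meas _ t).aestronglyMeasurable
  · filter_upwards [ev] with t ht
    refine (ae_restrict_iff' measurableSet_Ioi).2 (Filter.Eventually.of_forall fun w hw => ?_)
    rw [Real.norm_eq_abs, abs_of_nonneg (pf_ma_J_nn (by linarith [ht.2.2.1]) ht.1 hw)]
    exact pf_ma_J_le hx ht.2.2.1 ht.1 ht.2.1 hw (abs_nonneg l) ht.2.2.2
  · refine (ae_restrict_iff' measurableSet_Ioi).2 (Filter.Eventually.of_forall fun w hw => ?_)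
    have hw' : 0 < w := hw
    unfold pf_ma_J
    have t1 : Tendsto (fun t : ℝ => x - l * t + t * w) (𝓝[>] 0) (𝓝 x) := by
      have : ContinuousAt (fun t : ℝ => x - l * t + t * w) 0 := by fun_prop
      have h := this.tendsto.mono_left (nhdsWithin_le_nhds (s := Ioi (0:ℝ)))
      simpa using h
    have t2 : Tendsto (fun t : ℝ => Real.exp (-(2 * (x - l * t) * w + t * w ^ 2))) (𝓝[>] 0)
        (𝓝 (Real.exp (-(2 * x * w)))) := by
      have : ContinuousAt (fun t : ℝ => Real.exp (-(2 * (x - l * t) * w + t * w ^ 2))) 0 := by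
        fun_prop
      have h := this.tendsto.mono_left (nhdsWithin_le_nhds (s := Ioi (0:ℝ)))
      simpa using h
    have t3 : Tendsto (fun t : ℝ => (x - l * t + t * w) ^ 2 / t) (𝓝[>] 0) atTop := by
      have h := (t1.pow 2)
      have h2 := h.pos_mul_atTop (by positivity) (tendsto_inv_nhdsGT_zero (𝕜 := ℝ))
      exact h2.congr fun t => (div_eq_mul_inv _ _).symm
    have t4 := pf_ma_th_tendsto.comp t3
    have t5 := (t1.mul (t2.mul t4)).const_mul (w ^ (-(1/2) : ℝ))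
    simpa using t5

theorem pf_ma_m32 (ν : Measure LR) (x t l : ℝ) :
    m32 ν x t l = ∫⁻ y, ENNReal.ofReal ((max (√t * Wi y - (x - l * t)) 0) ^ (3 / 2 : ℝ)) ∂ν := by
  unfold m32
  refine lintegral_congr fun y => ?_
  rw [show √t * Wi y - x + l * t = √t * Wi y - (x - l * t) by ring]

theorem pf_ma_A {ν : Measure LR} [IsProbabilityMeasure ν] (hW : Wl ν) {x : ℝ} (hx : 0 < x)
    (l : ℝ) : Tendsto (fun t : ℝ => (m32 ν x t l).toReal * Real.exp (x ^ 2 / t) / √t) (𝓝[>] 0)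
    (𝓝 (3 * √π * x ^ 2 / (2 * x) ^ (3 / 2 : ℝ) * Real.exp (2 * x * l))) := by
  have h1 := pf_ma_lim hx l
  have h2 : Tendsto (fun t : ℝ => Real.exp (2 * x * l - l ^ 2 * t)) (𝓝[>] 0)
      (𝓝 (Real.exp (2 * x * l))) := by
    have : ContinuousAt (fun t : ℝ => Real.exp (2 * x * l - l ^ 2 * t)) 0 := by fun_prop
    have h := this.tendsto.mono_left (nhdsWithin_le_nhds (s := Ioi (0:ℝ)))
    simpa using h
  have h3 := (h2.mul h1).const_mul (3 / 2)
  have hval : 3 / 2 * (Real.exp (2 * x * l) * (x * (√π / √(2 * x)))) =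
      3 * √π * x ^ 2 / (2 * x) ^ (3 / 2 : ℝ) * Real.exp (2 * x * l) := by
    have h4 : (2 * x) ^ (3 / 2 : ℝ) = 2 * x * √(2 * x) := by
      rw [show (3/2 : ℝ) = 1 + 1/2 by norm_num, Real.rpow_add (by positivity), Real.rpow_one,
        Real.sqrt_eq_rpow]
    rw [h4]
    have : 0 < √(2 * x) := Real.sqrt_pos.2 (by positivity)
    field_simp
  rw [hval] at h3
  refine h3.congr' ?_
  have e1 : ∀ᶠ t : ℝ in 𝓝 (0:ℝ), 0 < x - l * t := by
    have : ContinuousAt (fun t : ℝ => x - l * t) 0 := by fun_prop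
    exact this.eventually (lt_mem_nhds (by simpa using hx))
  have e2 : ∀ᶠ t : ℝ in 𝓝 (0:ℝ), t < 1 := gt_mem_nhds one_pos
  filter_upwards [self_mem_nhdsWithin, nhdsWithin_le_nhds e1, nhdsWithin_le_nhds e2]
    with t h0 ha ht1
  have ht : 0 < t := h0
  rw [pf_ma_m32, pf_ma_M2 hW ha ht ht1.le, ENNReal.toReal_ofReal]
  · have hs : 0 < √t := Real.sqrt_pos.2 ht
    have : Real.exp (2 * x * l - l ^ 2 * t) =
        Real.exp (-((x - l * t) ^ 2 / t)) * Real.exp (x ^ 2 / t) := by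
      rw [← Real.exp_add]
      congr 1
      field_simp
      ring
    rw [this]
    field_simp
  · have : 0 ≤ ∫ w in Ioi (0:ℝ), pf_ma_J (x - l * t) t w :=
      setIntegral_nonneg measurableSet_Ioi fun w hw => pf_ma_J_nn ha ht hw
    positivity

theorem pf_ma_case1 {ν : Measure LR} [IsProbabilityMeasure ν] (hW : Wl ν) {x : ℝ} (hx : 0 < x) :
    ∃ C : ℝ, 0 ≤ C ∧ ∀ t l : ℝ, 0 < t → t ≤ 1 → l * t ≤ x / 2 →
    m32 ν x t l ≤ ENNReal.ofReal (C * √t * (1 + |l|) ^ 3 * Real.exp (-(x ^ 2 / t) + 2 * x * l)) := by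
  set T : ℝ := (1 - Real.exp (-(x ^ 2 / 4)))⁻¹ with hT
  have hT0 : 0 ≤ T := by
    have : Real.exp (-(x ^ 2 / 4)) < 1 := pf_ma_elo (by
      have : 0 < x ^ 2 / 4 := by positivity
      linarith)
    rw [hT]
    exact inv_nonneg.2 (by linarith)
  set D : ℝ := ∫ w in Ioi (0:ℝ), pf_ma_D x w with hD
  have hD0 : 0 ≤ D := setIntegral_nonneg measurableSet_Ioi fun w hw => by
    have hw' : 0 < w := hw
    unfold pf_ma_D
    positivity
  refine ⟨3 / 2 * T * D, by positivity, fun t l ht ht1 hlt => ?_⟩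
  have ha : 0 < x - l * t := by linarith
  have hle : x - l * t ≤ x + |l| := by
    have := mul_le_mul_of_nonneg_right (neg_le_abs l) ht.le
    nlinarith [mul_nonneg (abs_nonneg l) (sub_nonneg.2 ht1)]
  rw [pf_ma_m32, pf_ma_M2 hW ha ht ht1]
  apply ENNReal.ofReal_le_ofReal
  have hJ : ∫ w in Ioi (0:ℝ), pf_ma_J (x - l * t) t w ≤ T * (1 + |l|) * D := by
    rw [hD, ← integral_const_mul]
    refine setIntegral_mono_on (pf_ma_J_int ha ht ht1) ((pf_ma_D_int hx).const_mul _)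
      measurableSet_Ioi fun w hw => ?_
    exact pf_ma_J_le hx (by linarith) ht ht1 hw (abs_nonneg l) hle
  have hJ0 : 0 ≤ ∫ w in Ioi (0:ℝ), pf_ma_J (x - l * t) t w :=
    setIntegral_nonneg measurableSet_Ioi fun w hw => pf_ma_J_nn ha ht hw
  have he : Real.exp (-((x - l * t) ^ 2 / t)) ≤ Real.exp (-(x ^ 2 / t) + 2 * x * l) := by
    apply Real.exp_le_exp.2
    have : -((x - l * t) ^ 2 / t) = -(x ^ 2 / t) + 2 * x * l - l ^ 2 * t := by
      field_simp
      ring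
    rw [this]
    have : 0 ≤ l ^ 2 * t := by positivity
    linarith
  have hl3 : 1 + |l| ≤ (1 + |l|) ^ 3 := by
    have h1 : 1 ≤ 1 + |l| := by linarith [abs_nonneg l]
    exact le_self_pow₀ h1 (by norm_num)
  calc 3 / 2 * √t * Real.exp (-((x - l * t) ^ 2 / t)) * ∫ w in Ioi (0:ℝ), pf_ma_J (x - l * t) t w
      ≤ 3 / 2 * √t * Real.exp (-(x ^ 2 / t) + 2 * x * l) * (T * (1 + |l|) * D) := by gcongr
    _ = 3 / 2 * T * D * √t * (1 + |l|) * Real.exp (-(x ^ 2 / t) + 2 * x * l) := by ring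
    _ ≤ 3 / 2 * T * D * √t * (1 + |l|) ^ 3 * Real.exp (-(x ^ 2 / t) + 2 * x * l) := by gcongr

theorem pf_ma_fin {ν : Measure LR} [IsProbabilityMeasure ν] (hW : Wl ν) :
    ∃ K : ℝ, 0 ≤ K ∧ ∫⁻ y, ENNReal.ofReal ((1 + Wi y) ^ (3 / 2 : ℝ)) ∂ν ≤ ENNReal.ofReal K := by
  set M : ℝ := 3 / 2 * √1 * Real.exp (-(1 ^ 2 / 1)) * ∫ w in Ioi (0:ℝ), pf_ma_J 1 1 w with hM
  have h1 : ∫⁻ y, ENNReal.ofReal ((max (√1 * Wi y - 1) 0) ^ (3 / 2 : ℝ)) ∂ν = ENNReal.ofReal M :=
    pf_ma_M2 hW one_pos one_pos le_rfl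
  have hM0 : 0 ≤ M := by
    have : 0 ≤ ∫ w in Ioi (0:ℝ), pf_ma_J 1 1 w :=
      setIntegral_nonneg measurableSet_Ioi fun w hw => pf_ma_J_nn one_pos one_pos hw
    positivity
  refine ⟨8 + 8 * M, by positivity, ?_⟩
  have hpt : ∀ y : LR, ENNReal.ofReal ((1 + Wi y) ^ (3 / 2 : ℝ)) ≤
      8 + 8 * ENNReal.ofReal ((max (√1 * Wi y - 1) 0) ^ (3 / 2 : ℝ)) := by
    intro y
    have hW0 := pf_ma_W0 y
    set m : ℝ := max (√1 * Wi y - 1) 0 with hm
    have hm0 : 0 ≤ m := le_max_right _ _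
    have hm1 : Wi y - 1 ≤ m := by
      have := le_max_left (√1 * Wi y - 1) 0
      have h' : √1 * Wi y - 1 = Wi y - 1 := by rw [Real.sqrt_one, one_mul]
      rw [← h', hm]
      exact this
    have h8 : (4 : ℝ) ^ (3 / 2 : ℝ) = 8 := by
      rw [show (4:ℝ) = 2 ^ (2:ℝ) by norm_num, ← Real.rpow_mul (by norm_num)]
      norm_num
    have key : (1 + Wi y) ^ (3 / 2 : ℝ) ≤ 8 + 8 * m ^ (3 / 2 : ℝ) := by
      have hp : 0 ≤ m ^ (3 / 2 : ℝ) := Real.rpow_nonneg hm0 _
      rcases le_total m 2 with h | h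
      · have : 1 + Wi y ≤ 4 := by linarith
        have := Real.rpow_le_rpow (by linarith) this (show (0:ℝ) ≤ 3 / 2 by norm_num)
        rw [h8] at this
        linarith
      · have : 1 + Wi y ≤ 4 * m := by linarith
        have := Real.rpow_le_rpow (by linarith) this (show (0:ℝ) ≤ 3 / 2 by norm_num)
        rw [Real.mul_rpow (by norm_num) hm0, h8] at this
        linarith
    have := ENNReal.ofReal_le_ofReal key
    rwa [ENNReal.ofReal_add (by norm_num) (by positivity), ENNReal.ofReal_mul (by norm_num),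
      ENNReal.ofReal_ofNat] at this
  calc ∫⁻ y, ENNReal.ofReal ((1 + Wi y) ^ (3 / 2 : ℝ)) ∂ν
      ≤ ∫⁻ y, (8 + 8 * ENNReal.ofReal ((max (√1 * Wi y - 1) 0) ^ (3 / 2 : ℝ))) ∂ν :=
        lintegral_mono hpt
    _ = 8 + 8 * ENNReal.ofReal M := by
        rw [lintegral_add_left measurable_const, lintegral_const_mul' _ _ (by norm_num), h1]
        simp
    _ = ENNReal.ofReal (8 + 8 * M) := by
        rw [ENNReal.ofReal_add (by norm_num) (mul_nonneg (by norm_num) hM0),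
          ENNReal.ofReal_mul (p := 8) (by norm_num), ENNReal.ofReal_ofNat]

theorem pf_ma_case2 {ν : Measure LR} [IsProbabilityMeasure ν] (hW : Wl ν) {x : ℝ} (hx : 0 < x) :
    ∃ C : ℝ, 0 ≤ C ∧ ∀ t l : ℝ, 0 < t → t ≤ 1 → x / 2 < l * t →
    m32 ν x t l ≤ ENNReal.ofReal (C * √t * (1 + |l|) ^ 3 * Real.exp (-(x ^ 2 / t) + 2 * x * l)) := by
  obtain ⟨K, hK0, hK⟩ := pf_ma_fin hW
  refine ⟨K, hK0, fun t l ht ht1 hlt => ?_⟩
  have hl : 0 < l := by
    by_contra hc
    have := mul_nonpos_of_nonpos_of_nonneg (not_lt.1 hc) ht.le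
    linarith
  have hexp : 1 ≤ Real.exp (-(x ^ 2 / t) + 2 * x * l) := by
    rw [← Real.exp_zero]
    apply Real.exp_le_exp.2
    have : x ^ 2 / t ≤ 2 * x * l := by
      rw [div_le_iff₀ ht]
      nlinarith
    linarith
  have hs : 0 < √t := Real.sqrt_pos.2 ht
  have hs1 : √t ≤ 1 := Real.sqrt_le_one.2 ht1
  have hpt : ∀ y : LR, ENNReal.ofReal ((max (√t * Wi y - x + l * t) 0) ^ (3 / 2 : ℝ)) ≤
      ENNReal.ofReal (√t * (1 + |l|) ^ 3) * ENNReal.ofReal ((1 + Wi y) ^ (3 / 2 : ℝ)) := by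
    intro y
    have hW0 := pf_ma_W0 y
    rw [← ENNReal.ofReal_mul (by positivity)]
    apply ENNReal.ofReal_le_ofReal
    have h1 : max (√t * Wi y - x + l * t) 0 ≤ √t * ((1 + |l|) * (1 + Wi y)) := by
      apply max_le _ (by positivity)
      have h2 : l * t ≤ √t * l := by
        have : t = √t * √t := (Real.mul_self_sqrt ht.le).symm
        have h3 : t ≤ √t := by nlinarith
        nlinarith
      rw [abs_of_pos hl]
      nlinarith [mul_nonneg hs.le hW0, mul_nonneg (mul_nonneg hs.le hW0) hl.le]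
    have h2 := Real.rpow_le_rpow (le_max_right _ _) h1 (show (0:ℝ) ≤ 3 / 2 by norm_num)
    refine h2.trans ?_
    have hl1 : 1 ≤ 1 + |l| := by linarith [abs_nonneg l]
    rw [Real.mul_rpow hs.le (by positivity), Real.mul_rpow (by positivity) (by positivity)]
    have h3 : √t ^ (3 / 2 : ℝ) ≤ √t := by
      calc √t ^ (3 / 2 : ℝ) ≤ √t ^ (1 : ℝ) :=
            Real.rpow_le_rpow_of_exponent_ge hs hs1 (by norm_num)
        _ = √t := Real.rpow_one _
    have h4 : (1 + |l|) ^ (3 / 2 : ℝ) ≤ (1 + |l|) ^ 3 := by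
      calc (1 + |l|) ^ (3 / 2 : ℝ) ≤ (1 + |l|) ^ (3 : ℝ) :=
            Real.rpow_le_rpow_of_exponent_le hl1 (by norm_num)
        _ = (1 + |l|) ^ 3 := by norm_cast
    have h5 : 0 ≤ (1 + Wi y) ^ (3 / 2 : ℝ) := Real.rpow_nonneg (by linarith) _
    have h6 : 0 ≤ (1 + |l|) ^ (3 / 2 : ℝ) := Real.rpow_nonneg (by linarith) _
    calc √t ^ (3 / 2 : ℝ) * ((1 + |l|) ^ (3 / 2 : ℝ) * (1 + Wi y) ^ (3 / 2 : ℝ))
        ≤ √t * ((1 + |l|) ^ 3 * (1 + Wi y) ^ (3 / 2 : ℝ)) := by gcongr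
      _ = _ := by ring
  unfold m32
  calc ∫⁻ y, ENNReal.ofReal ((max (√t * Wi y - x + l * t) 0) ^ (3 / 2 : ℝ)) ∂ν
      ≤ ∫⁻ y, ENNReal.ofReal (√t * (1 + |l|) ^ 3) * ENNReal.ofReal ((1 + Wi y) ^ (3 / 2 : ℝ)) ∂ν :=
        lintegral_mono hpt
    _ = ENNReal.ofReal (√t * (1 + |l|) ^ 3) * ∫⁻ y, ENNReal.ofReal ((1 + Wi y) ^ (3 / 2 : ℝ)) ∂ν :=
        lintegral_const_mul' _ _ ENNReal.ofReal_ne_top
    _ ≤ ENNReal.ofReal (√t * (1 + |l|) ^ 3) * ENNReal.ofReal K := by gcongr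
    _ = ENNReal.ofReal (K * √t * (1 + |l|) ^ 3) := by
        rw [← ENNReal.ofReal_mul (by positivity)]
        congr 1
        ring
    _ ≤ _ := by
        apply ENNReal.ofReal_le_ofReal
        have : 0 ≤ K * √t * (1 + |l|) ^ 3 := by positivity
        nlinarith

theorem pf_ma : S_ma := by
  intro ν hν hW x hx
  refine ⟨pf_ma_A hW hx, ?_⟩
  obtain ⟨C1, hC1, h1⟩ := pf_ma_case1 hW hx
  obtain ⟨C2, hC2, h2⟩ := pf_ma_case2 hW hx
  refine ⟨max C1 C2, fun t l ht ht1 => ?_⟩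
  rcases le_or_gt (l * t) (x / 2) with h | h
  · refine (h1 t l ht ht1 h).trans (ENNReal.ofReal_le_ofReal ?_)
    have := le_max_left C1 C2
    gcongr
  · refine (h2 t l ht ht1 h).trans (ENNReal.ofReal_le_ofReal ?_)
    have := le_max_right C1 C2
    gcongr

end Pool.Agent.H212AN
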