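import Pool.Agent.H212AN.E3

set_option autoImplicit false

namespace Pool.Agent.H212AN

open MeasureTheory Set Filter Topology Metric
open Pool.Agent.H212AN.G (nG PG gm gk)
open scoped Real ENNReal ComplexConjugate

theorem pf_many_sin {u v : ℝ} (h0 : 0 ≤ u) (h1 : u ≤ v) (h2 : v ≤ π - u) :
    Real.sin u ≤ Real.sin v := by
  by_cases h : v ≤ π / 2
  · exact Real.sin_le_sin_of_le_of_le_pi_div_two (by linarith [Real.pi_pos]) h h1
  · have h3 : π / 2 < v := not_le.1 h
    rw [← Real.sin_pi_sub v]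
    exact Real.sin_le_sin_of_le_of_le_pi_div_two (by linarith [Real.pi_pos]) (by linarith)
      (by linarith)

theorem pf_many_norm_rv (m : ℕ) (i : Fin (m + 3)) : ‖rv m i‖ = 1 := by
  unfold rv
  exact Complex.norm_exp_ofReal_mul_I _

theorem pf_many_chord (x y : ℝ) :
    ‖Complex.exp ((x : ℂ) * Complex.I) - Complex.exp ((y : ℂ) * Complex.I)‖ =
      2 * |Real.sin ((x - y) / 2)| := by
  have h1 : Complex.exp ((x : ℂ) * Complex.I) - Complex.exp ((y : ℂ) * Complex.I) =
      Complex.exp ((y : ℂ) * Complex.I) * (Complex.exp (Complex.I * ((x - y : ℝ) : ℂ)) - 1) := by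
    rw [mul_sub, mul_one, ← Complex.exp_add]
    congr 2
    push_cast
    ring
  rw [h1, norm_mul, Complex.norm_exp_ofReal_mul_I, one_mul,
    Complex.norm_exp_I_mul_ofReal_sub_one, norm_mul, Real.norm_eq_abs, Real.norm_eq_abs]
  norm_num

theorem pf_many_rv_dist (m : ℕ) (i j : Fin (m + 3)) (hij : i < j) :
    ‖rv m i - rv m j‖ = 2 * Real.sin (π * (((j : ℕ) : ℝ) - (i : ℕ)) / ((m : ℝ) + 3)) := by
  unfold rv
  rw [pf_many_chord]
  have hm : (0 : ℝ) < (m : ℝ) + 3 := by positivity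
  have hij' : ((i : ℕ) : ℝ) < ((j : ℕ) : ℝ) := by exact_mod_cast hij
  have hj : ((j : ℕ) : ℝ) < (m : ℝ) + 3 := by
    have := j.2
    exact_mod_cast this
  have hi : (0 : ℝ) ≤ ((i : ℕ) : ℝ) := by positivity
  have e1 : (2 * π * ((i : ℕ) : ℝ) / ((m : ℝ) + 3) - 2 * π * ((j : ℕ) : ℝ) / ((m : ℝ) + 3)) / 2 =
      -(π * (((j : ℕ) : ℝ) - (i : ℕ)) / ((m : ℝ) + 3)) := by
    field_simp
    ring
  rw [e1, Real.sin_neg, abs_neg, abs_of_nonneg]
  apply Real.sin_nonneg_of_nonneg_of_le_pi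
  · apply div_nonneg _ hm.le
    apply mul_nonneg Real.pi_pos.le
    linarith
  · rw [div_le_iff₀ hm]
    apply mul_le_mul_of_nonneg_left _ Real.pi_pos.le
    linarith

/-- adjacent pairs -/
def pf_many_adj (m : ℕ) (i j : Fin (m + 3)) : Prop :=
  (j : ℕ) = (i : ℕ) + 1 ∨ ((i : ℕ) = 0 ∧ (j : ℕ) = m + 2)

theorem pf_many_rv_adj (m : ℕ) (i j : Fin (m + 3)) (hij : i < j) (ha : pf_many_adj m i j) :
    ‖rv m i - rv m j‖ = 2 * Real.sin (π / ((m : ℝ) + 3)) := by
  rw [pf_many_rv_dist m i j hij]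
  have hm : (0 : ℝ) < (m : ℝ) + 3 := by positivity
  rcases ha with h | ⟨h1, h2⟩
  · rw [h]
    push_cast
    congr 2
    ring
  · rw [h1, h2]
    push_cast
    rw [← Real.sin_pi_sub]
    congr 2
    field_simp
    ring

theorem pf_many_rv_ge (m : ℕ) (i j : Fin (m + 3)) (hij : i < j) :
    2 * Real.sin (π / ((m : ℝ) + 3)) ≤ ‖rv m i - rv m j‖ := by
  rw [pf_many_rv_dist m i j hij]
  have hm : (0 : ℝ) < (m : ℝ) + 3 := by positivity
  have hij' : ((i : ℕ) : ℝ) + 1 ≤ ((j : ℕ) : ℝ) := by exact_mod_cast hij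
  have hj : ((j : ℕ) : ℝ) + 1 ≤ (m : ℝ) + 3 := by
    have := j.2
    exact_mod_cast this
  have hi : (0 : ℝ) ≤ ((i : ℕ) : ℝ) := by positivity
  have := pf_many_sin (u := π / ((m : ℝ) + 3))
    (v := π * (((j : ℕ) : ℝ) - (i : ℕ)) / ((m : ℝ) + 3)) (by positivity)
    (by
      apply div_le_div_of_nonneg_right _ hm.le
      nlinarith [Real.pi_pos])
    (by
      rw [div_le_iff₀ hm, sub_mul, div_mul_cancel₀ _ hm.ne']
      nlinarith [Real.pi_pos])
  linarith

theorem pf_many_rv_nonadj (m : ℕ) (i j : Fin (m + 3)) (hij : i < j) (ha : ¬ pf_many_adj m i j) :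
    √2 * (2 * Real.sin (π / ((m : ℝ) + 3))) ≤ ‖rv m i - rv m j‖ := by
  rw [pf_many_rv_dist m i j hij]
  have hm : (0 : ℝ) < (m : ℝ) + 3 := by positivity
  have hij0 : (i : ℕ) < (j : ℕ) := hij
  have hja : (j : ℕ) < m + 3 := j.2
  unfold pf_many_adj at ha
  push Not at ha
  have hij1 : (i : ℕ) + 2 ≤ (j : ℕ) := by omega
  have hj1 : (j : ℕ) + 2 ≤ m + 3 + (i : ℕ) := by
    by_contra hc
    have h1 : (i : ℕ) = 0 := by omega
    exact ha.2 h1 (by omega)
  have hm4 : 1 ≤ m := by omega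
  have hij' : ((i : ℕ) : ℝ) + 2 ≤ ((j : ℕ) : ℝ) := by exact_mod_cast hij1
  have hj : ((j : ℕ) : ℝ) + 2 ≤ (m : ℝ) + 3 + ((i : ℕ) : ℝ) := by exact_mod_cast hj1
  have h1 := pf_many_sin (u := 2 * (π / ((m : ℝ) + 3)))
    (v := π * (((j : ℕ) : ℝ) - (i : ℕ)) / ((m : ℝ) + 3)) (by positivity)
    (by
      rw [← mul_div_assoc]
      apply div_le_div_of_nonneg_right _ hm.le
      nlinarith [Real.pi_pos])
    (by
      rw [div_le_iff₀ hm, sub_mul, mul_assoc, div_mul_cancel₀ _ hm.ne']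
      nlinarith [Real.pi_pos])
  rw [Real.sin_two_mul] at h1
  have hm4' : (4 : ℝ) ≤ (m : ℝ) + 3 := by
    have : (1 : ℝ) ≤ (m : ℝ) := by exact_mod_cast hm4
    linarith
  have h2 : √2 / 2 ≤ Real.cos (π / ((m : ℝ) + 3)) := by
    rw [← Real.cos_pi_div_four]
    apply Real.cos_le_cos_of_nonneg_of_le_pi (by positivity) (by linarith [Real.pi_pos])
    exact div_le_div_of_nonneg_left Real.pi_pos.le (by norm_num) hm4'
  have h3 : 0 ≤ Real.sin (π / ((m : ℝ) + 3)) := by
    apply Real.sin_nonneg_of_nonneg_of_le_pi (by positivity)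
    rw [div_le_iff₀ hm]
    nlinarith [Real.pi_pos]
  nlinarith [mul_le_mul_of_nonneg_left h2 h3]

theorem pf_many_dist_near (m : ℕ) (a η : ℝ) (ha : 0 < a) (w : Fin (m + 3) → ℂ)
    (hw : ∀ i, ‖w i - a * rv m i‖ < η) (i j : Fin (m + 3)) :
    |dist (w i) (w j) - a * ‖rv m i - rv m j‖| < 2 * η := by
  have h1 : a * ‖rv m i - rv m j‖ = ‖(a : ℂ) * rv m i - a * rv m j‖ := by
    rw [← mul_sub, norm_mul, Complex.norm_real, Real.norm_eq_abs, abs_of_pos ha]
  rw [h1, dist_eq_norm]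
  have h2 : w i - w j - ((a : ℂ) * rv m i - a * rv m j) =
      (w i - a * rv m i) - (w j - a * rv m j) := by ring
  calc |‖w i - w j‖ - ‖(a : ℂ) * rv m i - a * rv m j‖| ≤
      ‖w i - w j - ((a : ℂ) * rv m i - a * rv m j)‖ := abs_norm_sub_norm_le _ _
    _ = ‖(w i - a * rv m i) - (w j - a * rv m j)‖ := by rw [h2]
    _ ≤ ‖w i - a * rv m i‖ + ‖w j - a * rv m j‖ := norm_sub_le _ _
    _ < 2 * η := by linarith [hw i, hw j]

theorem pf_many_norm_near (m : ℕ) (a η : ℝ) (ha : 0 < a) (w : Fin (m + 3) → ℂ)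
    (hw : ∀ i, ‖w i - a * rv m i‖ < η) (i : Fin (m + 3)) : |‖w i‖ - a| < η := by
  have h1 : a = ‖(a : ℂ) * rv m i‖ := by
    rw [norm_mul, pf_many_norm_rv, Complex.norm_real, Real.norm_eq_abs, abs_of_pos ha, mul_one]
  calc |‖w i‖ - a| = |‖w i‖ - ‖(a : ℂ) * rv m i‖| := by rw [← h1]
    _ ≤ ‖w i - a * rv m i‖ := abs_norm_sub_norm_le _ _
    _ < η := hw i

/-- index of an adjacent pair -/
def pf_many_idx (m : ℕ) (i j : Fin (m + 3)) : Fin (m + 3) :=
  if (j : ℕ) = (i : ℕ) + 1 then i else j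

theorem pf_many_idx_dist (m : ℕ) (w : Fin (m + 3) → ℂ) (i j : Fin (m + 3))
    (h : pf_many_adj m i j) :
    dist (w i) (w j) = dist (w (pf_many_idx m i j)) (w (pf_many_idx m i j + 1)) := by
  unfold pf_many_idx
  by_cases h1 : (j : ℕ) = (i : ℕ) + 1
  · rw [if_pos h1]
    have h2 : i + 1 = j := by
      apply Fin.ext
      rw [Fin.val_add_one_of_lt' (by have := j.2; omega), h1]
    rw [h2]
  · rw [if_neg h1]
    rcases h with h | ⟨h2, h3⟩
    · exact absurd h h1
    · have h4 : j + 1 = i := by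
        have h5 : j = Fin.last (m + 2) := Fin.ext (by simp [h3])
        rw [h5]
        apply Fin.ext
        rw [h2]
        simp
      rw [h4, dist_comm]

theorem pf_many_idx_inj (m : ℕ) (i j i' j' : Fin (m + 3)) (hij : i < j) (hij' : i' < j')
    (h : pf_many_adj m i j) (h' : pf_many_adj m i' j')
    (he : pf_many_idx m i j = pf_many_idx m i' j') : i = i' ∧ j = j' := by
  unfold pf_many_idx at he
  unfold pf_many_adj at h h'
  have hj := j.2
  have hj' := j'.2
  have hl : (i : ℕ) < j := hij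
  have hl' : (i' : ℕ) < j' := hij'
  by_cases h1 : (j : ℕ) = (i : ℕ) + 1
  · rw [if_pos h1] at he
    by_cases h2 : (j' : ℕ) = (i' : ℕ) + 1
    · rw [if_pos h2] at he
      have := congrArg Fin.val he
      exact ⟨he, Fin.ext (by omega)⟩
    · rw [if_neg h2] at he
      have := congrArg Fin.val he
      omega
  · rw [if_neg h1] at he
    by_cases h2 : (j' : ℕ) = (i' : ℕ) + 1
    · rw [if_pos h2] at he
      have := congrArg Fin.val he
      omega
    · rw [if_neg h2] at he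
      have := congrArg Fin.val he
      exact ⟨Fin.ext (by omega), he⟩

theorem pf_many_mu_zero {ι : Type} [Fintype ι] (f : ι → ℝ) (x : ℝ) (h : ∀ i, f i ≠ x) :
    mu' f x = 0 := by
  unfold mu'
  rw [Finset.card_eq_zero, Finset.filter_eq_empty_iff]
  intro i _
  exact h i

theorem pf_many_mu_ex {ι : Type} [Fintype ι] (f : ι → ℝ) (x : ℝ) (h : mu' f x ≠ 0) :
    ∃ i, f i = x := by
  by_contra hc
  push Not at hc
  exact h (pf_many_mu_zero f x hc)

theorem pf_many_mu_le {ι : Type} [Fintype ι] (f : ι → ℝ) (x : ℝ)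
    (h : ∀ i j, f i = x → f j = x → i = j) : mu' f x ≤ 1 := by
  unfold mu'
  rw [Finset.card_le_one]
  intro i hi j hj
  exact h i j (Finset.mem_filter.1 hi).2 (Finset.mem_filter.1 hj).2

theorem pf_many_core {ι κ : Type} [Fintype ι] [Fintype κ] (h h' : ι → ℝ) (o o' : κ → ℝ)
    (LH LO : ℝ → ℝ) (c : ℝ) (hpos : ∀ k, 0 < h k ∧ 0 < h' k) (opos : ∀ i, 0 < o i ∧ 0 < o' i)
    (hL : ∀ x, 0 < x → x < c → 0 < LH x ∧ LH x < LO x)
    (hle : ∀ x, x < c → mu' h x + mu' o x ≤ 1)
    (hne : ∀ i (k : ℕ), LO (o i) ≠ k * LH (o i))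
    (step : ∀ x, 0 < x → x < c → (∀ y, 0 < y → y < x → mu' h y = mu' h' y ∧ mu' o y = mu' o' y) →
      (mu' h x : ℝ) * LH x + (mu' o x : ℝ) * LO x = (mu' h' x : ℝ) * LH x + (mu' o' x : ℝ) * LO x) :
    ∀ x, x < c → mu' h x = mu' h' x ∧ mu' o x = mu' o' x := by
  intro x hx
  by_contra hbad
  have hfin : {y : ℝ | ¬ (mu' h y = mu' h' y ∧ mu' o y = mu' o' y)}.Finite := by
    apply Set.Finite.subset (((Set.finite_range h).union (Set.finite_range h')).union
      ((Set.finite_range o).union (Set.finite_range o')))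
    intro y hy
    by_contra hc
    simp only [Set.mem_union, Set.mem_range, not_or, not_exists] at hc
    apply hy
    rw [pf_many_mu_zero h y hc.1.1, pf_many_mu_zero h' y hc.1.2, pf_many_mu_zero o y hc.2.1,
      pf_many_mu_zero o' y hc.2.2]
    exact ⟨rfl, rfl⟩
  obtain ⟨z, hz, hmin⟩ := Set.exists_min_image _ id hfin ⟨x, hbad⟩
  simp only [id] at hmin
  have hzc : z < c := lt_of_le_of_lt (hmin x hbad) hx
  have hbelow : ∀ y, y < z → mu' h y = mu' h' y ∧ mu' o y = mu' o' y := by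
    intro y hy
    by_contra hc
    exact absurd (hmin y hc) (not_le.2 hy)
  have hz0 : 0 < z := by
    by_contra hc
    apply hz
    have hc' : z ≤ 0 := not_lt.1 hc
    rw [pf_many_mu_zero h z (fun k => (lt_of_le_of_lt hc' (hpos k).1).ne'),
      pf_many_mu_zero h' z (fun k => (lt_of_le_of_lt hc' (hpos k).2).ne'),
      pf_many_mu_zero o z (fun k => (lt_of_le_of_lt hc' (opos k).1).ne'),
      pf_many_mu_zero o' z (fun k => (lt_of_le_of_lt hc' (opos k).2).ne')]
    exact ⟨rfl, rfl⟩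
  have heq := step z hz0 hzc (fun y _ hy => hbelow y hy)
  obtain ⟨hLH, hLO⟩ := hL z hz0 hzc
  have hLO0 : 0 < LO z := lt_trans hLH hLO
  have hle1 := hle z hzc
  apply hz
  have hcast : ∀ k : ℕ, (0 : ℝ) ≤ (k : ℝ) := fun k => Nat.cast_nonneg k
  by_cases ho1 : mu' o z = 0
  · by_cases hh1 : mu' h z = 0
    · rw [ho1, hh1] at heq ⊢
      simp only [Nat.cast_zero, zero_mul, add_zero] at heq
      have h1 : (0 : ℝ) ≤ (mu' h' z : ℝ) * LH z := mul_nonneg (hcast _) hLH.le
      have h2 : (0 : ℝ) ≤ (mu' o' z : ℝ) * LO z := mul_nonneg (hcast _) hLO0.le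
      have h3 : (mu' h' z : ℝ) * LH z = 0 := by linarith
      have h4 : (mu' o' z : ℝ) * LO z = 0 := by linarith
      have h5 : (mu' h' z : ℝ) = 0 := by
        rcases mul_eq_zero.1 h3 with h | h
        · exact h
        · exact absurd h hLH.ne'
      have h6 : (mu' o' z : ℝ) = 0 := by
        rcases mul_eq_zero.1 h4 with h | h
        · exact h
        · exact absurd h hLO0.ne'
      exact ⟨(by exact_mod_cast h5.symm), (by exact_mod_cast h6.symm)⟩
    · have hh2 : mu' h z = 1 := by omega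
      rw [ho1, hh2] at heq ⊢
      simp only [Nat.cast_zero, zero_mul, add_zero, Nat.cast_one, one_mul] at heq
      have h1 : (0 : ℝ) ≤ (mu' h' z : ℝ) * LH z := mul_nonneg (hcast _) hLH.le
      have h6 : mu' o' z = 0 := by
        by_contra hc
        have h7 : (1 : ℝ) ≤ (mu' o' z : ℝ) := by
          have : 1 ≤ mu' o' z := Nat.one_le_iff_ne_zero.2 hc
          exact_mod_cast this
        nlinarith
      rw [h6] at heq ⊢
      simp only [Nat.cast_zero, zero_mul, add_zero] at heq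
      have h8 : ((mu' h' z : ℝ) - 1) * LH z = 0 := by linarith
      have h9 : (mu' h' z : ℝ) = 1 := by
        rcases mul_eq_zero.1 h8 with h | h
        · linarith
        · exact absurd h hLH.ne'
      exact ⟨by exact_mod_cast h9.symm, rfl⟩
  · have ho2 : mu' o z = 1 := by omega
    have hh2 : mu' h z = 0 := by omega
    rw [ho2, hh2] at heq ⊢
    simp only [Nat.cast_zero, zero_mul, zero_add, Nat.cast_one, one_mul] at heq
    obtain ⟨i, hi⟩ := pf_many_mu_ex o z ho1
    have h1 : (0 : ℝ) ≤ (mu' h' z : ℝ) * LH z := mul_nonneg (hcast _) hLH.le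
    by_cases h3 : mu' o' z = 0
    · exfalso
      rw [h3] at heq
      simp only [Nat.cast_zero, zero_mul, add_zero] at heq
      apply hne i (mu' h' z)
      rw [hi]
      exact heq
    · have h4 : (1 : ℝ) ≤ (mu' o' z : ℝ) := by
        have : 1 ≤ mu' o' z := Nat.one_le_iff_ne_zero.2 h3
        exact_mod_cast this
      have h5 : (mu' o' z : ℝ) < 2 := by
        by_contra hc
        have hc' : (2 : ℝ) ≤ (mu' o' z : ℝ) := not_lt.1 hc
        nlinarith
      have h6 : mu' o' z = 1 := by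
        have h7 : mu' o' z < 2 := by exact_mod_cast h5
        omega
      rw [h6] at heq ⊢
      simp only [Nat.cast_one, one_mul] at heq
      have h8 : (mu' h' z : ℝ) * LH z = 0 := by linarith
      have h9 : (mu' h' z : ℝ) = 0 := by
        rcases mul_eq_zero.1 h8 with h | h
        · exact h
        · exact absurd h hLH.ne'
      exact ⟨by exact_mod_cast h9.symm, rfl⟩

theorem pf_many_Lc {R r x : ℝ} (hr : 0 < r) (hx : 0 < x) (hxR : x < R - r) :
    0 < Lc x (1 / r) (1 / r) ∧ Lc x (1 / r) (1 / r) < Lc x (1 / r) (-(1 / R)) := by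
  have hR : 0 < R := by linarith
  unfold Lc
  have e1 : 1 / r + 1 / r + x * (1 / r) * (1 / r) = (2 * r + x) / r ^ 2 := by
    field_simp
    ring
  have e2 : 1 / r + -(1 / R) + x * (1 / r) * -(1 / R) = (R - r - x) / (r * R) := by
    field_simp
    ring
  rw [e1, e2]
  have hd1 : 0 < (2 * r + x) / r ^ 2 := by positivity
  have hd2 : 0 < (R - r - x) / (r * R) := by
    apply div_pos _ (by positivity)
    linarith
  have hnum : 0 < 2 * √(π * x) := by positivity
  refine ⟨by positivity, ?_⟩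
  apply div_lt_div_of_pos_left hnum (Real.sqrt_pos.2 hd2)
  apply Real.sqrt_lt_sqrt hd2.le
  rw [div_lt_div_iff₀ (by positivity) (by positivity)]
  have h1 : (R - r - x) * r < (2 * r + x) * R := by nlinarith
  nlinarith

theorem pf_many_near {R r o : ℝ} (hr : 0 < r) (ho : 0 < o) (hoR : o < R - r)
    (hk : ∀ k : ℕ, Lc o (1 / r) (-(1 / R)) ≠ k * Lc o (1 / r) (1 / r)) :
    ∃ ε : ℝ, 0 < ε ∧ ∀ y : ℝ, |y - o| < ε →
      ∀ k : ℕ, Lc y (1 / r) (-(1 / R)) ≠ k * Lc y (1 / r) (1 / r) := by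
  have hR : 0 < R := by linarith
  have hc1 : ContinuousAt (fun y : ℝ => Lc y (1 / r) (-(1 / R))) o := by
    unfold Lc
    apply ContinuousAt.div
    · fun_prop
    · fun_prop
    · have e2 : 1 / r + -(1 / R) + o * (1 / r) * -(1 / R) = (R - r - o) / (r * R) := by
        field_simp
        ring
      rw [e2]
      apply (Real.sqrt_pos.2 _).ne'
      apply div_pos _ (by positivity)
      linarith
  have hc2 : ContinuousAt (fun y : ℝ => Lc y (1 / r) (1 / r)) o := by
    unfold Lc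
    apply ContinuousAt.div
    · fun_prop
    · fun_prop
    · apply (Real.sqrt_pos.2 _).ne'
      positivity
  have hpos := (pf_many_Lc hr ho hoR).1
  have hc3 : ContinuousAt (fun y : ℝ => Lc y (1 / r) (-(1 / R)) / Lc y (1 / r) (1 / r)) o :=
    hc1.div hc2 hpos.ne'
  have hcl : IsClosed (Set.range ((↑) : ℕ → ℝ)) := Nat.isClosedEmbedding_coe_real.isClosed_range
  have hmem : Lc o (1 / r) (-(1 / R)) / Lc o (1 / r) (1 / r) ∈ (Set.range ((↑) : ℕ → ℝ))ᶜ := by
    rintro ⟨k, hk'⟩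
    apply hk k
    rw [hk', div_mul_cancel₀ _ hpos.ne']
  have hev1 := hc3.eventually_mem (hcl.isOpen_compl.mem_nhds hmem)
  have hev2 := hc2.eventually (lt_mem_nhds hpos)
  obtain ⟨ε, hε, hball⟩ := Metric.eventually_nhds_iff_ball.1 (hev1.and hev2)
  refine ⟨ε, hε, fun y hy k hk' => ?_⟩
  obtain ⟨h1, h2⟩ := hball y (by rwa [Metric.mem_ball, Real.dist_eq])
  apply h1
  exact ⟨k, by rw [hk', mul_div_cancel_right₀ _ h2.ne']⟩

theorem pf_many_image (n : ℕ) (R r : ℝ) (w w' : Fin n → ℂ) (e σ : Equiv.Perm (Fin n))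
    (φ : ℂ ≃ᵢ ℂ) (h0 : φ 0 = 0) (h : ∀ i, φ (w (σ i)) = w' (e i)) :
    φ '' NH n R r 0 w = NH n R r 0 w' := by
  unfold NH
  rw [Set.image_sdiff φ.injective, IsometryEquiv.image_ball, h0, Set.image_iUnion]
  congr 1
  simp only [IsometryEquiv.image_closedBall]
  have h1 : (⋃ i, closedBall (φ (w i)) r) = ⋃ i, closedBall (φ (w (σ i))) r :=
    (σ.surjective.iUnion_comp (fun i => closedBall (φ (w i)) r)).symm
  have h2 : (⋃ i, closedBall (w' i) r) = ⋃ i, closedBall (w' (e i)) r :=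
    (e.surjective.iUnion_comp (fun i => closedBall (w' i) r)).symm
  rw [h1, h2]
  simp only [h]

theorem pf_many (h1 : S_gaps) (h2 : S_rec) (h3 : S_clo) (h4 : S_cgn) (h5 : S_gen) (h6 : S_gop) (h7 : S_par) : S_many := by
  intro Z hZ1 hZ2 hZ3 hZ4 m R r hr hcond
  obtain ⟨a, h, o, ha, hh, hho, ho54, haR, has, hk⟩ := h7 m R r hr hcond
  have ho : 0 < o := lt_trans hh hho
  have hm3 : (0 : ℝ) < (m : ℝ) + 3 := by positivity
  have hδ : (0 : ℝ) < 1 / (2 * ((m : ℝ) + 3)) := by positivity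
  obtain ⟨η1, hη1, hrec⟩ := h2 m R r a h o hr hh hho ho54 haR has _ hδ
  obtain ⟨η2, hη2, hcgn⟩ := h4 m a ha
  obtain ⟨η3, hη3, hgop⟩ := h6 m a ha
  obtain ⟨η4, hη4, hnear⟩ := pf_many_near hr ho (by linarith) hk
  have hs1 : Real.sin (π / ((m : ℝ) + 3)) ≤ 1 := Real.sin_le_one _
  have ha2 : h + 2 * r ≤ 2 * a := by nlinarith
  obtain ⟨η, hη0, hle1, hle2, hle3, hle4, hle5, hle6⟩ : ∃ η : ℝ, 0 < η ∧ η ≤ η1 ∧ η ≤ η2 ∧
      η ≤ η3 ∧ η ≤ η4 ∧ η ≤ h / 1000 ∧ η ≤ (o - h) / 10 := by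
    refine ⟨min (min (min η1 η2) (min η3 η4)) (min (h / 1000) ((o - h) / 10)), ?_, ?_, ?_, ?_, ?_,
      ?_, ?_⟩
    · refine lt_min (lt_min (lt_min hη1 hη2) (lt_min hη3 hη4)) (lt_min (by linarith) (by linarith))
    · exact (min_le_left _ _).trans ((min_le_left _ _).trans (min_le_left _ _))
    · exact (min_le_left _ _).trans ((min_le_left _ _).trans (min_le_right _ _))
    · exact (min_le_left _ _).trans ((min_le_right _ _).trans (min_le_left _ _))
    · exact (min_le_left _ _).trans ((min_le_right _ _).trans (min_le_right _ _))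
    · exact (min_le_right _ _).trans (min_le_left _ _)
    · exact (min_le_right _ _).trans (min_le_right _ _)
  refine ⟨a, η, ha, hη0, fun ε hε => h5 m a ε ha hε, hgop η hη0 hle3, ?_⟩
  intro w hw
  have hnorm : ∀ i, |‖w i‖ - a| < η := pf_many_norm_near m a η ha w hw
  have hdist := pf_many_dist_near m a η ha w hw
  have hlow : ∀ i j : Fin (m + 3), i < j → h + 2 * r - 2 * η < dist (w i) (w j) := by
    intro i j hij
    have e1 := pf_many_rv_ge m i j hij
    have e2 := (abs_lt.1 (hdist i j)).1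
    have e3 : a * (2 * Real.sin (π / ((m : ℝ) + 3))) ≤ a * ‖rv m i - rv m j‖ :=
      mul_le_mul_of_nonneg_left e1 ha.le
    linarith
  have hlow' : ∀ i j : Fin (m + 3), i ≠ j → h + 2 * r - 2 * η < dist (w i) (w j) := by
    intro i j hij
    rcases lt_or_gt_of_ne hij with hl | hl
    · exact hlow i j hl
    · rw [dist_comm]
      exact hlow j i hl
  have hOK : OKn (m + 3) R r w := by
    refine ⟨hr, fun i => ?_, fun i j hij => ?_⟩
    · have := (abs_lt.1 (hnorm i)).2
      linarith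
    · have := hlow' i j hij
      linarith
  refine ⟨hOK, fun hG w' hOK' hZeq => ?_⟩
  have hgaplow : ∀ k, h - 2 * η ≤ hgap r w k := by
    intro k
    have := hlow k.1.1 k.1.2 k.2
    unfold hgap
    linarith
  have hogap : ∀ i, |ogap R r w i - o| < η := by
    intro i
    have e1 := abs_lt.1 (hnorm i)
    unfold ogap
    rw [abs_lt]
    constructor <;> linarith [e1.1, e1.2]
  have hogaplow : ∀ i, h - 2 * η ≤ ogap R r w i := by
    intro i
    have e1 := (abs_lt.1 (hogap i)).1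
    linarith
  have hadj : ∀ k, hgap r w k < 7 / 5 * h → pf_many_adj m k.1.1 k.1.2 := by
    intro k hk'
    by_contra hc
    have e1 := pf_many_rv_nonadj m k.1.1 k.1.2 k.2 hc
    have e2 := (abs_lt.1 (hdist k.1.1 k.1.2)).1
    have e3 : a * (√2 * (2 * Real.sin (π / ((m : ℝ) + 3)))) ≤ a * ‖rv m k.1.1 - rv m k.1.2‖ :=
      mul_le_mul_of_nonneg_left e1 ha.le
    have e4 : a * (√2 * (2 * Real.sin (π / ((m : ℝ) + 3)))) = √2 * (h + 2 * r) := by
      rw [← has]; ring
    have e5 : (141 / 100 : ℝ) ≤ √2 := by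
      rw [Real.le_sqrt' (by norm_num)]
      norm_num
    unfold hgap at hk'
    nlinarith
  have hcore : ∀ x, x < 7 / 5 * h → mu' (hgap r w) x = mu' (hgap r w') x ∧
      mu' (ogap R r w) x = mu' (ogap R r w') x := by
    refine pf_many_core (hgap r w) (hgap r w') (ogap R r w) (ogap R r w')
      (fun x => Lc x (1 / r) (1 / r)) (fun x => Lc x (1 / r) (-(1 / R))) (7 / 5 * h)
      (fun k => ⟨?_, ?_⟩) (fun i => ⟨?_, ?_⟩) (fun x hx0 hxc => ?_) (fun x hxc => ?_)
      (fun i k => ?_) (fun x hx0 hxc hbelow => ?_)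
    · linarith [hgaplow k]
    · have := hOK'.2.2 k.1.1 k.1.2 (ne_of_lt k.2)
      unfold hgap
      linarith
    · linarith [hogaplow i]
    · have := hOK'.2.1 i
      unfold ogap
      linarith
    · exact pf_many_Lc hr hx0 (by linarith)
    · have e1 : mu' (hgap r w) x ≤ 1 := by
        apply pf_many_mu_le
        intro k k' hk1 hk2
        have a1 := hadj k (by rw [hk1]; exact hxc)
        have a2 := hadj k' (by rw [hk2]; exact hxc)
        have a3 : dist (w k.1.1) (w k.1.2) = dist (w k'.1.1) (w k'.1.2) := by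
          unfold hgap at hk1 hk2
          linarith
        rw [pf_many_idx_dist m w _ _ a1, pf_many_idx_dist m w _ _ a2] at a3
        have a4 := hG.2.1 a3
        have a5 := pf_many_idx_inj m _ _ _ _ k.2 k'.2 a1 a2 a4
        exact Subtype.ext (Prod.ext a5.1 a5.2)
      have e2 : mu' (ogap R r w) x ≤ 1 := by
        apply pf_many_mu_le
        intro i j hi hj
        apply hG.1
        unfold ogap at hi hj
        show ‖w i‖ = ‖w j‖
        linarith
      by_contra hc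
      have e3 : mu' (hgap r w) x ≠ 0 := by omega
      have e4 : mu' (ogap R r w) x ≠ 0 := by omega
      obtain ⟨k, hk1⟩ := pf_many_mu_ex _ _ e3
      obtain ⟨i, hi1⟩ := pf_many_mu_ex _ _ e4
      have a1 := hadj k (by rw [hk1]; exact hxc)
      have a2 := (abs_lt.1 (hdist k.1.1 k.1.2)).2
      rw [pf_many_rv_adj m _ _ k.2 a1] at a2
      have a3 := (abs_lt.1 (hogap i)).1
      rw [hi1] at a3
      unfold hgap at hk1
      have a4 : a * (2 * Real.sin (π / ((m : ℝ) + 3))) = h + 2 * r := by linarith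
      rw [a4] at a2
      linarith
    · exact hnear _ (lt_of_lt_of_le (hogap i) hle4) k
    · exact h1 Z hZ1 hZ2 hZ3 hZ4 (m + 3) R r w w' hOK hOK' hZeq (h - 2 * η) hgaplow hogaplow x hx0
        (by linarith) hbelow
  obtain ⟨e, σ, τ, ψ, hNR, hPo, hnn, hdd⟩ := hrec w w'
    (fun i => lt_of_lt_of_le (hw i) hle1) hOK' hcore
  have hNR' : NR m (1 / ((m : ℝ) + 3)) ψ := by
    intro i
    refine (hNR i).trans ?_
    apply div_le_div_of_nonneg_left (by norm_num) hm3
    linarith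
  have hsum := (h3 m (fun i => w' (e i)) ψ hNR' hPo).2
  have hsum' : ∑ i, ang ‖w (σ i)‖ ‖w (σ (i + 1))‖ (dist (w (τ i)) (w (τ i + 1))) = 2 * π := by
    rw [← hsum]
    apply Finset.sum_congr rfl
    intro i _
    rw [hnn i, hnn (i + 1), hdd i]
  have hmatch := hG.2.2 σ τ hsum'
  obtain ⟨φ, hφ0, hφ⟩ := hcgn w w' e σ τ ψ (fun i => lt_of_lt_of_le (hw i) hle2) hNR hPo hnn hdd
    hmatch
  exact ⟨φ, pf_many_image (m + 3) R r w w' e σ φ hφ0 hφ⟩

end Pool.Agent.H212AN
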