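import Pool.Agent.H212AN.E2

set_option autoImplicit false

namespace Pool.Agent.H212AN

open MeasureTheory Set Filter Topology Metric
open Pool.Agent.H212AN.G (nG PG gm gk)
open scoped Real ENNReal ComplexConjugate

theorem pf_om_bdd (τ : ℝ) (y : LR) :
    BddAbove {d : ℝ | ∃ s u : unitInterval, |(s : ℝ) - u| ≤ τ ∧ d = |y s - y u|} := by
  refine ⟨2 * ‖y‖, ?_⟩
  rintro d ⟨s, u, -, rfl⟩
  have h1 : |y s| ≤ ‖y‖ := y.norm_coe_le_norm s
  have h2 : |y u| ≤ ‖y‖ := y.norm_coe_le_norm u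
  have h3 : |y s - y u| ≤ |y s| + |y u| := abs_sub _ _
  linarith

theorem pf_om_le {τ : ℝ} {y : LR} {s u : unitInterval} (h : |(s : ℝ) - u| ≤ τ) :
    |y s - y u| ≤ om τ y := le_csSup (pf_om_bdd τ y) ⟨s, u, h, rfl⟩

theorem pf_om_ne {τ : ℝ} (hτ : 0 ≤ τ) (y : LR) :
    {d : ℝ | ∃ s u : unitInterval, |(s : ℝ) - u| ≤ τ ∧ d = |y s - y u|}.Nonempty :=
  ⟨_, 0, 0, by simpa using hτ, rfl⟩

theorem pf_om_nonneg {τ : ℝ} (hτ : 0 ≤ τ) (y : LR) : 0 ≤ om τ y :=
  (abs_nonneg _).trans (pf_om_le (s := 0) (u := 0) (by simpa using hτ))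

theorem pf_om_csSup_le {τ : ℝ} (hτ : 0 ≤ τ) {y : LR} {c : ℝ}
    (h : ∀ s u : unitInterval, |(s : ℝ) - u| ≤ τ → |y s - y u| ≤ c) : om τ y ≤ c := by
  refine csSup_le (pf_om_ne hτ y) ?_
  rintro d ⟨s, u, hsu, rfl⟩
  exact h s u hsu

theorem pf_om_mono {τ τ' : ℝ} (hτ : 0 ≤ τ) (h : τ ≤ τ') (y : LR) : om τ y ≤ om τ' y :=
  pf_om_csSup_le hτ fun _ _ hsu => pf_om_le (hsu.trans h)

theorem pf_om_lip {τ : ℝ} (hτ : 0 ≤ τ) (y y' : LR) : om τ y ≤ om τ y' + 2 * ‖y - y'‖ := by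
  refine pf_om_csSup_le hτ fun s u hsu => ?_
  have h1 : |(y - y') s| ≤ ‖y - y'‖ := (y - y').norm_coe_le_norm s
  have h2 : |(y - y') u| ≤ ‖y - y'‖ := (y - y').norm_coe_le_norm u
  have h3 := pf_om_le (y := y') hsu
  rw [ContinuousMap.sub_apply] at h1 h2
  have h4 : y s - y u = (y' s - y' u) + ((y s - y' s) - (y u - y' u)) := by ring
  have h5 : |y s - y u| ≤ |y' s - y' u| + (|y s - y' s| + |y u - y' u|) := by
    rw [h4]
    exact (abs_add_le _ _).trans (add_le_add le_rfl (abs_sub _ _))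
  linarith

theorem pf_om_cont {τ : ℝ} (hτ : 0 ≤ τ) : Continuous (om τ) := by
  have h : LipschitzWith 2 (om τ) := by
    refine LipschitzWith.of_dist_le_mul fun y y' => ?_
    rw [Real.dist_eq, dist_eq_norm]
    have h1 := pf_om_lip hτ y y'
    have h2 := pf_om_lip hτ y' y
    rw [norm_sub_rev y' y] at h2
    rw [abs_le]
    constructor
    · push_cast
      linarith
    · push_cast
      linarith
  exact h.continuous

theorem pf_om_tend {τ₁ : ℝ} (hτ : 0 < τ₁) (y : LR) :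
    Tendsto (fun n : ℕ => om (τ₁ / (n + 1)) y) atTop (𝓝 0) := by
  rw [Metric.tendsto_atTop]
  intro ε hε
  have hu := CompactSpace.uniformContinuous_of_continuous y.continuous
  rw [Metric.uniformContinuous_iff] at hu
  obtain ⟨δ, hδ, hδ2⟩ := hu (ε / 2) (by positivity)
  obtain ⟨N, hN⟩ := exists_nat_gt (τ₁ / δ)
  refine ⟨N, fun n hn => ?_⟩
  have hn' : (N : ℝ) ≤ n := by exact_mod_cast hn
  have hpos : (0 : ℝ) < (n : ℝ) + 1 := by positivity
  have h1 : τ₁ / (n + 1) < δ := by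
    rw [div_lt_iff₀ hδ] at hN
    rw [div_lt_iff₀ hpos]
    nlinarith
  have h0 : 0 ≤ τ₁ / (n + 1) := by positivity
  rw [Real.dist_eq, sub_zero, abs_of_nonneg (pf_om_nonneg h0 y)]
  have h2 : om (τ₁ / (n + 1)) y ≤ ε / 2 := by
    refine pf_om_csSup_le h0 fun s u hsu => ?_
    have h3 : dist s u < δ := by
      rw [Subtype.dist_eq, Real.dist_eq]
      exact lt_of_le_of_lt hsu h1
    have h4 := hδ2 h3
    rw [Real.dist_eq] at h4
    exact h4.le
  linarith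

/-- the tail of the modulus of continuity -/
theorem pf_om_tail (h1 : S_gt) (μ : Measure Lo) (ν : Measure LR) (hμ : IsLoop μ) (hν : IsBr μ ν)
    {τ : ℝ} (hτ : 0 < τ) : ∃ C : ℝ, 0 ≤ C ∧ ∀ L : ℝ, 0 < L →
      ν {y : LR | L ≤ om τ y} ≤ ENNReal.ofReal (C * Real.exp (-(L ^ 2 / (32 * τ)))) := by
  obtain ⟨C, hC⟩ := h1 μ ν hμ hν 2 ![1, -1] {p | |((p 0 : unitInterval) : ℝ) - p 1| ≤ τ} (2 * τ)
    (1 / 2) (isClosed_le (by fun_prop) continuous_const) (by positivity) (by norm_num)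
    (by norm_num) (by
      intro p hp
      have hp' : |((p 0 : unitInterval) : ℝ) - p 1| ≤ τ := hp
      simp only [Fin.sum_univ_two, Matrix.cons_val_zero, Matrix.cons_val_one, min_self]
      obtain ⟨s, hs⟩ : ∃ s : ℝ, s = ((p 0 : unitInterval) : ℝ) := ⟨_, rfl⟩
      obtain ⟨u, hu⟩ : ∃ u : ℝ, u = ((p 1 : unitInterval) : ℝ) := ⟨_, rfl⟩
      rw [← hs, ← hu] at hp' ⊢
      rw [abs_le] at hp'
      rcases le_total s u with h | h
      · rw [min_eq_left h, min_eq_right h]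
        nlinarith [sq_nonneg (s - u)]
      · rw [min_eq_right h, min_eq_left h]
        nlinarith [sq_nonneg (s - u)])
  refine ⟨max C 0, le_max_right _ _, fun L hL => ?_⟩
  have h2 := hC (L / 2) (by positivity)
  have h3 : {y : LR | L ≤ om τ y} ⊆
      {y : LR | ∃ p ∈ {p : Fin 2 → unitInterval | |((p 0 : unitInterval) : ℝ) - p 1| ≤ τ},
        L / 2 ≤ ∑ i, (![1, -1] : Fin 2 → ℝ) i * y (p i)} := by
    intro y hy
    have hy' : L ≤ om τ y := hy
    obtain ⟨d, ⟨s, u, hsu, rfl⟩, hd⟩ := exists_lt_of_lt_csSup (pf_om_ne hτ.le y)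
      (show L / 2 < om τ y by linarith)
    rcases le_abs.1 hd.le with h | h
    · refine ⟨![s, u], by simpa using hsu, ?_⟩
      simp only [Fin.sum_univ_two, Matrix.cons_val_zero, Matrix.cons_val_one]
      linarith
    · refine ⟨![u, s], ?_, ?_⟩
      · rw [abs_sub_comm] at hsu
        simpa using hsu
      · simp only [Fin.sum_univ_two, Matrix.cons_val_zero, Matrix.cons_val_one]
        linarith
  refine (measure_mono h3).trans (h2.trans (ENNReal.ofReal_le_ofReal ?_))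
  have h4 : 1 / 2 * (L / 2) ^ 2 / (2 * (2 * τ)) = L ^ 2 / (32 * τ) := by
    field_simp
    ring
  rw [h4]
  exact mul_le_mul_of_nonneg_right (le_max_left _ _) (Real.exp_pos _).le

/-- the exponential moment is finite -/
theorem pf_om_fin (h1 : S_gt) (μ : Measure Lo) (ν : Measure LR) (hμ : IsLoop μ) (hν : IsBr μ ν)
    {C : ℝ} (hC : 0 < C) : ∃ τ : ℝ, 0 < τ ∧
      ∫⁻ y, ENNReal.ofReal (Real.exp (C * om τ y ^ 2)) ∂ν ≠ ∞ := by
  have hprob := hν.prob
  obtain ⟨τ, hτdef⟩ : ∃ τ : ℝ, τ = 1 / (32 * (2 * C + 1)) := ⟨_, rfl⟩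
  have hτ : 0 < τ := by rw [hτdef]; positivity
  have hA : ∀ L : ℝ, L ^ 2 / (32 * τ) = (2 * C + 1) * L ^ 2 := by
    intro L
    rw [hτdef]
    field_simp
  obtain ⟨C₁, hC₁, htail⟩ := pf_om_tail h1 μ ν hμ hν hτ
  refine ⟨τ, hτ, ?_⟩
  -- bound by a series
  have hmeas : ∀ n : ℕ, MeasurableSet {y : LR | (n : ℝ) ≤ om τ y} := fun n =>
    (isClosed_le continuous_const (pf_om_cont hτ.le)).measurableSet
  have hb : ∀ y : LR, ENNReal.ofReal (Real.exp (C * om τ y ^ 2)) ≤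
      ∑' n : ℕ, {y : LR | (n : ℝ) ≤ om τ y}.indicator
        (fun _ => ENNReal.ofReal (Real.exp (C * ((n : ℝ) + 1) ^ 2))) y := by
    intro y
    have h0 := pf_om_nonneg hτ.le y
    refine le_trans ?_ (ENNReal.le_tsum ⌊om τ y⌋₊)
    have hmem : y ∈ {y : LR | ((⌊om τ y⌋₊ : ℕ) : ℝ) ≤ om τ y} := Nat.floor_le h0
    have hind : {z : LR | ((⌊om τ y⌋₊ : ℕ) : ℝ) ≤ om τ z}.indicator
        (fun _ => ENNReal.ofReal (Real.exp (C * (((⌊om τ y⌋₊ : ℕ) : ℝ) + 1) ^ 2))) y =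
        ENNReal.ofReal (Real.exp (C * (((⌊om τ y⌋₊ : ℕ) : ℝ) + 1) ^ 2)) :=
      Set.indicator_of_mem (show y ∈ {z : LR | ((⌊om τ y⌋₊ : ℕ) : ℝ) ≤ om τ z} from hmem) _
    rw [hind]
    refine ENNReal.ofReal_le_ofReal (Real.exp_le_exp.2 ?_)
    refine mul_le_mul_of_nonneg_left ?_ hC.le
    have h2 := (Nat.lt_floor_add_one (om τ y)).le
    exact pow_le_pow_left₀ h0 h2 2
  have hsum : ∫⁻ y, ENNReal.ofReal (Real.exp (C * om τ y ^ 2)) ∂ν ≤
      ∑' n : ℕ, ENNReal.ofReal (Real.exp (C * ((n : ℝ) + 1) ^ 2)) *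
        ν {y : LR | (n : ℝ) ≤ om τ y} := by
    refine (lintegral_mono hb).trans ?_
    rw [lintegral_tsum fun n => (measurable_const.indicator (hmeas n)).aemeasurable]
    refine ENNReal.tsum_le_tsum fun n => ?_
    rw [lintegral_indicator_const (hmeas n)]
  -- each term
  have hterm : ∀ n : ℕ, ENNReal.ofReal (Real.exp (C * ((n : ℝ) + 1) ^ 2)) *
      ν {y : LR | (n : ℝ) ≤ om τ y} ≤
      ENNReal.ofReal (((C₁ + 1) * Real.exp (2 * C)) * Real.exp (-(n : ℝ))) := by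
    intro n
    rcases Nat.eq_zero_or_pos n with rfl | hn
    · refine (mul_le_mul' le_rfl prob_le_one).trans ?_
      rw [mul_one]
      refine ENNReal.ofReal_le_ofReal ?_
      have h3 : Real.exp (C * (((0 : ℕ) : ℝ) + 1) ^ 2) ≤ Real.exp (2 * C) :=
        Real.exp_le_exp.2 (by push_cast; nlinarith)
      have h4 := Real.exp_pos (2 * C)
      push_cast at h3 ⊢
      rw [neg_zero, Real.exp_zero, mul_one]
      nlinarith
    · have hn' : (1 : ℝ) ≤ n := by exact_mod_cast hn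
      refine (mul_le_mul' le_rfl (htail n (by linarith))).trans ?_
      rw [← ENNReal.ofReal_mul (Real.exp_pos _).le, hA]
      refine ENNReal.ofReal_le_ofReal ?_
      have h3 : Real.exp (C * ((n : ℝ) + 1) ^ 2) * (C₁ * Real.exp (-((2 * C + 1) * (n : ℝ) ^ 2))) =
          C₁ * Real.exp (C * ((n : ℝ) + 1) ^ 2 + -((2 * C + 1) * (n : ℝ) ^ 2)) := by
        rw [Real.exp_add]
        ring
      have h4 : Real.exp (C * ((n : ℝ) + 1) ^ 2 + -((2 * C + 1) * (n : ℝ) ^ 2)) ≤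
          Real.exp (2 * C + -(n : ℝ)) := by
        refine Real.exp_le_exp.2 ?_
        have h5 : 0 ≤ C * ((n : ℝ) - 1) ^ 2 := by positivity
        nlinarith
      rw [h3]
      calc C₁ * Real.exp (C * ((n : ℝ) + 1) ^ 2 + -((2 * C + 1) * (n : ℝ) ^ 2))
          ≤ (C₁ + 1) * Real.exp (2 * C + -(n : ℝ)) :=
            mul_le_mul (by linarith) h4 (Real.exp_pos _).le (by linarith)
        _ = (C₁ + 1) * Real.exp (2 * C) * Real.exp (-(n : ℝ)) := by
            rw [Real.exp_add]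
            ring
  have hfin : ∑' n : ℕ, ENNReal.ofReal (((C₁ + 1) * Real.exp (2 * C)) * Real.exp (-(n : ℝ))) ≠
      ∞ := by
    have hs : Summable fun n : ℕ => ((C₁ + 1) * Real.exp (2 * C)) * Real.exp (-(n : ℝ)) := by
      refine Summable.mul_left _ ?_
      have h6 : (fun n : ℕ => Real.exp (-(n : ℝ))) = fun n : ℕ => (Real.exp (-1)) ^ n := by
        funext n
        rw [← Real.exp_nat_mul]
        congr 1
        ring
      rw [h6]
      exact summable_geometric_of_lt_one (Real.exp_pos _).le (Real.exp_lt_one_iff.2 (by norm_num))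
    rw [← ENNReal.ofReal_tsum_of_nonneg (fun n => by positivity) hs]
    exact ENNReal.ofReal_ne_top
  exact ne_top_of_le_ne_top hfin (hsum.trans (ENNReal.tsum_le_tsum hterm))

theorem pf_om (h1 : S_gt) : S_om := by
  intro μ ν hμ hν C ε hC hε
  have hprob := hν.prob
  obtain ⟨τ₁, hτ₁, hfin⟩ := pf_om_fin h1 μ ν hμ hν hC
  have hpos : ∀ n : ℕ, 0 < τ₁ / ((n : ℝ) + 1) := fun n => by positivity
  have hle : ∀ n : ℕ, τ₁ / ((n : ℝ) + 1) ≤ τ₁ := fun n =>
    div_le_self hτ₁.le (by have : (0 : ℝ) ≤ n := Nat.cast_nonneg n; linarith)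
  have hlim : Tendsto (fun n : ℕ => ∫⁻ y, ENNReal.ofReal
      (Real.exp (C * om (τ₁ / ((n : ℝ) + 1)) y ^ 2)) ∂ν) atTop (𝓝 (∫⁻ _ : LR, 1 ∂ν)) := by
    refine tendsto_lintegral_of_dominated_convergence
      (fun y => ENNReal.ofReal (Real.exp (C * om τ₁ y ^ 2))) ?_ ?_ hfin ?_
    · intro n
      have hc := pf_om_cont (hpos n).le
      exact (Real.continuous_exp.comp (continuous_const.mul (hc.pow 2))).measurable.ennreal_ofReal
    · intro n
      refine ae_of_all _ fun y => ENNReal.ofReal_le_ofReal (Real.exp_le_exp.2 ?_)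
      exact mul_le_mul_of_nonneg_left
        (pow_le_pow_left₀ (pf_om_nonneg (hpos n).le y) (pf_om_mono (hpos n).le (hle n) y) 2) hC.le
    · refine ae_of_all _ fun y => ?_
      have h2 := pf_om_tend hτ₁ y
      have h3 : Tendsto (fun n : ℕ => Real.exp (C * om (τ₁ / ((n : ℝ) + 1)) y ^ 2)) atTop
          (𝓝 (Real.exp (C * 0 ^ 2))) :=
        (Real.continuous_exp.tendsto _).comp ((h2.pow 2).const_mul C)
      have h4 := (ENNReal.continuous_ofReal.tendsto _).comp h3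
      have h5 : ENNReal.ofReal (Real.exp (C * 0 ^ 2)) = 1 := by simp
      rw [h5] at h4
      exact h4
  have h1' : ∫⁻ _ : LR, 1 ∂ν < ENNReal.ofReal (1 + ε) := by
    rw [lintegral_one, measure_univ, ← ENNReal.ofReal_one]
    exact (ENNReal.ofReal_lt_ofReal_iff (by linarith)).2 (by linarith)
  obtain ⟨n, hn⟩ := (hlim.eventually_lt_const h1').exists
  refine ⟨τ₁ / ((n : ℝ) + 1), hpos n, ?_⟩
  intro τ hτ hτ2
  refine le_trans (lintegral_mono fun y => ?_) hn.le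
  refine ENNReal.ofReal_le_ofReal (Real.exp_le_exp.2 ?_)
  exact mul_le_mul_of_nonneg_left
    (pow_le_pow_left₀ (pf_om_nonneg hτ.le y) (pf_om_mono hτ.le hτ2 y) 2) hC.le

end Pool.Agent.H212AN
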