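import Pool.Agent.H212AN.E3

set_option autoImplicit false

namespace Pool.Agent.H212AN

open MeasureTheory Set Filter Topology Metric
open Pool.Agent.H212AN.G (nG PG gm gk)
open scoped Real ENNReal ComplexConjugate

theorem pf_par_eq {R r o : ℝ} {k : ℕ} (hr : 0 < r) (hR : 0 < R) (ho : 0 < o) (ha : 0 < R - r - o)
    (h : Lc o (1 / r) (-(1 / R)) = k * Lc o (1 / r) (1 / r)) :
    (2 * r + o) * R = (k : ℝ) ^ 2 * (r * (R - r - o)) := by
  have e1 : (1 / r + 1 / r + o * (1 / r) * (1 / r)) * (r ^ 2 * R) = (2 * r + o) * R := by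
    field_simp
    ring
  have e2 : (1 / r + -(1 / R) + o * (1 / r) * (-(1 / R))) * (r ^ 2 * R) = r * (R - r - o) := by
    field_simp
    ring
  have hp : 0 < r ^ 2 * R := by positivity
  have q1 : 0 < 1 / r + 1 / r + o * (1 / r) * (1 / r) := by positivity
  have q2 : 0 < 1 / r + -(1 / R) + o * (1 / r) * (-(1 / R)) := by
    have : 0 < r * (R - r - o) := mul_pos hr ha
    rw [← e2] at this
    exact (pos_iff_pos_of_mul_pos this).2 hp
  rw [← e1, ← e2]
  set Q1 := 1 / r + 1 / r + o * (1 / r) * (1 / r) with hQ1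
  set Q2 := 1 / r + -(1 / R) + o * (1 / r) * (-(1 / R)) with hQ2
  unfold Lc at h
  rw [← hQ1, ← hQ2] at h
  have s1 : 0 < √Q1 := Real.sqrt_pos.2 q1
  have s2 : 0 < √Q2 := Real.sqrt_pos.2 q2
  have s3 : 0 < √(π * o) := Real.sqrt_pos.2 (by positivity)
  have h1 : √Q1 = k * √Q2 := by
    have h2 : (2 * √(π * o)) * √Q1 = (2 * √(π * o)) * (k * √Q2) := by
      rw [div_eq_iff s2.ne'] at h
      have h3 : k * (2 * √(π * o) / √Q1) * √Q2 * √Q1 = k * (2 * √(π * o)) * √Q2 := by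
        field_simp
      calc (2 * √(π * o)) * √Q1 = k * (2 * √(π * o) / √Q1) * √Q2 * √Q1 := by rw [← h]
        _ = _ := by rw [h3]; ring
    exact mul_left_cancel₀ (by positivity) h2
  have h4 : Q1 = (k : ℝ) ^ 2 * Q2 := by
    rw [← Real.sq_sqrt q1.le, h1, mul_pow, Real.sq_sqrt q2.le]
  rw [h4]
  ring

theorem pf_par : S_par := by
  intro m R r hr H
  set s := Real.sin (π / ((m : ℝ) + 3)) with hs
  have hm : (0 : ℝ) ≤ m := Nat.cast_nonneg m
  have hspos : 0 < s := by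
    apply Real.sin_pos_of_pos_of_lt_pi
    · positivity
    · rw [div_lt_iff₀ (by positivity)]
      nlinarith [Real.pi_pos]
  have hrR : r < R := by
    by_contra h
    rw [not_lt] at h
    nlinarith
  have hR : 0 < R := hr.trans hrR
  set D := 2 * s * (R - r) - 2 * r with hDdef
  have hD : 0 < D := by
    rw [hDdef]
    nlinarith
  -- the parameters
  let hh : ℝ → ℝ := fun κ => D / (1 + 2 * s * κ)
  have hden : ∀ κ ∈ Ioo (1 : ℝ) (5 / 4), 0 < 1 + 2 * s * κ := by
    intro κ hκ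
    have := hκ.1
    positivity
  have hhpos : ∀ κ ∈ Ioo (1 : ℝ) (5 / 4), 0 < hh κ := fun κ hκ => div_pos hD (hden κ hκ)
  have hheq : ∀ κ ∈ Ioo (1 : ℝ) (5 / 4), hh κ + 2 * s * (κ * hh κ) = D := by
    intro κ hκ
    have h1 : hh κ * (1 + 2 * s * κ) = D := div_mul_cancel₀ D (hden κ hκ).ne'
    linarith
  have hapos : ∀ κ ∈ Ioo (1 : ℝ) (5 / 4), 0 < R - r - κ * hh κ := by
    intro κ hκ
    have h1 := hheq κ hκ
    have h2 := hhpos κ hκ
    have h3 : 0 < 2 * s * (R - r - κ * hh κ) := by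
      have : 2 * s * (R - r - κ * hh κ) = hh κ + 2 * r := by
        rw [hDdef] at h1
        linarith
      rw [this]
      positivity
    exact (pos_iff_pos_of_mul_pos h3).1 (by positivity)
  have key : ∃ κ ∈ Ioo (1 : ℝ) (5 / 4), ∀ k : ℕ,
      Lc (κ * hh κ) (1 / r) (-(1 / R)) ≠ k * Lc (κ * hh κ) (1 / r) (1 / r) := by
    by_contra hcon
    push Not at hcon
    classical
    let f : ℝ → ℕ := fun κ => if h : ∃ k : ℕ,
      Lc (κ * hh κ) (1 / r) (-(1 / R)) = k * Lc (κ * hh κ) (1 / r) (1 / r) then h.choose else 0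
    have hf : ∀ κ ∈ Ioo (1 : ℝ) (5 / 4),
        Lc (κ * hh κ) (1 / r) (-(1 / R)) = (f κ : ℕ) * Lc (κ * hh κ) (1 / r) (1 / r) := by
      intro κ hκ
      have h := hcon κ hκ
      have h1 : f κ = h.choose := by
        simp only [f]
        rw [dif_pos h]
      rw [h1]
      exact h.choose_spec
    have hinj : InjOn f (Ioo (1 : ℝ) (5 / 4)) := by
      intro κ hκ κ' hκ' he
      have h1 := pf_par_eq hr hR (mul_pos (by linarith [hκ.1]) (hhpos κ hκ)) (hapos κ hκ)
        (hf κ hκ)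
      have h2 := pf_par_eq hr hR (mul_pos (by linarith [hκ'.1]) (hhpos κ' hκ')) (hapos κ' hκ')
        (hf κ' hκ')
      rw [← he] at h2
      have h3 : (R + (f κ : ℝ) ^ 2 * r) * (κ * hh κ) = (R + (f κ : ℝ) ^ 2 * r) * (κ' * hh κ') := by
        linear_combination h1 - h2
      have h4 : κ * hh κ = κ' * hh κ' := mul_left_cancel₀ (by positivity) h3
      have h5 := hheq κ hκ
      have h6 := hheq κ' hκ'
      rw [h4] at h5
      have h7 : hh κ = hh κ' := by linarith
      rw [h7] at h4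
      exact mul_right_cancel₀ (hhpos κ' hκ').ne' h4
    have hc : (Ioo (1 : ℝ) (5 / 4)).Countable := Set.countable_iff_exists_injOn.2 ⟨f, hinj⟩
    have h0 := hc.measure_zero volume
    rw [Real.volume_Ioo] at h0
    have h1 := ENNReal.ofReal_eq_zero.1 h0
    norm_num at h1
  obtain ⟨κ, hκ, hk⟩ := key
  have h2 := hhpos κ hκ
  have h1 := hheq κ hκ
  refine ⟨R - r - κ * hh κ, hh κ, κ * hh κ, hapos κ hκ, h2, ?_, ?_, rfl, ?_, hk⟩
  · nlinarith [hκ.1]
  · nlinarith [hκ.2]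
  · rw [hDdef] at h1
    linarith

end Pool.Agent.H212AN
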