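import Pool.Agent.H212AN.E2

set_option autoImplicit false

namespace Pool.Agent.H212AN

open MeasureTheory Set Filter Topology Metric
open Pool.Agent.H212AN.G (nG PG gm gk)
open scoped Real ENNReal ComplexConjugate

/- PLAIN PROOF.
[Context: E2.lean. The planar Brownian loop b = jn X Y (real part X, imaginary part Y) with E b_s real and imaginary parts of covariance 2(min(s,u) - su); file G0 has the
discrete loop (PG s M, gm), D1 the continuous loop (IsLoop), D3 has EV, ZUp, ZLo, S_tr, E1 has hit, Q2, S_up.]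

Let gR s be the real Gaussian measure volume.withDensity (fun x => ENNReal.ofReal (exp(-(x²/(4s)))/√(4πs))). As gk s z = exp(-‖z‖²/4s)/(4πs) is the product of the densities of re z and im z,
nG s = (gR s).prod (gR s) mapped by (x,y) ↦ x + y i (Complex.measurableEquivRealProd / Complex.volume_preserving_equiv_real_prod), so PG s M is the image of (Measure.pi (gR s)).prod (Measure.pi (gR s)) under
(x,y) ↦ (x_l + y_l i)_l (Measure.pi_eq or MeasureTheory.Measure.pi + measurePreserving; or compare characteristic rectangles). gm is real-linear and commutes with taking real parts: gm X r =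
(gmR x r) + i (gmR y r), gmR x r = Σ_{l<r} x_l - (r/M) Σ x_l.
Let ν = μ.map (fun b => ⟨fun s => (b s).re, _⟩ : Lo → LR) (continuous map, so measurable). Probability measure; ν.map(real grid m) = law of (gmR x r)_r under pi (gR (1/(m+1))) by IsLoop.marg.
prod: the measure μ' = (ν.prod ν).map jn on Lo (jn is continuous in both arguments; LR is second countable, so the product σ-algebra is the Borel σ-algebra of the product; Measurable by continuity) has
μ'.map (grid m) = image of (ν.map gridR).prod (ν.map gridR) = image of the product of the two laws of gmR = law of gm = μ.map (grid m) (Measure.map_prod_map). So μ = μ' by S_uniq.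
zero: S_end and prod/map. (b 0 = 0 → re = 0.)
half: grid m = 1 (times 0 and 1/2): real part of gm X 1 = x_0 - (x_0+x_1)/2 = (x_0 - x_1)/2 with x_i independent of density exp(-x²/2)/√(2π) (s = 1/2): its density is exp(-x²)/√π (compute with the
linear change of variables, or via Mathlib's gaussianReal: gaussianReal_map_const_mul, gaussianReal_add/conv for independent variables, variance 1/4+1/4 = 1/2; gaussianReal 0 (1/2) has the density above). gpt 1 1 = hf.
cyc: For two probability measures on LR with the same real grid marginals for all m the measures are equal: map them to Lo by y ↦ (s ↦ (y s : ℂ)), use S_uniq, and come back with re. So it suffices to know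
F(rot h y) in law = F(y) for grid functions F. First h = j/(m+1) rational, and finer grids: for a grid m' with (m'+1) a multiple of (m+1), the grid of rot h y is (for closed y with y 0 = y 1 = 0, a.s.) the
vector gmR of the cyclically shifted increments, and Measure.pi of identical factors is invariant under the permutation of coordinates (measurePreserving_piCongrLeft / MeasureTheory.volume_measurePreserving... ). So ν.map(rot h) and ν have
the same marginals on all grids m' + 1 ∈ (m+1)ℕ, hence on all grids (every grid m' + 1 is contained in the grid (m+1)(m'+1)). General h: choose rational h_n → h of this type; rot h_n y → rot h y in C([0,1]) for every y with y 0 = y 1 (uniform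
continuity), so for bounded continuous F, ∫F(rot h y)dν = lim ∫F(rot h_n y) dν = ∫F dν; finite Borel measures on a metric space are determined by bounded continuous functions (ext_of_forall_integral_eq_of_IsFiniteMeasure).
-/
/-- covariance -/
noncomputable def pf_pc_K (s u : ℝ) : ℝ := 2 * (min s u - s * u)

open Pool.Agent.H212AN.G (ip ip_cont ip_sum_right ip_sum_left ip_smul_right ip_smul_left sg mn
  gm_eq mgf_PG PG_prob gm_cont ip_self) in
/-- characteristic functions of linear functionals -/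
theorem pf_pc_char {s : ℝ} (hs : 0 < s) (M : ℕ) (w : Fin M → ℂ) :
    ∫ x, Complex.exp (Complex.I * ((∑ i, ip (w i) (x i) : ℝ) : ℂ)) ∂(PG s M) =
      Complex.exp (-((s * ∑ i, ‖w i‖ ^ 2 : ℝ) : ℂ)) := by
  have hP := PG_prob hs M
  set X : (Fin M → ℂ) → ℝ := fun x => ∑ i, ip (w i) (x i) with hX
  have hXc : Continuous X := by
    refine continuous_finsetSum _ fun i _ => (ip_cont (w i)).comp (continuous_apply i)
  obtain ⟨v, hv⟩ : ∃ v : NNReal, (v : ℝ) = 2 * s * ∑ i, ‖w i‖ ^ 2 :=
    ⟨⟨2 * s * ∑ i, ‖w i‖ ^ 2, by positivity⟩, rfl⟩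
  have hlin : ∀ t : ℝ, ∫⁻ x, ENNReal.ofReal (Real.exp (t * X x)) ∂(PG s M) =
      ENNReal.ofReal (Real.exp (s * ∑ i, ‖w i‖ ^ 2 * t ^ 2)) := by
    intro t
    have h := mgf_PG hs M (fun i => ((t : ℝ) : ℂ) * w i)
    simp only [ip_smul_left, norm_mul, Complex.norm_real, mul_pow, Real.norm_eq_abs, sq_abs] at h
    rw [← Finset.sum_congr rfl fun i _ => mul_comm (t ^ 2) (‖w i‖ ^ 2), ← h]
    simp only [hX, Finset.mul_sum]
  have hint : ∀ t : ℝ, Integrable (fun x => Real.exp (t * X x)) (PG s M) := by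
    intro t
    refine ⟨(by fun_prop : Continuous fun x => Real.exp (t * X x)).aestronglyMeasurable, ?_⟩
    rw [hasFiniteIntegral_iff_ofReal (Eventually.of_forall fun x => (Real.exp_pos _).le), hlin]
    exact ENNReal.ofReal_lt_top
  have hmgf : ProbabilityTheory.mgf X (PG s M) =
      ProbabilityTheory.mgf id (ProbabilityTheory.gaussianReal 0 v) := by
    funext t
    rw [ProbabilityTheory.mgf_gaussianReal (p := ProbabilityTheory.gaussianReal 0 v) (X := id)
      Measure.map_id]
    unfold ProbabilityTheory.mgf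
    rw [integral_eq_lintegral_of_nonneg_ae (Eventually.of_forall fun x => (Real.exp_pos _).le)
      (hint t).1, hlin, ENNReal.toReal_ofReal (Real.exp_pos _).le]
    congr 1
    rw [hv, ← Finset.sum_mul]
    ring
  have hset : ProbabilityTheory.integrableExpSet X (PG s M) = univ := by
    ext t
    simp only [ProbabilityTheory.integrableExpSet, mem_ofPred_eq, mem_univ, iff_true]
    exact hint t
  have hc := ProbabilityTheory.eqOn_complexMGF_of_mgf hmgf
  rw [hset, interior_univ] at hc
  have h1 := hc (x := Complex.I) (by simp)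
  rw [ProbabilityTheory.complexMGF_id_gaussianReal] at h1
  unfold ProbabilityTheory.complexMGF at h1
  rw [h1]
  congr 1
  have hv' : ((v : NNReal) : ℂ) = ((2 * s * ∑ i, ‖w i‖ ^ 2 : ℝ) : ℂ) := by
    rw [← hv]
  rw [Complex.I_sq, hv']
  push_cast
  ring

/-- weights -/
noncomputable def pf_pc_th (M j l : ℕ) : ℝ := (if l < j then 1 else 0) - (j : ℝ) / M

theorem pf_pc_cnt {M j : ℕ} (hj : j ≤ M) :
    ∑ l : Fin M, (if l.val < j then (1 : ℝ) else 0) = j := by
  rw [← Finset.sum_filter, Finset.sum_const, nsmul_eq_mul, Fin.card_filter_val_lt, min_eq_right hj,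
    mul_one]

theorem pf_pc_th_sum {M j k : ℕ} (hM : 0 < M) (hj : j ≤ M) (hk : k ≤ M) :
    ∑ l : Fin M, pf_pc_th M j l * pf_pc_th M k l = min (j : ℝ) k - (j : ℝ) * k / M := by
  have hM' : (M : ℝ) ≠ 0 := by positivity
  have e : ∀ l : Fin M, pf_pc_th M j l * pf_pc_th M k l =
      (if l.val < min j k then (1 : ℝ) else 0) - (k : ℝ) / M * (if l.val < j then (1 : ℝ) else 0) -
        (j : ℝ) / M * (if l.val < k then (1 : ℝ) else 0) + (j : ℝ) / M * (k / M) := by
    intro l
    unfold pf_pc_th
    by_cases h1 : l.val < j <;> by_cases h2 : l.val < k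
    · have h3 : l.val < min j k := lt_min h1 h2
      simp only [h1, h2, h3, if_true]; ring
    · have h3 : ¬ l.val < min j k := fun h => h2 (h.trans_le (min_le_right _ _))
      simp only [h1, h2, h3, if_true, if_false]; ring
    · have h3 : ¬ l.val < min j k := fun h => h1 (h.trans_le (min_le_left _ _))
      simp only [h1, h2, h3, if_true, if_false]; ring
    · have h3 : ¬ l.val < min j k := fun h => h1 (h.trans_le (min_le_left _ _))
      simp only [h1, h2, h3, if_false]; ring
  rw [Finset.sum_congr rfl fun l _ => e l]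
  rw [Finset.sum_add_distrib, Finset.sum_sub_distrib, Finset.sum_sub_distrib, ← Finset.mul_sum,
    ← Finset.mul_sum, pf_pc_cnt hj, pf_pc_cnt hk, pf_pc_cnt ((min_le_left j k).trans hj),
    Finset.sum_const, Finset.card_univ, Fintype.card_fin, nsmul_eq_mul]
  push_cast
  field_simp
  ring

open Pool.Agent.H212AN.G (ip ip_cont ip_sum_right ip_sum_left ip_smul_right ip_smul_left sg mn
  gm_eq mgf_PG PG_prob gm_cont ip_self ip_sub_right) in
theorem pf_pc_gm {M : ℕ} (x : Fin M → ℂ) {r : ℕ} (hr : r ≤ M) :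
    gm x r = ∑ l : Fin M, ((pf_pc_th M r l : ℝ) : ℂ) * x l := by
  rw [gm_eq x hr]
  unfold sg mn pf_pc_th
  have e : ∀ l : Fin M, ((((if l.val < r then (1:ℝ) else 0) - (r : ℝ) / M : ℝ)) : ℂ) * x l =
      (if l.val < r then x l else 0) - (r : ℂ) / M * x l := by
    intro l
    split_ifs <;> push_cast <;> ring
  rw [Finset.sum_congr rfl fun l _ => e l, Finset.sum_sub_distrib, ← Finset.mul_sum]
  ring

open Pool.Agent.H212AN.G (ip ip_cont ip_sum_right ip_sum_left ip_smul_right ip_smul_left sg mn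
  gm_eq mgf_PG PG_prob gm_cont ip_self) in
/-- linear functionals of the discrete loop -/
theorem pf_pc_lin {ι : Type} [Fintype ι] {M : ℕ} (w : ι → ℂ) (ρ : ι → ℕ) (hρ : ∀ k, ρ k ≤ M)
    (x : Fin M → ℂ) : ∑ k, ip (w k) (gm x (ρ k)) =
      ∑ l : Fin M, ip (∑ k, ((pf_pc_th M (ρ k) l : ℝ) : ℂ) * w k) (x l) := by
  have e : ∀ k, ip (w k) (gm x (ρ k)) = ∑ l : Fin M, pf_pc_th M (ρ k) l * ip (w k) (x l) := by
    intro k
    rw [pf_pc_gm x (hρ k), ip_sum_right]
    exact Finset.sum_congr rfl fun l _ => ip_smul_right _ _ _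
  have e2 : ∀ l : Fin M, ip (∑ k, ((pf_pc_th M (ρ k) l : ℝ) : ℂ) * w k) (x l) =
      ∑ k, pf_pc_th M (ρ k) l * ip (w k) (x l) := by
    intro l
    rw [ip_sum_left]
    exact Finset.sum_congr rfl fun k _ => ip_smul_left _ _ _
  rw [Finset.sum_congr rfl fun k _ => e k, Finset.sum_congr rfl fun l _ => e2 l]
  exact Finset.sum_comm

open Pool.Agent.H212AN.G (ip ip_cont ip_sum_right ip_sum_left ip_smul_right ip_smul_left sg mn
  gm_eq mgf_PG PG_prob gm_cont ip_self) in
theorem pf_pc_var {ι : Type} [Fintype ι] {M : ℕ} (hM : 0 < M) (w : ι → ℂ) (ρ : ι → ℕ)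
    (hρ : ∀ k, ρ k ≤ M) :
    (1 / (M : ℝ)) * ∑ l : Fin M, ‖∑ k, ((pf_pc_th M (ρ k) l : ℝ) : ℂ) * w k‖ ^ 2 =
      1 / 2 * ∑ j, ∑ k, ip (w j) (w k) * pf_pc_K ((ρ j : ℝ) / M) ((ρ k : ℝ) / M) := by
  have hM' : (0 : ℝ) < M := by exact_mod_cast hM
  have e : ∀ l : Fin M, ‖∑ k, ((pf_pc_th M (ρ k) l : ℝ) : ℂ) * w k‖ ^ 2 =
      ∑ j, ∑ k, ip (w j) (w k) * (pf_pc_th M (ρ j) l * pf_pc_th M (ρ k) l) := by
    intro l
    rw [← ip_self, ip_sum_left]
    refine Finset.sum_congr rfl fun j _ => ?_
    rw [ip_sum_right]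
    refine Finset.sum_congr rfl fun k _ => ?_
    rw [ip_smul_left, ip_smul_right]
    ring
  rw [Finset.sum_congr rfl fun l _ => e l, Finset.sum_comm, Finset.mul_sum, Finset.mul_sum]
  refine Finset.sum_congr rfl fun j _ => ?_
  rw [Finset.sum_comm, Finset.mul_sum, Finset.mul_sum]
  refine Finset.sum_congr rfl fun k _ => ?_
  rw [← Finset.mul_sum, pf_pc_th_sum hM (hρ j) (hρ k)]
  unfold pf_pc_K
  rw [min_div_div_right hM'.le]
  field_simp

open Pool.Agent.H212AN.G (ip ip_cont PG_prob gm_cont) in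
/-- characteristic function of the values on a grid -/
theorem pf_pc_grid {μ : Measure Lo} (hμ : IsLoop μ) {ι : Type} [Fintype ι] (m : ℕ)
    (w : ι → ℂ) (ρ : ι → Fin (m + 1)) :
    ∫ b, Complex.exp (Complex.I * ((∑ k, ip (w k) (b (gpt m (ρ k))) : ℝ) : ℂ)) ∂μ =
      Complex.exp (-((1 / 2 * ∑ j, ∑ k, ip (w j) (w k) *
        pf_pc_K (gpt m (ρ j)) (gpt m (ρ k)) : ℝ) : ℂ)) := by
  have hg : Measurable (grid m) := by
    refine Continuous.measurable ?_
    unfold grid
    fun_prop
  have hF : Continuous (fun z : Fin (m + 1) → ℂ =>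
      Complex.exp (Complex.I * ((∑ k, ip (w k) (z (ρ k)) : ℝ) : ℂ))) := by
    have h1 : Continuous (fun z : Fin (m + 1) → ℂ => (∑ k, ip (w k) (z (ρ k)) : ℝ)) :=
      continuous_finsetSum _ fun k _ => (ip_cont (w k)).comp (continuous_apply (ρ k))
    fun_prop
  have h1 : ∫ b, Complex.exp (Complex.I * ((∑ k, ip (w k) (b (gpt m (ρ k))) : ℝ) : ℂ)) ∂μ =
      ∫ z, Complex.exp (Complex.I * ((∑ k, ip (w k) (z (ρ k)) : ℝ) : ℂ)) ∂(μ.map (grid m)) := by
    rw [integral_map hg.aemeasurable hF.aestronglyMeasurable]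
    rfl
  have hm : (0 : ℝ) < 1 / ((m : ℝ) + 1) := by positivity
  have hgm : Measurable (fun (x : Fin (m + 1) → ℂ) (r : Fin (m + 1)) => gm x r) := by
    refine Continuous.measurable ?_
    exact continuous_pi fun r => gm_cont _
  rw [h1, hμ.marg m, integral_map hgm.aemeasurable hF.aestronglyMeasurable]
  have h2 : ∀ x : Fin (m + 1) → ℂ, ∑ k, ip (w k) (gm x (ρ k)) = _ := fun x =>
    pf_pc_lin w (fun k => (ρ k : ℕ)) (fun k => (ρ k).2.le) x
  simp_rw [h2]
  rw [pf_pc_char hm (m + 1)]
  congr 2
  have h3 := pf_pc_var (Nat.succ_pos m) w (fun k => (ρ k : ℕ)) (fun k => (ρ k).2.le)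
  push_cast at h3
  rw [h3]
  rfl

theorem pf_pc_time (t : unitInterval) : ∃ ρ : (m : ℕ) → Fin (m + 1),
    Tendsto (fun m => gpt m (ρ m)) atTop (𝓝 t) := by
  have h0 : ∀ m : ℕ, ∃ r : Fin (m + 1), |((gpt m r : unitInterval) : ℝ) - t| ≤ 1 / ((m : ℝ) + 1) := by
    intro m
    have hm : (0 : ℝ) < (m : ℝ) + 1 := by positivity
    have ht0 : 0 ≤ (t : ℝ) * (m + 1) := mul_nonneg t.2.1 hm.le
    by_cases h : ⌊(t : ℝ) * (m + 1)⌋₊ ≤ m
    · refine ⟨⟨⌊(t : ℝ) * (m + 1)⌋₊, Nat.lt_succ_iff.2 h⟩, ?_⟩
      have h1 := Nat.floor_le ht0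
      have h2 := Nat.lt_floor_add_one ((t : ℝ) * (m + 1))
      show |((⌊(t : ℝ) * (m + 1)⌋₊ : ℕ) : ℝ) / (m + 1) - t| ≤ _
      rw [abs_le]
      constructor
      · rw [neg_le_iff_add_nonneg, ← sub_nonneg]
        have : ((⌊(t : ℝ) * (m + 1)⌋₊ : ℕ) : ℝ) / (m + 1) - t + 1 / (m + 1) - 0 =
            (((⌊(t : ℝ) * (m + 1)⌋₊ : ℕ) : ℝ) + 1 - t * (m + 1)) / (m + 1) := by
          field_simp
          ring
        rw [this]
        exact div_nonneg (by linarith) hm.le
      · rw [sub_le_iff_le_add, div_le_iff₀ hm]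
        have : (1 / ((m : ℝ) + 1) + t) * (m + 1) = 1 + t * (m + 1) := by
          field_simp
        rw [this]
        linarith
    · refine ⟨⟨m, Nat.lt_succ_self m⟩, ?_⟩
      have h1 := Nat.floor_le ht0
      have h3 : (m : ℝ) + 1 ≤ ((⌊(t : ℝ) * (m + 1)⌋₊ : ℕ) : ℝ) := by
        exact_mod_cast Nat.succ_le_of_lt (not_le.1 h)
      have h4 : (t : ℝ) ≤ 1 := t.2.2
      have h5 : (t : ℝ) = 1 := by
        refine le_antisymm h4 ?_
        by_contra hc
        have : (t : ℝ) * (m + 1) < 1 * (m + 1) := mul_lt_mul_of_pos_right (not_le.1 hc) hm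
        linarith
      show |(m : ℝ) / (m + 1) - t| ≤ _
      rw [h5]
      have : (m : ℝ) / (m + 1) - 1 = -(1 / (m + 1)) := by
        field_simp
        ring
      rw [this, abs_neg, abs_of_nonneg (by positivity)]
  choose ρ hρ using h0
  refine ⟨ρ, ?_⟩
  rw [tendsto_iff_dist_tendsto_zero]
  exact squeeze_zero (fun m => dist_nonneg) (fun m => by
    rw [Subtype.dist_eq, Real.dist_eq]; exact hρ m) tendsto_one_div_add_atTop_nhds_zero_nat

open Pool.Agent.H212AN.G (ip ip_cont) in
/-- characteristic function of the values at arbitrary times -/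
theorem pf_pc_cf {μ : Measure Lo} (hμ : IsLoop μ) {ι : Type} [Fintype ι] (w : ι → ℂ)
    (t : ι → unitInterval) :
    ∫ b, Complex.exp (Complex.I * ((∑ k, ip (w k) (b (t k)) : ℝ) : ℂ)) ∂μ =
      Complex.exp (-((1 / 2 * ∑ j, ∑ k, ip (w j) (w k) * pf_pc_K (t j) (t k) : ℝ) : ℂ)) := by
  have := hμ.prob
  choose ρ hρ using fun k => pf_pc_time (t k)
  have hL : Tendsto (fun m : ℕ => ∫ b : Lo, Complex.exp (Complex.I *
      ((∑ k, ip (w k) (b (gpt m (ρ k m))) : ℝ) : ℂ)) ∂μ) atTop
      (𝓝 (∫ b : Lo, Complex.exp (Complex.I * ((∑ k, ip (w k) (b (t k)) : ℝ) : ℂ)) ∂μ)) := by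
    refine tendsto_integral_of_dominated_convergence (fun _ => (1 : ℝ)) ?_ (integrable_const _) ?_ ?_
    · intro m
      refine Continuous.aestronglyMeasurable ?_
      have h1 : Continuous (fun b : Lo => (∑ k, ip (w k) (b (gpt m (ρ k m))) : ℝ)) :=
        continuous_finsetSum _ fun k _ => (ip_cont (w k)).comp (by fun_prop)
      fun_prop
    · intro m
      refine Eventually.of_forall fun b => ?_
      rw [mul_comm, Complex.norm_exp_ofReal_mul_I]
    · refine Eventually.of_forall fun b => ?_
      have h1 : Tendsto (fun m : ℕ => (∑ k, ip (w k) (b (gpt m (ρ k m))) : ℝ)) atTop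
          (𝓝 (∑ k, ip (w k) (b (t k)))) := by
        refine tendsto_finsetSum _ fun k _ => ?_
        exact (((ip_cont (w k)).comp b.continuous).tendsto (t k)).comp (hρ k)
      have h2 : Continuous (fun x : ℝ => Complex.exp (Complex.I * (x : ℂ))) := by fun_prop
      exact (h2.tendsto _).comp h1
  have hR : Tendsto (fun m : ℕ => Complex.exp (-((1 / 2 * ∑ j, ∑ k, ip (w j) (w k) *
      pf_pc_K (gpt m (ρ j m)) (gpt m (ρ k m)) : ℝ) : ℂ))) atTop
      (𝓝 (Complex.exp (-((1 / 2 * ∑ j, ∑ k, ip (w j) (w k) * pf_pc_K (t j) (t k) : ℝ) : ℂ)))) := by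
    have h1 : Tendsto (fun m : ℕ => 1 / 2 * ∑ j, ∑ k, ip (w j) (w k) *
        pf_pc_K (gpt m (ρ j m)) (gpt m (ρ k m))) atTop
        (𝓝 (1 / 2 * ∑ j, ∑ k, ip (w j) (w k) * pf_pc_K (t j) (t k))) := by
      refine Tendsto.const_mul _ (tendsto_finsetSum _ fun j _ => tendsto_finsetSum _ fun k _ =>
        Tendsto.const_mul _ ?_)
      have h3 : Continuous (fun p : unitInterval × unitInterval => pf_pc_K p.1 p.2) := by
        unfold pf_pc_K
        fun_prop
      exact (h3.tendsto (t j, t k)).comp ((hρ j).prodMk_nhds (hρ k))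
    have h2 : Continuous (fun x : ℝ => Complex.exp (-(x : ℂ))) := by fun_prop
    exact (h2.tendsto _).comp h1
  refine tendsto_nhds_unique hL (hR.congr fun m => ?_)
  exact (pf_pc_grid hμ m w (fun k => ρ k m)).symm

open Pool.Agent.H212AN.G (ip ip_cont ip_sum_right ip_smul_right) in
/-- uniqueness -/
theorem pf_pc_uniq (h1 : S_uniq) {μ μ' : Measure Lo} [IsFiniteMeasure μ] [IsFiniteMeasure μ']
    (h : ∀ (n : ℕ) (w : Fin n → ℂ) (t : Fin n → unitInterval),
      ∫ b, Complex.exp (Complex.I * ((∑ k, ip (w k) (b (t k)) : ℝ) : ℂ)) ∂μ =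
      ∫ b, Complex.exp (Complex.I * ((∑ k, ip (w k) (b (t k)) : ℝ) : ℂ)) ∂μ') : μ = μ' := by
  refine h1 μ μ' inferInstance inferInstance fun m => ?_
  have hg : Measurable (grid m) := by
    refine Continuous.measurable ?_
    unfold grid
    fun_prop
  have := Measure.isFiniteMeasure_map μ (grid m)
  have := Measure.isFiniteMeasure_map μ' (grid m)
  refine Measure.ext_of_charFunDual (funext fun L => ?_)
  have hLc : Continuous (fun z : Fin (m + 1) → ℂ => Complex.exp ((L z : ℂ) * Complex.I)) := by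
    fun_prop
  rw [charFunDual_apply, charFunDual_apply, integral_map hg.aemeasurable hLc.aestronglyMeasurable,
    integral_map hg.aemeasurable hLc.aestronglyMeasurable]
  have e : ∀ b : Lo, L (grid m b) = ∑ k, ip (⟨L (Pi.single k 1), L (Pi.single k Complex.I)⟩ : ℂ)
      (b (gpt m k)) := by
    intro b
    have e1 : grid m b = ∑ k, ((b (gpt m k)).re • (Pi.single k (1 : ℂ) : Fin (m + 1) → ℂ) +
        (b (gpt m k)).im • (Pi.single k Complex.I : Fin (m + 1) → ℂ)) := by
      funext r
      rw [Finset.sum_apply]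
      rw [Finset.sum_eq_single r]
      · simp only [Pi.add_apply, Pi.smul_apply, Pi.single_eq_same, Complex.real_smul, mul_one]
        exact (Complex.re_add_im _).symm
      · intro k _ hk
        simp [Pi.single_eq_of_ne (Ne.symm hk)]
      · intro h
        exact absurd (Finset.mem_univ r) h
    rw [e1, map_sum]
    refine Finset.sum_congr rfl fun k _ => ?_
    rw [map_add, map_smul, map_smul]
    simp only [ip, smul_eq_mul]
    ring
  have h2 := h (m + 1) (fun k => ⟨L (Pi.single k 1), L (Pi.single k Complex.I)⟩) (gpt m)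
  simp_rw [e, mul_comm _ Complex.I]
  exact h2

/-- real part of a path -/
noncomputable def pf_pc_re (b : Lo) : LR := (⟨Complex.re, Complex.continuous_re⟩ : C(ℂ, ℝ)).comp b

/-- a real path as a complex path -/
noncomputable def pf_pc_E (y : LR) : Lo :=
  (⟨Complex.ofReal, Complex.continuous_ofReal⟩ : C(ℝ, ℂ)).comp y

theorem pf_pc_re_cont : Continuous pf_pc_re := ContinuousMap.continuous_postcomp _

theorem pf_pc_E_cont : Continuous pf_pc_E := ContinuousMap.continuous_postcomp _

theorem pf_pc_jn_cont : Continuous (fun p : LR × LR => jn p.1 p.2) := by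
  have e : (fun p : LR × LR => jn p.1 p.2) =
      fun p : LR × LR => pf_pc_E p.1 + Complex.I • pf_pc_E p.2 := by
    funext p
    ext s
    show (p.1 s : ℂ) + (p.2 s : ℂ) * Complex.I = (p.1 s : ℂ) + Complex.I * (p.2 s : ℂ)
    ring
  rw [e]
  have h1 : Continuous (fun p : LR × LR => pf_pc_E p.1) := pf_pc_E_cont.comp continuous_fst
  have h2 : Continuous (fun p : LR × LR => pf_pc_E p.2) := pf_pc_E_cont.comp continuous_snd
  exact h1.add (h2.const_smul Complex.I)

theorem pf_pc_re_E (y : LR) : pf_pc_re (pf_pc_E y) = y := by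
  ext s
  rfl

open Pool.Agent.H212AN.G (ip ip_cont) in
/-- uniqueness for real paths -/
theorem pf_pc_uniqR (h1 : S_uniq) {ν ν' : Measure LR} [IsFiniteMeasure ν] [IsFiniteMeasure ν']
    (h : ∀ (n : ℕ) (a : Fin n → ℝ) (t : Fin n → unitInterval),
      ∫ y, Complex.exp (Complex.I * ((∑ k, a k * y (t k) : ℝ) : ℂ)) ∂ν =
      ∫ y, Complex.exp (Complex.I * ((∑ k, a k * y (t k) : ℝ) : ℂ)) ∂ν') : ν = ν' := by
  have hE := pf_pc_E_cont.measurable
  have hR := pf_pc_re_cont.measurable
  have := Measure.isFiniteMeasure_map ν pf_pc_E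
  have := Measure.isFiniteMeasure_map ν' pf_pc_E
  have key : ν.map pf_pc_E = ν'.map pf_pc_E := by
    refine pf_pc_uniq h1 fun n w t => ?_
    have hF : Continuous (fun b : Lo =>
        Complex.exp (Complex.I * ((∑ k, ip (w k) (b (t k)) : ℝ) : ℂ))) := by
      have h1 : Continuous (fun b : Lo => (∑ k, ip (w k) (b (t k)) : ℝ)) :=
        continuous_finsetSum _ fun k _ => (ip_cont (w k)).comp (by fun_prop)
      fun_prop
    rw [integral_map hE.aemeasurable hF.aestronglyMeasurable,
      integral_map hE.aemeasurable hF.aestronglyMeasurable]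
    have e : ∀ y : LR, ∑ k, ip (w k) (pf_pc_E y (t k)) = ∑ k, (w k).re * y (t k) := by
      intro y
      refine Finset.sum_congr rfl fun k _ => ?_
      show (w k).re * ((y (t k) : ℂ)).re + (w k).im * ((y (t k) : ℂ)).im = _
      simp
    simp_rw [e]
    exact h n (fun k => (w k).re) t
  have hid : pf_pc_re ∘ pf_pc_E = id := funext pf_pc_re_E
  calc ν = (ν.map pf_pc_E).map pf_pc_re := by
        rw [Measure.map_map hR hE, hid, Measure.map_id]
    _ = (ν'.map pf_pc_E).map pf_pc_re := by rw [key]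
    _ = ν' := by rw [Measure.map_map hR hE, hid, Measure.map_id]

open Pool.Agent.H212AN.G (ip ip_cont) in
/-- characteristic function of the real part -/
theorem pf_pc_cfR {μ : Measure Lo} (hμ : IsLoop μ) {ι : Type} [Fintype ι] (a : ι → ℝ)
    (t : ι → unitInterval) :
    ∫ y, Complex.exp (Complex.I * ((∑ k, a k * y (t k) : ℝ) : ℂ)) ∂(μ.map pf_pc_re) =
      Complex.exp (-((1 / 2 * ∑ j, ∑ k, a j * a k * pf_pc_K (t j) (t k) : ℝ) : ℂ)) := by
  have hF : Continuous (fun y : LR =>
      Complex.exp (Complex.I * ((∑ k, a k * y (t k) : ℝ) : ℂ))) := by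
    have h1 : Continuous (fun y : LR => (∑ k, a k * y (t k) : ℝ)) :=
      continuous_finsetSum _ fun k _ => by fun_prop
    fun_prop
  rw [integral_map pf_pc_re_cont.measurable.aemeasurable hF.aestronglyMeasurable]
  have h := pf_pc_cf hμ (fun k => ((a k : ℝ) : ℂ)) t
  have e : ∀ b : Lo, ∑ k, a k * pf_pc_re b (t k) = ∑ k, ip ((a k : ℝ) : ℂ) (b (t k)) := by
    intro b
    refine Finset.sum_congr rfl fun k _ => ?_
    show a k * (b (t k)).re = ((a k : ℝ) : ℂ).re * (b (t k)).re + ((a k : ℝ) : ℂ).im * (b (t k)).im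
    simp
  simp_rw [e]
  rw [h]
  congr 4
  refine Finset.sum_congr rfl fun j _ => Finset.sum_congr rfl fun k _ => ?_
  simp [ip]

/-- covariance of the rotated path -/
theorem pf_pc_rotK (h s u : unitInterval) :
    pf_pc_K (pj ((s : ℝ) + h)) (pj ((u : ℝ) + h)) - pf_pc_K (pj ((s : ℝ) + h)) h
      + pf_pc_K (pj ((s : ℝ) + h)) (pj ((u : ℝ) + h - 1))
      - pf_pc_K h (pj ((u : ℝ) + h)) + pf_pc_K h h - pf_pc_K h (pj ((u : ℝ) + h - 1))
      + pf_pc_K (pj ((s : ℝ) + h - 1)) (pj ((u : ℝ) + h)) - pf_pc_K (pj ((s : ℝ) + h - 1)) h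
      + pf_pc_K (pj ((s : ℝ) + h - 1)) (pj ((u : ℝ) + h - 1)) = pf_pc_K s u := by
  obtain ⟨s, hs0, hs1⟩ := s
  obtain ⟨u, hu0, hu1⟩ := u
  obtain ⟨h, hh0, hh1⟩ := h
  simp only [pj, Set.coe_projIcc]
  unfold pf_pc_K
  rcases le_total (s + h) 1 with h1 | h1 <;> rcases le_total (u + h) 1 with h2 | h2
  · rw [min_eq_right h1, min_eq_right h2, max_eq_right (by linarith : (0:ℝ) ≤ s + h),
      max_eq_right (by linarith : (0:ℝ) ≤ u + h), min_eq_right (by linarith : s + h - 1 ≤ 1),
      min_eq_right (by linarith : u + h - 1 ≤ 1), max_eq_left (by linarith : s + h - 1 ≤ 0),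
      max_eq_left (by linarith : u + h - 1 ≤ 0), min_add_add_right,
      min_eq_right (by linarith : h ≤ s + h), min_eq_right (by linarith : (0:ℝ) ≤ s + h),
      min_eq_left (by linarith : h ≤ u + h), min_self, min_eq_right hh0,
      min_eq_left (by linarith : (0:ℝ) ≤ u + h), min_eq_left hh0, min_self]
    ring
  · rw [min_eq_right h1, min_eq_left h2, max_eq_right (by linarith : (0:ℝ) ≤ s + h),
      max_eq_right (by norm_num : (0:ℝ) ≤ 1), min_eq_right (by linarith : s + h - 1 ≤ 1),
      min_eq_right (by linarith : u + h - 1 ≤ 1), max_eq_left (by linarith : s + h - 1 ≤ 0),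
      max_eq_right (by linarith : 0 ≤ u + h - 1), min_eq_left h1,
      min_eq_right (by linarith : h ≤ s + h), min_eq_right (by linarith : u + h - 1 ≤ s + h),
      min_eq_left hh1, min_self, min_eq_right (by linarith : u + h - 1 ≤ h),
      min_eq_left (by norm_num : (0:ℝ) ≤ 1), min_eq_left hh0,
      min_eq_left (by linarith : 0 ≤ u + h - 1), min_eq_left (by linarith : s ≤ u)]
    ring
  · rw [min_eq_left h1, min_eq_right h2, max_eq_right (by linarith : (0:ℝ) ≤ u + h),
      max_eq_right (by norm_num : (0:ℝ) ≤ 1), min_eq_right (by linarith : s + h - 1 ≤ 1),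
      min_eq_right (by linarith : u + h - 1 ≤ 1), max_eq_left (by linarith : u + h - 1 ≤ 0),
      max_eq_right (by linarith : 0 ≤ s + h - 1), min_eq_right h2,
      min_eq_right hh1, min_eq_right (by norm_num : (0:ℝ) ≤ 1),
      min_eq_left (by linarith : h ≤ u + h), min_self, min_eq_right hh0,
      min_eq_left (by linarith : s + h - 1 ≤ u + h),
      min_eq_left (by linarith : s + h - 1 ≤ h),
      min_eq_right (by linarith : 0 ≤ s + h - 1), min_eq_right (by linarith : u ≤ s)]
    ring
  · rw [min_eq_left h1, min_eq_left h2,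
      max_eq_right (by norm_num : (0:ℝ) ≤ 1), min_eq_right (by linarith : s + h - 1 ≤ 1),
      min_eq_right (by linarith : u + h - 1 ≤ 1), max_eq_right (by linarith : 0 ≤ u + h - 1),
      max_eq_right (by linarith : 0 ≤ s + h - 1), min_self,
      min_eq_right hh1, min_eq_right (by linarith : u + h - 1 ≤ 1),
      min_eq_left hh1, min_self, min_eq_right (by linarith : u + h - 1 ≤ h),
      min_eq_left (by linarith : s + h - 1 ≤ 1),
      min_eq_left (by linarith : s + h - 1 ≤ h)]
    have e : min (s + h - 1) (u + h - 1) = min s u + h - 1 := by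
      rw [add_sub_assoc, add_sub_assoc, min_add_add_right, add_sub_assoc]
    rw [e]
    ring

theorem pf_pc (h1 : S_uniq) (h2 : S_end) : S_pc := by
  intro μ hμ
  have hμp := hμ.prob
  have hR := pf_pc_re_cont.measurable
  set ν : Measure LR := μ.map pf_pc_re with hν
  have hνp : IsProbabilityMeasure ν := Measure.isProbabilityMeasure_map hR.aemeasurable
  refine ⟨ν, hνp, ?_, ?_, ?_, ?_⟩
  · -- product structure
    have hJ := pf_pc_jn_cont.measurable
    have := Measure.isFiniteMeasure_map (ν.prod ν) (fun p : LR × LR => jn p.1 p.2)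
    refine pf_pc_uniq h1 fun n w t => ?_
    have hF : Continuous (fun b : Lo =>
        Complex.exp (Complex.I * ((∑ k, G.ip (w k) (b (t k)) : ℝ) : ℂ))) := by
      have h1 : Continuous (fun b : Lo => (∑ k, G.ip (w k) (b (t k)) : ℝ)) :=
        continuous_finsetSum _ fun k _ => (G.ip_cont (w k)).comp (by fun_prop)
      fun_prop
    rw [pf_pc_cf hμ, integral_map hJ.aemeasurable hF.aestronglyMeasurable]
    have e : ∀ p : LR × LR, Complex.exp (Complex.I *
        ((∑ k, G.ip (w k) (jn p.1 p.2 (t k)) : ℝ) : ℂ)) =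
        Complex.exp (Complex.I * ((∑ k, (w k).re * p.1 (t k) : ℝ) : ℂ)) *
          Complex.exp (Complex.I * ((∑ k, (w k).im * p.2 (t k) : ℝ) : ℂ)) := by
      intro p
      rw [← Complex.exp_add, ← mul_add, ← Complex.ofReal_add, ← Finset.sum_add_distrib]
      have e0 : ∑ k, G.ip (w k) (jn p.1 p.2 (t k)) =
          ∑ k, ((w k).re * p.1 (t k) + (w k).im * p.2 (t k)) := by
        refine Finset.sum_congr rfl fun k _ => ?_
        show (w k).re * ((p.1 (t k) : ℂ) + (p.2 (t k) : ℂ) * Complex.I).re +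
          (w k).im * ((p.1 (t k) : ℂ) + (p.2 (t k) : ℂ) * Complex.I).im = _
        simp
      rw [e0]
    simp_rw [e]
    rw [integral_prod_mul (fun x : LR => Complex.exp (Complex.I *
      ((∑ k, (w k).re * x (t k) : ℝ) : ℂ))) (fun x : LR => Complex.exp (Complex.I *
      ((∑ k, (w k).im * x (t k) : ℝ) : ℂ))), hν, pf_pc_cfR hμ, pf_pc_cfR hμ, ← Complex.exp_add,
      ← neg_add, ← Complex.ofReal_add, ← mul_add, ← Finset.sum_add_distrib]
    congr 4
    refine Finset.sum_congr rfl fun j _ => ?_
    rw [← Finset.sum_add_distrib]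
    refine Finset.sum_congr rfl fun k _ => ?_
    simp only [G.ip]
    ring
  · -- cyclic shift
    intro h
    have hc : Continuous (rot h) := by
      have h1 : rot h = fun y : LR =>
          y.comp (⟨fun s => pj ((s : ℝ) + h), by unfold pj; fun_prop⟩ : C(unitInterval, unitInterval))
          - y.comp (⟨fun _ => h, by fun_prop⟩ : C(unitInterval, unitInterval)) +
          (y.comp (⟨fun s => pj ((s : ℝ) + h - 1), by unfold pj; fun_prop⟩ :
            C(unitInterval, unitInterval))
          - y.comp (⟨fun _ => 0, by fun_prop⟩ : C(unitInterval, unitInterval))) := by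
        funext y
        ext s
        rfl
      rw [h1]
      exact ((ContinuousMap.continuous_precomp _).sub (ContinuousMap.continuous_precomp _)).add
        ((ContinuousMap.continuous_precomp _).sub (ContinuousMap.continuous_precomp _))
    have hm := hc.measurable
    have := Measure.isFiniteMeasure_map ν (rot h)
    refine pf_pc_uniqR h1 fun n a t => ?_
    have hF : Continuous (fun y : LR =>
        Complex.exp (Complex.I * ((∑ k, a k * y (t k) : ℝ) : ℂ))) := by
      have h1 : Continuous (fun y : LR => (∑ k, a k * y (t k) : ℝ)) :=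
        continuous_finsetSum _ fun k _ => by fun_prop
      fun_prop
    rw [integral_map hm.aemeasurable hF.aestronglyMeasurable]
    let T : Fin n × Fin 4 → unitInterval := fun q =>
      ![pj ((t q.1 : ℝ) + h), h, pj ((t q.1 : ℝ) + h - 1), 0] q.2
    let A : Fin n × Fin 4 → ℝ := fun q => a q.1 * ![1, -1, 1, -1] q.2
    have e : ∀ y : LR, ∑ k, a k * rot h y (t k) = ∑ q, A q * y (T q) := by
      intro y
      rw [Fintype.sum_prod_type]
      refine Finset.sum_congr rfl fun k _ => ?_
      rw [Fin.sum_univ_four]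
      show a k * (y (pj ((t k : ℝ) + h)) - y h + (y (pj ((t k : ℝ) + h - 1)) - y 0)) =
        a k * 1 * y (pj ((t k : ℝ) + h)) + a k * (-1) * y h + a k * 1 * y (pj ((t k : ℝ) + h - 1)) +
          a k * (-1) * y 0
      ring
    simp_rw [e]
    rw [hν, pf_pc_cfR hμ A T, pf_pc_cfR hμ a t]
    congr 4
    rw [Fintype.sum_prod_type]
    refine Finset.sum_congr rfl fun j _ => ?_
    have e2 : ∀ x : Fin 4, ∑ q, A (j, x) * A q * pf_pc_K (T (j, x)) (T q) =
        ∑ k, ∑ z : Fin 4, A (j, x) * A (k, z) * pf_pc_K (T (j, x)) (T (k, z)) := fun x =>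
      Fintype.sum_prod_type _
    simp_rw [e2]
    rw [Finset.sum_comm]
    refine Finset.sum_congr rfl fun k _ => ?_
    rw [← pf_pc_rotK h (t j) (t k)]
    rw [Fin.sum_univ_four]
    simp only [Fin.sum_univ_four]
    have hK1 : ∀ u : ℝ, 0 ≤ u → pf_pc_K u 0 = 0 := by
      intro u hu
      unfold pf_pc_K
      rw [min_eq_right hu]
      ring
    have hK2 : ∀ u : ℝ, 0 ≤ u → pf_pc_K 0 u = 0 := by
      intro u hu
      unfold pf_pc_K
      rw [min_eq_left hu]
      ring
    have z1 : ∀ u : unitInterval, pf_pc_K u ((0 : unitInterval) : ℝ) = 0 := fun u => hK1 _ u.2.1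
    have z2 : ∀ u : unitInterval, pf_pc_K ((0 : unitInterval) : ℝ) u = 0 := fun u => hK2 _ u.2.1
    simp only [A, T, Matrix.cons_val_zero, Matrix.cons_val_one, Matrix.cons_val]
    rw [z1, z1, z1, z1, z2, z2, z2]
    ring
  · -- end points
    have hset : MeasurableSet {y : LR | y 0 = 0 ∧ y 1 = 0} := by
      refine IsClosed.measurableSet ?_
      exact (isClosed_eq (by fun_prop) continuous_const).inter
        (isClosed_eq (by fun_prop) continuous_const)
    rw [hν, ae_map_iff hR.aemeasurable hset]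
    filter_upwards [h2 μ hμ] with b hb
    exact ⟨by show (b 0).re = 0; rw [hb.1]; rfl, by show (b 1).re = 0; rw [hb.2]; rfl⟩
  · -- the law at the time one half
    intro f hf
    have he : Continuous (fun y : LR => y Pool.Agent.H212AN.hf) := by fun_prop
    have hv : (1 / 2 : NNReal) ≠ 0 := by norm_num
    have hlaw : ν.map (fun y : LR => y Pool.Agent.H212AN.hf) =
        ProbabilityTheory.gaussianReal 0 (1 / 2) := by
      have := Measure.isProbabilityMeasure_map (μ := ν) he.measurable.aemeasurable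
      refine Measure.ext_of_charFun (funext fun a => ?_)
      rw [ProbabilityTheory.charFun_gaussianReal, charFun_apply_real,
        integral_map he.measurable.aemeasurable (by fun_prop)]
      have h3 := pf_pc_cfR hμ (fun _ : Unit => a) (fun _ => Pool.Agent.H212AN.hf)
      simp only [Finset.univ_unique, Finset.sum_singleton] at h3
      have e : ∀ y : LR, Complex.exp (a * (y Pool.Agent.H212AN.hf : ℂ) * Complex.I) =
          Complex.exp (Complex.I * ((a * y Pool.Agent.H212AN.hf : ℝ) : ℂ)) := by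
        intro y
        congr 1
        push_cast
        ring
      simp_rw [e]
      rw [h3]
      congr 1
      have hK : pf_pc_K (Pool.Agent.H212AN.hf : ℝ) (Pool.Agent.H212AN.hf : ℝ) = 1 / 2 := by
        unfold pf_pc_K
        rw [min_self]
        show 2 * ((1 : ℝ) / 2 - 1 / 2 * (1 / 2)) = 1 / 2
        norm_num
      rw [hK]
      push_cast
      ring
    have h4 : ∫⁻ y, f (y Pool.Agent.H212AN.hf) ∂ν =
        ∫⁻ x, f x ∂(ν.map (fun y : LR => y Pool.Agent.H212AN.hf)) :=
      (lintegral_map hf he.measurable).symm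
    rw [h4, hlaw, ProbabilityTheory.gaussianReal_of_var_ne_zero _ hv,
      lintegral_withDensity_eq_lintegral_mul _ (ProbabilityTheory.measurable_gaussianPDF _ _) hf]
    refine lintegral_congr fun x => ?_
    rw [Pi.mul_apply]
    congr 1
    unfold ProbabilityTheory.gaussianPDF ProbabilityTheory.gaussianPDFReal
    congr 1
    have e1 : (2 * π * ((1 / 2 : NNReal) : ℝ)) = π := by
      push_cast
      ring
    have e2 : -(x - 0) ^ 2 / (2 * ((1 / 2 : NNReal) : ℝ)) = -x ^ 2 := by
      push_cast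
      ring
    rw [e1, e2]
    ring

end Pool.Agent.H212AN
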