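import Pool.Agent.H212AN.E3

set_option autoImplicit false

namespace Pool.Agent.H212AN

open MeasureTheory Set Filter Topology Metric
open Pool.Agent.H212AN.G (nG PG gm gk)
open scoped Real ENNReal ComplexConjugate

/-! auxiliary lemmas -/

theorem pf_rec_mu {ι : Type} [Fintype ι] (f : ι → ℝ) (x : ℝ) :
    mu' f x = Nat.card {i // f i = x} := by
  classical
  unfold mu'
  rw [Nat.card_eq_fintype_card, Fintype.card_subtype]

theorem pf_rec_perm {ι : Type} [Fintype ι] (f g : ι → ℝ) (h : ∀ x, mu' f x = mu' g x) :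
    ∃ σ : Equiv.Perm ι, ∀ i, g i = f (σ i) := by
  classical
  have h1 : ∀ x, Nonempty ({i // g i = x} ≃ {i // f i = x}) := by
    intro x
    refine ⟨Fintype.equivOfCardEq ?_⟩
    rw [← Nat.card_eq_fintype_card, ← Nat.card_eq_fintype_card, ← pf_rec_mu, ← pf_rec_mu, h x]
  refine ⟨Equiv.ofFiberEquiv fun x => (h1 x).some, fun i => ?_⟩
  exact (Equiv.ofFiberEquiv_map (fun x => (h1 x).some) i).symm

theorem pf_rec_lt {ι : Type} [Fintype ι] (f g : ι → ℝ) (c : ℝ)
    (h : ∀ x, x < c → mu' f x = mu' g x) (hf : ∀ i, f i < c) : ∀ i, g i < c := by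
  classical
  have key : ∀ F : ι → ℝ, (∀ x, x < c → mu' F x = mu' f x) →
      (Finset.univ.filter (fun i => F i < c)).card =
        ∑ x ∈ (Finset.univ.image f ∪ (Finset.univ.image g).filter (· < c)).filter (· < c),
          mu' f x + (Finset.univ.filter (fun i => F i < c ∧
            F i ∉ Finset.univ.image f ∪ (Finset.univ.image g).filter (· < c))).card := by
    intro F hF
    rw [← Finset.card_filter_add_card_filter_not (s := Finset.univ.filter (fun i => F i < c))
      (p := fun i => F i ∈ Finset.univ.image f ∪ (Finset.univ.image g).filter (· < c)),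
      Finset.filter_filter, Finset.filter_filter]
    congr 1
    rw [Finset.card_eq_sum_card_fiberwise (f := F)
      (t := (Finset.univ.image f ∪ (Finset.univ.image g).filter (· < c)).filter (· < c))]
    · refine Finset.sum_congr rfl fun x hx => ?_
      rw [Finset.mem_filter] at hx
      rw [← hF x hx.2]
      unfold mu'
      congr 1
      ext i
      simp only [Finset.mem_filter, Finset.mem_univ, true_and]
      constructor
      · exact fun h1 => h1.2
      · intro h1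
        rw [h1]
        exact ⟨⟨hx.2, hx.1⟩, rfl⟩
    · intro i hi
      simp only [Finset.coe_filter, Finset.mem_univ, true_and] at hi
      exact Finset.mem_coe.2 (Finset.mem_filter.2 ⟨hi.2, hi.1⟩)
  have h1 := key f (fun _ _ => rfl)
  have h2 := key g (fun x hx => (h x hx).symm)
  have h3 : (Finset.univ.filter (fun i => f i < c ∧
      f i ∉ Finset.univ.image f ∪ (Finset.univ.image g).filter (· < c))).card = 0 := by
    rw [Finset.card_eq_zero, Finset.filter_eq_empty_iff]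
    rintro i - ⟨-, h4⟩
    exact h4 (Finset.mem_union_left _ (Finset.mem_image_of_mem f (Finset.mem_univ i)))
  have h4 : (Finset.univ.filter (fun i => g i < c ∧
      g i ∉ Finset.univ.image f ∪ (Finset.univ.image g).filter (· < c))).card = 0 := by
    rw [Finset.card_eq_zero, Finset.filter_eq_empty_iff]
    rintro i - ⟨h5, h6⟩
    exact h6 (Finset.mem_union_right _ (Finset.mem_filter.2
      ⟨Finset.mem_image_of_mem g (Finset.mem_univ i), h5⟩))
  rw [h3, add_zero] at h1
  rw [h4, add_zero, ← h1, Finset.filter_true_of_mem (fun i _ => hf i)] at h2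
  have h5 := Finset.eq_of_subset_of_card_le (Finset.filter_subset (fun i => g i < c) Finset.univ)
    h2.ge
  intro i
  have h6 : i ∈ Finset.univ.filter (fun i => g i < c) := by
    rw [h5]
    exact Finset.mem_univ i
  exact (Finset.mem_filter.1 h6).2

theorem pf_rec_perm' {ι : Type} [Fintype ι] (f g : ι → ℝ) (c : ℝ)
    (h : ∀ x, x < c → mu' f x = mu' g x) (hf : ∀ i, f i < c) :
    (∀ i, g i < c) ∧ ∃ σ : Equiv.Perm ι, ∀ i, g i = f (σ i) := by
  classical
  have hg := pf_rec_lt f g c h hf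
  refine ⟨hg, pf_rec_perm f g fun x => ?_⟩
  rcases lt_or_ge x c with hx | hx
  · exact h x hx
  · unfold mu'
    rw [Finset.card_eq_zero.2, Finset.card_eq_zero.2]
    · rw [Finset.filter_eq_empty_iff]
      intro i _ h1
      exact absurd (hg i) (not_lt.2 (h1 ▸ hx))
    · rw [Finset.filter_eq_empty_iff]
      intro i _ h1
      exact absurd (hf i) (not_lt.2 (h1 ▸ hx))

/-- count over ordered pairs -/
theorem pf_rec_two {ι κ : Type} [DecidableEq κ] (S : Finset ι) (T : Finset κ) (f1 f2 : ι → κ)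
    (h1 : Function.Injective f1) (h2 : Function.Injective f2) (h12 : ∀ i ∈ S, ∀ j ∈ S, f1 i ≠ f2 j)
    (hT : ∀ k, k ∈ T ↔ (∃ i ∈ S, f1 i = k) ∨ ∃ i ∈ S, f2 i = k) : T.card = 2 * S.card := by
  have h3 : T = S.image f1 ∪ S.image f2 := by
    ext k
    rw [hT, Finset.mem_union, Finset.mem_image, Finset.mem_image]
  rw [h3, Finset.card_union_of_disjoint, Finset.card_image_of_injective _ h1,
    Finset.card_image_of_injective _ h2, two_mul]
  rw [Finset.disjoint_left]
  intro k hk hk'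
  obtain ⟨i, hi, rfl⟩ := Finset.mem_image.1 hk
  obtain ⟨j, hj, h4⟩ := Finset.mem_image.1 hk'
  exact h12 i hi j hj h4.symm

/-- number of ordered pairs with a given gap -/
noncomputable def pf_rec_OP {n : ℕ} (r : ℝ) (v : Fin n → ℂ) (x : ℝ) : ℕ := by
  classical
  exact (Finset.univ.filter (fun p : Fin n × Fin n => p.1 ≠ p.2 ∧
    dist (v p.1) (v p.2) - 2 * r = x)).card

theorem pf_rec_OP_mu {n : ℕ} (r : ℝ) (v : Fin n → ℂ) (x : ℝ) :
    pf_rec_OP r v x = 2 * mu' (hgap r v) x := by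
  classical
  unfold pf_rec_OP mu'
  refine pf_rec_two _ _ (fun p => (p.1.1, p.1.2)) (fun p => (p.1.2, p.1.1)) ?_ ?_ ?_ ?_
  · intro p q h
    exact Subtype.ext h
  · intro p q h
    apply Subtype.ext
    have h1 := Prod.ext_iff.1 h
    exact Prod.ext h1.2 h1.1
  · rintro p - q - h
    have h1 := Prod.ext_iff.1 h
    have h2 := p.2
    have h3 := q.2
    simp only at h1
    rw [h1.1, h1.2] at h2
    exact absurd h2 (not_lt.2 h3.le)
  · rintro ⟨i, j⟩
    simp only [Finset.mem_filter, Finset.mem_univ, true_and]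
    constructor
    · rintro ⟨hij, h⟩
      rcases lt_or_gt_of_ne hij with hlt | hgt
      · exact Or.inl ⟨⟨(i, j), hlt⟩, h, rfl⟩
      · refine Or.inr ⟨⟨(j, i), hgt⟩, ?_, rfl⟩
        unfold hgap
        rw [dist_comm]
        exact h
    · rintro (⟨p, hp, h⟩ | ⟨p, hp, h⟩)
      · have h1 := Prod.ext_iff.1 h
        simp only at h1
        rw [← h1.1, ← h1.2]
        exact ⟨p.2.ne, hp⟩
      · have h1 := Prod.ext_iff.1 h
        simp only at h1
        rw [← h1.1, ← h1.2]
        refine ⟨p.2.ne', ?_⟩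
        rw [dist_comm]
        exact hp

theorem pf_rec_OP_perm {n : ℕ} (r : ℝ) (v : Fin n → ℂ) (e : Equiv.Perm (Fin n)) (x : ℝ) :
    pf_rec_OP r (fun i => v (e i)) x = pf_rec_OP r v x := by
  classical
  unfold pf_rec_OP
  refine Finset.card_equiv (e.prodCongr e) ?_
  rintro ⟨i, j⟩
  simp only [Finset.mem_filter, Finset.mem_univ, true_and, Equiv.prodCongr_apply, Prod.map_apply,
    ne_eq, EmbeddingLike.apply_eq_iff_eq]

theorem pf_rec_ne {m : ℕ} (i : Fin (m + 3)) : i ≠ i + 1 ∧ i ≠ i + 1 + 1 := by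
  have h1 : (1 : Fin (m + 3)) ≠ 0 := by
    intro h
    have := congrArg Fin.val h
    simp at this
  have h2 : (1 + 1 : Fin (m + 3)) ≠ 0 := by
    intro h
    have h3 : (1 : Fin (m + 3)).val = 1 := Fin.val_one (m + 1)
    have h4 : (1 + 1 : Fin (m + 3)).val = 2 := by
      rw [Fin.val_add, h3]
      exact Nat.mod_eq_of_lt (by omega)
    rw [h] at h4
    have h5 : (0 : Fin (m + 3)).val = 0 := Fin.val_zero (m + 2)
    omega
  constructor
  · intro h
    exact h1 (left_eq_add.1 h)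
  · intro h
    rw [add_assoc] at h
    exact h2 (left_eq_add.1 h)

theorem pf_rec_OP_adj {m : ℕ} (r c : ℝ) (v : Fin (m + 3) → ℂ) (x : ℝ) (hx : x < c)
    (hv : ∀ i j, i ≠ j → j ≠ i + 1 → i ≠ j + 1 → c ≤ dist (v i) (v j) - 2 * r) :
    pf_rec_OP r v x = 2 * mu' (fun i => dist (v i) (v (i + 1)) - 2 * r) x := by
  classical
  unfold pf_rec_OP mu'
  refine pf_rec_two _ _ (fun i => (i, i + 1)) (fun i => (i + 1, i)) ?_ ?_ ?_ ?_
  · intro i j h
    exact (Prod.ext_iff.1 h).1
  · intro i j h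
    exact (Prod.ext_iff.1 h).2
  · rintro i - j - h
    have h1 := Prod.ext_iff.1 h
    simp only at h1
    have h2 : j = j + 1 + 1 := by
      conv_lhs => rw [← h1.2, h1.1]
    exact (pf_rec_ne j).2 h2
  · rintro ⟨i, j⟩
    simp only [Finset.mem_filter, Finset.mem_univ, true_and]
    constructor
    · rintro ⟨hij, h⟩
      by_cases h1 : j = i + 1
      · left
        exact ⟨i, by rw [← h1]; exact h, by rw [h1]⟩
      by_cases h2 : i = j + 1
      · right
        refine ⟨j, ?_, by rw [h2]⟩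
        rw [← h2, dist_comm]
        exact h
      have h3 := hv i j hij h1 h2
      linarith
    · rintro (⟨k, hk, h⟩ | ⟨k, hk, h⟩)
      · have h1 := Prod.ext_iff.1 h
        simp only at h1
        rw [← h1.1, ← h1.2]
        exact ⟨(pf_rec_ne k).1, hk⟩
      · have h1 := Prod.ext_iff.1 h
        simp only at h1
        rw [← h1.1, ← h1.2]
        refine ⟨(pf_rec_ne k).1.symm, ?_⟩
        rw [dist_comm]
        exact hk

theorem pf_rec_OP_pos {n : ℕ} (r : ℝ) (v : Fin n → ℂ) (x : ℝ) :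
    0 < pf_rec_OP r v x ↔ ∃ i j, i ≠ j ∧ dist (v i) (v j) - 2 * r = x := by
  classical
  unfold pf_rec_OP
  rw [Finset.card_pos]
  constructor
  · rintro ⟨p, hp⟩
    rw [Finset.mem_filter] at hp
    exact ⟨p.1, p.2, hp.2⟩
  · rintro ⟨i, j, h⟩
    exact ⟨(i, j), Finset.mem_filter.2 ⟨Finset.mem_univ _, h⟩⟩

theorem pf_rec_chord (α β : ℝ) :
    ‖Complex.exp ((α : ℂ) * Complex.I) - Complex.exp ((β : ℂ) * Complex.I)‖ =
      2 * |Real.sin ((α - β) / 2)| := by
  have h1 : Complex.exp ((α : ℂ) * Complex.I) - Complex.exp ((β : ℂ) * Complex.I) =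
      Complex.exp ((β : ℂ) * Complex.I) * (Complex.exp (Complex.I * ((α - β : ℝ) : ℂ)) - 1) := by
    rw [mul_sub, ← Complex.exp_add, mul_one]
    congr 2
    push_cast
    ring
  rw [h1, norm_mul, Complex.norm_exp_ofReal_mul_I, one_mul,
    Complex.norm_exp_I_mul_ofReal_sub_one, Real.norm_eq_abs, abs_mul, abs_two]

theorem pf_rec_rv {m : ℕ} (i j : Fin (m + 3)) :
    ‖rv m i - rv m j‖ = 2 * |Real.sin (π * ((i : ℝ) - (j : ℝ)) / ((m : ℝ) + 3))| := by
  unfold rv
  rw [pf_rec_chord]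
  congr 3
  ring

theorem pf_rec_sin_pos (m : ℕ) : 0 < Real.sin (π / ((m : ℝ) + 3)) := by
  have h0 : (0 : ℝ) < (m : ℝ) + 3 := by positivity
  apply Real.sin_pos_of_pos_of_lt_pi
  · exact div_pos Real.pi_pos h0
  · rw [div_lt_iff₀ h0]
    nlinarith [Real.pi_pos, (Nat.cast_nonneg m : (0 : ℝ) ≤ m)]

theorem pf_rec_rv_adj {m : ℕ} (i : Fin (m + 3)) :
    ‖rv m i - rv m (i + 1)‖ = 2 * Real.sin (π / ((m : ℝ) + 3)) := by
  have h0 : (0 : ℝ) < (m : ℝ) + 3 := by positivity
  have hs := pf_rec_sin_pos m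
  rw [pf_rec_rv]
  congr 1
  by_cases hi : i.val + 1 < m + 3
  · have h1 : (i + 1).val = i.val + 1 := Fin.val_add_one_of_lt' hi
    rw [h1]
    have h2 : π * ((i : ℝ) - ((i.val + 1 : ℕ) : ℝ)) / ((m : ℝ) + 3) = -(π / ((m : ℝ) + 3)) := by
      push_cast
      field_simp
      ring
    rw [h2, Real.sin_neg, abs_neg, abs_of_pos hs]
  · have h1 : i.val = m + 2 := by omega
    have h2 : (i + 1).val = 0 := by
      rw [Fin.val_add, h1, Fin.val_one (m + 1)]
      exact Nat.mod_self (m + 3)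
    rw [h2, h1]
    have h3 : π * (((m + 2 : ℕ) : ℝ) - ((0 : ℕ) : ℝ)) / ((m : ℝ) + 3) =
        π - π / ((m : ℝ) + 3) := by
      push_cast
      field_simp
      ring
    rw [h3, Real.sin_pi_sub, abs_of_pos hs]

theorem pf_rec_rv_far_lt {m : ℕ} (i j : Fin (m + 3)) (hij : i.val < j.val) (h1 : j ≠ i + 1)
    (h2 : i ≠ j + 1) : √2 * (2 * Real.sin (π / ((m : ℝ) + 3))) ≤ ‖rv m i - rv m j‖ := by
  have h0 : (0 : ℝ) < (m : ℝ) + 3 := by positivity
  have hs := pf_rec_sin_pos m
  have hj := j.2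
  have hk1 : i.val + 2 ≤ j.val := by
    by_contra hcon
    apply h1
    apply Fin.ext
    rw [Fin.val_add_one_of_lt' (by omega)]
    omega
  have hk2 : j.val ≤ i.val + (m + 1) := by
    by_contra hcon
    apply h2
    apply Fin.ext
    have h3 : j.val = m + 2 := by omega
    rw [Fin.val_add, h3, Fin.val_one (m + 1)]
    have h4 : (m + 2 + 1) % (m + 3) = 0 := Nat.mod_self (m + 3)
    omega
  have hk1' : (i.val : ℝ) + 2 ≤ (j.val : ℝ) := by exact_mod_cast hk1
  have hk2' : (j.val : ℝ) ≤ (i.val : ℝ) + ((m : ℝ) + 1) := by exact_mod_cast hk2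
  have hm : (1 : ℝ) ≤ (m : ℝ) := by
    have : 1 ≤ m := by omega
    exact_mod_cast this
  have hpi := Real.pi_pos
  rw [pf_rec_rv]
  set x : ℝ := π * ((j : ℝ) - (i : ℝ)) / ((m : ℝ) + 3) with hx
  have hneg : π * ((i : ℝ) - (j : ℝ)) / ((m : ℝ) + 3) = -x := by
    rw [hx]
    ring
  rw [hneg, Real.sin_neg, abs_neg]
  set y : ℝ := π / ((m : ℝ) + 3) with hy
  have hy0 : 0 < y := div_pos hpi h0
  have hy4 : y ≤ π / 4 := by
    rw [hy]
    exact div_le_div_of_nonneg_left hpi.le (by norm_num) (by linarith)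
  have hxy : 2 * y ≤ x := by
    rw [hx, hy]
    rw [← mul_div_assoc, div_le_div_iff_of_pos_right h0]
    nlinarith
  have hxy2 : x ≤ π - 2 * y := by
    have h5 : π - 2 * y = π * ((m : ℝ) + 1) / ((m : ℝ) + 3) := by
      rw [hy]
      field_simp
      ring
    rw [h5, hx, div_le_div_iff_of_pos_right h0]
    nlinarith
  have hsin : Real.sin (2 * y) ≤ Real.sin x := by
    rcases le_total x (π / 2) with h6 | h6
    · exact Real.sin_le_sin_of_le_of_le_pi_div_two (by linarith) h6 hxy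
    · rw [← Real.sin_pi_sub x]
      exact Real.sin_le_sin_of_le_of_le_pi_div_two (by linarith) (by linarith) (by linarith)
  have hcos : √2 / 2 ≤ Real.cos y := by
    rw [← Real.cos_pi_div_four]
    exact Real.cos_le_cos_of_nonneg_of_le_pi hy0.le (by linarith) hy4
  have h7 : Real.sin (2 * y) = 2 * Real.sin y * Real.cos y := Real.sin_two_mul y
  have h8 : √2 * Real.sin y ≤ Real.sin x := by
    nlinarith
  have h9 : Real.sin x ≤ |Real.sin x| := le_abs_self _
  linarith

theorem pf_rec_rv_far {m : ℕ} (i j : Fin (m + 3)) (hij : i ≠ j) (h1 : j ≠ i + 1)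
    (h2 : i ≠ j + 1) : √2 * (2 * Real.sin (π / ((m : ℝ) + 3))) ≤ ‖rv m i - rv m j‖ := by
  rcases lt_or_gt_of_ne (fun h => hij (Fin.ext h) : i.val ≠ j.val) with h | h
  · exact pf_rec_rv_far_lt i j h h1 h2
  · rw [norm_sub_rev]
    exact pf_rec_rv_far_lt j i h h2 h1

theorem pf_rec_rv_all {m : ℕ} (i j : Fin (m + 3)) (hij : i ≠ j) :
    2 * Real.sin (π / ((m : ℝ) + 3)) ≤ ‖rv m i - rv m j‖ := by
  have hs := pf_rec_sin_pos m
  by_cases h1 : j = i + 1
  · rw [h1, pf_rec_rv_adj]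
  by_cases h2 : i = j + 1
  · rw [h2, norm_sub_rev, pf_rec_rv_adj]
  have h3 := pf_rec_rv_far i j hij h1 h2
  have h4 : (1 : ℝ) ≤ √2 := by
    rw [show (1 : ℝ) = √1 by simp]
    exact Real.sqrt_le_sqrt (by norm_num)
  nlinarith

theorem pf_rec_close {m : ℕ} (a ε : ℝ) (ha : 0 ≤ a) (u : ℂ) (hu : ‖u‖ = 1)
    (v : Fin (m + 3) → ℂ) (hv : ∀ i, ‖v i - a * u * rv m i‖ ≤ ε) (i j : Fin (m + 3)) :
    |dist (v i) (v j) - a * ‖rv m i - rv m j‖| ≤ 2 * ε := by
  have h1 : ‖(a : ℂ) * u * rv m i - a * u * rv m j‖ = a * ‖rv m i - rv m j‖ := by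
    rw [← mul_sub, norm_mul, norm_mul, hu, mul_one, Complex.norm_real, Real.norm_of_nonneg ha]
  rw [dist_eq_norm, ← h1]
  refine (abs_norm_sub_norm_le _ _).trans ?_
  have h2 : v i - v j - ((a : ℂ) * u * rv m i - a * u * rv m j) =
      (v i - a * u * rv m i) - (v j - a * u * rv m j) := by ring
  rw [h2]
  refine (norm_sub_le _ _).trans ?_
  linarith [hv i, hv j]

theorem pf_rec_norm_rv {m : ℕ} (i : Fin (m + 3)) : ‖rv m i‖ = 1 := by
  unfold rv
  exact Complex.norm_exp_ofReal_mul_I _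

theorem pf_rec_exp_lip (α β : ℝ) :
    ‖Complex.exp ((α : ℂ) * Complex.I) - Complex.exp ((β : ℂ) * Complex.I)‖ ≤ |α - β| := by
  rw [pf_rec_chord]
  have h1 : |Real.sin ((α - β) / 2)| ≤ |(α - β) / 2| := Real.abs_sin_le_abs
  rw [abs_div, abs_two] at h1
  linarith

/- PLAIN PROOF.
n = m + 3, s = sin(π/n). For w close to a·rv (each within η): |‖w i‖ - a| < η, so ogap R r w i ∈ (o - η, o + η), < 7h/5 for small η (o < 5h/4). Adjacent distances dist (w i) (w (i+1)) are within 2η of |a rv i - a rv (i+1)| = 2as = h + 2r (also for the wrap-around i = n - 1, where i + 1 = 0 in Fin n), so these n gaps are < 7h/5; the unordered pairs {i,i+1} are n different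
pairs as n >= 3. Non-adjacent pairs (n >= 4): |a rv i - a rv j| = 2a sin(π k/n), k = j - i with 2 <= k <= n - 2, >= 2a sin(2π/n) = 2 cos(π/n)(h+2r) >= √2 (h+2r) so the gap is >= √2 h + (2√2-2) r - 2η > 7h/5 for small η.
O-gaps: mu' equality for x < 7h/5 and all n values of ogap w are < 7h/5: summing over values, #{i | ogap w' i < 7h/5} >= ... = n, so all are, and the multisets of values agree: there is a permutation σ₀ with ogap w' i = ogap w (σ₀ i) (Multiset.map_univ_eq_iff or a bijection of fibres with equal cardinality), so ‖w' i‖ = ‖w (σ₀ i)‖, |‖w' i‖ - a| < η.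
H-gaps: every gap of w' below 7h/5 is a value of hgap w, hence >= h - 2η; so all pair distances of w' are >= h + 2r - 2η = 2as - 2η. S_reg (with min δ δ₁, δ₁ small) gives e, ψ with NR m, Po (w' ∘ e) ψ. σ := σ₀ ∘ e. Now w'(e i) = ‖·‖exp(ψ_i I) with ‖·‖ near a and angles near ψ_0 + 2πi/n, so adjacent distances (cyclic) are near 2as, < 7h/5 + 2r, and
non-adjacent distances are > 7h/5 + 2r, for η, δ₁ small (continuity; rotate by exp(-ψ_0 I): the points are within small distance of a·rv m i). So for w (and for w' ∘ e) the values of hgap below 7h/5 are exactly, with multiplicity, the n numbers dist (w i) (w (i+1)) - 2r: for x < 7h/5, mu' (hgap r w) x = #{i | dist (w i)(w (i+1)) - 2r = x}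
(bijection i ↦ the ordered pair of {i, i+1}) and mu' (hgap r w') x = #{i | dist (w'(e i)) (w'(e(i+1))) - 2r = x}. So the two functions i ↦ dist have the same multisets of values: permutation τ.
-/
theorem pf_rec (h1 : S_reg) : S_rec := by
  intro m R r a h o hr hh hho hoh ha hsin δ hδ
  have hs := pf_rec_sin_pos m
  have ha0 : 0 < a := by
    by_contra hcon
    push Not at hcon
    nlinarith
  have h2 : (7 : ℝ) / 5 < √2 := by
    rw [Real.lt_sqrt (by norm_num)]
    norm_num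
  set κ : ℝ := √2 * (h + 2 * r) - (7 / 5 * h + 2 * r) with hκ
  have hκ0 : 0 < κ := by
    rw [hκ]
    nlinarith
  obtain ⟨ε, hε0, hε1, hε2⟩ : ∃ ε : ℝ, 0 < ε ∧ ε ≤ h / 20 ∧ ε ≤ κ / 4 :=
    ⟨min (h / 20) (κ / 4), lt_min (by positivity) (by positivity), min_le_left _ _,
      min_le_right _ _⟩
  obtain ⟨δ', hδ'0, hδ'1, hδ'2⟩ : ∃ δ' : ℝ, 0 < δ' ∧ δ' ≤ δ ∧ δ' ≤ ε / (2 * a) :=
    ⟨min δ (ε / (2 * a)), lt_min hδ (by positivity), min_le_left _ _, min_le_right _ _⟩
  obtain ⟨η₀, hη₀, hreg⟩ := h1 m a δ' ha0 hδ'0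
  obtain ⟨η, hη0, hη1, hη2⟩ : ∃ η : ℝ, 0 < η ∧ η ≤ ε / 2 ∧ η ≤ η₀ / 2 :=
    ⟨min (ε / 2) (η₀ / 2), lt_min (by positivity) (by positivity), min_le_left _ _,
      min_le_right _ _⟩
  refine ⟨η, hη0, fun w w' hw hok hmu => ?_⟩
  -- the distances of `w`
  have hclose := pf_rec_close a η ha0.le 1 norm_one w (fun i => by
    rw [mul_one]
    exact (hw i).le)
  have hnw : ∀ i, |‖w i‖ - a| ≤ η := by
    intro i
    have h3 : ‖(a : ℂ) * rv m i‖ = a := by
      rw [norm_mul, pf_rec_norm_rv, mul_one, Complex.norm_real, Real.norm_of_nonneg ha0.le]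
    have h4 := (abs_norm_sub_norm_le (w i) (a * rv m i)).trans (hw i).le
    rwa [h3] at h4
  have hadj : ∀ (ε' : ℝ) (v : Fin (m + 3) → ℂ),
      (∀ i j, |dist (v i) (v j) - a * ‖rv m i - rv m j‖| ≤ 2 * ε') → ε' ≤ ε →
      (∀ i, dist (v i) (v (i + 1)) - 2 * r < 7 / 5 * h) ∧
      (∀ i j, i ≠ j → j ≠ i + 1 → i ≠ j + 1 → 7 / 5 * h ≤ dist (v i) (v j) - 2 * r) := by
    intro ε' v hv hε'
    constructor
    · intro i
      have h3 := hv i (i + 1)
      rw [pf_rec_rv_adj, abs_le] at h3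
      nlinarith [h3.2]
    · intro i j hij h4 h5
      have h3 := hv i j
      rw [abs_le] at h3
      have h6 := pf_rec_rv_far i j hij h4 h5
      have h7 := mul_le_mul_of_nonneg_left h6 ha0.le
      have h8 : a * (√2 * (2 * Real.sin (π / ((m : ℝ) + 3)))) = √2 * (h + 2 * r) := by
        rw [← hsin]
        ring
      rw [h8] at h7
      linarith [h3.1]
  obtain ⟨hw1, hw2⟩ := hadj η w hclose (by linarith)
  have hwall : ∀ i j, i ≠ j → h + 2 * r - 2 * η ≤ dist (w i) (w j) := by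
    intro i j hij
    have h3 := hclose i j
    rw [abs_le] at h3
    have h4 := mul_le_mul_of_nonneg_left (pf_rec_rv_all i j hij) ha0.le
    have h5 : a * (2 * Real.sin (π / ((m : ℝ) + 3))) = h + 2 * r := by
      rw [← hsin]
      ring
    rw [h5] at h4
    linarith [h3.1]
  -- the distances to the outer circle
  obtain ⟨-, σ₀, hσ₀⟩ := pf_rec_perm' (ogap R r w) (ogap R r w') (7 / 5 * h)
    (fun x hx => (hmu x hx).2) (fun i => by
      unfold ogap
      have h3 := hnw i
      rw [abs_le] at h3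
      rw [ha] at h3
      linarith [h3.1])
  have hnorm : ∀ i, ‖w' i‖ = ‖w (σ₀ i)‖ := by
    intro i
    have h3 := hσ₀ i
    unfold ogap at h3
    linarith
  -- the distances of `w'`
  have hw'all : ∀ i j, i ≠ j → h + 2 * r - 2 * η ≤ dist (w' i) (w' j) := by
    intro i j hij
    rcases lt_or_ge (dist (w' i) (w' j) - 2 * r) (7 / 5 * h) with h3 | h3
    · have h4 : 0 < pf_rec_OP r w' (dist (w' i) (w' j) - 2 * r) :=
        (pf_rec_OP_pos _ _ _).2 ⟨i, j, hij, rfl⟩
      rw [pf_rec_OP_mu, ← (hmu _ h3).1, ← pf_rec_OP_mu, pf_rec_OP_pos] at h4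
      obtain ⟨i', j', h5, h6⟩ := h4
      have h7 := hwall i' j' h5
      linarith
    · linarith
  obtain ⟨e, ψ, hNR, hPo⟩ := hreg w' (fun i => by
      rw [hnorm]
      exact (hnw _).trans (by linarith)) (fun i j hij => by
      have h3 := hw'all i j hij
      rw [hsin]
      linarith)
  -- `w' ∘ e` is close to a regular polygon
  have hv : ∀ i, ‖w' (e i) - a * Complex.exp ((ψ 0 : ℂ) * Complex.I) * rv m i‖ ≤ ε := by
    intro i
    have h3 : (a : ℂ) * Complex.exp ((ψ 0 : ℂ) * Complex.I) * rv m i =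
        a * Complex.exp (((ψ 0 + 2 * π * (i : ℝ) / ((m : ℝ) + 3) : ℝ) : ℂ) * Complex.I) := by
      unfold rv
      rw [mul_assoc, ← Complex.exp_add]
      congr 2
      push_cast
      ring
    rw [h3]
    have h4 := (hPo i).2
    have h5 : w' (e i) - a * Complex.exp (((ψ 0 + 2 * π * (i : ℝ) / ((m : ℝ) + 3) : ℝ) : ℂ) *
        Complex.I) = ((‖w' (e i)‖ - a : ℝ) : ℂ) * Complex.exp ((ψ i : ℂ) * Complex.I) +
        a * (Complex.exp ((ψ i : ℂ) * Complex.I) -
          Complex.exp (((ψ 0 + 2 * π * (i : ℝ) / ((m : ℝ) + 3) : ℝ) : ℂ) * Complex.I)) := by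
      conv_lhs => rw [show w' (e i) = (‖w' (e i)‖ : ℂ) * Complex.exp ((ψ i : ℂ) * Complex.I)
        from h4]
      push_cast
      ring
    rw [h5]
    refine (norm_add_le _ _).trans ?_
    rw [norm_mul, norm_mul, Complex.norm_exp_ofReal_mul_I, mul_one, Complex.norm_real,
      Complex.norm_real, Real.norm_eq_abs, Real.norm_of_nonneg ha0.le, hnorm]
    have h6 := hnw (σ₀ (e i))
    have h7 := pf_rec_exp_lip (ψ i) (ψ 0 + 2 * π * (i : ℝ) / ((m : ℝ) + 3))
    have h8 := hNR i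
    have h9 : a * ‖Complex.exp ((ψ i : ℂ) * Complex.I) -
          Complex.exp (((ψ 0 + 2 * π * (i : ℝ) / ((m : ℝ) + 3) : ℝ) : ℂ) * Complex.I)‖ ≤
        a * (ε / (2 * a)) := mul_le_mul_of_nonneg_left (h7.trans (h8.trans hδ'2)) ha0.le
    have h10 : a * (ε / (2 * a)) = ε / 2 := by
      field_simp
    linarith
  have hclose' := pf_rec_close a ε ha0.le (Complex.exp ((ψ 0 : ℂ) * Complex.I))
    (Complex.norm_exp_ofReal_mul_I _) (fun i => w' (e i)) hv
  obtain ⟨hv1, hv2⟩ := hadj ε (fun i => w' (e i)) hclose' le_rfl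
  obtain ⟨-, τ, hτ⟩ := pf_rec_perm' (fun i => dist (w i) (w (i + 1)) - 2 * r)
    (fun i => dist (w' (e i)) (w' (e (i + 1))) - 2 * r) (7 / 5 * h) (fun x hx => by
      have h3 := pf_rec_OP_adj r (7 / 5 * h) w x hx hw2
      have h4 := pf_rec_OP_adj r (7 / 5 * h) (fun i => w' (e i)) x hx hv2
      rw [pf_rec_OP_perm, pf_rec_OP_mu, ← (hmu x hx).1, ← pf_rec_OP_mu, h3] at h4
      omega) hw1
  refine ⟨e, σ₀ * e, τ, ψ, fun i => (hNR i).trans hδ'1, hPo, fun i => hnorm (e i), fun i => ?_⟩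
  have h3 : dist (w' (e i)) (w' (e (i + 1))) - 2 * r = dist (w (τ i)) (w (τ i + 1)) - 2 * r := hτ i
  linarith

end Pool.Agent.H212AN
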