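import Pool.Agent.H212AN.E3

set_option autoImplicit false

namespace Pool.Agent.H212AN

open MeasureTheory Set Filter Topology Metric
open Pool.Agent.H212AN.G (nG PG gm gk)
open scoped Real ENNReal ComplexConjugate

/- PLAIN PROOF.
n = m + 3, δ' = δ/n. Take η < a/2. θ_i = arg (w i) ∈ (-π,π]; w i = ‖w i‖ exp(θ_i I), ‖w i‖ > 0. Sort: a permutation e such that ψ_i = θ_{e i} is monotone (Tuple.sort: Monotone (f ∘ Tuple.sort f)). For two different indices let Δ ∈ [0,2π) be the difference of the larger and the smaller θ: dist² = ρ² + ρ'² - 2ρρ' cos Δ with |ρ-a|,|ρ'-a| <= η,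
dist >= 2a sin(π/n) - η. So cos Δ <= (ρ²+ρ'²-dist²)/(2ρρ') <= 1 - 2 sin²(π/n) + ω(η) = cos(2π/n) + ω(η) with ω(η) → 0 as η → 0 (explicit: everything is a continuous function of (ρ,ρ',η) near (a,a,0)). For η small enough this forces 2π/n - δ' <= Δ <= 2π - (2π/n - δ') (cos is strictly decreasing on [0,π]; if Δ < 2π/n - δ' or Δ > 2π - (2π/n-δ')
then cos Δ > cos(2π/n) + positive constant; w.l.o.g. δ' < 2π/n). Hence ψ_{i+1} - ψ_i >= 2π/n - δ' for i < n - 1 and ψ_{n-1} - ψ_0 <= 2π - (2π/n-δ'). Summing: ψ_i - ψ_0 >= i(2π/n - δ') and ψ_i - ψ_0 = (ψ_{n-1} - ψ_0) - (ψ_{n-1}-ψ_i) <= 2π - (2π/n - δ') - (n-1-i)(2π/n-δ') = 2π i/n + (n-i)δ'. So |ψ_i - ψ_0 - 2πi/n| <= nδ' = δ.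
-/
/-- the angle between two of the points is large -/
theorem pf_reg_cos {a η ρ₁ ρ₂ θ₁ θ₂ c D ε : ℝ} (ha : 0 < a) (hη : 0 < η) (hηa : η ≤ a / 2)
    (hηD : η ≤ D) (hηε : 20 * η ≤ a * ε) (hD : D ≤ 2 * a) (hc : 1 - c ≤ 2) (hc0 : 0 ≤ 1 - c)
    (hDc : 2 * a ^ 2 * (1 - c) = D ^ 2 - 2 * a ^ 2 * ε) (h1 : |ρ₁ - a| ≤ η) (h2 : |ρ₂ - a| ≤ η)
    (hd : D - η ≤ dist ((ρ₁ : ℂ) * Complex.exp ((θ₁ : ℂ) * Complex.I))
      ((ρ₂ : ℂ) * Complex.exp ((θ₂ : ℂ) * Complex.I))) : Real.cos (θ₁ - θ₂) < c := by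
  by_contra hcon
  push Not at hcon
  rw [abs_le] at h1 h2
  have e : dist ((ρ₁ : ℂ) * Complex.exp ((θ₁ : ℂ) * Complex.I))
      ((ρ₂ : ℂ) * Complex.exp ((θ₂ : ℂ) * Complex.I)) ^ 2 =
      ρ₁ ^ 2 + ρ₂ ^ 2 - 2 * ρ₁ * ρ₂ * Real.cos (θ₁ - θ₂) := by
    rw [Complex.dist_eq, ← Complex.normSq_eq_norm_sq, Complex.normSq_apply]
    simp only [Complex.exp_mul_I, Complex.sub_re, Complex.sub_im, Complex.mul_re, Complex.mul_im,
      Complex.add_re, Complex.add_im, Complex.ofReal_re, Complex.ofReal_im, Complex.I_re,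
      Complex.I_im, Complex.cos_ofReal_re, Complex.sin_ofReal_re, Complex.cos_ofReal_im,
      Complex.sin_ofReal_im]
    rw [Real.cos_sub]
    have s1 := Real.sin_sq_add_cos_sq θ₁
    have s2 := Real.sin_sq_add_cos_sq θ₂
    linear_combination ρ₁ ^ 2 * s1 + ρ₂ ^ 2 * s2
  have e1 : (D - η) ^ 2 ≤ ρ₁ ^ 2 + ρ₂ ^ 2 - 2 * ρ₁ * ρ₂ * Real.cos (θ₁ - θ₂) := by
    rw [← e]
    exact pow_le_pow_left₀ (by linarith) hd 2
  have p1 : 0 < ρ₁ := by linarith
  have p2 : 0 < ρ₂ := by linarith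
  have e2 : ρ₁ * ρ₂ * c ≤ ρ₁ * ρ₂ * Real.cos (θ₁ - θ₂) :=
    mul_le_mul_of_nonneg_left hcon (by positivity)
  have e3 : ρ₁ * ρ₂ ≤ (a + η) ^ 2 := by
    rw [sq]
    exact mul_le_mul (by linarith) (by linarith) p2.le (by linarith)
  have e4 : ρ₁ * ρ₂ * (1 - c) ≤ (a + η) ^ 2 * (1 - c) := mul_le_mul_of_nonneg_right e3 hc0
  have e5 : (ρ₁ - ρ₂) ^ 2 ≤ (2 * η) ^ 2 := by
    apply sq_le_sq'
    · linarith
    · linarith
  have e6 : (2 * a * η + η ^ 2) * (1 - c) ≤ (2 * a * η + η ^ 2) * 2 :=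
    mul_le_mul_of_nonneg_left hc (by positivity)
  have e7 : η ^ 2 ≤ a / 2 * η := by nlinarith
  have e8 : D * η ≤ 2 * a * η := mul_le_mul_of_nonneg_right hD hη.le
  have e9 : 20 * η * a ≤ a * ε * a := mul_le_mul_of_nonneg_right hηε ha.le
  have e10 : 0 < a * η := by positivity
  nlinarith

theorem pf_reg_step {n : ℕ} {ψ : Fin n → ℝ} {γ : ℝ}
    (h : ∀ i j : Fin n, i < j → γ < ψ j - ψ i) (i : ℕ) :
    ∀ j : ℕ, (hi : i < n) → (hj : j < n) → i ≤ j →
      ((j : ℝ) - i) * γ ≤ ψ ⟨j, hj⟩ - ψ ⟨i, hi⟩ := by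
  intro j
  induction j with
  | zero =>
    intro hi hj hij
    obtain rfl : i = 0 := by omega
    simp
  | succ j ih =>
    intro hi hj hij
    rcases Nat.lt_or_ge j i with h1 | h1
    · obtain rfl : i = j + 1 := by omega
      simp
    · have h2 := ih hi (by omega) h1
      have h3 := h ⟨j, by omega⟩ ⟨j + 1, hj⟩ (by
        rw [Fin.lt_def]
        exact Nat.lt_succ_self j)
      push_cast
      linarith

theorem pf_reg : S_reg := by
  intro m a δ ha hδ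
  have hN : (3 : ℝ) ≤ (m : ℝ) + 3 := by
    have : (0 : ℝ) ≤ m := Nat.cast_nonneg m
    linarith
  set N : ℝ := (m : ℝ) + 3 with hNdef
  have hN0 : 0 < N := by linarith
  have hπ := Real.pi_pos
  have hpN : π / N ≤ π / 3 := div_le_div_of_nonneg_left hπ.le (by norm_num) hN
  have hpN0 : 0 < π / N := by positivity
  obtain ⟨δ', hδ'0, hδ'1, hδ'2⟩ : ∃ δ' : ℝ, 0 < δ' ∧ N * δ' ≤ δ ∧ δ' ≤ π / N := by
    refine ⟨min (δ / N) (π / N), lt_min (by positivity) hpN0, ?_, min_le_right _ _⟩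
    have h1 : min (δ / N) (π / N) ≤ δ / N := min_le_left _ _
    have h2 : N * (δ / N) = δ := by field_simp
    have h3 := mul_le_mul_of_nonneg_left h1 hN0.le
    linarith
  set γ : ℝ := 2 * (π / N) - δ' with hγ
  have hγ0 : 0 < γ := by linarith
  have hγπ : γ < π := by linarith
  set ε : ℝ := Real.cos γ - Real.cos (2 * (π / N)) with hε
  have hε0 : 0 < ε := by
    have := Real.cos_lt_cos_of_nonneg_of_le_pi hγ0.le (y := 2 * (π / N)) (by linarith)
      (by linarith)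
    linarith
  set D : ℝ := 2 * a * Real.sin (π / N) with hD
  have hsin : 0 < Real.sin (π / N) := Real.sin_pos_of_pos_of_lt_pi hpN0 (by linarith)
  have hD0 : 0 < D := by positivity
  have hD2 : D ≤ 2 * a := by
    have := mul_le_mul_of_nonneg_left (Real.sin_le_one (π / N)) (by positivity : 0 ≤ 2 * a)
    linarith
  obtain ⟨η, hη0, hη1, hη2, hη3⟩ : ∃ η : ℝ, 0 < η ∧ η ≤ a / 2 ∧ η ≤ D ∧ 20 * η ≤ a * ε := by
    refine ⟨min (a / 2) (min D (a * ε / 20)), by positivity, min_le_left _ _,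
      (min_le_right _ _).trans (min_le_left _ _), ?_⟩
    have := (min_le_right (a / 2) (min D (a * ε / 20))).trans (min_le_right _ _)
    linarith
  refine ⟨η, hη0, ?_⟩
  intro w hw hdist
  have hDc : 2 * a ^ 2 * (1 - Real.cos γ) = D ^ 2 - 2 * a ^ 2 * ε := by
    have h1 : Real.cos (2 * (π / N)) = 1 - 2 * Real.sin (π / N) ^ 2 := by
      rw [Real.cos_two_mul, ← Real.sin_sq_add_cos_sq (π / N)]
      ring
    rw [hε, h1, hD]
    ring
  have hpos : ∀ i, 0 < ‖w i‖ := by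
    intro i
    have := (abs_le.1 (hw i)).1
    linarith
  have hpol : ∀ i, w i = (‖w i‖ : ℂ) * Complex.exp ((Complex.arg (w i) : ℂ) * Complex.I) :=
    fun i => (Complex.norm_mul_exp_arg_mul_I (w i)).symm
  have hcos : ∀ i j, i ≠ j → Real.cos (Complex.arg (w i) - Complex.arg (w j)) < Real.cos γ := by
    intro i j hij
    refine pf_reg_cos ha hη0 hη1 hη2 hη3 hD2 ?_ ?_ hDc (hw i) (hw j) ?_
    · linarith [Real.neg_one_le_cos γ]
    · linarith [Real.cos_le_one γ]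
    · rw [← hpol i, ← hpol j]
      exact hdist i j hij
  set θ : Fin (m + 3) → ℝ := fun i => Complex.arg (w i) with hθ
  refine ⟨Tuple.sort θ, fun i => θ (Tuple.sort θ i), ?_, fun i => ⟨hpos _, hpol _⟩⟩
  have hmono : Monotone (fun i => θ (Tuple.sort θ i)) := Tuple.monotone_sort θ
  have hstep : ∀ i j : Fin (m + 3), i < j →
      γ < θ (Tuple.sort θ j) - θ (Tuple.sort θ i) ∧
        θ (Tuple.sort θ j) - θ (Tuple.sort θ i) < 2 * π - γ := by
    intro i j hij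
    have h1 := hcos (Tuple.sort θ j) (Tuple.sort θ i)
      (fun h => hij.ne' ((Tuple.sort θ).injective h))
    have h2 : θ (Tuple.sort θ i) ≤ θ (Tuple.sort θ j) := hmono hij.le
    have h3 : -π < θ (Tuple.sort θ i) := Complex.neg_pi_lt_arg _
    have h4 : θ (Tuple.sort θ j) ≤ π := Complex.arg_le_pi _
    constructor
    · by_contra h5
      push Not at h5
      have := Real.cos_le_cos_of_nonneg_of_le_pi (x := θ (Tuple.sort θ j) - θ (Tuple.sort θ i))
        (by linarith) hγπ.le h5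
      have h6 : Real.cos (θ (Tuple.sort θ j) - θ (Tuple.sort θ i)) < Real.cos γ := h1
      linarith
    · by_contra h5
      push Not at h5
      have := Real.cos_le_cos_of_nonneg_of_le_pi
        (x := 2 * π - (θ (Tuple.sort θ j) - θ (Tuple.sort θ i)))
        (by linarith) hγπ.le (by linarith)
      rw [Real.cos_two_pi_sub] at this
      have h6 : Real.cos (θ (Tuple.sort θ j) - θ (Tuple.sort θ i)) < Real.cos γ := h1
      linarith
  intro i
  have hlow := pf_reg_step (ψ := fun i => θ (Tuple.sort θ i)) (γ := γ)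
    (fun i j hij => (hstep i j hij).1) 0 i.1 (by omega) i.2 (Nat.zero_le _)
  have hup := pf_reg_step (ψ := fun i => θ (Tuple.sort θ i)) (γ := γ)
    (fun i j hij => (hstep i j hij).1) i.1 (m + 2) i.2 (by omega) (by omega)
  have hlast := (hstep 0 ⟨m + 2, by omega⟩ (by rw [Fin.lt_def]; simp)).2
  have hi : ((i : ℕ) : ℝ) ≤ N := by
    have : ((i : ℕ) : ℝ) ≤ ((m + 3 : ℕ) : ℝ) := by exact_mod_cast i.2.le
    push_cast at this
    linarith
  have hi0 : (0 : ℝ) ≤ ((i : ℕ) : ℝ) := Nat.cast_nonneg _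
  have hNπ : N * (π / N) = π := by field_simp
  have e1 : 2 * π * ((i : ℕ) : ℝ) / N = 2 * ((i : ℕ) : ℝ) * (π / N) := by ring
  have z : (⟨0, by omega⟩ : Fin (m + 3)) = 0 := rfl
  simp only [Fin.eta, z] at hlow hup
  push_cast at hlow hup
  rw [abs_le]
  beta_reduce
  rw [e1]
  have k1 : ((i : ℕ) : ℝ) * δ' ≤ N * δ' := mul_le_mul_of_nonneg_right hi hδ'0.le
  have k2 : (N - ((i : ℕ) : ℝ)) * δ' ≤ N * δ' :=
    mul_le_mul_of_nonneg_right (by linarith) hδ'0.le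
  constructor
  · rw [hγ] at hlow
    nlinarith
  · have k3 : ((m : ℝ) + 2 - ((i : ℕ) : ℝ)) * γ = (N - ((i : ℕ) : ℝ)) * γ - γ := by
      rw [hNdef]
      ring
    have k4 : (N - ((i : ℕ) : ℝ)) * γ = 2 * π - 2 * ((i : ℕ) : ℝ) * (π / N) -
        (N - ((i : ℕ) : ℝ)) * δ' := by
      rw [hγ]
      linear_combination 2 * hNπ
    rw [k3, k4] at hup
    linarith

end Pool.Agent.H212AN
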