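import Pool.Agent.H212AN.E2

set_option autoImplicit false

namespace Pool.Agent.H212AN

open MeasureTheory Set Filter Topology Metric
open Pool.Agent.H212AN.G (nG PG gm gk)
open scoped Real ENNReal ComplexConjugate

theorem pf_wi_cd_tri (a b c : unitInterval) : cd a c ≤ cd a b + cd b c := by
  obtain ⟨a, ha0, ha1⟩ := a
  obtain ⟨b, hb0, hb1⟩ := b
  obtain ⟨c, hc0, hc1⟩ := c
  simp only [cd]
  rcases abs_cases (a - c) with h1 | h1 <;> rcases abs_cases (a - b) with h2 | h2 <;>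
    rcases abs_cases (b - c) with h3 | h3 <;> rw [h1.1, h2.1, h3.1] <;>
    simp only [min_def] <;> split_ifs <;> linarith

theorem pf_wi_min (a b : ℝ) : min a b = 2⁻¹ * (a + b - |a - b|) := by
  rcases le_total a b with h | h
  · rw [min_eq_left h, abs_of_nonpos (by linarith)]; ring
  · rw [min_eq_right h, abs_of_nonneg (by linarith)]; ring

theorem pf_wi_cd_comm (a b : ℝ) : cd a b = cd b a := by
  simp only [cd, abs_sub_comm]

theorem pf_wi_var2 (δ : ℝ) (p : Fin 2 → unitInterval)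
    (h : cd (p 1) (p 0) ≤ 1 / 2 - δ) (hδ : 0 < δ) :
    ∑ i, ∑ j, (![1, -1] : Fin 2 → ℝ) i * (![1, -1] : Fin 2 → ℝ) j *
      (2 * (min (p i : ℝ) (p j) - (p i : ℝ) * p j)) ≤ 1 / 2 - δ ^ 2 := by
  simp only [Fin.sum_univ_two, Matrix.cons_val_zero, Matrix.cons_val_one, min_self]
  rw [min_comm (p 1 : ℝ) (p 0)]
  rw [pf_wi_min]
  simp only [cd] at h
  rw [abs_sub_comm] at h
  set ρ := |(p 0 : ℝ) - p 1| with hρ
  have hsq : ρ ^ 2 = ((p 0 : ℝ) - p 1) ^ 2 := by rw [hρ, sq_abs]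
  have hk : δ ^ 2 ≤ (1 / 2 - ρ) ^ 2 := by
    rcases min_choice ρ (1 - ρ) with h' | h' <;> rw [h'] at h
    · nlinarith
    · nlinarith
  nlinarith

theorem pf_wi_var3 (δ : ℝ) (s u v : unitInterval)
    (h : δ ≤ cd u v) (hδ : 0 < δ) (hδ' : δ ≤ 1 / 4) :
    |(s : ℝ) - u| + |(s : ℝ) - v| - 1 / 2 * |(u : ℝ) - v| - 2 * ((s : ℝ) - (u + v) / 2) ^ 2
      ≤ 1 / 2 - δ ^ 2 := by
  simp only [cd] at h
  have h1 := le_min_iff.1 h
  set a := |(s : ℝ) - u| with ha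
  set b := |(s : ℝ) - v| with hb
  set c := |(u : ℝ) - v| with hc
  have e1 : a ^ 2 = ((s : ℝ) - u) ^ 2 := by rw [ha, sq_abs]
  have e2 : b ^ 2 = ((s : ℝ) - v) ^ 2 := by rw [hb, sq_abs]
  have e3 : c ^ 2 = ((u : ℝ) - v) ^ 2 := by rw [hc, sq_abs]
  have e4 : 2 * ((s : ℝ) - (u + v) / 2) ^ 2 = a ^ 2 + b ^ 2 - 1 / 2 * c ^ 2 := by
    rw [e1, e2, e3]; ring
  rw [e4]
  nlinarith [sq_nonneg (a - 1 / 2), sq_nonneg (b - 1 / 2), mul_nonneg (sub_nonneg.2 h1.1)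
    (sub_nonneg.2 h1.2)]

theorem pf_wi_var3a (δ : ℝ) (p : Fin 3 → unitInterval)
    (h : δ ≤ cd (p 1) (p 2)) (hδ : 0 < δ) (hδ' : δ ≤ 1 / 4) :
    ∑ i, ∑ j, (![1, -1 / 2, -1 / 2] : Fin 3 → ℝ) i * (![1, -1 / 2, -1 / 2] : Fin 3 → ℝ) j *
      (2 * (min (p i : ℝ) (p j) - (p i : ℝ) * p j)) ≤ 1 / 2 - δ ^ 2 := by
  have key := pf_wi_var3 δ (p 0) (p 1) (p 2) h hδ hδ'
  simp only [Fin.sum_univ_three, Matrix.cons_val_zero, Matrix.cons_val_one, Matrix.cons_val_two,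
    Matrix.head_cons, Matrix.tail_cons, Matrix.cons_val, min_self]
  rw [min_comm (p 1 : ℝ) (p 0), min_comm (p 2 : ℝ) (p 0), min_comm (p 2 : ℝ) (p 1),
    pf_wi_min, pf_wi_min, pf_wi_min]
  nlinarith

theorem pf_wi_var3b (δ : ℝ) (p : Fin 3 → unitInterval)
    (h : δ ≤ cd (p 1) (p 2)) (hδ : 0 < δ) (hδ' : δ ≤ 1 / 4) :
    ∑ i, ∑ j, (![-1, 1 / 2, 1 / 2] : Fin 3 → ℝ) i * (![-1, 1 / 2, 1 / 2] : Fin 3 → ℝ) j *
      (2 * (min (p i : ℝ) (p j) - (p i : ℝ) * p j)) ≤ 1 / 2 - δ ^ 2 := by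
  have key := pf_wi_var3 δ (p 0) (p 1) (p 2) h hδ hδ'
  simp only [Fin.sum_univ_three, Matrix.cons_val_zero, Matrix.cons_val_one, Matrix.cons_val_two,
    Matrix.head_cons, Matrix.tail_cons, Matrix.cons_val, min_self]
  rw [min_comm (p 1 : ℝ) (p 0), min_comm (p 2 : ℝ) (p 0), min_comm (p 2 : ℝ) (p 1),
    pf_wi_min, pf_wi_min, pf_wi_min]
  nlinarith

/-- the deterministic part -/
theorem pf_wi_det (N : ℕ) (hN : 0 < N) (x l t δ : ℝ) (hδ : δ = 1 / (4 * N)) (hl : 0 < l)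
    (ht : 0 < t) (y : LR) (hW : x - l ≤ √t * Wi y)
    (hb : ∀ j : ℕ, j ≤ N → ¬ Gd (2 / N) l t (pj (j / N)) y) :
    (∃ p ∈ {p : Fin 2 → unitInterval | cd (p 1) (p 0) ≤ 1 / 2 - δ},
      (x - 2 * l) / √t ≤ ∑ i, (![1, -1] : Fin 2 → ℝ) i * y (p i)) ∨
    (∃ p ∈ {p : Fin 3 → unitInterval | δ ≤ cd (p 1) (p 2)},
      (x - 2 * l) / √t ≤ ∑ i, (![1, -1 / 2, -1 / 2] : Fin 3 → ℝ) i * y (p i)) ∨
    (∃ p ∈ {p : Fin 3 → unitInterval | δ ≤ cd (p 1) (p 2)},
      (x - 2 * l) / √t ≤ ∑ i, (![-1, 1 / 2, 1 / 2] : Fin 3 → ℝ) i * y (p i)) := by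
  have hst : 0 < √t := Real.sqrt_pos.2 ht
  have hNr : (0:ℝ) < N := by exact_mod_cast hN
  obtain ⟨s, -, hs⟩ := isCompact_univ.exists_isMinOn (univ_nonempty (α := unitInterval))
    y.continuous.continuousOn
  obtain ⟨u, -, hu⟩ := isCompact_univ.exists_isMaxOn (univ_nonempty (α := unitInterval))
    y.continuous.continuousOn
  have hs' : ∀ v, y s ≤ y v := fun v => hs (mem_univ v)
  have hu' : ∀ v, y v ≤ y u := fun v => hu (mem_univ v)
  have hinf : sInf (range y) = y s := by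
    apply le_antisymm
    · exact csInf_le ⟨y s, by rintro _ ⟨v, rfl⟩; exact hs' v⟩ ⟨s, rfl⟩
    · exact le_csInf (range_nonempty _) (by rintro _ ⟨v, rfl⟩; exact hs' v)
  have hsup : sSup (range y) = y u := by
    apply le_antisymm
    · exact csSup_le (range_nonempty _) (by rintro _ ⟨v, rfl⟩; exact hu' v)
    · exact le_csSup ⟨y u, by rintro _ ⟨v, rfl⟩; exact hu' v⟩ ⟨u, rfl⟩
  rw [Wi, hinf, hsup] at hW
  by_cases hA : cd s u ≤ 1 / 2 - δ
  · left
    refine ⟨![u, s], by simpa using hA, ?_⟩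
    rw [div_le_iff₀ hst]
    simp only [Fin.sum_univ_two, Matrix.cons_val_zero, Matrix.cons_val_one]
    nlinarith
  · push Not at hA
    right
    -- the grid point
    have hs0 : (0:ℝ) ≤ s := s.2.1
    have hs1 : (s:ℝ) ≤ 1 := s.2.2
    obtain ⟨j, hj, hj'⟩ : ∃ j : ℕ, j ≤ N ∧ |(j : ℝ) / N - s| ≤ 1 / (2 * N) := by
      have hr0 : 0 ≤ round ((s : ℝ) * N) := by
        rw [round_eq]
        apply Int.floor_nonneg.2
        positivity
      have hr1 : round ((s : ℝ) * N) ≤ N := by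
        rw [round_eq]
        apply Int.le_of_lt_add_one
        rw [Int.floor_lt]
        push_cast
        nlinarith
      refine ⟨(round ((s : ℝ) * N)).toNat, by omega, ?_⟩
      have e : (((round ((s : ℝ) * N)).toNat : ℕ) : ℝ) = (round ((s : ℝ) * N) : ℝ) := by
        have : (((round ((s : ℝ) * N)).toNat : ℕ) : ℤ) = round ((s : ℝ) * N) :=
          Int.toNat_of_nonneg hr0
        exact_mod_cast this
      rw [e]
      have h2 := abs_sub_round ((s : ℝ) * N)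
      have h3 : (round ((s : ℝ) * N) : ℝ) / N - s = -(((s : ℝ) * N - round ((s : ℝ) * N)) / N) := by
        field_simp
        ring
      rw [h3, abs_neg, abs_div, abs_of_pos hNr, div_le_div_iff₀ hNr (by positivity)]
      nlinarith
    have hjr : (j : ℝ) / N ∈ Icc (0:ℝ) 1 := by
      refine ⟨by positivity, ?_⟩
      rw [div_le_one hNr]
      exact_mod_cast hj
    have hpj : ((pj ((j : ℝ) / N) : unitInterval) : ℝ) = j / N := by
      unfold pj
      rw [projIcc_of_mem _ hjr]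
    set h := pj ((j : ℝ) / N) with hh
    have hcd : cd s h ≤ 1 / (2 * N) := by
      rw [hpj]
      exact (min_le_left _ _).trans (by rw [abs_sub_comm]; exact hj')
    have hng := hb j hj
    rw [← hh] at hng
    have hδe : 1 / (2 * (N:ℝ)) = 2 * δ := by rw [hδ]; field_simp; norm_num
    have hδe' : 2 / (N:ℝ) = 8 * δ := by rw [hδ]; field_simp; norm_num
    have hδp : 0 < δ := by rw [hδ]; positivity
    rw [hδe] at hcd
    rw [hδe'] at hng
    unfold Gd at hng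
    rw [hinf, hsup] at hng
    rw [not_and_or] at hng
    rcases hng with hng | hng
    · push Not at hng
      obtain ⟨v, hv, hv'⟩ := hng
      left
      have t1 := pf_wi_cd_tri v s h
      have t2 := pf_wi_cd_comm v s
      refine ⟨![u, s, v], ?_, ?_⟩
      · simp only [mem_ofPred_eq, Matrix.cons_val_one, Matrix.cons_val_two, Matrix.head_cons,
          Matrix.tail_cons, Matrix.cons_val]
        linarith
      · rw [div_le_iff₀ hst]
        simp only [Fin.sum_univ_three, Matrix.cons_val_zero, Matrix.cons_val_one,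
          Matrix.cons_val_two, Matrix.head_cons, Matrix.tail_cons, Matrix.cons_val]
        nlinarith
    · push Not at hng
      obtain ⟨v, hv, hv'⟩ := hng
      right
      have t1 := pf_wi_cd_tri s v u
      have t2 := pf_wi_cd_tri s h v
      have t3 := pf_wi_cd_comm v h
      have t4 := pf_wi_cd_comm v u
      refine ⟨![s, u, v], ?_, ?_⟩
      · simp only [mem_ofPred_eq, Matrix.cons_val_one, Matrix.cons_val_two, Matrix.head_cons,
          Matrix.tail_cons, Matrix.cons_val]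
        linarith
      · rw [div_le_iff₀ hst]
        simp only [Fin.sum_univ_three, Matrix.cons_val_zero, Matrix.cons_val_one,
          Matrix.cons_val_two, Matrix.head_cons, Matrix.tail_cons, Matrix.cons_val]
        nlinarith

theorem pf_wi_closed2 (δ : ℝ) : IsClosed {p : Fin 2 → unitInterval | cd (p 1) (p 0) ≤ 1 / 2 - δ} := by
  apply isClosed_le _ continuous_const
  unfold cd
  fun_prop

theorem pf_wi_closed3 (δ : ℝ) : IsClosed {p : Fin 3 → unitInterval | δ ≤ cd (p 1) (p 2)} := by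
  apply isClosed_le continuous_const
  unfold cd
  fun_prop

/-- moments of the real path -/
theorem pf_wi_mom (h2 : S_mom) (μ : Measure Lo) (ν : Measure LR) (hL : IsLoop μ) (hB : IsBr μ ν)
    (n : ℕ) : ∫⁻ y, ENNReal.ofReal ((1 + ‖y‖) ^ n) ∂ν ≠ ∞ := by
  haveI := hB.prob
  haveI := hL.prob
  have hm : AEMeasurable (fun p : LR × LR => jn p.1 p.2) (ν.prod ν) := by
    by_contra hc
    have h0 : μ = 0 := by rw [hB.prod, Measure.map_of_not_aemeasurable hc]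
    exact (IsProbabilityMeasure.ne_zero μ) h0
  have hI : ∫⁻ b : Lo, ENNReal.ofReal (2 ^ (n - 1) * (1 + ‖b‖ ^ n)) ∂μ ≠ ∞ := by
    have hint : Integrable (fun b : Lo => (2:ℝ) ^ (n - 1) * (1 + ‖b‖ ^ n)) μ :=
      ((integrable_const (1:ℝ)).add (h2 μ hL n)).const_mul _
    exact hint.lintegral_lt_top.ne
  have hmeas : Measurable (fun b : Lo => ENNReal.ofReal (2 ^ (n - 1) * (1 + ‖b‖ ^ n))) := by
    apply ENNReal.measurable_ofReal.comp
    apply Continuous.measurable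
    fun_prop
  rw [hB.prod, lintegral_map' hmeas.aemeasurable hm] at hI
  have hmeas2 : Measurable (fun y : LR => ENNReal.ofReal ((1 + ‖y‖) ^ n)) := by
    apply ENNReal.measurable_ofReal.comp
    apply Continuous.measurable
    fun_prop
  have e1 : ∫⁻ p : LR × LR, ENNReal.ofReal ((1 + ‖p.1‖) ^ n) ∂(ν.prod ν) =
      ∫⁻ y, ENNReal.ofReal ((1 + ‖y‖) ^ n) ∂ν := by
    rw [← lintegral_map hmeas2 measurable_fst]
    congr 1
    rw [Measure.map_fst_prod]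
    simp
  rw [← e1]
  apply ne_top_of_le_ne_top hI
  apply lintegral_mono
  intro p
  apply ENNReal.ofReal_le_ofReal
  have hn : ‖p.1‖ ≤ ‖jn p.1 p.2‖ := by
    rw [ContinuousMap.norm_le _ (norm_nonneg _)]
    intro s
    have := (jn p.1 p.2).norm_coe_le_norm s
    refine le_trans ?_ this
    have h3 : ((jn p.1 p.2) s).re = p.1 s := by simp [jn]
    rw [← h3]
    exact Complex.abs_re_le_norm _
  calc (1 + ‖p.1‖) ^ n ≤ (1 + ‖jn p.1 p.2‖) ^ n := by gcongr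
    _ ≤ 2 ^ (n - 1) * (1 ^ n + ‖jn p.1 p.2‖ ^ n) := add_pow_le zero_le_one (norm_nonneg _) n
    _ = _ := by rw [one_pow]

theorem pf_wi_num (x e q : ℝ) (hx : 0 < x) (he0 : 0 < e) (he1 : e ≤ 1 / 16) (hq : 2 / e ≤ q) :
    x ^ 2 + x ^ 2 * e / 2 ≤
      (1 - e / 2) * (x - 2 * (x * e / 8)) ^ 2 / (2 * (1 / 2 - e)) * (1 - q⁻¹) := by
  have hq0 : 0 < q := lt_of_lt_of_le (by positivity) hq
  have hqi : q⁻¹ ≤ e / 2 := by
    have := inv_anti₀ (by positivity) hq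
    rwa [inv_div] at this
  have h1 : 1 - e / 2 ≤ 1 - q⁻¹ := by linarith
  have h2 : (1 - e / 2) * (x - 2 * (x * e / 8)) ^ 2 / (2 * (1 / 2 - e)) * (1 - e / 2) ≤
      (1 - e / 2) * (x - 2 * (x * e / 8)) ^ 2 / (2 * (1 / 2 - e)) * (1 - q⁻¹) := by
    apply mul_le_mul_of_nonneg_left h1
    apply div_nonneg
    · apply mul_nonneg (by linarith) (sq_nonneg _)
    · linarith
  refine le_trans ?_ h2
  rw [div_mul_eq_mul_div, le_div_iff₀ (by linarith)]
  have h3 : (x ^ 2 + x ^ 2 * e / 2) * (2 * (1 / 2 - e)) = x ^ 2 * (1 - 3 / 2 * e - e ^ 2) := by ring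
  have h4 : (1 - e / 2) * (x - 2 * (x * e / 8)) ^ 2 * (1 - e / 2) =
      x ^ 2 * ((1 - e / 2) ^ 2 * (1 - e / 4) ^ 2) := by ring
  rw [h3, h4]
  apply mul_le_mul_of_nonneg_left _ (sq_nonneg x)
  have h5 : 1 - e / 2 ≤ (1 - e / 4) ^ 2 := by nlinarith
  have h6 : 1 - e ≤ (1 - e / 2) ^ 2 := by nlinarith
  have h7 : (1 - e) * (1 - e / 2) ≤ (1 - e / 2) ^ 2 * (1 - e / 4) ^ 2 :=
    mul_le_mul h6 h5 (by linarith) (sq_nonneg _)
  nlinarith

theorem pf_wi (h1 : S_gt) (h2 : S_mom) : S_wi := by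
  intro μ ν hL hB x N hx hN
  have := hB.prob
  have hNr : (0:ℝ) < N := by exact_mod_cast hN
  have hN1 : (1:ℝ) ≤ N := by exact_mod_cast hN
  obtain ⟨δ, hδ⟩ : ∃ δ : ℝ, δ = 1 / (4 * N) := ⟨_, rfl⟩
  have hδ0 : 0 < δ := by rw [hδ]; positivity
  have hδ1 : δ ≤ 1 / 4 := by
    rw [hδ]; exact one_div_le_one_div_of_le (by norm_num) (by linarith)
  have he0 : 0 < δ ^ 2 := by positivity
  have he1 : δ ^ 2 ≤ 1 / 16 := by nlinarith
  have hV : 0 < 1 / 2 - δ ^ 2 := by linarith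
  have hθ0 : 0 < 1 - δ ^ 2 / 2 := by linarith
  have hθ1 : 1 - δ ^ 2 / 2 < 1 := by linarith
  obtain ⟨C₁, hC₁⟩ := h1 μ ν hL hB 2 ![1, -1] _ (1 / 2 - δ ^ 2) (1 - δ ^ 2 / 2)
    (pf_wi_closed2 δ) hV hθ0 hθ1 (fun p hp => pf_wi_var2 δ p hp hδ0)
  obtain ⟨C₂, hC₂⟩ := h1 μ ν hL hB 3 ![1, -1 / 2, -1 / 2] _ (1 / 2 - δ ^ 2) (1 - δ ^ 2 / 2)
    (pf_wi_closed3 δ) hV hθ0 hθ1 (fun p hp => pf_wi_var3a δ p hp hδ0 hδ1)
  obtain ⟨C₃, hC₃⟩ := h1 μ ν hL hB 3 ![-1, 1 / 2, 1 / 2] _ (1 / 2 - δ ^ 2) (1 - δ ^ 2 / 2)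
    (pf_wi_closed3 δ) hV hθ0 hθ1 (fun p hp => pf_wi_var3b δ p hp hδ0 hδ1)
  obtain ⟨q, hq⟩ := exists_nat_ge (2 / δ ^ 2)
  have hq1 : (1:ℝ) < q := by
    refine lt_of_lt_of_le ?_ hq
    rw [lt_div_iff₀ he0]
    linarith
  have hq0 : (0:ℝ) < q := by linarith
  have hqn : q ≠ 0 := by
    rintro rfl
    simp at hq0
  obtain ⟨r, hr⟩ : ∃ r : ℝ, r.HolderConjugate q := ⟨_, (Real.HolderConjugate.conjExponent hq1).symm⟩
  have hr0 : 0 < r := hr.pos
  have hri : 1 / r = 1 - (q:ℝ)⁻¹ := by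
    have := hr.inv_add_inv_eq_one
    rw [one_div]; linarith
  have hK := pf_wi_mom h2 μ ν hL hB (4 * q)
  set K := ∫⁻ y, ENNReal.ofReal ((1 + ‖y‖) ^ (4 * q)) ∂ν with hKdef
  set l : ℝ := x * δ ^ 2 / 8 with hl
  have hl0 : 0 < l := by positivity
  have hlx : l < x := by rw [hl]; nlinarith
  have hxl : 0 ≤ x - 2 * l := by rw [hl]; nlinarith
  set D : ℝ := |C₁| + |C₂| + |C₃| with hD
  have hD0 : 0 ≤ D := by positivity
  set κ : ℝ := (1 - δ ^ 2 / 2) * (x - 2 * l) ^ 2 / (2 * (1 / 2 - δ ^ 2)) with hκ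
  have hnum := pf_wi_num x (δ ^ 2) q hx he0 he1 hq
  rw [← hl, ← hκ, ← hri] at hnum
  refine ⟨l, x ^ 2 * δ ^ 2 / 2, D ^ (1 / r) * (K ^ (1 / (q:ℝ))).toReal, hl0, hlx, by positivity, ?_⟩
  intro t ht _
  have hst : 0 < √t := Real.sqrt_pos.2 ht
  set E₁ : Set LR := {y : LR | ∃ p ∈ {p : Fin 2 → unitInterval | cd (p 1) (p 0) ≤ 1 / 2 - δ},
      (x - 2 * l) / √t ≤ ∑ i, (![1, -1] : Fin 2 → ℝ) i * y (p i)} with hE₁
  set E₂ : Set LR := {y : LR | ∃ p ∈ {p : Fin 3 → unitInterval | δ ≤ cd (p 1) (p 2)},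
      (x - 2 * l) / √t ≤ ∑ i, (![1, -1 / 2, -1 / 2] : Fin 3 → ℝ) i * y (p i)} with hE₂
  set E₃ : Set LR := {y : LR | ∃ p ∈ {p : Fin 3 → unitInterval | δ ≤ cd (p 1) (p 2)},
      (x - 2 * l) / √t ≤ ∑ i, (![-1, 1 / 2, 1 / 2] : Fin 3 → ℝ) i * y (p i)} with hE₃
  have hL0 : 0 ≤ (x - 2 * l) / √t := div_nonneg hxl hst.le
  have hexp : (1 - δ ^ 2 / 2) * ((x - 2 * l) / √t) ^ 2 / (2 * (1 / 2 - δ ^ 2)) = κ / t := by
    rw [div_pow, Real.sq_sqrt ht.le, hκ]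
    field_simp
  have b1 := hC₁ _ hL0
  have b2 := hC₂ _ hL0
  have b3 := hC₃ _ hL0
  rw [hexp] at b1 b2 b3
  have hE : ν (E₁ ∪ (E₂ ∪ E₃)) ≤ ENNReal.ofReal (D * Real.exp (-(κ / t))) := by
    have e0 : 0 ≤ Real.exp (-(κ / t)) := (Real.exp_pos _).le
    calc ν (E₁ ∪ (E₂ ∪ E₃)) ≤ ν E₁ + (ν E₂ + ν E₃) :=
          (measure_union_le _ _).trans (add_le_add le_rfl (measure_union_le _ _))
      _ ≤ ENNReal.ofReal (|C₁| * Real.exp (-(κ / t))) + (ENNReal.ofReal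
          (|C₂| * Real.exp (-(κ / t))) + ENNReal.ofReal (|C₃| * Real.exp (-(κ / t)))) := by
          refine add_le_add (b1.trans ?_) (add_le_add (b2.trans ?_) (b3.trans ?_))
          · exact ENNReal.ofReal_le_ofReal (mul_le_mul_of_nonneg_right (le_abs_self _) e0)
          · exact ENNReal.ofReal_le_ofReal (mul_le_mul_of_nonneg_right (le_abs_self _) e0)
          · exact ENNReal.ofReal_le_ofReal (mul_le_mul_of_nonneg_right (le_abs_self _) e0)
      _ = ENNReal.ofReal (D * Real.exp (-(κ / t))) := by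
          rw [← ENNReal.ofReal_add (by positivity) (by positivity),
            ← ENNReal.ofReal_add (by positivity) (by positivity)]
          congr 1
          rw [hD]; ring
  have hsub : {y : LR | x - l ≤ √t * Wi y ∧ ∀ j : ℕ, j ≤ N → ¬ Gd (2 / N) l t (pj (j / N)) y} ⊆
      toMeasurable ν (E₁ ∪ (E₂ ∪ E₃)) := by
    refine Subset.trans ?_ (subset_toMeasurable _ _)
    rintro y ⟨hy1, hy2⟩
    exact pf_wi_det N hN x l t δ hδ hl0 ht y hy1 hy2
  set T := toMeasurable ν (E₁ ∪ (E₂ ∪ E₃)) with hT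
  have hTm : MeasurableSet T := measurableSet_toMeasurable _ _
  have hTν : ν T ≤ ENNReal.ofReal (D * Real.exp (-(κ / t))) := by
    rw [hT, measure_toMeasurable]; exact hE
  have hgm : Measurable (fun y : LR => ENNReal.ofReal ((1 + ‖y‖) ^ 4)) := by
    apply ENNReal.measurable_ofReal.comp
    apply Continuous.measurable
    fun_prop
  have hfm : Measurable (T.indicator (1 : LR → ℝ≥0∞)) := measurable_one.indicator hTm
  have hH := ENNReal.lintegral_mul_le_Lp_mul_Lq ν hr hfm.aemeasurable hgm.aemeasurable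
  have i1 : ∫⁻ y, (T.indicator (1 : LR → ℝ≥0∞)) y ^ r ∂ν = ν T := by
    rw [← lintegral_indicator_one hTm]
    congr 1
    ext y
    by_cases hy : y ∈ T
    · simp [hy]
    · simp [hy, hr0]
  have i2 : ∫⁻ y : LR, (ENNReal.ofReal ((1 + ‖y‖) ^ 4)) ^ (q:ℝ) ∂ν = K := by
    rw [hKdef]
    congr 1
    ext y
    rw [ENNReal.rpow_natCast, ← ENNReal.ofReal_pow (by positivity), ← pow_mul]
  rw [i1, i2] at hH
  calc ∫⁻ y in {y : LR | x - l ≤ √t * Wi y ∧ ∀ j : ℕ, j ≤ N → ¬ Gd (2 / N) l t (pj (j / N)) y},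
      ENNReal.ofReal ((1 + ‖y‖) ^ 4) ∂ν
      ≤ ∫⁻ y in T, ENNReal.ofReal ((1 + ‖y‖) ^ 4) ∂ν := lintegral_mono_set hsub
    _ = ∫⁻ y, (T.indicator (1 : LR → ℝ≥0∞) * fun y : LR => ENNReal.ofReal ((1 + ‖y‖) ^ 4)) y ∂ν := by
        rw [← lintegral_indicator hTm]
        congr 1
        ext y
        by_cases hy : y ∈ T
        · simp [hy]
        · simp [hy]
    _ ≤ ν T ^ (1 / r) * K ^ (1 / (q:ℝ)) := hH
    _ ≤ ENNReal.ofReal (D * Real.exp (-(κ / t))) ^ (1 / r) * K ^ (1 / (q:ℝ)) := by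
        gcongr
    _ = ENNReal.ofReal ((D * Real.exp (-(κ / t))) ^ (1 / r)) *
          ENNReal.ofReal ((K ^ (1 / (q:ℝ))).toReal) := by
        rw [ENNReal.ofReal_rpow_of_nonneg (by positivity) (by positivity), ENNReal.ofReal_toReal]
        exact ENNReal.rpow_ne_top_of_nonneg (by positivity) hK
    _ = ENNReal.ofReal (D ^ (1 / r) * (K ^ (1 / (q:ℝ))).toReal * Real.exp (-(κ * (1 / r) / t))) := by
        rw [← ENNReal.ofReal_mul (by positivity), Real.mul_rpow hD0 (Real.exp_pos _).le,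
          ← Real.exp_mul]
        congr 1
        have : -(κ / t) * (1 / r) = -(κ * (1 / r) / t) := by ring
        rw [this]
        ring
    _ ≤ ENNReal.ofReal (D ^ (1 / r) * (K ^ (1 / (q:ℝ))).toReal *
          Real.exp (-((x ^ 2 + x ^ 2 * δ ^ 2 / 2) / t))) := by
        apply ENNReal.ofReal_le_ofReal
        apply mul_le_mul_of_nonneg_left _ (by positivity)
        apply Real.exp_le_exp.2
        apply neg_le_neg
        exact div_le_div_of_nonneg_right hnum ht.le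

end Pool.Agent.H212AN
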