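import Pool.Agent.H212AN.E2

set_option autoImplicit false

namespace Pool.Agent.H212AN

open MeasureTheory Set Filter Topology Metric
open Pool.Agent.H212AN.G (nG PG gm gk)
open scoped Real ENNReal ComplexConjugate

theorem pf_wl_bdd (x : LR) : BddAbove (range x) ∧ BddBelow (range x) := by
  have h := isCompact_range x.continuous
  exact ⟨h.bddAbove, h.bddBelow⟩

theorem pf_wl_nonneg (x : LR) : 0 ≤ Wi x := by
  have h1 := le_csSup (pf_wl_bdd x).1 (mem_range_self (0 : unitInterval))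
  have h2 := csInf_le (pf_wl_bdd x).2 (mem_range_self (0 : unitInterval))
  unfold Wi; linarith

theorem pf_wl_sup_le (x x' : LR) : sSup (range x) ≤ sSup (range x') + ‖x - x'‖ := by
  refine csSup_le (range_nonempty _) ?_
  rintro _ ⟨s, rfl⟩
  have h1 := le_csSup (pf_wl_bdd x').1 (mem_range_self s)
  have h2 := (x - x').norm_coe_le_norm s
  rw [Real.norm_eq_abs, ContinuousMap.sub_apply] at h2
  have h3 := (abs_le.1 h2).2
  linarith

theorem pf_wl_inf_ge (x x' : LR) : sInf (range x') - ‖x - x'‖ ≤ sInf (range x) := by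
  refine le_csInf (range_nonempty _) ?_
  rintro _ ⟨s, rfl⟩
  have h1 := csInf_le (pf_wl_bdd x').2 (mem_range_self s)
  have h2 := (x - x').norm_coe_le_norm s
  rw [Real.norm_eq_abs, ContinuousMap.sub_apply] at h2
  have h3 := (abs_le.1 h2).1
  linarith

theorem pf_wl_cont : Continuous Wi := by
  have h : LipschitzWith 2 Wi := by
    refine LipschitzWith.of_le_add_mul 2 (fun x x' => ?_)
    have h1 := pf_wl_sup_le x x'
    have h2 := pf_wl_inf_ge x x'
    rw [dist_eq_norm]
    unfold Wi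
    push_cast
    linarith
  exact h.continuous

theorem pf_wl_le_norm (x : LR) : Wi x ≤ 2 * ‖x‖ := by
  have h1 := pf_wl_sup_le x 0
  have h2 := pf_wl_inf_ge x 0
  have h3 : range (0 : LR) = {0} := by
    ext a; constructor
    · rintro ⟨s, rfl⟩; rfl
    · rintro rfl; exact ⟨0, rfl⟩
  rw [h3, csSup_singleton, sub_zero] at h1
  rw [h3, csInf_singleton, sub_zero] at h2
  unfold Wi; linarith

/-- real part -/
noncomputable def pf_wl_re (b : Lo) : LR := ⟨fun s => (b s).re, by fun_prop⟩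

/-- imaginary part -/
noncomputable def pf_wl_im (b : Lo) : LR := ⟨fun s => (b s).im, by fun_prop⟩

theorem pf_wl_re_cont : Continuous pf_wl_re :=
  ContinuousMap.continuous_postcomp ⟨Complex.re, Complex.continuous_re⟩

theorem pf_wl_im_cont : Continuous pf_wl_im :=
  ContinuousMap.continuous_postcomp ⟨Complex.im, Complex.continuous_im⟩

theorem pf_wl_re_jn (x y : LR) : pf_wl_re (jn x y) = x := by
  ext s; simp [pf_wl_re, jn]

theorem pf_wl_im_jn (x y : LR) : pf_wl_im (jn x y) = y := by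
  ext s; simp [pf_wl_im, jn]

theorem pf_wl_jn_cont : Continuous (fun p : LR × LR => jn p.1 p.2) := by
  refine ContinuousMap.continuous_of_continuous_uncurry _ ?_
  change Continuous (fun q : (LR × LR) × unitInterval =>
    ((q.1.1 q.2 : ℝ) : ℂ) + ((q.1.2 q.2 : ℝ) : ℂ) * Complex.I)
  have h1 : Continuous (fun q : (LR × LR) × unitInterval => q.1.1 q.2) :=
    ContinuousEval.continuous_eval.comp ((continuous_fst.comp continuous_fst).prodMk continuous_snd)
  have h2 : Continuous (fun q : (LR × LR) × unitInterval => q.1.2 q.2) :=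
    ContinuousEval.continuous_eval.comp ((continuous_snd.comp continuous_fst).prodMk continuous_snd)
  exact (Complex.continuous_ofReal.comp h1).add
    ((Complex.continuous_ofReal.comp h2).mul continuous_const)

/-- volume of rectangles -/
theorem pf_wl_rect {S T : Set ℝ} (hS : MeasurableSet S) (hT : MeasurableSet T) :
    volume {z : ℂ | z.re ∈ S ∧ z.im ∈ T} = volume S * volume T := by
  have h1 : {z : ℂ | z.re ∈ S ∧ z.im ∈ T} = Complex.measurableEquivRealProd ⁻¹' (S ×ˢ T) := by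
    ext z; rfl
  rw [h1, Complex.volume_preserving_equiv_real_prod.measure_preimage
    (hS.prod hT).nullMeasurableSet, Measure.volume_eq_prod, Measure.prod_prod]

/-- the product -/
noncomputable def pf_wl_R (t : ℝ) (b : Lo) : ℝ≥0∞ :=
  ENNReal.ofReal (1 - √t * Wi (pf_wl_re b)) * ENNReal.ofReal (1 - √t * Wi (pf_wl_im b))

theorem pf_wl_R_meas (t : ℝ) : Measurable (pf_wl_R t) := by
  have h1 : Measurable (fun b : Lo => ENNReal.ofReal (1 - √t * Wi (pf_wl_re b))) :=
    (ENNReal.continuous_ofReal.comp (continuous_const.sub (continuous_const.mul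
      (pf_wl_cont.comp pf_wl_re_cont)))).measurable
  have h2 : Measurable (fun b : Lo => ENNReal.ofReal (1 - √t * Wi (pf_wl_im b))) :=
    (ENNReal.continuous_ofReal.comp (continuous_const.sub (continuous_const.mul
      (pf_wl_cont.comp pf_wl_im_cont)))).measurable
  exact h1.mul h2

theorem pf_wl_open {t : ℝ} (ht : 0 < t) (b : Lo) :
    pf_wl_R t b ≤ volume {z : ℂ | ∀ s : unitInterval, z + (√t : ℂ) * b s ∈ Sq} := by
  have hs : 0 < √t := Real.sqrt_pos.2 ht
  have h1 : ∀ x : LR, 1 - √t * Wi x =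
      (1 - √t * sSup (range x)) - (-(√t * sInf (range x))) := by
    intro x; unfold Wi; ring
  rw [pf_wl_R, h1, h1, ← Real.volume_Ioo, ← Real.volume_Ioo,
    ← pf_wl_rect measurableSet_Ioo measurableSet_Ioo]
  refine measure_mono ?_
  rintro z ⟨⟨h2, h3⟩, ⟨h4, h5⟩⟩ s
  have e1 := mul_le_mul_of_nonneg_left
    (le_csSup (pf_wl_bdd (pf_wl_re b)).1 (mem_range_self s)) hs.le
  have e2 := mul_le_mul_of_nonneg_left
    (csInf_le (pf_wl_bdd (pf_wl_re b)).2 (mem_range_self s)) hs.le
  have e3 := mul_le_mul_of_nonneg_left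
    (le_csSup (pf_wl_bdd (pf_wl_im b)).1 (mem_range_self s)) hs.le
  have e4 := mul_le_mul_of_nonneg_left
    (csInf_le (pf_wl_bdd (pf_wl_im b)).2 (mem_range_self s)) hs.le
  have f1 : (z + (√t : ℂ) * b s).re = z.re + √t * pf_wl_re b s := by
    simp [pf_wl_re]
  have f2 : (z + (√t : ℂ) * b s).im = z.im + √t * pf_wl_im b s := by
    simp [pf_wl_im]
  refine ⟨?_, ?_, ?_, ?_⟩
  · rw [f1]; linarith
  · rw [f1]; linarith
  · rw [f2]; linarith
  · rw [f2]; linarith

theorem pf_wl_closed {t : ℝ} (ht : 0 < t) (b : Lo) :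
    volume {z : ℂ | ∀ s : unitInterval, z + (√t : ℂ) * b s ∈ closure Sq} ≤ pf_wl_R t b := by
  have hs : 0 < √t := Real.sqrt_pos.2 ht
  have h1 : ∀ x : LR, 1 - √t * Wi x =
      (1 - √t * sSup (range x)) - (-(√t * sInf (range x))) := by
    intro x; unfold Wi; ring
  have h0 : closure Sq ⊆ {z : ℂ | 0 ≤ z.re ∧ z.re ≤ 1 ∧ 0 ≤ z.im ∧ z.im ≤ 1} := by
    refine closure_minimal ?_ ?_
    · rintro z ⟨g1, g2, g3, g4⟩
      exact ⟨g1.le, g2.le, g3.le, g4.le⟩
    · exact (isClosed_le continuous_const Complex.continuous_re).inter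
        ((isClosed_le Complex.continuous_re continuous_const).inter
        ((isClosed_le continuous_const Complex.continuous_im).inter
        (isClosed_le Complex.continuous_im continuous_const)))
  rw [pf_wl_R, h1, h1, ← Real.volume_Icc, ← Real.volume_Icc,
    ← pf_wl_rect measurableSet_Icc measurableSet_Icc]
  refine measure_mono ?_
  intro z hz
  have f1 : ∀ s, (z + (√t : ℂ) * b s).re = z.re + √t * pf_wl_re b s := by
    intro s; simp [pf_wl_re]
  have f2 : ∀ s, (z + (√t : ℂ) * b s).im = z.im + √t * pf_wl_im b s := by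
    intro s; simp [pf_wl_im]
  have g : ∀ s : unitInterval, 0 ≤ z.re + √t * pf_wl_re b s ∧ z.re + √t * pf_wl_re b s ≤ 1 ∧
      0 ≤ z.im + √t * pf_wl_im b s ∧ z.im + √t * pf_wl_im b s ≤ 1 := by
    intro s
    have := h0 (hz s)
    rw [← f1, ← f2]
    exact this
  have k1 : -z.re / √t ≤ sInf (range (pf_wl_re b)) := by
    refine le_csInf (range_nonempty _) ?_
    rintro _ ⟨s, rfl⟩
    rw [div_le_iff₀ hs]
    linarith [(g s).1]
  have k2 : sSup (range (pf_wl_re b)) ≤ (1 - z.re) / √t := by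
    refine csSup_le (range_nonempty _) ?_
    rintro _ ⟨s, rfl⟩
    rw [le_div_iff₀ hs]
    linarith [(g s).2.1]
  have k3 : -z.im / √t ≤ sInf (range (pf_wl_im b)) := by
    refine le_csInf (range_nonempty _) ?_
    rintro _ ⟨s, rfl⟩
    rw [div_le_iff₀ hs]
    linarith [(g s).2.2.1]
  have k4 : sSup (range (pf_wl_im b)) ≤ (1 - z.im) / √t := by
    refine csSup_le (range_nonempty _) ?_
    rintro _ ⟨s, rfl⟩
    rw [le_div_iff₀ hs]
    linarith [(g s).2.2.2]
  rw [div_le_iff₀ hs] at k1 k3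
  rw [le_div_iff₀ hs] at k2 k4
  exact ⟨⟨by linarith, by linarith⟩, ⟨by linarith, by linarith⟩⟩

/-- the one-dimensional integral -/
theorem pf_wl_prod {μ : Measure Lo} {ν : Measure LR} (hb : IsBr μ ν) (t : ℝ) :
    ∫⁻ b, pf_wl_R t b ∂μ = (∫⁻ x, ENNReal.ofReal (1 - √t * Wi x) ∂ν) ^ 2 := by
  have := hb.prob
  have hm : Measurable (fun x : LR => ENNReal.ofReal (1 - √t * Wi x)) :=
    (ENNReal.continuous_ofReal.comp (continuous_const.sub (continuous_const.mul
      pf_wl_cont))).measurable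
  rw [hb.prod, lintegral_map (pf_wl_R_meas t) pf_wl_jn_cont.measurable]
  have h1 : ∀ p : LR × LR, pf_wl_R t (jn p.1 p.2) =
      ENNReal.ofReal (1 - √t * Wi p.1) * ENNReal.ofReal (1 - √t * Wi p.2) := by
    intro p
    rw [pf_wl_R, pf_wl_re_jn, pf_wl_im_jn]
  simp only [h1]
  rw [lintegral_prod_mul hm.aemeasurable hm.aemeasurable, sq]

/-- the series -/
noncomputable def pf_wl_S (t : ℝ) : ℝ := ∑' k : ℕ, Real.exp (-(t * (π * (k + 1)) ^ 2))

theorem pf_wl_S_nonneg (t : ℝ) : 0 ≤ pf_wl_S t := tsum_nonneg (fun _ => (Real.exp_pos _).le)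

theorem pf_wl_I (h1 : S_tr) {Z : Set ℂ → ℝ → ℝ} (hU : ZUp Z) (hL : ZLo Z) (h0 : ∀ Q t, 0 ≤ Z Q t)
    (hS : ZSq Z) {μ : Measure Lo} {ν : Measure LR} (hμ : IsLoop μ) (hb : IsBr μ ν) {t : ℝ}
    (ht : 0 < t) : ∫⁻ x, ENNReal.ofReal (1 - √t * Wi x) ∂ν =
      ENNReal.ofReal (√(4 * π * t) * pf_wl_S t) := by
  have hSo : IsOpen Sq := (isOpen_lt continuous_const Complex.continuous_re).inter
    ((isOpen_lt Complex.continuous_re continuous_const).inter
    ((isOpen_lt continuous_const Complex.continuous_im).inter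
    (isOpen_lt Complex.continuous_im continuous_const)))
  have hSb : Bornology.IsBounded Sq := by
    refine (isBounded_closedBall (x := (0 : ℂ)) (r := 2)).subset ?_
    rintro z ⟨g1, g2, g3, g4⟩
    rw [mem_closedBall_zero_iff]
    refine (Complex.norm_le_abs_re_add_abs_im z).trans ?_
    rw [abs_of_pos g1, abs_of_pos g3]
    linarith
  have hSn : Sq.Nonempty := ⟨⟨1 / 2, 1 / 2⟩, by norm_num [Sq]⟩
  obtain ⟨a1, a2⟩ := h1 Z hU hL h0 μ hμ Sq hSo hSb hSn t ht
  have b1 : (∫⁻ x, ENNReal.ofReal (1 - √t * Wi x) ∂ν) ^ 2 ≤ EV μ Sq t := by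
    rw [← pf_wl_prod hb]
    exact lintegral_mono (fun b => pf_wl_open ht b)
  have b2 : EV μ (closure Sq) t ≤ (∫⁻ x, ENNReal.ofReal (1 - √t * Wi x) ∂ν) ^ 2 := by
    rw [← pf_wl_prod hb]
    exact lintegral_mono (fun b => pf_wl_closed ht b)
  have hc : 0 ≤ √(4 * π * t) * pf_wl_S t := mul_nonneg (Real.sqrt_nonneg _) (pf_wl_S_nonneg t)
  have b3 : (∫⁻ x, ENNReal.ofReal (1 - √t * Wi x) ∂ν) ^ 2 =
      ENNReal.ofReal (√(4 * π * t) * pf_wl_S t) ^ 2 := by
    rw [← ENNReal.ofReal_pow hc, mul_pow, Real.sq_sqrt (by positivity)]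
    have e1 : 4 * π * t * pf_wl_S t ^ 2 = 4 * π * t * Z Sq t := by rw [hS t ht]; rfl
    rw [e1]
    exact le_antisymm (b1.trans a1) (a2.trans b2)
  exact (ENNReal.pow_right_strictMono (n := 2) two_ne_zero).injective b3

/-- the other series -/
noncomputable def pf_wl_E (a t : ℝ) : ℝ := ∑' k : ℕ, Real.exp (-(((k:ℝ) + 1) ^ 2 * a ^ 2 / t))

theorem pf_wl_summable {c : ℝ} (hc : 0 < c) :
    Summable (fun n : ℤ => Real.exp (-(c * (n : ℝ) ^ 2))) := by
  have h1 : Summable (fun n : ℕ => Real.exp (-(c * (n : ℝ) ^ 2))) := by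
    have h2 : Summable (fun n : ℕ => Real.exp (-c * (n : ℝ))) := by
      have := Real.summable_exp_nat_mul_iff.2 (neg_neg_of_pos hc)
      refine this.congr (fun n => ?_)
      rw [mul_comm]
    refine Summable.of_nonneg_of_le (fun n => (Real.exp_pos _).le) (fun n => ?_) h2
    rw [Real.exp_le_exp]
    have h3 : (n : ℝ) ≤ (n : ℝ) ^ 2 := by
      rcases Nat.eq_zero_or_pos n with h | h
      · rw [h]; norm_num
      · have : (1 : ℝ) ≤ n := by exact_mod_cast h
        nlinarith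
    nlinarith
  refine Summable.of_nat_of_neg ?_ ?_
  · refine h1.congr (fun n => ?_)
    push_cast; rfl
  · refine h1.congr (fun n => ?_)
    push_cast
    rw [neg_sq]

theorem pf_wl_two {c : ℝ} (hc : 0 < c) :
    ∑' n : ℤ, Real.exp (-(c * (n : ℝ) ^ 2)) =
      1 + 2 * ∑' k : ℕ, Real.exp (-(c * ((k : ℝ) + 1) ^ 2)) := by
  have h1 := tsum_int_eq_zero_add_two_mul_tsum_pnat
    (f := fun n : ℤ => Real.exp (-(c * (n : ℝ) ^ 2))) (fun n => by push_cast; rw [neg_sq])
    (pf_wl_summable hc)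
  rw [h1]
  have h2 : Real.exp (-(c * ((0 : ℤ) : ℝ) ^ 2)) = 1 := by
    rw [Int.cast_zero]; norm_num
  have h3 : ∑' n : ℕ+, Real.exp (-(c * (((n : ℕ) : ℤ) : ℝ) ^ 2)) =
      ∑' k : ℕ, Real.exp (-(c * ((k : ℝ) + 1) ^ 2)) := by
    have h4 := tsum_pnat_eq_tsum_succ (f := fun n : ℕ => Real.exp (-(c * (n : ℝ) ^ 2)))
    push_cast at h4 ⊢
    exact h4
  simp only [h2]
  rw [← h3]
  simp [two_mul]

/-- Poisson summation -/
theorem pf_wl_poisson {a t : ℝ} (ha : 0 < a) (ht : 0 < t) :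
    1 + 2 * pf_wl_S (t / a ^ 2) = a / √(π * t) * (1 + 2 * pf_wl_E a t) := by
  have hp : 0 < π * t / a ^ 2 := by positivity
  have h1 := Real.tsum_exp_neg_mul_int_sq hp
  have e1 : ∀ n : ℤ, Real.exp (-π * (π * t / a ^ 2) * (n : ℝ) ^ 2) =
      Real.exp (-(π ^ 2 * t / a ^ 2 * (n : ℝ) ^ 2)) := by
    intro n; congr 1; ring
  have e2 : ∀ n : ℤ, Real.exp (-π / (π * t / a ^ 2) * (n : ℝ) ^ 2) =
      Real.exp (-(a ^ 2 / t * (n : ℝ) ^ 2)) := by
    intro n; congr 1
    have := Real.pi_pos.ne'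
    field_simp
  simp only [e1, e2] at h1
  rw [pf_wl_two (by positivity), pf_wl_two (by positivity)] at h1
  have e3 : ∑' k : ℕ, Real.exp (-(π ^ 2 * t / a ^ 2 * ((k : ℝ) + 1) ^ 2)) =
      pf_wl_S (t / a ^ 2) := by
    unfold pf_wl_S
    congr 1; funext k; congr 1; ring
  have e4 : ∑' k : ℕ, Real.exp (-(a ^ 2 / t * ((k : ℝ) + 1) ^ 2)) = pf_wl_E a t := by
    unfold pf_wl_E
    congr 1; funext k; congr 1; ring
  have e5 : 1 / (π * t / a ^ 2) ^ (1 / 2 : ℝ) = a / √(π * t) := by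
    rw [← Real.sqrt_eq_rpow, Real.sqrt_div (by positivity), Real.sqrt_sq ha.le, one_div_div]
  rw [e3, e4, e5] at h1
  exact h1

/-- the shortfall -/
theorem pf_wl_G {ν : Measure LR} (hν : IsProbabilityMeasure ν)
    (hI : ∀ t : ℝ, 0 < t → ∫⁻ x, ENNReal.ofReal (1 - √t * Wi x) ∂ν =
      ENNReal.ofReal (√(4 * π * t) * pf_wl_S t)) {a t : ℝ} (ha : 0 < a) (ht : 0 < t) :
    ∫ x, max (a - √t * Wi x) 0 ∂ν = a + 2 * a * pf_wl_E a t - √(π * t) := by
  have hta : 0 < t / a ^ 2 := by positivity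
  have h1 : ∀ x : LR, max (a - √t * Wi x) 0 = a * max (1 - √(t / a ^ 2) * Wi x) 0 := by
    intro x
    rw [Real.sqrt_div ht.le, Real.sqrt_sq ha.le, mul_max_of_nonneg _ _ ha.le, mul_zero]
    congr 1
    field_simp
  simp only [h1]
  rw [integral_const_mul]
  have hm : Measurable (fun x : LR => max (1 - √(t / a ^ 2) * Wi x) 0) :=
    ((continuous_const.sub (continuous_const.mul pf_wl_cont)).max continuous_const).measurable
  have hh : 0 ≤ᵐ[ν] (fun x : LR => max (1 - √(t / a ^ 2) * Wi x) 0) :=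
    ae_of_all _ (fun x => le_max_right _ _)
  rw [integral_eq_lintegral_of_nonneg_ae hh hm.aestronglyMeasurable]
  have h2 : ∀ x : LR, ENNReal.ofReal (max (1 - √(t / a ^ 2) * Wi x) 0) =
      ENNReal.ofReal (1 - √(t / a ^ 2) * Wi x) := by
    intro x
    rw [ENNReal.ofReal_max, ENNReal.ofReal_zero, max_eq_left zero_le]
  simp only [h2]
  rw [hI _ hta, ENNReal.toReal_ofReal (mul_nonneg (Real.sqrt_nonneg _) (pf_wl_S_nonneg _))]
  have h3 := pf_wl_poisson ha ht
  have h4 : √(4 * π * (t / a ^ 2)) = 2 * √(π * t) / a := by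
    have : 4 * π * (t / a ^ 2) = (2 * √(π * t) / a) ^ 2 := by
      rw [div_pow, mul_pow, Real.sq_sqrt (by positivity)]; ring
    rw [this, Real.sqrt_sq (by positivity)]
  rw [h4]
  have h5 : 0 < √(π * t) := Real.sqrt_pos.2 (by positivity)
  have h6 : 2 * pf_wl_S (t / a ^ 2) = a / √(π * t) * (1 + 2 * pf_wl_E a t) - 1 := by linarith
  have h7 : a * (2 * √(π * t) / a * pf_wl_S (t / a ^ 2)) =
      √(π * t) * (2 * pf_wl_S (t / a ^ 2)) := by field_simp
  rw [h7, h6]
  field_simp

theorem pf_wl_int {μ : Measure Lo} {ν : Measure LR} (h2 : S_mom) (hμ : IsLoop μ)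
    (hb : IsBr μ ν) : Integrable Wi ν := by
  have hν := hb.prob
  have h1 : Integrable (fun b : Lo => ‖b‖) μ := by
    have := h2 μ hμ 1
    simpa using this
  rw [hb.prod] at h1
  have h3 := h1.comp_measurable pf_wl_jn_cont.measurable
  have h4 : Integrable (fun p : LR × LR => Wi p.1) (ν.prod ν) := by
    refine (h3.const_mul 2).mono'
      (pf_wl_cont.comp continuous_fst).measurable.aestronglyMeasurable (ae_of_all _ (fun p => ?_))
    rw [Real.norm_eq_abs, abs_of_nonneg (pf_wl_nonneg _)]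
    refine (pf_wl_le_norm p.1).trans ?_
    refine mul_le_mul_of_nonneg_left ?_ (by norm_num)
    refine (ContinuousMap.norm_le _ (norm_nonneg _)).2 (fun s => ?_)
    have h5 := (jn p.1 p.2).norm_coe_le_norm s
    refine le_trans ?_ h5
    have h6 : (jn p.1 p.2 s).re = p.1 s := by
      have := congrArg (fun x : LR => x s) (pf_wl_re_jn p.1 p.2)
      exact this
    rw [Real.norm_eq_abs, ← h6]
    exact Complex.abs_re_le_norm _
  have h7 : MeasurePreserving (Prod.fst : LR × LR → LR) (ν.prod ν) ν := measurePreserving_fst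
  exact (h7.integrable_comp pf_wl_cont.measurable.aestronglyMeasurable).1 h4

theorem pf_wl_E_lim : Tendsto (fun n : ℕ => ((n : ℝ) + 1) * pf_wl_E ((n : ℝ) + 1) 1) atTop (𝓝 0) := by
  have hsum : Summable (fun k : ℕ => Real.exp (-(k : ℝ))) := by
    have := Real.summable_exp_nat_mul_iff.2 (show (-1 : ℝ) < 0 by norm_num)
    refine this.congr (fun n => ?_)
    congr 1; ring
  have hb : ∀ n : ℕ, pf_wl_E ((n : ℝ) + 1) 1 ≤
      Real.exp (-((n : ℝ) + 1)) * ∑' k : ℕ, Real.exp (-(k : ℝ)) := by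
    intro n
    rw [← tsum_mul_left]
    have hle : ∀ k : ℕ, Real.exp (-(((k:ℝ) + 1) ^ 2 * ((n : ℝ) + 1) ^ 2 / 1)) ≤
        Real.exp (-((n : ℝ) + 1)) * Real.exp (-(k : ℝ)) := by
      intro k
      rw [← Real.exp_add, Real.exp_le_exp, div_one]
      have hn : (0 : ℝ) ≤ n := Nat.cast_nonneg n
      have hk : (0 : ℝ) ≤ k := Nat.cast_nonneg k
      have h1 : (1 : ℝ) ≤ ((n : ℝ) + 1) ^ 2 := by nlinarith
      have h2 : (n : ℝ) + 1 ≤ ((n : ℝ) + 1) ^ 2 := by nlinarith
      have h3 : (k : ℝ) + 1 ≤ ((k : ℝ) + 1) ^ 2 := by nlinarith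
      nlinarith
    exact Summable.tsum_le_tsum hle (Summable.of_nonneg_of_le (fun _ => (Real.exp_pos _).le) hle
      (hsum.mul_left _)) (hsum.mul_left _)
  have hlim : Tendsto (fun n : ℕ => (((n : ℝ) + 1) * Real.exp (-((n : ℝ) + 1))) *
      ∑' k : ℕ, Real.exp (-(k : ℝ))) atTop (𝓝 (0 * ∑' k : ℕ, Real.exp (-(k : ℝ)))) := by
    refine Tendsto.mul_const _ ?_
    have h1 := Real.tendsto_pow_mul_exp_neg_atTop_nhds_zero 1
    have h2 : Tendsto (fun n : ℕ => (n : ℝ) + 1) atTop atTop :=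
      tendsto_atTop_add_const_right _ _ tendsto_natCast_atTop_atTop
    have h3 := h1.comp h2
    refine h3.congr (fun n => ?_)
    simp
  rw [zero_mul] at hlim
  refine squeeze_zero (fun n => ?_) (fun n => ?_) hlim
  · exact mul_nonneg (by positivity) (tsum_nonneg (fun _ => (Real.exp_pos _).le))
  · rw [mul_assoc]
    exact mul_le_mul_of_nonneg_left (hb n) (by positivity)

theorem pf_wl (h1 : S_tr) (h2 : S_mom) : S_wl := by
  intro Z hU hL h0 hS μ ν hμ hb
  have hν := hb.prob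
  have hW := pf_wl_int h2 hμ hb
  have hI := fun (t : ℝ) (ht : 0 < t) => pf_wl_I h1 hU hL h0 hS hμ hb ht
  have hint : ∀ a t : ℝ, 0 < a → 0 < t → Integrable (fun x : LR => max (√t * Wi x - a) 0) ν := by
    intro a t ha ht
    refine (hW.const_mul √t).mono' ((continuous_const.mul pf_wl_cont).sub
      continuous_const |>.max continuous_const).measurable.aestronglyMeasurable
      (ae_of_all _ (fun x => ?_))
    have e1 := mul_nonneg (Real.sqrt_nonneg t) (pf_wl_nonneg x)
    rw [Real.norm_eq_abs, abs_of_nonneg (le_max_right _ _)]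
    exact max_le (by linarith) e1
  have hint2 : ∀ a t : ℝ, 0 < a → 0 < t → Integrable (fun x : LR => max (a - √t * Wi x) 0) ν := by
    intro a t ha ht
    refine (integrable_const a).mono' ((continuous_const.sub (continuous_const.mul
      pf_wl_cont)).max continuous_const).measurable.aestronglyMeasurable
      (ae_of_all _ (fun x => ?_))
    have e1 := mul_nonneg (Real.sqrt_nonneg t) (pf_wl_nonneg x)
    rw [Real.norm_eq_abs, abs_of_nonneg (le_max_right _ _)]
    exact max_le (by linarith) ha.le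
  -- the excess in terms of the mean width
  have hF : ∀ a t : ℝ, 0 < a → 0 < t → ∫ x, max (√t * Wi x - a) 0 ∂ν =
      2 * a * pf_wl_E a t - √(π * t) + √t * ∫ x, Wi x ∂ν := by
    intro a t ha ht
    have e1 : ∀ x : LR, max (√t * Wi x - a) 0 = max (a - √t * Wi x) 0 + (√t * Wi x - a) := by
      intro x
      rcases le_total (√t * Wi x) a with h | h
      · rw [max_eq_right (by linarith), max_eq_left (by linarith)]; ring
      · rw [max_eq_left (by linarith), max_eq_right (by linarith)]; ring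
    simp only [e1]
    have e2 : Integrable (fun x : LR => √t * Wi x - a) ν :=
      (hW.const_mul √t).sub (integrable_const a)
    rw [integral_add (hint2 a t ha ht) e2, integral_sub (hW.const_mul √t) (integrable_const a),
      integral_const_mul, integral_const, probReal_univ, one_smul, pf_wl_G hν hI ha ht]
    ring
  -- the mean width
  have hmean : ∫ x, Wi x ∂ν = √π := by
    have l1 : Tendsto (fun n : ℕ => ∫ x, max (√1 * Wi x - ((n : ℝ) + 1)) 0 ∂ν) atTop
        (𝓝 (∫ _x : LR, (0 : ℝ) ∂ν)) := by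
      refine tendsto_integral_of_dominated_convergence Wi (fun n => ?_) hW (fun n => ?_) ?_
      · exact (hint _ 1 (by positivity) one_pos).aestronglyMeasurable
      · refine ae_of_all _ (fun x => ?_)
        have e1 := pf_wl_nonneg x
        rw [Real.norm_eq_abs, abs_of_nonneg (le_max_right _ _), Real.sqrt_one, one_mul]
        have : (0 : ℝ) ≤ n := Nat.cast_nonneg n
        exact max_le (by linarith) e1
      · refine ae_of_all _ (fun x => ?_)
        refine tendsto_const_nhds.congr' ?_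
        obtain ⟨N, hN⟩ := exists_nat_ge (Wi x)
        filter_upwards [eventually_ge_atTop N] with n hn
        have : (N : ℝ) ≤ n := by exact_mod_cast hn
        rw [Real.sqrt_one, one_mul, max_eq_right (by linarith)]
    rw [integral_zero] at l1
    have l2 : Tendsto (fun n : ℕ => 2 * (((n : ℝ) + 1) * pf_wl_E ((n : ℝ) + 1) 1) - √π +
        ∫ x, Wi x ∂ν) atTop (𝓝 (2 * 0 - √π + ∫ x, Wi x ∂ν)) :=
      ((pf_wl_E_lim.const_mul 2).sub_const _).add_const _
    have l3 : (fun n : ℕ => ∫ x, max (√1 * Wi x - ((n : ℝ) + 1)) 0 ∂ν) =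
        fun n : ℕ => 2 * (((n : ℝ) + 1) * pf_wl_E ((n : ℝ) + 1) 1) - √π + ∫ x, Wi x ∂ν := by
      funext n
      rw [hF _ 1 (by positivity) one_pos, Real.sqrt_one, mul_one, one_mul]
      ring
    rw [l3] at l1
    have l4 := tendsto_nhds_unique l1 l2
    linarith
  intro a t ha ht
  refine ⟨hint a t ha ht, ?_⟩
  rw [hF a t ha ht, hmean, Real.sqrt_mul Real.pi_pos.le]
  unfold pf_wl_E
  ring

end Pool.Agent.H212AN
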