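import Pool.Agent.H212AN.Chain2
import Pool.Agent.H212AN.P_pc
import Pool.Agent.H212AN.P_wl
import Pool.Agent.H212AN.P_ma
import Pool.Agent.H212AN.P_gt
import Pool.Agent.H212AN.P_om
import Pool.Agent.H212AN.P_bw
import Pool.Agent.H212AN.P_wi
import Pool.Agent.H212AN.P_lu
import Pool.Agent.H212AN.P_ll
import Pool.Agent.H212AN.P_HO
import Pool.Agent.H212AN.P_gu
import Pool.Agent.H212AN.P_gl
import Pool.Agent.H212AN.P_au
import Pool.Agent.H212AN.P_al
import Pool.Agent.H212AN.P_ien
import Pool.Agent.H212AN.P_pk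
import Pool.Agent.H212AN.P_reg
import Pool.Agent.H212AN.P_rec
import Pool.Agent.H212AN.P_clo
import Pool.Agent.H212AN.P_gen
import Pool.Agent.H212AN.P_gop
import Pool.Agent.H212AN.P_dns
import Pool.Agent.H212AN.P_cgn
import Pool.Agent.H212AN.P_par
import Pool.Agent.H212AN.P_gaps
import Pool.Agent.H212AN.P_many

set_option autoImplicit false

/-! # Project H212AN: the statements of the files `E2` and `E3` proved -/

namespace Pool.Agent.H212AN

theorem q_pc : S_pc := pf_pc q_uniq q_end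
theorem q_wl : S_wl := pf_wl q_tr q_mom
theorem q_ma : S_ma := pf_ma
theorem q_gt : S_gt := pf_gt
theorem q_om : S_om := pf_om q_gt
theorem q_bw : S_bw := pf_bw q_gt q_mom
theorem q_wi : S_wi := pf_wi q_gt q_mom
theorem q_lu : S_lu := pf_lu q_ma q_om
theorem q_ll : S_ll := pf_ll q_ma q_om
theorem q_gu : S_gu := pf_gu
theorem q_gl : S_gl := pf_gl
theorem q_au : S_au := pf_au q_up q_mom q_wi q_bw q_gu q_lu
theorem q_al : S_al := pf_al q_up q_mom q_wi q_bw q_gl q_ll
theorem q_HO : S_HO := pf_HO q_au q_al q_qinv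
theorem q_ien : S_ien := pf_ien q_qinv q_up q_mom q_end
theorem q_pk : S_pk := pf_pk
theorem q_reg : S_reg := pf_reg
theorem q_rec : S_rec := pf_rec q_reg
theorem q_clo : S_clo := pf_clo
theorem q_gen : S_gen := pf_gen q_clo
theorem q_gop : S_gop := pf_gop
theorem q_dns : S_dns := pf_dns q_gen
theorem q_cgn : S_cgn := pf_cgn q_clo
theorem q_par : S_par := pf_par
theorem q_gaps : S_gaps := pf_gaps q_loop q_pc q_wl q_HO q_Ob q_zev q_ien q_pk
theorem q_many : S_many := pf_many q_gaps q_rec q_clo q_cgn q_gen q_gop q_par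

end Pool.Agent.H212AN
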