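import Pool.Agent.H212AN.D3
import Pool.Agent.R225.LP.TR
import Pool.Agent.R225.LP.OD
import Pool.Agent.R225.LP.BK
import Pool.Agent.R225.LP.LM3
import Pool.Agent.W594.AN.Spectral

set_option autoImplicit false

/-!
# Project H212AN: the heat trace has the properties `ZUp` and `ZLo`
-/

namespace Pool.Agent.H212AN

open MeasureTheory Set Filter Topology Metric
open scoped Real ENNReal

/-- the two definitions of the discrete loop expectation agree -/
theorem link_em (Q : Set ℂ) (t : ℝ) (m : ℕ) :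
    EM Q t m = ∫⁻ X, Pool.Agent.R225.LP.ar Q (Pool.Agent.R225.LP.ce X)
      ∂(Pool.Agent.R225.LP.PG (t / ((m : ℝ) + 1)) (m + 1)) := rfl

theorem link_tf {Q : Set ℂ} (hQ : MeasurableSet Q) {t : ℝ} (ht : 0 < t) (m : ℕ) :
    ENNReal.ofReal (4 * π * t) * ∫⁻ z in Q, Pool.Agent.R225.LP.ks Q (t / ((m : ℝ) + 1)) m z z =
      EM Q t m := by
  have h := Pool.Agent.R225.LP.trace_formula hQ (s := t / ((m : ℝ) + 1)) (by positivity) m
  rw [link_em, ← h]
  congr 2
  push_cast
  field_simp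

theorem link_up : ZUp Pool.Agent.Y289.SQ.Z := by
  intro Q hQ hb hn t ht m
  have h := Pool.Agent.R225.LP.TR.tr_lower Pool.Agent.R225.LP.od Pool.Agent.R225.LP.bk hQ hb hn ht m
  rw [← link_tf hQ.measurableSet ht, ENNReal.ofReal_mul (by positivity)]
  gcongr

theorem link_lo : ZLo Pool.Agent.Y289.SQ.Z := by
  intro Q K hQ hb hn hK ρ hρ hsub t ht
  have hKQ : K ⊆ Q := fun c hc => hsub c hc (mem_ball_self hρ)
  have h := Pool.Agent.R225.LP.TR.limsup_K Pool.Agent.R225.LP.od Pool.Agent.R225.LP.bk hQ hb hn hK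
    hKQ (ρ := ρ / 2) (by positivity) (fun c hc z hz => hsub c hc (by
      have h1 : |z.re - c.re| < ρ / 2 ∧ |z.im - c.im| < ρ / 2 := hz
      rw [mem_ball, dist_eq_norm]
      calc ‖z - c‖ ≤ |(z - c).re| + |(z - c).im| := Complex.norm_le_abs_re_add_abs_im _
        _ < ρ / 2 + ρ / 2 := by
            rw [Complex.sub_re, Complex.sub_im]
            exact add_lt_add h1.1 h1.2
        _ = ρ := by ring)) ht
  simp_rw [← link_tf hK.measurableSet ht]
  rw [ENNReal.limsup_const_mul_of_ne_top ENNReal.ofReal_ne_top,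
    ENNReal.ofReal_mul (p := 4 * π * t) (by positivity)]
  exact mul_le_mul' le_rfl h

theorem link_heat (Ω : Set ℂ) (t : ℝ) :
    Pool.Agent.W594.AN.heatTrace Ω t = Pool.Agent.Y289.SQ.Z Ω t := by
  unfold Pool.Agent.W594.AN.heatTrace Pool.Agent.Y289.SQ.Z
  refine tsum_congr fun k => ?_
  rw [neg_mul]
  rfl

theorem link_nonneg (Ω : Set ℂ) (t : ℝ) : 0 ≤ Pool.Agent.Y289.SQ.Z Ω t :=
  tsum_nonneg fun _ => (Real.exp_pos _).le

end Pool.Agent.H212AN
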