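import Pool.Agent.H212AN.SqD
import Pool.Agent.Y302.SQ.Tq
import Pool.Agent.Y484.SQ.R2
import Pool.Agent.Y289.SQ.Sm
import Pool.Agent.W101.GP.FS
import Pool.Agent.W405.GP.FT
import Pool.Agent.W703.GP.SL

set_option autoImplicit false

namespace Pool.Agent.H212AN

open MeasureTheory Set Filter Topology
open scoped Real ENNReal

theorem pf_sqz_r2 : Pool.Agent.Y289.SQ.S_R2 :=
  Pool.Agent.Y484.SQ.r2 Pool.Agent.W101.GP.t_FS Pool.Agent.W405.GP.t_FT

theorem pf_sqz_pb : Pool.Agent.W703.GP.S_PB :=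
  Pool.Agent.W108.GP.t_PB Pool.Agent.W973.GP.t_PG

theorem pf_sqz_rect : Pool.Agent.W703.GP.rect 0 1 1 = Sq := by
  ext z
  simp [Pool.Agent.W703.GP.rect, Sq]

theorem pf_sqz_open : IsOpen Sq := by
  have h1 : IsOpen {z : ℂ | 0 < z.re} := isOpen_lt continuous_const Complex.continuous_re
  have h2 : IsOpen {z : ℂ | z.re < 1} := isOpen_lt Complex.continuous_re continuous_const
  have h3 : IsOpen {z : ℂ | 0 < z.im} := isOpen_lt continuous_const Complex.continuous_im
  have h4 : IsOpen {z : ℂ | z.im < 1} := isOpen_lt Complex.continuous_im continuous_const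
  have : Sq = {z : ℂ | 0 < z.re} ∩ ({z : ℂ | z.re < 1} ∩ ({z : ℂ | 0 < z.im} ∩ {z : ℂ | z.im < 1})) := by
    ext z; simp [Sq]
  rw [this]
  exact h1.inter (h2.inter (h3.inter h4))

theorem pf_sqz_bdd : Bornology.IsBounded Sq := by
  refine (Metric.isBounded_ball (x := (0:ℂ)) (r := 3)).subset fun z hz => ?_
  obtain ⟨h1, h2, h3, h4⟩ := hz
  rw [mem_ball_zero_iff]
  calc ‖z‖ ≤ |z.re| + |z.im| := Complex.norm_le_abs_re_add_abs_im _
    _ < 3 := by rw [abs_of_pos h1, abs_of_pos h3]; linarith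

theorem pf_sqz_ne : Sq.Nonempty :=
  ⟨⟨1 / 2, 1 / 2⟩, by norm_num [Sq]⟩

theorem pf_sqz_conv : Convex ℝ Sq := by
  intro x hx y hy a b ha hb hab
  obtain ⟨h1, h2, h3, h4⟩ := hx
  obtain ⟨g1, g2, g3, g4⟩ := hy
  have e1 : (a • x + b • y).re = a * x.re + b * y.re := by simp
  have e2 : (a • x + b • y).im = a * x.im + b * y.im := by simp
  have hb' : b = 1 - a := by linarith
  refine ⟨?_, ?_, ?_, ?_⟩
  · rw [e1]
    rcases eq_or_lt_of_le ha with h | h
    · rw [← h]; have : b = 1 := by linarith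
      rw [this]; linarith
    · have := mul_pos h h1
      have := mul_nonneg hb g1.le
      linarith
  · rw [e1]
    rcases eq_or_lt_of_le ha with h | h
    · rw [← h]; have : b = 1 := by linarith
      rw [this]; linarith
    · have h5 := mul_lt_mul_of_pos_left h2 h
      have h6 := mul_le_mul_of_nonneg_left g2.le hb
      linarith
  · rw [e2]
    rcases eq_or_lt_of_le ha with h | h
    · rw [← h]; have : b = 1 := by linarith
      rw [this]; linarith
    · have := mul_pos h h3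
      have := mul_nonneg hb g3.le
      linarith
  · rw [e2]
    rcases eq_or_lt_of_le ha with h | h
    · rw [← h]; have : b = 1 := by linarith
      rw [this]; linarith
    · have h5 := mul_lt_mul_of_pos_left h4 h
      have h6 := mul_le_mul_of_nonneg_left g4.le hb
      linarith

/-- eigenvalues with large index are large -/
theorem pf_sqz_cnt (μ : ℝ) (S : Finset (ℕ × ℕ))
    (hS : ∀ s, s ∉ S → μ ≤ Pool.Agent.Y289.SQ.lm 1 1 s) (k : ℕ) (hk : S.card < k) :
    μ ≤ Pool.Agent.W703.GP.ev Sq k := by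
  have hk1 : 1 ≤ k := by omega
  rw [Pool.Agent.W703.GP.ev_eq_mm]
  refine Pool.Agent.W703.GP.le_mm (pf_sqz_pb Sq pf_sqz_open pf_sqz_bdd pf_sqz_ne k hk1).1.1 ?_
  intro r V hV hVf
  have hfd : FiniteDimensional ℝ V := Module.finite_of_finrank_pos (by omega)
  have hint : ∀ (f : V) (s : ℕ × ℕ),
      Integrable (fun z => f.1 z * Pool.Agent.Y289.SQ.sn 1 1 s z) := by
    intro f s
    obtain ⟨h1, h2, -⟩ := (hVf f.1 f.2).1
    refine Continuous.integrable_of_hasCompactSupport (h1.continuous.mul ?_) h2.mul_right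
    unfold Pool.Agent.Y289.SQ.sn
    fun_prop
  let L : V →ₗ[ℝ] (S → ℝ) :=
    { toFun := fun f s => ∫ z, f.1 z * Pool.Agent.Y289.SQ.sn 1 1 s.1 z
      map_add' := by
        intro f g
        ext s
        simp only [Pi.add_apply]
        rw [← integral_add (hint f s) (hint g s)]
        refine integral_congr_ae (Eventually.of_forall fun z => ?_)
        simp [add_mul]
      map_smul' := by
        intro c f
        ext s
        simp only [RingHom.id_apply, Pi.smul_apply, smul_eq_mul]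
        rw [← integral_const_mul]
        refine integral_congr_ae (Eventually.of_forall fun z => ?_)
        simp [mul_assoc] }
  have hker : LinearMap.ker L ≠ ⊥ := by
    apply LinearMap.ker_ne_bot_of_finrank_lt
    rw [hV, Module.finrank_fintype_fun_eq_card, Fintype.card_coe]
    exact hk
  obtain ⟨v, hv, hv0⟩ := (Submodule.ne_bot_iff _).1 hker
  have hc : ∀ s ∈ S, ∫ z, v.1 z * Pool.Agent.Y289.SQ.sn 1 1 s z = 0 := by
    intro s hs
    have := congrFun (LinearMap.mem_ker.1 hv) ⟨s, hs⟩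
    exact this
  obtain ⟨⟨h1, h2, h3⟩, h4⟩ := hVf v.1 v.2
  have hne : v.1 ≠ 0 := fun h0 => hv0 (Subtype.ext h0)
  have hpos := Pool.Agent.W703.GP.SL.mass_pos v.1 h1 h2 hne
  obtain ⟨r1, r2⟩ := pf_sqz_r2 1 1 one_pos one_pos v.1 (by
    refine ⟨h1, h2, ?_⟩
    rw [pf_sqz_rect]
    exact h3)
  have h5 : μ * Pool.Agent.W703.GP.mass v.1 ≤ Pool.Agent.W703.GP.dir v.1 := by
    refine hasSum_le (fun s => ?_) (r1.mul_left μ) r2
    by_cases hs : s ∈ S
    · rw [hc s hs]; simp
    · exact mul_le_mul_of_nonneg_right (hS s hs) (sq_nonneg _)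
  have h6 : μ * Pool.Agent.W703.GP.mass v.1 ≤ r * Pool.Agent.W703.GP.mass v.1 := h5.trans h4
  exact le_of_mul_le_mul_right h6 hpos

theorem pf_sqz_exp (t : ℝ) (ht : 0 < t) (x : ℝ) :
    ENNReal.ofReal (Real.exp (-(t * x))) =
      ∫⁻ μ : ℝ, (Ioi x).indicator (fun μ => ENNReal.ofReal (t * Real.exp (-(t * μ)))) μ := by
  rw [lintegral_indicator measurableSet_Ioi]
  have h1 : ∫ μ in Ioi x, t * Real.exp (-(t * μ)) = Real.exp (-(t * x)) := by
    rw [integral_const_mul]
    have h2 := integral_exp_mul_Ioi (a := -t) (by linarith) x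
    have h3 : (fun μ : ℝ => Real.exp (-(t * μ))) = fun μ => Real.exp (-t * μ) := by
      ext μ; ring_nf
    rw [h3, h2]
    field_simp
  rw [← h1, ofReal_integral_eq_lintegral_ofReal]
  · have h3 := (integrableOn_exp_mul_Ioi (a := -t) (by linarith) x).const_mul t
    refine h3.congr (Eventually.of_forall fun μ => ?_)
    simp only [neg_mul]
  · exact Eventually.of_forall fun μ => by positivity

/-- comparison of the sums -/
theorem pf_sqz_cmp {ι : Type} [Countable ι] (e : ℕ → ℝ) (l : ι → ℝ) (t : ℝ) (ht : 0 < t)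
    (S : ℝ → Finset ι) (hl : ∀ μ s, s ∈ S μ ↔ l s < μ) (h : ∀ μ k, (S μ).card < k → μ ≤ e k) :
    ∑' k, ENNReal.ofReal (Real.exp (-(t * e (k + 1)))) ≤
      ∑' s, ENNReal.ofReal (Real.exp (-(t * l s))) := by
  simp_rw [pf_sqz_exp t ht]
  have hm : ∀ x : ℝ, Measurable (fun μ => (Ioi x).indicator
      (fun μ => ENNReal.ofReal (t * Real.exp (-(t * μ)))) μ) := by
    intro x
    exact Measurable.indicator (by fun_prop) measurableSet_Ioi
  rw [← lintegral_tsum (fun k => (hm _).aemeasurable), ← lintegral_tsum (fun k => (hm _).aemeasurable)]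
  refine lintegral_mono fun μ => ?_
  set F := ENNReal.ofReal (t * Real.exp (-(t * μ))) with hF
  have hL : ∑' k : ℕ, (Ioi (e (k + 1))).indicator
      (fun μ => ENNReal.ofReal (t * Real.exp (-(t * μ)))) μ ≤ (S μ).card • F := by
    rw [tsum_eq_sum (s := Finset.range (S μ).card)]
    · refine (Finset.sum_le_card_nsmul _ _ F ?_).trans (by rw [Finset.card_range])
      intro k _
      exact indicator_le_self' (fun _ _ => zero_le) μ
    · intro k hk
      rw [Finset.mem_range, not_lt] at hk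
      apply indicator_of_notMem
      have := h μ (k + 1) (by omega)
      simpa using this
  have hR : (S μ).card • F ≤ ∑' s : ι, (Ioi (l s)).indicator
      (fun μ => ENNReal.ofReal (t * Real.exp (-(t * μ)))) μ := by
    refine le_trans (le_of_eq ?_) (ENNReal.sum_le_tsum (S μ))
    rw [← Finset.sum_const]
    refine Finset.sum_congr rfl fun s hs => ?_
    rw [indicator_of_mem]
    exact (hl μ s).1 hs
  exact hL.trans hR

theorem pf_sqz_lm (s : ℕ × ℕ) : (s.1 : ℝ) ≤ Pool.Agent.Y289.SQ.lm 1 1 s ∧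
    (s.2 : ℝ) ≤ Pool.Agent.Y289.SQ.lm 1 1 s := by
  unfold Pool.Agent.Y289.SQ.lm
  have hpi : 1 ≤ π := by linarith [Real.pi_gt_three]
  have key : ∀ a : ℕ, (a : ℝ) ≤ (π * (a + 1) / 1) ^ 2 := by
    intro a
    have h0 : (0:ℝ) ≤ a := Nat.cast_nonneg a
    have h2 : (a : ℝ) + 1 ≤ π * (a + 1) / 1 := by rw [div_one]; nlinarith
    nlinarith
  have h1 := key s.1
  have h2 := key s.2
  have h3 : 0 ≤ (π * ((s.1:ℝ) + 1) / 1) ^ 2 := sq_nonneg _
  have h4 : 0 ≤ (π * ((s.2:ℝ) + 1) / 1) ^ 2 := sq_nonneg _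
  exact ⟨by linarith, by linarith⟩

theorem pf_sqz : S_sqz := by
  intro t ht
  have hθ : Summable (fun k : ℕ => Real.exp (-(t * (π * (k + 1)) ^ 2))) :=
    Pool.Agent.Y302.SQ.summ ht
  apply le_antisymm
  · have hsum := Pool.Agent.Y289.SQ.sm Sq pf_sqz_open pf_sqz_bdd pf_sqz_ne t ht
    classical
    have hfin : ∀ μ : ℝ, {s : ℕ × ℕ | Pool.Agent.Y289.SQ.lm 1 1 s < μ}.Finite := by
      intro μ
      refine Set.Finite.subset (Finset.finite_toSet (Finset.range (⌈μ⌉₊ + 1) ×ˢ Finset.range (⌈μ⌉₊ + 1))) ?_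
      intro s hs
      have h1 := pf_sqz_lm s
      have hs' : Pool.Agent.Y289.SQ.lm 1 1 s < μ := hs
      have h2 : (s.1 : ℝ) < ⌈μ⌉₊ := lt_of_le_of_lt h1.1 (hs'.trans_le (Nat.le_ceil μ))
      have h3 : (s.2 : ℝ) < ⌈μ⌉₊ := lt_of_le_of_lt h1.2 (hs'.trans_le (Nat.le_ceil μ))
      rw [Nat.cast_lt] at h2 h3
      simp only [Finset.coe_product, Finset.coe_range, mem_prod, mem_Iio]
      omega
    have hcmp := pf_sqz_cmp (fun k => Pool.Agent.W703.GP.ev Sq k)
      (fun s => Pool.Agent.Y289.SQ.lm 1 1 s) t ht (fun μ => (hfin μ).toFinset)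
      (fun μ s => by simp) (fun μ k hk => pf_sqz_cnt μ _ (fun s hs => by simpa using hs) k hk)
    have hs2 : Summable (fun s : ℕ × ℕ => Real.exp (-(t * Pool.Agent.Y289.SQ.lm 1 1 s))) := by
      have := hθ.mul_of_nonneg hθ (fun k => (Real.exp_pos _).le) (fun k => (Real.exp_pos _).le)
      refine this.congr fun s => ?_
      rw [← Real.exp_add]
      congr 1
      unfold Pool.Agent.Y289.SQ.lm
      ring
    rw [← ENNReal.ofReal_tsum_of_nonneg (fun k => (Real.exp_pos _).le) hsum,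
      ← ENNReal.ofReal_tsum_of_nonneg (fun k => (Real.exp_pos _).le) hs2] at hcmp
    have h1 := (ENNReal.ofReal_le_ofReal_iff (tsum_nonneg fun _ => (Real.exp_pos _).le)).1 hcmp
    refine le_trans (le_of_eq ?_) (h1.trans (le_of_eq ?_))
    · rfl
    · rw [sq, tsum_mul_tsum_of_summable_norm (hθ.norm) (hθ.norm)]
      refine tsum_congr fun s => ?_
      rw [← Real.exp_add]
      congr 1
      unfold Pool.Agent.Y289.SQ.lm
      ring
  · have h := Pool.Agent.Y302.SQ.tq Pool.Agent.Y289.SQ.sm Sq pf_sqz_open pf_sqz_conv pf_sqz_bdd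
      pf_sqz_ne 1 (fun _ => 0) 1 one_pos (fun i => by
        have : (fun z : ℂ => (0:ℂ) + ((1:ℝ):ℂ) * z) = id := by ext z; simp
        rw [this, image_id]
        exact fun z hz => hz) (fun i j hij => absurd (Subsingleton.elim i j) hij) t ht
    simpa using h

end Pool.Agent.H212AN
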