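import Mathlib

set_option autoImplicit false

/-!
# Project H212AN: circular annuli are determined by their Dirichlet spectrum (unconditionally)
Plane convex geometry: definitions and statements.
-/

namespace Pool.Agent.H212AN

open MeasureTheory Set Filter Topology Metric
open scoped Real ENNReal

/-- the coordinate in the direction `e^{iθ}` -/
noncomputable def yy (θ : ℝ) (k : ℂ) : ℝ := k.re * Real.cos θ + k.im * Real.sin θ

/-- the coordinate orthogonal to it; it is the derivative of `yy` in `θ` -/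
noncomputable def xx (θ : ℝ) (k : ℂ) : ℝ := k.im * Real.cos θ - k.re * Real.sin θ

/-- the support function -/
noncomputable def hs (K : Set ℂ) (θ : ℝ) : ℝ := sSup (yy θ '' K)

/-- the part of `K` on its supporting line -/
def face (K : Set ℂ) (θ : ℝ) : Set ℂ := {k | k ∈ K ∧ yy θ k = hs K θ}

/-- the right derivative of the support function -/
noncomputable def xp (K : Set ℂ) (θ : ℝ) : ℝ := sSup (xx θ '' face K θ)

/-- the left derivative of the support function -/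
noncomputable def xm (K : Set ℂ) (θ : ℝ) : ℝ := sInf (xx θ '' face K θ)

/-- the length of the edge of the convex hull with outer normal `e^{iθ}` -/
noncomputable def ell (K : Set ℂ) (θ : ℝ) : ℝ := xp K θ - xm K θ

/-- the sum of the cubes of the lengths of the edges -/
noncomputable def GG (K : Set ℂ) : ℝ≥0∞ :=
  ∑' θ : Ico (0:ℝ) (2 * π), ENNReal.ofReal (ell K θ) ^ 3

/-- the perimeter of the convex hull -/
noncomputable def per (K : Set ℂ) : ℝ := ∫ θ in (0:ℝ)..(2 * π), hs K θ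

/-- the area of the convex hull -/
noncomputable def ar2 (K : Set ℂ) : ℝ :=
  (1 / 2) * ∫ θ in (0:ℝ)..(2 * π), (hs K θ ^ 2 - deriv (hs K) θ ^ 2)

/-- at most two points on every supporting line -/
def TP (K : Set ℂ) : Prop :=
  ∀ θ, ∀ a ∈ face K θ, ∀ b ∈ face K θ, ∀ c ∈ face K θ, a = b ∨ b = c ∨ a = c

/-- erosion of the disc -/
def er (K : Set ℂ) (R : ℝ) : Set ℂ := {z | ∀ k ∈ K, ‖z + k‖ ≤ R}

noncomputable def FK (K : Set ℂ) (R : ℝ) : ℝ := (volume (er K R)).toReal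

/-- dilation of the disc -/
def di (K : Set ℂ) (R : ℝ) : Set ℂ := {z | ∃ k ∈ K, ‖z + k‖ < R}

noncomputable def UK (K : Set ℂ) (R : ℝ) : ℝ := (volume (di K R)).toReal

/-- the gap between the formal and the real support function of the eroded disc -/
noncomputable def ww (K : Set ℂ) (R θ : ℝ) : ℝ := R - hs K θ - hs (er K R) θ

/-- the first order form `∫ χ d(h + h'')` -/
noncomputable def BB (h χ : ℝ → ℝ) : ℝ :=
  ∫ θ in (0:ℝ)..(2 * π), (h θ * χ θ - deriv h θ * deriv χ θ)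

/-- standing assumptions: compact, contains `0`, contained in the disc of radius `ρ` -/
def Good (K : Set ℂ) (ρ : ℝ) : Prop := IsCompact K ∧ (0:ℂ) ∈ K ∧ K ⊆ closedBall 0 ρ

/-- basic facts on support functions -/
def S_hs : Prop := ∀ (K : Set ℂ) (ρ : ℝ), IsCompact K → K.Nonempty → K ⊆ closedBall 0 ρ →
  (∀ θ, (face K θ).Nonempty) ∧ (∀ θ, ∀ k ∈ K, yy θ k ≤ hs K θ) ∧ (∀ θ, |hs K θ| ≤ ρ) ∧
  LipschitzWith (Real.toNNReal ρ) (hs K) ∧ Function.Periodic (hs K) (2 * π) ∧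
  (∀ θ φ, 2 * Real.cos φ * hs K θ ≤ hs K (θ + φ) + hs K (θ - φ)) ∧
  (∀ θ, HasDerivWithinAt (hs K) (xp K θ) (Ici θ) θ) ∧
  (∀ θ, HasDerivWithinAt (hs K) (xm K θ) (Iic θ) θ) ∧
  (∀ θ, ∃ k ∈ face K θ, xx θ k = xp K θ) ∧ (∀ θ, ∃ k ∈ face K θ, xx θ k = xm K θ) ∧
  (∀ θ, ∀ k ∈ face K θ, xm K θ ≤ xx θ k ∧ xx θ k ≤ xp K θ) ∧
  (∀ θ, hs (convexHull ℝ K) θ = hs K θ) ∧
  ((0:ℂ) ∈ K → ∀ θ, 0 ≤ hs K θ)

/-- the surface measure `h + h''` -/
def S_sm : Prop := ∀ K : Set ℂ, IsCompact K → K.Nonempty → ∃ S : Measure ℝ,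
  IsLocallyFiniteMeasure S ∧
  (∀ a b : ℝ, a ≤ b → S (Ioc a b) =
    ENNReal.ofReal (xp K b - xp K a + ∫ θ in a..b, hs K θ)) ∧
  (∀ a b : ℝ, a < b → S (Ioo a b) =
    ENNReal.ofReal (xm K b - xp K a + ∫ θ in a..b, hs K θ)) ∧
  (∀ θ, S {θ} = ENNReal.ofReal (ell K θ)) ∧
  ∀ χ : ℝ → ℝ, (∃ C, LipschitzWith C χ) → Function.Periodic χ (2 * π) →
    ∫ θ in Ioc 0 (2 * π), χ θ ∂S = BB (hs K) χ

/-- the area from the support function -/
def S_ar : Prop := ∀ (C : Set ℂ) (r : ℝ), IsCompact C → Convex ℝ C → 0 < r → ball 0 r ⊆ C →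
  (volume C).toReal = ar2 C

/-- the eroded disc -/
def S_er : Prop := ∀ (K : Set ℂ) (ρ R : ℝ), Good K ρ → 0 < ρ → 4 * ρ < R →
  IsCompact (er K R) ∧ Convex ℝ (er K R) ∧ ball 0 (R - ρ) ⊆ er K R ∧
  (∀ θ, 0 ≤ ww K R θ ∧ ww K R θ ≤ ρ) ∧
  (∀ θ, 0 < ww K R θ → ∃ δ > 0, ∃ z ∈ er K R, ∀ θ', |θ' - θ| < δ →
    hs (er K R) θ' = yy θ' z) ∧
  ∃ θ, ww K R θ = 0

/-- energy identities -/
def S_en : Prop := ∀ (K : Set ℂ) (ρ R : ℝ), Good K ρ → 0 < ρ → 4 * ρ < R →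
  FK K R - (π * R ^ 2 - R * per K + ar2 K) =
    (1 / 2) * ∫ θ in (0:ℝ)..(2 * π), (deriv (ww K R) θ ^ 2 - ww K R θ ^ 2) ∧
  R * (∫ θ in (0:ℝ)..(2 * π), ww K R θ) - BB (hs K) (ww K R) =
    ∫ θ in (0:ℝ)..(2 * π), (ww K R θ ^ 2 - deriv (ww K R) θ ^ 2)

/-- semiconcavity of the gap -/
def S_sc : Prop := ∀ (K : Set ℂ) (ρ R : ℝ), Good K ρ → 0 < ρ → 4 * ρ < R →
  ConcaveOn ℝ univ (fun θ => ww K R θ - R * θ ^ 2 / 2) ∧
  (∀ θ, deriv (ww K R) θ ^ 2 ≤ 2 * R * ww K R θ) ∧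
  (∀ θ₀ θ, ww K R θ₀ = 0 → ww K R θ ≤ R * (θ - θ₀) ^ 2 / 2)

/-- intervals on which the gap is positive -/
def S_gap : Prop := ∀ (K : Set ℂ) (ρ R : ℝ), Good K ρ → 0 < ρ → 4 * ρ < R →
  ∀ θ, 0 < ww K R θ → ∃ a b : ℝ, a < θ ∧ θ < b ∧ b - a < 2 * π ∧ ww K R a = 0 ∧ ww K R b = 0 ∧
    (∀ τ ∈ Ioo a b, 0 < ww K R τ) ∧
    R * (b - a) - (∫ τ in a..b, ww K R τ) = xm K b - xp K a + ∫ τ in a..b, hs K τ

/-- upper bound for the first order form -/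
def S_ls : Prop := ∃ C : ℝ, ∀ (K : Set ℂ) (ρ : ℝ), Good K ρ → 0 < ρ →
  GG K ≠ ∞ ∧ (GG K).toReal ≤ C * ρ ^ 3 ∧
  (∀ ε > 0, ∀ᶠ R in atTop, R * BB (hs K) (ww K R) ≤ (GG K).toReal / 8 + ε) ∧
  ∀ R, 4 * ρ < R → R * BB (hs K) (ww K R) ≤ C * ρ ^ 3 ∧ ∀ θ, R * ww K R θ ≤ C * ρ ^ 2

/-- lower bound for the energy -/
def S_li : Prop := ∀ (K : Set ℂ) (ρ : ℝ), Good K ρ → 0 < ρ → GG K ≠ ∞ →
  ∀ ε > 0, ∀ᶠ R in atTop, (GG K).toReal / 24 - ε ≤
    R * ((1 / 2) * ∫ θ in (0:ℝ)..(2 * π), deriv (ww K R) θ ^ 2)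

/-- asymptotics of the area of the eroded disc -/
def S_F : Prop := ∃ C : ℝ, ∀ (K : Set ℂ) (ρ : ℝ), Good K ρ → 0 < ρ →
  Tendsto (fun R : ℝ => R * (FK K R - (π * R ^ 2 - R * per K + ar2 K))) atTop
    (𝓝 ((GG K).toReal / 24)) ∧
  ∀ R, 4 * ρ < R → |R * (FK K R - (π * R ^ 2 - R * per K + ar2 K))| ≤ C * ρ ^ 3

/-- Steiner's formula -/
def S_st : Prop := ∀ (K : Set ℂ) (ρ : ℝ), Good K ρ → 0 < ρ →
  (∀ R : ℝ, 0 < R → (volume (thickening R (convexHull ℝ K))).toReal =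
    π * R ^ 2 + R * per K + ar2 K) ∧ (volume (convexHull ℝ K)).toReal = ar2 K

/-- upper bound for the gap between the parallel sets -/
def S_Uu : Prop := ∀ (K : Set ℂ) (ρ R : ℝ), Good K ρ → 0 < ρ → 4 * ρ < R →
  volume (thickening R (convexHull ℝ K) \ thickening R K) ≤
    ENNReal.ofReal (1 / (24 * R) * (1 + ρ ^ 2 / R ^ 2)) * GG K

/-- lower bound for the gap between the parallel sets -/
def S_Ul : Prop := ∀ (K : Set ℂ) (ρ : ℝ), Good K ρ → 0 < ρ → TP K → GG K ≠ ∞ →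
  ∀ ε > 0, ∀ᶠ R in atTop, (GG K).toReal / 24 - ε ≤
    R * (volume (thickening R (convexHull ℝ K) \ thickening R K)).toReal

/-- asymptotics of the area of the dilated disc -/
def S_U : Prop := ∃ C : ℝ, ∀ (K : Set ℂ) (ρ : ℝ), Good K ρ → 0 < ρ →
  (TP K → Tendsto (fun R : ℝ => R * ((π * R ^ 2 + R * per K + ar2 K) - UK K R)) atTop
    (𝓝 ((GG K).toReal / 24))) ∧
  ∀ R, 4 * ρ < R → |R * ((π * R ^ 2 + R * per K + ar2 K) - UK K R)| ≤ C * ρ ^ 3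

/-- radial functions of the eroded and the dilated disc -/
noncomputable def ec (K : Set ℂ) (R θ : ℝ) : ℝ :=
  sSup ((fun k => yy θ k + (R - √(R ^ 2 - xx θ k ^ 2))) '' K)

noncomputable def en (K : Set ℂ) (R θ : ℝ) : ℝ :=
  sSup ((fun k => -yy θ k - (R - √(R ^ 2 - xx θ k ^ 2))) '' K)

/-- polar coordinates -/
def S_pl : Prop := ∀ (K : Set ℂ) (ρ R : ℝ), Good K ρ → 0 < ρ → 4 * ρ < R →
  FK K R = (1 / 2) * ∫ θ in (0:ℝ)..(2 * π), (R - ec K R θ) ^ 2 ∧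
  UK K R = (1 / 2) * ∫ θ in (0:ℝ)..(2 * π), (R + en K R θ) ^ 2

/-- the set of shifts for which three blocks touch a common line is null -/
def S_n3 : Prop := ∀ F G : ℝ → ℝ, (∃ C, LipschitzWith C F) → (∃ C, LipschitzWith C G) →
  volume {p : ℂ × ℂ | ∃ θ ∈ Icc (0:ℝ) (2 * π), yy θ p.1 = F θ ∧ yy θ p.2 = G θ} = 0

/-- sum over signs for a cyclic chain -/
noncomputable def sgn {M : ℕ} [NeZero M] (p q : Fin M → ℝ) (f : Fin M → Bool → ℝ) : ℝ :=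
  ∑ ε : Fin M → Bool, (∏ i, f i (ε i)) * ∏ i, (if ε i = ε (i + 1) then p i else q i)

/-- the types of sites: free, right, left/right, none -/
def Site (f f' : Bool → ℝ) : Prop :=
  (f true = 1 ∧ f false = 1 ∧ f' true = 1 ∧ f' false = 1) ∨
  (f true = 1 ∧ f false = 0 ∧ f' true = 1 ∧ f' false = 0) ∨
  (f true = 0 ∧ f false = 1 ∧ f' true = 1 ∧ f' false = 0) ∨
  (f true = 0 ∧ f false = 0 ∧ f' true = 0 ∧ f' false = 0)

/-- the two-point inequality for cyclic chains, with remainder -/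
def S_o1 : Prop := ∀ (m : ℕ) (p q : Fin (m + 1) → ℝ) (f f' : Fin (m + 1) → Bool → ℝ),
  (∀ i, 0 ≤ q i ∧ q i ≤ p i) → (∀ i, Site (f i) (f' i)) →
  sgn p q f ≤ sgn p q f' ∧
  ((∀ i, f' i true = 1) → (∃ i, f i true = 0) → (∃ i, f i true = 1 ∧ f i false = 0) →
    sgn p q f + ∏ i, (p i - q i) ≤ sgn p q f')

end Pool.Agent.H212AN
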