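import Pool.Agent.H212AN.D0

set_option autoImplicit false

/-! # Project H212AN: auxiliary statements on convex sets -/

namespace Pool.Agent.H212AN

open MeasureTheory Set Filter Topology Metric
open scoped Real ENNReal

/-- the convex set with the smooth support function `g` -/
def Wf (g : ℝ → ℝ) : Set ℂ := {z : ℂ | ∀ θ, yy θ z ≤ g θ}

/-- the area for a smooth support function -/
def S_ar1 : Prop := ∀ g : ℝ → ℝ, ContDiff ℝ (⊤ : ℕ∞) g → Function.Periodic g (2 * π) →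
  (∀ θ, 0 < g θ) → (∀ θ, 0 < g θ + deriv (deriv g) θ) →
  IsCompact (Wf g) ∧ (∀ θ, hs (Wf g) θ = g θ) ∧
  (volume (Wf g)).toReal = (1 / 2) * ∫ θ in (0:ℝ)..(2 * π), (g θ ^ 2 - deriv g θ ^ 2)

/-- smooth approximation of a support function -/
def S_ap : Prop := ∀ (C : Set ℂ) (r : ℝ), IsCompact C → Convex ℝ C → 0 < r → ball 0 r ⊆ C →
  ∃ g : ℕ → ℝ → ℝ, (∀ n, ContDiff ℝ (⊤ : ℕ∞) (g n)) ∧ (∀ n, Function.Periodic (g n) (2 * π)) ∧
    (∀ n θ, 0 < g n θ) ∧ (∀ n θ, 0 < g n θ + deriv (deriv (g n)) θ) ∧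
    (∃ e : ℕ → ℝ, Tendsto e atTop (𝓝 0) ∧ ∀ n θ, |g n θ - hs C θ| ≤ e n) ∧
    Tendsto (fun n => ∫ θ in (0:ℝ)..(2 * π), deriv (g n) θ ^ 2) atTop
      (𝓝 (∫ θ in (0:ℝ)..(2 * π), deriv (hs C) θ ^ 2))

end Pool.Agent.H212AN
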