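import Pool.Agent.H212AN.D0
import Pool.Agent.W594.AN.Curve

set_option autoImplicit false

/-!
# Project H212AN: domains with smooth boundary, local geometry and winding numbers
-/

namespace Pool.Agent.H212AN

open MeasureTheory Set Filter Topology Metric
open Pool.Agent.W594.AN (ClosedCurve)
open scoped Real ENNReal ComplexConjugate

/-- normal coordinates; `u > 0` is the left side of the curve -/
noncomputable def Ps (c : ClosedCurve) (s u : ℝ) : ℂ :=
  c.γ s + Complex.I * (u : ℂ) * deriv c.γ s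

/-- the point with the coordinates `x`, `y` in the frame at `γ s` -/
noncomputable def fr (c : ClosedCurve) (s x y : ℝ) : ℂ :=
  c.γ s + ((x : ℂ) + Complex.I * (y : ℂ)) * deriv c.γ s

/-- the left and the right part of the tube -/
def LT (c : ClosedCurve) (ε : ℝ) : Set ℂ := {z | ∃ s u : ℝ, 0 < u ∧ u < ε ∧ z = Ps c s u}
def RT (c : ClosedCurve) (ε : ℝ) : Set ℂ := {z | ∃ s u : ℝ, -ε < u ∧ u < 0 ∧ z = Ps c s u}

/-- third order Taylor polynomial of the local graph, plus `C x ^ 4` -/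
noncomputable def ta (c : ClosedCurve) (C s x : ℝ) : ℝ :=
  c.curvature s / 2 * x ^ 2 + deriv c.curvature s / 6 * x ^ 3 + C * x ^ 4

/-- the curve is locally a graph -/
def S_lg : Prop := ∀ c : ClosedCurve, ∃ ε₁ C : ℝ, 0 < ε₁ ∧ 0 < C ∧
  (∀ s, |c.curvature s| ≤ C ∧ |deriv c.curvature s| ≤ C) ∧
  ∀ s s' x y : ℝ, |x| ≤ ε₁ → |y| ≤ ε₁ → c.γ s' = fr c s x y →
    ta c (-C) s x ≤ y ∧ y ≤ ta c C s x

/-- the tube -/
def S_tb : Prop := ∀ c : ClosedCurve, ∃ ε₁ : ℝ, 0 < ε₁ ∧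
  (∀ s s' u u' : ℝ, s ∈ Ico 0 c.L → s' ∈ Ico 0 c.L → |u| < ε₁ → |u'| < ε₁ →
    Ps c s u = Ps c s' u' → s = s' ∧ u = u') ∧
  (∀ s u : ℝ, |u| < ε₁ → infDist (Ps c s u) (range c.γ) = |u|) ∧
  (∀ z, infDist z (range c.γ) < ε₁ → ∃ s ∈ Ico 0 c.L, ∃ u : ℝ, |u| < ε₁ ∧ z = Ps c s u) ∧
  ∀ ε : ℝ, 0 < ε → ε ≤ ε₁ → IsOpen (LT c ε) ∧ IsOpen (RT c ε) ∧ IsConnected (LT c ε) ∧
    IsConnected (RT c ε)

/-- sides of the curve -/
def S_sd : Prop := ∀ c : ClosedCurve, ∃ ε₁ C : ℝ, 0 < ε₁ ∧ 0 < C ∧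
  (∀ s, |c.curvature s| ≤ C ∧ |deriv c.curvature s| ≤ C) ∧
  ∀ ε₀ : ℝ, 0 < ε₀ → ε₀ ≤ ε₁ → ∀ s x y : ℝ, |x| ≤ ε₀ / 2 → |y| ≤ ε₀ / 2 →
    (ta c C s x < y → fr c s x y ∈ LT c ε₀) ∧ (y < ta c (-C) s x → fr c s x y ∈ RT c ε₀)

/-- the winding number of the curve around `z` -/
noncomputable def wd (c : ClosedCurve) (z : ℂ) : ℂ :=
  (2 * π * Complex.I)⁻¹ * ∫ s in (0:ℝ)..c.L, deriv c.γ s / (c.γ s - z)

/-- winding numbers are integers, locally constant, and vanish outside the convex hull -/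
def S_wd : Prop := ∀ c : ClosedCurve, (∀ z ∉ range c.γ, ∃ n : ℤ, wd c z = n) ∧
  ContinuousOn (wd c) (range c.γ)ᶜ ∧ (∀ z ∉ convexHull ℝ (range c.γ), wd c z = 0) ∧
  ∀ A : Set ℂ, IsPreconnected A → Disjoint A (range c.γ) → ∀ z ∈ A, ∀ w ∈ A, wd c z = wd c w

/-- the jump of the winding number -/
def S_jp : Prop := ∀ (c : ClosedCurve) (s : ℝ),
  Tendsto (fun u : ℝ => wd c (Ps c s u) - wd c (Ps c s (-u))) (𝓝[>] 0) (𝓝 1)

/-- the integral of the winding number -/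
def S_wa : Prop := ∀ (c : ClosedCurve) (R : ℝ), range c.γ ⊆ ball 0 R →
  IntegrableOn (wd c) (ball 0 R) ∧ ∫ z in ball (0:ℂ) R, wd c z = (c.area : ℂ)

/-- the reversed curve -/
noncomputable def rev (c : ClosedCurve) : ClosedCurve where
  L := c.L
  L_pos := c.L_pos
  γ := fun s => c.γ (-s)
  smooth := c.smooth.comp contDiff_neg
  periodic := by
    intro s
    show c.γ (-(s + c.L)) = c.γ (-s)
    have := c.periodic (-(s + c.L))
    rw [← this]
    congr 1
    ring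
  unit_speed := by
    intro s
    rw [deriv_comp_neg]
    rw [norm_neg]
    exact c.unit_speed (-s)
  injOn := by
    intro s hs s' hs' h
    have hL := c.L_pos
    have h' : c.γ (-s) = c.γ (-s') := h
    by_cases h0 : s = 0
    · by_cases h0' : s' = 0
      · rw [h0, h0']
      · subst h0
        have e : c.γ (-s') = c.γ (c.L - s') := by
          rw [← c.periodic (-s')]; congr 1; ring
        rw [e, neg_zero] at h'
        have hs'' : 0 < s' := lt_of_le_of_ne hs'.1 (Ne.symm h0')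
        have := c.injOn (show (0:ℝ) ∈ Ico 0 c.L from ⟨le_rfl, hL⟩)
          (show c.L - s' ∈ Ico 0 c.L from ⟨by linarith [hs'.2], by linarith⟩) h'
        linarith [hs'.2]
    · have hs0 : 0 < s := lt_of_le_of_ne hs.1 (Ne.symm h0)
      have e0 : c.γ (-s) = c.γ (c.L - s) := by
        rw [← c.periodic (-s)]; congr 1; ring
      by_cases h0' : s' = 0
      · subst h0'
        rw [e0, neg_zero] at h'
        have := c.injOn (show c.L - s ∈ Ico 0 c.L from ⟨by linarith [hs.2], by linarith⟩)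
          (show (0:ℝ) ∈ Ico 0 c.L from ⟨le_rfl, hL⟩) h'
        linarith [hs.2]
      · have hs0' : 0 < s' := lt_of_le_of_ne hs'.1 (Ne.symm h0')
        have e1 : c.γ (-s') = c.γ (c.L - s') := by
          rw [← c.periodic (-s')]; congr 1; ring
        rw [e0, e1] at h'
        have := c.injOn (show c.L - s ∈ Ico 0 c.L from ⟨by linarith [hs.2], by linarith⟩)
          (show c.L - s' ∈ Ico 0 c.L from ⟨by linarith [hs'.2], by linarith⟩) h'
        linarith

/-- properties of the reversed curve -/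
def S_rv : Prop := ∀ c : ClosedCurve, range (rev c).γ = range c.γ ∧
  (∀ s, (rev c).curvature s = -c.curvature (-s)) ∧
  (rev c).totalCurvature = -c.totalCurvature ∧ (rev c).bending = c.bending ∧
  (rev c).area = -c.area ∧ (∀ z, wd (rev c) z = -wd c z) ∧
  (∀ s u, Ps (rev c) s u = Ps c (-s) (-u)) ∧
  (∀ ε, LT (rev c) ε = RT c ε ∧ RT (rev c) ε = LT c ε)

/-- A bounded plane domain with smooth boundary: a bounded connected open set whose boundary is
the disjoint union of the embedded smooth closed curves `c i`. -/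
structure SD (Ω : Set ℂ) (n : ℕ) (c : Fin n → ClosedCurve) : Prop where
  isOpen : IsOpen Ω
  isConnected : IsConnected Ω
  isBounded : Bornology.IsBounded Ω
  frontier_eq : frontier Ω = ⋃ i, range (c i).γ
  disj : Pairwise fun i j => Disjoint (range (c i).γ) (range (c j).γ)

/-- local description of a domain lying on the left of its boundary curves -/
structure LB (Ω : Set ℂ) (n : ℕ) (c : Fin n → ClosedCurve) (ε C : ℝ) : Prop where
  isOpen : IsOpen Ω
  isBounded : Bornology.IsBounded Ω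
  nonempty : Ω.Nonempty
  null : volume (frontier Ω) = 0
  eps : 0 < ε ∧ ε ≤ 1
  pos : 0 < C ∧ ε * C ≤ 1 / 2
  curv : ∀ i s, |(c i).curvature s| ≤ C ∧ |deriv (c i).curvature s| ≤ C
  left : ∀ i s u, 0 < u → u < ε → Ps (c i) s u ∈ Ω
  right : ∀ i s u, -ε < u → u ≤ 0 → Ps (c i) s u ∉ Ω
  inj : ∀ i j s u s' u', s ∈ Ico 0 (c i).L → s' ∈ Ico 0 (c j).L → u ∈ Ioo 0 ε → u' ∈ Ioo 0 ε →
    Ps (c i) s u = Ps (c j) s' u' → i = j ∧ s = s' ∧ u = u'
  cover : ∀ z ∈ Ω, ∀ w ∉ Ω, dist z w < ε →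
    ∃ i, ∃ s ∈ Ico 0 (c i).L, ∃ u ∈ Ioc 0 (dist z w), z = Ps (c i) s u
  inside : ∀ i s x y, |x| ≤ ε → |y| ≤ ε → ta (c i) C s x < y → fr (c i) s x y ∈ Ω
  outside : ∀ i s x y, |x| ≤ ε → |y| ≤ ε → y < ta (c i) (-C) s x → fr (c i) s x y ∉ closure Ω

/-- orientation: the domain is on the left after reversing some of the curves -/
def S_or : Prop := ∀ (Ω : Set ℂ) (n : ℕ) (c : Fin n → ClosedCurve), SD Ω n c →
  ∃ c' : Fin n → ClosedCurve, (∀ i, c' i = c i ∨ c' i = rev (c i)) ∧ SD Ω n c' ∧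
    ∃ ε C : ℝ, LB Ω n c' ε C

/-- the sum of the winding numbers -/
def S_ws : Prop := ∀ (Ω : Set ℂ) (n : ℕ) (c : Fin n → ClosedCurve) (ε C : ℝ), SD Ω n c →
  LB Ω n c ε C → ∀ z ∉ frontier Ω, ∑ i, wd (c i) z = Ω.indicator 1 z

/-- winding number on the left side and the Umlaufsatz -/
def S_ul : Prop := ∀ c : ClosedCurve, ∃ ε > 0,
  ((∀ z ∈ LT c ε, wd c z = 1) ∧ c.totalCurvature = 2 * π ∧ 0 < c.area) ∨
  ((∀ z ∈ LT c ε, wd c z = 0) ∧ c.totalCurvature = -(2 * π) ∧ c.area < 0)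

/-- upper bound for the set of removed points -/
noncomputable def pk (κ c d : ℝ) (K : Set ℂ) : ℝ :=
  sSup ((fun q : ℂ => q.re + κ / 2 * q.im ^ 2 + c * q.im ^ 3 + d * q.im ^ 4) '' K)

/-- the depth of the set of removed points at `γ s`, with `±C` -/
noncomputable def dp (c : ClosedCurve) (C : ℝ) (K : Set ℂ) (s : ℝ) : ℝ :=
  pk (c.curvature s) (deriv c.curvature s / 6) C
    ((fun k : ℂ => Complex.I * conj (deriv c.γ s) * k) '' K)

/-- the area of the set of translations keeping `K` in the domain -/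
def S_rm : Prop := ∀ (Ω : Set ℂ) (n : ℕ) (c : Fin n → ClosedCurve) (ε C : ℝ), LB Ω n c ε C →
  ∀ (K : Set ℂ) (ρ : ℝ), Good K ρ → 0 < ρ → ρ ≤ ε / 4 →
    (volume Ω).toReal - (∑ i, ∫ s in (0:ℝ)..(c i).L,
        (dp (c i) C K s - (c i).curvature s / 2 * dp (c i) C K s ^ 2)) ≤
      (volume {z | ∀ k ∈ K, z + k ∈ Ω}).toReal ∧
    (volume {z | ∀ k ∈ K, z + k ∈ closure Ω}).toReal ≤
      (volume Ω).toReal - ∑ i, ∫ s in (0:ℝ)..(c i).L,
        (dp (c i) (-C) K s - (c i).curvature s / 2 * dp (c i) (-C) K s ^ 2)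

end Pool.Agent.H212AN
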