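import Pool.Agent.H212AN.D1
import Pool.Agent.H212AN.D2

set_option autoImplicit false

/-!
# Project H212AN: heat traces and loops, abstract part
The heat trace enters only through two properties of the function `Z` (they are proved in the
files `R225/LP/TR`): see `ZUp` and `ZLo`.
-/

namespace Pool.Agent.H212AN

open MeasureTheory Set Filter Topology Metric
open Pool.Agent.W594.AN (ClosedCurve)
open Pool.Agent.H212AN.G (nG PG gm gk)
open scoped Real ENNReal ComplexConjugate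

/-- expected volume of the set of translations which keep the loop (scaled by `√t`) in `Q` -/
noncomputable def EV (μ : Measure Lo) (Q : Set ℂ) (t : ℝ) : ℝ≥0∞ :=
  ∫⁻ b, volume {z : ℂ | ∀ s : unitInterval, z + (√t : ℂ) * b s ∈ Q} ∂μ

/-- the same for the loop with `m + 1` points -/
noncomputable def EM (Q : Set ℂ) (t : ℝ) (m : ℕ) : ℝ≥0∞ :=
  ∫⁻ X, volume {z : ℂ | ∀ r < m + 1, z + gm X r ∈ Q} ∂(PG (t / ((m : ℝ) + 1)) (m + 1))

/-- comparison of the expectations for discrete and continuous loops -/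
def S_em : Prop := ∀ μ : Measure Lo, IsLoop μ → ∀ Q : Set ℂ, IsOpen Q → Bornology.IsBounded Q →
  ∀ t : ℝ, 0 < t → (∀ m, EV μ Q t ≤ EM Q t m) ∧
    limsup (fun m => EM Q t m) atTop ≤ EV μ (closure Q) t

/-- exhaustion from inside -/
def S_ex : Prop := ∀ μ : Measure Lo, IsLoop μ → ∀ Q : Set ℂ, IsOpen Q → Bornology.IsBounded Q →
  ∀ t : ℝ, 0 < t → EV μ Q t = ⨆ n : ℕ, EV μ {z | (1 : ℝ≥0∞) / (n + 1) < infEDist z Qᶜ} t

/-- upper property of the heat trace -/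
def ZUp (Z : Set ℂ → ℝ → ℝ) : Prop := ∀ Q : Set ℂ, IsOpen Q → Bornology.IsBounded Q →
  Q.Nonempty → ∀ t : ℝ, 0 < t → ∀ m : ℕ, ENNReal.ofReal (4 * π * t * Z Q t) ≤ EM Q t m

/-- lower property of the heat trace -/
def ZLo (Z : Set ℂ → ℝ → ℝ) : Prop := ∀ Q K : Set ℂ, IsOpen Q → Bornology.IsBounded Q →
  Q.Nonempty → IsOpen K → ∀ ρ > 0, (∀ c ∈ K, ball c ρ ⊆ Q) → ∀ t : ℝ, 0 < t →
  limsup (fun m : ℕ => EM K t m) atTop ≤ ENNReal.ofReal (4 * π * t * Z Q t)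

/-- the heat trace and the loops -/
def S_tr : Prop := ∀ Z : Set ℂ → ℝ → ℝ, ZUp Z → ZLo Z → (∀ Q t, 0 ≤ Z Q t) →
  ∀ μ : Measure Lo, IsLoop μ →
  ∀ Q : Set ℂ, IsOpen Q → Bornology.IsBounded Q → Q.Nonempty → ∀ t : ℝ, 0 < t →
    EV μ Q t ≤ ENNReal.ofReal (4 * π * t * Z Q t) ∧
    ENNReal.ofReal (4 * π * t * Z Q t) ≤ EV μ (closure Q) t

/-- the expected depth of the set of removed points -/
def S_dp : Prop := ∀ μ : Measure Lo, IsLoop μ → ∀ (c : ClosedCurve) (C ε : ℝ), 0 < C → 0 < ε →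
  (∀ s, |c.curvature s| ≤ C ∧ |deriv c.curvature s| ≤ C) → ∀ C' : ℝ, |C'| = C →
  ∃ D : ℝ, ∀ t : ℝ, 0 < t → t ≤ 1 →
  |(∫ b, {b : Lo | √t * ‖b‖ ≤ ε}.indicator (fun b => ∫ s in (0:ℝ)..c.L,
      (dp c C' (rg (√t • b)) s - c.curvature s / 2 * dp c C' (rg (√t • b)) s ^ 2)) b ∂μ) -
    √t * ∫ s in (0:ℝ)..c.L, Gf μ (√t * c.curvature s) (t * (deriv c.curvature s / 6))
      (√t ^ 3 * C')| ≤ D * t ^ 2

/-- the expansion of the integral over the boundary -/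
def S_bd : Prop := ∀ μ : Measure Lo, IsLoop μ → ∀ (c : ClosedCurve) (C' : ℝ),
  Tendsto (fun t : ℝ => ((∫ s in (0:ℝ)..c.L, Gf μ (√t * c.curvature s)
      (t * (deriv c.curvature s / 6)) (√t ^ 3 * C')) -
    (m0 μ * c.L - √t * m1 μ * c.totalCurvature)) / t) (𝓝[>] 0) (𝓝 (-(m2 μ * c.bending)))

/-- the heat expansion -/
def S_he : Prop := ∀ Z : Set ℂ → ℝ → ℝ, ZUp Z → ZLo Z → (∀ Q t, 0 ≤ Z Q t) →
  ∀ μ : Measure Lo, IsLoop μ → ∀ (Ω : Set ℂ) (n : ℕ) (c : Fin n → ClosedCurve) (ε C : ℝ),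
  LB Ω n c ε C →
  Tendsto (fun t : ℝ => (4 * π * t * Z Ω t - ((volume Ω).toReal - √t * m0 μ * (∑ i, (c i).L) +
      t * m1 μ * ∑ i, (c i).totalCurvature)) / √t ^ 3) (𝓝[>] 0)
    (𝓝 (m2 μ * ∑ i, (c i).bending))

end Pool.Agent.H212AN
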