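import Pool.Agent.H212AN.D3

set_option autoImplicit false

/-!
# Project H212AN: the heat trace of a disc with a hole depends strictly on the position of the hole
-/

namespace Pool.Agent.H212AN

open MeasureTheory Set Filter Topology Metric
open Pool.Agent.H212AN.G (nG PG gm gk)
open scoped Real ENNReal ComplexConjugate

/-- the cyclic chain integral over a set of configurations -/
noncomputable def CY (s : ℝ) (m : ℕ) (V : Set (Fin (m + 1) → ℂ)) : ℝ≥0∞ :=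
  ∫⁻ x in V, ∏ i, ENNReal.ofReal (gk s (x (i + 1) - x i))

/-- chain integrals and loops -/
def S_cyc : Prop := ∀ (s : ℝ) (m : ℕ) (V : Set (Fin (m + 1) → ℂ)), 0 < s → MeasurableSet V →
  ENNReal.ofReal (4 * π * (((m : ℝ) + 1) * s)) * CY s m V =
    ∫⁻ X, volume {z : ℂ | (fun r : Fin (m + 1) => z + gm X r) ∈ V} ∂(PG s (m + 1))

/-- the point or its mirror image -/
noncomputable def fl2 (e : Bool) (x : ℂ) : ℂ := if e then x else conj x

/-- folding at the real axis -/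
def S_fold : Prop := ∀ (M : ℕ) (F : (Fin M → ℂ) → ℝ≥0∞), Measurable F →
  ∫⁻ x, F x = ∫⁻ x in {x : Fin M → ℂ | ∀ i, 0 < (x i).im}, ∑ ε : Fin M → Bool, F (fun i => fl2 (ε i) (x i))

/-- the indicator of a set at a point and at its mirror image -/
noncomputable def i2 (D : Set ℂ) (x : ℂ) (e : Bool) : ℝ := D.indicator 1 (fl2 e x)

/-- `D'` is the polarisation of `D` -/
def Pol (D D' : Set ℂ) : Prop := ∀ x : ℂ, 0 < x.im → Site (i2 D x) (i2 D' x)

/-- configurations in the upper half of `D'` visiting both kinds of special points -/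
def V1 (D D' : Set ℂ) (m : ℕ) (δ : ℝ) : Set (Fin (m + 1) → ℂ) :=
  {x | (∀ i, δ < (x i).im ∧ x i ∈ D') ∧ (∃ i, x i ∉ D) ∧ ∃ i, x i ∈ D ∧ conj (x i) ∉ D}

/-- polarisation increases the chain integral -/
def S_pol : Prop := ∀ (D D' : Set ℂ) (s : ℝ) (m : ℕ), MeasurableSet D → MeasurableSet D' →
  0 < s → Pol D D' →
  CY s m {x | ∀ i, x i ∈ D} + (∫⁻ x in V1 D D' m 0, ∏ i, ENNReal.ofReal
    (gk s (x (i + 1) - x i) - gk s (x (i + 1) - conj (x i)))) ≤ CY s m {x | ∀ i, x i ∈ D'}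

/-- configurations away from the axis -/
def S_awa : Prop := ∀ (D D' : Set ℂ) (s δ : ℝ) (m : ℕ), MeasurableSet D → MeasurableSet D' →
  0 < s → 0 < δ →
  ENNReal.ofReal ((1 - Real.exp (-(δ ^ 2 / s))) ^ (m + 1)) * CY s m (V1 D D' m δ) ≤
    ∫⁻ x in V1 D D' m 0, ∏ i, ENNReal.ofReal
      (gk s (x (i + 1) - x i) - gk s (x (i + 1) - conj (x i)))

/-- level sets of the distance are null sets -/
def S_nl : Prop := ∀ (K : Set ℂ) (c w : ℂ) (R r : ℝ), IsCompact K → K.Nonempty → 0 < r →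
  closedBall w r ⊆ ball c R →
  volume ({z | ∀ k ∈ K, z + k ∈ closure (ball c R \ closedBall w r)} \
    {z | ∀ k ∈ K, z + k ∈ ball c R \ closedBall w r}) = 0

/-- the two discs with a hole, near and far -/
noncomputable def Dn (R r b h : ℝ) : Set ℂ :=
  ball (b * Complex.I) R \ closedBall (h * Complex.I) r
noncomputable def Df (R r b h : ℝ) : Set ℂ :=
  ball (b * Complex.I) R \ closedBall (-(h * Complex.I)) r

/-- geometry of the two domains -/
def S_gp : Prop := ∀ R r b h : ℝ, 0 < r → 0 < h → h ≤ b → b + h + r < R →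
  Pol (Dn R r b h) (Df R r b h) ∧ ∃ (p v : ℂ) (η δ : ℝ), 0 < η ∧ 0 < δ ∧
    ∀ z ∈ ball p η, ∀ q : ℂ,
      ((∃ x : ℝ, 0 ≤ x ∧ x ≤ 1 ∧ ‖q - x * v‖ ≤ η) → δ < (z + q).im ∧ z + q ∈ Df R r b h) ∧
      z ∉ Dn R r b h ∧
      (‖q - v‖ ≤ η → z + q ∈ Dn R r b h ∧ conj (z + q) ∉ Dn R r b h)

/-- a positive amount of loops makes the difference -/
def S_vis : Prop := ∀ R r b h : ℝ, 0 < r → 0 < h → h ≤ b → b + h + r < R →
  ∃ t : ℝ, 0 < t ∧ ∃ ε : ℝ, 0 < ε ∧ ∀ᶠ K : ℕ in atTop,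
    EM (Dn R r b h) t (2 * K + 1) + ENNReal.ofReal ε ≤ EM (Df R r b h) t (2 * K + 1)

/-- the position of the hole is determined by the heat trace -/
def S_obs : Prop := ∀ Z : Set ℂ → ℝ → ℝ, ZUp Z → ZLo Z → (∀ Q t, 0 ≤ Z Q t) →
  ∀ R r b h : ℝ, 0 < r → 0 < h → h ≤ b → b + h + r < R →
  ∃ t : ℝ, 0 < t ∧ Z (Dn R r b h) t < Z (Df R r b h) t

end Pool.Agent.H212AN
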