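import Pool.Agent.H212AN.D2
import Pool.Agent.W594.AN.Spectral

set_option autoImplicit false

/-!
# Project H212AN: domains with smooth boundary, global topology
-/

namespace Pool.Agent.H212AN

open MeasureTheory Set Filter Topology Metric
open Pool.Agent.W594.AN (ClosedCurve SmoothDomain)
open scoped Real ENNReal ComplexConjugate

/-- exactly one boundary curve is the outer one, and the domain is a `SmoothDomain` -/
def S_top : Prop := ∀ (Ω : Set ℂ) (n : ℕ) (c : Fin n → ClosedCurve) (ε C : ℝ), SD Ω n c →
  LB Ω n c ε C → ∃ D : SmoothDomain, D.Ω = Ω ∧ D.holes + 1 = n ∧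
    D.perimeter = ∑ i, (c i).L ∧ D.bending = ∑ i, (c i).bending ∧
    ∑ i, (c i).totalCurvature = 2 * π * (1 - D.holes)

end Pool.Agent.H212AN
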