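import Pool.Agent.H212AN.E1

set_option autoImplicit false

/-!
# Project H212AN, third part: exact asymptotics for two obstacles
The real and the imaginary part of the loop are independent; the law of the width is known exactly.
-/

namespace Pool.Agent.H212AN

open MeasureTheory Set Filter Topology Metric
open Pool.Agent.H212AN.G (nG PG gm gk)
open scoped Real ENNReal ComplexConjugate

/-- continuous real paths -/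
abbrev LR := C(unitInterval, ℝ)

noncomputable instance lrMeasurableSpace : MeasurableSpace C(unitInterval, ℝ) := borel _

instance lrBorelSpace : BorelSpace C(unitInterval, ℝ) := ⟨rfl⟩

/-- the complex path with given real and imaginary part -/
noncomputable def jn (x y : LR) : Lo :=
  ⟨fun s => (x s : ℂ) + (y s : ℂ) * Complex.I, by fun_prop⟩

/-- a real number as a time -/
noncomputable def pj (s : ℝ) : unitInterval := Set.projIcc (0:ℝ) 1 zero_le_one s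

/-- the time one half -/
noncomputable def hf : unitInterval := ⟨1 / 2, by norm_num, by norm_num⟩

/-- the path started at the time `h` (for a closed path: `y (s + h) - y h`, time modulo 1) -/
noncomputable def rot (h : unitInterval) (y : LR) : LR :=
  ⟨fun s => y (pj ((s : ℝ) + h)) - y h + (y (pj ((s : ℝ) + h - 1)) - y 0), by
    unfold pj
    fun_prop⟩

/-- `ν` is the law of the real part of the loop -/
structure IsBr (μ : Measure Lo) (ν : Measure LR) : Prop where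
  prob : IsProbabilityMeasure ν
  prod : μ = (ν.prod ν).map (fun p : LR × LR => jn p.1 p.2)
  cyc : ∀ h : unitInterval, ν.map (rot h) = ν
  zero : ∀ᵐ y ∂ν, y 0 = 0 ∧ y 1 = 0
  half : ∀ f : ℝ → ℝ≥0∞, Measurable f →
    ∫⁻ y, f (y hf) ∂ν = ∫⁻ x : ℝ, ENNReal.ofReal (Real.exp (-x ^ 2) / √π) * f x

/-- product structure -/
def S_pc : Prop := ∀ μ : Measure Lo, IsLoop μ → ∃ ν : Measure LR, IsBr μ ν

/-- the width -/
noncomputable def Wi (x : LR) : ℝ := sSup (range x) - sInf (range x)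

/-- the open unit square -/
def Sq : Set ℂ := {z | 0 < z.re ∧ z.re < 1 ∧ 0 < z.im ∧ z.im < 1}

/-- the heat trace of the square -/
def ZSq (Z : Set ℂ → ℝ → ℝ) : Prop := ∀ t : ℝ, 0 < t →
  Z Sq t = (∑' k : ℕ, Real.exp (-(t * (π * (k + 1)) ^ 2))) ^ 2

/-- the law of the width -/
def Wl (ν : Measure LR) : Prop := ∀ a t : ℝ, 0 < a → 0 < t →
  Integrable (fun x : LR => max (√t * Wi x - a) 0) ν ∧
  ∫ x, max (√t * Wi x - a) 0 ∂ν = 2 * a * ∑' k : ℕ, Real.exp (-(((k:ℝ) + 1) ^ 2 * a ^ 2 / t))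

def S_wl : Prop := ∀ Z : Set ℂ → ℝ → ℝ, ZUp Z → ZLo Z → (∀ Q t, 0 ≤ Z Q t) → ZSq Z →
  ∀ (μ : Measure Lo) (ν : Measure LR), IsLoop μ → IsBr μ ν → Wl ν

/-- moment of order `3/2` of the excess of the width -/
noncomputable def m32 (ν : Measure LR) (x t l : ℝ) : ℝ≥0∞ :=
  ∫⁻ y, ENNReal.ofReal ((max (√t * Wi y - x + l * t) 0) ^ (3 / 2 : ℝ)) ∂ν

/-- asymptotics of the moment -/
def S_ma : Prop := ∀ ν : Measure LR, IsProbabilityMeasure ν → Wl ν → ∀ x : ℝ, 0 < x →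
  (∀ l : ℝ, Tendsto (fun t : ℝ => (m32 ν x t l).toReal * Real.exp (x ^ 2 / t) / √t) (𝓝[>] 0)
    (𝓝 (3 * √π * x ^ 2 / (2 * x) ^ (3 / 2 : ℝ) * Real.exp (2 * x * l)))) ∧
  ∃ C : ℝ, ∀ t l : ℝ, 0 < t → t ≤ 1 →
    m32 ν x t l ≤ ENNReal.ofReal (C * √t * (1 + |l|) ^ 3 * Real.exp (-(x ^ 2 / t) + 2 * x * l))

/-- tails of linear functionals of the real path, uniformly over a closed set of times -/
def S_gt : Prop := ∀ (μ : Measure Lo) (ν : Measure LR), IsLoop μ → IsBr μ ν →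
  ∀ (k : ℕ) (a : Fin k → ℝ) (P : Set (Fin k → unitInterval)) (V θ : ℝ), IsClosed P → 0 < V →
  0 < θ → θ < 1 → (∀ p ∈ P, ∑ i, ∑ j, a i * a j *
    (2 * (min (p i : ℝ) (p j) - (p i : ℝ) * p j)) ≤ V) →
  ∃ C : ℝ, ∀ L : ℝ, 0 ≤ L → ν {y : LR | ∃ p ∈ P, L ≤ ∑ i, a i * y (p i)} ≤
    ENNReal.ofReal (C * Real.exp (-(θ * L ^ 2 / (2 * V))))

/-- the modulus of continuity -/
noncomputable def om (τ : ℝ) (y : LR) : ℝ :=
  sSup {d : ℝ | ∃ s u : unitInterval, |(s : ℝ) - u| ≤ τ ∧ d = |y s - y u|}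

/-- exponential moments of the modulus of continuity -/
def S_om : Prop := ∀ (μ : Measure Lo) (ν : Measure LR), IsLoop μ → IsBr μ ν →
  ∀ C ε : ℝ, 0 < C → 0 < ε → ∃ τ₀ : ℝ, 0 < τ₀ ∧ ∀ τ : ℝ, 0 < τ → τ ≤ τ₀ →
    ∫⁻ y, ENNReal.ofReal (Real.exp (C * om τ y ^ 2)) ∂ν ≤ ENNReal.ofReal (1 + ε)

/-- circular distance of times -/
noncomputable def cd (s u : ℝ) : ℝ := min |s - u| (1 - |s - u|)

/-- all times at which the path is nearly minimal are near `h`, all times at which it is nearly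
maximal are near `h + 1/2` -/
def Gd (τ l t : ℝ) (h : unitInterval) (x : LR) : Prop :=
  (∀ s : unitInterval, √t * x s ≤ √t * sInf (range x) + l → cd s h ≤ τ) ∧
  (∀ s : unitInterval, √t * sSup (range x) - l ≤ √t * x s → cd s h ≥ 1 / 2 - τ)

/-- most wide paths are good, for a time `h` in a grid -/
def S_wi : Prop := ∀ (μ : Measure Lo) (ν : Measure LR), IsLoop μ → IsBr μ ν →
  ∀ (x : ℝ) (N : ℕ), 0 < x → 0 < N → ∃ l c C : ℝ, 0 < l ∧ l < x ∧ 0 < c ∧ ∀ t : ℝ, 0 < t → t ≤ 1 →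
    ∫⁻ y in {y : LR | x - l ≤ √t * Wi y ∧ ∀ j : ℕ, j ≤ N → ¬ Gd (2 / N) l t (pj (j / N)) y},
      ENNReal.ofReal ((1 + ‖y‖) ^ 4) ∂ν ≤ ENNReal.ofReal (C * Real.exp (-((x ^ 2 + c) / t)))

/-- very wide paths are rare -/
def S_bw : Prop := ∀ (μ : Measure Lo) (ν : Measure LR), IsLoop μ → IsBr μ ν →
  ∀ x l : ℝ, 0 < x → 0 < l → ∃ c C : ℝ, 0 < c ∧ ∀ t : ℝ, 0 < t → t ≤ 1 →
    ∫⁻ y in {y : LR | x + l ≤ √t * Wi y}, ENNReal.ofReal ((1 + ‖y‖) ^ 4) ∂ν ≤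
      ENNReal.ofReal (C * Real.exp (-((x ^ 2 + c) / t)))

/-- the constant in the asymptotics of the moment -/
noncomputable def Kc (x : ℝ) : ℝ := 3 * √π * x ^ 2 / (2 * x) ^ (3 / 2 : ℝ)

/-- mixed moment, upper bound -/
def S_lu : Prop := ∀ (μ : Measure Lo) (ν : Measure LR), IsLoop μ → IsBr μ ν → Wl ν →
  ∀ x γ ε : ℝ, 0 < x → 0 < 1 + 2 * x * γ → 0 < ε → ∃ ε₀ : ℝ, 0 < ε₀ ∧
  ∀ ε₁ : ℝ, 0 < ε₁ → ε₁ ≤ ε₀ → ∀ C : ℝ, 0 < C → ∃ τ₀ : ℝ, 0 < τ₀ ∧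
  ∀ τ : ℝ, 0 < τ → τ ≤ τ₀ → ∀ᶠ t : ℝ in 𝓝[>] 0,
    ∫⁻ y, m32 ν x t (-((γ - ε₁) * (y hf) ^ 2) + C * om τ y ^ 2) ∂ν ≤
      ENNReal.ofReal ((Kc x / √(1 + 2 * x * γ) + ε) * (√t * Real.exp (-(x ^ 2 / t))))

/-- mixed moment, lower bound -/
def S_ll : Prop := ∀ (μ : Measure Lo) (ν : Measure LR), IsLoop μ → IsBr μ ν → Wl ν →
  ∀ x γ ε : ℝ, 0 < x → 0 < 1 + 2 * x * γ → 0 < ε → ∃ ε₀ : ℝ, 0 < ε₀ ∧
  ∀ ε₁ : ℝ, 0 < ε₁ → ε₁ ≤ ε₀ → ∀ C : ℝ, 0 < C → ∃ τ₀ : ℝ, 0 < τ₀ ∧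
  ∀ τ : ℝ, 0 < τ → τ ≤ τ₀ → ∀ l : ℝ, 0 < l → ∀ᶠ t : ℝ in 𝓝[>] 0,
    ENNReal.ofReal ((Kc x / √(1 + 2 * x * γ) - ε) * (√t * Real.exp (-(x ^ 2 / t)))) ≤
      ∫⁻ y in {y : LR | √t * ‖y‖ ≤ l}, m32 ν x t (-((γ + ε₁) * (y hf) ^ 2) - C * om τ y ^ 2) ∂ν

/-- two obstacles with tips at `0` and `x` and curvatures `α`, `β` there -/
structure Pair (A B : Set ℂ) (x α β : ℝ) : Prop where
  closedA : IsClosed A
  closedB : IsClosed B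
  bdd : Bornology.IsBounded A
  pos : 0 < x
  posA : 0 < α
  sum : 0 < α + β
  form : 0 < α + β + x * α * β
  loc : ∀ l : ℝ, 0 < l → ∃ c : ℝ, 0 < c ∧ ∀ a ∈ A, ∀ b ∈ B, (l ≤ ‖a‖ ∨ l ≤ ‖b - x‖) →
    x + c ≤ dist a b
  upA : ∀ ε : ℝ, 0 < ε → ∃ l : ℝ, 0 < l ∧ ∀ a ∈ A, ‖a‖ ≤ l → a.re ≤ -((α - ε) / 2 * a.im ^ 2)
  upB : ∀ ε : ℝ, 0 < ε → ∃ l : ℝ, 0 < l ∧ ∀ b ∈ B, ‖b - x‖ ≤ l →
    x + (β - ε) / 2 * b.im ^ 2 ≤ b.re
  loA : ∀ ε : ℝ, 0 < ε → ∃ l : ℝ, 0 < l ∧ ∀ a : ℂ, ‖a‖ ≤ l → a.re ≤ -((α + ε) / 2 * a.im ^ 2) →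
    a ∈ A
  loB : ∀ ε : ℝ, 0 < ε → ∃ l : ℝ, 0 < l ∧ ∀ b : ℂ, ‖b - x‖ ≤ l →
    x + (β + ε) / 2 * b.im ^ 2 ≤ b.re → b ∈ B

/-- upper bound for the area, deterministic -/
def S_gu : Prop := ∀ (A B : Set ℂ) (x α β : ℝ), Pair A B x α β → ∀ ε : ℝ, 0 < ε → ε < α + β →
  ∃ l C : ℝ, 0 < l ∧ 0 < C ∧ ∀ (τ l' t : ℝ) (h : unitInterval) (X Y : LR), 0 < τ → τ < 1 / 8 →
    0 < l' → 0 < t → Y 0 = Y 1 → Gd τ l' t h X → √t * Wi X ≤ x + l' / 2 →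
    (∀ l₁ : ℝ, 0 < l₁ → l₁ ≤ l → l₁ ^ 2 * (|β| + 1) ≤ l' →
      volume {z : ℂ | hit (A ∩ closedBall 0 l₁) t (jn X Y) z ∧
        hit (B ∩ closedBall (x : ℂ) l₁) t (jn X Y) z} ≤
      ENNReal.ofReal (4 / 3 * √(2 / (α + β - ε)) *
        (max (√t * Wi X - x - (α * β / (2 * (α + β)) - ε) * t * (rot h Y hf) ^ 2 +
          C * t * om (2 * τ) (rot h Y) ^ 2) 0) ^ (3 / 2 : ℝ)))

/-- lower bound for the area, deterministic -/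
def S_gl : Prop := ∀ (A B : Set ℂ) (x α β : ℝ), Pair A B x α β → ∀ ε : ℝ, 0 < ε →
  ∃ l C : ℝ, 0 < l ∧ 0 < C ∧ ∀ (τ l' t : ℝ) (h : unitInterval) (X Y : LR), 0 < τ → τ < 1 / 8 →
    0 < l' → 0 < t → t ≤ 1 → Y 0 = Y 1 → Gd τ l' t h X → √t * Wi X ≤ x + l → √t * ‖Y‖ ≤ l →
      ENNReal.ofReal (4 / 3 * √(2 / (α + β + ε)) *
        (max (√t * Wi X - x - (α * β / (2 * (α + β)) + ε) * t * (rot h Y hf) ^ 2 -
          C * t * om (2 * τ) (rot h Y) ^ 2) 0) ^ (3 / 2 : ℝ)) ≤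
      volume {z : ℂ | hit A t (jn X Y) z ∧ hit B t (jn X Y) z}

/-- the limit constant -/
noncomputable def Lc (x α β : ℝ) : ℝ := 2 * √(π * x) / √(α + β + x * α * β)

/-- upper bound -/
def S_au : Prop := ∀ (μ : Measure Lo) (ν : Measure LR), IsLoop μ → IsBr μ ν → Wl ν →
  ∀ (A B : Set ℂ) (x α β : ℝ), Pair A B x α β → ∀ ε : ℝ, 0 < ε → ∀ᶠ t : ℝ in 𝓝[>] 0,
    (Q2 μ A B t).toReal * Real.exp (x ^ 2 / t) / √t ≤ Lc x α β + ε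

/-- lower bound -/
def S_al : Prop := ∀ (μ : Measure Lo) (ν : Measure LR), IsLoop μ → IsBr μ ν → Wl ν →
  ∀ (A B : Set ℂ) (x α β : ℝ), Pair A B x α β → ∀ ε : ℝ, 0 < ε → ∀ᶠ t : ℝ in 𝓝[>] 0,
    Lc x α β - ε ≤ (Q2 μ A B t).toReal * Real.exp (x ^ 2 / t) / √t

/-- asymptotics for holes and for the outer circle -/
def S_HO : Prop := ∀ (μ : Measure Lo) (ν : Measure LR), IsLoop μ → IsBr μ ν → Wl ν →
  ∀ r R x : ℝ, 0 < r → 0 < x →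
  Tendsto (fun t : ℝ => Hp μ r x t * Real.exp (x ^ 2 / t) / √t) (𝓝[>] 0)
    (𝓝 (Lc x (1 / r) (1 / r))) ∧
  (x < R - r → Tendsto (fun t : ℝ => Op μ R r x t * Real.exp (x ^ 2 / t) / √t) (𝓝[>] 0)
    (𝓝 (Lc x (1 / r) (-(1 / R)))))

end Pool.Agent.H212AN
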