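import Pool.Agent.H212AN.E2

set_option autoImplicit false

/-!
# Project H212AN, fourth part: discs with many equal circular holes
-/

namespace Pool.Agent.H212AN

open MeasureTheory Set Filter Topology Metric
open Pool.Agent.H212AN.G (nG PG gm gk)
open scoped Real ENNReal ComplexConjugate

/-- `n` disjoint discs of radius `r` inside the disc of radius `R` around `0` -/
def OKn (n : ℕ) (R r : ℝ) (w : Fin n → ℂ) : Prop :=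
  0 < r ∧ (∀ i, ‖w i‖ + r < R) ∧ ∀ i j, i ≠ j → 2 * r < dist (w i) (w j)

/-- pairs of indices -/
def prs (n : ℕ) : Finset (Fin n × Fin n) := Finset.univ.filter (fun p => p.1 < p.2)

/-- inclusion and exclusion for `n` holes, up to the loops which meet three obstacles -/
def S_ien : Prop := ∀ μ : Measure Lo, IsLoop μ → ∀ (n : ℕ) (R r : ℝ), ∃ V : ℝ → ℝ,
  ∀ w : Fin n → ℂ, OKn n R r w → ∀ g : ℝ, 0 < g → (∀ i, g ≤ R - r - ‖w i‖) →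
  (∀ i j, i ≠ j → g ≤ dist (w i) (w j) - 2 * r) → ∀ θ : ℝ, 0 < θ → θ < 1 →
  ∃ C : ℝ, ∀ t : ℝ, 0 < t → t ≤ 1 →
    |(EV μ (NH n R r 0 w) t).toReal -
      (V t + ∑ p ∈ prs n, Hp μ r (dist (w p.1) (w p.2) - 2 * r) t +
        ∑ i, Op μ R r (R - r - ‖w i‖) t)| ≤ C * Real.exp (-(θ * (9 / 4) * g ^ 2 / t))

/-- multiplicity of a value -/
noncomputable def mu' {ι : Type} [Fintype ι] (f : ι → ℝ) (x : ℝ) : ℕ :=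
  (Finset.univ.filter (fun i => f i = x)).card

/-- one step of the comparison of exponents -/
def S_pk : Prop := ∀ (H O : ℝ → ℝ → ℝ) (LH LO : ℝ → ℝ) (m : ℝ),
  (∀ x : ℝ, 0 < x → Tendsto (fun t : ℝ => H x t * Real.exp (x ^ 2 / t) / √t) (𝓝[>] 0)
    (𝓝 (LH x))) →
  (∀ x : ℝ, 0 < x → x < m → Tendsto (fun t : ℝ => O x t * Real.exp (x ^ 2 / t) / √t) (𝓝[>] 0)
    (𝓝 (LO x))) →
  (∀ x : ℝ, 0 < x → x ≤ m → ∀ θ : ℝ, 0 < θ → θ < 1 → ∃ C : ℝ, ∀ t : ℝ, 0 < t → t ≤ 1 →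
    |O x t| ≤ C * Real.exp (-(θ * x ^ 2 / t))) →
  ∀ (ι : Type) (_ : Fintype ι) (n : ℕ) (h h' : ι → ℝ) (o o' : Fin n → ℝ) (g : ℝ), 0 < g →
  (∀ k, g ≤ h k ∧ g ≤ h' k) → (∀ i, g ≤ o i ∧ g ≤ o' i ∧ o i ≤ m ∧ o' i ≤ m) →
  (∀ θ : ℝ, 0 < θ → θ < 1 → ∃ C : ℝ, ∀ t : ℝ, 0 < t → t ≤ 1 →
    |(∑ k, H (h k) t + ∑ i, O (o i) t) - (∑ k, H (h' k) t + ∑ i, O (o' i) t)| ≤
      C * Real.exp (-(θ * (9 / 4) * g ^ 2 / t))) →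
  ∀ x : ℝ, 0 < x → x < 3 / 2 * g → x < m →
  (∀ y : ℝ, 0 < y → y < x → mu' h y = mu' h' y ∧ mu' o y = mu' o' y) →
  (mu' h x : ℝ) * LH x + (mu' o x : ℝ) * LO x = (mu' h' x : ℝ) * LH x + (mu' o' x : ℝ) * LO x

/-- the gaps between the holes -/
noncomputable def hgap {n : ℕ} (r : ℝ) (w : Fin n → ℂ) (p : {p : Fin n × Fin n // p.1 < p.2}) :
    ℝ := dist (w p.1.1) (w p.1.2) - 2 * r

/-- the gaps between the holes and the outer circle -/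
noncomputable def ogap {n : ℕ} (R r : ℝ) (w : Fin n → ℂ) (i : Fin n) : ℝ := R - r - ‖w i‖

/-- the `i`-th vertex of the regular polygon with `m + 3` vertices -/
noncomputable def rv (m : ℕ) (i : Fin (m + 3)) : ℂ :=
  Complex.exp (((2 * π * (i : ℝ) / ((m : ℝ) + 3) : ℝ) : ℂ) * Complex.I)

/-- the angles `ψ` are nearly those of the regular polygon -/
def NR (m : ℕ) (δ : ℝ) (ψ : Fin (m + 3) → ℝ) : Prop :=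
  ∀ i : Fin (m + 3), |ψ i - (ψ 0 + 2 * π * (i : ℝ) / ((m : ℝ) + 3))| ≤ δ

/-- polar representation -/
def Po {m : ℕ} (v : Fin (m + 3) → ℂ) (ψ : Fin (m + 3) → ℝ) : Prop :=
  ∀ i, 0 < ‖v i‖ ∧ v i = (‖v i‖ : ℂ) * Complex.exp ((ψ i : ℂ) * Complex.I)

/-- points near a circle with large distances form a nearly regular polygon -/
def S_reg : Prop := ∀ (m : ℕ) (a δ : ℝ), 0 < a → 0 < δ → ∃ η : ℝ, 0 < η ∧
  ∀ w : Fin (m + 3) → ℂ, (∀ i, |‖w i‖ - a| ≤ η) →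
  (∀ i j, i ≠ j → 2 * a * Real.sin (π / ((m : ℝ) + 3)) - η ≤ dist (w i) (w j)) →
  ∃ (e : Equiv.Perm (Fin (m + 3))) (ψ : Fin (m + 3) → ℝ), NR m δ ψ ∧ Po (fun i => w (e i)) ψ

/-- recovery of the radii and of the lengths of the sides up to permutations -/
def S_rec : Prop := ∀ (m : ℕ) (R r a h o : ℝ), 0 < r → 0 < h → h < o → o < 5 / 4 * h →
  a = R - r - o → 2 * a * Real.sin (π / ((m : ℝ) + 3)) = h + 2 * r → ∀ δ : ℝ, 0 < δ →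
  ∃ η : ℝ, 0 < η ∧ ∀ w w' : Fin (m + 3) → ℂ, (∀ i, ‖w i - a * rv m i‖ < η) →
  OKn (m + 3) R r w' →
  (∀ x : ℝ, x < 7 / 5 * h → mu' (hgap r w) x = mu' (hgap r w') x ∧
    mu' (ogap R r w) x = mu' (ogap R r w') x) →
  ∃ (e σ τ : Equiv.Perm (Fin (m + 3))) (ψ : Fin (m + 3) → ℝ),
    NR m δ ψ ∧ Po (fun i => w' (e i)) ψ ∧ (∀ i, ‖w' (e i)‖ = ‖w (σ i)‖) ∧
    ∀ i, dist (w' (e i)) (w' (e (i + 1))) = dist (w (τ i)) (w (τ i + 1))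

/-- the angle at the centre -/
noncomputable def ang (a b d : ℝ) : ℝ := Real.arccos ((a ^ 2 + b ^ 2 - d ^ 2) / (2 * a * b))

/-- the angles at the centre add up to `2 π` -/
def S_clo : Prop := ∀ (m : ℕ) (v : Fin (m + 3) → ℂ) (ψ : Fin (m + 3) → ℝ),
  NR m (1 / ((m : ℝ) + 3)) ψ → Po v ψ →
  (∀ i : Fin (m + 3), (i : ℕ) < m + 2 →
    ang ‖v i‖ ‖v (i + 1)‖ (dist (v i) (v (i + 1))) = ψ (i + 1) - ψ i) ∧
  ∑ i, ang ‖v i‖ ‖v (i + 1)‖ (dist (v i) (v (i + 1))) = 2 * π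

/-- generic rings -/
def Gn {m : ℕ} (w : Fin (m + 3) → ℂ) : Prop :=
  Function.Injective (fun i => ‖w i‖) ∧ Function.Injective (fun i => dist (w i) (w (i + 1))) ∧
  ∀ σ τ : Equiv.Perm (Fin (m + 3)),
    ∑ i, ang ‖w (σ i)‖ ‖w (σ (i + 1))‖ (dist (w (τ i)) (w (τ i + 1))) = 2 * π →
    ∀ i, (σ i = τ i ∧ σ (i + 1) = τ i + 1) ∨ (σ i = τ i + 1 ∧ σ (i + 1) = τ i)

/-- generic rings exist near every regular polygon -/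
def S_gen : Prop := ∀ (m : ℕ) (a η : ℝ), 0 < a → 0 < η → ∃ w : Fin (m + 3) → ℂ,
  (∀ i, ‖w i - a * rv m i‖ < η) ∧ Gn w

/-- they form an open set -/
def S_gop : Prop := ∀ (m : ℕ) (a : ℝ), 0 < a → ∃ η₀ : ℝ, 0 < η₀ ∧ ∀ η : ℝ, 0 < η → η ≤ η₀ →
  IsOpen {w : Fin (m + 3) → ℂ | (∀ i, ‖w i - a * rv m i‖ < η) ∧ Gn w}

/-- they are dense near the regular polygon -/
def S_dns : Prop := ∀ (m : ℕ) (a : ℝ), 0 < a → ∃ η₀ : ℝ, 0 < η₀ ∧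
  ∀ w₀ : Fin (m + 3) → ℂ, (∀ i, ‖w₀ i - a * rv m i‖ < η₀) → ∀ ε : ℝ, 0 < ε →
  ∃ w : Fin (m + 3) → ℂ, (∀ i, ‖w i - w₀ i‖ < ε) ∧ Gn w

/-- congruence of rings -/
def S_cgn : Prop := ∀ (m : ℕ) (a : ℝ), 0 < a → ∃ η : ℝ, 0 < η ∧
  ∀ (w w' : Fin (m + 3) → ℂ) (e σ τ : Equiv.Perm (Fin (m + 3))) (ψ : Fin (m + 3) → ℝ),
  (∀ i, ‖w i - a * rv m i‖ < η) → NR m (1 / (2 * ((m : ℝ) + 3))) ψ →
  Po (fun i => w' (e i)) ψ → (∀ i, ‖w' (e i)‖ = ‖w (σ i)‖) →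
  (∀ i, dist (w' (e i)) (w' (e (i + 1))) = dist (w (τ i)) (w (τ i + 1))) →
  (∀ i, (σ i = τ i ∧ σ (i + 1) = τ i + 1) ∨ (σ i = τ i + 1 ∧ σ (i + 1) = τ i)) →
  ∃ φ : ℂ ≃ᵢ ℂ, φ 0 = 0 ∧ ∀ i, φ (w (σ i)) = w' (e i)

/-- choice of the parameters -/
def S_par : Prop := ∀ (m : ℕ) (R r : ℝ), 0 < r →
  r * (1 + Real.sin (π / ((m : ℝ) + 3))) < R * Real.sin (π / ((m : ℝ) + 3)) →
  ∃ a h o : ℝ, 0 < a ∧ 0 < h ∧ h < o ∧ o < 5 / 4 * h ∧ a = R - r - o ∧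
    2 * a * Real.sin (π / ((m : ℝ) + 3)) = h + 2 * r ∧
    ∀ k : ℕ, Lc o (1 / r) (-(1 / R)) ≠ k * Lc o (1 / r) (1 / r)

/-- the same gaps below `3/2` of the least one, as long as no coincidence occurs -/
def S_gaps : Prop := ∀ Z : Set ℂ → ℝ → ℝ, ZUp Z → ZLo Z → (∀ Q t, 0 ≤ Z Q t) → ZSq Z →
  ∀ (n : ℕ) (R r : ℝ) (w w' : Fin n → ℂ), OKn n R r w → OKn n R r w' →
  (∀ t : ℝ, 0 < t → Z (NH n R r 0 w) t = Z (NH n R r 0 w') t) →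
  ∀ g : ℝ, (∀ k, g ≤ hgap r w k) → (∀ i, g ≤ ogap R r w i) →
  ∀ x : ℝ, 0 < x → x < 3 / 2 * g →
  (∀ y : ℝ, 0 < y → y < x → mu' (hgap r w) y = mu' (hgap r w') y ∧
    mu' (ogap R r w) y = mu' (ogap R r w') y) →
  (mu' (hgap r w) x : ℝ) * Lc x (1 / r) (1 / r) + (mu' (ogap R r w) x : ℝ) * Lc x (1 / r) (-(1 / R))
  = (mu' (hgap r w') x : ℝ) * Lc x (1 / r) (1 / r) +
    (mu' (ogap R r w') x : ℝ) * Lc x (1 / r) (-(1 / R))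

/-- open sets of discs with `m + 3` equal holes are determined by the heat trace -/
def S_many : Prop := ∀ Z : Set ℂ → ℝ → ℝ, ZUp Z → ZLo Z → (∀ Q t, 0 ≤ Z Q t) → ZSq Z →
  ∀ (m : ℕ) (R r : ℝ), 0 < r →
  r * (1 + Real.sin (π / ((m : ℝ) + 3))) < R * Real.sin (π / ((m : ℝ) + 3)) →
  ∃ a η : ℝ, 0 < a ∧ 0 < η ∧
  (∀ ε : ℝ, 0 < ε → ∃ w : Fin (m + 3) → ℂ, (∀ i, ‖w i - a * rv m i‖ < ε) ∧ Gn w) ∧
  IsOpen {w : Fin (m + 3) → ℂ | (∀ i, ‖w i - a * rv m i‖ < η) ∧ Gn w} ∧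
  ∀ w : Fin (m + 3) → ℂ, (∀ i, ‖w i - a * rv m i‖ < η) → OKn (m + 3) R r w ∧ (Gn w →
  ∀ w' : Fin (m + 3) → ℂ, OKn (m + 3) R r w' →
  (∀ t : ℝ, 0 < t → Z (NH (m + 3) R r 0 w) t = Z (NH (m + 3) R r 0 w') t) →
  ∃ φ : ℂ ≃ᵢ ℂ, φ '' NH (m + 3) R r 0 w = NH (m + 3) R r 0 w')

end Pool.Agent.H212AN
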