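import Pool.Agent.H212AN.E3

set_option autoImplicit false

/-!
# Project H212AN, fifth part: lengths of periodic billiard trajectories
-/

namespace Pool.Agent.H212AN

open MeasureTheory Set Filter Topology Metric
open Pool.Agent.W594.AN (ClosedCurve)
open scoped Real ENNReal ComplexConjugate

/-- law of reflection: a ray of direction `u` is reflected to a ray of direction `v` by a curve with
unit tangent vector `τ`, and the rays are not tangent to the curve -/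
def Refl (u v τ : ℂ) : Prop :=
  (conj τ * v).re = (conj τ * u).re ∧ (conj τ * v).im = -(conj τ * u).im ∧ (conj τ * u).im ≠ 0

/-- the direction from `p` to `q` -/
noncomputable def dr (p q : ℂ) : ℂ := (q - p) / (‖q - p‖ : ℂ)

/-- periodic billiard trajectories with `k + 2` vertices -/
def IsBil (Ω : Set ℂ) (k : ℕ) (p : Fin (k + 2) → ℂ) : Prop :=
  (∀ i, p i ∈ frontier Ω) ∧ (∀ i, openSegment ℝ (p i) (p (i + 1)) ⊆ Ω) ∧
  ∀ i, ∃ (c : ClosedCurve) (s : ℝ), range c.γ ⊆ frontier Ω ∧ c.γ s = p i ∧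
    Refl (dr (p (i - 1)) (p i)) (dr (p i) (p (i + 1))) (deriv c.γ s)

/-- the length spectrum: the lengths of the periodic billiard trajectories -/
def LS (Ω : Set ℂ) : Set ℝ :=
  {ℓ | ∃ (k : ℕ) (p : Fin (k + 2) → ℂ), IsBil Ω k p ∧ ℓ = ∑ i, dist (p i) (p (i + 1))}

/-- the boundary of a disc with holes -/
def S_fr : Prop := ∀ (n : ℕ) (R r : ℝ) (w : Fin n → ℂ), OKn n R r w → 0 < R →
  IsOpen (NH n R r 0 w) ∧ frontier (NH n R r 0 w) = sphere 0 R ∪ ⋃ i, sphere (w i) r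

/-- circles as closed curves -/
def S_bc : Prop := ∀ (x : ℂ) (ρ : ℝ) (p : ℂ), 0 < ρ → p ∈ sphere x ρ →
  ∃ (c : ClosedCurve) (s : ℝ), range c.γ = sphere x ρ ∧ c.γ s = p ∧
    deriv c.γ s = Complex.I * ((p - x) / (ρ : ℂ))

/-- tangents -/
def S_tg : Prop := ∀ (n : ℕ) (R r : ℝ) (w : Fin n → ℂ), OKn n R r w → 0 < R →
  ∀ (c : ClosedCurve) (s : ℝ), range c.γ ⊆ frontier (NH n R r 0 w) →
  (c.γ s ∈ sphere (0:ℂ) R → (conj (deriv c.γ s) * c.γ s).re = 0) ∧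
  ∀ i, c.γ s ∈ sphere (w i) r → (conj (deriv c.γ s) * (c.γ s - w i)).re = 0

/-- the length spectrum is invariant under translations -/
def S_lst : Prop := ∀ (Ω : Set ℂ) (v : ℂ), LS ((fun z => z + v) '' Ω) = LS Ω

/-- short gaps give bouncing ball trajectories -/
def S_ls1 : Prop := ∀ (n : ℕ) (R r g : ℝ) (w : Fin n → ℂ), OKn n R r w → 0 < R → 0 < g →
  (∀ k, g ≤ hgap r w k) → (∀ i, g ≤ ogap R r w i) → ∀ x : ℝ, x < 2 * g →
  ((∃ k, hgap r w k = x) ∨ ∃ i, ogap R r w i = x) → 2 * x ∈ LS (NH n R r 0 w)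

/-- closed billiard trajectories in a disc -/
def S_lsd : Prop := ∀ (R : ℝ) (k : ℕ) (p : Fin (k + 2) → ℂ), 0 < R → (∀ i, ‖p i‖ = R) →
  (∀ i, p i ≠ p (i + 1)) → (∀ i, ∃ τ : ℂ, ‖τ‖ = 1 ∧ (conj τ * p i).re = 0 ∧
    Refl (dr (p (i - 1)) (p i)) (dr (p i) (p (i + 1))) τ) →
  4 * R ≤ ∑ i, dist (p i) (p (i + 1))

/-- short trajectories are bouncing balls -/
def S_ls2 : Prop := ∀ (n : ℕ) (R r g : ℝ) (w : Fin n → ℂ), 2 ≤ n → OKn n R r w → 0 < R → 0 < g →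
  (∀ k, g ≤ hgap r w k) → (∀ i, g ≤ ogap R r w i) → ∀ ℓ ∈ LS (NH n R r 0 w), ℓ < 3 * g →
  ∃ x : ℝ, ℓ = 2 * x ∧ ((∃ k, hgap r w k = x) ∨ ∃ i, ogap R r w i = x)

/-- the number which must be irrational in order to exclude coincidences -/
noncomputable def rq (R r y : ℝ) : ℝ := √(R * (4 * r + y) / (r * (2 * (R - r) - y)))

/-- the short lengths are determined by the heat trace -/
def S_bil : Prop := ∀ Z : Set ℂ → ℝ → ℝ, ZUp Z → ZLo Z → (∀ Q t, 0 ≤ Z Q t) → ZSq Z →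
  ∀ (n : ℕ) (R r : ℝ) (w w' : Fin n → ℂ), 2 ≤ n → OKn n R r w → OKn n R r w' →
  (∀ t : ℝ, 0 < t → Z (NH n R r 0 w) t = Z (NH n R r 0 w') t) →
  ∃ ℓ : ℝ, 0 < ℓ ∧ IsLeast (LS (NH n R r 0 w)) ℓ ∧ IsLeast (LS (NH n R r 0 w')) ℓ ∧
    ∀ s : ℝ, s < 3 / 2 * ℓ → (∀ y ∈ LS (NH n R r 0 w), y < s → Irrational (rq R r y)) →
      (s ∈ LS (NH n R r 0 w) ↔ s ∈ LS (NH n R r 0 w'))

end Pool.Agent.H212AN
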