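import Pool.Agent.H212AN.Chain2
import Pool.Agent.H212AN.Annuli
import Pool.Agent.H212AN.Almost

set_option autoImplicit false

/-!
# Project H212AN: discs with at most two equal circular holes
-/

namespace Pool.Agent.H212AN

open MeasureTheory Set Filter Topology Metric
open Pool.Agent.W594.AN (ClosedCurve SmoothDomain heatTrace dirichletEigenvalue
  IsPerforatedDisc annuli_congruent perforated_of_values exists_smoothDomain)
open scoped Real ENNReal ComplexConjugate

/-- all but finitely many of the Dirichlet eigenvalues agree -/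
def AlmostIso (Ω Ω' : Set ℂ) : Prop :=
  ∀ᶠ k in atTop, dirichletEigenvalue Ω k = dirichletEigenvalue Ω' k

/-- the class of discs with `n` equal holes is determined, and the heat traces agree -/
theorem class_main {Ω Ω' : Set ℂ} {n m : ℕ} {R r : ℝ} {c : Fin m → ClosedCurve}
    (hr : 0 < r) (hR : 0 < R) (hΩ : IsPerforatedDisc Ω n R r) (h : SD Ω' m c)
    (hiso : AlmostIso Ω Ω') :
    IsPerforatedDisc Ω' n R r ∧ ∀ t : ℝ, 0 < t → heatTrace Ω' t = heatTrace Ω t := by
  obtain ⟨D, rfl⟩ := exists_smoothDomain hR hr hΩ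
  obtain ⟨D', rfl⟩ := exists_SmoothDomain h
  obtain ⟨K, a, b, hab⟩ := heat_diff D.isOpen D.isBounded D.isConnected.nonempty D'.isOpen
    D'.isBounded D'.isConnected.nonempty hiso
  have hd : Tendsto (fun t : ℝ => (heatTrace D'.Ω t - heatTrace D.Ω t) / √t) (𝓝[>] 0) (𝓝 0) := by
    refine (diff_small K a b).congr' ?_
    filter_upwards [self_mem_nhdsWithin] with t ht
    rw [hab t ht]
  obtain ⟨h1, h2, h3, h4⟩ := invariants_almost D D' hd
  obtain ⟨k1, k2, k3, k4⟩ := hΩ.values hr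
  have hp : IsPerforatedDisc D'.Ω n R r :=
    perforated_of_values D' hr hR (h1.trans k1) (h2.trans k2) (h3.trans k3) (h4.trans k4)
  refine ⟨hp, ?_⟩
  obtain ⟨z, w, w1, w2, hw⟩ := hΩ
  obtain ⟨z', w', w1', w2', hw'⟩ := hp
  obtain ⟨μ, hμ⟩ := exists_loop
  obtain ⟨-, e1⟩ := q_zev _ link_up link_lo link_nonneg μ hμ n z w R r hr hR w1
    (fun i j hij => w2 hij)
  obtain ⟨-, e2⟩ := q_zev _ link_up link_lo link_nonneg μ hμ n z' w' R r hr hR w1'
    (fun i j hij => w2' hij)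
  have f1 : NH n R r z w = D.Ω := hw.symm
  have f2 : NH n R r z' w' = D'.Ω := hw'.symm
  have hflat : ∀ j : ℕ, ∃ C : ℝ, ∀ t : ℝ, 0 < t → t < 1 →
      |∑ k ∈ Finset.range K, Real.exp (-(t * b k)) -
        ∑ k ∈ Finset.range K, Real.exp (-(t * a k))| ≤ C * t ^ j := by
    intro j
    obtain ⟨C, hC⟩ := q_small μ hμ n z z' w w' R r hr w1 (fun i j hij => w2 hij) w1'
      (fun i j hij => w2' hij) (j + 1)
    refine ⟨C / (4 * π), fun t ht ht1 => ?_⟩
    have hπ := Real.pi_pos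
    have h5 := hC t ht ht1
    rw [← (e1 t ht).1, ← (e2 t ht).1, f1, f2, ← link_heat, ← link_heat, ← mul_sub, abs_mul,
      abs_of_pos (by positivity : 0 < 4 * π * t)] at h5
    rw [← hab t ht, abs_sub_comm, div_mul_eq_mul_div, le_div_iff₀ (by positivity)]
    have h6 : t * (|heatTrace D.Ω t - heatTrace D'.Ω t| * (4 * π)) ≤ t * (C * t ^ j) := by
      rw [pow_succ] at h5
      nlinarith
    exact le_of_mul_le_mul_left h6 ht
  intro t ht
  have h7 := diff_zero hflat t
  rw [← hab t ht] at h7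
  linarith

/-- one hole -/
theorem one_main {z w z' w' : ℂ} {R r : ℝ} (hr : 0 < r) (h1 : dist z w + r < R)
    (h2 : dist z' w' + r < R)
    (hZ : ∀ t : ℝ, 0 < t → heatTrace (ball z' R \ closedBall w' r) t =
      heatTrace (ball z R \ closedBall w r) t) :
    ∃ φ : ℂ ≃ᵢ ℂ, φ '' (ball z R \ closedBall w r) = ball z' R \ closedBall w' r := by
  apply annuli_congruent
  rcases lt_trichotomy (dist z w) (dist z' w') with h | h | h
  · obtain ⟨t, ht0, ht⟩ := heat_lt hr h h2
    rw [hZ t ht0] at ht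
    exact absurd ht (lt_irrefl _)
  · exact h
  · obtain ⟨t, ht0, ht⟩ := heat_lt hr h h1
    rw [hZ t ht0] at ht
    exact absurd ht (lt_irrefl _)

/-- translation of a disc with two holes -/
theorem TH_trans (R r : ℝ) (c w₁ w₂ : ℂ) : ∃ φ : ℂ ≃ᵢ ℂ,
    φ '' TH R r c w₁ w₂ = TH R r 0 (w₁ - c) (w₂ - c) := by
  refine ⟨IsometryEquiv.addRight (-c), ?_⟩
  unfold TH
  rw [Set.image_sdiff (IsometryEquiv.injective _), image_union, IsometryEquiv.image_ball,
    IsometryEquiv.image_closedBall, IsometryEquiv.image_closedBall]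
  simp [sub_eq_add_neg]

/-- two holes -/
theorem two_main {R r : ℝ} {c w₁ w₂ c' w₁' w₂' : ℂ} (h1 : OK2 R r c w₁ w₂)
    (h2 : OK2 R r c' w₁' w₂')
    (hZ : ∀ t : ℝ, 0 < t → heatTrace (TH R r c' w₁' w₂') t = heatTrace (TH R r c w₁ w₂) t) :
    ∃ φ : ℂ ≃ᵢ ℂ, φ '' TH R r c w₁ w₂ = TH R r c' w₁' w₂' := by
  obtain ⟨φ, hφ⟩ := TH_trans R r c w₁ w₂
  obtain ⟨ψ, hψ⟩ := TH_trans R r c' w₁' w₂'
  have k1 : OK2 R r 0 (w₁ - c) (w₂ - c) := by
    obtain ⟨a1, a2, a3, a4⟩ := h1
    refine ⟨a1, ?_, ?_, ?_⟩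
    · rwa [dist_zero_right, ← dist_eq_norm]
    · rwa [dist_zero_right, ← dist_eq_norm]
    · rwa [dist_sub_right]
  have k2 : OK2 R r 0 (w₁' - c') (w₂' - c') := by
    obtain ⟨a1, a2, a3, a4⟩ := h2
    refine ⟨a1, ?_, ?_, ?_⟩
    · rwa [dist_zero_right, ← dist_eq_norm]
    · rwa [dist_zero_right, ← dist_eq_norm]
    · rwa [dist_sub_right]
  obtain ⟨χ, hχ⟩ := q_two heatTrace (by
      intro Q hQ hb hn t ht m
      rw [link_heat]
      exact link_up Q hQ hb hn t ht m) (by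
      intro Q K hQ hb hn hK ρ hρ hsub t ht
      rw [link_heat]
      exact link_lo Q K hQ hb hn hK ρ hρ hsub t ht) (fun Q t => by
      rw [link_heat]
      exact link_nonneg Q t) heat_congr R r _ _ _ _ k1 k2 (fun t ht => by
      rw [← hφ, ← hψ, heat_congr, heat_congr, hZ t ht])
  refine ⟨(φ.trans χ).trans ψ.symm, ?_⟩
  have e : ((φ.trans χ).trans ψ.symm : ℂ ≃ᵢ ℂ) '' TH R r c w₁ w₂ =
      ψ.symm '' (χ '' (φ '' TH R r c w₁ w₂)) := by
    rw [← image_comp, ← image_comp]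
    rfl
  rw [e, hφ, hχ, ← hψ, ← image_comp]
  have e2 : (ψ.symm : ℂ → ℂ) ∘ ψ = id := by
    ext x
    simp
  rw [e2, image_id]

/-- two discs whose closures are disjoint have centres at distance more than `2 r` -/
theorem dist_of_disjoint {w₁ w₂ : ℂ} {r : ℝ} (hr : 0 < r)
    (h : Disjoint (closedBall w₁ r) (closedBall w₂ r)) : 2 * r < dist w₁ w₂ := by
  by_contra hc
  push Not at hc
  have h1 : (w₁ + w₂) / 2 ∈ closedBall w₁ r := by
    rw [mem_closedBall, dist_eq_norm]
    have e : (w₁ + w₂) / 2 - w₁ = -((w₁ - w₂) / 2) := by ring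
    rw [e, norm_neg, norm_div, ← dist_eq_norm]
    norm_num
    linarith
  have h2 : (w₁ + w₂) / 2 ∈ closedBall w₂ r := by
    rw [mem_closedBall, dist_eq_norm]
    have e : (w₁ + w₂) / 2 - w₂ = (w₁ - w₂) / 2 := by ring
    rw [e, norm_div, ← dist_eq_norm]
    norm_num
    linarith
  exact Set.disjoint_left.1 h h1 h2

/-- **Main theorem**: a disc with at most two equal circular holes is determined by its Dirichlet
spectrum, up to finitely many eigenvalues, among all plane domains with smooth boundary. -/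
theorem main_two {Ω Ω' : Set ℂ} {n m : ℕ} {R r : ℝ} {c : Fin m → ClosedCurve} (hn : n ≤ 2)
    (hr : 0 < r) (hR : 0 < R) (hΩ : IsPerforatedDisc Ω n R r) (h : SD Ω' m c)
    (hiso : AlmostIso Ω Ω') : ∃ φ : ℂ ≃ᵢ ℂ, φ '' Ω = Ω' := by
  obtain ⟨hΩ', hZ⟩ := class_main hr hR hΩ h hiso
  obtain ⟨z, w, w1, w2, rfl⟩ := hΩ
  obtain ⟨z', w', w1', w2', rfl⟩ := hΩ'
  have hd : ∀ (z w : ℂ), closedBall w r ⊆ ball z R → dist w z + r < R := fun z w hw =>
    Pool.Agent.W594.AN.dist_add_lt hr (sphere_subset_closedBall.trans hw)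
  interval_cases n
  · -- no hole
    refine ⟨IsometryEquiv.addRight (z' - z), ?_⟩
    simp only [iUnion_of_empty, sdiff_empty]
    rw [IsometryEquiv.image_ball]
    congr 1
    simp
  · have hu : ∀ v : Fin 1 → ℂ, (⋃ i, closedBall (v i) r) = closedBall (v 0) r := by
      intro v
      ext p
      rw [mem_iUnion]
      constructor
      · rintro ⟨i, hi⟩
        rwa [Subsingleton.elim i 0] at hi
      · intro h
        exact ⟨0, h⟩
    rw [hu, hu] at hZ ⊢
    refine one_main hr ?_ ?_ hZ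
    · rw [dist_comm]; exact hd _ _ (w1 0)
    · rw [dist_comm]; exact hd _ _ (w1' 0)
  · have hu : ∀ (x : ℂ) (v : Fin 2 → ℂ), ball x R \ (⋃ i, closedBall (v i) r) =
        TH R r x (v 0) (v 1) := by
      intro x v
      unfold TH
      congr 1
      ext p
      rw [mem_iUnion, mem_union]
      constructor
      · rintro ⟨i, hi⟩
        fin_cases i
        · exact Or.inl hi
        · exact Or.inr hi
      · rintro (h | h)
        · exact ⟨0, h⟩
        · exact ⟨1, h⟩
    rw [hu, hu] at hZ ⊢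
    exact two_main ⟨hr, hd _ _ (w1 0), hd _ _ (w1 1), dist_of_disjoint hr (w2 (by decide))⟩
      ⟨hr, hd _ _ (w1' 0), hd _ _ (w1' 1), dist_of_disjoint hr (w2' (by decide))⟩ hZ

end Pool.Agent.H212AN
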