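import Pool.Agent.H212AN.Chain3
import Pool.Agent.H212AN.Two
import Pool.Agent.H212AN.P_sqz

set_option autoImplicit false

/-!
# Project H212AN: discs with many equal circular holes
-/

namespace Pool.Agent.H212AN

open MeasureTheory Set Filter Topology Metric
open Pool.Agent.W594.AN (ClosedCurve SmoothDomain heatTrace dirichletEigenvalue
  IsPerforatedDisc annuli_congruent perforated_of_values exists_smoothDomain)
open scoped Real ENNReal ComplexConjugate

theorem heat_up : ZUp heatTrace := by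
  intro Q hQ hb hn t ht m
  rw [link_heat]
  exact link_up Q hQ hb hn t ht m

theorem heat_lo : ZLo heatTrace := by
  intro Q K hQ hb hn hK ρ hρ hsub t ht
  rw [link_heat]
  exact link_lo Q K hQ hb hn hK ρ hρ hsub t ht

theorem heat_nonneg (Q : Set ℂ) (t : ℝ) : 0 ≤ heatTrace Q t := by
  rw [link_heat]
  exact link_nonneg Q t

theorem heat_sq : ZSq heatTrace := by
  intro t ht
  rw [link_heat]
  exact pf_sqz t ht

/-- translation of a disc with holes -/
theorem NH_trans (n : ℕ) (R r : ℝ) (c : ℂ) (w : Fin n → ℂ) : ∃ φ : ℂ ≃ᵢ ℂ,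
    φ '' NH n R r c w = NH n R r 0 (fun i => w i - c) := by
  refine ⟨IsometryEquiv.addRight (-c), ?_⟩
  unfold NH
  rw [Set.image_sdiff (IsometryEquiv.injective _), image_iUnion, IsometryEquiv.image_ball]
  congr 1
  · simp
  · refine iUnion_congr fun i => ?_
    rw [IsometryEquiv.image_closedBall]
    simp [sub_eq_add_neg]

/-- the conditions on the holes -/
theorem OKn_of {n : ℕ} {R r : ℝ} {z : ℂ} {w : Fin n → ℂ} (hr : 0 < r)
    (h1 : ∀ i, closedBall (w i) r ⊆ ball z R)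
    (h2 : Pairwise fun i j => Disjoint (closedBall (w i) r) (closedBall (w j) r)) :
    OKn n R r (fun i => w i - z) := by
  refine ⟨hr, fun i => ?_, fun i j hij => ?_⟩
  · have := Pool.Agent.W594.AN.dist_add_lt hr (sphere_subset_closedBall.trans (h1 i))
    rwa [dist_eq_norm] at this
  · rw [dist_sub_right]
    exact dist_of_disjoint hr (h2 hij)

theorem OKn_iff {n : ℕ} {R r : ℝ} {w : Fin n → ℂ} (h : OKn n R r w) :
    (∀ i, closedBall (w i) r ⊆ ball 0 R) ∧
    Pairwise fun i j => Disjoint (closedBall (w i) r) (closedBall (w j) r) := by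
  obtain ⟨hr, h1, h2⟩ := h
  refine ⟨fun i x hx => ?_, fun i j hij => ?_⟩
  · rw [mem_ball_zero_iff]
    rw [mem_closedBall, dist_eq_norm] at hx
    calc ‖x‖ = ‖(x - w i) + w i‖ := by rw [sub_add_cancel]
      _ ≤ ‖x - w i‖ + ‖w i‖ := norm_add_le _ _
      _ < R := by linarith [h1 i]
  · apply closedBall_disjoint_closedBall
    linarith [h2 i j hij]

/-- the reduction to configurations with the same centre -/
theorem red_main {n m : ℕ} {R r : ℝ} {w : Fin n → ℂ} {Ω' : Set ℂ} {c : Fin m → ClosedCurve}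
    (hR : 0 < R) (hw : OKn n R r w) (h : SD Ω' m c) (hiso : AlmostIso (NH n R r 0 w) Ω') :
    ∃ (w' : Fin n → ℂ) (φ : ℂ ≃ᵢ ℂ), OKn n R r w' ∧ φ '' Ω' = NH n R r 0 w' ∧
      ∀ t : ℝ, 0 < t → heatTrace (NH n R r 0 w) t = heatTrace (NH n R r 0 w') t := by
  have hr := hw.1
  obtain ⟨k1, k2⟩ := OKn_iff hw
  obtain ⟨hΩ', hZ⟩ := class_main hr hR ⟨0, w, k1, k2, rfl⟩ h hiso
  obtain ⟨z', w', w1', w2', hw'⟩ := hΩ'
  obtain ⟨φ, hφ⟩ := NH_trans n R r z' w'
  refine ⟨fun i => w' i - z', φ, OKn_of hr w1' w2', ?_, fun t ht => ?_⟩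
  · rw [hw']
    exact hφ
  · rw [← hφ, heat_congr]
    have := hZ t ht
    rw [hw'] at this
    exact this.symm

/-- **Main theorem**: generic rings of holes are determined. -/
theorem many_main {n : ℕ} (hn : 3 ≤ n) {R r : ℝ} (hr : 0 < r)
    (hroom : r * (1 + Real.sin (π / n)) < R * Real.sin (π / n)) :
    ∃ V U : Set (Fin n → ℂ), IsOpen V ∧ V.Nonempty ∧ IsOpen U ∧ U ⊆ V ∧ V ⊆ closure U ∧
      (∀ w ∈ V, OKn n R r w) ∧
      ∀ w ∈ U, ∀ (Ω' : Set ℂ) (m : ℕ) (c : Fin m → ClosedCurve), SD Ω' m c →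
        AlmostIso (NH n R r 0 w) Ω' → ∃ φ : ℂ ≃ᵢ ℂ, φ '' NH n R r 0 w = Ω' := by
  obtain ⟨m, rfl⟩ : ∃ m, n = m + 3 := ⟨n - 3, by omega⟩
  have hcast : ((m + 3 : ℕ) : ℝ) = (m : ℝ) + 3 := by push_cast; ring
  rw [hcast] at hroom
  have hs : 0 < Real.sin (π / ((m : ℝ) + 3)) := by
    apply Real.sin_pos_of_pos_of_lt_pi (by positivity)
    rw [div_lt_iff₀ (by positivity)]
    nlinarith [Real.pi_pos, (Nat.cast_nonneg m : (0:ℝ) ≤ m)]
  have hR : 0 < R := by
    by_contra hR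
    push Not at hR
    have h1 : R * Real.sin (π / ((m : ℝ) + 3)) ≤ 0 := mul_nonpos_of_nonpos_of_nonneg hR hs.le
    have h2 : 0 < r * (1 + Real.sin (π / ((m : ℝ) + 3))) := by positivity
    linarith
  obtain ⟨a, η, ha, hη, h1, h2, h3⟩ := q_many heatTrace heat_up heat_lo heat_nonneg heat_sq m R r
    hr hroom
  obtain ⟨η₀, hη₀, h4⟩ := q_dns m a ha
  let B : ℝ → Set (Fin (m + 3) → ℂ) := fun δ => {w | ∀ i, ‖w i - a * rv m i‖ < δ}
  have hB : ∀ δ, IsOpen (B δ) := by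
    intro δ
    have : B δ = ⋂ i, {w | ‖w i - a * rv m i‖ < δ} := by
      ext w; simp [B]
    rw [this]
    exact isOpen_iInter_of_finite fun i => isOpen_lt (by fun_prop) continuous_const
  refine ⟨B (min η η₀), B (min η η₀) ∩ {w | (∀ i, ‖w i - a * rv m i‖ < η) ∧ Gn w}, hB _,
    ⟨fun i => a * rv m i, ?_⟩, (hB _).inter h2, inter_subset_left, ?_, ?_, ?_⟩
  · intro i
    rw [sub_self, norm_zero]
    exact lt_min hη hη₀
  · intro w₀ hw₀
    rw [Metric.mem_closure_iff]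
    intro ε hε
    obtain ⟨δ, hδ, hδB⟩ := Metric.isOpen_iff.1 (hB (min η η₀)) w₀ hw₀
    obtain ⟨w, hw1, hw2⟩ := h4 w₀ (fun i => (hw₀ i).trans_le (min_le_right _ _)) (min ε δ)
      (lt_min hε hδ)
    have hd : dist w w₀ < min ε δ := by
      rw [dist_pi_lt_iff (lt_min hε hδ)]
      intro i
      rw [dist_eq_norm]
      exact hw1 i
    have hwB : w ∈ B (min η η₀) := hδB (hd.trans_le (min_le_right _ _))
    refine ⟨w, ⟨hwB, fun i => (hwB i).trans_le (min_le_left _ _), hw2⟩, ?_⟩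
    rw [dist_comm]
    exact hd.trans_le (min_le_left _ _)
  · intro w hw
    exact (h3 w fun i => (hw i).trans_le (min_le_left _ _)).1
  · rintro w ⟨-, hw1, hw2⟩ Ω' k c hΩ' hiso
    obtain ⟨hok, h5⟩ := h3 w hw1
    obtain ⟨w', φ, hw', hφ, hZ⟩ := red_main hR hok hΩ' hiso
    obtain ⟨χ, hχ⟩ := h5 hw2 w' hw' hZ
    refine ⟨χ.trans φ.symm, ?_⟩
    have e : (χ.trans φ.symm : ℂ ≃ᵢ ℂ) '' NH (m + 3) R r 0 w =
        φ.symm '' (χ '' NH (m + 3) R r 0 w) := by
      rw [← image_comp]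
      rfl
    rw [e, hχ, ← hφ, ← image_comp]
    have e2 : (φ.symm : ℂ → ℂ) ∘ φ = id := by
      ext x
      simp
    rw [e2, image_id]

end Pool.Agent.H212AN
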