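import Pool.Agent.H212AN.Chain
import Pool.Agent.H212AN.Link
import Pool.Agent.H212AN.D5
import Pool.Agent.W594.AN.Spectral

set_option autoImplicit false

/-!
# Project H212AN: the heat expansion of smooth plane domains and circular annuli
-/

namespace Pool.Agent.H212AN

open MeasureTheory Set Filter Topology Metric
open Pool.Agent.W594.AN (ClosedCurve SmoothDomain heatTrace dirichletEigenvalue)
open scoped Real ENNReal ComplexConjugate

/-- the Brownian loop -/
theorem exists_loop : ∃ μ : Measure Lo, IsLoop μ := q_loop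

/-- lengths and bending do not depend on the orientation -/
theorem rev_sum {n : ℕ} {c c' : Fin n → ClosedCurve} (h : ∀ i, c' i = c i ∨ c' i = rev (c i)) :
    ∑ i, (c' i).L = ∑ i, (c i).L ∧ ∑ i, (c' i).bending = ∑ i, (c i).bending := by
  constructor
  · refine Finset.sum_congr rfl fun i _ => ?_
    rcases h i with e | e <;> rw [e]
    rfl
  · refine Finset.sum_congr rfl fun i _ => ?_
    rcases h i with e | e <;> rw [e]
    exact (q_rv (c i)).2.2.2.1

/-- **The heat expansion** for the plain class of smooth domains, with the same `SmoothDomain`. -/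
theorem heat_plain : ∃ a₀ a₁ a₂ : ℝ, 0 < a₀ ∧ 0 < a₁ ∧ 0 < a₂ ∧
    ∀ (Ω : Set ℂ) (n : ℕ) (c : Fin n → ClosedCurve), SD Ω n c →
      ∃ D : SmoothDomain, D.Ω = Ω ∧ D.holes + 1 = n ∧ D.perimeter = ∑ i, (c i).L ∧
        D.bending = ∑ i, (c i).bending ∧
        Tendsto (fun t : ℝ => (4 * π * t * heatTrace Ω t - (D.area - √t * a₀ * D.perimeter +
          t * a₁ * (2 * π * (1 - D.holes)))) / √t ^ 3) (𝓝[>] 0) (𝓝 (a₂ * D.bending)) := by
  obtain ⟨μ, hμ⟩ := exists_loop
  obtain ⟨p0, p1, p2⟩ := q_pos μ hμ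
  refine ⟨m0 μ, m1 μ, m2 μ, p0, p1, p2, fun Ω n c hc => ?_⟩
  obtain ⟨c', hc', hSD, ε, C, hLB⟩ := q_or Ω n c hc
  obtain ⟨D, hD, hh, hp, hb, hk⟩ := q_top Ω n c' ε C hSD hLB
  obtain ⟨e1, e2⟩ := rev_sum hc'
  refine ⟨D, hD, hh, hp.trans e1, hb.trans e2, ?_⟩
  have h := q_he _ link_up link_lo link_nonneg μ hμ Ω n c' ε C hLB
  rw [← hp, ← hb, hk] at h
  simp only [link_heat]
  unfold SmoothDomain.area
  rw [hD]
  exact h

/-- the class `SmoothDomain` consists of plain smooth domains -/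
theorem SmoothDomain_SD (D : SmoothDomain) : SD D.Ω (D.holes + 1) D.curve :=
  ⟨D.isOpen, D.isConnected, D.isBounded, D.frontier_eq, D.disjoint⟩

/-- **The heat expansion holds.** -/
theorem heatExpansion : Pool.Agent.W594.AN.HeatExpansion := by
  obtain ⟨a₀, a₁, a₂, h0, h1, h2, H⟩ := heat_plain
  have hπ := Real.pi_pos
  refine ⟨1 / (4 * π), -(a₀ / (4 * π)), a₁ / 2, a₂ / (4 * π), by positivity,
    neg_ne_zero.2 (by positivity), by positivity, by positivity, fun D => ?_⟩
  obtain ⟨D', e1, e2, e3, e4, h⟩ := H D.Ω (D.holes + 1) D.curve (SmoothDomain_SD D)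
  have e2' : D'.holes = D.holes := by omega
  have e3' : D'.perimeter = D.perimeter := e3
  have e4' : D'.bending = D.bending := e4
  have e5 : D'.area = D.area := by unfold SmoothDomain.area; rw [e1]
  rw [e2', e3', e4', e5] at h
  have h' := h.const_mul (1 / (4 * π))
  have e6 : 1 / (4 * π) * (a₂ * D.bending) = a₂ / (4 * π) * D.bending := by ring
  rw [e6] at h'
  refine h'.congr' ?_
  filter_upwards [self_mem_nhdsWithin] with t ht
  have ht' : (0:ℝ) < t := ht
  have h4 : 0 < √t := Real.sqrt_pos.2 ht'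
  have h5 : √t ^ 2 = t := Real.sq_sqrt ht'.le
  set x := √t with hx
  rw [← h5]
  field_simp
  ring

/-- every plain smooth domain is the underlying set of a `SmoothDomain` -/
theorem exists_SmoothDomain {Ω : Set ℂ} {n : ℕ} {c : Fin n → ClosedCurve} (h : SD Ω n c) :
    ∃ D : SmoothDomain, D.Ω = Ω := by
  obtain ⟨a₀, a₁, a₂, -, -, -, H⟩ := heat_plain
  obtain ⟨D, hD, -⟩ := H Ω n c h
  exact ⟨D, hD⟩

end Pool.Agent.H212AN
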