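import Pool.Agent.H212AN.D0

set_option autoImplicit false

namespace Pool.Agent.H212AN

open MeasureTheory Set Filter Topology Metric
open scoped Real ENNReal

theorem pf_F_lip (h1 : S_hs) (h2 : S_er) (K : Set ℂ) (ρ R : ℝ) (hK : Good K ρ) (hρ : 0 < ρ)
    (hR : 4 * ρ < R) : ∃ L : NNReal, LipschitzWith L (ww K R) := by
  obtain ⟨hc, h0, hb⟩ := hK
  obtain ⟨e1, -, e3, -⟩ := h2 K ρ R ⟨hc, h0, hb⟩ hρ hR
  have hl1 := (h1 K ρ hc ⟨0, h0⟩ hb).2.2.2.1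
  have hne : (er K R).Nonempty := ⟨0, e3 (by simp; linarith)⟩
  have hsub : er K R ⊆ closedBall 0 R := by
    intro z hz
    have := hz 0 h0
    simpa using this
  have hl2 := (h1 (er K R) R e1 hne hsub).2.2.2.1
  have hl3 : LipschitzWith 0 (fun _ : ℝ => R) := LipschitzWith.const R
  exact ⟨_, (hl3.sub hl1).sub hl2⟩

theorem pf_F_int {L : NNReal} {f : ℝ → ℝ} (hf : LipschitzWith L f) (a b : ℝ) :
    IntervalIntegrable (fun θ => deriv f θ ^ 2) volume a b := by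
  have hb : ∀ θ, |deriv f θ| ≤ L := fun θ => by
    have := norm_deriv_le_of_lipschitz (x₀ := θ) hf
    simpa using this
  have hm : Measurable (fun θ => deriv f θ ^ 2) := (measurable_deriv f).pow_const 2
  rw [intervalIntegrable_iff]
  refine Measure.integrableOn_of_bounded (M := (L : ℝ) ^ 2) ?_ hm.aestronglyMeasurable ?_
  · simp
  · refine Eventually.of_forall (fun θ => ?_)
    rw [Real.norm_eq_abs, abs_pow]
    exact pow_le_pow_left₀ (abs_nonneg _) (hb θ) 2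

theorem pf_F_key (h1 : S_hs) (h2 : S_er) (h3 : S_en) (h4 : S_sc) (C : ℝ) (K : Set ℂ) (ρ R : ℝ)
    (hK : Good K ρ) (hρ : 0 < ρ) (hR : 4 * ρ < R) (hC : ∀ θ, R * ww K R θ ≤ C * ρ ^ 2) :
    R * (FK K R - (π * R ^ 2 - R * per K + ar2 K)) =
      R * ((1 / 2) * ∫ θ in (0:ℝ)..(2 * π), deriv (ww K R) θ ^ 2) -
        (R * ∫ θ in (0:ℝ)..(2 * π), ww K R θ ^ 2) / 2 ∧
    0 ≤ R * ((1 / 2) * ∫ θ in (0:ℝ)..(2 * π), deriv (ww K R) θ ^ 2) ∧
    3 * (R * ((1 / 2) * ∫ θ in (0:ℝ)..(2 * π), deriv (ww K R) θ ^ 2)) ≤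
      R * BB (hs K) (ww K R) + R * ∫ θ in (0:ℝ)..(2 * π), ww K R θ ^ 2 ∧
    0 ≤ R * ∫ θ in (0:ℝ)..(2 * π), ww K R θ ^ 2 ∧
    R * ∫ θ in (0:ℝ)..(2 * π), ww K R θ ^ 2 ≤ 2 * π * C ^ 2 * ρ ^ 4 / R := by
  have hR0 : 0 < R := by linarith
  have hpi : (0:ℝ) ≤ 2 * π := by positivity
  obtain ⟨L, hL⟩ := pf_F_lip h1 h2 K ρ R hK hρ hR
  have hcw : Continuous (ww K R) := hL.continuous
  have i1 := pf_F_int hL 0 (2 * π)
  have i2 : IntervalIntegrable (fun θ => ww K R θ ^ 2) volume 0 (2 * π) :=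
    (hcw.pow 2).intervalIntegrable _ _
  have i0 : IntervalIntegrable (fun θ => ww K R θ) volume 0 (2 * π) :=
    hcw.intervalIntegrable _ _
  obtain ⟨e1, e2⟩ := h3 K ρ R hK hρ hR
  obtain ⟨-, s2, -⟩ := h4 K ρ R hK hρ hR
  obtain ⟨-, -, -, r4, -⟩ := h2 K ρ R hK hρ hR
  rw [intervalIntegral.integral_sub i1 i2] at e1
  rw [intervalIntegral.integral_sub i2 i1] at e2
  have m1 : 0 ≤ ∫ θ in (0:ℝ)..(2 * π), deriv (ww K R) θ ^ 2 :=
    intervalIntegral.integral_nonneg hpi (fun θ _ => sq_nonneg _)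
  have m2 : 0 ≤ ∫ θ in (0:ℝ)..(2 * π), ww K R θ ^ 2 :=
    intervalIntegral.integral_nonneg hpi (fun θ _ => sq_nonneg _)
  have m3 : ∫ θ in (0:ℝ)..(2 * π), deriv (ww K R) θ ^ 2 ≤
      2 * R * ∫ θ in (0:ℝ)..(2 * π), ww K R θ := by
    rw [← intervalIntegral.integral_const_mul]
    exact intervalIntegral.integral_mono_on hpi i1 (i0.const_mul _) (fun θ _ => s2 θ)
  have m4 : ∫ θ in (0:ℝ)..(2 * π), ww K R θ ^ 2 ≤ 2 * π * (C * ρ ^ 2 / R) ^ 2 := by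
    have hb : ∀ θ, ww K R θ ^ 2 ≤ (C * ρ ^ 2 / R) ^ 2 := by
      intro θ
      refine pow_le_pow_left₀ (r4 θ).1 ?_ 2
      rw [le_div_iff₀ hR0, mul_comm]
      exact hC θ
    calc ∫ θ in (0:ℝ)..(2 * π), ww K R θ ^ 2
        ≤ ∫ θ in (0:ℝ)..(2 * π), (C * ρ ^ 2 / R) ^ 2 :=
          intervalIntegral.integral_mono_on hpi i2 (by simp) (fun θ _ => hb θ)
      _ = _ := by rw [intervalIntegral.integral_const]; simp
  set I0 := ∫ θ in (0:ℝ)..(2 * π), ww K R θ with hI0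
  set I1 := ∫ θ in (0:ℝ)..(2 * π), deriv (ww K R) θ ^ 2 with hI1
  set I2 := ∫ θ in (0:ℝ)..(2 * π), ww K R θ ^ 2 with hI2
  refine ⟨?_, by positivity, ?_, by positivity, ?_⟩
  · rw [e1]; ring
  · have k1 : R * (R * I0 - BB (hs K) (ww K R)) = R * (I2 - I1) := by rw [e2]
    have k2 : R * I1 ≤ R * (2 * R * I0) := mul_le_mul_of_nonneg_left m3 hR0.le
    nlinarith
  · calc R * I2 ≤ R * (2 * π * (C * ρ ^ 2 / R) ^ 2) := mul_le_mul_of_nonneg_left m4 hR0.le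
      _ = _ := by field_simp

theorem pf_F (h1 : S_hs) (h2 : S_er) (h3 : S_en) (h4 : S_sc) (h5 : S_ls) (h6 : S_li) : S_F := by
  obtain ⟨C, hC⟩ := h5
  refine ⟨|C| + π * C ^ 2, fun K ρ hK hρ => ?_⟩
  obtain ⟨c1, c2, c3, c4⟩ := hC K ρ hK hρ
  have hli := h6 K ρ hK hρ c1
  constructor
  · rw [Metric.tendsto_nhds]
    intro ε hε
    have t1 : ∀ᶠ R : ℝ in atTop, 2 * π * C ^ 2 * ρ ^ 4 / R < ε / 4 := by
      have : Tendsto (fun R : ℝ => 2 * π * C ^ 2 * ρ ^ 4 / R) atTop (𝓝 0) :=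
        tendsto_const_nhds.div_atTop tendsto_id
      exact this.eventually (gt_mem_nhds (by positivity))
    filter_upwards [c3 (ε / 4) (by positivity), hli (ε / 4) (by positivity), t1,
      eventually_gt_atTop (4 * ρ)] with R a1 a2 a3 a4
    obtain ⟨k1, k2, k3, k4, k5⟩ := pf_F_key h1 h2 h3 h4 C K ρ R hK hρ a4 (c4 R a4).2
    rw [Real.dist_eq, k1, abs_lt]
    constructor <;> linarith
  · intro R hR
    have hR0 : 0 < R := by linarith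
    obtain ⟨k1, k2, k3, k4, k5⟩ := pf_F_key h1 h2 h3 h4 C K ρ R hK hρ hR (c4 R hR).2
    have k6 := (c4 R hR).1
    have k7 : C * ρ ^ 3 ≤ |C| * ρ ^ 3 := mul_le_mul_of_nonneg_right (le_abs_self C) (by positivity)
    have k8 : 2 * π * C ^ 2 * ρ ^ 4 / R ≤ π * C ^ 2 * ρ ^ 3 := by
      rw [div_le_iff₀ hR0]
      have : π * C ^ 2 * ρ ^ 3 * (2 * ρ) ≤ π * C ^ 2 * ρ ^ 3 * R :=
        mul_le_mul_of_nonneg_left (by linarith) (by positivity)
      nlinarith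
    have k9 : 0 ≤ π * C ^ 2 * ρ ^ 3 := by positivity
    have k10 : 0 ≤ |C| * ρ ^ 3 := by positivity
    rw [k1, abs_le]
    constructor <;> nlinarith

end Pool.Agent.H212AN
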