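import Pool.Agent.H212AN.D3

set_option autoImplicit false

namespace Pool.Agent.H212AN

open MeasureTheory Set Filter Topology Metric
open Pool.Agent.W594.AN (ClosedCurve)
open Pool.Agent.H212AN.G (nG PG gm gk)
open scoped Real ENNReal ComplexConjugate

/-- the translations which keep the points `c * w r` in `Q` -/
noncomputable def pf_em_A (Q : Set ℂ) (c : ℂ) (m : ℕ) (w : Fin (m + 1) → ℂ) : ℝ≥0∞ :=
  volume {z : ℂ | ∀ r : Fin (m + 1), z + c * w r ∈ Q}

theorem pf_em_meas {Q : Set ℂ} (hQ : IsOpen Q) (c : ℂ) (m : ℕ) : Measurable (pf_em_A Q c m) := by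
  have h : MeasurableSet {q : (Fin (m + 1) → ℂ) × ℂ | ∀ r : Fin (m + 1), q.2 + c * q.1 r ∈ Q} := by
    have e : {q : (Fin (m + 1) → ℂ) × ℂ | ∀ r : Fin (m + 1), q.2 + c * q.1 r ∈ Q} =
        ⋂ r : Fin (m + 1), {q : (Fin (m + 1) → ℂ) × ℂ | q.2 + c * q.1 r ∈ Q} := by
      ext q; simp
    rw [e]
    refine MeasurableSet.iInter fun r => ?_
    have hc : Continuous (fun q : (Fin (m + 1) → ℂ) × ℂ => q.2 + c * q.1 r) := by fun_prop
    exact (hQ.preimage hc).measurableSet
  exact measurable_measure_prodMk_left h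

theorem pf_em_grid (m : ℕ) : Measurable (grid m) := by
  rw [measurable_pi_iff]
  intro r
  have h : Continuous (fun b : Lo => b (gpt m r)) := by fun_prop
  exact h.measurable

/-- the expectation for the discrete loop -/
theorem pf_em_EM {μ : Measure Lo} (hμ : IsLoop μ) {Q : Set ℂ} (hQ : IsOpen Q) {t : ℝ} (ht : 0 < t)
    (m : ℕ) : EM Q t m = ∫⁻ b, pf_em_A Q (√t : ℂ) m (grid m b) ∂μ := by
  have hm : (0 : ℝ) < (m : ℝ) + 1 := by positivity
  have hs : 0 < √t := Real.sqrt_pos.2 ht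
  have e1 : t / ((m : ℝ) + 1) = √t ^ 2 * (1 / ((m : ℝ) + 1)) := by
    rw [Real.sq_sqrt ht.le]; ring
  have hF : Measurable (fun X : Fin (m + 1) → ℂ =>
      volume {z : ℂ | ∀ r < m + 1, z + gm X r ∈ Q}) := by
    have h : MeasurableSet {q : (Fin (m + 1) → ℂ) × ℂ | ∀ r < m + 1, q.2 + gm q.1 r ∈ Q} := by
      have e : {q : (Fin (m + 1) → ℂ) × ℂ | ∀ r < m + 1, q.2 + gm q.1 r ∈ Q} =
          ⋂ r ∈ Iio (m + 1), {q : (Fin (m + 1) → ℂ) × ℂ | q.2 + gm q.1 r ∈ Q} := by
        ext q; simp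
      rw [e]
      refine MeasurableSet.biInter (Set.to_countable _) fun r _ => ?_
      have hc : Continuous (fun q : (Fin (m + 1) → ℂ) × ℂ => q.2 + gm q.1 r) :=
        continuous_snd.add ((G.gm_cont r).comp continuous_fst)
      exact (hQ.preimage hc).measurableSet
    exact measurable_measure_prodMk_left h
  have hgm : Measurable (fun (x : Fin (m + 1) → ℂ) (r : Fin (m + 1)) => gm x r) := by
    rw [measurable_pi_iff]
    intro r
    exact (G.gm_cont (r : ℕ)).measurable
  unfold EM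
  rw [e1, G.scale_PG (by positivity) hs (m + 1) hF]
  rw [← lintegral_map (pf_em_meas hQ (√t : ℂ) m) (pf_em_grid m), hμ.marg m,
    lintegral_map (pf_em_meas hQ (√t : ℂ) m) hgm]
  refine lintegral_congr fun X => ?_
  unfold pf_em_A
  congr 1
  ext z
  simp only [mem_ofPred_eq, G.gm_smul]
  constructor
  · intro h r
    exact h r r.2
  · intro h r hr
    exact h ⟨r, hr⟩

/-- the first grid point -/
theorem pf_em_gpt0 (m : ℕ) : gpt m 0 = 0 := by
  apply Subtype.ext
  show ((0 : Fin (m + 1)) : ℝ) / ((m : ℝ) + 1) = 0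
  simp

/-- the grids are dense -/
theorem pf_em_dense (m : ℕ) (s : unitInterval) :
    ∃ r : Fin (m + 1), dist (gpt m r) s ≤ 1 / ((m : ℝ) + 1) := by
  have hm : (0 : ℝ) < (m : ℝ) + 1 := by positivity
  have hs0 : 0 ≤ (s : ℝ) := s.2.1
  have hs1 : (s : ℝ) ≤ 1 := s.2.2
  have hnn : 0 ≤ (s : ℝ) * ((m : ℝ) + 1) := by positivity
  by_cases h : ⌊(s : ℝ) * ((m : ℝ) + 1)⌋₊ ≤ m
  · refine ⟨⟨⌊(s : ℝ) * ((m : ℝ) + 1)⌋₊, by omega⟩, ?_⟩
    rw [Subtype.dist_eq, Real.dist_eq]
    show |((⌊(s : ℝ) * ((m : ℝ) + 1)⌋₊ : ℕ) : ℝ) / ((m : ℝ) + 1) - (s : ℝ)| ≤ _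
    have h1 := Nat.floor_le hnn
    have h2 := Nat.lt_floor_add_one ((s : ℝ) * ((m : ℝ) + 1))
    rw [abs_le]
    constructor
    · rw [neg_le_sub_iff_le_add, ← add_div, le_div_iff₀ hm]
      linarith
    · rw [sub_le_iff_le_add, div_le_iff₀ hm, add_mul, one_div, inv_mul_cancel₀ hm.ne']
      linarith
  · push Not at h
    have h1 : ((m + 1 : ℕ) : ℝ) ≤ (s : ℝ) * ((m : ℝ) + 1) := by
      rw [← Nat.le_floor_iff hnn]
      exact h
    push_cast at h1
    have hs : (s : ℝ) = 1 := by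
      have h3 : (1 : ℝ) * ((m : ℝ) + 1) ≤ (s : ℝ) * ((m : ℝ) + 1) := by linarith
      exact le_antisymm hs1 (le_of_mul_le_mul_right h3 hm)
    refine ⟨⟨m, by omega⟩, ?_⟩
    rw [Subtype.dist_eq, Real.dist_eq]
    show |((m : ℕ) : ℝ) / ((m : ℝ) + 1) - (s : ℝ)| ≤ _
    have e : ((m : ℕ) : ℝ) / ((m : ℝ) + 1) - (s : ℝ) = -(1 / ((m : ℝ) + 1)) := by
      rw [hs]; field_simp; ring
    rw [e, abs_neg, abs_of_pos (by positivity)]

/-- reverse Fatou for a fixed loop -/
theorem pf_em_fatou {Q : Set ℂ} (hQ : IsOpen Q) (hb : Bornology.IsBounded Q) (c : ℂ) (b : Lo)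
    (h0 : b 0 = 0) :
    limsup (fun m => pf_em_A Q c m (grid m b)) atTop ≤
      volume {z : ℂ | ∀ s : unitInterval, z + c * b s ∈ closure Q} := by
  set S : ℕ → Set ℂ := fun m => {z : ℂ | ∀ r : Fin (m + 1), z + c * grid m b r ∈ Q} with hS
  set T : ℕ → Set ℂ := fun m => ⋃ k ∈ Ici m, S k with hT
  have hSQ : ∀ m, S m ⊆ Q := by
    intro m z hz
    have h1 := hz 0
    have h2 : grid m b 0 = 0 := by
      show b (gpt m 0) = 0
      rw [pf_em_gpt0, h0]
    rw [h2, mul_zero, add_zero] at h1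
    exact h1
  have hTQ : ∀ m, T m ⊆ Q := fun m => iUnion₂_subset fun k _ => hSQ k
  have hSo : ∀ m, IsOpen (S m) := by
    intro m
    have e : S m = ⋂ r : Fin (m + 1), {z : ℂ | z + c * grid m b r ∈ Q} := by
      ext z; simp [hS]
    rw [e]
    refine isOpen_iInter_of_finite fun r => ?_
    exact hQ.preimage (by fun_prop : Continuous fun z : ℂ => z + c * grid m b r)
  have hTo : ∀ m, IsOpen (T m) := fun m => isOpen_biUnion fun k _ => hSo k
  have hTa : Antitone T := by
    intro m m' hmm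
    exact biUnion_subset_biUnion_left (Ici_subset_Ici.2 hmm)
  have hlim := tendsto_measure_iInter_atTop (μ := (volume : Measure ℂ))
    (fun m => (hTo m).measurableSet.nullMeasurableSet) hTa
    ⟨0, (lt_of_le_of_lt (measure_mono (hTQ 0)) hb.measure_lt_top).ne⟩
  have h1 : limsup (fun m => pf_em_A Q c m (grid m b)) atTop ≤
      limsup (fun m => volume (T m)) atTop := by
    refine limsup_le_limsup (Eventually.of_forall fun m => ?_)
    refine measure_mono ?_
    intro z hz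
    exact mem_biUnion (mem_Ici.2 le_rfl) hz
  refine h1.trans ?_
  have h2 : limsup (fun m => volume (T m)) atTop = volume (⋂ n, T n) := hlim.limsup_eq
  rw [h2]
  refine measure_mono ?_
  intro z hz s
  by_contra hcl
  have hcont : Continuous (fun s' : unitInterval => z + c * b s') := by fun_prop
  have hopen : IsOpen {s' : unitInterval | z + c * b s' ∈ (closure Q)ᶜ} :=
    isClosed_closure.isOpen_compl.preimage hcont
  obtain ⟨δ, hδ, hball⟩ := Metric.isOpen_iff.1 hopen s hcl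
  obtain ⟨N, hN⟩ := exists_nat_one_div_lt hδ
  have hzN := mem_iInter.1 hz N
  obtain ⟨k, hk, hzk⟩ := mem_iUnion₂.1 hzN
  obtain ⟨r, hr⟩ := pf_em_dense k s
  have hk' : (N : ℝ) ≤ k := by exact_mod_cast mem_Ici.1 hk
  have hlt : dist (gpt k r) s < δ := by
    refine lt_of_le_of_lt hr (lt_of_le_of_lt ?_ hN)
    exact one_div_le_one_div_of_le (by positivity) (by linarith)
  exact hball (mem_ball.2 hlt) (subset_closure (hzk r))

theorem pf_em (h1 : S_end) : S_em := by
  intro μ hμ Q hQ hb t ht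
  have hp := hμ.prob
  refine ⟨?_, ?_⟩
  · intro m
    rw [pf_em_EM hμ hQ ht m]
    refine lintegral_mono fun b => ?_
    refine measure_mono ?_
    intro z hz r
    exact hz (gpt m r)
  · have e : (fun m => EM Q t m) = fun m => ∫⁻ b, pf_em_A Q (√t : ℂ) m (grid m b) ∂μ := by
      funext m
      exact pf_em_EM hμ hQ ht m
    rw [e]
    have hend := h1 μ hμ
    refine (limsup_lintegral_le (fun _ => volume Q)
      (fun m => (pf_em_meas hQ (√t : ℂ) m).comp (pf_em_grid m)) ?_ ?_).trans ?_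
    · intro m
      filter_upwards [hend] with b hb0
      refine measure_mono ?_
      intro z hz
      have h2 := hz 0
      have h3 : grid m b 0 = 0 := by
        show b (gpt m 0) = 0
        rw [pf_em_gpt0, hb0.1]
      rw [h3, mul_zero, add_zero] at h2
      exact h2
    · rw [lintegral_const, measure_univ, mul_one]
      exact hb.measure_lt_top.ne
    · refine lintegral_mono_ae ?_
      filter_upwards [hend] with b hb0
      exact pf_em_fatou hQ hb (√t : ℂ) b hb0.1

end Pool.Agent.H212AN
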