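import Pool.Agent.H212AN.E1

set_option autoImplicit false

namespace Pool.Agent.H212AN

open MeasureTheory Set Filter Topology Metric
open Pool.Agent.H212AN.G (nG PG gm gk)
open scoped Real ENNReal ComplexConjugate

theorem pf_gp2_norm_le {a b : ℂ} (h : a.re ^ 2 = b.re ^ 2) (h2 : a.im ^ 2 ≤ b.im ^ 2) :
    ‖a‖ ≤ ‖b‖ := by
  rw [Complex.norm_def, Complex.norm_def]
  apply Real.sqrt_le_sqrt
  rw [Complex.normSq_apply, Complex.normSq_apply]
  nlinarith

theorem pf_gp2_conj (a b : ℂ) : ‖conj a - conj b‖ = ‖a - b‖ := by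
  rw [← map_sub, Complex.norm_conj]

theorem pf_gp2_conj' (a b : ℂ) : ‖conj a - b‖ = ‖a - conj b‖ := by
  rw [← pf_gp2_conj, Complex.conj_conj]

theorem pf_gp2_ind (D : Set ℂ) (x : ℂ) (e : Bool) :
    (fl2 e x ∈ D → i2 D x e = 1) ∧ (fl2 e x ∉ D → i2 D x e = 0) := by
  constructor
  · intro h; simp [i2, h]
  · intro h; simp [i2, h]

theorem pf_gp2_normI (t : ℝ) : ‖(t : ℂ) * Complex.I‖ = |t| := by
  rw [norm_mul, Complex.norm_I, mul_one, Complex.norm_real, Real.norm_eq_abs]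

theorem pf_gp2_mem (R r : ℝ) (c w₁ w₂ x : ℂ) : x ∈ TH R r c w₁ w₂ ↔
    ‖x - c‖ < R ∧ r < ‖x - w₁‖ ∧ r < ‖x - w₂‖ := by
  simp only [TH, Set.mem_sdiff, Set.mem_union, mem_ball_iff_norm, mem_closedBall_iff_norm, not_or,
    not_le]

theorem pf_gp2_pol (R r : ℝ) (c w₁ w₂ : ℂ) (h1 : OK2 R r c w₁ w₂) (h2 : OK2 R r c (conj w₁) w₂)
    (hc : 0 ≤ c.im) (hw₁ : 0 < w₁.im) (hw₂ : w₂.im ≤ 0) :
    Pol (TH R r c w₁ w₂) (TH R r c (conj w₁) w₂) := by
  intro x hx
  obtain ⟨hr, k1, k2, k3⟩ := h1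
  obtain ⟨-, l1, -, l3⟩ := h2
  rw [dist_eq_norm] at k1 k2 k3 l1 l3
  have m1 : fl2 true x ∈ TH R r c w₁ w₂ ↔ ‖x - c‖ < R ∧ r < ‖x - w₁‖ ∧ r < ‖x - w₂‖ := by
    rw [fl2, if_pos rfl, pf_gp2_mem]
  have m2 : fl2 false x ∈ TH R r c w₁ w₂ ↔
      ‖conj x - c‖ < R ∧ r < ‖conj x - w₁‖ ∧ r < ‖conj x - w₂‖ := by
    rw [fl2, if_neg (by simp), pf_gp2_mem]
  have m3 : fl2 true x ∈ TH R r c (conj w₁) w₂ ↔
      ‖x - c‖ < R ∧ r < ‖conj x - w₁‖ ∧ r < ‖x - w₂‖ := by
    rw [fl2, if_pos rfl, pf_gp2_mem, pf_gp2_conj']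
  have m4 : fl2 false x ∈ TH R r c (conj w₁) w₂ ↔
      ‖conj x - c‖ < R ∧ r < ‖x - w₁‖ ∧ r < ‖conj x - w₂‖ := by
    rw [fl2, if_neg (by simp), pf_gp2_mem, pf_gp2_conj]
  have f1 : ‖x - c‖ ≤ ‖conj x - c‖ := by
    apply pf_gp2_norm_le
    · simp
    · simp only [Complex.sub_im, Complex.conj_im]; nlinarith
  have f2 : ‖x - w₁‖ ≤ ‖conj x - w₁‖ := by
    apply pf_gp2_norm_le
    · simp
    · simp only [Complex.sub_im, Complex.conj_im]; nlinarith
  have f3 : ‖conj x - w₂‖ ≤ ‖x - w₂‖ := by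
    apply pf_gp2_norm_le
    · simp
    · simp only [Complex.sub_im, Complex.conj_im]; nlinarith
  -- consequences of the triangle inequality
  have g1 : ‖conj x - c‖ ≤ ‖x - w₁‖ + ‖conj w₁ - c‖ := by
    have : conj x - c = (conj x - conj w₁) + (conj w₁ - c) := by ring
    rw [this]
    refine (norm_add_le _ _).trans ?_
    rw [pf_gp2_conj]
  have g2 : ‖conj x - c‖ ≤ ‖conj x - w₂‖ + ‖w₂ - c‖ := by
    have : conj x - c = (conj x - w₂) + (w₂ - c) := by ring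
    rw [this]
    exact norm_add_le _ _
  have g3 : ‖conj w₁ - w₂‖ ≤ ‖x - w₁‖ + ‖conj x - w₂‖ := by
    have : conj w₁ - w₂ = -(conj x - conj w₁) + (conj x - w₂) := by ring
    rw [this]
    refine (norm_add_le _ _).trans ?_
    rw [norm_neg, pf_gp2_conj]
  by_cases A : ‖x - c‖ < R
  · by_cases A' : ‖conj x - c‖ < R
    · by_cases P2' : r < ‖conj x - w₂‖
      · have P2 : r < ‖x - w₂‖ := lt_of_lt_of_le P2' f3
        by_cases P1 : r < ‖x - w₁‖
        · have P1' : r < ‖conj x - w₁‖ := lt_of_lt_of_le P1 f2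
          exact Or.inl ⟨(pf_gp2_ind _ _ _).1 (m1.2 ⟨A, P1, P2⟩),
            (pf_gp2_ind _ _ _).1 (m2.2 ⟨A', P1', P2'⟩),
            (pf_gp2_ind _ _ _).1 (m3.2 ⟨A, P1', P2⟩), (pf_gp2_ind _ _ _).1 (m4.2 ⟨A', P1, P2'⟩)⟩
        · by_cases P1' : r < ‖conj x - w₁‖
          · exact Or.inr (Or.inr (Or.inl ⟨(pf_gp2_ind _ _ _).2 (fun H => P1 (m1.1 H).2.1),
              (pf_gp2_ind _ _ _).1 (m2.2 ⟨A', P1', P2'⟩),
              (pf_gp2_ind _ _ _).1 (m3.2 ⟨A, P1', P2⟩),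
              (pf_gp2_ind _ _ _).2 (fun H => P1 (m4.1 H).2.1)⟩))
          · exact Or.inr (Or.inr (Or.inr ⟨(pf_gp2_ind _ _ _).2 (fun H => P1 (m1.1 H).2.1),
              (pf_gp2_ind _ _ _).2 (fun H => P1' (m2.1 H).2.1),
              (pf_gp2_ind _ _ _).2 (fun H => P1' (m3.1 H).2.1),
              (pf_gp2_ind _ _ _).2 (fun H => P1 (m4.1 H).2.1)⟩))
      · have P1 : r < ‖x - w₁‖ := by
          by_contra H
          linarith [not_lt.1 H, not_lt.1 P2']
        have P1' : r < ‖conj x - w₁‖ := lt_of_lt_of_le P1 f2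
        by_cases P2 : r < ‖x - w₂‖
        · exact Or.inr (Or.inl ⟨(pf_gp2_ind _ _ _).1 (m1.2 ⟨A, P1, P2⟩),
            (pf_gp2_ind _ _ _).2 (fun H => P2' (m2.1 H).2.2),
            (pf_gp2_ind _ _ _).1 (m3.2 ⟨A, P1', P2⟩),
            (pf_gp2_ind _ _ _).2 (fun H => P2' (m4.1 H).2.2)⟩)
        · exact Or.inr (Or.inr (Or.inr ⟨(pf_gp2_ind _ _ _).2 (fun H => P2 (m1.1 H).2.2),
            (pf_gp2_ind _ _ _).2 (fun H => P2' (m2.1 H).2.2),
            (pf_gp2_ind _ _ _).2 (fun H => P2 (m3.1 H).2.2),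
            (pf_gp2_ind _ _ _).2 (fun H => P2' (m4.1 H).2.2)⟩))
    · have P1 : r < ‖x - w₁‖ := by
        by_contra H
        linarith [not_lt.1 H, not_lt.1 A']
      have P1' : r < ‖conj x - w₁‖ := lt_of_lt_of_le P1 f2
      have P2' : r < ‖conj x - w₂‖ := by
        by_contra H
        linarith [not_lt.1 H, not_lt.1 A']
      have P2 : r < ‖x - w₂‖ := lt_of_lt_of_le P2' f3
      exact Or.inr (Or.inl ⟨(pf_gp2_ind _ _ _).1 (m1.2 ⟨A, P1, P2⟩),
        (pf_gp2_ind _ _ _).2 (fun H => A' (m2.1 H).1),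
        (pf_gp2_ind _ _ _).1 (m3.2 ⟨A, P1', P2⟩),
        (pf_gp2_ind _ _ _).2 (fun H => A' (m4.1 H).1)⟩)
  · have A' : ¬ ‖conj x - c‖ < R := fun H => A (lt_of_le_of_lt f1 H)
    exact Or.inr (Or.inr (Or.inr ⟨(pf_gp2_ind _ _ _).2 (fun H => A (m1.1 H).1),
      (pf_gp2_ind _ _ _).2 (fun H => A' (m2.1 H).1),
      (pf_gp2_ind _ _ _).2 (fun H => A (m3.1 H).1),
      (pf_gp2_ind _ _ _).2 (fun H => A' (m4.1 H).1)⟩))

theorem pf_gp2_vis {D D' : Set ℂ} (p e : ℂ) {η δ : ℝ} (hη : 0 < η) (hδ : 0 < δ)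
    (ha : ∀ x : ℝ, 0 ≤ x → x ≤ 1 → ∀ u : ℂ, ‖u - (p + x * (e - p))‖ < 2 * η → δ < u.im ∧ u ∈ D')
    (hb : ∀ z : ℂ, ‖z - p‖ < η → z ∉ D)
    (hc : ∀ u : ℂ, ‖u - e‖ < 2 * η → u ∈ D ∧ conj u ∉ D) : Vis D D' := by
  refine ⟨p, e - p, η, δ, hη, hδ, fun z hz q => ⟨?_, ?_, ?_⟩⟩
  · rintro ⟨x, hx0, hx1, hq⟩
    rw [mem_ball_iff_norm] at hz
    apply ha x hx0 hx1
    have : z + q - (p + x * (e - p)) = (z - p) + (q - x * (e - p)) := by ring
    rw [this]
    refine (norm_add_le _ _).trans_lt ?_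
    linarith
  · rw [mem_ball_iff_norm] at hz
    exact hb z hz
  · intro hq
    rw [mem_ball_iff_norm] at hz
    apply hc
    have : z + q - e = (z - p) + (q - (e - p)) := by ring
    rw [this]
    refine (norm_add_le _ _).trans_lt ?_
    linarith

theorem pf_gp2_seg {p e c : ℂ} {x μ ρ : ℝ} (hx0 : 0 ≤ x) (hx1 : x ≤ 1) (h1 : μ ≤ p.im)
    (h2 : μ ≤ e.im) (h3 : ‖p - c‖ ≤ ρ) (h4 : ‖e - c‖ ≤ ρ) {u : ℂ} {η : ℝ}
    (hu : ‖u - (p + x * (e - p))‖ < 2 * η) : μ - 2 * η < u.im ∧ ‖u - c‖ < ρ + 2 * η := by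
  constructor
  · have e1 := Complex.abs_im_le_norm (u - (p + x * (e - p)))
    have e2 : (u - (p + x * (e - p))).im = u.im - (p.im + x * (e.im - p.im)) := by simp
    rw [e2] at e1
    have e3 := (abs_le.1 (e1.trans hu.le)).1
    have e4 := (abs_lt.1 (lt_of_le_of_lt e1 hu)).1
    have : μ ≤ p.im + x * (e.im - p.im) := by nlinarith
    linarith
  · have e1 : u - c = (u - (p + x * (e - p))) + (((1 - x : ℝ) : ℂ) * (p - c) + (x : ℂ) * (e - c)) := by
      push_cast; ring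
    rw [e1]
    refine (norm_add_le _ _).trans_lt ?_
    have e2 : ‖((1 - x : ℝ) : ℂ) * (p - c) + (x : ℂ) * (e - c)‖ ≤ ρ := by
      refine (norm_add_le _ _).trans ?_
      rw [norm_mul, norm_mul, Complex.norm_real, Complex.norm_real, Real.norm_of_nonneg hx0,
        Real.norm_of_nonneg (by linarith : (0 : ℝ) ≤ 1 - x)]
      nlinarith
    linarith

theorem pf_gp2_im_le (a b : ℂ) : a.im - b.im ≤ ‖a - b‖ := by
  have := Complex.abs_im_le_norm (a - b)
  rw [Complex.sub_im] at this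
  exact (le_abs_self _).trans this

theorem pf_gp2 : S_gp2 := by
  intro R r c w₁ w₂ h1 h2 hc hw₁ hw₂ hor
  refine ⟨pf_gp2_pol R r c w₁ w₂ h1 h2 hc hw₁ hw₂, ?_⟩
  obtain ⟨hr, k1, k2, k3⟩ := h1
  obtain ⟨-, l1, -, l3⟩ := h2
  rw [dist_eq_norm] at k1 k2 k3 l1 l3
  rcases hor with hlt | hcp
  · -- first case
    obtain ⟨ε, hε, e1, e2, e3, e4, e5⟩ : ∃ ε : ℝ, 0 < ε ∧ 4 * ε ≤ w₁.im ∧ 4 * ε ≤ -w₂.im ∧
        4 * ε ≤ r ∧ 4 * ε ≤ R - ‖w₁ - c‖ - r ∧ 4 * ε ≤ R - ‖w₂ - c‖ - r := by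
      refine ⟨min w₁.im (min (-w₂.im) (min r (min (R - ‖w₁ - c‖ - r) (R - ‖w₂ - c‖ - r)))) / 4,
        ?_, ?_, ?_, ?_, ?_, ?_⟩
      · have : 0 < min w₁.im (min (-w₂.im) (min r (min (R - ‖w₁ - c‖ - r)
            (R - ‖w₂ - c‖ - r)))) :=
          lt_min hw₁ (lt_min (by linarith) (lt_min hr (lt_min (by linarith) (by linarith))))
        positivity
      all_goals
        rw [mul_div_cancel₀ _ (by norm_num : (4 : ℝ) ≠ 0)]
        simp
    set η := ε / 2 with hηd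
    set p : ℂ := w₁ + ((r - ε : ℝ) : ℂ) * Complex.I with hp
    set e : ℂ := conj w₂ + ((r - ε : ℝ) : ℂ) * Complex.I with he
    have him : p.im = w₁.im + (r - ε) := by simp [hp]
    have heim : e.im = -w₂.im + (r - ε) := by simp [he]
    have hpc : ‖p - c‖ ≤ R - 4 * ε := by
      have : p - c = (w₁ - c) + ((r - ε : ℝ) : ℂ) * Complex.I := by rw [hp]; ring
      rw [this]
      refine (norm_add_le _ _).trans ?_
      rw [pf_gp2_normI, abs_of_pos (by linarith)]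
      linarith
    have hec : ‖e - c‖ ≤ R - 4 * ε := by
      have a1 : ‖e - c‖ ≤ ‖conj e - c‖ := by
        apply pf_gp2_norm_le
        · simp
        · simp only [Complex.sub_im, Complex.conj_im]
          have : 0 < e.im := by rw [heim]; linarith
          nlinarith
      have a2 : conj e - c = (w₂ - c) + ((-(r - ε) : ℝ) : ℂ) * Complex.I := by
        rw [he]
        simp only [map_add, Complex.conj_conj, map_mul, Complex.conj_ofReal, Complex.conj_I]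
        push_cast; ring
      rw [a2] at a1
      refine a1.trans ((norm_add_le _ _).trans ?_)
      rw [pf_gp2_normI, abs_neg, abs_of_pos (by linarith)]
      linarith
    have key : ∀ x : ℝ, 0 ≤ x → x ≤ 1 → ∀ u : ℂ, ‖u - (p + x * (e - p))‖ < 2 * η →
        r < u.im ∧ ‖u - c‖ < R ∧ r < ‖u - conj w₁‖ ∧ r < ‖u - w₂‖ := by
      intro x hx0 hx1 u hu
      obtain ⟨b1, b2⟩ := pf_gp2_seg (μ := 4 * ε + (r - ε)) hx0 hx1 (by rw [him]; linarith)
        (by rw [heim]; linarith) hpc hec hu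
      have b3 := pf_gp2_im_le u (conj w₁)
      have b4 := pf_gp2_im_le u w₂
      rw [Complex.conj_im] at b3
      refine ⟨by linarith, by linarith, by linarith, by linarith⟩
    refine pf_gp2_vis p e (η := η) (δ := r) (by positivity) hr ?_ ?_ ?_
    · intro x hx0 hx1 u hu
      obtain ⟨b1, b2, b3, b4⟩ := key x hx0 hx1 u hu
      exact ⟨b1, (pf_gp2_mem _ _ _ _ _ _).2 ⟨b2, b3, b4⟩⟩
    · intro z hz H
      have b1 := ((pf_gp2_mem _ _ _ _ _ _).1 H).2.1
      have : z - w₁ = (z - p) + ((r - ε : ℝ) : ℂ) * Complex.I := by rw [hp]; ring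
      rw [this] at b1
      have b2 := norm_add_le (z - p) (((r - ε : ℝ) : ℂ) * Complex.I)
      rw [pf_gp2_normI, abs_of_pos (by linarith)] at b2
      linarith
    · intro u hu
      have hu' : ‖u - (p + (1 : ℝ) * (e - p))‖ < 2 * η := by
        have : p + ((1 : ℝ) : ℂ) * (e - p) = e := by push_cast; ring
        rw [this]; exact hu
      obtain ⟨b1, b2, b3, b4⟩ := key 1 zero_le_one le_rfl u hu'
      refine ⟨(pf_gp2_mem _ _ _ _ _ _).2 ⟨b2, ?_, b4⟩, fun H => ?_⟩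
      · -- u is outside the first hole
        have c1 : conj w₁ - w₂ = -(conj u - conj w₁) + (conj u - conj e) +
            ((-(r - ε) : ℝ) : ℂ) * Complex.I := by
          rw [he]
          simp only [map_add, Complex.conj_conj, map_mul, Complex.conj_ofReal, Complex.conj_I]
          push_cast; ring
        have c2 : ‖conj w₁ - w₂‖ ≤ ‖u - w₁‖ + ‖u - e‖ + (r - ε) := by
          rw [c1]
          refine (norm_add_le _ _).trans ?_
          rw [pf_gp2_normI, abs_neg, abs_of_pos (by linarith : 0 < r - ε)]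
          have c3 := norm_add_le (-(conj u - conj w₁)) (conj u - conj e)
          rw [norm_neg, pf_gp2_conj, pf_gp2_conj] at c3
          linarith
        linarith
      · have b5 := ((pf_gp2_mem _ _ _ _ _ _).1 H).2.2
        rw [pf_gp2_conj'] at b5
        have : u - conj w₂ = (u - e) + ((r - ε : ℝ) : ℂ) * Complex.I := by rw [he]; ring
        rw [this] at b5
        have b6 := norm_add_le (u - e) (((r - ε : ℝ) : ℂ) * Complex.I)
        rw [pf_gp2_normI, abs_of_pos (by linarith)] at b6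
        linarith
  · -- second case
    obtain ⟨ε, hε, e1, e2, e3, e4⟩ : ∃ ε : ℝ, 0 < ε ∧ 4 * ε ≤ w₁.im ∧ 4 * ε ≤ c.im ∧
        4 * ε ≤ r ∧ 4 * ε ≤ R - ‖w₁ - c‖ - r := by
      refine ⟨min w₁.im (min c.im (min r (R - ‖w₁ - c‖ - r))) / 4, ?_, ?_, ?_, ?_, ?_⟩
      · have : 0 < min w₁.im (min c.im (min r (R - ‖w₁ - c‖ - r))) :=
          lt_min hw₁ (lt_min hcp (lt_min hr (by linarith)))
        positivity
      all_goals
        rw [mul_div_cancel₀ _ (by norm_num : (4 : ℝ) ≠ 0)]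
        simp
    have hRr : r < R := by linarith [norm_nonneg (w₁ - c)]
    set η := ε / 2 with hηd
    set p : ℂ := w₁ + ((r - ε : ℝ) : ℂ) * Complex.I with hp
    set e : ℂ := c + ((R - ε : ℝ) : ℂ) * Complex.I with he
    have him : p.im = w₁.im + (r - ε) := by simp [hp]
    have heim : e.im = c.im + (R - ε) := by simp [he]
    have hpc : ‖p - c‖ ≤ R - ε := by
      have : p - c = (w₁ - c) + ((r - ε : ℝ) : ℂ) * Complex.I := by rw [hp]; ring
      rw [this]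
      refine (norm_add_le _ _).trans ?_
      rw [pf_gp2_normI, abs_of_pos (by linarith)]
      linarith
    have hec : ‖e - c‖ ≤ R - ε := by
      have : e - c = ((R - ε : ℝ) : ℂ) * Complex.I := by rw [he]; ring
      rw [this, pf_gp2_normI, abs_of_pos (by linarith)]
    have key : ∀ x : ℝ, 0 ≤ x → x ≤ 1 → ∀ u : ℂ, ‖u - (p + x * (e - p))‖ < 2 * η →
        r < u.im ∧ ‖u - c‖ < R ∧ r < ‖u - conj w₁‖ ∧ r < ‖u - w₂‖ := by
      intro x hx0 hx1 u hu
      obtain ⟨b1, b2⟩ := pf_gp2_seg (μ := 4 * ε + (r - ε)) hx0 hx1 (by rw [him]; linarith)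
        (by rw [heim]; linarith) hpc hec hu
      have b3 := pf_gp2_im_le u (conj w₁)
      have b4 := pf_gp2_im_le u w₂
      rw [Complex.conj_im] at b3
      refine ⟨by linarith, by linarith, by linarith, by linarith⟩
    refine pf_gp2_vis p e (η := η) (δ := r) (by positivity) hr ?_ ?_ ?_
    · intro x hx0 hx1 u hu
      obtain ⟨b1, b2, b3, b4⟩ := key x hx0 hx1 u hu
      exact ⟨b1, (pf_gp2_mem _ _ _ _ _ _).2 ⟨b2, b3, b4⟩⟩
    · intro z hz H
      have b1 := ((pf_gp2_mem _ _ _ _ _ _).1 H).2.1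
      have : z - w₁ = (z - p) + ((r - ε : ℝ) : ℂ) * Complex.I := by rw [hp]; ring
      rw [this] at b1
      have b2 := norm_add_le (z - p) (((r - ε : ℝ) : ℂ) * Complex.I)
      rw [pf_gp2_normI, abs_of_pos (by linarith)] at b2
      linarith
    · intro u hu
      have hu' : ‖u - (p + (1 : ℝ) * (e - p))‖ < 2 * η := by
        have : p + ((1 : ℝ) : ℂ) * (e - p) = e := by push_cast; ring
        rw [this]; exact hu
      obtain ⟨b1, b2, b3, b4⟩ := key 1 zero_le_one le_rfl u hu'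
      refine ⟨(pf_gp2_mem _ _ _ _ _ _).2 ⟨b2, ?_, b4⟩, fun H => ?_⟩
      · have c1 : e - c = -(u - e) + (u - w₁) + (w₁ - c) := by ring
        have c2 : ‖e - c‖ ≤ ‖u - e‖ + ‖u - w₁‖ + ‖w₁ - c‖ := by
          rw [c1]
          refine (norm_add_le _ _).trans ?_
          have := norm_add_le (-(u - e)) (u - w₁)
          rw [norm_neg] at this
          linarith
        have c3 : ‖e - c‖ = R - ε := by
          have : e - c = ((R - ε : ℝ) : ℂ) * Complex.I := by rw [he]; ring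
          rw [this, pf_gp2_normI, abs_of_pos (by linarith)]
        linarith
      · have b5 := ((pf_gp2_mem _ _ _ _ _ _).1 H).1
        rw [pf_gp2_conj'] at b5
        have b6 := pf_gp2_im_le u (conj c)
        rw [Complex.conj_im] at b6
        have b7 := pf_gp2_im_le e u
        rw [norm_sub_rev] at b7
        rw [heim] at b7
        linarith

end Pool.Agent.H212AN
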