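import Pool.Agent.H212AN.D1

set_option autoImplicit false

namespace Pool.Agent.H212AN

open MeasureTheory Set Filter Topology Metric
open Pool.Agent.H212AN.G (nG PG gm)
open scoped Real ENNReal

theorem pf_mom_grid_cont (m : ℕ) : Continuous (grid m) := by
  unfold grid
  refine continuous_pi fun r => ?_
  exact continuous_eval_const (gpt m r)

theorem pf_mom_exists (b : Lo) : ∃ t : unitInterval, ‖b t‖ = ‖b‖ := by
  obtain ⟨t, -, ht⟩ := isCompact_univ.exists_isMaxOn (univ_nonempty : (univ : Set unitInterval).Nonempty)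
    (b.continuous.norm.continuousOn (s := univ))
  refine ⟨t, le_antisymm (b.norm_coe_le_norm t) ?_⟩
  rw [ContinuousMap.norm_le _ (norm_nonneg _)]
  intro s
  exact ht (mem_univ s)

/-- the index of the grid point below `t` -/
noncomputable def pfMomIdx (m : ℕ) (t : unitInterval) : Fin (m + 1) :=
  ⟨min ⌊(t : ℝ) * (m + 1)⌋₊ m, by omega⟩

theorem pf_mom_idx (m : ℕ) (t : unitInterval) :
    |((gpt m (pfMomIdx m t) : unitInterval) : ℝ) - t| ≤ 1 / ((m : ℝ) + 1) := by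
  have hm : (0 : ℝ) < (m : ℝ) + 1 := by positivity
  have ht0 := t.2.1
  have ht1 := t.2.2
  have h0 : (0 : ℝ) ≤ (t : ℝ) * (m + 1) := by positivity
  have h1 := Nat.floor_le h0
  have h2 := Nat.lt_floor_add_one ((t : ℝ) * (m + 1))
  have h3 : ((gpt m (pfMomIdx m t) : unitInterval) : ℝ) = ((min ⌊(t : ℝ) * (m + 1)⌋₊ m : ℕ) : ℝ) / (m + 1) := rfl
  have hub : ((min ⌊(t : ℝ) * (m + 1)⌋₊ m : ℕ) : ℝ) ≤ (t : ℝ) * (m + 1) := by
    refine le_trans ?_ h1
    exact_mod_cast min_le_left _ _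
  have hlb : (t : ℝ) * (m + 1) - 1 ≤ ((min ⌊(t : ℝ) * (m + 1)⌋₊ m : ℕ) : ℝ) := by
    rw [Nat.cast_min]
    refine le_min (by linarith) ?_
    have : (t : ℝ) * (m + 1) ≤ 1 * (m + 1) := mul_le_mul_of_nonneg_right ht1 hm.le
    linarith
  rw [h3, abs_le]
  constructor
  · have : (t : ℝ) - 1 / (m + 1) ≤ ((min ⌊(t : ℝ) * (m + 1)⌋₊ m : ℕ) : ℝ) / (m + 1) := by
      rw [le_div_iff₀ hm]
      have : ((t : ℝ) - 1 / (m + 1)) * (m + 1) = (t : ℝ) * (m + 1) - 1 := by field_simp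
      linarith
    linarith
  · have : ((min ⌊(t : ℝ) * (m + 1)⌋₊ m : ℕ) : ℝ) / (m + 1) ≤ t := by
      rw [div_le_iff₀ hm]
      exact hub
    have h4 : (0 : ℝ) ≤ 1 / (m + 1) := by positivity
    linarith

theorem pf_mom_tendsto_idx (t : unitInterval) :
    Tendsto (fun m : ℕ => gpt m (pfMomIdx m t)) atTop (𝓝 t) := by
  rw [tendsto_subtype_rng]
  rw [tendsto_iff_dist_tendsto_zero]
  refine squeeze_zero (fun _ => dist_nonneg) (fun m => ?_) tendsto_one_div_add_atTop_nhds_zero_nat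
  rw [Real.dist_eq]
  exact pf_mom_idx m t

theorem pf_mom_liminf (b : Lo) (n : ℕ) :
    ENNReal.ofReal (‖b‖ ^ n) ≤ liminf (fun m : ℕ => ENNReal.ofReal (‖grid m b‖ ^ n)) atTop := by
  obtain ⟨t, ht⟩ := pf_mom_exists b
  have h1 : Tendsto (fun m : ℕ => ENNReal.ofReal (‖b (gpt m (pfMomIdx m t))‖ ^ n)) atTop
      (𝓝 (ENNReal.ofReal (‖b‖ ^ n))) := by
    rw [← ht]
    refine ENNReal.tendsto_ofReal (Tendsto.pow ?_ n)
    exact (b.continuous.norm.tendsto t).comp (pf_mom_tendsto_idx t)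
  rw [← h1.liminf_eq]
  refine liminf_le_liminf (Eventually.of_forall fun m => ?_)
  refine ENNReal.ofReal_le_ofReal (pow_le_pow_left₀ (norm_nonneg _) ?_ n)
  exact norm_le_pi_norm (grid m b) (pfMomIdx m t)

theorem pf_mom_bound (μ : Measure Lo) (hμ : IsLoop μ) (n m : ℕ) :
    ∫⁻ b, ENNReal.ofReal (‖grid m b‖ ^ n) ∂μ ≤ ENNReal.ofReal (G.cm n) := by
  have hm1 : Measurable (fun y : Fin (m + 1) → ℂ => ENNReal.ofReal (‖y‖ ^ n)) :=
    ((measurable_norm).pow_const n).ennreal_ofReal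
  have hg : Measurable (fun (x : Fin (m + 1) → ℂ) (r : Fin (m + 1)) => gm x r) :=
    measurable_pi_lambda _ fun r => (G.gm_cont (M := m + 1) (r : ℕ)).measurable
  have h1 : ∫⁻ b, ENNReal.ofReal (‖grid m b‖ ^ n) ∂μ =
      ∫⁻ y, ENNReal.ofReal (‖y‖ ^ n) ∂(μ.map (grid m)) := by
    rw [lintegral_map hm1 (pf_mom_grid_cont m).measurable]
  rw [h1, hμ.marg m, lintegral_map hm1 hg]
  have hs : (0 : ℝ) < 1 / ((m : ℝ) + 1) := by positivity
  have h2 := G.mx_moment G.tm G.fl (M := m + 1) (Nat.succ_pos m) hs n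
  have h3 : Real.sqrt (((m + 1 : ℕ) : ℝ) * (1 / ((m : ℝ) + 1))) = 1 := by
    rw [show (((m + 1 : ℕ) : ℝ) * (1 / ((m : ℝ) + 1))) = 1 by push_cast; field_simp, Real.sqrt_one]
  rw [h3, one_pow, mul_one] at h2
  refine le_trans (lintegral_mono fun x => ?_) h2
  refine ENNReal.ofReal_le_ofReal (pow_le_pow_left₀ (norm_nonneg _) ?_ n)
  rw [pi_norm_le_iff_of_nonneg (G.mx_nonneg (Nat.succ_pos m) x)]
  intro r
  exact (G.mx_spec (Nat.succ_pos m) x).2 r r.2

theorem pf_mom : S_mom := by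
  intro μ hμ n
  refine ⟨(continuous_norm.pow n).aestronglyMeasurable, ?_⟩
  rw [hasFiniteIntegral_iff_ofReal (Eventually.of_forall fun b => pow_nonneg (norm_nonneg b) n)]
  have h1 : ∫⁻ b : Lo, ENNReal.ofReal (‖b‖ ^ n) ∂μ ≤ ENNReal.ofReal (G.cm n) := by
    calc ∫⁻ b : Lo, ENNReal.ofReal (‖b‖ ^ n) ∂μ
        ≤ ∫⁻ b : Lo, liminf (fun m : ℕ => ENNReal.ofReal (‖grid m b‖ ^ n)) atTop ∂μ :=
          lintegral_mono fun b => pf_mom_liminf b n
      _ ≤ liminf (fun m : ℕ => ∫⁻ b : Lo, ENNReal.ofReal (‖grid m b‖ ^ n) ∂μ) atTop :=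
          lintegral_liminf_le fun m =>
            (((pf_mom_grid_cont m).norm.pow n).measurable).ennreal_ofReal
      _ ≤ ENNReal.ofReal (G.cm n) := by
          refine (liminf_le_liminf (v := fun _ => ENNReal.ofReal (G.cm n))
            (Eventually.of_forall fun m => pf_mom_bound μ hμ n m)).trans ?_
          simp
  exact h1.trans_lt ENNReal.ofReal_lt_top

end Pool.Agent.H212AN
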