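import Pool.Agent.H212AN.E3

set_option autoImplicit false

namespace Pool.Agent.H212AN

open MeasureTheory Set Filter Topology Metric
open Pool.Agent.H212AN.G (nG PG gm gk)
open scoped Real ENNReal ComplexConjugate

theorem pf_pk_exp (a : ℝ) (ha : 0 < a) :
    Tendsto (fun t : ℝ => Real.exp (-(a / t)) / √t) (𝓝[>] 0) (𝓝 0) := by
  have h1 := tendsto_rpow_mul_exp_neg_mul_atTop_nhds_zero (1 / 2 : ℝ) a ha
  have h2 : Tendsto (fun t : ℝ => t⁻¹) (𝓝[>] 0) atTop := tendsto_inv_nhdsGT_zero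
  refine (h1.comp h2).congr' ?_
  filter_upwards [self_mem_nhdsWithin] with t ht
  have ht : (0 : ℝ) < t := ht
  simp only [Function.comp]
  rw [← Real.sqrt_eq_rpow, Real.sqrt_inv, div_eq_mul_inv, mul_comm]
  congr 2
  field_simp

theorem pf_pk_exp' (a : ℝ) (ha : 0 < a) :
    Tendsto (fun t : ℝ => Real.exp (-(a / t))) (𝓝[>] 0) (𝓝 0) := by
  have h2 : Tendsto (fun t : ℝ => t⁻¹) (𝓝[>] 0) atTop := tendsto_inv_nhdsGT_zero
  have h3 : Tendsto (fun t : ℝ => -(a / t)) (𝓝[>] 0) atBot := by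
    have h4 : Tendsto (fun t : ℝ => a * t⁻¹) (𝓝[>] 0) atTop := h2.const_mul_atTop ha
    have h5 := tendsto_neg_atTop_atBot.comp h4
    refine h5.congr ?_
    intro t
    simp [div_eq_mul_inv]
  exact Real.tendsto_exp_atBot.comp h3

theorem pf_pk_sum {ι : Type} [Fintype ι] (f : ι → ℝ) (F : ℝ → ℝ) (S : Finset ℝ)
    (hS : ∀ i, f i ∈ S) : ∑ i, F (f i) = ∑ y ∈ S, (mu' f y : ℝ) * F y := by
  classical
  rw [← Finset.sum_fiberwise_of_maps_to (s := Finset.univ) (t := S) (g := f)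
    (fun i _ => hS i) (fun i => F (f i))]
  refine Finset.sum_congr rfl ?_
  intro y _
  rw [Finset.sum_congr rfl (g := fun _ => F y)]
  · rw [Finset.sum_const, nsmul_eq_mul]
    unfold mu'
    congr!
  · intro i hi
    rw [(Finset.mem_filter.mp hi).2]

theorem pf_pk_lim {ι : Type} [Fintype ι] (f f' : ι → ℝ) (F : ℝ → ℝ → ℝ) (x L : ℝ)
    (hlow : ∀ y, y < x → mu' f y = mu' f' y)
    (hx : Tendsto (fun t : ℝ => F x t * Real.exp (x ^ 2 / t) / √t) (𝓝[>] 0) (𝓝 L))
    (hhi : ∀ y, ((∃ i, f i = y) ∨ ∃ i, f' i = y) → x < y →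
      Tendsto (fun t : ℝ => F y t * Real.exp (x ^ 2 / t) / √t) (𝓝[>] 0) (𝓝 0)) :
    Tendsto (fun t : ℝ => (∑ i, F (f i) t - ∑ i, F (f' i) t) * Real.exp (x ^ 2 / t) / √t)
      (𝓝[>] 0) (𝓝 (((mu' f x : ℝ) - (mu' f' x : ℝ)) * L)) := by
  classical
  set S : Finset ℝ := insert x (Finset.univ.image f ∪ Finset.univ.image f') with hSdef
  have hS1 : ∀ i, f i ∈ S := by
    intro i
    simp [hSdef]
  have hS2 : ∀ i, f' i ∈ S := by
    intro i
    simp [hSdef]
  have hxS : x ∈ S := by simp [hSdef]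
  have h1 : ∀ y ∈ S, Tendsto (fun t : ℝ => ((mu' f y : ℝ) - (mu' f' y : ℝ)) *
      (F y t * Real.exp (x ^ 2 / t) / √t)) (𝓝[>] 0)
      (𝓝 (if y = x then ((mu' f x : ℝ) - (mu' f' x : ℝ)) * L else 0)) := by
    intro y hy
    rcases lt_trichotomy y x with h | h | h
    · rw [hlow y h, if_neg h.ne]
      simp
    · subst h
      rw [if_pos rfl]
      exact hx.const_mul _
    · rw [if_neg h.ne']
      have h2 : (∃ i, f i = y) ∨ ∃ i, f' i = y := by
        rw [hSdef, Finset.mem_insert, Finset.mem_union, Finset.mem_image, Finset.mem_image] at hy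
        rcases hy with hy | hy | hy
        · exact absurd hy h.ne'
        · obtain ⟨i, _, hi⟩ := hy
          exact Or.inl ⟨i, hi⟩
        · obtain ⟨i, _, hi⟩ := hy
          exact Or.inr ⟨i, hi⟩
      have h3 := (hhi y h2 h).const_mul ((mu' f y : ℝ) - (mu' f' y : ℝ))
      rwa [mul_zero] at h3
  have h2 := tendsto_finsetSum S h1
  rw [Finset.sum_ite_eq' S x, if_pos hxS] at h2
  refine h2.congr ?_
  intro t
  rw [pf_pk_sum f (fun y => F y t) S hS1, pf_pk_sum f' (fun y => F y t) S hS2,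
    ← Finset.sum_sub_distrib, Finset.sum_mul, Finset.sum_div]
  refine Finset.sum_congr rfl ?_
  intro y _
  ring

theorem pf_pk : S_pk := by
  intro H O LH LO m hH hO hOb ι _ n h h' o o' g hg hh ho hD x hx0 hxg hxm hmu
  have hmuneg : ∀ {κ : Type} [Fintype κ] (f : κ → ℝ), (∀ k, g ≤ f k) → ∀ y, y ≤ 0 →
      mu' f y = 0 := by
    intro κ _ f hf y hy
    unfold mu'
    rw [Finset.card_eq_zero, Finset.filter_eq_empty_iff]
    intro k _ hk
    have := hf k
    linarith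
  -- the part of `H`
  have A1 := pf_pk_lim h h' H x (LH x)
    (by
      intro y hy
      rcases le_or_gt y 0 with h0 | h0
      · rw [hmuneg h (fun k => (hh k).1) y h0, hmuneg h' (fun k => (hh k).2) y h0]
      · exact (hmu y h0 hy).1)
    (hH x hx0)
    (by
      intro y _ hy
      have hy0 : 0 < y := hx0.trans hy
      have h1 := (hH y hy0).mul (pf_pk_exp' (y ^ 2 - x ^ 2) (by nlinarith))
      rw [mul_zero] at h1
      refine h1.congr' ?_
      filter_upwards [self_mem_nhdsWithin] with t ht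
      have ht : (0 : ℝ) < t := ht
      have e1 : Real.exp (x ^ 2 / t) = Real.exp (y ^ 2 / t) * Real.exp (-((y ^ 2 - x ^ 2) / t)) := by
        rw [← Real.exp_add]
        congr 1
        field_simp
        ring
      rw [e1]
      ring)
  have A2 := pf_pk_lim o o' O x (LO x)
    (by
      intro y hy
      rcases le_or_gt y 0 with h0 | h0
      · rw [hmuneg o (fun k => (ho k).1) y h0, hmuneg o' (fun k => (ho k).2.1) y h0]
      · exact (hmu y h0 hy).2)
    (hO x hx0 hxm)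
    (by
      intro y hym hy
      have hy0 : 0 < y := hx0.trans hy
      have hym : y ≤ m := by
        rcases hym with ⟨i, hi⟩ | ⟨i, hi⟩
        · rw [← hi]; exact (ho i).2.2.1
        · rw [← hi]; exact (ho i).2.2.2
      have hyx : x ^ 2 < y ^ 2 := by nlinarith
      have hy2 : 0 < y ^ 2 := by positivity
      obtain ⟨θ, hθ1, hθ2⟩ : ∃ θ : ℝ, x ^ 2 / y ^ 2 < θ ∧ θ < 1 :=
        exists_between ((div_lt_one hy2).2 hyx)
      have hθ0 : 0 < θ := lt_trans (by positivity) hθ1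
      have hθ3 : 0 < θ * y ^ 2 - x ^ 2 := by
        rw [div_lt_iff₀ hy2] at hθ1
        linarith
      obtain ⟨C, hC⟩ := hOb y hy0 hym θ hθ0 hθ2
      have h1 := (pf_pk_exp (θ * y ^ 2 - x ^ 2) hθ3).const_mul C
      rw [mul_zero] at h1
      refine squeeze_zero_norm' ?_ h1
      filter_upwards [Ioc_mem_nhdsGT (show (0 : ℝ) < 1 by norm_num)] with t ht
      have ht0 : 0 < t := ht.1
      have h2 := hC t ht0 ht.2
      rw [Real.norm_eq_abs, abs_div, abs_mul, abs_of_pos (Real.exp_pos _),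
        abs_of_nonneg (Real.sqrt_nonneg t)]
      have e1 : C * (Real.exp (-((θ * y ^ 2 - x ^ 2) / t)) / √t) =
          C * Real.exp (-(θ * y ^ 2 / t)) * Real.exp (x ^ 2 / t) / √t := by
        rw [mul_assoc C, ← Real.exp_add, mul_div_assoc]
        congr 3
        field_simp
        ring
      rw [e1]
      gcongr)
  have A3 := A1.add A2
  have A4 : Tendsto (fun t : ℝ => (∑ i, H (h i) t - ∑ i, H (h' i) t) * Real.exp (x ^ 2 / t) / √t +
      (∑ i, O (o i) t - ∑ i, O (o' i) t) * Real.exp (x ^ 2 / t) / √t) (𝓝[>] 0) (𝓝 0) := by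
    have hg2 : x ^ 2 < 9 / 4 * g ^ 2 := by nlinarith
    have hg3 : 0 < 9 / 4 * g ^ 2 := by positivity
    obtain ⟨θ, hθ1, hθ2⟩ : ∃ θ : ℝ, x ^ 2 / (9 / 4 * g ^ 2) < θ ∧ θ < 1 :=
      exists_between ((div_lt_one hg3).2 hg2)
    have hθ0 : 0 < θ := lt_trans (by positivity) hθ1
    have hθ3 : 0 < θ * (9 / 4) * g ^ 2 - x ^ 2 := by
      rw [div_lt_iff₀ hg3] at hθ1
      linarith
    obtain ⟨C, hC⟩ := hD θ hθ0 hθ2
    have h1 := (pf_pk_exp (θ * (9 / 4) * g ^ 2 - x ^ 2) hθ3).const_mul C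
    rw [mul_zero] at h1
    refine squeeze_zero_norm' ?_ h1
    filter_upwards [Ioc_mem_nhdsGT (show (0 : ℝ) < 1 by norm_num)] with t ht
    have ht0 : 0 < t := ht.1
    have h2 := hC t ht0 ht.2
    have e0 : (∑ i, H (h i) t - ∑ i, H (h' i) t) * Real.exp (x ^ 2 / t) / √t +
      (∑ i, O (o i) t - ∑ i, O (o' i) t) * Real.exp (x ^ 2 / t) / √t =
      ((∑ k, H (h k) t + ∑ i, O (o i) t) - (∑ k, H (h' k) t + ∑ i, O (o' i) t)) *
        Real.exp (x ^ 2 / t) / √t := by ring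
    rw [e0, Real.norm_eq_abs, abs_div, abs_mul, abs_of_pos (Real.exp_pos _),
      abs_of_nonneg (Real.sqrt_nonneg t)]
    have e1 : C * (Real.exp (-((θ * (9 / 4) * g ^ 2 - x ^ 2) / t)) / √t) =
        C * Real.exp (-(θ * (9 / 4) * g ^ 2 / t)) * Real.exp (x ^ 2 / t) / √t := by
      rw [mul_assoc C, ← Real.exp_add, mul_div_assoc]
      congr 3
      field_simp
      ring
    rw [e1]
    gcongr
  have A5 := tendsto_nhds_unique A3 A4
  linarith

end Pool.Agent.H212AN
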