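import Pool.Agent.H212AN.D1

set_option autoImplicit false

namespace Pool.Agent.H212AN

open MeasureTheory Set Filter Topology Metric
open Pool.Agent.H212AN.G (nG PG gm)
open scoped Real ENNReal

/-- the supporting line in the direction `θ` touches the loop in one point -/
def pf_sing_P (θ : ℝ) (b : Lo) : Prop := ∀ s t : unitInterval,
  (∀ u, yy θ (b u) ≤ yy θ (b s)) → (∀ u, yy θ (b u) ≤ yy θ (b t)) → b s = b t

/-- there are two touching points of distance at least `1 / (n + 1)` -/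
def pf_sing_N (n : ℕ) : Set (ℝ × Lo) := {p | ∃ st : unitInterval × unitInterval,
    1 / ((n:ℝ) + 1) ≤ ‖p.2 st.1 - p.2 st.2‖ ∧ (∀ u, yy p.1 (p.2 u) ≤ yy p.1 (p.2 st.1)) ∧
      (∀ u, yy p.1 (p.2 u) ≤ yy p.1 (p.2 st.2))}

theorem pf_sing_cont {X : Type} [TopologicalSpace X] {θ : X → ℝ} {k : X → ℂ} (hθ : Continuous θ)
    (hk : Continuous k) : Continuous (fun x => yy (θ x) (k x)) := by
  unfold yy
  fun_prop

theorem pf_sing_closed (n : ℕ) : IsClosed (pf_sing_N n) := by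
  have hC : IsClosed {q : (ℝ × Lo) × (unitInterval × unitInterval) |
      1 / ((n:ℝ) + 1) ≤ ‖q.1.2 q.2.1 - q.1.2 q.2.2‖ ∧
      (∀ u, yy q.1.1 (q.1.2 u) ≤ yy q.1.1 (q.1.2 q.2.1)) ∧
      (∀ u, yy q.1.1 (q.1.2 u) ≤ yy q.1.1 (q.1.2 q.2.2))} := by
    have h1 : Continuous (fun q : (ℝ × Lo) × (unitInterval × unitInterval) => q.1.2 q.2.1) :=
      Continuous.eval (by fun_prop) (by fun_prop)
    have h2 : Continuous (fun q : (ℝ × Lo) × (unitInterval × unitInterval) => q.1.2 q.2.2) :=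
      Continuous.eval (by fun_prop) (by fun_prop)
    have h3 : ∀ u : unitInterval,
        Continuous (fun q : (ℝ × Lo) × (unitInterval × unitInterval) => q.1.2 u) := fun u =>
      Continuous.eval (by fun_prop) continuous_const
    have h0 : Continuous (fun q : (ℝ × Lo) × (unitInterval × unitInterval) => q.1.1) := by fun_prop
    have k1 : IsClosed {q : (ℝ × Lo) × (unitInterval × unitInterval) |
        ∀ u, yy q.1.1 (q.1.2 u) ≤ yy q.1.1 (q.1.2 q.2.1)} := by
      have e : {q : (ℝ × Lo) × (unitInterval × unitInterval) |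
          ∀ u, yy q.1.1 (q.1.2 u) ≤ yy q.1.1 (q.1.2 q.2.1)} =
          ⋂ u, {q | yy q.1.1 (q.1.2 u) ≤ yy q.1.1 (q.1.2 q.2.1)} := by
        ext q
        simp
      rw [e]
      exact isClosed_iInter fun u => isClosed_le (pf_sing_cont h0 (h3 u)) (pf_sing_cont h0 h1)
    have k2 : IsClosed {q : (ℝ × Lo) × (unitInterval × unitInterval) |
        ∀ u, yy q.1.1 (q.1.2 u) ≤ yy q.1.1 (q.1.2 q.2.2)} := by
      have e : {q : (ℝ × Lo) × (unitInterval × unitInterval) |
          ∀ u, yy q.1.1 (q.1.2 u) ≤ yy q.1.1 (q.1.2 q.2.2)} =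
          ⋂ u, {q | yy q.1.1 (q.1.2 u) ≤ yy q.1.1 (q.1.2 q.2.2)} := by
        ext q
        simp
      rw [e]
      exact isClosed_iInter fun u => isClosed_le (pf_sing_cont h0 (h3 u)) (pf_sing_cont h0 h2)
    exact (isClosed_le continuous_const (h1.sub h2).norm).inter (k1.inter k2)
  have h4 := (isClosedMap_fst_of_compactSpace (X := ℝ × Lo) (Y := unitInterval × unitInterval)) _ hC
  convert h4 using 1
  ext p
  constructor
  · rintro ⟨st, h⟩
    exact ⟨(p, st), h, rfl⟩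
  · rintro ⟨⟨p', st⟩, h, rfl⟩
    exact ⟨st, h⟩

theorem pf_sing_meas : MeasurableSet {p : ℝ × Lo | pf_sing_P p.1 p.2} := by
  have h : {p : ℝ × Lo | pf_sing_P p.1 p.2}ᶜ = ⋃ n, pf_sing_N n := by
    ext p
    rw [mem_compl_iff, mem_iUnion]
    constructor
    · intro hp
      have hp : ¬ pf_sing_P p.1 p.2 := hp
      unfold pf_sing_P at hp
      push Not at hp
      obtain ⟨s, t, h1, h2, h3⟩ := hp
      obtain ⟨n, hn⟩ := exists_nat_one_div_lt (norm_pos_iff.2 (sub_ne_zero.2 h3))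
      exact ⟨n, (s, t), hn.le, h1, h2⟩
    · rintro ⟨n, ⟨s, t⟩, h1, h2, h3⟩ hp
      have h4 := hp s t h2 h3
      have h5 : (0:ℝ) < 1 / ((n:ℝ) + 1) := by positivity
      simp only at h1
      rw [h4, sub_self, norm_zero] at h1
      exact absurd h1 (not_le.2 h5)
  refine MeasurableSet.of_compl ?_
  rw [h]
  exact MeasurableSet.iUnion fun n => (pf_sing_closed n).measurableSet

theorem pf_sing_rg (b : Lo) : IsCompact (rg b) ∧ (rg b).Nonempty ∧ rg b ⊆ closedBall 0 ‖b‖ := by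
  refine ⟨isCompact_range b.continuous, range_nonempty b, ?_⟩
  rintro _ ⟨t, rfl⟩
  rw [mem_closedBall_zero_iff]
  exact b.norm_coe_le_norm t

theorem pf_sing_ext {θ : ℝ} {k k' : ℂ} (hx : xx θ k = xx θ k') (hy : yy θ k = yy θ k') :
    k = k' := by
  unfold xx at hx
  unfold yy at hy
  have h := Real.sin_sq_add_cos_sq θ
  apply Complex.ext
  · linear_combination Real.cos θ * hy - Real.sin θ * hx - (k.re - k'.re) * h
  · linear_combination Real.sin θ * hy + Real.cos θ * hx - (k.im - k'.im) * h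

theorem pf_sing_ae (h2 : S_hs) (b : Lo) : ∀ᵐ θ : ℝ, pf_sing_P θ b := by
  obtain ⟨hc, hne, hb⟩ := pf_sing_rg b
  obtain ⟨hf, hle, _, hlip, _, _, hp, hm, _, _, hx, _, _⟩ := h2 (rg b) ‖b‖ hc hne hb
  filter_upwards [hlip.ae_differentiableAt_real] with θ hθ
  intro s t hss htt
  have hface : ∀ r : unitInterval, (∀ u, yy θ (b u) ≤ yy θ (b r)) → b r ∈ face (rg b) θ := by
    intro r hr
    refine ⟨⟨r, rfl⟩, le_antisymm (hle θ _ ⟨r, rfl⟩) ?_⟩
    obtain ⟨k, ⟨u, rfl⟩, hk⟩ := hf θ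
    rw [← hk]
    exact hr u
  have hxp : xp (rg b) θ = deriv (hs (rg b)) θ :=
    (uniqueDiffWithinAt_Ici θ).eq_deriv _ (hp θ) hθ.hasDerivAt.hasDerivWithinAt
  have hxm : xm (rg b) θ = deriv (hs (rg b)) θ :=
    (uniqueDiffWithinAt_Iic θ).eq_deriv _ (hm θ) hθ.hasDerivAt.hasDerivWithinAt
  have e1 := hx θ _ (hface s hss)
  have e2 := hx θ _ (hface t htt)
  rw [hxp, hxm] at e1 e2
  refine pf_sing_ext (θ := θ) ?_ (le_antisymm (htt s) (hss t))
  linarith [e1.1, e1.2, e2.1, e2.2]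

theorem pf_sing_rot (θ : ℝ) (b : Lo) :
    pf_sing_P θ b ↔ pf_sing_P 0 (Complex.exp (-(θ * Complex.I)) • b) := by
  have h : ∀ k : ℂ, yy 0 (Complex.exp (-(θ * Complex.I)) * k) = yy θ k := by
    intro k
    have e : Complex.exp (-(θ * Complex.I)) = Complex.cos θ - Complex.sin θ * Complex.I := by
      rw [← neg_mul, Complex.exp_mul_I, Complex.cos_neg, Complex.sin_neg]
      ring
    rw [e]
    simp only [yy, Complex.mul_re, Complex.sub_re, Complex.sub_im, Complex.mul_im, Complex.I_re,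
      Complex.I_im, Real.cos_zero, Real.sin_zero, ← Complex.ofReal_cos, ← Complex.ofReal_sin,
      Complex.ofReal_re, Complex.ofReal_im]
    ring
  have hne : Complex.exp (-(θ * Complex.I)) ≠ 0 := Complex.exp_ne_zero _
  unfold pf_sing_P
  have e : ∀ u : unitInterval, (Complex.exp (-(θ * Complex.I)) • b) u =
    Complex.exp (-(θ * Complex.I)) * b u := fun u => rfl
  simp only [e, h, mul_right_inj' hne]

theorem pf_sing (h1 : S_rot) (h2 : S_hs) : S_sing := by
  intro μ hμ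
  have := hμ.prob
  have h3 : ∀ᵐ θ : ℝ, ∀ᵐ b ∂μ, pf_sing_P θ b :=
    (Measure.ae_ae_comm pf_sing_meas).2 (Eventually.of_forall fun b => pf_sing_ae h2 b)
  obtain ⟨θ, hθ⟩ := h3.exists
  have hc : ‖Complex.exp (-(θ * Complex.I))‖ = 1 := by
    rw [Complex.norm_exp]
    simp
  have h4 := (h1 μ hμ).1 _ hc
  have hm0 : MeasurableSet {b : Lo | pf_sing_P 0 b} :=
    (measurable_prodMk_left (x := (0:ℝ))) pf_sing_meas
  have hcont : Continuous (fun b : Lo => Complex.exp (-(θ * Complex.I)) • b) :=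
    continuous_const_smul _
  have h5 : ∀ᵐ b ∂μ, pf_sing_P 0 b := by
    rw [← h4, ae_map_iff hcont.measurable.aemeasurable hm0]
    filter_upwards [hθ] with b hb
    exact (pf_sing_rot θ b).1 hb
  filter_upwards [h5] with b hb
  obtain ⟨hc, hne, hbb⟩ := pf_sing_rg b
  obtain ⟨hf, hle, _⟩ := h2 (rg b) ‖b‖ hc hne hbb
  rintro _ ⟨⟨s, rfl⟩, hs⟩ _ ⟨⟨t, rfl⟩, ht⟩
  refine hb s t (fun u => ?_) (fun u => ?_)
  · rw [hs]
    exact hle 0 _ ⟨u, rfl⟩
  · rw [ht]
    exact hle 0 _ ⟨u, rfl⟩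

end Pool.Agent.H212AN
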