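import Pool.Agent.H212AN.E2
import Pool.Agent.Y289.SQ.Stm

set_option autoImplicit false

/-!
# Project H212AN: the heat trace of the unit square
-/

namespace Pool.Agent.H212AN

/-- the heat trace of the unit square -/
def S_sqz : Prop := ZSq Pool.Agent.Y289.SQ.Z

end Pool.Agent.H212AN
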